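import Pool.Agent.Lib.G6.AMir

set_option autoImplicit false
set_option linter.unusedSectionVars false

namespace Pool.Agent.Lib.G6.A

open Equiv Finset Pool.Agent.Lib.MP_bfaad3_co

section
variable {D : Type} [Fintype D] [DecidableEq D]

/-- sum of the colours at the vertex of `d` -/
def vsum (σ : Perm D) (c : D → K4) (d : D) : K4 := ∑ e ∈ orb σ d, c e

/-- number of darts of `S` whose edge stays in `S` -/
def inn (α : Perm D) (S : Finset D) : ℕ := (S.filter fun d => α d ∈ S).card

/-- number of darts of `S` whose edge leaves `S` -/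
def bdy (α : Perm D) (S : Finset D) : ℕ := (S.filter fun d => α d ∉ S).card

/-- a union of `Z`-vertices -/
def ZSet (σ : Perm D) (Z : D → Prop) (S : Finset D) : Prop := ∀ d ∈ S, Z d ∧ σ d ∈ S

/-- the induction class: plane maps with cubic `Z`-vertices and arbitrary `N`-vertices -/
structure Cls (σ α : Perm D) (Z : D → Prop) : Prop where
  inv : ∀ d, α (α d) = d
  fpf : ∀ d, α d ≠ d
  gen : Gen0 σ α
  typ : ∀ d, Z (σ d) ↔ Z d
  deg1 : ∀ d, Z d → σ d ≠ d
  deg3 : ∀ d, Z d → σ (σ (σ d)) = d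
  j0 : ∀ S, ZSet σ Z S → S.Nonempty → 2 * S.card ≤ 3 * inn α S → 6 ≤ bdy α S
  j1 : ∀ S n, ZSet σ Z S → ¬ Z n → 2 * S.card + 6 ≤ 3 * inn α (S ∪ orb σ n) →
    5 ≤ bdy α (S ∪ orb σ n)

/-- the vertex conditions (the value zero is allowed on edges) -/
structure Flow (σ α : Perm D) (Z : D → Prop) (c : D → K4) : Prop where
  sym : ∀ d, c (α d) = c d
  zs : ∀ d, Z d → vsum σ c d = 0
  ns : ∀ d, ¬ Z d → vsum σ c d ≠ 0

/-- colourable -/
def Col (σ α : Perm D) (Z : D → Prop) : Prop := ∃ c, Flow σ α Z c ∧ ∀ d, c d ≠ 0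

/-- a minimal counterexample; the measure is `2 * #darts - #vertices` -/
structure MinCE (σ α : Perm D) (Z : D → Prop) : Prop where
  cls : Cls σ α Z
  ncol : ¬ Col σ α Z
  min : ∀ (E : Type) [Fintype E] [DecidableEq E] (τ β : Perm E) (Y : E → Prop), Cls τ β Y →
    2 * Fintype.card E + cyc σ < 2 * Fintype.card D + cyc τ → Col τ β Y

end

variable {D : Type} [Fintype D] [DecidableEq D]

theorem k4_add_self (a : K4) : a + a = 0 := by revert a; decide

theorem k4_avoid (a b : K4) : ∃ t : K4, t ≠ 0 ∧ a + t ≠ 0 ∧ b + t ≠ 0 := by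
  revert a b; decide

theorem self_mem_orb (σ : Perm D) (d : D) : d ∈ orb σ d := mem_orb.2 (Perm.SameCycle.refl _ _)

theorem orb_eq {σ : Perm D} {d e : D} (h : σ.SameCycle d e) : orb σ d = orb σ e := by
  ext f
  simp only [mem_orb]
  exact ⟨fun k => h.symm.trans k, fun k => h.trans k⟩

theorem vsum_eq {σ : Perm D} {d e : D} (h : σ.SameCycle d e) (c : D → K4) :
    vsum σ c d = vsum σ c e := by
  unfold vsum
  rw [orb_eq h]

omit [DecidableEq D] in
theorem sc_ind {σ : Perm D} {P : D → Prop} (hP : ∀ d, P d → P (σ d)) {d e : D}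
    (h : σ.SameCycle d e) (hd : P d) : P e := by
  classical
  obtain ⟨n, rfl⟩ := h.exists_nat_pow_eq
  clear h
  induction n with
  | zero => exact hd
  | succ n ih => rw [perm_pow_step]; exact hP _ ih

omit [DecidableEq D] in
theorem sc_fix {σ : Perm D} {d e : D} (hd : σ d = d) (h : σ.SameCycle d e) : e = d :=
  sc_ind (P := fun f => f = d) (fun f hf => by rw [hf, hd]) h rfl

theorem orb_fix {σ : Perm D} {d : D} (hd : σ d = d) : orb σ d = {d} := by
  ext e
  simp only [mem_orb, mem_singleton]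
  exact ⟨sc_fix hd, fun h => h ▸ Perm.SameCycle.refl _ _⟩

omit [DecidableEq D] in
/-- two permutations that agree on an invariant set have the same cycles there -/
theorem sc_congr {σ τ : Perm D} {P : D → Prop} (hP : ∀ d, P d → P (σ d))
    (h : ∀ d, P d → τ d = σ d) {d : D} (hd : P d) (e : D) :
    τ.SameCycle d e ↔ σ.SameCycle d e := by
  constructor
  · intro k
    exact (sc_ind (P := fun f => P f ∧ σ.SameCycle d f) (fun f hf => by
      rw [h f hf.1]
      exact ⟨hP f hf.1, hf.2.trans (perm_sc_step σ f)⟩) k ⟨hd, Perm.SameCycle.refl _ _⟩).2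
  · intro k
    exact (sc_ind (P := fun f => P f ∧ τ.SameCycle d f) (fun f hf => by
      refine ⟨hP f hf.1, ?_⟩
      rw [← h f hf.1]
      exact hf.2.trans (perm_sc_step τ f)) k ⟨hd, Perm.SameCycle.refl _ _⟩).2

theorem inn_add_bdy (α : Perm D) (S : Finset D) : inn α S + bdy α S = S.card :=
  Finset.card_filter_add_card_filter_not _

namespace Cls

variable {σ α : Perm D} {Z : D → Prop}

theorem typ_sc (h : Cls σ α Z) {d e : D} (k : σ.SameCycle d e) : Z d ↔ Z e :=
  ⟨sc_ind (fun f => (h.typ f).2) k, sc_ind (fun f => (h.typ f).2) k.symm⟩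

theorem orb_z (h : Cls σ α Z) {d : D} (hd : Z d) : orb σ d = {d, σ d, σ (σ d)} := by
  ext e
  simp only [mem_orb, mem_insert, mem_singleton]
  constructor
  · intro k
    refine sc_ind (P := fun f => f = d ∨ f = σ d ∨ f = σ (σ d)) ?_ k (Or.inl rfl)
    rintro f (rfl | rfl | rfl)
    · exact Or.inr (Or.inl rfl)
    · exact Or.inr (Or.inr rfl)
    · exact Or.inl (h.deg3 d hd)
  · rintro (rfl | rfl | rfl)
    · exact Perm.SameCycle.refl _ _
    · exact perm_sc_step σ d
    · exact (perm_sc_step σ d).trans (perm_sc_step σ _)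

theorem deg2 (h : Cls σ α Z) {d : D} (hd : Z d) : σ (σ d) ≠ d := by
  intro k
  have := h.deg3 d hd
  rw [k] at this
  exact h.deg1 d hd this

theorem card_orb_z (h : Cls σ α Z) {d : D} (hd : Z d) : (orb σ d).card = 3 := by
  rw [h.orb_z hd, card_eq_three]
  exact ⟨_, _, _, (h.deg1 d hd).symm, (h.deg2 hd).symm,
    (h.deg1 _ ((h.typ d).2 hd)).symm, rfl⟩

theorem vsum_z (h : Cls σ α Z) {d : D} (hd : Z d) (c : D → K4) :
    vsum σ c d = c d + c (σ d) + c (σ (σ d)) := by
  unfold vsum
  rw [h.orb_z hd, sum_insert, sum_insert, sum_singleton, add_assoc]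
  · rw [mem_singleton]
    exact (h.deg1 _ ((h.typ d).2 hd)).symm
  · simp only [mem_insert, mem_singleton, not_or]
    exact ⟨(h.deg1 d hd).symm, (h.deg2 hd).symm⟩

theorem zset_orb (h : Cls σ α Z) {d : D} (hd : Z d) : ZSet σ Z (orb σ d) := fun e he =>
  ⟨(h.typ_sc (mem_orb.1 he)).1 hd, mem_orb.2 ((mem_orb.1 he).trans (perm_sc_step σ e))⟩

end Cls

theorem ZSet.union {σ : Perm D} {Z : D → Prop} {S T : Finset D} (hS : ZSet σ Z S)
    (hT : ZSet σ Z T) : ZSet σ Z (S ∪ T) := by
  intro d hd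
  rcases mem_union.1 hd with k | k
  · exact ⟨(hS d k).1, mem_union_left _ (hS d k).2⟩
  · exact ⟨(hT d k).1, mem_union_right _ (hT d k).2⟩

/-- removal of the dart `x` from its cycle -/
def rem (σ : Perm D) (x : D) : Perm D := σ * swap x (σ⁻¹ x)

omit [Fintype D] in
theorem rem_self (σ : Perm D) (x : D) : rem σ x x = x := by
  simp [rem]

omit [Fintype D] in
theorem rem_of_ne (σ : Perm D) {x d : D} (h1 : d ≠ x) (h2 : σ d ≠ x) : rem σ x d = σ d := by
  unfold rem
  rw [Perm.mul_apply, swap_apply_of_ne_of_ne h1]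
  rintro rfl
  exact h2 (by simp)

omit [Fintype D] in
theorem rem_fix (σ : Perm D) (x : D) {d : D} (h : σ d = d) : rem σ x d = d := by
  by_cases h1 : d = x
  · rw [h1, rem_self]
  · rw [rem_of_ne σ h1 (by rw [h]; exact h1), h]

omit [Fintype D] [DecidableEq D] in
theorem sc_inv (σ : Perm D) (x : D) : σ.SameCycle x (σ⁻¹ x) := ⟨-1, by simp⟩

theorem gen0_rem {σ α : Perm D} (h : Gen0 σ α) (x : D) : Gen0 (rem σ x) α :=
  gen0_split σ α h _ _ (sc_inv σ x)

theorem cyc_rem (σ : Perm D) {x : D} (h : σ x ≠ x) : cyc (rem σ x) = cyc σ + 1 :=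
  cyc_swap_same σ _ _ (fun k => h (by
    conv_lhs => rw [k]
    simp)) (sc_inv σ x)

theorem cyc_rem_le (σ : Perm D) (x : D) : cyc σ ≤ cyc (rem σ x) := by
  by_cases h : σ x = x
  · have : σ⁻¹ x = x := by rw [Perm.inv_eq_iff_eq, h]
    unfold rem
    rw [this, swap_self]
    exact le_rfl
  · rw [cyc_rem σ h]
    omega

theorem sc_rem (σ : Perm D) (x : D) {u v : D} (hu : u ≠ x) (hv : v ≠ x) :
    (rem σ x).SameCycle u v ↔ σ.SameCycle u v := by
  by_cases h : σ⁻¹ x = x
  · unfold rem
    rw [h, swap_self]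
    rfl
  · have h1 : ¬ (rem σ x).SameCycle x (σ⁻¹ x) := fun k => h (sc_fix (rem_self σ x) k)
    have h2 := sameCycle_swap_diff (rem σ x) x (σ⁻¹ x) h1 u v
    have h3 : rem σ x * swap x (σ⁻¹ x) = σ := by
      unfold rem
      rw [mul_assoc, swap_mul_self, mul_one]
    rw [h3] at h2
    rw [h2]
    refine ⟨Or.inl, ?_⟩
    rintro (k | ⟨k, -⟩ | ⟨-, k⟩)
    · exact k
    · exact absurd (sc_fix (rem_self σ x) k.symm) hu
    · exact absurd (sc_fix (rem_self σ x) k.symm) hv

omit [Fintype D] in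
theorem inn_pair {α : Perm D} (hα : ∀ d, α (α d) = d) {x : D} (hx : α x ≠ x) {T : Finset D}
    (h1 : x ∉ T) (h2 : α x ∉ T) : inn α (T ∪ {x, α x}) = inn α T + 2 := by
  unfold inn
  have : (T ∪ {x, α x}).filter (fun d => α d ∈ T ∪ {x, α x}) =
      T.filter (fun d => α d ∈ T) ∪ {x, α x} := by
    ext d
    simp only [mem_filter, mem_union, mem_insert, mem_singleton]
    constructor
    · rintro ⟨k | k, l | l | l⟩
      · exact Or.inl ⟨k, l⟩
      · exact absurd (by rw [← l, hα]; exact k) h2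
      · exact absurd (by rw [← α.injective l]; exact k) h1
      all_goals exact Or.inr k
    · rintro (⟨k, l⟩ | rfl | rfl)
      · exact ⟨Or.inl k, Or.inl l⟩
      · exact ⟨Or.inr (Or.inl rfl), Or.inr (Or.inr rfl)⟩
      · exact ⟨Or.inr (Or.inr rfl), Or.inr (Or.inl (hα x))⟩
  rw [this, card_union_of_disjoint, card_pair hx.symm]
  rw [disjoint_left]
  intro d hd k
  simp only [mem_insert, mem_singleton] at k
  rcases k with rfl | rfl
  · exact h1 (mem_filter.1 hd).1
  · exact h2 (mem_filter.1 hd).1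

omit [Fintype D] in
theorem bdy_pair {α : Perm D} (hα : ∀ d, α (α d) = d) {x : D} (hx : α x ≠ x) {T : Finset D}
    (h1 : x ∉ T) (h2 : α x ∉ T) : bdy α (T ∪ {x, α x}) = bdy α T := by
  have e1 : inn α (T ∪ {x, α x}) + bdy α (T ∪ {x, α x}) = (T ∪ {x, α x}).card :=
    Finset.card_filter_add_card_filter_not _
  have e2 : inn α T + bdy α T = T.card := Finset.card_filter_add_card_filter_not _
  rw [inn_pair hα hx h1 h2, card_union_of_disjoint, card_pair hx.symm] at e1
  · omega
  · rw [disjoint_left]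
    intro d hd k
    simp only [mem_insert, mem_singleton] at k
    rcases k with rfl | rfl
    · exact h1 hd
    · exact h2 hd

section Sub
variable {p : D → Prop} [DecidablePred p]

omit [Fintype D] in
theorem inn_sub {α : Perm D} (hp : ∀ d, p (α d) ↔ p d) (S : Finset {d // p d}) :
    inn (α.subtypePerm hp) S = inn α (S.map (Function.Embedding.subtype p)) := by
  unfold inn
  rw [filter_map, card_map]
  congr 1
  ext d
  simp only [mem_filter, Function.comp, mem_map, Function.Embedding.coe_subtype]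
  refine and_congr_right fun _ => ⟨fun k => ⟨_, k, rfl⟩, ?_⟩
  rintro ⟨e, he, k⟩
  have : α.subtypePerm hp d = e := Subtype.ext k.symm
  rwa [this]

omit [Fintype D] in
theorem bdy_sub {α : Perm D} (hp : ∀ d, p (α d) ↔ p d) (S : Finset {d // p d}) :
    bdy (α.subtypePerm hp) S = bdy α (S.map (Function.Embedding.subtype p)) := by
  have e1 : inn (α.subtypePerm hp) S + bdy (α.subtypePerm hp) S = S.card :=
    Finset.card_filter_add_card_filter_not _
  have e2 : inn α (S.map (Function.Embedding.subtype p)) +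
      bdy α (S.map (Function.Embedding.subtype p)) = (S.map (Function.Embedding.subtype p)).card :=
    Finset.card_filter_add_card_filter_not _
  rw [card_map, ← inn_sub hp] at e2
  omega

/-- extension by zero -/
def ext0 (c : {d // p d} → K4) (d : D) : K4 := if h : p d then c ⟨d, h⟩ else 0

theorem vsum_sub (τ : Perm {d // p d}) (c : {d // p d} → K4) (u : {d // p d}) (A : Finset D)
    (hA : ∀ v : {d // p d}, τ.SameCycle u v ↔ v.1 ∈ A) : vsum τ c u = ∑ e ∈ A, ext0 c e := by
  unfold vsum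
  have h1 : ∑ e ∈ A, ext0 c e = ∑ e ∈ A.filter p, ext0 c e := by
    rw [sum_filter]
    refine sum_congr rfl fun e _ => ?_
    by_cases he : p e
    · rw [if_pos he]
    · rw [if_neg he, ext0, dif_neg he]
  have h2 : A.filter p = (orb τ u).map (Function.Embedding.subtype p) := by
    ext e
    simp only [mem_filter, mem_map, mem_orb, Function.Embedding.coe_subtype]
    constructor
    · rintro ⟨k, l⟩
      exact ⟨⟨e, l⟩, (hA _).2 k, rfl⟩
    · rintro ⟨v, k, rfl⟩
      exact ⟨(hA v).1 k, v.2⟩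
  rw [h1, h2, sum_map]
  refine sum_congr rfl fun e _ => ?_
  simp only [Function.Embedding.coe_subtype, ext0, dif_pos e.2]

end Sub

end Pool.Agent.Lib.G6.A
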