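import Pool.Agent.Lib.G6.ARed

set_option autoImplicit false
set_option linter.unusedSectionVars false

namespace Pool.Agent.Lib.G6.A

open Equiv Finset Pool.Agent.Lib.MP_bfaad3_co

variable {D : Type} [Fintype D] [DecidableEq D] {σ α : Perm D} {Z : D → Prop}

theorem sc_con {x y : D} (hxy : ¬ σ.SameCycle x y) (u v : {d // Off x y d}) :
    (del (σ * swap x y) x y).SameCycle u v ↔ σ.SameCycle u.1 v.1 ∨
      (σ.SameCycle u.1 x ∧ σ.SameCycle v.1 y) ∨ (σ.SameCycle u.1 y ∧ σ.SameCycle v.1 x) := by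
  rw [sc_del, sameCycle_swap_diff σ x y hxy]

theorem sc_con_in {x y : D} (hxy : ¬ σ.SameCycle x y) (u : {d // Off x y d})
    (hu : σ.SameCycle u.1 x ∨ σ.SameCycle u.1 y) (v : {d // Off x y d}) :
    (del (σ * swap x y) x y).SameCycle u v ↔ v.1 ∈ orb σ y ∪ orb σ x := by
  rw [sc_con hxy, mem_union, mem_orb, mem_orb]
  constructor
  · rintro (k | ⟨-, k⟩ | ⟨-, k⟩)
    · rcases hu with l | l
      · exact Or.inr (l.symm.trans k)
      · exact Or.inl (l.symm.trans k)
    · exact Or.inl k.symm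
    · exact Or.inr k.symm
  · rintro (k | k) <;> rcases hu with l | l
    · exact Or.inr (Or.inl ⟨l, k.symm⟩)
    · exact Or.inl (l.trans k)
    · exact Or.inl (l.trans k)
    · exact Or.inr (Or.inr ⟨l, k.symm⟩)

theorem sc_con_out {x y : D} (hxy : ¬ σ.SameCycle x y) (u : {d // Off x y d})
    (h1 : ¬ σ.SameCycle u.1 x) (h2 : ¬ σ.SameCycle u.1 y) (v : {d // Off x y d}) :
    (del (σ * swap x y) x y).SameCycle u v ↔ v.1 ∈ orb σ u.1 := by
  rw [sc_con hxy, mem_orb]
  tauto

/-- contraction of an edge between an `N`-vertex and a `Z`-vertex -/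
theorem Cls.con_cls (h : Cls σ α Z) {x : D} (hx : ¬ Z x) (hy : Z (α x)) :
    Cls (del (σ * swap x (α x)) x (α x)) (α.subtypePerm (h.off_alpha x))
      (fun u => Z u.1 ∧ ¬ σ.SameCycle u.1 (α x)) := by
  have hxy : ¬ σ.SameCycle x (α x) := fun k => hx ((h.typ_sc k).2 hy)
  have hzx : ∀ d, Z d → ¬ σ.SameCycle d x := fun d hd k => hx ((h.typ_sc k).1 hd)
  have key : ∀ u : {d // Off x (α x) d}, (Z u.1 ∧ ¬ σ.SameCycle u.1 (α x)) →
      (del (σ * swap x (α x)) x (α x) u).1 = σ u.1 := by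
    intro u hu
    have e : (σ * swap x (α x)) u.1 = σ u.1 := by
      rw [Perm.mul_apply, swap_apply_of_ne_of_ne u.2.1 u.2.2]
    rw [del_apply, e]
    rw [e]
    exact ⟨fun k => hx (k ▸ (h.typ _).2 hu.1), fun k => hu.2 ⟨1, by simpa using k⟩⟩
  have inv : ∀ u v : {d // Off x (α x) d}, (del (σ * swap x (α x)) x (α x)).SameCycle u v →
      (Z u.1 ∧ ¬ σ.SameCycle u.1 (α x)) → (Z v.1 ∧ ¬ σ.SameCycle v.1 (α x)) := by
    intro u v k hu
    have := mem_orb.1 ((sc_con_out hxy u (hzx _ hu.1) hu.2 v).1 k)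
    exact ⟨(h.typ_sc this).1 hu.1, fun l => hu.2 (this.trans l)⟩
  have typ : ∀ u : {d // Off x (α x) d},
      (Z (del (σ * swap x (α x)) x (α x) u).1 ∧
        ¬ σ.SameCycle (del (σ * swap x (α x)) x (α x) u).1 (α x)) ↔
      (Z u.1 ∧ ¬ σ.SameCycle u.1 (α x)) := fun u =>
    ⟨inv _ _ (perm_sc_step _ u).symm, inv _ _ (perm_sc_step _ u)⟩
  have gen : Gen0 (del (σ * swap x (α x)) x (α x)) (α.subtypePerm (h.off_alpha x)) := by
    have hα : ∀ d, Off x (α x) ((swap x (α x) * α) d) ↔ Off x (α x) d :=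
      off_inv (Or.inl ⟨by simp, by simp [h.inv]⟩)
    have g := gen0_del (gen0_move σ α h.gen x (α x) (perm_sc_step α x)) x (α x) hα
    have e : (swap x (α x) * α).subtypePerm hα = α.subtypePerm (h.off_alpha x) := by
      ext u
      have := (h.off_alpha x u.1).2 u.2
      exact swap_apply_of_ne_of_ne this.1 this.2
    rwa [e] at g
  refine ⟨fun u => Subtype.ext (h.inv u.1), fun u k => h.fpf u.1 (congrArg Subtype.val k),
    gen, typ, fun u hu k => h.deg1 u.1 hu.1 ?_, fun u hu => Subtype.ext ?_,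
    fun S hS hne hc => ?_, fun S n hS hn hc => ?_⟩
  · rw [← key u hu, k]
  · rw [key _ ((typ _).2 ((typ _).2 hu)), key _ ((typ _).2 hu), key _ hu, h.deg3 _ hu.1]
  · rw [bdy_sub]
    rw [inn_sub] at hc
    exact h.j0 _ (zset_map (fun u hu => ⟨hu.1, key u hu⟩) hS) (by simpa using hne)
      (by rwa [card_map])
  · rw [bdy_sub]
    rw [inn_sub] at hc
    have hZ := zset_map (σ := σ) (Z := Z) (fun u hu => ⟨hu.1, key u hu⟩) hS
    by_cases hnx : σ.SameCycle n.1 x ∨ σ.SameCycle n.1 (α x)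
    · have hj := h.j1 _ x (hZ.union (h.zset_orb hy)) hx
      have ho := map_orb _ n _ (sc_con_in hxy n hnx)
      have e : S.map (Function.Embedding.subtype _) ∪ orb σ (α x) ∪ orb σ x =
          (S ∪ orb (del (σ * swap x (α x)) x (α x)) n).map (Function.Embedding.subtype _) ∪
            {x, α x} := by
        rw [map_union, ho, union_assoc, union_assoc, filter_off_union
          (mem_union_right _ (self_mem_orb σ x)) (mem_union_left _ (self_mem_orb σ _))]
      have hm := not_mem_map_off (S ∪ orb (del (σ * swap x (α x)) x (α x)) n)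
      rw [e, inn_pair h.inv (h.fpf x) hm.1 hm.2, bdy_pair h.inv (h.fpf x) hm.1 hm.2,
        card_union_of_disjoint, card_map, h.card_orb_z hy] at hj
      · exact hj (le_trans (le_of_eq (by ring)) (le_trans (Nat.add_le_add_right hc 6)
          (le_of_eq (by rw [mul_add]))))
      · rw [disjoint_left]
        intro d hd k
        obtain ⟨u, hu, rfl⟩ := mem_map.1 hd
        exact (hS u hu).1.2 (mem_orb.1 k).symm
    · rw [not_or] at hnx
      have hj := h.j1 _ n.1 hZ fun k => hn ⟨k, hnx.2⟩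
      have ho := map_orb _ n _ (sc_con_out hxy n hnx.1 hnx.2)
      have e : S.map (Function.Embedding.subtype _) ∪ orb σ n.1 =
          (S ∪ orb (del (σ * swap x (α x)) x (α x)) n).map (Function.Embedding.subtype _) := by
        rw [map_union, ho, filter_off_self (fun k => hnx.1 (mem_orb.1 k))
          fun k => hnx.2 (mem_orb.1 k)]
      rw [e, card_map] at hj
      exact hj hc

theorem MinCE.con (h : MinCE σ α Z) {x : D} (hx : ¬ Z x) :
    ∃ c, Flow σ α Z c ∧ ∀ d, d ≠ x → d ≠ α x → c d ≠ 0 := by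
  have hy : Z (α x) := (h.nn x).resolve_left hx
  have hxy := h.noloop x
  have hne : x ≠ α x := (h.cls.fpf x).symm
  have hzx : ∀ d, Z d → ¬ σ.SameCycle d x := fun d hd k => hx ((h.cls.typ_sc k).1 hd)
  obtain ⟨c, hc, h0⟩ := h.min _ _ _ _ (h.cls.con_cls hx hy) (by
    have h1 := card_off hne
    have h2 := cyc_del (σ * swap x (α x)) hne
    have h3 := cyc_swap_diff σ x (α x) hxy
    omega)
  have hout : ∀ (t : K4) (d : D) (hd : Off x (α x) d), ¬ σ.SameCycle d x →
      ¬ σ.SameCycle d (α x) →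
      vsum σ (extT c t) d = vsum (del (σ * swap x (α x)) x (α x)) c ⟨d, hd⟩ := by
    intro t d hd h1 h2
    rw [vsum_sub _ c ⟨d, hd⟩ _ (sc_con_out hxy ⟨d, hd⟩ h1 h2)]
    unfold vsum
    rw [sum_extT hne, if_neg fun k => h1 (mem_orb.1 k), if_neg fun k => h2 (mem_orb.1 k),
      add_zero, add_zero]
  refine ⟨extT c (∑ e ∈ orb σ (α x), ext0 c e), ⟨extT_sym _ hc.sym _, fun d hd => ?_,
    fun d hd => ?_⟩, fun d h1 h2 => ?_⟩
  · by_cases k : σ.SameCycle d (α x)
    · rw [vsum_eq k]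
      unfold vsum
      rw [sum_extT hne, if_neg fun l => hxy (mem_orb.1 l).symm, if_pos (self_mem_orb σ _),
        zero_add, k4_add_self]
    · have ho : Off x (α x) d :=
        ⟨fun l => hx (l ▸ hd), fun l => k (l ▸ Perm.SameCycle.refl _ _)⟩
      rw [hout _ d ho (hzx d hd) k]
      exact hc.zs ⟨d, ho⟩ ⟨hd, k⟩
  · have hdy : ¬ σ.SameCycle d (α x) := fun k => hd ((h.cls.typ_sc k).2 hy)
    by_cases k : σ.SameCycle d x
    · have ho : Off x (α x) (σ (α x)) :=
        ⟨fun l => hx (l ▸ (h.cls.typ _).2 hy), h.cls.deg1 _ hy⟩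
      have hs : σ.SameCycle (σ (α x)) (α x) := (perm_sc_step σ _).symm
      have := hc.ns ⟨_, ho⟩ fun l => l.2 hs
      rw [vsum_sub _ c ⟨_, ho⟩ _ (sc_con_in hxy ⟨_, ho⟩ (Or.inr hs)), sum_union] at this
      · rw [vsum_eq k]
        unfold vsum
        rw [sum_extT hne, if_pos (self_mem_orb σ _), if_neg fun l => hxy (mem_orb.1 l),
          add_zero, add_comm]
        exact this
      · rw [disjoint_left]
        intro e h1 h2
        exact hxy ((mem_orb.1 h2).trans (mem_orb.1 h1).symm)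
    · have ho : Off x (α x) d :=
        ⟨fun l => k (l ▸ Perm.SameCycle.refl _ _), fun l => hd (l ▸ hy)⟩
      rw [hout _ d ho k hdy]
      exact hc.ns ⟨d, ho⟩ fun l => hd l.1
  · rw [extT_off c _ ⟨h1, h2⟩]
    exact h0 _

theorem MinCE.n1 (h : MinCE σ α Z) (x : D) : σ x ≠ x := by
  intro hf
  have hx : ¬ Z x := fun k => h.cls.deg1 x k hf
  obtain ⟨c, hc, h0⟩ := h.con hx
  have h1 := hc.ns x hx
  unfold vsum at h1
  rw [orb_fix hf, sum_singleton] at h1
  refine h.ncol ⟨c, hc, fun d => ?_⟩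
  by_cases k1 : d = x
  · rwa [k1]
  · by_cases k2 : d = α x
    · rwa [k2, hc.sym]
    · exact h0 d k1 k2

theorem single_bound2 (α : Perm D) (T : Finset D) (w : D) :
    inn α T ≤ inn α (T ∪ {w}) ∧ bdy α (T ∪ {w}) ≤ bdy α T + 1 := by
  constructor
  · refine card_le_card fun d hd => ?_
    simp only [mem_filter, mem_union] at hd ⊢
    exact ⟨Or.inl hd.1, Or.inl hd.2⟩
  · unfold bdy
    rw [← card_singleton w]
    refine le_trans (card_le_card fun d hd => ?_) (card_union_le _ _)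
    simp only [mem_filter, mem_union, not_or] at hd ⊢
    rcases hd.1 with k | k
    · exact Or.inl ⟨k, hd.2.1⟩
    · exact Or.inr k

/-- deletion of an edge between two `Z`-vertices, which become `N`-vertices -/
theorem Cls.cut_cls (h : Cls σ α Z) {x : D} (hx : Z x) (hy : Z (α x))
    (hxy : ¬ σ.SameCycle x (α x)) :
    Cls (del σ x (α x)) (α.subtypePerm (h.off_alpha x))
      (fun u => Z u.1 ∧ ¬ σ.SameCycle u.1 x ∧ ¬ σ.SameCycle u.1 (α x)) := by
  have key : ∀ u : {d // Off x (α x) d},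
      (Z u.1 ∧ ¬ σ.SameCycle u.1 x ∧ ¬ σ.SameCycle u.1 (α x)) →
      (del σ x (α x) u).1 = σ u.1 := fun u hu =>
    del_apply σ _ _ u ⟨fun k => hu.2.1 (⟨1, by simpa using k⟩),
      fun k => hu.2.2 (⟨1, by simpa using k⟩)⟩
  have inv : ∀ u v : {d // Off x (α x) d}, (del σ x (α x)).SameCycle u v →
      (Z u.1 ∧ ¬ σ.SameCycle u.1 x ∧ ¬ σ.SameCycle u.1 (α x)) →
      (Z v.1 ∧ ¬ σ.SameCycle v.1 x ∧ ¬ σ.SameCycle v.1 (α x)) := by
    intro u v k hu
    have := (sc_del σ _ _ u v).1 k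
    exact ⟨(h.typ_sc this).1 hu.1, fun l => hu.2.1 (this.trans l), fun l => hu.2.2 (this.trans l)⟩
  have typ : ∀ u : {d // Off x (α x) d},
      (Z (del σ x (α x) u).1 ∧ ¬ σ.SameCycle (del σ x (α x) u).1 x ∧
        ¬ σ.SameCycle (del σ x (α x) u).1 (α x)) ↔
      (Z u.1 ∧ ¬ σ.SameCycle u.1 x ∧ ¬ σ.SameCycle u.1 (α x)) := fun u =>
    ⟨inv _ _ (perm_sc_step _ u).symm, inv _ _ (perm_sc_step _ u)⟩
  refine ⟨fun u => Subtype.ext (h.inv u.1), fun u k => h.fpf u.1 (congrArg Subtype.val k),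
    gen0_del h.gen _ _ _, typ, fun u hu k => h.deg1 u.1 hu.1 ?_, fun u hu => Subtype.ext ?_,
    fun S hS hne hc => ?_, fun S n hS hn hc => ?_⟩
  · rw [← key u hu, k]
  · rw [key _ ((typ _).2 ((typ _).2 hu)), key _ ((typ _).2 hu), key _ hu, h.deg3 _ hu.1]
  · rw [bdy_sub]
    rw [inn_sub] at hc
    exact h.j0 _ (zset_map (fun u hu => ⟨hu.1, key u hu⟩) hS) (by simpa using hne)
      (by rwa [card_map])
  · rw [bdy_sub]
    rw [inn_sub] at hc
    have hZ := zset_map (σ := σ) (Z := Z) (fun u hu => ⟨hu.1, key u hu⟩) hS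
    have ho := map_orb (del σ x (α x)) n (orb σ n.1) fun v => by rw [sc_del, mem_orb]
    by_cases hz : Z n.1
    · obtain ⟨w, hw, e⟩ : ∃ w, (σ.SameCycle n.1 x ∨ σ.SameCycle n.1 (α x)) ∧
          (orb σ n.1).filter (Off x (α x)) ∪ {w} = orb σ n.1 := by
        by_cases k : σ.SameCycle n.1 x
        · refine ⟨x, Or.inl k, ?_⟩
          ext d
          simp only [mem_union, mem_filter, mem_orb, mem_singleton, Off]
          constructor
          · rintro (l | rfl)
            · exact l.1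
            · exact k
          · intro l
            by_cases m : d = x
            · exact Or.inr m
            · exact Or.inl ⟨l, m, fun m' => hxy (k.symm.trans (m' ▸ l))⟩
        · have k' : σ.SameCycle n.1 (α x) := by
            by_contra l
            exact hn ⟨hz, k, l⟩
          refine ⟨α x, Or.inr k', ?_⟩
          ext d
          simp only [mem_union, mem_filter, mem_orb, mem_singleton, Off]
          constructor
          · rintro (l | rfl)
            · exact l.1
            · exact k'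
          · intro l
            by_cases m : d = α x
            · exact Or.inr m
            · exact Or.inl ⟨l, fun m' => k (m' ▸ l), m⟩
      have hj := h.j0 _ (hZ.union (h.zset_orb hz)) ⟨n.1, mem_union_right _ (self_mem_orb σ _)⟩
      rw [card_union_of_disjoint, card_map, h.card_orb_z hz] at hj
      · have e2 : S.map (Function.Embedding.subtype _) ∪ orb σ n.1 =
            (S ∪ orb (del σ x (α x)) n).map (Function.Embedding.subtype _) ∪ {w} := by
          rw [map_union, ho, union_assoc, e]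
        rw [e2] at hj
        obtain ⟨b1, b2⟩ := single_bound2 α
          ((S ∪ orb (del σ x (α x)) n).map (Function.Embedding.subtype _)) w
        exact Nat.le_of_succ_le_succ (le_trans (hj (le_trans (le_of_eq (by ring))
          (le_trans hc (Nat.mul_le_mul_left 3 b1)))) b2)
      · rw [disjoint_left]
        intro d hd k
        obtain ⟨u, hu, rfl⟩ := mem_map.1 hd
        rcases hw with l | l
        · exact (hS u hu).1.2.1 ((mem_orb.1 k).symm.trans l)
        · exact (hS u hu).1.2.2 ((mem_orb.1 k).symm.trans l)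
    · have hj := h.j1 _ n.1 hZ hz
      have e : S.map (Function.Embedding.subtype _) ∪ orb σ n.1 =
          (S ∪ orb (del σ x (α x)) n).map (Function.Embedding.subtype _) := by
        rw [map_union, ho, filter_off_self (fun k => hz ((h.typ_sc (mem_orb.1 k)).2 hx))
          fun k => hz ((h.typ_sc (mem_orb.1 k)).2 hy)]
      rw [e, card_map] at hj
      exact hj hc

/-- a labelling in which the two halves of one edge are independent -/
def CutCol (σ α : Perm D) (Z : D → Prop) (e : D) : Prop :=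
  ∃ c : D → K4, (∀ d, d ≠ e → d ≠ α e → c (α d) = c d) ∧ (∀ d, c d ≠ 0) ∧
    (∀ d, Z d → vsum σ c d = 0) ∧ ∀ d, ¬ Z d → vsum σ c d ≠ 0

theorem MinCE.cut_zz (h : MinCE σ α Z) {x : D} (hx : Z x) (hy : Z (α x)) : CutCol σ α Z x := by
  have hxy := h.noloop x
  have hne : x ≠ α x := (h.cls.fpf x).symm
  obtain ⟨c, hc, h0⟩ := h.min _ _ _ _ (h.cls.cut_cls hx hy hxy) (by
    have h1 := card_off hne
    have h2 := cyc_del σ hne
    omega)
  have hv : ∀ u : {d // Off x (α x) d},
      vsum (del σ x (α x)) c u = ∑ e ∈ orb σ u.1, ext0 c e := fun u =>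
    vsum_sub _ c u _ fun v => by rw [sc_del, mem_orb]
  have ox : Off x (α x) (σ x) := ⟨h.n1 x, fun k => hxy (k ▸ perm_sc_step σ x)⟩
  have oy : Off x (α x) (σ (α x)) := ⟨fun k => hxy (k ▸ perm_sc_step σ (α x)).symm, h.n1 _⟩
  have tx := hc.ns ⟨_, ox⟩ fun l => l.2.1 (perm_sc_step σ x).symm
  have ty := hc.ns ⟨_, oy⟩ fun l => l.2.2 (perm_sc_step σ _).symm
  rw [hv, ← orb_eq (perm_sc_step σ _)] at tx ty
  set c' : D → K4 := fun d => ext0 c d + ((if x = d then ∑ e ∈ orb σ x, ext0 c e else 0) +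
    if α x = d then ∑ e ∈ orb σ (α x), ext0 c e else 0) with hc'
  have hs : ∀ d, vsum σ c' d = ∑ e ∈ orb σ d, ext0 c e +
      ((if x ∈ orb σ d then ∑ e ∈ orb σ x, ext0 c e else 0) +
        if α x ∈ orb σ d then ∑ e ∈ orb σ (α x), ext0 c e else 0) := by
    intro d
    unfold vsum
    rw [hc', sum_add_distrib, sum_add_distrib, sum_ite_eq, sum_ite_eq]
  have hoff : ∀ d (hd : Off x (α x) d), c' d = c ⟨d, hd⟩ := by
    intro d hd
    simp only [hc', ext0, dif_pos hd, if_neg (Ne.symm hd.1), if_neg (Ne.symm hd.2), add_zero]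
  have hout : ∀ d (hd : Off x (α x) d), ¬ σ.SameCycle d x → ¬ σ.SameCycle d (α x) →
      vsum σ c' d = vsum (del σ x (α x)) c ⟨d, hd⟩ := by
    intro d hd h1 h2
    rw [hs, hv, if_neg fun k => h1 (mem_orb.1 k), if_neg fun k => h2 (mem_orb.1 k),
      add_zero, add_zero]
  refine ⟨c', fun d h1 h2 => ?_, fun d => ?_, fun d hd => ?_, fun d hd => ?_⟩
  · rw [hoff d ⟨h1, h2⟩, hoff _ ((h.cls.off_alpha x d).2 ⟨h1, h2⟩)]
    exact hc.sym ⟨d, h1, h2⟩
  · by_cases k1 : d = x
    · have : ¬ Off x (α x) x := fun l => l.1 rfl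
      simp only [hc', k1, ext0, dif_neg this, if_true, if_neg hne.symm, add_zero, zero_add]
      exact tx
    · by_cases k2 : d = α x
      · have : ¬ Off x (α x) (α x) := fun l => l.2 rfl
        simp only [hc', k2, ext0, dif_neg this, if_true, if_neg hne, zero_add]
        exact ty
      · rw [hoff d ⟨k1, k2⟩]
        exact h0 _
  · by_cases k1 : σ.SameCycle d x
    · rw [vsum_eq k1, hs, if_pos (self_mem_orb σ _), if_neg fun l => hxy (mem_orb.1 l),
        add_zero, k4_add_self]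
    · by_cases k2 : σ.SameCycle d (α x)
      · rw [vsum_eq k2, hs, if_pos (self_mem_orb σ (α x)),
          if_neg fun l => hxy (mem_orb.1 l).symm, zero_add, k4_add_self]
      · have ho : Off x (α x) d := ⟨fun l => k1 (l ▸ Perm.SameCycle.refl _ _),
          fun l => k2 (l ▸ Perm.SameCycle.refl _ _)⟩
        rw [hout d ho k1 k2]
        exact hc.zs ⟨d, ho⟩ ⟨hd, k1, k2⟩
  · have ho : Off x (α x) d := ⟨fun l => hd (l ▸ hx), fun l => hd (l ▸ hy)⟩
    rw [hout d ho (fun k => hd ((h.cls.typ_sc k).2 hx)) fun k => hd ((h.cls.typ_sc k).2 hy)]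
    exact hc.ns ⟨d, ho⟩ fun l => hd l.1

theorem MinCE.cut_n (h : MinCE σ α Z) {x : D} (hx : ¬ Z x) : CutCol σ α Z x := by
  have hA : ∀ d, σ.SameCycle x (σ d) ↔ σ.SameCycle x d := fun d => Perm.sameCycle_apply_right
  have hZ : ∀ d, σ.SameCycle x d → ¬ Z d := fun d k l => hx ((h.cls.typ_sc k).2 l)
  obtain ⟨τ, t1, t2, t3, -, t5⟩ := explode α (fun d => σ.SameCycle x d) σ h.cls.gen hA
  have t6 := t5 ⟨x, Perm.SameCycle.refl _ _, h.n1 x⟩
  obtain ⟨c, hc, h0⟩ := h.min D τ α Z (h.cls.explode_cls hA hZ t1 t2 t3) (by omega)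
  obtain ⟨t, ht0, ht1, -⟩ := k4_avoid (vsum σ c x + c x) 0
  have hs : ∀ d, vsum σ (fun e => c e + if x = e then c x + t else 0) d =
      vsum σ c d + if x ∈ orb σ d then c x + t else 0 := by
    intro d
    unfold vsum
    rw [sum_add_distrib, sum_ite_eq]
  have hout : ∀ d, ¬ σ.SameCycle x d →
      vsum σ (fun e => c e + if x = e then c x + t else 0) d = vsum τ c d := by
    intro d hd
    have e : orb τ d = orb σ d := by
      ext e
      rw [mem_orb, mem_orb]
      exact sc_congr (P := fun d => ¬ σ.SameCycle x d) (fun d hd l => hd ((hA d).1 l)) t3 hd e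
    rw [hs, if_neg fun k => hd (mem_orb.1 k).symm, add_zero]
    unfold vsum
    rw [e]
  refine ⟨fun e => c e + if x = e then c x + t else 0, fun d h1 h2 => ?_, fun d => ?_,
    fun d hd => ?_, fun d hd => ?_⟩
  · have : x ≠ α d := fun k => h2 (by rw [k, h.cls.inv])
    simp only [if_neg this, if_neg h1.symm, hc.sym]
  · by_cases k : x = d
    · simp only [if_pos k]
      rw [← k, ← add_assoc, k4_add_self, zero_add]
      exact ht0
    · simp only [if_neg k, add_zero]
      exact h0 d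
  · rw [hout d fun k => hZ d k hd]
    exact hc.zs d hd
  · by_cases k : σ.SameCycle x d
    · rw [← vsum_eq k, hs, if_pos (self_mem_orb σ x), ← add_assoc]
      exact ht1
    · rw [hout d k]
      exact hc.ns d hd

theorem MinCE.cut (h : MinCE σ α Z) (x : D) : CutCol σ α Z x := by
  by_cases hx : Z x
  · by_cases hy : Z (α x)
    · exact h.cut_zz hx hy
    · obtain ⟨c, c1, c2⟩ := h.cut_n hy
      exact ⟨c, fun d h1 h2 => c1 d h2 (by rwa [h.cls.inv]), c2⟩
  · exact h.cut_n hx

theorem inn_toFinset (hα : ∀ d, α d ≠ d) (S : Set D) [DecidablePred (· ∈ S)] :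
    G6.inn α S = inn α (univ.filter (· ∈ S)) := by
  unfold G6.inn inn
  rw [← Set.ncard_coe_finset]
  congr 1
  ext d
  simp only [Set.mem_ofPred_eq, coe_filter, mem_filter, mem_univ, true_and]
  exact ⟨fun k => ⟨k.1, k.2.1⟩, fun k => ⟨k.1, k.2, hα d⟩⟩

theorem bdy_toFinset (hα : ∀ d, α d ≠ d) (S : Set D) [DecidablePred (· ∈ S)] :
    G6.bdy α S = bdy α (univ.filter (· ∈ S)) := by
  unfold G6.bdy bdy
  rw [← Set.ncard_coe_finset]
  congr 1
  ext d
  simp [hα d]

theorem ncard_toFinset (S : Set D) [DecidablePred (· ∈ S)] :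
    S.ncard = (univ.filter (· ∈ S)).card := by
  rw [← Set.ncard_coe_finset]
  congr 1
  ext d
  simp

theorem Cls.inK (h : Cls σ α Z) : InK σ α {d | ¬ Z d} := by
  classical
  refine ⟨h.inv, h.gen, fun x => not_congr (h.typ x), fun x hx => ?_,
    fun S hS hne hz hc => ?_, fun S u hS hu hn hs hc => ?_⟩
  · rw [← card_orb, h.card_orb_z (not_not.1 hx)]
  · rw [bdy_toFinset h.fpf]
    rw [inn_toFinset h.fpf, ncard_toFinset] at hc
    refine h.j0 _ (fun d hd => ?_) ?_ hc
    · have := (mem_filter.1 hd).2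
      exact ⟨not_not.1 (hz d this), mem_filter.2 ⟨mem_univ _, (hS d).2 this⟩⟩
    · obtain ⟨d, hd⟩ := hne
      exact ⟨d, mem_filter.2 ⟨mem_univ _, hd⟩⟩
  · rw [bdy_toFinset h.fpf]
    rw [inn_toFinset h.fpf, ncard_toFinset] at hc
    have e : univ.filter (· ∈ S) = univ.filter (· ∈ S \ {d | ¬ Z d}) ∪ orb σ u := by
      ext d
      simp only [mem_filter, mem_univ, true_and, mem_union, mem_orb, Set.mem_sdiff,
        Set.mem_ofPred_eq]
      constructor
      · intro k
        by_cases l : Z d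
        · exact Or.inl ⟨k, not_not.2 l⟩
        · exact Or.inr (hs d k l)
      · rintro (k | k)
        · exact k.1
        · exact sc_ind (P := (· ∈ S)) (fun f hf => (hS f).2 hf) k hu
    rw [e] at hc ⊢
    refine h.j1 _ u (fun d hd => ?_) hn hc
    have := (mem_filter.1 hd).2
    exact ⟨not_not.1 this.2, mem_filter.2 ⟨mem_univ _, (hS d).2 this.1,
      not_not.2 ((h.typ d).2 (not_not.1 this.2))⟩⟩

theorem MinCE.ctx (h : MinCE σ α Z) : Ctx σ α {d | ¬ Z d} := by
  refine ⟨h.cls.inK, h.cls.fpf, fun x _ => ?_, fun x hx => not_not.2 ((h.nn x).resolve_left hx),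
    ?_, fun e he => ?_, fun e => ?_⟩
  · rw [← card_orb, ← card_pair (h.n1 x).symm]
    refine card_le_card fun d hd => ?_
    simp only [mem_insert, mem_singleton] at hd
    rcases hd with rfl | rfl
    · exact self_mem_orb σ _
    · exact mem_orb.2 (perm_sc_step σ x)
  · rintro ⟨c, hc⟩
    exact h.ncol ⟨c, ⟨hc.sym, fun d hd => (vsum_eq_orb σ c d).symm.trans (hc.vz d (not_not.2 hd)),
      fun d hd k => hc.vn d hd ((vsum_eq_orb σ c d).trans k)⟩, fun d => hc.nz d id⟩
  · obtain ⟨c, hc, h0⟩ := h.con he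
    refine ⟨c, hc.sym, fun d hd => h0 d (fun k => hd (Or.inl k)) fun k => hd (Or.inr k),
      fun d hd => (vsum_eq_orb σ c d).trans (hc.zs d (not_not.1 hd)),
      fun d hd k => hc.ns d hd ((vsum_eq_orb σ c d).symm.trans k)⟩
  · obtain ⟨c, c1, c2, c3, c4⟩ := h.cut e
    exact ⟨c, c1, c2, fun d hd => (vsum_eq_orb σ c d).trans (c3 d (not_not.1 hd)),
      fun d hd k => c4 d hd ((vsum_eq_orb σ c d).symm.trans k)⟩

theorem all_col (H : NoCtx) (h : Cls σ α Z) : Col σ α Z := by
  induction hn : 2 * Fintype.card D - cyc σ using Nat.strong_induction_on generalizing D with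
  | _ n ih =>
    by_contra hc
    refine H D σ α _ (MinCE.ctx ⟨h, hc, fun E _ _ τ β Y hY hlt => ih _ ?_ hY rfl⟩)
    have h1 := perm_cyc_le_card σ
    have h2 := perm_cyc_le_card τ
    rw [Nat.card_eq_fintype_card] at h1 h2
    omega

end Pool.Agent.Lib.G6.A
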