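import Mathlib

set_option autoImplicit false

namespace Pool.Agent.Lib.G6.A

open Finset

variable {V : Type} [DecidableEq V]

/-- indicator of an edge -/
def edE (u v x y : V) : ℤ := (if x = u ∧ y = v then 1 else 0) + if x = v ∧ y = u then 1 else 0

/-- unit flow on an oriented edge -/
def edA (u v x y : V) : ℤ := (if x = u ∧ y = v then 1 else 0) - if x = v ∧ y = u then 1 else 0

theorem edE_symm (u v x y : V) : edE u v x y = edE u v y x := by
  unfold edE
  rw [add_comm]
  simp only [and_comm]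

theorem edA_anti (u v x y : V) : edA u v x y = - edA u v y x := by
  unfold edA
  rw [neg_sub]
  simp only [and_comm]

theorem ed_cases {u v : V} (h : u ≠ v) (x y : V) :
    (x = u ∧ y = v ∧ edE u v x y = 1 ∧ edA u v x y = 1) ∨
      (x = v ∧ y = u ∧ edE u v x y = 1 ∧ edA u v x y = -1) ∨
      (¬ (x = u ∧ y = v) ∧ ¬ (x = v ∧ y = u) ∧ edE u v x y = 0 ∧ edA u v x y = 0) := by
  unfold edE edA
  by_cases h1 : x = u ∧ y = v
  · obtain ⟨rfl, rfl⟩ := h1
    simp [h]
  · by_cases h2 : x = v ∧ y = u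
    · obtain ⟨rfl, rfl⟩ := h2
      simp [h.symm]
    · simp [h1, h2]

variable [Fintype V]

theorem sum_edE (u v x : V) :
    ∑ y, edE u v x y = (if x = u then 1 else 0) + if x = v then 1 else 0 := by
  unfold edE
  rw [sum_add_distrib]
  congr 1 <;> split_ifs with h <;> simp [h]

theorem sum_edA (u v x : V) :
    ∑ y, edA u v x y = (if x = u then 1 else 0) - if x = v then 1 else 0 := by
  unfold edA
  rw [sum_sub_distrib]
  congr 1 <;> split_ifs with h <;> simp [h]

theorem sum_sum_edE (u v : V) : ∑ x, ∑ y, edE u v x y = 2 := by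
  simp [sum_edE, sum_add_distrib]

/-- balanced orientation of a multigraph with even degrees -/
theorem orient (n : ℕ) : ∀ g : V → V → ℤ, ∑ x, ∑ y, g x y ≤ n → (∀ x y, 0 ≤ g x y) →
    (∀ x y, g x y = g y x) → (∀ x, g x x = 0) → (∀ x, (∑ y, g x y) % 2 = 0) →
    ∃ f : V → V → ℤ, (∀ x y, f x y = - f y x) ∧ (∀ x y, -g x y ≤ f x y ∧ f x y ≤ g x y) ∧
      (∀ x y, (f x y - g x y) % 2 = 0) ∧ ∀ x, ∑ y, f x y = 0 := by
  induction n using Nat.strong_induction_on with
  | _ n ih =>
  intro g hn h0 hs hd he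
  by_cases hz : ∀ x y, g x y = 0
  · exact ⟨fun _ _ => 0, by simp, by simp [hz], by simp [hz], by simp⟩
  push Not at hz
  obtain ⟨u, v, huv⟩ := hz
  have ne : u ≠ v := fun k => huv (k ▸ hd u)
  have a0 := h0 u v
  have a1 := hs u v
  have tot : 0 ≤ ∑ x, ∑ y, (g x y - edE u v x y) := by
    refine sum_nonneg fun x _ => sum_nonneg fun y _ => ?_
    have := h0 x y
    rcases ed_cases ne x y with ⟨rfl, rfl, k, -⟩ | ⟨rfl, rfl, k, -⟩ | ⟨-, -, k, -⟩ <;> omega
  simp only [sum_sub_distrib, sum_sum_edE] at tot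
  by_cases h2 : 2 ≤ g u v
  · obtain ⟨f, f1, f2, f3, f4⟩ := ih (n - 2) (by omega) (fun x y => g x y - 2 * edE u v x y)
      (by
        simp only [sum_sub_distrib, ← mul_sum, sum_sum_edE]
        omega)
      (fun x y => by
        have := h0 x y
        rcases ed_cases ne x y with ⟨rfl, rfl, k, -⟩ | ⟨rfl, rfl, k, -⟩ | ⟨-, -, k, -⟩ <;> omega)
      (fun x y => by rw [hs x y, edE_symm])
      (fun x => by
        have := hd x
        rcases ed_cases ne x x with ⟨k, l, -⟩ | ⟨k, l, -⟩ | ⟨-, -, k, -⟩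
        · exact absurd (k.symm.trans l) ne
        · exact absurd (l.symm.trans k) ne
        · omega)
      (fun x => by
        have := he x
        rw [sum_sub_distrib, ← mul_sum]
        omega)
    refine ⟨f, f1, fun x y => ?_, fun x y => ?_, f4⟩
    · have := f2 x y
      rcases ed_cases ne x y with ⟨-, -, k, -⟩ | ⟨-, -, k, -⟩ | ⟨-, -, k, -⟩ <;> omega
    · have := f3 x y
      omega
  obtain ⟨w, hw, hvw⟩ : ∃ w, w ≠ u ∧ g v w ≠ 0 := by
    by_contra hc
    push Not at hc
    have := he v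
    rw [sum_eq_single u (fun y _ k => hc y k) (by simp)] at this
    omega
  have n2 : v ≠ w := fun k => hvw (k ▸ hd v)
  have n3 : u ≠ w := hw.symm
  have b0 := h0 v w
  have b1 := hs v w
  have dg : ∀ {p q : V}, p ≠ q → ∀ x, edE p q x x = 0 := fun hpq x => by
    rcases ed_cases hpq x x with ⟨k, l, -⟩ | ⟨k, l, -⟩ | ⟨-, -, k, -⟩
    · exact absurd (k.symm.trans l) hpq
    · exact absurd (l.symm.trans k) hpq
    · exact k
  obtain ⟨f, f1, f2, f3, f4⟩ := ih (n - 2) (by omega)
    (fun x y => g x y - edE u v x y - edE v w x y + edE u w x y)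
    (by
      simp only [sum_add_distrib, sum_sub_distrib, sum_sum_edE]
      omega)
    (fun x y => by
      have := h0 x y
      have e3 : 0 ≤ edE u w x y := by
        rcases ed_cases n3 x y with ⟨-, -, k, -⟩ | ⟨-, -, k, -⟩ | ⟨-, -, k, -⟩ <;> omega
      rcases ed_cases ne x y with ⟨p, q, k, -⟩ | ⟨p, q, k, -⟩ | ⟨-, -, k, -⟩ <;>
        rcases ed_cases n2 x y with ⟨p', q', l, -⟩ | ⟨p', q', l, -⟩ | ⟨-, -, l, -⟩
      · exact absurd (p.symm.trans p') ne
      · exact absurd (p.symm.trans p') n3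
      · subst p q
        omega
      · exact absurd (q.symm.trans q') n3
      · exact absurd (p.symm.trans p') n2
      · subst p q
        omega
      · subst p' q'
        omega
      · subst p' q'
        omega
      · omega)
    (fun x y => by rw [hs x y, edE_symm u v, edE_symm v w, edE_symm u w])
    (fun x => by rw [hd, dg ne, dg n2, dg n3]; rfl)
    (fun x => by
      have := he x
      simp only [sum_add_distrib, sum_sub_distrib, sum_edE]
      split_ifs <;> omega)
  obtain ⟨ε, hε, hε2⟩ : ∃ ε : ℤ, (ε = 1 ∨ ε = -1) ∧ -g u w ≤ f u w - ε ∧ f u w - ε ≤ g u w := by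
    have c1 := f2 u w
    have c2 := f3 u w
    have c3 := h0 u w
    have e1 : edE u v u w = 0 := by simp [edE, n2.symm, ne]
    have e2 : edE v w u w = 0 := by simp [edE, ne, n3]
    have e3 : edE u w u w = 1 := by simp [edE, n3]
    rw [e1, e2, e3] at c1 c2
    by_cases k : 0 < f u w
    · exact ⟨1, Or.inl rfl, by omega⟩
    · exact ⟨-1, Or.inr rfl, by omega⟩
  refine ⟨fun x y => f x y + ε * (edA u v x y + edA v w x y - edA u w x y), fun x y => ?_,
    fun x y => ?_, fun x y => ?_, fun x => ?_⟩ <;> beta_reduce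
  · rw [f1 x y, edA_anti u v, edA_anti v w, edA_anti u w]
    ring
  · have c1 := f2 x y
    have c2 := f1 u w
    have c3 := hs u w
    rcases ed_cases n3 x y with ⟨rfl, rfl, -, k⟩ | ⟨rfl, rfl, -, k⟩ | ⟨-, -, k, k'⟩
    · have e1 : edA x v x y = 0 := by simp [edA, n2.symm, ne]
      have e2 : edA v y x y = 0 := by simp [edA, ne, n3]
      rw [e1, e2, k]
      omega
    · have e1 : edA y v x y = 0 := by simp [edA, n2.symm, ne]
      have e2 : edA v x x y = 0 := by simp [edA, ne, n2.symm]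
      rw [e1, e2, k]
      omega
    · rw [k']
      rcases ed_cases ne x y with ⟨-, -, p, q⟩ | ⟨-, -, p, q⟩ | ⟨-, -, p, q⟩ <;>
        rcases ed_cases n2 x y with ⟨-, -, p', q'⟩ | ⟨-, -, p', q'⟩ | ⟨-, -, p', q'⟩ <;>
        rw [q, q'] <;> omega
  · have c1 := f3 x y
    rcases ed_cases n3 x y with ⟨-, -, k, k'⟩ | ⟨-, -, k, k'⟩ | ⟨-, -, k, k'⟩ <;>
      rcases ed_cases ne x y with ⟨-, -, p, q⟩ | ⟨-, -, p, q⟩ | ⟨-, -, p, q⟩ <;>
      rcases ed_cases n2 x y with ⟨-, -, p', q'⟩ | ⟨-, -, p', q'⟩ | ⟨-, -, p', q'⟩ <;>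
      rw [q, q', k'] <;> omega
  · rw [sum_add_distrib, f4, ← mul_sum, sum_sub_distrib, sum_add_distrib, sum_edA, sum_edA,
      sum_edA]
    ring

theorem orient2 (g : V → V → ZMod 2) (hs : ∀ x y, g x y = g y x) (hd : ∀ x, g x x = 0)
    (he : ∀ x, ∑ y, g x y = 0) :
    ∃ f : V → V → ℤ, (∀ x y, f x y = - f y x) ∧ (∀ x y, g x y = 0 → f x y = 0) ∧
      (∀ x y, g x y ≠ 0 → f x y = 1 ∨ f x y = -1) ∧ ∀ x, ∑ y, f x y = 0 := by
  obtain ⟨f, f1, f2, f3, f4⟩ := orient (∑ x, ∑ y, ((g x y).val : ℤ)).toNat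
    (fun x y => ((g x y).val : ℤ)) (Int.self_le_toNat _) (fun _ _ => Int.natCast_nonneg _)
    (fun x y => by rw [hs x y]) (fun x => by rw [hd]; rfl) (fun x => by
      refine Int.emod_eq_zero_of_dvd ((ZMod.intCast_zmod_eq_zero_iff_dvd _ 2).1 ?_)
      push_cast
      simp only [ZMod.natCast_val, ZMod.cast_id', id]
      exact he x)
  refine ⟨f, f1, fun x y k => ?_, fun x y k => ?_, f4⟩
  · have := f2 x y
    rw [k, ZMod.val_zero] at this
    omega
  · have c1 := f2 x y
    have c2 := f3 x y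
    have e : ∀ t : ZMod 2, t ≠ 0 → t.val = 1 := by decide
    rw [e _ k] at c1 c2
    omega

/-- a labelling by the Klein four-group gives an integer 4-flow -/
theorem flow4 (g : V → V → ZMod 2 × ZMod 2) (hs : ∀ x y, g x y = g y x) (hd : ∀ x, g x x = 0)
    (he : ∀ x, ∑ y, g x y = 0) :
    ∃ f : V → V → ℤ, (∀ x y, f x y = - f y x) ∧ (∀ x y, g x y = 0 → f x y = 0) ∧
      (∀ x y, g x y ≠ 0 → 0 < |f x y| ∧ |f x y| < 4) ∧ ∀ x, ∑ y, f x y = 0 := by
  obtain ⟨p, p1, p2, p3, p4⟩ := orient2 (fun x y => (g x y).1) (fun x y => by rw [hs x y])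
    (fun x => by rw [hd]; rfl) (fun x => by rw [← Prod.fst_sum, he]; rfl)
  obtain ⟨q, q1, q2, q3, q4⟩ := orient2 (fun x y => (g x y).2) (fun x y => by rw [hs x y])
    (fun x => by rw [hd]; rfl) (fun x => by rw [← Prod.snd_sum, he]; rfl)
  refine ⟨fun x y => p x y + 2 * q x y, fun x y => ?_, fun x y k => ?_, fun x y k => ?_,
    fun x => ?_⟩ <;> beta_reduce
  · rw [p1 x y, q1 x y]
    ring
  · rw [p2 x y (by rw [k]; rfl), q2 x y (by rw [k]; rfl)]
    rfl
  · rw [abs_pos, abs_lt]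
    by_cases a : (g x y).1 = 0 <;> by_cases b : (g x y).2 = 0
    · exact absurd (Prod.ext a b) k
    · have := p2 x y a
      have := q3 x y b
      omega
    · have := p3 x y a
      have := q2 x y b
      omega
    · have := p3 x y a
      have := q3 x y b
      omega
  · rw [sum_add_distrib, ← mul_sum, p4, q4]
    rfl

end Pool.Agent.Lib.G6.A
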