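import Pool.Agent.Lib.G6.ASp
import Pool.Agent.Lib.G6.AOri
import Pool.Agent.Lib.MP_bfaad3_co.Minor

set_option autoImplicit false
set_option linter.unusedSectionVars false
set_option linter.unusedSimpArgs false

namespace Pool.Agent.Lib.G6.A

open Equiv Finset Pool.Agent.Lib.MP_bfaad3_co

section Maps
variable {D : Type} [Fintype D] [DecidableEq D] {σ α : Perm D}

/-- no closed walk of length at most five without backtracking -/
def Long (σ α : Perm D) : Prop :=
  ∀ (c : ℕ → D) (n : ℕ), 0 < n → n ≤ 5 → (∀ i, c (i + n) = c i) →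
    (∀ i, σ.SameCycle (α (c i)) (c (i + 1))) → (∀ i, c (i + 1) ≠ α (c i)) → False

theorem mul_cyc_le {T : Type} [Finite T] (c : Perm T) (k : ℕ) (hk : 0 < k)
    (h : ∀ d, k ≤ Function.minimalPeriod c d) : k * cyc c ≤ Nat.card T := by
  have := Fintype.ofFinite T
  have h1 := perm_cyc_sum c
  have h2 : ∑ d, (1 : ℚ) / Function.minimalPeriod c d ≤ ∑ _d : T, (1 : ℚ) / k :=
    sum_le_sum fun d _ => one_div_le_one_div_of_le (by exact_mod_cast hk) (by exact_mod_cast h d)
  rw [← h1, sum_const, card_univ, nsmul_eq_mul, mul_one_div,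
    le_div_iff₀ (by exact_mod_cast hk)] at h2
  rw [Nat.card_eq_fintype_card, mul_comm]
  exact_mod_cast h2

theorem sparse_core (inv : ∀ d, α (α d) = d) (fpf : ∀ d, α d ≠ d) (gen : Gen0 σ α)
    (hL : Long σ α) {I : Finset D} (hne : I.Nonempty) (hI : ∀ d ∈ I, α d ∈ I)
    (h2 : ∀ d ∈ I, ∃ e ∈ I, e ≠ d ∧ σ.SameCycle d e) : I.card + 6 ≤ 3 * nv σ I := by
  obtain ⟨t, g2, b2, tP, c2⟩ := min_step3 α (orb σ) (I : Set D) _ σ rfl gen
    fun d => (orb_eq (perm_sc_step σ d)).symm
  have ht : ∀ d, t d ∈ I ↔ d ∈ I := by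
    intro d
    constructor
    · intro h
      by_contra hc
      exact hc (tP d hc ▸ h)
    · intro h
      by_contra hc
      have := t.injective (tP _ hc)
      exact hc (this.symm ▸ h)
  have ha : ∀ d, α d ∈ I ↔ d ∈ I := fun d => ⟨fun k => inv d ▸ hI _ k, hI d⟩
  have g3 := gen0_sub t α g2 (fun d => d ∈ I) ht ha
  have st : ∀ d, σ.SameCycle d (t d) := fun d => by
    rw [← mem_orb, ← b2]
    exact self_mem_orb _ _
  have tf : ∀ d ∈ I, t d ≠ d := fun d hd k => by
    obtain ⟨e, he, n, s⟩ := h2 d hd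
    exact n (sc_fix k (c2 d e hd he s))
  have cd : Nat.card {d // d ∈ I} = I.card := by rw [Nat.card_eq_fintype_card, Fintype.card_coe]
  have e1 : cyc (t.subtypePerm ht) ≤ nv σ I := by
    have wd : ∀ u v : {d // d ∈ I}, (t.subtypePerm ht).SameCycle u v →
        (⟨orb σ u.1, mem_image_of_mem _ u.2⟩ : {O // O ∈ I.image (orb σ)}) =
          ⟨orb σ v.1, mem_image_of_mem _ v.2⟩ := fun u v k =>
      Subtype.ext (orb_eq (perm_sc_le (s := Perm.SameCycle.setoid σ) st
        (Perm.sameCycle_subtypePerm.1 k)))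
    have := Nat.card_le_card_of_injective
      (Quotient.lift (s := Perm.SameCycle.setoid (t.subtypePerm ht)) _ wd) (by
        intro p q k
        obtain ⟨u, rfl⟩ := Quotient.exists_rep p
        obtain ⟨v, rfl⟩ := Quotient.exists_rep q
        have l : orb σ u.1 = orb σ v.1 := congrArg Subtype.val k
        exact Quotient.sound (Perm.sameCycle_subtypePerm.2
          (c2 _ _ u.2 v.2 (mem_orb.1 (l ▸ self_mem_orb σ v.1)))))
    rwa [Nat.card_eq_fintype_card (α := {O // O ∈ I.image (orb σ)}), Fintype.card_coe] at this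
  have e2 := mul_cyc_le (α.subtypePerm ha) 2 (by omega) fun d => by
    have p0 := Function.minimalPeriod_pos_of_mem_periodicPts
      ((α.subtypePerm ha).injective.mem_periodicPts d)
    have p1 : Function.minimalPeriod (α.subtypePerm ha) d ≠ 1 := fun k =>
      fpf d.1 (congrArg Subtype.val (Function.minimalPeriod_eq_one_iff_isFixedPt.1 k))
    omega
  have e3 := mul_cyc_le (t.subtypePerm ht * α.subtypePerm ha) 6 (by omega) fun d => by
    by_contra hc
    have step : ∀ i, ((t.subtypePerm ht * α.subtypePerm ha)^[i + 1] d).1 =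
        t (α ((t.subtypePerm ht * α.subtypePerm ha)^[i] d).1) := fun i => by
      rw [Function.iterate_succ_apply']
      rfl
    refine hL (fun i => ((t.subtypePerm ht * α.subtypePerm ha)^[i] d).1) _
      (Function.minimalPeriod_pos_of_mem_periodicPts
        ((t.subtypePerm ht * α.subtypePerm ha).injective.mem_periodicPts d)) (by omega)
      (fun i => ?_) (fun i => ?_) fun i => ?_
    · rw [Function.iterate_add_minimalPeriod_eq]
    · rw [step]
      exact st _
    · rw [step]
      exact tf _ (hI _ (Subtype.prop _))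
  have e4 : 0 < comp (t.subtypePerm ht) (α.subtypePerm ha) := by
    obtain ⟨d, hd⟩ := hne
    have : Nonempty (Quotient (conn (t.subtypePerm ht) (α.subtypePerm ha))) :=
      ⟨Quotient.mk _ ⟨d, hd⟩⟩
    exact Nat.card_pos
  unfold Gen0 at g3
  omega

theorem sparse_of_long (inv : ∀ d, α (α d) = d) (fpf : ∀ d, α d ≠ d) (gen : Gen0 σ α)
    (hL : Long σ α) (I : Finset D) : I.Nonempty → (∀ d ∈ I, α d ∈ I) → 2 * nv σ I ≤ I.card →
      I.card + 6 ≤ 3 * nv σ I := by
  induction I using Finset.strongInduction with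
  | H I ih =>
  intro hne hI hc
  by_cases h2 : ∀ d ∈ I, ∃ e ∈ I, e ≠ d ∧ σ.SameCycle d e
  · exact sparse_core inv fpf gen hL hne hI h2
  push Not at h2
  obtain ⟨d, hd, h2⟩ := h2
  have m : α d ∈ I.erase d := mem_erase.2 ⟨fpf d, hI d hd⟩
  have c1 := card_erase_add_one hd
  have c2 := card_erase_add_one m
  have v1 : nv σ ((I.erase d).erase (α d)) + 1 ≤ nv σ I := by
    refine card_lt_card ⟨image_subset_image ((erase_subset _ _).trans (erase_subset _ _)),
      fun k => ?_⟩
    obtain ⟨e, he, l⟩ := mem_image.1 (k (mem_image_of_mem _ hd))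
    have he' := mem_erase.1 (mem_of_mem_erase he)
    exact h2 e he'.2 he'.1 (mem_orb.1 (l ▸ self_mem_orb σ e))
  have v2 : 1 < nv σ I := by
    refine one_lt_card.2 ⟨_, mem_image_of_mem _ hd, _, mem_image_of_mem _ (hI d hd), fun k => ?_⟩
    exact h2 _ (hI d hd) (fpf d) (mem_orb.1 (k ▸ self_mem_orb σ (α d)))
  have := ih ((I.erase d).erase (α d)) ((erase_subset _ _).trans_ssubset (erase_ssubset hd))
    (by
      rw [← card_pos]
      omega)
    (fun e he => by
      simp only [mem_erase] at he ⊢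
      exact ⟨fun k => he.2.1 (α.injective k), fun k => he.1 (by rw [← k, inv]), hI e he.2.2⟩)
    (by omega)
  omega

end Maps

section Graphs
variable {V : Type} {G : SimpleGraph V}

theorem no_short (hg : 6 ≤ G.egirth) (u : ℕ → V) (n : ℕ) (h0 : 0 < n) (h5 : n ≤ 5)
    (per : ∀ i, u (i + n) = u i) (adj : ∀ i, G.Adj (u i) (u (i + 1)))
    (nb : ∀ i, u (i + 2) ≠ u i) : False := by
  have key : ∀ {a : V} (w : G.Walk a a), w.IsCycle → 6 ≤ w.length := fun w hw => by
    exact_mod_cast SimpleGraph.le_egirth.1 hg _ w hw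
  have a0 : G.Adj (u 0) (u 1) := adj 0
  have a1 : G.Adj (u 1) (u 2) := adj 1
  have a2 : G.Adj (u 2) (u 3) := adj 2
  have a3 : G.Adj (u 3) (u 4) := adj 3
  have a4 : G.Adj (u 4) (u 5) := adj 4
  have n0 : u 2 ≠ u 0 := nb 0
  have n1 : u 3 ≠ u 1 := nb 1
  have n2 : u 4 ≠ u 2 := nb 2
  have n3 : u 5 ≠ u 3 := nb 3
  have n4 : u 6 ≠ u 4 := nb 4
  have p0 := per 0
  have p1 := per 1
  rw [zero_add] at p0
  interval_cases n
  · exact a0.ne p0.symm
  · exact n0 p0
  · rw [p0] at a2
    have := key (.cons a0 (.cons a1 (.cons a2 .nil))) (by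
      simp [SimpleGraph.Walk.cons_isCycle_iff, a0.ne, a1.ne, a2.ne, a0.ne', a1.ne', a2.ne'])
    simp at this
  · rw [p0] at a3
    have := key (.cons a0 (.cons a1 (.cons a2 (.cons a3 .nil)))) (by
      simp [SimpleGraph.Walk.cons_isCycle_iff, a0.ne, a1.ne, a2.ne, a3.ne, a0.ne', a1.ne', a2.ne',
        a3.ne', n0, n1, n0.symm, n1.symm])
    simp at this
  · have p1' : u 6 = u 1 := p1
    rw [p0] at a4 n3
    rw [p1'] at n4
    have := key (.cons a0 (.cons a1 (.cons a2 (.cons a3 (.cons a4 .nil))))) (by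
      simp [SimpleGraph.Walk.cons_isCycle_iff, a0.ne, a1.ne, a2.ne, a3.ne, a4.ne, a0.ne', a1.ne',
        a2.ne', a3.ne', a4.ne', n0, n1, n2, n3, n4, n0.symm, n1.symm, n2.symm, n3.symm, n4.symm])
    simp at this

variable [Fintype V]

theorem long_of_girth (hg : 6 ≤ G.egirth) {σ : Perm G.Dart} (hr : IsRot G σ) :
    Long σ (alpha G) := by
  intro c n h0 h5 per ch nb
  have e : ∀ i, (c (i + 1)).fst = (c i).snd := fun i =>
    min_lab' σ (fun d : G.Dart => d.fst) hr.1 (ch i)
  refine no_short hg (fun i => (c i).fst) n h0 h5 (fun i => by rw [per]) (fun i => ?_)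
    fun i k => nb i ?_
  · rw [e]
    exact (c i).adj
  · ext
    · exact e i
    · exact (e (i + 1)).symm.trans k

/-- the labelling theorem for plane graphs of girth at least six -/
theorem label_of (H : NoCtx) (hp : IsPlanar G) (hg : 6 ≤ G.egirth) (Z : V → Prop)
    (hZ : ∀ v, Z v → 3 ≤ (G.neighborSet v).ncard) :
    ∃ g : V → V → K4, (∀ u v, g u v = g v u) ∧ (∀ u v, G.Adj u v → g u v ≠ 0) ∧
      (∀ u v, ¬ G.Adj u v → g u v = 0) ∧ (∀ v, Z v → ∑ w, g v w = 0) ∧
      ∀ v w, ¬ Z v → G.Adj v w → ∑ w, g v w ≠ 0 := by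
  classical
  obtain ⟨σ, hr, gen⟩ := pl_of_isPlanar hp
  have mo : ∀ d e : G.Dart, e ∈ orb σ d ↔ e.fst = d.fst := fun d e =>
    mem_orb.trans ⟨min_lab' σ (fun d : G.Dart => d.fst) hr.1, fun k => hr.2 _ _ k.symm⟩
  have inj : ∀ d : G.Dart, Set.InjOn (fun e : G.Dart => e.snd) (orb σ d) := by
    intro d e he f hf k
    ext
    · exact ((mo d e).1 he).trans ((mo d f).1 hf).symm
    · exact k
  have im : ∀ (d : G.Dart) (w : V), w ∈ (orb σ d).image (fun e => e.snd) ↔ G.Adj d.fst w := by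
    intro d w
    rw [mem_image]
    constructor
    · rintro ⟨e, he, rfl⟩
      rw [← (mo d e).1 he]
      exact e.adj
    · exact fun k => ⟨⟨(d.fst, w), k⟩, (mo _ _).2 rfl, rfl⟩
  have inv : ∀ d, alpha G (alpha G d) = d := fun d => d.symm_symm
  have fpf : ∀ d, alpha G d ≠ d := fun d => d.symm_ne
  have sp : Sp σ (alpha G) fun d => Z d.fst := by
    refine ⟨inv, fpf, gen, fun d => by rw [hr.1], fun d hd => ?_,
      sparse_of_long inv fpf gen (long_of_girth hg hr)⟩
    rw [← card_image_of_injOn (inj d), ← Set.ncard_coe_finset]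
    convert hZ _ hd using 2
    ext w
    exact im d w
  obtain ⟨c, ⟨sym, zs, ns⟩, nz⟩ := sp.col H
  have row : ∀ d : G.Dart,
      ∑ w, (if h : G.Adj d.fst w then c ⟨(d.fst, w), h⟩ else 0) = vsum σ c d := by
    intro d
    rw [← sum_subset (subset_univ ((orb σ d).image fun e => e.snd))
      fun w _ hw => dif_neg fun k => hw ((im d w).2 k), sum_image (inj d)]
    refine sum_congr rfl fun e he => ?_
    have k := (mo d e).1 he
    rw [dif_pos (k ▸ e.adj)]
    congr 1
    ext
    · exact k.symm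
    · rfl
  refine ⟨fun u v => if h : G.Adj u v then c ⟨(u, v), h⟩ else 0, fun u v => ?_, fun u v k => ?_,
    fun u v k => dif_neg k, fun v hv => ?_, fun v w hv k => ?_⟩
  · by_cases k : G.Adj u v
    · beta_reduce
      rw [dif_pos k, dif_pos k.symm, ← sym]
      rfl
    · beta_reduce
      rw [dif_neg k, dif_neg fun l => k l.symm]
  · beta_reduce
    rw [dif_pos k]
    exact nz _
  · have := hZ v hv
    obtain ⟨w, k⟩ : (G.neighborSet v).Nonempty := Set.nonempty_of_ncard_ne_zero (by omega)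
    exact (row ⟨(v, w), k⟩).trans (zs _ hv)
  · exact fun l => ns ⟨(v, w), k⟩ hv ((row ⟨(v, w), k⟩).symm.trans l)

/-- plane graphs of girth at least six and maximum degree at most three -/
theorem edge_col_of (H : NoCtx) [DecidableRel G.Adj] (hp : IsPlanar G) (hg : 6 ≤ G.egirth)
    (hd : ∀ v, G.degree v ≤ 3) : G.lineGraph.Colorable 3 := by
  classical
  obtain ⟨g, g1, g2, g3, g4, g5⟩ := label_of H hp hg (fun v => G.degree v = 3) fun v hv => by
    rw [← SimpleGraph.coe_neighborFinset, Set.ncard_coe_finset,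
      SimpleGraph.card_neighborFinset_eq_degree, hv]
  have nz : ∀ e : G.edgeSet, Sym2.lift ⟨g, g1⟩ e.1 ≠ 0 := by
    rintro ⟨e, he⟩
    induction e using Sym2.ind with
    | _ u v => exact g2 u v he
  have key : ∀ v w w', G.Adj v w → G.Adj v w' → w ≠ w' → g v w ≠ g v w' := by
    intro v w w' h1 h2 hw k
    have m1 : w ∈ G.neighborFinset v := by simpa using h1
    have m2 : w' ∈ (G.neighborFinset v).erase w := mem_erase.2 ⟨hw.symm, by simpa using h2⟩
    have c1 := card_erase_add_one m1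
    have c2 := card_erase_add_one m2
    rw [SimpleGraph.card_neighborFinset_eq_degree] at c1
    have e : ∑ x, g v x = ∑ x ∈ ((G.neighborFinset v).erase w).erase w', g v x := by
      rw [← sum_subset (subset_univ (G.neighborFinset v)) fun x _ hx => g3 v x (by simpa using hx),
        ← add_sum_erase _ _ m1, ← add_sum_erase _ _ m2, ← add_assoc, k, k4_add_self, zero_add]
    by_cases h3 : G.degree v = 3
    · obtain ⟨x, hx⟩ := card_eq_one.1
        (show (((G.neighborFinset v).erase w).erase w').card = 1 by omega)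
      have mx : x ∈ G.neighborFinset v :=
        mem_of_mem_erase (mem_of_mem_erase (hx ▸ mem_singleton_self x))
      rw [g4 v h3, hx, sum_singleton] at e
      exact g2 v x (by simpa using mx) e.symm
    · have := hd v
      rw [card_eq_zero.1 (show (((G.neighborFinset v).erase w).erase w').card = 0 by omega),
        sum_empty] at e
      exact g5 v w h3 h1 e
  have C : G.lineGraph.Coloring {x : K4 // x ≠ 0} := by
    refine SimpleGraph.Coloring.mk (fun e => ⟨_, nz e⟩) ?_
    rintro ⟨e, he⟩ ⟨f, hf⟩ hadj k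
    obtain ⟨ne, v, h1, h2⟩ := SimpleGraph.lineGraph_adj_iff_exists.1 hadj
    obtain ⟨w, rfl⟩ := Sym2.mem_iff_exists.1 h1
    obtain ⟨w', rfl⟩ := Sym2.mem_iff_exists.1 h2
    exact key v w w' he hf (fun l => ne (by subst l; rfl)) (congrArg Subtype.val k)
  have := C.colorable
  rwa [show Fintype.card {x : K4 // x ≠ 0} = 3 by decide] at this

omit [Fintype V] in
theorem sum_sum_zero {W : Type} [Fintype W] (g : W → W → K4) (hs : ∀ u v, g u v = g v u)
    (hd : ∀ v, g v v = 0) : ∑ u, ∑ v, g u v = 0 := by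
  rw [← sum_product']
  refine sum_involution (fun p _ => p.swap) (fun p _ => ?_) (fun p _ k l => k ?_)
    (fun p _ => by simp) fun p _ => rfl
  · rw [Prod.fst_swap, Prod.snd_swap, hs p.2, k4_add_self]
  · have : p.2 = p.1 := congrArg Prod.fst l
    rw [this, hd]

/-- apex graphs over plane graphs of girth at least six -/
theorem flow_of (H : NoCtx) (a : V) (hp : IsPlanar (G.induce {v | v ≠ a}))
    (hg : 6 ≤ (G.induce {v | v ≠ a}).egirth)
    (h3 : ∀ v, v ≠ a → ¬ G.Adj a v → 3 ≤ (G.neighborSet v).ncard)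
    (h2 : ∀ v, G.Adj a v → 2 ≤ (G.neighborSet v).ncard) :
    ∃ f : V → V → ℤ, (∀ u v, f u v = - f v u) ∧ (∀ u v, ¬ G.Adj u v → f u v = 0) ∧
      (∀ u v, G.Adj u v → 0 < |f u v| ∧ |f u v| < 4) ∧ ∀ v, ∑ w, f v w = 0 := by
  classical
  obtain ⟨g, g1, g2, g3, g4, g5⟩ := label_of H hp hg (fun v => ¬ G.Adj a v.1) fun v hv => by
    rw [← Set.ncard_image_of_injective _ Subtype.val_injective]
    refine (h3 v.1 v.2 hv).trans (Set.ncard_le_ncard (fun w hw => ?_) (Set.toFinite _))
    exact ⟨⟨w, fun k => hv (k ▸ hw.symm)⟩, hw, rfl⟩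
  have nz : ∀ v : {v | v ≠ a}, G.Adj a v.1 → ∑ w, g v w ≠ 0 := by
    intro v hv
    obtain ⟨w, hw, n⟩ := Set.exists_ne_of_one_lt_ncard (h2 v.1 hv) a
    exact g5 v ⟨w, n⟩ (not_not.2 hv) hw
  have split : ∀ F : V → K4, ∑ w, F w = F a + ∑ w : {v | v ≠ a}, F w.1 := fun F => by
    rw [← add_sum_erase _ _ (mem_univ a)]
    congr 1
    exact sum_subtype _ (by simp) F
  obtain ⟨f, f1, f2, f3, f4⟩ := flow4
    (fun u v => if hu : u ≠ a then (if hv : v ≠ a then g ⟨u, hu⟩ ⟨v, hv⟩ else ∑ w, g ⟨u, hu⟩ w)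
      else if hv : v ≠ a then ∑ w, g ⟨v, hv⟩ w else 0)
    (fun u v => by
      by_cases hu : u ≠ a <;> by_cases hv : v ≠ a
      · rw [dif_pos hu, dif_pos hv, dif_pos hv, dif_pos hu, g1]
      · rw [dif_pos hu, dif_neg hv, dif_neg hv, dif_pos hu]
      · rw [dif_neg hu, dif_pos hv, dif_pos hv, dif_neg hu]
      · rw [dif_neg hu, dif_neg hv, dif_neg hv, dif_neg hu])
    (fun u => by
      by_cases hu : u ≠ a
      · rw [dif_pos hu, dif_pos hu]
        exact g3 _ _ (SimpleGraph.irrefl _)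
      · rw [dif_neg hu, dif_neg hu])
    (fun u => by
      rw [split]
      by_cases hu : u ≠ a
      · simp only [dif_pos hu]
        rw [dif_neg (not_not.2 rfl)]
        exact (congrArg _ (sum_congr rfl fun w _ => dif_pos w.2)).trans (k4_add_self _)
      · simp only [dif_neg hu]
        rw [dif_neg (not_not.2 rfl), sum_congr rfl fun w _ => dif_pos w.2, zero_add]
        exact sum_sum_zero g g1 fun v => g3 _ _ (SimpleGraph.irrefl _))
  refine ⟨f, f1, fun u v k => f2 u v ?_, fun u v k => f3 u v ?_, f4⟩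
  · by_cases hu : u ≠ a <;> by_cases hv : v ≠ a
    · rw [dif_pos hu, dif_pos hv]
      exact g3 _ _ k
    · rw [dif_pos hu, dif_neg hv]
      exact g4 _ fun l => k (not_not.1 hv ▸ l.symm)
    · rw [dif_neg hu, dif_pos hv]
      exact g4 _ fun l => k (not_not.1 hu ▸ l)
    · rw [dif_neg hu, dif_neg hv]
  · by_cases hu : u ≠ a <;> by_cases hv : v ≠ a
    · rw [dif_pos hu, dif_pos hv]
      exact g2 _ _ k
    · rw [dif_pos hu, dif_neg hv]
      exact nz _ (not_not.1 hv ▸ k.symm)
    · rw [dif_neg hu, dif_pos hv]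
      exact nz _ (not_not.1 hu ▸ k)
    · exact absurd ((not_not.1 hu).trans (not_not.1 hv).symm) k.ne

end Graphs

end Pool.Agent.Lib.G6.A
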