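import Pool.Agent.Lib.G6.Defs

set_option autoImplicit false

namespace Pool.Agent.Lib.G6

open Equiv Finset Pool.Agent.Lib.MP_bfaad3_co

section
variable {D : Type} [Fintype D] [DecidableEq D]

/-- the darts of the vertex of `d` -/
def orb (σ : Perm D) (d : D) : Finset D := univ.filter fun e => σ.SameCycle d e

@[simp] theorem mem_orb {σ : Perm D} {d e : D} : e ∈ orb σ d ↔ σ.SameCycle d e := by
  simp [orb]

theorem orb_eq_image (σ : Perm D) (d : D) :
    orb σ d = (range (deg σ d)).image fun i => (σ ^ i) d := by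
  ext e
  simp only [mem_orb, mem_image, mem_range]
  constructor
  · intro h
    obtain ⟨i, rfl⟩ := h.exists_nat_pow_eq
    refine ⟨i % deg σ d, Nat.mod_lt _ (Function.minimalPeriod_pos_of_mem_periodicPts
      (σ.injective.mem_periodicPts d)), ?_⟩
    rw [Perm.coe_pow, Perm.coe_pow]
    exact Function.iterate_mod_minimalPeriod_eq
  · rintro ⟨i, -, rfl⟩
    exact ⟨i, by simp⟩

omit [Fintype D] [DecidableEq D] in
theorem pow_injOn (σ : Perm D) (d : D) :
    Set.InjOn (fun i : ℕ => (σ ^ i) d) (range (deg σ d) : Set ℕ) := by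
  intro i hi j hj h
  simp only [Perm.coe_pow] at h
  exact Function.iterate_injOn_Iio_minimalPeriod (mem_range.1 hi) (mem_range.1 hj) h

theorem card_orb (σ : Perm D) (d : D) : (orb σ d).card = deg σ d := by
  rw [orb_eq_image, card_image_of_injOn (pow_injOn σ d), card_range]

theorem vsum_eq_orb (σ : Perm D) (c : D → K4) (d : D) : vsum σ c d = ∑ e ∈ orb σ d, c e := by
  rw [orb_eq_image, sum_image (pow_injOn σ d)]
  rfl

theorem orb_inv (σ : Perm D) (d : D) : orb σ⁻¹ d = orb σ d := by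
  ext e
  rw [mem_orb, mem_orb, Perm.sameCycle_inv]

end

variable {D : Type} [Finite D]

theorem deg_inv (σ : Perm D) (d : D) : deg σ⁻¹ d = deg σ d := by
  classical
  have := Fintype.ofFinite D
  rw [← card_orb, ← card_orb, orb_inv]

theorem vsum_inv (σ : Perm D) (c : D → K4) (d : D) : vsum σ⁻¹ c d = vsum σ c d := by
  classical
  have := Fintype.ofFinite D
  rw [vsum_eq_orb, vsum_eq_orb, orb_inv]

omit [Finite D] in
theorem closed_inv {σ : Perm D} {S : Set D} (h : ∀ x, σ x ∈ S ↔ x ∈ S) (x : D) :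
    σ⁻¹ x ∈ S ↔ x ∈ S := by
  rw [← h (σ⁻¹ x)]
  simp

theorem Lab.mirror {σ α : Perm D} {N T : Set D} {c : D → K4} (h : Lab σ α N T c) :
    Lab σ⁻¹ α N T c :=
  ⟨h.sym, h.nz, fun x hx => by rw [vsum_inv]; exact h.vz x hx,
    fun x hx => by rw [vsum_inv]; exact h.vn x hx⟩

theorem InK.mirror {σ α : Perm D} {N : Set D} (h : InK σ α N) : InK σ⁻¹ α N := by
  classical
  refine ⟨h.inv, gen0_inv σ α h.inv h.gen, closed_inv h.nσ, fun x hx => ?_,
    fun S hS => h.j0 S ?_, fun S u hS h1 h2 h3 => h.j1 S u ?_ h1 h2 fun x hx hn => ?_⟩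
  · rw [deg_inv]
    exact h.z3 x hx
  · simpa using closed_inv hS
  · simpa using closed_inv hS
  · exact Perm.sameCycle_inv.1 (h3 x hx hn)

theorem Ctx.mirror {σ α : Perm D} {N : Set D} (h : Ctx σ α N) : Ctx σ⁻¹ α N := by
  refine ⟨h.cls.mirror, h.fpf, fun x hx => ?_, h.nn, ?_, fun e he => ?_, fun e => ?_⟩
  · rw [deg_inv]
    exact h.n2 x hx
  · rintro ⟨c, hc⟩
    exact h.ncol ⟨c, by simpa using hc.mirror⟩
  · obtain ⟨c, hc⟩ := h.con e he
    exact ⟨c, hc.mirror⟩
  · obtain ⟨c, c1, c2, c3, c4⟩ := h.cut e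
    exact ⟨c, c1, c2, fun x hx => by rw [vsum_inv]; exact c3 x hx,
      fun x hx => by rw [vsum_inv]; exact c4 x hx⟩

end Pool.Agent.Lib.G6
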