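import Pool.Agent.Lib.G6.ABas

set_option autoImplicit false
set_option linter.unusedSectionVars false

namespace Pool.Agent.Lib.G6.A

open Equiv Finset Pool.Agent.Lib.MP_bfaad3_co

variable {D : Type} [Fintype D] [DecidableEq D]

/-- the darts outside the edge `x y` -/
def Off (x y d : D) : Prop := d ≠ x ∧ d ≠ y

instance (x y : D) : DecidablePred (Off x y) := fun d => by unfold Off; infer_instance

theorem off_inv {π : Perm D} {x y : D} (h : (π x = x ∧ π y = y) ∨ (π x = y ∧ π y = x)) (d : D) :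
    Off x y (π d) ↔ Off x y d := by
  unfold Off
  rcases h with ⟨h1, h2⟩ | ⟨h1, h2⟩
  · constructor
    · rintro ⟨k1, k2⟩
      exact ⟨fun k => k1 (by rw [k, h1]), fun k => k2 (by rw [k, h2])⟩
    · rintro ⟨k1, k2⟩
      exact ⟨fun k => k1 (π.injective (by rw [k, h1])), fun k => k2 (π.injective (by rw [k, h2]))⟩
  · constructor
    · rintro ⟨k1, k2⟩
      exact ⟨fun k => k2 (by rw [k, h1]), fun k => k1 (by rw [k, h2])⟩
    · rintro ⟨k1, k2⟩
      exact ⟨fun k => k2 (π.injective (by rw [k, h2])), fun k => k1 (π.injective (by rw [k, h1]))⟩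

theorem rem2_inv (σ : Perm D) (x y d : D) : Off x y (rem (rem σ x) y d) ↔ Off x y d :=
  off_inv (Or.inl ⟨rem_fix _ _ (rem_self σ x), rem_self _ _⟩) d

/-- the rotation after the removal of two darts -/
def del (σ : Perm D) (x y : D) : Perm {d // Off x y d} :=
  (rem (rem σ x) y).subtypePerm (rem2_inv σ x y)

theorem sc_del (σ : Perm D) (x y : D) (u v : {d // Off x y d}) :
    (del σ x y).SameCycle u v ↔ σ.SameCycle u.1 v.1 := by
  unfold del
  rw [Perm.sameCycle_subtypePerm, sc_rem _ _ u.2.2 v.2.2, sc_rem _ _ u.2.1 v.2.1]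

theorem del_apply (σ : Perm D) (x y : D) (u : {d // Off x y d}) (h : Off x y (σ u.1)) :
    (del σ x y u).1 = σ u.1 := by
  have h1 := rem_of_ne σ u.2.1 h.1
  change rem (rem σ x) y u.1 = _
  rw [rem_of_ne _ u.2.2 (by rw [h1]; exact h.2), h1]

theorem card_off {x y : D} (h : x ≠ y) : Fintype.card {d // Off x y d} + 2 = Fintype.card D := by
  have h1 := Finset.card_filter_add_card_filter_not (s := (univ : Finset D)) (Off x y)
  have h2 : univ.filter (fun d => ¬ Off x y d) = {x, y} := by
    ext d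
    simp only [Off, mem_filter, mem_univ, true_and, mem_insert, mem_singleton]
    tauto
  rw [h2, card_pair h, card_univ] at h1
  rw [Fintype.card_subtype]
  exact h1

theorem cyc_del (σ : Perm D) {x y : D} (h : x ≠ y) : cyc σ ≤ cyc (del σ x y) + 2 := by
  have h1 := cyc_rem_le σ x
  have h2 := cyc_rem_le (rem σ x) y
  have h3 := cyc_add (rem (rem σ x) y) (Off x y) (rem2_inv σ x y)
  have h4 := perm_cyc_le_card ((rem (rem σ x) y).subtypePerm (p := fun d => ¬ Off x y d)
    fun d => not_congr (rem2_inv σ x y d))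
  have h5 := card_off h
  rw [Nat.card_eq_fintype_card, Fintype.card_subtype_compl] at h4
  unfold del
  omega

theorem gen0_del {σ α : Perm D} (h : Gen0 σ α) (x y : D) (hα : ∀ d, Off x y (α d) ↔ Off x y d) :
    Gen0 (del σ x y) (α.subtypePerm hα) :=
  gen0_sub _ _ (gen0_rem (gen0_rem h x) y) _ _ _

theorem map_orb {p : D → Prop} [DecidablePred p] (τ : Perm {d // p d}) (u : {d // p d})
    (A : Finset D) (hA : ∀ v : {d // p d}, τ.SameCycle u v ↔ v.1 ∈ A) :
    (orb τ u).map (Function.Embedding.subtype p) = A.filter p := by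
  ext e
  simp only [mem_filter, mem_map, mem_orb, Function.Embedding.coe_subtype]
  constructor
  · rintro ⟨v, k, rfl⟩
    exact ⟨(hA v).1 k, v.2⟩
  · rintro ⟨k, l⟩
    exact ⟨⟨e, l⟩, (hA _).2 k, rfl⟩

theorem zset_map {p : D → Prop} {σ : Perm D} {Z : D → Prop} {τ : Perm {d // p d}}
    {Y : {d // p d} → Prop} (h : ∀ u, Y u → Z u.1 ∧ (τ u).1 = σ u.1) {S : Finset {d // p d}}
    (hS : ZSet τ Y S) : ZSet σ Z (S.map (Function.Embedding.subtype p)) := by
  intro d hd
  obtain ⟨u, hu, rfl⟩ := mem_map.1 hd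
  exact ⟨(h u (hS u hu).1).1, mem_map.2 ⟨τ u, (hS u hu).2, (h u (hS u hu).1).2⟩⟩

theorem filter_off_union {A : Finset D} {x y : D} (hx : x ∈ A) (hy : y ∈ A) :
    A.filter (Off x y) ∪ {x, y} = A := by
  ext d
  simp only [mem_union, mem_filter, mem_insert, mem_singleton, Off]
  constructor
  · rintro (k | rfl | rfl)
    · exact k.1
    · exact hx
    · exact hy
  · intro k
    tauto

theorem filter_off_self {A : Finset D} {x y : D} (hx : x ∉ A) (hy : y ∉ A) :
    A.filter (Off x y) = A :=
  filter_true_of_mem fun _ hd => ⟨fun k => hx (k ▸ hd), fun k => hy (k ▸ hd)⟩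

theorem not_mem_map_off {x y : D} (S : Finset {d // Off x y d}) :
    x ∉ S.map (Function.Embedding.subtype _) ∧ y ∉ S.map (Function.Embedding.subtype _) := by
  constructor
  · intro k
    obtain ⟨u, -, hu⟩ := mem_map.1 k
    exact u.2.1 hu
  · intro k
    obtain ⟨u, -, hu⟩ := mem_map.1 k
    exact u.2.2 hu

/-- extension of a colouring by the value `t` on the edge `x y` -/
def extT {x y : D} (c : {d // Off x y d} → K4) (t : K4) (d : D) : K4 :=
  ext0 c d + if Off x y d then 0 else t

theorem extT_off {x y : D} (c : {d // Off x y d} → K4) (t : K4) {d : D} (h : Off x y d) :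
    extT c t d = c ⟨d, h⟩ := by
  unfold extT ext0
  rw [dif_pos h, if_pos h, add_zero]

theorem extT_not {x y : D} (c : {d // Off x y d} → K4) (t : K4) {d : D} (h : ¬ Off x y d) :
    extT c t d = t := by
  unfold extT ext0
  rw [dif_neg h, if_neg h, zero_add]

theorem extT_sym {α : Perm D} {x y : D} (hα : ∀ d, Off x y (α d) ↔ Off x y d)
    {c : {d // Off x y d} → K4} (hc : ∀ u, c (α.subtypePerm hα u) = c u) (t : K4) (d : D) :
    extT c t (α d) = extT c t d := by
  by_cases h : Off x y d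
  · rw [extT_off c t h, extT_off c t ((hα d).2 h)]
    exact hc ⟨d, h⟩
  · rw [extT_not c t h, extT_not c t fun k => h ((hα d).1 k)]

theorem sum_extT {x y : D} (hxy : x ≠ y) (c : {d // Off x y d} → K4) (t : K4) (A : Finset D) :
    ∑ e ∈ A, extT c t e =
      ∑ e ∈ A, ext0 c e + ((if x ∈ A then t else 0) + if y ∈ A then t else 0) := by
  unfold extT
  rw [sum_add_distrib]
  congr 1
  rw [← sum_ite_eq A x fun _ => t, ← sum_ite_eq A y fun _ => t, ← sum_add_distrib]
  refine sum_congr rfl fun e _ => ?_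
  unfold Off
  by_cases h1 : x = e
  · subst h1
    simp [hxy.symm]
  · by_cases h2 : y = e
    · subst h2
      simp [h1]
    · simp [h1, h2, Ne.symm h1, Ne.symm h2]

variable {σ α : Perm D} {Z : D → Prop}

theorem Cls.off_alpha (h : Cls σ α Z) (x d : D) : Off x (α x) (α d) ↔ Off x (α x) d :=
  off_inv (Or.inr ⟨rfl, h.inv x⟩) d

/-- deletion of a loop at an `N`-vertex, or of an isolated edge -/
theorem Cls.del_cls (h : Cls σ α Z) {x : D} (hx : ¬ Z x) (hy : ¬ Z (α x))
    (hs : ∀ n, Off x (α x) n → (σ.SameCycle n x ↔ σ.SameCycle n (α x))) :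
    Cls (del σ x (α x)) (α.subtypePerm (h.off_alpha x)) (fun u => Z u.1) := by
  have key : ∀ u : {d // Off x (α x) d}, Z u.1 → (del σ x (α x) u).1 = σ u.1 := fun u hu =>
    del_apply σ _ _ u ⟨fun k => hx (k ▸ (h.typ _).2 hu), fun k => hy (k ▸ (h.typ _).2 hu)⟩
  have typ : ∀ u : {d // Off x (α x) d}, Z (del σ x (α x) u).1 ↔ Z u.1 := fun u =>
    (h.typ_sc ((sc_del σ _ _ _ _).1 (perm_sc_step _ u))).symm
  refine ⟨fun u => Subtype.ext (h.inv u.1), fun u k => h.fpf u.1 (congrArg Subtype.val k),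
    gen0_del h.gen _ _ _, typ, fun u hu k => h.deg1 u.1 hu ?_, fun u hu => Subtype.ext ?_,
    fun S hS hne hc => ?_, fun S n hS hn hc => ?_⟩
  · rw [← key u hu, k]
  · rw [key _ ((typ _).2 ((typ _).2 hu)), key _ ((typ _).2 hu), key _ hu, h.deg3 _ hu]
  · rw [bdy_sub]
    rw [inn_sub] at hc
    exact h.j0 _ (zset_map (fun u hu => ⟨hu, key u hu⟩) hS) (by simpa using hne)
      (by rwa [card_map])
  · rw [bdy_sub]
    rw [inn_sub] at hc
    have hZ := zset_map (σ := σ) (Z := Z) (fun u hu => ⟨hu, key u hu⟩) hS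
    have hj := h.j1 _ n.1 hZ hn
    have ho := map_orb (del σ x (α x)) n (orb σ n.1) fun v => by rw [sc_del, mem_orb]
    rw [card_map] at hj
    by_cases hnx : σ.SameCycle n.1 x
    · have e : S.map (Function.Embedding.subtype _) ∪ orb σ n.1 =
          (S ∪ orb (del σ x (α x)) n).map (Function.Embedding.subtype _) ∪ {x, α x} := by
        rw [map_union, ho, union_assoc,
          filter_off_union (mem_orb.2 hnx) (mem_orb.2 ((hs _ n.2).1 hnx))]
      have hm := not_mem_map_off (S ∪ orb (del σ x (α x)) n)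
      rw [e, inn_pair h.inv (h.fpf x) hm.1 hm.2, bdy_pair h.inv (h.fpf x) hm.1 hm.2] at hj
      exact hj (le_trans hc (Nat.mul_le_mul_left 3 (Nat.le_add_right _ _)))
    · have e : S.map (Function.Embedding.subtype _) ∪ orb σ n.1 =
          (S ∪ orb (del σ x (α x)) n).map (Function.Embedding.subtype _) := by
        rw [map_union, ho, filter_off_self (fun k => hnx (mem_orb.1 k))
          fun k => hnx ((hs _ n.2).2 (mem_orb.1 k))]
      rw [e] at hj
      exact hj hc

theorem MinCE.del_col (h : MinCE σ α Z) {x : D} (hx : ¬ Z x) (hy : ¬ Z (α x))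
    (hs : ∀ n, Off x (α x) n → (σ.SameCycle n x ↔ σ.SameCycle n (α x))) :
    ∃ c : D → K4, (∀ d, c (α d) = c d) ∧ (∀ d, c d ≠ 0) ∧
      ∀ d, Off x (α x) d → (Z d → vsum σ c d = 0) ∧ (¬ Z d → vsum σ c d ≠ 0) := by
  have hne : x ≠ α x := (h.cls.fpf x).symm
  obtain ⟨c, hc, h0⟩ := h.min _ _ _ _ (h.cls.del_cls hx hy hs) (by
    have h1 := card_off hne
    have h2 := cyc_del σ hne
    omega)
  refine ⟨extT c (1, 0), extT_sym _ hc.sym _, fun d => ?_, fun d hd => ?_⟩
  · by_cases k : Off x (α x) d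
    · rw [extT_off c _ k]
      exact h0 _
    · rw [extT_not c _ k]
      decide
  · have e : vsum σ (extT c (1, 0)) d = vsum (del σ x (α x)) c ⟨d, hd⟩ := by
      rw [vsum_sub _ c ⟨d, hd⟩ (orb σ d) fun v => by rw [sc_del, mem_orb]]
      unfold vsum
      rw [sum_extT hne]
      simp only [mem_orb, ← hs d hd]
      rw [k4_add_self, add_zero]
    rw [e]
    exact ⟨hc.zs ⟨d, hd⟩, hc.ns ⟨d, hd⟩⟩

theorem two_le_inn (hα : ∀ d, α (α d) = d) {d : D} (hd : α d ≠ d) {A : Finset D} (h1 : d ∈ A)
    (h2 : α d ∈ A) : 2 ≤ inn α A := by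
  rw [← card_pair hd.symm]
  refine card_le_card fun e he => ?_
  simp only [mem_insert, mem_singleton] at he
  rcases he with rfl | rfl
  · exact mem_filter.2 ⟨h1, h2⟩
  · exact mem_filter.2 ⟨h2, by rwa [hα]⟩

theorem MinCE.noloop (h : MinCE σ α Z) (x : D) : ¬ σ.SameCycle x (α x) := by
  intro hs
  have h2 := two_le_inn h.cls.inv (h.cls.fpf x) (self_mem_orb σ x) (mem_orb.2 hs)
  by_cases hx : Z x
  · have h1 := h.cls.j0 _ (h.cls.zset_orb hx) ⟨x, self_mem_orb σ x⟩
    have h3 := inn_add_bdy α (orb σ x)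
    rw [h.cls.card_orb_z hx] at h1 h3
    omega
  · have hy : ¬ Z (α x) := fun k => hx ((h.cls.typ_sc hs).2 k)
    obtain ⟨c, c1, c2, c3⟩ := h.del_col hx hy fun n _ =>
      ⟨fun k => k.trans hs, fun k => k.trans hs.symm⟩
    have h1 := h.cls.j1 ∅ x (fun _ k => absurd k (notMem_empty _)) hx
    rw [empty_union, card_empty] at h1
    have h3 : 0 < bdy α (orb σ x) := by omega
    obtain ⟨w, hw⟩ := card_pos.1 h3
    obtain ⟨w1, w2⟩ := mem_filter.1 hw
    have hw0 : Off x (α x) w :=
      ⟨fun k => w2 (by rw [k]; exact mem_orb.2 hs),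
        fun k => w2 (by rw [k, h.cls.inv]; exact self_mem_orb σ x)⟩
    have hxw := mem_orb.1 w1
    have hZw : ¬ Z w := fun k => hx ((h.cls.typ_sc hxw).2 k)
    refine h.ncol ⟨c, ⟨c1, fun d hd => (c3 d ⟨fun k => hx (k ▸ hd), fun k => hy (k ▸ hd)⟩).1 hd,
      fun d hd => ?_⟩, c2⟩
    by_cases k : Off x (α x) d
    · exact (c3 d k).2 hd
    · have : σ.SameCycle d w := by
        unfold Off at k
        by_cases k1 : d = x
        · rwa [k1]
        · have k2 : d = α x := by tauto
          rw [k2]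
          exact hs.symm.trans hxw
      rw [vsum_eq this]
      exact (c3 w hw0).2 hZw

theorem explode (α : Perm D) (A : D → Prop) (σ : Perm D) (hg : Gen0 σ α)
    (hA : ∀ d, A (σ d) ↔ A d) :
    ∃ τ : Perm D, Gen0 τ α ∧ (∀ d, A d → τ d = d) ∧ (∀ d, ¬ A d → τ d = σ d) ∧ cyc σ ≤ cyc τ ∧
      ((∃ d, A d ∧ σ d ≠ d) → cyc σ < cyc τ) := by
  classical
  induction hn : (univ.filter fun d => A d ∧ σ d ≠ d).card using Nat.strong_induction_on
    generalizing σ with
  | _ n ih =>
    by_cases hex : ∃ d, A d ∧ σ d ≠ d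
    · obtain ⟨x, hx1, hx2⟩ := hex
      have hoff : ∀ d, ¬ A d → rem σ x d = σ d := fun d hd =>
        rem_of_ne σ (fun k => hd (k ▸ hx1)) fun k => hd ((hA d).1 (k ▸ hx1))
      have hA' : ∀ d, A (rem σ x d) ↔ A d := by
        intro d
        by_cases hd : A d
        · refine iff_of_true ?_ hd
          unfold rem
          rw [Perm.mul_apply, hA]
          have hx3 : A (σ⁻¹ x) := (hA _).1 (by simpa using hx1)
          rw [swap_apply_def]
          split_ifs
          · exact hx3
          · exact hx1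
          · exact hd
        · rw [hoff d hd, hA]
      obtain ⟨τ, t1, t2, t3, t4, -⟩ := ih _ (by
        rw [← hn]
        refine card_lt_card ⟨fun d hd => ?_, fun k => ?_⟩
        · simp only [mem_filter, mem_univ, true_and] at hd ⊢
          exact ⟨hd.1, fun l => hd.2 (rem_fix σ x l)⟩
        · have := k (mem_filter.2 ⟨mem_univ x, hx1, hx2⟩)
          exact (mem_filter.1 this).2.2 (rem_self σ x)) (rem σ x) (gen0_rem hg x) hA' rfl
      have h1 := cyc_rem σ hx2
      exact ⟨τ, t1, t2, fun d hd => by rw [t3 d hd, hoff d hd], by omega, fun _ => by omega⟩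
    · refine ⟨σ, hg, fun d hd => ?_, fun _ _ => rfl, le_rfl, fun k => absurd k hex⟩
      by_contra k
      exact hex ⟨d, hd, k⟩

theorem single_bound (hα : ∀ d, α (α d) = d) (S : Finset D) (n : D) (hn : α n ≠ n) :
    inn α (S ∪ {n}) ≤ inn α S + 2 ∧ bdy α S ≤ bdy α (S ∪ {n}) + 1 ∧
      (S = ∅ → inn α (S ∪ {n}) = 0) := by
  refine ⟨?_, ?_, ?_⟩
  · unfold inn
    rw [← card_pair hn.symm]
    refine le_trans (card_le_card fun d hd => ?_) (card_union_le _ _)
    simp only [mem_filter, mem_union, mem_singleton, mem_insert] at hd ⊢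
    obtain ⟨k | k, l | l⟩ := hd
    · exact Or.inl ⟨k, l⟩
    · exact Or.inr (Or.inr (by rw [← l, hα]))
    all_goals exact Or.inr (Or.inl k)
  · unfold bdy
    rw [← card_singleton (α n)]
    refine le_trans (card_le_card fun d hd => ?_) (card_union_le _ _)
    simp only [mem_filter, mem_union, mem_singleton, not_or] at hd ⊢
    by_cases k : α d = n
    · exact Or.inr (by rw [← k, hα])
    · exact Or.inl ⟨Or.inl hd.1, hd.2, k⟩
  · rintro rfl
    unfold inn
    rw [card_eq_zero, filter_eq_empty_iff]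
    intro d hd
    simp only [empty_union, mem_singleton] at hd ⊢
    rwa [hd]

/-- all darts of some `N`-vertices become vertices of degree one -/
theorem Cls.explode_cls (h : Cls σ α Z) {A : D → Prop} (hA : ∀ d, A (σ d) ↔ A d)
    (hZ : ∀ d, A d → ¬ Z d) {τ : Perm D} (t1 : Gen0 τ α) (t2 : ∀ d, A d → τ d = d)
    (t3 : ∀ d, ¬ A d → τ d = σ d) : Cls τ α Z := by
  have key : ∀ d, Z d → τ d = σ d := fun d hd => t3 d fun k => hZ d k hd
  have zs : ∀ S, ZSet τ Z S → ZSet σ Z S := fun S hS d hd =>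
    ⟨(hS d hd).1, key d (hS d hd).1 ▸ (hS d hd).2⟩
  refine ⟨h.inv, h.fpf, t1, fun d => ?_, fun d hd => ?_, fun d hd => ?_,
    fun S hS => h.j0 S (zs S hS), fun S n hS hn hc => ?_⟩
  · by_cases k : A d
    · rw [t2 d k]
    · rw [t3 d k, h.typ]
  · rw [key d hd]
    exact h.deg1 d hd
  · rw [key d hd, key _ ((h.typ d).2 hd), key _ ((h.typ _).2 ((h.typ d).2 hd)), h.deg3 d hd]
  · by_cases k : A n
    · rw [orb_fix (t2 n k)] at hc ⊢
      obtain ⟨b1, b2, b3⟩ := single_bound h.inv S n (h.fpf n)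
      have := h.j0 S (zs S hS) (by
        rw [nonempty_iff_ne_empty]
        intro l
        have := b3 l
        omega) (by omega)
      omega
    · have e : orb τ n = orb σ n := by
        ext e
        rw [mem_orb, mem_orb]
        exact sc_congr (P := fun d => ¬ A d) (fun d hd l => hd ((hA d).1 l)) t3 k e
      rw [e] at hc ⊢
      exact h.j1 S n (zs S hS) hn hc

theorem MinCE.nn (h : MinCE σ α Z) (x : D) : Z x ∨ Z (α x) := by
  classical
  by_contra hc
  rw [not_or] at hc
  obtain ⟨hx, hy⟩ := hc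
  have hl := h.noloop x
  by_cases hf : σ x = x ∧ σ (α x) = α x
  · obtain ⟨c, c1, c2, c3⟩ := h.del_col hx hy fun n hn =>
      iff_of_false (fun k => hn.1 (sc_fix hf.1 k.symm)) fun k => hn.2 (sc_fix hf.2 k.symm)
    refine h.ncol ⟨c, ⟨c1, fun d hd => (c3 d ⟨fun k => hx (k ▸ hd), fun k => hy (k ▸ hd)⟩).1 hd,
      fun d hd => ?_⟩, c2⟩
    by_cases k : Off x (α x) d
    · exact (c3 d k).2 hd
    · have : σ d = d := by
        unfold Off at k
        by_cases k1 : d = x
        · rw [k1, hf.1]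
        · have k2 : d = α x := by tauto
          rw [k2, hf.2]
      unfold vsum
      rw [orb_fix this, sum_singleton]
      exact c2 d
  · have hA : ∀ d, (σ.SameCycle x (σ d) ∨ σ.SameCycle (α x) (σ d)) ↔
        (σ.SameCycle x d ∨ σ.SameCycle (α x) d) := fun d => by
      simp only [Perm.sameCycle_apply_right]
    have hZ : ∀ d, (σ.SameCycle x d ∨ σ.SameCycle (α x) d) → ¬ Z d := by
      rintro d (k | k) l
      · exact hx ((h.cls.typ_sc k).2 l)
      · exact hy ((h.cls.typ_sc k).2 l)
    obtain ⟨τ, t1, t2, t3, -, t5⟩ := explode α (fun d => σ.SameCycle x d ∨ σ.SameCycle (α x) d) σ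
      h.cls.gen hA
    have t6 := t5 (by
      by_cases k : σ x = x
      · exact ⟨α x, Or.inr (Perm.SameCycle.refl _ _), fun l => hf ⟨k, l⟩⟩
      · exact ⟨x, Or.inl (Perm.SameCycle.refl _ _), k⟩)
    obtain ⟨c, hc, h0⟩ := h.min D τ α Z (h.cls.explode_cls hA hZ t1 t2 t3) (by omega)
    obtain ⟨t, ht0, ht1, ht2⟩ := k4_avoid (vsum σ c x + c x) (vsum σ c (α x) + c x)
    have hne : x ≠ α x := (h.cls.fpf x).symm
    have hsum : ∀ A : Finset D, ∑ e ∈ A, (c e + if Off x (α x) e then 0 else c x + t) =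
        ∑ e ∈ A, c e + ((if x ∈ A then c x + t else 0) + if α x ∈ A then c x + t else 0) := by
      intro A
      have := sum_extT hne (fun _ => 0) (c x + t) A
      have z : ∀ e, ext0 (p := Off x (α x)) (fun _ => (0 : K4)) e = 0 := fun e => by
        unfold ext0
        split_ifs <;> rfl
      simp only [extT, z, zero_add, sum_const_zero] at this
      rw [sum_add_distrib, this]
    have hout : ∀ d, ¬ (σ.SameCycle x d ∨ σ.SameCycle (α x) d) →
        vsum σ (fun e => c e + if Off x (α x) e then 0 else c x + t) d = vsum τ c d := by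
      intro d hd
      have e : orb τ d = orb σ d := by
        ext e
        rw [mem_orb, mem_orb]
        exact sc_congr (P := fun d => ¬ (σ.SameCycle x d ∨ σ.SameCycle (α x) d))
          (fun d hd l => hd ((hA d).1 l)) t3 hd e
      unfold vsum
      rw [hsum, e, if_neg fun k => hd (Or.inl (mem_orb.1 k).symm),
        if_neg fun k => hd (Or.inr (mem_orb.1 k).symm), add_zero, add_zero]
    refine h.ncol ⟨fun e => c e + if Off x (α x) e then 0 else c x + t, ⟨fun d => ?_,
      fun d hd => ?_, fun d hd => ?_⟩, fun d => ?_⟩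
    · simp only [hc.sym, h.cls.off_alpha]
    · rw [hout d fun k => hZ d k hd]
      exact hc.zs d hd
    · by_cases k : σ.SameCycle x d ∨ σ.SameCycle (α x) d
      · rcases k with k | k
        · rw [← vsum_eq k]
          unfold vsum at ht1 ⊢
          rw [hsum, if_pos (self_mem_orb σ x), if_neg fun l => hl (mem_orb.1 l), add_zero,
            ← add_assoc]
          exact ht1
        · rw [← vsum_eq k]
          unfold vsum at ht2 ⊢
          rw [hsum, if_pos (self_mem_orb σ (α x)), if_neg fun l => hl (mem_orb.1 l).symm,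
            zero_add, ← add_assoc]
          exact ht2
      · rw [hout d k]
        exact hc.ns d hd
    · by_cases k : Off x (α x) d
      · simp only [if_pos k, add_zero]
        exact h0 d
      · have : c d = c x := by
          unfold Off at k
          by_cases k1 : d = x
          · rw [k1]
          · have k2 : d = α x := by tauto
            rw [k2, hc.sym]
        simp only [if_neg k]
        rw [this, ← add_assoc, k4_add_self, zero_add]
        exact ht0

end Pool.Agent.Lib.G6.A
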