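import Pool.Agent.Lib.G6.ACon

set_option autoImplicit false
set_option linter.unusedSectionVars false

namespace Pool.Agent.Lib.G6.A

open Equiv Finset Pool.Agent.Lib.MP_bfaad3_co

section Gen
variable {D : Type} [Finite D] [DecidableEq D]

theorem gen0_join (a b : Perm D) (h : Gen0 a b) (x y : D) (hn : ¬ conn a b x y) :
    Gen0 (a * swap x y) b := by
  have s1 : ¬ a.SameCycle x y := fun k => hn (perm_sc_le (perm_conn_a a b) k)
  have s2 : ¬ (b * a).SameCycle x y := fun k => hn (perm_sc_le (s := conn a b) (fun u =>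
    (conn _ _).trans' (perm_conn_a _ _ u) (perm_conn_b _ _ _)) k)
  have h1 := cyc_swap_diff a x y s1
  have h2 := cyc_swap_diff _ x y s2
  have e : cyc (a * swap x y * b) = cyc (b * a * swap x y) := by
    rw [cyc_mul_comm, mul_assoc]
  have e' := cyc_mul_comm a b
  have h3 := perm_card_eq_succ (conn a b) x y hn
  have le : ∀ {u v : D}, a.SameCycle u v → conn (a * swap x y) b u v := fun k =>
    perm_sc_le (perm_conn_a _ _) ((sameCycle_swap_diff a x y s1 _ _).2 (Or.inl k))
  have le2 : ∀ {u v : D}, conn a b u v → conn (a * swap x y) b u v := fun k =>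
    perm_conn_le (fun w => le (perm_sc_step a w)) (perm_conn_b _ _) k
  have hxy : conn (a * swap x y) b x y := perm_sc_le (perm_conn_a _ _) (perm_sc_swap a x y s1)
  have h4 : comp (a * swap x y) b ≤ Nat.card (Quotient (perm_mrg (conn a b) x y)) := by
    refine perm_card_le fun u v k => ?_
    rcases k with k | ⟨k1, k2⟩ | ⟨k1, k2⟩
    · exact le2 k
    · exact (conn _ _).trans' (le2 k1) ((conn _ _).trans' hxy ((conn _ _).symm' (le2 k2)))
    · exact (conn _ _).trans' (le2 k1)
        ((conn _ _).trans' ((conn _ _).symm' hxy) ((conn _ _).symm' (le2 k2)))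
  unfold Gen0 at h ⊢
  unfold comp at h h4 ⊢
  omega

theorem gen0_unmove (a b : Perm D) (h : Gen0 a b) (x y : D) (hxy : x ≠ y)
    (hs : a.SameCycle x y) (hb : ¬ b.SameCycle x y) :
    Gen0 (a * swap x y) (swap x y * b) := by
  have h1 := cyc_swap_same _ x y hxy hs
  have h2 := cyc_swap_diff _ x y hb
  obtain ⟨-, h5⟩ := perm_comp_step (a := a) (b := b) (a' := a * swap x y)
    (b' := swap x y * b) x y
    (fun u => by
      have k := perm_conn_a (a * swap x y) (swap x y * b) (swap x y u)
      rw [Perm.mul_apply, swap_apply_self] at k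
      exact (perm_mrg _ _ _).trans' (perm_mrg_swap _ _ _ u) (Or.inl k))
    (fun u => by
      have k := perm_conn_b (a * swap x y) (swap x y * b) u
      have k' := perm_mrg_swap (conn (a * swap x y) (swap x y * b)) x y ((swap x y * b) u)
      rw [Perm.mul_apply, swap_apply_self] at k'
      exact (perm_mrg _ _ _).trans' (Or.inl k) k')
  have e : a * swap x y * (swap x y * b) = a * b := by
    rw [mul_assoc, ← mul_assoc (swap x y), swap_mul_self, one_mul]
  have e' := cyc_mul_comm (swap x y) b
  have h8 := h5 (perm_sc_le (perm_conn_b _ _) (perm_sc_swap' _ _ _ hb))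
  unfold Gen0 at h ⊢
  rw [e]
  omega

/-- two new fixed points -/
def up (a : Perm D) : Perm (D ⊕ Bool) := Perm.sumCongr a 1

omit [Finite D] [DecidableEq D] in
@[simp] theorem up_inl (a : Perm D) (d : D) : up a (Sum.inl d) = Sum.inl (a d) := rfl

omit [Finite D] [DecidableEq D] in
@[simp] theorem up_inr (a : Perm D) (b : Bool) : up a (Sum.inr b) = Sum.inr b := rfl

omit [DecidableEq D] in
theorem cyc_up (a : Perm D) : cyc a + 2 ≤ cyc (up a) := by
  have key : ∀ u v, (up a).SameCycle u v →
      Sum.map (Quotient.mk (Perm.SameCycle.setoid a)) id u =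
        Sum.map (Quotient.mk (Perm.SameCycle.setoid a)) id v := by
    intro u v k
    refine perm_sc_le (s := Setoid.ker (Sum.map (Quotient.mk (Perm.SameCycle.setoid a)) id))
      (fun w => ?_) k
    rcases w with d | b
    · exact congrArg Sum.inl (Quotient.sound (perm_sc_step a d))
    · rfl
  have := Nat.card_le_card_of_surjective
    (Quotient.lift (s := Perm.SameCycle.setoid (up a)) _ key) (by
      rintro (q | b)
      · obtain ⟨d, rfl⟩ := Quotient.exists_rep q
        exact ⟨Quotient.mk _ (Sum.inl d), rfl⟩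
      · exact ⟨Quotient.mk _ (Sum.inr b), rfl⟩)
  rw [Nat.card_sum, Nat.card_eq_fintype_card (α := Bool), Fintype.card_bool] at this
  exact this

omit [DecidableEq D] in
theorem comp_up (a b : Perm D) : comp (up a) (up b) ≤ comp a b + 2 := by
  have key : ∀ u v, conn a b u v → conn (up a) (up b) (Sum.inl u) (Sum.inl v) := fun u v k =>
    perm_conn_le (s := Setoid.comap Sum.inl (conn (up a) (up b)))
      (fun w => perm_conn_a (up a) (up b) (Sum.inl w))
      (fun w => perm_conn_b (up a) (up b) (Sum.inl w)) k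
  have := Nat.card_le_card_of_surjective
    (Sum.elim (Quotient.map (sa := conn a b) (sb := conn (up a) (up b)) Sum.inl key)
      (fun b : Bool => Quotient.mk _ (Sum.inr b))) (by
      intro q
      obtain ⟨d | c, rfl⟩ := Quotient.exists_rep q
      · exact ⟨Sum.inl (Quotient.mk _ d), rfl⟩
      · exact ⟨Sum.inr c, rfl⟩)
  rw [Nat.card_sum, Nat.card_eq_fintype_card (α := Bool), Fintype.card_bool] at this
  exact this

omit [DecidableEq D] in
theorem gen0_up {a b : Perm D} (h : Gen0 a b) : Gen0 (up a) (up b) := by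
  have h1 := cyc_up a
  have h2 := cyc_up b
  have h3 := cyc_up (a * b)
  have h4 := comp_up a b
  have e : up a * up b = up (a * b) := by
    ext1 u
    rcases u with d | c <;> rfl
  have h5 : Nat.card (D ⊕ Bool) = Nat.card D + 2 := by
    rw [Nat.card_sum, Nat.card_eq_fintype_card (α := Bool), Fintype.card_bool]
  unfold Gen0 at h ⊢
  rw [e]
  omega

omit [Finite D] [DecidableEq D] in
theorem conn_fix {a b : Perm D} {y : D} (ha : a y = y) (hb : b y = y) {x : D}
    (h : conn a b x y) : x = y := by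
  have k : (x = y) = (y = y) :=
    perm_conn_le (s := Setoid.ker fun w => w = y)
      (fun w => propext ⟨fun e => by rw [e, ha], fun e => a.injective (e.trans ha.symm)⟩)
      (fun w => propext ⟨fun e => by rw [e, hb], fun e => b.injective (e.trans hb.symm)⟩) h
  rw [k]

end Gen

variable {D : Type} [Fintype D] [DecidableEq D]

/-- number of vertices met by a set of darts -/
def nv (σ : Perm D) (I : Finset D) : ℕ := (I.image (orb σ)).card

/-- sparse plane maps -/
structure Sp (σ α : Perm D) (Z : D → Prop) : Prop where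
  inv : ∀ d, α (α d) = d
  fpf : ∀ d, α d ≠ d
  gen : Gen0 σ α
  typ : ∀ d, Z (σ d) ↔ Z d
  z3 : ∀ d, Z d → 3 ≤ (orb σ d).card
  sparse : ∀ I : Finset D, I.Nonempty → (∀ d ∈ I, α d ∈ I) → 2 * nv σ I ≤ I.card →
    I.card + 6 ≤ 3 * nv σ I

variable {σ α : Perm D} {Z : D → Prop}

theorem three_nv (h3 : ∀ d, Z d → (orb σ d).card = 3) {S J : Finset D} (hS : ZSet σ Z S)
    (hJ : J ⊆ S) : 3 * nv σ J ≤ S.card := by
  have h1 : (J.image (orb σ)).biUnion id ⊆ S := by
    intro e he
    obtain ⟨O, hO, k⟩ := mem_biUnion.1 he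
    obtain ⟨d, hd, rfl⟩ := mem_image.1 hO
    exact sc_ind (P := fun f => f ∈ S) (fun f hf => (hS f hf).2) (mem_orb.1 k) (hJ hd)
  have h2 := card_le_card h1
  rw [card_biUnion, sum_const_nat (m := 3)] at h2
  · unfold nv
    omega
  · intro O hO
    obtain ⟨d, hd, rfl⟩ := mem_image.1 hO
    exact h3 d (hS d (hJ hd)).1
  · intro O hO P hP hne
    obtain ⟨d, -, rfl⟩ := mem_image.1 (mem_coe.1 hO)
    obtain ⟨e, -, rfl⟩ := mem_image.1 (mem_coe.1 hP)
    refine disjoint_left.2 fun f k l => hne ?_
    exact orb_eq ((mem_orb.1 k).trans (mem_orb.1 l).symm)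

theorem inner_closed (hα : ∀ d, α (α d) = d) (T : Finset D) :
    ∀ d ∈ T.filter fun d => α d ∈ T, α d ∈ T.filter fun d => α d ∈ T := by
  intro d hd
  rw [mem_filter] at hd ⊢
  exact ⟨hd.2, by rw [hα]; exact hd.1⟩

theorem Sp.cls (h : Sp σ α Z) (h3 : ∀ d, Z d → (orb σ d).card = 3) : Cls σ α Z := by
  have j0 : ∀ S, ZSet σ Z S → S.Nonempty → 2 * S.card ≤ 3 * inn α S → 6 ≤ bdy α S := by
    intro S hS hne hc
    have e1 := inn_add_bdy α S
    have e2 := three_nv h3 hS (filter_subset (fun d => α d ∈ S) S)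
    have e3 := hne.card_pos
    have e4 := h.sparse (S.filter fun d => α d ∈ S) (by
      rw [← card_pos]
      unfold inn at hc
      omega) (inner_closed h.inv S) (by
      unfold inn at hc
      omega)
    unfold inn at e1
    omega
  refine ⟨h.inv, h.fpf, h.gen, h.typ, fun d hd k => ?_, fun d hd => ?_, j0,
    fun S n hS hn hc => ?_⟩
  · have := h3 d hd
    rw [orb_fix k, card_singleton] at this
    omega
  · have k := h3 d hd
    rw [card_orb] at k
    have := Function.isPeriodicPt_minimalPeriod σ d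
    unfold deg at k
    rw [k] at this
    exact this
  by_cases hf : σ n = n
  · rw [orb_fix hf] at hc ⊢
    obtain ⟨b1, b2, b3⟩ := single_bound h.inv S n (h.fpf n)
    have := j0 S hS (by
      rw [nonempty_iff_ne_empty]
      intro l
      have := b3 l
      omega) (by omega)
    omega
  · have e1 := inn_add_bdy α (S ∪ orb σ n)
    set I := (S ∪ orb σ n).filter fun d => α d ∈ S ∪ orb σ n with hI
    have e2 := three_nv h3 hS (inter_subset_right (s₁ := I))
    have e3 : nv σ I ≤ nv σ (I ∩ S) + 1 := by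
      unfold nv
      refine le_trans (card_le_card ?_) (card_insert_le (orb σ n) _)
      intro O hO
      obtain ⟨d, hd, rfl⟩ := mem_image.1 hO
      rcases mem_union.1 (mem_filter.1 hd).1 with k | k
      · exact mem_insert_of_mem (mem_image_of_mem _ (mem_inter.2 ⟨hd, k⟩))
      · rw [orb_eq (mem_orb.1 k)]
        exact mem_insert_self _ _
    have e5 : (S ∪ orb σ n).card = S.card + (orb σ n).card := by
      refine card_union_of_disjoint (disjoint_left.2 fun d k l => hn ?_)
      exact sc_ind (fun f => (h.typ f).2) (mem_orb.1 l).symm (hS d k).1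
    have e6 : 1 < (orb σ n).card :=
      one_lt_card.2 ⟨_, mem_orb.2 (perm_sc_step σ n), n, self_mem_orb σ n, hf⟩
    have e7 : inn α (S ∪ orb σ n) = I.card := rfl
    have e4 := h.sparse I (by
      rw [← card_pos]
      omega) (inner_closed h.inv _) (by omega)
    omega

/-- the vertex of `x` with both new darts attached -/
def sp0 (σ : Perm D) (x : D) : Perm (D ⊕ Bool) :=
  up σ * swap (Sum.inl (σ x)) (Sum.inr false) * swap (Sum.inl (σ⁻¹ x)) (Sum.inr true)

/-- rotation after the expansion of the vertex of `x` -/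
def spS (σ : Perm D) (x : D) : Perm (D ⊕ Bool) := sp0 σ x * swap (Sum.inr false) (Sum.inr true)

/-- edges after the expansion -/
def spA (α : Perm D) : Perm (D ⊕ Bool) := swap (Sum.inr false) (Sum.inr true) * up α

/-- contraction of the new edge -/
def spR (x : D) : D ⊕ Bool → D := Sum.elim id fun _ => x

theorem spA_inl (α : Perm D) (d : D) : spA α (Sum.inl d) = Sum.inl (α d) := by
  unfold spA
  rw [Perm.mul_apply, up_inl, swap_apply_of_ne_of_ne] <;> simp

theorem spA_inr (α : Perm D) (b : Bool) : spA α (Sum.inr b) = Sum.inr (!b) := by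
  unfold spA
  rw [Perm.mul_apply, up_inr]
  cases b
  · exact swap_apply_left _ _
  · exact swap_apply_right _ _

theorem sc_up (σ : Perm D) (u v : D) :
    (up σ).SameCycle (Sum.inl u) (Sum.inl v) ↔ σ.SameCycle u v := by
  constructor
  · intro k
    refine sc_ind (P := fun w => σ.SameCycle u (spR u w)) ?_ k (Perm.SameCycle.refl _ _)
    rintro (d | b) hd
    · exact hd.trans (perm_sc_step σ d)
    · exact hd
  · intro k
    exact sc_ind (P := fun w => (up σ).SameCycle (Sum.inl u) (Sum.inl w))
      (fun w hw => hw.trans (perm_sc_step (up σ) (Sum.inl w))) k (Perm.SameCycle.refl _ _)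

theorem sp_fix (σ : Perm D) (x : D) :
    (up σ * swap (Sum.inl (σ x)) (Sum.inr false)) (Sum.inr true) = Sum.inr true := by
  rw [Perm.mul_apply, swap_apply_of_ne_of_ne, up_inr] <;> simp

theorem sc_sp0 (σ : Perm D) (x : D) (u v : D ⊕ Bool) :
    (sp0 σ x).SameCycle u v ↔ σ.SameCycle (spR x u) (spR x v) := by
  constructor
  · intro k
    have sw : ∀ (y : D) (b : Bool) (w : D ⊕ Bool), σ.SameCycle x y →
        σ.SameCycle (spR x w) (spR x (swap (Sum.inl y) (Sum.inr b) w)) := by
      intro y b w hy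
      by_cases h1 : w = Sum.inl y
      · rw [h1, swap_apply_left]
        exact hy.symm
      by_cases h2 : w = Sum.inr b
      · rw [h2, swap_apply_right]
        exact hy
      rw [swap_apply_of_ne_of_ne h1 h2]
    have us : ∀ w, σ.SameCycle (spR x w) (spR x (up σ w)) := by
      rintro (d | b)
      · exact perm_sc_step σ d
      · exact Perm.SameCycle.refl _ _
    refine sc_ind (P := fun w => σ.SameCycle (spR x u) (spR x w)) (fun w hw => ?_) k
      (Perm.SameCycle.refl _ _)
    exact hw.trans (((sw _ _ w (sc_inv σ x)).trans (sw _ _ _ (perm_sc_step σ x))).trans (us _))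
  · have n0 : ¬ (up σ).SameCycle (Sum.inl (σ x)) (Sum.inr false) := fun k => by
      simpa using sc_fix (up_inr σ false) k.symm
    have n1 : ¬ (up σ * swap (Sum.inl (σ x)) (Sum.inr false)).SameCycle (Sum.inl (σ⁻¹ x))
        (Sum.inr true) := fun k => by simpa using sc_fix (sp_fix σ x) k.symm
    have le1 : ∀ {s t}, (up σ * swap (Sum.inl (σ x)) (Sum.inr false)).SameCycle s t →
        (sp0 σ x).SameCycle s t := fun k => (sameCycle_swap_diff _ _ _ n1 _ _).2 (Or.inl k)
    have le : ∀ {s t}, σ.SameCycle s t → (sp0 σ x).SameCycle (Sum.inl s) (Sum.inl t) := fun k =>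
      le1 ((sameCycle_swap_diff _ _ _ n0 _ _).2 (Or.inl ((sc_up σ _ _).2 k)))
    have key : ∀ w, (sp0 σ x).SameCycle (Sum.inl (spR x w)) w := by
      rintro (d | _ | _)
      · exact Perm.SameCycle.refl _ _
      · exact (le (perm_sc_step σ x)).trans (le1 (perm_sc_swap _ _ _ n0))
      · exact (le (sc_inv σ x)).trans (perm_sc_swap _ _ _ n1)
    intro k
    exact (key u).symm.trans ((le k).trans (key v))

theorem gen0_sp (h : Gen0 σ α) (x : D) : Gen0 (spS σ x) (spA α) := by
  have g1 := gen0_join _ _ (gen0_up h) (Sum.inl (σ x)) (Sum.inr false) fun k => by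
    simpa using conn_fix (up_inr σ false) (up_inr α false) k
  have g2 := gen0_join _ _ g1 (Sum.inl (σ⁻¹ x)) (Sum.inr true) fun k => by
    simpa using conn_fix (sp_fix σ x) (up_inr α true) k
  refine gen0_unmove _ _ g2 _ _ (by simp) ((sc_sp0 σ x _ _).2 (Perm.SameCycle.refl _ _)) fun k => ?_
  simpa using sc_fix (up_inr α false) k

theorem sc_spS (σ : Perm D) (x : D) (u v : D ⊕ Bool) :
    σ.SameCycle (spR x u) (spR x v) ↔ (spS σ x).SameCycle u v ∨
      ((spS σ x).SameCycle u (Sum.inr false) ∧ (spS σ x).SameCycle v (Sum.inr true)) ∨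
      ((spS σ x).SameCycle u (Sum.inr true) ∧ (spS σ x).SameCycle v (Sum.inr false)) := by
  have n := perm_not_sc_swap (sp0 σ x) (Sum.inr false) (Sum.inr true) (by simp)
    ((sc_sp0 σ x _ _).2 (Perm.SameCycle.refl _ _))
  have k := sameCycle_swap_diff (spS σ x) _ _ n u v
  rw [← k, ← sc_sp0]
  unfold spS
  rw [mul_assoc, swap_mul_self, mul_one]

theorem not_sc_spS (σ : Perm D) (x : D) :
    ¬ (spS σ x).SameCycle (Sum.inr false) (Sum.inr true) :=
  perm_not_sc_swap (sp0 σ x) (Sum.inr false) (Sum.inr true) (by simp)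
    ((sc_sp0 σ x _ _).2 (Perm.SameCycle.refl _ _))

theorem sc_spR {σ : Perm D} {x : D} {u v : D ⊕ Bool} (k : (spS σ x).SameCycle u v) :
    σ.SameCycle (spR x u) (spR x v) := (sc_spS σ x u v).2 (Or.inl k)

theorem orb_sp_out {σ : Perm D} {x d : D} (hd : ¬ σ.SameCycle x d) :
    orb (spS σ x) (Sum.inl d) = (orb σ d).map Function.Embedding.inl := by
  ext v
  simp only [mem_orb, mem_map, Function.Embedding.inl_apply]
  constructor
  · intro k
    rcases v with e | b
    · exact ⟨e, sc_spR k, rfl⟩
    · exact absurd (sc_spR k).symm hd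
  · rintro ⟨e, k, rfl⟩
    rcases (sc_spS σ x (Sum.inl d) (Sum.inl e)).1 k with l | ⟨l, -⟩ | ⟨l, -⟩
    · exact l
    · exact absurd (sc_spR l).symm hd
    · exact absurd (sc_spR l).symm hd

theorem orb_sp_in (σ : Perm D) (x : D) :
    orb (spS σ x) (Sum.inr false) ∪ orb (spS σ x) (Sum.inr true) =
      (orb σ x).disjSum univ := by
  ext v
  simp only [mem_union, mem_orb]
  have k := sc_spS σ x (Sum.inr false) v
  have n := not_sc_spS σ x
  have e : v ∈ (orb σ x).disjSum (univ : Finset Bool) ↔ σ.SameCycle x (spR x v) := by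
    rcases v with e | b
    · rw [inl_mem_disjSum, mem_orb]
      rfl
    · rw [inr_mem_disjSum]
      exact iff_of_true (mem_univ _) (Perm.SameCycle.refl _ _)
  rw [e]
  refine Iff.trans ?_ k.symm
  constructor
  · rintro (l | l)
    · exact Or.inl l
    · exact Or.inr (Or.inl ⟨Perm.SameCycle.refl _ _, l.symm⟩)
  · rintro (l | ⟨-, l⟩ | ⟨l, -⟩)
    · exact Or.inl l
    · exact Or.inr l.symm
    · exact absurd l n

theorem orb_sp_disj (σ : Perm D) (x : D) :
    Disjoint (orb (spS σ x) (Sum.inr false)) (orb (spS σ x) (Sum.inr true)) :=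
  disjoint_left.2 fun _ k l => not_sc_spS σ x ((mem_orb.1 k).trans (mem_orb.1 l).symm)

theorem orb_sp0 {σ : Perm D} {x : D} (h1 : σ x ≠ x) (h2 : σ (σ x) ≠ x) :
    orb (spS σ x) (Sum.inr false) = {Sum.inr false, Sum.inl x, Sum.inl (σ x)} := by
  have p1 : σ⁻¹ x ≠ x := fun k => h1 (by
    conv_lhs => rw [← k]
    simp)
  have p2 : σ⁻¹ x ≠ σ x := fun k => h2 (by rw [← k]; simp)
  have a0 : spS σ x (Sum.inr false) = Sum.inl x := by
    unfold spS sp0
    rw [Perm.mul_apply, swap_apply_left, Perm.mul_apply, swap_apply_right, Perm.mul_apply,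
      swap_apply_of_ne_of_ne (by simpa using p2) (by simp), up_inl]
    simp
  have a1 : spS σ x (Sum.inl x) = Sum.inl (σ x) := by
    unfold spS sp0
    rw [Perm.mul_apply, swap_apply_of_ne_of_ne (by simp) (by simp), Perm.mul_apply,
      swap_apply_of_ne_of_ne (by simpa using p1.symm) (by simp), Perm.mul_apply,
      swap_apply_of_ne_of_ne (by simpa using h1.symm) (by simp), up_inl]
  have a2 : spS σ x (Sum.inl (σ x)) = Sum.inr false := by
    unfold spS sp0
    rw [Perm.mul_apply, swap_apply_of_ne_of_ne (by simp) (by simp), Perm.mul_apply,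
      swap_apply_of_ne_of_ne (by simpa using p2.symm) (by simp), Perm.mul_apply,
      swap_apply_left, up_inr]
  ext v
  simp only [mem_orb, mem_insert, mem_singleton]
  constructor
  · intro k
    refine sc_ind (P := fun f => f = Sum.inr false ∨ f = Sum.inl x ∨ f = Sum.inl (σ x)) ?_ k
      (Or.inl rfl)
    rintro f (rfl | rfl | rfl)
    · exact Or.inr (Or.inl a0)
    · exact Or.inr (Or.inr a1)
    · exact Or.inl a2
  · have s0 := perm_sc_step (spS σ x) (Sum.inr false)
    have s1 := perm_sc_step (spS σ x) (Sum.inl x)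
    rw [a0] at s0
    rw [a1] at s1
    rintro (rfl | rfl | rfl)
    · exact Perm.SameCycle.refl _ _
    · exact s0
    · exact s0.trans s1

theorem card_orb_sp0 {σ : Perm D} {x : D} (h1 : σ x ≠ x) (h2 : σ (σ x) ≠ x) :
    (orb (spS σ x) (Sum.inr false)).card = 3 := by
  rw [orb_sp0 h1 h2, card_eq_three]
  exact ⟨_, _, _, by simp, by simp, by simpa using h1.symm, rfl⟩

theorem big_ne {σ : Perm D} {x : D} (h : 3 ≤ (orb σ x).card) : σ x ≠ x ∧ σ (σ x) ≠ x := by
  have key : σ (σ x) ≠ x := by
    intro k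
    have : orb σ x ⊆ {x, σ x} := by
      intro e he
      simp only [mem_insert, mem_singleton]
      refine sc_ind (P := fun f => f = x ∨ f = σ x) ?_ (mem_orb.1 he) (Or.inl rfl)
      rintro f (rfl | rfl)
      · exact Or.inr rfl
      · exact Or.inl k
    have := (card_le_card this).trans card_le_two
    omega
  exact ⟨fun k => key (by rw [k, k]), key⟩

theorem orb_sp_cases (σ : Perm D) (x : D) (u : D ⊕ Bool) :
    (∃ d, u = Sum.inl d ∧ ¬ σ.SameCycle x d) ∨
      (σ.SameCycle x (spR x u) ∧ (orb (spS σ x) u = orb (spS σ x) (Sum.inr false) ∨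
        orb (spS σ x) u = orb (spS σ x) (Sum.inr true))) := by
  by_cases h : σ.SameCycle x (spR x u)
  · refine Or.inr ⟨h, ?_⟩
    rcases (sc_spS σ x (Sum.inr false) u).1 h with l | ⟨-, l⟩ | ⟨l, -⟩
    · exact Or.inl (orb_eq l).symm
    · exact Or.inr (orb_eq l)
    · exact absurd l (not_sc_spS σ x)
  · rcases u with d | b
    · exact Or.inl ⟨d, rfl, h⟩
    · exact absurd (Perm.SameCycle.refl _ _) h

/-- the vertex below a vertex of the expansion -/
noncomputable def spH (σ : Perm D) (x : D) (O : Finset (D ⊕ Bool)) : Finset D :=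
  (O.image (spR x)).biUnion (orb σ)

theorem spH_orb (σ : Perm D) (x : D) (u : D ⊕ Bool) :
    spH σ x (orb (spS σ x) u) = orb σ (spR x u) := by
  ext e
  simp only [spH, mem_biUnion, mem_image, mem_orb]
  exact ⟨fun ⟨_, ⟨v, k, rfl⟩, l⟩ => (sc_spR k).trans l,
    fun l => ⟨_, ⟨u, Perm.SameCycle.refl _ _, rfl⟩, l⟩⟩

theorem nv_toLeft (σ : Perm D) (x : D) (I : Finset (D ⊕ Bool)) :
    nv σ I.toLeft ≤ ((I.image (orb (spS σ x))).image (spH σ x)).card := by
  refine card_le_card fun O hO => ?_
  obtain ⟨d, hd, rfl⟩ := mem_image.1 hO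
  exact mem_image.2 ⟨_, mem_image_of_mem _ (mem_toLeft.1 hd), spH_orb σ x _⟩

theorem Sp.split (h : Sp σ α Z) {x : D} (h4 : 4 ≤ (orb σ x).card) :
    Sp (spS σ x) (spA α) fun u => Z (spR x u) := by
  obtain ⟨h1, h2⟩ := big_ne (σ := σ) (x := x) (by omega)
  have c0 := card_orb_sp0 h1 h2
  have c1 : 3 ≤ (orb (spS σ x) (Sum.inr true)).card := by
    have := card_union_of_disjoint (orb_sp_disj σ x)
    rw [orb_sp_in, card_disjSum, card_univ, Fintype.card_bool] at this
    omega
  have zsc : ∀ {d e : D}, σ.SameCycle d e → Z d → Z e := fun k =>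
    sc_ind (fun f => (h.typ f).2) k
  refine ⟨?_, ?_, gen0_sp h.gen x, fun u => ?_, fun u hu => ?_, fun I hne hI hc => ?_⟩
  · rintro (d | b)
    · rw [spA_inl, spA_inl, h.inv]
    · rw [spA_inr, spA_inr, Bool.not_not]
  · rintro (d | b)
    · rw [spA_inl]
      simpa using h.fpf d
    · rw [spA_inr]
      simp
  · have := sc_spR (perm_sc_step (spS σ x) u)
    exact ⟨zsc this.symm, zsc this⟩
  · rcases orb_sp_cases σ x u with ⟨d, rfl, k⟩ | ⟨-, k | k⟩
    · rw [orb_sp_out k, card_map]
      exact h.z3 d hu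
    · rw [k, c0]
    · rw [k]
      exact c1
  · have e1 := nv_toLeft σ x I
    have e2 := card_toLeft_add_card_toRight (u := I)
    have cl : ∀ d ∈ I.toLeft, α d ∈ I.toLeft := fun d hd => by
      rw [mem_toLeft, ← spA_inl]
      exact hI _ (mem_toLeft.1 hd)
    have e3 : ((I.image (orb (spS σ x))).image (spH σ x)).card ≤ nv (spS σ x) I := card_image_le
    by_cases hR : I.toRight.Nonempty
    · obtain ⟨b, hb⟩ := hR
      have m : ∀ c : Bool, Sum.inr c ∈ I := by
        have k1 := mem_toRight.1 hb
        have k2 := hI _ k1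
        rw [spA_inr] at k2
        intro c
        cases b <;> cases c <;> assumption
      have ne : orb (spS σ x) (Sum.inr false) ≠ orb (spS σ x) (Sum.inr true) := fun k =>
        not_sc_spS σ x (mem_orb.1 (k ▸ self_mem_orb _ _))
      have e4 : ((I.image (orb (spS σ x))).image (spH σ x)).card ≠ nv (spS σ x) I := by
        intro k
        refine ne (card_image_iff.1 k (mem_coe.2 (mem_image_of_mem _ (m false)))
          (mem_coe.2 (mem_image_of_mem _ (m true))) ?_)
        rw [spH_orb, spH_orb]
        rfl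
      have e5 : I.toRight.card ≤ 2 := card_le_univ _
      have e6 : 2 ≤ I.toRight.card :=
        one_lt_card.2 ⟨false, mem_toRight.2 (m _), true, mem_toRight.2 (m _), by simp⟩
      have e7 : 1 < nv (spS σ x) I :=
        one_lt_card.2 ⟨_, mem_image_of_mem _ (m false), _, mem_image_of_mem _ (m true), ne⟩
      have := h.sparse I.toLeft (by
        rw [← card_pos]
        omega) cl (by omega)
      omega
    · rw [not_nonempty_iff_eq_empty, ← card_eq_zero] at hR
      have e4 := hne.card_pos
      have := h.sparse I.toLeft (by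
        rw [← card_pos]
        omega) cl (by omega)
      omega

theorem col_of_split {x : D} (hx : Z x) (typ : ∀ d, Z (σ d) ↔ Z d)
    (h : Col (spS σ x) (spA α) fun u => Z (spR x u)) : Col σ α Z := by
  obtain ⟨c, ⟨sym, zs, ns⟩, nz⟩ := h
  have out : ∀ d, ¬ σ.SameCycle x d →
      vsum σ (fun e => c (Sum.inl e)) d = vsum (spS σ x) c (Sum.inl d) := by
    intro d hd
    unfold vsum
    rw [orb_sp_out hd, sum_map]
    rfl
  refine ⟨fun e => c (Sum.inl e), ⟨fun d => ?_, fun d hd => ?_, fun d hd => ?_⟩, fun d => nz _⟩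
  · rw [← spA_inl, sym]
  · by_cases k : σ.SameCycle x d
    · have e1 := sum_union (f := c) (orb_sp_disj σ x)
      have e2 : vsum (spS σ x) c (Sum.inr false) = 0 := zs _ hx
      have e3 : vsum (spS σ x) c (Sum.inr true) = 0 := zs _ hx
      have e4 : c (Sum.inr true) = c (Sum.inr false) := by
        rw [← sym, spA_inr]
        rfl
      unfold vsum at e2 e3
      rw [orb_sp_in, sum_disjSum, e2, e3, Fintype.sum_bool, e4, k4_add_self, add_zero,
        add_zero] at e1
      rw [← vsum_eq k]
      exact e1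
    · rw [out d k]
      exact zs _ hd
  · rw [out d fun k => hd (sc_ind (fun f => (typ f).2) k hx)]
    exact ns _ hd

open Classical in
/-- number of `Z`-darts at vertices of degree at least four -/
noncomputable def big (σ : Perm D) (Z : D → Prop) : ℕ :=
  (univ.filter fun d => Z d ∧ 4 ≤ (orb σ d).card).card

theorem big_split {x : D} (hx : Z x) (typ : ∀ d, Z (σ d) ↔ Z d) (h4 : 4 ≤ (orb σ x).card) :
    big (spS σ x) (fun u => Z (spR x u)) < big σ Z := by
  classical
  obtain ⟨h1, h2⟩ := big_ne (σ := σ) (x := x) (by omega)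
  have c0 := card_orb_sp0 h1 h2
  have no : ∀ u, 4 ≤ (orb (spS σ x) u).card →
      u ≠ Sum.inr false ∧ u ≠ Sum.inl x ∧ u ≠ Sum.inl (σ x) := by
    intro u hu
    have : u ∉ orb (spS σ x) (Sum.inr false) := fun k => by
      rw [← orb_eq (mem_orb.1 k)] at hu
      omega
    rw [orb_sp0 h1 h2] at this
    simpa using this
  have m : σ x ∈ univ.filter fun d => Z d ∧ 4 ≤ (orb σ d).card := by
    refine mem_filter.2 ⟨mem_univ _, (typ x).2 hx, ?_⟩
    rw [← orb_eq (perm_sc_step σ x)]
    exact h4
  unfold big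
  refine lt_of_le_of_lt ?_ (card_erase_lt_of_mem (by convert m))
  refine card_le_card_of_injOn (spR x) (fun u hu => ?_) (fun u hu v hv k => ?_)
  · simp only [coe_filter, mem_univ, true_and, Set.mem_ofPred_eq] at hu
    simp only [coe_erase, coe_filter, mem_univ, true_and, Set.mem_sdiff, Set.mem_ofPred_eq,
      Set.mem_singleton_iff]
    refine ⟨⟨hu.1, ?_⟩, ?_⟩
    · rcases orb_sp_cases σ x u with ⟨d, rfl, k⟩ | ⟨k, -⟩
      · have := hu.2
        rwa [orb_sp_out k, card_map] at this
      · rw [← orb_eq k]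
        exact h4
    · rcases u with d | b
      · exact fun k => (no _ hu.2).2.2 (congrArg Sum.inl k)
      · exact h1.symm
  · simp only [coe_filter, mem_univ, true_and, Set.mem_ofPred_eq] at hu hv
    obtain ⟨u0, u1, -⟩ := no u hu.2
    obtain ⟨v0, v1, -⟩ := no v hv.2
    rcases u with d | _ | _ <;> rcases v with e | _ | _
    · exact congrArg Sum.inl k
    · exact absurd rfl v0
    · exact absurd (congrArg Sum.inl k) u1
    · exact absurd rfl u0
    · exact absurd rfl u0
    · exact absurd rfl u0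
    · exact absurd (congrArg Sum.inl k.symm) v1
    · exact absurd rfl v0
    · rfl

theorem Sp.col (H : NoCtx) (h : Sp σ α Z) : Col σ α Z := by
  induction hn : big σ Z using Nat.strong_induction_on generalizing D with
  | _ n ih =>
    by_cases hx : ∃ x, Z x ∧ 4 ≤ (orb σ x).card
    · obtain ⟨x, hx, h4⟩ := hx
      exact col_of_split hx h.typ (ih _ (hn ▸ big_split hx h.typ h4) (h.split h4) rfl)
    · refine all_col H (h.cls fun d hd => ?_)
      have := h.z3 d hd
      by_contra hc
      exact hx ⟨d, hd, by omega⟩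

end Pool.Agent.Lib.G6.A
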