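import Pool.Agent.Lib.G6.Blue
import Pool.Agent.Lib.MP_bfaad3_co.PM1

set_option autoImplicit false

/-! Block BLD: building the map of a pattern. -/

namespace Pool.Agent.Lib.G6

open Equiv
open Pool.Agent.Lib.MP_bfaad3_co (frc sel cj dj tb sb BT frc_eq sel_eq cj_iff)

theorem bld_fld_congr {m m' p w : ℕ} (h : ∀ j, j < w → m'.testBit (p + j) = m.testBit (p + j)) :
    Nat.land (Nat.shiftRight m' p) (2 ^ w - 1) = Nat.land (Nat.shiftRight m p) (2 ^ w - 1) := by
  change (m' >>> p) &&& (2 ^ w - 1) = (m >>> p) &&& (2 ^ w - 1)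
  refine Nat.eq_of_testBit_eq fun j => ?_
  rw [Nat.testBit_and, Nat.testBit_and, Nat.testBit_two_pow_sub_one, Nat.testBit_shiftRight,
    Nat.testBit_shiftRight]
  by_cases hj : j < w
  · rw [h j hj]
  · simp [hj]

theorem bld_fld_zero {m p w : ℕ} (h : ∀ j, j < w → m.testBit (p + j) = false) :
    Nat.land (Nat.shiftRight m p) (2 ^ w - 1) = 0 := by
  rw [bld_fld_congr (m := 0) (fun j hj => by rw [h j hj, Nat.zero_testBit])]
  change (0 >>> p) &&& _ = 0
  rw [Nat.zero_shiftRight, Nat.zero_and]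

theorem bld_put_low {m d a : ℕ} (ha : Bits 64 127 a) {j : ℕ} (hj : j < 64) :
    (put m d a).testBit (d + j) = m.testBit (d + j) := by
  change (m ||| (a <<< d)).testBit (d + j) = _
  rw [Nat.testBit_or, Nat.testBit_shiftLeft, Nat.add_sub_cancel_left]
  have : a.testBit j = false := by
    cases h : a.testBit j
    · rfl
    · have := (ha j h).1
      omega
  simp [this]

theorem bld_nx_put {m d a : ℕ} (ha : Bits 64 127 a) : nx (put m d a) d = nx m d := by
  have := bld_fld_congr (m := m) (m' := put m d a) (p := d) (w := 17)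
    fun j hj => bld_put_low ha (by omega)
  exact this

theorem bld_pv_put {m d a : ℕ} (ha : Bits 64 127 a) : pv (put m d a) d = pv m d := by
  have := bld_fld_congr (m := m) (m' := put m d a) (p := d + 17) (w := 17)
    fun j hj => by rw [Nat.add_assoc]; exact bld_put_low ha (by omega)
  exact this

theorem bld_bits_shift {x w s : ℕ} : Bits s (s + w) (Nat.shiftLeft (Nat.land x (2 ^ w - 1)) s) := by
  intro i hi
  change ((x &&& (2 ^ w - 1)) <<< s).testBit i = true at hi
  rw [Nat.testBit_shiftLeft, Nat.testBit_and, Nat.testBit_two_pow_sub_one] at hi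
  simp only [ge_iff_le, Bool.and_eq_true, decide_eq_true_eq] at hi
  omega

theorem bld_bits_mono {lo hi lo' hi' a : ℕ} (h : Bits lo hi a) (h1 : lo' ≤ lo) (h2 : hi ≤ hi') :
    Bits lo' hi' a := fun i hi => ⟨h1.trans (h i hi).1, (h i hi).2.trans_le h2⟩

theorem bld_bits_V (c : ℕ) : Bits 64 127 (tstV c) :=
  bld_bits_mono (bld_bits_shift (w := 6) (s := 64)) le_rfl (by omega)

theorem bld_bits_F (c : ℕ) : Bits 64 127 (tstF c) :=
  bld_bits_mono (bld_bits_shift (w := 22) (s := 70)) (by omega) (by omega)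

theorem bld_bits_A (c : ℕ) (h : tstA c < 2 ^ 127) : Bits 64 127 (tstA c) := by
  intro i hi
  refine ⟨?_, ?_⟩
  · have := (bld_bits_shift (x := Nat.shiftRight c 9) (w := 22)
      (s := Nat.add (Nat.land (Nat.shiftRight c 3) 63) 64) i hi).1
    exact le_trans (Nat.le_add_left _ _) this
  · by_contra hc
    rw [Nat.testBit_lt_two_pow (h.trans_le (Nat.pow_le_pow_right (by omega) (by omega)))] at hi
    exact absurd hi (by simp)

theorem bld_val {nd nd' d : ℕ} (h : Val nd d) (h' : nd ≤ nd') : Val nd' d :=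
  ⟨h.1, h.2.1.trans_le h', h.2.2⟩

theorem bld_ext {D : Type} {nd nd' : ℕ} {h h' h'' : ℕ → D} (e1 : Ext nd h h') (e2 : Ext nd' h' h'')
    (hn : nd ≤ nd') : Ext nd h h'' := fun d hd => (e2 d (bld_val hd hn)).trans (e1 d hd)

theorem bld_succ (ini fuel c d m nd : ℕ) (K : ℕ → ℕ → ℕ → Bool) :
    bld ini (fuel + 1) c d m nd K =
    if c % 8 ≤ 3 then
      if c % 8 = 0 then K (c / 8) m nd else
        if (if c % 8 = 1 then al m d else if c % 8 = 2 then nx m d else pv m d) = 0 then
          cj (Nat.ble nd 130000) (bld ini fuel (c / 8) nd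
            (if c % 8 = 1 then extA ini m nd d 0 else if c % 8 = 2 then extF ini m nd d
              else extB ini m nd d) (nd + 128) K)
        else bld ini fuel (c / 8)
          (if c % 8 = 1 then al m d else if c % 8 = 2 then nx m d else pv m d) m nd K
    else if c % 8 ≤ 5 then
      if c % 8 = 4 then cj (Nat.blt (tstA c) (Nat.shiftLeft 1 127))
        (bld ini fuel (c / 2 ^ 31) d (put m d (tstA c)) nd K)
      else bld ini fuel (c / 8) d m nd fun c'' m' nd' => bld ini fuel c'' d m' nd' K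
    else if c % 8 = 6 then
      if tstV c = ZB ∧ Nat.lor (nx m d) (pv m d) = 0 then
        cj (Nat.ble nd 130000) (bld ini fuel (c / 2 ^ 9) d
          (cmpZ ini (put m d (tstV c)) nd d (getF m (al m d))) (nd + 256) K)
      else bld ini fuel (c / 2 ^ 9) d (put m d (tstV c)) nd K
    else bld ini fuel (c / 2 ^ 25) d (put m d (tstF c)) nd K := by
  have e0 : Nat.land c 7 = c % 8 := Nat.and_two_pow_sub_one_eq_mod c 3
  have e1 : ∀ k, Nat.shiftRight c k = c / 2 ^ k := fun k => Nat.shiftRight_eq_div_pow c k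
  unfold bld
  simp only [frc_eq, sel_eq, e0, e1, Nat.ble_eq, Nat.beq_eq, cj_iff]
  rfl

theorem bld_main (hI : St_inv) (hR : St_rp) (hP : St_put) (hT : St_tab) (hE : St_ext)
    (R : Rule) (D : Type) [Fintype D] (σ α : Perm D) (N : Set D) (hc : Ctx σ α N) (ini : ℕ)
    (hi : IniOK R ini) (fuel : ℕ) : ∀ (m nd : ℕ) (h : ℕ → D), Hom R σ α N m nd h →
      ∀ c d r K, Val nd d → Holds R σ α N c (h d) r → bld ini fuel c d m nd K = true →
      ∃ m' nd' h', nd ≤ nd' ∧ Ext nd h h' ∧ Hom R σ α N m' nd' h' ∧ K r m' nd' = true := by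
  induction fuel with
  | zero => intro m nd h _ c d r K _ _ hb; exact absurd hb Bool.false_ne_true
  | succ fuel ih =>
    intro m nd h hh c d r K hd hH hb
    have new : ∀ {m1 k c' d' r' : ℕ} {h1 : ℕ → D} {K' : ℕ → ℕ → ℕ → Bool}, Ext nd h h1 →
        Hom R σ α N m1 (nd + k) h1 → Val (nd + k) d' → Holds R σ α N c' (h1 d') r' →
        bld ini fuel c' d' m1 (nd + k) K' = true →
        ∃ m' nd' h', nd ≤ nd' ∧ Ext nd h h' ∧ Hom R σ α N m' nd' h' ∧ K' r' m' nd' = true := by
      intro m1 k c' d' r' h1 K' e1 hh1 hv hH1 hb1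
      obtain ⟨m', nd', h', a1, a2, a3, a4⟩ := ih m1 _ h1 hh1 c' d' r' K' hv hH1 hb1
      exact ⟨m', nd', h', (Nat.le_add_right _ _).trans a1,
        bld_ext e1 a2 (Nat.le_add_right _ _), a3, a4⟩
    have vn : Val (nd + 128) nd := ⟨le_trans (by omega) hh.nd2, by omega, hh.nd1⟩
    rw [bld_succ] at hb
    generalize hx : h d = x at hH
    cases hH with
    | fin _ _ h0 =>
      simp only [h0, Nat.zero_le, if_true] at hb
      exact ⟨m, nd, h, le_rfl, fun _ _ => rfl, hh, hb⟩
    | a _ _ _ h0 hH =>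
      subst hx
      simp only [h0, Nat.reduceLeDiff, one_ne_zero, if_true, if_false] at hb
      split_ifs at hb with hy
      · rw [cj_iff, Nat.ble_eq] at hb
        obtain ⟨h1, e1, e2, hh1⟩ := (hE R D σ α N hc m nd h hh ini hi (by omega) d hd).1 0 hy
          (fun i hi => by simp at hi) (fun i hi => by simp at hi)
        exact new e1 hh1 vn (e2 ▸ hH) hb.2
      · obtain ⟨a1, a2⟩ := (hh.ha d hd).resolve_left hy
        exact ih m nd h hh _ _ r K a1 (a2 ▸ hH) hb
    | s _ _ _ h0 hH =>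
      subst hx
      simp only [h0, Nat.reduceLeDiff, Nat.reduceEqDiff, if_true, if_false] at hb
      split_ifs at hb with hy
      · rw [cj_iff, Nat.ble_eq] at hb
        obtain ⟨h1, e1, e2, hh1⟩ :=
          (hE R D σ α N hc m nd h hh ini hi (by omega) d hd).2.2.2.1 hy
        exact new e1 hh1 vn (e2 ▸ hH) hb.2
      · obtain ⟨a1, a2⟩ := (hh.hn d hd).resolve_left hy
        exact ih m nd h hh _ _ r K a1 (a2 ▸ hH) hb
    | i _ _ _ h0 hH =>
      subst hx
      simp only [h0, Nat.reduceLeDiff, Nat.reduceEqDiff, if_true, if_false, le_refl] at hb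
      split_ifs at hb with hy
      · rw [cj_iff, Nat.ble_eq] at hb
        obtain ⟨h1, e1, e2, hh1⟩ :=
          (hE R D σ α N hc m nd h hh ini hi (by omega) d hd).2.2.2.2 hy
        exact new e1 hh1 vn (e2 ▸ hH) hb.2
      · obtain ⟨a1, a2⟩ := (hh.hp d hd).resolve_left hy
        exact ih m nd h hh _ _ r K a1 (a2 ▸ hH) hb
    | t _ _ _ h0 hF hH =>
      subst hx
      simp only [h0, Nat.reduceLeDiff, if_true, if_false] at hb
      rw [cj_iff, Nat.blt_eq] at hb
      exact ih _ nd h (((hP R D σ α N hc m nd h hh).2 d hd _ hF).1 (bld_bits_A c hb.1))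
        _ d r K hd hH hb.2
    | br _ _ r1 _ h0 hH1 hH2 =>
      subst hx
      simp only [h0, Nat.reduceLeDiff, Nat.reduceEqDiff, if_true, if_false, le_refl] at hb
      obtain ⟨m1, nd1, h1, a1, a2, a3, a4⟩ := ih m nd h hh _ d r1 _ hd hH1 hb
      obtain ⟨m2, nd2, h2, b1, b2, b3, b4⟩ :=
        ih m1 nd1 h1 a3 r1 d r K (bld_val hd a1) ((a2 d hd).symm ▸ hH2) a4
      exact ⟨m2, nd2, h2, a1.trans b1, bld_ext a2 b2 a1, b3, b4⟩
    | v _ _ _ h0 hF hH =>
      subst hx
      simp only [h0, Nat.reduceLeDiff, if_true, if_false] at hb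
      have hh1 := ((hP R D σ α N hc m nd h hh).2 d hd _ hF).1 (bld_bits_V c)
      split_ifs at hb with hy
      · rw [cj_iff, Nat.ble_eq] at hb
        have z : nx m d = 0 ∧ pv m d = 0 := Nat.or_eq_zero_iff.1 hy.2
        have r0 : Rp nd h d (h d) := Or.inr ⟨hd, rfl⟩
        have r1 := (hR R D σ α N hc m nd h hh d _ r0).2.2.1
        obtain ⟨g1, g2⟩ := (hR R D σ α N hc m nd h hh _ _ r1).2.2.2.2.2.2.2.2.2.2.2
        have g3 : Facts R σ α N (getF m (al m d)) (σ (h d)) := by
          intro i hi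
          have b := g1 i hi
          have g := g2 i hi
          unfold Fact at g ⊢
          rw [if_neg (by omega), if_pos b.2] at g ⊢
          rwa [(hI D σ α N hc.cls (h d)).2.2.2.2.2.2.2.2.1]
        obtain ⟨h1, e1, hh2⟩ := (hE R D σ α N hc _ nd h hh1 ini hi (by omega) d hd).2.1 _
          ((bld_nx_put (bld_bits_V c)).trans z.1) ((bld_pv_put (bld_bits_V c)).trans z.2)
          ((hT R D σ α N hc (h d) 0).2.2.2.1.1 (hy.1 ▸ hF)) g1 g3
        exact new e1 hh2 (bld_val hd (Nat.le_add_right _ _)) ((e1 d hd).symm ▸ hH) hb.2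
      · exact ih _ nd h hh1 _ d r K hd hH hb
    | f _ _ _ h0 hF hH =>
      subst hx
      simp only [h0, Nat.reduceLeDiff, Nat.reduceEqDiff, if_false] at hb
      exact ih _ nd h (((hP R D σ α N hc m nd h hh).2 d hd _ hF).1 (bld_bits_F c)) _ d r K hd hH hb

theorem bld_init (R : Rule) (D : Type) [Fintype D] (σ α : Perm D) (N : Set D) (hc : Ctx σ α N)
    (ini : ℕ) (hi : IniOK R ini) (x : D) :
    Hom R σ α N (Nat.shiftLeft ini 128) 256 (fun _ => x) := by
  have tb1 : ∀ i, (Nat.shiftLeft ini 128).testBit i = true →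
      128 ≤ i ∧ ini.testBit (i - 128) = true := by
    intro i h
    change (ini <<< 128).testBit i = true at h
    rw [Nat.testBit_shiftLeft] at h
    simpa using h
  have tb0 : ∀ i, i < 198 ∨ 220 ≤ i → (Nat.shiftLeft ini 128).testBit i = false := by
    intro i h
    cases e : (Nat.shiftLeft ini 128).testBit i
    · rfl
    · have a := tb1 i e
      have b := hi.1 _ a.2
      omega
  have vd : ∀ d, Val 256 d → d = 128 := fun d h => by
    obtain ⟨a, b, c⟩ := h
    omega
  refine ⟨by decide, le_rfl, by decide, fun i h => tb0 i (by omega), fun i h _ => tb0 i (by omega),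
    fun d h => Or.inl ?_, fun d h => Or.inl ?_, fun d h => Or.inl ?_, fun d h => Or.inl ?_,
    fun d i h _ _ e => ?_⟩
  · rw [vd d h]
    exact bld_fld_zero (w := 17) fun j hj => tb0 _ (by omega)
  · rw [vd d h]
    exact bld_fld_zero (w := 17) (p := 128 + 17) fun j hj => tb0 _ (by omega)
  · rw [vd d h]
    exact bld_fld_zero (w := 17) (p := 128 + 34) fun j hj => tb0 _ (by omega)
  · rw [vd d h]
    have : Nat.land (Nat.shiftRight (Nat.shiftLeft ini 128) (Nat.add 128 51)) 1023 = 0 :=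
      bld_fld_zero (w := 10) (p := 128 + 51) fun j hj => tb0 _ (by omega)
    unfold eqd
    rw [this]
    rfl
  · rw [vd d h] at e
    have a := (tb1 _ e).2
    rw [Nat.add_sub_cancel_left] at a
    exact hi.2 D σ α N hc x i a

theorem stBLD (hI : St_inv) (hR : St_rp) (hP : St_put) (hT : St_tab) (hE : St_ext) : St_bld :=
  ⟨fun R D _ σ α N hc m nd h hh ini hi fuel c d r K =>
    bld_main hI hR hP hT hE R D σ α N hc ini hi fuel m nd h hh c d r K,
   fun R D _ σ α N hc ini hi x => bld_init R D σ α N hc ini hi x⟩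

end Pool.Agent.Lib.G6
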