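import Pool.Agent.Lib.G6.Blue
import Pool.Agent.Lib.MP_bfaad3_co.PM1

set_option autoImplicit false

/-! Soundness of the charge bounds. -/

namespace Pool.Agent.Lib.G6

open Equiv Finset
open Pool.Agent.Lib.MP_bfaad3_co (frc sel cj dj tb sb BT frc_eq sel_eq cj_iff dj_iff tb_eq sb_iff)

theorem bnd_sumI (f g : ℕ → ℕ) (k d acc : ℕ) :
    sumI f g k d acc = acc + ∑ i ∈ range k, g (itr f i d) := by
  induction k generalizing d acc with
  | zero => rfl
  | succ k ih =>
    have e : sumI f g (k + 1) d acc = frc (Nat.add acc (g d)) fun acc =>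
      frc (f d) fun d' => sumI f g k d' acc := rfl
    have e2 : ∀ i, itr f (i + 1) d = itr f i (f d) := fun i => frc_eq (f d) (itr f i)
    rw [e, frc_eq, frc_eq, ih, sum_range_succ']
    simp only [e2]
    change acc + g d + _ = acc + (_ + g d)
    omega

theorem bnd_mono {R : Rule} (hR : RuleOK R) {a b : ℕ} (hab : a ≤ b) (hb : b < 16) :
    byt R.am0 a ≤ byt R.am0 b := by
  induction b, hab using Nat.le_induction with
  | base => exact le_rfl
  | succ k _ ih => exact (ih (by omega)).trans (hR.1 k (by omega))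

theorem bnd_mn (a b : ℕ) : mn a b = min a b := by
  rw [mn, sel_eq]
  simp only [Nat.ble_eq]
  split_ifs <;> omega

theorem bnd_bits {lo hi a : ℕ} (h : Bits lo hi a) (h1 : 64 ≤ lo) (h2 : hi ≤ 127) :
    Bits 64 127 a := fun i hi => ⟨h1.trans (h i hi).1, (h i hi).2.trans_le h2⟩

theorem bnd_lt16 {a j : ℕ} (ha : a < 2 ^ 16) (hj : a.testBit j = true) : j < 16 := by
  by_contra h
  rw [Nat.testBit_lt_two_pow (ha.trans_le (Nat.pow_le_pow_right two_pos (by omega)))] at hj
  exact absurd hj (by simp)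

theorem bnd_bits_shift {a : ℕ} (ha : a < 2 ^ 16) : Bits 64 127 (Nat.shiftLeft a 70) := by
  intro i hi
  change (a <<< 70).testBit i = true at hi
  rw [Nat.testBit_shiftLeft, Bool.and_eq_true, decide_eq_true_eq] at hi
  have := bnd_lt16 ha hi.2
  omega

theorem bnd_bits_FM : Bits 70 92 FM := by
  intro i hi
  rw [show FM = (2 ^ 22 - 1) <<< 70 by decide, Nat.testBit_shiftLeft, Bool.and_eq_true,
    decide_eq_true_eq, Nat.testBit_two_pow_sub_one, decide_eq_true_eq] at hi
  omega

theorem bnd_tb (i : ℕ) : TB.testBit i = true ↔ 64 ≤ i ∧ i < 70 ∧ i ≠ 65 := by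
  rw [show TB = 61 <<< 64 by decide, Nat.testBit_shiftLeft, Bool.and_eq_true, decide_eq_true_eq]
  by_cases h : i - 64 < 6
  · have : ∀ j < 6, (Nat.testBit 61 j = true ↔ j ≠ 1) := by decide
    rw [this _ h]
    omega
  · rw [Nat.testBit_lt_two_pow (lt_of_lt_of_le (by norm_num : 61 < 2 ^ 6)
      (Nat.pow_le_pow_right two_pos (not_lt.1 h)))]
    simp only [Bool.false_eq_true, and_false, false_iff]
    omega

theorem bnd_len (n : ℕ) : (lenX n).testBit 84 = true := by
  by_cases h : n ≤ 11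
  · interval_cases n <;> decide
  · rw [lenX, sel_eq, if_neg (fun h' => h (Nat.ble_eq.mp h'))]
    decide

theorem bnd_val {nd c : ℕ} (h : dart c < nd) : Val nd (dart c) := by
  refine ⟨?_, h, ?_⟩
  · change 128 ≤ (Nat.land c 1023 + 1) <<< 7
    rw [Nat.shiftLeft_eq]; omega
  · change 128 ∣ (Nat.land c 1023 + 1) <<< 7
    rw [Nat.shiftLeft_eq]; omega

section

variable (R : Rule) {D : Type} [Fintype D] (σ α : Perm D) (N : Set D)

open Classical in
/-- senders with key at least `key` -/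
noncomputable def bndS (π : Perm D) (b : Bool) (x : D) (n key : ℕ) : Finset (ℕ × D) :=
  (range 4 ×ˢ univ).filter fun p => ∃ i < n, (rte R σ α N p.1 p.2).2 = b ∧
    (π ^ i) x = wr σ α (rte R σ α N p.1 p.2).1 p.2 ∧
    key ≤ i + 16 * p.1 + 64 * (run σ α N (R.s p.1) p.2 / 16)

theorem bnd_sub (π : Perm D) (b : Bool) (x : D) (n : ℕ) {key key' : ℕ} (h : key ≤ key') :
    bndS R σ α N π b x n key' ⊆ bndS R σ α N π b x n key := by
  intro p hp
  simp only [bndS, mem_filter] at hp ⊢
  obtain ⟨h0, i, h1, h2, h3, h4⟩ := hp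
  exact ⟨h0, i, h1, h2, h3, h.trans h4⟩

theorem bnd_le_inn (π : Perm D) (b : Bool) (x : D) (n key : ℕ) :
    ∑ p ∈ bndS R σ α N π b x n key, amt R σ α N p.1 p.2 ≤ inn2 R σ α N π b x := by
  classical
  rw [inn2, ← sum_product', bndS, sum_filter]
  refine sum_le_sum fun p _ => ?_
  split_ifs with h1 h2
  · exact le_rfl
  · obtain ⟨i, -, h3, h4, -⟩ := h1
    exact absurd ⟨h3, (i : ℤ), by rw [zpow_natCast, h4]⟩ h2
  · exact Nat.zero_le _
  · exact le_rfl

variable {R σ α N}

theorem bnd_inc (hrp : St_rp) (hlba : St_lba) (hc : Ctx σ α N) {m nd : ℕ} {h : ℕ → D}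
    (hh : Hom R σ α N m nd h) (hR : RuleOK R) {π : Perm D} {b : Bool} {f : ℕ → ℕ} {x n need : ℕ}
    (hf : ∀ k, Rp nd h (itr f k x) ((π ^ k) (h x))) (hn : n ≤ Function.minimalPeriod π (h x))
    (fuel c key acc : ℕ) (H : inc R m nd b f x n need fuel c key acc = true) :
    need ≤ acc + ∑ p ∈ bndS R σ α N π b (h x) n key, amt R σ α N p.1 p.2 := by
  classical
  induction fuel generalizing c key acc with
  | zero => exact absurd H (by simp [inc])
  | succ fuel ih =>
    have e : inc R m nd b f x n need (fuel + 1) c key acc = dj (Nat.ble need acc)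
      (frc (dart c) fun d => frc (Nat.land (Nat.shiftRight c 10) 32767) fun ky =>
      frc (Nat.land ky 15) fun i => frc (Nat.shiftRight ky 6) fun r =>
      cj (Nat.blt d nd) (cj (Nat.ble key ky) (cj (Nat.blt i n)
        (cj (sel (R.rt.get r).2 b (sel b false true))
          (frc (walk m (R.rt.get r).1 d) fun y => cj (Nat.ble 128 y) (cj (Nat.beq y (itr f i x))
            (frc (Nat.add acc (lba R m (Nat.land (Nat.shiftRight ky 4) 3) d r
                (Nat.land (Nat.shiftRight c 25) 31)))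
              (inc R m nd b f x n need fuel (Nat.shiftRight c 30) (Nat.succ ky))))))))) := rfl
    rw [e, dj_iff, Nat.ble_eq] at H
    rcases H with H | H
    · omega
    simp only [frc_eq, cj_iff, Nat.ble_eq, Nat.blt_eq, Nat.beq_eq] at H
    obtain ⟨h1, h2, h3, h4, h5, h6, h7⟩ := H
    have hd := bnd_val h1
    have j32 : Nat.land (Nat.shiftRight c 25) 31 < 32 :=
      Nat.lt_succ_of_le (Nat.and_le_right (n := c >>> 25) (m := 31))
    generalize Nat.land (Nat.shiftRight c 25) 31 = j at h7 j32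
    generalize Nat.land (Nat.shiftRight c 10) 32767 = ky at h2 h3 h4 h5 h6 h7
    have i1 : Nat.land ky 15 = ky % 16 := Nat.and_two_pow_sub_one_eq_mod ky 4
    have i2 : Nat.shiftRight ky 6 = ky / 64 := Nat.shiftRight_eq_div_pow ky 6
    have i3 : Nat.land (Nat.shiftRight ky 4) 3 = ky / 16 % 4 := by
      have := Nat.and_two_pow_sub_one_eq_mod (ky >>> 4) 2
      rw [Nat.shiftRight_eq_div_pow ky 4] at this
      rw [← this, ← Nat.shiftRight_eq_div_pow ky 4]; rfl
    rw [i1] at h3 h6
    rw [i2] at h4 h5 h6 h7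
    rw [i3] at h7
    have k := ih _ _ _ h7
    obtain ⟨l1, l2⟩ := hlba R D σ α N hc m nd h hh hR _ hd (ky / 16 % 4) (ky / 64) j
      (by omega) j32
    change need ≤ acc + lba R m (ky / 16 % 4) (dart c) (ky / 64) j + _ at k
    refine k.trans ?_
    rw [Nat.add_assoc, Nat.add_le_add_iff_left]
    by_cases l0 : lba R m (ky / 16 % 4) (dart c) (ky / 64) j = 0
    · rw [l0, Nat.zero_add]
      exact sum_le_sum_of_subset (bnd_sub R σ α N π b _ n (by omega))
    have r1 := l2 l0
    have w1 : h (walk m (R.rt.get (ky / 64)).1 (dart c)) =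
        wr σ α (R.rt.get (ky / 64)).1 (h (dart c)) :=
      (((hrp R D σ α N hc m nd h hh _ _ (Or.inr ⟨hd, rfl⟩)).2.2.2.2.2.1 _).resolve_left
        (by omega)).2
    have w2 : h (itr f (ky % 16) x) = (π ^ (ky % 16)) (h x) :=
      ((hf _).resolve_left (by omega)).2
    rw [h6, w2] at w1
    have b1 : (R.rt.get (ky / 64)).2 = b := by
      revert h4
      cases (R.rt.get (ky / 64)).2 <;> cases b <;> simp [sel]
    have n1 : (ky / 16 % 4, h (dart c)) ∉ bndS R σ α N π b (h x) n (Nat.succ ky) := by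
      intro hp
      simp only [bndS, mem_filter, rte, r1] at hp
      obtain ⟨-, i, a1, -, a2, a3⟩ := hp
      have := Function.iterate_injOn_Iio_minimalPeriod (f := π) (x := h x)
        (show i ∈ Set.Iio _ from a1.trans_le hn) (show ky % 16 ∈ Set.Iio _ from h3.trans_le hn)
        (by simp only [Perm.iterate_eq_pow]; rw [a2, w1])
      omega
    refine le_trans (Nat.add_le_add_right l1 _) ?_
    refine le_trans (le_of_eq (sum_insert (f := fun p => amt R σ α N p.1 p.2) n1).symm)
      (sum_le_sum_of_subset (insert_subset ?_ (bnd_sub R σ α N π b _ n (by omega))))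
    simp only [bndS, mem_filter, rte, r1, mem_product, mem_range, mem_univ, and_true]
    exact ⟨by omega, ky % 16, h3, b1, w1, by omega⟩

theorem bnd_fc (hinv : St_inv) (hc : Ctx σ α N) (x : D) (i : ℕ) :
    fc σ α N (((σ * α) ^ i) x) = fc σ α N x := by
  induction i with
  | zero => rfl
  | succ i ih =>
    rw [pow_succ', Perm.mul_apply, Perm.mul_apply,
      (hinv D σ α N hc.cls _).2.2.2.2.2.2.2.1, ih]

theorem bnd_amt_hi (hev : St_ev) (hc : Ctx σ α N) {m nd : ℕ} {h : ℕ → D}
    (hh : Hom R σ α N m nd h) (hR : RuleOK R) {d : ℕ} {x : D} (r : Rp nd h d x) {k : ℕ}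
    (hk : 2 ≤ k) : amt R σ α N k x ≤ byt R.am0 (frc (evMax m (R.s k) d 0) (mn 15)) := by
  have a := ((hev R D σ α N hc m nd h hh d x r).1 (R.s k) 0).2
  have b : byt R.am0 (lv R σ α N k x) ≤ byt R.am0 (min 15 (evMax m (R.s k) d 0)) := by
    refine bnd_mono hR ?_ (by omega)
    rw [lv]; omega
  rw [amt, if_neg (fun h => by omega), frc_eq, bnd_mn]
  split_ifs with h1
  · obtain rfl : k = 2 := by omega
    rw [lng, if_pos rfl]
    exact (min_le_right _ _).trans b
  · exact b

omit [Fintype D] in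
theorem bnd_long (hR : RuleOK R) {x : D} (h1 : R.c1.testBit (fc σ α N x) = false)
    (h2 : fc σ α N x = 14) : outF R σ α N x ≤ 6 := by
  have e : ∀ k ≤ 2, amt R σ α N k x = lng R σ α N k x := fun k hk => by
    rw [amt, if_neg (fun h => by simp [h1] at h), if_pos ⟨h2, hk⟩]
  have h0 := hR.2.1
  rw [outF, e 0 (by omega), e 1 (by omega), e 2 le_rfl]
  simp only [lng, if_true, show ¬ (0 = 2) by omega, show ¬ (1 = 2) by omega, if_false,
    Nat.sub_zero, Nat.sub_self]
  by_cases h3 : lv R σ α N 2 x = 0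
  · rw [h3, h0]
    split_ifs <;> omega
  · rw [if_pos h3, if_pos h3]
    omega

theorem bnd_out (hev : St_ev) (hc : Ctx σ α N) {m nd : ℕ} {h : ℕ → D}
    (hh : Hom R σ α N m nd h) (hR : RuleOK R) {d : ℕ} {x : D} (r : Rp nd h d x)
    (h1 : R.c1.testBit (fc σ α N x) = false) (h2 : fc σ α N x ≠ 14) :
    outF R σ α N x ≤ Nat.add (out01 R m d) (out2 R m d) := by
  have a := (hev R D σ α N hc m nd h hh d x r).2.2
  have b : ∀ k ≤ 1, amt R σ α N k x ≤ byt R.am0 (ubl R m k d) := fun k hk => by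
    rw [amt, if_neg (fun h => by simp [h1] at h), if_neg (fun h => h2 h.1)]
    exact bnd_mono hR (a k hk).1 (a k hk).2
  exact Nat.add_le_add (Nat.add_le_add (b 0 (by omega)) (b 1 le_rfl))
    (bnd_amt_hi hev hc hh hR r le_rfl)

end

theorem stBND (hinv : St_inv) (hrp : St_rp) (htab : St_tab) (hev : St_ev) (hsup : St_sup)
    (hlba : St_lba) : St_bnd := by
  intro R D _ σ α N hc m nd h hh hR d hd
  obtain ⟨-, -, -, -, -, -, r1, r2, -, r3, -⟩ := hrp R D σ α N hc m nd h hh d _ (Or.inr ⟨hd, rfl⟩)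
  have tab := htab R D σ α N hc (h d)
  have c16 := hR.2.2.2.2.1
  have nc : sb (Nat.shiftLeft R.c1 70) (Nat.shiftRight m d) = true → fc σ α N (h d) ≠ 14 → ∀ n,
      ∑ i ∈ range n, outF R σ α N (((σ * α) ^ i) (h d)) ≤
        ∑ i ∈ range n, Nat.add (out01 R m (itr (ph m) i d)) (out2 R m (itr (ph m) i d)) := by
    intro a a' n
    have := (tab 0).2.2.2.2.2.2.2.2.1 _ c16 (r3 _ (bnd_bits_shift c16) a)
    exact sum_le_sum fun i _ => bnd_out hev hc hh hR (r2 i) (by rwa [bnd_fc hinv hc])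
      (by rwa [bnd_fc hinv hc])
  refine ⟨fun n c H => ?_, fun n j c _ H => ?_, fun j _ H => ?_⟩
  · rw [bndV, cj_iff, frc_eq, bnd_sumI] at H
    have e := (tab n).1.2 (r3 _ (bnd_bits (tab n).1.1 le_rfl (by omega)) H.1)
    have a := (bnd_inc hrp hlba hc hh hR r1 e.ge _ _ _ _ H.2).trans
      (Nat.add_le_add_left (bnd_le_inn R σ α N _ _ _ _ _) _)
    have b : ∑ i ∈ range n, amt R σ α N 3 ((σ ^ i) (h d)) ≤ ∑ i ∈ range n,
        byt R.am0 (frc (evMax m R.s3 (itr (nx m) i d) 0) (mn 15)) :=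
      sum_le_sum fun i _ => bnd_amt_hi hev hc hh hR (r1 i) (k := 3) (by omega)
    rw [NegV, e, not_lt]
    change _ ≤ n * 24 + _ at a
    omega
  · rw [bndF, cj_iff, sel_eq] at H
    have e := (tab n).2.1.2 (r3 _ (bnd_bits (tab n).2.1.1 (by omega) (by omega)) H.1)
    have e14 : fc σ α N (h d) ≠ 14 := fun e1 => by
      have := r3 _ (bnd_bits (tab n).2.1.1 (by omega) (by omega)) H.1 84 (bnd_len n)
      rw [Fact, if_neg (by omega), if_pos (by omega), e1] at this
      exact this rfl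
    rw [NegF, e, not_lt]
    obtain ⟨-, H⟩ := H
    split_ifs at H with s
    · rw [frc_eq, bnd_sumI] at H
      have a := (bnd_inc hrp hlba hc hh hR r2 e.ge _ _ _ _ H).trans
        (Nat.add_le_add_left (bnd_le_inn R σ α N _ _ _ _ _) _)
      have b := nc s e14 n
      change _ ≤ n * 12 + _ at a
      omega
    · rw [cj_iff, cj_iff, frc_eq, bnd_sumI, tb_eq] at H
      obtain ⟨H1, H2, H⟩ := H
      have a := (bnd_inc hrp hlba hc hh hR r2 e.ge _ _ _ _ H).trans
        (Nat.add_le_add_left (bnd_le_inn R σ α N _ _ _ _ _) _)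
      obtain ⟨t1, t2⟩ := (tab j).2.2.1 (by have := bnd_lt16 c16 H1; omega)
      have f := t2 (r3 _ (bnd_bits t1 (by omega) (by omega)) H2)
      have b := hsup R D σ α N hc (h d) (by rwa [f])
      have b2 : ∑ i ∈ range n, amt R σ α N 2 (((σ * α) ^ i) (h d)) ≤
          ∑ i ∈ range n, out2 R m (itr (ph m) i d) :=
        sum_le_sum fun i _ => bnd_amt_hi hev hc hh hR (r2 i) (k := 2) le_rfl
      have b3 : ∑ i ∈ range n, sure2 m (itr (ph m) i d) ≤ cnt2 σ α N (h d) := by
        classical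
        rw [cnt2, e, card_filter]
        refine sum_le_sum fun i _ => ?_
        rw [sure2, sel_eq]
        split_ifs with s1 s2
        · exact le_rfl
        · have t3 : Bits 64 127 TB := fun j hj => by
            have := (bnd_tb j).1 hj
            omega
          have t4 := (hrp R D σ α N hc m nd h hh _ _ (r2 i)).2.2.2.2.2.2.2.2.2.1 _ t3 s1
          have t5 := (hinv D σ α N hc.cls (((σ * α) ^ i) (h d))).2.1
          have t6 := t4 (vt σ N (((σ * α) ^ i) (h d)) + 64) ((bnd_tb _).2 (by omega))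
          rw [Fact, if_pos (by omega)] at t6
          exact absurd rfl t6
        · exact Nat.zero_le _
        · exact le_rfl
      rw [e, capx, f] at b
      rw [bnd_sumI] at a
      simp only [outF]
      rw [sum_add_distrib]
      change 72 + (byt R.cap j + 12 * (byt R.kh j - _)) + _ ≤ n * 12 + _ at a
      omega
  · rw [bndW, cj_iff, cj_iff, Nat.ble_eq] at H
    obtain ⟨H1, H2, H⟩ := H
    obtain ⟨t1, t2⟩ := (tab 14).2.2.1 (by omega)
    have f := t2 (r3 _ (bnd_bits t1 (by omega) (by omega)) H2)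
    have g := (tab 0).2.2.2.2.2.2.2.2.1 _ c16 (r3 _ (bnd_bits_shift c16) H1)
    rw [NegW, f, not_lt]
    refine le_trans (sum_le_sum fun i _ => bnd_long hR (by rwa [bnd_fc hinv hc])
      (by rwa [bnd_fc hinv hc])) ?_
    rw [sum_const, card_range, smul_eq_mul]
    exact H

end Pool.Agent.Lib.G6
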