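import Pool.Agent.Lib.G6.LV
import Pool.Agent.Lib.MP_bfaad3_co.PM1

set_option autoImplicit false

/-! Soundness of the tree checker. -/

namespace Pool.Agent.Lib.G6

open Equiv
open Pool.Agent.Lib.MP_bfaad3_co (frc sel cj dj tb sb BT frc_eq sel_eq cj_iff dj_iff tb_eq sb_iff)

theorem chk_val {nd c : ℕ} (h : dart c < nd) : Val nd (dart c) := by
  have e : dart c = ((c &&& 1023) + 1) * 128 := by
    change ((c &&& 1023) + 1) <<< 7 = _
    rw [Nat.shiftLeft_eq]
  refine ⟨?_, h, ?_⟩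
  · rw [e]
    omega
  · rw [e]
    exact Dvd.intro_left _ rfl

theorem chk_fld (x s k : ℕ) : Bits s (s + k) (Nat.shiftLeft (Nat.land x (2 ^ k - 1)) s) := by
  intro i h
  change ((x &&& (2 ^ k - 1)) <<< s).testBit i = true at h
  simp only [Nat.testBit_shiftLeft, Nat.testBit_and, Nat.testBit_two_pow_sub_one, Bool.and_eq_true,
    decide_eq_true_eq] at h
  omega

theorem chk_msk (s k : ℕ) : Bits s (s + k) ((2 ^ k - 1) <<< s) := by
  intro i h
  simp only [Nat.testBit_shiftLeft, Nat.testBit_two_pow_sub_one, Bool.and_eq_true,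
    decide_eq_true_eq] at h
  omega

theorem chk_VM : Bits 64 70 VM := chk_msk 64 6

theorem chk_FM : Bits 70 92 FM := chk_msk 70 22

theorem chk_NB : Bits 64 70 NB := fun i h => by
  have := chk_msk 64 1 i h
  omega

theorem chk_xor {lo hi a b : ℕ} (ha : Bits lo hi a) (hb : Bits lo hi b) :
    Bits lo hi (Nat.xor a b) := by
  intro i h
  change (a ^^^ b).testBit i = true at h
  rw [Nat.testBit_xor] at h
  cases e : a.testBit i
  · exact hb i (by simpa [e] using h)
  · exact ha i e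

theorem chk_lor {lo hi a b : ℕ} (ha : Bits lo hi a) (hb : Bits lo hi b) :
    Bits lo hi (Nat.lor a b) := by
  intro i h
  change (a ||| b).testBit i = true at h
  rw [Nat.testBit_or, Bool.or_eq_true] at h
  exact h.elim (ha i) (hb i)

theorem chk_wide {lo hi a : ℕ} (ha : Bits lo hi a) (h1 : 64 ≤ lo) (h2 : hi ≤ 127) :
    Bits 64 127 a := fun i h => ⟨h1.trans (ha i h).1, (ha i h).2.trans_le h2⟩

theorem chk_land_le (x k : ℕ) : Nat.land x k ≤ k := Nat.and_le_right

theorem chk_put (m d p a : ℕ) : put m (Nat.add d p) a = put m d (a <<< p) := by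
  change m ||| a <<< (d + p) = m ||| (a <<< p) <<< d
  rw [← Nat.shiftLeft_add, Nat.add_comm]

theorem chk_two {c : ℕ} {K1 K2 : ℕ → Bool} (h : two c K1 K2 = true) :
    ∃ l r, K1 l = true ∧ K2 r = true := by
  simp only [two, frc_eq, cj_iff] at h
  exact ⟨_, _, h.1, h.2⟩

theorem chk_pow {D : Type} (π : Perm D) (x : D) : (π ^ Function.minimalPeriod π x) x = x := by
  rw [Perm.coe_pow]
  exact Function.iterate_minimalPeriod

section
variable {R : Rule} {D : Type} [Fintype D] {σ α : Perm D} {N : Set D}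

theorem chk_flor {a b : ℕ} {x : D} (ha : Facts R σ α N a x) (hb : Facts R σ α N b x) :
    Facts R σ α N (Nat.lor a b) x := by
  intro i h
  change (a ||| b).testBit i = true at h
  rw [Nat.testBit_or, Bool.or_eq_true] at h
  exact h.elim (ha i) (hb i)

theorem chk_ffc {a : ℕ} {x y : D} (hb : Bits 70 92 a) (e : fc σ α N x = fc σ α N y)
    (ha : Facts R σ α N a x) : Facts R σ α N a y := by
  intro i h
  have h1 := ha i h
  obtain ⟨h2, h3⟩ := hb i h
  unfold Fact at h1 ⊢
  rw [if_neg (by omega), if_pos h3] at h1 ⊢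
  rwa [← e]

/-- the subtrees are refuted -/
def ChkIH (R : Rule) (σ α : Perm D) (N : Set D) (ih : ℕ → ℕ → ℕ → Bool) : Prop :=
  ∀ m nd c h, ih m nd c = true → Hom R σ α N m nd h → False

variable {ih : ℕ → ℕ → ℕ → Bool} {m nd : ℕ} {h : ℕ → D}

theorem chk_go (IH : ChkIH R σ α N ih) {c : ℕ} (hs : go ih m nd c = true)
    (hh : Hom R σ α N m nd h) : False := by
  simp only [go, frc_eq] at hs
  exact IH _ _ _ _ hs hh

theorem chk_slt (IH : ChkIH R σ α N ih) {c : ℕ}
    (hs : slt ih m nd c = true) (hh : Hom R σ α N m nd h) : False := by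
  simp only [slt, frc_eq] at hs
  exact IH _ _ _ _ hs hh

theorem chk_ptl (hput : St_put) (hc : Ctx σ α N) (hh : Hom R σ α N m nd h) {d s a : ℕ}
    (hd : Val nd d) (hs : s ≤ 3) (ha : Bits 0 (fw s) a)
    (hb : a.testBit (fv R σ α N s (h d)) = false) :
    Hom R σ α N (put m (Nat.add d (fo s)) a) nd h := by
  rw [chk_put]
  obtain ⟨h1, h2⟩ := lv_put hs ha hb
  exact ((hput R D σ α N hc m nd h hh).2 d hd _ h1).1 h2

theorem chk_near (hrp : St_rp) (htab : St_tab) (hz : NZN) (hc : Ctx σ α N)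
    (hh : Hom R σ α N m nd h) {d : ℕ} (hd : Val nd d) (hs : nearN m d = true) : α (h d) ∉ N := by
  have rp := hrp R D σ α N hc m nd h hh
  have r0 : Rp nd h d (h d) := Or.inr ⟨hd, rfl⟩
  have key : ∀ e x, Rp nd h e x → tb m (Nat.add e 64) = true → x ∈ N := by
    intro e x he ht
    rw [tb_eq] at ht
    obtain ⟨-, -, -, -, -, h6, -⟩ := htab R D σ α N hc x 0
    obtain ⟨-, -, -, -, -, -, -, -, h9, -⟩ := rp e x he
    exact h6.1 (h9 64 le_rfl (by norm_num) ht)
  simp only [nearN, dj_iff] at hs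
  rcases hs with hs | hs | hs
  · exact hc.nn _ (key _ _ r0 hs)
  · intro hn
    have h1 := key _ _ (rp _ _ (rp _ _ r0).1).2.2.1 hs
    have h2 := hz D σ α N hc _ hn
    rw [hc.cls.inv] at h2
    exact h2 h1
  · have h1 := key _ _ (rp _ _ (rp _ _ r0).2.1).2.2.1 hs
    have h2 := hz D σ α N hc _ h1
    rw [hc.cls.inv] at h2
    simpa using h2

theorem chk_stepA (hinv : St_inv) (hrp : St_rp) (hput : St_put) (htab : St_tab) (hext : St_ext)
    (hlnk : St_lnk) (hz : NZN) {ini : ℕ} (hi : IniOK R ini) (hc : Ctx σ α N)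
    (IH : ChkIH R σ α N ih) (hh : Hom R σ α N m nd h) {op d c : ℕ} (hd : Val nd d)
    (hs : stepA ini ih m nd op d c = true) : False := by
  have rp := hrp R D σ α N hc m nd h hh
  have r0 : Rp nd h d (h d) := Or.inr ⟨hd, rfl⟩
  have lk := hlnk R D σ α N hc m nd h hh d hd
  have iv := hinv D σ α N hc.cls
  have tab := htab R D σ α N hc
  simp only [stepA, frc_eq, sel_eq, Nat.ble_eq, Nat.beq_eq, cj_iff] at hs
  split_ifs at hs
  all_goals try simp only [cj_iff, Nat.ble_eq, Nat.beq_eq] at hs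
  · obtain ⟨h1, h2, h3⟩ := hs
    obtain ⟨l, r, hl, hr⟩ := chk_two h3
    have ex := hext R D σ α N hc m nd h hh ini hi (by omega) d hd
    by_cases hn : α (h d) ∈ N
    · obtain ⟨h', -, -, h4⟩ := ex.1 NB h2 chk_NB ((tab _ 0).2.2.2.2.1.2 hn)
      exact chk_slt IH hr h4
    · obtain ⟨h', -, h4⟩ := ex.2.2.1 h1 h2 hn
      exact chk_slt IH hl h4
  · obtain ⟨h1, h2, h3, h5⟩ := hs
    have ex := hext R D σ α N hc m nd h hh ini hi (by omega) d hd
    obtain ⟨h', -, h4⟩ := ex.2.2.1 h1 h2 (chk_near hrp htab hz hc hh hd h3)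
    exact chk_go IH h5 h4
  · obtain ⟨h1, h2, h3⟩ := hs
    have ex := hext R D σ α N hc m nd h hh ini hi (by omega) d hd
    obtain ⟨h', -, -, h4⟩ := ex.2.2.2.1 h2
    exact chk_go IH h3 h4
  · obtain ⟨h1, h2, h3⟩ := hs
    have ex := hext R D σ α N hc m nd h hh ini hi (by omega) d hd
    obtain ⟨h', -, -, h4⟩ := ex.2.2.2.2 h2
    exact chk_go IH h3 h4
  · obtain ⟨h1, h2⟩ := hs
    obtain ⟨f, n, hf, h3, h4, h5⟩ := lk.1 _ _ h2
    rw [cj_iff] at h5
    obtain ⟨-, -, -, -, -, -, -, -, -, sbF, -⟩ := rp _ _ r0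
    have h6 : deg σ (h d) = n := (tab _ n).1.2 (sbF _ (chk_wide (tab (h d) n).1.1 le_rfl
      (by norm_num)) h5.1)
    have h7 : h f = σ (h d) := by
      apply (σ ^ n).injective
      rw [h4, ← h6, ← (iv (h d)).2.2.2.1]
      exact (chk_pow σ _).symm
    have h8 := lk.2.2.1 f hf h1 h3 h7
    obtain ⟨-, -, -, -, -, -, -, -, -, -, -, g1⟩ := rp f (h f) (Or.inr ⟨hf, rfl⟩)
    obtain ⟨-, -, -, -, -, -, -, -, -, -, -, g2⟩ := rp _ _ (rp _ _ r0).2.2.1
    refine chk_go IH h5.2 (((hput R D σ α N hc _ nd h h8).2 f hf _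
      (chk_flor g1.2 (chk_ffc g2.1 ?_ g2.2))).2.2 (chk_lor g1.1 g2.1))
    rw [h7]
    exact (iv (h d)).2.2.2.2.2.2.2.2.1.symm
  · obtain ⟨h1, h2⟩ := hs
    obtain ⟨a, n, ha, h3, h4, h5⟩ := lk.2.1 _ _ h2
    rw [cj_iff] at h5
    obtain ⟨-, -, -, -, -, -, -, -, -, sbF, -⟩ := rp _ _ r0
    have h6 : fln σ α (h d) = n := (tab _ n).2.1.2 (sbF _ (chk_wide (tab (h d) n).2.1.1
      (by norm_num) (by norm_num)) h5.1)
    have h7 : h a = α (h d) := by
      have : α (h a) = h d := by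
        apply ((σ * α) ^ n).injective
        rw [h4, ← h6]
        exact (chk_pow (σ * α) _).symm
      rw [← this, hc.cls.inv]
    have h8 := lk.2.2.2.1 a ha h1 h3 h7
    obtain ⟨-, -, -, -, -, -, -, -, -, -, -, g1⟩ := rp a (h a) (Or.inr ⟨ha, rfl⟩)
    obtain ⟨-, -, -, -, -, -, -, -, -, -, -, g2⟩ := rp _ _ (rp _ _ r0).1
    refine chk_go IH h5.2 (((hput R D σ α N hc _ nd h h8).2 a ha _
      (chk_flor g1.2 (chk_ffc g2.1 ?_ g2.2))).2.2 (chk_lor g1.1 g2.1))
    rw [h7]
    exact (iv (h d)).2.2.2.2.2.2.2.2.1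
  · obtain ⟨l, r, hl, hr⟩ := chk_two hs
    have hb : Bits 64 70 (Nat.shiftLeft (Nat.land c 63) 64) := chk_fld c 64 6
    have pt := (hput R D σ α N hc m nd h hh).2 d hd
    obtain ⟨-, -, -, -, -, -, -, -, -, t1, -⟩ := tab (h d) 0
    rcases t1 _ hb with h1 | h1
    · exact chk_slt IH hl ((pt _ h1).2.1 hb)
    · exact chk_slt IH hr ((pt _ h1).2.1 (chk_xor hb chk_VM))
  · obtain ⟨l, r, hl, hr⟩ := chk_two hs
    have hb : Bits 70 92 (Nat.shiftLeft (Nat.land c 4194303) 70) := chk_fld c 70 22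
    have pt := (hput R D σ α N hc m nd h hh).2 d hd
    obtain ⟨-, -, -, -, -, -, -, -, -, -, t1⟩ := tab (h d) 0
    rcases t1 _ hb with h1 | h1
    · exact chk_slt IH hl ((pt _ h1).2.2 hb)
    · exact chk_slt IH hr ((pt _ h1).2.2 (chk_xor hb chk_FM))

theorem chk_stepB (hmir : St_mirror) (hrp : St_rp) (hput : St_put) (htab : St_tab)
    (hrel : St_rel) (hev : St_ev) (hmtc : St_mtc) {pats : BT ℕ} {lim : ℕ}
    (hp : ∀ j < lim, PatOK R (pats.get j)) (hc : Ctx σ α N)
    (IH : ChkIH R σ α N ih) (hh : Hom R σ α N m nd h) {op d c : ℕ} (hd : Val nd d)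
    (hs : stepB R pats lim ih m nd op d c = true) : False := by
  have r0 : Rp nd h d (h d) := Or.inr ⟨hd, rfl⟩
  obtain ⟨-, -, r3, -, -, -, -, -, r9, r10, r11, r12⟩ := hrp R D σ α N hc m nd h hh _ _ r0
  have pt := (hput R D σ α N hc m nd h hh).2 d hd
  have hk : Nat.land c 1 ≤ 1 := chk_land_le c 1
  have hl : lv R σ α N (Nat.land c 1) (h d) ≤ evMax m (R.s (Nat.land c 1)) d 0 :=
    ((hev R D σ α N hc m nd h hh _ _ r0).1 _ 0).2
  simp only [stepB, frc_eq, sel_eq, Nat.ble_eq, Nat.beq_eq] at hs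
  split_ifs at hs
  all_goals try simp only [cj_iff, dj_iff, Nat.blt_eq, Nat.ble_eq, Nat.beq_eq] at hs
  · obtain ⟨l, r, h1, h2⟩ := chk_two hs
    have hs3 := chk_land_le c 3
    generalize Nat.land c 3 = s at h1 h2 hs3
    have hw : Bits 0 (fw s) (low (fw s)) := fun i hi => by
      rw [lv_low, decide_eq_true_eq] at hi
      omega
    have ha : Bits 0 (fw s) (Nat.land (Nat.shiftRight c 2) (low (fw s))) := fun i hi => by
      change (Nat.shiftRight c 2 &&& low (fw s)).testBit i = true at hi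
      rw [Nat.testBit_and, Bool.and_eq_true] at hi
      exact hw i hi.2
    generalize Nat.land (Nat.shiftRight c 2) (low (fw s)) = a at h1 h2 ha
    cases e : a.testBit (fv R σ α N s (h d))
    · exact chk_slt IH h1 (chk_ptl hput hc hh hd hs3 ha e)
    · refine chk_slt IH h2 (chk_ptl hput hc hh hd hs3 (chk_xor ha hw) ?_)
      change (a ^^^ _).testBit _ = false
      rw [Nat.testBit_xor, e, lv_low, decide_eq_true (lv_fv R σ α N hs3 _)]
      rfl
  · obtain ⟨h1, h2⟩ := hrel R D σ α N hc m nd h hh d hd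
    exact chk_go IH hs ((pt _ h2).2.2 h1)
  · exact chk_go IH hs ((pt _ r11.2).2.1 r11.1)
  · exact chk_go IH hs ((pt _ r12.2).2.2 r12.1)
  · obtain ⟨-, -, -, -, -, -, t7, t8, -⟩ := htab R D σ α N hc (h d) 0
    rcases hs with hs | hs | hs
    · exact t7 (r10 _ (chk_wide chk_VM le_rfl (by norm_num)) hs)
    · exact t8 (r10 _ (chk_wide chk_FM (by norm_num) (by norm_num)) hs)
    · rw [hs] at r3
      rcases r3 with r3 | r3
      · have := hd.1
        omega
      · exact hc.fpf _ r3.2.symm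
  · obtain ⟨h1, h2⟩ := hs
    obtain ⟨r, hr⟩ := Nat.exists_eq_add_of_le' h2
    have mt := hmtc R D σ α N hc m nd h hh 2000 (pats.get (Nat.shiftRight c 1)) d r hd
    generalize Nat.beq (Nat.land c 1) 1 = o at hr
    cases o
    · exact hp _ h1 D σ α N hc _ _ (mt.1 hr)
    · exact hp _ h1 D σ⁻¹ α N (hmir D σ α N hc) _ _ (mt.2 hr)
  · rw [(lv_kof hk).1, lv_mn] at hs
    have h1 := lv_read (by omega) r9 hs
    rw [lv_low, lv_fv0, decide_eq_false_iff_not] at h1
    omega
  · rw [(lv_kof hk).1, lv_mn] at hs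
    refine chk_go IH hs (chk_ptl hput hc hh hd (by omega) (fun i hi => by
      rw [(lv_kof hk).2.1]
      exact ⟨Nat.zero_le _, ((lv_hig _ _).1 hi).2⟩) ?_)
    rw [← Bool.not_eq_true, lv_hig, lv_fv0]
    omega

theorem chk_stepC (hrp : St_rp) (htab : St_tab) (hlnk : St_lnk) (hbnd : St_bnd)
    (hR : RuleOK R) {red : ℕ → ℕ → ℕ → Bool} (hr : RedOK R red) (hc : Ctx σ α N)
    (IH : ChkIH R σ α N ih) (hh : Hom R σ α N m nd h) {op d c : ℕ} (hd : Val nd d)
    (hs : stepC R red ih m nd op d c = true) : False := by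
  have r0 : Rp nd h d (h d) := Or.inr ⟨hd, rfl⟩
  obtain ⟨-, -, -, -, -, -, r7, r8, r9, r10, -⟩ := hrp R D σ α N hc m nd h hh _ _ r0
  have lk := hlnk R D σ α N hc m nd h hh
  have bd := hbnd R D σ α N hc m nd h hh hR d hd
  have tab := htab R D σ α N hc (h d) (Nat.land c 15)
  have he : ∀ y, Val nd y → 128 ≤ eqd m y → Val nd (eqd m y) ∧ h (eqd m y) = h y :=
    fun y hy h1 => (hh.he y hy).resolve_left (by omega)
  simp only [stepC, frc_eq, sel_eq, Nat.ble_eq, Nat.beq_eq] at hs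
  split_ifs at hs
  all_goals try simp only [cj_iff, tb_eq, Nat.ble_eq, Nat.beq_eq] at hs
  · exact bd.1 _ _ hs.2 (r9 124 (by norm_num) (by norm_num) hs.1)
  · exact bd.2.1 _ _ _ (Nat.lt_succ_of_le (chk_land_le _ 31)) hs.2
      (r9 125 (by norm_num) (by norm_num) hs.1)
  · exact bd.2.2 _ (Nat.lt_succ_of_le (chk_land_le _ 31)) hs.2
      (r9 126 (by norm_num) (by norm_num) hs.1)
  · exact hr D σ α N hc _ _ _ _ hs hh
  · obtain ⟨h1, h2, h3⟩ := hs
    have h4 := tab.2.1.2 (r10 _ (chk_wide tab.2.1.1 (by norm_num) (by norm_num)) h1)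
    obtain ⟨h5, h6⟩ := (r8 (Nat.land c 15)).resolve_left (by omega)
    refine chk_go IH h3 ((lk d hd).2.2.2.2.1 _ h5 ?_).1
    rw [h6, ← h4]
    exact chk_pow (σ * α) _
  · obtain ⟨h1, h2, h3⟩ := hs
    have h4 := tab.1.2 (r10 _ (chk_wide tab.1.1 le_rfl (by norm_num)) h1)
    obtain ⟨h5, h6⟩ := (r7 (Nat.land c 15)).resolve_left (by omega)
    refine chk_go IH h3 ((lk d hd).2.2.2.2.1 _ h5 ?_).1
    rw [h6, ← h4]
    exact chk_pow σ _
  · obtain ⟨h1, h2, h3⟩ := hs
    have h4 := (lk d hd).2.2.2.2.2.2.2 (Nat.land c 3) (by omega)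
    obtain ⟨h5, h6⟩ := he _ h4 h2
    exact chk_go IH h3 ((lk d hd).2.2.2.2.2.1 _ _ h5 h4 h6)
  · obtain ⟨h1, h2, h3, h4⟩ := hs
    obtain ⟨h5, h6⟩ := he _ hd h1
    obtain ⟨h7, h8, h9⟩ := (lk d hd).2.2.2.2.2.2.1 (Nat.land c 3) _ h5 h6 (by omega) (by omega)
    exact chk_go IH h4 ((lk _ h8).2.2.2.2.1 _ h7 h9).1
  · obtain ⟨h1, h2, h3, h4⟩ := hs
    obtain ⟨h5, h6⟩ := he _ hd h1
    obtain ⟨h7, h8, h9⟩ := (lk d hd).2.2.2.2.2.2.1 (Nat.land c 3) _ h5 h6 (by omega) (by omega)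
    exact chk_go IH h4 ((lk _ h7).2.2.2.2.1 _ h8 h9.symm).1
  · obtain ⟨h5, h6⟩ := he _ hd hs.1
    exact chk_go IH hs.2 ((lk _ h5).2.2.2.2.1 _ hd h6.symm).2
  · obtain ⟨h5, h6⟩ := he _ hd hs.1
    exact chk_go IH hs.2 ((lk _ hd).2.2.2.2.1 _ h5 h6).1
  · obtain ⟨h1, h2, h3⟩ := hs
    obtain ⟨h5, h6⟩ := he _ hd h1
    obtain ⟨h7, h8⟩ := he _ h5 h2
    exact chk_go IH h3 ((lk _ h7).2.2.2.2.1 _ hd (h8.trans h6).symm).1

theorem chk_rot (π : Perm D) (f : D → ℕ) (x : D) :
    ∑ i ∈ Finset.range (Function.minimalPeriod π x), f ((π ^ i) (π x)) =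
      ∑ i ∈ Finset.range (Function.minimalPeriod π x), f ((π ^ i) x) := by
  have h1 := Finset.sum_range_succ (fun i => f ((π ^ i) x)) (Function.minimalPeriod π x)
  have h2 := Finset.sum_range_succ' (fun i => f ((π ^ i) x)) (Function.minimalPeriod π x)
  simp only [pow_succ, Perm.mul_apply, pow_zero, Perm.one_apply, chk_pow] at h1 h2
  omega

theorem chk_inn (π : Perm D) (b : Bool) (x : D) :
    inn2 R σ α N π b (π x) = inn2 R σ α N π b x := by
  classical
  unfold inn2
  refine Finset.sum_congr rfl fun _ _ => Finset.sum_congr rfl fun _ _ => ?_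
  congr 1
  rw [Perm.sameCycle_apply_left]

theorem chk_negV (hinv : St_inv) (hc : Ctx σ α N) {x : D} (hx : NegV R σ α N x) :
    NegV R σ α N (σ x) := by
  unfold NegV at hx ⊢
  rw [(hinv D σ α N hc.cls x).2.2.2.1, chk_inn]
  exact hx.trans_eq (congrArg _ (chk_rot σ (amt R σ α N 3) x).symm)

theorem chk_negF (hinv : St_inv) (hc : Ctx σ α N) {x : D} (hx : NegF R σ α N x) :
    NegF R σ α N ((σ * α) x) := by
  unfold NegF at hx ⊢
  rw [chk_inn, Perm.mul_apply, (hinv D σ α N hc.cls x).2.2.2.2.1]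
  exact hx.trans_eq (congrArg _ (chk_rot (σ * α) (outF R σ α N) x).symm)

theorem chk_stepD (hinv : St_inv) (hrp : St_rp) (hput : St_put) (hev : St_ev) (hshr : St_shr)
    (hR : RuleOK R) (hc : Ctx σ α N)
    (IH : ChkIH R σ α N ih) (hh : Hom R σ α N m nd h) {op d c : ℕ} (hd : Val nd d)
    (hs : stepD R ih m nd op d c = true) : False := by
  have hk : Nat.land c 1 ≤ 1 := chk_land_le c 1
  simp only [stepD, frc_eq, sel_eq] at hs
  split_ifs at hs
  · rw [(lv_kof hk).1, lv_mn] at hs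
    refine chk_go IH hs (chk_ptl hput hc hh hd (by omega) (fun i hi => by
      rw [lv_low, decide_eq_true_eq] at hi
      rw [(lv_kof hk).2.1]
      omega) ?_)
    have h1 := ((hev R D σ α N hc m nd h hh d _ (Or.inr ⟨hd, rfl⟩)).2.1 (R.s (Nat.land c 1))
      (Nat.land (Nat.shiftRight c 1) 511) 15).2
    generalize evMin m (Nat.land (Nat.shiftRight c 1) 511) (R.s (Nat.land c 1)) d 15 = a at h1
    rw [lv_low, lv_fv0, decide_eq_false_iff_not]
    rcases Nat.eq_zero_or_pos a with rfl | ha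
    · omega
    · have h2 := (h1 (by omega)).1
      unfold clamp at h2
      rw [if_pos (by omega)] at h2
      unfold lv
      omega
  · exact hshr R D σ α N hc m nd h hh hR d hd _ _ _ _ hk hs
  all_goals
    obtain ⟨r1, -, -, r4, -, -, -, -, r9, -⟩ := hrp R D σ α N hc m nd h hh d _ (Or.inr ⟨hd, rfl⟩)
    simp only [cj_iff, tb_eq, Nat.ble_eq] at hs
    obtain ⟨h1, h2, h3⟩ := hs
    have one : ∀ p i, (Nat.shiftLeft 1 p).testBit i = true → i = p := fun p i hi => by
      change (1 <<< p).testBit i = true at hi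
      rw [Nat.one_shiftLeft, Nat.testBit_two_pow] at hi
      exact (of_decide_eq_true hi).symm
  · rename_i c0
    rw [Nat.beq_eq] at c0
    rw [c0] at h1 h3
    obtain ⟨h5, h6⟩ := r1.resolve_left (by omega)
    refine chk_go IH h3 (((hput R D σ α N hc m nd h hh).2 _ h5 _ fun i hi => ?_).1 fun i hi => ?_)
    · rw [one _ _ hi, h6]
      exact chk_negV hinv hc (r9 124 (by norm_num) (by norm_num) h1)
    · rw [one _ _ hi]
      decide
  · rename_i c0
    rw [Nat.beq_eq] at c0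
    rw [show Nat.land c 1 = 1 by omega] at h1 h3
    obtain ⟨h5, h6⟩ := r4.resolve_left (by omega)
    refine chk_go IH h3 (((hput R D σ α N hc m nd h hh).2 _ h5 _ fun i hi => ?_).1 fun i hi => ?_)
    · rw [one _ _ hi, h6]
      exact chk_negF hinv hc (r9 125 (by norm_num) (by norm_num) h1)
    · rw [one _ _ hi]
      decide

end

theorem stCHK (hmir : St_mirror) (hinv : St_inv) (hrp : St_rp) (hput : St_put) (htab : St_tab)
    (hext : St_ext) (hlnk : St_lnk) (hrel : St_rel) (hev : St_ev) (hbnd : St_bnd) (hmtc : St_mtc)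
    (hbld : St_bld) (hshr : St_shr) : St_chk := by
  intro R ini pats red hR hi hr hz
  have main : ∀ lim p c, (∀ j < lim, PatOK R (pats.get j)) → chkP R ini pats lim red p c = true →
      PatOK R p := by
    intro lim p c hp hs D _ σ α N hc x r hx
    have snd : ∀ fuel, ChkIH R σ α N (chk R ini pats lim red fuel) := by
      intro fuel
      induction fuel with
      | zero => exact fun _ _ _ _ h => absurd h Bool.false_ne_true
      | succ fuel ih =>
        intro m nd c h hs hh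
        have hs' : (frc (Nat.land c 31) fun op =>
            frc (dart (Nat.shiftRight c 5)) fun d => frc (Nat.shiftRight c 15) fun c' =>
              cj (Nat.blt d nd)
                (sel (Nat.ble op 7) (stepA ini (chk R ini pats lim red fuel) m nd op d c')
                  (sel (Nat.ble op 15) (stepB R pats lim (chk R ini pats lim red fuel) m nd op d c')
                    (sel (Nat.ble op 27) (stepC R red (chk R ini pats lim red fuel) m nd op d c')
                      (stepD R (chk R ini pats lim red fuel) m nd op d c'))))) = true := hs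
        simp only [frc_eq, cj_iff, sel_eq, Nat.blt_eq] at hs'
        obtain ⟨h1, h2⟩ := hs'
        have hd := chk_val h1
        split_ifs at h2
        · exact chk_stepA hinv hrp hput htab hext hlnk hz hi hc ih hh hd h2
        · exact chk_stepB hmir hrp hput htab hrel hev hmtc hp hc ih hh hd h2
        · exact chk_stepC hrp htab hlnk hbnd hR hr hc ih hh hd h2
        · exact chk_stepD hinv hrp hput hev hshr hR hc ih hh hd h2
    obtain ⟨m', nd', h', -, -, h1, h2⟩ := hbld.1 R D σ α N hc _ _ _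
      (hbld.2 R D σ α N hc ini hi x) ini hi 2000 p 128 r _
      ⟨le_rfl, by norm_num, dvd_rfl⟩ hx hs
    exact snd 3000 _ _ _ _ h2 h1
  refine ⟨main, fun n => ?_⟩
  induction n with
  | zero => exact fun i c hp _ => hp
  | succ n ih =>
    intro i c hp hs j hj
    have hs' : two c (chkP R ini pats i red (pats.get i))
        (frc (Nat.succ i) (chkM R ini pats red n)) = true := hs
    obtain ⟨l, r, h1, h2⟩ := chk_two hs'
    rw [frc_eq] at h2
    refine ih (i + 1) r (fun j hj => ?_) h2 j (by omega)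
    rcases Nat.lt_succ_iff_lt_or_eq.1 hj with hj | rfl
    · exact hp j hj
    · exact main _ _ _ hp h1

end Pool.Agent.Lib.G6
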