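import Pool.Agent.Lib.G6.Blue
import Pool.Agent.Lib.MP_bfaad3_co.PM1

set_option autoImplicit false

/-! The leaves of the overlap checker. -/

namespace Pool.Agent.Lib.G6

open Equiv
open Pool.Agent.Lib.MP_bfaad3_co (frc sel cj dj tb sb BT frc_eq sel_eq cj_iff dj_iff tb_eq)

theorem clf_sl (j : ℕ) : Nat.shiftLeft (Nat.succ j) 6 = 64 * (j + 1) := by
  change (j + 1) <<< 6 = _
  rw [Nat.shiftLeft_eq]; omega

theorem clf_sr (y : ℕ) : Nat.shiftRight y 6 = y / 64 := Nat.shiftRight_eq_div_pow y 6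

theorem clf_not (b : Bool) : sel b false true = true ↔ b = false := by cases b <;> simp [sel_eq]

theorem clf_same (a b : Bool) : sel a b (sel b false true) = true ↔ a = b := by
  cases a <;> cases b <;> simp [sel_eq]

theorem clf_inS (s y : ℕ) : inS s y = s.testBit (y / 64) := by rw [inS, tb_eq, clf_sr]

theorem clf_bit (r x i : ℕ) : (Nat.lor r (Nat.shiftLeft 1 (Nat.shiftRight x 6))).testBit i = true ↔
    r.testBit i = true ∨ x / 64 = i := by
  change (r ||| 1 <<< (Nat.shiftRight x 6)).testBit i = true ↔ _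
  rw [Nat.testBit_or, Nat.one_shiftLeft, Nat.testBit_two_pow, clf_sr]
  simp

theorem clf_ev {n y : ℕ} (h : EV n y) :
    ∃ j, j < Nat.pred (Nat.shiftRight (Nat.add n 63) 6) ∧ y = 64 * (j + 1) := by
  obtain ⟨h1, h2, j, rfl⟩ := h
  refine ⟨j - 1, ?_, by omega⟩
  rw [clf_sr, Nat.pred_eq_sub_one, Nat.add_eq]; omega

theorem clf_ev_eq {n y y' : ℕ} (h : EV n y) (h' : EV n y') (e : y / 64 = y' / 64) : y = y' := by
  obtain ⟨-, -, j, rfl⟩ := h
  obtain ⟨-, -, j', rfl⟩ := h'
  omega

section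
variable {D : Type} {σ α : Perm D} {N : Set D} {e n : ℕ} {k : ℕ → D}

theorem clf_step (h : Emb σ α N e n k) {d : ℕ} (hd : EV n d) (hg : egap e d = false) :
    σ (k d) = k (enx e d) := by
  obtain ⟨j, -, h1, h2, -⟩ := h.ret d hd
  rw [h2 hg, pow_one] at h1
  exact h1

theorem clf_edeg (h : Emb σ α N e n k) {w : ℕ} (hw : EV n w) (K : ℕ → Bool) (fuel : ℕ) :
    ∀ y j, EV n y → (σ ^ j) (k w) = k y → (∀ i, 0 < i → i ≤ j → (σ ^ i) (k w) ≠ k w) →
      edeg e w K fuel y (j + 1) = true → K (deg σ (k w)) = true := by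
  induction fuel with
  | zero => intro y j _ _ _ H; exact absurd H (by simp [edeg])
  | succ fuel ih =>
    intro y j hy h1 h2 H
    change cj (sel (egap e y) false true) (frc (enx e y) fun z =>
      sel (Nat.beq z w) (K (j + 1)) (frc (Nat.succ (j + 1)) (edeg e w K fuel z))) = true at H
    rw [cj_iff, clf_not, frc_eq, frc_eq, sel_eq] at H
    have h3 : (σ ^ (j + 1)) (k w) = k (enx e y) := by
      rw [pow_succ', Perm.mul_apply, h1, clf_step h hy H.1]
    by_cases hz : enx e y = w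
    · rw [if_pos (by simpa using hz)] at H
      rw [hz] at h3
      have p : Function.IsPeriodicPt σ (j + 1) (k w) := by
        rw [Function.IsPeriodicPt, Function.IsFixedPt, ← Perm.coe_pow]; exact h3
      have q : deg σ (k w) = j + 1 := by
        refine le_antisymm (p.minimalPeriod_le (by omega)) (not_lt.1 fun hl => ?_)
        refine h2 _ (p.minimalPeriod_pos (by omega)) (Nat.lt_succ_iff.1 hl) ?_
        rw [Perm.coe_pow]
        exact Function.isPeriodicPt_minimalPeriod σ (k w)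
      rw [q]; exact H.2
    · rw [if_neg (by simpa using hz)] at H
      refine ih _ (j + 1) (h.nx y hy).1 h3 (fun i i0 i1 => ?_) H.2
      rcases Nat.lt_or_ge j i with hi | hi
      · rw [show i = j + 1 by omega, h3]
        exact fun hk => hz (h.inj _ _ (h.nx y hy).1 hw hk)
      · exact h2 i i0 hi

theorem clf_skip {τ : Perm D} {f : ℕ → ℕ} (inj : ∀ d d', EV n d → EV n d' → k d = k d' → d = d')
    (hf : ∀ d, EV n d → EV n (f d) ∧ ∃ j, 0 < j ∧ (τ ^ j) (k d) = k (f d) ∧
      ∀ i d', 0 < i → i < j → EV n d' → (τ ^ i) (k d) ≠ k d') (s z fuel : ℕ) :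
    ∀ x, EV n x → skip f s z fuel x = true → ∃ j, 0 < j ∧ (τ ^ j) (k x) = k z ∧
      ∀ i d', 0 < i → i < j → EV n d' → inS s d' = true → (τ ^ i) (k x) ≠ k d' := by
  induction fuel with
  | zero => intro x _ H; exact absurd H (by simp [skip])
  | succ fuel ih =>
    intro x hx H
    change (frc (f x) fun y => sel (inS s y) (Nat.beq y z) (skip f s z fuel y)) = true at H
    rw [frc_eq, sel_eq] at H
    obtain ⟨h1, j, j0, j1, j2⟩ := hf x hx
    by_cases hs : inS s (f x) = true
    · rw [if_pos hs, Nat.beq_eq] at H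
      exact ⟨j, j0, H ▸ j1, fun i d' a b c _ => j2 i d' a b c⟩
    · rw [if_neg hs] at H
      obtain ⟨l, l0, l1, l2⟩ := ih _ h1 H
      refine ⟨l + j, by omega, by rw [pow_add, Perm.mul_apply, j1, l1], fun i d' a b c c' => ?_⟩
      rcases lt_trichotomy i j with hi | rfl | hi
      · exact j2 i d' a hi c
      · rw [j1]
        exact fun hk => hs (inj _ _ h1 c hk ▸ c')
      · rw [show i = (i - j) + j by omega, pow_add, Perm.mul_apply, j1]
        exact l2 _ d' (by omega) (by omega) c c'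

theorem clf_back (h : Emb σ α N e n k) (d : ℕ) (hd : EV n d) :
    EV n (epv e d) ∧ ∃ j, 0 < j ∧ (σ⁻¹ ^ j) (k d) = k (epv e d) ∧
      ∀ i d', 0 < i → i < j → EV n d' → (σ⁻¹ ^ i) (k d) ≠ k d' := by
  obtain ⟨h1, h2⟩ := h.pv d hd
  obtain ⟨j, j0, j1, -, j2⟩ := h.ret _ h1
  rw [h2] at j1
  refine ⟨h1, j, j0, by rw [← j1, inv_pow]; simp, fun i d' a b c => ?_⟩
  rw [← j1, show j = i + (j - i) by omega, pow_add, inv_pow, Perm.mul_apply]
  simpa using j2 (j - i) d' (by omega) (by omega) c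

end

theorem clf_cfgW {K nK : ℕ} (h : cfgW K nK = true) {y : ℕ} (hy : EV nK y) :
    (EV nK (enx K y) ∧ epv K (enx K y) = y) ∧ (EV nK (epv K y) ∧ enx K (epv K y) = y) ∧
      (eal K y = 0 ∨ (EV nK (eal K y) ∧ eal K (eal K y) = y)) := by
  obtain ⟨j, hj, rfl⟩ := clf_ev hy
  unfold cfgW at h
  generalize Nat.pred (Nat.shiftRight (Nat.add nK 63) 6) = cnt at h hj
  induction cnt with
  | zero => omega
  | succ cnt ih =>
    simp only [frc_eq, cj_iff, dj_iff, clf_sl, Nat.blt_eq, Nat.beq_eq] at h ih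
    rcases Nat.lt_or_ge j cnt with hl | hl
    · exact ih h.2.2 hl
    · obtain rfl : j = cnt := by omega
      obtain ⟨⟨⟨a1, a2, a3⟩, ⟨b1, b2, b3⟩, c1, c2⟩, d, -⟩ := h
      refine ⟨⟨⟨a1, a2, Nat.dvd_of_mod_eq_zero a3⟩, c1⟩, ⟨⟨b1, b2, Nat.dvd_of_mod_eq_zero b3⟩, c2⟩,
        ?_⟩
      by_cases h0 : eal K (64 * (j + 1)) = 0
      · exact Or.inl h0
      · obtain ⟨d1, d2, d3⟩ := d.resolve_left h0
        exact Or.inr ⟨⟨Nat.pos_of_ne_zero h0, d1, Nat.dvd_of_mod_eq_zero d2⟩, d3⟩

theorem clf_mu_dvd (c y : ℕ) : 64 ∣ mu c y := by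
  change 64 ∣ _ <<< 6
  rw [Nat.shiftLeft_eq]; exact Dvd.intro_left _ rfl

theorem clf_muI (n c cnt : ℕ) (h : (muI n c cnt).testBit 0 = false) :
    (∀ j < cnt, EV n (mu c (64 * (j + 1))) ∧ inS (muI n c cnt) (mu c (64 * (j + 1))) = true) ∧
    (∀ j < cnt, ∀ j' < cnt, mu c (64 * (j + 1)) = mu c (64 * (j' + 1)) → j = j') := by
  induction cnt with
  | zero => simp
  | succ cnt ih =>
    have e : muI n c (cnt + 1) = sel (cj (Nat.blt (mu c (64 * (cnt + 1))) n)
        (sel (inS (muI n c cnt) (mu c (64 * (cnt + 1)))) false true))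
        (Nat.lor (muI n c cnt) (Nat.shiftLeft 1 (Nat.shiftRight (mu c (64 * (cnt + 1))) 6)))
        (Nat.lor (muI n c cnt) 1) := by
      rw [← clf_sl]; simp only [muI, frc_eq]
    rw [e, sel_eq] at h ⊢
    split_ifs at h ⊢ with hc
    · rw [cj_iff, clf_not, Nat.blt_eq] at hc
      have h0 := (clf_bit _ _ 0).not.1 (by rw [h]; simp)
      rw [not_or, Bool.not_eq_true] at h0
      obtain ⟨i1, i2⟩ := ih h0.1
      refine ⟨fun j hj => ?_, fun j hj j' hj' hm => ?_⟩
      · rw [clf_inS, clf_bit, ← clf_inS]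
        rcases Nat.lt_or_ge j cnt with hl | hl
        · exact ⟨(i1 j hl).1, Or.inl (i1 j hl).2⟩
        · obtain rfl : j = cnt := by omega
          exact ⟨⟨by have := h0.2; omega, hc.1, clf_mu_dvd _ _⟩, Or.inr rfl⟩
      · rcases Nat.lt_or_ge j cnt with hl | hl <;> rcases Nat.lt_or_ge j' cnt with hl' | hl'
        · exact i2 j hl j' hl' hm
        · obtain rfl : j' = cnt := by omega
          have := (i1 j hl).2
          rw [hm, hc.2] at this; exact absurd this (by simp)
        · obtain rfl : j = cnt := by omega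
          have := (i1 j' hl').2
          rw [← hm, hc.2] at this; exact absurd this (by simp)
        · omega
    · change (muI n c cnt ||| 1).testBit 0 = false at h
      simp at h

theorem clf_sub {e n K nK c : ℕ} {o : Bool} (h : sub e n K nK o c = true) :
    ∃ s, (∀ y, EV nK y → EV n (mu c y) ∧ inS s (mu c y) = true) ∧
      (∀ y y', EV nK y → EV nK y' → mu c y = mu c y' → y = y') ∧
      ∀ y, EV nK y → eN K y = eN e (mu c y) ∧
        (eal K y = 0 ∨ eal e (mu c y) = mu c (eal K y)) ∧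
        sel (egap K y) (skip (sel o (epv e) (enx e)) s (mu c (enx K y)) 40 (mu c y))
          (sel o (cj (Nat.beq (enx e (mu c (enx K y))) (mu c y))
            (sel (egap e (mu c (enx K y))) false true))
            (cj (Nat.beq (enx e (mu c y)) (mu c (enx K y)))
              (sel (egap e (mu c y)) false true))) = true := by
  unfold sub at h
  rw [frc_eq, frc_eq, cj_iff, clf_not, tb_eq] at h
  obtain ⟨h1, h2⟩ := clf_muI _ _ _ h.1
  refine ⟨muI n c (Nat.pred (Nat.shiftRight (Nat.add nK 63) 6)), fun y hy => ?_,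
    fun y y' hy hy' hm => ?_, fun y hy => ?_⟩
  · obtain ⟨j, hj, rfl⟩ := clf_ev hy
    exact h1 j hj
  · obtain ⟨j, hj, rfl⟩ := clf_ev hy
    obtain ⟨j', hj', rfl⟩ := clf_ev hy'
    rw [h2 j hj j' hj' hm]
  · obtain ⟨j, hj, rfl⟩ := clf_ev hy
    have h3 := h.2
    generalize muI n c (Nat.pred (Nat.shiftRight (Nat.add nK 63) 6)) = s at h3 ⊢
    generalize Nat.pred (Nat.shiftRight (Nat.add nK 63) 6) = cnt at h3 hj
    induction cnt with
    | zero => omega
    | succ cnt ih =>
      simp only [frc_eq, clf_sl] at h3 ih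
      rw [cj_iff, cj_iff, cj_iff, clf_same, dj_iff, Nat.beq_eq, Nat.beq_eq] at h3
      rcases Nat.lt_or_ge j cnt with hl | hl
      · exact ih h3.2.2.2 hl
      · obtain rfl : j = cnt := by omega
        exact ⟨h3.1, h3.2.1, h3.2.2.1⟩

section
variable {D : Type} {σ α : Perm D} {N : Set D} {e n : ℕ} {k : ℕ → D}

theorem clf_emb (h : Emb σ α N e n k) {K nK c : ℕ} {o : Bool} (hK : cfgW K nK = true)
    (hs : sub e n K nK o c = true) :
    Emb (if o = true then σ⁻¹ else σ) α N K nK fun y => k (mu c y) := by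
  obtain ⟨s, h1, h2, h3⟩ := clf_sub hs
  refine ⟨fun d d' hd hd' hk => h2 d d' hd hd' (h.inj _ _ (h1 d hd).1 (h1 d' hd').1 hk),
    fun d hd => (clf_cfgW hK hd).1, fun d hd => (clf_cfgW hK hd).2.1, fun d hd => ?_,
    fun d hd => ?_, fun d hd => by rw [(h3 d hd).1]; exact h.ty _ (h1 d hd).1⟩
  · have h4 := (h3 d hd).2.2
    have h5 := (h1 d hd).1
    have h6 := (h1 _ (clf_cfgW hK hd).1.1).1
    cases hg : egap K d
    · rw [hg] at h4
      refine ⟨1, one_pos, ?_, fun _ => rfl, fun i d' a b => by omega⟩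
      cases o
      · change cj _ _ = true at h4
        rw [cj_iff, clf_not, Nat.beq_eq] at h4
        simpa [h4.1] using clf_step h h5 h4.2
      · change cj _ _ = true at h4
        rw [cj_iff, clf_not, Nat.beq_eq] at h4
        have := clf_step h h6 h4.2
        rw [h4.1] at this
        simp [← this]
    · rw [hg] at h4
      cases o
      · obtain ⟨j, j0, j1, j2⟩ := clf_skip (τ := σ) (f := enx e) h.inj (fun d hd => by
          obtain ⟨j, a, b, -, c⟩ := h.ret d hd
          exact ⟨(h.nx d hd).1, j, a, b, c⟩) s _ 40 _ h5 h4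
        exact ⟨j, j0, j1, by simp, fun i d' a b c => j2 i _ a b (h1 d' c).1 (h1 d' c).2⟩
      · obtain ⟨j, j0, j1, j2⟩ := clf_skip (τ := σ⁻¹) (f := epv e) h.inj (clf_back h) s _ 40 _ h5 h4
        exact ⟨j, j0, j1, by simp, fun i d' a b c => j2 i _ a b (h1 d' c).1 (h1 d' c).2⟩
  · rcases (clf_cfgW hK hd).2.2 with h4 | h4
    · exact Or.inl h4
    · refine Or.inr ⟨h4.1, h4.2, ?_⟩
      have h5 := ((h3 d hd).2.1).resolve_left h4.1.1.ne'
      have h6 := (h1 _ h4.1).1.1
      rcases h.al _ (h1 d hd).1 with h7 | h7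
      · omega
      · rw [← h5]; exact h7.2.2

theorem clf_eorb (h : Emb σ α N e n k) (x fuel : ℕ) : ∀ y acc, EV n y → σ.SameCycle (k x) (k y) →
    (∀ d, EV n d → inS acc d = true → σ.SameCycle (k x) (k d)) →
    ∀ d, EV n d → inS (eorb e fuel y acc) d = true → σ.SameCycle (k x) (k d) := by
  induction fuel with
  | zero => intro y acc _ _ H; exact H
  | succ fuel ih =>
    intro y acc hy h1 H
    have e1 : eorb e (fuel + 1) y acc = eorb e fuel (enx e y)
        (Nat.lor acc (Nat.shiftLeft 1 (Nat.shiftRight y 6))) := by simp only [eorb, frc_eq]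
    rw [e1]
    refine ih _ _ (h.nx y hy).1 ?_ fun d hd hb => ?_
    · obtain ⟨j, -, j1, -⟩ := h.ret y hy
      exact h1.trans ⟨j, by rw [zpow_natCast]; exact j1⟩
    · rw [clf_inS, clf_bit, ← clf_inS] at hb
      rcases hb with hb | hb
      · exact H d hd hb
      · exact clf_ev_eq hy hd hb ▸ h1

end

open Finset in
theorem clf_jcnt (e s u cnt : ℕ) : ∃ v, jcnt e s u cnt =
    ((range cnt).filter fun j => inS s (64 * (j + 1)) = true).card +
    65536 * ((range cnt).filter fun j => inS s (64 * (j + 1)) = true ∧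
      0 < eal e (64 * (j + 1)) ∧ inS s (eal e (64 * (j + 1))) = true).card +
    4294967296 * ((range cnt).filter fun j => inS s (64 * (j + 1)) = true ∧
      eN e (64 * (j + 1)) = false).card + 281474976710656 * v ∧
    (v = 0 → ∀ j < cnt, inS s (64 * (j + 1)) = true →
      (eN e (64 * (j + 1)) = true → inS u (64 * (j + 1)) = true) ∧
      inS s (enx e (64 * (j + 1))) = true ∧ egap e (64 * (j + 1)) = false) := by
  simp only [card_filter]
  induction cnt with
  | zero => exact ⟨0, rfl, fun _ j hj => by omega⟩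
  | succ cnt ih =>
    obtain ⟨v, h1, h2⟩ := ih
    have e1 : jcnt e s u (cnt + 1) = sel (inS s (64 * (cnt + 1)))
        (jcnt e s u cnt + sel (cj (Nat.blt 0 (eal e (64 * (cnt + 1))))
          (inS s (eal e (64 * (cnt + 1))))) 65537 1 +
        (sel (eN e (64 * (cnt + 1))) (sel (inS u (64 * (cnt + 1))) 0 281474976710656) 4294967296 +
          sel (cj (inS s (enx e (64 * (cnt + 1)))) (sel (egap e (64 * (cnt + 1))) false true)) 0
            281474976710656)) (jcnt e s u cnt) := by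
      rw [← clf_sl]; simp only [jcnt, frc_eq, Nat.add_eq]
    refine ⟨v + (if inS s (64 * (cnt + 1)) = true then
      (if eN e (64 * (cnt + 1)) = true ∧ inS u (64 * (cnt + 1)) = false then 1 else 0) +
      (if inS s (enx e (64 * (cnt + 1))) = true ∧ egap e (64 * (cnt + 1)) = false then 0 else 1)
      else 0), ?_, fun hv j hj hs => ?_⟩
    · rw [e1, h1]
      simp only [sum_range_succ, sel_eq, cj_iff, Nat.blt_eq]
      generalize 64 * (cnt + 1) = x
      cases inS s x <;> cases eN e x <;> cases inS u x <;> cases inS s (enx e x) <;>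
        cases egap e x <;> by_cases h3 : 0 < eal e x ∧ inS s (eal e x) = true <;>
        simp only [h3, Bool.false_eq_true, Bool.true_eq_false, if_true, if_false, false_and,
          true_and, and_self, and_true, and_false] <;> omega
    · rcases Nat.lt_or_ge j cnt with hl | hl
      · exact h2 (by omega) j hl hs
      · obtain rfl : j = cnt := by omega
        rw [if_pos hs] at hv
        generalize 64 * (j + 1) = x at hv
        revert hv
        cases eN e x <;> cases inS u x <;> cases inS s (enx e x) <;> cases egap e x <;> simp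

theorem clf_inn_bdy {D : Type} [Finite D] (α : Perm D) (S : Set D) :
    inn α S + bdy α S = S.ncard := by
  rw [inn, bdy, ← Set.ncard_union_eq (Set.disjoint_left.2 fun x h1 h2 => by
    rcases h2.2 with h | h
    exacts [h h1.2.1, h1.2.2 h])]
  congr 1
  ext x
  simp only [Set.mem_union, Set.mem_ofPred_eq]
  tauto

open Finset in
theorem clf_jlf {D : Type} [Finite D] {σ α : Perm D} {N : Set D} (hC : Ctx σ α N) {e n : ℕ}
    {k : ℕ → D} (h : Emb σ α N e n k) (n1 : 64 ∣ n) (n3 : n ≤ 32768) {x s : ℕ} (hx : 64 ∣ x)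
    (H : jlf e n x s = true) : False := by
  classical
  unfold jlf at H
  simp only [frc_eq] at H
  generalize hu : sel (Nat.beq x 0) 0 (eorb e 8 x 0) = u at H
  generalize hc : Nat.pred (Nat.shiftRight n 6) = cnt at H
  rw [clf_sr, Nat.pred_eq_sub_one] at hc
  have ev : ∀ j < cnt, EV n (64 * (j + 1)) := fun j hj => ⟨by omega, by omega, Dvd.intro _ rfl⟩
  have ev' : ∀ y, EV n y → ∃ j < cnt, y = 64 * (j + 1) := by
    rintro y ⟨a, b, j, rfl⟩
    exact ⟨j - 1, by omega, by omega⟩
  obtain ⟨v, h1, h2⟩ := clf_jcnt e s u cnt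
  set FA := (range cnt).filter fun j => inS s (64 * (j + 1)) = true with hA
  set FB := (range cnt).filter fun j => inS s (64 * (j + 1)) = true ∧
    0 < eal e (64 * (j + 1)) ∧ inS s (eal e (64 * (j + 1))) = true with hB
  set FZ := (range cnt).filter fun j => inS s (64 * (j + 1)) = true ∧
    eN e (64 * (j + 1)) = false with hZ
  have cA : FA.card ≤ cnt := (card_filter_le _ _).trans (card_range cnt).le
  have cB : FB.card ≤ cnt := (card_filter_le _ _).trans (card_range cnt).le
  have cZ : FZ.card ≤ cnt := (card_filter_le _ _).trans (card_range cnt).le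
  have l1 : ∀ t, Nat.land t 65535 = t % 65536 := fun t => Nat.and_two_pow_sub_one_eq_mod t 16
  have l2 : ∀ t, Nat.shiftRight t 16 = t / 65536 := fun t => Nat.shiftRight_eq_div_pow t 16
  have l3 : ∀ t, Nat.shiftRight t 32 = t / 4294967296 := fun t => Nat.shiftRight_eq_div_pow t 32
  rw [l1, l1, l2, l3, cj_iff, Nat.blt_eq] at H
  have v0 : v = 0 := by have := H.1; omega
  have e1 : jcnt e s u cnt % 65536 = FA.card := by omega
  have e2 : jcnt e s u cnt / 65536 % 65536 = FB.card := by omega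
  have e3 : jcnt e s u cnt / 4294967296 = FZ.card := by omega
  rw [e1, e2, e3] at H
  replace h2 := h2 v0
  have inj : Set.InjOn (fun j => k (64 * (j + 1))) (range cnt : Set ℕ) := fun j hj j' hj' hk => by
    have := h.inj _ _ (ev j (by simpa using hj)) (ev j' (by simpa using hj')) hk
    omega
  set S : Set D := (fun j => k (64 * (j + 1))) '' FA with hS
  have mem : ∀ y, EV n y → inS s y = true → k y ∈ S := fun y hy hs => by
    obtain ⟨j, hj, rfl⟩ := ev' y hy
    exact ⟨j, by simp [hA, hj, hs], rfl⟩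
  have mem' : ∀ z ∈ S, ∃ j < cnt, inS s (64 * (j + 1)) = true ∧ z = k (64 * (j + 1)) := by
    rintro z ⟨j, hj, rfl⟩
    simp only [hA, coe_filter, mem_range, Set.mem_ofPred_eq] at hj
    exact ⟨j, hj.1, hj.2, rfl⟩
  have cl : ∀ z ∈ S, σ z ∈ S := fun z hz => by
    obtain ⟨j, hj, hs, rfl⟩ := mem' z hz
    rw [clf_step h (ev j hj) (h2 j hj hs).2.2]
    exact mem _ (h.nx _ (ev j hj)).1 (h2 j hj hs).2.1
  have cl' : ∀ z, σ z ∈ S ↔ z ∈ S := fun z => ⟨fun hz => by
    obtain ⟨i, hi⟩ := (Perm.sameCycle_apply_left.2 (Perm.SameCycle.refl σ z)).exists_nat_pow_eq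
    rw [← hi, Perm.coe_pow]
    exact Set.MapsTo.iterate cl i hz, cl z⟩
  have nS : S.ncard = FA.card := by
    rw [hS, Set.InjOn.ncard_image (inj.mono (coe_subset.2 (filter_subset _ _))),
      Set.ncard_coe_finset]
  have nB : FB.card ≤ inn α S := by
    rw [← Set.ncard_coe_finset, ← Set.InjOn.ncard_image
      (inj.mono (coe_subset.2 (filter_subset _ _)))]
    refine Set.ncard_le_ncard ?_
    rintro z ⟨j, hj, rfl⟩
    simp only [coe_filter, mem_range, Set.mem_ofPred_eq] at hj
    refine ⟨mem _ (ev j hj.1) hj.2.1, ?_, hC.fpf _⟩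
    rcases h.al _ (ev j hj.1) with a | a
    · omega
    · exact a.2.2 ▸ mem _ a.1 hj.2.2.2
  have nZ : (S \ N).ncard ≤ FZ.card := by
    rw [← Set.ncard_coe_finset]
    refine le_trans (Set.ncard_le_ncard ?_) (Set.ncard_image_le (f := fun j => k (64 * (j + 1))))
    rintro z ⟨hz, hn⟩
    obtain ⟨j, hj, hs, rfl⟩ := mem' z hz
    refine ⟨j, ?_, rfl⟩
    simp only [hZ, coe_filter, mem_range, Set.mem_ofPred_eq]
    exact ⟨hj, hs, Bool.eq_false_iff.2 fun a => hn ((h.ty _ (ev j hj)).1 a)⟩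
  have sum := clf_inn_bdy α S
  have H2 := H.2
  rw [sel_eq] at H2 hu
  by_cases x0 : x = 0
  · rw [if_pos (by simpa using x0)] at H2 hu
    simp only [cj_iff, Nat.blt_eq, Nat.ble_eq, Nat.mul_eq, Nat.add_eq] at H2
    have := hC.cls.j0 S cl' (Set.nonempty_of_ncard_ne_zero (by omega)) (fun z hz hn => by
      obtain ⟨j, hj, hs, rfl⟩ := mem' z hz
      have := (h2 j hj hs).1 ((h.ty _ (ev j hj)).2 hn)
      rw [← hu, clf_inS, Nat.zero_testBit] at this
      exact absurd this (by simp)) (by omega)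
    omega
  · rw [if_neg (by simpa using x0)] at H2 hu
    simp only [cj_iff, Nat.blt_eq, Nat.ble_eq, Nat.mul_eq, Nat.add_eq] at H2
    have ex : EV n x := ⟨Nat.pos_of_ne_zero x0, H2.1.1, hx⟩
    have := hC.cls.j1 S (k x) cl' (mem x ex H2.1.2.1) ((h.ty x ex).1 H2.1.2.2) (fun z hz hn => by
      obtain ⟨j, hj, hs, rfl⟩ := mem' z hz
      refine clf_eorb h x 8 x 0 ex (Perm.SameCycle.refl _ _) (fun d _ hd => ?_) _ (ev j hj)
        (hu ▸ (h2 j hj hs).1 ((h.ty _ (ev j hj)).2 hn))
      rw [clf_inS, Nat.zero_testBit] at hd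
      exact absurd hd (by simp)) (by omega)
    omega

theorem stCLF (hm : St_mirror) : St_clf := by
  intro D _ σ α N hC nd h e n g k hI
  refine ⟨fun K nK o c hK hs => ?_, fun c s H => ?_, fun w K fuel hw H => ?_⟩
  · refine hK.2 D _ α N ?_ _ (clf_emb hI.emb hK.1 hs)
    split_ifs
    exacts [hm D σ α N hC, hC]
  · refine clf_jlf hC hI.emb hI.n1 hI.n3 ?_ H
    change 64 ∣ _ <<< 6
    rw [Nat.shiftLeft_eq]; exact Dvd.intro_left _ rfl
  · exact clf_edeg hI.emb hw K fuel w 0 hw rfl (fun i a b => by omega) H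

end Pool.Agent.Lib.G6
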