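import Pool.Agent.Lib.G6.Blue
import Pool.Agent.Lib.G6.AMir

set_option autoImplicit false

/-! The discharging argument. -/

namespace Pool.Agent.Lib.G6

open Equiv Finset
open Pool.Agent.Lib.MP_bfaad3_co (frc sel cyc comp conn Gen0 perm_cyc_sum perm_period_eq)

theorem dis_frc {β : Type} (e : ℕ) (k : ℕ → β) : frc e k = k e := by cases e <;> rfl

theorem dis_sel {β : Type} (c : Bool) (t f : β) : sel c t f = if c = true then t else f := by
  cases c <;> rfl

theorem dis_walk0 (w : W) : walk 0 w 0 = 0 := by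
  induction w with
  | e => rfl
  | a w ih => exact ih
  | s w ih => exact ih
  | i w ih => exact ih

theorem dis_clamp (u v : ℕ) : clamp u v % 16 ≤ u := by
  unfold clamp
  split_ifs with h
  · exact h
  · exact Nat.zero_le _

theorem dis_root {D : Type} (σ α : Perm D) (N : Set D) (P : Prog) (x : D) :
    run σ α N P x % 16 ≤ evMax 0 P 0 0 := by
  cases P with
  | ret v =>
    change v % 16 ≤ frc (v &&& (2 ^ 4 - 1)) fun l => sel (Nat.ble l 0) 0 l
    rw [dis_frc, dis_sel, Nat.and_two_pow_sub_one_eq_mod]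
    split_ifs with h
    · exact Nat.le_of_ble_eq_true h
    · exact le_rfl
  | askV w a u y n =>
    refine (dis_clamp u _).trans ?_
    change u ≤ sel (Nat.ble u 0) 0 (frc (walk 0 w 0) fun x => sel (Nat.beq x 0) u _)
    rw [dis_walk0, dis_frc, dis_sel]
    split_ifs with h
    · exact Nat.le_of_ble_eq_true h
    · exact le_rfl
  | askF w a u y n =>
    refine (dis_clamp u _).trans ?_
    change u ≤ sel (Nat.ble u 0) 0 (frc (walk 0 w 0) fun x => sel (Nat.beq x 0) u _)
    rw [dis_walk0, dis_frc, dis_sel]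
    split_ifs with h
    · exact Nat.le_of_ble_eq_true h
    · exact le_rfl

theorem dis_mono (R : Rule) (h : ∀ l < 15, byt R.am0 l ≤ byt R.am0 (l + 1)) {a b : ℕ}
    (hab : a ≤ b) (hb : b ≤ 15) : byt R.am0 a ≤ byt R.am0 b := by
  induction b, hab using Nat.le_induction with
  | base => exact le_rfl
  | succ k hk ih => exact (ih (by omega)).trans (h k (by omega))

theorem dis_amt3 (R : Rule) (hR : RuleOK R) {D : Type} (σ α : Perm D) (N : Set D) (x : D) :
    amt R σ α N 3 x ≤ 12 := by
  obtain ⟨h1, -, -, -, -, -, -, -, h9, -⟩ := hR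
  have e1 : amt R σ α N 3 x = byt R.am0 (run σ α N R.s3 x % 16) := by
    unfold amt
    rw [if_neg (fun h => by omega), if_neg (fun h => by omega)]
    rfl
  have e2 := dis_root σ α N R.s3 x
  have e3 : run σ α N R.s3 x % 16 < 16 := Nat.mod_lt _ (by norm_num)
  have e4 : run σ α N R.s3 x % 16 ≤ mn 15 (evMax 0 R.s3 0 0) ∧ mn 15 (evMax 0 R.s3 0 0) ≤ 15 := by
    unfold mn
    rw [dis_sel]
    split_ifs with h
    · omega
    · have : ¬ 15 ≤ evMax 0 R.s3 0 0 := fun h' => h (Nat.ble_eq_true_of_le h')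
      omega
  rw [e1]
  exact (dis_mono R h1 e4.1 e4.2).trans h9

section patterns

variable (R : Rule) {D : Type} [Fintype D] (σ α : Perm D) (N : Set D)

theorem dis_facts_pow (i : ℕ) (x : D) (h : Fact R σ α N i x) : Facts R σ α N (2 ^ i) x := by
  intro j hj
  rw [Nat.testBit_two_pow, decide_eq_true_eq] at hj
  exact hj ▸ h

theorem dis_facts_cls (a : ℕ) (ha : a < 2 ^ 22) (x : D) (h : a.testBit (fc σ α N x) = false) :
    Facts R σ α N (a <<< 70) x := by
  intro i hi
  rw [Nat.testBit_shiftLeft, Bool.and_eq_true, decide_eq_true_eq] at hi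
  have h2 : i - 70 < 22 := by
    by_contra hc
    have : a < 2 ^ (i - 70) := lt_of_lt_of_le ha (Nat.pow_le_pow_right (by norm_num) (by omega))
    rw [Nat.testBit_lt_two_pow this] at hi
    exact absurd hi.2 (by simp)
  unfold Fact
  rw [if_neg (by omega), if_pos (by omega)]
  intro e
  have : i - 70 = fc σ α N x := by omega
  rw [this, h] at hi
  exact absurd hi.2 (by simp)

theorem dis_last (s : ℕ) (hs : s < 64) (x : D) (h : Fact R σ α N (s + 64) x) :
    Holds R σ α N (4 + 8 * (s + 64 * 1)) x 0 := by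
  refine Holds.t _ x 0 (by omega) ?_ ?_
  · have e : tstA (4 + 8 * (s + 64 * 1)) = 2 ^ (s + 64) := by
      change ((4 + 8 * (s + 64 * 1)) >>> 9 &&& (2 ^ 22 - 1)) <<<
        (((4 + 8 * (s + 64 * 1)) >>> 3 &&& (2 ^ 6 - 1)) + 64) = _
      rw [Nat.and_two_pow_sub_one_eq_mod, Nat.and_two_pow_sub_one_eq_mod, Nat.shiftRight_eq_div_pow,
        Nat.shiftRight_eq_div_pow, Nat.shiftLeft_eq]
      have e1 : (4 + 8 * (s + 64 * 1)) / 2 ^ 9 % 2 ^ 22 = 1 := by omega
      have e2 : (4 + 8 * (s + 64 * 1)) / 2 ^ 3 % 2 ^ 6 = s := by omega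
      rw [e1, e2, one_mul]
    rw [e]
    exact dis_facts_pow R σ α N _ x h
  · have e : (4 + 8 * (s + 64 * 1)) / 2 ^ 31 = 0 := by omega
    rw [e]
    exact Holds.fin 0 x rfl

theorem dis_cls (a : ℕ) (ha : a < 2 ^ 22) (c : ℕ) (x : D) (h : a.testBit (fc σ α N x) = false)
    (hc : Holds R σ α N c x 0) : Holds R σ α N (7 + 8 * (a + 2 ^ 22 * c)) x 0 := by
  refine Holds.f _ x 0 (by omega) ?_ ?_
  · have e : tstF (7 + 8 * (a + 2 ^ 22 * c)) = a <<< 70 := by
      change ((7 + 8 * (a + 2 ^ 22 * c)) >>> 3 &&& (2 ^ 22 - 1)) <<< 70 = _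
      rw [Nat.and_two_pow_sub_one_eq_mod, Nat.shiftRight_eq_div_pow]
      have e1 : (7 + 8 * (a + 2 ^ 22 * c)) / 2 ^ 3 % 2 ^ 22 = a := by omega
      rw [e1]
    rw [e]
    exact dis_facts_cls R σ α N a ha x h
  · have e : (7 + 8 * (a + 2 ^ 22 * c)) / 2 ^ 25 = c := by omega
    rw [e]
    exact hc

theorem dis_pV (x : D) (h1 : vt σ N x ≠ 5) (h2 : NegV R σ α N x) : Holds R σ α N pV x 0 := by
  refine Holds.v _ x 0 (by decide) ?_ ?_
  · have e : tstV pV = 2 ^ 69 := by decide
    rw [e]
    refine dis_facts_pow R σ α N _ x ?_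
    unfold Fact
    rw [if_pos (by norm_num)]
    omega
  · have e : pV / 2 ^ 9 = 4 + 8 * (60 + 64 * 1) := by decide
    rw [e]
    refine dis_last R σ α N 60 (by norm_num) x ?_
    unfold Fact
    simpa using h2

theorem dis_pF (hw : R.wc < 2 ^ 16) (x : D) (h1 : R.wc.testBit (fc σ α N x) = false)
    (h2 : NegF R σ α N x) : Holds R σ α N (pF R) x 0 := by
  refine dis_cls R σ α N R.wc (by omega) _ x h1 (dis_last R σ α N 61 (by norm_num) x ?_)
  unfold Fact
  simpa using h2

theorem dis_pW (hw : R.wc < 2 ^ 16) (x : D) (h1 : R.wc.testBit (fc σ α N x) = true)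
    (h2 : NegW R σ α N x) : Holds R σ α N (pW R) x 0 := by
  refine dis_cls R σ α N (4194303 - R.wc) (by omega) _ x ?_
    (dis_last R σ α N 62 (by norm_num) x ?_)
  · have e : 4194303 - R.wc = 2 ^ 22 - (R.wc + 1) := by omega
    rw [e, Nat.testBit_two_pow_sub_succ (by omega), h1]
    simp
  · unfold Fact
    simpa using h2

theorem dis_ini (x : D) (h : Facts R σ α N INI x) (h21 : fc σ α N x < 21) : fc σ α N x < 16 := by
  by_contra hc
  have h1 : INI.testBit (fc σ α N x + 70) = true := by
    have h16 : 16 ≤ fc σ α N x := by omega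
    generalize fc σ α N x = j at *
    interval_cases j <;> decide
  have h2 := h _ h1
  unfold Fact at h2
  rw [if_neg (by omega), if_pos (by omega)] at h2
  exact h2 rfl

end patterns

section orbits

variable {D : Type} [Fintype D]

theorem dis_deg_pos (p : Perm D) (x : D) : 0 < deg p x :=
  Function.minimalPeriod_pos_of_mem_periodicPts (p.injective.mem_periodicPts x)

open Classical in
theorem dis_unit (p : Perm D) (z : D) :
    ∑ x, (if p.SameCycle x z then (1 : ℚ) else 0) / (deg p x : ℚ) = 1 := by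
  have h1 : ∀ x, (if p.SameCycle x z then (1 : ℚ) else 0) / (deg p x : ℚ) =
      if x ∈ orb p z then 1 / (deg p z : ℚ) else 0 := by
    intro x
    by_cases h : p.SameCycle x z
    · rw [if_pos h, if_pos (mem_orb.2 h.symm)]
      unfold deg
      rw [perm_period_eq p h]
    · rw [if_neg h, if_neg (fun h' => h (mem_orb.1 h').symm), zero_div]
  rw [Finset.sum_congr rfl fun x _ => h1 x, Finset.sum_ite_mem, Finset.univ_inter,
    Finset.sum_const, card_orb, nsmul_eq_mul]
  have : (deg p z : ℚ) ≠ 0 := by exact_mod_cast (dis_deg_pos p z).ne'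
  field_simp

open Classical in
theorem dis_orb_sum (p : Perm D) (g : D → ℕ) (x : D) :
    ∑ i ∈ range (deg p x), g ((p ^ i) x) = ∑ z, if p.SameCycle x z then g z else 0 := by
  rw [← Finset.sum_filter, ← sum_image (s := range (deg p x)) (g := fun i => (p ^ i) x) (f := g)
    (pow_injOn p x), ← orb_eq_image]
  congr

open Classical in
/-- averaging over cycles -/
theorem dis_avg {ι : Type} (p : Perm D) (s : Finset ι) (t : ι → D) (g : ι → ℕ) :
    ∑ x, ((∑ j ∈ s, if p.SameCycle x (t j) then g j else 0 : ℕ) : ℚ) / (deg p x : ℚ) =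
      ((∑ j ∈ s, g j : ℕ) : ℚ) := by
  push_cast
  simp only [Finset.sum_div]
  rw [Finset.sum_comm]
  refine Finset.sum_congr rfl fun j _ => ?_
  have h := congrArg (fun q => (g j : ℚ) * q) (dis_unit p (t j))
  simp only [Finset.mul_sum, mul_one] at h
  refine Eq.trans (Finset.sum_congr rfl fun x _ => ?_) h
  split_ifs <;> ring

theorem dis_shift (p : Perm D) (g : D → ℕ) (x : D) (j : ℕ) :
    ∑ i ∈ range (deg p x), g ((p ^ j) ((p ^ i) x)) = ∑ i ∈ range (deg p x), g ((p ^ i) x) := by
  classical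
  have hs : p.SameCycle x ((p ^ j) x) := ⟨j, by simp⟩
  have hd : deg p ((p ^ j) x) = deg p x := perm_period_eq p hs
  have e : ∀ i : ℕ, (p ^ j) ((p ^ i) x) = (p ^ i) ((p ^ j) x) := fun i => by
    rw [← Perm.mul_apply, ← Perm.mul_apply, ← pow_add, ← pow_add, add_comm]
  rw [Finset.sum_congr rfl fun i _ => by rw [e i], dis_orb_sum p g x, ← hd, dis_orb_sum p g]
  refine Finset.sum_congr rfl fun z _ => ?_
  by_cases h : p.SameCycle x z
  · rw [if_pos h, if_pos (hs.symm.trans h)]
  · rw [if_neg h, if_neg fun h' => h (hs.trans h')]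

theorem dis_window (p : Perm D) (g : D → ℕ) (x : D) (w b : ℕ)
    (h : ∀ i : ℕ, ∑ j ∈ range w, g ((p ^ j) ((p ^ i) x)) ≤ b) :
    w * ∑ i ∈ range (deg p x), g ((p ^ i) x) ≤ deg p x * b := by
  have h1 := Finset.sum_le_sum (s := range (deg p x)) fun i _ => h i
  rw [Finset.sum_comm, Finset.sum_congr rfl fun j _ => dis_shift p g x j, Finset.sum_const,
    Finset.sum_const, card_range, card_range, smul_eq_mul, smul_eq_mul] at h1
  exact h1

open Classical in
/-- the sum of the local inequalities -/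
theorem dis_total {ι : Type} (p : Perm D) (c : ℕ) (g : D → ℕ) (s : Finset ι) (t : ι → D)
    (a : ι → ℕ) (h : ∀ x, 72 + ∑ i ∈ range (deg p x), g ((p ^ i) x) ≤
      c * deg p x + ∑ j ∈ s, if p.SameCycle x (t j) then a j else 0) :
    72 * cyc p + ∑ x, g x ≤ c * Fintype.card D + ∑ j ∈ s, a j := by
  have h1 := dis_avg p s t a
  have h2 := dis_avg p Finset.univ id g
  have h3 := perm_cyc_sum p
  have h4 : ∀ x, 72 * ((1 : ℚ) / (Function.minimalPeriod p x : ℚ)) +
      ((∑ j, if p.SameCycle x (id j) then g j else 0 : ℕ) : ℚ) / (deg p x : ℚ) ≤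
      (c : ℚ) + ((∑ j ∈ s, if p.SameCycle x (t j) then a j else 0 : ℕ) : ℚ) / (deg p x : ℚ) := by
    intro x
    have h5 := h x
    rw [dis_orb_sum] at h5
    have hp : (0 : ℚ) < (deg p x : ℚ) := by exact_mod_cast dis_deg_pos p x
    have h6 : (72 : ℚ) + ((∑ j, if p.SameCycle x (id j) then g j else 0 : ℕ) : ℚ) ≤
        (c : ℚ) * (deg p x : ℚ) +
          ((∑ j ∈ s, if p.SameCycle x (t j) then a j else 0 : ℕ) : ℚ) := by
      exact_mod_cast h5
    change 72 * ((1 : ℚ) / (deg p x : ℚ)) + _ ≤ _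
    rw [mul_one_div, ← add_div, div_le_iff₀ hp, add_mul, div_mul_cancel₀ _ hp.ne']
    exact h6
  have h7 := Finset.sum_le_sum (s := Finset.univ) fun x _ => h4 x
  rw [Finset.sum_add_distrib, Finset.sum_add_distrib, h1, h2, ← Finset.mul_sum, ← h3,
    Finset.sum_const, nsmul_eq_mul, Finset.card_univ, mul_comm (Fintype.card D : ℚ)] at h7
  exact_mod_cast h7

theorem dis_cyc_inv (a : Perm D) (h1 : ∀ x, a (a x) = x) (h2 : ∀ x, a x ≠ x) :
    2 * cyc a = Fintype.card D := by
  have h3 := perm_cyc_sum a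
  have h4 : ∀ x, Function.minimalPeriod a x = 2 := fun x => by
    have : _root_.Fact (Nat.Prime 2) := ⟨Nat.prime_two⟩
    exact Function.minimalPeriod_eq_prime (h1 x) (h2 x)
  simp only [h4, Finset.sum_const, nsmul_eq_mul, Finset.card_univ] at h3
  have : (2 : ℚ) * (cyc a : ℚ) = (Fintype.card D : ℚ) := by
    rw [h3]
    push_cast
    ring
  exact_mod_cast this

end orbits

open Classical in
theorem dis_inn2 (R : Rule) {D : Type} [Fintype D] (σ α : Perm D) (N : Set D) (π : Perm D)
    (b : Bool) (x : D) : inn2 R σ α N π b x =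
      ∑ j ∈ (range 4 ×ˢ (univ : Finset D)).filter (fun j => (rte R σ α N j.1 j.2).2 = b),
        if π.SameCycle x (wr σ α (rte R σ α N j.1 j.2).1 j.2) then amt R σ α N j.1 j.2 else 0 := by
  unfold inn2
  rw [Finset.sum_filter, Finset.sum_product]
  refine Finset.sum_congr rfl fun k _ => Finset.sum_congr rfl fun y _ => ?_
  rw [ite_and]

theorem stDIS (hinv : St_inv) (_htab : St_tab) : St_dis := by
  intro R hR hI hV hF hW D _ σ α N hc
  classical
  have := Fintype.ofFinite D
  have iv := hinv D σ α N hc.cls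
  have a3 := dis_amt3 R hR σ α N
  obtain ⟨-, -, -, -, -, hwc, hww, hwb, -⟩ := hR
  have nV : ∀ x, ¬ NegV R σ α N x := by
    intro x hx
    by_cases h5 : vt σ N x = 5
    · have h6 : 6 ≤ deg σ x := by
        unfold vt at h5
        split_ifs at h5 with k0 k2 k3 k4 k5 <;> try omega
        have := hc.n2 x k0
        omega
      have h7 := Finset.sum_le_sum (s := range (deg σ x)) fun i _ => a3 ((σ ^ i) x)
      rw [Finset.sum_const, card_range, smul_eq_mul] at h7
      unfold NegV at hx
      omega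
    · exact hV D σ α N hc x 0 (dis_pV R σ α N x h5 hx)
  have fcp : ∀ x (i : ℕ), fc σ α N (((σ * α) ^ i) x) = fc σ α N x := by
    intro x i
    induction i with
    | zero => rfl
    | succ i ih =>
      rw [pow_succ', Perm.mul_apply, Perm.mul_apply, (iv _).2.2.2.2.2.2.2.1, ih]
  have nF : ∀ x, ¬ NegF R σ α N x := by
    intro x hx
    obtain ⟨-, -, -, -, -, hpos, -, -, -, h21, -, -, hfl⟩ := iv x
    have h16 := dis_ini R σ α N x (hI.2 D σ α N hc x) h21
    cases hb : R.wc.testBit (fc σ α N x)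
    · exact hF D σ α N hc x 0 (dis_pF R σ α N hwc x hb hx)
    · have h1 := dis_window (σ * α) (outF R σ α N) x R.ww (byt R.wb (fc σ α N x)) fun i => by
        by_contra hn
        refine hW D σ α N hc _ 0 (dis_pW R σ α N hwc (((σ * α) ^ i) x) (by rw [fcp, hb]) ?_)
        unfold NegW
        rw [fcp]
        exact not_le.1 hn
      change R.ww * ∑ i ∈ range (fln σ α x), outF R σ α N (((σ * α) ^ i) x) ≤
        fln σ α x * byt R.wb (fc σ α N x) at h1
      have h2 := hwb _ h16 hb
      unfold NegF at hx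
      generalize ∑ i ∈ range (fln σ α x), outF R σ α N (((σ * α) ^ i) x) = S at h1 hx
      have h3 : 72 + S ≤ 12 * fln σ α x := by
        split_ifs at h2 with h14
        · have h12 : 12 ≤ fln σ α x := by
            rcases hfl with h | h
            · rw [h14] at h
              have : fl 14 = 0 := by decide
              omega
            · exact h.2
          have h4 : R.ww * S ≤ R.ww * (6 * fln σ α x) := by
            refine h1.trans ((Nat.mul_le_mul_left _ h2).trans (le_of_eq (by ring)))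
          have := Nat.le_of_mul_le_mul_left h4 hww
          omega
        · have hL : fl (fc σ α N x) = fln σ α x := hfl.resolve_right fun h => h14 h.1
          rw [hL] at h2
          have h4 : R.ww * (72 + S) ≤ R.ww * (12 * fln σ α x) := by nlinarith
          exact Nat.le_of_mul_le_mul_left h4 hww
      omega
  have tV := dis_total σ 24 (amt R σ α N 3)
    ((range 4 ×ˢ (univ : Finset D)).filter fun j => (rte R σ α N j.1 j.2).2 = false)
    (fun j => wr σ α (rte R σ α N j.1 j.2).1 j.2) (fun j => amt R σ α N j.1 j.2) fun x => by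
      have h := not_lt.1 (nV x)
      rw [dis_inn2] at h
      exact h
  have tF := dis_total (σ * α) 12 (outF R σ α N)
    ((range 4 ×ˢ (univ : Finset D)).filter fun j => (rte R σ α N j.1 j.2).2 = true)
    (fun j => wr σ α (rte R σ α N j.1 j.2).1 j.2) (fun j => amt R σ α N j.1 j.2) fun x => by
      have h := not_lt.1 (nF x)
      rw [dis_inn2] at h
      exact h
  have hs := Finset.sum_filter_add_sum_filter_not (range 4 ×ˢ (univ : Finset D))
    (fun j => (rte R σ α N j.1 j.2).2 = true) fun j => amt R σ α N j.1 j.2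
  simp only [Bool.not_eq_true] at hs
  have ht : ∑ j ∈ range 4 ×ˢ (univ : Finset D), amt R σ α N j.1 j.2 =
      ∑ x, outF R σ α N x + ∑ x, amt R σ α N 3 x := by
    rw [Finset.sum_product]
    simp only [Finset.sum_range_succ, Finset.sum_range_zero, zero_add, outF,
      Finset.sum_add_distrib]
  have he := hc.cls.gen
  unfold Gen0 at he
  have ha := dis_cyc_inv α hc.cls.inv hc.fpf
  have hne : Nonempty D := by
    by_contra hn
    have : IsEmpty D := not_nonempty_iff.1 hn
    exact hc.ncol ⟨fun _ => 0, fun x => isEmptyElim x, fun x => isEmptyElim x,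
      fun x => isEmptyElim x, fun x => isEmptyElim x⟩
  have hcomp : 0 < comp σ α := by
    unfold comp
    have : Nonempty (Quotient (conn σ α)) := ⟨Quotient.mk _ hne.some⟩
    exact Nat.card_pos
  rw [Nat.card_eq_fintype_card] at he
  omega

end Pool.Agent.Lib.G6
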