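import Pool.Agent.Lib.G6.EOP1

set_option autoImplicit false

/-! Operations on embedded maps preserve the invariant of the overlap checker. -/

namespace Pool.Agent.Lib.G6

open Equiv

section

variable {D : Type} {σ α : Perm D} {N : Set D}

theorem eop_pow_add (σ : Perm D) (i j : ℕ) (x : D) : (σ ^ (i + j)) x = (σ ^ i) ((σ ^ j) x) := by
  rw [pow_add]
  rfl

theorem eop_cancel {i j : ℕ} {x y : D} (hij : i ≤ j) (h : (σ ^ i) x = (σ ^ j) y) :
    x = (σ ^ (j - i)) y := by
  apply (σ ^ i).injective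
  rw [h, ← eop_pow_add, show i + (j - i) = j by omega]

theorem eop_memN (hN : ∀ x, σ x ∈ N ↔ x ∈ N) (i : ℕ) (x : D) : (σ ^ i) x ∈ N ↔ x ∈ N := by
  induction i with
  | zero => simp
  | succ i ih => rw [pow_succ', Perm.mul_apply, hN, ih]

theorem eop_deg [Finite D] (σ : Perm D) (x : D) :
    0 < deg σ x ∧ (σ ^ deg σ x) x = x ∧ ∀ i, 0 < i → i < deg σ x → (σ ^ i) x ≠ x := by
  refine ⟨Function.minimalPeriod_pos_of_mem_periodicPts (σ.injective.mem_periodicPts x), ?_,
    fun i h0 hi h => ?_⟩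
  · rw [Perm.coe_pow]
    exact Function.isPeriodicPt_minimalPeriod σ x
  · rw [Perm.coe_pow] at h
    exact absurd (Function.IsPeriodicPt.minimalPeriod_le h0 h) (not_le.2 hi)

theorem eop_EV {n n' d : ℕ} (h : EV n d) (hn : n ≤ n') : EV n' d :=
  ⟨h.1, lt_of_lt_of_le h.2.1 hn, h.2.2⟩

theorem eop_split {n d : ℕ} (dn : 64 ∣ n) (h : EV (n + 64) d) : d = n ∨ EV n d := by
  unfold EV at *
  omega

theorem eop_split3 {n d : ℕ} (dn : 64 ∣ n) (h : EV (n + 192) d) :
    EV n d ∨ d = n ∨ d = n + 64 ∨ d = n + 128 := by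
  unfold EV at *
  omega

/-- the relation whose equivalence closure is connectedness -/
def eop_R (e n : ℕ) (x y : ℕ) : Prop := EV n x ∧ (y = enx e x ∨ (eal e x ≠ 0 ∧ y = eal e x))

theorem eop_con {e n : ℕ} {r : ℕ → ℕ → Prop} (hc : ECon e n)
    (h1 : ∀ x, EV n x → Relation.EqvGen r x (enx e x))
    (h2 : ∀ x, EV n x → eal e x ≠ 0 → Relation.EqvGen r x (eal e x)) (d : ℕ) (hd : EV n d) :
    Relation.EqvGen r 64 d := by
  have key : ∀ a b, Relation.EqvGen (eop_R e n) a b → Relation.EqvGen r a b := by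
    intro a b hab
    induction hab with
    | rel a b h =>
      obtain ⟨ha, rfl | ⟨h0, rfl⟩⟩ := h
      exacts [h1 a ha, h2 a ha h0]
    | refl a => exact .refl a
    | symm a b _ ih => exact ih.symm _ _
    | trans a b c _ _ ih1 ih2 => exact ih1.trans _ _ _ ih2
  exact key _ _ (hc d hd)

theorem eop_gg {nd n n' g : ℕ} {h k k' : ℕ → D} (hn : n ≤ n') (hk : ∀ d, EV n d → k' d = k d)
    (gg : ∀ d, Val nd d → gm g d = 0 ∨ (EV n (gm g d) ∧ k (gm g d) = h d)) :
    ∀ d, Val nd d → gm g d = 0 ∨ (EV n' (gm g d) ∧ k' (gm g d) = h d) := fun d hd =>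
  (gg d hd).imp id fun a => ⟨eop_EV a.1 hn, (hk _ a.1).trans a.2⟩

/-- the invariant without connectedness and images -/
structure eop_P (σ α : Perm D) (N : Set D) (e n : ℕ) (k : ℕ → D) : Prop where
  emb : Emb σ α N e n k
  top : ∀ i, n ≤ i → e.testBit i = false
  zg : ∀ d, EV n d → eN e d = false → egap e d = false

theorem eop_P0 (k : ℕ → D) : eop_P σ α N 0 64 k := by
  have key : ∀ d, ¬ EV 64 d := by
    intro d
    unfold EV
    omega
  exact ⟨⟨fun d _ h => (key d h).elim, fun d h => (key d h).elim, fun d h => (key d h).elim,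
    fun d h => (key d h).elim, fun d h => (key d h).elim, fun d h => (key d h).elim⟩,
    fun i _ => Nat.zero_testBit i, fun d h => (key d h).elim⟩

theorem eop_lnkP (hinv : ∀ x, α (α x) = x) (fpf : ∀ x, α x ≠ x) {e n x y : ℕ} {k : ℕ → D}
    (P : eop_P σ α N e n k) (dn : 64 ∣ n) (hn : n ≤ 32768) (hx : EV n x) (hy : EV n y)
    (ax : eal e x = 0) (ay : eal e y = 0) (hk : k y = α (k x)) :
    eop_P σ α N (elnk e x y) n k ∧ eal (elnk e x y) x = y ∧
    ∀ d, EV n d → enx (elnk e x y) d = enx e d ∧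
      (eal e d ≠ 0 → eal (elnk e x y) d = eal e d) := by
  have hne : x ≠ y := by
    rintro rfl
    exact fpf _ hk.symm
  obtain ⟨l1, l2, l3, l4, l5⟩ := eop_elnk (e := e) (x := x) (y := y)
    (lt_of_lt_of_le hx.2.1 hn) (lt_of_lt_of_le hy.2.1 hn) hx.2.2 hy.2.2 hne ax ay
  have l6 : ∀ d, EV n d → eal e d ≠ 0 → eal (elnk e x y) d = eal e d := fun d hd h0 =>
    l3 d hd.2.2 (by rintro rfl; exact h0 ax) (by rintro rfl; exact h0 ay)
  refine ⟨⟨⟨P.emb.inj, fun d hd => ?_, fun d hd => ?_, fun d hd => ?_, fun d hd => ?_,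
    fun d hd => ?_⟩, l5 n dn hx.2.1 hy.2.1 P.top, fun d hd => ?_⟩, l1,
    fun d hd => ⟨(l4 d hd.2.2).1, l6 d hd⟩⟩
  · obtain ⟨a, b⟩ := P.emb.nx d hd
    rw [(l4 d hd.2.2).1, (l4 _ a.2.2).2.1]
    exact ⟨a, b⟩
  · obtain ⟨a, b⟩ := P.emb.pv d hd
    rw [(l4 d hd.2.2).2.1, (l4 _ a.2.2).1]
    exact ⟨a, b⟩
  · rw [(l4 d hd.2.2).1, (l4 d hd.2.2).2.2.1]
    exact P.emb.ret d hd
  · by_cases h1 : d = x
    · subst h1
      rw [l1, l2]
      exact Or.inr ⟨hy, rfl, hk⟩
    by_cases h2 : d = y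
    · subst h2
      rw [l2, l1, hk, hinv]
      exact Or.inr ⟨hx, rfl, rfl⟩
    rw [l3 d hd.2.2 h1 h2]
    rcases P.emb.al d hd with h | ⟨a, b, c⟩
    · exact Or.inl h
    · refine Or.inr ⟨a, ?_, c⟩
      rw [l6 _ a (by rw [b]; exact hd.1.ne'), b]
  · rw [(l4 d hd.2.2).2.2.2]
    exact P.emb.ty d hd
  · rw [(l4 d hd.2.2).2.2.2, (l4 d hd.2.2).2.2.1]
    exact P.zg d hd

/-- the old darts when new darts on a new vertex are added -/
theorem eop_old {e e' n n' hi : ℕ} {k k' : ℕ → D} {z : D} (P : eop_P σ α N e n k) (dn : 64 ∣ n)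
    (o : eop_Out e e' n hi) (hn : n ≤ n') (hk : ∀ d, EV n d → k' d = k d)
    (hz : ∀ d, EV n d → ¬ σ.SameCycle (k d) z)
    (hnew : ∀ d, EV n' d → EV n d ∨ σ.SameCycle z (k' d)) (d : ℕ) (hd : EV n d) :
    (EV n' (enx e' d) ∧ epv e' (enx e' d) = d) ∧ (EV n' (epv e' d) ∧ enx e' (epv e' d) = d) ∧
    (∃ j, 0 < j ∧ (σ ^ j) (k' d) = k' (enx e' d) ∧ (egap e' d = false → j = 1) ∧
      ∀ i d', 0 < i → i < j → EV n' d' → (σ ^ i) (k' d) ≠ k' d') ∧
    (eal e' d = 0 ∨
      (EV n' (eal e' d) ∧ eal e' (eal e' d) = d ∧ k' (eal e' d) = α (k' d))) ∧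
    (eN e' d = true ↔ k' d ∈ N) ∧ (eN e' d = false → egap e' d = false) ∧
    ∀ d', EV n' d' → k' d = k' d' → d = d' := by
  have f : ∀ x, EV n x → enx e' x = enx e x ∧ epv e' x = epv e x ∧ eal e' x = eal e x ∧
      egap e' x = egap e x ∧ eN e' x = eN e x := by
    rintro x ⟨x1, x2, x3⟩
    exact ⟨o.enx (by omega), o.epv (by omega), o.eal (by omega), o.egap (by omega),
      o.eN (by omega)⟩
  obtain ⟨f1, f2, f3, f4, f5⟩ := f d hd
  obtain ⟨a1, a2⟩ := P.emb.nx d hd
  obtain ⟨b1, b2⟩ := P.emb.pv d hd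
  rw [f1, f2, f3, f4, f5, (f _ a1).2.1, (f _ b1).1, hk d hd, hk _ a1]
  refine ⟨⟨eop_EV a1 hn, a2⟩, ⟨eop_EV b1 hn, b2⟩, ?_, ?_, P.emb.ty d hd, P.zg d hd,
    fun d' hd' h => ?_⟩
  · obtain ⟨j, j1, j2, j3, j4⟩ := P.emb.ret d hd
    refine ⟨j, j1, j2, j3, fun i d' i1 i2 hd' h => ?_⟩
    rcases hnew d' hd' with h' | h'
    · rw [hk d' h'] at h
      exact j4 i d' i1 i2 h' h
    · refine hz d hd (Perm.SameCycle.trans ?_ h'.symm)
      exact ⟨i, by rw [zpow_natCast]; exact h⟩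
  · rcases P.emb.al d hd with h | ⟨a, b, c⟩
    · exact Or.inl h
    · refine Or.inr ⟨eop_EV a hn, ?_, ?_⟩
      · rw [(f _ a).2.2.1, b]
      · rw [hk _ a, c]
  · rcases hnew d' hd' with h' | h'
    · rw [hk d' h'] at h
      exact P.emb.inj d d' hd h' h
    · rw [← h] at h'
      exact (hz d hd h'.symm).elim

theorem eop_newN [Finite D] {e n : ℕ} {k : ℕ → D} {z : D} (P : eop_P σ α N e n k) (dn : 64 ∣ n)
    (n0 : 0 < n) (hn : n ≤ 32000) (zN : z ∈ N) (hz : ∀ d, EV n d → ¬ σ.SameCycle (k d) z) :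
    eop_P σ α N (enewN e n) (n + 64) (Function.update k n z) ∧
      eop_Out e (enewN e n) n (n + 47) ∧ eal (enewN e n) n = 0 := by
  obtain ⟨o, w1, w2, w3, w4, w5⟩ := eop_new (a := n) (b := n) (c := 0) (f := 3) (by omega)
    (by omega) (by omega) (by omega) P.top
  change eop_Out e (enewN e n) n (n + 47) at o
  change enx (enewN e n) n = n at w1
  change epv (enewN e n) n = n at w2
  change eal (enewN e n) n = 0 at w3
  change egap (enewN e n) n = true at w4
  change eN (enewN e n) n = true at w5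
  have hk : ∀ d, EV n d → Function.update k n z d = k d := fun d hd =>
    Function.update_of_ne hd.2.1.ne _ _
  have hkn : Function.update k n z n = z := Function.update_self ..
  have old := eop_old (n' := n + 64) P dn o (by omega) hk hz fun d hd => by
    rcases eop_split dn hd with rfl | h
    · right
      rw [hkn]
    · exact Or.inl h
  have vn : EV (n + 64) n := ⟨n0, by omega, dn⟩
  refine ⟨⟨⟨fun d d' hd hd' h => ?_, fun d hd => ?_, fun d hd => ?_, fun d hd => ?_,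
    fun d hd => ?_, fun d hd => ?_⟩, o.top (by omega) (by omega) P.top, fun d hd => ?_⟩, o, w3⟩
  · rcases eop_split dn hd with rfl | h1
    · rcases eop_split dn hd' with rfl | h2
      · rfl
      · exact ((old d' h2).2.2.2.2.2.2 d hd h.symm).symm
    · exact (old d h1).2.2.2.2.2.2 d' hd' h
  · rcases eop_split dn hd with rfl | h1
    · rw [w1, w2]
      exact ⟨vn, rfl⟩
    · exact (old d h1).1
  · rcases eop_split dn hd with rfl | h1
    · rw [w2, w1]
      exact ⟨vn, rfl⟩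
    · exact (old d h1).2.1
  · rcases eop_split dn hd with rfl | h1
    · obtain ⟨g1, g2, g3⟩ := eop_deg σ z
      rw [w1, w4, hkn]
      refine ⟨deg σ z, g1, g2, by simp, fun i d' i1 i2 hd' h => ?_⟩
      rcases eop_split dn hd' with rfl | h2
      · rw [hkn] at h
        exact g3 i i1 i2 h
      · rw [hk d' h2] at h
        exact hz d' h2 (Perm.SameCycle.symm ⟨i, by rw [zpow_natCast]; exact h⟩)
    · exact (old d h1).2.2.1
  · rcases eop_split dn hd with rfl | h1
    · exact Or.inl w3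
    · exact (old d h1).2.2.2.1
  · rcases eop_split dn hd with rfl | h1
    · rw [w5, hkn]
      exact ⟨fun _ => zN, fun _ => rfl⟩
    · exact (old d h1).2.2.2.2.1
  · rcases eop_split dn hd with rfl | h1
    · rw [w5]
      simp
    · exact (old d h1).2.2.2.2.2.1

theorem eop_newZ [Finite D] (hN : ∀ x, σ x ∈ N ↔ x ∈ N) {e n : ℕ} {k : ℕ → D} {z : D}
    (P : eop_P σ α N e n k) (dn : 64 ∣ n) (n0 : 0 < n) (hn : n ≤ 32000) (zN : z ∉ N)
    (z3 : deg σ z = 3) (hz : ∀ d, EV n d → ¬ σ.SameCycle (k d) z) :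
    ∃ k', (∀ d, EV n d → k' d = k d) ∧ k' n = z ∧ eop_P σ α N (enewZ e n) (n + 192) k' ∧
      eop_Out e (enewZ e n) n (n + 175) ∧ eal (enewZ e n) n = 0 ∧
      enx (enewZ e n) n = n + 64 ∧ enx (enewZ e n) (n + 64) = n + 128 := by
  obtain ⟨o, a1, a2, a3, b1, b2, b3, w⟩ := eop_enewZ hn P.top
  obtain ⟨-, g2, g3⟩ := eop_deg σ z
  rw [z3] at g2 g3
  have s3 : σ (σ (σ z)) = z := by simpa [pow_succ] using g2
  have s1 : σ z ≠ z := by simpa using g3 1 (by omega) (by omega)
  have s2 : σ (σ z) ≠ z := by simpa [pow_succ] using g3 2 (by omega) (by omega)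
  have s4 : σ (σ z) ≠ σ z := fun h => s1 (σ.injective h)
  obtain ⟨k', hk, k1, k2, k3⟩ : ∃ k' : ℕ → D, (∀ d, EV n d → k' d = k d) ∧ k' n = z ∧
      k' (n + 64) = σ z ∧ k' (n + 128) = σ (σ z) := by
    refine ⟨fun d => if d = n then z else if d = n + 64 then σ z else if d = n + 128 then σ (σ z)
      else k d, fun d hd => ?_, by simp, by simp, by simp⟩
    have := hd.2.1
    beta_reduce
    rw [if_neg (by omega), if_neg (by omega), if_neg (by omega)]
  have old := eop_old (n' := n + 192) P dn o (by omega) hk hz fun d hd => by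
    rcases eop_split3 dn hd with h | rfl | rfl | rfl
    · exact Or.inl h
    · right
      rw [k1]
    · right
      rw [k2]
      exact ⟨1, by simp⟩
    · right
      rw [k3]
      exact ⟨2, by simp [zpow_ofNat, pow_succ]⟩
  have v1 : EV (n + 192) n := ⟨n0, by omega, dn⟩
  have v2 : EV (n + 192) (n + 64) := ⟨by omega, by omega, by omega⟩
  have v3 : EV (n + 192) (n + 128) := ⟨by omega, by omega, by omega⟩
  have nN1 : σ z ∉ N := by rwa [hN]
  have nN2 : σ (σ z) ∉ N := by rwa [hN]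
  refine ⟨k', hk, k1, ⟨⟨fun d d' hd hd' h => ?_, fun d hd => ?_, fun d hd => ?_, fun d hd => ?_,
    fun d hd => ?_, fun d hd => ?_⟩, o.top (by omega) (by omega) P.top, fun d hd => ?_⟩, o,
    (w n (Or.inl rfl)).1, a1, a2⟩
  · rcases eop_split3 dn hd with h1 | h1
    · exact (old d h1).2.2.2.2.2.2 d' hd' h
    rcases eop_split3 dn hd' with h2 | h2
    · exact ((old d' h2).2.2.2.2.2.2 d hd h.symm).symm
    rcases h1 with rfl | rfl | rfl <;> rcases h2 with h2 | h2 | h2 <;> rw [h2] at h ⊢ <;>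
      simp only [k1, k2, k3] at h
    exacts [(s1 h.symm).elim, (s2 h.symm).elim, (s1 h).elim, (s4 h.symm).elim, (s2 h).elim,
      (s4 h).elim]
  · rcases eop_split3 dn hd with h1 | rfl | rfl | rfl
    · exact (old d h1).1
    · rw [a1, b2]
      exact ⟨v2, rfl⟩
    · rw [a2, b3]
      exact ⟨v3, rfl⟩
    · rw [a3, b1]
      exact ⟨v1, rfl⟩
  · rcases eop_split3 dn hd with h1 | rfl | rfl | rfl
    · exact (old d h1).2.1
    · rw [b1, a3]
      exact ⟨v3, rfl⟩
    · rw [b2, a1]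
      exact ⟨v1, rfl⟩
    · rw [b3, a2]
      exact ⟨v2, rfl⟩
  · rcases eop_split3 dn hd with h1 | h1
    · exact (old d h1).2.2.1
    refine ⟨1, one_pos, ?_, fun _ => rfl, fun i d' i1 i2 => by omega⟩
    rcases h1 with rfl | rfl | rfl
    · rw [a1, k1, k2, pow_one]
    · rw [a2, k2, k3, pow_one]
    · rw [a3, k3, k1, pow_one, s3]
  · rcases eop_split3 dn hd with h1 | h1
    · exact (old d h1).2.2.2.1
    · exact Or.inl (w d h1).1
  · rcases eop_split3 dn hd with h1 | h1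
    · exact (old d h1).2.2.2.2.1
    rw [(w d h1).2.2]
    rcases h1 with rfl | rfl | rfl
    · simp [k1, zN]
    · simp [k2, nN1]
    · simp [k3, nN2]
  · rcases eop_split3 dn hd with h1 | h1
    · exact (old d h1).2.2.2.2.2.1
    · exact fun _ => (w d h1).2.1

/-- inserting a dart, from the description of the fields -/
theorem eop_insA (hN : ∀ x, σ x ∈ N ↔ x ∈ N) {nd e e' n g u i : ℕ} {h k : ℕ → D}
    (C : CInv σ α N nd h e n g k) (hn : n ≤ 32000) (hu : EV n u) (gu : egap e u = true)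
    (i0 : 0 < i) (hi : ∀ i' d', 0 < i' → i' ≤ i → EV n d' → (σ ^ i') (k u) ≠ k d')
    (a1 : enx e' u = n) (a2 : enx e' n = enx e u) (b1 : epv e' (enx e u) = n) (b2 : epv e' n = u)
    (c1 : eal e' n = 0) (c2 : egap e' n = false → (σ ^ (i + 1)) (k u) = k (enx e u))
    (c3 : eN e' n = true) (c4 : egap e' u = false → i = 1)
    (f : ∀ d, EV n d → (d ≠ u → enx e' d = enx e d) ∧ (d ≠ enx e u → epv e' d = epv e d) ∧
      eal e' d = eal e d ∧ (d ≠ u → egap e' d = egap e d) ∧ eN e' d = eN e d)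
    (top : ∀ j, n + 64 ≤ j → e'.testBit j = false) :
    CInv σ α N nd h e' (n + 64) g (Function.update k n ((σ ^ i) (k u))) := by
  have dn := C.n1
  have hk : ∀ d, EV n d → Function.update k n ((σ ^ i) (k u)) d = k d := fun d hd =>
    Function.update_of_ne hd.2.1.ne _ _
  have hkn : Function.update k n ((σ ^ i) (k u)) n = (σ ^ i) (k u) := Function.update_self ..
  generalize Function.update k n ((σ ^ i) (k u)) = k' at hk hkn
  have vn : EV (n + 64) n := ⟨by have := C.n2; omega, by omega, dn⟩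
  have up : ∀ {d}, EV n d → EV (n + 64) d := fun hd => eop_EV hd (by omega)
  obtain ⟨y1, y2⟩ := C.emb.nx u hu
  have uN : eN e u = true := by
    by_contra hc
    rw [C.zg u hu (by simpa using hc)] at gu
    exact Bool.false_ne_true gu
  refine ⟨⟨fun d d' hd hd' hh => ?_, fun d hd => ?_, fun d hd => ?_, fun d hd => ?_,
    fun d hd => ?_, fun d hd => ?_⟩, by omega, by have := C.n2; omega, by omega, top, ?_,
    fun d hd => ?_, eop_gg (by omega) hk C.gg⟩
  · rcases eop_split dn hd with rfl | h1 <;> rcases eop_split dn hd' with h2 | h2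
    · exact h2.symm
    · rw [hkn, hk _ h2] at hh
      exact (hi i d' i0 le_rfl h2 hh).elim
    · rw [h2, hkn, hk _ h1] at hh
      exact (hi i d i0 le_rfl h1 hh.symm).elim
    · rw [hk _ h1, hk _ h2] at hh
      exact C.emb.inj d d' h1 h2 hh
  · rcases eop_split dn hd with rfl | h1
    · rw [a2, b1]
      exact ⟨up y1, rfl⟩
    by_cases hdu : d = u
    · rw [hdu, a1, b2]
      exact ⟨vn, rfl⟩
    obtain ⟨x1, x2⟩ := C.emb.nx d h1
    rw [(f d h1).1 hdu, (f _ x1).2.1 fun hc => hdu (by rw [← x2, hc, y2])]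
    exact ⟨up x1, x2⟩
  · rcases eop_split dn hd with rfl | h1
    · rw [b2, a1]
      exact ⟨up hu, rfl⟩
    by_cases hdu : d = enx e u
    · rw [hdu, b1, a2]
      exact ⟨vn, rfl⟩
    obtain ⟨x1, x2⟩ := C.emb.pv d h1
    rw [(f d h1).2.1 hdu, (f _ x1).1 fun hc => hdu (by rw [← x2, hc])]
    exact ⟨up x1, x2⟩
  · rcases eop_split dn hd with rfl | h1
    · rw [a2, hkn, hk _ y1]
      by_cases hg : egap e' d = false
      · refine ⟨1, one_pos, ?_, fun _ => rfl, fun i d' i1 i2 => by omega⟩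
        rw [← eop_pow_add, add_comm, c2 hg]
      obtain ⟨j, j1, j2, -, j4⟩ := C.emb.ret u hu
      have hij : i < j := by
        by_contra hc
        exact hi j _ j1 (not_lt.1 hc) y1 j2
      refine ⟨j - i, by omega, ?_, fun hc => (hg hc).elim, fun i' d' i1 i2 hd' hh => ?_⟩
      · rw [← eop_pow_add, show j - i + i = j by omega, j2]
      rw [← eop_pow_add] at hh
      rcases eop_split dn hd' with rfl | h2
      · rw [hkn] at hh
        have := eop_cancel (by omega) hh.symm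
        rw [show i' + i - i = i' by omega] at this
        exact j4 i' u i1 (by omega) hu this.symm
      · rw [hk _ h2] at hh
        exact j4 _ d' (by omega) (by omega) h2 hh
    by_cases hdu : d = u
    · rw [hdu, a1, hkn, hk _ hu]
      refine ⟨i, i0, rfl, c4, fun i' d' i1 i2 hd' hh => ?_⟩
      rcases eop_split dn hd' with rfl | h2
      · rw [hkn] at hh
        exact hi (i - i') u (by omega) (by omega) hu (eop_cancel i2.le hh).symm
      · rw [hk _ h2] at hh
        exact hi i' d' i1 i2.le h2 hh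
    obtain ⟨j, j1, j2, j3, j4⟩ := C.emb.ret d h1
    rw [(f d h1).1 hdu, (f d h1).2.2.2.1 hdu, hk _ h1, hk _ (C.emb.nx d h1).1]
    refine ⟨j, j1, j2, j3, fun i' d' i1 i2 hd' hh => ?_⟩
    rcases eop_split dn hd' with rfl | h2
    · rw [hkn] at hh
      rcases lt_trichotomy i' i with hl | hl | hl
      · exact hi (i - i') d (by omega) (by omega) h1 (eop_cancel hl.le hh).symm
      · rw [hl] at hh
        exact hdu (C.emb.inj d u h1 hu ((σ ^ i).injective hh))
      · exact j4 (i' - i) u (by omega) (by omega) hu (eop_cancel hl.le hh.symm).symm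
    · rw [hk _ h2] at hh
      exact j4 i' d' i1 i2 h2 hh
  · rcases eop_split dn hd with rfl | h1
    · exact Or.inl c1
    rw [(f d h1).2.2.1]
    rcases C.emb.al d h1 with h0 | ⟨a, b, c⟩
    · exact Or.inl h0
    · refine Or.inr ⟨up a, ?_, ?_⟩
      · rw [(f _ a).2.2.1, b]
      · rw [hk _ a, hk _ h1, c]
  · rcases eop_split dn hd with rfl | h1
    · rw [c3, hkn, eop_memN hN]
      exact ⟨fun _ => (C.emb.ty u hu).1 uN, fun _ => rfl⟩
    · rw [(f d h1).2.2.2.2, hk _ h1]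
      exact C.emb.ty d h1
  · have r1 : Relation.EqvGen (eop_R e' (n + 64)) u n := .rel _ _ ⟨up hu, Or.inl a1.symm⟩
    have key : ∀ d, EV n d → Relation.EqvGen (eop_R e' (n + 64)) 64 d := by
      refine eop_con C.con (fun x hx => ?_) fun x hx h0 => ?_
      · by_cases hxu : x = u
        · rw [hxu]
          exact r1.trans _ _ _ (.rel _ _ ⟨vn, Or.inl a2.symm⟩)
        · exact .rel _ _ ⟨up hx, Or.inl ((f x hx).1 hxu).symm⟩
      · exact .rel _ _ ⟨up hx, Or.inr ⟨by rw [(f x hx).2.2.1]; exact h0, (f x hx).2.2.1.symm⟩⟩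
    intro d hd
    rcases eop_split dn hd with rfl | h1
    · exact (key u hu).trans _ _ _ r1
    · exact key d h1
  · rcases eop_split dn hd with rfl | h1
    · rw [c3]
      simp
    rw [(f d h1).2.2.2.2]
    by_cases hdu : d = u
    · rw [hdu, uN]
      simp
    · rw [(f d h1).2.2.2.1 hdu]
      exact C.zg d h1

theorem eop_g0 {nd n p : ℕ} {h k : ℕ → D} (hp : Val nd p) (hn : 128 ≤ n) (hk : k 64 = h p) :
    ∀ d, Val nd d → gm (Nat.shiftLeft 64 p) d = 0 ∨
      (EV n (gm (Nat.shiftLeft 64 p) d) ∧ k (gm (Nat.shiftLeft 64 p) d) = h d) := by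
  intro d hd
  have e0 : Nat.shiftLeft 64 p = put 0 p 64 := (Nat.zero_or _).symm
  have z : ∀ q, gm 0 q = 0 := fun q => eop_gm_eq (by omega) fun i _ => by simp
  rw [e0]
  by_cases hdp : d = p
  · rw [hdp, eop_put_gm (by omega) (z p)]
    exact Or.inr ⟨⟨by omega, by omega, dvd_rfl⟩, hk⟩
  · left
    rw [(eop_put_out15 0 p (v := 64) (by omega)).gm (by unfold Val at *; omega), z]

theorem eop_tog {nd e n g u : ℕ} {h k : ℕ → D} (C : CInv σ α N nd h e n g k) (hu : EV n u)
    (gu : egap e u = true) (hs : σ (k u) = k (enx e u)) : CInv σ α N nd h (etog e u) n g k := by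
  obtain ⟨o, t⟩ := eop_etog e u
  have dn := C.n1
  have f : ∀ d, EV n d → enx (etog e u) d = enx e d ∧ epv (etog e u) d = epv e d ∧
      eal (etog e u) d = eal e d ∧ (d ≠ u → egap (etog e u) d = egap e d) ∧
      eN (etog e u) d = eN e d := by
    rintro d ⟨d1, d2, d3⟩
    obtain ⟨u1, u2, u3⟩ := hu
    exact ⟨o.enx (by omega), o.epv (by omega), o.eal (by omega), fun _ => o.egap (by omega),
      o.eN (by omega)⟩
  refine ⟨⟨C.emb.inj, fun d hd => ?_, fun d hd => ?_, fun d hd => ?_, fun d hd => ?_,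
    fun d hd => ?_⟩, dn, C.n2, C.n3, o.top (by unfold EV at hu; omega) le_rfl C.top, ?_,
    fun d hd => ?_, C.gg⟩
  · obtain ⟨a, b⟩ := C.emb.nx d hd
    rw [(f d hd).1, (f _ a).2.1]
    exact ⟨a, b⟩
  · obtain ⟨a, b⟩ := C.emb.pv d hd
    rw [(f d hd).2.1, (f _ a).1]
    exact ⟨a, b⟩
  · rw [(f d hd).1]
    by_cases hdu : d = u
    · rw [hdu]
      exact ⟨1, one_pos, by rw [pow_one, hs], fun _ => rfl, fun i d' i1 i2 => by omega⟩
    · rw [(f d hd).2.2.2.1 hdu]
      exact C.emb.ret d hd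
  · rw [(f d hd).2.2.1]
    rcases C.emb.al d hd with h0 | ⟨a, b, c⟩
    · exact Or.inl h0
    · exact Or.inr ⟨a, by rw [(f _ a).2.2.1, b], c⟩
  · rw [(f d hd).2.2.2.2]
    exact C.emb.ty d hd
  · refine eop_con (r := eop_R (etog e u) n) C.con (fun x hx => ?_) fun x hx h0 => ?_
    · exact .rel _ _ ⟨hx, Or.inl (f x hx).1.symm⟩
    · exact .rel _ _ ⟨hx, Or.inr ⟨by rw [(f x hx).2.2.1]; exact h0, (f x hx).2.2.1.symm⟩⟩
  · rw [(f d hd).2.2.2.2]
    by_cases hdu : d = u
    · rw [hdu, t, gu]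
      simp
    · rw [(f d hd).2.2.2.1 hdu]
      exact C.zg d hd

/-- connectedness of the old darts after a new vertex is attached -/
theorem eop_att {e e' e'' n n' hi w : ℕ} (hc : ECon e n) (dn : 64 ∣ n) (hn : n ≤ n')
    (o : eop_Out e e' n hi) (hw : EV n w) (a : eal e'' w = n)
    (f : ∀ d, EV n' d → enx e'' d = enx e' d ∧ (eal e' d ≠ 0 → eal e'' d = eal e' d)) :
    (∀ d, EV n d → Relation.EqvGen (eop_R e'' n') 64 d) ∧
      Relation.EqvGen (eop_R e'' n') 64 n := by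
  have key : ∀ d, EV n d → Relation.EqvGen (eop_R e'' n') 64 d := by
    refine eop_con hc (fun x hx => ?_) fun x hx h0 => ?_
    · refine .rel _ _ ⟨eop_EV hx hn, Or.inl ?_⟩
      rw [(f x (eop_EV hx hn)).1, o.enx (by unfold EV at hx; omega)]
    · have e1 : eal e' x = eal e x := o.eal (by unfold EV at hx; omega)
      have e2 : eal e'' x = eal e x := by rw [(f x (eop_EV hx hn)).2 (by rwa [e1]), e1]
      exact .rel _ _ ⟨eop_EV hx hn, Or.inr ⟨by rwa [e2], e2.symm⟩⟩
  refine ⟨key, (key w hw).trans _ _ _ (.rel _ _ ⟨eop_EV hw hn, Or.inr ⟨?_, a.symm⟩⟩)⟩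
  rw [a]
  unfold EV at hw
  omega

end

theorem stEOP : St_eop := by
  intro D _ σ α N X nd h
  have hN := X.cls.nσ
  have no64 : ∀ d, ¬ EV 64 d := by
    intro d
    unfold EV
    omega
  refine ⟨fun p hp => ⟨fun hpN => ?_, fun hpN => ?_⟩, fun e n g k C => ?_⟩
  · obtain ⟨P, -, -⟩ := eop_newN (eop_P0 (σ := σ) (α := α) (N := N) h) dvd_rfl (by omega)
      (by omega) hpN fun d hd => (no64 d hd).elim
    refine ⟨_, P.emb, by omega, le_rfl, by omega, P.top, fun d hd => ?_, P.zg,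
      eop_g0 hp le_rfl (Function.update_self ..)⟩
    rw [show d = 64 by unfold EV at hd; omega]
    exact .refl _
  · obtain ⟨k', -, k1, P, -, -, a1, a2⟩ := eop_newZ hN (eop_P0 (σ := σ) (α := α) (N := N) h)
      dvd_rfl (by omega) (by omega) hpN (X.cls.z3 _ hpN) fun d hd => (no64 d hd).elim
    refine ⟨k', P.emb, by omega, by omega, by omega, P.top, fun d hd => ?_, P.zg,
      eop_g0 hp (by omega) k1⟩
    have r1 : Relation.EqvGen (eop_R (enewZ 0 64) 256) 64 128 :=
      .rel _ _ ⟨⟨by omega, by omega, by omega⟩, Or.inl a1.symm⟩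
    have r2 : Relation.EqvGen (eop_R (enewZ 0 64) 256) 128 192 :=
      .rel _ _ ⟨⟨by omega, by omega, by omega⟩, Or.inl a2.symm⟩
    rcases show d = 64 ∨ d = 128 ∨ d = 192 by unfold EV at hd; omega with rfl | rfl | rfl
    exacts [.refl _, r1, r1.trans _ _ _ r2]
  have P : eop_P σ α N e n k := ⟨C.emb, C.top, C.zg⟩
  have dn := C.n1
  have n2 := C.n2
  have n3 := C.n3
  refine ⟨fun q t hq ht g0 hk => ?_, fun x y hx hy ax ay hk => ?_,
    fun u hu gu hs => eop_tog C hu gu hs, fun hn u i hu gu i0 hi => ?_,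
    fun hn w hw aw hz => ⟨fun zN => ?_, fun zN => ?_⟩⟩
  · refine ⟨C.emb, dn, n2, n3, C.top, C.con, C.zg, fun d hd => ?_⟩
    have t1 : t < 32768 := lt_of_lt_of_le ht.2.1 n3
    by_cases hdq : d = q
    · rw [hdq, eop_put_gm t1 g0]
      exact Or.inr ⟨ht, hk⟩
    · rw [(eop_put_out15 g q t1).gm (by unfold Val at *; omega)]
      exact C.gg d hd
  · obtain ⟨Q, -, f⟩ := eop_lnkP X.cls.inv X.fpf P dn n3 hx hy ax ay hk
    refine ⟨Q.emb, dn, n2, n3, Q.top, ?_, Q.zg, C.gg⟩
    refine eop_con (r := eop_R (elnk e x y) n) C.con (fun z hz => ?_) fun z hz h0 => ?_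
    · exact .rel _ _ ⟨hz, Or.inl (f z hz).1.symm⟩
    · exact .rel _ _ ⟨hz, Or.inr ⟨by rw [(f z hz).2 h0]; exact h0, ((f z hz).2 h0).symm⟩⟩
  · have y1 := (C.emb.nx u hu).1
    obtain ⟨a1, a2, a3, a4, a5, a6, a7, a8, a9⟩ := eop_eins (f := 3) hn dn hu y1 (by omega) C.top
    refine ⟨?_, a5, fun d hd => (a8 d hd).2.2.1, fun i1 => ?_, fun hs => ?_⟩
    · refine eop_insA hN C hn hu gu i0 hi a1 a2 a3 a4 a5 (fun hc => ?_) a7 (fun hc => ?_)
        (fun d hd => ⟨(a8 d hd).1, (a8 d hd).2.1, (a8 d hd).2.2.1, fun _ => (a8 d hd).2.2.2.1,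
          (a8 d hd).2.2.2.2⟩) a9
      · rw [a6] at hc
        exact absurd hc (by decide)
      · rw [(a8 u hu).2.2.2.1, gu] at hc
        exact absurd hc (by decide)
    · obtain ⟨o, -⟩ := eop_etog e u
      have f : ∀ d, EV n d → enx (etog e u) d = enx e d ∧ epv (etog e u) d = epv e d ∧
          eal (etog e u) d = eal e d ∧ (d ≠ u → egap (etog e u) d = egap e d) ∧
          eN (etog e u) d = eN e d := by
        rintro d ⟨d1, d2, d3⟩
        obtain ⟨u1, u2, u3⟩ := hu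
        exact ⟨o.enx (by omega), o.epv (by omega), o.eal (by omega), fun _ => o.egap (by omega),
          o.eN (by omega)⟩
      obtain ⟨b1, b2, b3, b4, b5, b6, b7, b8, b9⟩ := eop_eins (e := etog e u) (f := 3) hn dn hu
        (by rw [(f u hu).1]; exact y1) (by omega)
        (o.top (by unfold EV at hu; omega) le_rfl C.top)
      rw [(f u hu).1] at b2 b3 b8
      have e1 : σ (k u) = (σ ^ i) (k u) := by rw [i1, pow_one]
      rw [e1]
      refine eop_insA hN C hn hu gu i0 hi b1 b2 b3 b4 b5 (fun hc => ?_) b7 (fun _ => i1)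
        (fun d hd => ⟨fun hdu => ?_, fun hdu => ?_, ?_, fun hdu => ?_, ?_⟩) b9
      · rw [b6] at hc
        exact absurd hc (by decide)
      · rw [(b8 d hd).1 hdu, (f d hd).1]
      · rw [(b8 d hd).2.1 hdu, (f d hd).2.1]
      · rw [(b8 d hd).2.2.1, (f d hd).2.2.1]
      · rw [(b8 d hd).2.2.2.1, (f d hd).2.2.2.1 hdu]
      · rw [(b8 d hd).2.2.2.2, (f d hd).2.2.2.2]
    · obtain ⟨b1, b2, b3, b4, b5, -, b7, b8, b9⟩ := eop_eins (f := 2) hn dn hu y1 (by omega) C.top
      refine eop_insA hN C hn hu gu i0 hi b1 b2 b3 b4 b5 (fun _ => hs) b7 (fun hc => ?_)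
        (fun d hd => ⟨(b8 d hd).1, (b8 d hd).2.1, (b8 d hd).2.2.1, fun _ => (b8 d hd).2.2.2.1,
          (b8 d hd).2.2.2.2⟩) b9
      rw [(b8 u hu).2.2.2.1, gu] at hc
      exact absurd hc (by decide)
  · obtain ⟨Q, o, a0⟩ := eop_newN P dn (by omega) hn zN hz
    have hk : ∀ d, EV n d → Function.update k n (α (k w)) d = k d := fun d hd =>
      Function.update_of_ne hd.2.1.ne _ _
    have hkn : Function.update k n (α (k w)) n = α (k w) := Function.update_self ..
    have vn : EV (n + 64) n := ⟨by omega, by omega, dn⟩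
    obtain ⟨Q', a, f⟩ := eop_lnkP (x := w) (y := n) X.cls.inv X.fpf Q (by omega) (by omega)
      (eop_EV hw (by omega)) vn (by rw [o.eal (by unfold EV at hw; omega), aw]) a0
      (by rw [hkn, hk w hw])
    obtain ⟨c1, c2⟩ := eop_att C.con dn (by omega) o hw a f
    refine ⟨_, hk, hkn, Q'.emb, by omega, by omega, by omega, Q'.top, fun d hd => ?_, Q'.zg,
      eop_gg (by omega) hk C.gg⟩
    rcases eop_split dn hd with rfl | h1
    exacts [c2, c1 d h1]
  · obtain ⟨k', hk, hkn, Q, o, a0, a1, a2⟩ := eop_newZ hN P dn (by omega) hn zN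
      (X.cls.z3 _ zN) hz
    have v1 : EV (n + 192) n := ⟨by omega, by omega, dn⟩
    have v2 : EV (n + 192) (n + 64) := ⟨by omega, by omega, by omega⟩
    obtain ⟨Q', a, f⟩ := eop_lnkP (x := w) (y := n) X.cls.inv X.fpf Q (by omega) (by omega)
      (eop_EV hw (by omega)) v1 (by rw [o.eal (by unfold EV at hw; omega), aw]) a0
      (by rw [hkn, hk w hw])
    obtain ⟨c1, c2⟩ := eop_att C.con dn (by omega) o hw a f
    have r1 : Relation.EqvGen (eop_R (elnk (enewZ e n) w n) (n + 192)) n (n + 64) :=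
      .rel _ _ ⟨v1, Or.inl (by rw [(f _ v1).1, a1])⟩
    have r2 : Relation.EqvGen (eop_R (elnk (enewZ e n) w n) (n + 192)) (n + 64) (n + 128) :=
      .rel _ _ ⟨v2, Or.inl (by rw [(f _ v2).1, a2])⟩
    refine ⟨k', hk, hkn, Q'.emb, by omega, by omega, by omega, Q'.top, fun d hd => ?_, Q'.zg,
      eop_gg (by omega) hk C.gg⟩
    rcases eop_split3 dn hd with h1 | rfl | rfl | rfl
    exacts [c1 d h1, c2, c2.trans _ _ _ r1, (c2.trans _ _ _ r1).trans _ _ _ r2]

end Pool.Agent.Lib.G6
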