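import Pool.Agent.Lib.G6.LV
import Pool.Agent.Lib.MP_bfaad3_co.PM1

set_option autoImplicit false

/-! Evaluation of rule programs in an incomplete map. -/

namespace Pool.Agent.Lib.G6

open Equiv
open Pool.Agent.Lib.MP_bfaad3_co (frc sel cj dj tb sb BT frc_eq sel_eq sb_iff cj_iff)

theorem ev_mn (a b : ℕ) : mn a b = min a b := by
  rw [mn, sel_eq]
  simp only [Nat.ble_eq]
  split_ifs <;> omega

theorem ev_vt {D : Type} (σ : Perm D) (N : Set D) (x : D) : vt σ N x < 6 := by
  unfold vt
  split_ifs <;> omega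

theorem ev_fc {D : Type} (σ α : Perm D) (N : Set D) (x : D) : fc σ α N x < 21 := by
  unfold fc
  split_ifs <;> omega

theorem ev_VM {i : ℕ} (hi : i < 6) : VM.testBit (64 + i) = true := by
  interval_cases i <;> decide

theorem ev_FM {i : ℕ} (hi : i < 21) : FM.testBit (70 + i) = true := by
  interval_cases i <;> decide

theorem ev_yes {t a i : ℕ} (ht : t.testBit i = false) (h : sb a t = true) :
    a.testBit i = false := by
  cases ha : a.testBit i
  · rfl
  · rw [(sb_iff _ _).1 h i ha] at ht
    exact absurd ht (by simp)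

theorem ev_no {t a msk i : ℕ} (ht : t.testBit i = false) (hm : msk.testBit i = true)
    (h : sb (Nat.xor a msk) t = true) : a.testBit i = true := by
  cases ha : a.testBit i
  · have : (a ^^^ msk).testBit i = true := by rw [Nat.testBit_xor, ha, hm]; rfl
    rw [(sb_iff _ _).1 h i this] at ht
    exact absurd ht (by simp)
  · rfl

theorem ev_cl1 (u v : ℕ) : clamp u v % 16 ≤ u := by
  unfold clamp
  split_ifs <;> omega

theorem ev_cl2 (u v : ℕ) : clamp u v % 16 ≤ v % 16 := by
  unfold clamp
  split_ifs <;> omega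

theorem ev_cl3 {u c v p r : ℕ} (hp : p ≠ 0) (h : p ≤ clamp (min u c) v % 16 ∧ v / 16 = r) :
    p ≤ clamp c (clamp u v) % 16 ∧ clamp u v / 16 = r := by
  obtain ⟨h1, h2⟩ := h
  have h3 : v % 16 ≤ min u c := by
    by_contra h3
    rw [clamp, if_neg h3] at h1
    omega
  rw [clamp, if_pos h3] at h1
  have h4 : clamp u v = v := by rw [clamp, if_pos (by omega)]
  rw [h4, clamp, if_pos (by omega)]
  exact ⟨h1, h2⟩

/-- one question, upper bound -/
theorem ev_max {t a msk i u b x vy vn : ℕ} {y n : ℕ → ℕ} (ht : t.testBit i = false)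
    (hm : msk.testBit i = true) (hy : ∀ b, b ≤ y b ∧ vy % 16 ≤ y b)
    (hn : ∀ b, b ≤ n b ∧ vn % 16 ≤ n b) (e : ℕ)
    (he : e = sel (Nat.ble u b) b (sel (Nat.beq x 0) u (sel (sb a t) (y b)
      (sel (sb (Nat.xor a msk) t) (n b) (frc (y b) n))))) :
    b ≤ e ∧ clamp u (if a.testBit i then vn else vy) % 16 ≤ e := by
  have h1 := ev_cl1 u (if a.testBit i then vn else vy)
  have h2 := ev_cl2 u (if a.testBit i then vn else vy)
  rw [sel_eq, sel_eq, sel_eq, sel_eq, frc_eq] at he
  simp only [Nat.ble_eq] at he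
  split_ifs at he with k1 k2 k3 k4
  · omega
  · omega
  · rw [ev_yes ht k3] at h2 ⊢
    have := hy b
    simp only [Bool.false_eq_true, if_false] at h2 ⊢
    omega
  · rw [ev_no ht hm k4] at h2 ⊢
    have := hn b
    simp only [if_true] at h2 ⊢
    omega
  · have h3 := hy b
    have h4 := hn (y b)
    refine ⟨by omega, h2.trans ?_⟩
    split_ifs <;> omega

/-- one question, lower bound -/
theorem ev_min {t a msk i u c x vy vn r : ℕ} {y n : ℕ → ℕ} (ht : t.testBit i = false)
    (hm : msk.testBit i = true)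
    (hy : ∀ c, y c < 16 ∧ (y c ≠ 0 → y c ≤ clamp c vy % 16 ∧ vy / 16 = r))
    (hn : ∀ c, n c < 16 ∧ (n c ≠ 0 → n c ≤ clamp c vn % 16 ∧ vn / 16 = r)) (e : ℕ)
    (he : e = sel (Nat.beq u 0) 0 (sel (Nat.beq x 0) 0 (sel (sb a t) (y (mn u c))
      (sel (sb (Nat.xor a msk) t) (n (mn u c))
        (frc (y (mn u c)) fun p => sel (Nat.beq p 0) 0 (frc (n (mn u c)) fun q => mn p q)))))) :
    e < 16 ∧ (e ≠ 0 → e ≤ clamp c (clamp u (if a.testBit i then vn else vy)) % 16 ∧
      clamp u (if a.testBit i then vn else vy) / 16 = r) := by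
  rw [sel_eq, sel_eq, sel_eq, sel_eq, frc_eq, sel_eq, frc_eq, ev_mn, ev_mn] at he
  have h3 := hy (min u c)
  have h4 := hn (min u c)
  split_ifs at he with k1 k2 k3 k4 k5
  · exact ⟨by omega, fun h => absurd he h⟩
  · exact ⟨by omega, fun h => absurd he h⟩
  · rw [ev_yes ht k3, he]
    simp only [Bool.false_eq_true, if_false]
    exact ⟨h3.1, fun h => ev_cl3 h (h3.2 h)⟩
  · rw [ev_no ht hm k4, he]
    simp only [if_true]
    exact ⟨h4.1, fun h => ev_cl3 h (h4.2 h)⟩
  · exact ⟨by omega, fun h => absurd he h⟩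
  · refine ⟨by omega, fun h => ?_⟩
    have h5 := h3.2 (by omega)
    have h6 := h4.2 (by omega)
    refine ev_cl3 h ?_
    split_ifs <;> omega

theorem stEV (hrp : St_rp) : St_ev := by
  intro R D _ σ α N hc m nd h hh
  have hr := hrp R D σ α N hc m nd h hh
  have hw : ∀ w d x, Rp nd h d x → Rp nd h (walk m w d) (wr σ α w x) :=
    fun w d x hd => (hr d x hd).2.2.2.2.2.1 w
  have hf : ∀ d x, Rp nd h d x → ∀ i, 64 ≤ i → i < 127 → m.testBit (d + i) = true →
      Fact R σ α N i x := fun d x hd => (hr d x hd).2.2.2.2.2.2.2.2.1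
  have hV : ∀ d x, Rp nd h d x → (Nat.shiftRight m d).testBit (64 + vt σ N x) = false := by
    intro d x hd
    have h1 := ev_vt σ N x
    cases hb : (Nat.shiftRight m d).testBit (64 + vt σ N x)
    · rfl
    · have h2 : m.testBit (d + (64 + vt σ N x)) = true := by
        rw [← Nat.testBit_shiftRight]
        exact hb
      have h3 := hf d x hd _ (by omega) (by omega) h2
      rw [Fact, if_pos (by omega)] at h3
      omega
  have hF : ∀ d x, Rp nd h d x → (Nat.shiftRight m d).testBit (70 + fc σ α N x) = false := by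
    intro d x hd
    have h1 := ev_fc σ α N x
    cases hb : (Nat.shiftRight m d).testBit (70 + fc σ α N x)
    · rfl
    · have h2 : m.testBit (d + (70 + fc σ α N x)) = true := by
        rw [← Nat.testBit_shiftRight]
        exact hb
      have h3 := hf d x hd _ (by omega) (by omega) h2
      rw [Fact, if_neg (by omega), if_pos (by omega)] at h3
      omega
  have hmax : ∀ P d x, Rp nd h d x → ∀ b,
      b ≤ evMax m P d b ∧ run σ α N P x % 16 ≤ evMax m P d b := by
    intro P
    induction P with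
    | ret v =>
      intro d x _ b
      have e : evMax m (.ret v) d b = frc (Nat.land v 15) fun l => sel (Nat.ble l b) b l := rfl
      have e2 : Nat.land v 15 = v % 16 := Nat.and_two_pow_sub_one_eq_mod v 4
      rw [e, frc_eq, sel_eq, e2, run]
      simp only [Nat.ble_eq]
      split_ifs <;> omega
    | askV w a u y n ihy ihn =>
      intro d x hd b
      rw [run]
      refine ev_max (x := walk m w d) (hV _ _ (hw w d x hd)) (ev_VM (ev_vt _ _ _))
        (ihy _ _ (hw w d x hd)) (ihn _ _ (hw w d x hd)) _ ?_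
      have e : evMax m (.askV w a u y n) d b = sel (Nat.ble u b) b (frc (walk m w d) fun x =>
        sel (Nat.beq x 0) u (sel (sb a (Nat.shiftRight m x)) (evMax m y x b)
          (sel (sb (Nat.xor a VM) (Nat.shiftRight m x)) (evMax m n x b)
            (frc (evMax m y x b) (evMax m n x))))) := rfl
      rw [e, frc_eq]
    | askF w a u y n ihy ihn =>
      intro d x hd b
      rw [run]
      refine ev_max (x := walk m w d) (hF _ _ (hw w d x hd)) (ev_FM (ev_fc _ _ _ _))
        (ihy _ _ (hw w d x hd)) (ihn _ _ (hw w d x hd)) _ ?_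
      have e : evMax m (.askF w a u y n) d b = sel (Nat.ble u b) b (frc (walk m w d) fun x =>
        sel (Nat.beq x 0) u (sel (sb a (Nat.shiftRight m x)) (evMax m y x b)
          (sel (sb (Nat.xor a FM) (Nat.shiftRight m x)) (evMax m n x b)
            (frc (evMax m y x b) (evMax m n x))))) := rfl
      rw [e, frc_eq]
  have hmin : ∀ r P d x, Rp nd h d x → ∀ c, evMin m r P d c < 16 ∧ (evMin m r P d c ≠ 0 →
      evMin m r P d c ≤ clamp c (run σ α N P x) % 16 ∧ run σ α N P x / 16 = r) := by
    intro r P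
    induction P with
    | ret v =>
      intro d x _ c
      have e : evMin m r (.ret v) d c = sel (cj (Nat.beq (Nat.shiftRight v 4) r)
        (Nat.ble (Nat.land v 15) c)) (Nat.land v 15) 0 := rfl
      have e2 : Nat.land v 15 = v % 16 := Nat.and_two_pow_sub_one_eq_mod v 4
      have e3 : Nat.shiftRight v 4 = v / 16 := Nat.shiftRight_eq_div_pow v 4
      rw [e, sel_eq, e2, e3, run]
      simp only [cj_iff, Nat.ble_eq, Nat.beq_eq]
      split_ifs with k
      · refine ⟨by omega, fun _ => ⟨?_, k.1⟩⟩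
        rw [clamp, if_pos k.2]
      · exact ⟨by omega, fun h => absurd rfl h⟩
    | askV w a u y n ihy ihn =>
      intro d x hd c
      rw [run]
      refine ev_min (x := walk m w d) (hV _ _ (hw w d x hd)) (ev_VM (ev_vt _ _ _))
        (ihy _ _ (hw w d x hd)) (ihn _ _ (hw w d x hd)) _ ?_
      have e : evMin m r (.askV w a u y n) d c = sel (Nat.beq u 0) 0 (frc (mn u c) fun c =>
        frc (walk m w d) fun x =>
        sel (Nat.beq x 0) 0 (sel (sb a (Nat.shiftRight m x)) (evMin m r y x c)
          (sel (sb (Nat.xor a VM) (Nat.shiftRight m x)) (evMin m r n x c)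
            (frc (evMin m r y x c) fun p => sel (Nat.beq p 0) 0
              (frc (evMin m r n x c) fun q => mn p q))))) := rfl
      rw [e, frc_eq, frc_eq]
    | askF w a u y n ihy ihn =>
      intro d x hd c
      rw [run]
      refine ev_min (x := walk m w d) (hF _ _ (hw w d x hd)) (ev_FM (ev_fc _ _ _ _))
        (ihy _ _ (hw w d x hd)) (ihn _ _ (hw w d x hd)) _ ?_
      have e : evMin m r (.askF w a u y n) d c = sel (Nat.beq u 0) 0 (frc (mn u c) fun c =>
        frc (walk m w d) fun x =>
        sel (Nat.beq x 0) 0 (sel (sb a (Nat.shiftRight m x)) (evMin m r y x c)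
          (sel (sb (Nat.xor a FM) (Nat.shiftRight m x)) (evMin m r n x c)
            (frc (evMin m r y x c) fun p => sel (Nat.beq p 0) 0
              (frc (evMin m r n x c) fun q => mn p q))))) := rfl
      rw [e, frc_eq, frc_eq]
  intro d x hd
  refine ⟨fun P b => hmax P d x hd b, fun P r c => hmin r P d x hd c, fun k hk => ?_⟩
  have hl : lv R σ α N k x < 16 := Nat.mod_lt _ (by norm_num)
  have hb := lv_bit (s := 2 * k) (by omega) (hf d x hd)
  rw [← (lv_kof hk).1, lv_fv0] at hb
  have h3 : lv R σ α N k x ≤ evMax m (R.s k) d 0 := (hmax _ d x hd 0).2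
  have e : ubl R m k d = frc (top10 (Nat.shiftRight m (d + kof k))) fun t =>
      sel (Nat.ble t 8) t (frc (evMax m (R.s k) d 0) (mn 15)) := rfl
  generalize Nat.shiftRight m (d + kof k) = A at hb e
  have e2 : top10 A = top10 (A % 1024) := by
    have e3 : ∀ y : ℕ, Nat.land y 1023 = y % 1024 := fun y => Nat.and_two_pow_sub_one_eq_mod y 10
    unfold top10
    rw [e3, e3, Nat.mod_mod]
  have h4 := lv_top (A % 1024) (Nat.mod_lt _ (by norm_num)) (min (lv R σ α N k x) 9) (by omega)
  rw [← e2, show 1024 = 2 ^ 10 by norm_num, Nat.testBit_mod_two_pow, hb, Bool.and_false] at h4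
  rw [e, frc_eq, sel_eq, frc_eq, ev_mn]
  simp only [Nat.ble_eq]
  split_ifs with h5
  · have := h4 h5 rfl
    omega
  · omega

end Pool.Agent.Lib.G6
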