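import Pool.Agent.Lib.G6.Blue

set_option autoImplicit false

/-! New darts. -/

namespace Pool.Agent.Lib.G6

open Equiv
open Pool.Agent.Lib.MP_bfaad3_co (frc)

theorem ext_frc {β : Type} (e : ℕ) (k : ℕ → β) : frc e k = k e := by cases e <;> rfl

theorem ext_hi {b n i : ℕ} (hb : b < 2 ^ n) (hi : n ≤ i) : b.testBit i = false :=
  Nat.testBit_lt_two_pow (lt_of_lt_of_le hb (Nat.pow_le_pow_right (by norm_num) hi))

theorem ext_fld (m d o i : ℕ) :
    (fld m d o).testBit i = (decide (i < 17) && m.testBit (d + o + i)) := by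
  show (m >>> (d + o) &&& (2 ^ 17 - 1)).testBit i = _
  rw [Nat.testBit_and, Nat.testBit_shiftRight, Nat.testBit_two_pow_sub_one, Bool.and_comm]

theorem ext_bit (m d x i : ℕ) :
    (put m d x).testBit i = (m.testBit i || (decide (i ≥ d) && x.testBit (i - d))) := by
  show (m ||| x <<< d).testBit i = _
  rw [Nat.testBit_or, Nat.testBit_shiftLeft]

theorem ext_bit_ne {m d x i : ℕ} (H : d ≤ i → x.testBit (i - d) = true → False) :
    (put m d x).testBit i = m.testBit i := by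
  rw [ext_bit]
  by_cases h : d ≤ i
  · cases hb : x.testBit (i - d)
    · simp
    · exact (H h hb).elim
  · simp [h]

theorem ext_fld_eq (m d x o : ℕ) : fld (put m d x) d o = fld m d o ||| fld x 0 o := by
  refine Nat.eq_of_testBit_eq fun i => ?_
  rw [Nat.testBit_or, ext_fld, ext_fld, ext_fld, ext_bit,
    show d + o + i - d = 0 + o + i by omega, decide_eq_true (show d + o + i ≥ d by omega),
    Bool.true_and, Bool.and_or_distrib_left]

theorem ext_fld_ne {m d x e o : ℕ} (hx : ∀ i, x.testBit i = true → i < 128) (hd : 128 ∣ d)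
    (he : 128 ∣ e) (hne : e ≠ d) (ho : o ≤ 34) : fld (put m d x) e o = fld m e o := by
  refine Nat.eq_of_testBit_eq fun i => ?_
  rw [ext_fld, ext_fld]
  by_cases hi : i < 17
  · rw [ext_bit_ne fun h1 h2 => by have := hx _ h2; omega]
  · simp [hi]

theorem ext_fld_top {m nd d o : ℕ} (H : ∀ i, nd ≤ i → m.testBit i = false) (hd : nd ≤ d) :
    fld m d o = 0 := by
  refine Nat.eq_of_testBit_eq fun i => ?_
  rw [ext_fld, H _ (by omega)]
  simp

theorem ext_eqd_congr {m m' d : ℕ}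
    (H : ∀ i, i < 10 → m'.testBit (d + 51 + i) = m.testBit (d + 51 + i)) : eqd m' d = eqd m d := by
  show (m' >>> (d + 51) &&& (2 ^ 10 - 1)) <<< 7 = (m >>> (d + 51) &&& (2 ^ 10 - 1)) <<< 7
  congr 1
  refine Nat.eq_of_testBit_eq fun i => ?_
  rw [Nat.testBit_and, Nat.testBit_and, Nat.testBit_shiftRight, Nat.testBit_shiftRight,
    Nat.testBit_two_pow_sub_one]
  by_cases hi : i < 10
  · rw [H i hi]
  · simp [hi]

theorem ext_eqd_top {m nd d : ℕ} (H : ∀ i, nd ≤ i → m.testBit i = false) (hd : nd ≤ d) :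
    eqd m d = 0 := by
  rw [ext_eqd_congr (m := 0) fun i _ => by rw [H _ (by omega), Nat.zero_testBit]]
  simp [eqd]

section cell

variable {n p a f : ℕ} (hn : n < 2 ^ 17) (hp : p < 2 ^ 17) (ha : a < 2 ^ 17) (hf : Bits 64 127 f)

theorem ext_cel (n p a f i : ℕ) : (cel n p a ||| f).testBit i =
    ((n.testBit i || (decide (i ≥ 17) && p.testBit (i - 17) ||
      decide (i ≥ 34) && a.testBit (i - 34))) || f.testBit i) := by
  show ((n ||| (p <<< 17 ||| a <<< 34)) ||| f).testBit i = _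
  simp only [Nat.testBit_or, Nat.testBit_shiftLeft]

theorem ext_f_low (hf : Bits 64 127 f) {i : ℕ} (hi : i < 64) : f.testBit i = false := by
  cases hb : f.testBit i
  · rfl
  · have := hf i hb; omega

include hn hp ha

theorem ext_cel_hi {i : ℕ} (hi : 51 ≤ i) : (cel n p a ||| f).testBit i = f.testBit i := by
  rw [ext_cel, ext_hi hn (by omega), ext_hi hp (by omega), ext_hi ha (by omega)]
  simp

include hf

theorem ext_cel_rng (i : ℕ) (h : (cel n p a ||| f).testBit i = true) : i < 51 ∨ (64 ≤ i ∧ i < 127) := by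
  by_cases hi : i < 51
  · exact Or.inl hi
  · rw [ext_cel_hi hn hp ha (by omega)] at h
    exact Or.inr (hf i h)

theorem ext_cel_n : fld (cel n p a ||| f) 0 0 = n := by
  refine Nat.eq_of_testBit_eq fun i => ?_
  rw [ext_fld, ext_cel]
  by_cases hi : i < 17
  · rw [ext_f_low hf (by omega), decide_eq_false (show ¬ (0 + 0 + i ≥ 17) by omega),
      decide_eq_false (show ¬ (0 + 0 + i ≥ 34) by omega)]
    simp [hi]
  · rw [ext_hi hn (i := i) (by omega)]
    simp [hi]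

theorem ext_cel_p : fld (cel n p a ||| f) 0 17 = p := by
  refine Nat.eq_of_testBit_eq fun i => ?_
  rw [ext_fld, ext_cel]
  by_cases hi : i < 17
  · rw [ext_f_low hf (by omega), ext_hi hn (by omega),
      decide_eq_false (show ¬ (0 + 17 + i ≥ 34) by omega)]
    simp [hi]
  · rw [ext_hi hp (i := i) (by omega)]
    simp [hi]

theorem ext_cel_a : fld (cel n p a ||| f) 0 34 = a := by
  refine Nat.eq_of_testBit_eq fun i => ?_
  rw [ext_fld, ext_cel]
  by_cases hi : i < 17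
  · rw [ext_f_low hf (by omega), ext_hi hn (by omega), ext_hi hp (by omega)]
    simp [hi]
  · rw [ext_hi ha (i := i) (by omega)]
    simp [hi]

end cell

theorem ext_bits_or {lo hi a b : ℕ} (ha : Bits lo hi a) (hb : Bits lo hi b) :
    Bits lo hi (a ||| b) := fun i h => by
  rw [Nat.testBit_or, Bool.or_eq_true] at h
  exact h.elim (ha i) (hb i)

theorem ext_bits_mono {lo hi a : ℕ} (ha : Bits lo hi a) (h1 : 64 ≤ lo) (h2 : hi ≤ 127) :
    Bits 64 127 a := fun i h => by have := ha i h; omega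

theorem ext_bits_zero : Bits 64 127 0 := fun i h => by simp at h

theorem ext_bits_ZB : Bits 64 70 ZB := fun i h => by
  have h1 : ZB = 62 <<< 64 := by decide
  rw [h1, Nat.testBit_shiftLeft, Bool.and_eq_true, decide_eq_true_eq] at h
  by_contra hc
  rw [ext_hi (n := 6) (by norm_num) (by omega)] at h
  exact absurd h.2 (by simp)

section hom

variable {R : Rule} {D : Type} [Fintype D] {σ α : Perm D} {N : Set D} {m nd : ℕ} {h : ℕ → D}

theorem ext_facts_or {a b : ℕ} {x : D} (ha : Facts R σ α N a x) (hb : Facts R σ α N b x) :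
    Facts R σ α N (a ||| b) x := fun i h => by
  rw [Nat.testBit_or, Bool.or_eq_true] at h
  exact h.elim (ha i) (hb i)

theorem ext_facts_zero (x : D) : Facts R σ α N 0 x := fun i h => by simp at h

theorem ext_factsV {a : ℕ} {x y : D} (hb : Bits 64 70 a) (e : vt σ N y = vt σ N x)
    (ha : Facts R σ α N a x) : Facts R σ α N a y := fun i h => by
  have h1 := ha i h
  have h2 := (hb i h).2
  rw [Fact, if_pos h2] at h1 ⊢
  rwa [e]

theorem ext_factsF {a : ℕ} {x y : D} (hb : Bits 70 92 a) (e : fc σ α N y = fc σ α N x)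
    (ha : Facts R σ α N a x) : Facts R σ α N a y := fun i h => by
  have h1 := ha i h
  have h2 := hb i h
  rw [Fact, if_neg (by omega), if_pos h2.2] at h1 ⊢
  rwa [e]

theorem ext_grow (hh : Hom R σ α N m nd h) (hn : nd + 128 ≤ 131072) (e : D) :
    ∃ h', Ext nd h h' ∧ h' nd = e ∧ Hom R σ α N m (nd + 128) h' := by
  have h1 := hh.nd1
  have h2 := hh.nd2
  have hv : ∀ d, Val nd d → Val (nd + 128) d := fun d hd =>
    ⟨hd.1, by have := hd.2.1; omega, hd.2.2⟩
  have hc : ∀ d, Val (nd + 128) d → Val nd d ∨ nd ≤ d := fun d hd =>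
    (lt_or_ge d nd).imp (fun hl => ⟨hd.1, hl, hd.2.2⟩) id
  have e1 : Ext nd h (Function.update h nd e) := fun d hd =>
    Function.update_of_ne hd.2.1.ne _ _
  have key : ∀ {d y : ℕ} (π : D → D), Val nd d → (y = 0 ∨ (Val nd y ∧ h y = π (h d))) →
      y = 0 ∨ (Val (nd + 128) y ∧ Function.update h nd e y = π (Function.update h nd e d)) :=
    fun π hd hy => hy.imp id fun hy => ⟨hv _ hy.1, by rw [e1 _ hy.1, e1 _ hd, hy.2]⟩
  refine ⟨_, e1, Function.update_self _ _ _, by omega, by omega, hn,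
    fun i hi => hh.top i (by omega), hh.nul, fun d hd => ?_, fun d hd => ?_, fun d hd => ?_,
    fun d hd => ?_, fun d i hd i1 i2 hb => ?_⟩
  · exact (hc d hd).elim (fun hd => key σ hd (hh.hn d hd))
      fun hd => Or.inl (ext_fld_top (o := 0) hh.top hd)
  · exact (hc d hd).elim (fun hd => key (σ⁻¹ : Perm D) hd (hh.hp d hd))
      fun hd => Or.inl (ext_fld_top (o := 17) hh.top hd)
  · exact (hc d hd).elim (fun hd => key α hd (hh.ha d hd))
      fun hd => Or.inl (ext_fld_top (o := 34) hh.top hd)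
  · exact (hc d hd).elim (fun hd => key id hd (hh.he d hd))
      fun hd => Or.inl (ext_eqd_top hh.top hd)
  · rcases hc d hd with hd | hd
    · rw [e1 d hd]; exact hh.hf d i hd i1 i2 hb
    · rw [hh.top _ (by omega)] at hb
      exact absurd hb (by simp)

/-- an admissible new link -/
def ExtL (nd : ℕ) (h : ℕ → D) (old y : ℕ) (x : D) : Prop :=
  y = 0 ∨ (old = 0 ∧ Val nd y ∧ h y = x)

omit [Fintype D] in
theorem ExtL.lt {old y : ℕ} {x : D} (hn : nd ≤ 131072) (l : ExtL nd h old y x) : y < 2 ^ 17 := by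
  rcases l with rfl | l
  · norm_num
  · have := l.2.1.2.1
    omega

omit [Fintype D] in
theorem ExtL.new {old y : ℕ} {x : D} (l : ExtL nd h old y x)
    (o : old = 0 ∨ (Val nd old ∧ h old = x)) :
    old ||| y = 0 ∨ (Val nd (old ||| y) ∧ h (old ||| y) = x) := by
  rcases l with rfl | ⟨rfl, l⟩
  · rwa [Nat.or_zero]
  · rw [Nat.zero_or]; exact Or.inr l

theorem ext_put (hh : Hom R σ α N m nd h) {d n p a f : ℕ} (hd : Val nd d)
    (ln : ExtL nd h (nx m d) n (σ (h d))) (lp : ExtL nd h (pv m d) p (σ⁻¹ (h d)))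
    (la : ExtL nd h (al m d) a (α (h d))) (hb : Bits 64 127 f) (hF : Facts R σ α N f (h d)) :
    Hom R σ α N (put m d (cel n p a ||| f)) nd h ∧
      (∀ e o, 128 ∣ e → e ≠ d → o ≤ 34 → fld (put m d (cel n p a ||| f)) e o = fld m e o) ∧
      nx (put m d (cel n p a ||| f)) d = nx m d ||| n ∧
      pv (put m d (cel n p a ||| f)) d = pv m d ||| p := by
  have n0 := ln.lt hh.nd3
  have p0 := lp.lt hh.nd3
  have a0 := la.lt hh.nd3
  have rng := ext_cel_rng n0 p0 a0 hb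
  have h1 := hh.nd1
  obtain ⟨d1, d2, d3⟩ := id hd
  have ne : ∀ e o, 128 ∣ e → e ≠ d → o ≤ 34 →
      fld (put m d (cel n p a ||| f)) e o = fld m e o := fun e o he hne ho =>
    ext_fld_ne (fun i hi => by have := rng i hi; omega) d3 he hne ho
  have e1 : nx (put m d (cel n p a ||| f)) d = nx m d ||| n :=
    (ext_fld_eq m d _ 0).trans (congrArg _ (ext_cel_n n0 p0 a0 hb))
  have e2 : pv (put m d (cel n p a ||| f)) d = pv m d ||| p :=
    (ext_fld_eq m d _ 17).trans (congrArg _ (ext_cel_p n0 p0 a0 hb))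
  have e3 : al (put m d (cel n p a ||| f)) d = al m d ||| a :=
    (ext_fld_eq m d _ 34).trans (congrArg _ (ext_cel_a n0 p0 a0 hb))
  refine ⟨⟨hh.nd1, hh.nd2, hh.nd3, fun i hi => ?_, fun i hi hi' => ?_, fun e he => ?_,
    fun e he => ?_, fun e he => ?_, fun e he => ?_, fun e i he i1 i2 hi => ?_⟩, ne, e1, e2⟩
  · rw [ext_bit_ne fun _ h2 => by have := rng _ h2; omega]
    exact hh.top i hi
  · rw [ext_bit_ne fun _ _ => by omega]
    exact hh.nul i hi hi'
  · by_cases hed : e = d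
    · subst hed
      rw [e1]; exact ln.new (hh.hn e he)
    · rw [show nx _ e = nx m e from ne e 0 he.2.2 hed (by omega)]
      exact hh.hn e he
  · by_cases hed : e = d
    · subst hed
      rw [e2]; exact lp.new (hh.hp e he)
    · rw [show pv _ e = pv m e from ne e 17 he.2.2 hed (by omega)]
      exact hh.hp e he
  · by_cases hed : e = d
    · subst hed
      rw [e3]; exact la.new (hh.ha e he)
    · rw [show al _ e = al m e from ne e 34 he.2.2 hed (by omega)]
      exact hh.ha e he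
  · have := he.2.2
    rw [ext_eqd_congr (m := m) fun i hi => ext_bit_ne fun _ h2 => by have := rng _ h2; omega]
    exact hh.he e he
  · by_cases hed : e = d
    · subst hed
      rw [ext_bit, Nat.add_sub_cancel_left, ext_cel_hi n0 p0 a0 (by omega), Bool.or_eq_true,
        Bool.and_eq_true] at hi
      exact hi.elim (hh.hf e i he i1 i2) fun hi => hF i hi.2
    · have := he.2.2
      rw [ext_bit_ne fun _ h2 => by have := rng _ h2; omega] at hi
      exact hh.hf e i he i1 i2 hi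

omit [Fintype D] in
theorem ext_val_new (h1 : 128 ∣ nd) (h2 : 256 ≤ nd) {k : ℕ} (hk : 0 < k) : Val (nd + k) nd :=
  ⟨by omega, by omega, h1⟩

theorem ext_val_up {d k : ℕ} (hd : Val nd d) : Val (nd + k) d :=
  ⟨hd.1, by have := hd.2.1; omega, hd.2.2⟩

/-- a new dart linked both ways with an old one -/
theorem ext_one (hh : Hom R σ α N m nd h) (hn : nd + 128 ≤ 131072) {d : ℕ} (hd : Val nd d) (e : D)
    {n p a n' p' a' f : ℕ} (ln : n = 0 ∨ (nx m d = 0 ∧ n = nd ∧ e = σ (h d)))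
    (lp : p = 0 ∨ (pv m d = 0 ∧ p = nd ∧ e = σ⁻¹ (h d)))
    (la : a = 0 ∨ (al m d = 0 ∧ a = nd ∧ e = α (h d)))
    (ln' : n' = 0 ∨ (n' = d ∧ h d = σ e)) (lp' : p' = 0 ∨ (p' = d ∧ h d = σ⁻¹ e))
    (la' : a' = 0 ∨ (a' = d ∧ h d = α e)) (hb : Bits 64 127 f) (hF : Facts R σ α N f e) :
    ∃ h', Ext nd h h' ∧ h' nd = e ∧
      Hom R σ α N (put (put m d (cel n p a)) nd (cel n' p' a' ||| f)) (nd + 128) h' ∧
      nx (put (put m d (cel n p a)) nd (cel n' p' a' ||| f)) nd = n' ∧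
      pv (put (put m d (cel n p a)) nd (cel n' p' a' ||| f)) nd = p' := by
  obtain ⟨h', x1, x2, H⟩ := ext_grow hh hn e
  have v1 : Val (nd + 128) nd := ext_val_new hh.nd1 hh.nd2 (by norm_num)
  have v2 : Val (nd + 128) d := ext_val_up hd
  have x3 := x1 d hd
  have k1 : ∀ {o y : ℕ} (π : D → D), (y = 0 ∨ (o = 0 ∧ y = nd ∧ e = π (h d))) →
      ExtL (nd + 128) h' o y (π (h' d)) := fun π l => by
    rcases l with l | ⟨l1, l2, l3⟩
    · exact Or.inl l
    · exact Or.inr ⟨l1, by rw [l2]; exact v1, by rw [l2, x2, x3, l3]⟩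
  obtain ⟨H1, ne, -, -⟩ := ext_put H v2 (k1 σ ln) (k1 (σ⁻¹ : Perm D) lp) (k1 α la) ext_bits_zero
    (ext_facts_zero _)
  rw [Nat.or_zero] at H1 ne
  have z : ∀ o, o ≤ 34 → fld (put m d (cel n p a)) nd o = 0 := fun o ho =>
    (ne nd o hh.nd1 hd.2.1.ne' ho).trans (ext_fld_top hh.top le_rfl)
  have k2 : ∀ {o y : ℕ} (π : D → D), o = 0 → (y = 0 ∨ (y = d ∧ h d = π e)) →
      ExtL (nd + 128) h' o y (π (h' nd)) := fun π ho l => by
    rcases l with l | ⟨l1, l2⟩
    · exact Or.inl l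
    · exact Or.inr ⟨ho, by rw [l1]; exact v2, by rw [l1, x2, x3, l2]⟩
  have z0 : nx (put m d (cel n p a)) nd = 0 := z 0 (by omega)
  have z1 : pv (put m d (cel n p a)) nd = 0 := z 17 (by omega)
  obtain ⟨H2, -, e1, e2⟩ := ext_put H1 v1 (k2 σ z0 ln') (k2 (σ⁻¹ : Perm D) z1 lp')
    (k2 α (z 34 le_rfl) la') hb (x2 ▸ hF)
  exact ⟨h', x1, x2, H2, by rw [e1, z0, Nat.zero_or], by rw [e2, z1, Nat.zero_or]⟩

theorem ext_ia {D : Type} (σ : Perm D) (x : D) : σ⁻¹ (σ x) = x := σ.symm_apply_apply x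

theorem ext_ai {D : Type} (σ : Perm D) (x : D) : σ (σ⁻¹ x) = x := σ.apply_symm_apply x

theorem ext_cel_one (x : ℕ) : cel x 0 0 = x := by simp [cel]

theorem ext_cmp (hc : Ctx σ α N) (ht : St_tab) {ini : ℕ} (hi : IniOK R ini)
    (hh : Hom R σ α N m nd h) (hn : nd + 256 ≤ 131072) {d f : ℕ} (hd : Val nd d)
    (z1 : nx m d = 0) (z2 : pv m d = 0) (hN : h d ∉ N) (hb : Bits 70 92 f)
    (hF : Facts R σ α N f (σ (h d))) :
    ∃ h', Ext nd h h' ∧ Hom R σ α N (cmpZ ini m nd d f) (nd + 256) h' := by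
  have h1 := hh.nd1
  have h2 := hh.nd2
  have dl := hd.2.1
  obtain ⟨h0, y1, y2, H0⟩ := ext_grow hh (by omega) (σ (h d))
  obtain ⟨h', x1, x2, H⟩ := ext_grow H0 (by omega) (σ⁻¹ (h d))
  have va : Val (nd + 128 + 128) d := ext_val_up (ext_val_up hd)
  have vb0 : Val (nd + 128) nd := ext_val_new h1 h2 (by norm_num)
  have vb : Val (nd + 128 + 128) nd := ext_val_up vb0
  have vc : Val (nd + 128 + 128) (nd + 128) := ext_val_new H0.nd1 H0.nd2 (by norm_num)
  have ea : h' d = h d := (x1 d (ext_val_up hd)).trans (y1 d hd)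
  have eb : h' nd = σ (h d) := (x1 nd vb0).trans y2
  have s3 : σ (σ (σ (h d))) = h d := by
    have := Function.isPeriodicPt_minimalPeriod σ (h d)
    rw [show Function.minimalPeriod σ (h d) = 3 from hc.cls.z3 _ hN] at this
    exact this
  have s1 : σ⁻¹ (h d) = σ (σ (h d)) := by rw [Perm.inv_eq_iff_eq, s3]
  have bZ : Bits 64 127 (ZB ||| ini) := ext_bits_or (ext_bits_mono ext_bits_ZB le_rfl (by omega))
    (ext_bits_mono hi.1 (by omega) (by omega))
  have fZ : ∀ x, x ∉ N → Facts R σ α N (ZB ||| ini) x := fun x hx =>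
    ext_facts_or ((ht R D σ α N hc x 0).2.2.2.1.2 hx) (hi.2 D σ α N hc x)
  have n1 : σ (h d) ∉ N := fun hx => hN ((hc.cls.nσ _).1 hx)
  have n2 : σ (σ (h d)) ∉ N := fun hx => n1 ((hc.cls.nσ _).1 hx)
  obtain ⟨H1, ne1, -, -⟩ := ext_put (n := nd) (p := nd + 128) (a := 0) H va
    (Or.inr ⟨z1, vb, by rw [eb, ea]⟩) (Or.inr ⟨z2, vc, by rw [x2, ea]⟩) (Or.inl rfl)
    ext_bits_zero (ext_facts_zero _)
  rw [Nat.or_zero] at H1 ne1
  have t1 : ∀ e o, 128 ∣ e → nd ≤ e → o ≤ 34 → fld (put m d (cel nd (nd + 128) 0)) e o = 0 :=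
    fun e o he hl ho => (ne1 e o he (by omega) ho).trans (ext_fld_top hh.top hl)
  obtain ⟨H2, ne2, -, -⟩ := ext_put (n := nd + 128) (p := d) (a := 0) H1 vb
    (Or.inr ⟨t1 nd 0 h1 le_rfl (by omega), vc, by rw [x2, eb, s1]⟩)
    (Or.inr ⟨t1 nd 17 h1 le_rfl (by omega), va, by rw [ea, eb, ext_ia]⟩) (Or.inl rfl)
    (ext_bits_or bZ (ext_bits_mono hb (by omega) (by omega)))
    (eb ▸ ext_facts_or (fZ _ n1) hF)
  have t2 := fun o (ho : o ≤ 34) => (ne2 (nd + 128) o H0.nd1 (by omega) ho).trans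
    (t1 (nd + 128) o H0.nd1 (by omega) ho)
  obtain ⟨H3, -, -, -⟩ := ext_put (n := d) (p := nd) (a := 0) H2 vc
    (Or.inr ⟨t2 0 (by omega), va, by rw [ea, x2, ext_ai]⟩)
    (Or.inr ⟨t2 17 (by omega), vb, by rw [eb, x2, s1, ext_ia]⟩) (Or.inl rfl) bZ
    (by rw [x2, s1]; exact fZ _ n2)
  exact ⟨h', fun e he => (x1 e (ext_val_up he)).trans (y1 e he), H3⟩

theorem ext_alp (hv : St_inv) (hr : St_rp) (hc : Ctx σ α N) {ini : ℕ} (hi : IniOK R ini)
    (hh : Hom R σ α N m nd h) (hn : nd + 128 ≤ 131072) {d v : ℕ} (hd : Val nd d)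
    (z : al m d = 0) (hb : Bits 64 70 v) (hF : Facts R σ α N v (α (h d))) :
    ∃ h', Ext nd h h' ∧ h' nd = α (h d) ∧ Hom R σ α N (extA ini m nd d v) (nd + 128) h' ∧
      nx (extA ini m nd d v) nd = 0 ∧ pv (extA ini m nd d v) nd = 0 := by
  have r := hr R D σ α N hc m nd h hh
  obtain ⟨b, c⟩ := (r _ _ (r d _ (Or.inr ⟨hd, rfl⟩)).1).2.2.2.2.2.2.2.2.2.2.2
  exact ext_one hh hn hd (α (h d)) (Or.inl rfl) (Or.inl rfl) (Or.inr ⟨z, rfl, rfl⟩) (Or.inl rfl)
    (Or.inl rfl) (Or.inr ⟨rfl, (hc.cls.inv _).symm⟩)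
    (ext_bits_or (ext_bits_or (ext_bits_mono hb le_rfl (by omega))
      (ext_bits_mono hi.1 (by omega) (by omega))) (ext_bits_mono b (by omega) (by omega)))
    (ext_facts_or (ext_facts_or hF (hi.2 D σ α N hc _))
      (ext_factsF b (hv D σ α N hc.cls (h d)).2.2.2.2.2.2.2.2.1.symm c))

end hom

theorem stEXT (hv : St_inv) (hr : St_rp) (ht : St_tab) : St_ext := by
  intro R D _ σ α N hc m nd h hh ini hi hn d hd
  have r := hr R D σ α N hc m nd h hh
  have rd := r d _ (Or.inr ⟨hd, rfl⟩)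
  have iv := hv D σ α N hc.cls
  obtain ⟨bV, cV⟩ := rd.2.2.2.2.2.2.2.2.2.2.1
  have bI : Bits 64 127 (getV m d ||| ini) := ext_bits_or (ext_bits_mono bV le_rfl (by omega))
    (ext_bits_mono hi.1 (by omega) (by omega))
  refine ⟨fun v z hb hF => ?_, fun f z1 z2 hN hb hF => ?_, fun hn' z hN => ?_, fun z => ?_,
    fun z => ?_⟩
  · obtain ⟨h', x1, x2, H, -⟩ := ext_alp hv hr hc hi hh (by omega) hd z hb hF
    exact ⟨h', x1, x2, H⟩
  · exact ext_cmp hc ht hi hh (by omega) hd z1 z2 hN hb hF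
  · obtain ⟨h1, x1, x2, H, z1, z2⟩ := ext_alp hv hr hc hi hh (by omega) hd z ext_bits_ZB
      ((ht R D σ α N hc _ 0).2.2.2.1.2 hN)
    obtain ⟨b, c⟩ := rd.2.2.2.2.2.2.2.2.2.2.2
    obtain ⟨h', y1, H'⟩ := ext_cmp hc ht hi H (by omega)
      (ext_val_new hh.nd1 hh.nd2 (by norm_num)) z1 z2 (x2 ▸ hN) b
      (x2 ▸ ext_factsF b (iv (h d)).2.2.2.2.2.2.2.1 c)
    refine ⟨h', fun e he => (y1 e (ext_val_up he)).trans (x1 e he), ?_⟩
    rw [extZ, ext_frc]
    exact H'
  · obtain ⟨b, c⟩ := (r _ _ rd.2.2.1).2.2.2.2.2.2.2.2.2.2.2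
    obtain ⟨h', x1, x2, H, -⟩ := ext_one hh (by omega) hd (σ (h d)) (Or.inr ⟨z, rfl, rfl⟩)
      (Or.inl rfl) (Or.inl rfl) (Or.inl rfl) (Or.inr ⟨rfl, (ext_ia _ _).symm⟩)
      (Or.inl rfl) (ext_bits_or bI (ext_bits_mono b (by omega) (by omega)))
      (ext_facts_or (ext_facts_or (ext_factsV bV (iv (h d)).1 cV) (hi.2 D σ α N hc _))
        (ext_factsF b (iv (h d)).2.2.2.2.2.2.2.2.1 c))
    rw [ext_cel_one] at H
    exact ⟨h', x1, x2, H⟩
  · obtain ⟨h', x1, x2, H, -⟩ := ext_one hh (by omega) hd (σ⁻¹ (h d)) (Or.inl rfl)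
      (Or.inr ⟨z, rfl, rfl⟩) (Or.inl rfl) (Or.inr ⟨rfl, (ext_ai _ _).symm⟩)
      (Or.inl rfl) (Or.inl rfl) bI
      (ext_facts_or (ext_factsV bV (by
        have := (iv (σ⁻¹ (h d))).1
        rw [ext_ai] at this
        exact this.symm) cV) (hi.2 D σ α N hc _))
    rw [ext_cel_one] at H
    exact ⟨h', x1, x2, H⟩

end Pool.Agent.Lib.G6
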