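import Pool.Agent.Lib.G6.Blue
import Pool.Agent.Lib.G6.AMir

set_option autoImplicit false
set_option linter.unusedSectionVars false

/-! Invariance of vertex types and face classes. -/

namespace Pool.Agent.Lib.G6

open Equiv Finset

open Classical in
/-- the class of a face from its length, its number of corners of type 1 and two flags -/
noncomputable def invF (L c : ℕ) (p q : Prop) : ℕ :=
  if L ≤ 4 then 15 + L
  else if L = 5 then (if c = 0 ∧ p then 0 else 20)
  else if L = 6 then 1
  else if L = 7 then (if c = 0 then 4 else 2)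
  else if L = 8 then (if c = 0 then 5 else if c = 1 then (if q then 15 else 6) else 3)
  else if L = 9 then 10 - min c 3
  else if L = 10 then (if c ≤ 2 then 12 else 11)
  else if L = 11 then 13 else 14

theorem inv_F_lt (L c : ℕ) (p q : Prop) : invF L c p q < 21 := by
  unfold invF
  split_ifs <;> omega

theorem inv_F_fl (L c : ℕ) (p q : Prop) (hL : 0 < L) :
    fl (invF L c p q) = L ∨ (invF L c p q = 14 ∧ 12 ≤ L) := by
  unfold invF
  split_ifs with h1 h2 h3 h4 h5 h6 h7 h8 h9 h10 h11 h12 h13 h14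
  · left
    interval_cases L <;> decide
  all_goals first
    | (left; subst L; decide)
    | (right; omega)
    | skip
  left
  subst L
  have : min c 3 ≤ 3 := min_le_right _ _
  generalize min c 3 = k at this
  interval_cases k <;> decide

section
variable {D : Type} [Fintype D] [DecidableEq D]

theorem inv_orb_step (π : Perm D) (x : D) : orb π (π x) = orb π x := by
  ext e
  rw [mem_orb, mem_orb, Perm.sameCycle_apply_left]

theorem inv_ex (π : Perm D) (x : D) (P : D → Prop) :
    (∃ i < deg π x, P ((π ^ i) x)) ↔ ∃ y ∈ orb π x, P y := by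
  rw [orb_eq_image]
  simp only [mem_image, mem_range]
  constructor
  · rintro ⟨i, hi, h⟩
    exact ⟨_, ⟨i, hi, rfl⟩, h⟩
  · rintro ⟨_, ⟨i, hi, rfl⟩, h⟩
    exact ⟨i, hi, h⟩

open Classical in
theorem inv_cnt (σ α : Perm D) (N : Set D) (x : D) :
    cnt2 σ α N x = ((orb (σ * α) x).filter fun y => vt σ N y = 1).card := by
  rw [orb_eq_image, filter_image, card_image_of_injOn]
  · rfl
  · exact (pow_injOn (σ * α) x).mono (by intro i hi; exact (mem_filter.1 (mem_coe.1 hi)).1)

theorem inv_fc (σ α : Perm D) (N : Set D) (x : D) :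
    fc σ α N x = invF (fln σ α x) (cnt2 σ α N x) (∃ y ∈ orb (σ * α) x, y ∈ N)
      (∃ y ∈ orb (σ * α) x, vt σ N y = 1 ∧ fln σ α (σ y) = 6) := by
  rw [← inv_ex (σ * α) x (fun y => y ∈ N),
    ← inv_ex (σ * α) x (fun y => vt σ N y = 1 ∧ fln σ α (σ y) = 6)]
  change _ = invF (fln σ α x) _ (∃ i < fln σ α x, _) (∃ i < fln σ α x, _)
  unfold fc invF
  generalize fln σ α x = L
  by_cases h5 : L = 5
  · subst h5
    simp only [show ¬ (5 ≤ 4) by omega, if_false, if_true]
    congr
  by_cases h8 : L = 8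
  · subst h8
    simp only [show ¬ (8 ≤ 4) by omega, show ¬ (8 = 5) by omega, show ¬ (8 = 6) by omega,
      show ¬ (8 = 7) by omega, if_false, if_true]
    congr
  simp only [h5, h8, if_false]

theorem inv_deg (π : Perm D) (x : D) : deg π (π x) = deg π x := by
  rw [← card_orb, ← card_orb, inv_orb_step]

theorem inv_pos (π : Perm D) (x : D) : 0 < deg π x :=
  Function.minimalPeriod_pos_of_mem_periodicPts (π.injective.mem_periodicPts x)

theorem inv_fln (σ α : Perm D) (x : D) : fln σ α (σ (α x)) = fln σ α x :=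
  inv_deg (σ * α) x

theorem inv_vt {σ : Perm D} {N : Set D} (h : ∀ x, σ x ∈ N ↔ x ∈ N) (x : D) :
    vt σ N (σ x) = vt σ N x := by
  unfold vt
  by_cases hx : x ∈ N <;> simp only [h, hx, inv_deg, not_true, not_false_eq_true, if_true, if_false]

theorem inv_vt_inv (σ : Perm D) (N : Set D) (x : D) : vt σ⁻¹ N x = vt σ N x := by
  unfold vt
  simp only [deg_inv]

theorem inv_fc_step (σ α : Perm D) (N : Set D) (x : D) :
    fc σ α N (σ (α x)) = fc σ α N x := by
  have e : orb (σ * α) (σ (α x)) = orb (σ * α) x := inv_orb_step (σ * α) x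
  rw [inv_fc, inv_fc, inv_cnt, inv_cnt, inv_fln, e]

theorem inv_mir {σ α : Perm D} (hα : ∀ x, α (α x) = x) (x y : D) :
    y ∈ orb (σ⁻¹ * α) x ↔ σ y ∈ orb (σ * α) (α x) := by
  have h1 : α⁻¹ = α := by
    ext z
    rw [Perm.inv_eq_iff_eq, hα]
  have h2 : σ⁻¹ * α = α * (σ * α)⁻¹ * α⁻¹ := by
    have h3 : α * α = 1 := by
      ext z
      exact hα z
    rw [mul_inv_rev, h1, ← mul_assoc, h3, one_mul]
  have h4 : σ y = (σ * α) (α y) := by rw [Perm.mul_apply, hα]
  rw [mem_orb, mem_orb, h2, Perm.sameCycle_conj, Perm.sameCycle_inv, h1, h4,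
    Perm.sameCycle_apply_right]

theorem inv_mir_orb {σ α : Perm D} (hα : ∀ x, α (α x) = x) (x : D) :
    orb (σ * α) (α x) = (orb (σ⁻¹ * α) x).image σ := by
  ext z
  rw [mem_image]
  constructor
  · intro h
    exact ⟨σ⁻¹ z, (inv_mir hα x _).2 (by simpa using h), by simp⟩
  · rintro ⟨y, hy, rfl⟩
    exact (inv_mir hα x y).1 hy

theorem inv_fln_mir {σ α : Perm D} (hα : ∀ x, α (α x) = x) (x : D) :
    fln σ⁻¹ α x = fln σ α (α x) := by
  change deg (σ⁻¹ * α) x = deg (σ * α) (α x)
  rw [← card_orb, ← card_orb, inv_mir_orb hα, card_image_of_injective _ σ.injective]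

omit [Fintype D] [DecidableEq D] in
theorem inv_two {σ : Perm D} {N : Set D} {y : D} (h : vt σ N y = 1) : σ (σ y) = y := by
  have h2 : deg σ y = 2 := by
    unfold vt at h
    split_ifs at h <;> first | assumption | omega
  have := Function.iterate_minimalPeriod (f := σ) (x := y)
  unfold deg at h2
  rw [h2] at this
  exact this

theorem inv_fc_mir {σ α : Perm D} {N : Set D} (hα : ∀ x, α (α x) = x)
    (h : ∀ x, σ x ∈ N ↔ x ∈ N) (x : D) : fc σ⁻¹ α N x = fc σ α N (α x) := by
  classical
  have hq : ∀ y, vt σ N y = 1 → fln σ⁻¹ α (σ⁻¹ y) = fln σ α (σ (σ y)) := by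
    intro y hy
    rw [inv_fln_mir hα, inv_two hy, ← inv_fln, hα]
    simp
  rw [inv_fc, inv_fc, inv_cnt, inv_cnt, inv_fln_mir hα, inv_mir_orb hα, filter_image,
    card_image_of_injective _ σ.injective]
  simp only [inv_vt h, inv_vt_inv]
  congr 1
  · simp only [mem_image, exists_exists_and_eq_and, h]
  · simp only [mem_image, exists_exists_and_eq_and, inv_vt h, eq_iff_iff]
    refine exists_congr fun y => and_congr_right fun _ => and_congr_right fun hy => ?_
    rw [hq y hy]

end

theorem stINV : St_inv := by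
  intro D _ σ α N hK x
  classical
  have := Fintype.ofFinite D
  refine ⟨inv_vt hK.nσ x, ?_, ?_, inv_deg σ x, inv_fln σ α x, inv_pos (σ * α) x, inv_pos σ x,
    inv_fc_step σ α N x, ?_, ?_, inv_vt_inv σ N x, inv_fc_mir hK.inv hK.nσ x, ?_⟩
  · unfold vt
    split_ifs <;> omega
  · unfold vt
    split_ifs <;> simp_all
  · rw [← inv_fc_step σ α N (α x), hK.inv]
  · rw [inv_fc]
    exact inv_F_lt _ _ _ _
  · rw [inv_fc]
    exact inv_F_fl _ _ _ _ (inv_pos (σ * α) x)

end Pool.Agent.Lib.G6
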