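import Pool.Agent.Lib.G6.LV
import Pool.Agent.Lib.MP_bfaad3_co.PM1

set_option autoImplicit false

/-! The lower bound of the amount sent by one position. -/

namespace Pool.Agent.Lib.G6

open Equiv
open Pool.Agent.Lib.MP_bfaad3_co (frc sel cj dj tb sb BT frc_eq sel_eq cj_iff dj_iff tb_eq sb_iff)

theorem lba_itr (f : ℕ → ℕ) (k d : ℕ) : itr f (k + 1) d = itr f k (f d) := frc_eq _ _

theorem lba_sumI (f g : ℕ → ℕ) (n : ℕ) : ∀ d acc,
    sumI f g n d acc = acc + ∑ i ∈ Finset.range n, g (itr f i d) := by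
  induction n with
  | zero => intro d acc; rfl
  | succ n ih =>
    intro d acc
    have h1 : sumI f g (n + 1) d acc = sumI f g n (f d) (acc + g d) := by
      change frc _ (fun acc => frc (f d) fun d' => sumI f g n d' acc) = _
      rw [frc_eq, frc_eq]
      rfl
    rw [h1, ih, Finset.sum_range_succ']
    simp only [lba_itr]
    have h0 : itr f 0 d = d := rfl
    rw [h0]
    omega

theorem lba_byt (t j : ℕ) : byt t j ≤ 255 := Nat.and_le_right

theorem lba_mn (a b : ℕ) : mn a b = min a b := by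
  unfold mn
  rw [sel_eq]
  by_cases h : a ≤ b
  · rw [if_pos (Nat.ble_eq.mpr h), min_eq_left h]
  · rw [if_neg (fun hh => h (Nat.ble_eq.mp hh)), min_eq_right (by omega)]

theorem lba_mono {f : ℕ → ℕ} (hf : ∀ l < 15, f l ≤ f (l + 1)) {a b : ℕ} (hab : a ≤ b)
    (hb : b < 16) : f a ≤ f b := by
  induction b with
  | zero => rw [Nat.le_zero.mp hab]
  | succ b ih =>
    rcases Nat.lt_or_ge b a with h | h
    · rw [show a = b + 1 by omega]
    · exact (ih h (by omega)).trans (hf b (by omega))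

theorem lba_fl : ∀ j < 16, fl j ≤ 11 := by decide

theorem lba_fl14 : fl 14 = 0 := by decide

theorem lba_FM : Bits 70 92 FM := by
  have h : FM = (2 ^ 22 - 1) <<< 70 := by decide
  rw [h]
  intro i hi
  rw [Nat.testBit_shiftLeft, Nat.testBit_two_pow_sub_one, Bool.and_eq_true, decide_eq_true_eq,
    decide_eq_true_eq] at hi
  omega

theorem lba_bits {a : ℕ} (ha : a < 2 ^ 16) : Bits 64 127 (Nat.shiftLeft a 70) := by
  intro i hi
  change (a <<< 70).testBit i = true at hi
  rw [Nat.testBit_shiftLeft, Bool.and_eq_true, decide_eq_true_eq] at hi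
  have h2 : i - 70 < 16 := by
    by_contra hc
    have := Nat.testBit_lt_two_pow (lt_of_lt_of_le ha (Nat.pow_le_pow_right (by norm_num)
      (not_lt.mp hc)))
    rw [this] at hi
    exact Bool.false_ne_true hi.2
  omega

/-- the sum over the other positions of the face -/
def lbaS (n b0 : ℕ) (b : ℕ → ℕ → ℕ) : ℕ := b0 + ∑ i ∈ Finset.range n, (b 0 i + b 1 i)

theorem lba_S_le {n b0 : ℕ} {b : ℕ → ℕ → ℕ} (hn : n ≤ 10) (h0 : b0 ≤ 255)
    (hb : ∀ k ≤ 1, ∀ i, b k i ≤ 255) : lbaS n b0 b < 65536 := by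
  unfold lbaS
  have h1 : ∑ i ∈ Finset.range n, (b 0 i + b 1 i) ≤ ∑ _i ∈ Finset.range n, 510 :=
    Finset.sum_le_sum fun i _ => by have := hb 0 (by omega) i; have := hb 1 le_rfl i; omega
  rw [Finset.sum_const, Finset.card_range, smul_eq_mul] at h1
  omega

theorem lba_S_mono {n b0 b0' : ℕ} {b b' : ℕ → ℕ → ℕ} (h0 : b0 ≤ b0')
    (h : ∀ k ≤ 1, ∀ i, b k i ≤ b' k i) : lbaS n b0 b ≤ lbaS n b0' b' :=
  Nat.add_le_add h0 (Finset.sum_le_sum fun i _ =>
    Nat.add_le_add (h 0 (by omega) i) (h 1 le_rfl i))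

theorem lba_fsum {D : Type} (R : Rule) (σ α : Perm D) (N : Set D) (g : ℕ → ℕ) (x : D) {n k : ℕ}
    (hn : fln σ α x = n + 1) (hk : k ≤ 1) :
    fsum R σ α N g x = g (lv R σ α N k x) + lbaS n (g (lv R σ α N (1 - k) x))
      (fun k i => g (lv R σ α N k (((σ * α) ^ (i + 1)) x))) := by
  unfold fsum lbaS
  rw [hn, Finset.sum_range_succ', pow_zero, Perm.one_apply]
  rcases Nat.le_one_iff_eq_zero_or_eq_one.mp hk with rfl | rfl
  · simp only [Nat.sub_zero]
    omega
  · simp only [Nat.sub_self]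
    omega

/-- the three parts of the contribution of a competitor of level `l` -/
def LbaC (R : Rule) (a l v : ℕ) (p : ℕ × ℕ × ℕ) : Prop :=
  v = p.1 + 65536 * p.2.1 + 4294967296 * p.2.2 ∧ p.1 ≤ 255 ∧ p.2.1 ≤ 255 ∧
  (if byt R.ti a ≤ byt R.ti l then byt R.am1 l else 0) ≤ p.1 ∧
  (if byt R.ti l = byt R.ti a then byt R.wt l else 0) ≤ p.2.1 ∧
  (if byt R.ti a + 1 ≤ byt R.ti l then byt R.am1 l else 0) ≤ p.2.2

theorem lba_cmpt (hrp : St_rp) (hev : St_ev) {R : Rule} {D : Type} [Fintype D] {σ α : Perm D}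
    {N : Set D} (hC : Ctx σ α N) {m nd : ℕ} {h : ℕ → D} (hH : Hom R σ α N m nd h) (hR : RuleOK R)
    {a k y : ℕ} {z : D} (ha1 : 1 ≤ a) (ha : a < 16) (hk : k ≤ 1) (hy : Rp nd h y z) :
    ∃ p, LbaC R a (lv R σ α N k z) (cmpt R m a k y) p := by
  obtain ⟨-, -, hR3, hR4, -, -, -, -, -, -, -, hR8⟩ := hR
  obtain ⟨hb1, hb2⟩ := (hev R D σ α N hC m nd h hH y z hy).2.2 k hk
  have hf := (hrp R D σ α N hC m nd h hH y z hy).2.2.2.2.2.2.2.2.1
  have hl : lv R σ α N k z < 16 := Nat.mod_lt _ (by norm_num)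
  have hs : sb (tmk R a) (Nat.shiftRight m (Nat.add y (kof k))) = true →
      byt R.ti a < byt R.ti (lv R σ α N k z) := by
    intro hs
    rw [(lv_kof hk).1] at hs
    have h1 := lv_read (by omega) hf hs
    rw [lv_fv0] at h1
    have h2 := (hR8 a ha (min (lv R σ α N k z) 9) (by omega)).2 (min_le_right _ _)
    have h3 := lba_mono hR3 (min_le_left (lv R σ α N k z) 9) hl
    rw [h1] at h2
    by_contra h4
    exact absurd (h2 (by omega)) (by simp)
  unfold cmpt
  rw [frc_eq]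
  generalize ubl R m k y = b at hb1 hb2
  generalize lv R σ α N k z = l at hb1 hl hs
  have h1 := lba_mono hR3 hb1 hb2
  obtain ⟨h2, h3, h8⟩ := hR4 l hl b hb2 hb1
  have h9 := lba_mono hR3 ha1 ha
  have h10 := lba_byt R.amh b
  have h4 := (hR8 a ha l hl).1
  have h5 := lba_byt R.amx b
  have h6 := lba_byt R.wt b
  have h7 := lba_byt R.wx a
  have e : ∀ v : ℕ, Nat.shiftLeft v 16 = 65536 * v := fun v =>
    (Nat.shiftLeft_eq v 16).trans (Nat.mul_comm _ _)
  have e' : ∀ v : ℕ, Nat.shiftLeft v 32 = 4294967296 * v := fun v =>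
    (Nat.shiftLeft_eq v 32).trans (Nat.mul_comm _ _)
  simp only [sel_eq, Nat.blt_eq, Nat.beq_eq, e, e', Nat.add_eq, Nat.mul_eq]
  split_ifs with c1 c2 c3
  · refine ⟨(0, 0, 0), rfl, ?_⟩
    dsimp only
    split_ifs <;> omega
  · refine ⟨(byt R.amx b, byt R.wt b, 0), rfl, ?_⟩
    dsimp only
    split_ifs <;> omega
  · have := hs c3
    refine ⟨(byt R.amh b, 0, byt R.amh b), by dsimp only; omega, ?_⟩
    dsimp only
    split_ifs <;> omega
  · refine ⟨(byt R.amx b, byt R.wx a, byt R.amh b), by dsimp only; omega, ?_⟩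
    dsimp only
    split_ifs <;> omega

theorem stLBA (hrp : St_rp) (htab : St_tab) (hev : St_ev) : St_lba := by
  intro R D _ σ α N hC m nd h hH hR d hd k r j hk hj
  have hd' : Rp nd h d (h d) := Or.inr ⟨hd, rfl⟩
  have RP := hrp R D σ α N hC m nd h hH d (h d) hd'
  have EV := hev R D σ α N hC m nd h hH
  obtain ⟨hx, hm, hu⟩ := EV d (h d) hd'
  obtain ⟨hR1, -, -, -, hR5, -, -, -, -, hR6, hR7, -⟩ := hR
  have hL : ∀ k y, lv R σ α N k y < 16 := fun k y => Nat.mod_lt _ (by norm_num)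
  obtain ⟨ha16, ha⟩ := hm (R.s k) r 15
  unfold lba
  rw [frc_eq, sel_eq]
  generalize evMin m r (R.s k) d 15 = a at ha16 ha ⊢
  by_cases ha0 : a = 0
  · rw [if_pos (Nat.beq_eq.mpr ha0)]
    exact ⟨Nat.zero_le _, fun hh => absurd rfl hh⟩
  rw [if_neg (fun hh => ha0 (Nat.beq_eq.mp hh))]
  obtain ⟨haL, hr⟩ := ha ha0
  refine ⟨?_, fun _ => hr⟩
  have haL' : a ≤ lv R σ α N k (h d) := by
    unfold clamp at haL
    rw [if_pos (by omega)] at haL
    exact haL
  have hm0 := lba_mono hR1 haL' (hL _ _)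
  have h84 : tb m (Nat.add d 84) = true → fc σ α N (h d) ≠ 14 := fun e e1 => by
    rw [tb_eq] at e
    have := RP.2.2.2.2.2.2.2.2.1 84 (by omega) (by omega) e
    rw [Fact, if_neg (by omega), if_pos (by omega), e1] at this
    exact this rfl
  rw [sel_eq]
  split_ifs with c0
  · have hk2 := Nat.ble_eq.mp c0
    rw [sel_eq, amt, if_neg (show ¬ (k ≤ 1 ∧ _) from fun hh => by omega), lba_mn]
    split_ifs with c1 c2 c2
    · rcases (dj_iff _ _).mp c1 with c | c
      · have := Nat.beq_eq.mp c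
        omega
      · exact absurd c2.1 (h84 c)
    · exact hm0
    · obtain rfl : k = 2 := by omega
      rw [lng, if_pos rfl]
      exact min_le_min le_rfl hm0
    · exact (min_le_right _ _).trans hm0
  have hk1 : k ≤ 1 := by
    by_contra hc
    exact c0 (Nat.ble_eq.mpr (by omega))
  rw [sel_eq]
  split_ifs with c1
  · have hn : ¬ (k ≤ 1 ∧ R.c1.testBit (fc σ α N (h d)) = true) := by
      rintro ⟨-, hb⟩
      have hF := RP.2.2.2.2.2.2.2.2.2.1 _ (lba_bits hR5) c1
      have := (htab R D σ α N hC (h d) 0).2.2.2.2.2.2.2.2.1 _ hR5 hF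
      rw [this] at hb
      exact Bool.false_ne_true hb
    rw [amt, if_neg hn, sel_eq]
    by_cases c2 : tb m (Nat.add d 84) = true
    · rw [if_pos c2, if_neg (fun hh => h84 c2 hh.1)]
      exact hm0
    rw [if_neg c2, sel_eq]
    by_cases c3 : cj (sb (clsX 14) (Nat.shiftRight m d)) (Nat.beq (evMax m R.s2 d 0) 0) = true
    swap
    · rw [if_neg c3]
      exact Nat.zero_le _
    rw [if_pos c3]
    rw [cj_iff, Nat.beq_eq] at c3
    obtain ⟨hB, hcls⟩ := (htab R D σ α N hC (h d) 14).2.2.1 (by omega)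
    have hfc := hcls (RP.2.2.2.2.2.2.2.2.2.1 _ (fun i hi => by have := hB i hi; omega) c3.1)
    have h2 : lv R σ α N 2 (h d) = 0 := Nat.le_zero.mp (c3.2 ▸ (hx R.s2 0).2)
    have hb := (hu (1 - k) (by omega)).1
    rw [if_pos ⟨hfc, by omega⟩, lng, if_neg (by omega), if_neg (by omega), frc_eq, sel_eq, sel_eq]
    change lv R σ α N (1 - k) (h d) ≤ ubl R m (Nat.sub 1 k) d at hb
    simp only [Nat.blt_eq, Nat.ble_eq]
    split_ifs <;> omega
  rw [sel_eq]
  split_ifs with c2
  swap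
  · exact Nat.zero_le _
  generalize Nat.land j 7 = t at c2
  rw [cj_iff, Nat.ble_eq] at c2
  have h1 := lv_read (s := 2 * k + 1) (a := low t) (by omega) RP.2.2.2.2.2.2.2.2.1 (by
    rw [← c2.1, ← (lv_kof hk1).2.2]
    congr 2)
  rw [lv_low, lv_fv1, decide_eq_false_iff_not, not_lt] at h1
  have hLa : lv R σ α N k (h d) = a := le_antisymm ((hu k hk1).1.trans c2.2) haL'
  have h2 : byt R.th (acl R σ α N k (h d)) * byt R.am1 (lv R σ α N k (h d)) ≤
      12 * amt R σ α N k (h d) :=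
    Nat.findGreatest_spec (P := fun j => byt R.th j * byt R.am1 (lv R σ α N k (h d)) ≤
      12 * amt R σ α N k (h d)) (m := 0) (Nat.zero_le 5) (by rw [hR6]; omega)
  have h3 : acl R σ α N k (h d) ≤ 5 := Nat.findGreatest_le 5
  have h4 : byt R.th t ≤ byt R.th (acl R σ α N k (h d)) := by
    generalize acl R σ α N k (h d) = b at h1 h3
    induction b, h1 using Nat.le_induction with
    | base => exact le_rfl
    | succ b _ ih => exact (ih (by omega)).trans (hR7 b (by omega))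
  rw [hLa] at h2
  have h5 := Nat.mul_le_mul_right (byt R.am1 a) h4
  change byt R.th t * byt R.am1 a / 12 ≤ _
  omega

theorem stSHR (hinv : St_inv) (hrp : St_rp) (htab : St_tab) (hev : St_ev) : St_shr := by
  intro R D _ σ α N hC m nd h hH hR d hd k j a t hk1 c2
  have hd' : Rp nd h d (h d) := Or.inr ⟨hd, rfl⟩
  have RP := hrp R D σ α N hC m nd h hH d (h d) hd'
  have hu0 := (hev R D σ α N hC m nd h hH d (h d) hd').2.2
  have hR5 := hR.2.2.2.2.1
  simp only [shrL, cj_iff, tb_eq, Nat.ble_eq] at c2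
  obtain ⟨hb, hfl1, hcl, hlo, hmx, ht5, hhi, ha1, hth⟩ := c2
  have haL' : a ≤ min (lv R σ α N k (h d)) 9 := by
    have h1 := lv_read (s := 2 * k) (a := low a) (by omega) RP.2.2.2.2.2.2.2.2.1 (by
      rw [← hlo, (lv_kof hk1).1]
      rfl)
    rw [lv_low, lv_fv0, decide_eq_false_iff_not] at h1
    omega
  have h1 := lv_read (s := 2 * k + 1) (a := Nat.land 63 (hig t)) (by omega) RP.2.2.2.2.2.2.2.2.1 (by
    rw [← hhi, ← (lv_kof hk1).2.2]
    congr 2)
  have h3 : acl R σ α N k (h d) ≤ 5 := Nat.findGreatest_le 5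
  change ((2 ^ 6 - 1) &&& hig t).testBit _ = false at h1
  rw [← Bool.not_eq_true, Nat.testBit_and, Bool.and_eq_true, Nat.testBit_two_pow_sub_one,
    decide_eq_true_eq, lv_hig, lv_fv1] at h1
  have hLa : lv R σ α N k (h d) = a := le_antisymm ((hu0 k hk1).1.trans hmx) (by omega)
  refine h1 ⟨by omega, Nat.le_findGreatest ht5 ?_, by omega⟩
  rw [hLa]
  refine le_trans hth (Nat.mul_le_mul_left 12 ?_)
  have hj16 : j < 16 := by
    by_contra hc
    have := Nat.testBit_lt_two_pow (lt_of_lt_of_le hR5 (Nat.pow_le_pow_right (by norm_num)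
      (not_lt.mp hc)))
    rw [this] at hb
    exact Bool.false_ne_true hb
  obtain ⟨hB, hcls⟩ := (htab R D σ α N hC (h d) j).2.2.1 (by omega)
  have hfc : fc σ α N (h d) = j := hcls (RP.2.2.2.2.2.2.2.2.2.1 _
    (fun i hi => by have := hB i hi; omega) hcl)
  have hfln : fln σ α (h d) = (fl j - 1) + 1 := by
    rcases (hinv D σ α N hC.cls (h d)).2.2.2.2.2.2.2.2.2.2.2.2 with h1 | h1
    · rw [hfc] at h1
      omega
    · rw [hfc] at h1
      rw [h1.1, lba_fl14] at hfl1
      omega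
  have hj11 := lba_fl j hj16
  obtain ⟨p0, q0⟩ := lba_cmpt hrp hev hC hH hR (a := a) (k := 1 - k) ha1 (by omega) (by omega) hd'
  have hq : ∀ k' i, ∃ p, k' ≤ 1 → LbaC R a (lv R σ α N k' (((σ * α) ^ (i + 1)) (h d)))
      (cmpt R m a k' (itr (ph m) (i + 1) d)) p := fun k' i => by
    by_cases hk' : k' ≤ 1
    · obtain ⟨p, q⟩ := lba_cmpt hrp hev hC hH hR (a := a) ha1 (by omega) hk'
        (RP.2.2.2.2.2.2.2.1 (i + 1))
      exact ⟨p, fun _ => q⟩
    · exact ⟨0, fun hh => absurd hh hk'⟩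
  choose p q using hq
  have ht : sumI (ph m) (fun y => Nat.add (cmpt R m a 0 y) (cmpt R m a 1 y))
      (Nat.pred (fl j)) (ph m d) (cmpt R m a (Nat.sub 1 k) d) =
      lbaS (fl j - 1) p0.1 (fun k i => (p k i).1) +
        65536 * lbaS (fl j - 1) p0.2.1 (fun k i => (p k i).2.1) +
        4294967296 * lbaS (fl j - 1) p0.2.2 (fun k i => (p k i).2.2) := by
    rw [lba_sumI]
    simp only [lbaS, ← lba_itr, Nat.add_eq, Nat.sub_eq, Nat.pred_eq_sub_one, q0.1,
      fun i => (q 0 i (by omega)).1, fun i => (q 1 i le_rfl).1, Finset.sum_add_distrib,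
      ← Finset.mul_sum]
    ring
  have hA := lba_S_le (n := fl j - 1) (b := fun k i => (p k i).1) (by omega) q0.2.1
    fun k hk i => (q k i hk).2.1
  have hW := lba_S_le (n := fl j - 1) (b := fun k i => (p k i).2.1) (by omega) q0.2.2.1
    fun k hk i => (q k i hk).2.2.1
  have gA := lba_S_mono (n := fl j - 1) (b' := fun k i => (p k i).1) q0.2.2.2.1
    fun k hk i => (q k i hk).2.2.2.1
  have gW := lba_S_mono (n := fl j - 1) (b' := fun k i => (p k i).2.1) q0.2.2.2.2.1
    fun k hk i => (q k i hk).2.2.2.2.1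
  have gH := lba_S_mono (n := fl j - 1) (b' := fun k i => (p k i).2.2) q0.2.2.2.2.2
    fun k hk i => (q k i hk).2.2.2.2.2
  have hcap : capn R j (sumI (ph m) (may2 m) (fl j) d 0) ≤ capx R σ α N (h d) := by
    classical
    have h2 : cnt2 σ α N (h d) ≤ sumI (ph m) (may2 m) (fl j) d 0 := by
      rw [lba_sumI, Nat.zero_add, cnt2, hfln, Nat.sub_add_cancel hfl1, Finset.card_filter]
      refine Finset.sum_le_sum fun i _ => ?_
      split_ifs with h4
      · have h5 := (hrp R D σ α N hC m nd h hH _ _ (RP.2.2.2.2.2.2.2.1 i)).2.2.2.2.2.2.2.2.1 65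
          (by norm_num) (by norm_num)
        rw [Fact, if_pos (by norm_num), h4] at h5
        have h6 : m.testBit (itr (ph m) i d + 65) = false := by
          cases e : m.testBit (itr (ph m) i d + 65)
          · rfl
          · exact absurd rfl (h5 e)
        have h7 : (may2 m (itr (ph m) i d)).testBit 0 = true := by
          change ((m >>> (itr (ph m) i d + 65) ^^^ 1) &&& 1).testBit 0 = true
          rw [Nat.testBit_and, Nat.testBit_xor, Nat.testBit_shiftRight, Nat.add_zero, h6]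
          rfl
        exact Nat.ge_two_pow_of_testBit h7
      · exact Nat.zero_le _
    rw [capx, hfc]
    change byt R.cap j + 12 * (byt R.kh j - _) ≤ _
    omega
  have hc1 : k ≤ 1 ∧ R.c1.testBit (fc σ α N (h d)) = true := ⟨hk1, by rw [hfc]; exact hb⟩
  have gA' : req R σ α N (byt R.ti a) (h d) ≤
      byt R.am1 a + lbaS (fl j - 1) p0.1 (fun k i => (p k i).1) := by
    unfold req
    rw [lba_fsum R σ α N _ _ hfln hk1, hLa, if_pos le_rfl]
    exact Nat.add_le_add_left gA _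
  have gH' : req R σ α N (byt R.ti a + 1) (h d) ≤
      lbaS (fl j - 1) p0.2.2 (fun k i => (p k i).2.2) := by
    unfold req
    rw [lba_fsum R σ α N _ _ hfln hk1, hLa, if_neg (Nat.not_succ_le_self _), Nat.zero_add]
    exact gH
  have gW' : byt R.wt a ≤
        fsum R σ α N (fun l => if byt R.ti l = byt R.ti a then byt R.wt l else 0) (h d) ∧
      fsum R σ α N (fun l => if byt R.ti l = byt R.ti a then byt R.wt l else 0) (h d) ≤
        byt R.wt a + lbaS (fl j - 1) p0.2.1 (fun k i => (p k i).2.1) := by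
    rw [lba_fsum R σ α N _ _ hfln hk1, hLa, if_pos rfl]
    exact ⟨Nat.le_add_right _ _, Nat.add_le_add_left gW _⟩
  clear gA gH gW
  unfold amt shr
  rw [if_pos hc1, hLa, frc_eq, frc_eq, ht]
  generalize req R σ α N (byt R.ti a) (h d) = A' at gA' ⊢
  generalize req R σ α N (byt R.ti a + 1) (h d) = H' at gH' ⊢
  generalize fsum R σ α N (fun l => if byt R.ti l = byt R.ti a then byt R.wt l else 0)
    (h d) = W' at gW' ⊢
  generalize capn R j (sumI (ph m) (may2 m) (fl j) d 0) = C at hcap ⊢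
  generalize capx R σ α N (h d) = C' at hcap ⊢
  generalize lbaS (fl j - 1) p0.1 (fun k i => (p k i).1) = A at hA gA' ⊢
  generalize lbaS (fl j - 1) p0.2.1 (fun k i => (p k i).2.1) = Wt at hW gW' ⊢
  generalize lbaS (fl j - 1) p0.2.2 (fun k i => (p k i).2.2) = H at gH' ⊢
  have e1 : Nat.land (A + 65536 * Wt + 4294967296 * H) 65535 = A := by
    change (A + 65536 * Wt + 4294967296 * H) &&& (2 ^ 16 - 1) = A
    rw [Nat.and_two_pow_sub_one_eq_mod]
    omega
  have e2 : Nat.shiftRight (A + 65536 * Wt + 4294967296 * H) 32 = H := by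
    change (A + 65536 * Wt + 4294967296 * H) >>> 32 = H
    rw [Nat.shiftRight_eq_div_pow]
    omega
  have e3 : Nat.land (Nat.shiftRight (A + 65536 * Wt + 4294967296 * H) 16) 65535 = Wt := by
    change (A + 65536 * Wt + 4294967296 * H) >>> 16 &&& (2 ^ 16 - 1) = Wt
    rw [Nat.and_two_pow_sub_one_eq_mod, Nat.shiftRight_eq_div_pow]
    omega
  rw [e1, e2, e3, sel_eq, lba_mn]
  simp only [Nat.ble_eq, Nat.add_eq]
  split_ifs with c1 c2 c2
  · exact le_rfl
  · omega
  · exact min_le_left _ _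
  · refine min_le_min le_rfl ?_
    change (C - H) * byt R.wt a / (byt R.wt a + Wt) ≤ _
    rcases Nat.eq_zero_or_pos (byt R.wt a) with hw | hw
    · rw [hw, Nat.mul_zero, Nat.zero_div]
      exact Nat.zero_le _
    · exact Nat.div_le_div (Nat.mul_le_mul_right _ (by omega)) (by omega) (by omega)

end Pool.Agent.Lib.G6
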