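import Pool.Agent.Lib.G6.Blue
import Pool.Agent.Lib.MP_bfaad3_co.PM1

set_option autoImplicit false
set_option linter.unusedVariables false

/-! New links between old darts, equalities. -/

namespace Pool.Agent.Lib.G6

open Equiv
open Pool.Agent.Lib.MP_bfaad3_co (frc sel cj dj tb sb BT frc_eq sel_eq cj_iff)

/-- the field of width `w` at position `p` -/
def lnkGf (m p w : ℕ) : ℕ := m >>> p &&& (2 ^ w - 1)

/-- `m'` is `m` with the field of width `w` at position `p` set to `v` -/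
def lnkUpd (m m' p w v : ℕ) : Prop :=
  ∀ i, m'.testBit i = if p ≤ i ∧ i < p + w then v.testBit (i - p) else m.testBit i

theorem lnk_bit (m p w j : ℕ) :
    (lnkGf m p w).testBit j = (m.testBit (p + j) && decide (j < w)) := by
  rw [lnkGf, Nat.testBit_and, Nat.testBit_shiftRight, Nat.testBit_two_pow_sub_one]

theorem lnk_hi {v w j : ℕ} (hv : v < 2 ^ w) (hj : w ≤ j) : v.testBit j = false :=
  Nat.testBit_lt_two_pow (hv.trans_le (Nat.pow_le_pow_right (by norm_num) hj))

theorem lnk_congr {m m' q w : ℕ} (h : ∀ j < w, m'.testBit (q + j) = m.testBit (q + j)) :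
    lnkGf m' q w = lnkGf m q w := by
  refine Nat.eq_of_testBit_eq fun j => ?_
  rw [lnk_bit, lnk_bit]
  by_cases hj : j < w
  · rw [h j hj]
  · simp [hj]

theorem lnk_same {m m' p w v : ℕ} (h : lnkUpd m m' p w v) (hv : v < 2 ^ w) :
    lnkGf m' p w = v := by
  refine Nat.eq_of_testBit_eq fun j => ?_
  rw [lnk_bit, h]
  by_cases hj : j < w
  · rw [if_pos (by omega)]
    simp [hj]
  · simp [hj, lnk_hi hv (not_lt.1 hj)]

theorem lnk_other {m m' p w v q w' : ℕ} (h : lnkUpd m m' p w v) (hq : q + w' ≤ p ∨ p + w ≤ q) :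
    lnkGf m' q w' = lnkGf m q w' :=
  lnk_congr fun j hj => by rw [h, if_neg (by omega)]

theorem lnk_or {m p w v : ℕ} (h0 : lnkGf m p w = 0) (hv : v < 2 ^ w) :
    lnkUpd m (m ||| v <<< p) p w v := by
  intro i
  rw [Nat.testBit_or, Nat.testBit_shiftLeft]
  split_ifs with hi
  · have := lnk_bit m p w (i - p)
    rw [h0, Nat.zero_testBit, show p + (i - p) = i by omega,
      decide_eq_true (show i - p < w by omega), Bool.and_true] at this
    simp [← this, hi.1]
  · by_cases h1 : p ≤ i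
    · simp [lnk_hi hv (show w ≤ i - p by omega)]
    · simp [h1]

theorem lnk_xor {m p w v : ℕ} (hv : v < 2 ^ w) :
    lnkUpd m (m ^^^ (lnkGf m p w ^^^ v) <<< p) p w v := by
  intro i
  rw [Nat.testBit_xor, Nat.testBit_shiftLeft, Nat.testBit_xor, lnk_bit]
  split_ifs with hi
  · rw [show p + (i - p) = i by omega, decide_eq_true (show i - p < w by omega),
      decide_eq_true (show i ≥ p from hi.1)]
    cases m.testBit i <;> cases v.testBit (i - p) <;> rfl
  · by_cases h1 : p ≤ i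
    · simp [lnk_hi hv (show w ≤ i - p by omega), show ¬ i - p < w by omega]
    · simp [h1]

theorem lnk_fld (m d o : ℕ) : fld m d o = lnkGf m (d + o) 17 := rfl
theorem lnk_nx (m d : ℕ) : nx m d = lnkGf m (d + 0) 17 := rfl
theorem lnk_pv (m d : ℕ) : pv m d = lnkGf m (d + 17) 17 := rfl
theorem lnk_al (m d : ℕ) : al m d = lnkGf m (d + 34) 17 := rfl
theorem lnk_eqd (m d : ℕ) : eqd m d = lnkGf m (d + 51) 10 <<< 7 := rfl

/-- the image of a link -/
def lnkTg {D : Type} (σ α : Perm D) (o : ℕ) (x : D) : D :=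
  if o = 0 then σ x else if o = 17 then σ⁻¹ x else α x

theorem lnk_off (r : ℕ) : off r = 0 ∨ off r = 17 ∨ off r = 34 := by
  change r % 3 * 17 = 0 ∨ r % 3 * 17 = 17 ∨ r % 3 * 17 = 34
  omega

section

variable {R : Rule} {D : Type} [Fintype D] {σ α : Perm D} {N : Set D} {m nd : ℕ} {h : ℕ → D}

theorem lnk_get (hh : Hom R σ α N m nd h) {d o : ℕ} (hd : Val nd d)
    (ho : o = 0 ∨ o = 17 ∨ o = 34) :
    fld m d o = 0 ∨ (Val nd (fld m d o) ∧ h (fld m d o) = lnkTg σ α o (h d)) := by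
  rcases ho with rfl | rfl | rfl
  exacts [hh.hn d hd, hh.hp d hd, hh.ha d hd]

theorem lnk_lt (hh : Hom R σ α N m nd h) {y : ℕ} (hy : y = 0 ∨ Val nd y) : y < 2 ^ 17 := by
  have := hh.nd3
  rcases hy with rfl | hy
  · norm_num
  · have := hy.2.1
    omega

/-- overwriting a link -/
theorem lnk_link (hh : Hom R σ α N m nd h) {d o y m' : ℕ} (hd : Val nd d)
    (ho : o = 0 ∨ o = 17 ∨ o = 34) (hu : lnkUpd m m' (d + o) 17 y)
    (hy : y = 0 ∨ (Val nd y ∧ h y = lnkTg σ α o (h d))) : Hom R σ α N m' nd h := by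
  have hlt : y < 2 ^ 17 := lnk_lt hh (hy.imp_right And.left)
  have key : ∀ d' o', Val nd d' → (o' = 0 ∨ o' = 17 ∨ o' = 34) →
      fld m' d' o' = 0 ∨ (Val nd (fld m' d' o') ∧ h (fld m' d' o') = lnkTg σ α o' (h d')) := by
    intro d' o' hd' ho'
    by_cases e : d' = d ∧ o' = o
    · obtain ⟨rfl, rfl⟩ := e
      rw [lnk_fld, lnk_same hu hlt]
      exact hy
    · have := hd.2.2
      have := hd'.2.2
      rw [lnk_fld, lnk_other hu (by omega), ← lnk_fld]
      exact lnk_get hh hd' ho'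
  have h1 := hh.nd1
  obtain ⟨d1, d2, d3⟩ := hd
  refine ⟨hh.nd1, hh.nd2, hh.nd3, fun i hi => ?_, fun i hi hi' => ?_,
    fun d' hd' => key d' 0 hd' (by omega), fun d' hd' => key d' 17 hd' (by omega),
    fun d' hd' => key d' 34 hd' (by omega), fun d' hd' => ?_, fun d' i hd' i1 i2 hb => ?_⟩
  · rw [hu, if_neg (by omega)]
    exact hh.top i hi
  · rw [hu, if_neg (by omega)]
    exact hh.nul i hi hi'
  · have := hd'.2.2
    rw [lnk_eqd, lnk_other hu (by omega), ← lnk_eqd]
    exact hh.he d' hd'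
  · have := hd'.2.2
    rw [hu, if_neg (by omega)] at hb
    exact hh.hf d' i hd' i1 i2 hb

theorem lnk_setE (hh : Hom R σ α N m nd h) {d y : ℕ} (hd : Val nd d) (hy : Val nd y)
    (e : h y = h d) : Hom R σ α N (setE m y d) nd h := by
  have h1 := hh.nd1
  have h3 := hh.nd3
  obtain ⟨y1, y2, y3⟩ := hy
  have hlt : d >>> 7 < 2 ^ 10 := by
    have := hd.2.1
    rw [Nat.shiftRight_eq_div_pow]
    omega
  have hu : lnkUpd m (setE m y d) (y + 51) 10 (d >>> 7) := by
    have := lnk_xor (m := m) (p := y + 51) hlt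
    rwa [← Nat.shiftLeft_shiftRight (lnkGf m (y + 51) 10) 7] at this
  have key : ∀ d' o', Val nd d' → (o' = 0 ∨ o' = 17 ∨ o' = 34) →
      fld (setE m y d) d' o' = 0 ∨ (Val nd (fld (setE m y d) d' o') ∧
        h (fld (setE m y d) d' o') = lnkTg σ α o' (h d')) := by
    intro d' o' hd' ho'
    have := hd'.2.2
    rw [lnk_fld, lnk_other hu (by omega), ← lnk_fld]
    exact lnk_get hh hd' ho'
  refine ⟨hh.nd1, hh.nd2, hh.nd3, fun i hi => ?_, fun i hi hi' => ?_,
    fun d' hd' => key d' 0 hd' (by omega), fun d' hd' => key d' 17 hd' (by omega),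
    fun d' hd' => key d' 34 hd' (by omega), fun d' hd' => ?_, fun d' i hd' i1 i2 hb => ?_⟩
  · rw [hu, if_neg (by omega)]
    exact hh.top i hi
  · rw [hu, if_neg (by omega)]
    exact hh.nul i hi hi'
  · by_cases e' : d' = y
    · subst e'
      have e2 : (d >>> 7) <<< 7 = d := by
        have := hd.2.2
        rw [Nat.shiftRight_eq_div_pow, Nat.shiftLeft_eq]
        omega
      rw [lnk_eqd, lnk_same hu hlt, e2]
      exact .inr ⟨hd, e.symm⟩
    · have := hd'.2.2
      rw [lnk_eqd, lnk_other hu (by omega), ← lnk_eqd]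
      exact hh.he d' hd'
  · have := hd'.2.2
    rw [hu, if_neg (by omega)] at hb
    exact hh.hf d' i hd' i1 i2 hb

theorem lnk_AM {i : ℕ} (hi : AM.testBit i = true) : 64 ≤ i ∧ i < 127 := by
  rw [show AM = (2 ^ 63 - 1) <<< 64 by decide, Nat.testBit_shiftLeft,
    Nat.testBit_two_pow_sub_one] at hi
  simp only [ge_iff_le, Bool.and_eq_true, decide_eq_true_eq] at hi
  omega

/-- copying the facts -/
theorem lnk_facts (hh : Hom R σ α N m nd h) {d y : ℕ} (hd : Val nd d) (hy : Val nd y)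
    (e : h y = h d) : Hom R σ α N (put m d (Nat.land (Nat.shiftRight m y) AM)) nd h := by
  have hb : ∀ i, (put m d (Nat.land (Nat.shiftRight m y) AM)).testBit i =
      (m.testBit i || (decide (i ≥ d) && (m.testBit (y + (i - d)) && AM.testBit (i - d)))) := by
    intro i
    change (m ||| (m >>> y &&& AM) <<< d).testBit i = _
    rw [Nat.testBit_or, Nat.testBit_shiftLeft, Nat.testBit_and, Nat.testBit_shiftRight]
  have hs : ∀ i, ¬ (d + 64 ≤ i ∧ i < d + 127) →
      (put m d (Nat.land (Nat.shiftRight m y) AM)).testBit i = m.testBit i := by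
    intro i hi
    rw [hb]
    by_cases h1 : d ≤ i
    · have : AM.testBit (i - d) = false := by
        by_contra h2
        have := lnk_AM (Bool.of_not_eq_false h2)
        omega
      simp [this]
    · simp [h1]
  have h1 := hh.nd1
  obtain ⟨d1, d2, d3⟩ := hd
  have hg : ∀ d' o w, Val nd d' → o + w ≤ 64 →
      lnkGf (put m d (Nat.land (Nat.shiftRight m y) AM)) (d' + o) w = lnkGf m (d' + o) w :=
    fun d' o w hd' how => lnk_congr fun j hj => hs _ (by
      have := hd'.2.2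
      omega)
  refine ⟨hh.nd1, hh.nd2, hh.nd3, fun i hi => ?_, fun i hi hi' => ?_,
    fun d' hd' => ?_, fun d' hd' => ?_, fun d' hd' => ?_, fun d' hd' => ?_,
    fun d' i hd' i1 i2 hi => ?_⟩
  · rw [hs i (by omega)]
    exact hh.top i hi
  · rw [hs i (by omega)]
    exact hh.nul i hi hi'
  · rw [lnk_nx, hg d' 0 17 hd' (by omega)]
    exact hh.hn d' hd'
  · rw [lnk_pv, hg d' 17 17 hd' (by omega)]
    exact hh.hp d' hd'
  · rw [lnk_al, hg d' 34 17 hd' (by omega)]
    exact hh.ha d' hd'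
  · rw [lnk_eqd, hg d' 51 10 hd' (by omega)]
    exact hh.he d' hd'
  · by_cases e' : d' = d
    · subst e'
      rw [hb, Nat.add_sub_cancel_left] at hi
      simp only [Bool.or_eq_true, Bool.and_eq_true] at hi
      rcases hi with hi | hi
      · exact hh.hf d' i hd' i1 i2 hi
      · rw [← e]
        exact hh.hf y i hy i1 i2 hi.2.1
    · have := hd'.2.2
      rw [hs _ (by omega)] at hi
      exact hh.hf d' i hd' i1 i2 hi

theorem lnk_cpL (hh : Hom R σ α N m nd h) {d y o : ℕ} (hd : Val nd d) (hy : Val nd y)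
    (e : h y = h d) (ho : o = 0 ∨ o = 17 ∨ o = 34) : Hom R σ α N (cpL m d y o) nd h := by
  rw [cpL, sel_eq]
  split_ifs with h0
  · have hg := lnk_get hh hy ho
    rw [e] at hg
    exact lnk_link hh hd ho
      (lnk_or (Nat.eq_of_beq_eq_true h0) (lnk_lt hh (hg.imp_right And.left))) hg
  · exact hh

theorem lnk_bkV (hh : Hom R σ α N m nd h) (K : ℕ → ℕ → Bool) (x : D) (fuel : ℕ) :
    ∀ f c, Val nd f → (σ ^ c) (h f) = x → bkV m K fuel f c = true →
      ∃ f n, Val nd f ∧ pv m f = 0 ∧ (σ ^ n) (h f) = x ∧ K f n = true := by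
  induction fuel with
  | zero => exact fun f c _ _ hb => absurd hb Bool.false_ne_true
  | succ n ih =>
    intro f c hf e hb
    change frc (pv m f) (fun p => sel (Nat.beq p 0) (K f c)
      (frc (Nat.succ c) (bkV m K n p))) = true at hb
    rw [frc_eq, sel_eq, frc_eq] at hb
    split_ifs at hb with h0
    · exact ⟨f, c, hf, Nat.eq_of_beq_eq_true h0, e, hb⟩
    · rcases hh.hp f hf with h1 | ⟨h1, h2⟩
      · rw [h1] at h0
        exact absurd rfl h0
      · refine ih _ _ h1 ?_ hb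
        rw [h2, pow_succ, Perm.mul_apply, ← e]
        simp

theorem lnk_bkF (hh : Hom R σ α N m nd h) (inv : ∀ x, α (α x) = x) (K : ℕ → ℕ → Bool) (x : D)
    (fuel : ℕ) : ∀ y c, Val nd y → ((σ * α) ^ c) (h y) = x → bkF m K fuel y (c + 1) = true →
      ∃ a n, Val nd a ∧ al m a = 0 ∧ ((σ * α) ^ n) (α (h a)) = x ∧ K a n = true := by
  induction fuel with
  | zero => exact fun f c _ _ hb => absurd hb Bool.false_ne_true
  | succ n ih =>
    intro y c hy e hb
    change frc (pv m y) (fun p => cj (Nat.ble 128 p) (frc (al m p) fun q =>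
      sel (Nat.beq q 0) (K p (c + 1)) (frc (Nat.succ (c + 1)) (bkF m K n q)))) = true at hb
    rw [frc_eq, cj_iff, frc_eq, sel_eq, frc_eq] at hb
    obtain ⟨hb0, hb⟩ := hb
    rcases hh.hp y hy with h1 | ⟨h1, h2⟩
    · rw [h1] at hb0
      exact absurd hb0 (by decide)
    have e' : ((σ * α) ^ (c + 1)) (α (h (pv m y))) = x := by
      rw [h2, pow_succ, Perm.mul_apply, Perm.mul_apply, inv, ← e]
      simp
    split_ifs at hb with h0
    · exact ⟨_, _, h1, Nat.eq_of_beq_eq_true h0, e', hb⟩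
    · rcases hh.ha _ h1 with h3 | ⟨h3, h4⟩
      · rw [h3] at h0
        exact absurd rfl h0
      · exact ih _ _ h3 (by rw [h4, e']) hb

theorem lnk_put (m d o v : ℕ) : put m d (v <<< o) = m ||| v <<< (d + o) := by
  change m ||| (v <<< o) <<< d = _
  rw [← Nat.shiftLeft_add, add_comm]

theorem lnk_cel1 (d : ℕ) : cel 0 d 0 = d <<< 17 := by
  change 0 ||| (d <<< 17 ||| 0 <<< 34) = _
  simp

theorem lnk_cel2 (d : ℕ) : cel 0 0 d = d <<< 34 := by
  change 0 ||| (0 <<< 17 ||| d <<< 34) = _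
  simp

end

theorem stLNK (_ : St_rp) : St_lnk := by
  intro R D _ σ α N hc m nd h hh d hd
  refine ⟨fun K fuel hb => lnk_bkV hh K _ fuel d 1 hd (by simp) hb,
    fun K fuel hb => lnk_bkF hh hc.cls.inv K _ fuel d 0 hd (by simp) hb,
    fun f hf h1 h2 e => ?_, fun a ha h1 h2 e => ?_,
    fun y hy e => ⟨lnk_setE hh hd hy e, ?_⟩, fun r y hy hv e => ?_, fun r y hy e h1 h2 => ?_,
    fun r h1 => ((lnk_get hh hd (lnk_off r)).resolve_left h1).1⟩
  · have u1 : lnkUpd m (put m d f) (d + 0) 17 f := lnk_or h1 (lnk_lt hh (.inr hf))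
    have g1 := lnk_link hh hd (.inl rfl) u1 (.inr ⟨hf, e⟩)
    rw [lnk_cel1, lnk_put]
    refine lnk_link g1 hf (.inr (.inl rfl)) (lnk_or ?_ (lnk_lt hh (.inr hd))) (.inr ⟨hd, ?_⟩)
    · have := hd.2.2
      have := hf.2.2
      rw [lnk_other u1 (by omega)]
      exact h2
    · simp [lnkTg, e]
  · have hne : a ≠ d := fun e' => hc.fpf (h d) (by rw [← e, e'])
    rw [lnk_cel2, lnk_cel2, lnk_put, lnk_put]
    have u1 : lnkUpd m (m ||| a <<< (d + 34)) (d + 34) 17 a := lnk_or h1 (lnk_lt hh (.inr ha))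
    have g1 := lnk_link hh hd (.inr (.inr rfl)) u1 (.inr ⟨ha, e⟩)
    refine lnk_link g1 ha (.inr (.inr rfl)) (lnk_or ?_ (lnk_lt hh (.inr hd))) (.inr ⟨hd, ?_⟩)
    · have := hd.2.2
      have := ha.2.2
      rw [lnk_other u1 (by omega)]
      exact h2
    · simp [lnkTg, e, hc.cls.inv]
  · rw [absorb, frc_eq, frc_eq, frc_eq]
    exact lnk_cpL (lnk_cpL (lnk_cpL (lnk_facts hh hd hy e) hd hy e (by omega)) hd hy e (by omega))
      hd hy e (by omega)
  · have h1 : fld m d (off r) ≠ 0 := by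
      have := hv.1
      omega
    exact lnk_link hh hd (lnk_off r) (lnk_xor (lnk_lt hh (.inr hy)))
      (.inr ⟨hy, e.trans ((lnk_get hh hd (lnk_off r)).resolve_left h1).2⟩)
  · obtain ⟨a1, a2⟩ := (lnk_get hh hd (lnk_off r)).resolve_left h1
    obtain ⟨b1, b2⟩ := (lnk_get hh hy (lnk_off r)).resolve_left h2
    exact ⟨a1, b1, by rw [a2, b2, e]⟩

end Pool.Agent.Lib.G6
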