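import Pool.Agent.Lib.G6.Blue
import Pool.Agent.Lib.MP_bfaad3_co.PM1

set_option autoImplicit false

/-! Soundness of the pattern matcher. -/

namespace Pool.Agent.Lib.G6

open Equiv
open Pool.Agent.Lib.MP_bfaad3_co (frc sel cj dj tb sb BT frc_eq sel_eq cj_iff dj_iff tb_eq sb_iff)

theorem mtc_bits_shift (a k s : ℕ) : Bits s (s + k) (Nat.shiftLeft (Nat.land a (2 ^ k - 1)) s) := by
  intro i hi
  change ((a &&& (2 ^ k - 1)) <<< s).testBit i = true at hi
  rw [Nat.testBit_shiftLeft, Nat.testBit_and, Nat.testBit_two_pow_sub_one] at hi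
  simp only [Bool.and_eq_true, decide_eq_true_eq] at hi
  omega

theorem mtc_bitsV (c : ℕ) : Bits 64 70 (tstV c) := mtc_bits_shift _ 6 64

theorem mtc_bitsF (c : ℕ) : Bits 70 92 (tstF c) := mtc_bits_shift _ 22 70

theorem mtc_bitsA (c : ℕ) (h : tstA c < 2 ^ 127) : Bits 64 127 (tstA c) := by
  intro i hi
  refine ⟨?_, ?_⟩
  · have := (mtc_bits_shift (Nat.shiftRight c 9) 22
      (Nat.add (Nat.land (Nat.shiftRight c 3) 63) 64) i hi).1
    change _ + 64 ≤ i at this
    omega
  · by_contra hn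
    rw [Nat.testBit_lt_two_pow (lt_of_lt_of_le h (Nat.pow_le_pow_right (by norm_num) (by omega)))]
      at hi
    exact Bool.false_ne_true hi

theorem mtc_mono {lo hi lo' hi' a : ℕ} (h : Bits lo hi a) (h1 : lo' ≤ lo) (h2 : hi ≤ hi') :
    Bits lo' hi' a := fun i hi => ⟨h1.trans (h i hi).1, (h i hi).2.trans_le h2⟩

theorem mtc_factsV {R : Rule} {D : Type} [Fintype D] {σ τ α : Perm D} {N : Set D} {a : ℕ}
    {x : D} (hb : Bits 64 70 a) (hv : vt τ N x = vt σ N x) (h : Facts R σ α N a x) :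
    Facts R τ α N a x := by
  intro i hi
  have h1 := h i hi
  unfold Fact at h1 ⊢
  rw [if_pos (hb i hi).2] at h1 ⊢
  rwa [hv]

theorem mtc_factsF {R : Rule} {D : Type} [Fintype D] {σ τ α : Perm D} {N : Set D} {a : ℕ}
    {x y : D} (hb : Bits 70 92 a) (hv : fc τ α N x = fc σ α N y) (h : Facts R σ α N a y) :
    Facts R τ α N a x := by
  intro i hi
  have h1 := h i hi
  unfold Fact at h1 ⊢
  rw [if_neg (not_lt.2 (hb i hi).1), if_pos (hb i hi).2] at h1 ⊢
  rwa [hv]

theorem mtc_succ (m : ℕ) (o : Bool) (fuel c d : ℕ) : mtc m o (fuel + 1) c d =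
    frc (Nat.land c 7) fun op =>
    sel (Nat.ble op 3)
      (sel (Nat.beq op 0) (Nat.succ (Nat.shiftRight c 3))
        (frc (sel (Nat.beq op 1) (al m d) (sel (Nat.beq op (sel o 3 2)) (nx m d) (pv m d))) fun y =>
          frc (Nat.shiftRight c 3) fun c' => mtc m o fuel c' y))
      (sel (Nat.ble op 5)
        (sel (Nat.beq op 4)
          (sel (sel o false (cj (Nat.blt (tstA c) (Nat.shiftLeft 1 127))
              (sb (tstA c) (Nat.shiftRight m d))))
            (frc (Nat.shiftRight c 31) fun c' => mtc m o fuel c' d) 0)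
          (frc (Nat.shiftRight c 3) fun c' => frc (mtc m o fuel c' d) fun r =>
            sel (Nat.beq r 0) 0 (frc (Nat.pred r) fun c'' => mtc m o fuel c'' d)))
        (sel (Nat.beq op 6)
          (sel (sb (tstV c) (Nat.shiftRight m d))
            (frc (Nat.shiftRight c 9) fun c' => mtc m o fuel c' d) 0)
          (sel (sel o (dj (sb (tstF c) (Nat.shiftRight m (nx m d)))
              (sb (tstF c) (Nat.shiftRight m (al m d)))) (sb (tstF c) (Nat.shiftRight m d)))
            (frc (Nat.shiftRight c 25) fun c' => mtc m o fuel c' d) 0))) := rfl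

theorem mtc_land (c : ℕ) : Nat.land c 7 = c % 8 := Nat.and_two_pow_sub_one_eq_mod c 3

theorem mtc_shr (c k : ℕ) : Nat.shiftRight c k = c / 2 ^ k := Nat.shiftRight_eq_div_pow c k

theorem mtc_sel0 {b : Bool} {t r : ℕ} (h : sel b t 0 = r + 1) : b = true ∧ t = r + 1 := by
  cases b
  · exact absurd h (by simp [sel])
  · exact ⟨rfl, h⟩

theorem mtc_sel1 {y t r : ℕ} (h : sel (Nat.beq y 0) 0 t = r + 1) : y ≠ 0 ∧ t = r + 1 := by
  cases y
  · exact absurd h (by simp [sel])
  · exact ⟨Nat.succ_ne_zero _, h⟩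

theorem mtc_gen (hinv : St_inv) (hrp : St_rp) {R : Rule} {D : Type} [Fintype D] {σ α : Perm D}
    {N : Set D} (hc : Ctx σ α N) {m nd : ℕ} {h : ℕ → D} (hh : Hom R σ α N m nd h) (o : Bool)
    (τ : Perm D) (hτ : τ = sel o σ⁻¹ σ) (fuel : ℕ) :
    ∀ c d r z, Rp nd h d z → mtc m o fuel c d = r + 1 → Holds R τ α N c z r := by
  induction fuel with
  | zero => intro c d r z _ he; exact absurd he (by simp [mtc])
  | succ fuel ih =>
    intro c d r z hd he
    have hr := hrp R D σ α N hc m nd h hh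
    obtain ⟨hn, hp, ha, -, -, -, -, -, -, hf, -⟩ := hr d z hd
    obtain ⟨-, -, -, -, -, -, -, -, i9, -, i11, i12, -⟩ := hinv D σ α N hc.cls z
    have step : ∀ y x, Rp nd h y x →
        (frc y fun y => frc (Nat.shiftRight c 3) fun c' => mtc m o fuel c' y) = r + 1 →
        Holds R τ α N (c / 8) x r := by
      intro y x hy he
      rw [frc_eq, frc_eq, mtc_shr] at he
      exact ih _ _ _ _ hy he
    rw [mtc_succ, frc_eq, mtc_land] at he
    have h8 : c % 8 < 8 := Nat.mod_lt _ (by norm_num)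
    generalize hop : c % 8 = op at he h8
    interval_cases op
    · have h1 : Nat.succ (Nat.shiftRight c 3) = r + 1 := he
      rw [mtc_shr] at h1
      exact (Nat.succ.inj h1) ▸ Holds.fin c _ hop
    · exact Holds.a c _ r hop (step _ _ ha he)
    · cases o
      · exact Holds.s c _ r hop (hτ ▸ step _ _ hn he)
      · exact Holds.s c _ r hop (hτ ▸ step _ _ hp he)
    · cases o
      · exact Holds.i c _ r hop (hτ ▸ step _ _ hp he)
      · refine Holds.i c _ r hop ?_
        have h2 : τ⁻¹ = σ := by rw [hτ]; exact inv_inv σ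
        rw [h2]
        exact step _ _ hn he
    · obtain ⟨h1, h2⟩ := mtc_sel0 (show sel (sel o false (cj (Nat.blt (tstA c) (Nat.shiftLeft 1 127))
              (sb (tstA c) (Nat.shiftRight m d))))
            (frc (Nat.shiftRight c 31) fun c' => mtc m o fuel c' d) 0 = r + 1 from he)
      rw [frc_eq, mtc_shr] at h2
      cases o
      · obtain ⟨h3, h4⟩ := (cj_iff _ _).1 h1
        have h5 : tstA c < 2 ^ 127 := by
          have := Nat.blt_eq ▸ h3
          rwa [show Nat.shiftLeft 1 127 = 2 ^ 127 from Nat.one_shiftLeft 127] at this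
        exact Holds.t c _ r hop (hτ ▸ hf _ (mtc_bitsA c h5) h4) (ih _ _ _ _ hd h2)
      · exact absurd h1 Bool.false_ne_true
    · have h1 : (frc (Nat.shiftRight c 3) fun c' => frc (mtc m o fuel c' d) fun r =>
            sel (Nat.beq r 0) 0 (frc (Nat.pred r) fun c'' => mtc m o fuel c'' d)) = r + 1 := he
      rw [frc_eq, frc_eq, mtc_shr] at h1
      obtain ⟨h2, h3⟩ := mtc_sel1 h1
      rw [frc_eq] at h3
      exact Holds.br c _ _ r hop (ih _ _ _ _ hd (Nat.succ_pred_eq_of_ne_zero h2).symm)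
        (ih _ _ _ _ hd h3)
    · obtain ⟨h1, h2⟩ := mtc_sel0 (show sel (sb (tstV c) (Nat.shiftRight m d))
            (frc (Nat.shiftRight c 9) fun c' => mtc m o fuel c' d) 0 = r + 1 from he)
      rw [frc_eq, mtc_shr] at h2
      refine Holds.v c _ r hop (mtc_factsV (mtc_bitsV c) ?_
        (hf _ (mtc_mono (mtc_bitsV c) le_rfl (by norm_num)) h1)) (ih _ _ _ _ hd h2)
      cases o
      · rw [hτ]; rfl
      · rw [hτ]; exact i11
    · obtain ⟨h1, h2⟩ := mtc_sel0 (show sel (sel o (dj (sb (tstF c) (Nat.shiftRight m (nx m d)))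
              (sb (tstF c) (Nat.shiftRight m (al m d)))) (sb (tstF c) (Nat.shiftRight m d)))
            (frc (Nat.shiftRight c 25) fun c' => mtc m o fuel c' d) 0 = r + 1 from he)
      rw [frc_eq, mtc_shr] at h2
      have hb : Bits 64 127 (tstF c) := mtc_mono (mtc_bitsF c) (by norm_num) (by norm_num)
      refine Holds.f c _ r hop ?_ (ih _ _ _ _ hd h2)
      cases o
      · exact hτ ▸ hf _ hb h1
      · have h3 : fc τ α N z = fc σ α N (α z) := by rw [hτ]; exact i12
        rcases (dj_iff _ _).1 h1 with h4 | h4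
        · exact mtc_factsF (mtc_bitsF c) (h3.trans i9.symm)
            ((hr _ _ hn).2.2.2.2.2.2.2.2.2.1 _ hb h4)
        · exact mtc_factsF (mtc_bitsF c) h3 ((hr _ _ ha).2.2.2.2.2.2.2.2.2.1 _ hb h4)

theorem stMTC (hinv : St_inv) (hrp : St_rp) : St_mtc :=
  fun _ _ _ _ _ _ hc _ _ _ hh fuel c d r hd =>
    ⟨mtc_gen hinv hrp hc hh false _ rfl fuel c d r _ (Or.inr ⟨hd, rfl⟩),
      mtc_gen hinv hrp hc hh true _ rfl fuel c d r _ (Or.inr ⟨hd, rfl⟩)⟩

end Pool.Agent.Lib.G6
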