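import Pool.Agent.Lib.G6.Blue

set_option autoImplicit false
set_option maxRecDepth 100000

/-! The first phase: no two vertices in `N` at distance two, no short faces, no bad 5-faces. -/

namespace Pool.Agent.Lib.G6

open Equiv
open Pool.Agent.Lib.MP_bfaad3_co (BT)

/-- the trivial rule -/
def p1R : Rule := ⟨.ret 0, .ret 0, .ret 0, .ret 0, .lf (.e, false), 0, 0, 0, 0, 0, 0, 0, 0, 1, 0, 0,
  0, 0, 2 ^ 256 - 1, 0⟩

/-- cycles of length 2, 3, 4 through a vertex in `N`, and the path `N Z N` -/
def cfgs1 : BT (ℕ × ℕ) :=
  (.nd 1 (.nd 0 (.lf (0x10008000c000000000006001400000002000a00100000060300020004000006050004000800000000000000000, 384))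
    (.lf (0x604000a001400000005000600080000000000040010000000010008000c000006020002000400000000000000000, 384)))
    (.nd 2 (.lf (0xe001800000003000c0020000000020010001c000000000008000c000000010006001400000007000a00100000060600020004000006040004000800000000000000000, 576))
    (.lf (0x140024000000060012002c000000020016002800000000000e001800000003000c00200000000a0010001c000000000008000c000000010006001400000007000a00100000060900020004000006040004000800000000000000000, 768))))

def p1cNZN : ℕ := 0x1406040100400000300260200c0a0100000000090004e0090012001000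
def p1cL1 : ℕ := 0x800e002000740000c00100000980050007c000020004000c00002600140220002000600119f0006
def p1cL2 : ℕ := 0x2013c0270000f0090020027814080200800000000480680110008001d00003000400002601940034c0000003c08050100400000100e4014000c03400cb50000600c003002602140317e00001002200651003200015e000010000360020006000013010a001ac00000220002000600417f0006
def p1cL3 : ℕ := 0x804f009c0003c024008009d0200c04010000008059806040280400000101640013802400cc054014009f040180a030200802000002801202a00c75006300015a80318000a80280110008001d0000300040000260314005740300013a00000007015e02b8000780a8028013e060401006050100400000400e4054018ea00c60002a00a000601a0065a800030060018013018a0026e02000317030200803028080200000200d200a00074000c0004c034010c064018b28000380c003001301ca030bfe00001003200e79007300015c80398000ae401cc0005401400cb8000040000df0000080001b001000300000980e5001760100005bc000002200020006009e1f0006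
def p1cL4 : ℕ := 0x804f009c0003c024008009d0200c04010000008059806040280400000101640013802400cc054014009c017802e0001f98084024c0008c014a800028020008013024a040b8200c0b048280a030200802000003801203200a59005200015c80290000ae3021000054034024f3010804980011e04028080200000080120009c00a0044002000740000c00100000981250025601800069c018001194000000380af015c0003c054014009d0200c040100000080898060402804000001022400138054018c084020009d82812070302008030280802000003007203200a59005200015c80290000ae6021000054044024f3010804980011802800180680196a0000c018006004c092800fc00c00030f0100018a043c0870000f02100800274090581c0c080200c0a0200800000c0348108049c201260002d080498000b0028001cb002800180012006802180c80316500007018006002604940074c07000c2a0482c0e06040100605010040000060264014000e800180009d00030001300d0043c01a00860003e03200e604a01252a00010048012004c0a28122fff00000801d0062e80310000af4018800057a00c40002bcc0940001501100a3e00001000037f8000040000f7e0000100003c00a0065c0000200006f8000040000d8008001800004c0a28012880e00044c010000d9a0000022000200060156ff0006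
def p1c5N : ℕ := 0x1009e013800078048010013a04018080200000100b300c080500800000202c80027004801980a8028013814f029c0003c0a4028009f20803818040000010012052016750063021009302900b30004df8020040000e8028011000800250000800540000c0000000098165001a70240040a02de580b40001680b70001003100b2b50000802c00b002606140b17fff80200401280414a01040002d280410000b4981680002d280410000b00c80294300c8029000127f8020040001066021009302d0000c4034030e580b4030c00093e0080100003a00a00440020013300020015000030000000026061400b94090001f180c00063800c000e9e00000020003
def p1c5Z : ℕ := 0x7fff0000380290092a402480005a9009200016a402480005a8c0c400016a4024800058074018b80001c0000dfe0000700003dff00003800021e604a0146062000188088069e401cc094028c0c4034c00137f0000380001ee00000e000078024000f80001c0000df0000380001b00d003200c00981a5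

/-- one step along a face to a vertex outside `N` -/
def p1T (x : ℕ) : ℕ := 1 + 8 * (6 + 8 * (62 + 64 * (2 + 8 * x)))
/-- a face of length five, then `x` -/
def p1F (x : ℕ) : ℕ := 7 + 8 * (0x2ffffe + 2 ^ 22 * x)
def p5N : ℕ := p1F (6 + 8 * 61)
def p5Z : ℕ := p1F (6 + 8 * (62 + 64 * p1T (p1T (p1T (p1T 0)))))

theorem p1_ok : RuleOK p1R := by
  refine ⟨?_, ?_, ?_, ?_, ?_, ?_, ?_, ?_, ?_, ?_, ?_, ?_⟩ <;> decide +kernel +kernel

theorem p1_w : cfgs1.All fun k => cfgW k.1 k.2 = true :=
  ⟨⟨by decide +kernel, by decide +kernel⟩, by decide +kernel, by decide +kernel⟩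

theorem p1_nzn : bld 0 2000 pNZN 128 0 256 (fun _ m nd => red cfgs1 m nd p1cNZN) = true := by
  decide +kernel
theorem p1_1 : chkP p1R 0 (.lf 0) 0 (red cfgs1) (pCls 16) p1cL1 = true := by decide +kernel
theorem p1_2 : chkP p1R 0 (.lf 0) 0 (red cfgs1) (pCls 17) p1cL2 = true := by decide +kernel
theorem p1_3 : chkP p1R 0 (.lf 0) 0 (red cfgs1) (pCls 18) p1cL3 = true := by decide +kernel
theorem p1_4 : chkP p1R 0 (.lf 0) 0 (red cfgs1) (pCls 19) p1cL4 = true := by decide +kernel
theorem p1_N : chkP p1R 0 (.lf 0) 0 (red cfgs1) p5N p1c5N = true := by decide +kernel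
theorem p1_Z : chkP p1R 0 (.lf 0) 0 (red cfgs1) p5Z p1c5Z = true := by decide +kernel

theorem p1_five {R : Rule} {D : Type} [Fintype D] {σ α : Perm D} {N : Set D} {x : D}
    (h : fln σ α x = 5) : Facts R σ α N (Nat.shiftLeft 0x2ffffe 70) x := by
  intro t ht
  have k : ∀ t < 92, (Nat.shiftLeft 0x2ffffe 70).testBit t = true → 70 < t ∧ t ≠ 90 := by decide
  have h1 : t < 92 := by
    by_contra h5
    rw [Nat.testBit_lt_two_pow (lt_of_lt_of_le (by decide : Nat.shiftLeft 0x2ffffe 70 < 2 ^ 92)
      (Nat.pow_le_pow_right two_pos (not_lt.1 h5)))] at ht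
    exact absurd ht (by simp)
  have h2 := k t h1 ht
  unfold Fact fc
  rw [if_neg (by omega), if_pos h1, if_neg (by omega), if_pos h]
  split_ifs <;> omega

theorem p1_two {R : Rule} {D : Type} [Fintype D] {σ α : Perm D} {N : Set D} {x : D}
    (h : vt σ N x = 1) : Facts R σ α N TB x := by
  intro t ht
  have k : ∀ t < 70, TB.testBit t = true → t ≠ 65 := by decide
  have h1 : t < 70 := by
    by_contra h5
    rw [Nat.testBit_lt_two_pow (lt_of_lt_of_le (by decide : TB < 2 ^ 70)
      (Nat.pow_le_pow_right two_pos (not_lt.1 h5)))] at ht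
    exact absurd ht (by simp)
  have h2 := k t h1 ht
  unfold Fact
  rw [if_pos h1]
  omega

theorem p1_twenty (hinv : St_inv) (htab : St_tab) {R : Rule} (hN : PatOK R p5N)
    (hZ : PatOK R p5Z) : PatOK R (pCls 20) := by
  intro D _ σ α N C x r H
  have h20 : fc σ α N x = 20 := by
    refine ((htab R D σ α N C x 20).2.2.1 (by norm_num)).2 ?_
    cases H with
    | f _ _ _ _ h _ => exact h
    | fin _ _ h => exact absurd h (by decide)
    | a _ _ _ h => exact absurd h (by decide)
    | s _ _ _ h => exact absurd h (by decide)
    | i _ _ _ h => exact absurd h (by decide)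
    | t _ _ _ h => exact absurd h (by decide)
    | br _ _ _ _ h => exact absurd h (by decide)
    | v _ _ _ h => exact absurd h (by decide)
  have h5 : fln σ α x = 5 := by
    have := (hinv D σ α N C.cls x).2.2.2.2.2.2.2.2.2.2.2.2
    rw [h20] at this
    exact (this.resolve_right (by omega)).symm
  have hl : ∀ i, fln σ α (((σ * α) ^ i) x) = 5 := by
    intro i
    induction i with
    | zero => exact h5
    | succ i ih =>
      rw [pow_succ', Perm.mul_apply, Perm.mul_apply, (hinv D σ α N C.cls _).2.2.2.2.1, ih]
  unfold fc at h20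
  rw [if_neg (by omega), if_pos h5] at h20
  by_cases h2 : cnt2 σ α N x = 0
  · have hz : ∀ i < 5, ((σ * α) ^ i) x ∉ N := fun i hi k => by
      rw [if_pos ⟨h2, i, hi, k⟩] at h20
      omega
    have tZ : ∀ y ∉ N, Facts R σ α N ZB y := fun y hy => (htab R D σ α N C y 0).2.2.2.1.2 hy
    have st : ∀ c y, σ (α y) ∉ N → Holds R σ α N c (σ (α y)) 0 → Holds R σ α N (p1T c) y 0 := by
      intro c y hy H
      unfold p1T
      refine Holds.a _ _ 0 (by omega) (Holds.v _ _ 0 (by omega) ?_ (Holds.s _ _ 0 (by omega) ?_))
      · have e : tstV ((1 + 8 * (6 + 8 * (62 + 64 * (2 + 8 * c)))) / 8) = ZB := by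
          have : Nat.land (Nat.shiftRight ((1 + 8 * (6 + 8 * (62 + 64 * (2 + 8 * c)))) / 8) 3) 63
              = 62 := by
            refine (Nat.and_two_pow_sub_one_eq_mod _ 6).trans ?_
            rw [show ∀ a, Nat.shiftRight a 3 = a / 2 ^ 3 from fun a => Nat.shiftRight_eq_div_pow a 3]
            omega
          unfold tstV
          rw [this]
          rfl
        rw [e]
        exact tZ _ fun k => hy ((C.cls.nσ _).2 k)
      · convert H using 1
        omega
    refine hZ D σ α N C x 0 (Holds.f _ _ 0 rfl (p1_five h5) (Holds.v _ _ 0 rfl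
      (tZ _ (hz 0 (by norm_num))) ?_))
    exact st _ _ (hz 1 (by norm_num)) (st _ _ (hz 2 (by norm_num)) (st _ _ (hz 3 (by norm_num))
      (st _ _ (hz 4 (by norm_num)) (Holds.fin 0 _ rfl))))
  · obtain ⟨i, hi⟩ := Finset.card_pos.1 (Nat.pos_of_ne_zero h2)
    exact hN D σ α N C _ 0 (Holds.f _ _ 0 rfl (p1_five (hl i))
      (Holds.v _ _ 0 rfl (p1_two (Finset.mem_filter.1 hi).2) (Holds.fin 0 _ rfl)))

theorem phase1 (hinv : St_inv) (htab : St_tab) (hchk : St_chk) (hbase : St_base) (hred : St_red)
    (hc : cfgs1.All CfgOK) : NZN ∧ ∀ R, IniOK R INI := by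
  have hw : cfgs1.All CfgW :=
    ⟨⟨⟨p1_w.1.1, hc.1.1⟩, p1_w.1.2, hc.1.2⟩, ⟨p1_w.2.1, hc.2.1⟩, p1_w.2.2, hc.2.2⟩
  have hr := hred p1R cfgs1 hw
  obtain ⟨b0, b1, b2⟩ := hbase p1R
  have nzn := b1 _ _ hr p1_nzn
  have P := fun p c => (hchk p1R 0 (.lf 0) _ p1_ok b0 hr nzn).1 0 p c (by simp)
  have I := b2 fun j h1 h2 => by
    interval_cases j
    · exact P _ _ p1_1
    · exact P _ _ p1_2
    · exact P _ _ p1_3
    · exact P _ _ p1_4
    · exact p1_twenty hinv htab (P _ _ p1_N) (P _ _ p1_Z)
  refine ⟨nzn, fun R => ⟨I.1, fun D _ σ α N C x i hi => ?_⟩⟩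
  have h1 := I.1 i hi
  have h2 := I.2 D σ α N C x i hi
  unfold Fact at h2 ⊢
  rw [if_neg (by omega), if_pos h1.2] at h2 ⊢
  exact h2

end Pool.Agent.Lib.G6
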