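import Pool.Agent.Lib.G6.Blue
import Pool.Agent.Lib.MP_bfaad3_co.PM1

set_option autoImplicit false

/-! Planarity: the opposite of a dangling dart lies in the same hole. -/

namespace Pool.Agent.Lib.G6

open Equiv
open Pool.Agent.Lib.MP_bfaad3_co (frc sel tb conn restr Gen0 cyc comp frc_eq sel_eq tb_eq
  perm_card_le perm_conn_le perm_conn_a perm_conn_b perm_sc_le perm_restr_mem perm_restr_not
  gen0_cut euler_le cyc_swap_diff perm_pow_step)

section
variable {D : Type} [Finite D]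

theorem plan_dual (a b : Perm D) (hb : ∀ d, b (b d) = d) (h : Gen0 a b) : Gen0 (a * b) b := by
  have e : a * b * b = a := by
    ext d
    simp [hb]
  have h1 : comp (a * b) b ≤ comp a b := by
    refine perm_card_le fun u v huv => perm_conn_le (fun w => ?_) (perm_conn_b _ _) huv
    have k := perm_conn_a (a * b) b (b w)
    rw [Perm.mul_apply, hb] at k
    exact (conn _ _).trans' (perm_conn_b _ _ w) k
  unfold Gen0 at h ⊢
  rw [e]
  omega

theorem plan_del (a b : Perm D) (hb : ∀ d, b (b d) = d) (h : Gen0 a b) (I : Set D)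
    (hI : ∀ d, d ∈ I ↔ b d ∈ I) : Gen0 a (restr b hb I hI) := by
  have hI' : ∀ d, d ∈ Iᶜ ↔ b d ∈ Iᶜ := fun d => not_congr (hI d)
  have hI'' : ∀ d, d ∈ Iᶜᶜ ↔ b d ∈ Iᶜᶜ := fun d => not_congr (hI' d)
  have h1 := gen0_cut (a * b) b hb (plan_dual a b hb h) Iᶜ hI' hI''
  have e2 : restr b hb Iᶜᶜ hI'' = restr b hb I hI := by
    ext d
    by_cases hd : d ∈ I
    · rw [perm_restr_mem _ _ _ _ hd, perm_restr_mem _ _ _ _ (by simpa using hd)]
    · rw [perm_restr_not _ _ _ _ hd, perm_restr_not _ _ _ _ (by simpa using hd)]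
  have hr : ∀ d, restr b hb I hI (restr b hb I hI d) = d := by
    intro d
    by_cases hd : d ∈ I
    · rw [perm_restr_mem _ _ _ _ hd, perm_restr_mem _ _ _ _ ((hI d).1 hd), hb]
    · rw [perm_restr_not _ _ _ _ hd, perm_restr_not _ _ _ _ hd]
  rw [e2] at h1
  have h2 := plan_dual _ _ hr h1
  have e3 : a * b * restr b hb Iᶜ hI' * restr b hb I hI = a := by
    ext d
    simp only [Perm.mul_apply]
    by_cases hd : d ∈ I
    · rw [perm_restr_mem _ _ _ _ hd, perm_restr_not _ _ _ _ (by simpa using (hI d).1 hd), hb]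
    · rw [perm_restr_not _ _ _ _ hd, perm_restr_mem _ _ _ _ (by simpa using hd), hb]
  rwa [e3] at h2

theorem plan_same [DecidableEq D] (s a : Perm D) (x z : D) (hxz : x ≠ z) (hx : a x = x)
    (hz : a z = z) (h : Gen0 s (a * swap x z)) (hc : conn s a x z) : (s * a).SameCycle x z := by
  by_contra hn
  have h1 := cyc_swap_diff _ x z hn
  have h2 : ¬ a.SameCycle x z := fun k => hxz (k.eq_of_left hx)
  have h3 := cyc_swap_diff _ x z h2
  have h4 := euler_le s a
  have h5 : comp s a ≤ comp s (a * swap x z) := by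
    refine perm_card_le fun u v huv => perm_conn_le (perm_conn_a _ _) (fun w => ?_) huv
    rw [Perm.mul_apply]
    by_cases w1 : w = x
    · rw [w1, swap_apply_left, hz]
      exact hc
    by_cases w2 : w = z
    · rw [w2, swap_apply_right, hx]
      exact (conn _ _).symm' hc
    rw [swap_apply_of_ne_of_ne w1 w2]
    exact perm_conn_b _ _ _
  unfold Gen0 at h
  rw [← mul_assoc] at h
  omega

omit [Finite D] in
theorem plan_conn_pow (s a : Perm D) (x : D) (i : ℕ) : conn s a x ((s ^ i) x) := by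
  induction i with
  | zero => exact (conn _ _).refl' x
  | succ i ih =>
    rw [perm_pow_step]
    exact (conn _ _).trans' ih (perm_conn_a _ _ _)

end

/-- the loop of `hol` -/
noncomputable def planH (f : ℕ → ℕ) (d fuel : ℕ) : ℕ → ℕ → ℕ :=
  Nat.rec (motive := fun _ => ℕ → ℕ → ℕ) (fun _ _ => Nat.pred (Nat.shiftLeft 1 512))
    (fun _ ih y acc => frc (Nat.lor acc (Nat.shiftLeft 1 (Nat.shiftRight y 6))) fun acc =>
      frc (f y) fun z => sel (Nat.beq z d) acc (ih z acc)) fuel

theorem plan_H_succ (f : ℕ → ℕ) (d fuel y acc : ℕ) : planH f d (fuel + 1) y acc =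
    if f y = d then acc ||| 2 ^ (y >>> 6) else planH f d fuel (f y) (acc ||| 2 ^ (y >>> 6)) := by
  have e : planH f d (fuel + 1) y acc = frc (acc ||| 1 <<< (y >>> 6)) fun acc =>
      frc (f y) fun z => sel (Nat.beq z d) acc (planH f d fuel z acc) := rfl
  rw [e, frc_eq, frc_eq, sel_eq, Nat.one_shiftLeft]
  simp only [Nat.beq_eq]

theorem plan_H_zero (f : ℕ → ℕ) (d y acc s : ℕ) (hs : s < 512) :
    (planH f d 0 y acc).testBit s = true := by
  have g : ∀ r, s < r → (Nat.pred (Nat.shiftLeft 1 r)).testBit s = true := by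
    intro r hr
    change (1 <<< r - 1).testBit s = true
    rw [Nat.one_shiftLeft, Nat.testBit_two_pow_sub_one]
    exact decide_eq_true hr
  exact g 512 hs

theorem plan_H (f : ℕ → ℕ) (d : ℕ) (P : ℕ → Prop) (hf : ∀ y, P y → P (f y))
    (hP : ∀ y, P y → y >>> 6 < 512) (fuel : ℕ) : ∀ y acc, P y →
    (∀ s, s < 512 → acc.testBit s = true → (planH f d fuel y acc).testBit s = true) ∧
    ∀ t, (∀ t', 0 < t' → t' ≤ t → f^[t'] y ≠ d) →
      (planH f d fuel y acc).testBit (f^[t] y >>> 6) = true := by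
  have hit : ∀ t y, P y → P (f^[t] y) := by
    intro t
    induction t with
    | zero => exact fun y h => h
    | succ t ih => exact fun y h => ih _ (hf y h)
  induction fuel with
  | zero =>
    exact fun y acc hy => ⟨fun s hs _ => plan_H_zero f d y acc s hs,
      fun t _ => plan_H_zero f d y acc _ (hP _ (hit t y hy))⟩
  | succ fuel ih =>
    intro y acc hy
    have b1 : ∀ s, acc.testBit s = true → (acc ||| 2 ^ (y >>> 6)).testBit s = true := by
      intro s h
      rw [Nat.testBit_or, h, Bool.true_or]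
    have b2 : (acc ||| 2 ^ (y >>> 6)).testBit (y >>> 6) = true := by
      rw [Nat.testBit_or, Nat.testBit_two_pow_self, Bool.or_true]
    rw [plan_H_succ]
    by_cases hd : f y = d
    · rw [if_pos hd]
      refine ⟨fun s _ h => b1 s h, fun t ht => ?_⟩
      rcases Nat.eq_zero_or_pos t with rfl | h0
      · exact b2
      · exact absurd hd (ht 1 Nat.one_pos h0)
    · rw [if_neg hd]
      obtain ⟨i1, i2⟩ := ih (f y) (acc ||| 2 ^ (y >>> 6)) (hf y hy)
      refine ⟨fun s hs h => i1 s hs (b1 s h), fun t ht => ?_⟩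
      cases t with
      | zero => exact i1 _ (hP y hy) b2
      | succ t => exact i2 t fun t' h1 h2 => ht (t' + 1) (Nat.succ_pos _) (by omega)

theorem plan_hol (f : ℕ → ℕ) (d : ℕ) (P : ℕ → Prop) (hf : ∀ y, P y → P (f y))
    (hP : ∀ y, P y → y >>> 6 < 512) (hd : P d) (t : ℕ) : inS (hol f d) (f^[t] d) = true := by
  have e : inS (hol f d) (f^[t] d) = (planH f d 512 d 0).testBit (f^[t] d >>> 6) := tb_eq _ _
  rw [e]
  clear e
  induction t using Nat.strong_induction_on with
  | _ t ih =>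
    by_cases h : ∀ t', 0 < t' → t' ≤ t → f^[t'] d ≠ d
    · exact (plan_H f d P hf hP 512 d 0 hd).2 t h
    · push Not at h
      obtain ⟨t', h1, h2, h3⟩ := h
      have e : f^[t] d = f^[t - t'] d := by
        conv_lhs => rw [← Nat.sub_add_cancel h2, Function.iterate_add_apply, h3]
      rw [e]
      exact ih _ (by omega)

theorem plan_eph (e y : ℕ) : eph e y = enx e (if eal e y = 0 then y else eal e y) := by
  unfold eph
  rw [frc_eq, sel_eq]
  simp only [Nat.beq_eq]

theorem plan_walk {D : Type} {σ α a : Perm D} {N : Set D} {e n : ℕ} {k : ℕ → D}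
    (E : Emb σ α N e n k) (a1 : ∀ y, EV n y → a (k y) = k (if eal e y = 0 then y else eal e y))
    (a2 : ∀ p, (∀ y, EV n y → p ≠ k y) → a p = p) {w : ℕ} (hw : EV n w) (m : ℕ) :
    ∃ t, (EV n ((eph e)^[t] w) ∧ ((σ * a) ^ m) (k w) = k ((eph e)^[t] w)) ∨
      ∃ u i, EV n u ∧ 0 < i ∧ ((σ * a) ^ m) (k w) = (σ ^ i) (k u) ∧
        (∀ i' d', 0 < i' → i' ≤ i → EV n d' → (σ ^ i') (k u) ≠ k d') ∧
        enx e u = (eph e)^[t] w := by
  induction m with
  | zero => exact ⟨0, Or.inl ⟨hw, rfl⟩⟩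
  | succ m ih =>
    obtain ⟨t, ⟨h1, h2⟩ | ⟨u, i, h1, h2, h3, h4, h5⟩⟩ := ih
    · refine ⟨t + 1, ?_⟩
      rw [perm_pow_step, h2, Perm.mul_apply, a1 _ h1, Function.iterate_succ_apply', plan_eph]
      generalize (eph e)^[t] w = y at h1
      have hu : EV n (if eal e y = 0 then y else eal e y) := by
        split_ifs with h0
        · exact h1
        · exact ((E.al y h1).resolve_left h0).1
      generalize (if eal e y = 0 then y else eal e y) = u at hu
      obtain ⟨j, j0, j1, -, j3⟩ := E.ret u hu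
      by_cases hj : j = 1
      · subst hj
        exact Or.inl ⟨(E.nx u hu).1, by simpa using j1⟩
      · exact Or.inr ⟨u, 1, hu, Nat.one_pos, by simp,
          fun i' d' i1 i2 => j3 i' d' i1 (by omega), rfl⟩
    · refine ⟨t, ?_⟩
      rw [perm_pow_step, h3, Perm.mul_apply, a2 _ (fun y => h4 i y h2 le_rfl), ← perm_pow_step]
      obtain ⟨j, j0, j1, -, j3⟩ := E.ret u h1
      have hij : i < j := by
        by_contra hc
        exact h4 j _ j0 (by omega) (E.nx u h1).1 j1
      by_cases hj : j = i + 1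
      · subst hj
        exact Or.inl ⟨h5 ▸ (E.nx u h1).1, h5 ▸ j1⟩
      · exact Or.inr ⟨u, i + 1, h1, Nat.succ_pos _, rfl,
          fun i' d' i1 i2 => j3 i' d' i1 (by omega), h5⟩

theorem plan_gap {D : Type} {σ : Perm D} {n : ℕ} {k : ℕ → D} {x u i j : ℕ} (hx : EV n x)
    (hij : i ≤ j) (h : (σ ^ i) (k x) = (σ ^ j) (k u))
    (hu : ∀ i' d', 0 < i' → i' ≤ j → EV n d' → (σ ^ i') (k u) ≠ k d') : k x = k u := by
  obtain ⟨c, rfl⟩ := Nat.exists_eq_add_of_le hij
  rw [pow_add, Perm.mul_apply] at h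
  have h1 := (σ ^ i).injective h
  rcases Nat.eq_zero_or_pos c with rfl | h0
  · simpa using h1
  · exact absurd h1.symm (hu c x h0 (by omega) hx)

theorem stPLAN : St_plan := by
  intro D _ σ α N C nd h e n g k V w x hw hx hal
  classical
  have E := V.emb
  have hb := C.cls.inv
  set I : Set D := {p | ∃ y, EV n y ∧ eal e y ≠ 0 ∧ p = k y} with hIdef
  have hI1 : ∀ d, d ∈ I → α d ∈ I := by
    rintro d ⟨y, y1, y2, rfl⟩
    obtain ⟨z1, z2, z3⟩ := (E.al y y1).resolve_left y2
    exact ⟨eal e y, z1, by rw [z2]; exact y1.1.ne', z3.symm⟩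
  have hI : ∀ d, d ∈ I ↔ α d ∈ I := fun d => ⟨hI1 d, fun hd => hb d ▸ hI1 _ hd⟩
  have hno : ∀ y, EV n y → eal e y = 0 → k y ∉ I := by
    rintro y y1 y2 ⟨z, z1, z2, z3⟩
    exact z2 (E.inj _ _ y1 z1 z3 ▸ y2)
  have hwI : k w ∉ I := hno w hw hal
  have hzI : α (k w) ∉ I := fun hz => hwI ((hI _).2 hz)
  have a1 : ∀ y, EV n y → restr α hb I hI (k y) = k (if eal e y = 0 then y else eal e y) := by
    intro y y1
    split_ifs with h0
    · exact perm_restr_not _ _ _ _ (hno y y1 h0)
    · rw [perm_restr_mem α hb I hI (d := k y) ⟨y, y1, h0, rfl⟩]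
      exact ((E.al y y1).resolve_left h0).2.2.symm
  have a2 : ∀ p, (∀ y, EV n y → p ≠ k y) → restr α hb I hI p = p := by
    intro p hp
    refine perm_restr_not _ _ _ _ ?_
    rintro ⟨y, y1, -, y3⟩
    exact hp y y1 y3
  have hJ : ∀ d, d ∈ I ∪ {k w, α (k w)} ↔ α d ∈ I ∪ {k w, α (k w)} := by
    have h1 : ∀ d, d ∈ I ∪ {k w, α (k w)} → α d ∈ I ∪ {k w, α (k w)} := by
      rintro d (hd | rfl | rfl)
      · exact Or.inl (hI1 d hd)
      · exact Or.inr (Or.inr rfl)
      · exact Or.inr (Or.inl (hb _))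
    exact fun d => ⟨h1 d, fun hd => hb d ▸ h1 _ hd⟩
  have eJ : restr α hb _ hJ = restr α hb I hI * swap (k w) (α (k w)) := by
    ext d
    rw [Perm.mul_apply]
    by_cases d1 : d = k w
    · rw [d1, swap_apply_left, perm_restr_not _ _ _ _ hzI,
        perm_restr_mem α hb _ hJ (d := k w) (Or.inr (Or.inl rfl))]
    by_cases d2 : d = α (k w)
    · rw [d2, swap_apply_right, perm_restr_not _ _ _ _ hwI,
        perm_restr_mem α hb _ hJ (d := α (k w)) (Or.inr (Or.inr rfl)), hb]
    rw [swap_apply_of_ne_of_ne d1 d2]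
    by_cases hd : d ∈ I
    · rw [perm_restr_mem _ _ _ _ hd, perm_restr_mem α hb _ hJ (d := d) (Or.inl hd)]
    · rw [perm_restr_not _ _ _ _ hd, perm_restr_not]
      rintro (h1 | h1 | h1)
      · exact hd h1
      · exact d1 h1
      · exact d2 h1
  have hG := plan_del σ α hb C.cls.gen _ hJ
  rw [eJ] at hG
  have hcon : ∀ u v, Relation.EqvGen (fun x y => EV n x ∧
      (y = enx e x ∨ (eal e x ≠ 0 ∧ y = eal e x))) u v →
      conn σ (restr α hb I hI) (k u) (k v) := by
    intro u v huv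
    induction huv with
    | rel u v r =>
      obtain ⟨r1, rfl | ⟨r2, rfl⟩⟩ := r
      · obtain ⟨j, -, j1, -⟩ := E.ret u r1
        rw [← j1]
        exact plan_conn_pow _ _ _ _
      · have := perm_conn_b σ (restr α hb I hI) (k u)
        rwa [a1 u r1, if_neg r2] at this
    | refl u => exact (conn _ _).refl' _
    | symm u v _ ih => exact (conn _ _).symm' ih
    | trans u v z _ _ ih1 ih2 => exact (conn _ _).trans' ih1 ih2
  have hwx : conn σ (restr α hb I hI) (k w) (k x) :=
    (conn _ _).trans' ((conn _ _).symm' (hcon _ _ (V.con w hw))) (hcon _ _ (V.con x hx))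
  have hin : ∀ t, inS (hol (eph e) w) ((eph e)^[t] w) = true := by
    refine plan_hol (eph e) w (EV n) (fun y y1 => ?_) (fun y y1 => ?_) hw
    · rw [plan_eph]
      split_ifs with h0
      · exact (E.nx y y1).1
      · exact (E.nx _ ((E.al y y1).resolve_left h0).1).1
    · have := V.n3
      have := y1.2.1
      rw [Nat.shiftRight_eq_div_pow]
      omega
  have key : conn σ (restr α hb I hI) (k w) (α (k w)) → ∃ m : ℕ,
      ((σ * restr α hb I hI) ^ m) (k w) = α (k w) := fun hc =>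
    (plan_same σ _ _ _ (C.fpf _).symm (perm_restr_not _ _ _ _ hwI) (perm_restr_not _ _ _ _ hzI)
      hG hc).exists_nat_pow_eq
  refine ⟨fun hz => ?_, fun i i0 hz hgap => ?_⟩
  · obtain ⟨m, hm⟩ := key (hz ▸ hwx)
    obtain ⟨t, ⟨h1, h2⟩ | ⟨u, j, h1, h2, h3, h4, h5⟩⟩ := plan_walk E a1 a2 hw m
    · rw [E.inj _ _ hx h1 (by rw [← hz, ← hm, h2])]
      exact hin t
    · exact absurd (by rw [← h3, hm, hz]) (h4 j x h2 le_rfl hx)
  · obtain ⟨m, hm⟩ := key (by
      rw [hz]
      exact (conn _ _).trans' hwx (plan_conn_pow _ _ _ _))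
    obtain ⟨t, ⟨h1, h2⟩ | ⟨u, j, h1, h2, h3, h4, h5⟩⟩ := plan_walk E a1 a2 hw m
    · exact absurd (by rw [← hz, ← hm, h2]) (hgap i _ i0 le_rfl h1)
    · have e1 : (σ ^ i) (k x) = (σ ^ j) (k u) := by rw [← hz, ← hm, h3]
      have e2 : k x = k u := by
        rcases le_total i j with hij | hij
        · exact plan_gap hx hij e1 h4
        · exact (plan_gap h1 hij e1.symm hgap).symm
      rw [E.inj _ _ hx h1 e2, h5]
      exact hin t

end Pool.Agent.Lib.G6
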