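import Pool.Agent.Lib.G6.Blue
import Pool.Agent.Lib.MP_bfaad3_co.PM1

set_option autoImplicit false

/-! Recording facts in an incomplete map. -/

namespace Pool.Agent.Lib.G6

open Equiv
open Pool.Agent.Lib.MP_bfaad3_co (frc sel cj dj tb sb BT frc_eq sel_eq)

theorem put2_mul {a : ℕ} (ha : a < 2 ^ 128) (c : ℕ) :
    (∀ j, c.testBit j = true → 128 ∣ j) → ∀ i, (c * a).testBit i = true →
      ∃ j k, c.testBit j = true ∧ a.testBit k = true ∧ i = j + k := by
  induction c using Nat.strong_induction_on with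
  | _ c ih =>
    intro hc i hi
    rcases Nat.eq_zero_or_pos c with rfl | hpos
    · simp at hi
    have hdec : c = 2 ^ 128 * (c / 2 ^ 128) + c % 2 ^ 128 := (Nat.div_add_mod c _).symm
    have hr1 : c % 2 ^ 128 < 2 ^ 1 := by
      refine Nat.lt_pow_two_of_testBit _ fun j hj => ?_
      rw [Nat.testBit_mod_two_pow]
      by_cases h64 : j < 128
      · cases hb : c.testBit j
        · simp
        · have := hc j hb
          omega
      · simp [h64]
    have hq : ∀ j, (c / 2 ^ 128).testBit j = c.testBit (j + 128) := fun j => by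
      rw [Nat.testBit_div_two_pow]
    have hlt : c / 2 ^ 128 < c := Nat.div_lt_self hpos (by norm_num)
    have hmul : c * a = 2 ^ 128 * (c / 2 ^ 128 * a) + c % 2 ^ 128 * a := by
      conv_lhs => rw [hdec]
      ring
    have hra : c % 2 ^ 128 * a < 2 ^ 128 :=
      lt_of_le_of_lt (le_trans (Nat.mul_le_mul_right _ (by omega : c % 2 ^ 128 ≤ 1))
        (by rw [one_mul])) ha
    rw [hmul, Nat.testBit_two_pow_mul_add _ hra] at hi
    by_cases h64 : i < 128
    · rw [if_pos h64] at hi
      have h01 : c % 2 ^ 128 = 0 ∨ c % 2 ^ 128 = 1 := by omega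
      rcases h01 with h0 | h1
      · rw [h0] at hi
        simp at hi
      · rw [h1, one_mul] at hi
        refine ⟨0, i, ?_, hi, by omega⟩
        have h2 : (c % 2 ^ 128).testBit 0 = true := by rw [h1]; rfl
        rw [Nat.testBit_mod_two_pow] at h2
        simpa using h2
    · rw [if_neg h64] at hi
      obtain ⟨j, k, hj, hk, he⟩ := ih _ hlt (fun j hj => by
        rw [hq] at hj
        have := hc _ hj
        omega) _ hi
      exact ⟨j + 128, k, by rw [← hq]; exact hj, hk, by omega⟩

theorem put2_one {x j : ℕ} (h : (Nat.shiftLeft 1 x).testBit j = true) : j = x := by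
  change (1 <<< x).testBit j = true at h
  rw [Nat.one_shiftLeft, Nat.testBit_two_pow] at h
  exact (of_decide_eq_true h).symm

theorem put2_acc {P : ℕ → Prop} {acc x : ℕ} (ha : ∀ j, acc.testBit j = true → P j) (hx : P x) :
    ∀ j, (Nat.lor acc (Nat.shiftLeft 1 x)).testBit j = true → P j := by
  intro j hj
  change (acc ||| _).testBit j = true at hj
  rw [Nat.testBit_or, Bool.or_eq_true] at hj
  rcases hj with hj | hj
  · exact ha j hj
  · rw [put2_one hj]; exact hx

theorem put2_cmB {P : ℕ → Prop} {g : ℕ → ℕ} (hg : ∀ x, P x → g x = 0 ∨ P (g x)) (n : ℕ) :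
    ∀ cur acc, P cur → (∀ j, acc.testBit j = true → P j) →
      ∀ j, (cmB g n cur acc).testBit j = true → P j := by
  induction n with
  | zero => intro _ acc _ ha; exact ha
  | succ n ih =>
    intro cur acc hc ha
    change ∀ j, (frc (g cur) fun x => sel (Nat.beq x 0) acc
      (cmB g n x (Nat.lor acc (Nat.shiftLeft 1 x)))).testBit j = true → P j
    rw [frc_eq, sel_eq]
    split_ifs with h0
    · exact ha
    · have hx : P (g cur) := (hg cur hc).resolve_left fun e => h0 (by rw [e]; rfl)
      exact ih _ _ hx (put2_acc ha hx)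

theorem put2_cm {P : ℕ → Prop} {f g : ℕ → ℕ} (hf : ∀ x, P x → f x = 0 ∨ P (f x))
    (hg : ∀ x, P x → g x = 0 ∨ P (g x)) {d : ℕ} (hd : P d) :
    ∀ j, (cm f g d).testBit j = true → P j := by
  have key : ∀ (n cur acc : ℕ), P cur → (∀ j, acc.testBit j = true → P j) → ∀ j,
      (Nat.rec (motive := fun _ => ℕ → ℕ → ℕ) (fun _ acc => acc) (fun _ ih cur acc =>
        frc (f cur) fun x => sel (Nat.beq x 0) (cmB g 14 d acc)
          (sel (Nat.beq x d) acc (ih x (Nat.lor acc (Nat.shiftLeft 1 x))))) n cur acc).testBit j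
        = true → P j := by
    intro n
    induction n with
    | zero => intro _ acc _ ha; exact ha
    | succ n ih =>
      intro cur acc hc ha
      dsimp only
      rw [frc_eq, sel_eq]
      split_ifs with h0
      · exact put2_cmB hg 14 d acc hd ha
      · have hx : P (f cur) := (hf cur hc).resolve_left fun e => h0 (by rw [e]; rfl)
        rw [sel_eq]
        split_ifs
        · exact ha
        · exact ih _ _ hx (put2_acc ha hx)
  exact key 14 d _ hd fun j hj => by rw [put2_one hj]; exact hd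

theorem put2_fld {m m' p n : ℕ} (H : ∀ i, i < n → m'.testBit (p + i) = m.testBit (p + i)) :
    Nat.land (Nat.shiftRight m' p) (2 ^ n - 1) = Nat.land (Nat.shiftRight m p) (2 ^ n - 1) := by
  change m' >>> p &&& (2 ^ n - 1) = m >>> p &&& (2 ^ n - 1)
  refine Nat.eq_of_testBit_eq fun i => ?_
  rw [Nat.testBit_and, Nat.testBit_and, Nat.testBit_shiftRight, Nat.testBit_shiftRight,
    Nat.testBit_two_pow_sub_one]
  by_cases hi : i < n
  · rw [H i hi]
  · simp [hi]

section
variable {R : Rule} {D : Type} [Fintype D] {σ α : Perm D} {N : Set D} {m nd : ℕ} {h : ℕ → D}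

/-- a map that differs only in harmless bits -/
theorem put2_hom (H : Hom R σ α N m nd h) {m' : ℕ}
    (hb : ∀ i, m'.testBit i = m.testBit i ∨ (51 ≤ i ∧ i < 64) ∨
      ∃ d k, Val nd d ∧ i = d + k ∧ 64 ≤ k ∧ k < 127 ∧ Fact R σ α N k (h d)) :
    Hom R σ α N m' nd h := by
  have h1 := H.nd1
  have h2 := H.nd2
  have lk : ∀ d i, Val nd d → i < 64 → m'.testBit (d + i) = m.testBit (d + i) := by
    intro d i hd hi
    rcases hb (d + i) with e | e | ⟨d', k, hd', e, k1, k2, -⟩
    · exact e
    · have := hd.1; omega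
    · have := hd.2.2; have := hd'.2.2; omega
  have en : ∀ d, Val nd d → nx m' d = nx m d := fun d hd =>
    put2_fld (n := 17) fun i hi => lk d i hd (by omega)
  have ep : ∀ d, Val nd d → pv m' d = pv m d := fun d hd =>
    put2_fld (n := 17) (p := d + 17) fun i hi => by rw [add_assoc]; exact lk d _ hd (by omega)
  have ea : ∀ d, Val nd d → al m' d = al m d := fun d hd =>
    put2_fld (n := 17) (p := d + 34) fun i hi => by rw [add_assoc]; exact lk d _ hd (by omega)
  have ee : ∀ d, Val nd d → eqd m' d = eqd m d := fun d hd =>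
    congrArg (fun t => Nat.shiftLeft t 7) (put2_fld (n := 10) (p := d + 51) fun i hi => by
      rw [add_assoc]; exact lk d _ hd (by omega))
  refine ⟨H.nd1, H.nd2, H.nd3, fun i hi => ?_, fun i hi hj => ?_, fun d hd => ?_, fun d hd => ?_,
    fun d hd => ?_, fun d hd => ?_, fun d i hd i1 i2 ht => ?_⟩
  · rcases hb i with e | e | ⟨d', k, hd', e, k1, k2, -⟩
    · rw [e]; exact H.top i hi
    · omega
    · have := hd'.2.2; have := hd'.2.1; omega
  · rcases hb i with e | e | ⟨d', k, hd', e, k1, k2, -⟩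
    · rw [e]; exact H.nul i hi hj
    · omega
    · have := hd'.1; omega
  · rw [en d hd]; exact H.hn d hd
  · rw [ep d hd]; exact H.hp d hd
  · rw [ea d hd]; exact H.ha d hd
  · rw [ee d hd]; exact H.he d hd
  · rcases hb (d + i) with e | e | ⟨d', k, hd', e, k1, k2, hk⟩
    · exact H.hf d i hd i1 i2 (e ▸ ht)
    · have := hd.1; omega
    · have := hd.2.2
      have := hd'.2.2
      have e1 : d = d' := by omega
      have e2 : i = k := by omega
      rw [e1, e2]; exact hk

theorem put2_or (H : Hom R σ α N m nd h) {x : ℕ} (hx : ∀ i, x.testBit i = true →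
    ∃ d k, Val nd d ∧ i = d + k ∧ 64 ≤ k ∧ k < 127 ∧ Fact R σ α N k (h d)) :
    Hom R σ α N (Nat.lor m x) nd h := by
  refine put2_hom H fun i => ?_
  cases e : x.testBit i
  · left
    change (m ||| x).testBit i = _
    rw [Nat.testBit_or, e, Bool.or_false]
  · exact Or.inr (Or.inr (hx i e))

theorem put2_set (H : Hom R σ α N m nd h) {f g : ℕ → ℕ} {a d : ℕ} (ha : Bits 64 127 a)
    (hd : Val nd d) (hF : Facts R σ α N a (h d))
    (hf : ∀ x, Val nd x ∧ Facts R σ α N a (h x) →
      f x = 0 ∨ (Val nd (f x) ∧ Facts R σ α N a (h (f x))))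
    (hg : ∀ x, Val nd x ∧ Facts R σ α N a (h x) →
      g x = 0 ∨ (Val nd (g x) ∧ Facts R σ α N a (h (g x)))) :
    Hom R σ α N (Nat.lor m (Nat.mul (cm f g d) a)) nd h := by
  have hc := put2_cm (P := fun x => Val nd x ∧ Facts R σ α N a (h x)) hf hg ⟨hd, hF⟩
  have hlt : a < 2 ^ 128 := Nat.lt_pow_two_of_testBit _ fun i hi => by
    cases e : a.testBit i
    · rfl
    · have := (ha i e).2; omega
  refine put2_or H fun i hi => ?_
  obtain ⟨j, k, hj, hk, e⟩ := put2_mul hlt _ (fun j hj => (hc j hj).1.2.2) i hi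
  exact ⟨j, k, (hc j hj).1, e, (ha k hk).1, (ha k hk).2, (hc j hj).2 k hk⟩

theorem put2_V {a : ℕ} (ha : Bits 64 70 a) {x y : D} (e : vt σ N y = vt σ N x)
    (hx : Facts R σ α N a x) : Facts R σ α N a y := by
  intro i hi
  have h1 := hx i hi
  have h2 := (ha i hi).2
  unfold Fact at h1 ⊢
  rw [if_pos h2] at h1 ⊢
  rwa [e]

theorem put2_F {a : ℕ} (ha : Bits 70 92 a) {x y : D} (e : fc σ α N y = fc σ α N x)
    (hx : Facts R σ α N a x) : Facts R σ α N a y := by
  intro i hi
  have h1 := hx i hi
  have h2 := ha i hi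
  unfold Fact at h1 ⊢
  rw [if_neg (by omega), if_pos h2.2] at h1 ⊢
  rwa [e]

end

theorem stPUT2 (hI : St_inv) (hR : St_rp) : St_put := by
  intro R D _ σ α N C m nd h H
  refine ⟨fun c => put2_hom H fun i => ?_, fun d hd a hF => ⟨fun ha => ?_, fun ha => ?_,
    fun ha => ?_⟩⟩
  · by_cases hi : 51 ≤ i ∧ i < 64
    · exact Or.inr (Or.inl hi)
    · left
      have e : SALT = (2 ^ 13 - 1) <<< 51 := by decide
      have e2 : SALT.testBit i = false := by
        rw [e, Nat.testBit_shiftLeft, Nat.testBit_two_pow_sub_one]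
        by_cases h1 : 51 ≤ i
        · have : ¬ (i - 51 < 13) := by omega
          simp [this]
        · simp [h1]
      change (m ^^^ (c &&& SALT)).testBit i = _
      rw [Nat.testBit_xor, Nat.testBit_and, e2, Bool.and_false, Bool.xor_false]
  · refine put2_or H fun i hi => ?_
    change (a <<< d).testBit i = true at hi
    rw [Nat.testBit_shiftLeft, Bool.and_eq_true, decide_eq_true_eq] at hi
    exact ⟨d, i - d, hd, by omega, (ha _ hi.2).1, (ha _ hi.2).2, hF _ hi.2⟩
  · refine put2_set H (fun i hi => ⟨(ha i hi).1, by have := (ha i hi).2; omega⟩) hd hF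
      (fun x hx => ?_) fun x hx => ?_
    · rcases (hR R D σ α N C m nd h H x (h x) (Or.inr ⟨hx.1, rfl⟩)).1 with e | e
      · exact Or.inl e
      · refine Or.inr ⟨e.1, ?_⟩
        rw [e.2]
        exact put2_V ha (hI D σ α N C.cls _).1 hx.2
    · rcases (hR R D σ α N C m nd h H x (h x) (Or.inr ⟨hx.1, rfl⟩)).2.1 with e | e
      · exact Or.inl e
      · refine Or.inr ⟨e.1, ?_⟩
        rw [e.2]
        refine put2_V ha ?_ hx.2
        have := (hI D σ α N C.cls (σ⁻¹ (h x))).1
        rw [show σ (σ⁻¹ (h x)) = h x by simp] at this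
        exact this.symm
  · refine put2_set H (fun i hi => ⟨by have := (ha i hi).1; omega,
      by have := (ha i hi).2; omega⟩) hd hF (fun x hx => ?_) fun x hx => ?_
    · rcases (hR R D σ α N C m nd h H x (h x) (Or.inr ⟨hx.1, rfl⟩)).2.2.2.1 with e | e
      · exact Or.inl e
      · refine Or.inr ⟨e.1, ?_⟩
        rw [e.2]
        exact put2_F ha (hI D σ α N C.cls _).2.2.2.2.2.2.2.1 hx.2
    · rcases (hR R D σ α N C m nd h H x (h x) (Or.inr ⟨hx.1, rfl⟩)).2.2.2.2.1 with e | e
      · exact Or.inl e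
      · refine Or.inr ⟨e.1, ?_⟩
        rw [e.2]
        refine put2_F ha ?_ hx.2
        have := (hI D σ α N C.cls ((σ * α)⁻¹ (h x))).2.2.2.2.2.2.2.1
        rw [← Perm.mul_apply, show (σ * α) ((σ * α)⁻¹ (h x)) = h x by
          rw [← Perm.mul_apply, mul_inv_cancel, Perm.one_apply]] at this
        exact this.symm

end Pool.Agent.Lib.G6
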