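import Pool.Agent.Lib.G6.Blue
import Pool.Agent.Lib.MP_bfaad3_co.PM1

set_option autoImplicit false

namespace Pool.Agent.Lib.G6

open Equiv
open Pool.Agent.Lib.MP_bfaad3_co (frc sel cj dj tb sb BT frc_eq sel_eq cj_iff tb_eq sb_iff)

def rel_klo (c : ℕ) : ℕ := [0, 0, 1, 2, 0, 0, 1, 3, 2, 1, 0, 3, 0, 0, 0, 1].getD c 0
def rel_khi (c : ℕ) : ℕ := [0, 9, 9, 9, 0, 0, 1, 9, 2, 1, 0, 9, 2, 9, 9, 1].getD c 9

theorem rel_lo_lt : ∀ i < 12, ∀ j < 4, w24 XLO i j < 2 ^ 16 := by decide +kernel
theorem rel_hi_lt : ∀ i < 12, ∀ j < 4, w24 XHI i j < 2 ^ 16 := by decide +kernel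
theorem rel_x_lt : ∀ c < 13, xcl c < 2 ^ 22 := by decide +kernel
theorem rel_lo' : ∀ i < 12, ∀ j < 4, ∀ c < 16, ((w24 XLO i j).testBit c &&
    !(decide (i < fl c) && decide (rel_khi c < j))) = false := by decide +kernel
theorem rel_hi' : ∀ i < 12, ∀ j < 4, ∀ c < 16, ((w24 XHI i j).testBit c &&
    !(decide (fl c = i + 1) && decide (j < rel_klo c) && decide (rel_klo c ≤ 3))) = false := by
  decide +kernel
theorem rel_x' : ∀ n < 13, ∀ c < 21, ((xcl n).testBit c &&
    !((decide (c = 14) && decide (0 < n) && decide (n < 12)) ||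
      (decide (c ≠ 14) && decide (n % fl c ≠ 0)))) = false := by decide +kernel

theorem rel_lo {i j c : ℕ} (hi : i < 12) (hj : j < 4) (hc : c < 16)
    (h : (w24 XLO i j).testBit c = true) : i < fl c ∧ rel_khi c < j := by
  have := rel_lo' i hi j hj c hc
  rw [h] at this
  simpa using this

theorem rel_hi {i j c : ℕ} (hi : i < 12) (hj : j < 4) (hc : c < 16)
    (h : (w24 XHI i j).testBit c = true) : (fl c = i + 1 ∧ j < rel_klo c) ∧ rel_klo c ≤ 3 := by
  have := rel_hi' i hi j hj c hc
  rw [h] at this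
  simpa using this

theorem rel_x {n c : ℕ} (hn : n < 13) (hc : c < 21) (h : (xcl n).testBit c = true) :
    ((c = 14 ∧ 0 < n) ∧ n < 12) ∨ (c ≠ 14 ∧ n % fl c ≠ 0) := by
  have := rel_x' n hn c hc
  rw [h] at this
  by_contra hh
  push Not at hh
  simp only [Bool.true_and, Bool.not_eq_false', Bool.or_eq_true, Bool.and_eq_true,
    decide_eq_true_eq] at this
  rcases this with h1 | h1
  · exact absurd (hh.1 h1.1) (by omega)
  · exact h1.2 (hh.2 h1.1)

theorem rel_fl14 : fl 14 = 0 := by decide +kernel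

theorem rel_lt {a k j : ℕ} (h : a < 2 ^ k) (hj : a.testBit j = true) : j < k := by
  by_contra hc
  rw [Nat.testBit_eq_false_of_lt (lt_of_lt_of_le h (Nat.pow_le_pow_right (by norm_num)
    (by omega)))] at hj
  exact Bool.false_ne_true hj

/-- the bits of `a` are small and avoid `c` -/
def rel_Good (c a : ℕ) : Prop := ∀ j, a.testBit j = true → j < 22 ∧ j ≠ c

theorem rel_good_zero (c : ℕ) : rel_Good c 0 := fun j h => by simp at h

theorem rel_good_lor {c a b : ℕ} (ha : rel_Good c a) (hb : rel_Good c b) :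
    rel_Good c (Nat.lor a b) := fun j h => by
  have : (a ||| b).testBit j = true := h
  rw [Nat.testBit_or, Bool.or_eq_true] at this
  exact this.elim (ha j) (hb j)

theorem rel_good_pow {c k : ℕ} (hk : k < 22) (h : k ≠ c) : rel_Good c (2 ^ k) := fun j hj => by
  rw [Nat.testBit_two_pow] at hj
  have : k = j := by simpa using hj
  omega

section

variable {D : Type} (σ α : Perm D) (N : Set D)

open Classical in
/-- corners of type 1 among the first `i` positions -/
noncomputable def rel_cn (x : D) (i : ℕ) : ℕ :=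
  ((Finset.range i).filter fun j => vt σ N (((σ * α) ^ j) x) = 1).card

theorem rel_cn_succ (x : D) (i : ℕ) : rel_cn σ α N x (i + 1) =
    rel_cn σ α N x i + if vt σ N (((σ * α) ^ i) x) = 1 then 1 else 0 := by
  unfold rel_cn
  rw [Finset.range_add_one, Finset.filter_insert]
  split_ifs
  · rw [Finset.card_insert_of_notMem (by simp)]
  · rfl

theorem rel_cn_mono (x : D) {i j : ℕ} (h : i ≤ j) : rel_cn σ α N x i ≤ rel_cn σ α N x j :=
  Finset.card_le_card (Finset.filter_subset_filter _ (Finset.range_mono h))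

theorem rel_cn_fln (x : D) : rel_cn σ α N x (fln σ α x) = cnt2 σ α N x := rfl

theorem rel_cls (x : D) (h0 : 0 < fln σ α x) : rel_klo (fc σ α N x) ≤ cnt2 σ α N x ∧
    (rel_khi (fc σ α N x) < 4 → cnt2 σ α N x ≤ rel_khi (fc σ α N x)) := by
  unfold fc
  split_ifs with h1 h2 h3 h4 h5 h6 h7 h8 h9 h10 h11 h12 h13 h14
  · have : ∀ l ≤ 4, 0 < l → rel_klo (15 + l) = 0 ∧ rel_khi (15 + l) = 9 := by decide
    obtain ⟨e1, e2⟩ := this _ h1 h0
    rw [e1, e2]
    omega
  all_goals first
    | (simp only [rel_klo, rel_khi, List.getD_cons_succ, List.getD_cons_zero, List.getD_nil]; omega)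
    | skip
  have : cnt2 σ α N x = 0 ∨ cnt2 σ α N x = 1 ∨ cnt2 σ α N x = 2 ∨ min (cnt2 σ α N x) 3 = 3 ∧
    3 ≤ cnt2 σ α N x := by omega
  rcases this with h | h | h | ⟨h, h'⟩ <;> rw [h] <;> simp [rel_klo, rel_khi] <;> omega

theorem rel_fc0 (x : D) (h : fc σ α N x = 0) : ∃ i < 5, ((σ * α) ^ i) x ∈ N := by
  unfold fc at h
  split_ifs at h with h1 h2 h3 h4 h5 h6 h7 h8 h9 h10 h11 h12 h13 h14
  all_goals first
    | exact h3.2
    | omega

theorem rel_fc6 (x : D) (h : fc σ α N x = 6) (hv1 : vt σ N x = 1) : fln σ α (σ x) ≠ 6 := by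
  unfold fc at h
  split_ifs at h with h1 h2 h3 h4 h5 h6 h7 h8 h9 h10 h11 h12 h13 h14
  all_goals first
    | omega
    | skip
  intro h6
  exact h10 ⟨0, by norm_num, by simpa using hv1, by simpa using h6⟩

theorem rel_fc1 (x : D) (h : fln σ α x = 6) : fc σ α N x = 1 := by
  unfold fc
  rw [h]
  simp

theorem rel_fc15 (x : D) (h0 : 0 < fln σ α x) (h : fc σ α N x = 15) (hv1 : vt σ N x = 1) :
    fln σ α (σ x) = 6 := by
  classical
  unfold fc at h
  split_ifs at h with h1 h2 h3 h4 h5 h6 h7 h8 h9 h10 h11 h12 h13 h14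
  all_goals first
    | omega
    | skip
  obtain ⟨i, hi, hv, hl⟩ := h10
  unfold cnt2 at h9
  obtain ⟨a, ha⟩ := Finset.card_eq_one.mp h9
  have e0 : (0 : ℕ) ∈ ({a} : Finset ℕ) := by
    rw [← ha]
    simp only [Finset.mem_filter, Finset.mem_range]
    exact ⟨h0, by simpa using hv1⟩
  have ei : i ∈ ({a} : Finset ℕ) := by
    rw [← ha]
    simp only [Finset.mem_filter, Finset.mem_range]
    exact ⟨by omega, hv⟩
  rw [Finset.mem_singleton] at e0 ei
  have : i = 0 := by omega
  subst this
  simpa using hl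

end

theorem rel_step (m x f i y lo hi nz acc : ℕ) : relL m x (f + 1) i y lo hi nz acc =
    (fun v => (fun lo' hi' nz' => (fun acc' =>
      if ph m y = 0 then acc' else if ph m y = x then Nat.lor acc' (xcl (i + 1))
      else relL m x f (i + 1) (ph m y) lo' hi' nz' acc')
        (Nat.lor (Nat.lor acc (if i = 4 ∧ nz' = 0 then 1 else 0))
          (Nat.lor (w24 XLO i lo') (w24 XHI i hi'))))
      (if sb 61 v = true then up3 lo else lo) (if v.testBit 1 = true then hi else up3 hi)
      (if sb 62 v = true then nz else 1)) (Nat.land (Nat.shiftRight m (Nat.add y 64)) 63) := by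
  have e : relL m x (f + 1) i y lo hi nz acc =
      frc (Nat.land (Nat.shiftRight m (Nat.add y 64)) 63) fun v =>
      frc (sel (sb 61 v) (up3 lo) lo) fun lo =>
      frc (sel (tb v 1) hi (up3 hi)) fun hi =>
      frc (sel (sb 62 v) nz 1) fun nz =>
      frc (Nat.lor (Nat.lor acc (sel (cj (Nat.beq i 4) (Nat.beq nz 0)) 1 0))
        (Nat.lor (w24 XLO i lo) (w24 XHI i hi))) fun acc =>
      frc (ph m y) fun y' => frc (Nat.succ i) fun i' =>
      sel (Nat.beq y' 0) acc
        (sel (Nat.beq y' x) (Nat.lor acc (xcl i')) (relL m x f i' y' lo hi nz acc)) := rfl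
  rw [e]
  simp only [frc_eq, sel_eq, cj_iff, tb_eq, Nat.beq_eq]

theorem rel_up3 (c : ℕ) : up3 c = if c ≤ 2 then c + 1 else 3 := by
  unfold up3
  simp only [sel_eq, Nat.ble_eq]

theorem rel_vbit {m y t : ℕ} (h : (Nat.land (Nat.shiftRight m (Nat.add y 64)) 63).testBit t = true) :
    t < 6 ∧ m.testBit (y + (64 + t)) = true := by
  have h' : (m >>> (y + 64) &&& (2 ^ 6 - 1)).testBit t = true := h
  rw [Nat.testBit_and, Bool.and_eq_true, Nat.testBit_shiftRight, Nat.testBit_two_pow_sub_one]
    at h'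
  refine ⟨by simpa using h'.2, ?_⟩
  rw [← h'.1, add_assoc]

theorem rel_main (hinv : St_inv) (hrp : St_rp) (R : Rule) (D : Type) [Fintype D] (σ α : Perm D)
    (N : Set D) (hc : Ctx σ α N) (m nd : ℕ) (h : ℕ → D) (hh : Hom R σ α N m nd h) (d : ℕ) :
    ∀ f i y lo hi nz acc, i + f ≤ 12 → Val nd y → h y = ((σ * α) ^ i) (h d) →
      lo ≤ min 3 (rel_cn σ α N (h d) i) → min 3 (rel_cn σ α N (h d) i) ≤ hi → hi ≤ 3 →
      (nz = 0 → ∀ j < i, ((σ * α) ^ j) (h d) ∉ N) → rel_Good (fc σ α N (h d)) acc →
      rel_Good (fc σ α N (h d)) (relL m d f i y lo hi nz acc) := by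
  obtain ⟨-, -, -, -, -, hL, -, -, -, h21, -, -, hfl⟩ := hinv D σ α N hc.cls (h d)
  obtain ⟨hklo, hkhi⟩ := rel_cls σ α N (h d) hL
  intro f
  induction f with
  | zero => intro i y lo hi nz acc _ _ _ _ _ _ _ hacc; exact hacc
  | succ f ih =>
    intro i y lo hi nz acc hif hy hyx hlo hhi hhi3 hnz hacc
    have hr := hrp R D σ α N hc m nd h hh y (h y) (Or.inr ⟨hy, rfl⟩)
    obtain ⟨-, -, -, hph, -, -, -, -, hfact, -⟩ := hr
    obtain ⟨-, hv6, hv0, -⟩ := hinv D σ α N hc.cls (h y)
    rw [rel_step]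
    generalize hv : Nat.land (Nat.shiftRight m (Nat.add y 64)) 63 = v
    have hvb : ∀ t, v.testBit t = true → vt σ N (h y) ≠ t := by
      intro t ht
      rw [← hv] at ht
      obtain ⟨ht6, hb⟩ := rel_vbit ht
      have := hfact (64 + t) (by omega) (by omega) hb
      unfold Fact at this
      rw [if_pos (by omega)] at this
      omega
    have hcs := rel_cn_succ σ α N (h d) i
    rw [← hyx] at hcs
    beta_reduce
    generalize hlo' : (if sb 61 v = true then up3 lo else lo) = lo'
    generalize hhi' : (if v.testBit 1 = true then hi else up3 hi) = hi'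
    generalize hnz' : (if sb 62 v = true then nz else 1) = nz'
    have a1 : lo' ≤ min 3 (rel_cn σ α N (h d) (i + 1)) := by
      rw [← hlo', hcs]
      split_ifs with e1 e2 e2
      · rw [rel_up3]; split_ifs <;> omega
      · exfalso
        rw [sb_iff] at e1
        have b0 := hvb 0 (e1 0 (by decide))
        have b2 := hvb 2 (e1 2 (by decide))
        have b3 := hvb 3 (e1 3 (by decide))
        have b4 := hvb 4 (e1 4 (by decide))
        have b5 := hvb 5 (e1 5 (by decide))
        omega
      · omega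
      · omega
    have a2 : min 3 (rel_cn σ α N (h d) (i + 1)) ≤ hi' ∧ hi' ≤ 3 := by
      rw [← hhi', hcs]
      split_ifs with e1 e2 e2
      · exact absurd e1 (hvb 1 e2)
      · rw [rel_up3]; split_ifs <;> omega
      · omega
      · rw [rel_up3]; split_ifs <;> omega
    have a3 : nz' = 0 → ∀ j < i + 1, ((σ * α) ^ j) (h d) ∉ N := by
      rw [← hnz']
      split_ifs with e1
      · intro e0 j hj
        rcases Nat.lt_succ_iff_lt_or_eq.mp hj with hj | rfl
        · exact hnz e0 j hj
        · rw [← hyx, ← hv0]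
          rw [sb_iff] at e1
          have b1 := hvb 1 (e1 1 (by decide))
          have b2 := hvb 2 (e1 2 (by decide))
          have b3 := hvb 3 (e1 3 (by decide))
          have b4 := hvb 4 (e1 4 (by decide))
          have b5 := hvb 5 (e1 5 (by decide))
          omega
      · intro e0; exact e0.elim
    have a4 : rel_Good (fc σ α N (h d)) (Nat.lor (Nat.lor acc (if i = 4 ∧ nz' = 0 then 1 else 0))
        (Nat.lor (w24 XLO i lo') (w24 XHI i hi'))) := by
      refine rel_good_lor (rel_good_lor hacc ?_) (rel_good_lor ?_ ?_)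
      · split_ifs with e1
        · refine rel_good_pow (k := 0) (by norm_num) fun e => ?_
          obtain ⟨j, hj, hjN⟩ := rel_fc0 σ α N (h d) e.symm
          exact a3 e1.2 j (by omega) hjN
        · exact rel_good_zero _
      · intro c hcb
        have hc16 := rel_lt (rel_lo_lt i (by omega) lo' (by omega)) hcb
        refine ⟨by omega, fun e => ?_⟩
        obtain ⟨b1, b2⟩ := rel_lo (by omega) (by omega) hc16 hcb
        rw [e] at b1 b2
        rcases hfl with e' | ⟨e', -⟩
        · have := rel_cn_mono σ α N (h d) (i := i + 1) (j := fln σ α (h d)) (by omega)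
          rw [rel_cn_fln] at this
          have h4 : rel_khi (fc σ α N (h d)) < 4 := by
            have := min_le_left 3 (rel_cn σ α N (h d) (i + 1))
            omega
          have := hkhi h4
          have := min_le_right 3 (rel_cn σ α N (h d) (i + 1))
          omega
        · rw [e', rel_fl14] at b1
          omega
      · intro c hcb
        have hc16 := rel_lt (rel_hi_lt i (by omega) hi' (by omega)) hcb
        refine ⟨by omega, fun e => ?_⟩
        obtain ⟨⟨b1, b2⟩, b3⟩ := rel_hi (by omega) (by omega) hc16 hcb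
        rw [e] at b1 b2 b3
        rcases hfl with e' | ⟨e', -⟩
        · have e2 : i + 1 = fln σ α (h d) := by omega
          rw [e2, rel_cn_fln] at a2
          omega
        · rw [e', rel_fl14] at b1
          omega
    have a5 : ((σ * α) ^ (i + 1)) (h d) = (σ * α) (h y) := by
      rw [hyx, pow_succ', Perm.mul_apply]
    generalize (Nat.lor (Nat.lor acc (if i = 4 ∧ nz' = 0 then 1 else 0))
        (Nat.lor (w24 XLO i lo') (w24 XHI i hi'))) = acc' at a4 ⊢
    split_ifs with e1 e2
    · exact a4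
    · refine rel_good_lor a4 fun c hcb => ?_
      refine ⟨rel_lt (rel_x_lt (i + 1) (by omega)) hcb, fun e => ?_⟩
      rcases hph with e0 | ⟨-, e0⟩
      · exact e1 e0
      rw [e2, ← a5] at e0
      have hper : Function.IsPeriodicPt (σ * α) (i + 1) (h d) := by
        unfold Function.IsPeriodicPt Function.IsFixedPt
        rw [← Perm.coe_pow]
        exact e0.symm
      have hdv : fln σ α (h d) ∣ i + 1 := hper.minimalPeriod_dvd
      rw [e] at hcb
      rcases rel_x (by omega) h21 hcb with ⟨⟨b1, b2⟩, b3⟩ | ⟨b1, b2⟩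
      · rcases hfl with e' | ⟨-, e'⟩
        · rw [b1, rel_fl14] at e'
          omega
        · have := Nat.le_of_dvd (by omega) hdv
          omega
      · rcases hfl with e' | ⟨e', -⟩
        · rw [e'] at b2
          exact b2 (Nat.mod_eq_zero_of_dvd hdv)
        · exact b1 e'
    · rcases hph with e0 | ⟨hy', e0⟩
      · exact absurd e0 e1
      exact ih (i + 1) _ lo' hi' nz' _ (by omega) hy' (by rw [e0, a5]) a1 a2.1 a2.2 a3 a4

theorem rel_TB : ∀ i, TB.testBit i = true → 64 ≤ i ∧ i < 127 := by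
  intro i hi
  have e : TB = 61 <<< 64 := by decide +kernel
  rw [e, Nat.testBit_shiftLeft] at hi
  simp only [Bool.and_eq_true, decide_eq_true_eq] at hi
  have := rel_lt (k := 6) (by norm_num) hi.2
  omega

theorem rel_q (hinv : St_inv) (hrp : St_rp) (htab : St_tab) (R : Rule) (D : Type) [Fintype D]
    (σ α : Perm D) (N : Set D) (hc : Ctx σ α N) (m nd : ℕ) (h : ℕ → D)
    (hh : Hom R σ α N m nd h) (d : ℕ) (hd : Val nd d) :
    rel_Good (fc σ α N (h d)) (relQ m d) := by
  obtain ⟨-, hv6, -, -, -, hL, -⟩ := hinv D σ α N hc.cls (h d)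
  obtain ⟨hn, -, -, -, -, -, -, -, -, hsb, -⟩ :=
    hrp R D σ α N hc m nd h hh d (h d) (Or.inr ⟨hd, rfl⟩)
  obtain ⟨-, -, -, -, -, -, -, -, hfact', hsb', -⟩ := hrp R D σ α N hc m nd h hh _ _ hn
  unfold relQ
  simp only [sel_eq, tb_eq]
  split_ifs with e1 e2 e3 e3
  all_goals first
    | exact rel_good_zero _
    | skip
  all_goals
    have hv1 : vt σ N (h d) = 1 := by
      have hF := hsb TB rel_TB e1
      have key : ∀ t < 6, TB.testBit (64 + t) = true → vt σ N (h d) ≠ t := by
        intro t ht hb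
        have := hF _ hb
        unfold Fact at this
        rw [if_pos (by omega)] at this
        omega
      have b0 := key 0 (by norm_num) (by decide +kernel)
      have b2 := key 2 (by norm_num) (by decide +kernel)
      have b3 := key 3 (by norm_num) (by decide +kernel)
      have b4 := key 4 (by norm_num) (by decide +kernel)
      have b5 := key 5 (by norm_num) (by decide +kernel)
      omega
    have g6 : sb (lenX 6) (Nat.shiftRight m (nx m d)) = true →
        rel_Good (fc σ α N (h d)) 64 := by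
      intro e
      obtain ⟨-, ⟨hb, hl⟩, -⟩ := htab R D σ α N hc (σ (h d)) 6
      have := hl (hsb' _ (fun i hi => by have := hb i hi; omega) e)
      exact rel_good_pow (k := 6) (by norm_num) fun e' => rel_fc6 σ α N (h d) e'.symm hv1 this
    have g15 : m.testBit (Nat.add (nx m d) 71) = true → rel_Good (fc σ α N (h d)) 32768 := by
      intro e
      have := hfact' 71 (by norm_num) (by norm_num) e
      unfold Fact at this
      rw [if_neg (by omega), if_pos (by omega)] at this
      refine rel_good_pow (k := 15) (by norm_num) fun e' => this ?_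
      rw [rel_fc1 σ α N _ (rel_fc15 σ α N (h d) hL e'.symm hv1)]
  · exact rel_good_lor (g6 e2) (g15 e3)
  · exact rel_good_lor (g6 e2) (rel_good_zero _)
  · exact rel_good_lor (rel_good_zero _) (g15 e3)

theorem stREL (hinv : St_inv) (hrp : St_rp) (htab : St_tab) : St_rel := by
  intro R D _ σ α N hc m nd h hh d hd
  have hg : rel_Good (fc σ α N (h d)) (Nat.lor (relL m d 12 0 d 0 0 0 0) (relQ m d)) :=
    rel_good_lor (rel_main hinv hrp R D σ α N hc m nd h hh d 12 0 d 0 0 0 0 le_rfl hd (by simp)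
      (Nat.zero_le _) (by simp [rel_cn]) (by norm_num) (fun _ j hj => absurd hj (by omega))
      (rel_good_zero _)) (rel_q hinv hrp htab R D σ α N hc m nd h hh d hd)
  have key : ∀ i, (relX m d).testBit i = true → 70 ≤ i ∧ i - 70 < 22 ∧
      i - 70 ≠ fc σ α N (h d) := by
    intro i hi
    have hi' : (Nat.lor (relL m d 12 0 d 0 0 0 0) (relQ m d) <<< 70).testBit i = true := hi
    rw [Nat.testBit_shiftLeft] at hi'
    simp only [Bool.and_eq_true, decide_eq_true_eq] at hi'
    exact ⟨hi'.1, hg _ hi'.2⟩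
  refine ⟨fun i hi => ?_, fun i hi => ?_⟩
  · have := key i hi
    omega
  · have := key i hi
    unfold Fact
    rw [if_neg (by omega), if_pos (by omega)]
    omega

end Pool.Agent.Lib.G6
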