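import Pool.Agent.Lib.G6.Blue
import Pool.Agent.Lib.MP_bfaad3_co.PM1

set_option autoImplicit false

/-! Walking in an incomplete map and reading its facts. -/

namespace Pool.Agent.Lib.G6

open Equiv
open Pool.Agent.Lib.MP_bfaad3_co (frc sel cj dj tb sb BT frc_eq sb_iff)

theorem rp_low {m d : ℕ} (h : ∀ i, i < 17 → m.testBit (d + i) = false) :
    Nat.land (Nat.shiftRight m d) 131071 = 0 := by
  change m >>> d &&& (2 ^ 17 - 1) = 0
  refine Nat.eq_of_testBit_eq fun i => ?_
  rw [Nat.testBit_and, Nat.testBit_shiftRight, Nat.testBit_two_pow_sub_one, Nat.zero_testBit]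
  by_cases hi : i < 17
  · rw [h i hi, Bool.false_and]
  · simp [hi]

theorem rp_mask (k s : ℕ) : Bits s (s + k) ((2 ^ k - 1) <<< s) := by
  intro i hi
  rw [Nat.testBit_shiftLeft, Nat.testBit_two_pow_sub_one, Bool.and_eq_true, decide_eq_true_eq,
    decide_eq_true_eq] at hi
  omega

theorem rp_VM : Bits 64 70 VM := by
  have : VM = (2 ^ 6 - 1) <<< 64 := by decide
  rw [this]
  exact rp_mask 6 64

theorem rp_FM : Bits 70 92 FM := by
  have : FM = (2 ^ 22 - 1) <<< 70 := by decide
  rw [this]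
  exact rp_mask 22 70

theorem rp_itr (f : ℕ → ℕ) (k d : ℕ) : itr f (k + 1) d = itr f k (f d) := frc_eq _ _

section
variable {R : Rule} {D : Type} [Fintype D] {σ α : Perm D} {N : Set D} {m nd : ℕ} {h : ℕ → D}

theorem rp_nx (hh : Hom R σ α N m nd h) {d : ℕ} {x : D} (hd : Rp nd h d x) :
    Rp nd h (nx m d) (σ x) := by
  rcases hd with rfl | ⟨h1, rfl⟩
  · exact Or.inl (rp_low fun i hi => hh.nul _ (by omega) (by omega))
  · exact hh.hn d h1

theorem rp_pv (hh : Hom R σ α N m nd h) {d : ℕ} {x : D} (hd : Rp nd h d x) :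
    Rp nd h (pv m d) (σ⁻¹ x) := by
  rcases hd with rfl | ⟨h1, rfl⟩
  · refine Or.inl (rp_low fun i hi => ?_)
    change m.testBit (17 + i) = false
    exact hh.nul _ (by omega) (by omega)
  · exact hh.hp d h1

theorem rp_al (hh : Hom R σ α N m nd h) {d : ℕ} {x : D} (hd : Rp nd h d x) :
    Rp nd h (al m d) (α x) := by
  rcases hd with rfl | ⟨h1, rfl⟩
  · refine Or.inl (rp_low fun i hi => ?_)
    change m.testBit (34 + i) = false
    exact hh.nul _ (by omega) (by omega)
  · exact hh.ha d h1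

theorem rp_iter {f : ℕ → ℕ} {π : Perm D} (hf : ∀ d x, Rp nd h d x → Rp nd h (f d) (π x)) (k : ℕ) :
    ∀ d x, Rp nd h d x → Rp nd h (itr f k d) ((π ^ k) x) := by
  induction k with
  | zero => exact fun d x hd => hd
  | succ k ih =>
    intro d x hd
    rw [rp_itr, pow_succ, Perm.mul_apply]
    exact ih _ _ (hf d x hd)

theorem rp_walk (hh : Hom R σ α N m nd h) (w : W) :
    ∀ d x, Rp nd h d x → Rp nd h (walk m w d) (wr σ α w x) := by
  induction w with
  | e => exact fun d x hd => hd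
  | a w ih => exact fun d x hd => ih _ _ (rp_al hh hd)
  | s w ih => exact fun d x hd => ih _ _ (rp_nx hh hd)
  | i w ih => exact fun d x hd => ih _ _ (rp_pv hh hd)

theorem rp_fact (hh : Hom R σ α N m nd h) {d : ℕ} {x : D} (hd : Rp nd h d x) (i : ℕ)
    (h1 : 64 ≤ i) (h2 : i < 127) (h3 : m.testBit (d + i) = true) : Fact R σ α N i x := by
  rcases hd with rfl | ⟨h4, rfl⟩
  · rw [Nat.zero_add, hh.nul i (by omega) (Or.inr h1)] at h3
    exact absurd h3 (by simp)
  · exact hh.hf d i h4 h1 h2 h3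

theorem rp_get (hh : Hom R σ α N m nd h) {d : ℕ} {x : D} (hd : Rp nd h d x) {lo hi a : ℕ}
    (ha : Bits lo hi a) (h1 : 64 ≤ lo) (h2 : hi ≤ 127) :
    Bits lo hi (Nat.land (Nat.shiftRight m d) a) ∧
      Facts R σ α N (Nat.land (Nat.shiftRight m d) a) x := by
  have key : ∀ i, (Nat.land (Nat.shiftRight m d) a).testBit i = true →
      m.testBit (d + i) = true ∧ a.testBit i = true := by
    intro i hi
    change (m >>> d &&& a).testBit i = true at hi
    rwa [Nat.testBit_and, Nat.testBit_shiftRight, Bool.and_eq_true] at hi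
  refine ⟨fun i hi => ha i (key i hi).2, fun i hi => ?_⟩
  have := ha i (key i hi).2
  exact rp_fact hh hd i (by omega) (by omega) (key i hi).1

end

theorem stRP : St_rp := by
  intro R D _ σ α N hc m nd h hh d x hd
  have hph : ∀ d x, Rp nd h d x → Rp nd h (ph m d) ((σ * α) x) :=
    fun d x hd => rp_nx hh (rp_al hh hd)
  refine ⟨rp_nx hh hd, rp_pv hh hd, rp_al hh hd, hph d x hd, ?_, fun w => rp_walk hh w d x hd,
    fun k => rp_iter (fun _ _ => rp_nx hh) k d x hd, fun k => rp_iter hph k d x hd,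
    rp_fact hh hd, fun a ha hs i hi => ?_, rp_get hh hd rp_VM le_rfl (by omega),
    rp_get hh hd rp_FM (by omega) (by omega)⟩
  · have : (σ * α)⁻¹ x = α (σ⁻¹ x) := by
      rw [Perm.inv_eq_iff_eq, Perm.mul_apply, hc.cls.inv]
      simp
    rw [this]
    exact rp_al hh (rp_pv hh hd)
  · have h1 := (sb_iff _ _).1 hs i hi
    change (m >>> d).testBit i = true at h1
    rw [Nat.testBit_shiftRight] at h1
    exact rp_fact hh hd i (ha i hi).1 (ha i hi).2 h1

end Pool.Agent.Lib.G6
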