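import Pool.Agent.Lib.G6.Blue

set_option autoImplicit false

/-! A face that shares its capacity does not overspend. -/

namespace Pool.Agent.Lib.G6

open Equiv Finset

section
variable {R : Rule} {D : Type} [Fintype D] {σ α : Perm D} {N : Set D}

omit [Fintype D] in
theorem sup_per (x : D) : ((σ * α) ^ fln σ α x) x = x := by
  rw [Perm.coe_pow]
  exact Function.iterate_minimalPeriod

omit [Fintype D] in
theorem sup_shift (g : D → ℕ) (x : D) :
    ∑ i ∈ range (fln σ α x), g (((σ * α) ^ i) ((σ * α) x)) =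
      ∑ i ∈ range (fln σ α x), g (((σ * α) ^ i) x) := by
  set G : ℕ → ℕ := fun i => g (((σ * α) ^ i) x) with hG
  have h1 : ∑ i ∈ range (fln σ α x), g (((σ * α) ^ i) ((σ * α) x)) =
      ∑ i ∈ range (fln σ α x), G (i + 1) :=
    sum_congr rfl fun i _ => by simp only [hG, pow_succ, Perm.mul_apply]
  have h3 : G (fln σ α x) = G 0 := by
    simp only [hG, sup_per, pow_zero, Perm.one_apply]
  have h4 := (sum_range_succ G (fln σ α x)).symm.trans (sum_range_succ' G (fln σ α x))
  rw [h3] at h4
  rw [h1]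
  exact (Nat.add_right_cancel h4).symm

theorem sup_iter (hinv : St_inv) (hc : Ctx σ α N) (x : D) (i : ℕ) :
    fc σ α N (((σ * α) ^ i) x) = fc σ α N x ∧
    (∀ g, fsum R σ α N g (((σ * α) ^ i) x) = fsum R σ α N g x) ∧
    cnt2 σ α N (((σ * α) ^ i) x) = cnt2 σ α N x := by
  classical
  induction i with
  | zero => exact ⟨rfl, fun _ => rfl, rfl⟩
  | succ i ih =>
    obtain ⟨-, -, -, -, h1, -, -, h3, -⟩ := hinv D σ α N hc.cls (((σ * α) ^ i) x)
    rw [pow_succ', Perm.mul_apply]
    change fln σ α ((σ * α) _) = _ at h1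
    refine ⟨h3.trans ih.1, fun g => Eq.trans ?_ (ih.2.1 g), Eq.trans ?_ ih.2.2⟩
    · rw [fsum, h1]
      exact sup_shift (fun y => g (lv R σ α N 0 y) + g (lv R σ α N 1 y)) _
    · rw [cnt2, cnt2, h1, card_filter, card_filter]
      exact sup_shift (fun y => if vt σ N y = 1 then 1 else 0) _

omit [Fintype D] in
theorem sup_mono {g g' : ℕ → ℕ} (h : ∀ l, g l ≤ g' l) (x : D) :
    fsum R σ α N g x ≤ fsum R σ α N g' x :=
  sum_le_sum fun _ _ => Nat.add_le_add (h _) (h _)

omit [Fintype D] in
theorem sup_anti {s t : ℕ} (h : s ≤ t) (x : D) : req R σ α N t x ≤ req R σ α N s x :=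
  sup_mono (fun l => by split_ifs <;> omega) x

end

theorem stSUP (hinv : St_inv) : St_sup := by
  classical
  intro R D _ σ α N hc x hx
  have hit := sup_iter (R := R) hinv hc x
  set C := capx R σ α N x with hC
  have ha : ∀ i k, k ≤ 1 → ∀ l, lv R σ α N k (((σ * α) ^ i) x) = l →
      amt R σ α N k (((σ * α) ^ i) x) =
        if req R σ α N (byt R.ti l) x ≤ C then byt R.am1 l else min (byt R.am1 l)
          ((C - req R σ α N (byt R.ti l + 1) x) * byt R.wt l /
            fsum R σ α N (fun l' => if byt R.ti l' = byt R.ti l then byt R.wt l' else 0) x) := by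
    intro i k hk l hl
    obtain ⟨h1, h2, h3⟩ := hit i
    simp only [amt, req, capx, h1, h2, h3, hl, hk, hx, and_self, if_true, hC]
  have hex : ∃ T, req R σ α N T x ≤ C := ⟨256, by
    have h : ∀ l, ¬ 256 ≤ byt R.ti l := fun l =>
      not_le.2 (Nat.lt_succ_of_le (Nat.and_le_right (m := 255)))
    simp only [req, fsum, h, if_false, Nat.add_zero, sum_const_zero, Nat.zero_le]⟩
  obtain ⟨T, hT1, hT2⟩ : ∃ T, req R σ α N T x ≤ C ∧ ∀ t < T, C < req R σ α N t x :=
    ⟨Nat.find hex, Nat.find_spec hex, fun t ht => not_le.1 (Nat.find_min hex ht)⟩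
  set g : ℕ → ℕ := fun l => if byt R.ti l + 1 = T then byt R.wt l else 0 with hg
  set S := fsum R σ α N g x with hS
  set K := C - req R σ α N T x with hK
  have key : ∀ i k, k ≤ 1 → ∀ l, lv R σ α N k (((σ * α) ^ i) x) = l →
      amt R σ α N k (((σ * α) ^ i) x) ≤
        (if T ≤ byt R.ti l then byt R.am1 l else 0) + K * g l / S := by
    intro i k hk l hl
    rw [ha i k hk l hl]
    by_cases h1 : T ≤ byt R.ti l
    · rw [if_pos h1]
      refine le_trans ?_ (Nat.le_add_right _ _)
      split_ifs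
      exacts [le_rfl, min_le_left _ _]
    rw [if_neg h1, if_neg (not_le.2 (hT2 _ (by omega))), Nat.zero_add]
    refine (min_le_right _ _).trans ?_
    by_cases h2 : byt R.ti l + 1 = T
    · have h3 : (fun l' => if byt R.ti l' = byt R.ti l then byt R.wt l' else 0) = g := by
        funext l'
        simp only [hg, ← h2, Nat.add_right_cancel_iff]
      rw [h3, h2]
      simp only [hg, h2, if_true]
      rfl
    · rw [Nat.sub_eq_zero_of_le (hT2 _ (by omega)).le, Nat.zero_mul, Nat.zero_div]
      exact Nat.zero_le _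
  have h1 : ∑ i ∈ range (fln σ α x), (K * g (lv R σ α N 0 (((σ * α) ^ i) x)) / S +
      K * g (lv R σ α N 1 (((σ * α) ^ i) x)) / S) ≤ K := by
    rcases Nat.eq_zero_or_pos S with h0 | h0
    · simp only [h0, Nat.div_zero, Nat.add_zero, sum_const_zero, Nat.zero_le]
    · refine Nat.le_of_mul_le_mul_left ?_ h0
      rw [mul_sum, mul_comm S K, hS, fsum, mul_sum]
      refine sum_le_sum fun i _ => ?_
      rw [mul_add, mul_add]
      exact add_le_add (Nat.mul_div_le _ _) (Nat.mul_div_le _ _)
  refine le_trans (sum_le_sum fun i _ => Nat.add_le_add (key i 0 (by omega) _ rfl)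
    (key i 1 le_rfl _ rfl)) ?_
  simp only [Nat.add_add_add_comm _ (K * _ / S)]
  rw [sum_add_distrib]
  change req R σ α N T x + _ ≤ C
  omega

end Pool.Agent.Lib.G6
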