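import Pool.Agent.Lib.G6.Blue

set_option autoImplicit false

/-! The tables of lengths and degrees. -/

namespace Pool.Agent.Lib.G6

open Equiv
open Pool.Agent.Lib.MP_bfaad3_co (frc sel cj dj tb sb BT)

theorem tab_shift {a k s : ℕ} (ha : a < 2 ^ k) : Bits s (s + k) (Nat.shiftLeft a s) := by
  intro i hi
  change (a <<< s).testBit i = true at hi
  rw [Nat.testBit_shiftLeft, Bool.and_eq_true, decide_eq_true_eq] at hi
  refine ⟨hi.1, ?_⟩
  by_contra hc
  have : a.testBit (i - s) = false :=
    Nat.testBit_lt_two_pow (lt_of_lt_of_le ha (Nat.pow_le_pow_right (by omega) (by omega)))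
  rw [this] at hi
  exact absurd hi.2 (by simp)

theorem tab_xor {lo hi a b : ℕ} (ha : Bits lo hi a) (hb : Bits lo hi b) :
    Bits lo hi (Nat.xor a b) := by
  intro i h
  change (a ^^^ b).testBit i = true at h
  rw [Nat.testBit_xor] at h
  by_cases h1 : a.testBit i = true
  · exact ha i h1
  · by_cases h2 : b.testBit i = true
    · exact hb i h2
    · simp [h1, h2] at h

theorem tab_VM : Bits 64 70 VM := by
  have : VM = Nat.shiftLeft 63 64 := by decide
  rw [this]
  exact tab_shift (k := 6) (by norm_num)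

theorem tab_FM : Bits 70 92 FM := by
  have : FM = Nat.shiftLeft 4194303 70 := by decide
  rw [this]
  exact tab_shift (k := 22) (by norm_num)

theorem tab_ZB : Bits 64 70 ZB := by
  have : ZB = Nat.shiftLeft 62 64 := by decide
  rw [this]
  exact tab_shift (k := 6) (by norm_num)

theorem tab_NB : Bits 64 70 NB := by
  have : NB = Nat.shiftLeft 1 64 := by decide
  rw [this]
  exact tab_shift (k := 6) (by norm_num)

theorem tab_degX_big {n : ℕ} (hn : 5 < n) : degX n = VM := by
  have : Nat.ble n 5 = false := by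
    rw [← Bool.not_eq_true, Nat.ble_eq]
    omega
  unfold degX
  rw [this]
  rfl

theorem tab_lenX_big {n : ℕ} (hn : 11 < n) : lenX n = FM := by
  have : Nat.ble n 11 = false := by
    rw [← Bool.not_eq_true, Nat.ble_eq]
    omega
  unfold lenX
  rw [this]
  rfl

theorem tab_degX_small : ∀ n < 6, degX n = Nat.shiftLeft (byt 0x2f373a3d3f3f n) 64 ∧
    byt 0x2f373a3d3f3f n < 2 ^ 6 := by decide

theorem tab_degX_bits (n : ℕ) : Bits 64 70 (degX n) := by
  by_cases hn : 5 < n
  · rw [tab_degX_big hn]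
    exact tab_VM
  · obtain ⟨h1, h2⟩ := tab_degX_small n (by omega)
    rw [h1]
    exact tab_shift (k := 6) h2

theorem tab_lenX_small : ∀ n < 12, lenX n = Nat.shiftLeft (Nat.shiftRight (lenX n) 70) 70 ∧
    Nat.shiftRight (lenX n) 70 < 2 ^ 22 := by decide

theorem tab_lenX_bits (n : ℕ) : Bits 70 92 (lenX n) := by
  by_cases hn : 11 < n
  · rw [tab_lenX_big hn]
    exact tab_FM
  · obtain ⟨h1, h2⟩ := tab_lenX_small n (by omega)
    rw [h1]
    exact tab_shift (k := 22) h2

theorem tab_clsX_bits {n : ℕ} (hn : n < 22) : Bits 70 92 (clsX n) := by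
  refine tab_xor tab_FM ?_
  intro i hi
  have := tab_shift (a := 1) (k := 1) (s := Nat.add n 70) (by norm_num) i hi
  change n + 70 ≤ i ∧ i < n + 70 + 1 at this
  omega

theorem tab_VM_bit : ∀ v < 6, VM.testBit (64 + v) = true := by decide

theorem tab_FM_bit : ∀ f < 21, FM.testBit (70 + f) = true := by decide

theorem tab_ZB_bit : ∀ v < 6, (ZB.testBit (64 + v) = false ↔ v = 0) := by decide

theorem tab_NB_bit : ∀ v < 6, (NB.testBit (64 + v) = false ↔ v ≠ 0) := by decide

theorem tab_degX_bit : ∀ n < 6, ∀ v < 6, (degX n).testBit (64 + v) = false →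
    (v = 0 ∧ n = 3) ∨ (1 ≤ v ∧ v ≤ 4 ∧ n = v + 1) := by decide

theorem tab_lenX_bit : ∀ n < 12, ∀ f < 21, (lenX n).testBit (70 + f) = false →
    fl f = n ∧ f ≠ 14 := by decide

theorem tab_clsX_bit : ∀ n < 22, ∀ f < 21, (clsX n).testBit (70 + f) = false → f = n := by
  decide

section
variable {R : Rule} {D : Type} [Fintype D] {σ α : Perm D} {N : Set D}

theorem tab_V {x : D} (hv : vt σ N x < 6) {a : ℕ} (ha : Bits 64 70 a) :
    Facts R σ α N a x ↔ a.testBit (64 + vt σ N x) = false := by
  constructor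
  · intro h
    by_contra hc
    have h1 := h _ (by simpa using hc)
    unfold Fact at h1
    rw [if_pos (by omega)] at h1
    omega
  · intro h i hi
    have h1 := ha i hi
    unfold Fact
    rw [if_pos h1.2]
    intro h2
    rw [Nat.add_comm, h2, hi] at h
    exact absurd h (by simp)

theorem tab_F {x : D} (hf : fc σ α N x < 21) {a : ℕ} (ha : Bits 70 92 a) :
    Facts R σ α N a x ↔ a.testBit (70 + fc σ α N x) = false := by
  constructor
  · intro h
    by_contra hc
    have h1 := h _ (by simpa using hc)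
    unfold Fact at h1
    rw [if_neg (by omega), if_pos (by omega)] at h1
    omega
  · intro h i hi
    have h1 := ha i hi
    unfold Fact
    rw [if_neg (by omega), if_pos h1.2]
    intro h2
    rw [Nat.add_comm, h2, hi] at h
    exact absurd h (by simp)

omit [Fintype D] in
theorem tab_deg {x : D} (h1 : 1 ≤ vt σ N x) (h4 : vt σ N x ≤ 4) : deg σ x = vt σ N x + 1 := by
  unfold vt at h1 h4 ⊢
  split_ifs at h1 h4 ⊢ <;> omega

end

theorem stTAB (hinv : St_inv) : St_tab := by
  intro R D _ σ α N hc x n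
  obtain ⟨-, hv, hv0, -, -, -, -, -, -, hf, -, -, hl⟩ := hinv D σ α N hc.cls x
  refine ⟨⟨tab_degX_bits n, fun h => ?_⟩, ⟨tab_lenX_bits n, fun h => ?_⟩,
    fun hn => ⟨tab_clsX_bits hn, fun h => ?_⟩, ?_, ?_, ?_, ?_, ?_, fun a ha h => ?_,
    fun a ha => ?_, fun a ha => ?_⟩
  · rw [tab_V hv (tab_degX_bits n)] at h
    by_cases hn : 5 < n
    · rw [tab_degX_big hn, tab_VM_bit _ hv] at h
      exact absurd h (by simp)
    · rcases tab_degX_bit n (by omega) _ hv h with ⟨h1, h2⟩ | ⟨h1, h2, h3⟩
      · rw [h2]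
        exact hc.cls.z3 x (hv0.1 h1)
      · rw [h3]
        exact tab_deg h1 h2
  · rw [tab_F hf (tab_lenX_bits n)] at h
    by_cases hn : 11 < n
    · rw [tab_lenX_big hn, tab_FM_bit _ hf] at h
      exact absurd h (by simp)
    · obtain ⟨h1, h2⟩ := tab_lenX_bit n (by omega) _ hf h
      rcases hl with h3 | h3
      · rw [← h3, h1]
      · exact absurd h3.1 h2
  · rw [tab_F hf (tab_clsX_bits hn)] at h
    exact tab_clsX_bit n hn _ hf h
  · rw [tab_V hv tab_ZB, tab_ZB_bit _ hv, hv0]
  · rw [tab_V hv tab_NB, tab_NB_bit _ hv, Ne, hv0, not_not]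
  · unfold Fact
    rw [if_pos (by omega)]
    constructor
    · intro h
      by_contra hx
      exact h (by rw [hv0.2 hx])
    · intro hx h
      exact hv0.1 (by omega) hx
  · rw [tab_V hv tab_VM, tab_VM_bit _ hv]
    simp
  · rw [tab_F hf tab_FM, tab_FM_bit _ hf]
    simp
  · have hb : Bits 70 92 (Nat.shiftLeft a 70) :=
      tab_shift (k := 22) (lt_trans ha (by norm_num))
    rw [tab_F hf hb] at h
    change (a <<< 70).testBit _ = false at h
    rw [Nat.testBit_shiftLeft, Nat.add_sub_cancel_left] at h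
    simpa using h
  · rw [tab_V hv ha, tab_V hv (tab_xor ha tab_VM)]
    change _ ∨ (a ^^^ VM).testBit _ = false
    rw [Nat.testBit_xor, tab_VM_bit _ hv]
    cases a.testBit (64 + vt σ N x) <;> simp
  · rw [tab_F hf ha, tab_F hf (tab_xor ha tab_FM)]
    change _ ∨ (a ^^^ FM).testBit _ = false
    rw [Nat.testBit_xor, tab_FM_bit _ hf]
    cases a.testBit (70 + fc σ α N x) <;> simp

end Pool.Agent.Lib.G6
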