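import Pool.Agent.Lib.G6.BASE
import Pool.Agent.Lib.G6.BLD
import Pool.Agent.Lib.G6.BND
import Pool.Agent.Lib.G6.CHK
import Pool.Agent.Lib.G6.CLF
import Pool.Agent.Lib.G6.DIS
import Pool.Agent.Lib.G6.EOP
import Pool.Agent.Lib.G6.EV
import Pool.Agent.Lib.G6.EXT
import Pool.Agent.Lib.G6.INV
import Pool.Agent.Lib.G6.LBA
import Pool.Agent.Lib.G6.LNK
import Pool.Agent.Lib.G6.MTC
import Pool.Agent.Lib.G6.P1
import Pool.Agent.Lib.G6.PLAN
import Pool.Agent.Lib.G6.PUT2
import Pool.Agent.Lib.G6.RED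
import Pool.Agent.Lib.G6.REL
import Pool.Agent.Lib.G6.RP
import Pool.Agent.Lib.G6.SUP
import Pool.Agent.Lib.G6.TAB
import Pool.Agent.Lib.G6.AMir

set_option autoImplicit false

/-! The blocks put together. -/

namespace Pool.Agent.Lib.G6

open Pool.Agent.Lib.MP_bfaad3_co (BT cj_iff)

theorem all_mir : St_mirror := fun _ _ _ _ _ h => h.mirror
theorem all_tab : St_tab := stTAB stINV
theorem all_put : St_put := stPUT2 stINV stRP
theorem all_ext : St_ext := stEXT stINV stRP all_tab
theorem all_ev : St_ev := stEV stRP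
theorem all_bld : St_bld := stBLD stINV stRP all_put all_tab all_ext
theorem all_bnd : St_bnd :=
  stBND stINV stRP all_tab all_ev (stSUP stINV) (stLBA stRP all_tab all_ev)
theorem all_chk : St_chk :=
  stCHK all_mir stINV stRP all_put all_tab all_ext (stLNK stRP) (stREL stINV stRP all_tab) all_ev
    all_bnd (stMTC stINV stRP) all_bld (stSHR stINV stRP all_tab all_ev)
theorem all_red : St_red := stRED stRP all_tab stPLAN stEOP (stCLF all_mir)

theorem all_p1 (h : cfgs1.All CfgOK) : NZN ∧ ∀ R, IniOK R INI :=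
  phase1 stINV all_tab all_chk (stBASE stINV all_tab all_bld) all_red h

/-- a table of well-formed configurations that are not embedded -/
theorem all_cfgW {t : BT (ℕ × ℕ)} (hw : t.all (fun k => cfgW k.1 k.2) = true) (h : t.All CfgOK) :
    t.All CfgW := by
  induction t with
  | lf a => exact ⟨hw, h⟩
  | nd k l r ihl ihr => exact ⟨ihl ((cj_iff _ _).1 hw).1 h.1, ihr ((cj_iff _ _).1 hw).2 h.2⟩

/-- the patterns below `i` do not occur -/
def Upto (R : Rule) (pats : BT ℕ) (i : ℕ) : Prop := ∀ j < i, PatOK R (pats.get j)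

/-- the hypotheses of the second phase -/
structure Env (R : Rule) (cfgs : BT (ℕ × ℕ)) : Prop where
  ok : RuleOK R
  c1 : cfgs1.All CfgOK
  cf : cfgs.All CfgW

theorem upto_zero (R : Rule) (pats : BT ℕ) : Upto R pats 0 := fun _ h => absurd h (by simp)

variable {R : Rule} {cfgs : BT (ℕ × ℕ)} {pats : BT ℕ}

theorem Env.step (E : Env R cfgs) {n i c : ℕ} (h : Upto R pats i)
    (hc : chkM R INI pats (red cfgs) n i c = true) : Upto R pats (i + n) :=
  (all_chk R INI pats _ E.ok ((all_p1 E.c1).2 R) (all_red R cfgs E.cf) (all_p1 E.c1).1).2 n i c h hc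

theorem Env.one (E : Env R cfgs) {i p c : ℕ} (h : Upto R pats i)
    (hc : chkP R INI pats i (red cfgs) p c = true) : PatOK R p :=
  (all_chk R INI pats _ E.ok ((all_p1 E.c1).2 R) (all_red R cfgs E.cf) (all_p1 E.c1).1).1 i p c h hc

theorem Env.noCtx (E : Env R cfgs) (hV : PatOK R pV) (hF : PatOK R (pF R)) (hW : PatOK R (pW R)) :
    NoCtx :=
  stDIS stINV all_tab R E.ok ((all_p1 E.c1).2 R) hV hF hW

end Pool.Agent.Lib.G6
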