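import Pool.Agent.Lib.G6.Blue

set_option autoImplicit false

/-! The first phase. -/

namespace Pool.Agent.Lib.G6

open Equiv

theorem base_ini0 (R : Rule) : IniOK R 0 :=
  ⟨fun i h => absurd h (by simp), fun _ _ _ _ _ _ _ i h => absurd h (by simp)⟩

theorem base_INI (i : ℕ) (h : INI.testBit i = true) : 86 ≤ i ∧ i < 92 := by
  rw [show INI = (2 ^ 6 - 1) <<< 86 from rfl] at h
  simp only [Nat.testBit_shiftLeft, Nat.testBit_two_pow_sub_one, Bool.and_eq_true,
    decide_eq_true_eq] at h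
  omega

theorem base_cls {j : ℕ} (h1 : 16 ≤ j) (h2 : j ≤ 20) :
    pCls j % 8 = 7 ∧ pCls j / 2 ^ 25 = 0 ∧ tstF (pCls j) = (4194303 - 2 ^ j) <<< 70 ∧
      (4194303 - 2 ^ j).testBit j = false ∧ 4194303 - 2 ^ j < 2 ^ 22 := by
  interval_cases j <;> decide

theorem stBASE (hinv : St_inv) (htab : St_tab) (hbld : St_bld) : St_base := by
  intro R
  refine ⟨base_ini0 R, fun red c hr hs D _ σ α N hc x hx hy => ?_, fun hp => ⟨fun i hi => ?_, ?_⟩⟩
  · have := Fintype.ofFinite D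
    have tN : ∀ y ∈ N, Facts R σ α N NB y := fun y hy => (htab R D σ α N hc y 0).2.2.2.2.1.2 hy
    have tZ : ∀ y ∉ N, Facts R σ α N ZB y := fun y hy => (htab R D σ α N hc y 0).2.2.2.1.2 hy
    have H0 : Holds R σ α N 0 (α (σ (α x))) 0 := Holds.fin 0 _ rfl
    have H1 : Holds R σ α N 14 (α (σ (α x))) 0 := Holds.v 14 _ 0 rfl (tN _ hy) H0
    have H2 : Holds R σ α N 113 (σ (α x)) 0 := Holds.a 113 _ 0 rfl H1
    have H3 : Holds R σ α N 906 (α x) 0 := Holds.s 906 _ 0 rfl H2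
    have H4 : Holds R σ α N 464374 (α x) 0 := Holds.v 464374 _ 0 rfl (tZ _ (hc.nn x hx)) H3
    have H5 : Holds R σ α N 3714993 x 0 := Holds.a 3714993 _ 0 rfl H4
    have H6 : Holds R σ α N pNZN x 0 := Holds.v pNZN _ 0 rfl (tN _ hx) H5
    obtain ⟨m', nd', h', -, -, h1, h2⟩ := hbld.1 R D σ α N hc _ _ _
      (hbld.2 R D σ α N hc 0 (base_ini0 R) x) 0 (base_ini0 R) 2000 pNZN 128 0 _
      ⟨le_rfl, by norm_num, dvd_rfl⟩ H6 hs
    exact hr D σ α N hc _ _ _ _ h2 h1
  · have := base_INI i hi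
    omega
  · intro D _ σ α N hc x i hi
    obtain ⟨h1, h2⟩ := base_INI i hi
    have h3 : fc σ α N x < 21 := (hinv D σ α N hc.cls x).2.2.2.2.2.2.2.2.2.1
    unfold Fact
    rw [if_neg (by omega), if_pos h2]
    intro e
    obtain ⟨b1, b2, b3, b4, b5⟩ := base_cls (j := fc σ α N x) (by omega) (by omega)
    refine hp (fc σ α N x) (by omega) (by omega) D σ α N hc x 0 (Holds.f _ _ 0 b1 ?_ ?_)
    · intro t ht
      rw [b3, Nat.testBit_shiftLeft, Bool.and_eq_true, decide_eq_true_eq] at ht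
      have h4 : t - 70 < 22 := by
        by_contra h5
        rw [Nat.testBit_lt_two_pow (lt_of_lt_of_le b5
          (Nat.pow_le_pow_right two_pos (not_lt.1 h5)))] at ht
        exact absurd ht.2 (by simp)
      unfold Fact
      rw [if_neg (by omega), if_pos (by omega)]
      intro e'
      rw [show t - 70 = fc σ α N x by omega, b4] at ht
      exact absurd ht.2 (by simp)
    · rw [b2]
      exact Holds.fin 0 _ rfl

end Pool.Agent.Lib.G6
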