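import Pool.Agent.Lib.G6.BPass

set_option autoImplicit false

namespace Pool.Agent.Lib.G6.B

/-- bit `i` of `X` is set -/
def tb (X i : ℕ) : Prop := X.testBit i = true

theorem frc_eq {α : Type} (e : ℕ) (k : ℕ → α) : frc e k = k e := by
  cases e <;> rfl

@[simp] theorem sel_true {α : Type} (t f : α) : sel true t f = t := rfl

@[simp] theorem sel_false {α : Type} (t f : α) : sel false t f = f := rfl

theorem tb_lor {a b i : ℕ} : tb (Nat.lor a b) i ↔ tb a i ∨ tb b i := by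
  unfold tb
  rw [Nat.lor_eq, Nat.testBit_or, Bool.or_eq_true]

theorem tb_land {a b i : ℕ} : tb (Nat.land a b) i ↔ tb a i ∧ tb b i := by
  unfold tb
  rw [Nat.land_eq, Nat.testBit_and, Bool.and_eq_true]

theorem tb_shr {a n i j : ℕ} (h : tb a j) (e : j = n + i) : tb (Nat.shiftRight a n) i := by
  unfold tb at *
  rw [Nat.shiftRight_eq, Nat.testBit_shiftRight, ← e, h]

theorem tb_shl {a n i j : ℕ} (h : tb a i) (e : j = n + i) : tb (Nat.shiftLeft a n) j := by
  unfold tb at *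
  rw [Nat.shiftLeft_eq', Nat.testBit_shiftLeft, e]
  simp [h]

theorem tb_zero (i : ℕ) : ¬ tb 0 i := by simp [tb]

theorem tb_ones {k i : ℕ} (h : i < k) : tb (ones k) i := by
  unfold tb ones
  rw [Nat.shiftLeft_eq', Nat.one_shiftLeft, Nat.sub_eq, Nat.testBit_two_pow_sub_one]
  simpa using h

theorem tb_catl {a n b i : ℕ} (h : tb a i) : tb (cat a n b) i := tb_lor.2 (Or.inr h)

theorem tb_catr {a n b i j : ℕ} (h : tb b i) (e : j = n + i) : tb (cat a n b) j :=
  tb_lor.2 (Or.inl (tb_shl h e))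

theorem tb_rp2 (v k : ℕ) : ∀ i t : ℕ, i < 2 ^ k → t < v → tb (rp2 v k) (3 * v * i + t) := by
  induction k with
  | zero =>
    intro i t h1 h2
    obtain rfl : i = 0 := by omega
    exact tb_ones (by simpa using h2)
  | succ k ih =>
    intro i t h1 h2
    have e : rp2 v (k + 1) = cat (rp2 v k) (Nat.shiftLeft (3 * v) k) (rp2 v k) := rfl
    rw [e, Nat.shiftLeft_eq', Nat.shiftLeft_eq]
    by_cases hi : i < 2 ^ k
    · exact tb_catl (ih i t hi h2)
    · obtain ⟨j, rfl⟩ : ∃ j, i = 2 ^ k + j := ⟨i - 2 ^ k, by omega⟩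
      exact tb_catr (ih j t (by omega) h2) (by ring)

theorem lt_log {a i : ℕ} (h : i < a) : i < 2 ^ (Nat.log2 (a - 1) + 1) := by
  have := @Nat.lt_log2_self (a - 1)
  omega

theorem tb_rep {v a i t : ℕ} (h2 : i < a) (h3 : t < v) : tb (rep v a) (3 * v * i + t) := by
  refine tb_land.2 ⟨tb_ones (show _ < 3 * v * a by nlinarith), ?_⟩
  unfold rpw
  rw [frc_eq]
  exact tb_rp2 v _ i t (lt_log h2) h3

/-- component `d` of a triple -/
def P3.get (p : P3) : ℕ → ℕ
  | 0 => p.1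
  | 1 => p.2
  | _ => p.3

theorem tb_tr3 {A : P3} {v m q i t d : ℕ} (hq : q < 3) (hi : i < m) (ht : t < v) (hd : d < 3)
    (h : tb (A.get q) (3 * v * i + d * v + t)) :
    tb ((tr3 A v (mk v m)).get d) (3 * v * i + q * v + t) := by
  have hM := tb_rep (v := v) hi ht
  unfold tr3 tr3b mk mkM
  generalize rep v m = M at hM
  interval_cases q <;> interval_cases d <;> simp only [P3.get, Nat.mul_eq] at h ⊢
  · exact tb_lor.2 (Or.inl (tb_lor.2 (Or.inl (tb_land.2 ⟨by simpa using hM, h⟩))))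
  · exact tb_shr (tb_lor.2 (Or.inl (tb_lor.2 (Or.inl (tb_land.2
      ⟨tb_shl hM (by ring), h⟩))))) (by ring)
  · exact tb_shr (tb_lor.2 (Or.inl (tb_lor.2 (Or.inl (tb_land.2
      ⟨tb_shl hM (by ring), h⟩))))) (by ring)
  · exact tb_lor.2 (Or.inl (tb_lor.2 (Or.inr (tb_land.2
      ⟨tb_shl hM (by ring), tb_shl h (by ring)⟩))))
  · exact tb_shr (tb_lor.2 (Or.inl (tb_lor.2 (Or.inr (tb_land.2
      ⟨tb_shl hM (by ring), tb_shl h rfl⟩))))) (by ring)
  · exact tb_shr (tb_lor.2 (Or.inl (tb_lor.2 (Or.inr (tb_land.2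
      ⟨tb_shl hM (by ring), tb_shl h rfl⟩))))) (by ring)
  · exact tb_lor.2 (Or.inr (tb_land.2 ⟨tb_shl hM (by ring), tb_shl h (by ring)⟩))
  · exact tb_shr (tb_lor.2 (Or.inr (tb_land.2 ⟨tb_shl hM (by ring), tb_shl h rfl⟩))) (by ring)
  · exact tb_shr (tb_lor.2 (Or.inr (tb_land.2 ⟨tb_shl hM (by ring), tb_shl h rfl⟩))) (by ring)

theorem ln_eq (L : ℕ) : ln L = if L % 3 = 1 ∧ 1 < L then L + 1 else L := by
  unfold ln
  by_cases h1 : L % 3 = 1
  · have : Nat.beq (Nat.mod L 3) 1 = true := by rw [Nat.beq_eq]; exact h1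
    rw [this, sel_true]
    by_cases h2 : L ≤ 1
    · rw [Nat.ble_eq_true_of_le h2, sel_true, if_neg (by omega)]
    · have : Nat.ble L 1 = false := by rw [← Bool.not_eq_true, Nat.ble_eq]; exact h2
      rw [this, sel_false, if_pos ⟨h1, by omega⟩]
  · have : Nat.beq (Nat.mod L 3) 1 = false := by
      rw [← Bool.not_eq_true, Nat.beq_eq]; exact h1
    rw [this, sel_false, if_neg (by omega)]

theorem ln_lt {L q i : ℕ} (h : 3 * i + q < ln L) : i < (L + 2) / 3 ∧ L ≠ 0 := by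
  rw [ln_eq] at h
  split_ifs at h <;> omega

end Pool.Agent.Lib.G6.B
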