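import Pool.Agent.Lib.G6.BRed
import Pool.Agent.Lib.G6.P1

set_option autoImplicit false
set_option maxRecDepth 100000

/-! The configurations of the first phase are reducible. -/

namespace Pool.Agent.Lib.G6.B

noncomputable section

def bq0c0 : Cf := cf (nat_lit 0x604000a001400000005000600080000000000040010000000010008000c000006020002000400000000000000000) (nat_lit 384) (nat_lit 0x4000800140) (nat_lit 0x41014100c0) (nat_lit 0x0) (nat_lit 64) false [(nat_lit 321), (nat_lit 65)]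
def bq0c1 : Cf := cf (nat_lit 0x10008000c000000000006001400000002000a00100000060300020004000006050004000800000000000000000) (nat_lit 384) (nat_lit 0xc00040) (nat_lit 0x4101000081) (nat_lit 0x100000000000001010000000000000100000000000000000100000000000001000000000000000000) (nat_lit 64) false [(nat_lit 129), (nat_lit 65)]
def bq0c2 : Cf := cf (nat_lit 0xe001800000003000c0020000000020010001c000000000008000c000000010006001400000007000a00100000060600020004000006040004000800000000000000000) (nat_lit 576) (nat_lit 0xc000400180) (nat_lit 0x81020001400041) (nat_lit 0x10100000000000001000000000000000001000000000000010100000000000001000000000000000001000000000000010000000000000000010000000000000000) (nat_lit 64) false [(nat_lit 65), (nat_lit 129)]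
def bq0c3 : Cf := cf (nat_lit 0x140024000000060012002c000000020016002800000000000e001800000003000c00200000000a0010001c000000000008000c000000010006001400000007000a00100000060900020004000006040004000800000000000000000) (nat_lit 768) (nat_lit 0xc0004001800240) (nat_lit 0x8102c0020001400041) (nat_lit 0x10100000000000001000000000000000001000000000000010100000000000001000000000000000001000000000000010100000000000001000000000000000001000000000000010000000000000000010000000000000000) (nat_lit 64) false [(nat_lit 65), (nat_lit 129)]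
def bq0l0 : List Ln := [⟨bq0c0, 0, (nat_lit 0x200100001300)⟩]
def bq0l1 : List Ln := [⟨bq0c2, Nat.lor (Nat.lor (0) (Nat.shiftLeft 1 (nat_lit 65))) (Nat.shiftLeft 1 (nat_lit 129)), (nat_lit 0x10000000002040300)⟩, ⟨bq0c1, Nat.lor (0) (Nat.shiftLeft 1 (nat_lit 129)), (nat_lit 0x21300)⟩, ⟨bq0c0, Nat.lor (0) (Nat.shiftLeft 1 (nat_lit 321)), (nat_lit 0x100001200)⟩, ⟨bq0c0, Nat.lor (0) (Nat.shiftLeft 1 (nat_lit 65)), (nat_lit 0x100300000200)⟩]
def bq0l2 : List Ln := [⟨bq0c1, Nat.lor (Nat.lor (0) (Nat.shiftLeft 1 (nat_lit 129))) (Nat.shiftLeft 1 (nat_lit 65)), (nat_lit 0x10200)⟩, ⟨bq0c0, Nat.lor (Nat.lor (0) (Nat.shiftLeft 1 (nat_lit 321))) (Nat.shiftLeft 1 (nat_lit 65)), (nat_lit 0x200000100)⟩]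
def bq0l3 : List Ln := [⟨bq0c2, Nat.lor (0) (Nat.shiftLeft 1 (nat_lit 129)), (nat_lit 0x10000020003020400)⟩, ⟨bq0c1, 0, (nat_lit 0x200031400)⟩]
def bq0l4 : List Ln := [⟨bq0c1, Nat.lor (0) (Nat.shiftLeft 1 (nat_lit 65)), (nat_lit 0x100020300)⟩]
def bq0l5 : List Ln := [⟨bq0c2, 0, (nat_lit 0x20000030004130500)⟩]
def bq0l6 : List Ln := [⟨bq0c2, Nat.lor (0) (Nat.shiftLeft 1 (nat_lit 65)), (nat_lit 0x20000000003150400)⟩]
def bq0l7 : List Ln := [⟨bq0c3, 0, (nat_lit 0x20000030001040005140600)⟩]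
def bq0l8 : List Ln := [⟨bq0c3, Nat.lor (0) (Nat.shiftLeft 1 (nat_lit 129)), (nat_lit 0x10000020005030004030500)⟩]
def bq0l9 : List Ln := [⟨bq0c3, Nat.lor (0) (Nat.shiftLeft 1 (nat_lit 65)), (nat_lit 0x20000030001000004160500)⟩]
def bq0l10 : List Ln := [⟨bq0c3, Nat.lor (Nat.lor (0) (Nat.shiftLeft 1 (nat_lit 65))) (Nat.shiftLeft 1 (nat_lit 129)), (nat_lit 0x10000020004000003050400)⟩]

theorem bq0 :
    batch [false, false] false bq0l0 = true ∧
    batch [false] true bq0l1 = true ∧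
    batch [] true bq0l2 = true ∧
    batch [true, false] true bq0l3 = true ∧
    batch [true] true bq0l4 = true ∧
    batch [true, false, false] true bq0l5 = true ∧
    batch [false, false] true bq0l6 = true ∧
    batch [true, false, false, false] true bq0l7 = true ∧
    batch [true, false, false] true bq0l8 = true ∧
    batch [false, false, false] true bq0l9 = true ∧
    batch [false, false] true bq0l10 = true :=
  ⟨by decide +kernel,
    by decide +kernel,
    by decide +kernel,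
    by decide +kernel,
    by decide +kernel,
    by decide +kernel,
    by decide +kernel,
    by decide +kernel,
    by decide +kernel,
    by decide +kernel,
    by decide +kernel⟩

end

theorem bq0h0 : AllL LnOK bq0l0 := batch_of bq0.1
theorem bq0h1 : AllL LnOK bq0l1 := batch_of bq0.2.1
theorem bq0h2 : AllL LnOK bq0l10 := batch_of bq0.2.2.2.2.2.2.2.2.2.2
theorem bq0h3 : AllL LnOK bq0l2 := batch_of bq0.2.2.1
theorem bq0h4 : AllL LnOK bq0l3 := batch_of bq0.2.2.2.1
theorem bq0h5 : AllL LnOK bq0l4 := batch_of bq0.2.2.2.2.1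
theorem bq0h6 : AllL LnOK bq0l5 := batch_of bq0.2.2.2.2.2.1
theorem bq0h7 : AllL LnOK bq0l6 := batch_of bq0.2.2.2.2.2.2.1
theorem bq0h8 : AllL LnOK bq0l7 := batch_of bq0.2.2.2.2.2.2.2.1
theorem bq0h9 : AllL LnOK bq0l8 := batch_of bq0.2.2.2.2.2.2.2.2.1
theorem bq0h10 : AllL LnOK bq0l9 := batch_of bq0.2.2.2.2.2.2.2.2.2.1
theorem bq0k0 : CfgOK (bq0c0.e, bq0c0.n) := red_ln bq0h0.1 ⟨⟨bq0h0.1.1, bq0h1.2.2.2.1.1⟩, ⟨bq0h1.2.2.1.1, bq0h3.2.1.1⟩⟩
theorem bq0k1 : CfgOK (bq0c1.e, bq0c1.n) := red_ln bq0h4.2.1 ⟨⟨bq0h4.2.1.1, bq0h5.1.1⟩, ⟨bq0h1.2.1.1, bq0h3.1.1⟩⟩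
theorem bq0k2 : CfgOK (bq0c2.e, bq0c2.n) := red_ln bq0h6.1 ⟨⟨bq0h6.1.1, bq0h4.1.1⟩, ⟨bq0h7.1.1, bq0h1.1.1⟩⟩
theorem bq0k3 : CfgOK (bq0c3.e, bq0c3.n) := red_ln bq0h8.1 ⟨⟨bq0h8.1.1, bq0h9.1.1⟩, ⟨bq0h10.1.1, bq0h2.1.1⟩⟩

theorem cfgs1_ok : cfgs1.All CfgOK := ⟨⟨bq0k1, bq0k0⟩, bq0k2, bq0k3⟩

end Pool.Agent.Lib.G6.B
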