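import Pool.Agent.Lib.G6.BDp

set_option autoImplicit false

namespace Pool.Agent.Lib.G6.B

theorem knx_eq : knx = enx := rfl
theorem kal_eq : kal = eal := rfl
theorem kgp_eq : kgp = egap := rfl
theorem kN_eq : kN = eN := rfl

end Pool.Agent.Lib.G6.B
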