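import Pool.Agent.Lib.G6.Defs

set_option autoImplicit false

namespace Pool.Agent.Lib.G6.B

open Equiv Pool.Agent.Lib.MP_bfaad3_co



variable {D : Type}

open Classical in
theorem cyc_sum [Fintype D] {A : Type} [AddCommMonoid A] (s : Perm D) (c : D → A) (y : D) :
    ∑ e ∈ Finset.univ.filter (fun e => s.SameCycle y e), c e =
      ∑ k ∈ Finset.range (Function.minimalPeriod s y), c ((s ^ k) y) := by
  symm
  have hp : 0 < Function.minimalPeriod s y :=
    Function.minimalPeriod_pos_of_mem_periodicPts (s.injective.mem_periodicPts y)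
  refine Finset.sum_nbij (fun k => (s ^ k) y) (fun k _ => ?_) (fun k hk l hl h => ?_)
    (fun e he => ?_) (fun _ _ => rfl)
  · exact Finset.mem_filter.2 ⟨Finset.mem_univ _, ⟨k, by simp⟩⟩
  · rw [Finset.coe_range, Set.mem_Iio] at hk hl
    simp only [Perm.coe_pow] at h
    exact (Function.iterate_eq_iterate_iff_of_lt_minimalPeriod hk hl).1 h
  · obtain ⟨n, rfl⟩ := (Finset.mem_filter.1 he).2.exists_nat_pow_eq
    refine ⟨n % Function.minimalPeriod s y, ?_, ?_⟩
    · rw [Finset.coe_range, Set.mem_Iio]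
      exact Nat.mod_lt _ hp
    · simp only [Perm.coe_pow]
      exact Function.iterate_mod_minimalPeriod_eq

open Classical in
theorem pot_of_sum [Fintype D] (s : Perm D) (u : D → ZMod 2)
    (h : ∀ d, ∑ e ∈ Finset.univ.filter (fun e => s.SameCycle d e), u e = 0) :
    ∃ g : D → ZMod 2, ∀ d, g (s d) = g d + u d := by
  have key : ∀ (z : D) (n m : ℕ), (s ^ n) z = (s ^ m) z →
      ∑ k ∈ Finset.range n, u ((s ^ k) z) = ∑ k ∈ Finset.range m, u ((s ^ k) z) := by
    intro z n m hnm
    have hp : 0 < Function.minimalPeriod s z :=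
      Function.minimalPeriod_pos_of_mem_periodicPts (s.injective.mem_periodicPts z)
    have per : Function.Periodic (fun n => ∑ k ∈ Finset.range n, u ((s ^ k) z))
        (Function.minimalPeriod s z) := by
      intro n
      induction n with
      | zero =>
        simp only
        rw [zero_add, ← cyc_sum, h]; rfl
      | succ n ih =>
        simp only at ih ⊢
        rw [Nat.add_right_comm, Finset.sum_range_succ, Finset.sum_range_succ, ih]
        simp only [Perm.coe_pow]
        rw [Function.iterate_add_minimalPeriod_eq]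
    have e : n % Function.minimalPeriod s z = m % Function.minimalPeriod s z := by
      refine (Function.iterate_eq_iterate_iff_of_lt_minimalPeriod (Nat.mod_lt _ hp)
        (Nat.mod_lt _ hp)).1 ?_
      rw [Function.iterate_mod_minimalPeriod_eq, Function.iterate_mod_minimalPeriod_eq]
      simpa only [Perm.coe_pow] using hnm
    have h1 := per.map_mod_nat n
    have h2 := per.map_mod_nat m
    exact h1.symm.trans (e ▸ h2)
  let z : D → D := fun d => (Quotient.mk (Perm.SameCycle.setoid s) d).out
  have hz : ∀ d, ∃ n : ℕ, (s ^ n) (z d) = d := fun d =>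
    Perm.SameCycle.exists_nat_pow_eq (Quotient.mk_out (s := Perm.SameCycle.setoid s) d)
  have hzs : ∀ d, z (s d) = z d := fun d =>
    congrArg Quotient.out (Quotient.sound (s := Perm.SameCycle.setoid s) (perm_sc_step s d).symm)
  choose n hn using hz
  refine ⟨fun d => ∑ k ∈ Finset.range (n d), u ((s ^ k) (z d)), fun d => ?_⟩
  have h1 := hn (s d)
  simp only [hzs] at h1 ⊢
  rw [key (z d) (n (s d)) (n d + 1) (by rw [h1, perm_pow_step, hn]), Finset.sum_range_succ, hn]

/-- lift of a permutation to the double cover -/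
def lft (a : Perm D) (u : D → ZMod 2) : Perm (D × ZMod 2) where
  toFun x := (a x.1, x.2 + u x.1)
  invFun x := (a⁻¹ x.1, x.2 - u (a⁻¹ x.1))
  left_inv x := by simp
  right_inv x := by simp

theorem cyc_lft [Finite D] (a : Perm D) (u g : D → ZMod 2) (hg : ∀ d, g (a d) = g d + u d) :
    2 * cyc a ≤ cyc (lft a u) := by
  let φ : D × ZMod 2 → Quotient (Perm.SameCycle.setoid a) × ZMod 2 :=
    fun x => (Quotient.mk _ x.1, x.2 - g x.1)
  have h1 : ∀ x y, (lft a u).SameCycle x y → φ x = φ y := fun x y h =>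
    perm_sc_le (s := Setoid.ker φ) (fun w => by
      show φ w = φ (a w.1, w.2 + u w.1)
      refine Prod.ext (Quotient.sound (perm_sc_step a w.1)) ?_
      show w.2 - g w.1 = w.2 + u w.1 - g (a w.1)
      rw [hg]; ring) h
  have h2 : Function.Surjective
      (Quotient.lift (s := Perm.SameCycle.setoid (lft a u)) φ h1) := by
    rintro ⟨q, t⟩
    obtain ⟨d, rfl⟩ := Quotient.exists_rep q
    exact ⟨Quotient.mk _ (d, t + g d), Prod.ext rfl (add_sub_cancel_right t (g d))⟩
  have := Nat.card_le_card_of_surjective _ h2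
  rw [Nat.card_prod, Nat.card_zmod] at this
  unfold cyc
  omega

theorem cover [Finite D] (a b : Perm D) (h : Gen0 a b) (u w : D → ZMod 2)
    (ha : ∃ g : D → ZMod 2, ∀ d, g (a d) = g d + u d)
    (hb : ∃ g : D → ZMod 2, ∀ d, g (b d) = g d + w d)
    (hab : ∃ g : D → ZMod 2, ∀ d, g (a (b d)) = g d + (w d + u (b d))) :
    ∃ f : D → ZMod 2, (∀ d, f (a d) = f d + u d) ∧ ∀ d, f (b d) = f d + w d := by
  obtain ⟨g1, h1⟩ := ha
  obtain ⟨g2, h2⟩ := hb
  obtain ⟨g3, h3⟩ := hab
  have c1 := cyc_lft a u g1 h1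
  have c2 := cyc_lft b w g2 h2
  have c3 := cyc_lft (a * b) (fun d => w d + u (b d)) g3 h3
  have e : lft (a * b) (fun d => w d + u (b d)) = lft a u * lft b w :=
    Equiv.ext fun x => Prod.ext rfl (add_assoc _ _ _).symm
  rw [e] at c3
  have c4 := euler_le (lft a u) (lft b w)
  rw [Nat.card_prod, Nat.card_zmod] at c4
  have c5 : 2 * comp a b ≤ comp (lft a u) (lft b w) := by
    unfold Gen0 at h
    omega
  let r := conn (lft a u) (lft b w)
  let R : Setoid D := ⟨fun d e => ∃ k, ∀ t, r (d, t) (e, t + k),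
    ⟨fun d => ⟨0, fun t => by rw [add_zero]⟩,
      fun ⟨k, hk⟩ => ⟨-k, fun t => by
        have := hk (t + -k)
        rw [neg_add_cancel_right] at this
        exact r.symm' this⟩,
      fun ⟨k, hk⟩ ⟨l, hl⟩ => ⟨k + l, fun t => by
        rw [← add_assoc]; exact r.trans' (hk t) (hl _)⟩⟩⟩
  have hR : ∀ d e, conn a b d e → R d e := fun d e hde =>
    perm_conn_le (s := R) (fun x => ⟨u x, fun t => perm_conn_a _ _ (x, t)⟩)
      (fun x => ⟨w x, fun t => perm_conn_b _ _ (x, t)⟩) hde
  have hz : ∀ d, ∃ k, ∀ t, r (d, t) ((Quotient.mk (conn a b) d).out, t + k) := fun d =>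
    hR _ _ ((conn a b).symm' (Quotient.mk_out (s := conn a b) d))
  choose k hk using hz
  let ψ : Quotient (conn a b) × ZMod 2 → Quotient r := fun x => Quotient.mk r (x.1.out, x.2)
  have hs : Function.Surjective ψ := by
    intro q
    obtain ⟨⟨d, t⟩, rfl⟩ := Quotient.exists_rep q
    exact ⟨(Quotient.mk _ d, t + k d), (Quotient.sound (hk d t)).symm⟩
  have hi : Function.Injective ψ := by
    refine (hs.bijective_of_nat_card_le ?_).1
    rw [Nat.card_prod, Nat.card_zmod]
    have c6 : 2 * Nat.card (Quotient (conn a b)) ≤ Nat.card (Quotient r) := c5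
    omega
  have fin : ∀ d e x, conn a b d e → r (d, 0) (e, 0 + x) → k e = k d + x := by
    intro d e x hde hr
    have q : Quotient.mk (conn a b) d = Quotient.mk (conn a b) e := Quotient.sound hde
    have h4 := r.trans' (r.symm' (hk d 0)) (r.trans' hr (hk e _))
    have h5 : ψ (Quotient.mk _ d, 0 + k d) = ψ (Quotient.mk _ e, 0 + x + k e) := Quotient.sound h4
    have h6 := congrArg Prod.snd (hi h5)
    simp only [zero_add] at h6
    rw [h6]
    exact (by decide : ∀ x y : ZMod 2, y = x + y + x) x (k e)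
  exact ⟨k, fun d => fin _ _ _ (perm_conn_a a b d) (perm_conn_a _ _ (d, 0)),
    fun d => fin _ _ _ (perm_conn_b a b d) (perm_conn_b _ _ (d, 0))⟩

end Pool.Agent.Lib.G6.B
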