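import Pool.Agent.Lib.G6.BKem

set_option autoImplicit false

/-! Sets of ring patterns that extend, or do not extend, to the configuration. -/

namespace Pool.Agent.Lib.G6.B

theorem cj_iff {a b : Bool} : cj a b = true ↔ a = true ∧ b = true := by
  cases a <;> simp [cj]

theorem dj_iff {a b : Bool} : dj a b = true ↔ a = true ∨ b = true := by
  cases a <;> simp [dj]

theorem ng_iff {a : Bool} : ng a = true ↔ a = false := by
  cases a <;> simp [ng]

theorem sel_beq {α : Type} (a b : ℕ) (t f : α) : sel (Nat.beq a b) t f = if a = b then t else f := by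
  by_cases h : a = b
  · rw [if_pos h, h, Nat.beq_refl]; rfl
  · have : Nat.beq a b = false := by rw [← Bool.not_eq_true, Nat.beq_eq]; exact h
    rw [if_neg h, this]; rfl

theorem mem_iff {v : ℕ} {l : List ℕ} : mem v l = true ↔ v ∈ l := by
  induction l with
  | nil => simp [mem]
  | cons a l ih =>
    rw [List.mem_cons, ← ih, ← Nat.beq_eq]
    exact dj_iff

theorem flt_eq (p : ℕ → Bool) (l : List ℕ) : flt p l = l.filter p := by
  induction l with
  | nil => rfl
  | cons a l ih =>
    have e : flt p (a :: l) = sel (p a) (a :: flt p l) (flt p l) := rfl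
    rw [e, ih, List.filter_cons]
    cases p a <;> rfl

theorem beq_false {a b : ℕ} : Nat.beq a b = false ↔ a ≠ b := by
  rw [← Bool.not_eq_true, Nat.beq_eq]

theorem bt_iff {m i : ℕ} : bt m i = true ↔ tb m i := by
  unfold bt tb
  rw [Nat.beq_eq, Nat.land_eq, Nat.shiftRight_eq, Nat.and_one_is_mod, Nat.testBit,
    Nat.one_and_eq_mod_two]
  simp only [bne_iff_ne, ne_eq]
  omega

theorem tb_one {y z : ℕ} : tb (Nat.shiftLeft 1 y) z ↔ z = y := by
  unfold tb
  rw [Nat.shiftLeft_eq', Nat.one_shiftLeft, Nat.testBit_two_pow]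
  simp [eq_comm]

theorem tb_msum {L : List ℕ} {s z : ℕ} : tb (msum L s) z ↔ tb s z ∨ z ∈ L := by
  induction L with
  | nil => simp [msum]
  | cons y L ih =>
    have e : msum (y :: L) s = Nat.lor (msum L s) (Nat.shiftLeft 1 y) := rfl
    rw [e, tb_lor, ih, tb_one, List.mem_cons]
    tauto

theorem flo_eq (m : ℕ) (l : List ℕ) : flo m l = l.filter fun v => ng (bt m v) := by
  induction l with
  | nil => rfl
  | cons a l ih =>
    have e : flo m (a :: l) = sel (bt m a) (flo m l) (a :: flo m l) := rfl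
    rw [e, ih, List.filter_cons]
    cases bt m a <;> rfl

theorem tb_xor {a b i : ℕ} : tb (Nat.xor a b) i ↔ ¬ (tb a i ↔ tb b i) := by
  unfold tb
  rw [Nat.xor_eq, Nat.testBit_xor]
  cases a.testBit i <;> cases b.testBit i <;> simp

theorem tb_ones' {k i : ℕ} : tb (ones k) i ↔ i < k := by
  unfold tb ones
  rw [Nat.shiftLeft_eq', Nat.one_shiftLeft, Nat.sub_eq, Nat.testBit_two_pow_sub_one]
  simp

theorem tb_cat {a n b i : ℕ} : tb (cat a n b) i ↔ tb a i ∨ ∃ j, i = n + j ∧ tb b j := by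
  unfold cat
  rw [tb_lor, or_comm]
  refine or_congr_right ⟨fun h => ?_, fun ⟨j, e, h⟩ => tb_shl h e⟩
  unfold tb at h
  rw [Nat.shiftLeft_eq', Nat.testBit_shiftLeft, Bool.and_eq_true, decide_eq_true_iff] at h
  exact ⟨i - n, by omega, h.2⟩

theorem tb_rp1 {a w t : ℕ} (d : Option Bool) (h : tb a t) : tb (rp1 a w) (dv d * w + t) := by
  rcases d with _ | _ | _ <;> simp only [dv]
  · exact tb_catl (by simpa using h)
  · exact tb_catr (tb_catl h) (by ring)
  · exact tb_catr (tb_catr h rfl) (by ring)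

/-- the index of a distribution of digits on the first places -/
def enc (τ : ℕ → Option Bool) : ℕ → ℕ
  | 0 => 0
  | E + 1 => dv (τ (E + 1)) * 3 ^ E + enc τ E

theorem enc_lt (τ : ℕ → Option Bool) (E : ℕ) : enc τ E < 3 ^ E := by
  induction E with
  | zero => exact one_pos
  | succ E ih =>
    have := dv_lt (τ (E + 1))
    rw [enc, pow_succ]
    nlinarith

theorem enc_congr {τ τ' : ℕ → Option Bool} {E : ℕ} (h : ∀ d ≤ E, τ d = τ' d) :
    enc τ E = enc τ' E := by
  induction E with
  | zero => rfl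
  | succ E ih => rw [enc, enc, h _ le_rfl, ih fun d hd => h d (by omega)]

theorem enc_upd (τ : ℕ → Option Bool) (E : ℕ) (c : Option Bool) :
    enc (Function.update τ (E + 1) c) E = enc τ E :=
  enc_congr fun d hd => Function.update_of_ne (show d ≠ E + 1 by omega) c τ

theorem enc_split (τ : ℕ → Option Bool) {j E : ℕ} (h : j + 1 ≤ E) :
    ∃ b, ∀ c, enc (Function.update τ (j + 1) c) E = dv c * 3 ^ j + b := by
  induction E, h using Nat.le_induction with
  | base =>
    exact ⟨enc τ j, fun c => by rw [enc, Function.update_self, enc_upd]⟩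
  | succ E h ih =>
    obtain ⟨b, hb⟩ := ih
    exact ⟨dv (τ (E + 1)) * 3 ^ E + b, fun c => by
      rw [enc, hb, Function.update_of_ne (by omega)]; ring⟩

theorem pl_spec {B f : ℕ → ℕ} {x : Bool} {d : ℕ}
    (hB : ∀ w i, tb (B w) i ↔ i < w ∨ (dv (some (!x)) * w ≤ i ∧ i < dv (some (!x)) * w + w))
    (h0 : f 0 = 1) (h1 : ∀ j, f (j + 1) = frc (3 ^ j) fun w =>
      sel (Nat.beq d (j + 1)) (B w) (rp1 (f j) w)) (E : ℕ) :
    (∀ i, tb (f E) i → i < 3 ^ E) ∧
      ∀ τ, tb (f E) (enc τ E) ↔ (1 ≤ d → d ≤ E → τ d ≠ some x) := by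
  induction E with
  | zero =>
    rw [h0]
    exact ⟨fun i h => by rw [(tb_one (y := 0)).1 h]; decide,
      fun τ => iff_of_true (tb_one (y := 0) |>.2 rfl) fun _ _ => by omega⟩
  | succ E ih =>
    rw [h1, frc_eq, sel_beq, pow_succ]
    split_ifs with hd
    · subst hd
      refine ⟨fun i h => ?_, fun τ => ?_⟩
      · rw [hB] at h
        cases x <;> simp only [dv, Bool.not_true, Bool.not_false] at h <;> omega
      · have := enc_lt τ E
        rw [hB, enc]
        rcases τ (E + 1) with _ | _ | _ <;> cases x <;> simp [dv] <;> omega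
    · have key : ∀ i, tb (rp1 (f E) (3 ^ E)) i → ∃ q j, q < 3 ∧ i = q * 3 ^ E + j ∧ tb (f E) j := by
        intro i h
        rcases (tb_cat (i := i)).1 h with k | ⟨j, rfl, h'⟩
        · exact ⟨0, i, by omega, by omega, k⟩
        · rcases tb_cat.1 h' with k | ⟨l, rfl, k⟩
          · exact ⟨1, j, by omega, by omega, k⟩
          · exact ⟨2, l, by omega, by omega, k⟩
      refine ⟨fun i h => ?_, fun τ => ⟨fun h h1 h2 => ?_, fun h =>
        tb_rp1 _ ((ih.2 τ).2 fun h1 h2 => h h1 (by omega))⟩⟩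
      · obtain ⟨q, j, k1, rfl, k3⟩ := key i h
        have := ih.1 j k3
        nlinarith
      · obtain ⟨q, j, k1, k2, k3⟩ := key _ h
        have k4 := ih.1 j k3
        have k5 := enc_lt τ E
        have : j = enc τ E := by
          have := congrArg (· % 3 ^ E) k2
          simp only [enc, Nat.mul_add_mod_self_right, Nat.mod_eq_of_lt k4,
            Nat.mod_eq_of_lt k5] at this
          exact this.symm
        exact (ih.2 τ).1 (this ▸ k3) h1 (by omega)

theorem plo_spec (d E : ℕ) (τ : ℕ → Option Bool) :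
    tb (plo d E) (enc τ E) ↔ (1 ≤ d → d ≤ E → τ d ≠ some true) :=
  (pl_spec (B := fun w => ones (2 * w)) (f := plo d) (fun w i => by
    rw [tb_ones']; simp only [dv, Bool.not_true]; omega) rfl (fun _ => rfl) E).2 τ

theorem phi_spec (d E : ℕ) (τ : ℕ → Option Bool) :
    tb (phi d E) (enc τ E) ↔ (1 ≤ d → d ≤ E → τ d ≠ some false) :=
  (pl_spec (B := fun w => cat (ones w) (2 * w) (ones w)) (f := phi d) (fun w i => by
    simp only [tb_cat, tb_ones', dv, Bool.not_false]
    exact or_congr_right ⟨fun ⟨j, h1, h2⟩ => by omega, fun h => ⟨i - 2 * w, by omega, by omega⟩⟩)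
    rfl (fun _ => rfl) E).2 τ

theorem pl0 (E : ℕ) (τ : ℕ → Option Bool) : tb (plo 0 E) (enc τ E) :=
  (plo_spec 0 E τ).2 fun h => absurd h (by decide)

/-- colour of a digit -/
def cv : Option Bool → K4
  | none => (1, 1)
  | some false => (1, 0)
  | some true => (0, 1)

theorem pls_spec {dm E : ℕ} {τ : ℕ → Option Bool} (h0 : τ 0 = none) (vl : List ℕ)
    (h : ∀ v ∈ vl, dgm dm v ≤ E) :
    (tb (pls dm E vl).1 (enc τ E) ↔ (vl.map fun v => cv (τ (dgm dm v))).sum.1 = 1) ∧
      (tb (pls dm E vl).2 (enc τ E) ↔ (vl.map fun v => cv (τ (dgm dm v))).sum.2 = 1) := by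
  induction vl with
  | nil => exact ⟨iff_of_false (tb_zero _) zero_ne_one, iff_of_false (tb_zero _) zero_ne_one⟩
  | cons v vl ih =>
    have e : pls dm E (v :: vl) = frc (dgm dm v) fun d =>
      ⟨Nat.xor (plo d E) (pls dm E vl).1, Nat.xor (phi d E) (pls dm E vl).2⟩ := rfl
    obtain ⟨i1, i2⟩ := ih fun w hw => h w (List.mem_cons_of_mem _ hw)
    have k : ∀ x, (1 ≤ dgm dm v → dgm dm v ≤ E → τ (dgm dm v) ≠ some x) ↔ τ (dgm dm v) ≠ some x :=
      fun x => ⟨fun k => by
        by_cases k' : dgm dm v = 0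
        · rw [k', h0]; exact (Option.some_ne_none x).symm
        · exact k (by omega) (h v List.mem_cons_self), fun k _ _ => k⟩
    rw [e, frc_eq, tb_xor, tb_xor, plo_spec, phi_spec, i1, i2, k, k, List.map_cons, List.sum_cons]
    generalize (vl.map fun v => cv (τ (dgm dm v))).sum = S
    rcases τ (dgm dm v) with _ | _ | _ <;> revert S <;> decide

theorem tb_rsz {D E s : ℕ} {τ : ℕ → Option Bool}
    (h : ∀ τ', (∀ d ≤ E, τ' d = τ d) → tb s (enc τ' D)) : tb (rsz D E s) (enc τ E) := by
  unfold rsz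
  rw [frc_eq]
  rcases le_total D E with k | k
  · have h' := h τ fun _ _ => rfl
    obtain ⟨j, rfl⟩ := Nat.exists_eq_add_of_le k
    rw [Nat.sub_eq, Nat.add_sub_cancel_left]
    clear k h
    induction j with
    | zero => exact h'
    | succ k ih =>
      have e : rs1 D s (k + 1) = frc (D + k) fun i => frc (3 ^ i) fun w =>
        rp1 (Nat.land (plo 0 i) (rs1 D s k)) w := rfl
      rw [e, frc_eq, frc_eq]
      exact tb_rp1 _ (tb_land.2 ⟨pl0 _ _, ih⟩)
  · rw [Nat.sub_eq, Nat.sub_eq_zero_of_le k]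
    have := h (fun d => if d ≤ E then τ d else none) fun d hd => if_pos hd
    have e : enc (fun d => if d ≤ E then τ d else none) D = enc τ E := by
      clear this h
      induction D, k using Nat.le_induction with
      | base => exact enc_congr fun d hd => if_pos hd
      | succ D k ih => rw [enc, if_neg (by omega), ih, dv, zero_mul, zero_add]
    rwa [e] at this

theorem dgm_le (dm v : ℕ) : dgm dm v ≤ 15 := Nat.and_le_right

theorem tb_bv {dm v i : ℕ} : tb (bv dm v) i ↔ i = v + 32 ∨ i = dgm dm v := by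
  unfold bv
  rw [tb_lor, tb_one, tb_one]

/-- assignments that vanish exactly on the omitted variables -/
def Good (om : ℕ → Bool) (A : ℕ → K4) : Prop := ∀ v, A v = 0 ↔ om v = true

/-- the condition at a vertex -/
def Sat (A : ℕ → K4) (s : Stp) : Prop := (s.vl.map A).sum = 0 ↔ s.n = false

/-- the state contains the pattern of every assignment with property `P` -/
structure Hd (om : ℕ → Bool) (dm x D s : ℕ) (P : (ℕ → K4) → Prop) : Prop where
  oc : ∀ v, tb x (v + 32) → tb x (dgm dm v)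
  inj : ∀ v w, tb x (v + 32) → tb x (w + 32) → dgm dm v = dgm dm w → v = w
  lv : ∀ v, tb x (v + 32) → om v = false
  bit : ∀ A τ, Good om A → P A → τ 0 = none → (∀ v, tb x (v + 32) → τ (dgm dm v) = dg (A v)) →
    tb s (enc τ D)

section
variable {om : ℕ → Bool} {dm x D E s : ℕ} {P Q : (ℕ → K4) → Prop}

theorem Hd.mono (h : Hd om dm x D s P) (k : ∀ A, Good om A → Q A → P A) : Hd om dm x D s Q :=
  ⟨h.oc, h.inj, h.lv, fun A τ h1 h2 => h.bit A τ h1 (k A h1 h2)⟩

theorem ad_sound {v : ℕ} (hv : om v = false) (he : ¬ tb (ad1 (bv dm v) x) 16) :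
    ¬ tb x 16 ∧ (∀ w, w = v ∨ tb x (w + 32) → tb (ad1 (bv dm v) x) (w + 32)) ∧
      (Hd om dm x D s P → Hd om dm (ad1 (bv dm v) x) D s P) := by
  unfold ad1 at he ⊢
  rw [sel_beq, sel_beq] at he ⊢
  split_ifs at he ⊢ with h1 h2
  · have k : ∀ w, tb (Nat.lor (bv dm v) x) (w + 32) → w = v ∨ tb x (w + 32) := fun w hw =>
      (tb_lor.1 hw).imp_left fun k => by
        have := dgm_le dm v
        rcases tb_bv.1 k with k | k <;> omega
    have k' : ¬ tb x (dgm dm v) := fun k' => tb_zero _ (h1 ▸ tb_land.2 ⟨tb_bv.2 (Or.inr rfl), k'⟩)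
    refine ⟨fun k => he (tb_lor.2 (Or.inr k)), fun w hw => tb_lor.2 (hw.imp_left fun k =>
      tb_bv.2 (Or.inl (by rw [k]))), fun h => ⟨fun w hw => tb_lor.2 ((k w hw).imp
        (fun k => tb_bv.2 (Or.inr (by rw [k]))) (h.oc w)), fun w u hw hu e => ?_, fun w hw => ?_,
      fun A τ a1 a2 a3 a4 => h.bit A τ a1 a2 a3 fun w hw => a4 w (tb_lor.2 (Or.inr hw))⟩⟩
    · rcases k w hw with k1 | k1 <;> rcases k u hu with k2 | k2
      · rw [k1, k2]
      · exact absurd (k1 ▸ e ▸ h.oc u k2) k'
      · exact absurd (k2 ▸ e ▸ h.oc w k1) k'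
      · exact h.inj w u k1 k2 e
    · rcases k w hw with rfl | hw
      · exact hv
      · exact h.lv w hw
  · refine ⟨he, fun w hw => hw.elim (fun k => ?_) id, id⟩
    exact (tb_land.1 (h2.symm ▸ tb_bv.2 (Or.inl (by rw [k])) : tb (Nat.land (bv dm v) x) _)).2
  · exact absurd (tb_lor.2 (Or.inr ((tb_one (y := 16)).2 rfl))) he

theorem adL_sound (vl : List ℕ) (hv : ∀ v ∈ vl, om v = false) (he : ¬ tb (adL dm vl x) 16) :
    ¬ tb x 16 ∧ (∀ w, w ∈ vl ∨ tb x (w + 32) → tb (adL dm vl x) (w + 32)) ∧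
      (Hd om dm x D s P → Hd om dm (adL dm vl x) D s P) := by
  induction vl with
  | nil => exact ⟨he, fun w hw => hw.resolve_left List.not_mem_nil, id⟩
  | cons v vl ih =>
    obtain ⟨a1, a2, a3⟩ := ad_sound (x := adL dm vl x) (D := D) (s := s) (P := P)
      (hv v List.mem_cons_self) he
    obtain ⟨b1, b2, b3⟩ := ih (fun w hw => hv w (List.mem_cons_of_mem _ hw)) a1
    refine ⟨b1, fun w hw => a2 w ?_, fun h => a3 (b3 h)⟩
    rcases hw with hw | hw
    · exact (List.mem_cons.1 hw).imp_right fun k => b2 w (Or.inl k)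
    · exact Or.inr (b2 w (Or.inr hw))

theorem Hd.rsz (h : Hd om dm x D s P) (k : ∀ v, tb x (v + 32) → dgm dm v ≤ E) :
    Hd om dm x E (rsz D E s) P :=
  ⟨h.oc, h.inj, h.lv, fun A _ a1 a2 a3 a4 => tb_rsz fun τ' e => h.bit A τ' a1 a2
    ((e 0 (Nat.zero_le _)).trans a3) fun v hv => (e _ (k v hv)).trans (a4 v hv)⟩

theorem Hd.log (h : Hd om dm x D s P) (v : ℕ) (hv : tb x (v + 32)) :
    dgm dm v ≤ Nat.log2 (Nat.land 65535 x) := by
  have := Nat.ge_two_pow_of_testBit (tb_land.2 ⟨tb_ones (k := 16)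
    (Nat.lt_succ_of_le (dgm_le dm v)), h.oc v hv⟩)
  exact (Nat.le_log2 (Nat.pos_iff_ne_zero.1 (lt_of_lt_of_le (by positivity) this))).2 this

/-- the state during one step -/
def HE (om : ℕ → Bool) (dm E : ℕ) (st : St) (P : (ℕ → K4) → Prop) : Prop :=
  st.2 = E ∧ (¬ tb st.1 16 → Hd om dm st.1 E st.3 P ∧ ∀ v, tb st.1 (v + 32) → dgm dm v ≤ E)

theorem HE.mono {st : St} (h : HE om dm E st P) (k : ∀ A, Good om A → Q A → P A) :
    HE om dm E st Q := ⟨h.1, fun he => ⟨(h.2 he).1.mono k, (h.2 he).2⟩⟩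

theorem HE.del {st : St} (h : HE om dm E st P) (ex : Bool) (v : ℕ) (k : ∀ A, Good om A → Q A → P A)
    (k' : ex = false → ∀ A c, Q A → c ≠ 0 → P (Function.update A v c)) :
    HE om dm E (frc (dgm dm v) (dl2 ex E (bv dm v) st)) Q := by
  rw [frc_eq]
  cases hd : dgm dm v with
  | zero => exact h.mono k
  | succ j =>
    have e : dl2 ex E (bv dm v) st (j + 1) = sel (Nat.beq (Nat.land (bv dm v) st.1) (bv dm v))
      (frc (3 ^ j) fun w => ⟨Nat.xor st.1 (bv dm v), E,
        elm ex w (pm0 (j + 1) E) st.3 (Nat.shiftRight st.3 w)⟩) st := rfl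
    rw [e, sel_beq, frc_eq]
    split_ifs with h1
    swap
    · exact h.mono k
    have b : ∀ w, tb (bv dm v) (w + 32) ↔ w = v := fun w => by
      have := dgm_le dm v
      rw [tb_bv]; omega
    have lv : tb st.1 (v + 32) :=
      (tb_land.1 (h1.symm ▸ (b v).2 rfl : tb (Nat.land (bv dm v) st.1) _)).2
    have l : ∀ w, tb (Nat.xor st.1 (bv dm v)) (w + 32) → tb st.1 (w + 32) ∧ w ≠ v := fun w hw => by
      rw [tb_xor, b] at hw
      by_cases e : w = v
      · exact absurd (iff_of_true (e ▸ lv) e) hw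
      · exact ⟨by_contra fun k => hw (iff_of_false k e), e⟩
    refine ⟨rfl, fun he => ?_⟩
    obtain ⟨H, hb⟩ := h.2 fun k => he (tb_xor.2 fun k' => by
      have := dgm_le dm v
      have := tb_bv.1 (k'.1 k)
      omega)
    refine ⟨⟨fun w hw => tb_xor.2 fun k => ?_, fun w u hw hu => H.inj w u (l w hw).1 (l u hu).1,
      fun w hw => H.lv w (l w hw).1, fun A τ a1 a2 a3 a4 => ?_⟩, fun w hw => hb w (l w hw).1⟩
    · have := dgm_le dm w
      rcases tb_bv.1 (k.1 (H.oc w (l w hw).1)) with k | k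
      · omega
      · exact (l w hw).2 (H.inj w v (l w hw).1 lv k)
    · obtain ⟨b0, hb0⟩ := enc_split τ (hd ▸ hb v lv : j + 1 ≤ E)
      have key : ∀ A', Good om A' → P A' → (∀ w, w ≠ v → A' w = A w) →
          tb st.3 (dv (dg (A' v)) * 3 ^ j + b0) := fun A' g1 g2 g3 => by
        rw [← hb0]
        refine H.bit A' _ g1 g2 (by rw [Function.update_of_ne (by omega), a3]) fun w hw => ?_
        by_cases e : w = v
        · rw [e, hd, Function.update_self]
        · rw [Function.update_of_ne fun k => e (H.inj w v hw lv (k.trans hd.symm)), g3 w e]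
          exact a4 w (tb_xor.2 fun k => e ((b w).1 (k.1 hw)))
      have m0 := hb0 none
      rw [dv, zero_mul, zero_add] at m0
      have e0 := hb0 (τ (j + 1))
      rw [Function.update_eq_self] at e0
      show tb (elm _ _ _ _ _) _
      rw [e0]
      refine tb_rp1 _ (tb_land.2 ⟨m0 ▸ tb_land.2 ⟨(plo_spec _ _ _).2 fun _ _ => by simp,
        (phi_spec _ _ _).2 fun _ _ => by simp⟩, ?_⟩)
      cases ex with
      | true =>
        have := key A a1 (k A a1 a2) fun _ _ => rfl
        generalize dg (A v) = c at this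
        rcases c with _ | _ | _ <;> simp only [dv] at this
        · exact tb_lor.2 (Or.inl (tb_lor.2 (Or.inl (by simpa using this))))
        · exact tb_lor.2 (Or.inl (tb_lor.2 (Or.inr (tb_shr this (by ring)))))
        · exact tb_lor.2 (Or.inr (tb_shr (tb_shr this (i := 3 ^ j + b0) (by ring)) rfl))
      | false =>
        have key' : ∀ c, tb st.3 (dv c * 3 ^ j + b0) := fun c => by
          have k0 : cv c ≠ 0 ∧ dg (cv c) = c := by rcases c with _ | _ | _ <;> decide
          have := key (Function.update A v (cv c)) (fun w => by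
            by_cases e : w = v
            · rw [e, Function.update_self, H.lv v lv]
              exact iff_of_false k0.1 (by decide)
            · rw [Function.update_of_ne e]; exact a1 w) (k' rfl A _ a2 k0.1)
            fun w e => Function.update_of_ne e _ _
          rwa [Function.update_self, k0.2] at this
        exact tb_land.2 ⟨tb_land.2 ⟨tb_shr (tb_shr (key' (some true)) (i := 3 ^ j + b0)
          (by rw [dv]; ring)) rfl, tb_shr (key' (some false)) (by rw [dv]; ring)⟩,
          by simpa [dv] using key' none⟩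

variable {m : ℕ}

theorem sum_flo {A : ℕ → K4} (hA : Good (bt m) A) (vl : List ℕ) :
    ((flo m vl).map A).sum = (vl.map A).sum := by
  rw [flo_eq]
  induction vl with
  | nil => rfl
  | cons a l ih =>
    rw [List.filter_cons, List.map_cons, List.sum_cons]
    cases h : bt m a with
    | false => rw [← ih]; rfl
    | true => rw [(hA a).2 h, zero_add, ← ih]; rfl

/-- the state between two steps -/
def Hold (dm m : ℕ) (st : St) (P : (ℕ → K4) → Prop) : Prop :=
  ¬ tb st.1 16 → Hd (bt m) dm st.1 st.2 st.3 P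

theorem HE.hold {st : St} (h : HE (bt m) dm E st P) : Hold dm m st P :=
  fun he => h.1 ▸ (h.2 he).1

theorem Hold.stp {st : St} (h : Hold dm m st P) (ex : Bool) (s : Stp)
    (k1 : ex = true → ∀ A, Q A → P A ∧ Sat A s) (k2 : ex = false → ∀ A, Q A → Sat A s → P A) :
    ∃ E st', HE (bt m) dm E st' Q ∧ st1 ex dm s.n (flo m s.vl) s.dl st = dls ex dm E s.dl st' := by
  unfold st1 st2
  rw [frc_eq]
  generalize hE : Nat.log2 (Nat.land 65535 (adL dm (flo m s.vl) st.1)) = E
  refine ⟨E, _, ⟨rfl, fun he => ?_⟩, rfl⟩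
  obtain ⟨a1, a2, a3⟩ := adL_sound (om := bt m) (D := st.2) (s := st.3) (P := P) _
    (fun v hv => by rw [flo_eq] at hv; exact ng_iff.1 (List.mem_filter.1 hv).2) he
  have L := hE ▸ (a3 (h a1)).log
  have H := (a3 (h a1)).rsz L
  refine ⟨⟨H.oc, H.inj, H.lv, fun A τ b1 b2 b3 b4 => ?_⟩, L⟩
  have M : tb (nzm (pls dm E (flo m s.vl))) (enc τ E) ↔ (s.vl.map A).sum ≠ 0 := by
    obtain ⟨p1, p2⟩ := pls_spec b3 (flo m s.vl) fun v hv => L v (a2 v (Or.inl hv))
    unfold nzm
    rw [tb_lor, p1, p2, ← sum_flo b1, List.map_congr_left (g := A) fun v hv => by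
      have hv := a2 v (Or.inl hv)
      rw [b4 v hv]
      refine (by decide : ∀ k : K4, k ≠ 0 → cv (dg k) = k) _ fun k => ?_
      exact Bool.false_ne_true ((H.lv v hv).symm.trans ((b1 v).1 k))]
    generalize ((flo m s.vl).map A).sum = S
    revert S
    decide
  have M' := tb_xor.trans (not_congr (iff_congr M (iff_true_intro (pl0 _ τ))))
  rw [iff_true, not_not] at M'
  show tb (chk _ _ _ _ _) _
  unfold chk
  cases ex with
  | true =>
    obtain ⟨c1, c2⟩ := k1 rfl A b2
    refine tb_land.2 ⟨?_, H.bit A τ b1 c1 b3 b4⟩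
    unfold Sat at c2
    cases hn : s.n <;> rw [hn] at c2
    · exact M'.2 (c2.2 rfl)
    · exact M.2 fun k => absurd (c2.1 k) (by decide)
  | false =>
    refine tb_lor.2 ?_
    by_cases c : Sat A s
    · exact Or.inr (H.bit A τ b1 (k2 rfl A b2 c) b3 b4)
    · unfold Sat at c
      cases hn : s.n <;> rw [hn] at c
      · exact Or.inl (M.2 fun k => c (iff_of_true k rfl))
      · exact Or.inl (M'.2 (by_contra fun k => c (iff_of_false k (by decide))))

theorem runE (ss : List Stp) : ∀ {st : St} {P : (ℕ → K4) → Prop}, Hold dm m st P →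
    Hold dm m (run true dm m ss st) (fun A => P A ∧ ∀ s ∈ ss, Sat A s) := by
  induction ss with
  | nil => exact fun h he => (h he).mono fun _ _ k => k.1
  | cons s ss ih =>
    intro st P h he
    obtain ⟨E, st', h1, h2⟩ := h.stp (Q := fun A => P A ∧ Sat A s) true s (fun _ _ k => k)
      fun k => absurd k (by decide)
    have h3 : HE (bt m) dm E (dls true dm E s.dl st') fun A => P A ∧ Sat A s := by
      induction s.dl with
      | nil => exact h1
      | cons v dl ih => exact ih.del true v (fun _ _ k => k) fun k => absurd k (by decide)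
    rw [← h2] at h3
    exact (ih h3.hold he).mono fun A _ k =>
      ⟨⟨k.1, k.2 s List.mem_cons_self⟩, fun x hx => k.2 x (List.mem_cons_of_mem _ hx)⟩

/-- no change on the variables in `g` gives property `T` -/
def Bad (om : ℕ → Bool) (g : ℕ → Prop) (T : (ℕ → K4) → Prop) (A : ℕ → K4) : Prop :=
  ∀ A', Good om A' → (∀ v, ¬ g v → A' v = A v) → ¬ T A'

theorem runA (ss : List Stp) : ∀ {st : St} {g : ℕ} {T : (ℕ → K4) → Prop},
    Hold dm m st (Bad (bt m) (tb g) T) → fresh ss g = true →
    ∀ G : ℕ → Prop, (∀ v, tb g v → G v) → (∀ s ∈ ss, ∀ v ∈ s.dl, G v) →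
    Hold dm m (run false dm m ss st) (Bad (bt m) G fun A => T A ∧ ∀ s ∈ ss, Sat A s) := by
  induction ss with
  | nil =>
    exact fun h _ G hG _ he => (h he).mono fun A _ k A' g1 g2 g3 =>
      k A' g1 (fun v hv => g2 v fun hv' => hv (hG v hv')) ⟨g3, fun _ hs => absurd hs List.not_mem_nil⟩
  | cons s ss ih =>
    intro st g T h hf G hG hD he
    obtain ⟨f1, f2⟩ := cj_iff.1 (show cj (Nat.beq (Nat.land (msum s.vl 0) g) 0)
      (fresh ss (msum s.dl g)) = true from hf)
    obtain ⟨E, st', h1, h2⟩ := h.stp (Q := Bad (bt m) (tb g) fun A => T A ∧ Sat A s) false s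
      (fun k => absurd k (by decide)) fun _ A k hS A' g1 g2 g3 => k A' g1 g2 ⟨g3, by
        unfold Sat
        rwa [List.map_congr_left fun v hv => g2 v fun k => tb_zero v
          (Nat.eq_of_beq_eq_true f1 ▸ tb_land.2 ⟨tb_msum.2 (Or.inr hv), k⟩)]⟩
    have h3 : HE (bt m) dm E (dls false dm E s.dl st')
        (Bad (bt m) (tb (msum s.dl g)) fun A => T A ∧ Sat A s) := by
      induction s.dl with
      | nil => exact h1
      | cons v dl ih =>
        have e : ∀ x, ¬ tb (msum (v :: dl) g) x → ¬ tb (msum dl g) x ∧ x ≠ v := fun x hx =>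
          ⟨fun k => hx (tb_lor.2 (Or.inl k)), fun k => hx (tb_lor.2 (Or.inr (tb_one.2 k)))⟩
        exact ih.del false v (fun A _ k A' g1 g2 => k A' g1 fun x hx => g2 x (e x hx).1)
          fun _ A c k _ A' g1 g2 => k A' g1 fun x hx => by
            rw [g2 x (e x hx).1, Function.update_of_ne (e x hx).2]
    rw [← h2] at h3
    refine (ih h3.hold f2 G (fun v hv => (tb_msum.1 hv).elim (hG v) (hD s List.mem_cons_self v))
      (fun x hx => hD x (List.mem_cons_of_mem _ hx)) he).mono fun A _ k A' g1 g2 g3 => k A' g1 g2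
        ⟨g3.1.1, fun x hx => ?_⟩
    rcases List.mem_cons.1 hx with rfl | hx
    · exact g3.1.2
    · exact g3.2 x hx

theorem tgc_spec (g : ℕ → Option Bool) (l : List ℕ) (h : tgc dm l = true) :
    ∃ τ : ℕ → Option Bool, τ 0 = none ∧ (∀ v ∈ l, dgm dm v ≤ l.length ∧ τ (dgm dm v) = g v) ∧
      enc τ l.length = code (l.map g) := by
  induction l with
  | nil => exact ⟨fun _ => none, rfl, fun _ k => absurd k List.not_mem_nil, rfl⟩
  | cons a t ih =>
    obtain ⟨h1, h2⟩ := cj_iff.1 (show cj (Nat.beq (dgm dm a) (len t + 1)) (tgc dm t) = true from h)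
    have h1 := Nat.eq_of_beq_eq_true h1
    rw [len_eq] at h1
    obtain ⟨τ, t0, t1, t2⟩ := ih h2
    refine ⟨Function.update τ (t.length + 1) (g a), by rw [Function.update_of_ne (by omega), t0],
      fun v hv => ?_, ?_⟩
    · rcases List.mem_cons.1 hv with rfl | hv
      · rw [h1, Function.update_self]
        exact ⟨le_rfl, rfl⟩
      · obtain ⟨k1, k2⟩ := t1 v hv
        rw [Function.update_of_ne (by omega)]
        exact ⟨k1.trans (Nat.le_succ _), k2⟩
    · rw [List.length_cons, enc, Function.update_self, List.map_cons, code, List.length_map, ← t2,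
        enc_upd]

theorem tb_tgm {l : List ℕ} {i : ℕ} (h : tb (tgm dm l) i) : ∃ v ∈ l, tb (bv dm v) i := by
  induction l with
  | nil => exact absurd h (tb_zero _)
  | cons a l ih =>
    rcases tb_lor.1 h with h | h
    · exact ⟨a, List.mem_cons_self, h⟩
    · exact (ih h).imp fun v hv => ⟨List.mem_cons_of_mem _ hv.1, hv.2⟩

theorem Hold.fin {st : St} (h : Hold dm m st P) {v : ℕ} {l : List ℕ} (h0 : dgm dm v = 0)
    (h1 : tgc dm l = true) (h2 : st.1 = tgm dm (v :: l)) {A : ℕ → K4} (hA : Good (bt m) A)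
    (hP : P A) (hv : dg (A v) = none) :
    tb (rsz st.2 l.length st.3) (code (l.map fun v => dg (A v))) := by
  obtain ⟨τ, t0, t1, t2⟩ := tgc_spec (fun v => dg (A v)) l h1
  have k : ∀ w, tb st.1 (w + 32) → dgm dm w ≤ l.length ∧ τ (dgm dm w) = dg (A w) := fun w hw => by
    obtain ⟨u, u1, u2⟩ := tb_tgm (h2 ▸ hw)
    have := dgm_le dm u
    obtain rfl : w = u := by rcases tb_bv.1 u2 with k | k <;> omega
    rcases List.mem_cons.1 u1 with rfl | u1
    · rw [h0, t0, hv]
      exact ⟨Nat.zero_le _, rfl⟩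
    · exact t1 w u1
  rw [← t2]
  refine ((h fun k => ?_).rsz fun w hw => (k w hw).1).bit A τ hA hP t0 fun w hw => (k w hw).2
  obtain ⟨u, -, u2⟩ := tb_tgm (h2 ▸ k)
  have := dgm_le dm u
  rcases tb_bv.1 u2 with k | k <;> omega

theorem holdE (ss : List Stp) :
    Hold dm m (run true dm m ss ⟨0, 0, 1⟩) fun A => True ∧ ∀ s ∈ ss, Sat A s :=
  runE ss fun _ => ⟨fun _ k => absurd k (tb_zero _), fun _ _ k => absurd k (tb_zero _),
    fun _ k => absurd k (tb_zero _), fun _ _ _ _ _ _ => (tb_one (y := 0)).2 rfl⟩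

theorem holdA {ss : List Stp} (hf : fresh ss 0 = true) : Hold dm m (run false dm m ss ⟨0, 0, 0⟩)
    (Bad (bt m) (fun v => ∃ s ∈ ss, v ∈ s.dl) fun A => True ∧ ∀ s ∈ ss, Sat A s) :=
  runA ss (fun _ => ⟨fun _ k => absurd k (tb_zero _), fun _ _ k => absurd k (tb_zero _),
    fun _ k => absurd k (tb_zero _), fun A _ k1 k2 => absurd trivial (k2 A k1 fun _ _ => rfl)⟩)
    hf _ (fun _ k => absurd k (tb_zero _)) fun s hs _ hv => ⟨s, hs, hv⟩

end

end Pool.Agent.Lib.G6.B
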