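import Pool.Agent.Lib.G6.BKem

set_option autoImplicit false

namespace Pool.Agent.Lib.G6.B

open Equiv Pool.Agent.Lib.MP_bfaad3_co Classical

variable {D : Type}

/-- `y` is the last dart of the configuration before `d` -/
def Bk (σ : Perm D) (n : ℕ) (h : ℕ → D) (y : ℕ) (d : D) : Prop :=
  EV n y ∧ ∃ i, (σ ^ i) (h y) = d ∧ ∀ k y', 0 < k → k ≤ i → EV n y' → (σ ^ k) (h y) ≠ h y'

/-- darts at vertices outside the configuration -/
def out (σ : Perm D) (n : ℕ) (h : ℕ → D) (d : D) : Prop := ¬ ∃ y, Bk σ n h y d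

noncomputable def own (σ : Perm D) (n : ℕ) (h : ℕ → D) (d : D) : ℕ :=
  if k : ∃ y, Bk σ n h y d then k.choose else 0

noncomputable def itm (σ : Perm D) (n : ℕ) (h : ℕ → D) (d : D) : ℕ :=
  if d = h (own σ n h d) then own σ n h d else own σ n h d + 1

/-- inner darts -/
def Inn (e n : ℕ) (h : ℕ → D) (d : D) : Prop := ∃ y, EV n y ∧ eal e y ≠ 0 ∧ d = h y

/-- sum over the darts of one item -/
noncomputable def sm [Fintype D] {A : Type} [AddCommMonoid A] (σ : Perm D) (n : ℕ) (h : ℕ → D)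
    (c : D → A) (v : ℕ) : A :=
  ∑ d ∈ Finset.univ.filter (fun d => ¬ out σ n h d ∧ itm σ n h d = v), c d

variable {σ α : Perm D} {N : Set D} {e n : ℕ} {h : ℕ → D}

theorem bk_refl {y : ℕ} (hy : EV n y) : Bk σ n h y (h y) :=
  ⟨hy, 0, rfl, fun k _ h1 h2 => by omega⟩

theorem bk_uniq (H : Emb σ α N e n h) {y y' : ℕ} {d : D} (h1 : Bk σ n h y d)
    (h2 : Bk σ n h y' d) : y = y' := by
  have key : ∀ y y' i i', EV n y → EV n y' → i ≤ i' → (σ ^ i) (h y) = (σ ^ i') (h y') →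
      (∀ k y'', 0 < k → k ≤ i' → EV n y'' → (σ ^ k) (h y') ≠ h y'') → y = y' := by
    intro y y' i i' e1 e2 hi hh hk
    obtain ⟨j, rfl⟩ := Nat.exists_eq_add_of_le hi
    rw [pow_add, Perm.mul_apply, (σ ^ i).apply_eq_iff_eq] at hh
    cases j with
    | zero => exact H.inj _ _ e1 e2 hh
    | succ j => exact absurd hh.symm (hk _ y (by omega) (by omega) e1)
  obtain ⟨e1, i, a1, a2⟩ := h1
  obtain ⟨e2, i', b1, b2⟩ := h2
  rcases le_total i i' with k | k
  · exact key y y' i i' e1 e2 k (a1.trans b1.symm) b2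
  · exact (key y' y i' i e2 e1 k (b1.trans a1.symm) a2).symm

theorem bk_step (H : Emb σ α N e n h) {y : ℕ} {d : D} (h1 : Bk σ n h y d) :
    (Bk σ n h y (σ d) ∧ ∀ y', EV n y' → σ d ≠ h y') ∨ σ d = h (enx e y) := by
  obtain ⟨e1, i, rfl, a2⟩ := h1
  obtain ⟨j, j0, j1, -, j3⟩ := H.ret y e1
  rw [← perm_pow_step]
  by_cases hj : i + 1 < j
  · exact Or.inl ⟨⟨e1, i + 1, rfl, fun k y' k1 k2 => j3 k y' k1 (by omega)⟩,
      fun y' => j3 _ y' (by omega) hj⟩
  · have : j = i + 1 := by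
      by_contra hc
      exact a2 j _ j0 (by omega) (H.nx y e1).1 j1
    exact Or.inr (this ▸ j1)

theorem bk_gap (H : Emb σ α N e n h) {y : ℕ} {d : D} (h1 : Bk σ n h y d) (h2 : d ≠ h y) :
    egap e y = true := by
  obtain ⟨e1, i, rfl, a2⟩ := h1
  obtain ⟨j, j0, j1, j2, -⟩ := H.ret y e1
  by_contra hc
  rw [j2 (Bool.eq_false_iff.2 hc)] at j1
  cases i with
  | zero => exact h2 rfl
  | succ i => exact a2 1 _ one_pos (by omega) (H.nx y e1).1 j1

theorem bk_sc {y : ℕ} {d : D} (h1 : Bk σ n h y d) : σ.SameCycle (h y) d := by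
  obtain ⟨-, i, rfl, -⟩ := h1
  exact ⟨i, by simp⟩

theorem out_s (H : Emb σ α N e n h) (d : D) : out σ n h (σ d) ↔ out σ n h d := by
  refine not_congr ⟨?_, ?_⟩
  · rintro ⟨y, e1, i, a1, a2⟩
    cases i with
    | zero =>
      obtain ⟨j, j0, j1, -, j3⟩ := H.ret _ (H.pv y e1).1
      obtain ⟨j, rfl⟩ : ∃ k, j = k + 1 := ⟨j - 1, by omega⟩
      rw [(H.pv y e1).2, perm_pow_step] at j1
      exact ⟨_, (H.pv y e1).1, j, σ.injective (j1.trans a1),
        fun k y' k1 k2 => j3 k y' k1 (by omega)⟩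
    | succ i =>
      rw [perm_pow_step] at a1
      exact ⟨y, e1, i, σ.injective a1, fun k y' k1 k2 => a2 k y' k1 (by omega)⟩
  · rintro ⟨y, hy⟩
    rcases bk_step H hy with k | k
    · exact ⟨y, k.1⟩
    · exact ⟨_, by rw [k]; exact bk_refl (H.nx y hy.1).1⟩

theorem own_bk {d : D} (hd : ¬ out σ n h d) : Bk σ n h (own σ n h d) d := by
  have k : ∃ y, Bk σ n h y d := not_not.1 hd
  unfold own
  rw [dif_pos k]
  exact k.choose_spec

theorem bk_in {y : ℕ} {d : D} (h1 : Bk σ n h y d) : ¬ out σ n h d := not_not.2 ⟨y, h1⟩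

theorem own_eq (H : Emb σ α N e n h) {y : ℕ} {d : D} (h1 : Bk σ n h y d) : own σ n h d = y :=
  bk_uniq H (own_bk (bk_in h1)) h1

theorem itm_h (H : Emb σ α N e n h) {y : ℕ} (hy : EV n y) : itm σ n h (h y) = y := by
  unfold itm
  rw [own_eq H (bk_refl hy), if_pos rfl]

theorem itm_gap (H : Emb σ α N e n h) {y : ℕ} {d : D} (h1 : Bk σ n h y d) (h2 : d ≠ h y) :
    itm σ n h d = y + 1 := by
  unfold itm
  rw [own_eq H h1, if_neg h2]

theorem itm_cases (H : Emb σ α N e n h) {d : D} (hd : ¬ out σ n h d) :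
    ∃ y, Bk σ n h y d ∧ ((d = h y ∧ itm σ n h d = y) ∨ (d ≠ h y ∧ itm σ n h d = y + 1)) := by
  refine ⟨_, own_bk hd, ?_⟩
  by_cases k : d = h (own σ n h d)
  · exact Or.inl ⟨k, if_pos k⟩
  · exact Or.inr ⟨k, itm_gap H (own_bk hd) k⟩

theorem itm_dart (H : Emb σ α N e n h) {y : ℕ} (hy : EV n y) {d : D} :
    (¬ out σ n h d ∧ itm σ n h d = y) ↔ d = h y := by
  constructor
  · rintro ⟨h1, h2⟩
    obtain ⟨z, k0, ⟨k1, k2⟩ | ⟨k1, k2⟩⟩ := itm_cases H h1
    · rw [k1, ← k2, h2]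
    · have := k0.1.2.2
      have := hy.2.2
      omega
  · rintro rfl
    exact ⟨bk_in (bk_refl hy), itm_h H hy⟩

theorem itm_succ (H : Emb σ α N e n h) {y : ℕ} (hy : EV n y) {d : D} :
    (¬ out σ n h d ∧ itm σ n h d = y + 1) ↔ (Bk σ n h y d ∧ d ≠ h y) := by
  constructor
  · rintro ⟨h1, h2⟩
    obtain ⟨z, k0, ⟨k1, k2⟩ | ⟨k1, k2⟩⟩ := itm_cases H h1
    · have := k0.1.2.2
      have := hy.2.2
      omega
    · have : z = y := by omega
      exact this ▸ ⟨k0, k1⟩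
  · rintro ⟨h1, h2⟩
    exact ⟨bk_in h1, itm_gap H h1 h2⟩

theorem gap_not_h (H : Emb σ α N e n h) {y z : ℕ} {d : D} (h1 : Bk σ n h y d) (h2 : d ≠ h y)
    (hz : EV n z) : d ≠ h z := by
  rintro rfl
  exact h2 (congrArg h (bk_uniq H (bk_refl hz) h1))

theorem inn_h (H : Emb σ α N e n h) {y : ℕ} (hy : EV n y) : Inn e n h (h y) ↔ eal e y ≠ 0 :=
  ⟨fun ⟨_, h1, h2, h3⟩ => H.inj _ _ hy h1 h3 ▸ h2, fun k => ⟨y, hy, k, rfl⟩⟩

theorem al_spec (H : Emb σ α N e n h) {y : ℕ} (hy : EV n y) (k : eal e y ≠ 0) :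
    EV n (eal e y) ∧ eal e (eal e y) = y ∧ h (eal e y) = α (h y) := (H.al y hy).resolve_left k

theorem inn_a (H : Emb σ α N e n h) (hi : ∀ x, α (α x) = x) (d : D) :
    Inn e n h (α d) ↔ Inn e n h d := by
  have key : ∀ d, Inn e n h d → Inn e n h (α d) := by
    rintro d ⟨y, h1, h2, rfl⟩
    obtain ⟨k1, k2, k3⟩ := al_spec H h1 h2
    exact ⟨_, k1, by rw [k2]; exact h1.1.ne', k3.symm⟩
  exact ⟨fun k => hi d ▸ key _ k, key d⟩

theorem sc_nx (H : Emb σ α N e n h) {y : ℕ} (hy : EV n y) : σ.SameCycle (h y) (h (enx e y)) := by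
  obtain ⟨j, -, j1, -⟩ := H.ret y hy
  exact ⟨j, by simpa using j1⟩

theorem s_nogap (H : Emb σ α N e n h) {y : ℕ} (hy : EV n y) (hg : egap e y = false) :
    σ (h y) = h (enx e y) := by
  obtain ⟨j, -, j1, j2, -⟩ := H.ret y hy
  rw [j2 hg] at j1
  exact j1

variable [Fintype D]

theorem sm_dart {A : Type} [AddCommMonoid A] (H : Emb σ α N e n h) (c : D → A) {y : ℕ}
    (hy : EV n y) : sm σ n h c y = c (h y) := by
  unfold sm
  refine Finset.sum_eq_single (h y) (fun d hd k => absurd ((itm_dart H hy).1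
    (Finset.mem_filter.1 hd).2) k) fun k => absurd ?_ k
  exact Finset.mem_filter.2 ⟨Finset.mem_univ _, (itm_dart H hy).2 rfl⟩

theorem sm_nogap {A : Type} [AddCommMonoid A] (H : Emb σ α N e n h) (c : D → A) {y : ℕ}
    (hy : EV n y) (hg : egap e y = false) : sm σ n h c (y + 1) = 0 :=
  Finset.sum_eq_zero fun d hd => by
    obtain ⟨k1, k2⟩ := (itm_succ H hy).1 (Finset.mem_filter.1 hd).2
    rw [bk_gap H k1 k2] at hg
    exact absurd hg (by decide)

theorem sm_congr {A : Type} [AddCommMonoid A] (H : Emb σ α N e n h) {c c' : D → A} {y : ℕ}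
    (hy : EV n y) (hc : ∀ d, ¬ Inn e n h d → c d = c' d) :
    sm σ n h c (y + 1) = sm σ n h c' (y + 1) :=
  Finset.sum_congr rfl fun d hd => by
    obtain ⟨k1, k2⟩ := (itm_succ H hy).1 (Finset.mem_filter.1 hd).2
    exact hc d fun ⟨z, z1, _, z3⟩ => gap_not_h H k1 k2 z1 z3

theorem gap_walk (H : Emb σ α N e n h) (f u : D → ZMod 2)
    (hf : ∀ d, ¬ Inn e n h d → f (σ d) = f d + u d) {y : ℕ} (hy : EV n y) :
    f (h (enx e y)) = f (σ (h y)) + sm σ n h u (y + 1) ∧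
      ∀ d, Bk σ n h y d → d ≠ h y → (∀ x, Bk σ n h y x → x ≠ h y → u x = 0) →
        f d = f (σ (h y)) := by
  obtain ⟨j, j0, j1, -, j3⟩ := H.ret y hy
  have w : ∀ i, 1 ≤ i → i ≤ j →
      f ((σ ^ i) (h y)) = f (σ (h y)) + ∑ k ∈ Finset.Ico 1 i, u ((σ ^ k) (h y)) := by
    intro i hi
    induction i, hi using Nat.le_induction with
    | base => intro _; simp
    | succ i hi ih =>
      intro hj
      rw [perm_pow_step, hf _ fun ⟨z, z1, _, z3⟩ => j3 i z hi hj z1 z3, ih (by omega),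
        Finset.sum_Ico_succ_top hi, add_assoc]
  have b : ∀ k, 1 ≤ k → k < j → Bk σ n h y ((σ ^ k) (h y)) ∧ (σ ^ k) (h y) ≠ h y :=
    fun k k1 k2 => ⟨⟨hy, k, rfl, fun l y' l1 l2 => j3 l y' l1 (by omega)⟩, j3 k y k1 k2 hy⟩
  have b' : ∀ d, Bk σ n h y d → d ≠ h y → ∃ k, 1 ≤ k ∧ k < j ∧ (σ ^ k) (h y) = d := by
    rintro d ⟨-, i, rfl, a2⟩ h2
    refine ⟨i, Nat.pos_of_ne_zero ?_, ?_, rfl⟩
    · rintro rfl
      exact h2 rfl
    · by_contra hc
      exact a2 j _ j0 (by omega) (H.nx y hy).1 j1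
  constructor
  · rw [← j1, w j j0 le_rfl]
    refine congrArg _ (Finset.sum_nbij (fun k => (σ ^ k) (h y)) (fun k hk => ?_)
      (fun k hk l hl hkl => ?_) (fun d hd => ?_) fun _ _ => rfl)
    · have := Finset.mem_Ico.1 hk
      exact Finset.mem_filter.2 ⟨Finset.mem_univ _, (itm_succ H hy).2 (b k this.1 this.2)⟩
    · have key : ∀ k l, l < j → k < l → (σ ^ k) (h y) ≠ (σ ^ l) (h y) := by
        intro k l l1 l2 hh
        obtain ⟨m, rfl⟩ := Nat.exists_eq_add_of_le l2.le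
        rw [pow_add, Perm.mul_apply, (σ ^ k).apply_eq_iff_eq] at hh
        exact j3 m y (by omega) (by omega) hy hh.symm
      have k1 := (Finset.mem_Ico.1 hk).2
      have k2 := (Finset.mem_Ico.1 hl).2
      rcases lt_trichotomy k l with t | t | t
      · exact absurd hkl (key k l k2 t)
      · exact t
      · exact absurd hkl.symm (key l k k1 t)
    · obtain ⟨k1, k2⟩ := (itm_succ H hy).1 (Finset.mem_filter.1 hd).2
      obtain ⟨k, k3, k4, k5⟩ := b' d k1 k2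
      exact ⟨k, Finset.mem_Ico.2 ⟨k3, k4⟩, k5⟩
  · intro d h1 h2 hu
    obtain ⟨k, k3, k4, rfl⟩ := b' d h1 h2
    rw [w k k3 k4.le, Finset.sum_eq_zero fun l hl => ?_, add_zero]
    have := Finset.mem_Ico.1 hl
    exact hu _ (b l this.1 (by omega)).1 (b l this.1 (by omega)).2

theorem vsum_dec (H : Emb σ α N e n h) (c : D → K4) {x : ℕ} {L : List ℕ} (hx : x ∈ L)
    (h1 : L.Nodup) (h2 : ∀ y ∈ L, enx e y ∈ L)
    (h3 : ∀ y ∈ L, EV n y ∧ σ.SameCycle (h x) (h y)) :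
    vsum σ c (h x) = (L.map fun y => c (h y) + sm σ n h c (y + 1)).sum := by
  have key : ∀ d, σ.SameCycle (h x) d → ∃ y ∈ L, Bk σ n h y d := by
    intro d hd
    obtain ⟨m, rfl⟩ := hd.exists_nat_pow_eq
    clear hd
    induction m with
    | zero => exact ⟨x, hx, bk_refl (h3 x hx).1⟩
    | succ m ih =>
      obtain ⟨y, y1, y2⟩ := ih
      rw [perm_pow_step]
      rcases bk_step H y2 with k | k
      · exact ⟨y, y1, k.1⟩
      · exact ⟨_, h2 y y1, by rw [k]; exact bk_refl (H.nx y y2.1).1⟩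
  rw [vsum_eq, ← List.sum_toFinset _ h1, ← Finset.sum_fiberwise_of_maps_to (t := L.toFinset)
    (g := own σ n h) fun d hd => by
      obtain ⟨y, y1, y2⟩ := key d (Finset.mem_filter.1 hd).2
      rw [own_eq H y2]
      exact List.mem_toFinset.2 y1]
  refine Finset.sum_congr rfl fun y hy => ?_
  obtain ⟨y1, y2⟩ := h3 y (List.mem_toFinset.1 hy)
  unfold sm
  have k0 : h y ∉ Finset.univ.filter (fun d => ¬ out σ n h d ∧ itm σ n h d = y + 1) :=
    fun k => ((itm_succ H y1).1 (Finset.mem_filter.1 k).2).2 rfl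
  rw [← Finset.sum_insert k0]
  refine Finset.sum_congr (Finset.ext fun d => ?_) fun _ _ => rfl
  simp only [Finset.mem_filter, Finset.mem_univ, true_and, Finset.mem_insert, itm_succ H y1]
  constructor
  · rintro ⟨k1, k2⟩
    obtain ⟨z, -, z2⟩ := key d k1
    rw [own_eq H z2] at k2
    subst k2
    by_cases k : d = h z
    · exact Or.inl k
    · exact Or.inr ⟨z2, k⟩
  · rintro (rfl | ⟨k, -⟩)
    · exact ⟨y2, own_eq H (bk_refl y1)⟩
    · exact ⟨y2.trans (bk_sc k), own_eq H k⟩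

end Pool.Agent.Lib.G6.B
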