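set_option autoImplicit false

/-! The definitions of the reducibility checker. -/

namespace Pool.Agent.Lib.G6.B

noncomputable section

/-- evaluate `e`, then continue -/
def frc {α : Type} (e : Nat) (k : Nat → α) : α := Nat.rec (k 0) (fun n _ => k n.succ) e

/-- if-then-else -/
def sel {α : Type} (c : Bool) (t f : α) : α := Bool.rec f t c

/-- `k` ones -/
def ones (k : Nat) : Nat := Nat.sub (Nat.shiftLeft 1 k) 1

def cat (a n b : Nat) : Nat := Nat.lor (Nat.shiftLeft b n) a

def rp2 (v k : Nat) : Nat :=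
  Nat.rec (ones v) (fun n ih => cat ih (Nat.shiftLeft (Nat.mul 3 v) n) ih) k

/-- at least `a` blocks of `v` ones, at distance `3 * v` -/
def rpw (v a : Nat) : Nat := frc (Nat.succ (Nat.log2 (Nat.sub a 1))) (rp2 v)

/-- `a` blocks of `v` ones, at distance `3 * v` -/
def rep (v a : Nat) : Nat := Nat.land (ones (Nat.mul (Nat.mul 3 v) a)) (rpw v a)

inductive Mk where
  | mk (m0 m1 m2 m3 m4 w : Nat) : Mk

def mkM (v M : Nat) : Mk :=
  ⟨M, Nat.shiftLeft M v, Nat.shiftLeft M (Nat.mul 2 v), Nat.shiftLeft M (Nat.mul 3 v),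
    Nat.shiftLeft M (Nat.mul 4 v), Nat.mul 2 v⟩

def mk (v m : Nat) : Mk := mkM v (rep v m)

inductive P3 where
  | mk (a b c : Nat) : P3

def tr3b (A B C v : Nat) (k : Mk) : P3 :=
  ⟨Nat.lor (Nat.lor (Nat.land k.1 A) (Nat.land k.2 B)) (Nat.land k.3 C),
    Nat.shiftRight (Nat.lor (Nat.lor (Nat.land k.2 A) (Nat.land k.3 B)) (Nat.land k.4 C)) v,
    Nat.shiftRight (Nat.lor (Nat.lor (Nat.land k.3 A) (Nat.land k.4 B)) (Nat.land k.5 C)) k.6⟩

/-- transposition of three rows against a digit of weight `v` -/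
def tr3 (A : P3) (v : Nat) (k : Mk) : P3 :=
  tr3b A.1 (Nat.shiftLeft A.2 v) (Nat.shiftLeft A.3 k.6) v k

def ln (L : Nat) : Nat := sel (Nat.beq (Nat.mod L 3) 1) (sel (Nat.ble L 1) L (Nat.succ L)) L

def l0 (L : Nat → Nat) (h : Nat) : Nat := ln (frc h L)

def l1 (L : Nat → Nat) (h : Nat) : Nat := ln (frc (Nat.succ h) L)

def lp (L : Nat → Nat) (h : Nat) : Nat := Nat.rec 0 (fun n _ => l0 L n) h

def tot (L : Nat → Nat) (h : Nat) : Nat :=
  Nat.add (Nat.mul 2 (Nat.add (l0 L h) (l1 L h))) (lp L h)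

def nL (c : Nat) (L : Nat → Nat) (h : Nat) : Nat := sel (Nat.ble h c) (tot L h) 0

def len {α : Type} (l : List α) : Nat := List.rec 0 (fun _ _ ih => Nat.succ ih) l

inductive P5 where
  | mk (o s g c d : Nat) : P5

inductive Fn where
  | mk (f : List Bool → P3) : Fn

inductive A3 where
  | mk (f : Nat → Nat → Nat → P3) : A3

inductive U5 where
  | mk (f : P3 → P5) : U5

def asA (n c d : Nat) : A3 := ⟨fun y z o =>
  ⟨y, z, cat (cat o c (Nat.shiftRight y n)) d (Nat.shiftRight z n)⟩⟩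

def asB (n u d : Nat) : A3 := ⟨fun y z o =>
  ⟨o, cat y u (Nat.shiftRight o n), cat z u (Nat.shiftRight o d)⟩⟩

def un1 (a y z o : Nat) : P5 := ⟨o, y, z, Nat.shiftRight y a, Nat.shiftRight z a⟩

def unA (a n c d : Nat) : U5 := ⟨fun R =>
  un1 a (cat R.1 n (Nat.shiftRight R.3 c)) (cat R.2 n (Nat.shiftRight R.3 d)) R.3⟩

def unB (a n u d : Nat) : U5 := ⟨fun R =>
  un1 a R.2 R.3 (cat (cat R.1 n (Nat.shiftRight R.2 u)) d (Nat.shiftRight R.3 u))⟩

/-- the data of one level and depth -/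
inductive Rc where
  | mk (g : P3 → P3) (k : Mk) (a : Nat) (as : A3) (un : U5) : Rc

def rc (v c : Nat) (L : Nat → Nat) (h : Nat) : Rc :=
  frc (frc h L) fun z => frc (Nat.div (Nat.add z 2) 3) fun m =>
    frc (Nat.mul v (lp L h)) fun q => frc (Nat.mul v (l0 L h)) fun a =>
      frc (Nat.add a (Nat.mul v (l1 L h))) fun u =>
        frc (Nat.mul v (Nat.div (Nat.add (tot L h) 2) 3)) fun n =>
          frc (Nat.sub (Nat.add q u) n) fun d => frc (Nat.sub (Nat.mul 2 n) u) fun e =>
            ⟨sel (Nat.beq z 0) (fun _ => ⟨0, 0, 0⟩) (fun x => x), mk v m, a,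
              sel (Nat.ble n u) (asA n q d) (asB n u e),
              sel (Nat.ble h c) (sel (Nat.ble n u) (unA a n q d) (unB a n u e))
                ⟨fun _ => ⟨0, 0, 0, 0, 0⟩⟩⟩

inductive Dp (α : Type) where
  | mk (f : (Nat → α) → α) : Dp α

/-- the length of a list, passed on -/
def dep (α : Type) (β : List Bool) : Dp α := frc (len β) fun h => ⟨fun k => k h⟩

inductive El (α : Type) where
  | mk (f : α → (Nat → List Bool → α) → (Nat → List Bool → α) → α) : El α

/-- case distinction on a list -/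
def el (α : Type) (β : List Bool) : El α :=
  List.rec ⟨fun n _ _ => n⟩ (fun x β' _ => frc (len β) fun h =>
    sel x ⟨fun _ _ t => t h β'⟩ ⟨fun _ f _ => f h β'⟩) β

def slc (v : Nat) (D : Nat → Rc) (A : List Bool → P3) (β : List Bool) : P3 :=
  (dep P3 β).1 fun h => (D h).1 (tr3 (A β) v (D h).2)

inductive MF where
  | mk (f : Nat → Nat) : MF

/-- exchange of the two nonzero values of the digit of weight `w` -/
def flp (X w m1 m2 : Nat) : Nat :=
  Nat.lor (Nat.land (Nat.shiftLeft X w) m2) (Nat.land (Nat.shiftRight X w) m1)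

def mir1 (X w : Nat) (k : Mk) : Nat := Nat.lor (flp X w k.2 k.3) (Nat.land X k.1)

def rot1 (X v : Nat) (k : Mk) : Nat :=
  Nat.lor (Nat.shiftLeft (Nat.land X (Nat.lor k.1 k.2)) v) (Nat.land (Nat.shiftRight X k.6) k.1)

def rob1 (X v : Nat) (k : Mk) : Nat :=
  Nat.lor (Nat.shiftLeft (Nat.land X k.1) k.6) (Nat.land (Nat.shiftRight X v) (Nat.lor k.1 k.2))

def mw1 (w j : Nat) : Mk := mkM w (rp2 w j)

/-- masks with at least `a` blocks -/
def mw (w a : Nat) : Mk := frc (Nat.succ (Nat.log2 (Nat.sub a 1))) (mw1 w)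

/-- an operation in every digit -/
def dgt (o : Nat → Nat → Mk → Nat) (p : Nat) : Nat → MF :=
  Nat.rec (fun _ => ⟨fun X => X⟩) (fun n ih a =>
    frc (Nat.pow 3 n) fun w => frc (Nat.mul 3 a) fun a' =>
      frc (Nat.succ (Nat.log2 (Nat.sub a 1))) fun j =>
        ⟨fun X => (ih a').1 (o X w (mw1 w j))⟩) p

def pc0 (S : List Bool → P3) (W : MF) : P5 :=
  ⟨0, (S []).1, Nat.land (S []).2 (S []).3, Nat.land (S [false]).2 (W.1 (S [false]).2),
    Nat.land (S [false]).3 (W.1 (S [false]).3)⟩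

def pc1 (S : List Bool → P3) (β : List Bool) (o : Nat) : P5 :=
  ⟨o, (S β).1, Nat.land (S β).2 (S β).3, Nat.land (S (false :: β)).2 (S (true :: β)).3,
    Nat.land (S (false :: β)).3 (S (true :: β)).2⟩

def pcs (S : List Bool → P3) (W : MF) (β : List Bool) : P5 :=
  (el P5 β).1 (pc0 S W) (fun _ β' => pc1 S β (S β').2) fun _ β' => pc1 S β (S β').3

def as1 (k : Rc) (Q : P5) : P3 := k.4.1 (cat Q.2 k.3 Q.4) (cat Q.3 k.3 Q.5) 0

def as2 (k : Rc) (S : List Bool → P3) (β : List Bool) (o : Nat) : P3 :=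
  k.4.1 (cat (S β).1 k.3 (Nat.land (S (false :: β)).2 (S (true :: β)).3))
    (cat (Nat.land (S β).2 (S β).3) k.3 (Nat.land (S (false :: β)).3 (S (true :: β)).2)) o

def asm (D : Nat → Rc) (S : List Bool → P3) (W : MF) (β : List Bool) : P3 :=
  (el P3 β).1 (as1 (D 0) (pc0 S W))
    (fun h β' => as2 (D h) S β (S β').2) fun h β' => as2 (D h) S β (S β').3

def una (D : Nat → Rc) (R : Fn) (β : List Bool) : P5 :=
  (dep P5 β).1 fun h => (D h).5.1 (R.1 β)

def bk0 (v : Nat) (k : Rc) (W : MF) (U : List Bool → P5) : P3 :=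
  k.1 (tr3 ⟨(U []).2, Nat.lor (U []).3 (U [false]).1, Nat.lor (U []).3 (W.1 (U [false]).1)⟩ v k.2)

def bk1 (v : Nat) (k : Rc) (U : List Bool → P5) (β : List Bool) (c d : Nat) : P3 :=
  k.1 (tr3b (U β).2 (Nat.shiftLeft (Nat.lor (Nat.lor (U β).3 (U (false :: β)).1) c) v)
    (Nat.shiftLeft (Nat.lor (Nat.lor (U β).3 (U (true :: β)).1) d) k.2.6) v k.2)

def bk (v : Nat) (D : Nat → Rc) (W : MF) (U : List Bool → P5) (β : List Bool) : P3 :=
  (el P3 β).1 (bk0 v (D 0) W U) (fun h β' => bk1 v (D h) U β (U β').4 (U β').5)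
    fun h β' => bk1 v (D h) U β (U β').5 (U β').4

inductive M9 where
  | mk (p1 p2 q1 q2 n k : Nat) : M9

def m9b (p q : Mk) : M9 :=
  ⟨p.2, p.3, q.2, q.3, Nat.lor p.2 p.3,
    Nat.lor (Nat.land q.1 (Nat.lor p.2 p.3)) (Nat.land p.1 (Nat.lor q.2 q.3))⟩

def m9 (a : Nat) : M9 := m9b (mw 1 (Nat.mul 3 a)) (mw 3 a)

def f21 (X : Nat) (k : M9) : Nat :=
  Nat.land X (Nat.lor (Nat.lor k.6 (flp X 3 k.3 k.4)) (flp X 1 k.1 k.2))

def f22 (A : List Bool → Nat) (β : List Bool) (k : M9) : Nat :=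
  Nat.land (Nat.land (A (false :: β)) (flp (A (true :: β)) 3 k.3 k.4)) k.5

def f23 (X : Nat) (k : M9) : Nat := flp X 3 k.3 k.4

/-- the last two positions -/
def fin2 (l : Nat → Nat) (A : List Bool → Nat) (β : List Bool) : Nat :=
  List.rec (A β) (fun x β1 _ => List.rec (f21 (A β) (m9 (l 1))) (fun _ β2 _ =>
    List.rec (sel x (f23 (f22 A β1 (m9 (l 2))) (m9 (l 2))) (f22 A β1 (m9 (l 2))))
      (fun _ _ _ => 0) β2) β1) β

def qo (Q : List Bool → P5) (β : List Bool) : Nat := (Q β).1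
def qs (Q : List Bool → P5) (β : List Bool) : Nat := (Q β).2
def qg (Q : List Bool → P5) (β : List Bool) : Nat := (Q β).3
def qc (Q : List Bool → P5) (β : List Bool) : Nat := (Q β).4
def qd (Q : List Bool → P5) (β : List Bool) : Nat := (Q β).5

def fu (L : Nat → Nat) (Q : List Bool → P5) (β : List Bool) : P5 :=
  ⟨fin2 (lp L) (qo Q) β, fin2 (l0 L) (qs Q) β, fin2 (l0 L) (qg Q) β, fin2 (l1 L) (qc Q) β,
    fin2 (l1 L) (qd Q) β⟩

/-- number of positions before the next break -/
def cap (bs : List Bool) : Nat := List.rec 0 (fun b _ ih => sel b 0 (Nat.succ ih)) bs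

inductive G where
  | mk (f : (List Bool → P3) → Fn) : G

def lev (R : G) (p v c : Nat) (L : Nat → Nat) (D : Nat → Rc) (W0 W1 : MF) : G :=
  sel (sel (Nat.beq p 2) (Nat.beq c 2) false)
    ⟨fun A => ⟨bk v D W0 (fu L (pcs (slc v D A) W1))⟩⟩
    ⟨fun A => ⟨bk v D W0 (una D (R.1 (asm D (slc v D A) W1)))⟩⟩

def go (bs : List Bool) : (Nat → Nat) → G :=
  List.rec (fun _ => ⟨fun A => ⟨A⟩⟩) (fun _ bs ih L =>
    frc (len bs) fun p => frc (Nat.pow 3 p) fun v => frc (cap bs) fun c =>
      frc (l0 L 0) fun a0 => frc (l0 L 1) fun a1 =>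
        lev (ih (nL c L)) p v c L (rc v c L) (dgt mir1 p a0) (dgt mir1 p a1)) bs

def one (K h : Nat) : Nat := sel (Nat.beq h 0) K 0

def two (K c h : Nat) : Nat := sel (Nat.ble h 1) (sel (Nat.ble h c) K 0) 0

/-- three rows of width `w` -/
def spl (X w : Nat) : P3 := ⟨X, Nat.shiftRight X w, Nat.shiftRight (Nat.shiftRight X w) w⟩

def jn (R : P3) (w t : Nat) : Nat := Nat.land (ones t) (cat R.1 w (cat R.2 w R.3))

def top (B : P3) (_ : List Bool) : P3 := B

def tpB (g s : P3) (β : List Bool) : P3 := List.rec g (fun _ _ _ => s) β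

/-- switching the two colours other than the colour of the first position -/
def gA (K : Nat) (bs : List Bool) : MF :=
  frc (Nat.pow 3 (len bs)) fun v => frc (Nat.mul v (Nat.div (Nat.add K 2) 3)) fun w =>
    frc (Nat.mul v K) fun t => ⟨fun X => jn (((go bs (one K)).1 (top (spl X w))).1 []) w t⟩

def gB3 (M : MF) (Z : Nat) : Nat := Nat.land Z (M.1 Z)

def gB2 (c w t : Nat) (R : Fn) : Nat :=
  sel (Nat.beq c 0) (jn (R.1 []) w t) (Nat.lor (jn (R.1 []) w t) (jn (R.1 [false]) w t))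

def gB1 (R : G) (T : MF) (w s : Nat) : Fn := R.1 (tpB (spl (Nat.land s (T.1 s)) w) (spl s w))

/-- switching the colour of the first position with another colour -/
def gB (K : Nat) (bs : List Bool) : MF :=
  frc (len bs) fun p => frc (cap bs) fun c => frc (Nat.pow 3 p) fun v =>
    frc (Nat.mul v (Nat.div (Nat.add K 2) 3)) fun w => frc (Nat.mul v K) fun t =>
      ⟨fun X => gB3 (dgt mir1 p K) ((dgt rob1 p K).1
        (gB2 c w t (gB1 (go bs (two K c)) (dgt rot1 p K) w ((dgt rot1 p K).1 X))))⟩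

/-- iterate until the set misses `C` -/
def lp2 (K : Nat) (bs : List Bool) (C f : Nat) : Bool → Nat → Bool :=
  Nat.rec (fun _ _ => false) (fun _ ih b X => sel (Nat.beq (Nat.land C X) 0) true
    (sel b (ih false ((gA K bs).1 X)) (ih true ((gB K bs).1 X)))) f

/-- a given number of steps -/
def itr (K : Nat) (bs : List Bool) (k : Nat) : Bool → Nat → Nat :=
  Nat.rec (fun _ X => X) (fun _ ih b X => sel (Nat.beq X 0) X
    (sel b (ih false ((gA K bs).1 X)) (ih true ((gB K bs).1 X)))) k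

def sub (X Y : Nat) : Bool := Nat.beq (Nat.lor X Y) Y

/-- a number given by blocks of `w` bits in a binary tree -/
inductive Bg where
  | lf (a : Nat) : Bg
  | nd (w : Nat) (l r : Bg) : Bg

def Bg.val (t : Bg) : Nat := Bg.rec (fun a => a) (fun w _ _ l r => cat l w r) t

def cj (a b : Bool) : Bool := Bool.rec false b a

def dj (a b : Bool) : Bool := Bool.rec b true a

def ng (a : Bool) : Bool := Bool.rec true false a

def mem (v : Nat) (l : List Nat) : Bool := List.rec false (fun a _ ih => dj (Nat.beq v a) ih) l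

def flt (p : Nat → Bool) (l : List Nat) : List Nat :=
  List.rec [] (fun a _ ih => sel (p a) (a :: ih) ih) l

def bt (m i : Nat) : Bool := Nat.beq (Nat.land (Nat.shiftRight m i) 1) 1

def msum (L : List Nat) (s : Nat) : Nat := List.rec s (fun y _ ih => Nat.lor ih (Nat.shiftLeft 1 y)) L

def rp1 (a w : Nat) : Nat := cat a w (cat a w a)

/-- the place of a variable -/
def dgm (dm v : Nat) : Nat :=
  Nat.land (Nat.shiftRight dm (Nat.add (Nat.div v 8) (Nat.mul 4 (Nat.mod v 64)))) 15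

def bv (dm v : Nat) : Nat := Nat.lor (Nat.shiftLeft 1 (Nat.add v 32)) (Nat.shiftLeft 1 (dgm dm v))

def ad1 (b x : Nat) : Nat :=
  sel (Nat.beq (Nat.land b x) 0) (Nat.lor b x) (sel (Nat.beq (Nat.land b x) b) x (Nat.lor x 65536))

def adL (dm : Nat) (vl : List Nat) (x : Nat) : Nat := List.rec x (fun v _ ih => ad1 (bv dm v) ih) vl

/-- first coordinate of the colour at place `d`, among `E` places -/
def plo (d E : Nat) : Nat :=
  Nat.rec 1 (fun j ih => frc (Nat.pow 3 j) fun w =>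
    sel (Nat.beq d (Nat.succ j)) (ones (Nat.mul 2 w)) (rp1 ih w)) E

/-- second coordinate of the colour at place `d`, among `E` places -/
def phi (d E : Nat) : Nat :=
  Nat.rec 1 (fun j ih => frc (Nat.pow 3 j) fun w =>
    sel (Nat.beq d (Nat.succ j)) (cat (ones w) (Nat.mul 2 w) (ones w)) (rp1 ih w)) E

inductive P2 where
  | mk (a b : Nat) : P2

def pls (dm E : Nat) (vl : List Nat) : P2 :=
  List.rec ⟨0, 0⟩ (fun v _ ih => frc (dgm dm v) fun d =>
    ⟨Nat.xor (plo d E) ih.1, Nat.xor (phi d E) ih.2⟩) vl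

def nzm (p : P2) : Nat := Nat.lor p.1 p.2

def chk (ex n : Bool) (M E s : Nat) : Nat :=
  sel ex (Nat.land (sel n M (Nat.xor M (plo 0 E))) s) (Nat.lor (sel n (Nat.xor M (plo 0 E)) M) s)

def rs1 (D s k : Nat) : Nat :=
  Nat.rec s (fun j ih => frc (Nat.add D j) fun i => frc (Nat.pow 3 i) fun w =>
    rp1 (Nat.land (plo 0 i) ih) w) k

/-- change of the number of places -/
def rsz (D E s : Nat) : Nat := frc (Nat.sub E D) (rs1 D s)

def elm (ex : Bool) (w M s t : Nat) : Nat :=
  rp1 (Nat.land M (sel ex (Nat.lor (Nat.lor s t) (Nat.shiftRight t w))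
    (Nat.land (Nat.land (Nat.shiftRight t w) t) s))) w

inductive St where
  | mk (l d s : Nat) : St

def pm0 (d E : Nat) : Nat := Nat.land (plo d E) (phi d E)

def dl2 (ex : Bool) (E b : Nat) (st : St) (d : Nat) : St :=
  Nat.rec st (fun j _ => sel (Nat.beq (Nat.land b st.1) b) (frc (Nat.pow 3 j) fun w =>
    ⟨Nat.xor st.1 b, E, elm ex w (pm0 d E) st.3 (Nat.shiftRight st.3 w)⟩) st) d

def dls (ex : Bool) (dm E : Nat) (dl : List Nat) (st : St) : St :=
  List.rec st (fun v _ ih => frc (dgm dm v) (dl2 ex E (bv dm v) ih)) dl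

/-- a vertex: its variables, its type, and the variables that are dropped afterwards -/
structure Stp where
  vl : List Nat
  n : Bool
  dl : List Nat

def st2 (ex : Bool) (dm : Nat) (n : Bool) (vl dl : List Nat) (D s x : Nat) : St :=
  frc (Nat.log2 (Nat.land 65535 x)) fun E =>
    dls ex dm E dl ⟨x, E, chk ex n (nzm (pls dm E vl)) E (rsz D E s)⟩

def st1 (ex : Bool) (dm : Nat) (n : Bool) (vl dl : List Nat) (st : St) : St :=
  st2 ex dm n vl dl st.2 st.3 (adL dm vl st.1)

def flo (m : Nat) (l : List Nat) : List Nat := List.rec [] (fun a _ ih => sel (bt m a) ih (a :: ih)) l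

def run (ex : Bool) (dm m : Nat) (ss : List Stp) : St → St :=
  List.rec (fun st => st) (fun s _ ih st => ih (st1 ex dm s.n (flo m s.vl) s.dl st)) ss

/-- no variable is used after it has been dropped -/
def fresh (ss : List Stp) : Nat → Bool :=
  List.rec (fun _ => true) (fun s _ ih g =>
    cj (Nat.beq (Nat.land (msum s.vl 0) g) 0) (ih (msum s.dl g))) ss

def knx (e d : Nat) : Nat := Nat.land (Nat.shiftRight e d) 32767
def kal (e d : Nat) : Nat := Nat.land (Nat.shiftRight e (Nat.add d 30)) 32767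
def kgp (e d : Nat) : Bool := Nat.beq (Nat.land (Nat.shiftRight e (Nat.add d 45)) 1) 1
def kN (e d : Nat) : Bool := Nat.beq (Nat.land (Nat.shiftRight e (Nat.add d 46)) 1) 1

def evb (n d : Nat) : Bool :=
  cj (Nat.ble 1 d) (cj (Nat.ble (Nat.succ d) n) (Nat.beq (Nat.mod d 64) 0))

def allL {α : Type} (p : α → Bool) (l : List α) : Bool :=
  List.rec true (fun a _ ih => cj (p a) ih) l

def anyL (p : Nat → Bool) (l : List Nat) : Bool := List.rec false (fun a _ ih => dj (p a) ih) l

def ndp (l : List Nat) : Bool := List.rec true (fun a t ih => cj (ng (mem a t)) ih) l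

def allD (p : Nat → Bool) (k : Nat) : Bool :=
  Nat.rec true (fun i ih => cj (frc (Nat.mul 64 (Nat.succ i)) p) ih) k

def orbT (e x f : Nat) : Nat → List Nat :=
  Nat.rec (fun _ => []) (fun _ ih y => sel (Nat.beq y x) [] (y :: frc (knx e y) ih)) f

/-- the darts at the vertex of `x` -/
def orbL (e x : Nat) : List Nat := x :: frc (knx e x) (orbT e x 20)

/-- the variable of the edge of a dart -/
def evv (e y : Nat) : Nat := frc (kal e y) fun a => sel (Nat.beq a 0) y (sel (Nat.ble y a) y a)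

def isc (e ed y : Nat) : Bool := dj (Nat.beq y ed) (Nat.beq y (kal e ed))

def evc (e ed y : Nat) : Nat := sel (isc e ed y) y (evv e y)

def vlO (e : Nat) (ev : Nat → Nat) (L : List Nat) : List Nat :=
  List.rec [] (fun y _ ih => frc (ev y) fun v =>
    v :: sel (kgp e y) (frc (Nat.succ y) fun w => w :: ih) ih) L

def dlO (e : Nat) (ev : Nat → Nat) (ct : Nat → Bool) (seen : Nat) (L : List Nat) : List Nat :=
  List.rec [] (fun y _ ih =>
    sel (dj (ct y) (cj (ng (Nat.beq (kal e y) 0)) (bt seen (kal e y))))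
      (frc (ev y) fun v => v :: ih) ih) L

def mkS (e : Nat) (ev : Nat → Nat) (ct : Nat → Bool) (ord : List Nat) : Nat → List Stp :=
  List.rec (fun _ => []) (fun x _ ih seen =>
    ⟨vlO e ev (orbL e x), kN e x, dlO e ev ct seen (orbL e x)⟩ ::
      frc (msum (orbL e x) seen) ih) ord

def vch1 (e n x seen : Nat) (L : List Nat) : Bool :=
  cj (evb n x) (cj (allL (fun y => mem (knx e y) L) L) (cj (ndp L)
    (dj (Nat.beq seen 0) (anyL (fun y => cj (ng (Nat.beq (kal e y) 0)) (bt seen (kal e y))) L))))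

def vchk (e n : Nat) (ord : List Nat) : Nat → Bool :=
  List.rec (fun seen => allD (bt seen) (Nat.div (Nat.sub n 1) 64)) (fun x _ ih seen =>
    cj (vch1 e n x seen (orbL e x)) (frc (msum (orbL e x) seen) ih)) ord

def lab (lb v : Nat) : Nat := Nat.land (Nat.shiftRight lb (Nat.add v (Nat.mul 7 (Nat.mod v 64)))) 255

def wk (e f : Nat) : Nat → Nat :=
  Nat.rec (fun v => v) (fun _ ih v => sel (Nat.beq (Nat.mod v 64) 0)
    (frc (kal e v) fun a => sel (Nat.beq a 0) v (frc (Nat.succ a) ih))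
    (sel (kgp e (Nat.sub v 1)) v (frc (knx e (Nat.sub v 1)) ih))) f

def nxt (e v : Nat) : Nat := sel (Nat.beq (Nat.mod v 64) 0) (Nat.succ v) (knx e (Nat.sub v 1))

def lnk1 (e lb v w : Nat) : Bool :=
  cj (Nat.ble (lab lb v) (lab lb w))
    (dj (ng (Nat.beq (lab lb w) (lab lb v))) (Nat.beq (frc (nxt e v) (wk e 500)) w))

def lnk (e lb : Nat) (R : List Nat) : Bool :=
  List.rec true (fun v t ih => cj ih (List.rec true (fun w _ _ => lnk1 e lb v w) t)) R

def itb (e n v : Nat) : Bool :=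
  dj (cj (evb n v) (Nat.beq (kal e v) 0)) (cj (evb n (Nat.sub v 1)) (kgp e (Nat.sub v 1)))

def rch1 (e : Nat) (R : List Nat) (y : Nat) : Bool :=
  cj (dj (ng (Nat.beq (kal e y) 0)) (mem y R)) (dj (ng (kgp e y)) (mem (Nat.succ y) R))

def rch2 (e lb y : Nat) : Bool :=
  cj (Nat.beq (lab lb y) (lab lb (sel (Nat.beq (kal e y) 0) (Nat.succ y) (Nat.succ (kal e y)))))
    (Nat.beq (lab lb (Nat.succ y)) (lab lb (knx e y)))

def rchk (e n lb : Nat) (R : List Nat) : Bool :=
  cj (ndp R) (cj (allL (itb e n) R) (cj (lnk e lb R)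
    (cj (allD (rch1 e R) (Nat.div (Nat.sub n 1) 64))
      (dj (Nat.beq lb 0) (allD (rch2 e lb) (Nat.div (Nat.sub n 1) 64))))))

def gaps (R : List Nat) : List Nat := flt (fun v => ng (Nat.beq (Nat.mod v 64) 0)) R

def brkR (ho : Nat → Nat) (L : List Nat) : Nat → List Bool :=
  List.rec (fun _ => []) (fun p _ ih prev =>
    sel (Nat.beq (ho p) prev) (false :: ih (ho p)) (true :: ih (ho p))) L

/-- a vertex order, the ring, the labels of the holes, the reducing edge and the reducer -/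
structure Cert where
  ord : List Nat
  ring : List Nat
  lb : Nat
  ed : Nat
  cut : Bool

def ssA (e : Nat) (ct : Cert) : List Stp := mkS e (evv e) (fun _ => false) ct.ord 0

def ssE (e : Nat) (ct : Cert) : List Stp :=
  sel ct.cut (mkS e (evc e ct.ed) (isc e ct.ed) ct.ord 0) (ssA e ct)

def omM (e : Nat) (ct : Cert) (m : Nat) : Nat :=
  sel ct.cut m (Nat.lor m (Nat.shiftLeft 1 (evv e ct.ed)))

def wf (e n : Nat) (ct : Cert) : Bool :=
  cj (vchk e n ct.ord 0) (cj (rchk e n ct.lb ct.ring) (cj (fresh (ssA e ct) 0)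
    (cj (evb n ct.ed) (cj (ng (Nat.beq (kal e ct.ed) 0)) (dj ct.cut (kN e ct.ed))))))

def tgt (ct : Cert) (m : Nat) : List Nat := flo m ct.ring

def brs (ct : Cert) (m : Nat) : List Bool := brkR (lab ct.lb) (tgt ct m) 0

/-- a configuration with its certificate -/
structure Cf where
  e : Nat
  n : Nat
  ct : Cert
  gs : List Nat

def unp (x : Nat) : List Nat :=
  Nat.rec (motive := fun _ => Nat → List Nat) (fun _ => []) (fun _ ih y => sel (Nat.beq y 0) []
    (frc (Nat.land y 65535) fun a => a :: frc (Nat.shiftRight y 16) ih)) 99 x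

def cf (e n o r lb ed : Nat) (cut : Bool) (gs : List Nat) : Cf :=
  ⟨e, n, ⟨unp o, unp r, lb, ed, cut⟩, gs⟩

/-- a variant of a configuration and the places of its variables -/
structure Ln where
  c : Cf
  m : Nat
  dm : Nat

def stB (l : Ln) : St := run false l.dm l.m (ssA l.c.e l.c.ct) ⟨0, 0, 0⟩

def stC (l : Ln) : St :=
  frc (omM l.c.e l.c.ct l.m) fun m => run true l.dm m (ssE l.c.e l.c.ct) ⟨0, 0, 1⟩

def tgc (dm : Nat) (l : List Nat) : Bool :=
  List.rec true (fun a t ih => cj (Nat.beq (dgm dm a) (Nat.succ (len t))) ih) l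

def tgm (dm : Nat) (l : List Nat) : Nat := List.rec 0 (fun v _ ih => Nat.lor (bv dm v) ih) l

def leq (l : List Nat) : List Nat → Bool :=
  List.rec (fun m => List.rec true (fun _ _ _ => false) m)
    (fun a _ ih m => List.rec false (fun b t _ => cj (Nat.beq a b) (ih t)) m) l

def lbq (l : List Bool) : List Bool → Bool :=
  List.rec (fun m => List.rec true (fun _ _ _ => false) m)
    (fun a _ ih m => List.rec false (fun b t _ => cj (sel a b (ng b)) (ih t)) m) l

def ln1 (bs : List Bool) (l : Ln) (tg : List Nat) : Bool :=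
  cj (List.rec false (fun v t _ => cj (Nat.beq (dgm l.dm v) 0) (tgc l.dm t)) tg)
    (cj (Nat.beq (stB l).1 (tgm l.dm tg)) (cj (Nat.beq (stC l).1 (tgm l.dm tg))
      (List.rec false (fun _ t _ => lbq t bs) (brs l.c.ct l.m))))

def lnOK (bs : List Bool) (l : Ln) : Bool :=
  cj (ln1 bs l (tgt l.c.ct l.m))
    (dj (ng (Nat.beq l.m 0)) (cj (leq (gaps l.c.ct.ring) l.c.gs) (wf l.c.e l.c.n l.c.ct)))

def cats (f : Ln → St) (p v : Nat) (ls : List Ln) : Nat :=
  List.rec 0 (fun l _ ih => cat (Nat.land (ones v) (rsz (f l).2 p (f l).3)) v ih) ls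

def cts (f : Ln → St) (bs : List Bool) (ls : List Ln) : Nat :=
  frc (len bs) fun p => frc (Nat.pow 3 p) fun v => cats f p v ls

/-- the check of several variants with the same ring -/
def batch (bs : List Bool) (b : Bool) (ls : List Ln) : Bool :=
  cj (allL (lnOK bs) ls) (frc (len ls) fun K => lp2 K bs (cts stC bs ls) 200 b (cts stB bs ls))

/-- first part of a long check -/
def ck0 (bs : List Bool) (b : Bool) (ls : List Ln) (k : Nat) (Y : Bg) : Bool :=
  frc (len ls) fun K => sub (itr K bs k b (cts stB bs ls)) Y.val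

/-- middle part of a long check -/
def ck1 (bs : List Bool) (b : Bool) (K k : Nat) (X Y : Bg) : Bool := sub (itr K bs k b X.val) Y.val

/-- last part of a long check -/
def ck2 (bs : List Bool) (b : Bool) (ls : List Ln) (X : Bg) : Bool :=
  cj (allL (lnOK bs) ls) (frc (len ls) fun K => lp2 K bs (cts stC bs ls) 200 b X.val)

end

end Pool.Agent.Lib.G6.B
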