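import Pool.Agent.Lib.G6.BStack
import Pool.Agent.Lib.G6.BCover

set_option autoImplicit false

namespace Pool.Agent.Lib.G6.B

open Equiv Pool.Agent.Lib.MP_bfaad3_co Classical

variable {D : Type} [Fintype D]

/-- sum over the darts of one ring position -/
noncomputable def ps {A : Type} [AddCommMonoid A] (pos : D → Option ℕ) (u : D → A) (i : ℕ) : A :=
  ∑ d ∈ Finset.univ.filter (fun d => pos d = some i), u d

/-- a connected piece of a plane map with its ring -/
structure Rg (σ α : Perm D) (I out : D → Prop) (pos : D → Option ℕ) (r : ℕ) (ho : ℕ → ℕ) :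
    Prop where
  inv : ∀ d, α (α d) = d
  fpf : ∀ d, α d ≠ d
  gen : Gen0 σ α
  Ia : ∀ d, I (α d) ↔ I d
  os : ∀ d, out (σ d) ↔ out d
  oI : ∀ d, I d → ¬ out d
  pn : ∀ d, pos d = none ↔ out d ∨ I d
  lt : ∀ d i, pos d = some i → i < r
  mono : ∀ i j, i ≤ j → j < r → ho i ≤ ho j
  pot : ∀ f u : D → ZMod 2, (∀ d, ¬ I d → f (σ d) = f d + u d) →
    (∀ d, I d → f (σ (α d)) = f d) →
    ∃ F : ℕ → ZMod 2, (∀ i, i + 1 < r → ho (i + 1) = ho i → F (i + 1) = F i + ps pos u i) ∧
      ∀ d i, pos d = some i → (∀ e, pos e = some i → u e = 0) → f d = F i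
  con : ∀ f : D → ZMod 2, (∀ d, f (σ d) = f d) → (∀ d, I d → f (α d) = f d) →
    ∀ d e, ¬ out d → ¬ out e → f d = f e
  lab : ∃ hl : D → ℕ, (∀ d, ¬ out d → ¬ I d → hl (σ d) = hl d) ∧
    (∀ d, I d → hl (σ (α d)) = hl d) ∧ ∀ d i, pos d = some i → hl d = ho i

/-- a colouring of the outside -/
structure OC (σ α : Perm D) (N : Set D) (I out : D → Prop) (c : D → K4) : Prop where
  sym : ∀ d, ¬ I d → c (α d) = c d
  nz : ∀ d, ¬ I d → c d ≠ 0
  vx : ∀ d, out d → (vsum σ c d = 0 ↔ d ∉ N)

/-- digit of a colour -/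
def dg (k : K4) : Option Bool :=
  if k = (1, 0) then some false else if k = (0, 1) then some true else none

/-- parity of a colour -/
def ep : K4 →+ ZMod 2 where
  toFun k := k.1 + k.2
  map_zero' := by decide
  map_add' := by decide

/-- multiples of the colour that is not switched -/
def dl : ZMod 2 →+ K4 where
  toFun t := (t, t)
  map_zero' := by decide
  map_add' := by decide

/-- cyclic change of the colours -/
def ro : K4 →+ K4 where
  toFun k := (k.2, k.1 + k.2)
  map_zero' := by decide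
  map_add' := by decide

theorem vsum_eq (σ : Perm D) (c : D → K4) (d : D) :
    vsum σ c d = ∑ e ∈ Finset.univ.filter (fun e => σ.SameCycle d e), c e :=
  (cyc_sum σ c d).symm

theorem vsum_congr {σ : Perm D} (c : D → K4) {d e : D} (h : σ.SameCycle d e) :
    vsum σ c d = vsum σ c e := by
  rw [vsum_eq, vsum_eq]
  exact Finset.sum_congr (Finset.filter_congr fun x _ =>
    ⟨fun k => h.symm.trans k, fun k => h.trans k⟩) fun _ _ => rfl

/-- indicator -/
noncomputable def ind (p : Prop) : ZMod 2 := if p then 1 else 0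

theorem ind_pos {p : Prop} (h : p) : ind p = 1 := if_pos h

theorem ind_neg {p : Prop} (h : ¬ p) : ind p = 0 := if_neg h

theorem ind_congr {p q : Prop} (h : p ↔ q) : ind p = ind q := by rw [propext h]

theorem sum_ind (u : D → ZMod 2) (p : D → Prop) [DecidablePred p] :
    ∑ x ∈ Finset.univ.filter p, u x = ∑ x, u x * ind (p x) := by
  rw [Finset.sum_filter]
  refine Finset.sum_congr rfl fun x _ => ?_
  unfold ind
  split_ifs <;> simp

theorem z2_add_self (x : ZMod 2) : x + x = 0 := by revert x; decide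

theorem z2_one {x : ZMod 2} (h : x ≠ 0) : x = 1 := by revert x; decide

/-- connection through blocks and switched edges -/
def cn (σ α : Perm D) (I out : D → Prop) (pos : D → Option ℕ) (c : D → K4) : Setoid D :=
  Relation.EqvGen.setoid fun d e => (out d ∧ e = σ d) ∨ (pos d ≠ none ∧ pos e = pos d) ∨
    (¬ I d ∧ ep (c d) = 1 ∧ e = α d)

section
variable {σ α : Perm D} {N : Set D} {I out : D → Prop} {pos : D → Option ℕ} {r : ℕ} {ho : ℕ → ℕ}
  {c : D → K4}

omit [Fintype D] in
theorem cn_le {s : Setoid D} (h1 : ∀ d, out d → s d (σ d))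
    (h2 : ∀ d e, pos d ≠ none → pos e = pos d → s d e)
    (h3 : ∀ d, ¬ I d → ep (c d) = 1 → s d (α d)) {d e : D} (h : cn σ α I out pos c d e) :
    s d e := by
  induction h with
  | rel x y h =>
    rcases h with ⟨h, rfl⟩ | ⟨h, h'⟩ | ⟨h, h', rfl⟩
    · exact h1 x h
    · exact h2 x y h h'
    · exact h3 x h h'
  | refl x => exact s.refl' x
  | symm x y _ ih => exact s.symm' ih
  | trans x y z _ _ ih1 ih2 => exact s.trans' ih1 ih2

omit [Fintype D] in
theorem cn_s {d : D} (h : out d) : cn σ α I out pos c d (σ d) :=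
  Relation.EqvGen.rel _ _ (Or.inl ⟨h, rfl⟩)

omit [Fintype D] in
theorem cn_p {d e : D} {i : ℕ} (h : pos d = some i) (h' : pos e = some i) :
    cn σ α I out pos c d e :=
  Relation.EqvGen.rel _ _ (Or.inr (Or.inl ⟨by rw [h]; exact Option.some_ne_none i, h'.trans h.symm⟩))

omit [Fintype D] in
theorem cn_a {d : D} (h : ¬ I d) (h' : ep (c d) = 1) : cn σ α I out pos c d (α d) :=
  Relation.EqvGen.rel _ _ (Or.inr (Or.inr ⟨h, h', rfl⟩))

theorem Rg.out_sc (R : Rg σ α I out pos r ho) {d e : D} (h : σ.SameCycle d e) :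
    out d ↔ out e :=
  propext_iff.1 (perm_sc_le (s := Setoid.ker out) (fun w => propext (R.os w).symm) h)

theorem Rg.pos_out (R : Rg σ α I out pos r ho) {d : D} {i : ℕ} (h : pos d = some i) :
    ¬ out d ∧ ¬ I d := by
  rw [← not_or, ← R.pn, h]
  exact Option.some_ne_none i

theorem Rg.cn_sc (R : Rg σ α I out pos r ho) {d e : D} (hd : out d) (h : σ.SameCycle d e) :
    cn σ α I out pos c d e := by
  obtain ⟨n, rfl⟩ := h.exists_nat_pow_eq
  clear h
  induction n with
  | zero => exact (cn σ α I out pos c).refl' d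
  | succ n ih =>
    rw [perm_pow_step]
    exact (cn σ α I out pos c).trans' ih (cn_s ((R.out_sc ⟨n, by simp⟩).1 hd))

/-- a set of switched edges -/
structure Adm (α : Perm D) (I : D → Prop) (c : D → K4) (u : D → ZMod 2) : Prop where
  sym : ∀ x, u (α x) = u x
  sup : ∀ x, u x ≠ 0 → ¬ I x ∧ ep (c x) = 1

theorem path (R : Rg σ α I out pos r ho) (hc : OC σ α N I out c) {d e : D}
    (h : cn σ α I out pos c d e) : ∃ u, Adm α I c u ∧ (∀ x, u x ≠ 0 → cn σ α I out pos c d x) ∧
      ∀ φ : D → ZMod 2, (∀ x, out x → φ (σ x) = φ x) →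
        (∀ x y, pos x ≠ none → pos y = pos x → φ x = φ y) → ∑ x, u x * φ x = φ d + φ e := by
  let r0 := cn σ α I out pos c
  have z : ∀ d e, r0 d e → (∀ φ : D → ZMod 2, (∀ x, out x → φ (σ x) = φ x) →
      (∀ x y, pos x ≠ none → pos y = pos x → φ x = φ y) → φ d = φ e) →
      r0 d e ∧ ∃ u, Adm α I c u ∧ (∀ x, u x ≠ 0 → r0 d x) ∧
      ∀ φ : D → ZMod 2, (∀ x, out x → φ (σ x) = φ x) →
        (∀ x y, pos x ≠ none → pos y = pos x → φ x = φ y) → ∑ x, u x * φ x = φ d + φ e :=
    fun d e h1 h2 => ⟨h1, 0, ⟨fun _ => rfl, fun _ h => absurd rfl h⟩, fun _ h => absurd rfl h,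
      fun φ k1 k2 => by rw [h2 φ k1 k2, z2_add_self]; simp⟩
  let s : Setoid D := ⟨fun d e => r0 d e ∧ ∃ u, Adm α I c u ∧ (∀ x, u x ≠ 0 → r0 d x) ∧
      ∀ φ : D → ZMod 2, (∀ x, out x → φ (σ x) = φ x) →
        (∀ x y, pos x ≠ none → pos y = pos x → φ x = φ y) → ∑ x, u x * φ x = φ d + φ e,
    ⟨fun d => z d d (r0.refl' d) fun _ _ _ => rfl,
      fun ⟨h0, u, h1, h2, h3⟩ => ⟨r0.symm' h0, u, h1, fun x hx => r0.trans' (r0.symm' h0) (h2 x hx),
        fun φ k1 k2 => by rw [h3 φ k1 k2, add_comm]⟩,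
      fun {x y w} ⟨h0, u, h1, h2, h3⟩ ⟨g0, v, g1, g2, g3⟩ => ⟨r0.trans' h0 g0, u + v,
        ⟨fun a => by rw [Pi.add_apply, Pi.add_apply, h1.sym, g1.sym], fun a ha => by
          by_cases hu : u a = 0
          · exact g1.sup a (by rwa [Pi.add_apply, hu, zero_add] at ha)
          · exact h1.sup a hu⟩,
        fun a ha => by
          by_cases hu : u a = 0
          · exact r0.trans' h0 (g2 a (by rwa [Pi.add_apply, hu, zero_add] at ha))
          · exact h2 a hu,
        fun φ k1 k2 => by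
          simp only [Pi.add_apply, add_mul, Finset.sum_add_distrib]
          rw [h3 φ k1 k2, g3 φ k1 k2, add_assoc, ← add_assoc (φ y), z2_add_self, zero_add]⟩⟩⟩
  refine (cn_le (s := s) (fun d hd => z _ _ (cn_s hd) fun φ k _ => (k d hd).symm)
    (fun d e h1 h2 => z _ _ (Relation.EqvGen.rel _ _ (Or.inr (Or.inl ⟨h1, h2⟩)))
      fun φ _ k => k d e h1 h2) (fun d h1 h2 => ⟨cn_a h1 h2,
        fun x => ind (x = d) + ind (x = α d), ⟨fun x => ?_, fun x hx => ?_⟩, fun x hx => ?_,
        fun φ _ _ => ?_⟩) h).2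
  · rw [add_comm, ind_congr α.apply_eq_iff_eq,
      ind_congr (p := α x = d) (q := x = α d) ⟨fun k => by rw [← k, R.inv], fun k => by rw [k, R.inv]⟩]
  · by_cases k : x = d
    · rw [k]; exact ⟨h1, h2⟩
    · by_cases k' : x = α d
      · rw [k', R.Ia, hc.sym d h1]; exact ⟨h1, h2⟩
      · simp only [ind_neg k, ind_neg k', add_zero, ne_eq, not_true_eq_false] at hx
  · by_cases k : x = d
    · rw [k]
    · by_cases k' : x = α d
      · rw [k']; exact cn_a h1 h2
      · simp only [ind_neg k, ind_neg k', add_zero, ne_eq, not_true_eq_false] at hx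
  · simp [add_mul, Finset.sum_add_distrib, ind]

theorem Rg.sep (R : Rg σ α I out pos r ho) (η : ℕ) : ∃ (G : D → ZMod 2) (k : ZMod 2),
    (∀ d, G (α d) = G d) ∧ (∀ d, out d → G (σ d) = G d) ∧
      ∀ d i, pos d = some i → G d = k + ind (ho i = η) := by
  obtain ⟨hl, l1, l2, l3⟩ := R.lab
  let Q : D → ZMod 2 := fun d => ind (¬ out d ∧ ¬ I d ∧ hl d = η)
  obtain ⟨f, f1, f2⟩ := cover σ α R.gen 0 (fun d => Q d + Q (α d)) ⟨0, fun _ => by simp⟩
    ⟨Q, fun d => by rw [← add_assoc, z2_add_self, zero_add]⟩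
    ⟨fun d => ind (¬ out d ∧ hl d = η), fun d => by
      simp only [Q, Pi.zero_apply, add_zero]
      by_cases hd : I d
      · rw [ind_neg (p := ¬ out d ∧ ¬ I d ∧ hl d = η) fun k => k.2.1 hd,
          ind_neg (p := ¬ out (α d) ∧ ¬ I (α d) ∧ hl (α d) = η) fun k => k.2.1 ((R.Ia d).2 hd),
          add_zero, add_zero, l2 d hd, R.os]
        exact ind_congr (and_congr_left fun _ =>
          iff_of_true (R.oI _ ((R.Ia d).2 hd)) (R.oI _ hd))
      · have hd' : ¬ I (α d) := fun k => hd ((R.Ia d).1 k)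
        rw [ind_congr (p := ¬ out d ∧ ¬ I d ∧ hl d = η) (q := ¬ out d ∧ hl d = η) (by simp [hd]),
          ← add_assoc, z2_add_self, zero_add, R.os]
        refine ind_congr (and_congr_right fun k => ?_)
        rw [l1 _ k hd']
        simp [hd']⟩
  simp only [Pi.zero_apply, add_zero] at f1
  have f3 := R.con f f1 fun d hd => by
    rw [f2]
    simp only [Q]
    rw [ind_neg fun k => k.2.1 hd, ind_neg fun k => k.2.1 ((R.Ia d).2 hd), add_zero, add_zero]
  have : ∃ k, ∀ d, ¬ out d → f d = k := by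
    by_cases h : ∃ d, ¬ out d
    · obtain ⟨d, hd⟩ := h
      exact ⟨f d, fun e he => f3 e d he hd⟩
    · exact ⟨0, fun e he => absurd ⟨e, he⟩ h⟩
  obtain ⟨k, hk⟩ := this
  refine ⟨fun d => f d + Q d, k, fun d => ?_, fun d hd => ?_, fun d i hi => ?_⟩
  · simp only
    rw [f2, add_assoc, add_assoc, z2_add_self, add_zero]
  · simp only [Q]
    rw [f1, ind_neg fun k => k.1 ((R.os d).2 hd), ind_neg fun k => k.1 hd]
  · simp only [Q]
    rw [hk d (R.pos_out hi).1, l3 d i hi]
    exact congrArg _ (ind_congr (by simp [R.pos_out hi]))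

theorem hole_eq (R : Rg σ α I out pos r ho) {d e : D} {i j : ℕ} (hi : pos d = some i)
    (hj : pos e = some j) (h : cn σ α I out pos c d e) : ho i = ho j := by
  obtain ⟨G, k, g1, g2, g3⟩ := R.sep (ho i)
  have := cn_le (s := Setoid.ker G) (fun d hd => (g2 d hd).symm) (fun x y h1 h2 => by
    obtain ⟨a, ha⟩ := Option.ne_none_iff_exists'.1 h1
    exact (g3 x a ha).trans (g3 y a (h2.trans ha)).symm) (fun d _ _ => (g1 d).symm) h
  have h2 : G d = G e := this
  rw [g3 d i hi, g3 e j hj, ind_pos rfl] at h2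
  by_contra hc
  rw [ind_neg fun k => hc k.symm] at h2
  exact absurd (add_left_cancel h2) (by decide)

theorem tele (R : Rg σ α I out pos r ho) {F w : ℕ → ZMod 2}
    (hF : ∀ i, i + 1 < r → ho (i + 1) = ho i → F (i + 1) = F i + w i) {j l : ℕ} (hjl : j ≤ l)
    (hl : l < r) (hh : ho l = ho j) : F l = F j + ∑ m ∈ Finset.Ico j l, w m := by
  induction l, hjl using Nat.le_induction with
  | base => simp
  | succ l hjl ih =>
    have h1 := R.mono j l hjl (by omega)
    have h2 := R.mono l (l + 1) (by omega) hl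
    rw [hF l hl (by omega), ih (by omega) (by omega), Finset.sum_Ico_succ_top hjl, add_assoc]

theorem pot_inv (a : Perm D) (ha : ∀ d, a (a d) = d) (u : D → ZMod 2) (h1 : ∀ d, u (a d) = u d)
    (h2 : ∀ d, a d = d → u d = 0) : ∃ g : D → ZMod 2, ∀ d, g (a d) = g d + u d := by
  obtain ⟨o, ho⟩ := exists_injective_nat D
  refine ⟨fun d => if o d < o (a d) then 0 else u d, fun d => ?_⟩
  simp only [ha, h1]
  rcases lt_trichotomy (o d) (o (a d)) with k | k | k
  · rw [if_neg (by omega), if_pos k, zero_add]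
  · rw [h2 d (ho k).symm]; simp
  · rw [if_pos k, if_neg (by omega), z2_add_self]

theorem no_cross (R : Rg σ α I out pos r ho) (hc : OC σ α N I out c) {a b x y : D} {i j k l : ℕ}
    (hi : pos a = some i) (hj : pos x = some j) (hk : pos b = some k) (hl : pos y = some l)
    (ij : i < j) (jk : j < k) (kl : k < l) (lr : l < r) (h1 : cn σ α I out pos c a b)
    (h2 : cn σ α I out pos c x y) : cn σ α I out pos c a x := by
  by_contra hn
  let r0 := cn σ α I out pos c
  obtain ⟨u, ua, us, uφ⟩ := path R hc h1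
  have hI : ∀ d, d ∈ {d | I d} ↔ α d ∈ {d | I d} := fun d => (R.Ia d).symm
  have hI' : ∀ d, d ∈ {d | I d}ᶜ ↔ α d ∈ {d | I d}ᶜ := fun d => not_congr (R.Ia d).symm
  have g0 := gen0_cut σ α R.inv R.gen {d | I d} hI hI'
  have s1 : ∀ d, ¬ I d → (σ * restr α R.inv {d | I d} hI) d = σ d := fun d hd => by
    rw [Perm.mul_apply, perm_restr_not _ _ {d | I d} _ hd]
  have s2 : ∀ d, I d → (σ * restr α R.inv {d | I d} hI) d = σ (α d) := fun d hd => by
    rw [Perm.mul_apply, perm_restr_mem _ _ {d | I d} _ hd]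
  have a1 : ∀ d, ¬ I d → restr α R.inv {d | I d}ᶜ hI' d = α d := fun d hd =>
    perm_restr_mem _ _ _ _ hd
  have a2 : ∀ d, I d → restr α R.inv {d | I d}ᶜ hI' d = d := fun d hd =>
    perm_restr_not _ _ _ _ (not_not.2 hd)
  generalize σ * restr α R.inv {d | I d} hI = s at *
  generalize restr α R.inv {d | I d}ᶜ hI' = t at *
  have uI : ∀ d, I d → u d = 0 := fun d hd => by
    by_contra h
    exact (ua.sup d h).1 hd
  have ut : ∀ d, u (t d) = u d := fun d => by
    by_cases hd : I d
    · rw [a2 d hd]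
    · rw [a1 d hd, ua.sym]
  have hik := hole_eq R hi hk h1
  obtain ⟨f, f1, f2⟩ := cover s t g0 u u (pot_of_sum s u fun z => by
      have p0 : ∀ d, ind (s.SameCycle z (s d)) = ind (s.SameCycle z d) := fun d =>
        ind_congr Perm.sameCycle_apply_right
      obtain ⟨F, F1, F2⟩ := R.pot (fun d => ind (s.SameCycle z d)) 0
        (fun d hd => by rw [← s1 d hd, p0]; simp) (fun d hd => by rw [← s2 d hd, p0])
      rw [sum_ind, uφ _ (fun d hd => by rw [← s1 d fun k => R.oI d k hd, p0]) (fun d e k1 k2 => by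
          obtain ⟨m, hm⟩ := Option.ne_none_iff_exists'.1 k1
          exact (F2 d m hm fun _ _ => rfl).trans (F2 e m (k2.trans hm) fun _ _ => rfl).symm),
        F2 a i hi fun _ _ => rfl, F2 b k hk fun _ _ => rfl,
        tele R F1 (j := i) (l := k) (by omega) (by omega) hik.symm]
      simp [ps, z2_add_self])
    (pot_inv t (fun d => by
      by_cases hd : I d
      · rw [a2 d hd, a2 d hd]
      · rw [a1 d hd, a1 _ fun k => hd ((R.Ia d).1 k), R.inv]) u ut fun d h => by
        by_cases hd : I d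
        · exact uI d hd
        · rw [a1 d hd] at h
          exact absurd h (R.fpf d))
    ⟨fun _ => 0, fun d => by rw [ut, z2_add_self, add_zero]⟩
  obtain ⟨F, F1, F2⟩ := R.pot f u (fun d hd => by rw [← s1 d hd, f1])
    (fun d hd => by rw [← s2 d hd, f1, uI d hd, add_zero])
  have u0 : ∀ d, r0 x d → u d = 0 := fun d hd => by
    by_contra h
    exact hn (r0.trans' (us d h) (r0.symm' hd))
  have F3 : ∀ d m, pos d = some m → r0 x d → f d = F m := fun d m hm hd =>
    F2 d m hm fun e he => u0 e (r0.trans' hd (cn_p hm he))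
  let S : Setoid D := ⟨fun d e => r0 d e ∧ (r0 x d → f d = f e),
    ⟨fun d => ⟨r0.refl' d, fun _ => rfl⟩,
      fun h => ⟨r0.symm' h.1, fun k => (h.2 (r0.trans' k (r0.symm' h.1))).symm⟩,
      fun h g => ⟨r0.trans' h.1 g.1, fun k => (h.2 k).trans (g.2 (r0.trans' k h.1))⟩⟩⟩
  have fxy : f x = f y := (cn_le (s := S)
    (fun d hd => ⟨cn_s hd, fun k => by
      rw [← s1 d fun k => R.oI d k hd, f1, u0 d k, add_zero]⟩)
    (fun d e k1 k2 => by
      obtain ⟨m, hm⟩ := Option.ne_none_iff_exists'.1 k1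
      exact ⟨cn_p hm (k2.trans hm), fun k => (F3 d m hm k).trans
        (F3 e m (k2.trans hm) (r0.trans' k (cn_p hm (k2.trans hm)))).symm⟩)
    (fun d k1 k2 => ⟨cn_a k1 k2, fun k => by rw [← a1 d k1, f2, u0 d k, add_zero]⟩) h2).2
      (r0.refl' x)
  have w1 : ∀ m, ps pos u m = ind (i = m) + ind (k = m) := fun m => by
    unfold ps
    rw [sum_ind, uφ _ (fun d hd => by
        rw [(R.pn d).2 (Or.inl hd), (R.pn _).2 (Or.inl ((R.os d).2 hd))])
      (fun d e _ k2 => by rw [k2]), hi, hk]
    simp only [Option.some.injEq]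
  rw [F3 x j hj (r0.refl' x), F3 y l hl h2,
    tele R F1 (j := j) (l := l) (by omega) lr (hole_eq R hj hl h2).symm] at fxy
  have w2 : ∑ m ∈ Finset.Ico j l, ps pos u m = 1 := by
    rw [Finset.sum_eq_single k (fun m hm hmk => by
      have := Finset.mem_Ico.1 hm
      rw [w1, ind_neg (by omega), ind_neg (by omega), add_zero])
      (fun hm => absurd (Finset.mem_Ico.2 ⟨by omega, kl⟩) hm), w1, ind_neg (by omega),
      ind_pos rfl, zero_add]
  rw [w2] at fxy
  exact absurd (add_eq_left.1 fxy.symm) (by decide)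

theorem dg_ne (k : K4) : dg k ≠ none ↔ ep k = 1 := by revert k; decide

theorem parity (R : Rg σ α I out pos r ho) (hc : OC σ α N I out c) {a : D}
    (hf : ¬ ∃ b, out b ∧ ep (vsum σ c b) = 1 ∧ cn σ α I out pos c a b) :
    ∑ i ∈ Finset.range r,
      ind (dg (ps pos c i) ≠ none ∧ ∃ b, pos b = some i ∧ cn σ α I out pos c a b) = 0 := by
  let r0 := cn σ α I out pos c
  let v : D → ZMod 2 := fun d => ind (r0 a d ∧ ¬ I d) * ep (c d)
  have h1 : ∑ d, v d = 0 := by
    refine Finset.sum_involution (fun d _ => α d) (fun d _ => ?_) (fun d _ _ => R.fpf d)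
      (fun d _ => Finset.mem_univ _) (fun d _ => R.inv d)
    simp only [v]
    by_cases hd : I d
    · rw [ind_neg fun k => k.2 hd, ind_neg fun k => k.2 ((R.Ia d).2 hd)]; simp
    · rw [hc.sym d hd]
      by_cases he : ep (c d) = 0
      · rw [he]; simp
      · rw [ind_congr (p := r0 a (α d) ∧ ¬ I (α d)) (q := r0 a d ∧ ¬ I d) (and_congr
          ⟨fun k => r0.trans' k (r0.symm' (cn_a hd (z2_one he))),
            fun k => r0.trans' k (cn_a hd (z2_one he))⟩ (not_congr (R.Ia d))), z2_add_self]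
  have h2 : ∑ d, ind (out d) * v d = 0 := by
    obtain ⟨g, hg⟩ := pot_of_sum σ (fun d => ind (out d) * v d) fun z => by
      by_cases hz : out z ∧ r0 a z
      · have e0 : ep (vsum σ c z) = 0 := by
          by_contra k
          exact hf ⟨z, hz.1, z2_one k, hz.2⟩
        rw [vsum_eq, map_sum] at e0
        refine Eq.trans (Finset.sum_congr rfl fun d hd => ?_) e0
        have k := (Finset.mem_filter.1 hd).2
        have k1 := (R.out_sc k).1 hz.1
        simp only [v]
        rw [ind_pos k1, ind_pos ⟨r0.trans' hz.2 (R.cn_sc hz.1 k), fun k2 => R.oI d k2 k1⟩,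
          one_mul, one_mul]
      · refine Finset.sum_eq_zero fun d hd => ?_
        have k := (Finset.mem_filter.1 hd).2
        simp only [v]
        by_cases k1 : out d
        · rw [ind_neg (p := r0 a d ∧ ¬ I d) fun k2 =>
            hz ⟨(R.out_sc k).2 k1, r0.trans' k2.1 (R.cn_sc k1 k.symm)⟩, zero_mul, mul_zero]
        · rw [ind_neg k1, zero_mul]
    have := Equiv.sum_comp σ g
    simp only [hg, Finset.sum_add_distrib] at this
    exact add_eq_left.1 this
  have h3 : ∑ d, v d = ∑ d, ind (out d) * v d + ∑ i ∈ Finset.range r, ps pos v i := by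
    simp only [ps, Finset.sum_filter]
    rw [Finset.sum_comm, ← Finset.sum_add_distrib]
    refine Finset.sum_congr rfl fun d _ => ?_
    cases hp : pos d with
    | none =>
      rw [Finset.sum_eq_zero fun i _ => if_neg (by simp), add_zero]
      rcases (R.pn d).1 hp with k | k
      · rw [ind_pos k, one_mul]
      · simp only [v]
        rw [ind_neg (p := r0 a d ∧ ¬ I d) fun k2 => k2.2 k, zero_mul, mul_zero]
    | some i =>
      rw [ind_neg (R.pos_out hp).1, zero_mul, zero_add, Finset.sum_eq_single i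
        (fun m _ hm => if_neg fun k => hm (Option.some.inj k).symm)
        (fun hm => absurd (Finset.mem_range.2 (R.lt d i hp)) hm), if_pos rfl]
  rw [h1, h2, zero_add] at h3
  refine Eq.trans (Finset.sum_congr rfl fun i _ => ?_) h3.symm
  by_cases hb : ∃ b, pos b = some i ∧ r0 a b
  · obtain ⟨b, b1, b2⟩ := hb
    have : ps pos v i = ep (ps pos c i) := by
      unfold ps
      rw [map_sum]
      refine Finset.sum_congr rfl fun d hd => ?_
      have k := (Finset.mem_filter.1 hd).2
      simp only [v]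
      rw [ind_pos ⟨r0.trans' b2 (cn_p b1 k), (R.pos_out k).2⟩, one_mul]
    rw [this]
    by_cases he : ep (ps pos c i) = 0
    · rw [he, ind_neg fun k => absurd (he.symm.trans ((dg_ne _).1 k.1)) (by decide)]
    · rw [z2_one he, ind_pos ⟨(dg_ne _).2 (z2_one he), b, b1, b2⟩]
  · rw [ind_neg fun k => hb k.2]
    refine (Finset.sum_eq_zero fun d hd => ?_).symm
    simp only [v]
    rw [ind_neg fun k => hb ⟨d, (Finset.mem_filter.1 hd).2, k.1⟩, zero_mul]

end

/-- ring patterns of the colourings of the outside that vanish exactly off `L` -/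
def PP (σ α : Perm D) (N : Set D) (I out : D → Prop) (pos : D → Option ℕ) (r : ℕ) (L : List ℕ)
    (t : List (Option Bool)) : Prop :=
  ∃ c, OC σ α N I out c ∧ (∀ i < r, ps pos c i ≠ 0 ↔ i ∈ L) ∧ t = L.map fun i => dg (ps pos c i)

theorem kempe {σ α : Perm D} {N : Set D} {I out : D → Prop} {pos : D → Option ℕ} {r : ℕ}
    {ho : ℕ → ℕ} (R : Rg σ α I out pos r ho) {L : List ℕ} (h1 : L.Pairwise (· < ·))
    (h2 : ∀ l ∈ L, l < r) (prev : ℕ) : Closed (brk ho prev L) (PP σ α N I out pos r L) := by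
  constructor
  · rintro t ⟨c, hc, hL, rfl⟩
    have k0 : ∀ k : K4, ro k = 0 ↔ k = 0 := by decide
    have k1 : ∀ i, ps pos (fun d => ro (c d)) i = ro (ps pos c i) := fun i => by
      unfold ps
      rw [map_sum]
    refine ⟨fun d => ro (c d), ⟨fun d hd => by rw [hc.sym d hd],
      fun d hd => fun k => hc.nz d hd ((k0 _).1 k), fun d hd => ?_⟩, fun i hi => ?_, ?_⟩
    · rw [← hc.vx d hd, ← k0 (vsum σ c d)]
      unfold vsum
      rw [map_sum]
    · rw [k1, ← hL i hi]
      exact not_congr (k0 _)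
    · rw [List.map_map]
      refine List.map_congr_left fun i hi => ?_
      rw [k1]
      exact (by decide : ∀ k : K4, k ≠ 0 → rho (dg k) = dg (ro k)) _ ((hL i (h2 i hi)).2 hi)
  · rintro t ⟨c, hc, hL, rfl⟩
    let r0 := cn σ α I out pos c
    let Y : (ℕ → ZMod 2) → Prop := fun w => ∃ u, Adm α I c u ∧
      (∀ d, out d → ∑ x, u x * ind (σ.SameCycle d x) = 0 ∨ ep (vsum σ c d) = 1) ∧
      (∀ i, w i = ps pos u i) ∧ ∀ i, w i ≠ 0 → dg (ps pos c i) ≠ none
    have ex : ∀ i, dg (ps pos c i) ≠ none → ∃ a, pos a = some i := fun i hi => by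
      by_contra hn
      refine hi ?_
      unfold ps
      rw [Finset.sum_eq_zero fun d hd => absurd ⟨d, (Finset.mem_filter.1 hd).2⟩ hn]
      decide
    have add : ∀ w a b (w' : ℕ → ZMod 2), Y w → r0 a b → ¬ out a →
        (out b → ep (vsum σ c b) = 1) →
        (∀ m, w' m = w m + (ind (pos a = some m) + ind (pos b = some m))) →
        (∀ m, pos a = some m ∨ pos b = some m → dg (ps pos c m) ≠ none) → Y w' := by
      rintro w a b w' ⟨u, u1, u2, u3, u4⟩ hab ha hb hw hm
      obtain ⟨v, v1, -, v3⟩ := path R hc hab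
      refine ⟨u + v, ⟨fun x => by rw [Pi.add_apply, Pi.add_apply, u1.sym, v1.sym], fun x hx => by
        by_cases hu : u x = 0
        · exact v1.sup x (by rwa [Pi.add_apply, hu, zero_add] at hx)
        · exact u1.sup x hu⟩, fun d hd => ?_, fun i => ?_, fun i hi => ?_⟩
      · by_cases k : σ.SameCycle d b
        · exact Or.inr (by rw [vsum_congr c k]; exact hb ((R.out_sc k).1 hd))
        · refine (u2 d hd).imp_left fun k0 => ?_
          simp only [Pi.add_apply, add_mul, Finset.sum_add_distrib]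
          rw [k0, v3 _ (fun x _ => ind_congr Perm.sameCycle_apply_right) (fun x y k1 k2 => by
            obtain ⟨m, hm⟩ := Option.ne_none_iff_exists'.1 k1
            rw [ind_neg fun k => (R.pos_out hm).1 ((R.out_sc k).1 hd),
              ind_neg fun k => (R.pos_out (k2.trans hm)).1 ((R.out_sc k).1 hd)]),
            ind_neg fun k => ha ((R.out_sc k).1 hd), ind_neg k]
          simp
      · rw [hw, u3]
        unfold ps
        simp only [Pi.add_apply, Finset.sum_add_distrib]
        rw [sum_ind v, v3 _ (fun d hd => by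
          rw [(R.pn d).2 (Or.inl hd), (R.pn _).2 (Or.inl ((R.os d).2 hd))])
          (fun d e _ k2 => by rw [k2])]
      · intro hn
        rw [hw, ind_neg fun k => hm i (Or.inl k) hn,
          ind_neg fun k => hm i (Or.inr k) hn, add_zero, add_zero] at hi
        exact u4 i hi hn
    have sg : ∀ (a : D) (i m : ℕ), pos a = some i →
        (Pi.single i 1 : ℕ → ZMod 2) m = ind (pos a = some m) := fun a i m ha => by
      by_cases k : m = i
      · rw [k, Pi.single_eq_same, ind_pos ha]
      · rw [Pi.single_eq_of_ne k, ind_neg fun k' => k (Option.some.inj (k'.symm.trans ha))]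
    have cls : Cls (fun i => dg (ps pos c i)) ho r
        (fun i j => ∃ a b, pos a = some i ∧ pos b = some j ∧ r0 a b)
        (fun i => ∃ a b, pos a = some i ∧ out b ∧ ep (vsum σ c b) = 1 ∧ r0 a b) Y :=
      { refl := fun i hi => by
          obtain ⟨a, ha⟩ := ex i hi
          exact ⟨a, a, ha, ha, r0.refl' a⟩
        symm := fun i j ⟨a, b, k1, k2, k3⟩ => ⟨b, a, k2, k1, r0.symm' k3⟩
        trans := fun i j k ⟨a, b, k1, k2, k3⟩ ⟨x, y, g1, g2, g3⟩ =>
          ⟨a, y, k1, g2, r0.trans' k3 (r0.trans' (cn_p k2 g1) g3)⟩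
        frc := fun i j ⟨a, b, k1, k2, k3⟩ ⟨x, y, g1, g2, g3, g4⟩ =>
          ⟨a, y, k1, g2, g3, r0.trans' k3 (r0.trans' (cn_p k2 g1) g4)⟩
        hole := fun i j ⟨a, b, k1, k2, k3⟩ => hole_eq R k1 k2 k3
        mono := R.mono
        cross := fun i j k l ij jk kl lr ⟨a, b, k1, k2, k3⟩ ⟨x, y, g1, g2, g3⟩ =>
          ⟨a, x, k1, g1, no_cross R hc k1 g1 k2 g2 ij jk kl lr k3 g3⟩
        zero := ⟨0, ⟨fun _ => rfl, fun _ h => absurd rfl h⟩, fun d _ => Or.inl (by simp),
          fun i => by simp [ps], fun _ h => absurd rfl h⟩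
        one := fun w i hw hi ⟨a, b, k1, k2, k3, k4⟩ => by
          have k5 : ∀ m, pos b ≠ some m := fun m k => (R.pos_out k).1 k2
          refine add w a b _ hw k4 (R.pos_out k1).1 (fun _ => k3) (fun m => ?_) fun m hm => ?_
          · rw [Pi.add_apply, sg a i m k1, ind_neg (k5 m), add_zero]
          · rcases hm with hm | hm
            · rwa [← Option.some.inj (k1.symm.trans hm)]
            · exact absurd hm (k5 m)
        two := fun w i j hw hi hj ⟨a, b, k1, k2, k3⟩ => by
          refine add w a b _ hw k3 (R.pos_out k1).1 (fun k => absurd k (R.pos_out k2).1)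
            (fun m => ?_) fun m hm => ?_
          · rw [Pi.add_apply, Pi.add_apply, sg a i m k1, sg b j m k2, add_assoc]
          · rcases hm with hm | hm
            · rwa [← Option.some.inj (k1.symm.trans hm)]
            · rwa [← Option.some.inj (k2.symm.trans hm)] }
    refine surv_aux cls L [] prev _ (fun _ h => absurd h List.not_mem_nil) List.Pairwise.nil
      (fun p hp hf => ?_) h1 h2 ?_
    · obtain ⟨a, ha⟩ := ex p hp
      have hn : L.Nodup := h1.imp fun k => k.ne
      rw [cnt_nil, zero_add, cnt, ← List.sum_toFinset _ hn,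
        Finset.sum_subset (s₂ := Finset.range r)
          (fun i hi => Finset.mem_range.2 (h2 i (List.mem_toFinset.1 hi))) (fun i hi hi' => by
            refine if_neg fun k => hi' (List.mem_toFinset.2 ((hL i (Finset.mem_range.1 hi)).1 ?_))
            intro k0
            exact k.1 (by simp only [k0]; decide))]
      refine Eq.trans (Finset.sum_congr rfl fun i _ => ?_)
        (parity R hc (a := a) fun ⟨b, k1, k2, k3⟩ => hf ⟨a, b, ha, k1, k2, k3⟩)
      refine Eq.trans ?_ (ind_congr (p := dg (ps pos c i) ≠ none ∧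
        ∃ x b, pos x = some p ∧ pos b = some i ∧ r0 x b) (and_congr_right fun _ =>
          ⟨fun ⟨x, b, k1, k2, k3⟩ => ⟨b, k2, r0.trans' (cn_p ha k1) k3⟩,
            fun ⟨b, k1, k2⟩ => ⟨a, b, ha, k1, k2⟩⟩))
      unfold ind
      congr
    · rintro w ⟨u, u1, u2, u3, u4⟩ -
      have k1 : ∀ i, ps pos (fun d => c d + dl (u d)) i = ps pos c i + dl (w i) := fun i => by
        rw [u3]
        unfold ps
        rw [map_sum, Finset.sum_add_distrib]
      refine ⟨fun d => c d + dl (u d), ⟨fun d hd => by rw [hc.sym d hd, u1.sym],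
        fun d hd => ?_, fun d hd => ?_⟩, fun i hi => ?_, List.map_congr_left fun i _ => ?_⟩
      · by_cases k : u d = 0
        · rw [k, map_zero, add_zero]; exact hc.nz d hd
        · exact (by decide : ∀ (k : K4) (t : ZMod 2), ep k = 1 → k + dl t ≠ 0) _ _ (u1.sup d k).2
      · rw [← hc.vx d hd, vsum_eq, Finset.sum_add_distrib, ← map_sum, ← vsum_eq, sum_ind]
        rcases u2 d hd with k | k
        · rw [k, map_zero, add_zero]
        · exact (by decide : ∀ (k : K4) (t : ZMod 2), ep k = 1 → (k + dl t = 0 ↔ k = 0)) _ _ k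
      · rw [k1, ← hL i hi]
        by_cases k : w i = 0
        · rw [k, map_zero, add_zero]
        · exact not_congr ((by decide : ∀ (k : K4) (t : ZMod 2), ep k = 1 →
            (k + dl t = 0 ↔ k = 0)) _ _ ((dg_ne _).1 (u4 i k)))
      · rw [k1]
        exact (by decide : ∀ (k : K4) (t : ZMod 2), fl (dg k) t = dg (k + dl t)) _ _

end Pool.Agent.Lib.G6.B
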