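import Pool.Agent.Lib.G6.BRing

set_option autoImplicit false

namespace Pool.Agent.Lib.G6.B

open Equiv Pool.Agent.Lib.MP_bfaad3_co Classical

theorem leq_eq {l m : List ℕ} (h : leq l m = true) : l = m := by
  induction l generalizing m with
  | nil =>
    cases m with
    | nil => rfl
    | cons b t => exact absurd h Bool.false_ne_true
  | cons a l ih =>
    cases m with
    | nil => exact absurd h Bool.false_ne_true
    | cons b t =>
      obtain ⟨h1, h2⟩ := cj_iff.1 (show cj (Nat.beq a b) (leq l t) = true from h)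
      rw [Nat.eq_of_beq_eq_true h1, ih h2]

theorem lbq_eq {l m : List Bool} (h : lbq l m = true) : l = m := by
  induction l generalizing m with
  | nil =>
    cases m with
    | nil => rfl
    | cons b t => exact absurd h Bool.false_ne_true
  | cons a l ih =>
    cases m with
    | nil => exact absurd h Bool.false_ne_true
    | cons b t =>
      obtain ⟨h1, h2⟩ := cj_iff.1 (show cj (sel a b (ng b)) (lbq l t) = true from h)
      rw [ih h2]
      cases a <;> cases b <;> first | rfl | exact absurd h1 (by decide)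

theorem brkR_len (ho : ℕ → ℕ) (L : List ℕ) : ∀ p, (brkR ho L p).length = L.length := by
  induction L with
  | nil => exact fun _ => rfl
  | cons a L ih =>
    intro p
    have e : brkR ho (a :: L) p = sel (Nat.beq (ho a) p)
      (false :: brkR ho L (ho a)) (true :: brkR ho L (ho a)) := rfl
    rw [e]
    cases Nat.beq (ho a) p <;> exact congrArg Nat.succ (ih _)

/-- ring patterns that do not extend to the configuration -/
def BadT (e : ℕ) (ct : Cert) (m : ℕ) (t : List (Option Bool)) : Prop :=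
  ∃ A, Good (bt m) A ∧ Bad (bt m) (fun v => ∃ s ∈ ssA e ct, v ∈ s.dl)
    (fun A => True ∧ ∀ s ∈ ssA e ct, Sat A s) A ∧ t = (tgt ct m).map fun v => dg (A v)

/-- one variant of the configuration is reducible -/
def VarOK (e : ℕ) (ct : Cert) (m : ℕ) : Prop :=
  fresh (ssA e ct) 0 = true → ∀ P, Closed (brs ct m) P → (∀ t, P t → BadT e ct m t) →
    ∀ A, Good (bt (omM e ct m)) A → (∀ v ∈ tgt ct m, A v ≠ 0) → (∀ s ∈ ssE e ct, Sat A s) →
      ¬ P ((tgt ct m).map fun v => dg (A v))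

/-- what a check gives for one of its variants -/
def LnOK (l : Ln) : Prop := VarOK l.c.e l.c.ct l.m ∧
  (l.m = 0 → gaps l.c.ct.ring = l.c.gs ∧ wf l.c.e l.c.n l.c.ct = true)

theorem ln1_spec {bs : List Bool} {l : Ln} (h : ln1 bs l (tgt l.c.ct l.m) = true) :
    ∃ b v t, brs l.c.ct l.m = b :: bs ∧ tgt l.c.ct l.m = v :: t ∧ t.length = bs.length ∧
      dgm l.dm v = 0 ∧ tgc l.dm t = true ∧ (stB l).1 = tgm l.dm (v :: t) ∧
      (stC l).1 = tgm l.dm (v :: t) := by
  obtain ⟨h1, h⟩ := cj_iff.1 h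
  obtain ⟨h2, h⟩ := cj_iff.1 h
  obtain ⟨h3, h4⟩ := cj_iff.1 h
  have k : (brs l.c.ct l.m).length = (tgt l.c.ct l.m).length := brkR_len _ _ _
  generalize tgt l.c.ct l.m = tg at *
  generalize brs l.c.ct l.m = br at *
  cases tg with
  | nil => exact absurd h1 Bool.false_ne_true
  | cons v t =>
    cases br with
    | nil => exact absurd h4 Bool.false_ne_true
    | cons b br =>
      obtain rfl := lbq_eq h4
      exact ⟨b, v, t, rfl, rfl, (Nat.succ.inj k).symm, Nat.eq_of_beq_eq_true (cj_iff.1 h1).1,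
        (cj_iff.1 h1).2, Nat.eq_of_beq_eq_true h2, Nat.eq_of_beq_eq_true h3⟩

theorem tb_cts {f : Ln → St} {bs : List Bool} {l : Ln} {t : ℕ} (ht : t < 3 ^ bs.length)
    (h : tb (rsz (f l).2 bs.length (f l).3) t) {ls : List Ln} {k : ℕ} (hk : ls[k]? = some l) :
    tb (cts f bs ls) (k * 3 ^ bs.length + t) := by
  unfold cts
  rw [frc_eq, frc_eq, len_eq]
  induction ls generalizing k with
  | nil => exact absurd hk (by simp)
  | cons a ls ih =>
    cases k with
    | zero =>
      obtain rfl : a = l := Option.some.inj hk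
      rw [zero_mul, zero_add]
      exact tb_catl (tb_land.2 ⟨tb_ones ht, h⟩)
    | succ k => exact tb_catr (ih hk) (by show _ = 3 ^ bs.length + _; ring)

/-- an intermediate set of a check -/
def Mid (bs : List Bool) (ls : List Ln) (X : ℕ) : Prop :=
  ∀ k l, ls[k]? = some l → ln1 bs l (tgt l.c.ct l.m) = true → fresh (ssA l.c.e l.c.ct) 0 = true →
    ∀ b P, Closed (b :: bs) P → (∀ t, P t → BadT l.c.e l.c.ct l.m t) → Has P none bs k X

theorem mid0 (bs : List Bool) (ls : List Ln) : Mid bs ls (cts stB bs ls) := by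
  intro k l hk h hf b P hP hB t ht
  obtain ⟨-, v, r, -, h1, h2, h3, h4, h5, -⟩ := ln1_spec h
  obtain ⟨A, a1, a2, a3⟩ := hB _ ht
  rw [h1] at a3
  obtain ⟨a4, rfl⟩ := List.cons.inj a3
  exact tb_cts (hP.len ht ▸ code_lt _) (h2 ▸ (holdA hf).fin h3 h4 h5 a1 a2 a4.symm) hk

theorem Mid.step {bs : List Bool} {ls : List Ln} {X Y f : ℕ} {c : Bool} (h : Mid bs ls X)
    (hs : sub (itr ls.length bs f c X) Y = true) : Mid bs ls Y :=
  fun k l hk h1 h2 b P hP hB t ht => sub_sound hs (itr_sound hP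
    (List.getElem?_eq_some_iff.1 hk).1 f c X (h k l hk h1 h2 b P hP hB) t ht)

/-- a property of all members of a list -/
def AllL (F : Ln → Prop) (ls : List Ln) : Prop := List.rec True (fun l _ ih => F l ∧ ih) ls

theorem Mid.fin {bs : List Bool} {ls : List Ln} {X : ℕ} {c : Bool} (h : Mid bs ls X)
    (hc : cj (allL (lnOK bs) ls)
      (frc (len ls) fun K => lp2 K bs (cts stC bs ls) 200 c X) = true) : AllL LnOK ls := by
  obtain ⟨h1, h2⟩ := cj_iff.1 hc
  rw [frc_eq, len_eq] at h2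
  have key : ∀ l ∈ ls, LnOK l := by
    intro l hl
    obtain ⟨k, hk⟩ := List.getElem?_of_mem hl
    obtain ⟨g1, g2⟩ := cj_iff.1 (allL_iff h1 l hl)
    refine ⟨fun hf P hP hB => ?_, fun k => ?_⟩
    · obtain ⟨b, v, r, e0, e1, e2, e3, e4, -, e5⟩ := ln1_spec g1
      rw [e0] at hP
      have k0 : ∀ A, Good (bt (omM l.c.e l.c.ct l.m)) A → (∀ s ∈ ssE l.c.e l.c.ct, Sat A s) →
          dg (A v) = none → ¬ P ((v :: r).map fun v => dg (A v)) := fun A a1 a2 a3 a4 => by
        rw [List.map_cons, a3] at a4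
        refine lp2_sound hP (List.getElem?_eq_some_iff.1 hk).1 200 c X
          (h k l hk g1 hf b P hP hB) h2 _ a4 (tb_cts (hP.len a4 ▸ code_lt _) ?_ hk)
        unfold stC at e5 ⊢
        rw [frc_eq] at e5 ⊢
        exact e2 ▸ (holdE _).fin e3 e4 e5 a1 ⟨trivial, a2⟩ a3
      have z : ∀ k : K4, ro k = 0 ↔ k = 0 := by decide
      have k1 : ∀ d, (∀ A, Good (bt (omM l.c.e l.c.ct l.m)) A → (∀ w ∈ v :: r, A w ≠ 0) →
          (∀ s ∈ ssE l.c.e l.c.ct, Sat A s) → dg (A v) = rho d →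
          ¬ P ((v :: r).map fun v => dg (A v))) → ∀ A, Good (bt (omM l.c.e l.c.ct l.m)) A →
          (∀ w ∈ v :: r, A w ≠ 0) → (∀ s ∈ ssE l.c.e l.c.ct, Sat A s) → dg (A v) = d →
          ¬ P ((v :: r).map fun v => dg (A v)) := fun d H A a1 a2 a3 a4 a5 => by
        have y : ∀ w ∈ v :: r, dg (ro (A w)) = rho (dg (A w)) := fun w hw =>
          ((by decide : ∀ k : K4, k ≠ 0 → rho (dg k) = dg (ro k)) _ (a2 w hw)).symm
        refine H (fun w => ro (A w)) (fun w => (z _).trans (a1 w))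
          (fun w hw k => a2 w hw ((z _).1 k)) (fun s hs => Iff.trans ?_ (a3 s hs))
          (by rw [y v List.mem_cons_self, a4]) ?_
        · rw [← z (s.vl.map A).sum, map_list_sum, List.map_map]
          rfl
        · rw [List.map_congr_left y]
          have := hP.rot _ a5
          rwa [List.map_map] at this
      intro A a1 a2 a3
      rw [e1] at a2 ⊢
      rcases hd : dg (A v) with _ | _ | _
      · exact k0 A a1 a3 hd
      · exact k1 (some false) (k1 (some true) fun A a1 _ a3 => k0 A a1 a3) A a1 a2 a3 hd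
      · exact k1 (some true) (fun A a1 _ a3 => k0 A a1 a3) A a1 a2 a3 hd
    · rw [k] at g2
      exact ⟨leq_eq (cj_iff.1 g2).1, (cj_iff.1 g2).2⟩
  clear h h1 h2 hc
  induction ls with
  | nil => trivial
  | cons a ls ih =>
    exact ⟨key a List.mem_cons_self, ih fun l hl => key l (List.mem_cons_of_mem _ hl)⟩

theorem batch_of {bs : List Bool} {b : Bool} {ls : List Ln} (h : batch bs b ls = true) :
    AllL LnOK ls := (mid0 bs ls).fin h

theorem ck0_of {bs : List Bool} {b : Bool} {ls : List Ln} {k : ℕ} {Y : Bg}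
    (h : ck0 bs b ls k Y = true) : Mid bs ls Y.val := by
  unfold ck0 at h
  rw [frc_eq, len_eq] at h
  exact (mid0 bs ls).step h

theorem ck1_of {bs : List Bool} {b : Bool} {ls : List Ln} {K k : ℕ} {X Y : Bg}
    (hX : Mid bs ls X.val) (hK : ls.length = K) (h : ck1 bs b K k X Y = true) : Mid bs ls Y.val :=
  hX.step (hK ▸ h)

theorem ck2_of {bs : List Bool} {b : Bool} {ls : List Ln} {X : Bg} (hX : Mid bs ls X.val)
    (h : ck2 bs b ls X = true) : AllL LnOK ls := hX.fin h

/-- a property of all subsets of a list, given as bit masks -/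
def AllP (F : ℕ → Prop) : List ℕ → ℕ → Prop
  | [], m => F m
  | g :: gs, m => AllP F gs m ∧ AllP F gs (Nat.lor m (Nat.shiftLeft 1 g))

theorem allP_ex {F : ℕ → Prop} (Z : ℕ → Prop) (gs : List ℕ) : ∀ m, AllP F gs m →
    ∃ m', F m' ∧ ∀ v, tb m' v ↔ tb m v ∨ (v ∈ gs ∧ Z v) := by
  induction gs with
  | nil => exact fun m h => ⟨m, h, fun v => by simp⟩
  | cons g gs ih =>
    intro m h
    by_cases hz : Z g
    · obtain ⟨m', h1, h2⟩ := ih _ h.2
      refine ⟨m', h1, fun v => ?_⟩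
      rw [h2, tb_lor, tb_one, List.mem_cons]
      constructor
      · rintro ((k | rfl) | k)
        · exact Or.inl k
        · exact Or.inr ⟨Or.inl rfl, hz⟩
        · exact Or.inr ⟨Or.inr k.1, k.2⟩
      · rintro (k | ⟨k | k, k'⟩)
        · exact Or.inl (Or.inl k)
        · exact Or.inl (Or.inr k)
        · exact Or.inr ⟨k, k'⟩
    · obtain ⟨m', h1, h2⟩ := ih _ h.1
      refine ⟨m', h1, fun v => ?_⟩
      rw [h2, List.mem_cons]
      constructor
      · rintro (k | k)
        · exact Or.inl k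
        · exact Or.inr ⟨Or.inr k.1, k.2⟩
      · rintro (k | ⟨rfl | k, k'⟩)
        · exact Or.inl k
        · exact absurd k' hz
        · exact Or.inr ⟨k, k'⟩

theorem vlO_sum (e : ℕ) (ev : ℕ → ℕ) (A : ℕ → K4) (L : List ℕ) : ((vlO e ev L).map A).sum =
    (L.map fun y => A (ev y) + if egap e y = true then A (y + 1) else 0).sum := by
  induction L with
  | nil => rfl
  | cons y L ih =>
    have e1 : vlO e ev (y :: L) = frc (ev y) fun v =>
      v :: sel (egap e y) (frc (y + 1) fun w => w :: vlO e ev L) (vlO e ev L) := rfl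
    rw [e1, frc_eq, frc_eq, List.map_cons, List.sum_cons, List.map_cons, List.sum_cons, ← ih]
    cases egap e y
    · simp
    · simp [add_assoc]

theorem dlO_mem {e : ℕ} {ev : ℕ → ℕ} {seen : ℕ} {L : List ℕ} {v : ℕ}
    (h : v ∈ dlO e ev (fun _ => false) seen L) : ∃ y ∈ L, eal e y ≠ 0 ∧ v = ev y := by
  induction L with
  | nil => exact absurd h List.not_mem_nil
  | cons y L ih =>
    have e1 : dlO e ev (fun _ => false) seen (y :: L) =
      sel (cj (ng (Nat.beq (eal e y) 0)) (bt seen (eal e y)))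
        (frc (ev y) fun v => v :: dlO e ev (fun _ => false) seen L)
        (dlO e ev (fun _ => false) seen L) := rfl
    rw [e1, frc_eq] at h
    have k : v ∈ dlO e ev (fun _ => false) seen L → ∃ z ∈ y :: L, eal e z ≠ 0 ∧ v = ev z :=
      fun h => (ih h).imp fun z hz => ⟨List.mem_cons_of_mem _ hz.1, hz.2⟩
    cases hc : cj (ng (Nat.beq (eal e y) 0)) (bt seen (eal e y)) with
    | false => rw [hc] at h; exact k h
    | true =>
      rw [hc] at h
      rcases List.mem_cons.1 h with rfl | h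
      · exact ⟨y, List.mem_cons_self, beq_false.1 (ng_iff.1 (cj_iff.1 hc).1), rfl⟩
      · exact k h

theorem mkS_spec (e : ℕ) (ev : ℕ → ℕ) (ct : ℕ → Bool) (ord : List ℕ) : ∀ seen,
    (∀ s ∈ mkS e ev ct ord seen, ∃ x ∈ ord, ∃ sn, s = ⟨vlO e ev (orbL e x), eN e x,
      dlO e ev ct sn (orbL e x)⟩) ∧ ∀ x ∈ ord, ∃ sn, ⟨vlO e ev (orbL e x), eN e x,
        dlO e ev ct sn (orbL e x)⟩ ∈ mkS e ev ct ord seen := by
  induction ord with
  | nil => exact fun _ => ⟨fun _ k => absurd k List.not_mem_nil, fun _ k => absurd k List.not_mem_nil⟩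
  | cons x ord ih =>
    intro seen
    have e1 : mkS e ev ct (x :: ord) seen = ⟨vlO e ev (orbL e x), eN e x,
      dlO e ev ct seen (orbL e x)⟩ :: frc (msum (orbL e x) seen) (mkS e ev ct ord) := rfl
    rw [e1, frc_eq]
    obtain ⟨i1, i2⟩ := ih (msum (orbL e x) seen)
    refine ⟨fun s hs => ?_, fun z hz => ?_⟩
    · rcases List.mem_cons.1 hs with rfl | hs
      · exact ⟨x, List.mem_cons_self, seen, rfl⟩
      · exact (i1 s hs).imp fun z hz => ⟨List.mem_cons_of_mem _ hz.1, hz.2⟩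
    · rcases List.mem_cons.1 hz with rfl | hz
      · exact ⟨seen, List.mem_cons_self⟩
      · exact (i2 z hz).imp fun sn k => List.mem_cons_of_mem _ k

theorem evv_eq (e y : ℕ) :
    evv e y = if eal e y = 0 then y else if y ≤ eal e y then y else eal e y := by
  unfold evv
  rw [frc_eq, sel_beq, kal_eq]
  by_cases k : y ≤ eal e y
  · rw [Nat.ble_eq_true_of_le k, if_pos k]; rfl
  · have : Nat.ble y (eal e y) = false := by rw [← Bool.not_eq_true, Nat.ble_eq]; exact k
    rw [this, if_neg k]; rfl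

variable {D : Type} {σ α : Perm D} {N : Set D} {e n : ℕ} {h : ℕ → D}

theorem evv_cases (e y : ℕ) : evv e y = y ∨ (eal e y ≠ 0 ∧ evv e y = eal e y) := by
  rw [evv_eq]
  split_ifs with k1 k2
  · exact Or.inl rfl
  · exact Or.inl rfl
  · exact Or.inr ⟨k1, rfl⟩

theorem evv_ev (H : Emb σ α N e n h) {y : ℕ} (hy : EV n y) : EV n (evv e y) := by
  rcases evv_cases e y with k | ⟨k, k'⟩
  · rwa [k]
  · rw [k']; exact (al_spec H hy k).1

theorem evv_al (H : Emb σ α N e n h) {y : ℕ} (hy : EV n y) (k : eal e y ≠ 0) :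
    evv e (eal e y) = evv e y := by
  rw [evv_eq, evv_eq, (al_spec H hy k).2.1, if_neg hy.1.ne', if_neg k]
  split_ifs <;> omega

theorem evv_inn (H : Emb σ α N e n h) {y : ℕ} (hy : EV n y) (k : eal e y ≠ 0) :
    eal e (evv e y) ≠ 0 := by
  rcases evv_cases e y with k1 | ⟨-, k'⟩
  · rwa [k1]
  · rw [k', (al_spec H hy k).2.1]; exact hy.1.ne'

variable [Fintype D]

theorem vl_sum (H : Emb σ α N e n h) (c : D → K4) (A : ℕ → K4) (ev : ℕ → ℕ)
    (h1 : ∀ y, EV n y → A (ev y) = c (h y))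
    (h2 : ∀ y, EV n y → egap e y = true → A (y + 1) = sm σ n h c (y + 1)) {x : ℕ}
    (hx : VOK e n x) : ((vlO e ev (orbL e x)).map A).sum = vsum σ c (h x) := by
  rw [vlO_sum, vsum_dec H c (L := orbL e x) List.mem_cons_self hx.2.2 hx.2.1 (orb_sc H hx.1)]
  refine congrArg _ (List.map_congr_left fun y hy => ?_)
  have k := (orb_sc H hx.1 y hy).1
  rw [h1 y k]
  cases hg : egap e y with
  | true => rw [if_pos rfl, h2 y k hg]
  | false => rw [if_neg (by decide), sm_nogap H c k hg]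

/-- the assignment of a colouring -/
noncomputable def asg (om : ℕ → Bool) (s : ℕ → K4) (v : ℕ) : K4 :=
  if om v = true then 0 else if s v = 0 then (1, 1) else s v

theorem asg_good (om : ℕ → Bool) (s : ℕ → K4) : Good om (asg om s) := by
  intro v
  unfold asg
  split_ifs with k1 k2
  · exact iff_of_true rfl k1
  · exact iff_of_false (by decide) k1
  · exact iff_of_false k2 k1

theorem asg_eq {om : ℕ → Bool} {s : ℕ → K4} {v : ℕ} (k : s v = 0 ↔ om v = true) :
    asg om s v = s v := by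
  unfold asg
  split_ifs with k1 k2
  · exact (k.2 k1).symm
  · exact absurd (k.1 k2) k1
  · rfl

theorem omM_iff {ct : Cert} {m v : ℕ} : bt (omM e ct m) v = true ↔
    bt m v = true ∨ cj (ng ct.cut) (Nat.beq v (evv e ct.ed)) = true := by
  unfold omM
  cases ct.cut
  · rw [sel_false, bt_iff, bt_iff, tb_lor, tb_one, cj_iff, Nat.beq_eq, and_iff_right (by decide)]
  · exact (or_iff_left Bool.false_ne_true).symm

theorem red_main (H : Emb σ α N e n h) (C : Ctx σ α N) {ct : Cert} (hw : wf e n ct = true)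
    (hv : AllP (VarOK e ct) (gaps ct.ring) 0) : False := by
  obtain ⟨w1, hw⟩ := cj_iff.1 hw
  obtain ⟨w2, hw⟩ := cj_iff.1 hw
  obtain ⟨w3, hw⟩ := cj_iff.1 hw
  obtain ⟨w6, hw⟩ := cj_iff.1 hw
  obtain ⟨w7, w8⟩ := cj_iff.1 hw
  have K := rchk_spec w2
  have R := ring_of H C K w1
  obtain ⟨V1, V2, -⟩ := vchk_spec H ct.ord 0 w1
  have d1 := evb_ev w6
  have d2 := beq_false.1 (ng_iff.1 w7)
  obtain ⟨d3, d4, d5⟩ := al_spec H d1 d2
  have dI : ∀ d, ¬ Inn e n h d → d ≠ h ct.ed ∧ d ≠ α (h ct.ed) := fun d hd =>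
    ⟨fun k => hd ⟨_, d1, d2, k⟩, fun k => hd (k ▸ (inn_a H C.cls.inv _).2 ⟨_, d1, d2, rfl⟩)⟩
  have vx : ∀ c : D → K4, (∀ x, x ∉ N → vsum σ c x = 0) → (∀ x, x ∈ N → vsum σ c x ≠ 0) →
      ∀ x, vsum σ c x = 0 ↔ x ∉ N := fun c k1 k2 x => ⟨fun k hx => k2 x hx k, k1 x⟩
  -- the colouring of the reduced map
  obtain ⟨c0, ev, dc, c1, c2, c3, c4, c5⟩ : ∃ (c : D → K4) (ev : ℕ → ℕ) (dc : ℕ → Bool),
      OC σ α N (Inn e n h) (out σ n h) c ∧ (∀ x, vsum σ c x = 0 ↔ x ∉ N) ∧
      ssE e ct = mkS e ev dc ct.ord 0 ∧ (∀ y, EV n y → EV n (ev y) ∧ c (h (ev y)) = c (h y)) ∧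
      ∀ y, EV n y → (c (h y) = 0 ↔ cj (ng ct.cut) (Nat.beq (ev y) (evv e ct.ed)) = true) := by
    cases hcut : ct.cut with
    | true =>
      obtain ⟨c, k1, k2, k3, k4⟩ := C.cut (h ct.ed)
      refine ⟨c, evc e ct.ed, isc e ct.ed, ⟨fun d hd => k1 d (dI d hd).1 (dI d hd).2,
        fun d _ => k2 d, fun d _ => vx c k3 k4 d⟩, vx c k3 k4, by unfold ssE; rw [hcut]; rfl,
        fun y hy => ?_, fun y _ => iff_of_false (k2 _) (by simp [cj, ng])⟩
      unfold evc
      cases hi : isc e ct.ed y with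
      | true => exact ⟨hy, rfl⟩
      | false =>
        refine ⟨evv_ev H hy, ?_⟩
        rw [sel_false]
        rcases evv_cases e y with k | ⟨k, k'⟩
        · rw [k]
        · have hn : ¬ (y = ct.ed ∨ y = eal e ct.ed) := by
            rw [← Nat.beq_eq, ← Nat.beq_eq, ← dj_iff]
            exact Bool.eq_false_iff.1 hi
          rw [k', (al_spec H hy k).2.2]
          exact k1 _ (fun k2 => hn (Or.inl (H.inj _ _ hy d1 k2)))
            fun k2 => hn (Or.inr (H.inj _ _ hy d3 (k2.trans d5.symm)))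
    | false =>
      rw [hcut] at w8
      obtain ⟨c, k⟩ := C.con (h ct.ed) ((H.ty _ d1).1 w8)
      have z : c (h ct.ed) = 0 := by
        by_contra hz
        refine C.ncol ⟨c, k.sym, fun x _ => ?_, k.vz, k.vn⟩
        by_cases hx : x ∈ ({h ct.ed, α (h ct.ed)} : Set D)
        · rcases hx with rfl | rfl
          · exact hz
          · rwa [k.sym]
        · exact k.nz x hx
      have ce : ∀ y, EV n y → c (h (evv e y)) = c (h y) := fun y hy => by
        rcases evv_cases e y with k1 | ⟨k1, k'⟩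
        · rw [k1]
        · rw [k', (al_spec H hy k1).2.2, k.sym]
      refine ⟨c, evv e, fun _ => false, ⟨fun d _ => k.sym d,
        fun d hd => k.nz d fun hx => hx.elim (dI d hd).1 (dI d hd).2,
        fun d _ => vx c k.vz k.vn d⟩, vx c k.vz k.vn, by unfold ssE; rw [hcut]; rfl,
        fun y hy => ⟨evv_ev H hy, ce y hy⟩, fun y hy => ?_⟩
      rw [cj_iff, Nat.beq_eq]
      constructor
      · intro k0
        refine ⟨rfl, ?_⟩
        by_contra hne
        refine k.nz (h y) ?_ k0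
        rintro (k1 | k1)
        · exact hne (congrArg _ (H.inj _ _ hy d1 k1))
        · rw [H.inj _ _ hy d3 (Eq.trans k1 d5.symm)] at hne
          exact hne (evv_al H d1 d2)
      · intro k0
        rw [← ce y hy, k0.2, ce _ d1, z]
  obtain ⟨m, m1, m2⟩ := allP_ex (fun v => sm σ n h c0 v = 0) _ _ hv
  have m3 : ∀ v, bt m v = true ↔ v ∈ ct.ring ∧ v % 64 ≠ 0 ∧ sm σ n h c0 v = 0 := fun v => by
    rw [bt_iff, m2, gaps, flt_eq, List.mem_filter, ng_iff, beq_false, and_assoc]
    exact or_iff_right (tb_zero v)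
  have m4 : ∀ y, EV n y → bt m y ≠ true := fun y hy k =>
    ((m3 y).1 k).2.1 (Nat.mod_eq_zero_of_dvd hy.2.2)
  let L := (List.range ct.ring.length).filter fun i => ng (bt m (ct.ring.getD i 0))
  have Lm : ∀ i, i ∈ L ↔ i < ct.ring.length ∧ bt m (ct.ring.getD i 0) = false := fun i => by
    rw [List.mem_filter, List.mem_range, ng_iff]
  have Lt : tgt ct m = L.map fun i => ct.ring.getD i 0 := by
    have e1 : (List.range ct.ring.length).map (fun i => ct.ring.getD i 0) = ct.ring :=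
      List.ext_getElem (by simp) fun i k1 k2 => by simp [k2]
    unfold tgt
    rw [flo_eq]
    conv_lhs => rw [← e1]
    rw [List.filter_map]
    rfl
  have cl := kempe (N := N) R (L := L) (List.pairwise_lt_range.filter _)
    (fun l hl => ((Lm l).1 hl).1) 0
  rw [← brkR_eq (lab ct.lb) (fun i => ct.ring.getD i 0), ← Lt] at cl
  have rv : ∀ c : D → K4, (∀ i < ct.ring.length, ps (pos σ e n h ct.ring) c i ≠ 0 ↔ i ∈ L) →
      ∀ v ∈ ct.ring, (sm σ n h c v = 0 ↔ bt m v = true) := by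
    intro c hc v hv
    obtain ⟨i, hi, rfl⟩ := List.getElem_of_mem hv
    have := hc i hi
    rw [ps_eq H K c hi, Lm, List.getD_eq_getElem _ _ hi, and_iff_right hi] at this
    rw [← not_iff_not, Bool.not_eq_true]
    exact this
  have pat : ∀ (c : D → K4) (A : ℕ → K4), (∀ v ∈ ct.ring, A v = sm σ n h c v) →
      (L.map fun i => dg (ps (pos σ e n h ct.ring) c i)) = (tgt ct m).map fun v => dg (A v) := by
    intro c A hA
    rw [Lt, List.map_map]
    refine List.map_congr_left fun i hi => ?_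
    have k := ((Lm i).1 hi).1
    rw [ps_eq H K c k, Function.comp_apply, hA _ (by
      rw [List.getD_eq_getElem _ _ k]; exact List.getElem_mem k)]
  have p0 : ∀ v ∈ ct.ring, (sm σ n h c0 v = 0 ↔ bt m v = true) := fun v hv => by
    rw [m3]
    refine ⟨fun k => ⟨hv, fun k' => ?_, k⟩, fun k => k.2.2⟩
    rcases K.it v hv with ⟨k1, k2⟩ | ⟨y, y1, -, rfl⟩
    · rw [sm_dart H c0 k1] at k
      exact c1.nz _ (fun k3 => (inn_h H k1).1 k3 k2) k
    · have := y1.2.2
      omega
  have a0 : ∀ v ∈ ct.ring, asg (bt (omM e ct m)) (sm σ n h c0) v = sm σ n h c0 v := fun v hv => by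
    refine asg_eq ((p0 v hv).trans ?_)
    rw [omM_iff, cj_iff, Nat.beq_eq]
    refine (or_iff_left ?_).symm
    rintro ⟨-, rfl⟩
    rcases K.it _ hv with ⟨-, k2⟩ | ⟨z, z1, -, z3⟩
    · exact evv_inn H d1 d2 k2
    · have := (evv_ev H d1).2.2
      have := z1.2.2
      omega
  refine m1 w3 _ cl ?_ _ (asg_good _ (sm σ n h c0)) (fun v hv => ?_) (fun s hs => ?_)
    ⟨c0, c1, fun i hi => ?_, (pat c0 _ a0).symm⟩
  · rintro t ⟨c, hc, hL, rfl⟩
    have a1 : ∀ v ∈ ct.ring, asg (bt m) (sm σ n h c) v = sm σ n h c v :=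
      fun v hv => asg_eq (rv c hL v hv)
    refine ⟨_, asg_good _ _, ?_, pat c _ a1⟩
    rintro A g1 g2 ⟨-, g3⟩
    have g4 : ∀ v ∈ ct.ring, A v = sm σ n h c v := fun v hv => by
      rw [g2 v, a1 v hv]
      rintro ⟨s, s1, s2⟩
      obtain ⟨x, x1, sn, rfl⟩ := (mkS_spec e _ _ ct.ord 0).1 s s1
      obtain ⟨y, y1, y2, rfl⟩ := dlO_mem (e := e) (ev := evv e) (seen := sn) (L := orbL e x) s2
      have y3 := (orb_sc H (V1 x x1).1 y y1).1
      rcases K.it _ hv with ⟨-, k2⟩ | ⟨z, z1, -, z3⟩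
      · exact evv_inn H y3 y2 k2
      · have := (evv_ev H y3).2.2
        have := z1.2.2
        omega
    let c' : D → K4 := fun d => if Inn e n h d then A (evv e (own σ n h d)) else c d
    have b1 : ∀ d, ¬ Inn e n h d → c' d = c d := fun d hd => if_neg hd
    have b2 : ∀ y, EV n y → A (evv e y) = c' (h y) := fun y hy => by
      by_cases k : eal e y = 0
      · rw [b1 _ fun k3 => (inn_h H hy).1 k3 k, evv_eq, if_pos k, g4 y (K.c1 y hy k),
          sm_dart H c hy]
      · simp only [c']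
        rw [if_pos ((inn_h H hy).2 k), own_eq H (bk_refl hy)]
    have b3 : ∀ d, vsum σ c' d = 0 ↔ d ∉ N := fun d => by
      by_cases hd : out σ n h d
      · rw [← hc.vx d hd, vsum_eq, vsum_eq, Finset.sum_congr rfl fun x hx =>
          b1 x fun k => R.oI x k ((R.out_sc (Finset.mem_filter.1 hx).2).1 hd)]
      · have k0 := own_bk hd
        obtain ⟨x, x1, x2⟩ := (V2 _ k0.1).resolve_left (tb_zero _)
        have k1 := (orb_sc H (V1 x x1).1 _ x2).2.trans (bk_sc k0)
        obtain ⟨sn, k2⟩ := (mkS_spec e (evv e) (fun _ => false) ct.ord 0).2 x x1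
        have k3 := g3 _ k2
        unfold Sat at k3
        rw [vl_sum H c' A (evv e) b2 (fun y hy hg => by
          rw [g4 _ (K.c2 y hy hg), sm_congr H hy b1]) (V1 x x1)] at k3
        have k4 : h x ∈ N ↔ d ∈ N := propext_iff.1 (perm_sc_le (s := Setoid.ker (· ∈ N))
          (fun w => propext (C.cls.nσ w).symm) k1)
        rw [← vsum_congr c' k1, k3, ← k4, ← H.ty x (V1 x x1).1, Bool.not_eq_true]
    refine C.ncol ⟨c', fun d => ?_, fun d _ => ?_, fun d => (b3 d).2,
      fun d k k' => (b3 d).1 k' k⟩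
    · by_cases hd : Inn e n h d
      · obtain ⟨y, y1, y2, rfl⟩ := hd
        obtain ⟨k1, -, k3⟩ := al_spec H y1 y2
        rw [← k3, ← b2 _ k1, ← b2 _ y1, evv_al H y1 y2]
      · rw [b1 d hd, b1 _ fun k => hd ((R.Ia d).1 k), hc.sym d hd]
    · by_cases hd : Inn e n h d
      · obtain ⟨y, y1, y2, rfl⟩ := hd
        rw [← b2 _ y1]
        exact fun k => m4 _ (evv_ev H y1) ((g1 _).1 k)
      · rw [b1 d hd]
        exact hc.nz d hd
  · unfold tgt at hv
    rw [flo_eq, List.mem_filter, ng_iff] at hv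
    rw [a0 v hv.1, Ne, p0 v hv.1, hv.2]
    decide
  · rw [c3] at hs
    obtain ⟨x, x1, sn, rfl⟩ := (mkS_spec e _ _ ct.ord 0).1 s hs
    unfold Sat
    rw [vl_sum H c0 _ ev (fun y hy => ?_) (fun y hy hg => a0 _ (K.c2 y hy hg)) (V1 x x1), c2,
      ← H.ty x (V1 x x1).1, Bool.not_eq_true]
    obtain ⟨k1, k2⟩ := c4 y hy
    rw [asg_eq, sm_dart H c0 k1, k2]
    rw [sm_dart H c0 k1, k2, omM_iff, c5 y hy]
    exact (or_iff_right (m4 _ k1)).symm
  · rw [ps_eq H K c0 hi, Lm, and_iff_right hi, ← Bool.not_eq_true]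
    refine not_congr (p0 _ ?_)
    rw [List.getD_eq_getElem _ _ hi]
    exact List.getElem_mem hi

/-- a variant without ring edges -/
theorem var_nil {c : Cf} {m : ℕ} (dm : ℕ) (h : cj (Nat.beq (stB ⟨c, m, dm⟩).1 0)
    (Nat.beq (rsz (stB ⟨c, m, dm⟩).2 0 (stB ⟨c, m, dm⟩).3) 0) = true) : VarOK c.e c.ct m := by
  intro hf P _ hB A _ _ _ hp
  obtain ⟨A', a1, a2, -⟩ := hB _ hp
  obtain ⟨h1, h2⟩ := cj_iff.1 h
  have h1 := Nat.eq_of_beq_eq_true h1
  have z : ∀ i, ¬ tb (stB ⟨c, m, dm⟩).1 i := fun i => h1 ▸ tb_zero i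
  exact tb_zero _ (Nat.eq_of_beq_eq_true h2 ▸ (((holdA (dm := dm) hf) (z 16)).rsz (E := 0)
    fun w hw => absurd hw (z _)).bit A' (fun _ => none) a1 a2 rfl fun w hw => absurd hw (z _))

theorem red_of {e n : ℕ} {ct : Cert} (hw : wf e n ct = true)
    (hv : AllP (VarOK e ct) (gaps ct.ring) 0) : CfgOK (e, n) := by
  intro D _ σ α N C h H
  have := Fintype.ofFinite D
  exact red_main H C hw hv

theorem red_ln {c : Cf} {dm : ℕ} (h : LnOK ⟨c, 0, dm⟩) (hv : AllP (VarOK c.e c.ct) c.gs 0) :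
    CfgOK (c.e, c.n) :=
  red_of (h.2 rfl).2 ((h.2 rfl).1 ▸ hv)

end Pool.Agent.Lib.G6.B
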