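import Pool.Agent.Lib.G6.BChk
import Pool.Agent.Lib.G6.BEmb

set_option autoImplicit false

namespace Pool.Agent.Lib.G6.B

open Equiv Pool.Agent.Lib.MP_bfaad3_co Classical

theorem evb_ev {n d : ℕ} (h : evb n d = true) : EV n d := by
  obtain ⟨h1, h2⟩ := cj_iff.1 h
  obtain ⟨h2, h3⟩ := cj_iff.1 h2
  exact ⟨Nat.le_of_ble_eq_true h1, Nat.le_of_ble_eq_true h2,
    Nat.dvd_of_mod_eq_zero (Nat.eq_of_beq_eq_true h3)⟩

theorem allL_iff {α : Type} {p : α → Bool} {l : List α} (h : allL p l = true) :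
    ∀ a ∈ l, p a = true := by
  induction l with
  | nil => exact fun _ k => absurd k List.not_mem_nil
  | cons b l ih =>
    obtain ⟨h1, h2⟩ := cj_iff.1 (show cj (p b) (allL p l) = true from h)
    intro a ha
    rcases List.mem_cons.1 ha with rfl | ha
    · exact h1
    · exact ih h2 a ha

theorem anyL_iff {p : ℕ → Bool} {l : List ℕ} (h : anyL p l = true) : ∃ a ∈ l, p a = true := by
  induction l with
  | nil => exact absurd h Bool.false_ne_true
  | cons b l ih =>
    rcases dj_iff.1 (show dj (p b) (anyL p l) = true from h) with h1 | h2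
    · exact ⟨b, List.mem_cons_self, h1⟩
    · obtain ⟨a, a1, a2⟩ := ih h2
      exact ⟨a, List.mem_cons_of_mem _ a1, a2⟩

theorem ndp_nodup {l : List ℕ} (h : ndp l = true) : l.Nodup := by
  induction l with
  | nil => exact List.nodup_nil
  | cons b l ih =>
    obtain ⟨h1, h2⟩ := cj_iff.1 (show cj (ng (mem b l)) (ndp l) = true from h)
    refine List.nodup_cons.2 ⟨?_, ih h2⟩
    rw [← mem_iff, ng_iff.1 h1]
    decide

theorem allD_ev {p : ℕ → Bool} {n : ℕ} (h : allD p (Nat.div (Nat.sub n 1) 64) = true) :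
    ∀ y, EV n y → p y = true := by
  have key : ∀ k, allD p k = true → ∀ i < k, p (64 * (i + 1)) = true := by
    intro k
    induction k with
    | zero => intro _ i hi; omega
    | succ k ih =>
      intro h i hi
      obtain ⟨h1, h2⟩ := cj_iff.1 (show cj (frc (64 * (k + 1)) p) (allD p k) = true from h)
      rw [frc_eq] at h1
      by_cases hik : i = k
      · rw [hik]; exact h1
      · exact ih h2 i (by omega)
  rintro y ⟨h1, h2, i, rfl⟩
  obtain ⟨i, rfl⟩ : ∃ j, i = j + 1 := ⟨i - 1, by omega⟩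
  exact key ((n - 1) / 64) h i (by omega)

theorem brkR_eq (ho : ℕ → ℕ) (g : ℕ → ℕ) (L : List ℕ) (prev : ℕ) :
    brkR ho (L.map g) prev = brk (fun i => ho (g i)) prev L := by
  induction L generalizing prev with
  | nil => rfl
  | cons p L ih =>
    have e : brkR ho ((p :: L).map g) prev = sel (Nat.beq (ho (g p)) prev)
      (false :: brkR ho (L.map g) (ho (g p))) (true :: brkR ho (L.map g) (ho (g p))) := rfl
    rw [e, ih, brk]
    cases Nat.beq (ho (g p)) prev <;> rfl

theorem lnk_spec {e lb : ℕ} {R : List ℕ} (h : lnk e lb R = true) :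
    ∀ i, i + 1 < R.length → lnk1 e lb (R.getD i 0) (R.getD (i + 1) 0) = true := by
  induction R with
  | nil => intro i hi; exact absurd hi (Nat.not_lt_zero _)
  | cons v t ih =>
    obtain ⟨h1, h2⟩ := cj_iff.1 (show cj (lnk e lb t)
      (List.rec true (fun w _ _ => lnk1 e lb v w) t) = true from h)
    intro i hi
    cases i with
    | zero =>
      cases t with
      | nil => exact absurd hi (lt_irrefl 1)
      | cons w t => exact h2
    | succ i => exact ih h1 i (Nat.lt_of_succ_lt_succ hi)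

variable {D : Type} {σ α : Perm D} {N : Set D} {e n : ℕ} {h : ℕ → D}

theorem orb_sc (H : Emb σ α N e n h) {x : ℕ} (hx : EV n x) :
    ∀ y ∈ orbL e x, EV n y ∧ σ.SameCycle (h x) (h y) := by
  have key : ∀ f z, EV n z → σ.SameCycle (h x) (h z) →
      ∀ y ∈ orbT e x f z, EV n y ∧ σ.SameCycle (h x) (h y) := by
    intro f
    induction f with
    | zero => exact fun _ _ _ _ k => absurd k List.not_mem_nil
    | succ f ih =>
      intro z z1 z2 y hy
      have e1 : orbT e x (f + 1) z =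
        sel (Nat.beq z x) [] (z :: frc (enx e z) (orbT e x f)) := rfl
      rw [e1, sel_beq, frc_eq] at hy
      split_ifs at hy
      · exact absurd hy List.not_mem_nil
      · rcases List.mem_cons.1 hy with rfl | hy
        · exact ⟨z1, z2⟩
        · exact ih _ (H.nx z z1).1 (z2.trans (sc_nx H z1)) y hy
  intro y hy
  unfold orbL at hy
  rw [frc_eq] at hy
  rcases List.mem_cons.1 hy with rfl | hy
  · exact ⟨hx, Perm.SameCycle.refl _ _⟩
  · exact key 20 _ (H.nx x hx).1 (sc_nx H hx) y hy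

/-- what the vertex check gives for one vertex -/
def VOK (e n x : ℕ) : Prop :=
  EV n x ∧ (∀ y ∈ orbL e x, enx e y ∈ orbL e x) ∧ (orbL e x).Nodup

theorem vchk_spec [Finite D] (H : Emb σ α N e n h) (ord : List ℕ) :
    ∀ seen, vchk e n ord seen = true →
    (∀ x ∈ ord, VOK e n x) ∧ (∀ y, EV n y → tb seen y ∨ ∃ x ∈ ord, y ∈ orbL e x) ∧
    ∀ f : D → ZMod 2, (∀ d, f (σ d) = f d) → (∀ d, Inn e n h d → f (α d) = f d) →
      (∀ y y', tb seen y → tb seen y' → f (h y) = f (h y')) →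
      ∀ y y', EV n y → EV n y' → f (h y) = f (h y') := by
  induction ord with
  | nil =>
    intro seen hs
    have k := fun y hy => bt_iff.1 (allD_ev hs y hy)
    exact ⟨fun _ k => absurd k List.not_mem_nil, fun y hy => Or.inl (k y hy),
      fun f _ _ f3 y y' h1 h2 => f3 y y' (k y h1) (k y' h2)⟩
  | cons x ord ih =>
    intro seen hs
    obtain ⟨h1, h2⟩ := cj_iff.1 (show cj (vch1 e n x seen (orbL e x))
      (frc (msum (orbL e x) seen) (vchk e n ord)) = true from hs)
    rw [frc_eq] at h2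
    obtain ⟨i1, i2, i3⟩ := ih _ h2
    obtain ⟨a1, a2⟩ := cj_iff.1 h1
    obtain ⟨a2, a3⟩ := cj_iff.1 a2
    obtain ⟨a3, a4⟩ := cj_iff.1 a3
    have hx := evb_ev a1
    refine ⟨fun z hz => ?_, fun y hy => ?_, fun f f1 f2 f3 => i3 f f1 f2 ?_⟩
    · rcases List.mem_cons.1 hz with rfl | hz
      · exact ⟨hx, fun y hy => mem_iff.1 (allL_iff a2 y hy), ndp_nodup a3⟩
      · exact i1 z hz
    · rcases i2 y hy with k | ⟨z, z1, z2⟩
      · exact (tb_msum.1 k).imp_right fun k => ⟨x, List.mem_cons_self, k⟩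
      · exact Or.inr ⟨z, List.mem_cons_of_mem _ z1, z2⟩
    · have g1 : ∀ y ∈ orbL e x, f (h y) = f (h x) := fun y hy =>
        (perm_sc_le (s := Setoid.ker f) (fun w => (f1 w).symm) (orb_sc H hx y hy).2).symm
      have g2 : ∀ y, tb seen y → f (h y) = f (h x) := by
        intro y hy
        rcases dj_iff.1 a4 with k | k
        · rw [Nat.eq_of_beq_eq_true k] at hy
          exact absurd hy (tb_zero y)
        · obtain ⟨z, z1, z2⟩ := anyL_iff k
          obtain ⟨z2, z3⟩ := cj_iff.1 z2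
          have z4 := beq_false.1 (ng_iff.1 z2)
          have z5 := (orb_sc H hx z z1).1
          rw [f3 y _ hy (bt_iff.1 z3), kal_eq, (al_spec H z5 z4).2.2, f2 _ ⟨z, z5, z4, rfl⟩, g1 z z1]
      intro y y' k1 k2
      rw [(tb_msum.1 k1).elim (g2 y) (g1 y), (tb_msum.1 k2).elim (g2 y') (g1 y')]

/-- the dart at which an item starts -/
def stt (σ : Perm D) (h : ℕ → D) (v : ℕ) : D := if v % 64 = 0 then h v else σ (h (v - 1))

theorem stt_dart {y : ℕ} (hy : EV n y) : stt σ h y = h y :=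
  if_pos (Nat.mod_eq_zero_of_dvd hy.2.2)

theorem stt_gap {y : ℕ} (hy : EV n y) : stt σ h (y + 1) = σ (h y) :=
  if_neg (by have := hy.2.2; omega)

theorem wk_spec (H : Emb σ α N e n h) (f : D → ZMod 2)
    (hf : ∀ d, Inn e n h d → f (σ (α d)) = f d) (k : ℕ) :
    ∀ v, (EV n v ∨ ∃ y, EV n y ∧ v = y + 1) → f (stt σ h (wk e k v)) = f (stt σ h v) := by
  induction k with
  | zero => exact fun _ _ => rfl
  | succ k ih =>
    intro v hv
    have e1 : wk e (k + 1) v = sel (Nat.beq (v % 64) 0)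
      (frc (eal e v) fun a => sel (Nat.beq a 0) v (frc (a + 1) (wk e k)))
      (sel (egap e (v - 1)) v (frc (enx e (v - 1)) (wk e k))) := rfl
    rw [e1, sel_beq, frc_eq, frc_eq, frc_eq, sel_beq]
    rcases hv with hv | ⟨y, hy, rfl⟩
    · rw [if_pos (Nat.mod_eq_zero_of_dvd hv.2.2)]
      split_ifs with ha
      · rfl
      · obtain ⟨k1, -, k3⟩ := al_spec H hv ha
        rw [ih _ (Or.inr ⟨_, k1, rfl⟩), stt_gap k1, stt_dart hv, k3, hf _ ⟨v, hv, ha, rfl⟩]
    · rw [if_neg (by have := hy.2.2; omega), Nat.add_sub_cancel]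
      cases hg : egap e y with
      | true => rfl
      | false =>
        rw [sel_false, ih _ (Or.inl (H.nx y hy).1), stt_gap hy, stt_dart (H.nx y hy).1,
          s_nogap H hy hg]

/-- ring position of a dart -/
noncomputable def pos (σ : Perm D) (e n : ℕ) (h : ℕ → D) (R : List ℕ) (d : D) : Option ℕ :=
  if out σ n h d ∨ Inn e n h d then none else some (R.idxOf (itm σ n h d))

/-- what the ring check gives -/
structure ROK (e n lb : ℕ) (R : List ℕ) : Prop where
  nd : R.Nodup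
  it : ∀ v ∈ R, (EV n v ∧ eal e v = 0) ∨ ∃ y, EV n y ∧ egap e y = true ∧ v = y + 1
  lk : ∀ i, i + 1 < R.length → lnk1 e lb (R.getD i 0) (R.getD (i + 1) 0) = true
  c1 : ∀ y, EV n y → eal e y = 0 → y ∈ R
  c2 : ∀ y, EV n y → egap e y = true → y + 1 ∈ R
  l1 : ∀ y, EV n y → eal e y = 0 → lab lb y = lab lb (y + 1)
  l2 : ∀ y, EV n y → eal e y ≠ 0 → lab lb y = lab lb (eal e y + 1)
  l3 : ∀ y, EV n y → lab lb (y + 1) = lab lb (enx e y)

theorem rchk_spec {lb : ℕ} {R : List ℕ} (hr : rchk e n lb R = true) : ROK e n lb R := by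
  obtain ⟨a1, a2⟩ := cj_iff.1 hr
  obtain ⟨a2, a3⟩ := cj_iff.1 a2
  obtain ⟨a3, a4⟩ := cj_iff.1 a3
  obtain ⟨a4, a5⟩ := cj_iff.1 a4
  have b := fun y hy => cj_iff.1 (allD_ev a4 y hy)
  have c : ∀ y, EV n y → rch2 e lb y = true := fun y hy => by
    rcases dj_iff.1 a5 with k | k
    · rw [Nat.eq_of_beq_eq_true k]
      simp [rch2, lab, cj]
    · exact allD_ev k y hy
  refine ⟨ndp_nodup a1, fun v hv => ?_, lnk_spec a3, fun y hy k => ?_, fun y hy k => ?_,
    fun y hy k => ?_, fun y hy k => ?_, fun y hy => ?_⟩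
  · rcases dj_iff.1 (allL_iff a2 v hv) with k | k
    · exact Or.inl ⟨evb_ev (cj_iff.1 k).1, Nat.eq_of_beq_eq_true (cj_iff.1 k).2⟩
    · have k1 := evb_ev (cj_iff.1 k).1
      have k2 : 0 < v - 1 := k1.1
      exact Or.inr ⟨v - 1, k1, (cj_iff.1 k).2, by omega⟩
  · rcases dj_iff.1 (b y hy).1 with k' | k'
    · exact absurd k (beq_false.1 (ng_iff.1 k'))
    · exact mem_iff.1 k'
  · rcases dj_iff.1 (b y hy).2 with k' | k'
    · exact absurd ((ng_iff.1 k').symm.trans k) (by decide)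
    · exact mem_iff.1 k'
  · have := Nat.eq_of_beq_eq_true (cj_iff.1 (c y hy)).1
    rwa [sel_beq, kal_eq, if_pos k] at this
  · have := Nat.eq_of_beq_eq_true (cj_iff.1 (c y hy)).1
    rwa [sel_beq, kal_eq, if_neg k] at this
  · exact Nat.eq_of_beq_eq_true (cj_iff.1 (c y hy)).2

variable {lb : ℕ} {R : List ℕ}

theorem itm_mem (H : Emb σ α N e n h) (K : ROK e n lb R) {d : D} (h1 : ¬ out σ n h d)
    (h2 : ¬ Inn e n h d) : itm σ n h d ∈ R := by
  obtain ⟨y, k0, ⟨k1, k2⟩ | ⟨k1, k2⟩⟩ := itm_cases H h1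
  · rw [k2]
    exact K.c1 y k0.1 (by_contra fun k => h2 ⟨y, k0.1, k, k1⟩)
  · rw [k2]
    exact K.c2 y k0.1 (bk_gap H k0 k1)

theorem pos_iff (H : Emb σ α N e n h) (K : ROK e n lb R) {d : D} {i : ℕ} :
    pos σ e n h R d = some i ↔ i < R.length ∧ ¬ out σ n h d ∧ itm σ n h d = R.getD i 0 := by
  unfold pos
  constructor
  · intro k
    split_ifs at k with h0
    rw [not_or] at h0
    have k1 := List.idxOf_lt_length_iff.2 (itm_mem H K h0.1 h0.2)
    rw [← Option.some.inj k, List.getD_eq_getElem _ _ k1, List.getElem_idxOf]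
    exact ⟨k1, h0.1, rfl⟩
  · rintro ⟨k1, k2, k3⟩
    rw [List.getD_eq_getElem _ _ k1] at k3
    rw [if_neg, k3, K.nd.idxOf_getElem]
    rintro (k | ⟨y, y1, y2, rfl⟩)
    · exact k2 k
    · rw [itm_h H y1] at k3
      rcases K.it _ (List.getElem_mem k1) with k | ⟨z, z1, -, z3⟩
      · exact y2 (k3 ▸ k.2)
      · have := y1.2.2
        have := z1.2.2
        omega

variable [Fintype D]

theorem ps_eq {A : Type} [AddCommMonoid A] (H : Emb σ α N e n h) (K : ROK e n lb R) (c : D → A)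
    {i : ℕ} (hi : i < R.length) : ps (pos σ e n h R) c i = sm σ n h c (R.getD i 0) :=
  Finset.sum_congr (Finset.filter_congr fun _ _ =>
    (pos_iff H K).trans (and_iff_right hi)) fun _ _ => rfl

theorem ring_of (H : Emb σ α N e n h) (C : Ctx σ α N) (K : ROK e n lb R) {ord : List ℕ}
    (V : vchk e n ord 0 = true) : Rg σ α (Inn e n h) (out σ n h) (pos σ e n h R) R.length
      (fun i => lab lb (R.getD i 0)) := by
  have oI : ∀ d, Inn e n h d → ¬ out σ n h d := by
    rintro d ⟨y, y1, -, rfl⟩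
    exact bk_in (bk_refl y1)
  have ls : ∀ y d, Bk σ n h y d → lab lb (itm σ n h (σ d)) = lab lb (y + 1) := by
    intro y d k
    rcases bk_step H k with k1 | k1
    · rw [itm_gap H k1.1 (k1.2 y k.1)]
    · rw [k1, itm_h H (H.nx y k.1).1, K.l3 y k.1]
  refine ⟨C.cls.inv, C.fpf, C.cls.gen, inn_a H C.cls.inv, out_s H, oI, fun d => ?_,
    fun d i k => ((pos_iff H K).1 k).1, fun i j hij => ?_, fun f u f1 f2 => ?_,
    fun f f1 f2 d d' k1 k2 => ?_, fun d => lab lb (itm σ n h d), fun d k1 k2 => ?_, ?_,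
    fun d i k => congrArg (lab lb) ((pos_iff H K).1 k).2.2⟩
  · unfold pos
    split_ifs with k
    · exact iff_of_true rfl k
    · exact iff_of_false not_false k
  · induction j, hij using Nat.le_induction with
    | base => exact fun _ => le_rfl
    | succ j hij ih =>
      exact fun hj => (ih (by omega)).trans (Nat.le_of_ble_eq_true (cj_iff.1 (K.lk j hj)).1)
  · refine ⟨fun i => f (stt σ h (R.getD i 0)), fun i hi hl => ?_, fun d i hd hu => ?_⟩
    · have hi' : i < R.length := by omega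
      have k1 : wk e 500 (nxt e (R.getD i 0)) = R.getD (i + 1) 0 := by
        rcases dj_iff.1 (cj_iff.1 (K.lk i hi)).2 with k | k
        · exact absurd hl (beq_false.1 (ng_iff.1 k))
        · rw [← frc_eq (nxt e (R.getD i 0)) (wk e 500)]
          exact Nat.eq_of_beq_eq_true k
      have k2 : R.getD i 0 ∈ R := by
        rw [List.getD_eq_getElem _ _ hi']
        exact List.getElem_mem hi'
      simp only
      rw [ps_eq H K u hi', ← k1]
      generalize R.getD i 0 = v at k2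
      have e1 : nxt e v = sel (Nat.beq (v % 64) 0) (v + 1) (enx e (v - 1)) := rfl
      rw [e1, sel_beq]
      rcases K.it v k2 with ⟨k3, k4⟩ | ⟨y, y1, -, rfl⟩
      · rw [if_pos (Nat.mod_eq_zero_of_dvd k3.2.2), wk_spec H f f2 _ _ (Or.inr ⟨v, k3, rfl⟩),
          stt_gap k3, stt_dart k3, sm_dart H u k3, f1 _ fun k => (inn_h H k3).1 k k4]
      · rw [if_neg (by have := y1.2.2; omega), Nat.add_sub_cancel,
          wk_spec H f f2 _ _ (Or.inl (H.nx y y1).1), stt_gap y1, stt_dart (H.nx y y1).1,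
          (gap_walk H f u f1 y1).1]
    · obtain ⟨k1, k2, k3⟩ := (pos_iff H K).1 hd
      simp only
      rw [← k3]
      obtain ⟨y, k0, ⟨k4, k5⟩ | ⟨k4, k5⟩⟩ := itm_cases H k2
      · rw [k5, stt_dart k0.1, k4]
      · rw [k5, stt_gap k0.1]
        exact (gap_walk H f u f1 k0.1).2 d k0 k4 fun x x1 x2 => hu x ((pos_iff H K).2
          ⟨k1, bk_in x1, by rw [itm_gap H x1 x2, ← k3, k5]⟩)
  · have g : ∀ d, ¬ out σ n h d → f d = f (h (own σ n h d)) := fun d k =>
      (perm_sc_le (s := Setoid.ker f) (fun w => (f1 w).symm) (bk_sc (own_bk k))).symm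
    rw [g d k1, g d' k2]
    exact (vchk_spec H ord 0 V).2.2 f f1 f2 (fun y _ k => absurd k (tb_zero y)) _ _
      (own_bk k1).1 (own_bk k2).1
  · obtain ⟨y, k0, ⟨k4, k5⟩ | ⟨k4, k5⟩⟩ := itm_cases H k1
    · simp only
      rw [ls y d k0, k5, K.l1 y k0.1 (by_contra fun k => k2 ⟨y, k0.1, k, k4⟩)]
    · simp only
      rw [ls y d k0, k5]
  · rintro d ⟨y, y1, y2, rfl⟩
    obtain ⟨k1, -, k3⟩ := al_spec H y1 y2
    simp only
    rw [← k3, ls _ _ (bk_refl k1), itm_h H y1, K.l2 y y1 y2]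

end Pool.Agent.Lib.G6.B
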