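import Pool.Agent.Lib.G6.BSurv

set_option autoImplicit false

namespace Pool.Agent.Lib.G6.B

/-- break flags of a list of positions -/
def brk (ho : ℕ → ℕ) : ℕ → List ℕ → List Bool
  | _, [] => []
  | prev, p :: L => (!(Nat.beq (ho p) prev)) :: brk ho (ho p) L

/-- a bit, switched or not -/
def fb (b : Bool) (t : ZMod 2) : Bool := if t = 0 then b else !b

/-- a digit, switched or not -/
def fl (d : Option Bool) (t : ZMod 2) : Option Bool := d.map fun b => fb b t

/-- classes of positions with the switchings they allow -/
structure Cls (x : ℕ → Option Bool) (ho : ℕ → ℕ) (r : ℕ) (e : ℕ → ℕ → Prop) (fr : ℕ → Prop)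
    (Y : (ℕ → ZMod 2) → Prop) : Prop where
  refl : ∀ i, x i ≠ none → e i i
  symm : ∀ i j, e i j → e j i
  trans : ∀ i j k, e i j → e j k → e i k
  frc : ∀ i j, e i j → fr j → fr i
  hole : ∀ i j, e i j → ho i = ho j
  mono : ∀ i j, i ≤ j → j < r → ho i ≤ ho j
  cross : ∀ i j k l, i < j → j < k → k < l → l < r → e i k → e j l → e i j
  zero : Y 0
  one : ∀ w i, Y w → x i ≠ none → fr i → Y (w + Pi.single i 1)
  two : ∀ w i j, Y w → x i ≠ none → x j ≠ none → e i j → Y (w + Pi.single i 1 + Pi.single j 1)

open Classical in
/-- parity of the number of class members in a list -/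
noncomputable def cnt (x : ℕ → Option Bool) (e : ℕ → ℕ → Prop) (p : ℕ) (L : List ℕ) : ZMod 2 :=
  (L.map fun l => if x l ≠ none ∧ e p l then (1 : ZMod 2) else 0).sum

section
open Classical
variable {x : ℕ → Option Bool} {e : ℕ → ℕ → Prop}

theorem cnt_nil (p : ℕ) : cnt x e p [] = 0 := rfl

theorem cnt_cons (p l : ℕ) (L : List ℕ) :
    cnt x e p (l :: L) = (if x l ≠ none ∧ e p l then (1 : ZMod 2) else 0) + cnt x e p L := by
  simp only [cnt, List.map_cons, List.sum_cons]

theorem cnt_zero (p : ℕ) (L : List ℕ) (h : ∀ l ∈ L, ¬ (x l ≠ none ∧ e p l)) : cnt x e p L = 0 := by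
  induction L with
  | nil => rfl
  | cons l L ih =>
    rw [cnt_cons, if_neg (h l List.mem_cons_self), zero_add]
    exact ih fun m hm => h m (List.mem_cons_of_mem _ hm)

end

theorem fb_zero (b : Bool) : fb b 0 = b := if_pos rfl

theorem fb_one (b : Bool) : fb b 1 = !b := if_neg (by decide)

theorem surv_aux {x : ℕ → Option Bool} {ho : ℕ → ℕ} {r : ℕ} {e : ℕ → ℕ → Prop} {fr : ℕ → Prop}
    {Y : (ℕ → ZMod 2) → Prop} (h : Cls x ho r e fr Y) : ∀ (L st : List ℕ) (prev : ℕ)
    (F : List Bool → List (Option Bool) → Prop),
    (∀ q ∈ st, x q ≠ none ∧ ¬ fr q ∧ ho q = prev ∧ ∀ l ∈ L, q < l) →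
    st.Pairwise (fun a b => b < a ∧ ¬ e a b) →
    (∀ p, x p ≠ none → ¬ fr p → cnt x e p st + cnt x e p L = 0) →
    L.Pairwise (· < ·) → (∀ l ∈ L, l < r) →
    (∀ w, Y w → (∀ i, w i ≠ 0 → i ∈ st ∨ i ∈ L) →
      F (st.map fun q => fb ((x q).getD false) (w q)) (L.map fun l => fl (x l) (w l))) →
    Surv (brk ho prev L) F (st.map fun q => (x q).getD false) (L.map x) := by
  classical
  have part : ∀ (L st : List ℕ) (q : ℕ), x q ≠ none → ¬ fr q →
      (q :: st).Pairwise (fun a b => b < a ∧ ¬ e a b) →
      (∀ p, x p ≠ none → ¬ fr p → cnt x e p (q :: st) + cnt x e p L = 0) →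
      ∃ l ∈ L, x l ≠ none ∧ e q l := by
    intro L st q h1 h2 h3 h4
    by_contra hc
    have h5 := h4 q h1 h2
    rw [cnt_cons, if_pos ⟨h1, h.refl q h1⟩,
      cnt_zero q st (fun l hl hh => ((List.pairwise_cons.1 h3).1 l hl).2 hh.2),
      cnt_zero q L (fun l hl hh => hc ⟨l, hl, hh⟩)] at h5
    exact absurd h5 (by decide)
  intro L
  induction L with
  | nil =>
    intro st prev F i1 i2 i3 _ _ hy
    cases st with
    | nil => exact ⟨rfl, rfl, hy 0 h.zero fun i hi => absurd rfl hi⟩
    | cons q st =>
      obtain ⟨l, hl, -⟩ := part [] st q (i1 q List.mem_cons_self).1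
        (i1 q List.mem_cons_self).2.1 i2 i3
      exact absurd hl List.not_mem_nil
  | cons p L ih =>
    intro st prev F i1 i2 i3 i4 i5 hy
    obtain ⟨i4a, i4b⟩ := List.pairwise_cons.1 i4
    have i5' : ∀ l ∈ L, l < r := fun l hl => i5 l (List.mem_cons_of_mem _ hl)
    have hps : ∀ q ∈ st, q ≠ p := fun q hq => (i1 q hq).2.2.2 p List.mem_cons_self |>.ne
    have hpL : ∀ l ∈ L, l ≠ p := fun l hl => (i4a l hl).ne'
    have hho : ∀ q ∈ st, ho q = ho p := by
      intro q hq
      cases st with
      | nil => exact absurd hq List.not_mem_nil
      | cons q' st =>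
        have k1 := i1 q' List.mem_cons_self
        obtain ⟨l, hl, -, hl2⟩ := part (p :: L) st q' k1.1 k1.2.1 i2 i3
        have k2 := h.hole _ _ hl2
        have k3 := h.mono q' p (k1.2.2.2 p List.mem_cons_self).le (i5 p List.mem_cons_self)
        have k4 : ho p ≤ ho l := by
          refine h.mono p l ?_ (i5 l hl)
          rcases List.mem_cons.1 hl with rfl | hl
          · exact le_rfl
          · exact (i4a l hl).le
        rw [(i1 q hq).2.2.1, ← k1.2.2.1]
        omega
    have hbr : (!(Nat.beq (ho p) prev)) = true → st.map (fun q => (x q).getD false) = [] := by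
      intro hb
      cases st with
      | nil => rfl
      | cons q st =>
        rw [← hho q List.mem_cons_self, (i1 q List.mem_cons_self).2.2.1, Nat.beq_refl] at hb
        exact absurd hb (by decide)
    have i1' : ∀ q ∈ st, x q ≠ none ∧ ¬ fr q ∧ ho q = ho p ∧ ∀ l ∈ L, q < l := fun q hq =>
      ⟨(i1 q hq).1, (i1 q hq).2.1, hho q hq,
        fun l hl => (i1 q hq).2.2.2 l (List.mem_cons_of_mem _ hl)⟩
    have wk : ∀ (w : ℕ → ZMod 2), (∀ i, w i ≠ 0 → i ∈ st ∨ i ∈ L) →
        ∀ i, w i ≠ 0 → i ∈ st ∨ i ∈ p :: L := fun w hw i hi =>
      (hw i hi).imp_right (List.mem_cons_of_mem _)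
    rw [brk, List.map_cons]
    cases hx : x p with
    | none =>
      refine ⟨hbr, ih st (ho p) _ i1' i2 (fun q h1 h2 => ?_) i4b i5' fun w hw hs => ?_⟩
      · have := i3 q h1 h2
        rwa [cnt_cons, if_neg (fun hh => hh.1 hx), zero_add] at this
      · have := hy w hw (wk w hs)
        rwa [List.map_cons, hx] at this
    | some b =>
      have hxp : x p ≠ none := by rw [hx]; exact Option.some_ne_none b
      refine ⟨hbr, ?_⟩
      by_cases hf : fr p
      · refine Or.inl (ih st (ho p) _ i1' i2 (fun q h1 h2 => ?_) i4b i5' fun w hw hs => ?_)
        · have := i3 q h1 h2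
          rwa [cnt_cons, if_neg (fun hh => h2 (h.frc _ _ hh.2 hf)), zero_add] at this
        · have w0 : w p = 0 := by
            by_contra hc
            rcases hs p hc with k | k
            · exact hps p k rfl
            · exact hpL p k rfl
          have k1 := hy w hw (wk w hs)
          have k2 := hy _ (h.one w p hw hxp hf) (fun i hi => by
            by_cases hip : i = p
            · exact Or.inr (hip ▸ List.mem_cons_self)
            · rw [Pi.add_apply, Pi.single_eq_of_ne hip, add_zero] at hi
              exact wk w hs i hi)
          rw [List.map_cons, hx, w0] at k1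
          rw [List.map_cons, hx, Pi.add_apply, w0, Pi.single_eq_same, zero_add,
            List.map_congr_left (l := st) (g := fun q => fb ((x q).getD false) (w q))
              (fun q hq => by rw [Pi.add_apply, Pi.single_eq_of_ne (hps q hq), add_zero]),
            List.map_congr_left (l := L) (g := fun l => fl (x l) (w l))
              (fun q hq => by rw [Pi.add_apply, Pi.single_eq_of_ne (hpL q hq), add_zero])] at k2
          simp only [fl, Option.map_some, fb_zero, fb_one] at k1 k2 ⊢
          cases b
          · exact ⟨k1, k2⟩
          · exact ⟨k2, k1⟩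
      · by_cases hq : ∃ q ∈ st, e p q
        · obtain ⟨q0, hq0, hq1⟩ := hq
          cases st with
          | nil => exact absurd hq0 List.not_mem_nil
          | cons q st =>
            obtain ⟨i2a, i2b⟩ := List.pairwise_cons.1 i2
            have k0 := i1 q List.mem_cons_self
            have hpq : e p q := by
              rcases List.mem_cons.1 hq0 with rfl | hq0
              · exact hq1
              · obtain ⟨l, hl, -, hl2⟩ := part (p :: L) st q k0.1 k0.2.1 i2 i3
                rcases List.mem_cons.1 hl with rfl | hl
                · exact h.symm _ _ hl2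
                · exact absurd (h.symm _ _ (h.cross q0 q p l (i2a q0 hq0).1
                    (k0.2.2.2 p List.mem_cons_self) (i4a l hl) (i5' l hl) (h.symm _ _ hq1) hl2))
                    (i2a q0 hq0).2
            refine Or.inr (Or.inr ⟨(x q).getD false, st.map fun q => (x q).getD false, rfl,
              ih st (ho p) _ (fun a ha => i1' a (List.mem_cons_of_mem _ ha)) i2b
                (fun a h1 h2 => ?_) i4b i5' fun w hw hs => ?_⟩)
            · have := i3 a h1 h2
              rw [cnt_cons, cnt_cons] at this
              by_cases ha : e a p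
              · rw [if_pos ⟨k0.1, h.trans _ _ _ ha hpq⟩, if_pos ⟨hxp, ha⟩] at this
                revert this
                generalize cnt x e a st = y
                generalize cnt x e a L = z
                revert y z
                decide
              · rwa [if_neg (fun hh => ha (h.trans _ _ _ hh.2 (h.symm _ _ hpq))),
                  if_neg (fun hh => ha hh.2), zero_add, zero_add] at this
            · have hqs : ∀ a ∈ st, a ≠ q := fun a ha => (i2a a ha).1.ne
              have hqL : ∀ l ∈ L, l ≠ q := fun l hl =>
                (k0.2.2.2 l (List.mem_cons_of_mem _ hl)).ne'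
              have hps' : ∀ a ∈ st, a ≠ p := fun a ha => hps a (List.mem_cons_of_mem _ ha)
              have hqp : q ≠ p := hps q List.mem_cons_self
              have w0 : w p = 0 := by
                by_contra hc
                rcases hs p hc with k | k
                · exact hps' p k rfl
                · exact hpL p k rfl
              have w1 : w q = 0 := by
                by_contra hc
                rcases hs q hc with k | k
                · exact hqs q k rfl
                · exact hqL q k rfl
              have hs' : ∀ i, w i ≠ 0 → i ∈ q :: st ∨ i ∈ p :: L := fun i hi =>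
                (hs i hi).imp (List.mem_cons_of_mem _) (List.mem_cons_of_mem _)
              have k1 := hy w hw hs'
              have k2 := hy _ (h.two w p q hw hxp k0.1 hpq) (fun i hi => by
                by_cases hip : i = p
                · exact Or.inr (hip ▸ List.mem_cons_self)
                · by_cases hiq : i = q
                  · exact Or.inl (hiq ▸ List.mem_cons_self)
                  · rw [Pi.add_apply, Pi.add_apply, Pi.single_eq_of_ne hip,
                      Pi.single_eq_of_ne hiq, add_zero, add_zero] at hi
                    exact hs' i hi)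
              rw [List.map_cons, List.map_cons, hx, w0, w1] at k1
              rw [List.map_cons, List.map_cons, hx,
                List.map_congr_left (l := st) (g := fun q => fb ((x q).getD false) (w q))
                  (fun a ha => by rw [Pi.add_apply, Pi.add_apply, Pi.single_eq_of_ne (hps' a ha),
                    Pi.single_eq_of_ne (hqs a ha), add_zero, add_zero]),
                List.map_congr_left (l := L) (g := fun l => fl (x l) (w l))
                  (fun a ha => by rw [Pi.add_apply, Pi.add_apply, Pi.single_eq_of_ne (hpL a ha),
                    Pi.single_eq_of_ne (hqL a ha), add_zero, add_zero])] at k2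
              simp only [Pi.add_apply, w0, w1, Pi.single_eq_same, Pi.single_eq_of_ne hqp,
                Pi.single_eq_of_ne hqp.symm, zero_add, add_zero] at k2
              simp only [fl, Option.map_some, fb_zero, fb_one] at k1 k2 ⊢
              generalize (x q).getD false = y at *
              cases b <;> cases y
              · exact ⟨k1, k2⟩
              · exact ⟨k2, k1⟩
              · exact ⟨k1, k2⟩
              · exact ⟨k2, k1⟩
        · have e1 : b :: st.map (fun q => (x q).getD false) =
              (p :: st).map fun q => (x q).getD false := by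
            rw [List.map_cons, hx]; rfl
          refine Or.inr (Or.inl ?_)
          rw [e1]
          refine ih (p :: st) (ho p) _ (fun a ha => ?_) (List.pairwise_cons.2 ⟨fun a ha =>
            ⟨(i1 a ha).2.2.2 p List.mem_cons_self, fun hh => hq ⟨a, ha, hh⟩⟩, i2⟩)
            (fun a h1 h2 => ?_) i4b i5' fun w hw hs => ?_
          · rcases List.mem_cons.1 ha with rfl | ha
            · exact ⟨hxp, hf, rfl, i4a⟩
            · exact i1' a ha
          · have := i3 a h1 h2
            rw [cnt_cons] at this ⊢
            exact Eq.trans (by ring) this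
          · have k1 := hy w hw fun i hi => by
              rcases hs i hi with k | k
              · rcases List.mem_cons.1 k with rfl | k
                · exact Or.inr List.mem_cons_self
                · exact Or.inl k
              · exact Or.inr (List.mem_cons_of_mem _ k)
            rw [List.map_cons, hx] at k1
            rw [List.map_cons, hx]
            exact k1

end Pool.Agent.Lib.G6.B
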