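import Pool.Agent.Lib.G6.BBits

set_option autoImplicit false

namespace Pool.Agent.Lib.G6.B

/-- value of a digit -/
def dv : Option Bool → ℕ
  | none => 0
  | some false => 1
  | some true => 2

/-- the number with the given digits, leading digit first -/
def code : List (Option Bool) → ℕ
  | [] => 0
  | d :: t => dv d * 3 ^ t.length + code t

theorem dv_lt (d : Option Bool) : dv d < 3 := by
  rcases d with _ | _ | _ <;> decide

theorem code_lt (t : List (Option Bool)) : code t < 3 ^ t.length := by
  induction t with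
  | nil => decide
  | cons d t ih =>
    have := dv_lt d
    rw [code, List.length_cons, pow_succ]
    nlinarith

/-- the family after an opening bracket -/
def opF (F : List Bool → List (Option Bool) → Prop) : List Bool → List (Option Bool) → Prop
  | [], _ => False
  | y :: β, t => F β (some y :: t)

/-- some non-crossing system of pairs and singles has all its switchings in `F` -/
def Surv : List Bool → (List Bool → List (Option Bool) → Prop) → List Bool →
    List (Option Bool) → Prop
  | [], F, β, t => β = [] ∧ t = [] ∧ F [] []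
  | _ :: _, _, _, [] => False
  | br :: bs, F, β, none :: t => (br = true → β = []) ∧ Surv bs (fun β t => F β (none :: t)) β t
  | br :: bs, F, β, some x :: t => (br = true → β = []) ∧
      (Surv bs (fun β t => F β (some false :: t) ∧ F β (some true :: t)) β t ∨
        Surv bs (opF F) (x :: β) t ∨
        ∃ y β', β = y :: β' ∧ Surv bs (fun β t => F (false :: β) (some (xor x y) :: t) ∧
          F (true :: β) (some (!(xor x y)) :: t)) β' t)

theorem cap_cons (b : Bool) (bs : List Bool) : cap (b :: bs) = sel b 0 (cap bs + 1) := rfl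

theorem len_eq {α : Type} (l : List α) : len l = l.length := by
  induction l with
  | nil => rfl
  | cons a l ih => exact congrArg Nat.succ ih

theorem surv_len : ∀ (bs : List Bool) (F : List Bool → List (Option Bool) → Prop) (β : List Bool)
    (t : List (Option Bool)), Surv bs F β t → t.length = bs.length ∧ β.length ≤ cap bs
  | [], F, β, t, h => by
    obtain ⟨rfl, rfl, -⟩ := h
    exact ⟨rfl, le_rfl⟩
  | _ :: _, _, _, [], h => h.elim
  | br :: bs, F, β, none :: t, h => by
    obtain ⟨h1, h2⟩ := h
    obtain ⟨h3, h4⟩ := surv_len _ _ _ _ h2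
    refine ⟨congrArg Nat.succ h3, ?_⟩
    rw [cap_cons]
    cases br with
    | true => simp [h1 rfl]
    | false => rw [sel_false]; omega
  | br :: bs, F, β, some x :: t, h => by
    obtain ⟨h1, h2⟩ := h
    have : t.length = bs.length ∧ β.length ≤ cap bs + 1 := by
      rcases h2 with h2 | h2 | ⟨y, β', rfl, h2⟩ <;> obtain ⟨h3, h4⟩ := surv_len _ _ _ _ h2 <;>
        refine ⟨h3, ?_⟩ <;> (try simp only [List.length_cons] at *) <;> omega
    refine ⟨congrArg Nat.succ this.1, ?_⟩
    rw [cap_cons]
    cases br with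
    | true => simp [h1 rfl]
    | false => exact this.2

/-- families of patterns, indexed by the colours of the open brackets -/
abbrev Fam : Type := List Bool → List (Option Bool) → Prop

/-- exchange of the two colours -/
def nf : Option Bool → Option Bool
  | none => none
  | some b => some (!b)

/-- invariance under the exchange of the two colours -/
def Sym (F : Fam) : Prop := ∀ β t, F β t → F (β.map not) (t.map nf)

def fS (F : Fam) : Fam := fun β t => F β (none :: t)
def fG (F : Fam) : Fam := fun β t => F β (some false :: t) ∧ F β (some true :: t)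
def fC (F : Fam) (c : Bool) : Fam :=
  fun β t => F (false :: β) (some c :: t) ∧ F (true :: β) (some (!c) :: t)

theorem Sym.s {F : Fam} (h : Sym F) : Sym (fS F) := fun β t k => h β (none :: t) k

theorem Sym.g {F : Fam} (h : Sym F) : Sym (fG F) := fun β t k =>
  ⟨h β (some true :: t) k.2, h β (some false :: t) k.1⟩

theorem Sym.o {F : Fam} (h : Sym F) : Sym (opF F)
  | [], _, k => k.elim
  | y :: β, t, k => h β (some y :: t) k

theorem Sym.c {F : Fam} (h : Sym F) (c : Bool) : Sym (fC F c) := fun β t k => by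
  have k1 := h _ _ k.1
  have k2 := h _ _ k.2
  cases c
  · exact ⟨k2, k1⟩
  · exact ⟨k2, k1⟩

theorem surv_self : ∀ (bs : List Bool) (F : Fam) (β : List Bool) (t : List (Option Bool)),
    Surv bs F β t → F β t ∧ F (β.map not) (t.map nf)
  | [], F, β, t, h => by
    obtain ⟨rfl, rfl, h⟩ := h
    exact ⟨h, h⟩
  | _ :: _, _, _, [], h => h.elim
  | _ :: bs, F, β, none :: t, h => surv_self bs (fS F) β t h.2
  | _ :: bs, F, β, some x :: t, h => by
    rcases h.2 with h2 | h2 | ⟨y, β', rfl, h2⟩
    · obtain ⟨k1, k2⟩ := surv_self bs (fG F) β t h2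
      cases x
      · exact ⟨k1.1, k2.2⟩
      · exact ⟨k1.2, k2.1⟩
    · exact surv_self bs (opF F) (x :: β) t h2
    · obtain ⟨k1, k2⟩ := surv_self bs (fC F (xor x y)) β' t h2
      cases x <;> cases y
      · exact ⟨k1.1, k2.2⟩
      · exact ⟨k1.2, k2.1⟩
      · exact ⟨k1.1, k2.2⟩
      · exact ⟨k1.2, k2.1⟩

theorem surv_mir : ∀ (bs : List Bool) (F : Fam) (β : List Bool) (t : List (Option Bool)),
    Sym F → Surv bs F β t → Surv bs F (β.map not) (t.map nf)
  | [], F, β, t, _, h => by
    obtain ⟨rfl, rfl, h⟩ := h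
    exact ⟨rfl, rfl, h⟩
  | _ :: _, _, _, [], _, h => h.elim
  | _ :: bs, F, β, none :: t, s, h =>
    ⟨fun k => by rw [h.1 k]; rfl, surv_mir bs (fS F) β t s.s h.2⟩
  | _ :: bs, F, β, some x :: t, s, h => by
    refine ⟨fun k => by rw [h.1 k]; rfl, ?_⟩
    rcases h.2 with h2 | h2 | ⟨y, β', rfl, h2⟩
    · exact Or.inl (surv_mir bs (fG F) β t s.g h2)
    · exact Or.inr (Or.inl (surv_mir bs (opF F) (x :: β) t s.o h2))
    · refine Or.inr (Or.inr ⟨!y, β'.map not, rfl, ?_⟩)
      have := surv_mir bs (fC F (xor x y)) β' t (s.c _) h2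
      cases x <;> cases y <;> exact this

theorem nf2 (t : List (Option Bool)) : (t.map nf).map nf = t := by
  induction t with
  | nil => rfl
  | cons d t ih =>
    simp only [List.map_cons, ih]
    rcases d with _ | _ | _ <;> rfl

/-- masks for at least `a` blocks -/
def MK (k : Mk) (w a : ℕ) : Prop :=
  ∃ M, k = mkM w M ∧ ∀ i t, i < a → t < w → tb M (3 * w * i + t)

theorem mw1_ok (w a : ℕ) : MK (mw1 w (Nat.log2 (a - 1) + 1)) w a :=
  ⟨_, rfl, fun i t hi ht => tb_rp2 w _ i t (lt_log hi) ht⟩

theorem mw_ok (w a : ℕ) : MK (mw w a) w a := by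
  unfold mw
  rw [frc_eq]
  exact mw1_ok w a

theorem tb_mk {k : Mk} {w a i t : ℕ} (hk : MK k w a) (d : Option Bool) (hi : i < a) (ht : t < w) :
    tb ((P3.mk k.1 k.2 k.3).get (dv d)) (3 * w * i + dv d * w + t) := by
  obtain ⟨M, rfl, hM⟩ := hk
  have hM := hM i t hi ht
  rcases d with _ | _ | _ <;> simp only [dv, P3.get, mkM, Nat.mul_eq]
  · rw [zero_mul, add_zero]; exact hM
  · exact tb_shl hM (by ring)
  · exact tb_shl hM (by ring)

theorem tb_flp {k : Mk} {X w a i t : ℕ} (hk : MK k w a) (b : Bool) (hi : i < a) (ht : t < w)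
    (h : tb X (3 * w * i + dv (some (!b)) * w + t)) :
    tb (flp X w k.2 k.3) (3 * w * i + dv (some b) * w + t) := by
  have hM := tb_mk hk (some b) hi ht
  cases b <;> simp only [dv, Bool.not_false, Bool.not_true] at h hM ⊢
  · exact tb_lor.2 (Or.inr (tb_land.2 ⟨tb_shr h (by ring), hM⟩))
  · exact tb_lor.2 (Or.inl (tb_land.2 ⟨tb_shl h (by ring), hM⟩))

/-- the operation acts on one digit as `f` -/
def Act (o : ℕ → ℕ → Mk → ℕ) (f : Option Bool → Option Bool) : Prop :=
  ∀ X w a k i t d, MK k w a → i < a → t < w → tb X (3 * w * i + dv d * w + t) →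
    tb (o X w k) (3 * w * i + dv (f d) * w + t)

theorem act_mir : Act mir1 nf := by
  intro X w a k i t d hk hi ht h
  cases d with
  | none => exact tb_lor.2 (Or.inr (tb_land.2 ⟨h, tb_mk hk none hi ht⟩))
  | some b => exact tb_lor.2 (Or.inl (tb_flp hk (!b) hi ht (by rwa [Bool.not_not])))

theorem tb_dgt {o : ℕ → ℕ → Mk → ℕ} {f : Option Bool → Option Bool} (ho : Act o f) :
    ∀ (t : List (Option Bool)) (a X i : ℕ), i < a → tb X (i * 3 ^ t.length + code t) →
    tb ((dgt o t.length a).1 X) (i * 3 ^ t.length + code (t.map f)) := by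
  intro t
  induction t with
  | nil => intro a X i _ h; exact h
  | cons d t ih =>
    intro a X i hi h
    have e : dgt o (d :: t).length a = frc (3 ^ t.length) fun w => frc (3 * a) fun a' =>
      frc (Nat.log2 (a - 1) + 1) fun j => ⟨fun X => (dgt o t.length a').1 (o X w (mw1 w j))⟩ := rfl
    rw [e, frc_eq, frc_eq, frc_eq]
    have := dv_lt (f d)
    have h1 := ih (3 * a) _ (3 * i + dv (f d)) (by omega) (by
      have := ho X _ a _ i _ d (mw1_ok _ a) hi (code_lt t) (by
        convert h using 1
        rw [code, List.length_cons]; ring)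
      convert this using 1
      ring)
    convert h1 using 1
    rw [List.map_cons, code, List.length_map, List.length_cons]
    ring

theorem tb_mir' {t : List (Option Bool)} {p a X i : ℕ} (hp : t.length = p) (hi : i < a)
    (h : tb X (i * 3 ^ p + code (t.map nf))) : tb ((dgt mir1 p a).1 X) (i * 3 ^ p + code t) := by
  have := tb_dgt act_mir (t.map nf) a X i hi (by rwa [List.length_map, hp])
  rwa [List.length_map, hp, nf2] at this

/-- the first open bracket has the first colour -/
def Nm : List Bool → Prop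
  | [] => True
  | x :: β => (β = [] → x = false) ∧ Nm β

/-- the arrays contain the family at cell `j` -/
def Cov (A : List Bool → ℕ) (F : Fam) (h p j : ℕ) : Prop :=
  ∀ β t, Nm β → β.length = h → t.length = p → F β t → tb (A β) (j * 3 ^ p + code t)

/-- the arrays `R` contain the surviving patterns of the arrays `A` -/
def Sol (bs : List Bool) (l : ℕ → ℕ) (A R : List Bool → ℕ) : Prop :=
  ∀ G β t i, Sym G → Nm β → Surv bs G β t → i < l β.length → Cov A G β.length bs.length i →
    tb (R β) (i * 3 ^ bs.length + code t)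

/-- the five pieces are solved -/
structure US (bs : List Bool) (L : ℕ → ℕ) (Q U : List Bool → P5) : Prop where
  o : Sol bs (lp L) (qo Q) (qo U)
  s : Sol bs (l0 L) (qs Q) (qs U)
  g : Sol bs (l0 L) (qg Q) (qg U)
  c : Sol bs (l1 L) (qc Q) (qc U)
  d : Sol bs (l1 L) (qd Q) (qd U)

/-- the rows contain the family at cell `i` of row `q` -/
def CovR (A : List Bool → P3) (F : Fam) (h p q i : ℕ) : Prop :=
  Cov (fun β => (A β).get q) F h p i

/-- the rows `R` contain the surviving patterns of the rows `A` -/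
def SolR (bs : List Bool) (L : ℕ → ℕ) (A R : List Bool → P3) : Prop :=
  ∀ G β t q i, Sym G → Nm β → Surv bs G β t → q < 3 → 3 * i + q < l0 L β.length →
    CovR A G β.length bs.length q i → tb ((R β).get q) (i * 3 ^ bs.length + code t)

theorem ble_mul {v a b : ℕ} (hv : 0 < v) : Nat.ble (v * a) (v * b) = decide (a ≤ b) := by
  rw [Bool.eq_iff_iff, Nat.ble_eq, decide_eq_true_iff]
  exact Nat.mul_le_mul_left_iff hv

noncomputable def AS (v u c n : ℕ) : A3 := sel (Nat.ble (v * n) (v * u))
  (asA (v * n) (v * c) (v * c + v * u - v * n)) (asB (v * n) (v * u) (2 * (v * n) - v * u))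

noncomputable def UN (a v u c n : ℕ) : U5 := sel (Nat.ble (v * n) (v * u))
  (unA a (v * n) (v * c) (v * c + v * u - v * n)) (unB a (v * n) (v * u) (2 * (v * n) - v * u))

/-- block `j` of a piece has a cell -/
def Pl (a v u c : ℕ) (f : ℕ → ℕ → ℕ → ℕ) (g : P5 → ℕ) (j : ℕ) : Prop :=
  ∃ q i, q < 3 ∧ 3 * i + q < ln (2 * u + c) ∧
    (∀ y z o t, tb (f y z o) (j * v + t) →
      tb (((AS v u c ((2 * u + c + 2) / 3)).1 y z o).get q) (i * v + t)) ∧
    ∀ R t, tb (P3.get R q) (i * v + t) → tb (g ((UN a v u c ((2 * u + c + 2) / 3)).1 R)) (j * v + t)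

theorem plc (a : ℕ) {v : ℕ} (hv : 0 < v) (u c : ℕ) :
    (∀ j < u, Pl a v u c (fun y _ _ => y) (fun x => x.2) j) ∧
    (∀ j < u, Pl a v u c (fun _ z _ => z) (fun x => x.3) j) ∧
    ∀ j < c, Pl a v u c (fun _ _ o => o) (fun x => x.1) j := by
  unfold Pl AS UN
  have hl : 2 * u + c ≤ ln (2 * u + c) ∧ ((2 * u + c) % 3 = 1 → 1 < 2 * u + c →
      2 * u + c < ln (2 * u + c)) := by
    rw [ln_eq]
    split_ifs <;> omega
  generalize ln (2 * u + c) = l at hl
  generalize hn : (2 * u + c + 2) / 3 = n
  rw [ble_mul hv]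
  by_cases h : n ≤ u
  · obtain ⟨w, rfl⟩ := Nat.exists_eq_add_of_le h
    have e : v * c + v * (n + w) - v * n = v * (c + w) := by
      rw [mul_add, mul_add]; omega
    rw [decide_eq_true h, sel_true, sel_true, e]
    refine ⟨fun j hj => ?_, fun j hj => ?_, fun j hj => ?_⟩
    · by_cases hk : j < n
      · exact ⟨0, j, by omega, by omega, fun _ _ _ _ h => h, fun _ _ h => tb_catl h⟩
      · obtain ⟨k, rfl⟩ := Nat.exists_eq_add_of_le (not_lt.1 hk)
        exact ⟨2, c + k, by omega, by omega,
          fun _ _ _ t h => tb_catl (tb_catr (tb_shr h (i := k * v + t) (by ring)) (by ring)),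
          fun _ t h => tb_catr (tb_shr h (i := k * v + t) (by ring)) (by ring)⟩
    · by_cases hk : j < n
      · exact ⟨1, j, by omega, by omega, fun _ _ _ _ h => h, fun _ _ h => tb_catl h⟩
      · obtain ⟨k, rfl⟩ := Nat.exists_eq_add_of_le (not_lt.1 hk)
        exact ⟨2, c + w + k, by omega, by omega,
          fun _ _ _ t h => tb_catr (tb_shr h (i := k * v + t) (by ring)) (by ring),
          fun _ t h => tb_catr (tb_shr h (i := k * v + t) (by ring)) (by ring)⟩
    · exact ⟨2, j, by omega, by omega, fun _ _ _ _ h => tb_catl (tb_catl h), fun _ _ h => h⟩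
  · obtain ⟨w, rfl⟩ := Nat.exists_eq_add_of_le (not_le.1 h).le
    have e : 2 * (v * (u + w)) - v * u = v * (u + w + w) := by
      rw [mul_add, mul_add, mul_add, mul_add]; omega
    rw [decide_eq_false h, sel_false, sel_false, e]
    refine ⟨fun j hj => ⟨1, j, by omega, by omega, fun _ _ _ _ h => tb_catl h, fun _ _ h => h⟩,
      fun j hj => ⟨2, j, by omega, by omega, fun _ _ _ _ h => tb_catl h, fun _ _ h => h⟩,
      fun j hj => ?_⟩
    by_cases hk : j < u + w
    · exact ⟨0, j, by omega, by omega, fun _ _ _ _ h => h, fun _ _ h => tb_catl (tb_catl h)⟩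
    · obtain ⟨k, rfl⟩ := Nat.exists_eq_add_of_le (not_lt.1 hk)
      by_cases k' : k < w
      · exact ⟨1, u + k, by omega, by omega,
          fun _ _ _ t h => tb_catr (tb_shr h (i := k * v + t) (by ring)) (by ring),
          fun _ t h => tb_catl (tb_catr (tb_shr h (i := k * v + t) (by ring)) (by ring))⟩
      · obtain ⟨r, rfl⟩ := Nat.exists_eq_add_of_le (not_lt.1 k')
        exact ⟨2, u + r, by omega, by omega,
          fun _ _ _ t h => tb_catr (tb_shr h (i := r * v + t) (by ring)) (by ring),
          fun _ t h => tb_catr (tb_shr h (i := r * v + t) (by ring)) (by ring)⟩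

theorem un4 (a v u c n : ℕ) (R : P3) : ((UN a v u c n).1 R).4 = Nat.shiftRight ((UN a v u c n).1 R).2 a ∧
    ((UN a v u c n).1 R).5 = Nat.shiftRight ((UN a v u c n).1 R).3 a := by
  unfold UN
  cases Nat.ble (v * n) (v * u) <;> exact ⟨rfl, rfl⟩

theorem dep_eq (α : Type) (β : List Bool) (k : ℕ → α) : (dep α β).1 k = k β.length := by
  unfold dep
  rw [frc_eq, len_eq]

theorem el_cons (α : Type) (x : Bool) (β : List Bool) (n : α) (f t : ℕ → List Bool → α) :
    (el α (x :: β)).1 n f t = sel x (t (β.length + 1) β) (f (β.length + 1) β) := by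
  have e : el α (x :: β) = frc (len (x :: β)) fun h =>
    sel x ⟨fun _ _ t => t h β⟩ ⟨fun _ f _ => f h β⟩ := rfl
  rw [e, frc_eq, len_eq]
  cases x <;> rfl

section level

variable {v c : ℕ} {L : ℕ → ℕ}

theorem l0_eq (h : ℕ) : l0 L h = ln (L h) := by
  unfold l0
  rw [frc_eq]

theorem rc_eq (h : ℕ) : rc v c L h = ⟨sel (Nat.beq (L h) 0) (fun _ => ⟨0, 0, 0⟩) (fun x => x),
    mk v ((L h + 2) / 3), v * l0 L h,
    AS v (l0 L h + l1 L h) (lp L h) ((2 * (l0 L h + l1 L h) + lp L h + 2) / 3),
    sel (Nat.ble h c) (UN (v * l0 L h) v (l0 L h + l1 L h) (lp L h)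
      ((2 * (l0 L h + l1 L h) + lp L h + 2) / 3)) ⟨fun _ => ⟨0, 0, 0, 0, 0⟩⟩⟩ := by
  unfold rc AS UN
  rw [mul_add v (l0 L h)]
  simp only [frc_eq]
  rfl

theorem rc_g {h : ℕ} (k : L h ≠ 0) (x : P3) : (rc v c L h).1 x = x := by
  rw [rc_eq]
  cases hl : L h with
  | zero => exact absurd hl k
  | succ n => rfl

theorem rc_k (h : ℕ) : (rc v c L h).2 = mk v ((L h + 2) / 3) := by rw [rc_eq]

theorem pcs_cons (S : List Bool → P3) (W : MF) (x : Bool) (β : List Bool) :
    pcs S W (x :: β) = pc1 S (x :: β) ((S β).get (dv (some x))) := by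
  unfold pcs
  rw [el_cons]
  cases x <;> rfl

theorem asm_eq (D : ℕ → Rc) (S : List Bool → P3) (W : MF) (β : List Bool) :
    asm D S W β = (D β.length).4.1 (cat (qs (pcs S W) β) (D β.length).3 (qc (pcs S W) β))
      (cat (qg (pcs S W) β) (D β.length).3 (qd (pcs S W) β)) (qo (pcs S W) β) := by
  cases β with
  | nil => rfl
  | cons x β =>
    unfold asm qs qc qg qd qo
    rw [el_cons, pcs_cons]
    cases x <;> rfl

theorem bk_cons (D : ℕ → Rc) (W : MF) (U : List Bool → P5) (x : Bool) (β : List Bool) :
    bk v D W U (x :: β) = (D (β.length + 1)).1 (tr3 ⟨qs U (x :: β),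
      Nat.lor (Nat.lor (qg U (x :: β)) (qo U (false :: x :: β))) (sel x (qd U β) (qc U β)),
      Nat.lor (Nat.lor (qg U (x :: β)) (qo U (true :: x :: β))) (sel x (qc U β) (qd U β))⟩
      v (D (β.length + 1)).2) := by
  unfold bk
  rw [el_cons]
  cases x <;> rfl

end level

theorem us_go {bs : List Bool} {L : ℕ → ℕ} {S : List Bool → P3} {W : MF} {R : Fn}
    (h : SolR bs (nL (cap bs) L) (asm (rc (3 ^ bs.length) (cap bs) L) S W) R.1) :
    US bs L (pcs S W) (una (rc (3 ^ bs.length) (cap bs) L) R) := by
  have key : ∀ (f : ℕ → ℕ → ℕ → ℕ) (g : P5 → ℕ) (G : Fam) β t j, Sym G → Nm β → Surv bs G β t →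
      Pl (3 ^ bs.length * l0 L β.length) (3 ^ bs.length) (l0 L β.length + l1 L β.length)
        (lp L β.length) f g j →
      Cov (fun β' => f (cat (qs (pcs S W) β') (3 ^ bs.length * l0 L β.length) (qc (pcs S W) β'))
        (cat (qg (pcs S W) β') (3 ^ bs.length * l0 L β.length) (qd (pcs S W) β'))
        (qo (pcs S W) β')) G β.length bs.length j →
      tb (g ((UN (3 ^ bs.length * l0 L β.length) (3 ^ bs.length) (l0 L β.length + l1 L β.length)
        (lp L β.length) ((2 * (l0 L β.length + l1 L β.length) + lp L β.length + 2) / 3)).1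
        (R.1 β))) (j * 3 ^ bs.length + code t) := by
    rintro f g G β t j hG hn hs ⟨q, i, k1, k2, k3, k4⟩ hA
    refine k4 _ _ (h G β t q i hG hn hs k1 ?_ fun β' t' a0 a1 a2 a3 => ?_)
    · rw [l0_eq]
      unfold nL
      rw [Nat.ble_eq_true_of_le (surv_len _ _ _ _ hs).2]
      exact k2
    · show tb ((asm _ S W β').get q) _
      rw [asm_eq, a1, rc_eq]
      exact k3 _ _ _ _ (hA β' t' a0 a1 a2 a3)
  have un : ∀ {G : Fam} {β t}, Surv bs G β t → una (rc (3 ^ bs.length) (cap bs) L) R β =
      (UN (3 ^ bs.length * l0 L β.length) (3 ^ bs.length) (l0 L β.length + l1 L β.length)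
        (lp L β.length) ((2 * (l0 L β.length + l1 L β.length) + lp L β.length + 2) / 3)).1
        (R.1 β) := fun hs => by
    unfold una
    rw [dep_eq, rc_eq, Nat.ble_eq_true_of_le (surv_len _ _ _ _ hs).2]
    rfl
  have pl := fun h => plc (3 ^ bs.length * l0 L h) (v := 3 ^ bs.length) (by positivity)
    (l0 L h + l1 L h) (lp L h)
  constructor <;> intro G β t i hG hn hs hi hA
  · show tb (una _ _ β).1 _
    rw [un hs]
    exact key _ _ G β t i hG hn hs ((pl _).2.2 i hi) hA
  · show tb (una _ _ β).2 _
    rw [un hs]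
    exact key _ _ G β t i hG hn hs ((pl _).1 i (by omega))
      fun β' t' k0 k1 k2 k3 => tb_catl (hA β' t' k0 k1 k2 k3)
  · show tb (una _ _ β).3 _
    rw [un hs]
    exact key _ _ G β t i hG hn hs ((pl _).2.1 i (by omega))
      fun β' t' k0 k1 k2 k3 => tb_catl (hA β' t' k0 k1 k2 k3)
  · show tb (una _ _ β).4 _
    rw [un hs, (un4 _ _ _ _ _ _).1]
    exact tb_shr (key _ _ G β t (l0 L β.length + i) hG hn hs ((pl _).1 _ (by omega))
      fun β' t' k0 k1 k2 k3 => tb_catr (hA β' t' k0 k1 k2 k3) (by ring)) (by ring)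
  · show tb (una _ _ β).5 _
    rw [un hs, (un4 _ _ _ _ _ _).2]
    exact tb_shr (key _ _ G β t (l0 L β.length + i) hG hn hs ((pl _).2.1 _ (by omega))
      fun β' t' k0 k1 k2 k3 => tb_catr (hA β' t' k0 k1 k2 k3) (by ring)) (by ring)

theorem lev_sound {br : Bool} {bs : List Bool} {c : ℕ} {L : ℕ → ℕ} {A : List Bool → P3}
    {U : List Bool → P5}
    (h : US bs L (pcs (slc (3 ^ bs.length) (rc (3 ^ bs.length) c L) A)
      (dgt mir1 bs.length (l0 L 1))) U) :
    SolR (br :: bs) L A
      (bk (3 ^ bs.length) (rc (3 ^ bs.length) c L) (dgt mir1 bs.length (l0 L 0)) U) := by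
  intro F β t q i hF hn hs hq hix hA
  cases t with
  | nil => exact hs.elim
  | cons d t =>
  have hlen : t.length = bs.length := Nat.succ.inj (surv_len _ _ _ _ hs).1
  have ht : code t < 3 ^ bs.length := hlen ▸ code_lt t
  obtain ⟨hi, hL⟩ := ln_lt (l0_eq (L := L) _ ▸ hix)
  have hS : ∀ β' e t', Nm β' → β'.length = β.length → t'.length = bs.length → F β' (e :: t') →
      tb ((slc (3 ^ bs.length) (rc (3 ^ bs.length) c L) A β').get (dv e))
        ((3 * i + q) * 3 ^ bs.length + code t') := by
    intro β' e t' h0 h1 h2 h3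
    unfold slc
    rw [dep_eq, h1, rc_g hL, rc_k]
    have := hA β' (e :: t') h0 h1 (congrArg Nat.succ h2) h3
    rw [code, h2, List.length_cons] at this
    convert tb_tr3 (A := A β') hq hi (h2 ▸ code_lt t') (dv_lt e) (by convert this using 1; ring)
      using 1
    ring
  have hB : ∀ X : P3, tb (X.get (dv d)) ((3 * i + q) * 3 ^ bs.length + code t) →
      tb (((rc (3 ^ bs.length) c L β.length).1 (tr3 X (3 ^ bs.length)
        (rc (3 ^ bs.length) c L β.length).2)).get q)
        (i * 3 ^ (br :: bs).length + code (d :: t)) := fun X hX => by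
    rw [rc_g hL, rc_k, code, hlen, List.length_cons]
    convert tb_tr3 (A := X) (dv_lt d) hi ht hq (by convert hX using 1; ring) using 1
    ring
  generalize slc (3 ^ bs.length) (rc (3 ^ bs.length) c L) A = S at *
  generalize 3 * i + q = j at *
  have cs : Cov (qs (pcs S (dgt mir1 bs.length (l0 L 1)))) (fS F) β.length bs.length j :=
    fun β' t' k0 k1 k2 k3 => by
      have := hS β' none t' k0 k1 k2 k3
      cases β' with
      | nil => exact this
      | cons y β' => unfold qs; rw [pcs_cons]; exact this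
  have cg : Cov (qg (pcs S (dgt mir1 bs.length (l0 L 1)))) (fG F) β.length bs.length j :=
    fun β' t' k0 k1 k2 k3 => by
      have := tb_land.2 ⟨hS β' (some false) t' k0 k1 k2 k3.1, hS β' (some true) t' k0 k1 k2 k3.2⟩
      cases β' with
      | nil => exact this
      | cons y β' => unfold qg; rw [pcs_cons]; exact this
  have co : Cov (qo (pcs S (dgt mir1 bs.length (l0 L 1)))) (opF F) (β.length + 1) bs.length j :=
    fun β' t' k0 k1 k2 k3 => by
      cases β' with
      | nil => exact k3.elim
      | cons y β' =>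
        unfold qo
        rw [pcs_cons]
        exact hS β' (some y) t' k0.2 (Nat.succ.inj k1) k2 k3
  cases β with
  | nil =>
    refine hB _ ?_
    cases d with
    | none => exact h.s _ _ _ _ hF.s hn hs.2 hix cs
    | some x =>
      rcases hs.2 with h2 | h2 | ⟨y, β0, k, -⟩
      · have := h.g _ _ _ _ hF.g hn h2 hix cg
        cases x <;> exact tb_lor.2 (Or.inl this)
      · cases x with
        | false => exact tb_lor.2 (Or.inr (h.o _ _ _ _ hF.o ⟨fun _ => rfl, hn⟩ h2 hix co))
        | true =>
          exact tb_lor.2 (Or.inr (tb_mir' hlen hix (h.o _ [false] _ _ hF.o ⟨fun _ => rfl, hn⟩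
            (surv_mir _ _ _ _ hF.o h2) hix co)))
      · exact absurd k (List.cons_ne_nil _ _).symm
  | cons y β =>
    rw [bk_cons]
    refine hB _ ?_
    cases d with
    | none => exact h.s _ _ _ _ hF.s hn hs.2 hix cs
    | some x =>
      rcases hs.2 with h2 | h2 | ⟨y', β0, k, h2⟩
      · have := h.g _ _ _ _ hF.g hn h2 hix cg
        cases x <;> exact tb_lor.2 (Or.inl (tb_lor.2 (Or.inl this)))
      · have := h.o _ (x :: y :: β) _ _ hF.o ⟨fun k => absurd k (List.cons_ne_nil _ _), hn⟩ h2
          hix co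
        cases x <;> exact tb_lor.2 (Or.inl (tb_lor.2 (Or.inr this)))
      · obtain ⟨rfl, rfl⟩ := List.cons.inj k
        have key : ∀ c β' t', Nm β' → β'.length = β.length → t'.length = bs.length →
            fC F c β' t' → tb (sel c (qd (pcs S (dgt mir1 bs.length (l0 L 1))) β')
              (qc (pcs S (dgt mir1 bs.length (l0 L 1))) β')) (j * 3 ^ bs.length + code t') := by
          intro c β' t' k0 k1 k2 k3
          have a1 := hS (false :: β') (some c) t' ⟨fun _ => rfl, k0⟩ (congrArg Nat.succ k1) k2 k3.1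
          cases β' with
          | nil =>
            have a2 := hS [false] (some c) (t'.map nf) ⟨fun _ => rfl, k0⟩ (congrArg Nat.succ k1)
              (by rw [List.length_map, k2]) (by
                have := hF _ _ k3.2
                cases c <;> exact this)
            rw [List.length_cons, ← k1] at hix
            cases c <;> exact tb_land.2 ⟨a1, tb_mir' k2 hix a2⟩
          | cons z β' =>
            have a2 := hS (true :: z :: β') (some (!c)) t'
              ⟨fun k => absurd k (List.cons_ne_nil _ _), k0⟩ (congrArg Nat.succ k1) k2 k3.2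
            unfold qc qd
            rw [pcs_cons]
            cases c <;> exact tb_land.2 ⟨a1, a2⟩
        cases x <;> cases y
        · exact tb_lor.2 (Or.inr (h.c _ _ _ _ (hF.c false) hn.2 h2 hix (key false)))
        · exact tb_lor.2 (Or.inr (h.d _ _ _ _ (hF.c true) hn.2 h2 hix (key true)))
        · exact tb_lor.2 (Or.inr (h.d _ _ _ _ (hF.c true) hn.2 h2 hix (key true)))
        · exact tb_lor.2 (Or.inr (h.c _ _ _ _ (hF.c false) hn.2 h2 hix (key false)))

theorem fin2_sound (l : ℕ → ℕ) (A : List Bool → ℕ) : Sol [false, false] l A (fin2 l A) := by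
  intro F β t i _ hn hs hi hA
  obtain ⟨h1, hc⟩ := surv_len _ _ _ _ hs
  have h0 := hA β t hn rfl h1 (surv_self _ _ _ _ hs).1
  obtain ⟨x, y, rfl⟩ := List.length_eq_two.1 h1
  have e1 : ∀ x y, i * 3 ^ [false, false].length + code [x, y] = 3 * 3 * i + dv x * 3 + dv y :=
    fun x y => by simp only [code, List.length_cons, List.length_nil]; ring
  have e2 : ∀ x y, i * 3 ^ [false, false].length + code [x, y] =
      3 * 1 * (3 * i + dv x) + dv y * 1 + 0 := fun x y => by rw [e1]; ring
  have m3 : ∀ a x y, i < a → tb ((P3.mk (mw 3 a).1 (mw 3 a).2 (mw 3 a).3).get (dv x))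
      (i * 3 ^ [false, false].length + code [x, y]) := fun a x y k => by
    rw [e1]; exact tb_mk (mw_ok 3 a) x k (dv_lt y)
  have m1 : ∀ a x y, i < a → tb ((P3.mk (mw 1 (3 * a)).1 (mw 1 (3 * a)).2
      (mw 1 (3 * a)).3).get (dv y)) (i * 3 ^ [false, false].length + code [x, y]) :=
    fun a x y k => by
      have := dv_lt x
      rw [e2]; exact tb_mk (mw_ok 1 _) y (by omega) one_pos
  have mn : ∀ a x y, i < a → tb (Nat.lor (mw 1 (3 * a)).2 (mw 1 (3 * a)).3)
      (i * 3 ^ [false, false].length + code [x, some y]) := fun a x y k => by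
    have := m1 a x (some y) k
    cases y
    · exact tb_lor.2 (Or.inl this)
    · exact tb_lor.2 (Or.inr this)
  have f3 : ∀ a X x y, i < a → tb X (i * 3 ^ [false, false].length + code [some (!x), y]) →
      tb (flp X 3 (mw 3 a).2 (mw 3 a).3) (i * 3 ^ [false, false].length + code [some x, y]) :=
    fun a X x y k k' => by
      rw [e1] at k' ⊢
      exact tb_flp (mw_ok 3 a) x k (dv_lt y) k'
  rcases β with _ | ⟨u, _ | ⟨w, _ | ⟨z, β⟩⟩⟩
  · exact h0
  · obtain rfl := hn.1 rfl
    show tb (f21 (A [false]) (m9 (l 1))) _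
    refine tb_land.2 ⟨h0, ?_⟩
    cases x with
    | none =>
      cases y with
      | none => exact absurd hs.2.2.1 (List.cons_ne_nil _ _)
      | some y =>
        exact tb_lor.2 (Or.inl (tb_lor.2 (Or.inl (tb_lor.2 (Or.inl
          (tb_land.2 ⟨m3 _ none _ hi, mn _ _ _ hi⟩))))))
    | some x =>
      cases y with
      | none =>
        refine tb_lor.2 (Or.inl (tb_lor.2 (Or.inl (tb_lor.2 (Or.inr
          (tb_land.2 ⟨m1 _ _ none hi, ?_⟩))))))
        have := m3 _ (some x) none hi
        cases x
        · exact tb_lor.2 (Or.inl this)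
        · exact tb_lor.2 (Or.inr this)
      | some y =>
        rcases hs.2 with h2 | h2 | ⟨_, _, k, h2⟩
        · have k := (surv_self _ (fG F) _ _ h2).1
          refine tb_lor.2 (Or.inl (tb_lor.2 (Or.inr (f3 _ _ x _ hi
            (hA _ _ hn rfl rfl ?_)))))
          cases x
          · exact k.2
          · exact k.1
        · exact absurd (surv_len _ _ _ _ h2).2 (by simp [cap])
        · obtain ⟨rfl, rfl⟩ := List.cons.inj k
          have k : F [false] [some x, some (!y)] := by
            rcases h2.2 with h3 | h3 | ⟨_, _, k, -⟩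
            · have k := h3.2.2
              cases x <;> cases y
              · exact k.2.1
              · exact k.1.1
              · exact k.2.1
              · exact k.1.1
            · exact absurd h3.1 (List.cons_ne_nil _ _)
            · exact absurd k (List.cons_ne_nil _ _).symm
          have k' := hA _ _ hn rfl rfl k
          have := dv_lt (some x)
          refine tb_lor.2 (Or.inr ?_)
          rw [e2] at k' ⊢
          exact tb_flp (mw_ok 1 (3 * l 1)) y (by change i < l 1 at hi; omega) one_pos k'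
  · obtain rfl := hn.2.1 rfl
    cases x with
    | none => exact absurd (surv_len _ _ _ _ hs.2).2 (by simp [cap])
    | some x =>
      rcases hs.2 with h2 | h2 | ⟨_, _, k, h2⟩
      · exact absurd (surv_len _ _ _ _ h2).2 (by simp [cap])
      · exact absurd (surv_len _ _ _ _ h2).2 (by simp [cap])
      · obtain ⟨rfl, rfl⟩ := List.cons.inj k
        cases y with
        | none => exact absurd h2.2.1 (List.cons_ne_nil _ _)
        | some y =>
          have k := (surv_self _ (fC F (xor x u)) _ _ h2).1
          have k1 : tb (f22 A [false] (m9 (l 2)))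
              (i * 3 ^ [false, false].length + code [some (xor x u), some y]) := by
            exact tb_land.2 ⟨tb_land.2 ⟨hA [false, false] _ ⟨fun _ => rfl, hn.2⟩ rfl rfl k.1,
              f3 _ _ _ _ hi (hA [true, false] _ ⟨fun k => absurd k (List.cons_ne_nil _ _), hn.2⟩
                rfl rfl k.2)⟩, mn _ _ _ hi⟩
          cases u with
          | false =>
            rw [Bool.xor_false] at k1
            exact k1
          | true =>
            rw [Bool.xor_true] at k1
            show tb (f23 (f22 A [false] (m9 (l 2))) (m9 (l 2))) _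
            generalize f22 A [false] (m9 (l 2)) = X at k1
            exact f3 _ _ _ _ hi k1
  · exact absurd hc (by simp [cap])

theorem us_fu (L : ℕ → ℕ) (Q : List Bool → P5) : US [false, false] L Q (fu L Q) :=
  ⟨fin2_sound _ _, fin2_sound _ _, fin2_sound _ _, fin2_sound _ _, fin2_sound _ _⟩

theorem go_sound : ∀ (bs : List Bool) (L : ℕ → ℕ) (A : List Bool → P3),
    SolR bs L A ((go bs L).1 A).1
  | [], L, A => by
    intro G β t q i _ hn hs _ _ hA
    exact hA β t hn rfl (surv_len _ _ _ _ hs).1 (surv_self _ _ _ _ hs).1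
  | br :: bs, L, A => by
    have e : go (br :: bs) L = frc (len bs) fun p => frc (3 ^ p) fun v =>
      frc (cap bs) fun c => frc (l0 L 0) fun a0 => frc (l0 L 1) fun a1 =>
        lev (go bs (nL c L)) p v c L (rc v c L) (dgt mir1 p a0) (dgt mir1 p a1) := rfl
    rw [e, frc_eq, frc_eq, frc_eq, frc_eq, frc_eq, len_eq]
    unfold lev
    cases h : sel (Nat.beq bs.length 2) (Nat.beq (cap bs) 2) false with
    | false => exact lev_sound (us_go (go_sound bs _ _))
    | true =>
      obtain rfl : bs = [false, false] := by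
        cases h1 : Nat.beq bs.length 2 with
        | false => rw [h1] at h; exact absurd h Bool.false_ne_true
        | true =>
          rw [h1] at h
          obtain ⟨a, b, rfl⟩ := List.length_eq_two.1 (Nat.eq_of_beq_eq_true h1)
          cases a <;> cases b
          · rfl
          all_goals exact absurd h (by decide)
      exact lev_sound (us_fu _ _)

/-- cyclic change of colours on a digit -/
def rho : Option Bool → Option Bool
  | none => some false
  | some false => some true
  | some true => none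

theorem act_rot : Act rot1 rho := by
  intro X v a k i t d hk hi ht h
  have h0 := tb_mk hk none hi ht
  have h1 := tb_mk hk (some false) hi ht
  obtain ⟨M, rfl, -⟩ := hk
  rcases d with _ | _ | _ <;> simp only [dv, rho] at h h0 h1 ⊢
  · exact tb_lor.2 (Or.inl (tb_shl (tb_land.2 ⟨h, tb_lor.2 (Or.inl h0)⟩) (by ring)))
  · exact tb_lor.2 (Or.inl (tb_shl (tb_land.2 ⟨h, tb_lor.2 (Or.inr h1)⟩) (by ring)))
  · exact tb_lor.2 (Or.inr (tb_land.2 ⟨tb_shr h (by show _ = 2 * v + _; ring), h0⟩))

theorem act_rob : Act rob1 fun d => rho (rho d) := by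
  intro X v a k i t d hk hi ht h
  have h0 := tb_mk hk none hi ht
  have h1 := tb_mk hk (some false) hi ht
  obtain ⟨M, rfl, -⟩ := hk
  rcases d with _ | _ | _ <;> simp only [dv, rho] at h h0 h1 ⊢
  · exact tb_lor.2 (Or.inl (tb_shl (tb_land.2 ⟨h, h0⟩) (by show _ = 2 * v + _; ring)))
  · exact tb_lor.2 (Or.inr (tb_land.2 ⟨tb_shr h (by ring), tb_lor.2 (Or.inl h0)⟩))
  · exact tb_lor.2 (Or.inr (tb_land.2 ⟨tb_shr h (by ring), tb_lor.2 (Or.inr h1)⟩))

/-- a family of patterns closed under colour rotation and switching -/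
structure Closed (bs : List Bool) (P : List (Option Bool) → Prop) : Prop where
  rot : ∀ t, P t → P (t.map rho)
  surv : ∀ t, P t → Surv bs (fun _ t => P t) [] t

theorem rho3 (t : List (Option Bool)) : ((t.map rho).map rho).map rho = t := by
  induction t with
  | nil => rfl
  | cons d t ih =>
    simp only [List.map_cons, ih]
    rcases d with _ | _ | _ <;> rfl

theorem tb_rot0 {t : List (Option Bool)} {p K k X : ℕ} (hp : t.length = p) (hk : k < K)
    (h : tb X (k * 3 ^ p + code t)) :
    tb ((dgt rot1 p K).1 X) (k * 3 ^ p + code (t.map rho)) := by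
  subst hp
  exact tb_dgt act_rot t K X k hk h

theorem tb_rob0 {t : List (Option Bool)} {p K k X : ℕ} (hp : t.length = p) (hk : k < K)
    (h : tb X (k * 3 ^ p + code t)) :
    tb ((dgt rob1 p K).1 X) (k * 3 ^ p + code ((t.map rho).map rho)) := by
  subst hp
  rw [List.map_map]
  exact tb_dgt act_rob t K X k hk h

theorem cell {K k : ℕ} (h : k < K) : ∃ q i, q < 3 ∧ 3 * i + q < ln K ∧ k = q * ((K + 2) / 3) + i := by
  rw [ln_eq]
  by_cases h1 : k < (K + 2) / 3
  · exact ⟨0, k, by omega, by split_ifs <;> omega, by omega⟩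
  · by_cases h2 : k < 2 * ((K + 2) / 3)
    · exact ⟨1, k - (K + 2) / 3, by omega, by split_ifs <;> omega, by omega⟩
    · exact ⟨2, k - 2 * ((K + 2) / 3), by omega, by split_ifs <;> omega, by omega⟩

theorem tb_spl {X v m q i t : ℕ} (hq : q < 3) (h : tb X ((q * m + i) * v + t)) :
    tb ((spl X (v * m)).get q) (i * v + t) := by
  interval_cases q
  · rw [zero_mul, zero_add] at h; exact h
  · exact tb_shr h (by ring)
  · exact tb_shr (tb_shr h (i := v * m + (i * v + t)) (by ring)) rfl

theorem tb_jn {R : P3} {v m K q i t : ℕ} (hq : q < 3) (hk : q * m + i < K) (ht : t < v)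
    (h : tb (R.get q) (i * v + t)) : tb (jn R (v * m) (v * K)) ((q * m + i) * v + t) := by
  refine tb_land.2 ⟨tb_ones (by nlinarith), ?_⟩
  interval_cases q
  · rw [zero_mul, zero_add]; exact tb_catl h
  · exact tb_catr (tb_catl h) (by ring)
  · exact tb_catr (tb_catr h rfl) (by ring)

section two

variable {b : Bool} {bs : List Bool} {P : List (Option Bool) → Prop} {K k : ℕ}

theorem Closed.sym (hP : Closed bs P) : Sym fun _ t => P t :=
  fun _ t h => (surv_self _ _ _ _ (hP.surv t h)).2

theorem Closed.len (hP : Closed (b :: bs) P) {d : Option Bool} {t : List (Option Bool)}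
    (h : P (d :: t)) : t.length = bs.length := Nat.succ.inj (surv_len _ _ _ _ (hP.surv _ h)).1

/-- cell `k` contains the patterns of `P` that start with `d` -/
def Has (P : List (Option Bool) → Prop) (d : Option Bool) (bs : List Bool) (k X : ℕ) : Prop :=
  ∀ t, P (d :: t) → tb X (k * 3 ^ bs.length + code t)

theorem gA_sound (hP : Closed (b :: bs) P) (hk : k < K) {X : ℕ} (hX : Has P none bs k X) :
    Has P none bs k ((gA K bs).1 X) := by
  intro t ht
  obtain ⟨q, i, h1, h2, rfl⟩ := cell hk
  unfold gA
  rw [frc_eq, frc_eq, frc_eq, len_eq]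
  exact tb_jn h1 hk (hP.len ht ▸ code_lt t) (go_sound bs (one K) _ (fS fun _ t => P t) [] t q i
    hP.sym.s trivial (hP.surv _ ht).2 h1 (by rw [l0_eq]; exact h2)
    fun β' t' _ _ _ h => tb_spl h1 (hX t' h))

theorem gB_sound (hP : Closed (b :: bs) P) (hk : k < K) {X : ℕ} (hX : Has P none bs k X) :
    Has P none bs k ((gB K bs).1 X) := by
  have r : ∀ {d X}, Has P (rho (rho d)) bs k X → rho (rho (rho d)) = d →
      Has P d bs k ((dgt rot1 bs.length K).1 X) := fun hX _ t ht => by
    have k := hP.rot _ (hP.rot _ ht)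
    have := tb_rot0 (hP.len k) hk (hX _ k)
    rwa [rho3] at this
  have h1 : Has P (some false) bs k _ := r hX rfl
  have h2 : Has P (some true) bs k _ := r h1 rfl
  unfold gB
  rw [frc_eq, frc_eq, frc_eq, frc_eq, frc_eq, len_eq]
  unfold gB1
  dsimp only
  generalize (dgt rot1 bs.length K).1 X = s at h1 h2
  obtain ⟨q, i, c1, c2, c3⟩ := cell hk
  have S := go_sound bs (two K (cap bs)) (tpB (spl (Nat.land s ((dgt rot1 bs.length K).1 s))
    (3 ^ bs.length * ((K + 2) / 3))) (spl s (3 ^ bs.length * ((K + 2) / 3))))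
  have h3 : Has P (some false) bs k (gB2 (cap bs) (3 ^ bs.length * ((K + 2) / 3))
      (3 ^ bs.length * K) ((go bs (two K (cap bs))).1 (tpB (spl (Nat.land s
        ((dgt rot1 bs.length K).1 s)) (3 ^ bs.length * ((K + 2) / 3)))
        (spl s (3 ^ bs.length * ((K + 2) / 3)))))) := fun t ht => by
    have hl : code t < 3 ^ bs.length := hP.len ht ▸ code_lt t
    unfold gB2
    subst c3
    rcases (hP.surv _ ht).2 with k | k | ⟨_, _, k, -⟩
    · have := tb_jn c1 hk hl (S (fG fun _ t => P t) [] t q i hP.sym.g trivial k c1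
        (by rw [l0_eq]; exact c2) fun β' t' _ k1 _ h => by
          rw [List.length_eq_zero_iff.1 k1]
          exact tb_spl c1 (tb_land.2 ⟨h1 t' h.1, h2 t' h.2⟩))
      cases Nat.beq (cap bs) 0
      · exact tb_lor.2 (Or.inl this)
      · exact this
    · have hc : 1 ≤ cap bs := (surv_len _ _ _ _ k).2
      have := tb_jn c1 hk hl (S (opF fun _ t => P t) [false] t q i hP.sym.o
        ⟨fun _ => rfl, trivial⟩ k c1 (by
          rw [l0_eq]
          show _ < ln (sel (Nat.ble 1 (cap bs)) _ 0)
          rw [Nat.ble_eq_true_of_le hc]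
          exact c2)
        fun β' t' k0 k1 _ h => by
          obtain ⟨y, rfl⟩ := List.length_eq_one_iff.1 k1
          obtain rfl := k0.1 rfl
          exact tb_spl c1 (h1 t' h))
      cases h0 : Nat.beq (cap bs) 0
      · exact tb_lor.2 (Or.inr this)
      · have := Nat.eq_of_beq_eq_true h0
        omega
    · exact absurd k (List.cons_ne_nil _ _).symm
  have h4 : Has P none bs k _ := fun t ht => by
    have k := hP.rot _ ht
    have := tb_rob0 (hP.len k) hk (h3 _ k)
    rwa [rho3] at this
  intro t ht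
  exact tb_land.2 ⟨h4 t ht, tb_mir' (hP.len ht) hk (h4 _ (hP.sym [] _ ht))⟩

theorem itr_sound (hP : Closed (b :: bs) P) (hk : k < K) (f : ℕ) : ∀ (c : Bool) (X : ℕ),
    Has P none bs k X → Has P none bs k (itr K bs f c X) := by
  induction f with
  | zero => exact fun _ _ h => h
  | succ f ih =>
    intro c X hX
    have e : itr K bs (f + 1) c X = sel (Nat.beq X 0) X
      (sel c (itr K bs f false ((gA K bs).1 X)) (itr K bs f true ((gB K bs).1 X))) := rfl
    rw [e]
    cases Nat.beq X 0
    · cases c
      · exact ih _ _ (gB_sound hP hk hX)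
      · exact ih _ _ (gA_sound hP hk hX)
    · exact hX

theorem lp2_sound (hP : Closed (b :: bs) P) (hk : k < K) {C : ℕ} (f : ℕ) : ∀ (c : Bool) (X : ℕ),
    Has P none bs k X → lp2 K bs C f c X = true →
      ∀ t, P (none :: t) → ¬ tb C (k * 3 ^ bs.length + code t) := by
  induction f with
  | zero => intro _ _ _ h; exact absurd h Bool.false_ne_true
  | succ f ih =>
    intro c X hX h t ht hC
    have e : lp2 K bs C (f + 1) c X = sel (Nat.beq (Nat.land C X) 0) true
      (sel c (lp2 K bs C f false ((gA K bs).1 X)) (lp2 K bs C f true ((gB K bs).1 X))) := rfl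
    rw [e] at h
    cases h0 : Nat.beq (Nat.land C X) 0 with
    | true =>
      have h1 := tb_land.2 ⟨hC, hX t ht⟩
      rw [Nat.eq_of_beq_eq_true h0] at h1
      exact tb_zero _ h1
    | false =>
      rw [h0, sel_false] at h
      cases c
      · exact ih _ _ (gB_sound hP hk hX) h t ht hC
      · exact ih _ _ (gA_sound hP hk hX) h t ht hC

theorem sub_sound {X Y i : ℕ} (h : sub X Y = true) (k : tb X i) : tb Y i := by
  rw [← Nat.eq_of_beq_eq_true h]
  exact tb_lor.2 (Or.inl k)

end two

end Pool.Agent.Lib.G6.B
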