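import Pool.Agent.Lib.G6.BK

set_option autoImplicit false

/-! Compact storage of the intermediate sets of long reducibility checks. -/

namespace Pool.Agent.Lib.G6.B

noncomputable section

/-- four blocks of `w` bits; `u = 2 * w` -/
def j4 (w u a b c d : Nat) : Nat := cat (cat a w b) u (cat c w d)

/-- sixteen blocks of sixty bits -/
def jj (a0 a1 a2 a3 a4 a5 a6 a7 a8 a9 b0 b1 b2 b3 b4 b5 : Nat) : Bg :=
  .lf (j4 240 480 (j4 60 120 a0 a1 a2 a3) (j4 60 120 a4 a5 a6 a7) (j4 60 120 a8 a9 b0 b1)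
    (j4 60 120 b2 b3 b4 b5))

def sy1 (p Y : Nat) : Nat := Nat.lor Y ((dgt mir1 p 1).1 Y)

/-- the union of a set with its image under the exchange of two colours -/
def sy (p : Nat) (t : Bg) : Bg := .lf (sy1 p t.val)

end

end Pool.Agent.Lib.G6.B
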