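import Pool.Agent.Lib.G6.CDef

set_option autoImplicit false

/-! Statements of the blocks. -/

namespace Pool.Agent.Lib.G6

open Equiv
open Pool.Agent.Lib.MP_bfaad3_co (frc sel cj dj tb sb BT conn restr)

/-- `d` is null or a dart with image `x` -/
def Rp {D : Type} (nd : ℕ) (h : ℕ → D) (d : ℕ) (x : D) : Prop := d = 0 ∨ (Val nd d ∧ h d = x)

/-- `h'` agrees with `h` on the darts below `nd` -/
def Ext {D : Type} (nd : ℕ) (h h' : ℕ → D) : Prop := ∀ d, Val nd d → h' d = h d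

/-- bits between `lo` and `hi` only -/
def Bits (lo hi a : ℕ) : Prop := ∀ i, a.testBit i = true → lo ≤ i ∧ i < hi

/-- quantification over minimal counterexamples with a homomorphism -/
def AllH (P : ∀ (_ : Rule) (D : Type) [Fintype D], Perm D → Perm D → Set D → ℕ → ℕ → (ℕ → D) →
    Prop) : Prop :=
  ∀ (R : Rule) (D : Type) [Fintype D] (σ α : Perm D) (N : Set D), Ctx σ α N →
    ∀ m nd h, Hom R σ α N m nd h → P R D σ α N m nd h

def St_mirror : Prop :=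
  ∀ (D : Type) [Finite D] (σ α : Perm D) (N : Set D), Ctx σ α N → Ctx σ⁻¹ α N

/-- invariance of types and classes -/
def St_inv : Prop :=
  ∀ (D : Type) [Finite D] (σ α : Perm D) (N : Set D), InK σ α N → ∀ x,
    vt σ N (σ x) = vt σ N x ∧ vt σ N x < 6 ∧ (vt σ N x = 0 ↔ x ∉ N) ∧
    deg σ (σ x) = deg σ x ∧ fln σ α (σ (α x)) = fln σ α x ∧ 0 < fln σ α x ∧ 0 < deg σ x ∧
    fc σ α N (σ (α x)) = fc σ α N x ∧ fc σ α N (σ x) = fc σ α N (α x) ∧ fc σ α N x < 21 ∧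
    vt σ⁻¹ N x = vt σ N x ∧ fc σ⁻¹ α N x = fc σ α N (α x) ∧
    (fl (fc σ α N x) = fln σ α x ∨ (fc σ α N x = 14 ∧ 12 ≤ fln σ α x))

/-- walking and reading -/
def St_rp : Prop := AllH fun R _ _ σ α N m nd h => ∀ d x, Rp nd h d x →
  Rp nd h (nx m d) (σ x) ∧ Rp nd h (pv m d) (σ⁻¹ x) ∧ Rp nd h (al m d) (α x) ∧
  Rp nd h (ph m d) ((σ * α) x) ∧ Rp nd h (phi m d) ((σ * α)⁻¹ x) ∧
  (∀ w, Rp nd h (walk m w d) (wr σ α w x)) ∧
  (∀ k, Rp nd h (itr (nx m) k d) ((σ ^ k) x)) ∧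
  (∀ k, Rp nd h (itr (ph m) k d) (((σ * α) ^ k) x)) ∧
  (∀ i, 64 ≤ i → i < 127 → m.testBit (d + i) = true → Fact R σ α N i x) ∧
  (∀ a, Bits 64 127 a → sb a (Nat.shiftRight m d) = true → Facts R σ α N a x) ∧
  (Bits 64 70 (getV m d) ∧ Facts R σ α N (getV m d) x) ∧
  (Bits 70 92 (getF m d) ∧ Facts R σ α N (getF m d) x)

/-- recording facts -/
def St_put : Prop := AllH fun R _ _ σ α N m nd h =>
  (∀ c, Hom R σ α N (Nat.xor m (Nat.land c SALT)) nd h) ∧
  ∀ d, Val nd d → ∀ a, Facts R σ α N a (h d) →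
    (Bits 64 127 a → Hom R σ α N (put m d a) nd h) ∧
    (Bits 64 70 a → Hom R σ α N (setV m d a) nd h) ∧
    (Bits 70 92 a → Hom R σ α N (setF m d a) nd h)

/-- the tables of lengths and degrees -/
def St_tab : Prop :=
  ∀ (R : Rule) (D : Type) [Fintype D] (σ α : Perm D) (N : Set D), Ctx σ α N → ∀ x n,
    (Bits 64 70 (degX n) ∧ (Facts R σ α N (degX n) x → deg σ x = n)) ∧
    (Bits 70 92 (lenX n) ∧ (Facts R σ α N (lenX n) x → fln σ α x = n)) ∧
    (n < 22 → Bits 70 92 (clsX n) ∧ (Facts R σ α N (clsX n) x → fc σ α N x = n)) ∧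
    (Facts R σ α N ZB x ↔ x ∉ N) ∧ (Facts R σ α N NB x ↔ x ∈ N) ∧
    (Fact R σ α N 64 x ↔ x ∈ N) ∧ ¬ Facts R σ α N VM x ∧ ¬ Facts R σ α N FM x ∧
    (∀ a, a < 2 ^ 16 → Facts R σ α N (Nat.shiftLeft a 70) x → a.testBit (fc σ α N x) = false) ∧
    (∀ a, Bits 64 70 a → Facts R σ α N a x ∨ Facts R σ α N (Nat.xor a VM) x) ∧
    (∀ a, Bits 70 92 a → Facts R σ α N a x ∨ Facts R σ α N (Nat.xor a FM) x)

/-- new darts -/
def St_ext : Prop := AllH fun R _ _ σ α N m nd h => ∀ ini, IniOK R ini → nd ≤ 130300 →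
  ∀ d, Val nd d →
    (∀ v, al m d = 0 → Bits 64 70 v → Facts R σ α N v (α (h d)) →
      ∃ h', Ext nd h h' ∧ h' nd = α (h d) ∧ Hom R σ α N (extA ini m nd d v) (nd + 128) h') ∧
    (∀ f, nx m d = 0 → pv m d = 0 → h d ∉ N → Bits 70 92 f → Facts R σ α N f (σ (h d)) →
      ∃ h', Ext nd h h' ∧ Hom R σ α N (cmpZ ini m nd d f) (nd + 256) h') ∧
    (nd ≤ 130000 → al m d = 0 → α (h d) ∉ N →
      ∃ h', Ext nd h h' ∧ Hom R σ α N (extZ ini m nd d) (nd + 384) h') ∧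
    (nx m d = 0 →
      ∃ h', Ext nd h h' ∧ h' nd = σ (h d) ∧ Hom R σ α N (extF ini m nd d) (nd + 128) h') ∧
    (pv m d = 0 →
      ∃ h', Ext nd h h' ∧ h' nd = σ⁻¹ (h d) ∧ Hom R σ α N (extB ini m nd d) (nd + 128) h')

/-- new links between old darts, equalities -/
def St_lnk : Prop := AllH fun R _ _ σ α N m nd h => ∀ d, Val nd d →
  (∀ K fuel, bkV m K fuel d 1 = true → ∃ f n, Val nd f ∧ pv m f = 0 ∧ (σ ^ n) (h f) = σ (h d) ∧
    K f n = true) ∧
  (∀ K fuel, bkF m K fuel d 1 = true → ∃ a n, Val nd a ∧ al m a = 0 ∧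
    ((σ * α) ^ n) (α (h a)) = h d ∧ K a n = true) ∧
  (∀ f, Val nd f → nx m d = 0 → pv m f = 0 → h f = σ (h d) →
    Hom R σ α N (put (put m d f) f (cel 0 d 0)) nd h) ∧
  (∀ a, Val nd a → al m d = 0 → al m a = 0 → h a = α (h d) →
    Hom R σ α N (put (put m d (cel 0 0 a)) a (cel 0 0 d)) nd h) ∧
  (∀ y, Val nd y → h y = h d → Hom R σ α N (setE m y d) nd h ∧ Hom R σ α N (absorb m d y) nd h) ∧
  (∀ r y, Val nd y → Val nd (fld m d (off r)) → h y = h (fld m d (off r)) →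
    Hom R σ α N (setL m (Nat.add d (off r)) y) nd h) ∧
  (∀ r y, Val nd y → h y = h d → fld m d (off r) ≠ 0 → fld m y (off r) ≠ 0 →
    Val nd (fld m d (off r)) ∧ Val nd (fld m y (off r)) ∧
      h (fld m d (off r)) = h (fld m y (off r))) ∧
  (∀ r, fld m d (off r) ≠ 0 → Val nd (fld m d (off r)))

def St_rel : Prop := AllH fun R _ _ σ α N m nd h => ∀ d, Val nd d →
  Bits 70 92 (relX m d) ∧ Facts R σ α N (relX m d) (h d)

/-- evaluation of programs -/
def St_ev : Prop := AllH fun R _ _ σ α N m nd h => ∀ d x, Rp nd h d x →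
  (∀ P b, b ≤ evMax m P d b ∧ run σ α N P x % 16 ≤ evMax m P d b) ∧
  (∀ P r c, evMin m r P d c < 16 ∧ (evMin m r P d c ≠ 0 →
    evMin m r P d c ≤ clamp c (run σ α N P x) % 16 ∧ run σ α N P x / 16 = r)) ∧
  (∀ k, k ≤ 1 → lv R σ α N k x ≤ ubl R m k d ∧ ubl R m k d < 16)

/-- a face that shares its capacity does not overspend -/
def St_sup : Prop :=
  ∀ (R : Rule) (D : Type) [Fintype D] (σ α : Perm D) (N : Set D), Ctx σ α N → ∀ x,
    R.c1.testBit (fc σ α N x) = true →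
    ∑ i ∈ Finset.range (fln σ α x),
      (amt R σ α N 0 (((σ * α) ^ i) x) + amt R σ α N 1 (((σ * α) ^ i) x)) ≤ capx R σ α N x

def St_lba : Prop := AllH fun R _ _ σ α N m nd h => RuleOK R → ∀ d, Val nd d → ∀ k r j, k < 4 →
  j < 32 → lba R m k d r j ≤ amt R σ α N k (h d) ∧
    (lba R m k d r j ≠ 0 → run σ α N (R.s k) (h d) / 16 = r)

def St_shr : Prop := AllH fun R _ _ σ α N m nd h => RuleOK R → ∀ d, Val nd d → ∀ k j a t, k ≤ 1 →
  shrL R m k d j a t = true → False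

def St_bnd : Prop := AllH fun R _ _ σ α N m nd h => RuleOK R → ∀ d, Val nd d →
  (∀ n c, bndV R m nd d n c = true → ¬ NegV R σ α N (h d)) ∧
  (∀ n j c, j < 32 → bndF R m nd d n j c = true → ¬ NegF R σ α N (h d)) ∧
  (∀ j, j < 32 → bndW R m d j = true → ¬ NegW R σ α N (h d))

def St_mtc : Prop := AllH fun R _ _ σ α N m nd h => ∀ fuel c d r, Val nd d →
  (mtc m false fuel c d = r + 1 → Holds R σ α N c (h d) r) ∧
  (mtc m true fuel c d = r + 1 → Holds R σ⁻¹ α N c (h d) r)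

def St_bld : Prop :=
  (AllH fun R _ _ σ α N m nd h => ∀ ini, IniOK R ini → ∀ fuel c d r K, Val nd d →
    Holds R σ α N c (h d) r → bld ini fuel c d m nd K = true →
    ∃ m' nd' h', nd ≤ nd' ∧ Ext nd h h' ∧ Hom R σ α N m' nd' h' ∧ K r m' nd' = true) ∧
  ∀ (R : Rule) (D : Type) [Fintype D] (σ α : Perm D) (N : Set D), Ctx σ α N → ∀ ini,
    IniOK R ini → ∀ x, Hom R σ α N (Nat.shiftLeft ini 128) 256 (fun _ => x)

def St_chk : Prop := ∀ (R : Rule) (ini : ℕ) (pats : BT ℕ) (red : ℕ → ℕ → ℕ → Bool),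
  RuleOK R → IniOK R ini → RedOK R red → NZN →
  (∀ lim p c, (∀ j < lim, PatOK R (pats.get j)) → chkP R ini pats lim red p c = true →
    PatOK R p) ∧
  (∀ n i c, (∀ j < i, PatOK R (pats.get j)) → chkM R ini pats red n i c = true →
    ∀ j < i + n, PatOK R (pats.get j))

/-- the first phase -/
def St_base : Prop := ∀ R : Rule, IniOK R 0 ∧
  (∀ red c, RedOK R red → bld 0 2000 pNZN 128 0 256 (fun _ m nd => red m nd c) = true → NZN) ∧
  ((∀ j, 16 ≤ j → j ≤ 20 → PatOK R (pCls j)) → IniOK R INI)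

/-- the discharging argument -/
def St_dis : Prop := ∀ R : Rule, RuleOK R → IniOK R INI → PatOK R pV → PatOK R (pF R) →
  PatOK R (pW R) → NoCtx

/-- planarity: the opposite of a dangling dart lies in the same hole -/
def St_plan : Prop :=
  ∀ (D : Type) [Finite D] (σ α : Perm D) (N : Set D), Ctx σ α N →
    ∀ nd (h : ℕ → D) e n g k, CInv σ α N nd h e n g k → ∀ w x, EV n w → EV n x → eal e w = 0 →
      (α (k w) = k x → inS (hol (eph e) w) x = true) ∧
      (∀ i, 0 < i → α (k w) = (σ ^ i) (k x) →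
        (∀ i' d', 0 < i' → i' ≤ i → EV n d' → (σ ^ i') (k x) ≠ k d') →
        inS (hol (eph e) w) (enx e x) = true)

/-- operations on embedded maps -/
def St_eop : Prop :=
  ∀ (D : Type) [Finite D] (σ α : Perm D) (N : Set D), Ctx σ α N →
    ∀ nd (h : ℕ → D), (∀ p, Val nd p →
      (h p ∈ N → ∃ k, CInv σ α N nd h (enewN 0 64) 128 (Nat.shiftLeft 64 p) k) ∧
      (h p ∉ N → ∃ k, CInv σ α N nd h (enewZ 0 64) 256 (Nat.shiftLeft 64 p) k)) ∧
    ∀ e n g k, CInv σ α N nd h e n g k →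
      (∀ q t, Val nd q → EV n t → gm g q = 0 → k t = h q → CInv σ α N nd h e n (put g q t) k) ∧
      (∀ x y, EV n x → EV n y → eal e x = 0 → eal e y = 0 → k y = α (k x) →
        CInv σ α N nd h (elnk e x y) n g k) ∧
      (∀ u, EV n u → egap e u = true → σ (k u) = k (enx e u) →
        CInv σ α N nd h (etog e u) n g k) ∧
      (n ≤ 32000 → ∀ u i, EV n u → egap e u = true → 0 < i →
        (∀ i' d', 0 < i' → i' ≤ i → EV n d' → (σ ^ i') (k u) ≠ k d') →
        CInv σ α N nd h (eins e n u 3) (n + 64) g (Function.update k n ((σ ^ i) (k u))) ∧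
        eal (eins e n u 3) n = 0 ∧ (∀ d, EV n d → eal (eins e n u 3) d = eal e d) ∧
        (i = 1 → CInv σ α N nd h (eins (etog e u) n u 3) (n + 64) g
          (Function.update k n (σ (k u)))) ∧
        ((σ ^ (i + 1)) (k u) = k (enx e u) → CInv σ α N nd h (eins e n u 2) (n + 64) g
          (Function.update k n ((σ ^ i) (k u))))) ∧
      (n ≤ 32000 → ∀ w, EV n w → eal e w = 0 →
        (∀ d, EV n d → ¬ σ.SameCycle (k d) (α (k w))) →
        (α (k w) ∈ N → ∃ k', (∀ d, EV n d → k' d = k d) ∧ k' n = α (k w) ∧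
          CInv σ α N nd h (elnk (enewN e n) w n) (n + 64) g k') ∧
        (α (k w) ∉ N → ∃ k', (∀ d, EV n d → k' d = k d) ∧ k' n = α (k w) ∧
          CInv σ α N nd h (elnk (enewZ e n) w n) (n + 192) g k'))

/-- leaves of the overlap checker -/
def St_clf : Prop :=
  ∀ (D : Type) [Finite D] (σ α : Perm D) (N : Set D), Ctx σ α N →
    ∀ nd (h : ℕ → D) e n g k, CInv σ α N nd h e n g k →
      (∀ K nK o c, CfgW (K, nK) → sub e n K nK o c = true → False) ∧
      (∀ c s, jlf e n (Nat.shiftLeft (Nat.land c 511) 6) s = true → False) ∧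
      (∀ w K fuel, EV n w → edeg e w K fuel w 1 = true → K (deg σ (k w)) = true)

def St_red : Prop := ∀ (R : Rule) (cfgs : BT (ℕ × ℕ)), cfgs.All CfgW → RedOK R (red cfgs)

end Pool.Agent.Lib.G6
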