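import Pool.Agent.Lib.G6.DDef

set_option autoImplicit false

/-! From a homomorphic image to an embedded configuration. -/

namespace Pool.Agent.Lib.G6

open Equiv
open Pool.Agent.Lib.MP_bfaad3_co (frc sel cj dj tb sb BT)

noncomputable section

/-- image of the dart `d` of the incomplete map, zero if not yet known -/
def gm (g d : ℕ) : ℕ := Nat.land (Nat.shiftRight g d) 32767

/-- cell of an embedded map; `f` is 1 for a gap, plus 2 for type `N` -/
def ecel (n p a f : ℕ) : ℕ :=
  Nat.lor (Nat.lor n (Nat.shiftLeft p 15)) (Nat.lor (Nat.shiftLeft a 30) (Nat.shiftLeft f 45))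

/-- overwrite the link at bit `p` -/
def eset (e p v : ℕ) : ℕ :=
  Nat.xor e (Nat.shiftLeft (Nat.xor (Nat.land (Nat.shiftRight e p) 32767) v) p)

/-- toggle the gap after `x` -/
def etog (e x : ℕ) : ℕ := Nat.xor e (Nat.shiftLeft 1 (Nat.add x 45))

/-- insert the new dart `n` of type `N` after `x`; `f` as in `ecel` -/
def eins (e n x f : ℕ) : ℕ :=
  frc (enx e x) fun y => frc (eset e x n) fun e => frc (eset e (Nat.add y 15) n) fun e =>
    put e n (ecel y x 0 f)

/-- join two dangling darts -/
def elnk (e x y : ℕ) : ℕ := put (put e x (ecel 0 0 y 0)) y (ecel 0 0 x 0)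

/-- new vertex in `N` with first dart `n` -/
def enewN (e n : ℕ) : ℕ := put e n (ecel n n 0 3)

/-- new vertex of degree three with first dart `n` -/
def enewZ (e n : ℕ) : ℕ :=
  put (put (put e n (ecel (Nat.add n 64) (Nat.add n 128) 0 0)) (Nat.add n 64)
    (ecel (Nat.add n 128) n 0 0)) (Nat.add n 128) (ecel n (Nat.add n 64) 0 0)

/-- face successor, dangling darts being their own opposites -/
def eph (e y : ℕ) : ℕ := frc (eal e y) fun a => enx e (sel (Nat.beq a 0) y a)

/-- bit mask (bit `y / 64`) of the orbit of `d` under `f`; all ones if it does not close up -/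
def hol (f : ℕ → ℕ) (d : ℕ) : ℕ :=
  Nat.rec (motive := fun _ => ℕ → ℕ → ℕ) (fun _ _ => Nat.pred (Nat.shiftLeft 1 512))
    (fun _ ih y acc => frc (Nat.lor acc (Nat.shiftLeft 1 (Nat.shiftRight y 6))) fun acc =>
      frc (f y) fun z => sel (Nat.beq z d) acc (ih z acc)) 512 d 0

def inS (s y : ℕ) : Bool := tb s (Nat.shiftRight y 6)

/-- the image of `q` is `t` -/
def setG (g q t : ℕ) (K : ℕ → Bool) : Bool :=
  frc (gm g q) fun u => sel (Nat.beq u 0) (frc (put g q t) K) (sel (Nat.beq u t) (K g) true)

/-- the candidates among the darts below `x + 64`, for the opposite of `d`; `t` is the type and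
`s` the hole; the last subtree is for a new vertex -/
def cand (ih : ℕ → ℕ → ℕ → ℕ → Bool) (e n g d q : ℕ) (t : Bool) (s k : ℕ) : ℕ → Bool :=
  Nat.rec
    (fun c => frc (put g q n) fun g' => sel t
      (frc (elnk (enewN e n) d n) fun e' => frc (Nat.add n 64) fun n' => ih e' n' g' c)
      (frc (elnk (enewZ e n) d n) fun e' => frc (Nat.add n 192) fun n' => ih e' n' g' c))
    (fun j r c => frc (Nat.shiftLeft (Nat.succ j) 6) fun x =>
      sel (sel t (eN e x) (sel (eN e x) false true))
        ((fun (K : ℕ → Bool) =>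
          sel (cj (Nat.beq (eal e x) 0) (cj (inS s x) (sel (Nat.beq x d) false true)))
            (two c (fun l => frc (elnk e d x) fun e' => frc (put g q x) fun g' => ih e' n g' l) K)
            (K c))
          (fun c => sel (cj (egap e x) (inS s (enx e x)))
            (two c (fun l => frc (elnk (eins e n x 3) d n) fun e' => frc (put g q n) fun g' =>
              frc (Nat.add n 64) fun n' => ih e' n' g' l) r)
            (r c)))
        (r c)) k

/-- well-formed configuration -/
def cfgW (k n : ℕ) : Bool :=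
  Nat.rec true (fun j r => frc (Nat.shiftLeft (Nat.succ j) 6) fun y =>
    cj (cj (cj (Nat.blt 0 (enx k y)) (cj (Nat.blt (enx k y) n) (Nat.beq (Nat.mod (enx k y) 64) 0)))
        (cj (cj (Nat.blt 0 (epv k y)) (cj (Nat.blt (epv k y) n) (Nat.beq (Nat.mod (epv k y) 64) 0)))
          (cj (Nat.beq (epv k (enx k y)) y) (Nat.beq (enx k (epv k y)) y))))
      (cj (dj (Nat.beq (eal k y) 0) (cj (Nat.blt (eal k y) n)
        (cj (Nat.beq (Nat.mod (eal k y) 64) 0) (Nat.beq (eal k (eal k y)) y)))) r))
    (Nat.pred (Nat.shiftRight (Nat.add n 63) 6))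

/-- image of the dart `y` of a configuration: 9 bits for each dart -/
def mu (c y : ℕ) : ℕ :=
  Nat.shiftLeft (Nat.land (Nat.shiftRight c (Nat.mul (Nat.shiftRight y 6) 9)) 511) 6

/-- the set of images of the first `k` darts; bit 0 is set when the map is not injective or
leaves the map -/
def muI (n c k : ℕ) : ℕ :=
  Nat.rec 0 (fun j r => frc r fun r => frc (mu c (Nat.shiftLeft (Nat.succ j) 6)) fun x =>
    sel (cj (Nat.blt x n) (sel (inS r x) false true))
      (Nat.lor r (Nat.shiftLeft 1 (Nat.shiftRight x 6))) (Nat.lor r 1)) k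

/-- walking by `f` from `x` the first dart in `s` is `z` -/
def skip (f : ℕ → ℕ) (s z fuel : ℕ) : ℕ → Bool :=
  Nat.rec (fun _ => false) (fun _ ih x => frc (f x) fun y =>
    sel (inS s y) (Nat.beq y z) (ih y)) fuel

/-- the configuration `(k, nk)` sits in the embedded map, mirrored if `o` -/
def sub (e n k nk : ℕ) (o : Bool) (c : ℕ) : Bool :=
  frc (Nat.pred (Nat.shiftRight (Nat.add nk 63) 6)) fun cnt => frc (muI n c cnt) fun s =>
    cj (sel (tb s 0) false true)
      (Nat.rec true (fun j r => frc (Nat.shiftLeft (Nat.succ j) 6) fun y => frc (mu c y) fun x =>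
        frc (mu c (enx k y)) fun z =>
        cj (sel (eN k y) (eN e x) (sel (eN e x) false true))
          (cj (dj (Nat.beq (eal k y) 0) (Nat.beq (eal e x) (mu c (eal k y))))
            (cj (sel (egap k y) (skip (sel o (epv e) (enx e)) s z 40 x)
              (sel o (cj (Nat.beq (enx e z) x) (sel (egap e z) false true))
                (cj (Nat.beq (enx e x) z) (sel (egap e x) false true)))) r))) cnt)

/-- counts for the set `s` of darts: size, plus `2 ^ 16` for each inner dart, plus `2 ^ 32` for
each dart outside `N`, plus `2 ^ 48` for each violation (gap, not closed, in `N` outside `u`) -/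
def jcnt (e s u k : ℕ) : ℕ :=
  Nat.rec 0 (fun j r => frc r fun r => frc (Nat.shiftLeft (Nat.succ j) 6) fun x =>
    sel (inS s x)
      (Nat.add (Nat.add r (sel (cj (Nat.blt 0 (eal e x)) (inS s (eal e x))) 65537 1))
        (Nat.add (sel (eN e x) (sel (inS u x) 0 281474976710656) 4294967296)
          (sel (cj (inS s (enx e x)) (sel (egap e x) false true)) 0 281474976710656))) r) k

/-- some darts at the vertex of `y` -/
def eorb (e fuel : ℕ) : ℕ → ℕ → ℕ :=
  Nat.rec (fun _ acc => acc) (fun _ ih y acc =>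
    frc (Nat.lor acc (Nat.shiftLeft 1 (Nat.shiftRight y 6))) fun acc =>
      frc (enx e y) fun z => ih z acc) fuel

/-- a set of vertices violates the cut conditions; `x` is zero or a dart of the set in `N` -/
def jlf (e n x s : ℕ) : Bool :=
  frc (jcnt e s (sel (Nat.beq x 0) 0 (eorb e 8 x 0)) (Nat.pred (Nat.shiftRight n 6)))
    fun t => frc (Nat.land t 65535) fun a => frc (Nat.land (Nat.shiftRight t 16) 65535) fun b =>
      frc (Nat.shiftRight t 32) fun z => cj (Nat.blt z 65536)
        (sel (Nat.beq x 0)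
          (cj (Nat.blt 0 a) (cj (Nat.ble (Nat.mul 2 a) (Nat.mul 3 b)) (Nat.ble a (Nat.add b 5))))
          (cj (cj (Nat.blt x n) (cj (inS s x) (eN e x)))
            (cj (Nat.ble (Nat.add (Nat.mul 2 z) 6) (Nat.mul 3 b)) (Nat.ble a (Nat.add b 4)))))

/-- the vertex of `w` is closed; continue with its degree -/
def edeg (e w : ℕ) (K : ℕ → Bool) (fuel : ℕ) : ℕ → ℕ → Bool :=
  Nat.rec (fun _ _ => false) (fun _ ih y j => cj (sel (egap e y) false true)
    (frc (enx e y) fun z => sel (Nat.beq z w) (K j) (frc (Nat.succ j) (ih z)))) fuel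

def cstepA (m : ℕ) (ih : ℕ → ℕ → ℕ → ℕ → Bool) (e n g op p w c : ℕ) : Bool :=
  sel (Nat.ble op 1)
    (cj (Nat.ble n 32000) (frc (sel (Nat.beq op 0) w (epv e w)) fun u =>
      cj (cj (egap e u) (eN e u)) (two c (fun l => frc (etog e u) fun e' => ih e' n g l)
        (fun r => frc (Nat.add n 64) fun n' =>
          frc (sel (Nat.beq op 0) (eins (etog e u) n u 3) (eins e n u 2)) fun e' => ih e' n' g r))))
    (sel (Nat.ble op 3)
      (sel (Nat.beq op 2)
        (frc (nx m p) fun q => cj (Nat.ble 128 q) (cj (sel (egap e w) false true)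
          (setG g q (enx e w) fun g' => ih e n g' c)))
        (frc (pv m p) fun q => cj (Nat.ble 128 q) (cj (sel (egap e (epv e w)) false true)
          (setG g q (epv e w) fun g' => ih e n g' c))))
      (frc (al m p) fun q => cj (Nat.ble 128 q) (frc (eal e w) fun a =>
        sel (Nat.beq a 0)
          (frc (hol (eph e) w) fun s => frc (gm g q) fun t => sel (Nat.beq t 0)
            (cj (Nat.ble n 32000)
              (sel (tb m (Nat.add q 64))
                (cand ih e n g w q true s (Nat.pred (Nat.shiftRight n 6)) c)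
                (cj (sb ZB (Nat.shiftRight m q))
                  (cand ih e n g w q false s (Nat.pred (Nat.shiftRight n 6)) c))))
            (sel (cj (Nat.beq (eal e t) 0) (cj (inS s t) (sel (Nat.beq t w) false true)))
              (frc (elnk e w t) fun e' => ih e' n g c) true))
          (setG g q a fun g' => ih e n g' c))))

def cstepB (cfgs : BT (ℕ × ℕ)) (m e n op p w c : ℕ) : Bool :=
  sel (Nat.ble op 6)
    (sel (Nat.beq op 5)
      (sel (eN e w) (edeg e w (fun j => dj (Nat.beq j 1)
          (tb m (Nat.add (Nat.add p 63) (mn j 6)))) 12 w 1)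
        (tb m (Nat.add p 64)))
      (cj (eN e w) (sb ZB (Nat.shiftRight m p))))
    (sel (Nat.beq op 7)
      (frc (Nat.shiftLeft (Nat.land c 511) 6) fun x => cj (Nat.blt 0 x) (cj (Nat.blt x n)
        (cj (eN e x) (cj (Nat.blt 0 (eal e x)) (eN e (eal e x))))))
      (sel (Nat.beq op 8)
        (jlf e n (Nat.shiftLeft (Nat.land c 511) 6) (Nat.shiftRight c 9))
        (Prod.rec (motive := fun _ => Bool) (fun k nk =>
          sub e n k nk (Nat.beq (Nat.land c 1) 1) (Nat.shiftRight c 17))
          (cfgs.get (Nat.land (Nat.shiftRight c 1) 65535)))))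

/-- the overlap checker: 4 bits operation, 10 bits dart of the incomplete map with known image -/
def cchk (cfgs : BT (ℕ × ℕ)) (m nd fuel : ℕ) : ℕ → ℕ → ℕ → ℕ → Bool :=
  Nat.rec (fun _ _ _ _ => false) (fun _ ih e n g c => frc (Nat.land c 15) fun op =>
    frc (dart (Nat.shiftRight c 4)) fun p => frc (Nat.shiftRight c 14) fun c' =>
      cj (Nat.blt p nd) (frc (gm g p) fun w => cj (Nat.blt 0 w)
        (sel (Nat.ble op 4) (cstepA m ih e n g op p w c') (cstepB cfgs m e n op p w c')))) fuel

/-- the leaf test of the tree checker: start from one vertex -/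
def red (cfgs : BT (ℕ × ℕ)) (m nd c : ℕ) : Bool :=
  frc (dart c) fun p => cj (Nat.blt p nd) (frc (Nat.shiftLeft 64 p) fun g =>
    frc (Nat.shiftRight c 10) fun c' => sel (tb m (Nat.add p 64))
      (frc (enewN 0 64) fun e => cchk cfgs m nd 1000 e 128 g c')
      (cj (sb ZB (Nat.shiftRight m p)) (frc (enewZ 0 64) fun e => cchk cfgs m nd 1000 e 256 g c')))

end

/-- a table entry: well formed and not embedded -/
def CfgW (k : ℕ × ℕ) : Prop := cfgW k.1 k.2 = true ∧ CfgOK k

/-- combinatorial connectedness of an embedded map -/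
def ECon (e n : ℕ) : Prop := ∀ d, EV n d →
  Relation.EqvGen (fun x y => EV n x ∧ (y = enx e x ∨ (eal e x ≠ 0 ∧ y = eal e x))) 64 d

/-- the invariant of the overlap checker -/
structure CInv {D : Type} (σ α : Perm D) (N : Set D) (nd : ℕ) (h : ℕ → D) (e n g : ℕ)
    (k : ℕ → D) : Prop where
  emb : Emb σ α N e n k
  n1 : 64 ∣ n
  n2 : 128 ≤ n
  n3 : n ≤ 32768
  top : ∀ i, n ≤ i → e.testBit i = false
  con : ECon e n
  zg : ∀ d, EV n d → eN e d = false → egap e d = false
  gg : ∀ d, Val nd d → gm g d = 0 ∨ (EV n (gm g d) ∧ k (gm g d) = h d)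

end Pool.Agent.Lib.G6
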