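import Pool.Agent.Lib.G6.Defs
import Pool.Agent.Lib.MP_bfaad3_co.PMDef

set_option autoImplicit false

/-! Incomplete maps packed in one number, rule programs, discharging, patterns, tree checker. -/

namespace Pool.Agent.Lib.G6

open Equiv
open Pool.Agent.Lib.MP_bfaad3_co (frc sel cj dj tb sb BT)

noncomputable section

/-! A dart is a positive multiple of 128, its cell starts at that bit: next dart (17 bits),
previous dart (17), opposite dart (17), index of an equal dart (10, from bit 51), then facts from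
bit 64: excluded vertex types (6), excluded face classes (22, from 70), excluded levels and
amount classes of kind 0 (10 and 6, from 92) and of kind 1 (from 108), three flags (124 to 126). -/

/-- link field at offset `o` (0, 17 or 34) -/
def fld (m d o : ℕ) : ℕ := Nat.land (Nat.shiftRight m (Nat.add d o)) 131071
def nx (m d : ℕ) : ℕ := Nat.land (Nat.shiftRight m d) 131071
def pv (m d : ℕ) : ℕ := Nat.land (Nat.shiftRight m (Nat.add d 17)) 131071
def al (m d : ℕ) : ℕ := Nat.land (Nat.shiftRight m (Nat.add d 34)) 131071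
def eqd (m d : ℕ) : ℕ := Nat.shiftLeft (Nat.land (Nat.shiftRight m (Nat.add d 51)) 1023) 7
/-- `63 <<< 64` -/
def VM : ℕ := 1162144876643701751808
/-- `(2 ^ 22 - 1) <<< 70` -/
def FM : ℕ := 4951758976549900382185193472
/-- `(2 ^ 63 - 1) <<< 64` -/
def AM : ℕ := 170141183460469231713240559642174554112
/-- `62 <<< 64`: the vertex is not in `N` -/
def ZB : ℕ := 1143698132569992200192
/-- `1 <<< 64`: the vertex is in `N` -/
def NB : ℕ := 18446744073709551616
/-- `61 <<< 64`: the vertex is in `N` and has degree 2 -/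
def TB : ℕ := 1125251388496282648576
/-- bits 51 to 63 -/
def SALT : ℕ := 18444492273895866368

/-- words: opposite, next, previous -/
inductive W : Type
  | e : W
  | a (w : W) : W
  | s (w : W) : W
  | i (w : W) : W

def walk (m : ℕ) (w : W) : ℕ → ℕ :=
  W.rec (fun d => d) (fun _ ih d => ih (al m d)) (fun _ ih d => ih (nx m d))
    (fun _ ih d => ih (pv m d)) w

/-- rule programs; `a` is the set of types or classes that fail the test, in cell position;
`u` bounds the level -/
inductive Prog : Type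
  | ret (v : ℕ) : Prog
  | askV (w : W) (a u : ℕ) (y n : Prog) : Prog
  | askF (w : W) (a u : ℕ) (y n : Prog) : Prog

/-- entry `j` of a table of bytes -/
def byt (t j : ℕ) : ℕ := Nat.land (Nat.shiftRight t (Nat.mul j 8)) 255

/-- the discharging rule -/
structure Rule : Type where
  s0 : Prog
  s1 : Prog
  s2 : Prog
  s3 : Prog
  /-- routes: word, and whether the receiver is a face -/
  rt : BT (W × Bool)
  /-- amounts of the levels -/
  am0 : ℕ
  /-- face classes that share a capacity (bit mask), capacities by class -/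
  c1 : ℕ
  cap : ℕ
  /-- on these faces: requests, their prefix maxima, tiers and weights of the levels -/
  am1 : ℕ
  amx : ℕ
  ti : ℕ
  wt : ℕ
  /-- face classes treated by windows (bit mask), window length, bounds by class -/
  wc : ℕ
  ww : ℕ
  wb : ℕ
  /-- thresholds of the amount classes -/
  th : ℕ
  /-- the capacity of class `j` grows by 12 for each corner of degree two short of `kh j` -/
  kh : ℕ
  /-- the largest weight in the tier of a level, the levels not above its tier (16 bits each) -/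
  wx : ℕ
  tm : ℕ
  /-- prefix maxima of the requests above the tier of level 1 -/
  amh : ℕ

def Rule.s (R : Rule) (k : ℕ) : Prog :=
  sel (Nat.ble k 1) (sel (Nat.beq k 0) R.s0 R.s1) (sel (Nat.beq k 2) R.s2 R.s3)

/-- upper bound of the maximum of `b` and the level -/
def evMax (m : ℕ) (P : Prog) : ℕ → ℕ → ℕ :=
  Prog.rec (fun v _ b => frc (Nat.land v 15) fun l => sel (Nat.ble l b) b l)
    (fun w a u _ _ y n d b => sel (Nat.ble u b) b (frc (walk m w d) fun x =>
      sel (Nat.beq x 0) u (sel (sb a (Nat.shiftRight m x)) (y x b)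
        (sel (sb (Nat.xor a VM) (Nat.shiftRight m x)) (n x b) (frc (y x b) (n x))))))
    (fun w a u _ _ y n d b => sel (Nat.ble u b) b (frc (walk m w d) fun x =>
      sel (Nat.beq x 0) u (sel (sb a (Nat.shiftRight m x)) (y x b)
        (sel (sb (Nat.xor a FM) (Nat.shiftRight m x)) (n x b) (frc (y x b) (n x)))))) P

def mn (a b : ℕ) : ℕ := sel (Nat.ble a b) a b

/-- lower bound of the level, zero unless the route is `r`; `c` is the least bound met -/
def evMin (m r : ℕ) (P : Prog) : ℕ → ℕ → ℕ :=
  Prog.rec (fun v _ c => sel (cj (Nat.beq (Nat.shiftRight v 4) r) (Nat.ble (Nat.land v 15) c))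
      (Nat.land v 15) 0)
    (fun w a u _ _ y n d c => sel (Nat.beq u 0) 0 (frc (mn u c) fun c =>
      frc (walk m w d) fun x =>
      sel (Nat.beq x 0) 0 (sel (sb a (Nat.shiftRight m x)) (y x c)
        (sel (sb (Nat.xor a VM) (Nat.shiftRight m x)) (n x c)
          (frc (y x c) fun p => sel (Nat.beq p 0) 0 (frc (n x c) fun q => mn p q))))))
    (fun w a u _ _ y n d c => sel (Nat.beq u 0) 0 (frc (mn u c) fun c =>
      frc (walk m w d) fun x =>
      sel (Nat.beq x 0) 0 (sel (sb a (Nat.shiftRight m x)) (y x c)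
        (sel (sb (Nat.xor a FM) (Nat.shiftRight m x)) (n x c)
          (frc (y x c) fun p => sel (Nat.beq p 0) 0 (frc (n x c) fun q => mn p q)))))) P

/-- face successor and predecessor -/
def ph (m d : ℕ) : ℕ := nx m (al m d)
def phi (m d : ℕ) : ℕ := al m (pv m d)

/-- iterate `f` -/
def itr (f : ℕ → ℕ) (k : ℕ) : ℕ → ℕ := Nat.rec (fun d => d) (fun _ ih d => frc (f d) ih) k

def cmB (g : ℕ → ℕ) (fuel : ℕ) : ℕ → ℕ → ℕ :=
  Nat.rec (fun _ acc => acc) (fun _ ih cur acc => frc (g cur) fun x =>
    sel (Nat.beq x 0) acc (ih x (Nat.lor acc (Nat.shiftLeft 1 x)))) fuel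

/-- bit mask of the darts reached from `d` by `f`, and by `g` if `f` does not close up -/
def cm (f g : ℕ → ℕ) (d : ℕ) : ℕ :=
  Nat.rec (motive := fun _ => ℕ → ℕ → ℕ) (fun _ acc => acc) (fun _ ih cur acc =>
    frc (f cur) fun x => sel (Nat.beq x 0) (cmB g 14 d acc)
      (sel (Nat.beq x d) acc (ih x (Nat.lor acc (Nat.shiftLeft 1 x))))) 14 d (Nat.shiftLeft 1 d)

/-- record the facts `a` on the known part of the vertex, of the face -/
def setV (m d a : ℕ) : ℕ := Nat.lor m (Nat.mul (cm (nx m) (pv m) d) a)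
def setF (m d a : ℕ) : ℕ := Nat.lor m (Nat.mul (cm (ph m) (phi m) d) a)

def getV (m d : ℕ) : ℕ := Nat.land (Nat.shiftRight m d) VM
def getF (m d : ℕ) : ℕ := Nat.land (Nat.shiftRight m d) FM

/-- cell contents from links -/
def cel (n p a : ℕ) : ℕ := Nat.lor n (Nat.lor (Nat.shiftLeft p 17) (Nat.shiftLeft a 34))

/-- `x` or-ed into the cell of `d` -/
def put (m d x : ℕ) : ℕ := Nat.lor m (Nat.shiftLeft x d)

/-- new dart `nd` opposite to `e`, with facts `v` -/
def extA (ini m nd e v : ℕ) : ℕ :=
  put (put m e (cel 0 0 nd)) nd (Nat.lor (cel 0 0 e) (Nat.lor (Nat.lor v ini) (getF m (nx m e))))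

/-- two new darts complete the vertex of `a` to a vertex of degree three; `f` holds for the face
of the first one -/
def cmpZ (ini m nd a f : ℕ) : ℕ :=
  put (put (put m a (cel nd (Nat.add nd 128) 0)) nd
    (Nat.lor (cel (Nat.add nd 128) a 0) (Nat.lor (Nat.lor ZB ini) f))) (Nat.add nd 128)
    (Nat.lor (cel a nd 0) (Nat.lor ZB ini))

/-- new dart `nd` after `x` -/
def extF (ini m nd x : ℕ) : ℕ :=
  put (put m x nd) nd
    (Nat.lor (cel 0 x 0) (Nat.lor (Nat.lor (getV m x) ini) (getF m (al m x))))

/-- new dart `nd` before `x` -/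
def extB (ini m nd x : ℕ) : ℕ :=
  put (put m x (cel 0 nd 0)) nd (Nat.lor x (Nat.lor (getV m x) ini))

/-- types excluded when the degree is exactly `c`; all types when there is no such test -/
def degX (c : ℕ) : ℕ := sel (Nat.ble c 5) (Nat.shiftLeft (byt 0x2f373a3d3f3f c) 64) VM

/-- classes excluded when the length is exactly `c` (`1 ≤ c ≤ 11`), all classes otherwise -/
def lenX (c : ℕ) : ℕ := sel (Nat.ble c 11) (Nat.shiftLeft (Nat.land (Nat.shiftRight
  0x3fdfff3fe7ff3ff87f3f7f973fffeb3ffffd2ffffe37ffff3bffff3dffff3effff3fffff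
  (Nat.mul c 24)) 4194303) 70) FM

/-- go back along `pv` to the first dart; continue with it and the number of darts -/
def bkV (m : ℕ) (K : ℕ → ℕ → Bool) (fuel : ℕ) : ℕ → ℕ → Bool :=
  Nat.rec (fun _ _ => false) (fun _ ih f c => frc (pv m f) fun p =>
    sel (Nat.beq p 0) (K f c) (frc (Nat.succ c) (ih p))) fuel

/-- go back along the face to the first dangling dart -/
def bkF (m : ℕ) (K : ℕ → ℕ → Bool) (fuel : ℕ) : ℕ → ℕ → Bool :=
  Nat.rec (fun _ _ => false) (fun _ ih y c => frc (pv m y) fun p => cj (Nat.ble 128 p)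
    (frc (al m p) fun q => sel (Nat.beq q 0) (K p c) (frc (Nat.succ c) (ih q)))) fuel

/-- entry `4 * i + j` of a table of 24-bit words -/
def w24 (t i j : ℕ) : ℕ :=
  Nat.land (Nat.shiftRight t (Nat.mul (Nat.add (Nat.mul i 4) j) 24)) 16777215

/-- classes longer than `i` with fewer than `j` vertices of degree two -/
def XLO : ℕ := 0x000000000000000000000000000000000000000000000000001000000000000000000000001700000600000400000000009760008660000420000000009770008670000430000000009770008670000430000000009771008671000431000000009771008671000431000000009771008671000431000000009771008671000431000000009771008671000431000000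
/-- classes of length `i + 1` with more than `j` vertices of degree two -/
def XHI : ℕ := 0x000000000000000000000000000000000000000000000000000000000800000800000800000000000080000180000380000000000000000008008048000000000000000000000004000000000000000000000000000000000000000000000000000000000000000000000000000000000000000000000000000000000000000000000000000000000000000000000000
/-- classes whose length does not divide `c` -/
def xcl (c : ℕ) : ℕ := Nat.land (Nat.shiftRight
  0x30bffd3edfff2ce7fe3af87f347f973effeb38fffd2efffe34ffff3affff3cffff3effff000000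
  (Nat.mul c 24)) 16777215

def up3 (c : ℕ) : ℕ := sel (Nat.ble c 2) (Nat.succ c) 3

/-- classes excluded by the known part of the face from `x` on -/
def relL (m x fuel : ℕ) : ℕ → ℕ → ℕ → ℕ → ℕ → ℕ → ℕ :=
  Nat.rec (fun _ _ _ _ _ acc => acc) (fun _ ih i y lo hi nz acc =>
    frc (Nat.land (Nat.shiftRight m (Nat.add y 64)) 63) fun v =>
    frc (sel (sb 61 v) (up3 lo) lo) fun lo =>
    frc (sel (tb v 1) hi (up3 hi)) fun hi =>
    frc (sel (sb 62 v) nz 1) fun nz =>
    frc (Nat.lor (Nat.lor acc (sel (cj (Nat.beq i 4) (Nat.beq nz 0)) 1 0))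
      (Nat.lor (w24 XLO i lo) (w24 XHI i hi))) fun acc =>
    frc (ph m y) fun y' => frc (Nat.succ i) fun i' =>
    sel (Nat.beq y' 0) acc
      (sel (Nat.beq y' x) (Nat.lor acc (xcl i')) (ih i' y' lo hi nz acc))) fuel

/-- the two classes of 8-faces with one vertex of degree two -/
def relQ (m x : ℕ) : ℕ :=
  sel (sb TB (Nat.shiftRight m x))
    (Nat.lor (sel (sb (lenX 6) (Nat.shiftRight m (nx m x))) 64 0)
      (sel (tb m (Nat.add (nx m x) 71)) 32768 0)) 0

def relX (m x : ℕ) : ℕ := Nat.shiftLeft (Nat.lor (relL m x 12 0 x 0 0 0 0) (relQ m x)) 70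

/-- overwrite the link at bit `p` -/
def setL (m p v : ℕ) : ℕ :=
  Nat.xor m (Nat.shiftLeft (Nat.xor (Nat.land (Nat.shiftRight m p) 131071) v) p)

/-- record that `d` equals `x` -/
def setE (m d x : ℕ) : ℕ :=
  Nat.xor m (Nat.shiftLeft (Nat.xor (Nat.shiftRight (eqd m d) 7) (Nat.shiftRight x 7))
    (Nat.add d 51))

/-- copy the link at offset `o` from `b` to `a` if `a` has none -/
def cpL (m a b o : ℕ) : ℕ :=
  sel (Nat.beq (fld m a o) 0) (Nat.lor m (Nat.shiftLeft (fld m b o) (Nat.add a o))) m

/-- `a` absorbs what is known of `b` -/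
def absorb (m a b : ℕ) : ℕ :=
  frc (put m a (Nat.land (Nat.shiftRight m b) AM)) fun m => frc (cpL m a b 0) fun m =>
    frc (cpL m a b 17) fun m => cpL m a b 34

/-! Bounds -/

/-- offset of the level facts of kind `k` -/
def kof (k : ℕ) : ℕ := sel (Nat.beq k 0) 92 108

/-- the highest bit below 10 that is not set; 15 for bit 9 -/
def top10 (x : ℕ) : ℕ := Nat.land (Nat.shiftRight
  0x112222333333334444444444444444555555555555555555555555555555556666666666666666666666666666666666666666666666666666666666666666777777777777777777777777777777777777777777777777777777777777777777777777777777777777777777777777777777777777777777777777777777778888888888888888888888888888888888888888888888888888888888888888888888888888888888888888888888888888888888888888888888888888888888888888888888888888888888888888888888888888888888888888888888888888888888888888888888888888888888888888888888888888888888888888ffffffffffffffffffffffffffffffffffffffffffffffffffffffffffffffffffffffffffffffffffffffffffffffffffffffffffffffffffffffffffffffffffffffffffffffffffffffffffffffffffffffffffffffffffffffffffffffffffffffffffffffffffffffffffffffffffffffffffffffffffffffffffffffffffffffffffffffffffffffffffffffffffffffffffffffffffffffffffffffffffffffffffffffffffffffffffffffffffffffffffffffffffffffffffffffffffffffffffffffffffffffffffffffffffffffffffffffffffffffffffffffffffffffffffffffffffffffffffffffffffffffffffffffffffffffffffffffff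
  (Nat.shiftLeft (Nat.land x 1023) 2)) 15

/-- bits below `a` -/
def low (a : ℕ) : ℕ := Nat.pred (Nat.shiftLeft 1 a)
/-- bits from `a` to 9 -/
def hig (a : ℕ) : ℕ := Nat.land 1023 (Nat.shiftLeft 1023 a)

/-- upper bound of the level of kind `k ≤ 1` -/
def ubl (R : Rule) (m k d : ℕ) : ℕ :=
  frc (top10 (Nat.shiftRight m (Nat.add d (kof k)))) fun t =>
    sel (Nat.ble t 8) t (frc (evMax m (R.s k) d 0) (mn 15))

/-- sum of `g` along `k` steps of `f` -/
def sumI (f g : ℕ → ℕ) (k : ℕ) : ℕ → ℕ → ℕ :=
  Nat.rec (fun _ acc => acc) (fun _ ih d acc => frc (Nat.add acc (g d)) fun acc =>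
    frc (f d) fun d' => ih d' acc) k

def tmk (R : Rule) (a : ℕ) : ℕ := Nat.land (Nat.shiftRight R.tm (Nat.shiftLeft a 4)) 1023

/-- contribution of the competitor `k`, `y` against level `a`: request, weight, request in a
higher tier -/
def cmpt (R : Rule) (m a k y : ℕ) : ℕ :=
  frc (ubl R m k y) fun b => sel (Nat.blt (byt R.ti b) (byt R.ti a)) 0
    (sel (Nat.beq (byt R.ti a) (byt R.ti b)) (Nat.add (byt R.amx b) (Nat.shiftLeft (byt R.wt b) 16))
      (Nat.add (Nat.shiftLeft (byt R.amh b) 32)
        (sel (sb (tmk R a) (Nat.shiftRight m (Nat.add y (kof k)))) (byt R.amh b)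
          (Nat.add (byt R.amx b) (Nat.shiftLeft (byt R.wx a) 16)))))

/-- one if the vertex may have type 1 -/
def may2 (m y : ℕ) : ℕ := Nat.land (Nat.xor (Nat.shiftRight m (Nat.add y 65)) 1) 1
/-- one if the vertex has type 1 -/
def sure2 (m y : ℕ) : ℕ := sel (sb TB (Nat.shiftRight m y)) 1 0

/-- capacity of class `j` with `n` corners of degree two -/
def capn (R : Rule) (j n : ℕ) : ℕ := Nat.add (byt R.cap j) (Nat.mul 12 (Nat.sub (byt R.kh j) n))

/-- length of the faces of class `j`, zero if not fixed -/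
def fl (j : ℕ) : ℕ := byt 0x050403020108000b0a0a0909090908080708070605 j

/-- all classes but `j` excluded -/
def clsX (j : ℕ) : ℕ := Nat.xor FM (Nat.shiftLeft 1 (Nat.add j 70))

/-- lower bound of the amount of kind `k` at `d` on a face of class `j` that shares its capacity,
`a` the exact level -/
def shr (R : Rule) (m k d j a : ℕ) : ℕ :=
  frc (sumI (ph m) (fun y => Nat.add (cmpt R m a 0 y) (cmpt R m a 1 y))
      (Nat.pred (fl j)) (ph m d) (cmpt R m a (Nat.sub 1 k) d)) fun t =>
    frc (capn R j (sumI (ph m) (may2 m) (fl j) d 0)) fun C =>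
    sel (Nat.ble (Nat.add (Nat.land t 65535) (byt R.am1 a)) C) (byt R.am1 a)
      (mn (byt R.am1 a) (Nat.div (Nat.mul (Nat.sub C (Nat.shiftRight t 32)) (byt R.wt a))
        (Nat.add (byt R.wt a) (Nat.land (Nat.shiftRight t 16) 65535))))

/-- lower bound of the amount of kind `k` at `d`, zero unless the route is `r` -/
def lba (R : Rule) (m k d r j : ℕ) : ℕ :=
  frc (evMin m r (R.s k) d 15) fun a => sel (Nat.beq a 0) 0
    (sel (Nat.ble 2 k)
      (sel (dj (Nat.beq k 3) (tb m (Nat.add d 84))) (byt R.am0 a) (mn 6 (byt R.am0 a)))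
      (sel (sb (Nat.shiftLeft R.c1 70) (Nat.shiftRight m d))
        (sel (tb m (Nat.add d 84)) (byt R.am0 a)
          (sel (cj (sb (clsX 14) (Nat.shiftRight m d)) (Nat.beq (evMax m R.s2 d 0) 0))
            (frc (ubl R m (Nat.sub 1 k) d) fun b => sel (Nat.blt b a) 6 (sel (Nat.ble b a) 3 0)) 0))
        (sel (cj (sb (low (Nat.land j 7)) (Nat.shiftRight m (Nat.add (Nat.add d (kof k)) 10)))
            (Nat.ble (ubl R m k d) a))
          (Nat.div (Nat.mul (byt R.th (Nat.land j 7)) (byt R.am1 a)) 12) 0)))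

/-- the amount of kind `k ≤ 1` at `d`, on a face of class `j` and of level `a`, has class at
least `t` -/
def shrL (R : Rule) (m k d j a t : ℕ) : Bool :=
  cj (tb R.c1 j) (cj (Nat.ble 1 (fl j)) (cj (sb (clsX j) (Nat.shiftRight m d))
    (cj (sb (low a) (Nat.shiftRight m (Nat.add d (kof k)))) (cj (Nat.ble (ubl R m k d) a)
      (cj (Nat.ble t 5) (cj (sb (Nat.land 63 (hig t))
          (Nat.shiftRight m (Nat.add (Nat.add d (kof k)) 10))) (cj (Nat.ble 1 a)
        (Nat.ble (Nat.mul (byt R.th t) (byt R.am1 a)) (Nat.mul 12 (shr R m k d j a))))))))))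

/-- the dart named by the low 10 bits -/
def dart (c : ℕ) : ℕ := Nat.shiftLeft (Nat.succ (Nat.land c 1023)) 7

/-- incoming amounts: entries of 30 bits (dart, position 4, kind 2, route 9, class 5) with
increasing keys; `f` walks around the receiving element `x` of size `n` -/
def inc (R : Rule) (m nd : ℕ) (fc : Bool) (f : ℕ → ℕ) (x n need fuel : ℕ) : ℕ → ℕ → ℕ → Bool :=
  Nat.rec (fun _ _ _ => false) (fun _ ih c key acc => dj (Nat.ble need acc)
    (frc (dart c) fun d => frc (Nat.land (Nat.shiftRight c 10) 32767) fun ky =>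
      frc (Nat.land ky 15) fun i => frc (Nat.shiftRight ky 6) fun r =>
      cj (Nat.blt d nd) (cj (Nat.ble key ky) (cj (Nat.blt i n)
        (Prod.rec (motive := fun _ => Bool) (fun w b => cj (sel b fc (sel fc false true))
          (frc (walk m w d) fun y => cj (Nat.ble 128 y) (cj (Nat.beq y (itr f i x))
            (frc (Nat.add acc (lba R m (Nat.land (Nat.shiftRight ky 4) 3) d r
                (Nat.land (Nat.shiftRight c 25) 31)))
              (ih (Nat.shiftRight c 30) (Nat.succ ky)))))) (R.rt.get r)))))) fuel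

/-- the charge of the vertex of `x`, of degree `n`, is not negative -/
def bndV (R : Rule) (m nd x n c : ℕ) : Bool :=
  cj (sb (degX n) (Nat.shiftRight m x))
    (frc (sumI (nx m) (fun y => byt R.am0 (frc (evMax m R.s3 y 0) (mn 15))) n x 72) fun o =>
      inc R m nd false (nx m) x n o 40 c 0 (Nat.mul n 24))

def out01 (R : Rule) (m y : ℕ) : ℕ := Nat.add (byt R.am0 (ubl R m 0 y)) (byt R.am0 (ubl R m 1 y))
def out2 (R : Rule) (m y : ℕ) : ℕ := byt R.am0 (frc (evMax m R.s2 y 0) (mn 15))

/-- the charge of the face of `x`, of length `n`, is not negative; `j` is the class if it shares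
its capacity -/
def bndF (R : Rule) (m nd x n j c : ℕ) : Bool :=
  cj (sb (lenX n) (Nat.shiftRight m x))
    (sel (sb (Nat.shiftLeft R.c1 70) (Nat.shiftRight m x))
      (frc (sumI (ph m) (fun y => Nat.add (out01 R m y) (out2 R m y)) n x 72) fun o =>
        inc R m nd true (ph m) x n o 40 c 0 (Nat.mul n 12))
      (cj (tb R.c1 j) (cj (sb (clsX j) (Nat.shiftRight m x))
        (frc (sumI (ph m) (out2 R m) n x
            (Nat.add 72 (capn R j (sumI (ph m) (sure2 m) n x 0)))) fun o =>
          inc R m nd true (ph m) x n o 40 c 0 (Nat.mul n 12)))))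

/-- the window from `x`, on a long face, is within its bound -/
def bndW (R : Rule) (m x _j : ℕ) : Bool :=
  cj (sb (Nat.shiftLeft R.c1 70) (Nat.shiftRight m x)) (cj (sb (clsX 14) (Nat.shiftRight m x))
    (Nat.ble (Nat.mul R.ww 6) (byt R.wb 14)))

/-! Patterns: streams of 3-bit operations.  0 end, 1 opposite, 2 next, 3 previous, 4 facts
(shift 6 bits, value 22 bits), 5 branch, 6 type facts (6 bits), 7 class facts (22 bits). -/

/-- the facts of a test -/
def tstA (c : ℕ) : ℕ := Nat.shiftLeft (Nat.land (Nat.shiftRight c 9) 4194303)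
  (Nat.add (Nat.land (Nat.shiftRight c 3) 63) 64)
def tstV (c : ℕ) : ℕ := Nat.shiftLeft (Nat.land (Nat.shiftRight c 3) 63) 64
def tstF (c : ℕ) : ℕ := Nat.shiftLeft (Nat.land (Nat.shiftRight c 3) 4194303) 70

/-- match a pattern, mirrored if `o`; zero is failure, `r + 1` success with rest `r` -/
def mtc (m : ℕ) (o : Bool) (fuel : ℕ) : ℕ → ℕ → ℕ :=
  Nat.rec (fun _ _ => 0) (fun _ ih c d => frc (Nat.land c 7) fun op =>
    sel (Nat.ble op 3)
      (sel (Nat.beq op 0) (Nat.succ (Nat.shiftRight c 3))
        (frc (sel (Nat.beq op 1) (al m d) (sel (Nat.beq op (sel o 3 2)) (nx m d) (pv m d))) fun y =>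
          frc (Nat.shiftRight c 3) fun c' => ih c' y))
      (sel (Nat.ble op 5)
        (sel (Nat.beq op 4)
          (sel (sel o false (cj (Nat.blt (tstA c) (Nat.shiftLeft 1 127))
              (sb (tstA c) (Nat.shiftRight m d))))
            (frc (Nat.shiftRight c 31) fun c' => ih c' d) 0)
          (frc (Nat.shiftRight c 3) fun c' => frc (ih c' d) fun r =>
            sel (Nat.beq r 0) 0 (frc (Nat.pred r) fun c'' => ih c'' d)))
        (sel (Nat.beq op 6)
          (sel (sb (tstV c) (Nat.shiftRight m d)) (frc (Nat.shiftRight c 9) fun c' => ih c' d) 0)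
          (sel (sel o (dj (sb (tstF c) (Nat.shiftRight m (nx m d)))
              (sb (tstF c) (Nat.shiftRight m (al m d)))) (sb (tstF c) (Nat.shiftRight m d)))
            (frc (Nat.shiftRight c 25) fun c' => ih c' d) 0)))) fuel

/-- build the map of a pattern and continue with the rest of the stream -/
def bld (ini fuel : ℕ) : ℕ → ℕ → ℕ → ℕ → (ℕ → ℕ → ℕ → Bool) → Bool :=
  Nat.rec (fun _ _ _ _ _ => false) (fun _ ih c d m nd K => frc (Nat.land c 7) fun op =>
    sel (Nat.ble op 3)
      (frc (Nat.shiftRight c 3) fun c' => sel (Nat.beq op 0) (K c' m nd)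
        (frc (sel (Nat.beq op 1) (al m d) (sel (Nat.beq op 2) (nx m d) (pv m d))) fun y =>
          sel (Nat.beq y 0)
            (cj (Nat.ble nd 130000)
              (frc (sel (Nat.beq op 1) (extA ini m nd d 0)
                (sel (Nat.beq op 2) (extF ini m nd d) (extB ini m nd d))) fun m' =>
                frc (Nat.add nd 128) fun nd' => ih c' nd m' nd' K))
            (ih c' y m nd K)))
      (sel (Nat.ble op 5)
        (sel (Nat.beq op 4)
          (cj (Nat.blt (tstA c) (Nat.shiftLeft 1 127)) (frc (put m d (tstA c)) fun m' =>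
            frc (Nat.shiftRight c 31) fun c' => ih c' d m' nd K))
          (frc (Nat.shiftRight c 3) fun c' =>
            ih c' d m nd fun c'' m' nd' => ih c'' d m' nd' K))
        (sel (Nat.beq op 6)
          (frc (put m d (tstV c)) fun m' => frc (Nat.shiftRight c 9) fun c' =>
            sel (cj (Nat.beq (tstV c) ZB) (Nat.beq (Nat.lor (nx m d) (pv m d)) 0))
              (cj (Nat.ble nd 130000) (frc (cmpZ ini m' nd d (getF m (al m d))) fun m'' =>
                frc (Nat.add nd 256) fun nd' => ih c' d m'' nd' K))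
              (ih c' d m' nd K))
          (frc (put m d (tstF c)) fun m' => frc (Nat.shiftRight c 25) fun c' =>
            ih c' d m' nd K)))) fuel

/-! The tree checker -/

/-- two subtrees: 20 bits of length, the first subtree, the second -/
def two (c : ℕ) (K1 K2 : ℕ → Bool) : Bool :=
  frc (Nat.land c 1048575) fun len => frc (Nat.shiftRight c 20) fun c =>
    cj (frc (Nat.land c (Nat.pred (Nat.shiftLeft 1 len))) K1) (frc (Nat.shiftRight c len) K2)

def slt (ih : ℕ → ℕ → ℕ → Bool) (m nd c : ℕ) : Bool := frc m fun m' => ih m' nd c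

def go (ih : ℕ → ℕ → ℕ → Bool) (m nd c : ℕ) : Bool := frc m fun m' => frc c (ih m' nd)

/-- a vertex in `N` at distance at most one from the tail of `e` -/
def nearN (m e : ℕ) : Bool :=
  dj (tb m (Nat.add e 64))
    (dj (tb m (Nat.add (al m (nx m e)) 64)) (tb m (Nat.add (al m (pv m e)) 64)))

def extZ (ini m nd e : ℕ) : ℕ :=
  frc (extA ini m nd e ZB) fun m' => cmpZ ini m' (Nat.add nd 128) nd (getF m e)

/-- offsets of the three links -/
def off (r : ℕ) : ℕ := Nat.mul (Nat.mod r 3) 17

def stepA (ini : ℕ) (ih : ℕ → ℕ → ℕ → Bool) (m nd op d c : ℕ) : Bool :=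
  sel (Nat.ble op 3)
    (cj (Nat.ble nd 130000) (sel (Nat.ble op 1)
      (cj (Nat.beq (al m d) 0) (sel (Nat.beq op 0)
        (two c (fun l => frc (Nat.add nd 384) fun nd' => slt ih (extZ ini m nd d) nd' l)
          (fun r => frc (Nat.add nd 128) fun nd' => slt ih (extA ini m nd d NB) nd' r))
        (cj (nearN m d) (frc (Nat.add nd 384) fun nd' => go ih (extZ ini m nd d) nd' c))))
      (frc (Nat.add nd 128) fun nd' => sel (Nat.beq op 2)
        (cj (Nat.beq (nx m d) 0) (go ih (extF ini m nd d) nd' c))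
        (cj (Nat.beq (pv m d) 0) (go ih (extB ini m nd d) nd' c)))))
    (sel (Nat.ble op 5)
      (sel (Nat.beq op 4)
        (cj (Nat.beq (nx m d) 0) (bkV m (fun f n => cj (sb (degX n) (Nat.shiftRight m d))
          (frc (put (put m d f) f (cel 0 d 0)) fun m' =>
            go ih (setF m' f (Nat.lor (getF m f) (getF m (al m d)))) nd c)) 8 d 1))
        (cj (Nat.beq (al m d) 0) (bkF m (fun a n => cj (sb (lenX n) (Nat.shiftRight m d))
          (frc (put (put m d (cel 0 0 a)) a (cel 0 0 d)) fun m' =>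
            go ih (setF m' a (Nat.lor (getF m a) (getF m (nx m d)))) nd c)) 12 d 1)))
      (sel (Nat.beq op 6)
        (frc (cm (nx m) (pv m) d) fun s => frc (Nat.shiftLeft (Nat.land c 63) 64) fun a =>
          two (Nat.shiftRight c 6) (fun l => slt ih (Nat.lor m (Nat.mul s a)) nd l)
            (fun r => slt ih (Nat.lor m (Nat.mul s (Nat.xor a VM))) nd r))
        (frc (cm (ph m) (phi m) d) fun s => frc (Nat.shiftLeft (Nat.land c 4194303) 70) fun a =>
          two (Nat.shiftRight c 22) (fun l => slt ih (Nat.lor m (Nat.mul s a)) nd l)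
            (fun r => slt ih (Nat.lor m (Nat.mul s (Nat.xor a FM))) nd r))))

/-- offsets and widths of the four fields -/
def fo (s : ℕ) : ℕ := byt 0x766c665c s
def fw (s : ℕ) : ℕ := byt 0x060a060a s

def stepB (R : Rule) (pats : BT ℕ) (lim : ℕ) (ih : ℕ → ℕ → ℕ → Bool) (m nd op d c : ℕ) : Bool :=
  sel (Nat.ble op 11)
    (sel (Nat.ble op 9)
      (sel (Nat.beq op 8)
        (frc (Nat.add d (fo (Nat.land c 3))) fun p => frc (low (fw (Nat.land c 3))) fun w =>
          frc (Nat.land (Nat.shiftRight c 2) w) fun a =>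
          two (Nat.shiftRight c 12) (fun l => slt ih (put m p a) nd l)
            (fun r => slt ih (put m p (Nat.xor a w)) nd r))
        (go ih (setF m d (relX m d)) nd c))
      (sel (Nat.beq op 10) (go ih (setV m d (getV m d)) nd c) (go ih (setF m d (getF m d)) nd c)))
    (sel (Nat.ble op 13)
      (sel (Nat.beq op 12)
        (dj (sb VM (Nat.shiftRight m d)) (dj (sb FM (Nat.shiftRight m d)) (Nat.beq (al m d) d)))
        (frc (Nat.shiftRight c 1) fun j => cj (Nat.blt j lim)
          (Nat.ble 1 (mtc m (Nat.beq (Nat.land c 1) 1) 2000 (pats.get j) d))))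
      (frc (Nat.land c 1) fun k => frc (evMax m (R.s k) d 0) fun t =>
        sel (Nat.beq op 14)
          (sb (low (Nat.succ (mn t 9))) (Nat.shiftRight m (Nat.add d (kof k))))
          (go ih (put m (Nat.add d (kof k)) (hig (Nat.succ (mn t 9)))) nd (Nat.shiftRight c 1))))

def stepC (R : Rule) (red : ℕ → ℕ → ℕ → Bool) (ih : ℕ → ℕ → ℕ → Bool) (m nd op d c : ℕ) : Bool :=
  sel (Nat.ble op 19)
    (sel (Nat.ble op 17)
      (sel (Nat.beq op 16)
        (cj (tb m (Nat.add d 124)) (bndV R m nd d (Nat.land c 7) (Nat.shiftRight c 3)))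
        (cj (tb m (Nat.add d 125)) (bndF R m nd d (Nat.land c 15)
          (Nat.land (Nat.shiftRight c 4) 31) (Nat.shiftRight c 9))))
      (sel (Nat.beq op 18) (cj (tb m (Nat.add d 126)) (bndW R m d (Nat.land c 31))) (red m nd c)))
    (sel (Nat.ble op 21)
      (frc (Nat.land c 15) fun n =>
        cj (sb (sel (Nat.beq op 20) (lenX n) (degX n)) (Nat.shiftRight m d))
          (frc (itr (sel (Nat.beq op 20) (ph m) (nx m)) n d) fun y => cj (Nat.ble 128 y)
            (go ih (setE m y d) nd (Nat.shiftRight c 4))))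
      (frc (off (Nat.land c 3)) fun o => frc (Nat.shiftRight c 2) fun c' =>
        sel (Nat.beq op 25)
          (frc (fld m d o) fun y => cj (Nat.ble 128 y) (frc (eqd m y) fun z => cj (Nat.ble 128 z)
            (go ih (setL m (Nat.add d o) z) nd c')))
          (frc (eqd m d) fun a => cj (Nat.ble 128 a)
            (sel (Nat.ble op 23)
              (frc (fld m a o) fun u => frc (fld m d o) fun v =>
                cj (Nat.ble 128 u) (cj (Nat.ble 128 v)
                  (sel (Nat.beq op 22) (go ih (setE m v u) nd c') (go ih (setE m u v) nd c'))))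
              (sel (Nat.beq op 24) (go ih (absorb m a d) nd c')
                (sel (Nat.beq op 26) (go ih (setE m a d) nd c')
                  (frc (eqd m a) fun z => cj (Nat.ble 128 z) (go ih (setE m d z) nd c'))))))))

def stepD (R : Rule) (ih : ℕ → ℕ → ℕ → Bool) (m nd op d c : ℕ) : Bool :=
  frc (Nat.land c 1) fun k => sel (Nat.beq op 28)
    (go ih (put m (Nat.add d (kof k))
      (low (mn 9 (evMin m (Nat.land (Nat.shiftRight c 1) 511) (R.s k) d 15)))) nd
      (Nat.shiftRight c 10))
    (sel (Nat.beq op 29)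
      (shrL R m k d (Nat.land (Nat.shiftRight c 1) 31) (Nat.land (Nat.shiftRight c 6) 15)
        (Nat.land (Nat.shiftRight c 10) 7))
      (cj (tb m (Nat.add d (Nat.add k 124))) (frc (sel (Nat.beq k 0) (nx m d) (ph m d)) fun y =>
        cj (Nat.ble 128 y) (go ih (put m y (Nat.shiftLeft 1 (Nat.add k 124))) nd
          (Nat.shiftRight c 1)))))

/-- the tree checker: 5 bits operation, 10 bits dart, then the arguments -/
def chk (R : Rule) (ini : ℕ) (pats : BT ℕ) (lim : ℕ) (red : ℕ → ℕ → ℕ → Bool) (fuel : ℕ) :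
    ℕ → ℕ → ℕ → Bool :=
  Nat.rec (fun _ _ _ => false) (fun _ ih m nd c => frc (Nat.land c 31) fun op =>
    frc (dart (Nat.shiftRight c 5)) fun d => frc (Nat.shiftRight c 15) fun c' =>
      cj (Nat.blt d nd) (sel (Nat.ble op 7) (stepA ini ih m nd op d c')
        (sel (Nat.ble op 15) (stepB R pats lim ih m nd op d c')
          (sel (Nat.ble op 27) (stepC R red ih m nd op d c') (stepD R ih m nd op d c'))))) fuel

/-- certificate `c` refutes pattern `p` using the patterns below `lim` -/
def chkP (R : Rule) (ini : ℕ) (pats : BT ℕ) (lim : ℕ) (red : ℕ → ℕ → ℕ → Bool) (p c : ℕ) : Bool :=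
  bld ini 2000 p 128 (Nat.shiftLeft ini 128) 256 fun _ m nd => chk R ini pats lim red 3000 m nd c

/-- `n` certificates for the patterns from number `i` on -/
def chkM (R : Rule) (ini : ℕ) (pats : BT ℕ) (red : ℕ → ℕ → ℕ → Bool) (n : ℕ) : ℕ → ℕ → Bool :=
  Nat.rec (fun _ _ => true) (fun _ ih i c => two c (chkP R ini pats i red (pats.get i))
    (frc (Nat.succ i) ih)) n

/-! Semantics -/

section

variable {D : Type}

open Classical in
/-- vertex types: outside `N`; in `N` of degree 2, 3, 4, 5, other -/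
def vt (σ : Perm D) (N : Set D) (x : D) : ℕ :=
  if x ∉ N then 0 else if deg σ x = 2 then 1 else if deg σ x = 3 then 2
  else if deg σ x = 4 then 3 else if deg σ x = 5 then 4 else 5

open Classical in
/-- number of corners of the face at vertices of type 1 -/
def cnt2 (σ α : Perm D) (N : Set D) (x : D) : ℕ :=
  ((Finset.range (fln σ α x)).filter fun i => vt σ N (((σ * α) ^ i) x) = 1).card

open Classical in
/-- face classes f5 f6 f7 f8 g7 g8 p8 z9 p9 m9 g9 p10 g10 g11 g12 q8, lengths 1 to 4, bad 5-faces -/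
def fc (σ α : Perm D) (N : Set D) (x : D) : ℕ :=
  if fln σ α x ≤ 4 then 15 + fln σ α x
  else if fln σ α x = 5 then
    (if cnt2 σ α N x = 0 ∧ ∃ i < 5, ((σ * α) ^ i) x ∈ N then 0 else 20)
  else if fln σ α x = 6 then 1
  else if fln σ α x = 7 then (if cnt2 σ α N x = 0 then 4 else 2)
  else if fln σ α x = 8 then
    (if cnt2 σ α N x = 0 then 5 else if cnt2 σ α N x = 1 then
      (if ∃ i < 8, vt σ N (((σ * α) ^ i) x) = 1 ∧ fln σ α (σ (((σ * α) ^ i) x)) = 6 then 15 else 6)
    else 3)
  else if fln σ α x = 9 then 10 - min (cnt2 σ α N x) 3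
  else if fln σ α x = 10 then (if cnt2 σ α N x ≤ 2 then 12 else 11)
  else if fln σ α x = 11 then 13 else 14

def wr (σ α : Perm D) : W → D → D
  | .e, x => x
  | .a w, x => wr σ α w (α x)
  | .s w, x => wr σ α w (σ x)
  | .i w, x => wr σ α w (σ⁻¹ x)

def clamp (u v : ℕ) : ℕ := if v % 16 ≤ u then v else 0

/-- the value of a program: level plus 16 times the route -/
def run (σ α : Perm D) (N : Set D) : Prog → D → ℕ
  | .ret v, _ => v
  | .askV w a u y n, x => clamp u (if a.testBit (64 + vt σ N (wr σ α w x))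
      then run σ α N n (wr σ α w x) else run σ α N y (wr σ α w x))
  | .askF w a u y n, x => clamp u (if a.testBit (70 + fc σ α N (wr σ α w x))
      then run σ α N n (wr σ α w x) else run σ α N y (wr σ α w x))

variable (R : Rule) (σ α : Perm D) (N : Set D)

def lv (k : ℕ) (x : D) : ℕ := run σ α N (R.s k) x % 16
def rte (k : ℕ) (x : D) : W × Bool := R.rt.get (run σ α N (R.s k) x / 16)

/-- sum over the positions (kinds 0 and 1) of the face of `x` -/
def fsum (g : ℕ → ℕ) (x : D) : ℕ := ∑ i ∈ Finset.range (fln σ α x),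
  (g (lv R σ α N 0 (((σ * α) ^ i) x)) + g (lv R σ α N 1 (((σ * α) ^ i) x)))

/-- the capacity of the face of `x` -/
def capx (x : D) : ℕ := byt R.cap (fc σ α N x) + 12 * (byt R.kh (fc σ α N x) - cnt2 σ α N x)

/-- requests of tier at least `t` -/
def req (t : ℕ) (x : D) : ℕ := fsum R σ α N (fun l => if t ≤ byt R.ti l then byt R.am1 l else 0) x

/-- the amounts on long faces -/
def lng (k : ℕ) (x : D) : ℕ :=
  if k = 2 then min 6 (byt R.am0 (lv R σ α N 2 x)) else if lv R σ α N 2 x ≠ 0 then 0
  else if lv R σ α N (1 - k) x < lv R σ α N k x then 6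
  else if lv R σ α N (1 - k) x = lv R σ α N k x ∧ lv R σ α N k x ≠ 0 then 3 else 0

/-- the amount sent by kind `k` at dart `x` -/
def amt (k : ℕ) (x : D) : ℕ :=
  if k ≤ 1 ∧ R.c1.testBit (fc σ α N x) then
    if req R σ α N (byt R.ti (lv R σ α N k x)) x ≤ capx R σ α N x then byt R.am1 (lv R σ α N k x)
    else min (byt R.am1 (lv R σ α N k x))
      ((capx R σ α N x - req R σ α N (byt R.ti (lv R σ α N k x) + 1) x) *
        byt R.wt (lv R σ α N k x) /
        fsum R σ α N (fun l => if byt R.ti l = byt R.ti (lv R σ α N k x) then byt R.wt l else 0) x)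
  else if fc σ α N x = 14 ∧ k ≤ 2 then lng R σ α N k x else byt R.am0 (lv R σ α N k x)

/-- the class of the amount -/
def acl (k : ℕ) (x : D) : ℕ :=
  Nat.findGreatest (fun j => byt R.th j * byt R.am1 (lv R σ α N k x) ≤ 12 * amt R σ α N k x) 5

open Classical in
/-- total sent to the cycle of `π` through `x` along routes with flag `b` -/
def inn2 [Fintype D] (π : Perm D) (b : Bool) (x : D) : ℕ :=
  ∑ k ∈ Finset.range 4, ∑ y : D,
    if (rte R σ α N k y).2 = b ∧ π.SameCycle x (wr σ α (rte R σ α N k y).1 y)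
    then amt R σ α N k y else 0

def outF (x : D) : ℕ := amt R σ α N 0 x + amt R σ α N 1 x + amt R σ α N 2 x

/-- the final charge of the vertex is negative -/
def NegV [Fintype D] (x : D) : Prop :=
  24 * deg σ x + inn2 R σ α N σ false x <
    72 + ∑ i ∈ Finset.range (deg σ x), amt R σ α N 3 ((σ ^ i) x)

/-- the final charge of the face is negative -/
def NegF [Fintype D] (x : D) : Prop :=
  12 * fln σ α x + inn2 R σ α N (σ * α) true x <
    72 + ∑ i ∈ Finset.range (fln σ α x), outF R σ α N (((σ * α) ^ i) x)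

/-- the window from `x` exceeds its bound -/
def NegW (x : D) : Prop :=
  byt R.wb (fc σ α N x) < ∑ i ∈ Finset.range R.ww, outF R σ α N (((σ * α) ^ i) x)

/-- the meaning of bit `i` of a cell, `64 ≤ i ≤ 126` -/
def Fact [Fintype D] (i : ℕ) (x : D) : Prop :=
  if i < 70 then vt σ N x + 64 ≠ i
  else if i < 92 then fc σ α N x + 70 ≠ i
  else if i < 102 then min (lv R σ α N 0 x) 9 + 92 ≠ i
  else if i < 108 then acl R σ α N 0 x + 102 ≠ i
  else if i < 118 then min (lv R σ α N 1 x) 9 + 108 ≠ i
  else if i < 124 then acl R σ α N 1 x + 118 ≠ i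
  else if i = 124 then NegV R σ α N x
  else if i = 125 then NegF R σ α N x
  else NegW R σ α N x

/-- all facts in `a` hold at `x` -/
def Facts [Fintype D] (a : ℕ) (x : D) : Prop := ∀ i, a.testBit i = true → Fact R σ α N i x

/-- a dart of the map -/
def Val (nd d : ℕ) : Prop := 128 ≤ d ∧ d < nd ∧ 128 ∣ d

/-- `h` maps the packed map into the plane map -/
structure Hom [Fintype D] (m nd : ℕ) (h : ℕ → D) : Prop where
  nd1 : 128 ∣ nd
  nd2 : 256 ≤ nd
  nd3 : nd ≤ 131072
  top : ∀ i, nd ≤ i → m.testBit i = false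
  nul : ∀ i, i < 128 → i < 51 ∨ 64 ≤ i → m.testBit i = false
  hn : ∀ d, Val nd d → nx m d = 0 ∨ (Val nd (nx m d) ∧ h (nx m d) = σ (h d))
  hp : ∀ d, Val nd d → pv m d = 0 ∨ (Val nd (pv m d) ∧ h (pv m d) = σ⁻¹ (h d))
  ha : ∀ d, Val nd d → al m d = 0 ∨ (Val nd (al m d) ∧ h (al m d) = α (h d))
  he : ∀ d, Val nd d → eqd m d = 0 ∨ (Val nd (eqd m d) ∧ h (eqd m d) = h d)
  hf : ∀ d i, Val nd d → 64 ≤ i → i < 127 → m.testBit (d + i) = true → Fact R σ α N i (h d)

/-- the pattern stream `c` holds at `x` with rest `r` -/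
inductive Holds [Fintype D] : ℕ → D → ℕ → Prop
  | fin (c : ℕ) (x : D) : c % 8 = 0 → Holds c x (c / 8)
  | a (c : ℕ) (x : D) (r : ℕ) : c % 8 = 1 → Holds (c / 8) (α x) r → Holds c x r
  | s (c : ℕ) (x : D) (r : ℕ) : c % 8 = 2 → Holds (c / 8) (σ x) r → Holds c x r
  | i (c : ℕ) (x : D) (r : ℕ) : c % 8 = 3 → Holds (c / 8) (σ⁻¹ x) r → Holds c x r
  | t (c : ℕ) (x : D) (r : ℕ) : c % 8 = 4 → Facts R σ α N (tstA c) x →
      Holds (c / 2 ^ 31) x r → Holds c x r
  | br (c : ℕ) (x : D) (r r' : ℕ) : c % 8 = 5 → Holds (c / 8) x r → Holds r x r' → Holds c x r'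
  | v (c : ℕ) (x : D) (r : ℕ) : c % 8 = 6 → Facts R σ α N (tstV c) x →
      Holds (c / 2 ^ 9) x r → Holds c x r
  | f (c : ℕ) (x : D) (r : ℕ) : c % 8 = 7 → Facts R σ α N (tstF c) x →
      Holds (c / 2 ^ 25) x r → Holds c x r

end

end

/-- no two vertices in `N` at distance two -/
def NZN : Prop := ∀ (D : Type) [Finite D] (σ α : Perm D) (N : Set D), Ctx σ α N →
  ∀ x ∈ N, α (σ (α x)) ∉ N

/-- the pattern does not occur -/
def PatOK (R : Rule) (p : ℕ) : Prop :=
  ∀ (D : Type) [Fintype D] (σ α : Perm D) (N : Set D), Ctx σ α N →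
    ∀ x r, ¬ Holds R σ α N p x r

/-- the facts given to every new dart are class facts and hold -/
def IniOK (R : Rule) (ini : ℕ) : Prop :=
  (∀ i, ini.testBit i = true → 70 ≤ i ∧ i < 92) ∧
  ∀ (D : Type) [Fintype D] (σ α : Perm D) (N : Set D), Ctx σ α N → ∀ x, Facts R σ α N ini x

/-- the leaf test is correct -/
def RedOK (R : Rule) (red : ℕ → ℕ → ℕ → Bool) : Prop :=
  ∀ (D : Type) [Fintype D] (σ α : Perm D) (N : Set D), Ctx σ α N →
    ∀ m nd c h, red m nd c = true → Hom R σ α N m nd h → False

/-- conditions on the tables of a rule -/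
def RuleOK (R : Rule) : Prop :=
  (∀ l < 15, byt R.am0 l ≤ byt R.am0 (l + 1)) ∧ byt R.am0 0 = 0 ∧
  (∀ l < 15, byt R.ti l ≤ byt R.ti (l + 1)) ∧
  (∀ l < 16, ∀ b < 16, l ≤ b → byt R.am1 l ≤ byt R.amx b ∧
    (byt R.ti l = byt R.ti b → byt R.wt l ≤ byt R.wt b) ∧
    (byt R.ti 1 < byt R.ti l → byt R.am1 l ≤ byt R.amh b)) ∧
  R.c1 < 2 ^ 16 ∧ R.wc < 2 ^ 16 ∧ 0 < R.ww ∧
  (∀ j < 16, R.wc.testBit j = true →
    if j = 14 then byt R.wb j ≤ 6 * R.ww else byt R.wb j * fl j + 72 * R.ww ≤ 12 * fl j * R.ww) ∧
  byt R.am0 (mn 15 (evMax 0 R.s3 0 0)) ≤ 12 ∧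
  byt R.th 0 = 0 ∧ (∀ l < 5, byt R.th l ≤ byt R.th (l + 1)) ∧
  ∀ a < 16, ∀ l < 16, (byt R.ti l = byt R.ti a → byt R.wt l ≤ byt R.wx a) ∧
    (l ≤ 9 → byt R.ti l ≤ byt R.ti a → (tmk R a).testBit l = true)

/-- pattern: the face has class `j` -/
def pCls (j : ℕ) : ℕ := 7 + 8 * (4194303 - 2 ^ j)
/-- pattern: two vertices in `N` at distance two -/
def pNZN : ℕ := 6 + 8 * (1 + 64 * (1 + 8 * (6 + 8 * (62 + 64 * (2 + 8 * (1 + 8 * (6 + 8 * 1)))))))
/-- pattern: vertex of degree at most five with negative charge -/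
def pV : ℕ := 6 + 8 * (32 + 64 * (4 + 8 * (60 + 64 * 1)))
/-- pattern: face without window with negative charge -/
def pF (R : Rule) : ℕ := 7 + 8 * (R.wc + 2 ^ 22 * (4 + 8 * (61 + 64 * 1)))
/-- pattern: window above its bound -/
def pW (R : Rule) : ℕ := 7 + 8 * ((4194303 - R.wc) + 2 ^ 22 * (4 + 8 * (62 + 64 * 1)))
/-- classes 16 to 21 do not occur -/
def INI : ℕ := 63 * 2 ^ 86

end Pool.Agent.Lib.G6
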