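import Pool.Agent.Lib.MP_bfaad3_co.Perm

set_option autoImplicit false

/-! Plane maps with typed vertices, the induction class, minimal counterexamples, embedded
configurations. -/

namespace Pool.Agent.Lib.G6

open Equiv Pool.Agent.Lib.MP_bfaad3_co

/-- the Klein four-group -/
abbrev K4 : Type := ZMod 2 × ZMod 2

section

variable {D : Type}

/-- degree of the vertex of a dart -/
noncomputable def deg (σ : Perm D) (x : D) : ℕ := Function.minimalPeriod σ x

/-- length of the face of a dart; the face successor is `x ↦ σ (α x)` -/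
noncomputable def fln (σ α : Perm D) (x : D) : ℕ := Function.minimalPeriod (σ * α) x

/-- sum of the labels around the vertex of a dart -/
noncomputable def vsum (σ : Perm D) (c : D → K4) (x : D) : K4 :=
  ∑ i ∈ Finset.range (deg σ x), c ((σ ^ i) x)

/-- an edge labelling with sum zero at the vertices outside `N`, nonzero sum at the vertices in
`N`, nonzero on the darts outside `T` -/
structure Lab (σ α : Perm D) (N T : Set D) (c : D → K4) : Prop where
  sym : ∀ x, c (α x) = c x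
  nz : ∀ x, x ∉ T → c x ≠ 0
  vz : ∀ x, x ∉ N → vsum σ c x = 0
  vn : ∀ x, x ∈ N → vsum σ c x ≠ 0

/-- number of darts of `S` on edges with both (distinct) darts in `S` -/
noncomputable def inn (α : Perm D) (S : Set D) : ℕ := {x | x ∈ S ∧ α x ∈ S ∧ α x ≠ x}.ncard

/-- number of the other darts of `S` -/
noncomputable def bdy (α : Perm D) (S : Set D) : ℕ := {x | x ∈ S ∧ (α x ∉ S ∨ α x = x)}.ncard

/-- the induction class; fixed points of `α` are dangling half-edges -/
structure InK (σ α : Perm D) (N : Set D) : Prop where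
  inv : ∀ x, α (α x) = x
  gen : Gen0 σ α
  nσ : ∀ x, σ x ∈ N ↔ x ∈ N
  z3 : ∀ x, x ∉ N → deg σ x = 3
  j0 : ∀ S : Set D, (∀ x, σ x ∈ S ↔ x ∈ S) → S.Nonempty → (∀ x ∈ S, x ∉ N) →
    2 * S.ncard ≤ 3 * inn α S → 6 ≤ bdy α S
  j1 : ∀ (S : Set D) (u : D), (∀ x, σ x ∈ S ↔ x ∈ S) → u ∈ S → u ∈ N →
    (∀ x ∈ S, x ∈ N → σ.SameCycle u x) → 2 * (S \ N).ncard + 6 ≤ 3 * inn α S → 5 ≤ bdy α S

/-- what is used of a minimal counterexample -/
structure Ctx (σ α : Perm D) (N : Set D) : Prop where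
  cls : InK σ α N
  fpf : ∀ x, α x ≠ x
  n2 : ∀ x ∈ N, 2 ≤ deg σ x
  nn : ∀ x ∈ N, α x ∉ N
  ncol : ¬ ∃ c, Lab σ α N ∅ c
  con : ∀ e ∈ N, ∃ c, Lab σ α N {e, α e} c
  cut : ∀ e, ∃ c : D → K4, (∀ x, x ≠ e → x ≠ α e → c (α x) = c x) ∧ (∀ x, c x ≠ 0) ∧
    (∀ x, x ∉ N → vsum σ c x = 0) ∧ ∀ x, x ∈ N → vsum σ c x ≠ 0

end

/-! Embedded maps, packed in one number.  A dart is a positive multiple of 64 below `n`, its cell
starts at that bit: 15 bits next dart, 15 bits previous dart, 15 bits opposite dart (0 if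
dangling), bit 45 gap after the dart, bit 46 type. -/

def enx (e d : ℕ) : ℕ := Nat.land (Nat.shiftRight e d) 32767
def epv (e d : ℕ) : ℕ := Nat.land (Nat.shiftRight e (Nat.add d 15)) 32767
def eal (e d : ℕ) : ℕ := Nat.land (Nat.shiftRight e (Nat.add d 30)) 32767
def egap (e d : ℕ) : Bool := Nat.beq (Nat.land (Nat.shiftRight e (Nat.add d 45)) 1) 1
def eN (e d : ℕ) : Bool := Nat.beq (Nat.land (Nat.shiftRight e (Nat.add d 46)) 1) 1

/-- a dart of an embedded map -/
def EV (n d : ℕ) : Prop := 0 < d ∧ d < n ∧ 64 ∣ d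

/-- `h` embeds the packed map: `enx` is the first return of `σ` to the image, and the return is
immediate unless the gap bit is set -/
structure Emb {D : Type} (σ α : Perm D) (N : Set D) (e n : ℕ) (h : ℕ → D) : Prop where
  inj : ∀ d d', EV n d → EV n d' → h d = h d' → d = d'
  nx : ∀ d, EV n d → EV n (enx e d) ∧ epv e (enx e d) = d
  pv : ∀ d, EV n d → EV n (epv e d) ∧ enx e (epv e d) = d
  ret : ∀ d, EV n d → ∃ j, 0 < j ∧ (σ ^ j) (h d) = h (enx e d) ∧ (egap e d = false → j = 1) ∧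
    ∀ i d', 0 < i → i < j → EV n d' → (σ ^ i) (h d) ≠ h d'
  al : ∀ d, EV n d → eal e d = 0 ∨
    (EV n (eal e d) ∧ eal e (eal e d) = d ∧ h (eal e d) = α (h d))
  ty : ∀ d, EV n d → (eN e d = true ↔ h d ∈ N)

/-- the configuration `(e, n)` is not embedded in a minimal counterexample -/
def CfgOK (k : ℕ × ℕ) : Prop :=
  ∀ (D : Type) [Finite D] (σ α : Perm D) (N : Set D), Ctx σ α N →
    ∀ h : ℕ → D, Emb σ α N k.1 k.2 h → False

/-- the theorem on maps -/
def MainK : Prop :=
  ∀ (D : Type) [Finite D] (σ α : Perm D) (N : Set D), InK σ α N → ∃ c, Lab σ α N ∅ c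

/-- no minimal counterexample -/
def NoCtx : Prop := ∀ (D : Type) [Finite D] (σ α : Perm D) (N : Set D), ¬ Ctx σ α N

end Pool.Agent.Lib.G6
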