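import Pool.Agent.Lib.G6.Blue

set_option autoImplicit false

/-! Fields of packed embedded maps. -/

namespace Pool.Agent.Lib.G6

open Equiv
open Pool.Agent.Lib.MP_bfaad3_co (frc sel)

theorem eop_frc {α : Type} (e : ℕ) (k : ℕ → α) : frc e k = k e := by cases e <;> rfl

/-- the two numbers agree outside a window of bits -/
def eop_Out (e e' lo hi : ℕ) : Prop := ∀ i, i < lo ∨ hi ≤ i → e'.testBit i = e.testBit i

theorem eop_gm_tb (e p i : ℕ) : (gm e p).testBit i = (decide (i < 15) && e.testBit (p + i)) := by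
  change (e >>> p &&& (2 ^ 15 - 1)).testBit i = _
  rw [Nat.testBit_and, Nat.testBit_shiftRight, Nat.testBit_two_pow_sub_one, Bool.and_comm]

theorem eop_hi {v i : ℕ} (hv : v < 32768) (hi : 15 ≤ i) : v.testBit i = false :=
  Nat.testBit_lt_two_pow (lt_of_lt_of_le (show v < 2 ^ 15 from hv)
    (Nat.pow_le_pow_right (by norm_num) hi))

theorem eop_gm_eq {e p v : ℕ} (hv : v < 32768) (h : ∀ i, i < 15 → e.testBit (p + i) = v.testBit i) :
    gm e p = v := by
  refine Nat.eq_of_testBit_eq fun i => ?_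
  rw [eop_gm_tb]
  by_cases hi : i < 15
  · simp [hi, h i hi]
  · simp [hi, eop_hi hv (not_lt.1 hi)]

theorem eop_gm_zero {e p : ℕ} (h : gm e p = 0) (i : ℕ) (hi : i < 15) :
    e.testBit (p + i) = false := by
  have := eop_gm_tb e p i
  rw [h] at this
  simpa [hi] using this.symm

theorem eop_Out.gm {e e' lo hi p : ℕ} (h : eop_Out e e' lo hi) (hp : p + 15 ≤ lo ∨ hi ≤ p) :
    gm e' p = gm e p := by
  refine Nat.eq_of_testBit_eq fun i => ?_
  rw [eop_gm_tb, eop_gm_tb]
  by_cases hi : i < 15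
  · rw [h (p + i) (by omega)]
  · simp [hi]

theorem eop_enx (e d : ℕ) : enx e d = gm e d := rfl
theorem eop_epv (e d : ℕ) : epv e d = gm e (d + 15) := rfl
theorem eop_eal (e d : ℕ) : eal e d = gm e (d + 30) := rfl

theorem eop_tb (m i : ℕ) : Nat.beq (Nat.land (Nat.shiftRight m i) 1) 1 = m.testBit i := by
  change Nat.beq (m >>> i &&& 1) 1 = _
  rw [Nat.testBit, Nat.and_one_is_mod, Nat.one_and_eq_mod_two]
  rcases Nat.mod_two_eq_zero_or_one (m >>> i) with h | h <;> rw [h] <;> rfl

theorem eop_egap (e d : ℕ) : egap e d = e.testBit (d + 45) := eop_tb _ _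
theorem eop_eN (e d : ℕ) : eN e d = e.testBit (d + 46) := eop_tb _ _

theorem eop_Out.enx {e e' lo hi d : ℕ} (h : eop_Out e e' lo hi) (hp : d + 15 ≤ lo ∨ hi ≤ d) :
    enx e' d = enx e d := h.gm hp

theorem eop_Out.epv {e e' lo hi d : ℕ} (h : eop_Out e e' lo hi)
    (hp : d + 30 ≤ lo ∨ hi ≤ d + 15) : epv e' d = epv e d := by
  rw [eop_epv, eop_epv]
  exact h.gm (by omega)

theorem eop_Out.eal {e e' lo hi d : ℕ} (h : eop_Out e e' lo hi)
    (hp : d + 45 ≤ lo ∨ hi ≤ d + 30) : eal e' d = eal e d := by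
  rw [eop_eal, eop_eal]
  exact h.gm (by omega)

theorem eop_Out.egap {e e' lo hi d : ℕ} (h : eop_Out e e' lo hi)
    (hp : d + 45 < lo ∨ hi ≤ d + 45) : egap e' d = egap e d := by
  rw [eop_egap, eop_egap]
  exact h _ hp

theorem eop_Out.eN {e e' lo hi d : ℕ} (h : eop_Out e e' lo hi)
    (hp : d + 46 < lo ∨ hi ≤ d + 46) : eN e' d = eN e d := by
  rw [eop_eN, eop_eN]
  exact h _ hp

theorem eop_put_tb (e n c i : ℕ) :
    (put e n c).testBit i = (e.testBit i || (decide (n ≤ i) && c.testBit (i - n))) := by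
  change (e ||| c <<< n).testBit i = _
  rw [Nat.testBit_or, Nat.testBit_shiftLeft]

theorem eop_put_out (e n : ℕ) {c lo hi : ℕ}
    (hc : ∀ i, i < lo ∨ hi ≤ i → c.testBit i = false) : eop_Out e (put e n c) (n + lo) (n + hi) := by
  intro i hi
  rw [eop_put_tb]
  by_cases hn : n ≤ i
  · rw [hc (i - n) (by omega)]
    simp
  · simp [hn]

theorem eop_put_out15 (e n : ℕ) {v : ℕ} (hv : v < 32768) : eop_Out e (put e n v) n (n + 15) :=
  eop_put_out (lo := 0) e n fun i hi => eop_hi hv (by omega)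

theorem eop_put_gm {e p v : ℕ} (hv : v < 32768) (h : gm e p = 0) : gm (put e p v) p = v := by
  refine eop_gm_eq hv fun i hi => ?_
  rw [eop_put_tb, eop_gm_zero h i hi]
  simp

theorem eop_ecel_tb {a b c : ℕ} (f : ℕ) (ha : a < 32768) (hb : b < 32768) (hc : c < 32768) (i : ℕ) :
    (ecel a b c f).testBit i = if i < 15 then a.testBit i else if i < 30 then b.testBit (i - 15)
      else if i < 45 then c.testBit (i - 30) else f.testBit (i - 45) := by
  change ((a ||| b <<< 15) ||| (c <<< 30 ||| f <<< 45)).testBit i = _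
  simp only [Nat.testBit_or, Nat.testBit_shiftLeft]
  by_cases h1 : i < 15
  · simp [h1, show ¬ 15 ≤ i by omega, show ¬ 30 ≤ i by omega, show ¬ 45 ≤ i by omega]
  by_cases h2 : i < 30
  · simp [h1, h2, show 15 ≤ i by omega, show ¬ 30 ≤ i by omega, show ¬ 45 ≤ i by omega,
      eop_hi ha (not_lt.1 h1)]
  by_cases h3 : i < 45
  · simp [h1, h2, h3, show 30 ≤ i by omega, show ¬ 45 ≤ i by omega,
      eop_hi ha (not_lt.1 h1), eop_hi hb (show 15 ≤ i - 15 by omega)]
  · simp [h1, h2, h3, show 45 ≤ i by omega, eop_hi ha (not_lt.1 h1),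
      eop_hi hb (show 15 ≤ i - 15 by omega), eop_hi hc (show 15 ≤ i - 30 by omega)]

/-- a new cell on top -/
theorem eop_new {e n a b c f : ℕ} (ha : a < 32768) (hb : b < 32768) (hc : c < 32768) (hf : f < 4)
    (top : ∀ i, n ≤ i → e.testBit i = false) :
    eop_Out e (put e n (ecel a b c f)) n (n + 47) ∧ enx (put e n (ecel a b c f)) n = a ∧
    epv (put e n (ecel a b c f)) n = b ∧ eal (put e n (ecel a b c f)) n = c ∧
    egap (put e n (ecel a b c f)) n = f.testBit 0 ∧
    eN (put e n (ecel a b c f)) n = f.testBit 1 := by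
  have key : ∀ j, (put e n (ecel a b c f)).testBit (n + j) = (ecel a b c f).testBit j := by
    intro j
    rw [eop_put_tb, top _ (by omega)]
    simp
  refine ⟨eop_put_out (lo := 0) e n fun i hi => ?_, ?_, ?_, ?_, ?_, ?_⟩
  · rw [eop_ecel_tb f ha hb hc, if_neg (by omega), if_neg (by omega), if_neg (by omega)]
    exact Nat.testBit_lt_two_pow (lt_of_lt_of_le (show f < 2 ^ 2 from hf)
      (Nat.pow_le_pow_right (by norm_num) (by omega)))
  · refine eop_gm_eq ha fun i hi => ?_
    rw [key, eop_ecel_tb f ha hb hc, if_pos hi]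
  · refine eop_gm_eq (p := n + 15) hb fun i hi => ?_
    rw [add_assoc, key, eop_ecel_tb f ha hb hc, if_neg (by omega), if_pos (by omega)]
    congr 1
    omega
  · refine eop_gm_eq (p := n + 30) hc fun i hi => ?_
    rw [add_assoc, key, eop_ecel_tb f ha hb hc, if_neg (by omega), if_neg (by omega),
      if_pos (by omega)]
    congr 1
    omega
  · rw [eop_egap, key, eop_ecel_tb f ha hb hc]
    rfl
  · rw [eop_eN, key, eop_ecel_tb f ha hb hc]
    rfl

/-- filling the opposite field -/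
theorem eop_fill {e x y : ℕ} (hy : y < 32768) (h : eal e x = 0) :
    eop_Out e (put e x (ecel 0 0 y 0)) (x + 30) (x + 45) ∧ eal (put e x (ecel 0 0 y 0)) x = y := by
  refine ⟨eop_put_out e x fun i hi => ?_, eop_gm_eq (p := x + 30) hy fun i hi => ?_⟩
  · rw [eop_ecel_tb 0 (by norm_num) (by norm_num) hy]
    split_ifs <;> first | exact Nat.zero_testBit _ | omega
  · rw [eop_put_tb, eop_gm_zero (p := x + 30) h i hi, eop_ecel_tb 0 (by norm_num) (by norm_num) hy,
      if_neg (by omega), if_neg (by omega), if_pos (by omega),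
      show x + 30 + i - x - 30 = i by omega]
    simp [show x ≤ x + 30 + i by omega]

theorem eop_eset {e p v : ℕ} (hv : v < 32768) :
    eop_Out e (eset e p v) p (p + 15) ∧ gm (eset e p v) p = v := by
  have key : ∀ i, (eset e p v).testBit i =
      (e.testBit i ^^ (decide (p ≤ i) && ((gm e p).testBit (i - p) ^^ v.testBit (i - p)))) := by
    intro i
    change (e ^^^ ((gm e p ^^^ v) <<< p)).testBit i = _
    rw [Nat.testBit_xor, Nat.testBit_shiftLeft, Nat.testBit_xor]
  refine ⟨fun i hi => ?_, eop_gm_eq hv fun i hi => ?_⟩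
  · rw [key]
    by_cases hp : p ≤ i
    · rw [eop_gm_tb, eop_hi hv (show 15 ≤ i - p by omega)]
      simp [show ¬ i - p < 15 by omega]
    · simp [hp]
  · rw [key, eop_gm_tb, show p + i - p = i by omega]
    simp [hi]

theorem eop_etog (e x : ℕ) :
    eop_Out e (etog e x) (x + 45) (x + 46) ∧ egap (etog e x) x = !egap e x := by
  have key : ∀ i, (etog e x).testBit i = (e.testBit i ^^ decide (x + 45 = i)) := by
    intro i
    change (e ^^^ (1 <<< (x + 45))).testBit i = _
    rw [Nat.testBit_xor, Nat.one_shiftLeft, Nat.testBit_two_pow]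
  refine ⟨fun i hi => ?_, ?_⟩
  · rw [key]
    simp [show ¬ x + 45 = i by omega]
  · rw [eop_egap, eop_egap, key]
    simp

theorem eop_Out.top {e e' lo hi n n' : ℕ} (h : eop_Out e e' lo hi) (h1 : hi ≤ n') (h2 : n ≤ n')
    (top : ∀ i, n ≤ i → e.testBit i = false) : ∀ i, n' ≤ i → e'.testBit i = false := by
  intro i hi
  rw [h i (by omega)]
  exact top i (by omega)

/-- the fields after joining two dangling darts -/
theorem eop_elnk {e x y : ℕ} (hx : x < 32768) (hy : y < 32768) (dx : 64 ∣ x) (dy : 64 ∣ y)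
    (hne : x ≠ y) (ax : eal e x = 0) (ay : eal e y = 0) :
    eal (elnk e x y) x = y ∧ eal (elnk e x y) y = x ∧
    (∀ d, 64 ∣ d → d ≠ x → d ≠ y → eal (elnk e x y) d = eal e d) ∧
    (∀ d, 64 ∣ d → enx (elnk e x y) d = enx e d ∧ epv (elnk e x y) d = epv e d ∧
      egap (elnk e x y) d = egap e d ∧ eN (elnk e x y) d = eN e d) ∧
    ∀ n, 64 ∣ n → x < n → y < n → (∀ i, n ≤ i → e.testBit i = false) →
      ∀ i, n ≤ i → (elnk e x y).testBit i = false := by
  obtain ⟨o1, v1⟩ := eop_fill hy ax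
  have ay' : eal (put e x (ecel 0 0 y 0)) y = 0 := by rw [o1.eal (by omega), ay]
  obtain ⟨o2, v2⟩ := eop_fill hx ay'
  unfold elnk
  refine ⟨by rw [o2.eal (by omega), v1], v2, fun d dd h1 h2 => ?_, fun d dd => ⟨?_, ?_, ?_, ?_⟩,
    fun n dn h1 h2 top => o2.top (by omega) le_rfl (o1.top (by omega) le_rfl top)⟩
  · rw [o2.eal (by omega), o1.eal (by omega)]
  · rw [o2.enx (by omega), o1.enx (by omega)]
  · rw [o2.epv (by omega), o1.epv (by omega)]
  · rw [o2.egap (by omega), o1.egap (by omega)]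
  · rw [o2.eN (by omega), o1.eN (by omega)]

/-- the fields after inserting a dart -/
theorem eop_eins {e n u f : ℕ} (hn : n ≤ 32000) (dn : 64 ∣ n) (hu : EV n u) (hy : EV n (enx e u))
    (hf : f < 4) (top : ∀ i, n ≤ i → e.testBit i = false) :
    enx (eins e n u f) u = n ∧ enx (eins e n u f) n = enx e u ∧
    epv (eins e n u f) (enx e u) = n ∧ epv (eins e n u f) n = u ∧ eal (eins e n u f) n = 0 ∧
    egap (eins e n u f) n = f.testBit 0 ∧ eN (eins e n u f) n = f.testBit 1 ∧
    (∀ d, EV n d → (d ≠ u → enx (eins e n u f) d = enx e d) ∧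
      (d ≠ enx e u → epv (eins e n u f) d = epv e d) ∧ eal (eins e n u f) d = eal e d ∧
      egap (eins e n u f) d = egap e d ∧ eN (eins e n u f) d = eN e d) ∧
    ∀ i, n + 64 ≤ i → (eins e n u f).testBit i = false := by
  have e0 : eins e n u f = put (eset (eset e u n) (enx e u + 15) n) n (ecel (enx e u) u 0 f) := by
    unfold eins
    rw [eop_frc, eop_frc, eop_frc]
  rw [e0]
  generalize enx e u = y at *
  obtain ⟨u1, u2, u3⟩ := hu
  obtain ⟨y1, y2, y3⟩ := hy
  obtain ⟨o1, v1⟩ := eop_eset (e := e) (p := u) (v := n) (by omega)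
  obtain ⟨o2, v2⟩ := eop_eset (e := eset e u n) (p := y + 15) (v := n) (by omega)
  have top2 : ∀ i, n ≤ i → (eset (eset e u n) (y + 15) n).testBit i = false :=
    o2.top (by omega) le_rfl (o1.top (by omega) le_rfl top)
  obtain ⟨o3, w1, w2, w3, w4, w5⟩ := eop_new (a := y) (b := u) (c := 0) (f := f) (by omega)
    (by omega) (by omega) hf top2
  refine ⟨?_, w1, ?_, w2, w3, w4, w5, fun d hd => ?_, o3.top (by omega) (by omega) top2⟩
  · rw [o3.enx (by omega), o2.enx (by omega)]
    exact v1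
  · rw [o3.epv (by omega)]
    exact v2
  · obtain ⟨d1, d2, d3⟩ := hd
    refine ⟨fun h => ?_, fun h => ?_, ?_, ?_, ?_⟩
    · rw [o3.enx (by omega), o2.enx (by omega), o1.enx (by omega)]
    · rw [o3.epv (by omega), o2.epv (by omega), o1.epv (by omega)]
    · rw [o3.eal (by omega), o2.eal (by omega), o1.eal (by omega)]
    · rw [o3.egap (by omega), o2.egap (by omega), o1.egap (by omega)]
    · rw [o3.eN (by omega), o2.eN (by omega), o1.eN (by omega)]

/-- the fields after adding a vertex of degree three -/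
theorem eop_enewZ {e n : ℕ} (hn : n ≤ 32000) (top : ∀ i, n ≤ i → e.testBit i = false) :
    eop_Out e (enewZ e n) n (n + 175) ∧
    enx (enewZ e n) n = n + 64 ∧ enx (enewZ e n) (n + 64) = n + 128 ∧
    enx (enewZ e n) (n + 128) = n ∧ epv (enewZ e n) n = n + 128 ∧
    epv (enewZ e n) (n + 64) = n ∧ epv (enewZ e n) (n + 128) = n + 64 ∧
    ∀ d, d = n ∨ d = n + 64 ∨ d = n + 128 →
      eal (enewZ e n) d = 0 ∧ egap (enewZ e n) d = false ∧ eN (enewZ e n) d = false := by
  obtain ⟨o1, a1, a2, a3, a4, a5⟩ := eop_new (a := n + 64) (b := n + 128) (c := 0) (f := 0)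
    (by omega) (by omega) (by omega) (by omega) top
  have top1 := o1.top (n' := n + 64) (by omega) (by omega) top
  obtain ⟨o2, b1, b2, b3, b4, b5⟩ := eop_new (a := n + 128) (b := n) (c := 0) (f := 0)
    (by omega) (by omega) (by omega) (by omega) top1
  have top2 := o2.top (n' := n + 128) (by omega) (by omega) top1
  obtain ⟨o3, c1, c2, c3, c4, c5⟩ := eop_new (a := n) (b := n + 64) (c := 0) (f := 0)
    (by omega) (by omega) (by omega) (by omega) top2
  have e0 : enewZ e n = put (put (put e n (ecel (n + 64) (n + 128) 0 0)) (n + 64)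
    (ecel (n + 128) n 0 0)) (n + 128) (ecel n (n + 64) 0 0) := rfl
  rw [e0]
  refine ⟨fun i hi => ?_, ?_, ?_, c1, ?_, ?_, c2, ?_⟩
  · rw [o3 i (by omega), o2 i (by omega), o1 i (by omega)]
  · rw [o3.enx (by omega), o2.enx (by omega), a1]
  · rw [o3.enx (by omega), b1]
  · rw [o3.epv (by omega), o2.epv (by omega), a2]
  · rw [o3.epv (by omega), b2]
  · rintro d (rfl | rfl | rfl)
    · rw [o3.eal (by omega), o2.eal (by omega), a3, o3.egap (by omega), o2.egap (by omega), a4,
        o3.eN (by omega), o2.eN (by omega), a5]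
      simp
    · rw [o3.eal (by omega), b3, o3.egap (by omega), b4, o3.eN (by omega), b5]
      simp
    · rw [c3, c4, c5]
      simp

end Pool.Agent.Lib.G6
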