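import Pool.Agent.Lib.G6.FMain
import Pool.Agent.Lib.G6.ACon

set_option autoImplicit false

/-! The final statement from the absence of minimal counterexamples. -/

namespace Pool.Agent.Lib.G6.F

open Equiv Pool.Agent.Lib.MP_bfaad3_co

theorem mainF_of_noCtx (H : NoCtx) : MainF := by
  classical
  intro D _ σ α N h hf
  have : Fintype D := Fintype.ofFinite D
  have e1 : ∀ S : Finset D, inn α (S : Set D) = A.inn α S := by
    intro S
    unfold inn A.inn
    rw [← Set.ncard_coe_finset]
    congr 1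
    ext x
    simp [hf x]
  have e2 : ∀ S : Finset D, bdy α (S : Set D) = A.bdy α S := by
    intro S
    unfold bdy A.bdy
    rw [← Set.ncard_coe_finset]
    congr 1
    ext x
    simp [hf x]
  have cl : ∀ S : Finset D, (∀ x ∈ S, σ x ∈ S) → ∀ x, σ x ∈ (S : Set D) ↔ x ∈ (S : Set D) :=
    fun S hS x => ⟨A.sc_ind (P := (· ∈ S)) hS (perm_sc_step σ x).symm, hS x⟩
  have p3 : ∀ x, x ∉ N → σ x ≠ x ∧ σ (σ (σ x)) = x := by
    intro x hx
    have k := h.z3 x hx
    unfold deg at k
    refine ⟨fun e => ?_, ?_⟩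
    · rw [Function.minimalPeriod_eq_one_iff_isFixedPt.2 e] at k
      omega
    · have := Function.isPeriodicPt_minimalPeriod σ x
      rwa [k] at this
  obtain ⟨c, hc, hz⟩ := A.all_col (Z := (· ∉ N)) H ⟨h.inv, hf, h.gen, fun d => not_congr (h.nσ d),
    fun d hd => (p3 d hd).1, fun d hd => (p3 d hd).2, fun S hS hne k => by
      rw [← e2]
      exact h.j0 S (cl S fun x hx => (hS x hx).2) hne (fun x hx => (hS x hx).1)
        (by rw [e1, Set.ncard_coe_finset]; exact k), fun S n hS hn k => by
      have hn' : n ∈ N := not_not.1 hn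
      have on : ∀ x, σ.SameCycle n x → x ∈ N := fun x hx =>
        A.sc_ind (P := (· ∈ N)) (fun d => (h.nσ d).2) hx hn'
      rw [← e2]
      refine h.j1 _ n (cl _ fun x hx => ?_) (by simp [Perm.SameCycle.refl]) hn' (fun x hx k => ?_) ?_
      · rcases Finset.mem_union.1 hx with a | a
        · exact Finset.mem_union_left _ (hS x a).2
        · exact Finset.mem_union_right _ (mem_orb.2 ((mem_orb.1 a).trans (perm_sc_step σ x)))
      · rcases Finset.mem_union.1 hx with a | a
        · exact absurd k (hS x a).1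
        · exact mem_orb.1 a
      · have : ((S ∪ orb σ n : Finset D) : Set D) \ N = S := by
          ext x
          simp only [Finset.coe_union, Set.mem_sdiff, Set.mem_union, Finset.mem_coe, mem_orb]
          exact ⟨fun a => a.1.resolve_right fun b => a.2 (on x b),
            fun a => ⟨Or.inl a, (hS x a).1⟩⟩
        rw [this, e1, Set.ncard_coe_finset]
        exact k⟩
  exact ⟨c, hc.sym, fun x _ => hz x, fun x hx => (vsum_eq_orb σ c x).trans (hc.zs x hx),
    fun x hx => by rw [vsum_eq_orb]; exact hc.ns x (not_not.2 hx)⟩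

/-- the final statement -/
theorem final_of (H : NoCtx) {V : Type} [Fintype V] (G : SimpleGraph V) (a : V)
    (hp : IsPlanar (G.induce {v | v ≠ a})) (hg : 6 ≤ (G.induce {v | v ≠ a}).egirth)
    (hd : ∀ v, v ≠ a → 3 ≤ (G.neighborSet v).ncard ∨
      (2 ≤ (G.neighborSet v).ncard ∧ G.Adj a v)) :
    ∃ f : V → V → ℤ, (∀ u v, f v u = - f u v) ∧ (∀ u v, ¬ G.Adj u v → f u v = 0) ∧
      (∀ u v, G.Adj u v → 0 < |f u v| ∧ |f u v| < 4) ∧ ∀ u, ∑ v, f u v = 0 :=
  apex_flow (mainF_of_noCtx H) G a hp hg hd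

end Pool.Agent.Lib.G6.F
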