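import Pool.Agent.Lib.G6.FEnd

set_option autoImplicit false
set_option linter.unusedSimpArgs false

/-! The final statement when short cycles through two neighbours of the apex are allowed. -/

namespace Pool.Agent.Lib.G6.F

open Equiv Pool.Agent.Lib.MP_bfaad3_co Sum

section maps

variable {D : Type}

/-- the darts of `I` meet at most one vertex of `N` -/
def One (σ : Perm D) (N I : Set D) : Prop :=
  ∀ x ∈ I, ∀ y ∈ I, x ∈ N → y ∈ N → σ.SameCycle x y

/-- hereditary sparsity of the sets of edges meeting at most one vertex of `N` -/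
def Sp1 (σ α : Perm D) (N : Set D) : Prop :=
  ∀ I R : Set D, One σ N I → (∀ x ∈ I, α x ∈ I) → I.Nonempty →
    (∀ x ∈ I, ∃ r ∈ R, σ.SameCycle r x) → 2 * R.ncard ≤ I.ncard → I.ncard + 6 ≤ 3 * R.ncard

/-- every closed walk of length at most five meeting at most one vertex of `N` backtracks -/
def NB1 (σ α : Perm D) (N : Set D) : Prop :=
  ∀ (n : ℕ) (c : ℕ → D), 0 < n → n ≤ 5 → (∀ i, c (i + n) = c i) →
    (∀ i, σ.SameCycle (α (c i)) (c (i + 1))) →
    (∀ i j, c i ∈ N → c j ∈ N → σ.SameCycle (c i) (c j)) → ∃ i, c (i + 1) = α (c i)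

theorem sp1_of [Finite D] (σ α : Perm D) (N : Set D) (hi : ∀ x, α (α x) = x) (hf : ∀ x, α x ≠ x)
    (h0 : Gen0 σ α) (hg : NB1 σ α N) : Sp1 σ α N := by
  classical
  intro I
  induction hn : I.ncard using Nat.strong_induction_on generalizing I with
  | _ n ih =>
  intro R h1N hI hne hR h2
  subst hn
  by_cases hA : ∃ d ∈ I, ∀ e ∈ I, σ.SameCycle d e → e = d
  · obtain ⟨d, hd, hd1⟩ := hA
    obtain ⟨r0, hr0, hr0d⟩ := hR d hd
    obtain ⟨r1, hr1, hr1d⟩ := hR (α d) (hI d hd)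
    have h01 : r1 ≠ r0 := by
      rintro rfl
      exact hf d (hd1 _ (hI d hd) (hr0d.symm.trans hr1d))
    have hc1 : (I \ {d, α d}).ncard + 2 = I.ncard := by
      have hs : ({d, α d} : Set D) ⊆ I := by
        rintro x (rfl | rfl)
        · exact hd
        · exact hI _ hd
      have := Set.ncard_sdiff_add_ncard_of_subset hs
      rwa [Set.ncard_pair (hf d).symm] at this
    have hc2 : (R \ {r0}).ncard + 1 = R.ncard := Set.ncard_sdiff_singleton_add_one hr0
    have hc3 : 0 < (R \ {r0}).ncard :=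
      (Set.ncard_pos (Set.toFinite _)).2 ⟨r1, hr1, h01⟩
    have := ih _ (by omega) (I \ {d, α d}) rfl (R \ {r0})
      (fun x hx y hy => h1N x hx.1 y hy.1) ?_ ?_ ?_ (by omega)
    · omega
    · rintro x ⟨hx, hx2⟩
      refine ⟨hI x hx, ?_⟩
      rintro (h | h)
      · exact hx2 (Or.inr (by rw [← h, hi]; rfl))
      · exact hx2 (Or.inl (α.injective h))
    · rw [← Set.ncard_pos (Set.toFinite _)]
      omega
    · rintro x ⟨hx, hx2⟩
      obtain ⟨r, hr, hrx⟩ := hR x hx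
      refine ⟨r, ⟨hr, ?_⟩, hrx⟩
      rintro rfl
      exact hx2 (Or.inl (hd1 x hx (hr0d.symm.trans hrx)))
  · push Not at hA
    obtain ⟨t, t0, tβ, tP, tc⟩ := min_step3 α (Quotient.mk (Perm.SameCycle.setoid σ)) I _ σ rfl h0
      (fun d => Quotient.sound (perm_sc_step σ d).symm)
    have ht : ∀ d, t d ∈ I ↔ d ∈ I := by
      intro d
      constructor
      · intro h
        by_contra hc
        rw [tP d hc] at h
        exact hc h
      · intro h
        by_contra hc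
        have := t.injective (tP _ hc)
        rw [this] at hc
        exact hc h
    have ha : ∀ d, α d ∈ I ↔ d ∈ I := fun d => ⟨fun h => by simpa [hi] using hI _ h, hI d⟩
    have g := gen0_sub t α t0 (· ∈ I) ht ha
    set t' := t.subtypePerm (p := (· ∈ I)) ht with ht'
    set a' := α.subtypePerm (p := (· ∈ I)) ha with ha'
    have c0 : Nat.card {d // d ∈ I} = I.ncard := Nat.card_coe_set_eq I
    have c1 : 0 < comp t' a' := by
      obtain ⟨x, hx⟩ := hne
      have : Nonempty (Quotient (conn t' a')) := ⟨Quotient.mk _ ⟨x, hx⟩⟩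
      exact Nat.card_pos
    have c2 : cyc t' ≤ R.ncard := by
      choose ρ hρ1 hρ2 using hR
      rw [← Nat.card_coe_set_eq]
      refine Nat.card_le_card_of_injective
        (fun q : Quotient (Perm.SameCycle.setoid t') =>
          (⟨ρ q.out.1 q.out.2, hρ1 _ _⟩ : R)) fun q1 q2 h => ?_
      have h1 : ρ q1.out.1 q1.out.2 = ρ q2.out.1 q2.out.2 := congrArg Subtype.val h
      have h2 : σ.SameCycle q1.out.1 q2.out.1 :=
        (hρ2 _ q1.out.2).symm.trans (h1 ▸ hρ2 _ q2.out.2)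
      have h3 : t'.SameCycle q1.out q2.out :=
        Perm.sameCycle_subtypePerm.2 (tc _ _ q1.out.2 q2.out.2 h2)
      rw [← q1.out_eq, ← q2.out_eq]
      exact Quotient.sound h3
    have c3 : 2 * cyc a' ≤ Nat.card {d // d ∈ I} := by
      refine cyc_le a' 2 fun x => le_period _ _ _ fun n h1 h2 h => ?_
      obtain rfl : n = 1 := by omega
      exact hf x.1 (congrArg Subtype.val h)
    have c4 : 6 * cyc (t' * a') ≤ Nat.card {d // d ∈ I} := by
      refine cyc_le _ 6 fun x => le_period _ _ _ fun n h1 h2 h => ?_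
      have hs : ∀ i, (((t' * a') ^ (i + 1)) x).1 = t (α (((t' * a') ^ i) x).1) := by
        intro i
        rw [bas_succ]
        rfl
      obtain ⟨i, hi'⟩ := hg n (fun i => (((t' * a') ^ i) x).1) h1 (by omega)
        (fun i => by rw [pow_add, Perm.mul_apply, h])
        (fun i => by
          rw [hs]
          exact (Quotient.exact (tβ _)).symm)
        (fun i j => h1N _ (((t' * a') ^ i) x).2 _ (((t' * a') ^ j) x).2)
      rw [hs] at hi'
      have hy : α (((t' * a') ^ i) x).1 ∈ I := hI _ (((t' * a') ^ i) x).2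
      obtain ⟨e, he, he1, he2⟩ := hA _ hy
      exact he2 ((tc _ _ hy he he1).eq_of_left hi').symm
    unfold Gen0 at g
    omega

theorem inK1_of [Finite D] (σ α : Perm D) (N : Set D) (hi : ∀ x, α (α x) = x) (h0 : Gen0 σ α)
    (hN : ∀ x, σ x ∈ N ↔ x ∈ N) (h3 : ∀ x, x ∉ N → σ (σ x) ≠ x ∧ σ (σ (σ x)) = x)
    (hs : Sp1 σ α N) : InK σ α N := by
  have hcl : ∀ S : Set D, ∀ x ∈ {x | x ∈ S ∧ α x ∈ S ∧ α x ≠ x},
      α x ∈ {x | x ∈ S ∧ α x ∈ S ∧ α x ≠ x} := by
    rintro S x ⟨h1, h2, h3⟩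
    exact ⟨h2, by rw [hi]; exact h1, by rw [hi]; exact h3.symm⟩
  refine ⟨hi, h0, hN, fun x hx => ?_, fun S hS hne hZ hc => ?_, fun S u hS huS huN hu hc => ?_⟩
  · have : Fact (Nat.Prime 3) := ⟨by norm_num⟩
    exact Function.minimalPeriod_eq_prime (h3 x hx).2 fun h => (h3 x hx).1 (by rw [h.eq, h.eq])
  · obtain ⟨R, hR1, hR2⟩ := cover3 σ S hS fun x hx => h3 x (hZ x hx)
    have h1 := inn_add_bdy α S
    have h2 := (Set.ncard_pos (Set.toFinite S)).2 hne
    have := hs _ R (fun x hx _ _ k _ => absurd k (hZ x hx.1)) (hcl S) (by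
      rw [← Set.ncard_pos (Set.toFinite _)]
      unfold inn at hc
      omega) (fun x hx => hR2 x hx.1) (by unfold inn at hc; omega)
    unfold inn at h1
    omega
  · obtain ⟨R, hR1, hR2⟩ := cover3 σ (S \ N) (fun x => and_congr (hS x) (not_congr (hN x)))
      fun x hx => h3 x hx.2
    have h1 := inn_add_bdy α S
    have h2 := Set.ncard_inter_add_ncard_sdiff_eq_ncard S N
    by_cases hu1 : σ u = u
    · have h4 : S ∩ N = {u} := by
        ext x
        constructor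
        · rintro ⟨h5, h6⟩
          exact ((hu x h5 h6).eq_of_left hu1).symm
        · rintro rfl
          exact ⟨huS, huN⟩
      rw [h4, Set.ncard_singleton] at h2
      have h5 := Set.le_ncard_sdiff ({u, α u} : Set D) {x | x ∈ S ∧ α x ∈ S ∧ α x ≠ x}
      have h6 : ({u, α u} : Set D).ncard ≤ 2 := by
        have := Set.ncard_insert_le u {α u}
        rwa [Set.ncard_singleton] at this
      unfold inn at h1 hc
      by_cases h7 : ({x | x ∈ S ∧ α x ∈ S ∧ α x ≠ x} \ {u, α u}).Nonempty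
      · have := hs _ R (fun x hx y hy k1 k2 => (hu x hx.1.1 k1).symm.trans (hu y hy.1.1 k2)) (by
          rintro x ⟨hx, hx2⟩
          refine ⟨hcl S x hx, ?_⟩
          rintro (h | h)
          · exact hx2 (Or.inr (by rw [← h, hi]; rfl))
          · exact hx2 (Or.inl (α.injective h))) h7 (by
          rintro x ⟨hx, hx2⟩
          refine hR2 x ⟨hx.1, fun h => hx2 (Or.inl ?_)⟩
          have : x ∈ S ∩ N := ⟨hx.1, h⟩
          rwa [h4] at this) (by omega)
        omega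
      · rw [Set.not_nonempty_iff_eq_empty] at h7
        rw [h7, Set.ncard_empty] at h5
        omega
    · have h4 : 2 ≤ (S ∩ N).ncard := by
        rw [← Set.ncard_pair (Ne.symm hu1)]
        refine Set.ncard_le_ncard ?_
        rintro x (rfl | rfl)
        · exact ⟨huS, huN⟩
        · exact ⟨(hS _).2 huS, (hN _).2 huN⟩
      have h5 := Set.ncard_insert_le u R
      unfold inn at h1 hc
      have := hs _ (insert u R)
        (fun x hx y hy k1 k2 => (hu x hx.1 k1).symm.trans (hu y hy.1 k2)) (hcl S) (by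
        rw [← Set.ncard_pos (Set.toFinite _)]
        omega) (by
        intro x hx
        by_cases h : x ∈ N
        · exact ⟨u, Or.inl rfl, hu x hx.1 h⟩
        · obtain ⟨r, hr, hr'⟩ := hR2 x ⟨hx.1, h⟩
          exact ⟨r, Or.inr hr, hr'⟩) (by omega)
      omega

theorem Spl.sp1 [Finite D] {σ α : Perm D} {x y : D} {s a : Perm (D ⊕ Bool)} {N : Set D}
    (h : Spl σ α x y s a) (hs : Sp1 σ α N) : Sp1 s a (inl '' N) := by
  intro I R h1N hI hne hR h2
  have h1 : One σ N (inl ⁻¹' I) := fun u hu v hv k1 k2 =>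
    h.proj (h1N _ hu _ hv ⟨u, k1, rfl⟩ ⟨v, k2, rfl⟩)
  have hcl : ∀ u ∈ (inl ⁻¹' I : Set D), α u ∈ (inl ⁻¹' I : Set D) := fun u hu => by
    have := hI _ hu
    rwa [h.a1] at this
  have hc0 : (inl '' (inl ⁻¹' I : Set D) : Set (D ⊕ Bool)).ncard = (inl ⁻¹' I : Set D).ncard :=
    Set.ncard_image_of_injective _ inl_injective
  by_cases hp : inr false ∈ I
  · have hq : inr true ∈ I := h.a2 ▸ hI _ hp
    obtain ⟨r1, hr1, k1⟩ := hR _ hp
    obtain ⟨r2, hr2, k2⟩ := hR _ hq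
    have h12 : r1 ≠ r2 := by
      rintro rfl
      exact h.npq (k1.symm.trans k2)
    have hc1 : I.ncard ≤ (inl ⁻¹' I : Set D).ncard + 2 := by
      have hsub : I ⊆ inl '' (inl ⁻¹' I : Set D) ∪ {inr false, inr true} := by
        rintro (u | _ | _) hu
        · exact Or.inl ⟨u, hu, rfl⟩
        · simp
        · simp
      have k3 := Set.ncard_le_ncard hsub
      have k4 := Set.ncard_union_le (inl '' (inl ⁻¹' I : Set D) : Set (D ⊕ Bool))
        {inr false, inr true}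
      rw [Set.ncard_pair (by simp)] at k4
      omega
    have hc2 : (R \ {r2}).ncard + 1 = R.ncard := Set.ncard_sdiff_singleton_add_one hr2
    have hc3 : 0 < (R \ {r2}).ncard := (Set.ncard_pos (Set.toFinite _)).2 ⟨r1, hr1, h12⟩
    have hc4 : (Sum.elim id (fun _ => x) '' (R \ {r2})).ncard ≤ (R \ {r2}).ncard :=
      Set.ncard_image_le
    have := hs _ (Sum.elim id (fun _ => x) '' (R \ {r2})) h1 hcl (by
      rw [← Set.ncard_pos (Set.toFinite _)]
      omega) (by
      intro u hu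
      obtain ⟨r, hr, k⟩ := hR _ hu
      by_cases e : r = r2
      · subst e
        exact ⟨_, ⟨r1, ⟨hr1, h12⟩, rfl⟩, (h.proj k1).trans ((h.proj k2).symm.trans (h.proj k))⟩
      · exact ⟨_, ⟨r, ⟨hr, e⟩, rfl⟩, h.proj k⟩) (by omega)
    omega
  · have hq : inr true ∉ I := fun k => hp (h.a3 ▸ hI _ k)
    have hc1 : inl '' (inl ⁻¹' I : Set D) = I := by
      ext z
      constructor
      · rintro ⟨u, hu, rfl⟩
        exact hu
      · rcases z with u | _ | _
        · exact fun hu => ⟨u, hu, rfl⟩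
        · exact fun k => absurd k hp
        · exact fun k => absurd k hq
    rw [hc1] at hc0
    have hc3 := (Set.ncard_pos (Set.toFinite I)).2 hne
    have hc4 : (Sum.elim id (fun _ => x) '' R).ncard ≤ R.ncard := Set.ncard_image_le
    have := hs _ (Sum.elim id (fun _ => x) '' R) h1 hcl (by
      rw [← Set.ncard_pos (Set.toFinite _)]
      omega) (by
      intro u hu
      obtain ⟨r, hr, k⟩ := hR _ hu
      exact ⟨_, ⟨r, hr, rfl⟩, h.proj k⟩) (by omega)
    omega

end maps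

theorem lab1_aux (hM : MainF) (n : ℕ) : ∀ (D : Type) [Finite D] (σ α : Perm D) (N : Set D),
    (∀ x, α (α x) = x) → (∀ x, α x ≠ x) → Gen0 σ α → (∀ x, σ x ∈ N ↔ x ∈ N) → (∀ x, x ∉ N → σ (σ x) ≠ x) →
    Sp1 σ α N → Nat.card D + 3 * N.ncard ≤ 3 * cyc σ + n → ∃ c, Lab σ α N ∅ c := by
  induction n using Nat.strong_induction_on with
  | _ n ih =>
  intro D _ σ α N hi hf h0 hN h2 hs hn
  by_cases h3 : ∃ x, x ∉ N ∧ σ (σ (σ x)) ≠ x
  · obtain ⟨x, hx, h3⟩ := h3
    obtain ⟨y, s, a, h⟩ := spl_ex σ α x (h2 x hx) h3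
    have c0 : Nat.card (D ⊕ Bool) = Nat.card D + 2 := by simp
    have c1 := h.cyc_s
    have c2 : (inl '' N : Set (D ⊕ Bool)).ncard = N.ncard :=
      Set.ncard_image_of_injective _ inl_injective
    have c3 := three_cyc s (inl '' N) (h.two h2)
    obtain ⟨c, hc⟩ := ih (n - 1) (by omega) _ s a (inl '' N) (h.inv hi) (h.fpf hf) (h.gen h0)
      (h.nσ hN hx) (h.two h2) (h.sp1 hs) (by omega)
    exact ⟨_, h.lab hN hx hc⟩
  · push Not at h3
    exact hM D σ α N (inK1_of σ α N hi h0 hN (fun x hx => ⟨h2 x hx, h3 x hx⟩) hs) hf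

/-- plane maps with degrees at least three outside `N` whose short cycles meet `N` twice -/
theorem lab1_of (hM : MainF) {D : Type} [Finite D] (σ α : Perm D) (N : Set D)
    (hi : ∀ x, α (α x) = x) (hf : ∀ x, α x ≠ x) (h0 : Gen0 σ α) (hg : NB1 σ α N)
    (hN : ∀ x, σ x ∈ N ↔ x ∈ N) (h2 : ∀ x, x ∉ N → σ (σ x) ≠ x) : ∃ c, Lab σ α N ∅ c :=
  lab1_aux hM _ D σ α N hi hf h0 hN h2 (sp1_of σ α N hi hf h0 hg) (Nat.le_add_left _ _)

open SimpleGraph

section girth

variable {W : Type} {H : SimpleGraph W} {P : W → Prop}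

/-- every cycle of length at most five has two vertices in `P` -/
def Two (H : SimpleGraph W) (P : W → Prop) : Prop :=
  ∀ (v : W) (c : H.Walk v v), c.IsCycle → c.length ≤ 5 →
    ∃ x ∈ c.support, ∃ y ∈ c.support, x ≠ y ∧ P x ∧ P y

theorem two3 (h : Two H P) {x y z : W} (h1 : H.Adj x y) (h2 : H.Adj y z) (h3 : H.Adj z x) :
    ∃ u ∈ [x, y, z, x], ∃ v ∈ [x, y, z, x], u ≠ v ∧ P u ∧ P v :=
  h x (.cons h1 (.cons h2 (.cons h3 .nil))) (by
    simp [Walk.cons_isCycle_iff, Walk.isPath_def, h1.ne, h2.ne, h3.ne, h1.ne', h2.ne', h3.ne'])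
    (by simp)

theorem two4 (h : Two H P) {x y z w : W} (h1 : H.Adj x y) (h2 : H.Adj y z) (h3 : H.Adj z w)
    (h4 : H.Adj w x) (k1 : z ≠ x) (k2 : w ≠ y) :
    ∃ u ∈ [x, y, z, w, x], ∃ v ∈ [x, y, z, w, x], u ≠ v ∧ P u ∧ P v :=
  h x (.cons h1 (.cons h2 (.cons h3 (.cons h4 .nil)))) (by
    simp [Walk.cons_isCycle_iff, Walk.isPath_def, h1.ne, h2.ne, h3.ne, h1.ne', h2.ne', h3.ne',
      h4.ne, h4.ne', k1, k2, k1.symm, k2.symm]) (by simp)

theorem two5 (h : Two H P) {x y z w t : W} (h1 : H.Adj x y) (h2 : H.Adj y z) (h3 : H.Adj z w)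
    (h4 : H.Adj w t) (h5 : H.Adj t x) (k1 : z ≠ x) (k2 : w ≠ y) (k3 : t ≠ z) (k4 : x ≠ w)
    (k5 : y ≠ t) : ∃ u ∈ [x, y, z, w, t, x], ∃ v ∈ [x, y, z, w, t, x], u ≠ v ∧ P u ∧ P v :=
  h x (.cons h1 (.cons h2 (.cons h3 (.cons h4 (.cons h5 .nil))))) (by
    simp [Walk.cons_isCycle_iff, Walk.isPath_def, h1.ne, h2.ne, h3.ne, h1.ne', h2.ne', h3.ne',
      h4.ne, h4.ne', h5.ne, h5.ne', k1, k2, k3, k4, k5, k1.symm, k2.symm, k3.symm, k4.symm,
      k5.symm]) (by simp)

theorem nb1_of [Fintype W] {σ : Perm H.Dart} (hr : IsRot H σ) (h : Two H P) :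
    NB1 σ (alpha H) {d | P d.fst} := by
  intro n c h0 h5 hp hc h1
  by_contra hn
  push Not at hn
  have e : ∀ i, (c (i + 1)).fst = (c i).snd := fun i =>
    min_lab' σ (fun d : H.Dart => d.fst) hr.1 (hc i)
  have adj : ∀ i, H.Adj (c i).fst (c (i + 1)).fst := fun i => by
    rw [e]
    exact (c i).adj
  have nb : ∀ i, (c (i + 2)).fst ≠ (c i).fst := fun i k => hn i (by
    refine Dart.ext _ _ (Prod.ext (e i) ?_)
    exact (e (i + 1)).symm.trans k)
  have p0 : c n = c 0 := by simpa using hp 0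
  have p1 : c (n + 1) = c 1 := by rw [add_comm, hp]
  have fin : ∀ L : List W, (∀ u ∈ L, ∃ i, (c i).fst = u) →
      (∃ u ∈ L, ∃ v ∈ L, u ≠ v ∧ P u ∧ P v) → False := by
    rintro L hL ⟨u, hu, v, hv, k, k1, k2⟩
    obtain ⟨i, rfl⟩ := hL u hu
    obtain ⟨j, rfl⟩ := hL v hv
    exact k (min_lab' σ (fun d : H.Dart => d.fst) hr.1 (h1 i j k1 k2)).symm
  obtain rfl | rfl | rfl | rfl | rfl : n = 1 ∨ n = 2 ∨ n = 3 ∨ n = 4 ∨ n = 5 := by omega
  · exact (adj 0).ne (by rw [p0])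
  · exact nb 0 (by rw [p0])
  · refine fin _ (fun u hu => ?_) (two3 h (adj 0) (adj 1) (p0 ▸ adj 2))
    simp only [List.mem_cons, List.not_mem_nil, or_false] at hu
    rcases hu with rfl | rfl | rfl | rfl <;> exact ⟨_, rfl⟩
  · refine fin _ (fun u hu => ?_)
      (two4 h (adj 0) (adj 1) (adj 2) (p0 ▸ adj 3) (nb 0) (nb 1))
    simp only [List.mem_cons, List.not_mem_nil, or_false] at hu
    rcases hu with rfl | rfl | rfl | rfl | rfl <;> exact ⟨_, rfl⟩
  · refine fin _ (fun u hu => ?_)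
      (two5 h (adj 0) (adj 1) (adj 2) (adj 3) (p0 ▸ adj 4) (nb 0) (nb 1) (nb 2) (p0 ▸ nb 3)
        (p1 ▸ nb 4))
    simp only [List.mem_cons, List.not_mem_nil, or_false] at hu
    rcases hu with rfl | rfl | rfl | rfl | rfl | rfl <;> exact ⟨_, rfl⟩

end girth

theorem k4_flow1 (hM : MainF) {V : Type} [Fintype V] (G : SimpleGraph V) (a : V)
    (hp : IsPlanar (G.induce {v | v ≠ a}))
    (hg : Two (G.induce {v | v ≠ a}) fun v => G.Adj a v.1)
    (hd : ∀ v, v ≠ a → 3 ≤ (G.neighborSet v).ncard ∨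
      (2 ≤ (G.neighborSet v).ncard ∧ G.Adj a v)) :
    ∃ F : V → V → K4, (∀ u v, F v u = F u v) ∧ (∀ u v, F u v ≠ 0 ↔ G.Adj u v) ∧
      ∀ u, ∑ v, F u v = 0 := by
  classical
  set H := G.induce {v | v ≠ a} with hH
  obtain ⟨σ, hr, h0⟩ := pl_of_isPlanar hp
  obtain ⟨c, hc⟩ := lab1_of hM σ (alpha H) {d | G.Adj a d.fst.1} (fun d => d.symm_symm)
    (fun d => d.symm_ne) h0 (nb1_of hr hg)
    (fun d => by simp only [Set.mem_ofPred_eq, hr.1]) (by
      intro d hd1 hd2
      have k1 : Function.minimalPeriod σ d ≤ 2 :=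
        Function.IsPeriodicPt.minimalPeriod_le (by norm_num) hd2
      have k2 := period_eq_dg hr d
      have k3 : G.neighborSet d.fst.1 = Subtype.val '' H.neighborSet d.fst := by
        ext w
        constructor
        · intro hw
          refine ⟨⟨w, ?_⟩, hw, rfl⟩
          rintro rfl
          exact hd1 hw.symm
        · rintro ⟨w, hw, rfl⟩
          exact hw
      have k4 := (hd d.fst.1 d.fst.2).resolve_right fun k => hd1 k.2
      rw [k3, Set.ncard_image_of_injective _ Subtype.val_injective] at k4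
      unfold dg at k2
      omega)
  obtain ⟨c0, e1, e2⟩ : ∃ c0 : V → V → K4, (∀ d : H.Dart, c0 d.fst.1 d.snd.1 = c d) ∧
      ∀ u v, ¬ (u ≠ a ∧ v ≠ a ∧ G.Adj u v) → c0 u v = 0 :=
    ⟨fun u v => if h : u ≠ a ∧ v ≠ a ∧ G.Adj u v then c ⟨(⟨u, h.1⟩, ⟨v, h.2.1⟩), h.2.2⟩ else 0,
      fun d => dif_pos ⟨d.fst.2, d.snd.2, d.adj⟩, fun u v h => dif_neg h⟩
  have s0 : ∀ u v, c0 v u = c0 u v := by
    intro u v
    by_cases h : u ≠ a ∧ v ≠ a ∧ G.Adj u v
    · let d : H.Dart := ⟨(⟨u, h.1⟩, ⟨v, h.2.1⟩), h.2.2⟩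
      exact (e1 d.symm).trans ((hc.sym d).trans (e1 d).symm)
    · rw [e2 u v h, e2 v u fun k => h ⟨k.2.1, k.1, k.2.2.symm⟩]
  have sv : ∀ d : H.Dart, vsum σ c d = ∑ v, c0 d.fst.1 v := by
    intro d
    rw [vsum_eq' σ c d (Finset.univ.filter fun e => e.fst = d.fst) (fun e => by
      rw [Finset.mem_filter]
      exact ⟨fun k => hr.2 _ _ k.2.symm, fun k =>
        ⟨Finset.mem_univ _, min_lab' σ (fun d : H.Dart => d.fst) hr.1 k⟩⟩)]
    refine Finset.sum_bij_ne_zero (fun e _ _ => e.snd.1) (fun _ _ _ => Finset.mem_univ _)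
      (fun e he _ e' he' _ k => ?_) (fun v _ hv => ?_) fun e he _ => ?_
    · exact Dart.ext _ _ (Prod.ext ((Finset.mem_filter.1 he).2.trans
        (Finset.mem_filter.1 he').2.symm) (Subtype.ext k))
    · have h : d.fst.1 ≠ a ∧ v ≠ a ∧ G.Adj d.fst.1 v := by
        by_contra k
        exact hv (e2 _ _ k)
      exact ⟨⟨(d.fst, ⟨v, h.2.1⟩), h.2.2⟩, Finset.mem_filter.2 ⟨Finset.mem_univ _, rfl⟩,
        hc.nz _ (by simp), rfl⟩
    · rw [← e1 e, (Finset.mem_filter.1 he).2]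
  have ex : ∀ u, u ≠ a → ∃ d : H.Dart, d.fst.1 = u := by
    intro u hu
    have k : 1 < (G.neighborSet u).ncard := by
      have := hd u hu
      omega
    obtain ⟨v, hv, hva⟩ := Set.exists_ne_of_one_lt_ncard k a
    exact ⟨⟨(⟨u, hu⟩, ⟨v, hva⟩), hv⟩, rfl⟩
  have sS : ∀ u, ∑ v, c0 u v ≠ 0 ↔ G.Adj a u := by
    intro u
    by_cases hu : u = a
    · rw [Finset.sum_eq_zero fun v _ => e2 u v fun k => k.1 hu, hu]
      simp
    · obtain ⟨d, rfl⟩ := ex u hu
      rw [← sv]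
      exact ⟨fun k => by_contra fun k' => k (hc.vz d k'), hc.vn d⟩
  have tot : ∑ u, ∑ v, c0 u v = 0 := by
    rw [← Finset.sum_product']
    refine Finset.sum_involution (fun p _ => p.swap) (fun p _ => ?_) (fun p _ h k => h ?_)
      (fun _ _ => by simp) fun _ _ => rfl
    · rw [Prod.fst_swap, Prod.snd_swap, s0, k4_add_self]
    · refine e2 _ _ fun k' => k'.2.2.ne ?_
      exact (congrArg Prod.fst k).symm
  refine ⟨fun u v => c0 u v + (if u = a then ∑ w, c0 v w else 0) +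
    (if v = a then ∑ w, c0 u w else 0), fun u v => by beta_reduce; rw [s0]; ring, fun u v => ?_,
    fun u => ?_⟩
  · beta_reduce
    have ha : ∑ w, c0 a w = 0 := by_contra fun k => ((sS a).1 k).ne rfl
    by_cases hu : u = a
    · subst hu
      rw [e2 u v fun k => k.1 rfl, ha, if_pos rfl, ite_self, zero_add, add_zero, sS]
    · by_cases hv : v = a
      · subst hv
        rw [e2 u v fun k => k.2.1 rfl, if_neg hu, if_pos rfl, zero_add, zero_add, sS, G.adj_comm]
      · rw [if_neg hu, if_neg hv, add_zero, add_zero]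
        exact ⟨fun k => by_contra fun k' => k (e2 _ _ fun k'' => k' k''.2.2), fun k => by
          rw [e1 ⟨(⟨u, hu⟩, ⟨v, hv⟩), k⟩]
          exact hc.nz _ (by simp)⟩
  · rw [Finset.sum_add_distrib, Finset.sum_add_distrib, Finset.sum_ite_eq', if_pos (Finset.mem_univ _),
      Finset.sum_ite_irrel, tot, Finset.sum_const_zero, ite_self, add_zero, k4_add_self]

theorem two_of {V : Type} (G : SimpleGraph V) (a : V)
    (hg : ∀ (v : V) (c : G.Walk v v), c.IsCycle → a ∉ c.support → c.length ≤ 5 →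
      ∃ x ∈ c.support, ∃ y ∈ c.support, x ≠ y ∧ G.Adj a x ∧ G.Adj a y) :
    Two (G.induce {v | v ≠ a}) fun v => G.Adj a v.1 := by
  intro v c hc h5
  let f := (Embedding.induce {v | v ≠ a} : G.induce {v | v ≠ a} ↪g G)
  obtain ⟨x, hx, y, hy, k, k1, k2⟩ := hg _ (c.map f.toHom) (hc.map f.injective) (by
    rw [Walk.support_map, List.mem_map]
    rintro ⟨z, -, hz⟩
    exact z.2 hz) (by rwa [Walk.length_map])
  rw [Walk.support_map, List.mem_map] at hx hy
  obtain ⟨x, hx, rfl⟩ := hx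
  obtain ⟨y, hy, rfl⟩ := hy
  exact ⟨x, hx, y, hy, fun e => k (by rw [e]), k1, k2⟩

/-- the final statement: apex graphs whose short cycles avoiding the apex pass through two
neighbours of the apex -/
theorem final1_of (H : NoCtx) {V : Type} [Fintype V] (G : SimpleGraph V) (a : V)
    (hp : IsPlanar (G.induce {v | v ≠ a}))
    (hg : ∀ (v : V) (c : G.Walk v v), c.IsCycle → a ∉ c.support → c.length ≤ 5 →
      ∃ x ∈ c.support, ∃ y ∈ c.support, x ≠ y ∧ G.Adj a x ∧ G.Adj a y)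
    (hd : ∀ v, v ≠ a → 3 ≤ (G.neighborSet v).ncard ∨
      (2 ≤ (G.neighborSet v).ncard ∧ G.Adj a v)) :
    ∃ f : V → V → ℤ, (∀ u v, f v u = - f u v) ∧ (∀ u v, ¬ G.Adj u v → f u v = 0) ∧
      (∀ u v, G.Adj u v → 0 < |f u v| ∧ |f u v| < 4) ∧ ∀ u, ∑ v, f u v = 0 := by
  obtain ⟨F, F1, F2, F3⟩ := k4_flow1 (mainF_of_noCtx H) G a hp (two_of G a hg) hd
  obtain ⟨f, f1, f2, f3, f4⟩ := int_flow F F1 (fun u => by_contra fun k => ((F2 u u).1 k).ne rfl) F3
  exact ⟨f, f1, fun u v h => f2 u v (by_contra fun k => h ((F2 u v).1 k)),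
    fun u v h => f3 u v ((F2 u v).2 h), f4⟩

end Pool.Agent.Lib.G6.F
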