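import Mathlib

set_option autoImplicit false

/-! Eulerian orientations; from flows over the Klein four-group to integer flows. -/

namespace Pool.Agent.Lib.G6.F

open Equiv Finset

theorem z2_cases (j : ZMod 2) : j = 0 ∨ j = 1 := by revert j; decide

theorem euler_or {D W : Type} [Fintype D] [DecidableEq W] (β : D → W) (n : ℕ) :
    ∀ (α : Perm D) (J : D → ZMod 2), (univ.filter fun d => J d = 1).card = n →
      (∀ d, α (α d) = d) → (∀ d, J d = 1 → α d ≠ d) → (∀ d, J (α d) = J d) →
      (∀ w, ∑ d with β d = w, J d = 0) →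
      ∃ g : D → ℤ, (∀ d, g (α d) = - g d) ∧ (∀ d, J d = 0 → g d = 0) ∧
        (∀ d, J d = 1 → g d = 1 ∨ g d = -1) ∧ ∀ w, ∑ d with β d = w, g d = 0 := by
  classical
  induction n using Nat.strong_induction_on with
  | _ n ih =>
  intro α J hn hi hf hs hw
  by_cases h0 : ∃ d, J d = 1
  swap
  · push Not at h0
    exact ⟨fun _ => 0, by simp, by simp, fun d hd => absurd hd (h0 d), by simp⟩
  obtain ⟨d, hd⟩ := h0
  obtain ⟨e, hed, he1, he⟩ : ∃ e, e ≠ d ∧ β e = β d ∧ J e = 1 := by
    by_contra hc
    push Not at hc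
    have := hw (β d)
    rw [sum_eq_single d (fun e h1 h2 => (z2_cases _).resolve_right (hc e h2 (mem_filter.1 h1).2))
      (by simp), hd] at this
    exact absurd this (by decide)
  have hd' := hf d hd
  have he' := hf e he
  have hae : α e ≠ α d := fun h => hed (α.injective h)
  set α' := swap e (α d) * α * swap e (α d) with hα'
  have a1 : α' d = e := by
    rw [hα', Perm.mul_apply, Perm.mul_apply, swap_apply_of_ne_of_ne hed.symm hd'.symm,
      swap_apply_right]
  have ai : ∀ z, α' (α' z) = z := fun z => by simp [hα', hi]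
  have a2 : α' e = d := by rw [← a1, ai]
  have a3 : α' (α d) = α e := by
    rw [hα', Perm.mul_apply, Perm.mul_apply, swap_apply_right, swap_apply_of_ne_of_ne he' hae]
  have a4 : α' (α e) = α d := by rw [← a3, ai]
  have a5 : ∀ z, z ≠ d → z ≠ e → z ≠ α d → z ≠ α e → α' z = α z := fun z h1 h2 h3 h4 => by
    rw [hα', Perm.mul_apply, Perm.mul_apply, swap_apply_of_ne_of_ne h2 h3,
      swap_apply_of_ne_of_ne (fun h => h4 (by rw [← h, hi])) fun h => h1 (α.injective h)]
  have js : ∀ z, J (swap e (α d) z) = J z := fun z => by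
    rw [swap_apply_def]
    split_ifs with h1 h2
    · rw [h1, hs, hd, he]
    · rw [h2, hs, hd, he]
    · rfl
  have hp : ∀ z, (α' z = d ∨ α' z = e) ↔ (z = d ∨ z = e) := fun z => by
    constructor
    · rintro (h | h)
      · exact Or.inr (by rw [← a1, ← h, ai])
      · exact Or.inl (by rw [← a2, ← h, ai])
    · rintro (rfl | rfl)
      · exact Or.inr a1
      · exact Or.inl a2
  have two : ∀ {M : Type} [AddCommGroup M] (f g : D → M) (w : W), f d + f e = g d + g e →
      (∀ z, z ≠ d → z ≠ e → f z = g z) → ∑ z with β z = w, f z = ∑ z with β z = w, g z := by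
    intro M _ f g w h1 h2
    rw [sum_filter, sum_filter, ← add_sum_erase _ _ (mem_univ d), ← add_sum_erase _ _ (mem_univ d),
      ← add_sum_erase _ _ (mem_erase.2 ⟨hed, mem_univ e⟩),
      ← add_sum_erase _ _ (mem_erase.2 ⟨hed, mem_univ e⟩), ← add_assoc, ← add_assoc, he1]
    congr 1
    · split_ifs
      · exact h1
      · rfl
    · refine sum_congr rfl fun z hz => ?_
      rw [h2 z (mem_erase.1 (mem_erase.1 hz).2).1 (mem_erase.1 hz).1]
  obtain ⟨g, g1, g2, g3, g4⟩ := ih _ (by
      rw [← hn]
      refine card_lt_card ⟨fun z hz => ?_, fun h => ?_⟩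
      · have := (mem_filter.1 hz).2
        split_ifs at this
        · exact absurd this (by decide)
        · exact mem_filter.2 ⟨mem_univ _, this⟩
      · have := (mem_filter.1 (h (mem_filter.2 ⟨mem_univ d, hd⟩))).2
        rw [if_pos (Or.inl rfl)] at this
        exact absurd this (by decide)) α' (fun z => if z = d ∨ z = e then 0 else J z) rfl ai
    (fun z hz h => by
      split_ifs at hz
      · exact absurd hz (by decide)
      · refine hf (swap e (α d) z) (by rw [js, hz]) ?_
        rw [hα', Perm.mul_apply, Perm.mul_apply] at h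
        exact (swap e (α d)).injective (by rw [h, swap_apply_self]))
    (fun z => by
      simp only [hp z]
      rw [hα', Perm.mul_apply, Perm.mul_apply, js, hs, js])
    (fun w => by
      refine Eq.trans (two _ _ w ?_ fun z h1 h2 => if_neg (by tauto)) (hw w)
      rw [if_pos (Or.inl rfl), if_pos (Or.inr rfl), hd, he]
      decide)
  have gd : g d = 0 := g2 d (if_pos (Or.inl rfl))
  have ge : g e = 0 := g2 e (if_pos (Or.inr rfl))
  obtain ⟨t, ht, t1, t2⟩ : ∃ t : ℤ, (t = 1 ∨ t = -1) ∧ (α d ≠ e → g (α d) = -t) ∧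
      (α d ≠ e → g (α e) = t) := by
    by_cases h : α d = e
    · exact ⟨1, Or.inl rfl, fun k => absurd h k, fun k => absurd h k⟩
    · have := g3 (α d) (by rw [if_neg (by tauto), hs, hd])
      exact ⟨-g (α d), by omega, fun _ => by ring, fun _ => by rw [← a3, g1]⟩
  refine ⟨fun z => if z = d then t else if z = e then -t else g z, fun z => ?_, fun z hz => ?_,
    fun z hz => ?_, fun w => ?_⟩
  · by_cases h1 : z = d
    · subst h1
      by_cases h : α z = e
      · simp [h, hed]
      · simp [hd', h, t1 h]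
    · by_cases h2 : z = e
      · subst h2
        by_cases h : α d = z
        · have : α z = d := by rw [← h, hi]
          simp [this, h1]
        · have : α z ≠ d := fun k => h (by rw [← k, hi])
          simp [this, h1, he', t2 h]
      · by_cases h3 : z = α d
        · subst h3
          simp [hi, h1, h2, t1 h2]
        · by_cases h4 : z = α e
          · subst h4
            have : α d ≠ e := fun k => h1 (by rw [← k, hi])
            simp [hi, h1, h2, hed, t2 this]
          · have k1 : α z ≠ d := fun k => h3 (by rw [← k, hi])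
            have k2 : α z ≠ e := fun k => h4 (by rw [← k, hi])
            simp only [if_neg h1, if_neg h2, if_neg k1, if_neg k2]
            rw [← a5 z h1 h2 h3 h4, g1]
  · have h1 : z ≠ d := fun k => by rw [k, hd] at hz; exact absurd hz (by decide)
    have h2 : z ≠ e := fun k => by rw [k, he] at hz; exact absurd hz (by decide)
    simp only [if_neg h1, if_neg h2]
    exact g2 z (by rw [if_neg (by tauto), hz])
  · beta_reduce
    split_ifs with h1 h2
    · exact ht
    · omega
    · exact g3 z (by rw [if_neg (by tauto), hz])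
  · rw [← g4 w]
    refine two _ _ w ?_ fun z h1 h2 => by simp only [if_neg h1, if_neg h2]
    simp [hed, gd, ge]

theorem euler_sym {V : Type} [Fintype V] (J : V → V → ZMod 2) (hs : ∀ u v, J v u = J u v)
    (h0 : ∀ u, J u u = 0) (hw : ∀ u, ∑ v, J u v = 0) :
    ∃ g : V → V → ℤ, (∀ u v, g v u = - g u v) ∧ (∀ u v, J u v = 0 → g u v = 0) ∧
      (∀ u v, J u v = 1 → g u v = 1 ∨ g u v = -1) ∧ ∀ u, ∑ v, g u v = 0 := by
  classical
  have key : ∀ {M : Type} [AddCommGroup M] (f : V × V → M) (w : V),
      ∑ d with d.1 = w, f d = ∑ v, f (w, v) := by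
    intro M _ f w
    rw [sum_filter, Fintype.sum_prod_type, sum_eq_single w (fun u _ h => by simp [h]) (by simp)]
    simp
  obtain ⟨g, g1, g2, g3, g4⟩ := euler_or (D := V × V) Prod.fst _ (Equiv.prodComm V V)
    (fun d => J d.1 d.2) rfl (fun _ => rfl) (by
      rintro ⟨u, v⟩ h k
      obtain rfl : v = u := congrArg Prod.fst k
      rw [h0] at h
      exact absurd h (by decide)) (fun d => hs _ _) (fun w => by rw [key]; exact hw w)
  exact ⟨fun u v => g (u, v), fun u v => g1 (u, v), fun u v => g2 (u, v), fun u v => g3 (u, v),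
    fun u => by rw [← key]; exact g4 u⟩

theorem int_flow {V : Type} [Fintype V] (F : V → V → ZMod 2 × ZMod 2) (hs : ∀ u v, F v u = F u v)
    (h0 : ∀ u, F u u = 0) (hw : ∀ u, ∑ v, F u v = 0) :
    ∃ f : V → V → ℤ, (∀ u v, f v u = - f u v) ∧ (∀ u v, F u v = 0 → f u v = 0) ∧
      (∀ u v, F u v ≠ 0 → 0 < |f u v| ∧ |f u v| < 4) ∧ ∀ u, ∑ v, f u v = 0 := by
  obtain ⟨f, f1, f2, f3, f4⟩ := euler_sym (fun u v => (F u v).1) (fun u v => by rw [hs])
    (fun u => by rw [h0]; rfl) (fun u => by rw [← Prod.fst_sum, hw]; rfl)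
  obtain ⟨g, g1, g2, g3, g4⟩ := euler_sym (fun u v => (F u v).2) (fun u v => by rw [hs])
    (fun u => by rw [h0]; rfl) (fun u => by rw [← Prod.snd_sum, hw]; rfl)
  refine ⟨fun u v => f u v + 2 * g u v, fun u v => by beta_reduce; rw [f1, g1]; ring, fun u v h => ?_,
    fun u v h => ?_, fun u => by rw [sum_add_distrib, ← mul_sum, f4, g4]; rfl⟩
  · beta_reduce
    rw [f2 u v (by rw [h]; rfl), g2 u v (by rw [h]; rfl)]
    rfl
  · beta_reduce
    rw [abs_pos, abs_lt]
    rcases z2_cases (F u v).1 with a | a <;> rcases z2_cases (F u v).2 with b | b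
    · exact absurd (Prod.ext a b) h
    · have := f2 u v a
      have := g3 u v b
      omega
    · have := f3 u v a
      have := g2 u v b
      omega
    · have := f3 u v a
      have := g3 u v b
      omega

end Pool.Agent.Lib.G6.F
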