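import Pool.Agent.Lib.G6.FSp

set_option autoImplicit false

/-! Sparse maps whose vertices outside `N` are cubic belong to the induction class. -/

namespace Pool.Agent.Lib.G6.F

open Equiv Pool.Agent.Lib.MP_bfaad3_co

variable {D : Type} [Finite D]

theorem cover3 (σ : Perm D) (S : Set D) (hS : ∀ x, σ x ∈ S ↔ x ∈ S)
    (h3 : ∀ x ∈ S, σ (σ x) ≠ x ∧ σ (σ (σ x)) = x) :
    ∃ R : Set D, 3 * R.ncard ≤ S.ncard ∧ ∀ x ∈ S, ∃ r ∈ R, σ.SameCycle r x := by
  induction hn : S.ncard using Nat.strong_induction_on generalizing S with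
  | _ n ih =>
  subst hn
  rcases S.eq_empty_or_nonempty with rfl | ⟨x, hx⟩
  · exact ⟨∅, by simp, by simp⟩
  obtain ⟨a2, a3⟩ := h3 x hx
  have a1 : σ x ≠ x := fun h => a2 (by rw [h, h])
  have hT : ({x, σ x, σ (σ x)} : Set D) ⊆ S := by
    rintro y (rfl | rfl | rfl)
    · exact hx
    · exact (hS _).2 hx
    · exact (hS _).2 ((hS _).2 hx)
  have hT3 : ({x, σ x, σ (σ x)} : Set D).ncard = 3 :=
    Set.ncard_eq_three.2 ⟨_, _, _, a1.symm, a2.symm, fun h => a1 (σ.injective h).symm, rfl⟩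
  have hc := Set.ncard_sdiff_add_ncard_of_subset hT
  obtain ⟨R, hR1, hR2⟩ := ih _ (by omega) (S \ {x, σ x, σ (σ x)}) (fun y => by
      refine and_congr (hS y) (not_congr ⟨?_, ?_⟩)
      · rintro (h | h | h)
        · exact Or.inr (Or.inr (σ.injective (h.trans a3.symm)))
        · exact Or.inl (σ.injective h)
        · exact Or.inr (Or.inl (σ.injective h))
      · rintro (rfl | rfl | rfl)
        · exact Or.inr (Or.inl rfl)
        · exact Or.inr (Or.inr rfl)
        · exact Or.inl a3) (fun y hy => h3 y hy.1) rfl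
  refine ⟨insert x R, ?_, fun y hy => ?_⟩
  · have := Set.ncard_insert_le x R
    omega
  · by_cases h : y ∈ ({x, σ x, σ (σ x)} : Set D)
    · refine ⟨x, Or.inl rfl, ?_⟩
      rcases h with rfl | rfl | rfl
      · exact Perm.SameCycle.refl _ _
      · exact perm_sc_step _ _
      · exact (perm_sc_step _ _).trans (perm_sc_step _ _)
    · obtain ⟨r, hr, hr'⟩ := hR2 y ⟨hy, h⟩
      exact ⟨r, Or.inr hr, hr'⟩

theorem inn_add_bdy (α : Perm D) (S : Set D) : inn α S + bdy α S = S.ncard := by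
  unfold inn bdy
  rw [← Set.ncard_union_eq]
  · congr 1
    ext x
    simp only [Set.mem_union, Set.mem_ofPred_eq]
    tauto
  · rw [Set.disjoint_left]
    rintro x ⟨-, h1, h2⟩ ⟨-, h3 | h3⟩
    · exact h3 h1
    · exact h2 h3

theorem inK_of (σ α : Perm D) (N : Set D) (hi : ∀ x, α (α x) = x) (h0 : Gen0 σ α)
    (hN : ∀ x, σ x ∈ N ↔ x ∈ N) (h3 : ∀ x, x ∉ N → σ (σ x) ≠ x ∧ σ (σ (σ x)) = x)
    (hs : Sp σ α) : InK σ α N := by
  have hcl : ∀ S : Set D, ∀ x ∈ {x | x ∈ S ∧ α x ∈ S ∧ α x ≠ x},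
      α x ∈ {x | x ∈ S ∧ α x ∈ S ∧ α x ≠ x} := by
    rintro S x ⟨h1, h2, h3⟩
    exact ⟨h2, by rw [hi]; exact h1, by rw [hi]; exact h3.symm⟩
  refine ⟨hi, h0, hN, fun x hx => ?_, fun S hS hne hZ hc => ?_, fun S u hS huS huN hu hc => ?_⟩
  · have : Fact (Nat.Prime 3) := ⟨by norm_num⟩
    exact Function.minimalPeriod_eq_prime (h3 x hx).2 fun h => (h3 x hx).1 (by rw [h.eq, h.eq])
  · obtain ⟨R, hR1, hR2⟩ := cover3 σ S hS fun x hx => h3 x (hZ x hx)
    have h1 := inn_add_bdy α S
    have h2 := (Set.ncard_pos (Set.toFinite S)).2 hne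
    have := hs _ R (hcl S) (by
      rw [← Set.ncard_pos (Set.toFinite _)]
      unfold inn at hc
      omega) (fun x hx => hR2 x hx.1) (by unfold inn at hc; omega)
    unfold inn at h1
    omega
  · obtain ⟨R, hR1, hR2⟩ := cover3 σ (S \ N) (fun x => and_congr (hS x) (not_congr (hN x)))
      fun x hx => h3 x hx.2
    have h1 := inn_add_bdy α S
    have h2 := Set.ncard_inter_add_ncard_sdiff_eq_ncard S N
    by_cases hu1 : σ u = u
    · have h4 : S ∩ N = {u} := by
        ext x
        constructor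
        · rintro ⟨h5, h6⟩
          exact ((hu x h5 h6).eq_of_left hu1).symm
        · rintro rfl
          exact ⟨huS, huN⟩
      rw [h4, Set.ncard_singleton] at h2
      have h5 := Set.le_ncard_sdiff ({u, α u} : Set D) {x | x ∈ S ∧ α x ∈ S ∧ α x ≠ x}
      have h6 : ({u, α u} : Set D).ncard ≤ 2 := by
        have := Set.ncard_insert_le u {α u}
        rwa [Set.ncard_singleton] at this
      unfold inn at h1 hc
      by_cases h7 : ({x | x ∈ S ∧ α x ∈ S ∧ α x ≠ x} \ {u, α u}).Nonempty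
      · have := hs _ R (by
          rintro x ⟨hx, hx2⟩
          refine ⟨hcl S x hx, ?_⟩
          rintro (h | h)
          · exact hx2 (Or.inr (by rw [← h, hi]; rfl))
          · exact hx2 (Or.inl (α.injective h))) h7 (by
          rintro x ⟨hx, hx2⟩
          refine hR2 x ⟨hx.1, fun h => hx2 (Or.inl ?_)⟩
          have : x ∈ S ∩ N := ⟨hx.1, h⟩
          rwa [h4] at this) (by omega)
        omega
      · rw [Set.not_nonempty_iff_eq_empty] at h7
        rw [h7, Set.ncard_empty] at h5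
        omega
    · have h4 : 2 ≤ (S ∩ N).ncard := by
        rw [← Set.ncard_pair (Ne.symm hu1)]
        refine Set.ncard_le_ncard ?_
        rintro x (rfl | rfl)
        · exact ⟨huS, huN⟩
        · exact ⟨(hS _).2 huS, (hN _).2 huN⟩
      have h5 := Set.ncard_insert_le u R
      unfold inn at h1 hc
      have := hs _ (insert u R) (hcl S) (by
        rw [← Set.ncard_pos (Set.toFinite _)]
        omega) (by
        intro x hx
        by_cases h : x ∈ N
        · exact ⟨u, Or.inl rfl, hu x hx.1 h⟩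
        · obtain ⟨r, hr, hr'⟩ := hR2 x ⟨hx.1, h⟩
          exact ⟨r, Or.inr hr, hr'⟩) (by omega)
      omega

end Pool.Agent.Lib.G6.F
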