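import Pool.Agent.Lib.G6.FSplit

set_option autoImplicit false

/-! Labellings of sparse maps with arbitrary degrees at least three outside `N`. -/

namespace Pool.Agent.Lib.G6.F

open Equiv Pool.Agent.Lib.MP_bfaad3_co Sum

theorem k4_add_self (z : K4) : z + z = 0 := by revert z; decide

open Classical in
theorem vsum_eq {D : Type} [Fintype D] (σ : Perm D) (c : D → K4) (x : D) :
    vsum σ c x = ∑ y ∈ Finset.univ.filter (σ.SameCycle x ·), c y := by
  unfold vsum deg
  refine Finset.sum_bij (fun i _ => (σ ^ i) x) (fun i _ => ?_) (fun i hi j hj h => ?_)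
    (fun y hy => ?_) fun _ _ => rfl
  · exact Finset.mem_filter.2 ⟨Finset.mem_univ _, ⟨(i : ℤ), by rw [zpow_natCast]⟩⟩
  · exact bas_inj σ x (Finset.mem_range.1 hi) (Finset.mem_range.1 hj) h
  · obtain ⟨i, h1, h2⟩ := bas_exists σ (Finset.mem_filter.1 hy).2
    exact ⟨i, Finset.mem_range.2 h1, h2⟩

theorem sum_closed {D : Type} [Fintype D] (σ : Perm D) (c : D → K4) (S : Finset D)
    (hS : ∀ x, σ x ∈ S ↔ x ∈ S) (h : ∀ x ∈ S, vsum σ c x = 0) : ∑ y ∈ S, c y = 0 := by
  classical
  rw [← Finset.sum_fiberwise_of_maps_to (g := Quotient.mk (Perm.SameCycle.setoid σ))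
    (t := S.image (Quotient.mk (Perm.SameCycle.setoid σ)))
    (fun x hx => Finset.mem_image_of_mem _ hx)]
  refine Finset.sum_eq_zero fun q hq => ?_
  obtain ⟨x, hx, rfl⟩ := Finset.mem_image.1 hq
  rw [← h x hx, vsum_eq]
  refine Finset.sum_congr ?_ fun _ _ => rfl
  ext y
  simp only [Finset.mem_filter, Finset.mem_univ, true_and]
  constructor
  · rintro ⟨-, k⟩
    exact Perm.SameCycle.symm (Quotient.exact k)
  · intro k
    refine ⟨?_, Quotient.sound k.symm⟩
    rw [min_lab' σ (· ∈ S) (fun z => propext (hS z)) k]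
    exact hx

theorem vsum_map {D E : Type} (σ : Perm D) (s : Perm E) (f : D → E) (hf : Function.Injective f)
    (c : E → K4) (u : D) (h : ∀ i : ℕ, s (f ((σ ^ i) u)) = f (σ ((σ ^ i) u))) :
    vsum s c (f u) = vsum σ (fun v => c (f v)) u := by
  have k : ∀ i : ℕ, (s ^ i) (f u) = f ((σ ^ i) u) := by
    intro i
    induction i with
    | zero => rfl
    | succ i ih => rw [bas_succ, bas_succ, ih, h]
  have e : deg s (f u) = deg σ u := by
    unfold deg
    rw [Function.minimalPeriod_eq_minimalPeriod_iff]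
    intro n
    unfold Function.IsPeriodicPt Function.IsFixedPt
    rw [← Perm.coe_pow, ← Perm.coe_pow, k, hf.eq_iff]
  unfold vsum
  rw [e]
  exact Finset.sum_congr rfl fun i _ => by rw [k]

theorem three_cyc {D : Type} [Finite D] (σ : Perm D) (N : Set D)
    (h : ∀ x, x ∉ N → σ (σ x) ≠ x) : 3 * cyc σ ≤ Nat.card D + 3 * N.ncard := by
  classical
  have : Fintype D := Fintype.ofFinite D
  have h1 : ((3 * cyc σ : ℕ) : ℚ) ≤ (Nat.card D + 3 * N.ncard : ℕ) := by
    have e : (N.ncard : ℚ) = ∑ x : D, if x ∈ N then 1 else 0 := by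
      rw [Finset.sum_boole, Set.ncard_eq_toFinset_card']
      congr 2
      ext x
      simp
    push_cast
    rw [perm_cyc_sum, Finset.mul_sum, Nat.card_eq_fintype_card, Fintype.card_eq_sum_ones, e,
      Finset.mul_sum]
    push_cast
    rw [← Finset.sum_add_distrib]
    refine Finset.sum_le_sum fun x _ => ?_
    have hp : (1 : ℚ) ≤ Function.minimalPeriod σ x := by exact_mod_cast bas_pos σ x
    rw [mul_one_div, div_le_iff₀ (by linarith)]
    by_cases hx : x ∈ N
    · rw [if_pos hx]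
      linarith
    · rw [if_neg hx]
      have : 3 ≤ Function.minimalPeriod σ x := by
        refine le_period σ 3 x fun n h1 h2 k => h x hx ?_
        obtain rfl | rfl : n = 1 ∨ n = 2 := by omega
        · have k' : σ x = x := k
          rw [k', k']
        · exact k
      have : (3 : ℚ) ≤ Function.minimalPeriod σ x := by exact_mod_cast this
      linarith
  exact_mod_cast h1

theorem Spl.lab {D : Type} [Finite D] {σ α : Perm D} {x y : D} {s a : Perm (D ⊕ Bool)}
    (h : Spl σ α x y s a) {N : Set D} (hN : ∀ u, σ u ∈ N ↔ u ∈ N) (hx : x ∉ N)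
    {c : D ⊕ Bool → K4} (hc : Lab s a (inl '' N) ∅ c) : Lab σ α N ∅ fun u => c (inl u) := by
  classical
  have : Fintype D := Fintype.ofFinite D
  have hout : ∀ u, ¬ σ.SameCycle x u → vsum s c (inl u) = vsum σ (fun v => c (inl v)) u := by
    intro u hu
    refine vsum_map σ s inl inl_injective c u fun i => h.s3 _ (fun k => hu ?_) fun k => hu ?_
    · have k1 : σ.SameCycle u ((σ ^ i) u) := ⟨(i : ℤ), by rw [zpow_natCast]⟩
      rw [k] at k1
      exact (perm_sc_step σ x).trans k1.symm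
    · have k1 : σ.SameCycle u ((σ ^ i) u) := ⟨(i : ℤ), by rw [zpow_natCast]⟩
      have k2 := perm_sc_step σ y
      rw [k] at k1
      rw [h.hy] at k2
      exact (k1.trans k2).symm
  have hin : ∀ u, σ.SameCycle x u → u ∉ N := fun u hu k => hx (by
    rw [← min_lab' σ (· ∈ N) (fun z => propext (hN z)) hu]
    exact k)
  refine ⟨fun u => by rw [← h.a1, hc.sym], fun u _ => hc.nz _ (by simp), fun u hu => ?_,
    fun u hu => ?_⟩
  · by_cases k : σ.SameCycle x u
    · have k1 := sum_closed s c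
        (Finset.univ.filter fun z => σ.SameCycle u (Sum.elim id (fun _ => x) z)) (fun z => by
          simp only [Finset.mem_filter, Finset.mem_univ, true_and]
          exact ⟨fun e => e.trans (h.step z).symm, fun e => e.trans (h.step z)⟩) (by
          intro z hz
          refine hc.vz z ?_
          rintro ⟨v, hv, rfl⟩
          exact hin v (k.trans (Finset.mem_filter.1 hz).2) hv)
      have k2 : c (inr true) = c (inr false) := by rw [← h.a2, hc.sym]
      rw [Finset.sum_filter, Fintype.sum_sum_type, Fintype.sum_bool] at k1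
      simp only [Sum.elim_inl, Sum.elim_inr, id, if_pos k.symm] at k1
      rw [k2, k4_add_self, add_zero] at k1
      rw [vsum_eq, Finset.sum_filter]
      exact k1
    · rw [← hout u k]
      exact hc.vz _ (by simpa using hu)
  · rw [← hout u fun k => hin u k hu]
    exact hc.vn _ ⟨u, hu, rfl⟩

/-- the theorem on maps without dangling darts -/
def MainF : Prop := ∀ (D : Type) [Finite D] (σ α : Perm D) (N : Set D), InK σ α N →
  (∀ x, α x ≠ x) → ∃ c, Lab σ α N ∅ c

theorem mainF_of (h : MainK) : MainF := fun D _ σ α N k _ => h D σ α N k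

theorem Spl.fpf {D : Type} {σ α : Perm D} {x y : D} {s a : Perm (D ⊕ Bool)}
    (h : Spl σ α x y s a) (hf : ∀ u, α u ≠ u) (z : D ⊕ Bool) : a z ≠ z := by
  rcases z with u | _ | _
  · rw [h.a1]
    simpa using hf u
  · rw [h.a2]
    simp
  · rw [h.a3]
    simp

theorem lab_aux (hM : MainF) (n : ℕ) : ∀ (D : Type) [Finite D] (σ α : Perm D) (N : Set D),
    (∀ x, α (α x) = x) → (∀ x, α x ≠ x) → Gen0 σ α → (∀ x, σ x ∈ N ↔ x ∈ N) → (∀ x, x ∉ N → σ (σ x) ≠ x) →
    Sp σ α → Nat.card D + 3 * N.ncard ≤ 3 * cyc σ + n → ∃ c, Lab σ α N ∅ c := by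
  induction n using Nat.strong_induction_on with
  | _ n ih =>
  intro D _ σ α N hi hf h0 hN h2 hs hn
  by_cases h3 : ∃ x, x ∉ N ∧ σ (σ (σ x)) ≠ x
  · obtain ⟨x, hx, h3⟩ := h3
    obtain ⟨y, s, a, h⟩ := spl_ex σ α x (h2 x hx) h3
    have c0 : Nat.card (D ⊕ Bool) = Nat.card D + 2 := by simp
    have c1 := h.cyc_s
    have c2 : (inl '' N : Set (D ⊕ Bool)).ncard = N.ncard :=
      Set.ncard_image_of_injective _ inl_injective
    have c3 := three_cyc s (inl '' N) (h.two h2)
    obtain ⟨c, hc⟩ := ih (n - 1) (by omega) _ s a (inl '' N) (h.inv hi) (h.fpf hf) (h.gen h0)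
      (h.nσ hN hx) (h.two h2) (h.sp hs) (by omega)
    exact ⟨_, h.lab hN hx hc⟩
  · push Not at h3
    exact hM D σ α N (inK_of σ α N hi h0 hN (fun x hx => ⟨h2 x hx, h3 x hx⟩) hs) hf

/-- plane maps of girth at least six with degrees at least three outside `N` -/
theorem lab_of (hM : MainF) {D : Type} [Finite D] (σ α : Perm D) (N : Set D)
    (hi : ∀ x, α (α x) = x) (hf : ∀ x, α x ≠ x) (h0 : Gen0 σ α) (hg : NB σ α)
    (hN : ∀ x, σ x ∈ N ↔ x ∈ N) (h2 : ∀ x, x ∉ N → σ (σ x) ≠ x) : ∃ c, Lab σ α N ∅ c :=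
  lab_aux hM _ D σ α N hi hf h0 hN h2 (sp_of σ α hi hf h0 hg) (Nat.le_add_left _ _)

end Pool.Agent.Lib.G6.F
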