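import Pool.Agent.Lib.G6.FLab
import Pool.Agent.Lib.G6.FInt

set_option autoImplicit false
set_option linter.unusedSimpArgs false

/-! From the theorem on maps to nowhere-zero 4-flows in apex graphs. -/

namespace Pool.Agent.Lib.G6.F

open Equiv Pool.Agent.Lib.MP_bfaad3_co SimpleGraph

section girth

variable {W : Type} {H : SimpleGraph W}

theorem no3 (h : 6 ≤ H.egirth) {x y z : W} (h1 : H.Adj x y) (h2 : H.Adj y z) (h3 : H.Adj z x) :
    False := by
  have := le_egirth.1 h x (.cons h1 (.cons h2 (.cons h3 .nil))) (by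
    simp [Walk.cons_isCycle_iff, Walk.isPath_def, h1.ne, h2.ne, h3.ne, h1.ne', h2.ne', h3.ne'])
  simp at this
  exact absurd this (by decide)

theorem no4 (h : 6 ≤ H.egirth) {x y z w : W} (h1 : H.Adj x y) (h2 : H.Adj y z) (h3 : H.Adj z w)
    (h4 : H.Adj w x) (k1 : z ≠ x) (k2 : w ≠ y) : False := by
  have := le_egirth.1 h x (.cons h1 (.cons h2 (.cons h3 (.cons h4 .nil)))) (by
    simp [Walk.cons_isCycle_iff, Walk.isPath_def, h1.ne, h2.ne, h3.ne, h1.ne', h2.ne', h3.ne',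
      h4.ne, h4.ne', k1, k2, k1.symm, k2.symm])
  simp at this
  exact absurd this (by decide)

theorem no5 (h : 6 ≤ H.egirth) {x y z w t : W} (h1 : H.Adj x y) (h2 : H.Adj y z) (h3 : H.Adj z w)
    (h4 : H.Adj w t) (h5 : H.Adj t x) (k1 : z ≠ x) (k2 : w ≠ y) (k3 : t ≠ z) (k4 : x ≠ w)
    (k5 : y ≠ t) : False := by
  have := le_egirth.1 h x (.cons h1 (.cons h2 (.cons h3 (.cons h4 (.cons h5 .nil))))) (by
    simp [Walk.cons_isCycle_iff, Walk.isPath_def, h1.ne, h2.ne, h3.ne, h1.ne', h2.ne', h3.ne',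
      h4.ne, h4.ne', h5.ne, h5.ne', k1, k2, k3, k4, k5, k1.symm, k2.symm, k3.symm, k4.symm,
      k5.symm])
  simp at this
  exact absurd this (by decide)

theorem nb_of [Fintype W] {σ : Perm H.Dart} (hr : IsRot H σ) (h : 6 ≤ H.egirth) :
    NB σ (alpha H) := by
  intro n c h0 h5 hp hc
  by_contra hn
  push Not at hn
  have e : ∀ i, (c (i + 1)).fst = (c i).snd := fun i =>
    min_lab' σ (fun d : H.Dart => d.fst) hr.1 (hc i)
  have adj : ∀ i, H.Adj (c i).fst (c (i + 1)).fst := fun i => by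
    rw [e]
    exact (c i).adj
  have nb : ∀ i, (c (i + 2)).fst ≠ (c i).fst := fun i k => hn i (by
    refine Dart.ext _ _ (Prod.ext (e i) ?_)
    exact (e (i + 1)).symm.trans k)
  have p0 : c n = c 0 := by simpa using hp 0
  have p1 : c (n + 1) = c 1 := by rw [add_comm, hp]
  obtain rfl | rfl | rfl | rfl | rfl : n = 1 ∨ n = 2 ∨ n = 3 ∨ n = 4 ∨ n = 5 := by omega
  · exact (adj 0).ne (by rw [p0])
  · exact nb 0 (by rw [p0])
  · exact no3 h (adj 0) (adj 1) (p0 ▸ adj 2)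
  · exact no4 h (adj 0) (adj 1) (adj 2) (p0 ▸ adj 3) (nb 0) (nb 1)
  · exact no5 h (adj 0) (adj 1) (adj 2) (adj 3) (p0 ▸ adj 4) (nb 0) (nb 1) (nb 2) (p0 ▸ nb 3)
      (p1 ▸ nb 4)

end girth

theorem vsum_eq' {D : Type} [Fintype D] (σ : Perm D) (c : D → K4) (x : D) (S : Finset D)
    (hS : ∀ y, y ∈ S ↔ σ.SameCycle x y) : vsum σ c x = ∑ y ∈ S, c y := by
  rw [vsum_eq]
  exact Finset.sum_congr (by ext y; simp [hS]) fun _ _ => rfl

theorem k4_flow (hM : MainF) {V : Type} [Fintype V] (G : SimpleGraph V) (a : V)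
    (hp : IsPlanar (G.induce {v | v ≠ a})) (hg : 6 ≤ (G.induce {v | v ≠ a}).egirth)
    (hd : ∀ v, v ≠ a → 3 ≤ (G.neighborSet v).ncard ∨
      (2 ≤ (G.neighborSet v).ncard ∧ G.Adj a v)) :
    ∃ F : V → V → K4, (∀ u v, F v u = F u v) ∧ (∀ u v, F u v ≠ 0 ↔ G.Adj u v) ∧
      ∀ u, ∑ v, F u v = 0 := by
  classical
  set H := G.induce {v | v ≠ a} with hH
  obtain ⟨σ, hr, h0⟩ := pl_of_isPlanar hp
  obtain ⟨c, hc⟩ := lab_of hM σ (alpha H) {d | G.Adj a d.fst.1} (fun d => d.symm_symm)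
    (fun d => d.symm_ne) h0 (nb_of hr hg)
    (fun d => by simp only [Set.mem_ofPred_eq, hr.1]) (by
      intro d hd1 hd2
      have k1 : Function.minimalPeriod σ d ≤ 2 :=
        Function.IsPeriodicPt.minimalPeriod_le (by norm_num) hd2
      have k2 := period_eq_dg hr d
      have k3 : G.neighborSet d.fst.1 = Subtype.val '' H.neighborSet d.fst := by
        ext w
        constructor
        · intro hw
          refine ⟨⟨w, ?_⟩, hw, rfl⟩
          rintro rfl
          exact hd1 hw.symm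
        · rintro ⟨w, hw, rfl⟩
          exact hw
      have k4 := (hd d.fst.1 d.fst.2).resolve_right fun k => hd1 k.2
      rw [k3, Set.ncard_image_of_injective _ Subtype.val_injective] at k4
      unfold dg at k2
      omega)
  obtain ⟨c0, e1, e2⟩ : ∃ c0 : V → V → K4, (∀ d : H.Dart, c0 d.fst.1 d.snd.1 = c d) ∧
      ∀ u v, ¬ (u ≠ a ∧ v ≠ a ∧ G.Adj u v) → c0 u v = 0 :=
    ⟨fun u v => if h : u ≠ a ∧ v ≠ a ∧ G.Adj u v then c ⟨(⟨u, h.1⟩, ⟨v, h.2.1⟩), h.2.2⟩ else 0,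
      fun d => dif_pos ⟨d.fst.2, d.snd.2, d.adj⟩, fun u v h => dif_neg h⟩
  have s0 : ∀ u v, c0 v u = c0 u v := by
    intro u v
    by_cases h : u ≠ a ∧ v ≠ a ∧ G.Adj u v
    · let d : H.Dart := ⟨(⟨u, h.1⟩, ⟨v, h.2.1⟩), h.2.2⟩
      exact (e1 d.symm).trans ((hc.sym d).trans (e1 d).symm)
    · rw [e2 u v h, e2 v u fun k => h ⟨k.2.1, k.1, k.2.2.symm⟩]
  have sv : ∀ d : H.Dart, vsum σ c d = ∑ v, c0 d.fst.1 v := by
    intro d
    rw [vsum_eq' σ c d (Finset.univ.filter fun e => e.fst = d.fst) (fun e => by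
      rw [Finset.mem_filter]
      exact ⟨fun k => hr.2 _ _ k.2.symm, fun k =>
        ⟨Finset.mem_univ _, min_lab' σ (fun d : H.Dart => d.fst) hr.1 k⟩⟩)]
    refine Finset.sum_bij_ne_zero (fun e _ _ => e.snd.1) (fun _ _ _ => Finset.mem_univ _)
      (fun e he _ e' he' _ k => ?_) (fun v _ hv => ?_) fun e he _ => ?_
    · exact Dart.ext _ _ (Prod.ext ((Finset.mem_filter.1 he).2.trans
        (Finset.mem_filter.1 he').2.symm) (Subtype.ext k))
    · have h : d.fst.1 ≠ a ∧ v ≠ a ∧ G.Adj d.fst.1 v := by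
        by_contra k
        exact hv (e2 _ _ k)
      exact ⟨⟨(d.fst, ⟨v, h.2.1⟩), h.2.2⟩, Finset.mem_filter.2 ⟨Finset.mem_univ _, rfl⟩,
        hc.nz _ (by simp), rfl⟩
    · rw [← e1 e, (Finset.mem_filter.1 he).2]
  have ex : ∀ u, u ≠ a → ∃ d : H.Dart, d.fst.1 = u := by
    intro u hu
    have k : 1 < (G.neighborSet u).ncard := by
      have := hd u hu
      omega
    obtain ⟨v, hv, hva⟩ := Set.exists_ne_of_one_lt_ncard k a
    exact ⟨⟨(⟨u, hu⟩, ⟨v, hva⟩), hv⟩, rfl⟩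
  have sS : ∀ u, ∑ v, c0 u v ≠ 0 ↔ G.Adj a u := by
    intro u
    by_cases hu : u = a
    · rw [Finset.sum_eq_zero fun v _ => e2 u v fun k => k.1 hu, hu]
      simp
    · obtain ⟨d, rfl⟩ := ex u hu
      rw [← sv]
      exact ⟨fun k => by_contra fun k' => k (hc.vz d k'), hc.vn d⟩
  have tot : ∑ u, ∑ v, c0 u v = 0 := by
    rw [← Finset.sum_product']
    refine Finset.sum_involution (fun p _ => p.swap) (fun p _ => ?_) (fun p _ h k => h ?_)
      (fun _ _ => by simp) fun _ _ => rfl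
    · rw [Prod.fst_swap, Prod.snd_swap, s0, k4_add_self]
    · refine e2 _ _ fun k' => k'.2.2.ne ?_
      exact (congrArg Prod.fst k).symm
  refine ⟨fun u v => c0 u v + (if u = a then ∑ w, c0 v w else 0) +
    (if v = a then ∑ w, c0 u w else 0), fun u v => by beta_reduce; rw [s0]; ring, fun u v => ?_,
    fun u => ?_⟩
  · beta_reduce
    have ha : ∑ w, c0 a w = 0 := by_contra fun k => ((sS a).1 k).ne rfl
    by_cases hu : u = a
    · subst hu
      rw [e2 u v fun k => k.1 rfl, ha, if_pos rfl, ite_self, zero_add, add_zero, sS]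
    · by_cases hv : v = a
      · subst hv
        rw [e2 u v fun k => k.2.1 rfl, if_neg hu, if_pos rfl, zero_add, zero_add, sS, G.adj_comm]
      · rw [if_neg hu, if_neg hv, add_zero, add_zero]
        exact ⟨fun k => by_contra fun k' => k (e2 _ _ fun k'' => k' k''.2.2), fun k => by
          rw [e1 ⟨(⟨u, hu⟩, ⟨v, hv⟩), k⟩]
          exact hc.nz _ (by simp)⟩
  · rw [Finset.sum_add_distrib, Finset.sum_add_distrib, Finset.sum_ite_eq', if_pos (Finset.mem_univ _),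
      Finset.sum_ite_irrel, tot, Finset.sum_const_zero, ite_self, add_zero, k4_add_self]

/-- the final statement -/
theorem apex_flow (hM : MainF) {V : Type} [Fintype V] (G : SimpleGraph V) (a : V)
    (hp : IsPlanar (G.induce {v | v ≠ a})) (hg : 6 ≤ (G.induce {v | v ≠ a}).egirth)
    (hd : ∀ v, v ≠ a → 3 ≤ (G.neighborSet v).ncard ∨
      (2 ≤ (G.neighborSet v).ncard ∧ G.Adj a v)) :
    ∃ f : V → V → ℤ, (∀ u v, f v u = - f u v) ∧ (∀ u v, ¬ G.Adj u v → f u v = 0) ∧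
      (∀ u v, G.Adj u v → 0 < |f u v| ∧ |f u v| < 4) ∧ ∀ u, ∑ v, f u v = 0 := by
  obtain ⟨F, F1, F2, F3⟩ := k4_flow hM G a hp hg hd
  obtain ⟨f, f1, f2, f3, f4⟩ := int_flow F F1 (fun u => by_contra fun k => ((F2 u u).1 k).ne rfl) F3
  exact ⟨f, f1, fun u v h => f2 u v (by_contra fun k => h ((F2 u v).1 k)),
    fun u v h => f3 u v ((F2 u v).2 h), f4⟩

end Pool.Agent.Lib.G6.F
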