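import Pool.Agent.Lib.G6.Defs
import Pool.Agent.Lib.MP_bfaad3_co.Basic

set_option autoImplicit false

/-! Hereditary sparsity of plane maps of girth at least six. -/

namespace Pool.Agent.Lib.G6.F

open Equiv Pool.Agent.Lib.MP_bfaad3_co

variable {D : Type}

/-- hereditary sparsity: a set of edges at least as large as a set of vertices covering it
satisfies the Euler bound for girth six -/
def Sp (σ α : Perm D) : Prop :=
  ∀ I R : Set D, (∀ x ∈ I, α x ∈ I) → I.Nonempty → (∀ x ∈ I, ∃ r ∈ R, σ.SameCycle r x) →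
    2 * R.ncard ≤ I.ncard → I.ncard + 6 ≤ 3 * R.ncard

/-- every closed walk of length at most five backtracks -/
def NB (σ α : Perm D) : Prop :=
  ∀ (n : ℕ) (c : ℕ → D), 0 < n → n ≤ 5 → (∀ i, c (i + n) = c i) →
    (∀ i, σ.SameCycle (α (c i)) (c (i + 1))) → ∃ i, c (i + 1) = α (c i)

theorem cyc_le {T : Type} [Finite T] (π : Perm T) (k : ℕ)
    (h : ∀ x, k ≤ Function.minimalPeriod π x) : k * cyc π ≤ Nat.card T := by
  have : Fintype T := Fintype.ofFinite T
  have h1 : ((k * cyc π : ℕ) : ℚ) ≤ (Nat.card T : ℕ) := by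
    push_cast
    rw [perm_cyc_sum, Finset.mul_sum, Nat.card_eq_fintype_card, Fintype.card_eq_sum_ones]
    push_cast
    refine Finset.sum_le_sum fun x _ => ?_
    have hp : (0 : ℚ) < Function.minimalPeriod π x := by exact_mod_cast bas_pos π x
    rw [mul_one_div, div_le_one hp]
    exact_mod_cast h x
  exact_mod_cast h1

theorem le_period {T : Type} [Finite T] (π : Perm T) (k : ℕ) (x : T)
    (h : ∀ n, 0 < n → n < k → (π ^ n) x ≠ x) : k ≤ Function.minimalPeriod π x := by
  by_contra hc
  refine h _ (bas_pos π x) (not_le.1 hc) ?_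
  have := bas_per π x 0
  simpa using this

theorem sp_of [Finite D] (σ α : Perm D) (hi : ∀ x, α (α x) = x) (hf : ∀ x, α x ≠ x)
    (h0 : Gen0 σ α) (hg : NB σ α) : Sp σ α := by
  classical
  intro I
  induction hn : I.ncard using Nat.strong_induction_on generalizing I with
  | _ n ih =>
  intro R hI hne hR h2
  subst hn
  by_cases hA : ∃ d ∈ I, ∀ e ∈ I, σ.SameCycle d e → e = d
  · obtain ⟨d, hd, hd1⟩ := hA
    obtain ⟨r0, hr0, hr0d⟩ := hR d hd
    obtain ⟨r1, hr1, hr1d⟩ := hR (α d) (hI d hd)
    have h01 : r1 ≠ r0 := by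
      rintro rfl
      exact hf d (hd1 _ (hI d hd) (hr0d.symm.trans hr1d))
    have hc1 : (I \ {d, α d}).ncard + 2 = I.ncard := by
      have hs : ({d, α d} : Set D) ⊆ I := by
        rintro x (rfl | rfl)
        · exact hd
        · exact hI _ hd
      have := Set.ncard_sdiff_add_ncard_of_subset hs
      rwa [Set.ncard_pair (hf d).symm] at this
    have hc2 : (R \ {r0}).ncard + 1 = R.ncard := Set.ncard_sdiff_singleton_add_one hr0
    have hc3 : 0 < (R \ {r0}).ncard :=
      (Set.ncard_pos (Set.toFinite _)).2 ⟨r1, hr1, h01⟩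
    have := ih _ (by omega) (I \ {d, α d}) rfl (R \ {r0}) ?_ ?_ ?_ (by omega)
    · omega
    · rintro x ⟨hx, hx2⟩
      refine ⟨hI x hx, ?_⟩
      rintro (h | h)
      · exact hx2 (Or.inr (by rw [← h, hi]; rfl))
      · exact hx2 (Or.inl (α.injective h))
    · rw [← Set.ncard_pos (Set.toFinite _)]
      omega
    · rintro x ⟨hx, hx2⟩
      obtain ⟨r, hr, hrx⟩ := hR x hx
      refine ⟨r, ⟨hr, ?_⟩, hrx⟩
      rintro rfl
      exact hx2 (Or.inl (hd1 x hx (hr0d.symm.trans hrx)))
  · push Not at hA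
    obtain ⟨t, t0, tβ, tP, tc⟩ := min_step3 α (Quotient.mk (Perm.SameCycle.setoid σ)) I _ σ rfl h0
      (fun d => Quotient.sound (perm_sc_step σ d).symm)
    have ht : ∀ d, t d ∈ I ↔ d ∈ I := by
      intro d
      constructor
      · intro h
        by_contra hc
        rw [tP d hc] at h
        exact hc h
      · intro h
        by_contra hc
        have := t.injective (tP _ hc)
        rw [this] at hc
        exact hc h
    have ha : ∀ d, α d ∈ I ↔ d ∈ I := fun d => ⟨fun h => by simpa [hi] using hI _ h, hI d⟩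
    have g := gen0_sub t α t0 (· ∈ I) ht ha
    set t' := t.subtypePerm (p := (· ∈ I)) ht with ht'
    set a' := α.subtypePerm (p := (· ∈ I)) ha with ha'
    have c0 : Nat.card {d // d ∈ I} = I.ncard := Nat.card_coe_set_eq I
    have c1 : 0 < comp t' a' := by
      obtain ⟨x, hx⟩ := hne
      have : Nonempty (Quotient (conn t' a')) := ⟨Quotient.mk _ ⟨x, hx⟩⟩
      exact Nat.card_pos
    have c2 : cyc t' ≤ R.ncard := by
      choose ρ hρ1 hρ2 using hR
      rw [← Nat.card_coe_set_eq]
      refine Nat.card_le_card_of_injective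
        (fun q : Quotient (Perm.SameCycle.setoid t') =>
          (⟨ρ q.out.1 q.out.2, hρ1 _ _⟩ : R)) fun q1 q2 h => ?_
      have h1 : ρ q1.out.1 q1.out.2 = ρ q2.out.1 q2.out.2 := congrArg Subtype.val h
      have h2 : σ.SameCycle q1.out.1 q2.out.1 :=
        (hρ2 _ q1.out.2).symm.trans (h1 ▸ hρ2 _ q2.out.2)
      have h3 : t'.SameCycle q1.out q2.out :=
        Perm.sameCycle_subtypePerm.2 (tc _ _ q1.out.2 q2.out.2 h2)
      rw [← q1.out_eq, ← q2.out_eq]
      exact Quotient.sound h3
    have c3 : 2 * cyc a' ≤ Nat.card {d // d ∈ I} := by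
      refine cyc_le a' 2 fun x => le_period _ _ _ fun n h1 h2 h => ?_
      obtain rfl : n = 1 := by omega
      exact hf x.1 (congrArg Subtype.val h)
    have c4 : 6 * cyc (t' * a') ≤ Nat.card {d // d ∈ I} := by
      refine cyc_le _ 6 fun x => le_period _ _ _ fun n h1 h2 h => ?_
      have hs : ∀ i, (((t' * a') ^ (i + 1)) x).1 = t (α (((t' * a') ^ i) x).1) := by
        intro i
        rw [bas_succ]
        rfl
      obtain ⟨i, hi'⟩ := hg n (fun i => (((t' * a') ^ i) x).1) h1 (by omega)
        (fun i => by rw [pow_add, Perm.mul_apply, h])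
        (fun i => by
          rw [hs]
          exact (Quotient.exact (tβ _)).symm)
      rw [hs] at hi'
      have hy : α (((t' * a') ^ i) x).1 ∈ I := hI _ (((t' * a') ^ i) x).2
      obtain ⟨e, he, he1, he2⟩ := hA _ hy
      exact he2 ((tc _ _ hy he he1).eq_of_left hi').symm
    unfold Gen0 at g
    omega

end Pool.Agent.Lib.G6.F
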