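import Pool.Agent.Lib.G6.FJ

set_option autoImplicit false

/-! Splitting a vertex of degree at least four into two vertices joined by a new edge. -/

namespace Pool.Agent.Lib.G6.F

open Equiv Pool.Agent.Lib.MP_bfaad3_co Sum

variable {D : Type}

/-- `(s, a)` arises from `(σ, α)` by splitting the vertex of `x` -/
structure Spl (σ α : Perm D) (x y : D) (s a : Perm (D ⊕ Bool)) : Prop where
  hy : σ y = x
  h2 : σ (σ x) ≠ x
  h3 : σ (σ (σ x)) ≠ x
  s1 : s (inl (σ x)) = inr false
  s2 : s (inl y) = inr true
  s3 : ∀ u, u ≠ σ x → u ≠ y → s (inl u) = inl (σ u)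
  s4 : s (inr false) = inl x
  s5 : s (inr true) = inl (σ (σ x))
  a1 : ∀ u, a (inl u) = inl (α u)
  a2 : a (inr false) = inr true
  a3 : a (inr true) = inr false

theorem spl_ex (σ α : Perm D) (x : D) (h2 : σ (σ x) ≠ x) (h3 : σ (σ (σ x)) ≠ x) :
    ∃ y s a, Spl σ α x y s a := by
  classical
  obtain ⟨y, hy⟩ := σ.surjective x
  have h1 : y ≠ σ x := fun h => h2 (by rw [← h, hy])
  refine ⟨y, Perm.sumCongr σ 1 * swap (inl (σ x)) (inr false) * swap (inl y) (inr true) *
    swap (inr false) (inr true), Perm.sumCongr α (swap false true), hy, h2, h3, ?_, ?_,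
    fun u k1 k2 => ?_, ?_, ?_, fun u => rfl, by simp, by simp⟩
  · simp [swap_apply_def, h1.symm]
  · simp [swap_apply_def]
  · simp [swap_apply_def, k1, k2]
  · simp [swap_apply_def, h1, hy]
  · simp [swap_apply_def]

variable [Finite D] {σ α : Perm D} {x y : D} {s a : Perm (D ⊕ Bool)}

/-- a labelling invariant under `c` bounds the number of cycles from below -/
theorem le_cyc {T W : Type} [Finite T] (c : Perm T) (F : T → W) (h : ∀ t, F (c t) = F t)
    (hF : Function.Surjective F) : Nat.card W ≤ cyc c := by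
  refine Nat.card_le_card_of_surjective
    (Quotient.lift (s := Perm.SameCycle.setoid c) F fun u v huv => (min_lab' c F h huv).symm)
    fun w => ?_
  obtain ⟨t, rfl⟩ := hF w
  exact ⟨Quotient.mk _ t, rfl⟩

omit [Finite D] in
theorem Spl.h1 (h : Spl σ α x y s a) : σ x ≠ x := fun k => h.h2 (by rw [k, k])

omit [Finite D] in
theorem Spl.xy (h : Spl σ α x y s a) : x ≠ y := fun k => h.h1 (by rw [k, h.hy, ← k])

omit [Finite D] in
theorem Spl.sx (h : Spl σ α x y s a) : s (inl x) = inl (σ x) := h.s3 x h.h1.symm h.xy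

omit [Finite D] in
theorem Spl.tri (h : Spl σ α x y s a) (z : D ⊕ Bool) :
    s z ∈ ({inl x, inl (σ x), inr false} : Set (D ⊕ Bool)) ↔
      z ∈ ({inl x, inl (σ x), inr false} : Set (D ⊕ Bool)) := by
  constructor
  · rintro (k | k | k)
    · exact Or.inr (Or.inr (s.injective (k.trans h.s4.symm)))
    · exact Or.inl (s.injective (k.trans h.sx.symm))
    · exact Or.inr (Or.inl (s.injective (k.trans h.s1.symm)))
  · rintro (rfl | rfl | rfl)
    · exact Or.inr (Or.inl h.sx)
    · exact Or.inr (Or.inr h.s1)
    · exact Or.inl h.s4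

omit [Finite D] in
theorem Spl.step (h : Spl σ α x y s a) (z : D ⊕ Bool) :
    σ.SameCycle (Sum.elim id (fun _ => x) z) (Sum.elim id (fun _ => x) (s z)) := by
  rcases z with u | _ | _
  · by_cases k1 : u = σ x
    · rw [k1, h.s1]
      exact (perm_sc_step σ x).symm
    · by_cases k2 : u = y
      · rw [k2, h.s2]
        have := perm_sc_step σ y
        rwa [h.hy] at this
      · rw [h.s3 u k1 k2]
        exact perm_sc_step σ u
  · rw [h.s4]
    exact Perm.SameCycle.refl _ _
  · rw [h.s5]
    exact (perm_sc_step σ x).trans (perm_sc_step σ _)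

theorem Spl.proj (h : Spl σ α x y s a) {z w : D ⊕ Bool} (k : s.SameCycle z w) :
    σ.SameCycle (Sum.elim id (fun _ => x) z) (Sum.elim id (fun _ => x) w) :=
  perm_sc_le (s := Setoid.comap (Sum.elim id (fun _ => x)) (Perm.SameCycle.setoid σ)) h.step k

theorem Spl.npq (h : Spl σ α x y s a) : ¬ s.SameCycle (inr false) (inr true) := by
  intro k
  have := min_lab' s (fun z => z ∈ ({inl x, inl (σ x), inr false} : Set (D ⊕ Bool)))
    (fun z => propext (h.tri z)) k
  simp at this

theorem Spl.cyc_s (h : Spl σ α x y s a) : cyc σ + 1 ≤ cyc s := by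
  classical
  have := le_cyc s (fun z => if z ∈ ({inl x, inl (σ x), inr false} : Set (D ⊕ Bool)) then none else
    some (Quotient.mk (Perm.SameCycle.setoid σ) (Sum.elim id (fun _ => x) z))) (fun z => by
      simp only [h.tri z]
      rw [Quotient.sound (s := Perm.SameCycle.setoid σ) (h.step z)]) (by
      rintro (_ | q)
      · exact ⟨inr false, by simp⟩
      · obtain ⟨u, rfl⟩ := Quotient.exists_rep q
        by_cases k : u = x ∨ u = σ x
        · refine ⟨inr true, ?_⟩
          simp only
          rw [if_neg (by simp)]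
          refine congrArg some (Quotient.sound ?_)
          rcases k with rfl | rfl
          · exact Perm.SameCycle.refl _ _
          · exact perm_sc_step σ x
        · refine ⟨inl u, ?_⟩
          simp only
          rw [if_neg (by simpa using k)]
          rfl)
  rwa [Finite.card_option] at this

theorem Spl.gen (h : Spl σ α x y s a) (h0 : Gen0 σ α) : Gen0 s a := by
  have c0 : Nat.card (D ⊕ Bool) = Nat.card D + 2 := by simp
  have c1 := h.cyc_s
  have c2 : cyc α + 1 ≤ cyc a := by
    have := le_cyc a (Sum.elim (fun u => some (Quotient.mk (Perm.SameCycle.setoid α) u))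
      (fun _ => none)) (by
        rintro (u | _ | _)
        · rw [h.a1]
          exact congrArg some (Quotient.sound (perm_sc_step α u).symm)
        · rw [h.a2]
          rfl
        · rw [h.a3]
          rfl) (by
        rintro (_ | q)
        · exact ⟨inr false, rfl⟩
        · obtain ⟨u, rfl⟩ := Quotient.exists_rep q
          exact ⟨inl u, rfl⟩)
    rwa [Finite.card_option] at this
  have c3 : cyc (σ * α) ≤ cyc (s * a) := by
    refine le_cyc (s * a) (fun z => Quotient.mk (Perm.SameCycle.setoid (σ * α))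
      (Sum.elim id (fun b => cond b x (σ (σ x))) z)) ?_ ?_
    · rintro (u | _ | _)
      · refine Quotient.sound (Perm.SameCycle.symm ?_)
        have k := perm_sc_step (σ * α) u
        rw [Perm.mul_apply] at k
        rw [Perm.mul_apply, h.a1]
        by_cases k1 : α u = σ x
        · rw [k1] at k
          rw [k1, h.s1]
          exact k
        · by_cases k2 : α u = y
          · rw [k2, h.hy] at k
            rw [k2, h.s2]
            exact k
          · rw [h.s3 _ k1 k2]
            exact k
      · simp only [Perm.mul_apply, h.a2, h.s5]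
        rfl
      · simp only [Perm.mul_apply, h.a3, h.s4]
        rfl
    · intro q
      obtain ⟨u, rfl⟩ := Quotient.exists_rep q
      exact ⟨inl u, rfl⟩
  have c4 : comp s a ≤ comp σ α := by
    have e1 : conn s a (inr false) (inr true) := h.a2 ▸ perm_conn_b s a _
    have e2 : conn s a (inr false) (inl x) := h.s4 ▸ perm_conn_a s a _
    refine Nat.card_le_card_of_surjective (Quotient.map (sa := conn σ α) (sb := conn s a) inl
      fun u v huv => ?_) fun q => ?_
    · refine perm_conn_le (s := Setoid.comap inl (conn s a)) (fun w => ?_) (fun w => ?_) huv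
      · change conn s a (inl w) (inl (σ w))
        have k := perm_conn_a s a (inl w)
        by_cases k1 : w = σ x
        · rw [k1, h.s1] at k
          rw [k1, ← h.s5]
          exact (conn s a).trans' k ((conn s a).trans' e1 (perm_conn_a s a _))
        · by_cases k2 : w = y
          · rw [k2, h.s2] at k
            rw [k2, h.hy]
            exact (conn s a).trans' k ((conn s a).trans' ((conn s a).symm' e1) e2)
          · rwa [h.s3 w k1 k2] at k
      · change conn s a (inl w) (inl (α w))
        rw [← h.a1]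
        exact perm_conn_b s a _
    · obtain ⟨z, rfl⟩ := Quotient.exists_rep q
      rcases z with u | _ | _
      · exact ⟨Quotient.mk _ u, rfl⟩
      · exact ⟨Quotient.mk _ x, Quotient.sound ((conn s a).symm' e2)⟩
      · exact ⟨Quotient.mk _ x, Quotient.sound ((conn s a).trans' ((conn s a).symm' e2) e1)⟩
  unfold Gen0 at h0 ⊢
  omega

omit [Finite D] in
theorem Spl.inv (h : Spl σ α x y s a) (hi : ∀ u, α (α u) = u) (z : D ⊕ Bool) : a (a z) = z := by
  rcases z with u | _ | _
  · rw [h.a1, h.a1, hi]
  · rw [h.a2, h.a3]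
  · rw [h.a3, h.a2]

omit [Finite D] in
theorem Spl.two (h : Spl σ α x y s a) {N : Set D} (h2 : ∀ u, u ∉ N → σ (σ u) ≠ u)
    (z : D ⊕ Bool) (hz : z ∉ inl '' N) : s (s z) ≠ z := by
  have y3 : σ (σ x) ≠ y := fun k => h.h3 (by rw [k, h.hy])
  have y2 : σ (σ x) ≠ σ x := fun k => h.h1 (σ.injective k)
  rcases z with u | _ | _
  · by_cases k1 : u = σ x
    · rw [k1, h.s1, h.s4]
      simpa using h.h1.symm
    · by_cases k2 : u = y
      · rw [k2, h.s2, h.s5]
        simpa using y3
      · rw [h.s3 u k1 k2]
        by_cases k3 : σ u = σ x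
        · rw [k3, h.s1]
          simp
        · by_cases k4 : σ u = y
          · rw [k4, h.s2]
            simp
          · rw [h.s3 _ k3 k4]
            simpa using h2 u fun k => hz ⟨u, k, rfl⟩
  · rw [h.s4, h.sx]
    simp
  · rw [h.s5, h.s3 _ y2 y3]
    simp

omit [Finite D] in
theorem Spl.nσ (h : Spl σ α x y s a) {N : Set D} (hN : ∀ u, σ u ∈ N ↔ u ∈ N) (hx : x ∉ N)
    (z : D ⊕ Bool) : s z ∈ inl '' N ↔ z ∈ (inl '' N : Set (D ⊕ Bool)) := by
  rcases z with u | _ | _
  · by_cases k1 : u = σ x
    · rw [k1, h.s1]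
      simp [hN, hx]
    · by_cases k2 : u = y
      · have : y ∉ N := fun k => hx (h.hy ▸ (hN y).2 k)
        rw [k2, h.s2]
        simp [this]
      · rw [h.s3 u k1 k2]
        simp [hN]
  · rw [h.s4]
    simp [hx]
  · rw [h.s5]
    simp [hN, hx]

theorem Spl.sp (h : Spl σ α x y s a) (hs : Sp σ α) : Sp s a := by
  intro I R hI hne hR h2
  have hcl : ∀ u ∈ (inl ⁻¹' I : Set D), α u ∈ (inl ⁻¹' I : Set D) := fun u hu => by
    have := hI _ hu
    rwa [h.a1] at this
  have hc0 : (inl '' (inl ⁻¹' I : Set D) : Set (D ⊕ Bool)).ncard = (inl ⁻¹' I : Set D).ncard :=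
    Set.ncard_image_of_injective _ inl_injective
  by_cases hp : inr false ∈ I
  · have hq : inr true ∈ I := h.a2 ▸ hI _ hp
    obtain ⟨r1, hr1, k1⟩ := hR _ hp
    obtain ⟨r2, hr2, k2⟩ := hR _ hq
    have h12 : r1 ≠ r2 := by
      rintro rfl
      exact h.npq (k1.symm.trans k2)
    have hc1 : I.ncard ≤ (inl ⁻¹' I : Set D).ncard + 2 := by
      have hsub : I ⊆ inl '' (inl ⁻¹' I : Set D) ∪ {inr false, inr true} := by
        rintro (u | _ | _) hu
        · exact Or.inl ⟨u, hu, rfl⟩
        · simp
        · simp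
      have k3 := Set.ncard_le_ncard hsub
      have k4 := Set.ncard_union_le (inl '' (inl ⁻¹' I : Set D) : Set (D ⊕ Bool))
        {inr false, inr true}
      rw [Set.ncard_pair (by simp)] at k4
      omega
    have hc2 : (R \ {r2}).ncard + 1 = R.ncard := Set.ncard_sdiff_singleton_add_one hr2
    have hc3 : 0 < (R \ {r2}).ncard := (Set.ncard_pos (Set.toFinite _)).2 ⟨r1, hr1, h12⟩
    have hc4 : (Sum.elim id (fun _ => x) '' (R \ {r2})).ncard ≤ (R \ {r2}).ncard :=
      Set.ncard_image_le
    have := hs _ (Sum.elim id (fun _ => x) '' (R \ {r2})) hcl (by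
      rw [← Set.ncard_pos (Set.toFinite _)]
      omega) (by
      intro u hu
      obtain ⟨r, hr, k⟩ := hR _ hu
      by_cases e : r = r2
      · subst e
        exact ⟨_, ⟨r1, ⟨hr1, h12⟩, rfl⟩, (h.proj k1).trans ((h.proj k2).symm.trans (h.proj k))⟩
      · exact ⟨_, ⟨r, ⟨hr, e⟩, rfl⟩, h.proj k⟩) (by omega)
    omega
  · have hq : inr true ∉ I := fun k => hp (h.a3 ▸ hI _ k)
    have hc1 : inl '' (inl ⁻¹' I : Set D) = I := by
      ext z
      constructor
      · rintro ⟨u, hu, rfl⟩
        exact hu
      · rcases z with u | _ | _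
        · exact fun hu => ⟨u, hu, rfl⟩
        · exact fun k => absurd k hp
        · exact fun k => absurd k hq
    rw [hc1] at hc0
    have hc3 := (Set.ncard_pos (Set.toFinite I)).2 hne
    have hc4 : (Sum.elim id (fun _ => x) '' R).ncard ≤ R.ncard := Set.ncard_image_le
    have := hs _ (Sum.elim id (fun _ => x) '' R) hcl (by
      rw [← Set.ncard_pos (Set.toFinite _)]
      omega) (by
      intro u hu
      obtain ⟨r, hr, k⟩ := hR _ hu
      exact ⟨_, ⟨r, hr, rfl⟩, h.proj k⟩) (by omega)
    omega

end Pool.Agent.Lib.G6.F
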