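import Pool.Agent.Lib.G6.All

set_option autoImplicit false
set_option maxRecDepth 100000
set_option linter.unusedSimpArgs false
set_option linter.unusedTactic false
set_option linter.unreachableTactic false

/-! The checkers with the small definitions unfolded. -/

namespace Pool.Agent.Lib.G6

open Pool.Agent.Lib.MP_bfaad3_co (frc sel cj dj tb sb BT frc_eq BT.get)

noncomputable section

/-- equality -/
def Sm {α : Type} (f g : α) : Prop := f = g

theorem fs_pred (n : ℕ) : Nat.pred n = Nat.sub n 1 := rfl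
theorem fs_blt (a b : ℕ) : Nat.blt a b = Nat.ble (Nat.succ a) b := rfl
theorem fs_t {α : Type} (t f : α) : sel true t f = t := rfl
theorem fs_f {α : Type} (t f : α) : sel false t f = f := rfl
theorem fs_mtc (m : ℕ) (o : Bool) (n c d : ℕ) :
    mtc m o n c d = sel o (mtc m true n c d) (mtc m false n c d) := by cases o <;> rfl

def btF (α : Type) : BT α → ℕ → α := by
  apply (?F : (g : _) → Sm (@BT.get α) g → _)
  case F => exact fun g _ => g
  unfold BT.get
  simp -iota -failIfUnchanged only [frc_eq]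
  dsimp -iota -failIfUnchanged +unfoldPartialApp only [sel, cj, dj, tb, sb, fld, nx, pv, al, eqd, VM, FM, AM, ZB, NB, TB, byt, mn, ph, phi, getV, getF, cel, put, tstA, tstV, tstF, kof, off, up3, w24, low, hig, dart, slt, go, fo, fw, tmk, fl, clsX, capn, may2, sure2, degX, lenX, xcl, top10, Rule.s, setL, setE, cpL, extA, cmpZ, extF, extB, nearN, fs_pred, fs_blt, enx, epv, eal, egap, eN, gm, ecel, eset, etog, elnk, enewN, enewZ, inS, mu]
  exact Eq.refl _
theorem btF_e (α : Type) : @BT.get α = btF α := by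
  change Sm _ _
  unfold BT.get
  simp -iota -failIfUnchanged only [frc_eq]
  dsimp -iota -failIfUnchanged +unfoldPartialApp only [sel, cj, dj, tb, sb, fld, nx, pv, al, eqd, VM, FM, AM, ZB, NB, TB, byt, mn, ph, phi, getV, getF, cel, put, tstA, tstV, tstF, kof, off, up3, w24, low, hig, dart, slt, go, fo, fw, tmk, fl, clsX, capn, may2, sure2, degX, lenX, xcl, top10, Rule.s, setL, setE, cpL, extA, cmpZ, extF, extB, nearN, fs_pred, fs_blt, enx, epv, eal, egap, eN, gm, ecel, eset, etog, elnk, enewN, enewZ, inS, mu]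
  exact Eq.refl _

def walkF : ℕ → W → ℕ → ℕ := by
  apply (?F : (g : _) → Sm (walk) g → _)
  case F => exact fun g _ => g
  unfold walk
  simp -iota -failIfUnchanged only [frc_eq, btF_e]
  dsimp -iota -failIfUnchanged +unfoldPartialApp only [sel, cj, dj, tb, sb, fld, nx, pv, al, eqd, VM, FM, AM, ZB, NB, TB, byt, mn, ph, phi, getV, getF, cel, put, tstA, tstV, tstF, kof, off, up3, w24, low, hig, dart, slt, go, fo, fw, tmk, fl, clsX, capn, may2, sure2, degX, lenX, xcl, top10, Rule.s, setL, setE, cpL, extA, cmpZ, extF, extB, nearN, fs_pred, fs_blt, enx, epv, eal, egap, eN, gm, ecel, eset, etog, elnk, enewN, enewZ, inS, mu]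
  exact Eq.refl _
theorem walkF_e : walk = walkF := by
  change Sm _ _
  unfold walk
  simp -iota -failIfUnchanged only [frc_eq, btF_e]
  dsimp -iota -failIfUnchanged +unfoldPartialApp only [sel, cj, dj, tb, sb, fld, nx, pv, al, eqd, VM, FM, AM, ZB, NB, TB, byt, mn, ph, phi, getV, getF, cel, put, tstA, tstV, tstF, kof, off, up3, w24, low, hig, dart, slt, go, fo, fw, tmk, fl, clsX, capn, may2, sure2, degX, lenX, xcl, top10, Rule.s, setL, setE, cpL, extA, cmpZ, extF, extB, nearN, fs_pred, fs_blt, enx, epv, eal, egap, eN, gm, ecel, eset, etog, elnk, enewN, enewZ, inS, mu]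
  exact Eq.refl _

def evMaxF : ℕ → Prog → ℕ → ℕ → ℕ := by
  apply (?F : (g : _) → Sm (evMax) g → _)
  case F => exact fun g _ => g
  unfold evMax
  simp -iota -failIfUnchanged only [frc_eq, btF_e, walkF_e]
  dsimp -iota -failIfUnchanged +unfoldPartialApp only [sel, cj, dj, tb, sb, fld, nx, pv, al, eqd, VM, FM, AM, ZB, NB, TB, byt, mn, ph, phi, getV, getF, cel, put, tstA, tstV, tstF, kof, off, up3, w24, low, hig, dart, slt, go, fo, fw, tmk, fl, clsX, capn, may2, sure2, degX, lenX, xcl, top10, Rule.s, setL, setE, cpL, extA, cmpZ, extF, extB, nearN, fs_pred, fs_blt, enx, epv, eal, egap, eN, gm, ecel, eset, etog, elnk, enewN, enewZ, inS, mu]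
  exact Eq.refl _
theorem evMaxF_e : evMax = evMaxF := by
  change Sm _ _
  unfold evMax
  simp -iota -failIfUnchanged only [frc_eq, btF_e, walkF_e]
  dsimp -iota -failIfUnchanged +unfoldPartialApp only [sel, cj, dj, tb, sb, fld, nx, pv, al, eqd, VM, FM, AM, ZB, NB, TB, byt, mn, ph, phi, getV, getF, cel, put, tstA, tstV, tstF, kof, off, up3, w24, low, hig, dart, slt, go, fo, fw, tmk, fl, clsX, capn, may2, sure2, degX, lenX, xcl, top10, Rule.s, setL, setE, cpL, extA, cmpZ, extF, extB, nearN, fs_pred, fs_blt, enx, epv, eal, egap, eN, gm, ecel, eset, etog, elnk, enewN, enewZ, inS, mu]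
  exact Eq.refl _

def evMinF : ℕ → ℕ → Prog → ℕ → ℕ → ℕ := by
  apply (?F : (g : _) → Sm (evMin) g → _)
  case F => exact fun g _ => g
  unfold evMin
  simp -iota -failIfUnchanged only [frc_eq, btF_e, walkF_e, evMaxF_e]
  dsimp -iota -failIfUnchanged +unfoldPartialApp only [sel, cj, dj, tb, sb, fld, nx, pv, al, eqd, VM, FM, AM, ZB, NB, TB, byt, mn, ph, phi, getV, getF, cel, put, tstA, tstV, tstF, kof, off, up3, w24, low, hig, dart, slt, go, fo, fw, tmk, fl, clsX, capn, may2, sure2, degX, lenX, xcl, top10, Rule.s, setL, setE, cpL, extA, cmpZ, extF, extB, nearN, fs_pred, fs_blt, enx, epv, eal, egap, eN, gm, ecel, eset, etog, elnk, enewN, enewZ, inS, mu]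
  exact Eq.refl _
theorem evMinF_e : evMin = evMinF := by
  change Sm _ _
  unfold evMin
  simp -iota -failIfUnchanged only [frc_eq, btF_e, walkF_e, evMaxF_e]
  dsimp -iota -failIfUnchanged +unfoldPartialApp only [sel, cj, dj, tb, sb, fld, nx, pv, al, eqd, VM, FM, AM, ZB, NB, TB, byt, mn, ph, phi, getV, getF, cel, put, tstA, tstV, tstF, kof, off, up3, w24, low, hig, dart, slt, go, fo, fw, tmk, fl, clsX, capn, may2, sure2, degX, lenX, xcl, top10, Rule.s, setL, setE, cpL, extA, cmpZ, extF, extB, nearN, fs_pred, fs_blt, enx, epv, eal, egap, eN, gm, ecel, eset, etog, elnk, enewN, enewZ, inS, mu]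
  exact Eq.refl _

def itrF : (ℕ → ℕ) → ℕ → ℕ → ℕ := by
  apply (?F : (g : _) → Sm (itr) g → _)
  case F => exact fun g _ => g
  unfold itr
  simp -iota -failIfUnchanged only [frc_eq, btF_e, walkF_e, evMaxF_e, evMinF_e]
  dsimp -iota -failIfUnchanged +unfoldPartialApp only [sel, cj, dj, tb, sb, fld, nx, pv, al, eqd, VM, FM, AM, ZB, NB, TB, byt, mn, ph, phi, getV, getF, cel, put, tstA, tstV, tstF, kof, off, up3, w24, low, hig, dart, slt, go, fo, fw, tmk, fl, clsX, capn, may2, sure2, degX, lenX, xcl, top10, Rule.s, setL, setE, cpL, extA, cmpZ, extF, extB, nearN, fs_pred, fs_blt, enx, epv, eal, egap, eN, gm, ecel, eset, etog, elnk, enewN, enewZ, inS, mu]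
  exact Eq.refl _
theorem itrF_e : itr = itrF := by
  change Sm _ _
  unfold itr
  simp -iota -failIfUnchanged only [frc_eq, btF_e, walkF_e, evMaxF_e, evMinF_e]
  dsimp -iota -failIfUnchanged +unfoldPartialApp only [sel, cj, dj, tb, sb, fld, nx, pv, al, eqd, VM, FM, AM, ZB, NB, TB, byt, mn, ph, phi, getV, getF, cel, put, tstA, tstV, tstF, kof, off, up3, w24, low, hig, dart, slt, go, fo, fw, tmk, fl, clsX, capn, may2, sure2, degX, lenX, xcl, top10, Rule.s, setL, setE, cpL, extA, cmpZ, extF, extB, nearN, fs_pred, fs_blt, enx, epv, eal, egap, eN, gm, ecel, eset, etog, elnk, enewN, enewZ, inS, mu]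
  exact Eq.refl _

def cmV : ℕ → ℕ → ℕ := by
  apply (?F : (g : _) → Sm ((fun m d => cm (nx m) (pv m) d)) g → _)
  case F => exact fun g _ => g
  unfold cm cmB
  simp -iota -failIfUnchanged only [frc_eq, btF_e, walkF_e, evMaxF_e, evMinF_e, itrF_e]
  dsimp -iota -failIfUnchanged +unfoldPartialApp only [sel, cj, dj, tb, sb, fld, nx, pv, al, eqd, VM, FM, AM, ZB, NB, TB, byt, mn, ph, phi, getV, getF, cel, put, tstA, tstV, tstF, kof, off, up3, w24, low, hig, dart, slt, go, fo, fw, tmk, fl, clsX, capn, may2, sure2, degX, lenX, xcl, top10, Rule.s, setL, setE, cpL, extA, cmpZ, extF, extB, nearN, fs_pred, fs_blt, enx, epv, eal, egap, eN, gm, ecel, eset, etog, elnk, enewN, enewZ, inS, mu]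
  exact Eq.refl _
theorem cmV_e : (fun m d => cm (nx m) (pv m) d) = cmV := by
  change Sm _ _
  unfold cm cmB
  simp -iota -failIfUnchanged only [frc_eq, btF_e, walkF_e, evMaxF_e, evMinF_e, itrF_e]
  dsimp -iota -failIfUnchanged +unfoldPartialApp only [sel, cj, dj, tb, sb, fld, nx, pv, al, eqd, VM, FM, AM, ZB, NB, TB, byt, mn, ph, phi, getV, getF, cel, put, tstA, tstV, tstF, kof, off, up3, w24, low, hig, dart, slt, go, fo, fw, tmk, fl, clsX, capn, may2, sure2, degX, lenX, xcl, top10, Rule.s, setL, setE, cpL, extA, cmpZ, extF, extB, nearN, fs_pred, fs_blt, enx, epv, eal, egap, eN, gm, ecel, eset, etog, elnk, enewN, enewZ, inS, mu]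
  exact Eq.refl _
theorem cmV_eq (m d : ℕ) : cm (nx m) (pv m) d = cmV m d := by
  rw [← cmV_e]

def cmF : ℕ → ℕ → ℕ := by
  apply (?F : (g : _) → Sm ((fun m d => cm (ph m) (phi m) d)) g → _)
  case F => exact fun g _ => g
  unfold cm cmB
  simp -iota -failIfUnchanged only [frc_eq, btF_e, walkF_e, evMaxF_e, evMinF_e, itrF_e, cmV_eq]
  dsimp -iota -failIfUnchanged +unfoldPartialApp only [sel, cj, dj, tb, sb, fld, nx, pv, al, eqd, VM, FM, AM, ZB, NB, TB, byt, mn, ph, phi, getV, getF, cel, put, tstA, tstV, tstF, kof, off, up3, w24, low, hig, dart, slt, go, fo, fw, tmk, fl, clsX, capn, may2, sure2, degX, lenX, xcl, top10, Rule.s, setL, setE, cpL, extA, cmpZ, extF, extB, nearN, fs_pred, fs_blt, enx, epv, eal, egap, eN, gm, ecel, eset, etog, elnk, enewN, enewZ, inS, mu]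
  exact Eq.refl _
theorem cmF_e : (fun m d => cm (ph m) (phi m) d) = cmF := by
  change Sm _ _
  unfold cm cmB
  simp -iota -failIfUnchanged only [frc_eq, btF_e, walkF_e, evMaxF_e, evMinF_e, itrF_e, cmV_eq]
  dsimp -iota -failIfUnchanged +unfoldPartialApp only [sel, cj, dj, tb, sb, fld, nx, pv, al, eqd, VM, FM, AM, ZB, NB, TB, byt, mn, ph, phi, getV, getF, cel, put, tstA, tstV, tstF, kof, off, up3, w24, low, hig, dart, slt, go, fo, fw, tmk, fl, clsX, capn, may2, sure2, degX, lenX, xcl, top10, Rule.s, setL, setE, cpL, extA, cmpZ, extF, extB, nearN, fs_pred, fs_blt, enx, epv, eal, egap, eN, gm, ecel, eset, etog, elnk, enewN, enewZ, inS, mu]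
  exact Eq.refl _
theorem cmF_eq (m d : ℕ) : cm (ph m) (phi m) d = cmF m d := by
  rw [← cmF_e]

def relF : ℕ → ℕ → ℕ := by
  apply (?F : (g : _) → Sm (relX) g → _)
  case F => exact fun g _ => g
  unfold relX relL relQ
  simp -iota -failIfUnchanged only [frc_eq, btF_e, walkF_e, evMaxF_e, evMinF_e, itrF_e, cmV_eq, cmF_eq]
  dsimp -iota -failIfUnchanged +unfoldPartialApp only [sel, cj, dj, tb, sb, fld, nx, pv, al, eqd, VM, FM, AM, ZB, NB, TB, byt, mn, ph, phi, getV, getF, cel, put, tstA, tstV, tstF, kof, off, up3, w24, low, hig, dart, slt, go, fo, fw, tmk, fl, clsX, capn, may2, sure2, degX, lenX, xcl, top10, Rule.s, setL, setE, cpL, extA, cmpZ, extF, extB, nearN, fs_pred, fs_blt, enx, epv, eal, egap, eN, gm, ecel, eset, etog, elnk, enewN, enewZ, inS, mu]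
  exact Eq.refl _
theorem relF_e : relX = relF := by
  change Sm _ _
  unfold relX relL relQ
  simp -iota -failIfUnchanged only [frc_eq, btF_e, walkF_e, evMaxF_e, evMinF_e, itrF_e, cmV_eq, cmF_eq]
  dsimp -iota -failIfUnchanged +unfoldPartialApp only [sel, cj, dj, tb, sb, fld, nx, pv, al, eqd, VM, FM, AM, ZB, NB, TB, byt, mn, ph, phi, getV, getF, cel, put, tstA, tstV, tstF, kof, off, up3, w24, low, hig, dart, slt, go, fo, fw, tmk, fl, clsX, capn, may2, sure2, degX, lenX, xcl, top10, Rule.s, setL, setE, cpL, extA, cmpZ, extF, extB, nearN, fs_pred, fs_blt, enx, epv, eal, egap, eN, gm, ecel, eset, etog, elnk, enewN, enewZ, inS, mu]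
  exact Eq.refl _

def absF : ℕ → ℕ → ℕ → ℕ := by
  apply (?F : (g : _) → Sm (absorb) g → _)
  case F => exact fun g _ => g
  unfold absorb
  simp -iota -failIfUnchanged only [frc_eq, btF_e, walkF_e, evMaxF_e, evMinF_e, itrF_e, cmV_eq, cmF_eq, relF_e]
  dsimp -iota -failIfUnchanged +unfoldPartialApp only [sel, cj, dj, tb, sb, fld, nx, pv, al, eqd, VM, FM, AM, ZB, NB, TB, byt, mn, ph, phi, getV, getF, cel, put, tstA, tstV, tstF, kof, off, up3, w24, low, hig, dart, slt, go, fo, fw, tmk, fl, clsX, capn, may2, sure2, degX, lenX, xcl, top10, Rule.s, setL, setE, cpL, extA, cmpZ, extF, extB, nearN, fs_pred, fs_blt, enx, epv, eal, egap, eN, gm, ecel, eset, etog, elnk, enewN, enewZ, inS, mu]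
  exact Eq.refl _
theorem absF_e : absorb = absF := by
  change Sm _ _
  unfold absorb
  simp -iota -failIfUnchanged only [frc_eq, btF_e, walkF_e, evMaxF_e, evMinF_e, itrF_e, cmV_eq, cmF_eq, relF_e]
  dsimp -iota -failIfUnchanged +unfoldPartialApp only [sel, cj, dj, tb, sb, fld, nx, pv, al, eqd, VM, FM, AM, ZB, NB, TB, byt, mn, ph, phi, getV, getF, cel, put, tstA, tstV, tstF, kof, off, up3, w24, low, hig, dart, slt, go, fo, fw, tmk, fl, clsX, capn, may2, sure2, degX, lenX, xcl, top10, Rule.s, setL, setE, cpL, extA, cmpZ, extF, extB, nearN, fs_pred, fs_blt, enx, epv, eal, egap, eN, gm, ecel, eset, etog, elnk, enewN, enewZ, inS, mu]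
  exact Eq.refl _

def ublF : Rule → ℕ → ℕ → ℕ → ℕ := by
  apply (?F : (g : _) → Sm (ubl) g → _)
  case F => exact fun g _ => g
  unfold ubl
  simp -iota -failIfUnchanged only [frc_eq, btF_e, walkF_e, evMaxF_e, evMinF_e, itrF_e, cmV_eq, cmF_eq, relF_e, absF_e]
  dsimp -iota -failIfUnchanged +unfoldPartialApp only [sel, cj, dj, tb, sb, fld, nx, pv, al, eqd, VM, FM, AM, ZB, NB, TB, byt, mn, ph, phi, getV, getF, cel, put, tstA, tstV, tstF, kof, off, up3, w24, low, hig, dart, slt, go, fo, fw, tmk, fl, clsX, capn, may2, sure2, degX, lenX, xcl, top10, Rule.s, setL, setE, cpL, extA, cmpZ, extF, extB, nearN, fs_pred, fs_blt, enx, epv, eal, egap, eN, gm, ecel, eset, etog, elnk, enewN, enewZ, inS, mu]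
  exact Eq.refl _
theorem ublF_e : ubl = ublF := by
  change Sm _ _
  unfold ubl
  simp -iota -failIfUnchanged only [frc_eq, btF_e, walkF_e, evMaxF_e, evMinF_e, itrF_e, cmV_eq, cmF_eq, relF_e, absF_e]
  dsimp -iota -failIfUnchanged +unfoldPartialApp only [sel, cj, dj, tb, sb, fld, nx, pv, al, eqd, VM, FM, AM, ZB, NB, TB, byt, mn, ph, phi, getV, getF, cel, put, tstA, tstV, tstF, kof, off, up3, w24, low, hig, dart, slt, go, fo, fw, tmk, fl, clsX, capn, may2, sure2, degX, lenX, xcl, top10, Rule.s, setL, setE, cpL, extA, cmpZ, extF, extB, nearN, fs_pred, fs_blt, enx, epv, eal, egap, eN, gm, ecel, eset, etog, elnk, enewN, enewZ, inS, mu]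
  exact Eq.refl _

def cmptF : Rule → ℕ → ℕ → ℕ → ℕ → ℕ := by
  apply (?F : (g : _) → Sm (cmpt) g → _)
  case F => exact fun g _ => g
  unfold cmpt
  simp -iota -failIfUnchanged only [frc_eq, btF_e, walkF_e, evMaxF_e, evMinF_e, itrF_e, cmV_eq, cmF_eq, relF_e, absF_e, ublF_e]
  dsimp -iota -failIfUnchanged +unfoldPartialApp only [sel, cj, dj, tb, sb, fld, nx, pv, al, eqd, VM, FM, AM, ZB, NB, TB, byt, mn, ph, phi, getV, getF, cel, put, tstA, tstV, tstF, kof, off, up3, w24, low, hig, dart, slt, go, fo, fw, tmk, fl, clsX, capn, may2, sure2, degX, lenX, xcl, top10, Rule.s, setL, setE, cpL, extA, cmpZ, extF, extB, nearN, fs_pred, fs_blt, enx, epv, eal, egap, eN, gm, ecel, eset, etog, elnk, enewN, enewZ, inS, mu]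
  exact Eq.refl _
theorem cmptF_e : cmpt = cmptF := by
  change Sm _ _
  unfold cmpt
  simp -iota -failIfUnchanged only [frc_eq, btF_e, walkF_e, evMaxF_e, evMinF_e, itrF_e, cmV_eq, cmF_eq, relF_e, absF_e, ublF_e]
  dsimp -iota -failIfUnchanged +unfoldPartialApp only [sel, cj, dj, tb, sb, fld, nx, pv, al, eqd, VM, FM, AM, ZB, NB, TB, byt, mn, ph, phi, getV, getF, cel, put, tstA, tstV, tstF, kof, off, up3, w24, low, hig, dart, slt, go, fo, fw, tmk, fl, clsX, capn, may2, sure2, degX, lenX, xcl, top10, Rule.s, setL, setE, cpL, extA, cmpZ, extF, extB, nearN, fs_pred, fs_blt, enx, epv, eal, egap, eN, gm, ecel, eset, etog, elnk, enewN, enewZ, inS, mu]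
  exact Eq.refl _

def shrF : Rule → ℕ → ℕ → ℕ → ℕ → ℕ → ℕ := by
  apply (?F : (g : _) → Sm (shr) g → _)
  case F => exact fun g _ => g
  unfold shr sumI
  simp -iota -failIfUnchanged only [frc_eq, btF_e, walkF_e, evMaxF_e, evMinF_e, itrF_e, cmV_eq, cmF_eq, relF_e, absF_e, ublF_e, cmptF_e]
  dsimp -iota -failIfUnchanged +unfoldPartialApp only [sel, cj, dj, tb, sb, fld, nx, pv, al, eqd, VM, FM, AM, ZB, NB, TB, byt, mn, ph, phi, getV, getF, cel, put, tstA, tstV, tstF, kof, off, up3, w24, low, hig, dart, slt, go, fo, fw, tmk, fl, clsX, capn, may2, sure2, degX, lenX, xcl, top10, Rule.s, setL, setE, cpL, extA, cmpZ, extF, extB, nearN, fs_pred, fs_blt, enx, epv, eal, egap, eN, gm, ecel, eset, etog, elnk, enewN, enewZ, inS, mu]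
  exact Eq.refl _
theorem shrF_e : shr = shrF := by
  change Sm _ _
  unfold shr sumI
  simp -iota -failIfUnchanged only [frc_eq, btF_e, walkF_e, evMaxF_e, evMinF_e, itrF_e, cmV_eq, cmF_eq, relF_e, absF_e, ublF_e, cmptF_e]
  dsimp -iota -failIfUnchanged +unfoldPartialApp only [sel, cj, dj, tb, sb, fld, nx, pv, al, eqd, VM, FM, AM, ZB, NB, TB, byt, mn, ph, phi, getV, getF, cel, put, tstA, tstV, tstF, kof, off, up3, w24, low, hig, dart, slt, go, fo, fw, tmk, fl, clsX, capn, may2, sure2, degX, lenX, xcl, top10, Rule.s, setL, setE, cpL, extA, cmpZ, extF, extB, nearN, fs_pred, fs_blt, enx, epv, eal, egap, eN, gm, ecel, eset, etog, elnk, enewN, enewZ, inS, mu]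
  exact Eq.refl _

def lbaF : Rule → ℕ → ℕ → ℕ → ℕ → ℕ → ℕ := by
  apply (?F : (g : _) → Sm (lba) g → _)
  case F => exact fun g _ => g
  unfold lba
  simp -iota -failIfUnchanged only [frc_eq, btF_e, walkF_e, evMaxF_e, evMinF_e, itrF_e, cmV_eq, cmF_eq, relF_e, absF_e, ublF_e, cmptF_e, shrF_e]
  dsimp -iota -failIfUnchanged +unfoldPartialApp only [sel, cj, dj, tb, sb, fld, nx, pv, al, eqd, VM, FM, AM, ZB, NB, TB, byt, mn, ph, phi, getV, getF, cel, put, tstA, tstV, tstF, kof, off, up3, w24, low, hig, dart, slt, go, fo, fw, tmk, fl, clsX, capn, may2, sure2, degX, lenX, xcl, top10, Rule.s, setL, setE, cpL, extA, cmpZ, extF, extB, nearN, fs_pred, fs_blt, enx, epv, eal, egap, eN, gm, ecel, eset, etog, elnk, enewN, enewZ, inS, mu]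
  exact Eq.refl _
theorem lbaF_e : lba = lbaF := by
  change Sm _ _
  unfold lba
  simp -iota -failIfUnchanged only [frc_eq, btF_e, walkF_e, evMaxF_e, evMinF_e, itrF_e, cmV_eq, cmF_eq, relF_e, absF_e, ublF_e, cmptF_e, shrF_e]
  dsimp -iota -failIfUnchanged +unfoldPartialApp only [sel, cj, dj, tb, sb, fld, nx, pv, al, eqd, VM, FM, AM, ZB, NB, TB, byt, mn, ph, phi, getV, getF, cel, put, tstA, tstV, tstF, kof, off, up3, w24, low, hig, dart, slt, go, fo, fw, tmk, fl, clsX, capn, may2, sure2, degX, lenX, xcl, top10, Rule.s, setL, setE, cpL, extA, cmpZ, extF, extB, nearN, fs_pred, fs_blt, enx, epv, eal, egap, eN, gm, ecel, eset, etog, elnk, enewN, enewZ, inS, mu]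
  exact Eq.refl _

def shrLF : Rule → ℕ → ℕ → ℕ → ℕ → ℕ → ℕ → Bool := by
  apply (?F : (g : _) → Sm (shrL) g → _)
  case F => exact fun g _ => g
  unfold shrL
  simp -iota -failIfUnchanged only [frc_eq, btF_e, walkF_e, evMaxF_e, evMinF_e, itrF_e, cmV_eq, cmF_eq, relF_e, absF_e, ublF_e, cmptF_e, shrF_e, lbaF_e]
  dsimp -iota -failIfUnchanged +unfoldPartialApp only [sel, cj, dj, tb, sb, fld, nx, pv, al, eqd, VM, FM, AM, ZB, NB, TB, byt, mn, ph, phi, getV, getF, cel, put, tstA, tstV, tstF, kof, off, up3, w24, low, hig, dart, slt, go, fo, fw, tmk, fl, clsX, capn, may2, sure2, degX, lenX, xcl, top10, Rule.s, setL, setE, cpL, extA, cmpZ, extF, extB, nearN, fs_pred, fs_blt, enx, epv, eal, egap, eN, gm, ecel, eset, etog, elnk, enewN, enewZ, inS, mu]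
  exact Eq.refl _
theorem shrLF_e : shrL = shrLF := by
  change Sm _ _
  unfold shrL
  simp -iota -failIfUnchanged only [frc_eq, btF_e, walkF_e, evMaxF_e, evMinF_e, itrF_e, cmV_eq, cmF_eq, relF_e, absF_e, ublF_e, cmptF_e, shrF_e, lbaF_e]
  dsimp -iota -failIfUnchanged +unfoldPartialApp only [sel, cj, dj, tb, sb, fld, nx, pv, al, eqd, VM, FM, AM, ZB, NB, TB, byt, mn, ph, phi, getV, getF, cel, put, tstA, tstV, tstF, kof, off, up3, w24, low, hig, dart, slt, go, fo, fw, tmk, fl, clsX, capn, may2, sure2, degX, lenX, xcl, top10, Rule.s, setL, setE, cpL, extA, cmpZ, extF, extB, nearN, fs_pred, fs_blt, enx, epv, eal, egap, eN, gm, ecel, eset, etog, elnk, enewN, enewZ, inS, mu]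
  exact Eq.refl _

def incF : Rule → ℕ → ℕ → Bool → (ℕ → ℕ) → ℕ → ℕ → ℕ → ℕ → ℕ → ℕ → ℕ → Bool := by
  apply (?F : (g : _) → Sm (inc) g → _)
  case F => exact fun g _ => g
  unfold inc
  simp -iota -failIfUnchanged only [frc_eq, btF_e, walkF_e, evMaxF_e, evMinF_e, itrF_e, cmV_eq, cmF_eq, relF_e, absF_e, ublF_e, cmptF_e, shrF_e, lbaF_e, shrLF_e]
  dsimp -iota -failIfUnchanged +unfoldPartialApp only [sel, cj, dj, tb, sb, fld, nx, pv, al, eqd, VM, FM, AM, ZB, NB, TB, byt, mn, ph, phi, getV, getF, cel, put, tstA, tstV, tstF, kof, off, up3, w24, low, hig, dart, slt, go, fo, fw, tmk, fl, clsX, capn, may2, sure2, degX, lenX, xcl, top10, Rule.s, setL, setE, cpL, extA, cmpZ, extF, extB, nearN, fs_pred, fs_blt, enx, epv, eal, egap, eN, gm, ecel, eset, etog, elnk, enewN, enewZ, inS, mu]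
  exact Eq.refl _
theorem incF_e : inc = incF := by
  change Sm _ _
  unfold inc
  simp -iota -failIfUnchanged only [frc_eq, btF_e, walkF_e, evMaxF_e, evMinF_e, itrF_e, cmV_eq, cmF_eq, relF_e, absF_e, ublF_e, cmptF_e, shrF_e, lbaF_e, shrLF_e]
  dsimp -iota -failIfUnchanged +unfoldPartialApp only [sel, cj, dj, tb, sb, fld, nx, pv, al, eqd, VM, FM, AM, ZB, NB, TB, byt, mn, ph, phi, getV, getF, cel, put, tstA, tstV, tstF, kof, off, up3, w24, low, hig, dart, slt, go, fo, fw, tmk, fl, clsX, capn, may2, sure2, degX, lenX, xcl, top10, Rule.s, setL, setE, cpL, extA, cmpZ, extF, extB, nearN, fs_pred, fs_blt, enx, epv, eal, egap, eN, gm, ecel, eset, etog, elnk, enewN, enewZ, inS, mu]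
  exact Eq.refl _

def bndVF : Rule → ℕ → ℕ → ℕ → ℕ → ℕ → Bool := by
  apply (?F : (g : _) → Sm (bndV) g → _)
  case F => exact fun g _ => g
  unfold bndV sumI
  simp -iota -failIfUnchanged only [frc_eq, btF_e, walkF_e, evMaxF_e, evMinF_e, itrF_e, cmV_eq, cmF_eq, relF_e, absF_e, ublF_e, cmptF_e, shrF_e, lbaF_e, shrLF_e, incF_e]
  dsimp -iota -failIfUnchanged +unfoldPartialApp only [sel, cj, dj, tb, sb, fld, nx, pv, al, eqd, VM, FM, AM, ZB, NB, TB, byt, mn, ph, phi, getV, getF, cel, put, tstA, tstV, tstF, kof, off, up3, w24, low, hig, dart, slt, go, fo, fw, tmk, fl, clsX, capn, may2, sure2, degX, lenX, xcl, top10, Rule.s, setL, setE, cpL, extA, cmpZ, extF, extB, nearN, fs_pred, fs_blt, enx, epv, eal, egap, eN, gm, ecel, eset, etog, elnk, enewN, enewZ, inS, mu]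
  exact Eq.refl _
theorem bndVF_e : bndV = bndVF := by
  change Sm _ _
  unfold bndV sumI
  simp -iota -failIfUnchanged only [frc_eq, btF_e, walkF_e, evMaxF_e, evMinF_e, itrF_e, cmV_eq, cmF_eq, relF_e, absF_e, ublF_e, cmptF_e, shrF_e, lbaF_e, shrLF_e, incF_e]
  dsimp -iota -failIfUnchanged +unfoldPartialApp only [sel, cj, dj, tb, sb, fld, nx, pv, al, eqd, VM, FM, AM, ZB, NB, TB, byt, mn, ph, phi, getV, getF, cel, put, tstA, tstV, tstF, kof, off, up3, w24, low, hig, dart, slt, go, fo, fw, tmk, fl, clsX, capn, may2, sure2, degX, lenX, xcl, top10, Rule.s, setL, setE, cpL, extA, cmpZ, extF, extB, nearN, fs_pred, fs_blt, enx, epv, eal, egap, eN, gm, ecel, eset, etog, elnk, enewN, enewZ, inS, mu]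
  exact Eq.refl _

def bndFF : Rule → ℕ → ℕ → ℕ → ℕ → ℕ → ℕ → Bool := by
  apply (?F : (g : _) → Sm (bndF) g → _)
  case F => exact fun g _ => g
  unfold bndF sumI out01 out2
  simp -iota -failIfUnchanged only [frc_eq, btF_e, walkF_e, evMaxF_e, evMinF_e, itrF_e, cmV_eq, cmF_eq, relF_e, absF_e, ublF_e, cmptF_e, shrF_e, lbaF_e, shrLF_e, incF_e, bndVF_e]
  dsimp -iota -failIfUnchanged +unfoldPartialApp only [sel, cj, dj, tb, sb, fld, nx, pv, al, eqd, VM, FM, AM, ZB, NB, TB, byt, mn, ph, phi, getV, getF, cel, put, tstA, tstV, tstF, kof, off, up3, w24, low, hig, dart, slt, go, fo, fw, tmk, fl, clsX, capn, may2, sure2, degX, lenX, xcl, top10, Rule.s, setL, setE, cpL, extA, cmpZ, extF, extB, nearN, fs_pred, fs_blt, enx, epv, eal, egap, eN, gm, ecel, eset, etog, elnk, enewN, enewZ, inS, mu]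
  exact Eq.refl _
theorem bndFF_e : bndF = bndFF := by
  change Sm _ _
  unfold bndF sumI out01 out2
  simp -iota -failIfUnchanged only [frc_eq, btF_e, walkF_e, evMaxF_e, evMinF_e, itrF_e, cmV_eq, cmF_eq, relF_e, absF_e, ublF_e, cmptF_e, shrF_e, lbaF_e, shrLF_e, incF_e, bndVF_e]
  dsimp -iota -failIfUnchanged +unfoldPartialApp only [sel, cj, dj, tb, sb, fld, nx, pv, al, eqd, VM, FM, AM, ZB, NB, TB, byt, mn, ph, phi, getV, getF, cel, put, tstA, tstV, tstF, kof, off, up3, w24, low, hig, dart, slt, go, fo, fw, tmk, fl, clsX, capn, may2, sure2, degX, lenX, xcl, top10, Rule.s, setL, setE, cpL, extA, cmpZ, extF, extB, nearN, fs_pred, fs_blt, enx, epv, eal, egap, eN, gm, ecel, eset, etog, elnk, enewN, enewZ, inS, mu]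
  exact Eq.refl _

def bndWF : Rule → ℕ → ℕ → ℕ → Bool := by
  apply (?F : (g : _) → Sm (bndW) g → _)
  case F => exact fun g _ => g
  unfold bndW
  simp -iota -failIfUnchanged only [frc_eq, btF_e, walkF_e, evMaxF_e, evMinF_e, itrF_e, cmV_eq, cmF_eq, relF_e, absF_e, ublF_e, cmptF_e, shrF_e, lbaF_e, shrLF_e, incF_e, bndVF_e, bndFF_e]
  dsimp -iota -failIfUnchanged +unfoldPartialApp only [sel, cj, dj, tb, sb, fld, nx, pv, al, eqd, VM, FM, AM, ZB, NB, TB, byt, mn, ph, phi, getV, getF, cel, put, tstA, tstV, tstF, kof, off, up3, w24, low, hig, dart, slt, go, fo, fw, tmk, fl, clsX, capn, may2, sure2, degX, lenX, xcl, top10, Rule.s, setL, setE, cpL, extA, cmpZ, extF, extB, nearN, fs_pred, fs_blt, enx, epv, eal, egap, eN, gm, ecel, eset, etog, elnk, enewN, enewZ, inS, mu]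
  exact Eq.refl _
theorem bndWF_e : bndW = bndWF := by
  change Sm _ _
  unfold bndW
  simp -iota -failIfUnchanged only [frc_eq, btF_e, walkF_e, evMaxF_e, evMinF_e, itrF_e, cmV_eq, cmF_eq, relF_e, absF_e, ublF_e, cmptF_e, shrF_e, lbaF_e, shrLF_e, incF_e, bndVF_e, bndFF_e]
  dsimp -iota -failIfUnchanged +unfoldPartialApp only [sel, cj, dj, tb, sb, fld, nx, pv, al, eqd, VM, FM, AM, ZB, NB, TB, byt, mn, ph, phi, getV, getF, cel, put, tstA, tstV, tstF, kof, off, up3, w24, low, hig, dart, slt, go, fo, fw, tmk, fl, clsX, capn, may2, sure2, degX, lenX, xcl, top10, Rule.s, setL, setE, cpL, extA, cmpZ, extF, extB, nearN, fs_pred, fs_blt, enx, epv, eal, egap, eN, gm, ecel, eset, etog, elnk, enewN, enewZ, inS, mu]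
  exact Eq.refl _

def mtc0 : ℕ → ℕ → ℕ → ℕ → ℕ := by
  apply (?F : (g : _) → Sm ((fun m => mtc m false)) g → _)
  case F => exact fun g _ => g
  unfold mtc
  dsimp -iota only [fs_f]
  simp -iota -failIfUnchanged only [frc_eq, btF_e, walkF_e, evMaxF_e, evMinF_e, itrF_e, cmV_eq, cmF_eq, relF_e, absF_e, ublF_e, cmptF_e, shrF_e, lbaF_e, shrLF_e, incF_e, bndVF_e, bndFF_e, bndWF_e]
  dsimp -iota -failIfUnchanged +unfoldPartialApp only [sel, cj, dj, tb, sb, fld, nx, pv, al, eqd, VM, FM, AM, ZB, NB, TB, byt, mn, ph, phi, getV, getF, cel, put, tstA, tstV, tstF, kof, off, up3, w24, low, hig, dart, slt, go, fo, fw, tmk, fl, clsX, capn, may2, sure2, degX, lenX, xcl, top10, Rule.s, setL, setE, cpL, extA, cmpZ, extF, extB, nearN, fs_pred, fs_blt, enx, epv, eal, egap, eN, gm, ecel, eset, etog, elnk, enewN, enewZ, inS, mu]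
  exact Eq.refl _
theorem mtc0_e : (fun m => mtc m false) = mtc0 := by
  change Sm _ _
  unfold mtc
  dsimp -iota only [fs_f]
  simp -iota -failIfUnchanged only [frc_eq, btF_e, walkF_e, evMaxF_e, evMinF_e, itrF_e, cmV_eq, cmF_eq, relF_e, absF_e, ublF_e, cmptF_e, shrF_e, lbaF_e, shrLF_e, incF_e, bndVF_e, bndFF_e, bndWF_e]
  dsimp -iota -failIfUnchanged +unfoldPartialApp only [sel, cj, dj, tb, sb, fld, nx, pv, al, eqd, VM, FM, AM, ZB, NB, TB, byt, mn, ph, phi, getV, getF, cel, put, tstA, tstV, tstF, kof, off, up3, w24, low, hig, dart, slt, go, fo, fw, tmk, fl, clsX, capn, may2, sure2, degX, lenX, xcl, top10, Rule.s, setL, setE, cpL, extA, cmpZ, extF, extB, nearN, fs_pred, fs_blt, enx, epv, eal, egap, eN, gm, ecel, eset, etog, elnk, enewN, enewZ, inS, mu]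
  exact Eq.refl _
theorem mtc0_eq (m : ℕ) : mtc m false = mtc0 m := by
  rw [← mtc0_e]

def mtc1 : ℕ → ℕ → ℕ → ℕ → ℕ := by
  apply (?F : (g : _) → Sm ((fun m => mtc m true)) g → _)
  case F => exact fun g _ => g
  unfold mtc
  dsimp -iota only [fs_t]
  simp -iota -failIfUnchanged only [frc_eq, btF_e, walkF_e, evMaxF_e, evMinF_e, itrF_e, cmV_eq, cmF_eq, relF_e, absF_e, ublF_e, cmptF_e, shrF_e, lbaF_e, shrLF_e, incF_e, bndVF_e, bndFF_e, bndWF_e, mtc0_eq]
  dsimp -iota -failIfUnchanged +unfoldPartialApp only [sel, cj, dj, tb, sb, fld, nx, pv, al, eqd, VM, FM, AM, ZB, NB, TB, byt, mn, ph, phi, getV, getF, cel, put, tstA, tstV, tstF, kof, off, up3, w24, low, hig, dart, slt, go, fo, fw, tmk, fl, clsX, capn, may2, sure2, degX, lenX, xcl, top10, Rule.s, setL, setE, cpL, extA, cmpZ, extF, extB, nearN, fs_pred, fs_blt, enx, epv, eal, egap, eN, gm, ecel, eset, etog, elnk, enewN, enewZ, inS, mu]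
  exact Eq.refl _
theorem mtc1_e : (fun m => mtc m true) = mtc1 := by
  change Sm _ _
  unfold mtc
  dsimp -iota only [fs_t]
  simp -iota -failIfUnchanged only [frc_eq, btF_e, walkF_e, evMaxF_e, evMinF_e, itrF_e, cmV_eq, cmF_eq, relF_e, absF_e, ublF_e, cmptF_e, shrF_e, lbaF_e, shrLF_e, incF_e, bndVF_e, bndFF_e, bndWF_e, mtc0_eq]
  dsimp -iota -failIfUnchanged +unfoldPartialApp only [sel, cj, dj, tb, sb, fld, nx, pv, al, eqd, VM, FM, AM, ZB, NB, TB, byt, mn, ph, phi, getV, getF, cel, put, tstA, tstV, tstF, kof, off, up3, w24, low, hig, dart, slt, go, fo, fw, tmk, fl, clsX, capn, may2, sure2, degX, lenX, xcl, top10, Rule.s, setL, setE, cpL, extA, cmpZ, extF, extB, nearN, fs_pred, fs_blt, enx, epv, eal, egap, eN, gm, ecel, eset, etog, elnk, enewN, enewZ, inS, mu]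
  exact Eq.refl _
theorem mtc1_eq (m : ℕ) : mtc m true = mtc1 m := by
  rw [← mtc1_e]

theorem mtc_eq (m : ℕ) (o : Bool) (n c d : ℕ) :
    mtc m o n c d = sel o (mtc1 m n c d) (mtc0 m n c d) := by
  rw [fs_mtc, mtc0_eq, mtc1_eq]

def bldF : ℕ → ℕ → ℕ → ℕ → ℕ → ℕ → (ℕ → ℕ → ℕ → Bool) → Bool := by
  apply (?F : (g : _) → Sm (bld) g → _)
  case F => exact fun g _ => g
  unfold bld
  simp -iota -failIfUnchanged only [frc_eq, btF_e, walkF_e, evMaxF_e, evMinF_e, itrF_e, cmV_eq, cmF_eq, relF_e, absF_e, ublF_e, cmptF_e, shrF_e, lbaF_e, shrLF_e, incF_e, bndVF_e, bndFF_e, bndWF_e, mtc_eq]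
  dsimp -iota -failIfUnchanged +unfoldPartialApp only [sel, cj, dj, tb, sb, fld, nx, pv, al, eqd, VM, FM, AM, ZB, NB, TB, byt, mn, ph, phi, getV, getF, cel, put, tstA, tstV, tstF, kof, off, up3, w24, low, hig, dart, slt, go, fo, fw, tmk, fl, clsX, capn, may2, sure2, degX, lenX, xcl, top10, Rule.s, setL, setE, cpL, extA, cmpZ, extF, extB, nearN, fs_pred, fs_blt, enx, epv, eal, egap, eN, gm, ecel, eset, etog, elnk, enewN, enewZ, inS, mu]
  exact Eq.refl _
theorem bldF_e : bld = bldF := by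
  change Sm _ _
  unfold bld
  simp -iota -failIfUnchanged only [frc_eq, btF_e, walkF_e, evMaxF_e, evMinF_e, itrF_e, cmV_eq, cmF_eq, relF_e, absF_e, ublF_e, cmptF_e, shrF_e, lbaF_e, shrLF_e, incF_e, bndVF_e, bndFF_e, bndWF_e, mtc_eq]
  dsimp -iota -failIfUnchanged +unfoldPartialApp only [sel, cj, dj, tb, sb, fld, nx, pv, al, eqd, VM, FM, AM, ZB, NB, TB, byt, mn, ph, phi, getV, getF, cel, put, tstA, tstV, tstF, kof, off, up3, w24, low, hig, dart, slt, go, fo, fw, tmk, fl, clsX, capn, may2, sure2, degX, lenX, xcl, top10, Rule.s, setL, setE, cpL, extA, cmpZ, extF, extB, nearN, fs_pred, fs_blt, enx, epv, eal, egap, eN, gm, ecel, eset, etog, elnk, enewN, enewZ, inS, mu]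
  exact Eq.refl _

def stepAF : ℕ → (ℕ → ℕ → ℕ → Bool) → ℕ → ℕ → ℕ → ℕ → ℕ → Bool := by
  apply (?F : (g : _) → Sm (stepA) g → _)
  case F => exact fun g _ => g
  unfold stepA two extZ setF bkV bkF go slt
  simp -iota -failIfUnchanged only [frc_eq, btF_e, walkF_e, evMaxF_e, evMinF_e, itrF_e, cmV_eq, cmF_eq, relF_e, absF_e, ublF_e, cmptF_e, shrF_e, lbaF_e, shrLF_e, incF_e, bndVF_e, bndFF_e, bndWF_e, mtc_eq, bldF_e]
  dsimp -iota -failIfUnchanged +unfoldPartialApp only [sel, cj, dj, tb, sb, fld, nx, pv, al, eqd, VM, FM, AM, ZB, NB, TB, byt, mn, ph, phi, getV, getF, cel, put, tstA, tstV, tstF, kof, off, up3, w24, low, hig, dart, slt, go, fo, fw, tmk, fl, clsX, capn, may2, sure2, degX, lenX, xcl, top10, Rule.s, setL, setE, cpL, extA, cmpZ, extF, extB, nearN, fs_pred, fs_blt, enx, epv, eal, egap, eN, gm, ecel, eset, etog, elnk, enewN, enewZ, inS, mu]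
  exact Eq.refl _
theorem stepAF_e : stepA = stepAF := by
  change Sm _ _
  unfold stepA two extZ setF bkV bkF go slt
  simp -iota -failIfUnchanged only [frc_eq, btF_e, walkF_e, evMaxF_e, evMinF_e, itrF_e, cmV_eq, cmF_eq, relF_e, absF_e, ublF_e, cmptF_e, shrF_e, lbaF_e, shrLF_e, incF_e, bndVF_e, bndFF_e, bndWF_e, mtc_eq, bldF_e]
  dsimp -iota -failIfUnchanged +unfoldPartialApp only [sel, cj, dj, tb, sb, fld, nx, pv, al, eqd, VM, FM, AM, ZB, NB, TB, byt, mn, ph, phi, getV, getF, cel, put, tstA, tstV, tstF, kof, off, up3, w24, low, hig, dart, slt, go, fo, fw, tmk, fl, clsX, capn, may2, sure2, degX, lenX, xcl, top10, Rule.s, setL, setE, cpL, extA, cmpZ, extF, extB, nearN, fs_pred, fs_blt, enx, epv, eal, egap, eN, gm, ecel, eset, etog, elnk, enewN, enewZ, inS, mu]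
  exact Eq.refl _

def stepBF : Rule → BT ℕ → ℕ → (ℕ → ℕ → ℕ → Bool) → ℕ → ℕ → ℕ → ℕ → ℕ → Bool := by
  apply (?F : (g : _) → Sm (stepB) g → _)
  case F => exact fun g _ => g
  unfold stepB two setF setV go slt
  simp -iota -failIfUnchanged only [frc_eq, btF_e, walkF_e, evMaxF_e, evMinF_e, itrF_e, cmV_eq, cmF_eq, relF_e, absF_e, ublF_e, cmptF_e, shrF_e, lbaF_e, shrLF_e, incF_e, bndVF_e, bndFF_e, bndWF_e, mtc_eq, bldF_e, stepAF_e]
  dsimp -iota -failIfUnchanged +unfoldPartialApp only [sel, cj, dj, tb, sb, fld, nx, pv, al, eqd, VM, FM, AM, ZB, NB, TB, byt, mn, ph, phi, getV, getF, cel, put, tstA, tstV, tstF, kof, off, up3, w24, low, hig, dart, slt, go, fo, fw, tmk, fl, clsX, capn, may2, sure2, degX, lenX, xcl, top10, Rule.s, setL, setE, cpL, extA, cmpZ, extF, extB, nearN, fs_pred, fs_blt, enx, epv, eal, egap, eN, gm, ecel, eset, etog, elnk, enewN, enewZ, inS, mu]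
  exact Eq.refl _
theorem stepBF_e : stepB = stepBF := by
  change Sm _ _
  unfold stepB two setF setV go slt
  simp -iota -failIfUnchanged only [frc_eq, btF_e, walkF_e, evMaxF_e, evMinF_e, itrF_e, cmV_eq, cmF_eq, relF_e, absF_e, ublF_e, cmptF_e, shrF_e, lbaF_e, shrLF_e, incF_e, bndVF_e, bndFF_e, bndWF_e, mtc_eq, bldF_e, stepAF_e]
  dsimp -iota -failIfUnchanged +unfoldPartialApp only [sel, cj, dj, tb, sb, fld, nx, pv, al, eqd, VM, FM, AM, ZB, NB, TB, byt, mn, ph, phi, getV, getF, cel, put, tstA, tstV, tstF, kof, off, up3, w24, low, hig, dart, slt, go, fo, fw, tmk, fl, clsX, capn, may2, sure2, degX, lenX, xcl, top10, Rule.s, setL, setE, cpL, extA, cmpZ, extF, extB, nearN, fs_pred, fs_blt, enx, epv, eal, egap, eN, gm, ecel, eset, etog, elnk, enewN, enewZ, inS, mu]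
  exact Eq.refl _

def stepCF : Rule → (ℕ → ℕ → ℕ → Bool) → (ℕ → ℕ → ℕ → Bool) → ℕ → ℕ → ℕ → ℕ → ℕ → Bool := by
  apply (?F : (g : _) → Sm (stepC) g → _)
  case F => exact fun g _ => g
  unfold stepC go
  simp -iota -failIfUnchanged only [frc_eq, btF_e, walkF_e, evMaxF_e, evMinF_e, itrF_e, cmV_eq, cmF_eq, relF_e, absF_e, ublF_e, cmptF_e, shrF_e, lbaF_e, shrLF_e, incF_e, bndVF_e, bndFF_e, bndWF_e, mtc_eq, bldF_e, stepAF_e, stepBF_e]
  dsimp -iota -failIfUnchanged +unfoldPartialApp only [sel, cj, dj, tb, sb, fld, nx, pv, al, eqd, VM, FM, AM, ZB, NB, TB, byt, mn, ph, phi, getV, getF, cel, put, tstA, tstV, tstF, kof, off, up3, w24, low, hig, dart, slt, go, fo, fw, tmk, fl, clsX, capn, may2, sure2, degX, lenX, xcl, top10, Rule.s, setL, setE, cpL, extA, cmpZ, extF, extB, nearN, fs_pred, fs_blt, enx, epv, eal, egap, eN, gm, ecel, eset, etog, elnk, enewN, enewZ, inS, mu]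
  exact Eq.refl _
theorem stepCF_e : stepC = stepCF := by
  change Sm _ _
  unfold stepC go
  simp -iota -failIfUnchanged only [frc_eq, btF_e, walkF_e, evMaxF_e, evMinF_e, itrF_e, cmV_eq, cmF_eq, relF_e, absF_e, ublF_e, cmptF_e, shrF_e, lbaF_e, shrLF_e, incF_e, bndVF_e, bndFF_e, bndWF_e, mtc_eq, bldF_e, stepAF_e, stepBF_e]
  dsimp -iota -failIfUnchanged +unfoldPartialApp only [sel, cj, dj, tb, sb, fld, nx, pv, al, eqd, VM, FM, AM, ZB, NB, TB, byt, mn, ph, phi, getV, getF, cel, put, tstA, tstV, tstF, kof, off, up3, w24, low, hig, dart, slt, go, fo, fw, tmk, fl, clsX, capn, may2, sure2, degX, lenX, xcl, top10, Rule.s, setL, setE, cpL, extA, cmpZ, extF, extB, nearN, fs_pred, fs_blt, enx, epv, eal, egap, eN, gm, ecel, eset, etog, elnk, enewN, enewZ, inS, mu]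
  exact Eq.refl _

def stepDF : Rule → (ℕ → ℕ → ℕ → Bool) → ℕ → ℕ → ℕ → ℕ → ℕ → Bool := by
  apply (?F : (g : _) → Sm (stepD) g → _)
  case F => exact fun g _ => g
  unfold stepD go
  simp -iota -failIfUnchanged only [frc_eq, btF_e, walkF_e, evMaxF_e, evMinF_e, itrF_e, cmV_eq, cmF_eq, relF_e, absF_e, ublF_e, cmptF_e, shrF_e, lbaF_e, shrLF_e, incF_e, bndVF_e, bndFF_e, bndWF_e, mtc_eq, bldF_e, stepAF_e, stepBF_e, stepCF_e]
  dsimp -iota -failIfUnchanged +unfoldPartialApp only [sel, cj, dj, tb, sb, fld, nx, pv, al, eqd, VM, FM, AM, ZB, NB, TB, byt, mn, ph, phi, getV, getF, cel, put, tstA, tstV, tstF, kof, off, up3, w24, low, hig, dart, slt, go, fo, fw, tmk, fl, clsX, capn, may2, sure2, degX, lenX, xcl, top10, Rule.s, setL, setE, cpL, extA, cmpZ, extF, extB, nearN, fs_pred, fs_blt, enx, epv, eal, egap, eN, gm, ecel, eset, etog, elnk, enewN, enewZ, inS, mu]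
  exact Eq.refl _
theorem stepDF_e : stepD = stepDF := by
  change Sm _ _
  unfold stepD go
  simp -iota -failIfUnchanged only [frc_eq, btF_e, walkF_e, evMaxF_e, evMinF_e, itrF_e, cmV_eq, cmF_eq, relF_e, absF_e, ublF_e, cmptF_e, shrF_e, lbaF_e, shrLF_e, incF_e, bndVF_e, bndFF_e, bndWF_e, mtc_eq, bldF_e, stepAF_e, stepBF_e, stepCF_e]
  dsimp -iota -failIfUnchanged +unfoldPartialApp only [sel, cj, dj, tb, sb, fld, nx, pv, al, eqd, VM, FM, AM, ZB, NB, TB, byt, mn, ph, phi, getV, getF, cel, put, tstA, tstV, tstF, kof, off, up3, w24, low, hig, dart, slt, go, fo, fw, tmk, fl, clsX, capn, may2, sure2, degX, lenX, xcl, top10, Rule.s, setL, setE, cpL, extA, cmpZ, extF, extB, nearN, fs_pred, fs_blt, enx, epv, eal, egap, eN, gm, ecel, eset, etog, elnk, enewN, enewZ, inS, mu]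
  exact Eq.refl _

def chkF : Rule → ℕ → BT ℕ → ℕ → (ℕ → ℕ → ℕ → Bool) → ℕ → ℕ → ℕ → ℕ → Bool := by
  apply (?F : (g : _) → Sm (chk) g → _)
  case F => exact fun g _ => g
  unfold chk
  simp -iota -failIfUnchanged only [frc_eq, btF_e, walkF_e, evMaxF_e, evMinF_e, itrF_e, cmV_eq, cmF_eq, relF_e, absF_e, ublF_e, cmptF_e, shrF_e, lbaF_e, shrLF_e, incF_e, bndVF_e, bndFF_e, bndWF_e, mtc_eq, bldF_e, stepAF_e, stepBF_e, stepCF_e, stepDF_e]
  dsimp -iota -failIfUnchanged +unfoldPartialApp only [sel, cj, dj, tb, sb, fld, nx, pv, al, eqd, VM, FM, AM, ZB, NB, TB, byt, mn, ph, phi, getV, getF, cel, put, tstA, tstV, tstF, kof, off, up3, w24, low, hig, dart, slt, go, fo, fw, tmk, fl, clsX, capn, may2, sure2, degX, lenX, xcl, top10, Rule.s, setL, setE, cpL, extA, cmpZ, extF, extB, nearN, fs_pred, fs_blt, enx, epv, eal, egap, eN, gm, ecel, eset, etog, elnk, enewN, enewZ, inS, mu]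
  exact Eq.refl _
theorem chkF_e : chk = chkF := by
  change Sm _ _
  unfold chk
  simp -iota -failIfUnchanged only [frc_eq, btF_e, walkF_e, evMaxF_e, evMinF_e, itrF_e, cmV_eq, cmF_eq, relF_e, absF_e, ublF_e, cmptF_e, shrF_e, lbaF_e, shrLF_e, incF_e, bndVF_e, bndFF_e, bndWF_e, mtc_eq, bldF_e, stepAF_e, stepBF_e, stepCF_e, stepDF_e]
  dsimp -iota -failIfUnchanged +unfoldPartialApp only [sel, cj, dj, tb, sb, fld, nx, pv, al, eqd, VM, FM, AM, ZB, NB, TB, byt, mn, ph, phi, getV, getF, cel, put, tstA, tstV, tstF, kof, off, up3, w24, low, hig, dart, slt, go, fo, fw, tmk, fl, clsX, capn, may2, sure2, degX, lenX, xcl, top10, Rule.s, setL, setE, cpL, extA, cmpZ, extF, extB, nearN, fs_pred, fs_blt, enx, epv, eal, egap, eN, gm, ecel, eset, etog, elnk, enewN, enewZ, inS, mu]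
  exact Eq.refl _

def chkPF : Rule → ℕ → BT ℕ → ℕ → (ℕ → ℕ → ℕ → Bool) → ℕ → ℕ → Bool := by
  apply (?F : (g : _) → Sm (chkP) g → _)
  case F => exact fun g _ => g
  unfold chkP
  simp -iota -failIfUnchanged only [frc_eq, btF_e, walkF_e, evMaxF_e, evMinF_e, itrF_e, cmV_eq, cmF_eq, relF_e, absF_e, ublF_e, cmptF_e, shrF_e, lbaF_e, shrLF_e, incF_e, bndVF_e, bndFF_e, bndWF_e, mtc_eq, bldF_e, stepAF_e, stepBF_e, stepCF_e, stepDF_e, chkF_e]
  dsimp -iota -failIfUnchanged +unfoldPartialApp only [sel, cj, dj, tb, sb, fld, nx, pv, al, eqd, VM, FM, AM, ZB, NB, TB, byt, mn, ph, phi, getV, getF, cel, put, tstA, tstV, tstF, kof, off, up3, w24, low, hig, dart, slt, go, fo, fw, tmk, fl, clsX, capn, may2, sure2, degX, lenX, xcl, top10, Rule.s, setL, setE, cpL, extA, cmpZ, extF, extB, nearN, fs_pred, fs_blt, enx, epv, eal, egap, eN, gm, ecel, eset, etog, elnk, enewN, enewZ, inS, mu]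
  exact Eq.refl _
theorem chkPF_e : chkP = chkPF := by
  change Sm _ _
  unfold chkP
  simp -iota -failIfUnchanged only [frc_eq, btF_e, walkF_e, evMaxF_e, evMinF_e, itrF_e, cmV_eq, cmF_eq, relF_e, absF_e, ublF_e, cmptF_e, shrF_e, lbaF_e, shrLF_e, incF_e, bndVF_e, bndFF_e, bndWF_e, mtc_eq, bldF_e, stepAF_e, stepBF_e, stepCF_e, stepDF_e, chkF_e]
  dsimp -iota -failIfUnchanged +unfoldPartialApp only [sel, cj, dj, tb, sb, fld, nx, pv, al, eqd, VM, FM, AM, ZB, NB, TB, byt, mn, ph, phi, getV, getF, cel, put, tstA, tstV, tstF, kof, off, up3, w24, low, hig, dart, slt, go, fo, fw, tmk, fl, clsX, capn, may2, sure2, degX, lenX, xcl, top10, Rule.s, setL, setE, cpL, extA, cmpZ, extF, extB, nearN, fs_pred, fs_blt, enx, epv, eal, egap, eN, gm, ecel, eset, etog, elnk, enewN, enewZ, inS, mu]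
  exact Eq.refl _

def chkMF : Rule → ℕ → BT ℕ → (ℕ → ℕ → ℕ → Bool) → ℕ → ℕ → ℕ → Bool := by
  apply (?F : (g : _) → Sm (chkM) g → _)
  case F => exact fun g _ => g
  unfold chkM two
  simp -iota -failIfUnchanged only [frc_eq, btF_e, walkF_e, evMaxF_e, evMinF_e, itrF_e, cmV_eq, cmF_eq, relF_e, absF_e, ublF_e, cmptF_e, shrF_e, lbaF_e, shrLF_e, incF_e, bndVF_e, bndFF_e, bndWF_e, mtc_eq, bldF_e, stepAF_e, stepBF_e, stepCF_e, stepDF_e, chkF_e, chkPF_e]
  dsimp -iota -failIfUnchanged +unfoldPartialApp only [sel, cj, dj, tb, sb, fld, nx, pv, al, eqd, VM, FM, AM, ZB, NB, TB, byt, mn, ph, phi, getV, getF, cel, put, tstA, tstV, tstF, kof, off, up3, w24, low, hig, dart, slt, go, fo, fw, tmk, fl, clsX, capn, may2, sure2, degX, lenX, xcl, top10, Rule.s, setL, setE, cpL, extA, cmpZ, extF, extB, nearN, fs_pred, fs_blt, enx, epv, eal, egap, eN, gm, ecel, eset, etog, elnk, enewN, enewZ, inS, mu]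
  exact Eq.refl _
theorem chkMF_e : chkM = chkMF := by
  change Sm _ _
  unfold chkM two
  simp -iota -failIfUnchanged only [frc_eq, btF_e, walkF_e, evMaxF_e, evMinF_e, itrF_e, cmV_eq, cmF_eq, relF_e, absF_e, ublF_e, cmptF_e, shrF_e, lbaF_e, shrLF_e, incF_e, bndVF_e, bndFF_e, bndWF_e, mtc_eq, bldF_e, stepAF_e, stepBF_e, stepCF_e, stepDF_e, chkF_e, chkPF_e]
  dsimp -iota -failIfUnchanged +unfoldPartialApp only [sel, cj, dj, tb, sb, fld, nx, pv, al, eqd, VM, FM, AM, ZB, NB, TB, byt, mn, ph, phi, getV, getF, cel, put, tstA, tstV, tstF, kof, off, up3, w24, low, hig, dart, slt, go, fo, fw, tmk, fl, clsX, capn, may2, sure2, degX, lenX, xcl, top10, Rule.s, setL, setE, cpL, extA, cmpZ, extF, extB, nearN, fs_pred, fs_blt, enx, epv, eal, egap, eN, gm, ecel, eset, etog, elnk, enewN, enewZ, inS, mu]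
  exact Eq.refl _

def einsF : ℕ → ℕ → ℕ → ℕ → ℕ := by
  apply (?F : (g : _) → Sm (eins) g → _)
  case F => exact fun g _ => g
  unfold eins
  simp -iota -failIfUnchanged only [frc_eq, btF_e, walkF_e, evMaxF_e, evMinF_e, itrF_e, cmV_eq, cmF_eq, relF_e, absF_e, ublF_e, cmptF_e, shrF_e, lbaF_e, shrLF_e, incF_e, bndVF_e, bndFF_e, bndWF_e, mtc_eq, bldF_e, stepAF_e, stepBF_e, stepCF_e, stepDF_e, chkF_e, chkPF_e, chkMF_e]
  dsimp -iota -failIfUnchanged +unfoldPartialApp only [sel, cj, dj, tb, sb, fld, nx, pv, al, eqd, VM, FM, AM, ZB, NB, TB, byt, mn, ph, phi, getV, getF, cel, put, tstA, tstV, tstF, kof, off, up3, w24, low, hig, dart, slt, go, fo, fw, tmk, fl, clsX, capn, may2, sure2, degX, lenX, xcl, top10, Rule.s, setL, setE, cpL, extA, cmpZ, extF, extB, nearN, fs_pred, fs_blt, enx, epv, eal, egap, eN, gm, ecel, eset, etog, elnk, enewN, enewZ, inS, mu]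
  exact Eq.refl _
theorem einsF_e : eins = einsF := by
  change Sm _ _
  unfold eins
  simp -iota -failIfUnchanged only [frc_eq, btF_e, walkF_e, evMaxF_e, evMinF_e, itrF_e, cmV_eq, cmF_eq, relF_e, absF_e, ublF_e, cmptF_e, shrF_e, lbaF_e, shrLF_e, incF_e, bndVF_e, bndFF_e, bndWF_e, mtc_eq, bldF_e, stepAF_e, stepBF_e, stepCF_e, stepDF_e, chkF_e, chkPF_e, chkMF_e]
  dsimp -iota -failIfUnchanged +unfoldPartialApp only [sel, cj, dj, tb, sb, fld, nx, pv, al, eqd, VM, FM, AM, ZB, NB, TB, byt, mn, ph, phi, getV, getF, cel, put, tstA, tstV, tstF, kof, off, up3, w24, low, hig, dart, slt, go, fo, fw, tmk, fl, clsX, capn, may2, sure2, degX, lenX, xcl, top10, Rule.s, setL, setE, cpL, extA, cmpZ, extF, extB, nearN, fs_pred, fs_blt, enx, epv, eal, egap, eN, gm, ecel, eset, etog, elnk, enewN, enewZ, inS, mu]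
  exact Eq.refl _

def holF : ℕ → ℕ → ℕ := by
  apply (?F : (g : _) → Sm ((fun e => hol (eph e))) g → _)
  case F => exact fun g _ => g
  unfold hol eph
  simp -iota -failIfUnchanged only [frc_eq, btF_e, walkF_e, evMaxF_e, evMinF_e, itrF_e, cmV_eq, cmF_eq, relF_e, absF_e, ublF_e, cmptF_e, shrF_e, lbaF_e, shrLF_e, incF_e, bndVF_e, bndFF_e, bndWF_e, mtc_eq, bldF_e, stepAF_e, stepBF_e, stepCF_e, stepDF_e, chkF_e, chkPF_e, chkMF_e, einsF_e]
  dsimp -iota -failIfUnchanged +unfoldPartialApp only [sel, cj, dj, tb, sb, fld, nx, pv, al, eqd, VM, FM, AM, ZB, NB, TB, byt, mn, ph, phi, getV, getF, cel, put, tstA, tstV, tstF, kof, off, up3, w24, low, hig, dart, slt, go, fo, fw, tmk, fl, clsX, capn, may2, sure2, degX, lenX, xcl, top10, Rule.s, setL, setE, cpL, extA, cmpZ, extF, extB, nearN, fs_pred, fs_blt, enx, epv, eal, egap, eN, gm, ecel, eset, etog, elnk, enewN, enewZ, inS, mu]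
  exact Eq.refl _
theorem holF_e : (fun e => hol (eph e)) = holF := by
  change Sm _ _
  unfold hol eph
  simp -iota -failIfUnchanged only [frc_eq, btF_e, walkF_e, evMaxF_e, evMinF_e, itrF_e, cmV_eq, cmF_eq, relF_e, absF_e, ublF_e, cmptF_e, shrF_e, lbaF_e, shrLF_e, incF_e, bndVF_e, bndFF_e, bndWF_e, mtc_eq, bldF_e, stepAF_e, stepBF_e, stepCF_e, stepDF_e, chkF_e, chkPF_e, chkMF_e, einsF_e]
  dsimp -iota -failIfUnchanged +unfoldPartialApp only [sel, cj, dj, tb, sb, fld, nx, pv, al, eqd, VM, FM, AM, ZB, NB, TB, byt, mn, ph, phi, getV, getF, cel, put, tstA, tstV, tstF, kof, off, up3, w24, low, hig, dart, slt, go, fo, fw, tmk, fl, clsX, capn, may2, sure2, degX, lenX, xcl, top10, Rule.s, setL, setE, cpL, extA, cmpZ, extF, extB, nearN, fs_pred, fs_blt, enx, epv, eal, egap, eN, gm, ecel, eset, etog, elnk, enewN, enewZ, inS, mu]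
  exact Eq.refl _
theorem holF_eq (e : ℕ) : hol (eph e) = holF e := by
  rw [← holF_e]

def candF : (ℕ → ℕ → ℕ → ℕ → Bool) → ℕ → ℕ → ℕ → ℕ → ℕ → Bool → ℕ → ℕ → ℕ → Bool := by
  apply (?F : (g : _) → Sm (cand) g → _)
  case F => exact fun g _ => g
  unfold cand two
  simp -iota -failIfUnchanged only [frc_eq, btF_e, walkF_e, evMaxF_e, evMinF_e, itrF_e, cmV_eq, cmF_eq, relF_e, absF_e, ublF_e, cmptF_e, shrF_e, lbaF_e, shrLF_e, incF_e, bndVF_e, bndFF_e, bndWF_e, mtc_eq, bldF_e, stepAF_e, stepBF_e, stepCF_e, stepDF_e, chkF_e, chkPF_e, chkMF_e, einsF_e, holF_eq]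
  dsimp -iota -failIfUnchanged +unfoldPartialApp only [sel, cj, dj, tb, sb, fld, nx, pv, al, eqd, VM, FM, AM, ZB, NB, TB, byt, mn, ph, phi, getV, getF, cel, put, tstA, tstV, tstF, kof, off, up3, w24, low, hig, dart, slt, go, fo, fw, tmk, fl, clsX, capn, may2, sure2, degX, lenX, xcl, top10, Rule.s, setL, setE, cpL, extA, cmpZ, extF, extB, nearN, fs_pred, fs_blt, enx, epv, eal, egap, eN, gm, ecel, eset, etog, elnk, enewN, enewZ, inS, mu]
  exact Eq.refl _
theorem candF_e : cand = candF := by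
  change Sm _ _
  unfold cand two
  simp -iota -failIfUnchanged only [frc_eq, btF_e, walkF_e, evMaxF_e, evMinF_e, itrF_e, cmV_eq, cmF_eq, relF_e, absF_e, ublF_e, cmptF_e, shrF_e, lbaF_e, shrLF_e, incF_e, bndVF_e, bndFF_e, bndWF_e, mtc_eq, bldF_e, stepAF_e, stepBF_e, stepCF_e, stepDF_e, chkF_e, chkPF_e, chkMF_e, einsF_e, holF_eq]
  dsimp -iota -failIfUnchanged +unfoldPartialApp only [sel, cj, dj, tb, sb, fld, nx, pv, al, eqd, VM, FM, AM, ZB, NB, TB, byt, mn, ph, phi, getV, getF, cel, put, tstA, tstV, tstF, kof, off, up3, w24, low, hig, dart, slt, go, fo, fw, tmk, fl, clsX, capn, may2, sure2, degX, lenX, xcl, top10, Rule.s, setL, setE, cpL, extA, cmpZ, extF, extB, nearN, fs_pred, fs_blt, enx, epv, eal, egap, eN, gm, ecel, eset, etog, elnk, enewN, enewZ, inS, mu]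
  exact Eq.refl _

def muIF : ℕ → ℕ → ℕ → ℕ := by
  apply (?F : (g : _) → Sm (muI) g → _)
  case F => exact fun g _ => g
  unfold muI
  simp -iota -failIfUnchanged only [frc_eq, btF_e, walkF_e, evMaxF_e, evMinF_e, itrF_e, cmV_eq, cmF_eq, relF_e, absF_e, ublF_e, cmptF_e, shrF_e, lbaF_e, shrLF_e, incF_e, bndVF_e, bndFF_e, bndWF_e, mtc_eq, bldF_e, stepAF_e, stepBF_e, stepCF_e, stepDF_e, chkF_e, chkPF_e, chkMF_e, einsF_e, holF_eq, candF_e]
  dsimp -iota -failIfUnchanged +unfoldPartialApp only [sel, cj, dj, tb, sb, fld, nx, pv, al, eqd, VM, FM, AM, ZB, NB, TB, byt, mn, ph, phi, getV, getF, cel, put, tstA, tstV, tstF, kof, off, up3, w24, low, hig, dart, slt, go, fo, fw, tmk, fl, clsX, capn, may2, sure2, degX, lenX, xcl, top10, Rule.s, setL, setE, cpL, extA, cmpZ, extF, extB, nearN, fs_pred, fs_blt, enx, epv, eal, egap, eN, gm, ecel, eset, etog, elnk, enewN, enewZ, inS, mu]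
  exact Eq.refl _
theorem muIF_e : muI = muIF := by
  change Sm _ _
  unfold muI
  simp -iota -failIfUnchanged only [frc_eq, btF_e, walkF_e, evMaxF_e, evMinF_e, itrF_e, cmV_eq, cmF_eq, relF_e, absF_e, ublF_e, cmptF_e, shrF_e, lbaF_e, shrLF_e, incF_e, bndVF_e, bndFF_e, bndWF_e, mtc_eq, bldF_e, stepAF_e, stepBF_e, stepCF_e, stepDF_e, chkF_e, chkPF_e, chkMF_e, einsF_e, holF_eq, candF_e]
  dsimp -iota -failIfUnchanged +unfoldPartialApp only [sel, cj, dj, tb, sb, fld, nx, pv, al, eqd, VM, FM, AM, ZB, NB, TB, byt, mn, ph, phi, getV, getF, cel, put, tstA, tstV, tstF, kof, off, up3, w24, low, hig, dart, slt, go, fo, fw, tmk, fl, clsX, capn, may2, sure2, degX, lenX, xcl, top10, Rule.s, setL, setE, cpL, extA, cmpZ, extF, extB, nearN, fs_pred, fs_blt, enx, epv, eal, egap, eN, gm, ecel, eset, etog, elnk, enewN, enewZ, inS, mu]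
  exact Eq.refl _

def skipF : (ℕ → ℕ) → ℕ → ℕ → ℕ → ℕ → Bool := by
  apply (?F : (g : _) → Sm (skip) g → _)
  case F => exact fun g _ => g
  unfold skip
  simp -iota -failIfUnchanged only [frc_eq, btF_e, walkF_e, evMaxF_e, evMinF_e, itrF_e, cmV_eq, cmF_eq, relF_e, absF_e, ublF_e, cmptF_e, shrF_e, lbaF_e, shrLF_e, incF_e, bndVF_e, bndFF_e, bndWF_e, mtc_eq, bldF_e, stepAF_e, stepBF_e, stepCF_e, stepDF_e, chkF_e, chkPF_e, chkMF_e, einsF_e, holF_eq, candF_e, muIF_e]
  dsimp -iota -failIfUnchanged +unfoldPartialApp only [sel, cj, dj, tb, sb, fld, nx, pv, al, eqd, VM, FM, AM, ZB, NB, TB, byt, mn, ph, phi, getV, getF, cel, put, tstA, tstV, tstF, kof, off, up3, w24, low, hig, dart, slt, go, fo, fw, tmk, fl, clsX, capn, may2, sure2, degX, lenX, xcl, top10, Rule.s, setL, setE, cpL, extA, cmpZ, extF, extB, nearN, fs_pred, fs_blt, enx, epv, eal, egap, eN, gm, ecel, eset, etog, elnk, enewN, enewZ, inS, mu]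
  exact Eq.refl _
theorem skipF_e : skip = skipF := by
  change Sm _ _
  unfold skip
  simp -iota -failIfUnchanged only [frc_eq, btF_e, walkF_e, evMaxF_e, evMinF_e, itrF_e, cmV_eq, cmF_eq, relF_e, absF_e, ublF_e, cmptF_e, shrF_e, lbaF_e, shrLF_e, incF_e, bndVF_e, bndFF_e, bndWF_e, mtc_eq, bldF_e, stepAF_e, stepBF_e, stepCF_e, stepDF_e, chkF_e, chkPF_e, chkMF_e, einsF_e, holF_eq, candF_e, muIF_e]
  dsimp -iota -failIfUnchanged +unfoldPartialApp only [sel, cj, dj, tb, sb, fld, nx, pv, al, eqd, VM, FM, AM, ZB, NB, TB, byt, mn, ph, phi, getV, getF, cel, put, tstA, tstV, tstF, kof, off, up3, w24, low, hig, dart, slt, go, fo, fw, tmk, fl, clsX, capn, may2, sure2, degX, lenX, xcl, top10, Rule.s, setL, setE, cpL, extA, cmpZ, extF, extB, nearN, fs_pred, fs_blt, enx, epv, eal, egap, eN, gm, ecel, eset, etog, elnk, enewN, enewZ, inS, mu]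
  exact Eq.refl _

def subF : ℕ → ℕ → ℕ → ℕ → Bool → ℕ → Bool := by
  apply (?F : (g : _) → Sm (sub) g → _)
  case F => exact fun g _ => g
  unfold sub
  simp -iota -failIfUnchanged only [frc_eq, btF_e, walkF_e, evMaxF_e, evMinF_e, itrF_e, cmV_eq, cmF_eq, relF_e, absF_e, ublF_e, cmptF_e, shrF_e, lbaF_e, shrLF_e, incF_e, bndVF_e, bndFF_e, bndWF_e, mtc_eq, bldF_e, stepAF_e, stepBF_e, stepCF_e, stepDF_e, chkF_e, chkPF_e, chkMF_e, einsF_e, holF_eq, candF_e, muIF_e, skipF_e]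
  dsimp -iota -failIfUnchanged +unfoldPartialApp only [sel, cj, dj, tb, sb, fld, nx, pv, al, eqd, VM, FM, AM, ZB, NB, TB, byt, mn, ph, phi, getV, getF, cel, put, tstA, tstV, tstF, kof, off, up3, w24, low, hig, dart, slt, go, fo, fw, tmk, fl, clsX, capn, may2, sure2, degX, lenX, xcl, top10, Rule.s, setL, setE, cpL, extA, cmpZ, extF, extB, nearN, fs_pred, fs_blt, enx, epv, eal, egap, eN, gm, ecel, eset, etog, elnk, enewN, enewZ, inS, mu]
  exact Eq.refl _
theorem subF_e : sub = subF := by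
  change Sm _ _
  unfold sub
  simp -iota -failIfUnchanged only [frc_eq, btF_e, walkF_e, evMaxF_e, evMinF_e, itrF_e, cmV_eq, cmF_eq, relF_e, absF_e, ublF_e, cmptF_e, shrF_e, lbaF_e, shrLF_e, incF_e, bndVF_e, bndFF_e, bndWF_e, mtc_eq, bldF_e, stepAF_e, stepBF_e, stepCF_e, stepDF_e, chkF_e, chkPF_e, chkMF_e, einsF_e, holF_eq, candF_e, muIF_e, skipF_e]
  dsimp -iota -failIfUnchanged +unfoldPartialApp only [sel, cj, dj, tb, sb, fld, nx, pv, al, eqd, VM, FM, AM, ZB, NB, TB, byt, mn, ph, phi, getV, getF, cel, put, tstA, tstV, tstF, kof, off, up3, w24, low, hig, dart, slt, go, fo, fw, tmk, fl, clsX, capn, may2, sure2, degX, lenX, xcl, top10, Rule.s, setL, setE, cpL, extA, cmpZ, extF, extB, nearN, fs_pred, fs_blt, enx, epv, eal, egap, eN, gm, ecel, eset, etog, elnk, enewN, enewZ, inS, mu]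
  exact Eq.refl _

def jcntF : ℕ → ℕ → ℕ → ℕ → ℕ := by
  apply (?F : (g : _) → Sm (jcnt) g → _)
  case F => exact fun g _ => g
  unfold jcnt
  simp -iota -failIfUnchanged only [frc_eq, btF_e, walkF_e, evMaxF_e, evMinF_e, itrF_e, cmV_eq, cmF_eq, relF_e, absF_e, ublF_e, cmptF_e, shrF_e, lbaF_e, shrLF_e, incF_e, bndVF_e, bndFF_e, bndWF_e, mtc_eq, bldF_e, stepAF_e, stepBF_e, stepCF_e, stepDF_e, chkF_e, chkPF_e, chkMF_e, einsF_e, holF_eq, candF_e, muIF_e, skipF_e, subF_e]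
  dsimp -iota -failIfUnchanged +unfoldPartialApp only [sel, cj, dj, tb, sb, fld, nx, pv, al, eqd, VM, FM, AM, ZB, NB, TB, byt, mn, ph, phi, getV, getF, cel, put, tstA, tstV, tstF, kof, off, up3, w24, low, hig, dart, slt, go, fo, fw, tmk, fl, clsX, capn, may2, sure2, degX, lenX, xcl, top10, Rule.s, setL, setE, cpL, extA, cmpZ, extF, extB, nearN, fs_pred, fs_blt, enx, epv, eal, egap, eN, gm, ecel, eset, etog, elnk, enewN, enewZ, inS, mu]
  exact Eq.refl _
theorem jcntF_e : jcnt = jcntF := by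
  change Sm _ _
  unfold jcnt
  simp -iota -failIfUnchanged only [frc_eq, btF_e, walkF_e, evMaxF_e, evMinF_e, itrF_e, cmV_eq, cmF_eq, relF_e, absF_e, ublF_e, cmptF_e, shrF_e, lbaF_e, shrLF_e, incF_e, bndVF_e, bndFF_e, bndWF_e, mtc_eq, bldF_e, stepAF_e, stepBF_e, stepCF_e, stepDF_e, chkF_e, chkPF_e, chkMF_e, einsF_e, holF_eq, candF_e, muIF_e, skipF_e, subF_e]
  dsimp -iota -failIfUnchanged +unfoldPartialApp only [sel, cj, dj, tb, sb, fld, nx, pv, al, eqd, VM, FM, AM, ZB, NB, TB, byt, mn, ph, phi, getV, getF, cel, put, tstA, tstV, tstF, kof, off, up3, w24, low, hig, dart, slt, go, fo, fw, tmk, fl, clsX, capn, may2, sure2, degX, lenX, xcl, top10, Rule.s, setL, setE, cpL, extA, cmpZ, extF, extB, nearN, fs_pred, fs_blt, enx, epv, eal, egap, eN, gm, ecel, eset, etog, elnk, enewN, enewZ, inS, mu]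
  exact Eq.refl _

def jlfF : ℕ → ℕ → ℕ → ℕ → Bool := by
  apply (?F : (g : _) → Sm (jlf) g → _)
  case F => exact fun g _ => g
  unfold jlf eorb
  simp -iota -failIfUnchanged only [frc_eq, btF_e, walkF_e, evMaxF_e, evMinF_e, itrF_e, cmV_eq, cmF_eq, relF_e, absF_e, ublF_e, cmptF_e, shrF_e, lbaF_e, shrLF_e, incF_e, bndVF_e, bndFF_e, bndWF_e, mtc_eq, bldF_e, stepAF_e, stepBF_e, stepCF_e, stepDF_e, chkF_e, chkPF_e, chkMF_e, einsF_e, holF_eq, candF_e, muIF_e, skipF_e, subF_e, jcntF_e]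
  dsimp -iota -failIfUnchanged +unfoldPartialApp only [sel, cj, dj, tb, sb, fld, nx, pv, al, eqd, VM, FM, AM, ZB, NB, TB, byt, mn, ph, phi, getV, getF, cel, put, tstA, tstV, tstF, kof, off, up3, w24, low, hig, dart, slt, go, fo, fw, tmk, fl, clsX, capn, may2, sure2, degX, lenX, xcl, top10, Rule.s, setL, setE, cpL, extA, cmpZ, extF, extB, nearN, fs_pred, fs_blt, enx, epv, eal, egap, eN, gm, ecel, eset, etog, elnk, enewN, enewZ, inS, mu]
  exact Eq.refl _
theorem jlfF_e : jlf = jlfF := by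
  change Sm _ _
  unfold jlf eorb
  simp -iota -failIfUnchanged only [frc_eq, btF_e, walkF_e, evMaxF_e, evMinF_e, itrF_e, cmV_eq, cmF_eq, relF_e, absF_e, ublF_e, cmptF_e, shrF_e, lbaF_e, shrLF_e, incF_e, bndVF_e, bndFF_e, bndWF_e, mtc_eq, bldF_e, stepAF_e, stepBF_e, stepCF_e, stepDF_e, chkF_e, chkPF_e, chkMF_e, einsF_e, holF_eq, candF_e, muIF_e, skipF_e, subF_e, jcntF_e]
  dsimp -iota -failIfUnchanged +unfoldPartialApp only [sel, cj, dj, tb, sb, fld, nx, pv, al, eqd, VM, FM, AM, ZB, NB, TB, byt, mn, ph, phi, getV, getF, cel, put, tstA, tstV, tstF, kof, off, up3, w24, low, hig, dart, slt, go, fo, fw, tmk, fl, clsX, capn, may2, sure2, degX, lenX, xcl, top10, Rule.s, setL, setE, cpL, extA, cmpZ, extF, extB, nearN, fs_pred, fs_blt, enx, epv, eal, egap, eN, gm, ecel, eset, etog, elnk, enewN, enewZ, inS, mu]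
  exact Eq.refl _

def cstepAF : ℕ → (ℕ → ℕ → ℕ → ℕ → Bool) → ℕ → ℕ → ℕ → ℕ → ℕ → ℕ → ℕ → Bool := by
  apply (?F : (g : _) → Sm (cstepA) g → _)
  case F => exact fun g _ => g
  unfold cstepA two setG
  simp -iota -failIfUnchanged only [frc_eq, btF_e, walkF_e, evMaxF_e, evMinF_e, itrF_e, cmV_eq, cmF_eq, relF_e, absF_e, ublF_e, cmptF_e, shrF_e, lbaF_e, shrLF_e, incF_e, bndVF_e, bndFF_e, bndWF_e, mtc_eq, bldF_e, stepAF_e, stepBF_e, stepCF_e, stepDF_e, chkF_e, chkPF_e, chkMF_e, einsF_e, holF_eq, candF_e, muIF_e, skipF_e, subF_e, jcntF_e, jlfF_e]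
  dsimp -iota -failIfUnchanged +unfoldPartialApp only [sel, cj, dj, tb, sb, fld, nx, pv, al, eqd, VM, FM, AM, ZB, NB, TB, byt, mn, ph, phi, getV, getF, cel, put, tstA, tstV, tstF, kof, off, up3, w24, low, hig, dart, slt, go, fo, fw, tmk, fl, clsX, capn, may2, sure2, degX, lenX, xcl, top10, Rule.s, setL, setE, cpL, extA, cmpZ, extF, extB, nearN, fs_pred, fs_blt, enx, epv, eal, egap, eN, gm, ecel, eset, etog, elnk, enewN, enewZ, inS, mu]
  exact Eq.refl _
theorem cstepAF_e : cstepA = cstepAF := by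
  change Sm _ _
  unfold cstepA two setG
  simp -iota -failIfUnchanged only [frc_eq, btF_e, walkF_e, evMaxF_e, evMinF_e, itrF_e, cmV_eq, cmF_eq, relF_e, absF_e, ublF_e, cmptF_e, shrF_e, lbaF_e, shrLF_e, incF_e, bndVF_e, bndFF_e, bndWF_e, mtc_eq, bldF_e, stepAF_e, stepBF_e, stepCF_e, stepDF_e, chkF_e, chkPF_e, chkMF_e, einsF_e, holF_eq, candF_e, muIF_e, skipF_e, subF_e, jcntF_e, jlfF_e]
  dsimp -iota -failIfUnchanged +unfoldPartialApp only [sel, cj, dj, tb, sb, fld, nx, pv, al, eqd, VM, FM, AM, ZB, NB, TB, byt, mn, ph, phi, getV, getF, cel, put, tstA, tstV, tstF, kof, off, up3, w24, low, hig, dart, slt, go, fo, fw, tmk, fl, clsX, capn, may2, sure2, degX, lenX, xcl, top10, Rule.s, setL, setE, cpL, extA, cmpZ, extF, extB, nearN, fs_pred, fs_blt, enx, epv, eal, egap, eN, gm, ecel, eset, etog, elnk, enewN, enewZ, inS, mu]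
  exact Eq.refl _

def cstepBF : BT (ℕ × ℕ) → ℕ → ℕ → ℕ → ℕ → ℕ → ℕ → ℕ → Bool := by
  apply (?F : (g : _) → Sm (cstepB) g → _)
  case F => exact fun g _ => g
  unfold cstepB edeg
  simp -iota -failIfUnchanged only [frc_eq, btF_e, walkF_e, evMaxF_e, evMinF_e, itrF_e, cmV_eq, cmF_eq, relF_e, absF_e, ublF_e, cmptF_e, shrF_e, lbaF_e, shrLF_e, incF_e, bndVF_e, bndFF_e, bndWF_e, mtc_eq, bldF_e, stepAF_e, stepBF_e, stepCF_e, stepDF_e, chkF_e, chkPF_e, chkMF_e, einsF_e, holF_eq, candF_e, muIF_e, skipF_e, subF_e, jcntF_e, jlfF_e, cstepAF_e]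
  dsimp -iota -failIfUnchanged +unfoldPartialApp only [sel, cj, dj, tb, sb, fld, nx, pv, al, eqd, VM, FM, AM, ZB, NB, TB, byt, mn, ph, phi, getV, getF, cel, put, tstA, tstV, tstF, kof, off, up3, w24, low, hig, dart, slt, go, fo, fw, tmk, fl, clsX, capn, may2, sure2, degX, lenX, xcl, top10, Rule.s, setL, setE, cpL, extA, cmpZ, extF, extB, nearN, fs_pred, fs_blt, enx, epv, eal, egap, eN, gm, ecel, eset, etog, elnk, enewN, enewZ, inS, mu]
  exact Eq.refl _
theorem cstepBF_e : cstepB = cstepBF := by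
  change Sm _ _
  unfold cstepB edeg
  simp -iota -failIfUnchanged only [frc_eq, btF_e, walkF_e, evMaxF_e, evMinF_e, itrF_e, cmV_eq, cmF_eq, relF_e, absF_e, ublF_e, cmptF_e, shrF_e, lbaF_e, shrLF_e, incF_e, bndVF_e, bndFF_e, bndWF_e, mtc_eq, bldF_e, stepAF_e, stepBF_e, stepCF_e, stepDF_e, chkF_e, chkPF_e, chkMF_e, einsF_e, holF_eq, candF_e, muIF_e, skipF_e, subF_e, jcntF_e, jlfF_e, cstepAF_e]
  dsimp -iota -failIfUnchanged +unfoldPartialApp only [sel, cj, dj, tb, sb, fld, nx, pv, al, eqd, VM, FM, AM, ZB, NB, TB, byt, mn, ph, phi, getV, getF, cel, put, tstA, tstV, tstF, kof, off, up3, w24, low, hig, dart, slt, go, fo, fw, tmk, fl, clsX, capn, may2, sure2, degX, lenX, xcl, top10, Rule.s, setL, setE, cpL, extA, cmpZ, extF, extB, nearN, fs_pred, fs_blt, enx, epv, eal, egap, eN, gm, ecel, eset, etog, elnk, enewN, enewZ, inS, mu]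
  exact Eq.refl _

def cchkF : BT (ℕ × ℕ) → ℕ → ℕ → ℕ → ℕ → ℕ → ℕ → ℕ → Bool := by
  apply (?F : (g : _) → Sm (cchk) g → _)
  case F => exact fun g _ => g
  unfold cchk
  simp -iota -failIfUnchanged only [frc_eq, btF_e, walkF_e, evMaxF_e, evMinF_e, itrF_e, cmV_eq, cmF_eq, relF_e, absF_e, ublF_e, cmptF_e, shrF_e, lbaF_e, shrLF_e, incF_e, bndVF_e, bndFF_e, bndWF_e, mtc_eq, bldF_e, stepAF_e, stepBF_e, stepCF_e, stepDF_e, chkF_e, chkPF_e, chkMF_e, einsF_e, holF_eq, candF_e, muIF_e, skipF_e, subF_e, jcntF_e, jlfF_e, cstepAF_e, cstepBF_e]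
  dsimp -iota -failIfUnchanged +unfoldPartialApp only [sel, cj, dj, tb, sb, fld, nx, pv, al, eqd, VM, FM, AM, ZB, NB, TB, byt, mn, ph, phi, getV, getF, cel, put, tstA, tstV, tstF, kof, off, up3, w24, low, hig, dart, slt, go, fo, fw, tmk, fl, clsX, capn, may2, sure2, degX, lenX, xcl, top10, Rule.s, setL, setE, cpL, extA, cmpZ, extF, extB, nearN, fs_pred, fs_blt, enx, epv, eal, egap, eN, gm, ecel, eset, etog, elnk, enewN, enewZ, inS, mu]
  exact Eq.refl _
theorem cchkF_e : cchk = cchkF := by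
  change Sm _ _
  unfold cchk
  simp -iota -failIfUnchanged only [frc_eq, btF_e, walkF_e, evMaxF_e, evMinF_e, itrF_e, cmV_eq, cmF_eq, relF_e, absF_e, ublF_e, cmptF_e, shrF_e, lbaF_e, shrLF_e, incF_e, bndVF_e, bndFF_e, bndWF_e, mtc_eq, bldF_e, stepAF_e, stepBF_e, stepCF_e, stepDF_e, chkF_e, chkPF_e, chkMF_e, einsF_e, holF_eq, candF_e, muIF_e, skipF_e, subF_e, jcntF_e, jlfF_e, cstepAF_e, cstepBF_e]
  dsimp -iota -failIfUnchanged +unfoldPartialApp only [sel, cj, dj, tb, sb, fld, nx, pv, al, eqd, VM, FM, AM, ZB, NB, TB, byt, mn, ph, phi, getV, getF, cel, put, tstA, tstV, tstF, kof, off, up3, w24, low, hig, dart, slt, go, fo, fw, tmk, fl, clsX, capn, may2, sure2, degX, lenX, xcl, top10, Rule.s, setL, setE, cpL, extA, cmpZ, extF, extB, nearN, fs_pred, fs_blt, enx, epv, eal, egap, eN, gm, ecel, eset, etog, elnk, enewN, enewZ, inS, mu]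
  exact Eq.refl _

def redF : BT (ℕ × ℕ) → ℕ → ℕ → ℕ → Bool := by
  apply (?F : (g : _) → Sm (red) g → _)
  case F => exact fun g _ => g
  unfold red
  simp -iota -failIfUnchanged only [frc_eq, btF_e, walkF_e, evMaxF_e, evMinF_e, itrF_e, cmV_eq, cmF_eq, relF_e, absF_e, ublF_e, cmptF_e, shrF_e, lbaF_e, shrLF_e, incF_e, bndVF_e, bndFF_e, bndWF_e, mtc_eq, bldF_e, stepAF_e, stepBF_e, stepCF_e, stepDF_e, chkF_e, chkPF_e, chkMF_e, einsF_e, holF_eq, candF_e, muIF_e, skipF_e, subF_e, jcntF_e, jlfF_e, cstepAF_e, cstepBF_e, cchkF_e]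
  dsimp -iota -failIfUnchanged +unfoldPartialApp only [sel, cj, dj, tb, sb, fld, nx, pv, al, eqd, VM, FM, AM, ZB, NB, TB, byt, mn, ph, phi, getV, getF, cel, put, tstA, tstV, tstF, kof, off, up3, w24, low, hig, dart, slt, go, fo, fw, tmk, fl, clsX, capn, may2, sure2, degX, lenX, xcl, top10, Rule.s, setL, setE, cpL, extA, cmpZ, extF, extB, nearN, fs_pred, fs_blt, enx, epv, eal, egap, eN, gm, ecel, eset, etog, elnk, enewN, enewZ, inS, mu]
  exact Eq.refl _
theorem redF_e : red = redF := by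
  change Sm _ _
  unfold red
  simp -iota -failIfUnchanged only [frc_eq, btF_e, walkF_e, evMaxF_e, evMinF_e, itrF_e, cmV_eq, cmF_eq, relF_e, absF_e, ublF_e, cmptF_e, shrF_e, lbaF_e, shrLF_e, incF_e, bndVF_e, bndFF_e, bndWF_e, mtc_eq, bldF_e, stepAF_e, stepBF_e, stepCF_e, stepDF_e, chkF_e, chkPF_e, chkMF_e, einsF_e, holF_eq, candF_e, muIF_e, skipF_e, subF_e, jcntF_e, jlfF_e, cstepAF_e, cstepBF_e, cchkF_e]
  dsimp -iota -failIfUnchanged +unfoldPartialApp only [sel, cj, dj, tb, sb, fld, nx, pv, al, eqd, VM, FM, AM, ZB, NB, TB, byt, mn, ph, phi, getV, getF, cel, put, tstA, tstV, tstF, kof, off, up3, w24, low, hig, dart, slt, go, fo, fw, tmk, fl, clsX, capn, may2, sure2, degX, lenX, xcl, top10, Rule.s, setL, setE, cpL, extA, cmpZ, extF, extB, nearN, fs_pred, fs_blt, enx, epv, eal, egap, eN, gm, ecel, eset, etog, elnk, enewN, enewZ, inS, mu]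
  exact Eq.refl _

end

variable {R : Rule} {cfgs : BT (ℕ × ℕ)} {pats : BT ℕ}

theorem Env.stepF (E : Env R cfgs) {n i c : ℕ} (h : Upto R pats i)
    (hc : chkMF R INI pats (redF cfgs) n i c = true) : Upto R pats (i + n) :=
  E.step h (by rw [chkMF_e, redF_e]; exact hc)

end Pool.Agent.Lib.G6
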