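import Pool.Agent.Lib.G6.KExt

set_option autoImplicit false

/-! Block KBLD: the builder of the second checker. -/

namespace Pool.Agent.Lib.G6.K

open Equiv

/-- the five darts represent the registers -/
structure Rr {D : Type} (nd : ℕ) (h : ℕ → D) (x s1 s2 s3 s4 : ℕ) (r : Rg D) : Prop where
  x : Rp nd h x r.x
  s1 : Rp nd h s1 r.s1
  s2 : Rp nd h s2 r.s2
  s3 : Rp nd h s3 r.s3
  s4 : Rp nd h s4 r.s4

theorem kb_up {D : Type} {nd k d : ℕ} {h h' : ℕ → D} {x : D} (e : Ext nd h h')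
    (r : Rp nd h d x) : Rp (nd + k) h' d x :=
  r.imp id fun a => ⟨ext_val_up a.1, (e d a.1).trans a.2⟩

theorem kb_val {D : Type} {nd d : ℕ} {h : ℕ → D} {x : D} (r : Rp nd h d x) (hv : Val nd d) :
    h d = x := (rs_rp r).2 hv

theorem kb_plA (p : ℕ) : Bits 64 127 (plA p) := by
  intro i hi
  change (_ &&& ((2 ^ 63 - 1) <<< 64)).testBit i = true at hi
  rw [Nat.testBit_and, Bool.and_eq_true, Nat.testBit_shiftLeft, Nat.testBit_two_pow_sub_one] at hi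
  have := hi.2
  simp only [ge_iff_le, Bool.and_eq_true, decide_eq_true_eq] at this
  omega

section

variable (R : Rule) {D : Type} [Fintype D] (σ α : Perm D) (N : Set D)

/-- the state with payload `p` does not satisfy `Q` -/
def BadB (Q : ℕ → Rg D → Prop) (p m nd x s1 s2 s3 s4 : ℕ) : Prop :=
  nd < 65536 ∧ ∀ h r, Hom R σ α N m nd h → Rr nd h x s1 s2 s3 s4 r → ¬ Q p r

variable {R σ α N} (hc : Ctx σ α N) (hi : IniOK R INI) {Q Q' : ℕ → Rg D → Prop}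
  {p p' m nd x s1 s2 s3 s4 : ℕ}

/-- a step that creates the dart `nd` and moves to it -/
theorem kb_new {m' nd' k : ℕ} {f : D → D} (H : BadB R σ α N Q p' m' nd' nd s1 s2 s3 s4)
    (hn : nd ≤ nd') (hk : 0 < k)
    (hQ : ∀ h r, Hom R σ α N m nd h → Rp nd h x r.x → nd' < 65536 → nd < 65536 → Q' p r →
      Q p' ⟨f r.x, r.s1, r.s2, r.s3, r.s4⟩ ∧ nd' = nd + k ∧
        ∃ h', Ext nd h h' ∧ h' nd = f r.x ∧ Hom R σ α N m' (nd + k) h') :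
    BadB R σ α N Q' p m nd x s1 s2 s3 s4 := by
  refine ⟨hn.trans_lt H.1, fun h r hh rr hq => ?_⟩
  obtain ⟨a, rfl, h', e1, e2, hh'⟩ := hQ h r hh rr.x H.1 (hn.trans_lt H.1) hq
  exact H.2 h' ⟨f r.x, r.s1, r.s2, r.s3, r.s4⟩ hh' ⟨Or.inr ⟨ext_val_new hh.nd1 hh.nd2 hk, e2⟩,
    kb_up e1 rr.s1, kb_up e1 rr.s2, kb_up e1 rr.s3, kb_up e1 rr.s4⟩ a

/-- a step that records facts -/
theorem kb_put {a : ℕ} (H : BadB R σ α N Q p' (Nat.lor m (Nat.mul (one m x) a)) nd x s1 s2 s3 s4)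
    (ha : Bits 64 127 a) (hQ : ∀ r, Q' p r → Facts R σ α N a r.x ∧ Q p' r) :
    BadB R σ α N Q' p m nd x s1 s2 s3 s4 :=
  ⟨H.1, fun h r hh rr hq => H.2 h r (k_one hh (rs_rp rr.x) ha (hQ r hq).1) rr (hQ r hq).2⟩

include hc hi

theorem kb_Z {y : ℕ} {w : ℕ} {f : D → D}
    (H : BadB R σ α N Q p (exZ m nd y) (tA m nd y w) nd s1 s2 s3 s4) (hw : w = 2 ^ 91 + 384)
    (hy : ∀ h z, Hom R σ α N m nd h → Rp nd h x z → Rp nd h y (f z))
    (hQ : ∀ r, Q' p r → α (f r.x) ∉ N ∧ Q p ⟨α (f r.x), r.s1, r.s2, r.s3, r.s4⟩) :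
    BadB R σ α N Q' p m nd x s1 s2 s3 s4 := by
  refine kb_new (f := fun z => α (f z)) (k := 384) H (Nat.le_add_right _ _) (by norm_num)
    fun h r hh rx h1 h2 hq => ?_
  have ry := hy h _ hh rx
  obtain ⟨a, b, c⟩ := k_tA hh (rs_rp ry).1 hw (by norm_num) h1
  have e := kb_val ry a
  exact ⟨(hQ r hq).2, c, e ▸ k_homZ hc hi hh a h2 b (e ▸ (hQ r hq).1)⟩

theorem kbl_A {w v : ℕ} (H : BadB R σ α N Q p (exA m nd x v) (tA m nd x w) nd s1 s2 s3 s4)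
    (hw : w = 2 ^ 91 + 128) (hQ : ∀ r, Q' p r → (v = INI ∨ (v = NB ||| INI ∧ α r.x ∈ N)) ∧
      Q p ⟨α r.x, r.s1, r.s2, r.s3, r.s4⟩) : BadB R σ α N Q' p m nd x s1 s2 s3 s4 := by
  refine kb_new (f := α) (k := 128) H (Nat.le_add_right _ _) (by norm_num)
    fun h r hh rx h1 h2 hq => ?_
  obtain ⟨a, b, c⟩ := k_tA hh (rs_rp rx).1 hw (by norm_num) h1
  have e := kb_val rx a
  exact ⟨(hQ r hq).2, c, e ▸ k_homA hc hi hh a h2 b (e ▸ (hQ r hq).1)⟩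

theorem kbl_F (H : BadB R σ α N Q p (exF m nd x) (tF m nd x) nd s1 s2 s3 s4)
    (hQ : ∀ r, Q' p r → Q p ⟨σ r.x, r.s1, r.s2, r.s3, r.s4⟩) :
    BadB R σ α N Q' p m nd x s1 s2 s3 s4 := by
  refine kb_new (f := σ) (k := 128) H (Nat.le_add_right _ _) (by norm_num)
    fun h r hh rx h1 h2 hq => ?_
  obtain ⟨a, b, c⟩ := k_tF hh (rs_rp rx).1 h1
  exact ⟨hQ r hq, c, kb_val rx a ▸ k_homF hc hi hh a h2 b⟩

theorem kb_B (H : BadB R σ α N Q p (exB m nd x) (tB m nd x) nd s1 s2 s3 s4)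
    (hQ : ∀ r, Q' p r → Q p ⟨σ⁻¹ r.x, r.s1, r.s2, r.s3, r.s4⟩) :
    BadB R σ α N Q' p m nd x s1 s2 s3 s4 := by
  refine kb_new (f := fun z => σ⁻¹ z) (k := 128) H (Nat.le_add_right _ _) (by norm_num)
    fun h r hh rx h1 h2 hq => ?_
  obtain ⟨a, b, c⟩ := k_tB hh (rs_rp rx).1 h1
  exact ⟨hQ r hq, c, kb_val rx a ▸ k_homB hc hi hh a h2 b⟩

theorem kbl_C {K w : ℕ} (H : BadB R σ α N Q p (cmpZ INI (put m x ZB) nd x (getF m (al m x)))
      (Nat.add nd (Nat.xor (Nat.shiftLeft (Nat.land (Nat.shiftRight m x) K) 16) w)) x s1 s2 s3 s4)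
    (hK : K = 2 ^ 91 + (2 ^ 34 - 1)) (hw : w = 2 ^ 91 * 65536 + 256)
    (hQ : ∀ r, Q' p r → r.x ∉ N ∧ Q p r) : BadB R σ α N Q' p m nd x s1 s2 s3 s4 := by
  have hn : nd < 65536 := lt_of_le_of_lt (Nat.le_add_right _ _) H.1
  refine ⟨hn, fun h r hh rr hq => ?_⟩
  obtain ⟨a, b⟩ := k_t16 hw (by norm_num) (lt_of_le_of_lt (Nat.le_add_left _ nd) H.1)
  subst hK
  have hd : Val nd x := k_vb hh (rs_rp rr.x).1 a (by decide) (by decide)
  have z1 : nx m x = 0 := k_nul (o := 0) a (by decide)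
  have z2 : pv m x = 0 := k_nul (o := 17) a (by decide)
  have e := kb_val rr.x hd
  have hN : h x ∉ N := e ▸ (hQ r hq).1
  have bz := chk_wide ext_bits_ZB le_rfl (by norm_num)
  have hh1 := ((all_put R D σ α N hc m nd h hh).2 x hd _
    ((all_tab R D σ α N hc (h x) 0).2.2.2.1.2 hN)).1 bz
  obtain ⟨g1, g2⟩ := (stRP R D σ α N hc m nd h hh _ _
    (rp_al hh (Or.inr ⟨hd, rfl⟩))).2.2.2.2.2.2.2.2.2.2.2
  obtain ⟨h', e1, hh2⟩ := (all_ext R D σ α N hc _ nd h hh1 INI hi (by omega) x hd).2.1 _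
    ((bld_nx_put bz).trans z1) ((bld_pv_put bz).trans z2) hN g1
    (ext_factsF g1 (stINV D σ α N hc.cls (h x)).2.2.2.2.2.2.2.2.1 g2)
  rw [b] at H
  exact H.2 h' r hh2 ⟨kb_up e1 rr.x, kb_up e1 rr.s1, kb_up e1 rr.s2, kb_up e1 rr.s3,
    kb_up e1 rr.s4⟩ (hQ r hq).2

theorem kb_tok (t : ℕ) (K : BO) (ih : BC) (fin : C2) (q : ℕ)
    (hK : ∀ p m nd x s1 s2 s3 s4, K.1 ih fin p q m nd x s1 s2 s3 s4 ≠ 0 →
      BadB R σ α N Q p m nd x s1 s2 s3 s4)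
    (H : (tokB t K).1 ih fin p q m nd x s1 s2 s3 s4 ≠ 0) :
    BadB R σ α N (fun p r => tokC R σ α N t p r ∧ Q (tokP t p) (tokS σ α t r))
      p m nd x s1 s2 s3 s4 := by
  have tb := fun z => (all_tab R D σ α N hc z 0).2.2.2.2.1
  by_cases ht : 17 ≤ t
  · obtain ⟨n, rfl⟩ : ∃ n, t = n + 17 := ⟨t - 17, by omega⟩
    exact absurd rfl H
  have ht' : t < 17 := by omega
  interval_cases t
  · exact kb_Z hc hi (y := nx m x) (f := σ) (hK _ _ _ _ _ _ _ _ H) (by norm_num)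
      (fun h z hh r => rp_nx hh r) fun r hq => hq
  · exact kb_Z hc hi (f := fun z => σ⁻¹ z) (hK _ _ _ _ _ _ _ _ H) (by norm_num)
      (fun h z hh r => k_pv2 m x ▸ rp_pv hh r) fun r hq => hq
  · exact kb_Z hc hi (y := x) (f := id) (hK _ _ _ _ _ _ _ _ H) (by norm_num)
      (fun h z hh r => r) fun r hq => hq
  · have B := hK _ _ _ _ _ _ _ _ H
    exact ⟨B.1, fun h r hh rr hq => B.2 h ⟨σ r.x, r.s1, r.s2, r.s3, r.s4⟩ hh
      ⟨rp_nx hh rr.x, rr.s1, rr.s2, rr.s3, rr.s4⟩ hq.2⟩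
  · have B := hK _ _ _ _ _ _ _ _ H
    exact ⟨B.1, fun h r hh rr hq => B.2 h ⟨σ⁻¹ r.x, r.s1, r.s2, r.s3, r.s4⟩ hh
      ⟨(k_pv2 m x).symm ▸ rp_pv hh rr.x, rr.s1, rr.s2, rr.s3, rr.s4⟩ hq.2⟩
  · exact kbl_F hc hi (hK _ _ _ _ _ _ _ _ H) fun r hq => hq.2
  · exact kb_B hc hi (hK _ _ _ _ _ _ _ _ H) fun r hq => hq.2
  · exact kbl_A hc hi (hK _ _ _ _ _ _ _ _ H) (by norm_num) fun r hq => ⟨.inl (by decide), hq.2⟩
  · have B := hK _ _ _ _ _ _ _ _ H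
    exact ⟨B.1, fun h r hh rr hq => B.2 h ⟨r.x, r.x, r.s1, r.s2, r.s3⟩ hh
      ⟨rr.x, rr.x, rr.s1, rr.s2, rr.s3⟩ hq.2⟩
  · have B := hK _ _ _ _ _ _ _ _ H
    exact ⟨B.1, fun h r hh rr hq => B.2 h ⟨r.s1, r.s2, r.s3, r.s4, r.s4⟩ hh
      ⟨rr.s1, rr.s2, rr.s3, rr.s4, rr.s4⟩ hq.2⟩
  · exact kb_put (hK _ _ _ _ _ _ _ _ H)
      (chk_wide (bld_bits_shift (w := 6) (s := 64)) le_rfl (by norm_num)) fun r hq => hq
  · exact kb_put (hK _ _ _ _ _ _ _ _ H)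
      (chk_wide (bld_bits_shift (w := 16) (s := 70)) (by norm_num) (by norm_num)) fun r hq => hq
  · exact kb_put (hK _ _ _ _ _ _ _ _ H) (kb_plA p) fun r hq => hq
  · exact kbl_A hc hi (hK _ _ _ _ _ _ _ _ H) (by norm_num)
      fun r hq => ⟨.inr ⟨by decide, hq.1⟩, hq.2⟩
  · exact kbl_C hc hi (hK _ _ _ _ _ _ _ _ H) (by norm_num) (by norm_num) fun r hq => hq
  · exact kb_put (a := NB) (hK _ _ _ _ _ _ _ _ H) (chk_wide chk_NB le_rfl (by norm_num))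
      fun r hq => ⟨(tb _).2 hq.1, hq.2⟩
  · exact kb_put (hK _ _ _ _ _ _ _ _ H)
      (chk_wide (bld_bits_shift (w := 16) (s := 70)) (by norm_num) (by norm_num)) fun r hq => hq

theorem kb_toks (ts : List ℕ) (ih : BC) (fin : C2) (q : ℕ)
    (hK : ∀ p m nd x s1 s2 s3 s4, ih.1 fin p q m nd x s1 s2 s3 s4 ≠ 0 →
      BadB R σ α N Q p m nd x s1 s2 s3 s4) :
    ∀ p m nd x s1 s2 s3 s4, (toksB ts).1 ih fin p q m nd x s1 s2 s3 s4 ≠ 0 →
      BadB R σ α N (HT R σ α N Q ts) p m nd x s1 s2 s3 s4 := by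
  induction ts with
  | nil => exact hK
  | cons t ts ihl => exact fun _ _ _ _ _ _ _ _ H => kb_tok hc hi t (toksB ts) ih fin q ihl H

end

theorem kb_lv (g : G) {D : Type} [Fintype D] {σ α : Perm D} {N : Set D} (hc : Ctx σ α N)
    (hi : IniOK g.R INI) (fin : C2)
    (hf : ∀ m nd, fin.1 m nd ≠ 0 → nd < 65536 ∧ ∀ h, Hom g.R σ α N m nd h → False) (n : ℕ) :
    ∀ q p m nd x s1 s2 s3 s4, (blv g n).1 fin p q m nd x s1 s2 s3 s4 ≠ 0 →
      BadB g.R σ α N (HQ g σ α N n q) p m nd x s1 s2 s3 s4 := by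
  induction n with
  | zero => exact fun _ _ _ _ _ _ _ _ _ H => absurd rfl H
  | succ n ih =>
    intro q p m nd x s1 s2 s3 s4 H
    change @Nat.rec (fun _ => ℕ) (fin.1 m nd) (fun b _ => (entB g b).1 (blv g n) fin p
      (Nat.shiftRight q 8) m nd x s1 s2 s3 s4) (Nat.land q 255) ≠ 0 at H
    generalize hk : Nat.land q 255 = z at H
    cases z with
    | zero => exact ⟨(hf m nd H).1, fun h _ hh _ _ => (hf m nd H).2 h hh⟩
    | succ b =>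
      have B := kb_toks hc hi (g.ent b).1 (blv g n) fin _ (ih _) _ _ _ _ _ _ _ _ H
      refine ⟨B.1, fun h r hh rr hq => ?_⟩
      rcases hq with h0 | ⟨b', h1, h2⟩
      · exact absurd (hk.symm.trans h0) (Nat.succ_ne_zero b)
      · obtain rfl : b' = b := Nat.succ_injective (h1.symm.trans hk)
        exact B.2 h r hh rr h2

theorem stKbld : St_kbld := by
  intro g hg D _ σ α N hc fin hf n p q x H
  have r : Rp 256 (fun _ => x) 128 x := Or.inr ⟨⟨le_rfl, by norm_num, dvd_rfl⟩, rfl⟩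
  exact (kb_lv g hc hg.ini fin hf n _ _ _ _ _ _ _ _ _ H).2 _ _
    (all_bld.2 g.R D σ α N hc INI hg.ini x) ⟨r, r, r, r, r⟩

end Pool.Agent.Lib.G6.K
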