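import Pool.Agent.Lib.G6.KExt

set_option autoImplicit false

/-! The bounds of the charges in the second checker. -/

namespace Pool.Agent.Lib.G6.K

open Equiv Finset
open Pool.Agent.Lib.MP_bfaad3_co (frc sel cj dj tb sb BT frc_eq sel_eq cj_iff dj_iff tb_eq sb_iff)

/-! The walk and its sum, packed in one number -/

/-- the darts of a walk, 17 bits each -/
def kbP (f : ℕ → ℕ) : ℕ → ℕ → ℕ
  | 0, _ => 0
  | n + 1, y => y * 2 ^ (17 * n) + kbP f n (f y)

theorem kb_lt {f : ℕ → ℕ} (hf : ∀ y, f y < 2 ^ 17) (n : ℕ) :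
    ∀ y, y < 2 ^ 17 → kbP f n y < 2 ^ (17 * n) := by
  induction n with
  | zero => exact fun _ _ => Nat.one_pos
  | succ n ih =>
    intro y hy
    have h1 := ih _ (hf y)
    have h2 : (y + 1) * 2 ^ (17 * n) ≤ 2 ^ 17 * 2 ^ (17 * n) := Nat.mul_le_mul_right _ hy
    rw [kbP, Nat.mul_succ, pow_add, Nat.mul_comm (2 ^ (17 * n))]
    rw [Nat.add_mul, Nat.one_mul] at h2
    omega

theorem kb_get {f : ℕ → ℕ} (hf : ∀ y, f y < 2 ^ 17) (i n : ℕ) :
    ∀ y, y < 2 ^ 17 → kbP f n y / 2 ^ (17 * i) % 2 ^ 17 ≠ 0 →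
      i < n ∧ kbP f n y / 2 ^ (17 * i) % 2 ^ 17 = f^[n - 1 - i] y := by
  induction n with
  | zero => exact fun y _ h => absurd (by simp [kbP]) h
  | succ n ih =>
    intro y hy H
    rcases lt_trichotomy i n with h | rfl | h
    · have e : kbP f (n + 1) y / 2 ^ (17 * i) % 2 ^ 17 = kbP f n (f y) / 2 ^ (17 * i) % 2 ^ 17 := by
        obtain ⟨j, rfl⟩ : ∃ j, n = i + j + 1 := ⟨n - i - 1, by omega⟩
        have e1 : y * 2 ^ (17 * (i + j + 1)) = 2 ^ (17 * i) * (2 ^ 17 * (y * 2 ^ (17 * j))) := by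
          ring
        rw [kbP, e1, Nat.mul_add_div (by positivity), Nat.mul_add_mod]
      rw [e] at H ⊢
      refine ⟨by omega, (ih _ (hf y) H).2.trans ?_⟩
      rw [show n + 1 - 1 - i = (n - 1 - i) + 1 by omega, Function.iterate_succ_apply]
    · refine ⟨Nat.lt_succ_self _, ?_⟩
      rw [kbP, Nat.mul_comm y, Nat.mul_add_div (by positivity),
        Nat.div_eq_of_lt (kb_lt hf i _ (hf y)), Nat.add_zero, Nat.mod_eq_of_lt hy,
        show i + 1 - 1 - i = 0 by omega]
      rfl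
    · refine absurd ?_ H
      rw [Nat.div_eq_of_lt ((kb_lt hf _ _ hy).trans_le
        (Nat.pow_le_pow_right two_pos (by omega))), Nat.zero_mod]

theorem kb_sum {w : ℕ → ℕ → ℕ} {t f : ℕ → ℕ} (h0 : ∀ y, w 0 y = 0)
    (h1 : ∀ n y, w (n + 1) y = y <<< (n * 17 + 16) + t y + w n (f y)) (n : ℕ) :
    ∀ y, w n y = kbP f n y * 65536 + ∑ i ∈ range n, t (f^[i] y) := by
  induction n with
  | zero => exact fun y => by rw [h0, kbP, sum_range_zero, Nat.zero_mul, Nat.add_zero]
  | succ n ih =>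
    intro y
    rw [h1, ih, kbP, sum_range_succ', Nat.shiftLeft_eq, pow_add, Nat.mul_comm n]
    simp only [Function.iterate_succ_apply, Function.iterate_zero_apply]
    ring

theorem kb_pos {P S : ℕ} (hS : S < 65536) (i : ℕ) :
    Nat.land (Nat.shiftRight (P * 65536 + S) (i * 17 + 16)) 131071 = P / 2 ^ (17 * i) % 2 ^ 17 := by
  change (P * 65536 + S) >>> (i * 17 + 16) &&& (2 ^ 17 - 1) = _
  rw [Nat.and_two_pow_sub_one_eq_mod, Nat.shiftRight_eq_div_pow, pow_add, Nat.mul_comm (2 ^ _),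
    ← Nat.div_div_eq_div_mul, Nat.mul_comm i, show (P * 65536 + S) / 2 ^ 16 = P by omega]

/-- the entry of the table of amounts for the ten bits of `x` from bit 3 on -/
def kbA (T x : ℕ) : ℕ := Nat.land (Nat.shiftRight T (Nat.land x 8184)) 255

theorem kb_A (T x : ℕ) : kbA T x = byt T (x >>> 3 % 1024) := by
  have e : x &&& 8184 = x >>> 3 % 1024 * 8 := by
    refine Nat.eq_of_testBit_eq fun i => ?_
    change (x &&& (2 ^ 10 - 1) <<< 3).testBit i = (x >>> 3 % 2 ^ 10 * 2 ^ 3).testBit i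
    rw [← Nat.shiftLeft_eq, Nat.testBit_and, Nat.testBit_shiftLeft, Nat.testBit_shiftLeft,
      Nat.testBit_mod_two_pow, Nat.testBit_two_pow_sub_one, Nat.testBit_shiftRight]
    by_cases h : 3 ≤ i
    · rw [show 3 + (i - 3) = i by omega, decide_eq_true h, Bool.true_and, Bool.true_and,
        Bool.and_comm]
    · rw [decide_eq_false h, Bool.false_and, Bool.false_and, Bool.and_false]
  change Nat.land (Nat.shiftRight T (x &&& 8184)) 255 = _
  rw [e]
  rfl

theorem kb_rts (t : BT RW) (r : ℕ) :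
    (BT.rec (fun r => .lf (r.1, r.2)) (fun k _ _ l r => .nd k l r) t : BT (W × Bool)).get r =
      ((t.get r).1, (t.get r).2) := by
  induction t with
  | lf a => rfl
  | nd k l s ihl ihs =>
    change sel (Nat.ble r k) _ _ = ((sel (Nat.ble r k) (l.get r) (s.get r)).1,
      (sel (Nat.ble r k) (l.get r) (s.get r)).2)
    cases Nat.ble r k
    exacts [ihs, ihl]

theorem kb_rP {r i : ℕ} (hr : r < 256) (h : (rP r).testBit i = true) : 10 ≤ i ∧ i < 26 := by
  rw [k_rP, Bool.and_eq_true, decide_eq_true_eq] at h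
  refine ⟨h.1, ?_⟩
  by_contra hc
  rw [ext_hi (n := 8) hr (by omega), ext_hi (n := 8) (Nat.xor_lt_two_pow (by norm_num) hr)
    (by omega)] at h
  simp at h

theorem kb_rP0 (r : ℕ) : (rP r).testBit 10 = true ∨ (rP r).testBit 18 = true := by
  rw [k_rP, k_rP, Nat.testBit_xor]
  cases r.testBit 0 <;> simp

theorem kb_or {a b i : ℕ} : (Nat.lor a b).testBit i = true ↔
    a.testBit i = true ∨ b.testBit i = true := by
  change (a ||| b).testBit i = true ↔ _
  rw [Nat.testBit_or, Bool.or_eq_true]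

theorem kb_shl {a s : ℕ} (i : ℕ) : (Nat.shiftLeft a s).testBit (s + i) = a.testBit i := by
  change (a <<< s).testBit _ = _
  rw [Nat.testBit_shiftLeft, Nat.add_sub_cancel_left, decide_eq_true (Nat.le_add_right _ _),
    Bool.true_and]

section
variable {R : Rule} {D : Type} [Fintype D] {σ α : Perm D} {N : Set D} {m nd e : ℕ} {h : ℕ → D}

/-- the amount claimed by an entry -/
theorem kb_amt (hR : RuleOK R) (hc : Ctx σ α N) (hh : Hom R σ α N m nd h)
    (A : Aux R σ α N e nd h) (h9 : ∀ k x, lv R σ α N k x ≤ 9) {d q y : ℕ} (hd : Val nd d)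
    (hy : ∀ i, y.testBit i = true → e.testBit (d + 26 * eK q + i) = true ∨
      (eK q ≤ 1 ∧ i < 10 ∧ m.testBit (d + (kof (eK q) + i)) = true))
    (H1 : sb (eMX R q) (Nat.shiftRight m d) = true)
    (H2 : ∀ i, (ePL q).testBit i = true → y.testBit i = true ∧
      ((eML q).testBit i = true ∨ i < 26)) :
    eV R q ≤ amt R σ α N (eK q) (h d) := by
  have hK : eK q < 4 := Nat.lt_succ_of_le Nat.and_le_right
  have hF : ∀ i, 64 ≤ i → i < 127 → (eMX R q).testBit i = true → Fact R σ α N i (h d) :=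
    fun i h1 h2 hb => hh.hf d i hd h1 h2 (by rw [← k_cell]; exact (sb_iff _ _).1 H1 i hb)
  have tab := all_tab R D σ α N hc (h d)
  have c16 := hR.2.2.2.2.1
  have hE : ∀ k < 4, ∀ i < 10, e.testBit (d + 26 * k + i) = true → lv R σ α N k (h d) ≠ i := by
    intro k hk i hi hb
    have h1 := (k_rT_lo _ hi).1 (A.lv d k i hd hk (by omega) hb)
    have h2 := h9 k (h d)
    unfold lv at h2 ⊢
    omega
  have hM : ∀ k ≤ 1, ∀ i < 10, Fact R σ α N (kof k + i) (h d) → lv R σ α N k (h d) ≠ i := by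
    intro k hk i hi hb
    rw [(lv_kof hk).1, lv_fact (by omega) (by rw [(lv_kof hk).2.1]; exact hi), lv_fv0] at hb
    have h2 := h9 k (h d)
    omega
  have ko : ∀ k ≤ 1, 92 ≤ kof k ∧ kof k ≤ 108 := by decide
  have hl : ∀ i < 10, y.testBit i = true → lv R σ α N (eK q) (h d) ≠ i := by
    intro i hi hb
    rcases hy i hb with h1 | ⟨h1, -, h2⟩
    · exact hE _ hK i hi h1
    · have := ko _ h1
      exact hM _ h1 i hi (hh.hf d _ hd (by omega) (by omega) h2)
  have n14 : Fact R σ α N 84 (h d) → fc σ α N (h d) ≠ 14 := fun h1 h2 => by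
    rw [Fact, if_neg (by omega), if_pos (by omega), h2] at h1
    exact h1 rfl
  have nc1 : (∀ i, (Nat.shiftLeft R.c1 70).testBit i = true → (eMX R q).testBit i = true) →
      R.c1.testBit (fc σ α N (h d)) = false := fun h1 =>
    (tab 0).2.2.2.2.2.2.2.2.1 _ c16 fun i hi =>
      hF i (bnd_bits_shift c16 i hi).1 (bnd_bits_shift c16 i hi).2 (h1 i hi)
  have hsh := A.sh d (eK q) hd
  have L9 := h9 (eK q) (h d)
  simp only [eV, eMX, ePL, eML, sel_eq, Nat.ble_eq, Nat.beq_eq, cj_iff, dj_iff, lv_mn]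
    at H2 hF nc1 ⊢
  generalize eS q = S at *
  generalize eK q = K at *
  generalize eA q = a at *
  generalize eW q = w at *
  have hlo : a ≤ 9 → w ≤ 9 → a ≤ lv R σ α N K (h d) := by
    intro h1 h2
    by_contra h3
    have h4 : (low a).testBit (lv R σ α N K (h d)) = true := by
      rw [lv_low]; exact decide_eq_true (by omega)
    refine hl _ (by omega) (H2 _ ?_).1 rfl
    split_ifs
    exacts [h4, kb_or.2 (Or.inl h4), kb_or.2 (Or.inl h4)]
  have hm0 : a ≤ 9 → w ≤ 9 → byt R.am0 a ≤ byt R.am0 (lv R σ α N K (h d)) := fun h1 h2 =>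
    bnd_mono hR (hlo h1 h2) (by omega)
  have c0 : a ≤ 9 → w = 0 → byt R.am0 a ≤ amt R σ α N K (h d) := by
    intro h1 h2
    rw [if_pos (by omega), if_pos h2] at hF nc1
    have h3 : ¬ (K ≤ 1 ∧ R.c1.testBit (fc σ α N (h d)) = true) := fun h3 => by
      rw [if_pos h3.1] at nc1
      rw [nc1 fun i hi => kb_or.2 (Or.inl hi)] at h3
      exact Bool.false_ne_true h3.2
    have h4 : ¬ (fc σ α N (h d) = 14 ∧ K ≤ 2) := fun h4 => by
      refine n14 (hF 84 (by omega) (by omega) ?_) h4.1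
      split_ifs
      · exact kb_or.2 (Or.inr (by decide))
      · decide
      · omega
    rw [amt, if_neg h3, if_neg h4]
    exact hm0 h1 (by omega)
  have c1 : a ≤ 9 → w = 1 ∧ K = 2 → min 6 (byt R.am0 a) ≤ amt R σ α N K (h d) := by
    rintro h1 ⟨h2, rfl⟩
    have h3 := hm0 h1 (by omega)
    rw [amt, if_neg (fun h => by omega), lng, if_pos rfl]
    split_ifs <;> omega
  have c2 : a ≤ 9 → K ≤ 1 → 2 ≤ w → w ≤ 3 → a ≠ 0 →
      (if w = 2 then 6 else 3) ≤ amt R σ α N K (h d) := by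
    intro h1 h2 h3 h4 h5
    rw [if_neg (by omega), if_pos h4] at hF nc1 H2
    have f1 := nc1 fun i hi => kb_or.2 (Or.inl (kb_or.2 (Or.inl hi)))
    obtain ⟨t1, t2⟩ := (tab 14).2.2.1 (by omega)
    have f2 := t2 fun i hi => hF i (by have := t1 i hi; omega) (by have := t1 i hi; omega)
      (kb_or.2 (Or.inl (kb_or.2 (Or.inr hi))))
    have f3 : lv R σ α N 2 (h d) = 0 := by
      by_contra h6
      have h7 := h9 2 (h d)
      have h8 := (H2 (52 - 26 * K + lv R σ α N 2 (h d)) (kb_or.2 (Or.inr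
        ((kb_shl _).trans ((lv_hig _ _).2 ⟨by omega, by omega⟩))))).1
      rcases hy _ h8 with h10 | h10
      · rw [show d + 26 * K + (52 - 26 * K + lv R σ α N 2 (h d)) =
          d + 26 * 2 + lv R σ α N 2 (h d) by omega] at h10
        exact hE 2 (by omega) _ (by omega) h10 rfl
      · omega
    have f4 : lv R σ α N (1 - K) (h d) < a + (w - 2) := by
      by_contra h6
      have h7 := h9 (1 - K) (h d)
      have h8 := ko (1 - K) (by omega)
      exact hM (1 - K) (by omega) _ (by omega) (hF _ (by omega) (by omega) (kb_or.2 (Or.inr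
        ((kb_shl _).trans ((lv_hig _ _).2 ⟨not_lt.1 h6, by omega⟩))))) rfl
    have f5 := hlo h1 (by omega)
    have f6 : amt R σ α N K (h d) = lng R σ α N K (h d) := by
      rw [amt, if_neg (fun h => by rw [f1] at h; exact Bool.false_ne_true h.2),
        if_pos ⟨f2, by omega⟩]
    rw [f6, lng, if_neg (by omega : ¬ K = 2),
      if_neg (show ¬ lv R σ α N 2 (h d) ≠ 0 from not_not.2 f3)]
    split_ifs <;> omega
  have c3 : a ≤ 9 → K ≤ 1 → 4 ≤ w → w ≤ 9 →
      byt R.th (w - 4) * byt R.am1 a / 12 ≤ amt R σ α N K (h d) := by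
    intro h1 h2 h3 h4
    rw [if_neg (by omega), if_neg (by omega), if_pos h4] at hF H2
    have f1 : lv R σ α N K (h d) = a := by
      refine le_antisymm ?_ (hlo h1 h4)
      by_contra h6
      exact hl _ (by omega) (H2 _ (kb_or.2 (Or.inr ((lv_hig _ _).2
        ⟨not_le.1 h6, by omega⟩)))).1 rfl
    have f3 : acl R σ α N K (h d) ≤ 5 := Nat.findGreatest_le 5
    have f2 : w - 4 ≤ acl R σ α N K (h d) := by
      by_contra h6
      have h8 := ko K h2
      have h7 := hF (kof K + 10 + acl R σ α N K (h d)) (by omega) (by omega)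
        ((kb_shl _).trans ((lv_low _ _).trans (decide_eq_true (not_le.1 h6))))
      rw [(lv_kof h2).2.2, lv_fact (by omega) (by
        have := lv_fv R σ α N (s := 2 * K + 1) (by omega) (h d)
        rwa [lv_fv1] at this), lv_fv1] at h7
      exact h7 rfl
    have f4 : byt R.th (acl R σ α N K (h d)) * byt R.am1 (lv R σ α N K (h d)) ≤
        12 * amt R σ α N K (h d) :=
      Nat.findGreatest_spec (P := fun j => byt R.th j * byt R.am1 (lv R σ α N K (h d)) ≤
        12 * amt R σ α N K (h d)) (m := 0) (Nat.zero_le 5)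
        (by rw [hR.2.2.2.2.2.2.2.2.2.1]; omega)
    have f5 : byt R.th (w - 4) ≤ byt R.th (acl R σ α N K (h d)) := by
      generalize acl R σ α N K (h d) = b at f2 f3
      induction b, f2 using Nat.le_induction with
      | base => exact le_rfl
      | succ b _ ih => exact (ih (by omega)).trans (hR.2.2.2.2.2.2.2.2.2.2.1 b (by omega))
    rw [f1] at f4
    have f6 := Nat.mul_le_mul_right (byt R.am1 a) f5
    omega
  have c4 : 10 ≤ w → K ≤ 1 → S ≤ amt R σ α N K (h d) := by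
    intro h1 h2
    rw [if_neg (by omega), if_neg (by omega), if_neg (by omega), if_neg (by omega)] at H2
    refine le_trans (Nat.le_of_testBit fun i hi => ?_) (hsh h2)
    obtain ⟨h3, h4⟩ := H2 (104 - 14 * K + i) ((kb_shl _).trans hi)
    have h5 : i < 6 := by
      rcases h4 with h4 | h4
      · have h6 : Nat.testBit (2 ^ 6 - 1) i = true := (kb_shl _).symm.trans h4
        rwa [Nat.testBit_two_pow_sub_one, decide_eq_true_eq] at h6
      · omega
    change (_ % 2 ^ 6).testBit i = true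
    rw [Nat.testBit_mod_two_pow, decide_eq_true h5, Bool.true_and, Nat.testBit_shiftRight,
      show d + 104 + 12 * K + i = d + 26 * K + (104 - 14 * K + i) by omega]
    exact (hy _ h3).resolve_right (by omega)
  by_cases h1 : a ≤ 9
  · rw [if_pos h1]
    by_cases h2 : w = 0
    · rw [if_pos h2]; exact c0 h1 h2
    rw [if_neg h2]
    by_cases h3 : 2 ≤ K
    · rw [if_pos h3]
      split_ifs with h4
      exacts [c1 h1 h4, Nat.zero_le _]
    rw [if_neg h3]
    by_cases h4 : w ≤ 3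
    · rw [if_pos h4]
      by_cases h5 : w = 1 ∨ a = 0
      · rw [if_pos h5]; exact Nat.zero_le _
      · rw [if_neg h5]; exact c2 h1 (by omega) (by omega) h4 (by omega)
    rw [if_neg h4]
    split_ifs with h5
    exacts [c3 h1 (by omega) (by omega) h5, c4 (by omega) (by omega)]
  · rw [if_neg h1]
    split_ifs with h2
    exacts [c4 h2.1 h2.2, Nat.zero_le _]

end

/-! The entries -/

/-- the dart of an entry -/
def kbD (c : ℕ) : ℕ := Nat.land (Nat.shiftRight c 15) 65408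

/-- the route of an entry -/
def kbR (k : ℕ) : ℕ := Nat.land (Nat.shiftRight k 4) 255

/-- the receiving dart -/
def kbY (acc i : ℕ) : ℕ := Nat.land (Nat.shiftRight acc (i * 17 + 16)) 131071

/-- the tests of an entry -/
noncomputable def kbZ (R : Rule) (k q v m acc c key z y : ℕ) : ℕ :=
  z + Nat.xor (Nat.land (Nat.shiftRight m (kbD c)) (eMX R q)) (eMX R q) +
    (Nat.xor (Nat.land y (Nat.lor (eML q) (rP (kbR k)))) (Nat.lor (ePL q) (rP (kbR k))) +
      Nat.xor v (kbY acc (Nat.land k 15))) +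
    (1 - kbY acc (Nat.land k 15) + (key - Nat.land k 16383))

/-- an entry, given what is read in the state -/
noncomputable def kbE (R : Rule) (k : ℕ) (f : ℕ → ℕ → ℕ) (Y : ℕ → ℕ → ℕ → ℕ) : LO :=
  ⟨fun ih m e acc c key rem z => ih.1 m e acc (Nat.shiftRight c 31) (Nat.land k 16383 + 1)
    (rem - eV R (Nat.shiftRight k 12))
    (kbZ R k (Nat.shiftRight k 12) (f m (kbD c)) m acc c key z (Y m e (kbD c)))⟩

theorem kb_en {g : G} {b : Bool} {k : ℕ} {ih : LC} {m e acc c key rem z : ℕ}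
    (H : (en g b k).1 ih m e acc c key rem z ≠ 0) :
    (g.fd.rt.get (kbR k)).2 = b ∧ ∃ y : ℕ, (∀ i, y.testBit i = true →
      e.testBit (kbD c + 26 * eK (Nat.shiftRight k 12) + i) = true ∨
      (eK (Nat.shiftRight k 12) ≤ 1 ∧ i < 10 ∧
        m.testBit (kbD c + (kof (eK (Nat.shiftRight k 12)) + i)) = true)) ∧
      ih.1 m e acc (Nat.shiftRight c 31) (Nat.land k 16383 + 1)
        (rem - eV g.R (Nat.shiftRight k 12)) (kbZ g.R k (Nat.shiftRight k 12)
          (walk m (g.fd.rt.get (kbR k)).1 (kbD c)) m acc c key z y) ≠ 0 := by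
  have e0 : en g b k = RW.rec (motive := fun _ => LO) (fun _ b' f _ =>
      sel (sel b' b (sel b false true)) (Nat.rec (motive := fun _ => LO)
        (kbE g.R k f fun m e d => Nat.lor (Nat.shiftRight e (d + eK (Nat.shiftRight k 12) * 26))
          (Nat.land (Nat.shiftRight (Nat.shiftRight m d) (kof (eK (Nat.shiftRight k 12)))) 1023))
        (fun _ _ => kbE g.R k f fun _ e d =>
          Nat.shiftRight e (d + eK (Nat.shiftRight k 12) * 26))
        (Nat.shiftRight (eK (Nat.shiftRight k 12)) 1)) ⟨fun _ _ _ _ _ _ _ _ => 0⟩)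
      (g.fd.rt.get (kbR k)) := rfl
  rw [e0] at H
  generalize g.fd.rt.get (kbR k) = t at H ⊢
  obtain ⟨w, b', f, rfl⟩ := t
  have hb : b' = b := by
    by_contra hb
    revert H hb
    cases b <;> cases b' <;> simp [sel]
  subst hb
  have e1 : sel b' b' (sel b' false true) = true := by cases b' <;> rfl
  refine ⟨rfl, ?_⟩
  change (sel (sel b' b' (sel b' false true)) _ _ : LO).1 _ _ _ _ _ _ _ _ ≠ 0 at H
  rw [e1] at H
  change ∃ y : ℕ, _ ∧ ih.1 _ _ _ _ _ _ (kbZ _ _ _ (walk m w _) _ _ _ _ _ y) ≠ 0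
  rw [← k_wkp]
  generalize eK (Nat.shiftRight k 12) = K at H ⊢
  have hs : ∀ i, (Nat.shiftRight e (kbD c + K * 26)).testBit i = true →
      e.testBit (kbD c + 26 * K + i) = true := fun i hi => by
    rwa [k_cell, Nat.mul_comm] at hi
  generalize hz : Nat.shiftRight K 1 = u at H
  cases u with
  | succ u => exact ⟨_, fun i hi => Or.inl (hs i hi), H⟩
  | zero =>
    refine ⟨_, fun i hi => (kb_or.1 hi).imp (hs i) fun h1 => ?_, H⟩
    change (Nat.shiftRight (Nat.shiftRight m _) _ &&& (2 ^ 10 - 1)).testBit i = true at h1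
    rw [Nat.testBit_and, Bool.and_eq_true, Nat.testBit_two_pow_sub_one, decide_eq_true_eq,
      k_cell, k_cell] at h1
    change K >>> 1 = 0 at hz
    rw [Nat.shiftRight_eq_div_pow] at hz
    exact ⟨by omega, h1.2, h1.1⟩

theorem kb_el {g : G} {b : Bool} {n m e acc c key rem z : ℕ}
    (H : (el g b (n + 1)).1 m e acc c key rem z ≠ 0) :
    z + rem = 0 ∨ ∃ k, (en g b k).1 (el g b n) m e acc c key rem z ≠ 0 := by
  change Nat.rec (motive := fun _ => ℕ) (Nat.mul (Nat.shiftRight c 22) (Nat.sub 1 (z + rem)))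
    (fun k _ => (en g b k).1 (el g b n) m e acc c key rem z) (Nat.land c 4194303) ≠ 0 at H
  generalize Nat.land c 4194303 = u at H
  cases u with
  | zero => exact Or.inl (k_fin H)
  | succ u => exact Or.inr ⟨u, H⟩

theorem kb_z {g : G} {b : Bool} {m e acc : ℕ} (n : ℕ) :
    ∀ c key rem z, (el g b n).1 m e acc c key rem z ≠ 0 → z = 0 := by
  induction n with
  | zero => exact fun _ _ _ _ H => absurd rfl H
  | succ n ih =>
    intro c key rem z H
    rcases kb_el H with H | ⟨k, H⟩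
    · omega
    · obtain ⟨-, y, -, H⟩ := kb_en H
      have := ih _ _ _ _ H
      unfold kbZ at this
      omega

section

variable (R : Rule) {D : Type} [Fintype D] (σ α : Perm D) (N : Set D)

open Classical in
/-- senders with key at least `key` -/
noncomputable def kbS (π : Perm D) (b : Bool) (x : D) (n key : ℕ) : Finset (ℕ × D) :=
  (range 4 ×ˢ univ).filter fun p => ∃ i < n, (rte R σ α N p.1 p.2).2 = b ∧
    (π ^ (n - 1 - i)) x = wr σ α (rte R σ α N p.1 p.2).1 p.2 ∧
    key ≤ i + 16 * (run σ α N (R.s p.1) p.2 / 16) + 4096 * p.1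

theorem kb_sub (π : Perm D) (b : Bool) (x : D) (n : ℕ) {key key' : ℕ} (h : key ≤ key') :
    kbS R σ α N π b x n key' ⊆ kbS R σ α N π b x n key := by
  intro p hp
  simp only [kbS, mem_filter] at hp ⊢
  obtain ⟨h0, i, h1, h2, h3, h4⟩ := hp
  exact ⟨h0, i, h1, h2, h3, h.trans h4⟩

theorem kb_inn (π : Perm D) (b : Bool) (x : D) (n key : ℕ) :
    ∑ p ∈ kbS R σ α N π b x n key, amt R σ α N p.1 p.2 ≤ inn2 R σ α N π b x := by
  classical
  rw [inn2, ← sum_product', kbS, sum_filter]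
  refine sum_le_sum fun p _ => ?_
  split_ifs with h1 h2
  · exact le_rfl
  · obtain ⟨i, -, h3, h4, -⟩ := h1
    exact absurd ⟨h3, ((n - 1 - i : ℕ) : ℤ), by rw [zpow_natCast, h4]⟩ h2
  · exact Nat.zero_le _
  · exact le_rfl

end

section

variable {g : G} {D : Type} [Fintype D] {σ α : Perm D} {N : Set D} {m nd e : ℕ} {h : ℕ → D}

/-- the entries bound what is received -/
theorem kb_inc (hg : GOK g) (hc : Ctx σ α N) (hh : Hom g.R σ α N m nd h)
    (A : Aux g.R σ α N e nd h)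
    (h9 : ∀ k x, run σ α N (g.R.s k) x < 4096 ∧ lv g.R σ α N k x ≤ 9) {π : Perm D} {b : Bool}
    {x : D} {n acc : ℕ} (hn : n ≤ Function.minimalPeriod π x)
    (ha : ∀ i, kbY acc i ≠ 0 → i < n ∧ Rs nd h (kbY acc i) ((π ^ (n - 1 - i)) x)) (u : ℕ) :
    ∀ c key rem z, (el g b u).1 m e acc c key rem z ≠ 0 →
      rem ≤ ∑ p ∈ kbS g.R σ α N π b x n key, amt g.R σ α N p.1 p.2 := by
  classical
  induction u with
  | zero => exact fun _ _ _ _ H => absurd rfl H
  | succ u ih =>
    intro c key rem z H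
    rcases kb_el H with H | ⟨k, H⟩
    · omega
    obtain ⟨b1, y, hy, H⟩ := kb_en H
    have z0 := kb_z _ _ _ _ _ H
    have H' := ih _ _ _ _ H
    clear H ih
    have hr : kbR k < 256 := Nat.lt_succ_of_le Nat.and_le_right
    have hK : eK (Nat.shiftRight k 12) < 4 := Nat.lt_succ_of_le Nat.and_le_right
    have i1 : Nat.land k 16383 =
        Nat.land k 15 + 16 * kbR k + 4096 * eK (Nat.shiftRight k 12) := by
      change k &&& (2 ^ 14 - 1) = (k &&& (2 ^ 4 - 1)) + 16 * (k >>> 4 &&& (2 ^ 8 - 1)) +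
        4096 * (k >>> 12 &&& (2 ^ 2 - 1))
      simp only [Nat.and_two_pow_sub_one_eq_mod, Nat.shiftRight_eq_div_pow]
      omega
    unfold kbZ at z0
    rw [i1] at z0 H'
    generalize Nat.shiftRight k 12 = q at *
    generalize Nat.land k 15 = i at *
    generalize kbR k = r at *
    have z1 := k_sb (k_xor0 (b := eMX g.R q) (a := Nat.land (Nat.shiftRight m (kbD c)) _)
      (by omega))
    have z2 := k_xor0 (a := Nat.land y (Nat.lor (eML q) (rP r))) (b := Nat.lor (ePL q) (rP r))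
      (by omega)
    have z3 := k_xor0 (a := walk m (g.fd.rt.get r).1 (kbD c)) (b := kbY acc i) (by omega)
    obtain ⟨a1, a2⟩ := ha i (by omega)
    have z4 : ∀ j, (Nat.lor (ePL q) (rP r)).testBit j = true →
        y.testBit j = true ∧ (Nat.lor (eML q) (rP r)).testBit j = true := fun j hj => by
      rw [← z2] at hj
      change (y &&& _).testBit j = true at hj
      rwa [Nat.testBit_and, Bool.and_eq_true] at hj
    have z5 : ∀ j, (rP r).testBit j = true → Val nd (kbD c) ∧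
        (rT (run σ α N (g.R.s (eK q)) (h (kbD c)))).testBit j = true := fun j hj =>
      aux_rs A (rs_self (k_dart _).1) hK (kb_rP hr hj).2
        ((hy j (z4 j (kb_or.2 (Or.inr hj))).1).resolve_right fun h1 => by
          have := (kb_rP hr hj).1
          omega)
    have hd : Val nd (kbD c) := (kb_rP0 r).elim (fun h1 => (z5 _ h1).1) fun h1 => (z5 _ h1).1
    have r1 := k_rT_rt (h9 _ _).1 hr fun j hj => (z5 j hj).2
    have l1 := kb_amt hg.ok hc hh A (fun k x => (h9 k x).2) hd hy z1 fun j hj =>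
      ⟨(z4 j (kb_or.2 (Or.inl hj))).1, (kb_or.1 (z4 j (kb_or.2 (Or.inl hj))).2).imp_right
        fun h1 => (kb_rP hr h1).2⟩
    have r2 : rte g.R σ α N (eK q) (h (kbD c)) = ((g.fd.rt.get r).1, b) := by
      rw [rte, r1, hg.rt, ← b1]
      exact kb_rts _ _
    obtain ⟨w0, w1⟩ := (rp_walk hh (g.fd.rt.get r).1 _ _ (Or.inr ⟨hd, rfl⟩)).resolve_left
      (by omega)
    rw [z3] at w0 w1
    rw [a2.2 w0] at w1
    have n1 : (eK q, h (kbD c)) ∉ kbS g.R σ α N π b x n (i + 16 * r + 4096 * eK q + 1) := by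
      intro hp
      simp only [kbS, mem_filter, r1, r2] at hp
      obtain ⟨-, j, a3, -, a4, a5⟩ := hp
      have := Function.iterate_injOn_Iio_minimalPeriod (f := π) (x := x)
        (show n - 1 - j ∈ Set.Iio _ from lt_of_lt_of_le (by omega) hn)
        (show n - 1 - i ∈ Set.Iio _ from lt_of_lt_of_le (by omega) hn)
        (by simp only [Perm.iterate_eq_pow]; rw [a4, w1])
      omega
    refine le_trans (?_ : rem ≤ amt g.R σ α N (eK q) (h (kbD c)) + _) (le_trans
      (le_of_eq (sum_insert (f := fun p => amt g.R σ α N p.1 p.2) n1).symm)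
      (sum_le_sum_of_subset (insert_subset ?_ (kb_sub g.R σ α N π b _ n (by omega)))))
    · omega
    · simp only [kbS, mem_filter, r1, r2, mem_product, mem_range, mem_univ, and_true]
      exact ⟨hK, i, a1, trivial, w1, by omega⟩

omit [Fintype D] in
theorem kb_walk {f : ℕ → ℕ} {π : Perm D} (hf : ∀ y z, Rs nd h y z → Rp nd h (f y) (π z)) {d : ℕ}
    (hd : 128 ∣ d) (i : ℕ) : Rs nd h (f^[i] d) ((π ^ i) (h d)) := by
  induction i with
  | zero => exact rs_self hd
  | succ i ih =>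
    rw [Function.iterate_succ_apply', pow_succ', Perm.mul_apply]
    exact rs_rp (hf _ _ ih)

theorem kb_top (hg : GOK g) (hc : Ctx σ α N)
    (h9 : ∀ k x, run σ α N (g.R.s k) x < 4096 ∧ lv g.R σ α N k x ≤ 9) {b : Bool}
    {c d K rem n S acc : ℕ} {f : ℕ → ℕ} (π : Perm D) (hd : 128 ∣ d ∧ d < 65536)
    (hK : Bits 64 127 K) (hf : ∀ y, f y < 2 ^ 17) (hacc : acc = kbP f n d * 65536 + S)
    (hS : S < 65536) (H : (el g b 40).1 m e acc c 0 rem
      (Nat.shiftRight (nd + Nat.xor (Nat.land (Nat.shiftRight m d) K) K) 16) ≠ 0) :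
    nd < 65536 ∧ ∀ h, Hom g.R σ α N m nd h → Aux g.R σ α N e nd h → Facts g.R σ α N K (h d) ∧
      ((∀ i, Rs nd h (f^[i] d) ((π ^ i) (h d))) → n ≤ Function.minimalPeriod π (h d) →
        rem ≤ inn2 g.R σ α N π b (h d)) := by
  have h0 := kb_z 40 _ _ _ _ H
  have h1 := k_shr16 h0
  refine ⟨by omega, fun h hh A => ⟨rs_sb hh (rs_self hd.1) hK
    (k_sub (k_bits16 hK (by omega)) (by omega)).1, fun hw hn => ?_⟩⟩
  refine (kb_inc hg hc hh A h9 hn (acc := acc) (fun i hi => ?_) 40 c 0 rem _ H).trans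
    (kb_inn _ _ _ _ _ _ _ _ _)
  rw [kbY, hacc, kb_pos hS] at hi ⊢
  obtain ⟨h2, h3⟩ := kb_get hf i n d (by omega) hi
  exact ⟨h2, h3 ▸ hw _⟩

omit [Fintype D] in
theorem kb_am (hg : GOK g) (x : ℕ) : kbA g.fd.am x ≤ 120 :=
  kb_A _ x ▸ (hg.am _ (Nat.mod_lt _ (by norm_num))).1

omit [Fintype D] in
theorem kb_ub (hg : GOK g) {x l : ℕ} (hl : l ≤ 9) (hx : x.testBit (3 + l) = true → False) :
    byt g.R.am0 l ≤ kbA g.fd.am x := by
  rw [kb_A]
  refine (hg.am _ (Nat.mod_lt _ (by norm_num))).2 l (by omega) ?_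
  change (_ % 2 ^ 10).testBit l = false
  rw [Nat.testBit_mod_two_pow, Nat.testBit_shiftRight, Bool.eq_false_iff.2 hx, Bool.and_false]

theorem kb_e (hg : GOK g) (A : Aux g.R σ α N e nd h) {y k s : ℕ} {z : D} (r : Rs nd h y z)
    (h9 : lv g.R σ α N k z ≤ 9) (hk : 2 ≤ k ∧ k < 4) (hs : s + 3 = 26 * k) :
    amt g.R σ α N k z ≤ kbA g.fd.am (Nat.shiftRight e (y + s)) := by
  have h1 := kb_ub hg (x := Nat.shiftRight e (y + s)) h9 fun hb => by
    rw [k_cell, show y + s + (3 + lv g.R σ α N k z) = y + 26 * k + lv g.R σ α N k z by omega] at hb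
    have h2 := (k_rT_lo _ (by omega)).1 (aux_rs A r hk.2 (by omega) hb).2
    unfold lv at h2 h9
    omega
  rw [amt, if_neg (fun h => by omega)]
  split_ifs with h2
  · obtain rfl : k = 2 := by omega
    rw [lng, if_pos rfl]
    exact (min_le_right _ _).trans h1
  · exact h1

theorem kb_m (hg : GOK g) (hh : Hom g.R σ α N m nd h) {y k s : ℕ} {z : D} (r : Rs nd h y z)
    (h9 : lv g.R σ α N k z ≤ 9) (hk : k ≤ 1) (hs : s + 3 = kof k)
    (h1 : g.R.c1.testBit (fc σ α N z) = false) (h2 : fc σ α N z ≠ 14) :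
    amt g.R σ α N k z ≤ kbA g.fd.am (Nat.shiftRight (Nat.shiftRight m y) s) := by
  rw [amt, if_neg (fun h => by simp [h1] at h), if_neg (fun h => h2 h.1)]
  refine kb_ub hg h9 fun hb => ?_
  have ko : ∀ k ≤ 1, 92 ≤ kof k ∧ kof k ≤ 108 := by decide
  have h3 := ko k hk
  rw [k_cell, k_cell, ← Nat.add_assoc s, hs] at hb
  have h4 := rs_fact hh r _ (by omega) (by omega) hb
  rw [(lv_kof hk).1, lv_fact (by omega) (by rw [(lv_kof hk).2.1]; omega), lv_fv0] at h4
  omega

theorem kb_le {t : ℕ → ℕ} {a : ℕ} (ht : ∀ i, t i ≤ a) (n : ℕ) : ∑ i ∈ range n, t i ≤ n * a := by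
  refine (sum_le_sum fun i _ => ht i).trans ?_
  rw [sum_const, card_range, smul_eq_mul]

theorem kb_bit {a b i : ℕ} (ha : Bits 64 127 a) (hb : Bits 64 127 b) :
    (Nat.lor a b).testBit i = true → 64 ≤ i ∧ i < 127 := fun h => (kb_or.1 h).elim (ha i) (hb i)

theorem kb_pow {j : ℕ} (h1 : 64 ≤ j) (h2 : j < 127) : Bits 64 127 (2 ^ j) := fun i hi => by
  rw [Nat.testBit_two_pow, decide_eq_true_eq] at hi
  omega

theorem kb_4095 (P S : ℕ) : Nat.land (P * 65536 + S) 4095 = S % 4096 := by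
  change _ &&& (2 ^ 12 - 1) = _
  rw [Nat.and_two_pow_sub_one_eq_mod]
  omega

variable (hg : GOK g) (hc : Ctx σ α N)
  (h9 : ∀ k x, run σ α N (g.R.s k) x < 4096 ∧ lv g.R σ α N k x ≤ 9)
include hg hc h9

theorem kb_V {n d c : ℕ} (hn : n < 16) (hd : 128 ∣ d ∧ d < 65536)
    (H : (el g false 40).1 m e ((bwV g.fd.am n).1 m e d) c 0
      (Nat.land ((bwV g.fd.am n).1 m e d) 4095 + 72 - n * 24)
      (Nat.shiftRight (nd + Nat.xor (Nat.land (Nat.shiftRight m d) (Nat.lor (2 ^ 124) (degX n)))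
        (Nat.lor (2 ^ 124) (degX n))) 16) ≠ 0) : nd < 65536 ∧ Bad g σ α N m nd e := by
  have e1 := kb_sum (w := fun n y => (bwV g.fd.am n).1 m e y) (f := nx m)
    (t := fun y => kbA g.fd.am (Nat.shiftRight e (y + 75))) (fun _ => rfl) (fun _ _ => rfl) n d
  have s1 := kb_le (fun i => kb_am hg (Nat.shiftRight e ((nx m)^[i] d + 75))) n
  obtain ⟨h1, h2⟩ := kb_top hg hc h9 σ hd (fun i => kb_bit (kb_pow (by omega) (by omega))
    (chk_wide (tab_degX_bits n) le_rfl (by omega))) (fun _ => Nat.lt_succ_of_le Nat.and_le_right)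
    e1 (by omega) H
  refine ⟨h1, fun h hh A => ?_⟩
  obtain ⟨h3, h4⟩ := h2 h hh A
  have w := kb_walk (f := nx m) (fun _ _ r => rs_nx hh r) hd.1
  have e2 := (all_tab g.R D σ α N hc (h d) n).1.2 fun i hi => h3 i (kb_or.2 (Or.inr hi))
  have h5 := h4 w e2.ge
  have h6 : NegV g.R σ α N (h d) := h3 124 (kb_or.2 (Or.inl (by decide)))
  have h7 := sum_le_sum (s := range n) fun i _ =>
    kb_e hg A (w i) (k := 3) (s := 75) (h9 _ _).2 (by omega) rfl
  rw [NegV, e2] at h6
  rw [e1, kb_4095] at h5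
  omega

theorem kb_F {n d c : ℕ} (hn : n < 16) (hd : 128 ∣ d ∧ d < 65536)
    (H : (el g true 40).1 m e ((bwF g.fd.am n).1 m e d) c 0
      (Nat.land ((bwF g.fd.am n).1 m e d) 4095 + 72 - n * 12)
      (Nat.shiftRight (nd + Nat.xor (Nat.land (Nat.shiftRight m d)
        (Nat.lor (Nat.lor (2 ^ 125) (lenX n)) (Nat.shiftLeft g.R.c1 70)))
        (Nat.lor (Nat.lor (2 ^ 125) (lenX n)) (Nat.shiftLeft g.R.c1 70))) 16) ≠ 0) :
    nd < 65536 ∧ Bad g σ α N m nd e := by
  have c16 := hg.ok.2.2.2.2.1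
  have e1 := kb_sum (w := fun n y => (bwF g.fd.am n).1 m e y) (f := ph m)
    (t := fun y => kbA g.fd.am (Nat.shiftRight e (y + 49)) +
      (kbA g.fd.am (Nat.shiftRight (Nat.shiftRight m y) 89) +
        kbA g.fd.am (Nat.shiftRight (Nat.shiftRight m y) 105))) (fun _ => rfl)
    (fun _ y => by rw [ph, ← k_alc]; rfl) n d
  have s1 := kb_le (fun i => Nat.add_le_add (kb_am hg (Nat.shiftRight e ((ph m)^[i] d + 49)))
    (Nat.add_le_add (kb_am hg (Nat.shiftRight (Nat.shiftRight m ((ph m)^[i] d)) 89))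
      (kb_am hg (Nat.shiftRight (Nat.shiftRight m ((ph m)^[i] d)) 105)))) n
  obtain ⟨h1, h2⟩ := kb_top hg hc h9 (σ * α) hd (fun i => kb_bit (fun i => kb_bit
    (kb_pow (by omega) (by omega)) (chk_wide (tab_lenX_bits n) (by omega) (by omega)))
    (bnd_bits_shift c16)) (fun _ => Nat.lt_succ_of_le Nat.and_le_right) e1 (by omega) H
  refine ⟨h1, fun h hh A => ?_⟩
  obtain ⟨h3, h4⟩ := h2 h hh A
  have w := kb_walk (f := ph m) (fun _ _ r => rs_ph hh r) hd.1
  have tab := all_tab g.R D σ α N hc (h d) n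
  have f0 : Facts g.R σ α N (lenX n) (h d) := fun i hi =>
    h3 i (kb_or.2 (Or.inl (kb_or.2 (Or.inr hi))))
  have e2 := tab.2.1.2 f0
  have n11 : n ≤ 11 := by
    by_contra h5
    exact tab.2.2.2.2.2.2.2.1 (tab_lenX_big (not_le.1 h5) ▸ f0)
  have e14 : fc σ α N (h d) ≠ 14 := fun h5 => by
    have := f0 84 (bnd_len n)
    rw [Fact, if_neg (by omega), if_pos (by omega), h5] at this
    exact this rfl
  have f1 := tab.2.2.2.2.2.2.2.2.1 _ c16 fun i hi => h3 i (kb_or.2 (Or.inr hi))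
  have h5 := h4 w e2.ge
  have h6 : NegF g.R σ α N (h d) := h3 125 (kb_or.2 (Or.inl (kb_or.2 (Or.inl (by decide)))))
  have h7 := sum_le_sum (s := range n) fun i _ => Nat.add_le_add
    (kb_e hg A (w i) (k := 2) (s := 49) (h9 _ _).2 (by omega) rfl) (Nat.add_le_add
      (kb_m hg hh (w i) (k := 0) (s := 89) (h9 _ _).2 (by omega) rfl
        (by rwa [bnd_fc stINV hc]) (by rwa [bnd_fc stINV hc]))
      (kb_m hg hh (w i) (k := 1) (s := 105) (h9 _ _).2 (by omega) rfl
        (by rwa [bnd_fc stINV hc]) (by rwa [bnd_fc stINV hc])))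
  rw [NegF, e2] at h6
  simp only [outF, Nat.add_comm _ (amt g.R σ α N 2 _)] at h6
  rw [e1, kb_4095] at h5
  omega

theorem kb_C {n j d c : ℕ} (hn : n < 16) (hd : 128 ∣ d ∧ d < 65536)
    (hj : g.R.c1.testBit j = true)
    (H : (el g true 40).1 m e ((bwC g.fd.am n).1 m e d) c 0
      (Nat.land ((bwC g.fd.am n).1 m e d) 4095 + (byt g.R.cap j + 72) + (byt g.R.kh j -
        Nat.land (Nat.shiftRight ((bwC g.fd.am n).1 m e d) 12) 15) * 12 - n * 12)
      (Nat.shiftRight (nd + Nat.xor (Nat.land (Nat.shiftRight m d)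
        (Nat.lor (Nat.lor (2 ^ 125) (lenX n)) (clsX j)))
        (Nat.lor (Nat.lor (2 ^ 125) (lenX n)) (clsX j))) 16) ≠ 0) :
    nd < 65536 ∧ Bad g σ α N m nd e := by
  classical
  have j16 := bnd_lt16 hg.ok.2.2.2.2.1 hj
  have e1 := kb_sum (w := fun n y => (bwC g.fd.am n).1 m e y) (f := ph m)
    (t := fun y => kbA g.fd.am (Nat.shiftRight e (y + 49)) +
      (1 - Nat.xor (Nat.land (Nat.shiftRight m y) TB) TB) * 4096) (fun _ => rfl)
    (fun _ y => by rw [ph, ← k_alc, ← Nat.shiftLeft_eq _ 12]; rfl) n d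
  rw [sum_add_distrib, ← sum_mul] at e1
  have s1 := kb_le (fun i => kb_am hg (Nat.shiftRight e ((ph m)^[i] d + 49))) n
  have s2 := kb_le (fun i => Nat.sub_le 1
    (Nat.xor (Nat.land (Nat.shiftRight m ((ph m)^[i] d)) TB) TB)) n
  obtain ⟨h1, h2⟩ := kb_top hg hc h9 (σ * α) hd (fun i => kb_bit (fun i => kb_bit
    (kb_pow (by omega) (by omega)) (chk_wide (tab_lenX_bits n) (by omega) (by omega)))
    (chk_wide (tab_clsX_bits (by omega)) (by omega) (by omega)))
    (fun _ => Nat.lt_succ_of_le Nat.and_le_right) e1 (by omega) H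
  refine ⟨h1, fun h hh A => ?_⟩
  obtain ⟨h3, h4⟩ := h2 h hh A
  have w := kb_walk (f := ph m) (fun _ _ r => rs_ph hh r) hd.1
  have tab := all_tab g.R D σ α N hc (h d)
  have e2 := (tab n).2.1.2 fun i hi => h3 i (kb_or.2 (Or.inl (kb_or.2 (Or.inr hi))))
  have f1 := ((tab j).2.2.1 (by omega)).2 fun i hi => h3 i (kb_or.2 (Or.inr hi))
  have h5 := h4 w e2.ge
  have h6 : NegF g.R σ α N (h d) := h3 125 (kb_or.2 (Or.inl (kb_or.2 (Or.inl (by decide)))))
  have h7 := sum_le_sum (s := range n) fun i _ =>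
    kb_e hg A (w i) (k := 2) (s := 49) (h9 _ _).2 (by omega) rfl
  have h8 := stSUP stINV g.R D σ α N hc (h d) (by rwa [f1])
  have h10 : ∑ i ∈ range n, (1 - Nat.xor (Nat.land (Nat.shiftRight m ((ph m)^[i] d)) TB) TB) ≤
      cnt2 σ α N (h d) := by
    rw [cnt2, e2, card_filter]
    refine sum_le_sum fun i _ => ?_
    split_ifs with s3
    · exact Nat.sub_le _ _
    by_contra s4
    have t3 : Bits 64 127 TB := fun j hj => by
      have := (bnd_tb j).1 hj
      omega
    have t4 := rs_sb hh (w i) t3 (k_sb (k_xor0 (by omega)))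
    have t5 := (stINV D σ α N hc.cls (((σ * α) ^ i) (h d))).2.1
    have t6 := t4 (vt σ N (((σ * α) ^ i) (h d)) + 64) ((bnd_tb _).2 (by omega))
    rw [Fact, if_pos (by omega)] at t6
    exact t6 rfl
  have e3 : ∀ x : ℕ, Nat.land (Nat.shiftRight x 12) 15 = x / 4096 % 16 := fun x => by
    change x >>> 12 &&& (2 ^ 4 - 1) = _
    rw [Nat.and_two_pow_sub_one_eq_mod, Nat.shiftRight_eq_div_pow]
  rw [NegF, e2] at h6
  simp only [outF] at h6
  rw [sum_add_distrib] at h6
  rw [e2, capx, f1] at h8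
  rw [e3, e1, kb_4095] at h5
  omega

end

theorem stKBND (hev : St_kev) : St_kbnd := by
  intro g hg D _ σ α N hc k
  have h9 := (hev g hg D σ α N hc).1
  have hn : Nat.land (Nat.shiftRight k 7) 15 < 16 := Nat.lt_succ_of_le Nat.and_le_right
  refine ⟨fun ih _ lim _ m nd e c H => kb_V hg hc h9 hn (k_dart _) H,
    fun ih _ lim _ m nd e c H => ?_⟩
  unfold oBnf at H
  generalize Nat.shiftRight k (nat_lit 15) = u at H
  cases u with
  | zero => exact kb_F hg hc h9 hn (k_dart _) H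
  | succ u =>
    change (sel (tb g.R.c1 _) _ _ : Op).1 _ _ _ _ _ _ ≠ 0 at H
    rw [sel_eq] at H
    split_ifs at H with hj
    · exact kb_C hg hc h9 hn (k_dart _) (tb_eq _ _ ▸ hj) H
    · exact absurd rfl H

end Pool.Agent.Lib.G6.K
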