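import Pool.Agent.Lib.G6.KShr

set_option autoImplicit false

/-! The amounts on long faces in the second checker. -/

namespace Pool.Agent.Lib.G6.K

open Equiv
open Pool.Agent.Lib.MP_bfaad3_co (frc sel cj dj tb sb BT sel_eq cj_iff tb_eq sb_iff)

/-- the mask of the operation -/
noncomputable def lK (R : Rule) (a k t w : ℕ) : ℕ :=
  Nat.lor (Nat.lor (clsX 14) (Nat.shiftLeft R.c1 70))
    (Nat.lor (Nat.shiftLeft (hig (Nat.add a w)) (Nat.sub 108 (Nat.mul k 16)))
      (Nat.shiftLeft (Nat.land 63 (hig t)) (Nat.add (Nat.add (Nat.mul k 16) 92) 10)))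

theorem kl_lng {g : G} {D : Type} [Fintype D] {σ α : Perm D} {N : Set D} (ok : GOK g)
    (hl : ∀ k x, lv g.R σ α N k x ≤ 9) (hc : Ctx σ α N) {a k t w m nd e c d : ℕ} (a1 : 1 ≤ a)
    (a9 : a ≤ 9) (hk : k ≤ 1) (ht : t ≤ 5) (hd : 128 ∣ d)
    (hv : byt g.R.th t * byt g.R.amx 15 ≤ 12 * (6 - 3 * w))
    (H : Nat.mul c (Nat.sub 1 (Nat.add (Nat.add (Nat.shiftRight (Nat.add nd
      (Nat.xor (Nat.land (Nat.shiftRight m d) (lK g.R a k t w)) (lK g.R a k t w))) 16)
      (Nat.xor (Nat.land (Nat.lor (Nat.shiftRight e (Nat.add d (Nat.mul k 26)))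
        (Nat.land (Nat.shiftRight (Nat.shiftRight m d) (Nat.add (Nat.mul k 16) 92)) 1023))
        (low a)) (low a)))
      (Nat.xor (Nat.land (Nat.shiftRight e (Nat.add d 52)) (hig 1)) (hig 1)))) ≠ 0) :
    nd < 65536 ∧ Bad g σ α N m nd e := by
  obtain ⟨h0, h2⟩ := Nat.add_eq_zero_iff.1 (k_fin H)
  obtain ⟨h1, h4⟩ := Nat.add_eq_zero_iff.1 h0
  have h3 := k_shr16 h1
  refine ⟨lt_of_le_of_lt (Nat.le_add_right _ _) h3, fun h hh A => ?_⟩
  have e1 : Nat.sub 108 (Nat.mul k 16) = fo (2 * (1 - k)) := by interval_cases k <;> rfl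
  have e2 : Nat.add (Nat.add (Nat.mul k 16) 92) 10 = fo (2 * k + 1) := by
    interval_cases k <;> rfl
  have e3 : Nat.add (Nat.mul k 16) 92 = fo (2 * k) := by interval_cases k <;> rfl
  have hK : lK g.R a k t w % 65536 = 0 :=
    ks_lor (ks_lor (ks_cls 14 (by norm_num)).1 (ks_shl _ (by norm_num)))
      (ks_lor (ks_shl _ (by rw [e1]; have := lv_fo (s := 2 * (1 - k)) (by omega); omega))
        (ks_shl _ (Nat.le_add_right_of_le (Nat.le_add_left_of_le (by norm_num)))))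
  obtain ⟨s1, s2⟩ := ks_or (k_sub hK (lt_of_le_of_lt (Nat.le_add_left _ _) h3)).1
  obtain ⟨s3, s4⟩ := ks_or s1
  obtain ⟨s5, s6⟩ := ks_or s2
  rw [e1] at s5
  rw [e2] at s6
  rw [e3, k_shr] at h4
  have r : Rs nd h d (h d) := rs_self hd
  have tab := all_tab g.R D σ α N hc (h d)
  have c16 := ok.ok.2.2.2.2.1
  have f1 := (tab 0).2.2.2.2.2.2.2.2.1 _ c16 (rs_sb hh r (bnd_bits_shift c16) s4)
  obtain ⟨t1, t2⟩ := (tab 14).2.2.1 (by omega)
  have f2 := t2 (rs_sb hh r (fun i hi => by have := t1 i hi; omega) s3)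
  have hE : ∀ k < 4, e.testBit (d + 26 * k + lv g.R σ α N k (h d)) = true → False := by
    intro k hk hb
    have h9 := hl k (h d)
    have h5 := (k_rT_lo _ (by omega)).1 (aux_rs A r hk (by omega) hb).2
    unfold lv at h5 h9
    omega
  have f3 : lv g.R σ α N 2 (h d) = 0 := by
    by_contra h6
    have h7 := hl 2 (h d)
    have h8 := (sb_iff _ _).1 (k_sb (k_xor0 h2)) _ ((lv_hig 1 (lv g.R σ α N 2 (h d))).2
      ⟨by omega, by omega⟩)
    rw [k_cell] at h8
    exact hE 2 (by omega) h8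
  have f4 : lv g.R σ α N (1 - k) (h d) < a + w := by
    have h5 := lv_read (s := 2 * (1 - k)) (by omega) (rs_fact hh r) (ks_sh s5)
    have h7 := hl (1 - k) (h d)
    rw [lv_fv0, min_eq_left h7, ← Bool.not_eq_true, lv_hig] at h5
    change ¬ (a + w ≤ _ ∧ _) at h5
    omega
  have f5 : a ≤ lv g.R σ α N k (h d) := by
    by_contra h6
    have h7 := hl k (h d)
    have h8 := (sb_iff _ _).1 (k_sb (k_xor0 h4)) (lv g.R σ α N k (h d))
      ((lv_low _ _).trans (decide_eq_true (not_le.1 h6)))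
    have h9 := lv_bit (s := 2 * k) (by omega) (rs_fact hh r)
    rw [lv_fv0, min_eq_left h7] at h9
    change Nat.testBit (_ ||| _ &&& _) _ = true at h8
    rw [Nat.testBit_or, Nat.testBit_and, Bool.or_eq_true, Bool.and_eq_true] at h8
    rcases h8 with h8 | h8
    · rw [k_cell] at h8
      exact hE k (by omega) (by rwa [Nat.mul_comm])
    · exact Bool.false_ne_true (h9.symm.trans h8.1)
  have f6 : amt g.R σ α N k (h d) = lng g.R σ α N k (h d) := by
    rw [amt, if_neg (fun h => by rw [f1] at h; exact Bool.false_ne_true h.2),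
      if_pos ⟨f2, by omega⟩]
  have f7 : 6 - 3 * w ≤ amt g.R σ α N k (h d) := by
    rw [f6, lng, if_neg (by omega : ¬ k = 2),
      if_neg (show ¬ lv g.R σ α N 2 (h d) ≠ 0 from not_not.2 f3)]
    split_ifs <;> omega
  have f8 := (ok.ok.2.2.2.1 (lv g.R σ α N k (h d)) (by have := hl k (h d); omega) 15 (by omega)
    (by have := hl k (h d); omega)).1
  have h5 := lv_read (s := 2 * k + 1) (by omega) (rs_fact hh r) (ks_sh s6)
  have h6 : acl g.R σ α N k (h d) ≤ 5 := Nat.findGreatest_le 5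
  change ((2 ^ 6 - 1) &&& hig t).testBit _ = false at h5
  rw [← Bool.not_eq_true, Nat.testBit_and, Bool.and_eq_true, Nat.testBit_two_pow_sub_one,
    decide_eq_true_eq, lv_hig, lv_fv1] at h5
  refine h5 ⟨by omega, Nat.le_findGreatest ht ?_, by omega⟩
  have h7 := Nat.mul_le_mul_left (byt g.R.th t) f8
  omega

theorem stKlng (hev : St_kev) :
    AllG fun g _ _ σ α N => ∀ k, GoodO g σ α N (oLng g k) := by
  intro g ok D _ σ α N hc k
  unfold oLng
  rw [sel_eq]
  split_ifs with c0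
  · simp only [cj_iff, Nat.ble_eq] at c0
    intro ih _ lim _ m nd e c H
    exact kl_lng ok (fun k x => ((hev g ok D σ α N hc).1 k x).2) hc c0.1 c0.2.1 Nat.and_le_right
      c0.2.2.1 (k_dart _).1 c0.2.2.2 H
  · exact fun _ _ _ _ _ _ _ _ H => absurd rfl H

end Pool.Agent.Lib.G6.K
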