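import Pool.Agent.Lib.G6.KBas

set_option autoImplicit false
set_option maxRecDepth 100000

/-! The classes of faces in the second checker. -/

namespace Pool.Agent.Lib.G6.K

open Equiv
open Pool.Agent.Lib.MP_bfaad3_co (frc sel cj dj tb sb BT)

noncomputable section

/-- the dart named in the stream -/
def rD (c : ℕ) : ℕ := Nat.land (Nat.shiftRight c (nat_lit 9)) (nat_lit 65408)

/-- the successor on the face -/
def rP1 (m y : ℕ) : ℕ :=
  Nat.land (Nat.shiftRight m (Nat.land (Nat.shiftRight (Nat.shiftRight m y) (nat_lit 34))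
    (nat_lit 0x1ffff))) (nat_lit 0x1ffff)

/-- the entry of the table of types -/
def rE (m y : ℕ) : ℕ :=
  Nat.shiftRight VT (Nat.land (Nat.shiftRight (Nat.shiftRight m y) (nat_lit 60)) (nat_lit 1008))

/-- the dart after `n` steps -/
def rY (m n : ℕ) : ℕ → ℕ := @Nat.rec (fun _ => ℕ → ℕ) (fun y => y) (fun _ ih y => ih (rP1 m y)) n

/-- the sum of `n + 1` entries -/
def rS (m n : ℕ) : ℕ → ℕ :=
  @Nat.rec (fun _ => ℕ → ℕ) (fun y => rE m y) (fun _ ih y => Nat.add (rE m y) (ih (rP1 m y))) n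

/-- the classes excluded by the counts -/
def rA (n LO HI m y : ℕ) : ℕ :=
  Nat.land (Nat.lor (Nat.shiftRight LO (Nat.land (rS m n y) (nat_lit 240)))
    (Nat.shiftRight HI (Nat.land (Nat.shiftRight (rS m n y) (nat_lit 4)) (nat_lit 240))))
    (nat_lit 65535)

/-- the same with the class of 5-faces -/
def rB (LO HI m y : ℕ) : ℕ :=
  Nat.lor (rA 4 LO HI m y)
    (Nat.sub (nat_lit 1) (Nat.land (Nat.shiftRight (rS m 4 y) (nat_lit 12)) (nat_lit 15)))

/-- record the classes `A` -/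
def rO (A : ℕ → ℕ → ℕ) (k : ℕ) : Op :=
  ⟨fun ih lim m nd e c => ih.1 lim (Nat.lor m (Nat.mul ((mskF k).1 m (rD c))
    (Nat.shiftLeft (A m (rD c)) (nat_lit 70)))) nd e (Nat.shiftRight c (nat_lit 25))⟩

/-- record the classes `A`, and `X` if the face closes after `n` steps -/
def rG (A : ℕ → ℕ → ℕ) (n X k : ℕ) : Op :=
  @Nat.rec (fun _ => Op) (rO A k) (fun _ _ => ⟨fun ih lim m nd e c => ih.1 lim
    (Nat.lor m (Nat.mul ((mskF k).1 m (rD c))
      (Nat.shiftLeft (Nat.lor (A m (rD c)) X) (nat_lit 70))))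
    (Nat.add nd (Nat.shiftLeft (Nat.xor (rY m n (rD c)) (rD c)) (nat_lit 16))) e
    (Nat.shiftRight c (nat_lit 25))⟩) (Nat.shiftRight k (nat_lit 15))

end

/-- the tables of the counts are correct -/
def rT0 (n LO HI : ℕ) : Prop := ∀ j < 13, ∀ c < 16,
  ((LO >>> (16 * j)).testBit c = true → n < fl c ∧ rel_khi c < j ∧ rel_khi c < 4) ∧
  ((HI >>> (16 * j)).testBit c = true → fl c = n + 1 ∧ j < rel_klo c)

instance (n LO HI : ℕ) : Decidable (rT0 n LO HI) := by unfold rT0; infer_instance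

/-- the entry `u` is correct for the type `t` -/
def rV (u t : ℕ) : Prop := u % 16 = 0 ∧ u / 16 % 16 ≤ (if t = 1 then 1 else 0) ∧
  (if t = 1 then 1 else 0) ≤ u / 256 % 16 ∧ u / 256 % 16 ≤ 1 ∧ u / 4096 % 16 ≤ 1 ∧
  (u / 4096 % 16 = 0 → t = 0)

instance (u t : ℕ) : Decidable (rV u t) := by unfold rV; infer_instance

theorem kr_VT : ∀ v < 64, ∀ t < 6, Nat.testBit v t = false → rV (VT >>> (16 * v)) t := by
  decide +kernel

theorem kr_and {u K j : ℕ} (h1 : K % 2 ^ 4 = 0) (h2 : K / 2 ^ 4 = 2 ^ j - 1) :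
    Nat.land u K = 16 * (u / 16 % 2 ^ j) := by
  change u &&& K = _
  have e1 : (u &&& K) % 2 ^ 4 = 0 := by rw [Nat.and_mod_two_pow, h1, Nat.and_zero]
  have e2 : (u &&& K) / 2 ^ 4 = u / 16 % 2 ^ j := by
    rw [Nat.and_div_two_pow, h2, Nat.and_two_pow_sub_one_eq_mod]
  omega

theorem kr_ph (m y : ℕ) : rP1 m y = ph m y := congrArg (nx m) (k_alc m y)

theorem kr_cn {D : Type} (σ α : Perm D) (N : Set D) (x : D) (n : ℕ) :
    rel_cn σ α N x (n + 1) =
      (if vt σ N x = 1 then 1 else 0) + rel_cn σ α N ((σ * α) x) n := by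
  induction n with
  | zero => rw [rel_cn_succ]; simp [rel_cn]
  | succ n ih =>
    rw [rel_cn_succ, ih, rel_cn_succ, pow_succ, add_assoc]
    rfl

section
variable {R : Rule} {D : Type} [Fintype D] {σ α : Perm D} {N : Set D} {m nd : ℕ} {h : ℕ → D}

theorem kr_nul (hh : Hom R σ α N m nd h) {d : ℕ} (hd : 128 ∣ d) (hv : ¬ Val nd d) (o : ℕ)
    (ho : o ≤ 34) : fld m d o = 0 := by
  by_cases h1 : nd ≤ d
  · exact ext_fld_top hh.top h1
  · obtain rfl : d = 0 := by
      by_contra h0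
      exact hv ⟨Nat.le_of_dvd (by omega) hd, by omega, hd⟩
    exact rp_low (d := 0 + o) fun i hi => hh.nul _ (by omega) (Or.inl (by omega))

theorem kr_wk {f : ℕ → ℕ} {w : ℕ → C2} (f0 : f 0 = 0)
    (h0 : ∀ y, (w 0).1 m y = Nat.shiftLeft 1 (f y))
    (h1 : ∀ n y, (w (n + 1)).1 m y = Nat.lor (Nat.shiftLeft 1 (f y)) ((w n).1 m (f y))) (n : ℕ) :
    ∀ d, f d = 0 → (w n).1 m d = 1 := by
  induction n with
  | zero => intro d hd; rw [h0, hd]; rfl
  | succ n ih => intro d hd; rw [h1, hd, ih 0 f0]; rfl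

/-- nothing is recorded from a number that is not a dart -/
theorem kr_msk0 (hh : Hom R σ α N m nd h) {d : ℕ} (hd : 128 ∣ d) (hv : ¬ Val nd d) (k : ℕ) :
    (mskF k).1 m d = 0 := by
  have v0 : ¬ Val nd 0 := fun h => absurd h.1 (by norm_num)
  have a : ∀ y, 128 ∣ y → ¬ Val nd y → nx m y = 0 ∧ pv m y = 0 ∧ al m y = 0 := fun y h1 h2 =>
    ⟨kr_nul hh h1 h2 0 (by omega), kr_nul hh h1 h2 17 (by omega), kr_nul hh h1 h2 34 le_rfl⟩
  have a0 := a 0 (dvd_zero _) v0
  have ad := a d hd hv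
  have hF : ∀ n, (wF n).1 m d = 1 := fun n =>
    kr_wk (f := fun y => nx m (Nat.land (Nat.shiftRight (Nat.shiftRight m 34) y) 131071))
      (by rw [k_al2, a0.2.2, a0.1]) (fun _ => rfl) (fun _ _ => rfl) n d
      (by rw [k_al2, ad.2.2, a0.1])
  have hB : ∀ n, (wB n).1 m d = 1 := fun n =>
    kr_wk (f := fun y => Nat.land (Nat.shiftRight (Nat.shiftRight m 34)
        (Nat.land (Nat.shiftRight (Nat.shiftRight m 17) y) 131071)) 131071)
      (by rw [k_al2, k_pv2, a0.2.1, a0.2.2]) (fun _ => rfl) (fun _ _ => rfl) n d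
      (by rw [k_al2, k_pv2, ad.2.1, a0.2.2])
  have key : ∀ s : ℕ, (∀ j, s.testBit j = true → 128 ∣ j ∧ ¬ Val nd j) →
      Nat.land (Nat.shiftRight m 91) s = 0 := fun s hs => Nat.eq_of_testBit_eq fun j => by
    change (m >>> 91 &&& s).testBit j = _
    rw [Nat.zero_testBit, Nat.testBit_and, Nat.testBit_shiftRight, Nat.add_comm,
      Bool.and_eq_false_imp]
    intro h1
    by_contra h2
    obtain ⟨h3, h4⟩ := hs j (by simpa using h2)
    exact h4 (k_val hh h3 (by norm_num) (by norm_num) h1)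
  have b1 : ∀ j, (Nat.shiftLeft 1 d).testBit j = true → 128 ∣ j ∧ ¬ Val nd j :=
    fun _ hj => put2_one hj ▸ ⟨hd, hv⟩
  have b0 : ∀ j, Nat.testBit 1 j = true → 128 ∣ j ∧ ¬ Val nd j :=
    fun _ hj => put2_one (x := 0) hj ▸ ⟨dvd_zero _, v0⟩
  unfold mskF
  generalize Nat.land (Nat.shiftRight k 7) 15 = k1
  generalize Nat.land (Nat.shiftRight k 11) 15 = k2
  cases k1 <;> cases k2
  · exact key _ b1
  · exact key _ (k_orb b1 (hB _ ▸ b0))
  · exact key _ (k_orb b1 (hF _ ▸ b0))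
  · exact key _ (k_orb (k_orb b1 (hF _ ▸ b0)) (hB _ ▸ b0))

theorem kr_put (hc : Ctx σ α N) (hh : Hom R σ α N m nd h) {a d : ℕ} (hd : 128 ∣ d)
    (ha : Val nd d → rel_Good (fc σ α N (h d)) a) (k : ℕ) :
    Hom R σ α N (Nat.lor m (Nat.mul ((mskF k).1 m d) (Nat.shiftLeft a 70))) nd h := by
  by_cases hv : Val nd d
  · have key : ∀ i, (Nat.shiftLeft a 70).testBit i = true → 70 ≤ i ∧ i - 70 < 22 ∧
        i - 70 ≠ fc σ α N (h d) := by
      intro i hi
      change (a <<< 70).testBit i = true at hi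
      rw [Nat.testBit_shiftLeft] at hi
      simp only [Bool.and_eq_true, decide_eq_true_eq] at hi
      exact ⟨hi.1, ha hv _ hi.2⟩
    refine k_mskF hc hh (fun i hi => ?_) (rs_self hd) (fun i hi => ?_) k
    · have := key i hi
      omega
    · have := key i hi
      unfold Fact
      rw [if_neg (by omega), if_pos (by omega)]
      omega
  · rw [kr_msk0 hh hd hv]
    change Hom R σ α N (m ||| 0 * _) nd h
    rwa [Nat.zero_mul, Nat.or_zero]

theorem kr_Y (hh : Hom R σ α N m nd h) (n : ℕ) :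
    ∀ {y : ℕ} {x : D}, Rs nd h y x → Rs nd h (rY m n y) (((σ * α) ^ n) x) := by
  induction n with
  | zero => exact fun r => r
  | succ n ih =>
    intro y x r
    rw [pow_succ, Perm.mul_apply]
    exact ih (kr_ph m y ▸ rs_rp (rs_ph hh r))

theorem kr_E (hc : Ctx σ α N) (hh : Hom R σ α N m nd h) {y : ℕ} {x : D} (r : Rs nd h y x) :
    ∃ lo hi nz q, rE m y = 16 * lo + 256 * hi + 4096 * nz + 65536 * q ∧
      lo ≤ (if vt σ N x = 1 then 1 else 0) ∧ (if vt σ N x = 1 then 1 else 0) ≤ hi ∧ hi ≤ 1 ∧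
      nz ≤ 1 ∧ (nz = 0 → x ∉ N) := by
  obtain ⟨-, h6, h0, -⟩ := stINV D σ α N hc.cls x
  have e : rE m y = VT >>> (16 * (m >>> y >>> 60 / 16 % 2 ^ 6)) :=
    congrArg (VT >>> ·) (kr_and (by norm_num) (by norm_num))
  have hb : (m >>> y >>> 60 / 2 ^ 4 % 2 ^ 6).testBit (vt σ N x) = false := by
    by_contra hb
    rw [Bool.not_eq_false, Nat.testBit_mod_two_pow, Bool.and_eq_true,
      Nat.testBit_div_two_pow, Nat.testBit_shiftRight, Nat.testBit_shiftRight] at hb
    have := rs_fact hh r _ (by omega) (by omega) hb.2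
    unfold Fact at this
    rw [if_pos (by omega)] at this
    omega
  have k : rV (rE m y) (vt σ N x) := e ▸ kr_VT _ (Nat.mod_lt _ (by norm_num)) _ h6 hb
  obtain ⟨a1, a2, a3, a4, a5, a6⟩ := k
  exact ⟨_, _, _, rE m y / 65536, by omega, a2, a3, a4, a5, fun e => h0.1 (a6 e)⟩

theorem kr_S (hc : Ctx σ α N) (hh : Hom R σ α N m nd h) (n : ℕ) :
    ∀ {y : ℕ} {x : D}, Rs nd h y x → ∃ lo hi nz q,
      rS m n y = 16 * lo + 256 * hi + 4096 * nz + 65536 * q ∧ lo ≤ rel_cn σ α N x (n + 1) ∧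
      rel_cn σ α N x (n + 1) ≤ hi ∧ hi ≤ n + 1 ∧ nz ≤ n + 1 ∧
      (nz = 0 → ∀ j ≤ n, ((σ * α) ^ j) x ∉ N) := by
  induction n with
  | zero =>
    intro y x r
    obtain ⟨lo, hi, nz, q, a1, a2, a3, a4, a5, a6⟩ := kr_E hc hh r
    rw [kr_cn, show rel_cn σ α N ((σ * α) x) 0 = 0 from rfl]
    refine ⟨lo, hi, nz, q, a1, a2, a3, a4, a5, fun e j hj => ?_⟩
    obtain rfl : j = 0 := by omega
    exact a6 e
  | succ n ih =>
    intro y x r
    obtain ⟨lo, hi, nz, q, a1, a2, a3, a4, a5, a6⟩ := kr_E hc hh r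
    obtain ⟨lo', hi', nz', q', b1, b2, b3, b4, b5, b6⟩ := ih (kr_ph m y ▸ rs_rp (rs_ph hh r))
    rw [kr_cn, show rS m (n + 1) y = rE m y + rS m n (rP1 m y) from rfl]
    refine ⟨lo + lo', hi + hi', nz + nz', q + q', by omega, by omega, by omega, by omega, by omega,
      fun e j hj => ?_⟩
    cases j with
    | zero => exact a6 (by omega)
    | succ j =>
      rw [pow_succ, Perm.mul_apply]
      exact b6 (by omega) j (by omega)

theorem kr_A (hc : Ctx σ α N) (hh : Hom R σ α N m nd h) {n LO HI : ℕ} (hn : n < 12)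
    (hT : rT0 n LO HI) {y : ℕ} (hy : Val nd y) : rel_Good (fc σ α N (h y)) (rA n LO HI m y) := by
  obtain ⟨-, -, -, -, -, hL, -, -, -, -, -, -, hfl⟩ := stINV D σ α N hc.cls (h y)
  obtain ⟨hklo, hkhi⟩ := rel_cls σ α N (h y) hL
  obtain ⟨lo, hi, nz, q, b1, b2, b3, b4, -⟩ := kr_S hc hh n (rs_val hy)
  intro c hb
  have e1 : Nat.land (rS m n y) 240 = 16 * lo := by
    rw [kr_and (j := 4) (by norm_num) (by norm_num)]
    omega
  have e2 : Nat.land (rS m n y >>> 4) 240 = 16 * hi := by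
    rw [kr_and (j := 4) (by norm_num) (by norm_num), Nat.shiftRight_eq_div_pow]
    omega
  change ((LO >>> Nat.land (rS m n y) 240 ||| HI >>> Nat.land (rS m n y >>> 4) 240) &&&
    (2 ^ 16 - 1)).testBit c = true at hb
  rw [e1, e2, Nat.testBit_and, Nat.testBit_two_pow_sub_one, Nat.testBit_or, Bool.and_eq_true,
    Bool.or_eq_true, decide_eq_true_eq] at hb
  refine ⟨by omega, fun e => ?_⟩
  have f14 : fc σ α N (h y) = 14 → fl c = 0 := fun e' => by rw [e, e', rel_fl14]
  rcases hb.1 with h1 | h1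
  · obtain ⟨c1, c2, c3⟩ := (hT _ (by omega) c hb.2).1 h1
    rcases hfl with e' | ⟨e', -⟩
    · rw [e] at c1 c2 c3
      have := rel_cn_mono σ α N (h y) (i := n + 1) (j := fln σ α (h y)) (by omega)
      rw [rel_cn_fln] at this
      have := hkhi c3
      omega
    · have := f14 e'
      omega
  · obtain ⟨c1, c2⟩ := (hT _ (by omega) c hb.2).2 h1
    rcases hfl with e' | ⟨e', -⟩
    · rw [e] at c1 c2
      rw [show n + 1 = fln σ α (h y) by omega, rel_cn_fln] at b3
      omega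
    · have := f14 e'
      omega

theorem kr_B (hc : Ctx σ α N) (hh : Hom R σ α N m nd h) {LO HI : ℕ} (hT : rT0 4 LO HI) {y : ℕ}
    (hy : Val nd y) : rel_Good (fc σ α N (h y)) (rB LO HI m y) := by
  refine rel_good_lor (kr_A hc hh (by norm_num) hT hy) ?_
  obtain ⟨lo, hi, nz, q, b1, b2, b3, b4, b5, b⟩ := kr_S hc hh 4 (rs_val hy)
  change rel_Good _ (1 - (rS m 4 y >>> 12 &&& (2 ^ 4 - 1)))
  rw [Nat.and_two_pow_sub_one_eq_mod, Nat.shiftRight_eq_div_pow]
  by_cases e : nz = 0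
  · rw [show 1 - rS m 4 y / 2 ^ 12 % 2 ^ 4 = 2 ^ 0 by omega]
    refine rel_good_pow (by norm_num) fun e' => ?_
    obtain ⟨j, hj, hjN⟩ := rel_fc0 σ α N (h y) e'.symm
    exact b e j (by omega) hjN
  · rw [show 1 - rS m 4 y / 2 ^ 12 % 2 ^ 4 = 0 by omega]
    exact rel_good_zero _

theorem kr_X (hc : Ctx σ α N) {n : ℕ} (hn : n < 13) {x : D} (hx : ((σ * α) ^ n) x = x) :
    rel_Good (fc σ α N x) (xcl n) := by
  obtain ⟨-, -, -, -, -, hL, -, -, -, h21, -, -, hfl⟩ := stINV D σ α N hc.cls x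
  intro c hcb
  refine ⟨rel_lt (rel_x_lt n hn) hcb, fun e => ?_⟩
  have hper : Function.IsPeriodicPt (σ * α) n x := by
    unfold Function.IsPeriodicPt Function.IsFixedPt
    rw [← Perm.coe_pow]
    exact hx
  have hdv : fln σ α x ∣ n := hper.minimalPeriod_dvd
  rw [e] at hcb
  rcases rel_x hn h21 hcb with ⟨⟨b1, b2⟩, b3⟩ | ⟨b1, b2⟩
  · rcases hfl with e' | ⟨-, e'⟩
    · rw [b1, rel_fl14] at e'
      omega
    · have := Nat.le_of_dvd b2 hdv
      omega
  · rcases hfl with e' | ⟨e', -⟩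
    · rw [e'] at b2
      exact b2 (Nat.mod_eq_zero_of_dvd hdv)
    · exact b1 e'

variable {g : G} {A : ℕ → ℕ → ℕ} (hc : Ctx σ α N)
  (hA : ∀ m nd h, Hom g.R σ α N m nd h → ∀ y, Val nd y → rel_Good (fc σ α N (h y)) (A m y))
include hc hA

theorem kr_O (k : ℕ) : GoodO g σ α N (rO A k) := by
  intro ih hi lim hl m nd e c hne
  obtain ⟨-, h1, h2⟩ := hi lim hl _ _ _ _ hne
  exact ⟨h1, fun h hh a => h2 h (kr_put hc hh (k_dart _).1 (hA m nd h hh _) k) a⟩

theorem kr_G {n X : ℕ} (hn : n < 13) (hX : X = xcl n) (k : ℕ) : GoodO g σ α N (rG A n X k) := by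
  unfold rG
  generalize Nat.shiftRight k 15 = q
  cases q with
  | zero => exact kr_O hc hA k
  | succ q =>
    intro ih hi lim hl m nd e c hne
    obtain ⟨-, h1, h2⟩ := hi lim hl _ _ _ _ hne
    obtain ⟨h3, h4⟩ := k_shl16 (lt_of_le_of_lt (Nat.le_add_left _ nd) h1)
    have h5 := k_xor0 h3
    change nd + Nat.shiftLeft _ 16 < 65536 at h1
    change Bad g σ α N _ (nd + Nat.shiftLeft _ 16) e at h2
    rw [h4] at h1 h2
    refine ⟨h1, fun h hh a => h2 h (kr_put hc hh (k_dart _).1 (fun hv => ?_) k) a⟩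
    refine rel_good_lor (hA m nd h hh _ hv) (hX ▸ kr_X hc hn ?_)
    have r := kr_Y hh n (y := rD c) (rs_val hv)
    rw [h5] at r
    exact (r.2 hv).symm

end

theorem stKREL : St_krel := by
  intro g _ D _ σ α N hc k
  have a : ∀ n LO HI X, n < 12 → rT0 n LO HI → X = xcl (n + 1) →
      GoodO g σ α N (rG (rA n LO HI) (n + 1) X k) := fun n LO HI X h1 h2 h3 =>
    kr_G hc (fun _ _ _ hh _ hy => kr_A hc hh h1 h2 hy) (by omega) h3 k
  refine ⟨kr_O (A := relQ) hc (fun m nd h hh y hy =>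
    rel_q stINV stRP all_tab g.R D σ α N hc m nd h hh y hy) k, ?_, ?_, ?_, ?_, ?_, ?_, ?_, ?_, ?_,
    ?_, ?_, ?_⟩
  · exact a 0 (nat_lit 0x9771977197719771977197719771977197719771977197719771867104310000)
      (nat_lit 0) (nat_lit 0x3effff) (by norm_num) (by decide +kernel) (by decide +kernel)
  · exact a 1 (nat_lit 0x9771977197719771977197719771977197719771977197719771867104310000)
      (nat_lit 0) (nat_lit 0x3cffff) (by norm_num) (by decide +kernel) (by decide +kernel)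
  · exact a 2 (nat_lit 0x9771977197719771977197719771977197719771977197719771867104310000)
      (nat_lit 0) (nat_lit 0x3affff) (by norm_num) (by decide +kernel) (by decide +kernel)
  · exact a 3 (nat_lit 0x9771977197719771977197719771977197719771977197719771867104310000)
      (nat_lit 0) (nat_lit 0x34ffff) (by norm_num) (by decide +kernel) (by decide +kernel)
  · exact kr_G (A := rB (nat_lit 0x9771977197719771977197719771977197719771977197719771867104310000)
      (nat_lit 0)) (n := 5) (X := nat_lit 0x2efffe) hc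
      (fun _ _ _ hh _ hy => kr_B hc hh (by decide +kernel) hy) (by norm_num) (by decide +kernel) k
  · exact a 5 (nat_lit 0x9770977097709770977097709770977097709770977097709770867004300000)
      (nat_lit 0) (nat_lit 0x38fffd) (by norm_num) (by decide +kernel) (by decide +kernel)
  · exact a 6 (nat_lit 0x9770977097709770977097709770977097709770977097709770867004300000)
      (nat_lit 4) (nat_lit 0x3effeb) (by norm_num) (by decide +kernel) (by decide +kernel)
  · exact a 7 (nat_lit 0x9760976097609760976097609760976097609760976097609760866004200000)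
      (nat_lit 0x88048) (nat_lit 0x347f97) (by norm_num) (by decide +kernel) (by decide +kernel)
  · exact a 8 (nat_lit 0x1700170017001700170017001700170017001700170017001700060004000000)
      (nat_lit 0x8001800380) (nat_lit 0x3af87f) (by norm_num) (by decide +kernel) (by decide +kernel)
  · exact a 9 (nat_lit 0x1000100010001000100010001000100010001000100010001000000000000000)
      (nat_lit 0x80008000800) (nat_lit 0x2ce7fe) (by norm_num) (by decide +kernel) (by decide +kernel)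
  · exact a 10 (nat_lit 0)
      (nat_lit 0) (nat_lit 0x3edfff) (by norm_num) (by decide +kernel) (by decide +kernel)
  · exact a 11 (nat_lit 0)
      (nat_lit 0) (nat_lit 0x30bffd) (by norm_num) (by decide +kernel) (by decide +kernel)

end Pool.Agent.Lib.G6.K
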