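import Pool.Agent.Lib.G6.KExt

set_option autoImplicit false

/-! The shares of the second checker. -/

namespace Pool.Agent.Lib.G6.K

open Equiv
open Pool.Agent.Lib.MP_bfaad3_co (frc sel cj dj tb sb BT sel_eq cj_iff tb_eq sb_iff)

noncomputable section

/-- the entry of the table for the ten bits read in `c` -/
def sTa (T c sh : ℕ) : ℕ :=
  Nat.land (Nat.shiftRight T (Nat.land (Nat.shiftRight c sh) 32736)) 4294967295

def sPh (m y : ℕ) : ℕ :=
  Nat.land (Nat.shiftRight m (Nat.land (Nat.shiftRight (Nat.shiftRight m y) 34) 131071)) 131071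

/-- the sum over all competitors -/
def sS (T j k m d : ℕ) : ℕ :=
  Nat.add (Nat.add (sTa T (Nat.shiftRight m d) (Nat.sub 103 (Nat.mul k 16)))
    (Nat.land (Nat.shiftRight m d) 36893488147419103232)) ((sw T (Nat.sub (fl j) 1)).1 m (sPh m d))

def sC (R : Rule) (j s : ℕ) : ℕ :=
  Nat.add (byt R.cap j) (Nat.mul (Nat.sub (byt R.kh j) (Nat.sub (fl j) (Nat.shiftRight s 65))) 12)

def sZ (R : Rule) (a j s v : ℕ) : ℕ :=
  Nat.mul (Nat.sub (Nat.add (Nat.land s 2047) (byt R.am1 a)) (sC R j s))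
    (Nat.sub v (Nat.div (Nat.mul (Nat.sub (sC R j s) (Nat.land (Nat.shiftRight s 21) 2047))
      (byt R.wt a)) (Nat.add (byt R.wt a) (Nat.land (Nat.shiftRight s 11) 1023))))

def sM (a j k : ℕ) : ℕ :=
  Nat.lor (clsX j) (Nat.shiftLeft (Nat.lor (low a) (hig (Nat.succ a))) (Nat.add (Nat.mul k 16) 92))

/-- the mask of the first operation -/
def sK (a j k t : ℕ) : ℕ :=
  Nat.lor (sM a j k)
    (Nat.shiftLeft (Nat.land 63 (hig t)) (Nat.add (Nat.add (Nat.mul k 16) 92) 10))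

/-- overwrite six bits -/
def sE (e p v : ℕ) : ℕ :=
  Nat.xor e (Nat.shiftLeft (Nat.xor (Nat.land (Nat.shiftRight e p) 63) v) p)

end

theorem ks_idx (c s : ℕ) : Nat.land (Nat.shiftRight c s) 32736 = 32 * (c >>> (s + 5) % 1024) := by
  change c >>> s &&& (2 ^ 10 - 1) <<< 5 = 2 ^ 5 * (c >>> (s + 5) % 2 ^ 10)
  rw [Nat.mul_comm, ← Nat.shiftLeft_eq]
  refine Nat.eq_of_testBit_eq fun i => ?_
  simp only [Nat.testBit_and, Nat.testBit_shiftLeft, Nat.testBit_shiftRight,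
    Nat.testBit_two_pow_sub_one, Nat.testBit_mod_two_pow]
  by_cases h : 5 ≤ i
  · rw [show s + 5 + (i - 5) = s + i by omega, decide_eq_true (show i ≥ 5 from h)]
    simp [Bool.and_comm]
  · rw [decide_eq_false (show ¬ i ≥ 5 from h)]
    simp

theorem ks_shl (x : ℕ) {s : ℕ} (h : 16 ≤ s) : Nat.shiftLeft x s % 65536 = 0 := by
  change x <<< s % 2 ^ 16 = 0
  rw [Nat.shiftLeft_eq]
  exact Nat.mod_eq_zero_of_dvd (Dvd.dvd.mul_left (pow_dvd_pow 2 h) x)

theorem ks_lor {x y : ℕ} (hx : x % 65536 = 0) (hy : y % 65536 = 0) : Nat.lor x y % 65536 = 0 := by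
  change (x ||| y) % 2 ^ 16 = 0
  rw [Nat.or_mod_two_pow, show x % 2 ^ 16 = 0 from hx, show y % 2 ^ 16 = 0 from hy]
  rfl

theorem ks_cls : ∀ j < 16, clsX j % 65536 = 0 ∧ (clsX j).testBit 91 = true := by decide

theorem ks_sM {a j k : ℕ} (hj : j < 16) : sM a j k % 65536 = 0 :=
  ks_lor (ks_cls j hj).1 (ks_shl _ (Nat.le_add_left_of_le (by norm_num)))

theorem ks_sK {a j k t : ℕ} (hj : j < 16) : sK a j k t % 65536 = 0 :=
  ks_lor (ks_sM hj) (ks_shl _ (Nat.le_add_right_of_le (Nat.le_add_left_of_le (by norm_num))))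

theorem ks_or {a b x : ℕ} (h : sb (Nat.lor a b) x = true) : sb a x = true ∧ sb b x = true := by
  rw [sb_iff] at h
  refine ⟨(sb_iff _ _).2 fun i hi => h i ?_, (sb_iff _ _).2 fun i hi => h i ?_⟩ <;>
  · change (a ||| b).testBit i = true
    simp [Nat.testBit_or, hi]

theorem ks_sh {a s m d : ℕ} (h : sb (Nat.shiftLeft a s) (Nat.shiftRight m d) = true) :
    sb a (Nat.shiftRight m (d + s)) = true := by
  refine (sb_iff _ _).2 fun i hi => ?_
  have h1 := (sb_iff _ _).1 h (s + i) (by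
    change (a <<< s).testBit _ = true
    rw [Nat.testBit_shiftLeft, Nat.add_sub_cancel_left, hi]
    simp)
  rw [k_cell] at h1 ⊢
  rwa [Nat.add_assoc]

theorem ks_bit (e p : ℕ) {v : ℕ} (hv : v < 2 ^ 6) (i : ℕ) : (sE e p v).testBit i =
    if p ≤ i ∧ i < p + 6 then v.testBit (i - p) else e.testBit i := by
  change (e ^^^ ((e >>> p &&& (2 ^ 6 - 1)) ^^^ v) <<< p).testBit i = _
  rw [Nat.testBit_xor, Nat.testBit_shiftLeft, Nat.testBit_xor, Nat.testBit_and,
    Nat.testBit_shiftRight, Nat.testBit_two_pow_sub_one]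
  by_cases h1 : p ≤ i
  · rw [decide_eq_true (show i ≥ p from h1), show p + (i - p) = i by omega]
    by_cases h2 : i < p + 6
    · rw [if_pos ⟨h1, h2⟩, decide_eq_true (show i - p < 6 by omega)]
      simp
    · rw [if_neg (fun h => h2 h.2), decide_eq_false (show ¬ i - p < 6 by omega),
        ext_hi hv (by omega)]
      simp
  · rw [decide_eq_false (show ¬ i ≥ p from h1), if_neg (fun h => h1 h.1)]
    simp

/-- the requests of tier at least `t` -/
def gT (R : Rule) (t l : ℕ) : ℕ := if t ≤ byt R.ti l then byt R.am1 l else 0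

/-- the weights of the tier of `a` -/
def gW (R : Rule) (a l : ℕ) : ℕ := if byt R.ti l = byt R.ti a then byt R.wt l else 0

/-- one for a vertex of type 1 -/
noncomputable def gO {D : Type} (σ : Perm D) (N : Set D) (z : D) : ℕ := if vt σ N z = 1 then 1 else 0

section

variable {g : G} {D : Type} [Fintype D] {σ α : Perm D} {N : Set D} {m nd : ℕ} {h : ℕ → D}
  (ok : GOK g) (hl : ∀ k x, lv g.R σ α N k x ≤ 9) (hh : Hom g.R σ α N m nd h) {a : ℕ}
  (a1 : 1 ≤ a) (a9 : a ≤ 9)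

include hh in
theorem ks_one {y : ℕ} {z : D} (r : Rs nd h y z) : ∃ B,
    Nat.land (Nat.shiftRight m y) 36893488147419103232 = 36893488147419103232 * B ∧
      gO σ N z + B ≤ 1 := by
  refine ⟨((Nat.shiftRight m y).testBit 65).toNat, ?_, ?_⟩
  · change Nat.shiftRight m y &&& 2 ^ 65 = 2 ^ 65 * _
    rw [Nat.and_two_pow, Nat.mul_comm]
  · unfold gO
    cases e : (Nat.shiftRight m y).testBit 65
    · split_ifs <;> simp
    · rw [k_cell] at e
      have h5 := rs_fact hh r 65 (by norm_num) (by norm_num) e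
      rw [Fact, if_pos (by norm_num)] at h5
      rw [if_neg (by omega)]
      simp

include ok hl hh a1 a9

theorem ks_cm {y k : ℕ} {z : D} (r : Rs nd h y z) (hk : k ≤ 1) : ∃ A W H,
    sTa (g.fd.ta.get a) (Nat.shiftRight m y) (87 + 16 * k) = A + 2048 * W + 2097152 * H ∧
      A ≤ 90 ∧ W ≤ 45 ∧ H ≤ 90 ∧ gT g.R (byt g.R.ti a) (lv g.R σ α N k z) ≤ A ∧
      gW g.R a (lv g.R σ α N k z) ≤ W ∧ gT g.R (byt g.R.ti a + 1) (lv g.R σ α N k z) ≤ H := by
  have hb := lv_bit (s := 2 * k) (by omega) (rs_fact hh r)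
  have hf : fo (2 * k) = 87 + 16 * k + 5 := by interval_cases k <;> rfl
  rw [lv_fv0, min_eq_left (hl k z), hf, ← k_shr] at hb
  have e : sTa (g.fd.ta.get a) (Nat.shiftRight m y) (87 + 16 * k) =
      taE g a (Nat.shiftRight m y >>> (87 + 16 * k + 5) % 1024) := by
    unfold sTa
    rw [ks_idx]
    exact Nat.and_two_pow_sub_one_eq_mod _ 32
  obtain ⟨⟨b1, b2, b3⟩, b4⟩ := ok.ta a (by omega) a1
    (Nat.shiftRight m y >>> (87 + 16 * k + 5) % 1024) (Nat.mod_lt _ (by norm_num))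
  obtain ⟨c1, c2, c3⟩ := b4 (lv g.R σ α N k z) (by have := hl k z; omega) (by
    change (_ % 2 ^ 10).testBit _ = false
    rw [Nat.testBit_mod_two_pow]
    exact Bool.and_eq_false_iff.2 (.inr hb))
  rw [e]
  refine ⟨_, _, _, ?_, b1, b2, b3, ?_, ?_, ?_⟩
  · omega
  all_goals
    simp only [gT, gW]
    split_ifs with c
  exacts [c1 c, Nat.zero_le _, c2 c, Nat.zero_le _, c3 c, Nat.zero_le _]

theorem ks_sw (n : ℕ) : ∀ (y : ℕ) (z : D), Rs nd h y z → ∃ A W H B,
    (sw (g.fd.ta.get a) n).1 m y = A + 2048 * W + 2097152 * H + 36893488147419103232 * B ∧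
      A ≤ 180 * n ∧ W ≤ 90 * n ∧ H ≤ 180 * n ∧
      lbaS n 0 (fun k i => gT g.R (byt g.R.ti a) (lv g.R σ α N k (((σ * α) ^ i) z))) ≤ A ∧
      lbaS n 0 (fun k i => gW g.R a (lv g.R σ α N k (((σ * α) ^ i) z))) ≤ W ∧
      lbaS n 0 (fun k i => gT g.R (byt g.R.ti a + 1) (lv g.R σ α N k (((σ * α) ^ i) z))) ≤ H ∧
      ∑ i ∈ Finset.range n, gO σ N (((σ * α) ^ i) z) + B ≤ n := by
  induction n with
  | zero => exact fun _ _ _ => ⟨0, 0, 0, 0, rfl, le_rfl, le_rfl, le_rfl, le_rfl, le_rfl, le_rfl,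
      le_rfl⟩
  | succ n ih =>
    intro y z r
    have e0 : sPh m y = ph m y := congrArg (nx m) (k_alc m y)
    obtain ⟨A, W, H, B, e, i1, i2, i3, i4, i5, i6, i7⟩ := ih (sPh m y) _
      (e0 ▸ rs_rp (rs_ph hh r))
    obtain ⟨A0, W0, H0, e1, j1, j2, j3, j4, j5, j6⟩ := ks_cm ok hl hh a1 a9 r (Nat.zero_le 1)
    obtain ⟨A1, W1, H1, e2, k1, k2, k3, k4, k5, k6⟩ := ks_cm ok hl hh a1 a9 r le_rfl
    obtain ⟨B0, e3, l1⟩ := ks_one hh r
    have e4 : (sw (g.fd.ta.get a) (n + 1)).1 m y =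
        sTa (g.fd.ta.get a) (Nat.shiftRight m y) (87 + 16 * 0) +
          sTa (g.fd.ta.get a) (Nat.shiftRight m y) (87 + 16 * 1) +
          Nat.land (Nat.shiftRight m y) 36893488147419103232 +
          (sw (g.fd.ta.get a) n).1 m (sPh m y) := rfl
    refine ⟨A0 + A1 + A, W0 + W1 + W, H0 + H1 + H, B0 + B, by rw [e4, e, e1, e2, e3]; ring,
      by omega, by omega, by omega, ?_⟩
    simp only [lbaS, Finset.sum_range_succ', pow_succ, Perm.mul_apply, pow_zero, Perm.one_apply,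
      Nat.zero_add] at i4 i5 i6 i7 ⊢
    omega

/-- the claimed share is at most the amount -/
theorem ks_amt (hc : Ctx σ α N) {d j k v : ℕ} (hd : 128 ∣ d) (hk : k ≤ 1) (hj : j < 16)
    (hb : tb g.R.c1 j = true) (hfl1 : Nat.ble 1 (fl j) = true)
    (hs : sb (sM a j k) (Nat.shiftRight m d) = true)
    (hz : sZ g.R a j (sS (g.fd.ta.get a) j k m d) v = 0) (hv : v ≤ byt g.R.am1 a) :
    Val nd d ∧ lv g.R σ α N k (h d) = a ∧ v ≤ amt g.R σ α N k (h d) := by
  rw [tb_eq] at hb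
  rw [Nat.ble_eq] at hfl1
  have r : Rs nd h d (h d) := rs_self hd
  obtain ⟨s1, s2⟩ := ks_or hs
  have hV : Val nd d := k_val hh hd (i := 91) (by norm_num) (by norm_num) (by
    rw [← k_cell]; exact (sb_iff _ _).1 s1 91 (ks_cls j hj).2)
  have hf : Nat.add (Nat.mul k 16) 92 = fo (2 * k) := by interval_cases k <;> rfl
  rw [hf] at s2
  have h1 := lv_read (s := 2 * k) (by omega) (rs_fact hh r) (ks_sh s2)
  change (low a ||| hig (a + 1)).testBit _ = false at h1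
  rw [lv_fv0, min_eq_left (hl k _), Nat.testBit_or, Bool.or_eq_false_iff, lv_low,
    decide_eq_false_iff_not, ← Bool.not_eq_true, lv_hig] at h1
  have hLa : lv g.R σ α N k (h d) = a := by have := hl k (h d); omega
  refine ⟨hV, hLa, ?_⟩
  obtain ⟨hB, hcls⟩ := (all_tab g.R D σ α N hc (h d) j).2.2.1 (by omega)
  have hfc : fc σ α N (h d) = j :=
    hcls (rs_sb hh r (fun i hi => by have := hB i hi; omega) s1)
  have hfln : fln σ α (h d) = (fl j - 1) + 1 := by
    rcases (stINV D σ α N hc.cls (h d)).2.2.2.2.2.2.2.2.2.2.2.2 with h1 | h1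
    · rw [hfc] at h1
      omega
    · rw [hfc] at h1
      rw [h1.1, lba_fl14] at hfl1
      omega
  have hj11 := lba_fl j hj
  have e0 : sPh m d = ph m d := congrArg (nx m) (k_alc m d)
  obtain ⟨A, W, H, B, e, i1, i2, i3, i4, i5, i6, i7⟩ := ks_sw ok hl hh a1 a9 (fl j - 1) (sPh m d) _
    (e0 ▸ rs_rp (rs_ph hh r))
  obtain ⟨A0, W0, H0, e1, j1, j2, j3, j4, j5, j6⟩ := ks_cm ok hl hh a1 a9 r (Nat.sub_le 1 k)
  obtain ⟨B0, e3, l1⟩ := ks_one hh r
  have e4 : sS (g.fd.ta.get a) j k m d = (A0 + A) + 2048 * (W0 + W) + 2097152 * (H0 + H) +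
      36893488147419103232 * (B0 + B) := by
    have e5 : Nat.sub 103 (Nat.mul k 16) = 87 + 16 * (1 - k) := by interval_cases k <;> rfl
    unfold sS
    rw [e5, e1, e3]
    change _ + _ + (sw _ (fl j - 1)).1 _ _ = _
    rw [e]
    ring
  have f1 := lba_fsum g.R σ α N (gT g.R (byt g.R.ti a)) _ hfln hk
  have f2 := lba_fsum g.R σ α N (gW g.R a) _ hfln hk
  have f3 := lba_fsum g.R σ α N (gT g.R (byt g.R.ti a + 1)) _ hfln hk
  have f4 : cnt2 σ α N (h d) = ∑ i ∈ Finset.range (fl j - 1),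
      gO σ N (((σ * α) ^ i) ((σ * α) (h d))) + gO σ N (h d) := by
    rw [cnt2, hfln, Finset.card_filter, Finset.sum_range_succ']
    rfl
  have t1 : gT g.R (byt g.R.ti a) a = byt g.R.am1 a := if_pos le_rfl
  have t2 : gW g.R a a = byt g.R.wt a := if_pos rfl
  have t3 : gT g.R (byt g.R.ti a + 1) a = 0 := if_neg (Nat.not_succ_le_self _)
  simp only [lbaS, pow_succ, Perm.mul_apply, Nat.zero_add, hLa, t1, t2, t3]
    at f1 f2 f3 f4 i4 i5 i6 i7
  have g1 : Nat.land (sS (g.fd.ta.get a) j k m d) 2047 = A0 + A := by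
    change _ &&& (2 ^ 11 - 1) = _
    rw [Nat.and_two_pow_sub_one_eq_mod, e4]
    omega
  have g2 : Nat.land (Nat.shiftRight (sS (g.fd.ta.get a) j k m d) 11) 1023 = W0 + W := by
    change _ >>> 11 &&& (2 ^ 10 - 1) = _
    rw [Nat.and_two_pow_sub_one_eq_mod, Nat.shiftRight_eq_div_pow, e4]
    omega
  have g3 : Nat.land (Nat.shiftRight (sS (g.fd.ta.get a) j k m d) 21) 2047 = H0 + H := by
    change _ >>> 21 &&& (2 ^ 11 - 1) = _
    rw [Nat.and_two_pow_sub_one_eq_mod, Nat.shiftRight_eq_div_pow, e4]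
    omega
  have g4 : Nat.shiftRight (sS (g.fd.ta.get a) j k m d) 65 = B0 + B := by
    change _ >>> 65 = _
    rw [Nat.shiftRight_eq_div_pow, e4]
    omega
  have hcap : sC g.R j (sS (g.fd.ta.get a) j k m d) ≤ capx g.R σ α N (h d) := by
    unfold sC capx
    rw [g4, hfc]
    change _ + (_ - (_ - _)) * 12 ≤ _
    omega
  unfold sZ at hz
  rw [g1, g2, g3] at hz
  generalize sC g.R j (sS (g.fd.ta.get a) j k m d) = C at hz hcap
  change (A0 + A + byt g.R.am1 a - C) *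
    (v - (C - (H0 + H)) * byt g.R.wt a / (byt g.R.wt a + (W0 + W))) = 0 at hz
  unfold amt
  rw [if_pos ⟨hk, by rw [hfc]; exact hb⟩, hLa]
  change v ≤ if fsum g.R σ α N (gT g.R (byt g.R.ti a)) (h d) ≤ _ then _ else
    min _ ((_ - fsum g.R σ α N (gT g.R (byt g.R.ti a + 1)) (h d)) * _ /
      fsum g.R σ α N (gW g.R a) (h d))
  split_ifs with c
  · exact hv
  refine le_min hv ?_
  rcases Nat.mul_eq_zero.1 hz with c1 | c1
  · omega
  refine (Nat.sub_eq_zero_iff_le.1 c1).trans ?_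
  rcases Nat.eq_zero_or_pos (byt g.R.wt a) with hw | hw
  · rw [hw, Nat.mul_zero, Nat.zero_div]
    exact Nat.zero_le _
  · exact Nat.div_le_div (Nat.mul_le_mul_right _ (by omega)) (by omega) (by omega)

omit ok hl hh a1 a9 [Fintype D] in
theorem ks_aux {R : Rule} {e d k v : ℕ} (A : Aux R σ α N e nd h) (hd : Val nd d) (hk : k ≤ 1)
    (hv : v < 2 ^ 6) (ha : v ≤ amt R σ α N k (h d)) :
    Aux R σ α N (sE e (d + (k * 12 + 104)) v) nd h := by
  obtain ⟨q, hq⟩ := hd.2.2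
  refine ⟨fun y i h1 h2 h3 => ?_, fun y l i h1 h2 h3 hb => ?_, fun y l h1 h2 => ?_⟩
  · have h4 : y ≠ d := fun e => h2 (e ▸ hd)
    obtain ⟨u, hu⟩ := h1
    rw [ks_bit e _ hv, if_neg (by rcases lt_trichotomy q u with c | c | c <;> omega)]
    exact A.out y i ⟨u, hu⟩ h2 h3
  · obtain ⟨u, hu⟩ := h1.2.2
    rw [ks_bit e _ hv, if_neg (by rcases lt_trichotomy q u with c | c | c <;> omega)] at hb
    exact A.lv y l i h1 h2 h3 hb
  · obtain ⟨u, hu⟩ := h1.2.2
    by_cases c : y = d ∧ l = k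
    · obtain ⟨rfl, rfl⟩ := c
      refine le_trans (le_of_eq ?_) ha
      change _ % 2 ^ 6 = v
      refine Nat.eq_of_testBit_eq fun i => ?_
      rw [Nat.testBit_mod_two_pow, Nat.testBit_shiftRight, ks_bit e _ hv]
      by_cases hi : i < 6
      · rw [if_pos (by omega), decide_eq_true hi, Bool.true_and]
        congr 1
        omega
      · rw [decide_eq_false hi, Bool.false_and, ext_hi hv (by omega)]
    · refine le_trans (le_of_eq ?_) (A.sh y l h1 h2)
      change _ % 2 ^ 6 = _ % 2 ^ 6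
      refine Nat.eq_of_testBit_eq fun i => ?_
      rw [Nat.testBit_mod_two_pow, Nat.testBit_mod_two_pow, Nat.testBit_shiftRight,
        Nat.testBit_shiftRight, ks_bit e _ hv]
      by_cases hi : i < 6
      · rw [if_neg (by rcases lt_trichotomy q u with c | c | c <;> omega)]
      · rw [decide_eq_false hi, Bool.false_and, Bool.false_and]

end

section

variable {g : G} {D : Type} [Fintype D] {σ α : Perm D} {N : Set D} (ok : GOK g)
  (hl : ∀ k x, lv g.R σ α N k x ≤ 9) (hc : Ctx σ α N) {a j k : ℕ} (a1 : 1 ≤ a) (a9 : a ≤ 9)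
  (hk : k ≤ 1) (hj : j < 16) (hb : tb g.R.c1 j = true) (hf : Nat.ble 1 (fl j) = true)

include ok hl hc a1 a9 hk hj hb hf

theorem ks_shr {t vs m nd e c d : ℕ} (hd : 128 ∣ d) (ht : t ≤ 5)
    (e1 : vs = (byt g.R.th t * byt g.R.am1 a + 11) / 12) (hv : vs ≤ byt g.R.am1 a)
    (H : Nat.mul c (Nat.sub 1 (Nat.add (Nat.shiftRight (Nat.add nd
      (Nat.xor (Nat.land (Nat.shiftRight m d) (sK a j k t)) (sK a j k t))) 16)
      (sZ g.R a j (sS (g.fd.ta.get a) j k m d) vs))) ≠ 0) :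
    nd < 65536 ∧ Bad g σ α N m nd e := by
  obtain ⟨h1, h2⟩ := Nat.add_eq_zero_iff.1 (k_fin H)
  have h3 := k_shr16 h1
  refine ⟨lt_of_le_of_lt (Nat.le_add_right _ _) h3, fun h hh _ => ?_⟩
  obtain ⟨s1, s2⟩ := ks_or (k_sub (ks_sK hj) (lt_of_le_of_lt (Nat.le_add_left _ _) h3)).1
  obtain ⟨-, hLa, h4⟩ := ks_amt ok hl hh a1 a9 hc hd hk hj hb hf s1 h2 hv
  have e2 : Nat.add (Nat.add (Nat.mul k 16) 92) 10 = fo (2 * k + 1) := by
    interval_cases k <;> rfl
  rw [e2] at s2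
  have h5 := lv_read (s := 2 * k + 1) (by omega) (rs_fact hh (rs_self hd)) (ks_sh s2)
  have h6 : acl g.R σ α N k (h d) ≤ 5 := Nat.findGreatest_le 5
  change ((2 ^ 6 - 1) &&& hig t).testBit _ = false at h5
  rw [← Bool.not_eq_true, Nat.testBit_and, Bool.and_eq_true, Nat.testBit_two_pow_sub_one,
    decide_eq_true_eq, lv_hig, lv_fv1] at h5
  refine h5 ⟨by omega, Nat.le_findGreatest ht ?_, by omega⟩
  rw [hLa]
  omega

theorem ks_shv {v m nd e d : ℕ} (hd : 128 ∣ d) (hv : v < 2 ^ 6) {nd' : ℕ}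
    (e1 : nd' = Nat.add (Nat.add nd (Nat.xor (Nat.land (Nat.shiftRight m d) (sM a j k)) (sM a j k)))
      (Nat.shiftLeft (Nat.add (sZ g.R a j (sS (g.fd.ta.get a) j k m d) v)
        (Nat.sub v (byt g.R.am1 a))) 16))
    (h1 : nd' < 65536) (h2 : Bad g σ α N m nd' (sE e (d + (k * 12 + 104)) v)) :
    nd < 65536 ∧ Bad g σ α N m nd e := by
  rw [e1] at h1
  obtain ⟨h3, h4⟩ := k_shl16 (lt_of_le_of_lt (Nat.le_add_left _ _) h1)
  have h5 := lt_of_le_of_lt (Nat.le_add_right _ _) h1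
  obtain ⟨s1, s2⟩ := k_sub (ks_sM hj) (lt_of_le_of_lt (Nat.le_add_left _ _) h5)
  rw [h4, s2] at e1
  obtain rfl : nd' = nd := e1
  obtain ⟨h6, h7⟩ := Nat.add_eq_zero_iff.1 h3
  refine ⟨lt_of_le_of_lt (Nat.le_add_right _ _) h5, fun h hh A => h2 h hh ?_⟩
  obtain ⟨hV, -, h8⟩ := ks_amt ok hl hh a1 a9 hc hd hk hj hb hf s1 h6
    (Nat.sub_eq_zero_iff_le.1 h7)
  exact ks_aux A hV hk hv h8

end

theorem stKSHR (hev : St_kev) : St_kshr := by
  intro g ok D _ σ α N hc a k a1 a9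
  have hl := fun k x => ((hev g ok D σ α N hc).1 k x).2
  have hk : Nat.land (Nat.shiftRight k 7) 1 ≤ 1 := Nat.and_le_right
  have hj : Nat.land (Nat.shiftRight k 8) 15 < 16 := Nat.lt_succ_of_le Nat.and_le_right
  constructor
  · unfold oShr
    rw [sel_eq]
    split_ifs with c0
    · simp only [cj_iff] at c0
      intro ih _ lim _ m nd e c H
      exact ks_shr ok hl hc a1 a9 hk hj c0.1.1 c0.1.2 (k_dart _).1 (Nat.ble_eq.mp c0.2.1) rfl
        (Nat.ble_eq.mp c0.2.2) H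
    · exact fun _ _ _ _ _ _ _ _ H => absurd rfl H
  · unfold oShv
    rw [sel_eq]
    split_ifs with c0
    · simp only [cj_iff] at c0
      intro ih hi lim hu m nd e c H
      obtain ⟨-, h1, h2⟩ := hi lim hu _ _ _ _ H
      exact ks_shv ok hl hc a1 a9 hk hj c0.1 c0.2 (k_dart _).1
        (Nat.lt_succ_of_le Nat.and_le_right) rfl h1 h2
    · exact fun _ _ _ _ _ _ _ _ H => absurd rfl H

end Pool.Agent.Lib.G6.K
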