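import Pool.Agent.Lib.G6.KOp2
import Pool.Agent.Lib.G6.KBld
import Pool.Agent.Lib.G6.KBnd
import Pool.Agent.Lib.G6.KLng
import Pool.Agent.Lib.G6.KRel
import Pool.Agent.Lib.G6.KShr

set_option autoImplicit false

/-! Soundness of the second checker. -/

namespace Pool.Agent.Lib.G6.K

open Equiv
open Pool.Agent.Lib.MP_bfaad3_co (BT)

section
variable {g : G} {D : Type} [Fintype D] {σ α : Perm D} {N : Set D}

theorem gk_br {a b : OK} (ha : ∀ k, GoodO g σ α N (a.1 k)) (hb : ∀ k, GoodO g σ α N (b.1 k))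
    (t : Bool) : ∀ k, GoodO g σ α N ((@Bool.rec (fun _ => OK) a b t).1 k) := by
  cases t
  exacts [ha, hb]

variable (hev : St_kev) (hg : GOK g) (hc : Ctx σ α N) (cs : ℕ → ℕ)
include hev hg hc

theorem good_TO (o : ℕ) : ∀ k, GoodO g σ α N ((TO g cs o).1 k) := by
  have bn := stKBND hev g hg D σ α N hc
  have rl := stKREL g hg D σ α N hc
  have sh := stKSHR hev g hg D σ α N hc
  unfold TO
  exact (gk_br (gk_br (gk_br (gk_br (gk_br (gk_br (gk_br (fun k => op_nog hc hg cs k)
    (fun _ => good_dead) _)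
    (fun k => stKlng hev g hg D σ α N hc k) _)
    (gk_br (fun k => op_jmp cs k)
    (fun k => (sh 9 k (by decide) (by decide)).2) _) _)
    (gk_br (gk_br (gk_br (fun k => (sh 8 k (by decide) (by decide)).2)
    (fun k => (sh 7 k (by decide) (by decide)).2) _)
    (fun k => (sh 6 k (by decide) (by decide)).2) _)
    (gk_br (fun k => (sh 5 k (by decide) (by decide)).2)
    (fun k => (sh 4 k (by decide) (by decide)).2) _) _) _)
    (gk_br (gk_br (gk_br (gk_br (fun k => (sh 3 k (by decide) (by decide)).2)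
    (fun k => (sh 2 k (by decide) (by decide)).2) _)
    (fun k => (sh 1 k (by decide) (by decide)).2) _)
    (gk_br (fun k => (sh 9 k (by decide) (by decide)).1)
    (fun k => (sh 8 k (by decide) (by decide)).1) _) _)
    (gk_br (gk_br (gk_br (fun k => (sh 7 k (by decide) (by decide)).1)
    (fun k => (sh 6 k (by decide) (by decide)).1) _)
    (fun k => (sh 5 k (by decide) (by decide)).1) _)
    (gk_br (fun k => (sh 4 k (by decide) (by decide)).1)
    (fun k => (sh 3 k (by decide) (by decide)).1) _) _) _) _)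
    (gk_br (gk_br (gk_br (gk_br (gk_br (fun k => (sh 2 k (by decide) (by decide)).1)
    (fun k => (sh 1 k (by decide) (by decide)).1) _)
    (fun k => (rl k).2.2.2.2.2.2.2.2.2.2.2.2) _)
    (gk_br (fun k => (rl k).2.2.2.2.2.2.2.2.2.2.2.1)
    (fun k => (rl k).2.2.2.2.2.2.2.2.2.2.1) _) _)
    (gk_br (gk_br (gk_br (fun k => (rl k).2.2.2.2.2.2.2.2.2.1)
    (fun k => (rl k).2.2.2.2.2.2.2.2.1) _)
    (fun k => (rl k).2.2.2.2.2.2.2.1) _)
    (gk_br (fun k => (rl k).2.2.2.2.2.2.1)
    (fun k => (rl k).2.2.2.2.2.1) _) _) _)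
    (gk_br (gk_br (gk_br (gk_br (fun k => (rl k).2.2.2.2.1)
    (fun k => (rl k).2.2.2.1) _)
    (fun k => (rl k).2.2.1) _)
    (gk_br (fun k => (rl k).2.1)
    (fun k => (rl k).1) _) _)
    (gk_br (gk_br (gk_br (fun k => op_mov1 hc k)
    (fun k => op_mov0 hc k) _)
    (fun k => op_lnk hc k) _)
    (gk_br (fun k => op_fold hc k)
    (fun _ => op_red hc hg) _) _) _) _) _)
    (gk_br (gk_br (gk_br (gk_br (gk_br (gk_br (fun k => op_win hc hg k)
    (fun k => (bn k).2) _)
    (fun k => (bn k).1) _)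
    (gk_br (fun k => op_amt hc hg hev k)
    (fun k => op_evb hc hg hev k) _) _)
    (gk_br (gk_br (gk_br (fun k => op_eve hc hg hev k)
    (fun k => op_evm hc hg hev k) _)
    (fun k => op_loop hc k) _)
    (gk_br (fun k => op_emf hc k)
    (fun k => op_emv hc k) _) _) _)
    (gk_br (gk_br (gk_br (gk_br (fun k => op_cut3 k)
    (fun k => op_cut2 k) _)
    (fun k => op_cut1 k) _)
    (gk_br (fun k => op_cut0 k)
    (fun k => op_prf hc k) _) _)
    (gk_br (gk_br (gk_br (fun k => op_prv hc k)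
    (fun k => op_spf hc k) _)
    (fun k => op_spv hc k) _)
    (gk_br (fun k => op_jn11 hc k)
    (fun k => op_jn10 hc k) _) _) _) _)
    (gk_br (gk_br (gk_br (gk_br (gk_br (fun k => op_jn9 hc k)
    (fun k => op_jn8 hc k) _)
    (fun k => op_jn7 hc k) _)
    (gk_br (fun k => op_jn6 hc k)
    (fun k => op_jn5 hc k) _) _)
    (gk_br (gk_br (gk_br (fun k => op_jn4 hc k)
    (fun k => op_jn3 hc k) _)
    (fun k => op_jn2 hc k) _)
    (gk_br (fun k => op_jn1 hc k)
    (fun k => op_clv5 hc k) _) _) _)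
    (gk_br (gk_br (gk_br (gk_br (fun k => op_clv4 hc k)
    (fun k => op_clv3 hc k) _)
    (fun k => op_clv2 hc k) _)
    (gk_br (fun k => op_clv1 hc k)
    (fun k => op_exb hg hc k) _) _)
    (gk_br (gk_br (gk_br (fun k => op_exf hg hc k)
    (fun k => op_exz2 hg hc k) _)
    (fun k => op_exz1 hg hc k) _)
    (gk_br (fun k => op_exz0 hg hc k)
    (fun k => op_ext hg hc k) _) _) _) _) _) _)

theorem good_lvl (n : ℕ) : GoodC g σ α N (lvl g cs n) := by
  induction n with
  | zero => exact fun _ _ _ _ _ _ H => absurd rfl H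
  | succ n ih =>
    intro lim hp m nd e c H
    change @Nat.rec (fun _ => ℕ) 0 (fun k _ => (T g cs k).1 (lvl g cs n) lim m nd e c)
      (Nat.land c 65535) ≠ 0 at H
    cases e1 : Nat.land c 65535 with
    | zero => exact absurd (by rw [e1]; rfl) H
    | succ k =>
      rw [e1] at H
      refine ⟨fun e2 => ?_, good_nr good_dead (fun o => good_TO hev hg hc cs o k)
        (Nat.land k 127) _ ih lim hp m nd e c H⟩
      rw [e2] at e1
      exact absurd e1 (Nat.succ_ne_zero k).symm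

end

theorem upto2_zero (g : G) : Upto2 g 0 := fun _ h => absurd h (Nat.not_lt_zero _)

theorem gok_s {R : Rule} {f : Fd} (h0 : R.s0 = (f.p 0).prog) (h1 : R.s1 = (f.p 1).prog)
    (h2 : R.s2 = (f.p 2).prog) (h3 : R.s3 = (f.p 3).prog) (k : ℕ) : R.s k = (f.p k).prog := by
  rcases k with _ | _ | _ | k
  exacts [h0, h1, h2, h3]

theorem gok_fp {f : Fd} (h0 : fpM f.p0 ≤ 9) (h1 : fpM f.p1 ≤ 9) (h2 : fpM f.p2 ≤ 9)
    (h3 : fpM f.p3 ≤ 9) (k : ℕ) : fpM (f.p k) ≤ 9 := by
  rcases k with _ | _ | _ | k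
  exacts [h0, h1, h2, h3]

variable {g : G} (hev : St_kev) (hg : GOK g) {cs : ℕ → ℕ}
include hev hg

theorem ck_P {i c : ℕ} (hp : Upto2 g i) (H : ckP g cs i c ≠ 0) : PatOK2 g (getP g i) := by
  intro D _ σ α N hc x
  refine stKbld g hg D σ α N hc ⟨fun m nd => (lvl g cs (nat_lit 3000)).1 i m nd (nat_lit 0) c⟩
    (fun m nd h1 => ?_) (nat_lit 128) _ _ x ?_
  · obtain ⟨-, h2, h3⟩ := good_lvl hev hg hc cs (nat_lit 3000) i hp m nd (nat_lit 0) c h1
    exact ⟨h2, fun h hh => h3 h hh aux_zero⟩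
  · rw [show Nat.shiftLeft INI 128 = nat_lit 0xfc00000000000000000000000000000000000000000000000000000 by decide]
    exact H

theorem ck_C (n : ℕ) : ∀ i c, Upto2 g i → ckC g cs n i c = true → Upto2 g (i + n) := by
  induction n with
  | zero => exact fun _ _ hp _ => hp
  | succ n ih =>
    intro i c hp H
    change @Nat.rec (fun _ => Bool) false (fun r _ => ckC g cs n (i + 1) (r + 1))
      (ckP g cs i c) = true at H
    cases e1 : ckP g cs i c with
    | zero => exact absurd H (by rw [e1]; exact Bool.false_ne_true)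
    | succ r =>
      rw [e1] at H
      rw [show i + (n + 1) = i + 1 + n by omega]
      refine ih _ _ (fun j hj => ?_) H
      rcases Nat.lt_succ_iff_lt_or_eq.1 hj with hj | rfl
      · exact hp j hj
      · exact ck_P hev hg hp (by rw [e1]; exact Nat.succ_ne_zero r)

theorem ck_R {i p : ℕ} (hp : Upto2 g i) (H : ckR g cs i p = true) : PatOK g.R p := by
  intro D _ σ α N hc x r hx
  obtain ⟨m, nd, h, -, -, h1, h2⟩ := all_bld.1 g.R D σ α N hc _ _ _
    (all_bld.2 g.R D σ α N hc INI hg.ini x) INI hg.ini 2000 p 128 r _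
    ⟨le_rfl, by norm_num, dvd_rfl⟩ hx H
  exact (good_lvl hev hg hc cs (nat_lit 3000) i hp m nd (nat_lit 0) (cs (nat_lit 0))
    (Nat.one_le_iff_ne_zero.1 (Nat.le_of_ble_eq_true h2))).2.2 h h1 aux_zero

end Pool.Agent.Lib.G6.K
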