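import Pool.Agent.Lib.G6.KBlue

set_option autoImplicit false

/-! Basic facts for the second checker. -/

namespace Pool.Agent.Lib.G6.K

open Equiv
open Pool.Agent.Lib.MP_bfaad3_co (frc sel cj dj tb sb BT frc_eq sel_eq cj_iff dj_iff tb_eq sb_iff)

/-! Links read from the map or from a cell -/

theorem k_shr (m a b : ℕ) : Nat.shiftRight (Nat.shiftRight m a) b = Nat.shiftRight m (a + b) :=
  (Nat.shiftRight_add m a b).symm

theorem k_nx (m y : ℕ) : Nat.land (Nat.shiftRight m y) 131071 = nx m y := rfl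

theorem k_pvc (m y : ℕ) : Nat.land (Nat.shiftRight (Nat.shiftRight m y) 17) 131071 = pv m y := by
  rw [k_shr]; rfl

theorem k_alc (m y : ℕ) : Nat.land (Nat.shiftRight (Nat.shiftRight m y) 34) 131071 = al m y := by
  rw [k_shr]; rfl

theorem k_pv2 (m y : ℕ) : Nat.land (Nat.shiftRight (Nat.shiftRight m 17) y) 131071 = pv m y := by
  rw [k_shr, Nat.add_comm]; rfl

theorem k_al2 (m y : ℕ) : Nat.land (Nat.shiftRight (Nat.shiftRight m 34) y) 131071 = al m y := by
  rw [k_shr, Nat.add_comm]; rfl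

theorem k_wkp (m : ℕ) (w : W) : ∀ y, wkp m w y = walk m w y := by
  induction w with
  | e => exact fun _ => rfl
  | a w ih => exact fun y => (ih _).trans (congrArg (walk m w) (k_al2 m y))
  | s w ih => exact fun y => ih _
  | i w ih => exact fun y => (ih _).trans (congrArg (walk m w) (k_pv2 m y))

/-- the dart named in a key or in the stream -/
theorem k_dart (c : ℕ) : 128 ∣ Nat.land c 65408 ∧ Nat.land c 65408 < 65536 := by
  refine ⟨?_, lt_of_le_of_lt (Nat.and_le_right (n := c) (m := 65408)) (by norm_num)⟩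
  change 128 ∣ c &&& 65408
  rw [Nat.dvd_iff_mod_eq_zero, show 128 = 2 ^ 7 from rfl, Nat.and_mod_two_pow]
  exact Nat.and_zero _

/-! Tests -/

theorem k_fin {c z : ℕ} (h : Nat.mul c (Nat.sub 1 z) ≠ 0) : z = 0 := by
  by_contra hz
  refine h ?_
  change c * (1 - z) = 0
  rw [show 1 - z = 0 by omega, Nat.mul_zero]

theorem k_shr16 {a : ℕ} (h : Nat.shiftRight a 16 = 0) : a < 65536 := by
  change a >>> 16 = 0 at h
  rw [Nat.shiftRight_eq_div_pow] at h
  omega

theorem k_shl16 {a : ℕ} (h : Nat.shiftLeft a 16 < 65536) : a = 0 ∧ Nat.shiftLeft a 16 = 0 := by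
  change a <<< 16 < 65536 at h
  change _ ∧ a <<< 16 = 0
  rw [Nat.shiftLeft_eq] at h ⊢
  omega

theorem k_xor0 {a b : ℕ} (h : Nat.xor a b = 0) : a = b := Nat.eq_of_xor_eq_zero h

/-- a test with an increment in its low bits -/
theorem k_tst {y P i : ℕ} (hy : y % 65536 = 0) (hP : P % 65536 = 0) (hi : i < 65536)
    (h : Nat.xor y (P + i) < 65536) : y = P ∧ Nat.xor y (P + i) = i := by
  change y ^^^ (P + i) < 65536 at h
  change _ ∧ y ^^^ (P + i) = i
  have e1 : (y ^^^ (P + i)) / 2 ^ 16 = y / 2 ^ 16 ^^^ (P + i) / 2 ^ 16 := Nat.xor_div_two_pow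
  have e2 : (y ^^^ (P + i)) % 2 ^ 16 = y % 2 ^ 16 ^^^ (P + i) % 2 ^ 16 := Nat.xor_mod_two_pow
  rw [show y % 2 ^ 16 = 0 from hy, Nat.zero_xor] at e2
  rw [show (y ^^^ (P + i)) / 2 ^ 16 = 0 by omega] at e1
  have e3 := Nat.eq_of_xor_eq_zero e1.symm
  omega

theorem k_and16 (x : ℕ) {K : ℕ} (hK : K % 65536 = 0) : Nat.land x K % 65536 = 0 := by
  change (x &&& K) % 2 ^ 16 = 0
  rw [Nat.and_mod_two_pow, show K % 2 ^ 16 = 0 from hK, Nat.and_zero]

theorem k_bits16 {K lo hi : ℕ} (hK : Bits lo hi K) (h : 16 ≤ lo) : K % 65536 = 0 := by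
  change K % 2 ^ 16 = 0
  refine Nat.eq_of_testBit_eq fun i => ?_
  rw [Nat.testBit_mod_two_pow, Nat.zero_testBit]
  cases e : K.testBit i
  · exact Bool.and_false _
  · have := (hK i e).1
    rw [decide_eq_false (by omega), Bool.false_and]

theorem k_sb {x K : ℕ} (h : Nat.land x K = K) : sb K x = true :=
  (sb_iff _ _).2 fun i hi => by
    rw [← h] at hi
    change (x &&& K).testBit i = true at hi
    rw [Nat.testBit_and, Bool.and_eq_true] at hi
    exact hi.1

/-- a test of inclusion -/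
theorem k_sub {x K : ℕ} (hK : K % 65536 = 0) (h : Nat.xor (Nat.land x K) K < 65536) :
    sb K x = true ∧ Nat.xor (Nat.land x K) K = 0 := by
  have := k_tst (P := K) (i := 0) (k_and16 x hK) hK (by norm_num) h
  exact ⟨k_sb this.1, this.2⟩

theorem k_bit {x K P i : ℕ} (h : Nat.land x K = P) (hK : K.testBit i = true) :
    x.testBit i = P.testBit i := by
  rw [← h]
  change _ = (x &&& K).testBit i
  rw [Nat.testBit_and, hK, Bool.and_true]

theorem k_cell (m d i : ℕ) : (Nat.shiftRight m d).testBit i = m.testBit (d + i) :=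
  Nat.testBit_shiftRight m

/-- a link is null -/
theorem k_nul {m d o K P : ℕ} (h : Nat.land (Nat.shiftRight m d) K = P)
    (hK : ∀ i < 17, K.testBit (o + i) = true ∧ P.testBit (o + i) = false) : fld m d o = 0 :=
  rp_low fun i hi => by
    have := k_bit h (hK i hi).1
    rw [k_cell, (hK i hi).2, ← Nat.add_assoc] at this
    exact this

section
variable {R : Rule} {D : Type} [Fintype D] {σ α : Perm D} {N : Set D} {m nd : ℕ} {h : ℕ → D}

omit [Fintype D] in
theorem rs_self {d : ℕ} (hd : 128 ∣ d) : Rs nd h d (h d) := ⟨hd, fun _ => rfl⟩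

omit [Fintype D] in
theorem rs_rp {d : ℕ} {x : D} (r : Rp nd h d x) : Rs nd h d x := by
  rcases r with rfl | ⟨h1, h2⟩
  · exact ⟨dvd_zero _, fun hv => absurd hv.1 (by norm_num)⟩
  · exact ⟨h1.2.2, fun _ => h2⟩

omit [Fintype D] in
theorem rs_val {d : ℕ} (hd : Val nd d) : Rs nd h d (h d) := rs_self hd.2.2

omit [Fintype D] in
theorem rs_zero (x : D) : Rs nd h 0 x := rs_rp (Or.inl rfl)

omit [Fintype D] in
theorem rs_cases {d : ℕ} {x : D} (r : Rs nd h d x) : Rp nd h d x ∨ nd ≤ d := by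
  by_cases h1 : d < nd
  · by_cases h2 : d = 0
    · exact Or.inl (Or.inl h2)
    · have hv : Val nd d := ⟨Nat.le_of_dvd (by omega) r.1, h1, r.1⟩
      exact Or.inl (Or.inr ⟨hv, r.2 hv⟩)
  · exact Or.inr (by omega)

/-- a set fact bit lies in the cell of a dart -/
theorem k_val (hh : Hom R σ α N m nd h) {d i : ℕ} (hd : 128 ∣ d) (h1 : 64 ≤ i) (h2 : i < 128)
    (hb : m.testBit (d + i) = true) : Val nd d := by
  refine ⟨?_, ?_, hd⟩
  · by_contra hc
    obtain rfl : d = 0 := by omega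
    rw [hh.nul _ (by omega) (Or.inr (by omega))] at hb
    exact Bool.false_ne_true hb
  · by_contra hc
    rw [hh.top _ (by omega)] at hb
    exact Bool.false_ne_true hb

theorem rs_nx (hh : Hom R σ α N m nd h) {d : ℕ} {x : D} (r : Rs nd h d x) :
    Rp nd h (nx m d) (σ x) :=
  (rs_cases r).elim (rp_nx hh) fun h1 => Or.inl (ext_fld_top (o := 0) hh.top h1)

theorem rs_pv (hh : Hom R σ α N m nd h) {d : ℕ} {x : D} (r : Rs nd h d x) :
    Rp nd h (pv m d) (σ⁻¹ x) :=
  (rs_cases r).elim (rp_pv hh) fun h1 => Or.inl (ext_fld_top (o := 17) hh.top h1)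

theorem rs_al (hh : Hom R σ α N m nd h) {d : ℕ} {x : D} (r : Rs nd h d x) :
    Rp nd h (al m d) (α x) :=
  (rs_cases r).elim (rp_al hh) fun h1 => Or.inl (ext_fld_top (o := 34) hh.top h1)

theorem rs_ph (hh : Hom R σ α N m nd h) {d : ℕ} {x : D} (r : Rs nd h d x) :
    Rp nd h (ph m d) ((σ * α) x) := rp_nx hh (rs_al hh r)

theorem rs_walk (hh : Hom R σ α N m nd h) (w : W) :
    ∀ {d : ℕ} {x : D}, Rs nd h d x → Rs nd h (walk m w d) (wr σ α w x) := by
  induction w with
  | e => exact fun r => r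
  | a w ih => exact fun r => ih (rs_rp (rs_al hh r))
  | s w ih => exact fun r => ih (rs_rp (rs_nx hh r))
  | i w ih => exact fun r => ih (rs_rp (rs_pv hh r))

theorem rs_fact (hh : Hom R σ α N m nd h) {d : ℕ} {x : D} (r : Rs nd h d x) (i : ℕ)
    (h1 : 64 ≤ i) (h2 : i < 127) (hb : m.testBit (d + i) = true) : Fact R σ α N i x := by
  have hv := k_val hh r.1 h1 (by omega) hb
  rw [← r.2 hv]
  exact hh.hf d i hv h1 h2 hb

theorem rs_sb (hh : Hom R σ α N m nd h) {d a : ℕ} {x : D} (r : Rs nd h d x)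
    (ha : Bits 64 127 a) (hs : sb a (Nat.shiftRight m d) = true) : Facts R σ α N a x :=
  fun i hi => rs_fact hh r i (ha i hi).1 (ha i hi).2 (by
    rw [← k_cell]; exact (sb_iff _ _).1 hs i hi)

theorem rs_get (hh : Hom R σ α N m nd h) {d : ℕ} {x : D} (r : Rs nd h d x) {lo hi a : ℕ}
    (ha : Bits lo hi a) (h1 : 64 ≤ lo) (h2 : hi ≤ 127) :
    Bits lo hi (Nat.land (Nat.shiftRight m d) a) ∧
      Facts R σ α N (Nat.land (Nat.shiftRight m d) a) x := by
  have key : ∀ i, (Nat.land (Nat.shiftRight m d) a).testBit i = true →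
      m.testBit (d + i) = true ∧ a.testBit i = true := by
    intro i hi
    change (m >>> d &&& a).testBit i = true at hi
    rwa [Nat.testBit_and, Nat.testBit_shiftRight, Bool.and_eq_true] at hi
  refine ⟨fun i hi => ha i (key i hi).2, fun i hi => ?_⟩
  have := ha i (key i hi).2
  exact rs_fact hh r i (by omega) (by omega) (key i hi).1

/-- the test of the validity bit -/
theorem k_vb (hh : Hom R σ α N m nd h) {d K P : ℕ} (hd : 128 ∣ d)
    (e : Nat.land (Nat.shiftRight m d) K = P) (hK : K.testBit 91 = true)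
    (hP : P.testBit 91 = true) : Val nd d :=
  k_val hh hd (i := 91) (by norm_num) (by norm_num) (by rw [← k_cell, k_bit e hK, hP])

/-! Recording facts on a set of darts -/

theorem k_mask (hh : Hom R σ α N m nd h) {s a : ℕ} (ha : Bits 64 127 a)
    (hs : ∀ j, s.testBit j = true → ∃ y, Rs nd h j y ∧ Facts R σ α N a y) :
    Hom R σ α N (Nat.lor m (Nat.mul (Nat.land (Nat.shiftRight m 91) s) a)) nd h := by
  have hlt : a < 2 ^ 128 := Nat.lt_pow_two_of_testBit _ fun i hi => by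
    cases e : a.testBit i
    · rfl
    · have := (ha i e).2; omega
  have key : ∀ j, (Nat.land (Nat.shiftRight m 91) s).testBit j = true →
      Val nd j ∧ Facts R σ α N a (h j) := by
    intro j hj
    change (m >>> 91 &&& s).testBit j = true at hj
    rw [Nat.testBit_and, Nat.testBit_shiftRight, Bool.and_eq_true, Nat.add_comm] at hj
    obtain ⟨y, r, hy⟩ := hs j hj.2
    have hv := k_val hh r.1 (by norm_num) (by norm_num) hj.1
    exact ⟨hv, r.2 hv ▸ hy⟩
  refine put2_or hh fun i hi => ?_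
  obtain ⟨j, k, hj, hk, e⟩ := put2_mul hlt _ (fun j hj => (key j hj).1.2.2) i hi
  exact ⟨j, k, (key j hj).1, e, (ha k hk).1, (ha k hk).2, (key j hj).2 k hk⟩

theorem k_one (hh : Hom R σ α N m nd h) {d a : ℕ} {x : D} (r : Rs nd h d x) (ha : Bits 64 127 a)
    (hF : Facts R σ α N a x) : Hom R σ α N (Nat.lor m (Nat.mul (one m d) a)) nd h :=
  k_mask hh ha fun _ hj => ⟨x, put2_one hj ▸ r, hF⟩

theorem k_orb {P : ℕ → Prop} {a b : ℕ} (ha : ∀ j, a.testBit j = true → P j)
    (hb : ∀ j, b.testBit j = true → P j) : ∀ j, (Nat.lor a b).testBit j = true → P j := by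
  intro j hj
  change (a ||| b).testBit j = true at hj
  rw [Nat.testBit_or, Bool.or_eq_true] at hj
  exact hj.elim (ha j) (hb j)

omit [Fintype D] in
theorem k_wk {Q : D → Prop} {f : ℕ → ℕ} {w : ℕ → C2} {m : ℕ}
    (hf : ∀ d x, Rs nd h d x → Q x → ∃ y, Rs nd h (f d) y ∧ Q y)
    (h0 : ∀ y, (w 0).1 m y = Nat.shiftLeft 1 (f y))
    (h1 : ∀ n y, (w (n + 1)).1 m y = Nat.lor (Nat.shiftLeft 1 (f y)) ((w n).1 m (f y))) (n : ℕ) :
    ∀ d x, Rs nd h d x → Q x → ∀ j, ((w n).1 m d).testBit j = true → ∃ y, Rs nd h j y ∧ Q y := by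
  induction n with
  | zero =>
    intro d x r hx j hj
    rw [h0] at hj
    exact put2_one hj ▸ hf d x r hx
  | succ n ih =>
    intro d x r hx
    rw [h1]
    obtain ⟨y, r', hy⟩ := hf d x r hx
    exact k_orb (fun j hj => ⟨y, put2_one hj ▸ r', hy⟩) (ih _ y r' hy)

theorem k_msk4 (hh : Hom R σ α N m nd h) {a d : ℕ} {x : D} (ha : Bits 64 127 a)
    (r : Rs nd h d x) (hx : Facts R σ α N a x) {F B : ℕ → C2}
    (hF : ∀ n j, ((F n).1 m d).testBit j = true → ∃ y, Rs nd h j y ∧ Facts R σ α N a y)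
    (hB : ∀ n j, ((B n).1 m d).testBit j = true → ∃ y, Rs nd h j y ∧ Facts R σ α N a y)
    (k1 k2 : ℕ) :
    Hom R σ α N (Nat.lor m (Nat.mul ((@Nat.rec (fun _ => C2)
      (@Nat.rec (fun _ => C2)
        ⟨fun m y => Nat.land (Nat.shiftRight m 91) (Nat.shiftLeft 1 y)⟩
        (fun b _ => ⟨fun m y => Nat.land (Nat.shiftRight m 91)
          (Nat.lor (Nat.shiftLeft 1 y) ((B b).1 m y))⟩) k2)
      (fun a _ => @Nat.rec (fun _ => C2)
        ⟨fun m y => Nat.land (Nat.shiftRight m 91) (Nat.lor (Nat.shiftLeft 1 y) ((F a).1 m y))⟩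
        (fun b _ => ⟨fun m y => Nat.land (Nat.shiftRight m 91)
          (Nat.lor (Nat.lor (Nat.shiftLeft 1 y) ((F a).1 m y)) ((B b).1 m y))⟩) k2) k1).1 m d) a))
      nd h := by
  have h0 : ∀ j, (Nat.shiftLeft 1 d).testBit j = true → ∃ y, Rs nd h j y ∧ Facts R σ α N a y :=
    fun _ hj => ⟨x, put2_one hj ▸ r, hx⟩
  cases k1 <;> cases k2
  · exact k_mask hh ha h0
  · exact k_mask hh ha (k_orb h0 (hB _))
  · exact k_mask hh ha (k_orb h0 (hF _))
  · exact k_mask hh ha (k_orb (k_orb h0 (hF _)) (hB _))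

theorem k_mskV (hc : Ctx σ α N) (hh : Hom R σ α N m nd h) {a d : ℕ} {x : D} (ha : Bits 64 70 a)
    (r : Rs nd h d x) (hx : Facts R σ α N a x) (k : ℕ) :
    Hom R σ α N (Nat.lor m (Nat.mul ((mskV k).1 m d) a)) nd h := by
  have iv := stINV D σ α N hc.cls
  refine k_msk4 hh (chk_wide ha le_rfl (by norm_num)) r hx (F := wN) (B := wP) (fun n => ?_)
    (fun n => ?_) _ _
  · exact k_wk (f := nx m) (fun d x r hx => ⟨_, rs_rp (rs_nx hh r), put2_V ha (iv x).1 hx⟩)
      (fun _ => rfl) (fun _ _ => rfl) n d x r hx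
  · refine k_wk (f := fun y => Nat.land (Nat.shiftRight (Nat.shiftRight m 17) y) 131071)
      (fun d x r hx => ⟨σ⁻¹ x, k_pv2 m d ▸ rs_rp (rs_pv hh r), put2_V ha ?_ hx⟩)
      (fun _ => rfl) (fun _ _ => rfl) n d x r hx
    have := (iv (σ⁻¹ x)).1
    rw [ext_ai] at this
    exact this.symm

theorem k_mskF (hc : Ctx σ α N) (hh : Hom R σ α N m nd h) {a d : ℕ} {x : D} (ha : Bits 70 92 a)
    (r : Rs nd h d x) (hx : Facts R σ α N a x) (k : ℕ) :
    Hom R σ α N (Nat.lor m (Nat.mul ((mskF k).1 m d) a)) nd h := by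
  have iv := stINV D σ α N hc.cls
  refine k_msk4 hh (chk_wide ha (by norm_num) (by norm_num)) r hx (F := wF) (B := wB)
    (fun n => ?_) (fun n => ?_) _ _
  · exact k_wk (f := fun y => nx m (Nat.land (Nat.shiftRight (Nat.shiftRight m 34) y) 131071))
      (fun d x r hx => ⟨σ (α x), k_al2 m d ▸ rs_rp (rs_ph hh r),
        put2_F ha (iv x).2.2.2.2.2.2.2.1 hx⟩) (fun _ => rfl) (fun _ _ => rfl) n d x r hx
  · refine k_wk (f := fun y => Nat.land (Nat.shiftRight (Nat.shiftRight m 34)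
        (Nat.land (Nat.shiftRight (Nat.shiftRight m 17) y) 131071)) 131071)
      (fun d x r hx => ⟨α (σ⁻¹ x), ?_, put2_F ha ?_ hx⟩) (fun _ => rfl) (fun _ _ => rfl) n d x r hx
    · rw [k_al2, k_pv2]
      exact rs_rp (rp_al hh (rs_pv hh r))
    · have := (iv (σ⁻¹ x)).2.2.2.2.2.2.2.2.1
      rw [ext_ai] at this
      exact this.symm

/-! The auxiliary state -/

theorem aux_zero : Aux R σ α N 0 nd h :=
  ⟨fun _ _ _ _ _ => Nat.zero_testBit _, fun _ _ _ _ _ _ hb => absurd hb (by simp),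
    fun _ _ _ _ => by simp⟩

theorem aux_ext {e nd' : ℕ} {h' : ℕ → D} (A : Aux R σ α N e nd h) (hx : Ext nd h h')
    (hn : nd ≤ nd') : Aux R σ α N e nd' h' := by
  refine ⟨fun d i h1 h2 h3 => A.out d i h1 (fun hv => h2 ⟨hv.1, hv.2.1.trans_le hn, hv.2.2⟩) h3,
    fun d k i hd hk hi hb => ?_, fun d k hd hk => ?_⟩
  · by_cases hv : Val nd d
    · rw [hx d hv]
      exact A.lv d k i hv hk hi hb
    · rw [Nat.add_assoc, A.out d _ hd.2.2 hv (by omega)] at hb
      exact absurd hb Bool.false_ne_true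
  · by_cases hv : Val nd d
    · rw [hx d hv]
      exact A.sh d k hv hk
    · refine le_trans (le_of_eq ?_) (Nat.zero_le _)
      change _ % 2 ^ 6 = 0
      refine Nat.eq_of_testBit_eq fun i => ?_
      rw [Nat.testBit_mod_two_pow, Nat.testBit_shiftRight, Nat.zero_testBit]
      by_cases hi : i < 6
      · rw [Nat.add_assoc, Nat.add_assoc, A.out d _ hd.2.2 hv (by omega), Bool.and_false]
      · rw [decide_eq_false hi, Bool.false_and]

/-- reading a field of the auxiliary state -/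
theorem aux_rs {e d k i : ℕ} {x : D} (A : Aux R σ α N e nd h) (r : Rs nd h d x) (hk : k < 4)
    (hi : i < 26) (hb : e.testBit (d + 26 * k + i) = true) :
    Val nd d ∧ (rT (run σ α N (R.s k) x)).testBit i = true := by
  by_cases hv : Val nd d
  · exact ⟨hv, r.2 hv ▸ A.lv d k i hv hk hi hb⟩
  · rw [Nat.add_assoc, A.out d _ r.1 hv (by omega)] at hb
    exact absurd hb Bool.false_ne_true

end

/-! The bits of a value -/

theorem k_rP (r i : ℕ) : (rP r).testBit i =
    (decide (10 ≤ i) && (r.testBit (i - 10) ||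
      (decide (18 ≤ i) && (255 ^^^ r).testBit (i - 18)))) := by
  change ((r ||| (255 ^^^ r) <<< 8) <<< 10).testBit i = _
  rw [Nat.testBit_shiftLeft, Nat.testBit_or, Nat.testBit_shiftLeft]
  by_cases h1 : 10 ≤ i
  · rw [show i - 10 - 8 = i - 18 by omega, decide_eq_decide.2 (show i - 10 ≥ 8 ↔ 18 ≤ i by omega)]
  · simp [h1]

/-- the low bits of `rT` exclude the level only -/
theorem k_rT_lo (v : ℕ) {i : ℕ} (hi : i < 10) : (rT v).testBit i = true ↔ min (v % 16) 9 ≠ i := by
  change ((1023 ^^^ 1 <<< mn (v &&& (2 ^ 4 - 1)) 9) ||| rP _).testBit i = true ↔ _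
  rw [Nat.testBit_or, k_rP, decide_eq_false (show ¬ 10 ≤ i by omega), Bool.false_and,
    Bool.or_false, Nat.testBit_xor, Nat.one_shiftLeft, Nat.testBit_two_pow, lv_mn,
    Nat.and_two_pow_sub_one_eq_mod, show 1023 = 2 ^ 10 - 1 from rfl,
    Nat.testBit_two_pow_sub_one, decide_eq_true hi]
  simp

theorem k_rT_lt (v : ℕ) {i : ℕ} (h : (rT v).testBit i = true) : i < 26 := by
  by_contra hc
  change ((1023 ^^^ 1 <<< mn (v &&& 15) 9) ||| rP (v >>> 4 &&& 255)).testBit i = true at h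
  have h1 : v >>> 4 &&& 255 < 2 ^ 8 := Nat.lt_succ_of_le Nat.and_le_right
  rw [Nat.testBit_or, k_rP, ext_hi h1 (by omega), ext_hi (Nat.xor_lt_two_pow (by norm_num) h1)
    (by omega), ext_hi (n := 10) (Nat.xor_lt_two_pow (by norm_num) (by
      rw [Nat.one_shiftLeft, lv_mn]
      exact Nat.pow_lt_pow_right (by norm_num) (by omega))) (by omega)] at h
  simp at h

/-- the high bits of `rT` determine the route -/
theorem k_rT_rt {v r : ℕ} (hv : v < 4096) (hr : r < 256)
    (h : ∀ i, (rP r).testBit i = true → (rT v).testBit i = true) : v / 16 = r := by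
  have e : v >>> 4 &&& 255 = v / 16 := by
    change v >>> 4 &&& (2 ^ 8 - 1) = _
    rw [Nat.and_two_pow_sub_one_eq_mod, Nat.shiftRight_eq_div_pow]
    omega
  have h1 : v / 16 < 2 ^ 8 := by omega
  have key : ∀ i, 10 ≤ i → (rP r).testBit i = true → (rP (v / 16)).testBit i = true := by
    intro i hi hb
    have h2 := h i hb
    change ((1023 ^^^ 1 <<< mn (v &&& 15) 9) ||| rP (v >>> 4 &&& 255)).testBit i = true at h2
    rwa [Nat.testBit_or, e, ext_hi (n := 10) (Nat.xor_lt_two_pow (by norm_num) (by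
      rw [Nat.one_shiftLeft, lv_mn]
      exact Nat.pow_lt_pow_right (by norm_num) (by omega))) hi, Bool.false_or] at h2
  refine Nat.eq_of_testBit_eq fun i => ?_
  by_cases hi : i < 8
  · have a := key (10 + i) (by omega)
    have b := key (18 + i) (by omega)
    have c : Nat.testBit 255 i = true := by
      rw [show 255 = 2 ^ 8 - 1 from rfl, Nat.testBit_two_pow_sub_one, decide_eq_true hi]
    rw [k_rP, k_rP, decide_eq_false (show ¬ 18 ≤ 10 + i by omega),
      show 10 + i - 10 = i by omega, decide_eq_true (show 10 ≤ 10 + i by omega)] at a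
    rw [k_rP, k_rP, show 18 + i - 18 = i by omega, ext_hi (n := 8) hr (by omega),
      ext_hi h1 (by omega), Nat.testBit_xor, Nat.testBit_xor, c,
      decide_eq_true (show 10 ≤ 18 + i by omega), decide_eq_true (show 18 ≤ 18 + i by omega)] at b
    revert a b
    cases r.testBit i <;> cases (v / 16).testBit i <;> simp
  · rw [ext_hi h1 (by omega), ext_hi (n := 8) hr (by omega)]

end Pool.Agent.Lib.G6.K
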