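import Pool.Agent.Lib.G6.KDef

set_option autoImplicit false

/-! Semantics and statements of the blocks of the second checker. -/

namespace Pool.Agent.Lib.G6.K

open Equiv
open Pool.Agent.Lib.MP_bfaad3_co (frc sel cj dj tb sb BT)

/-! The changes of state, as they occur unfolded in the operations. -/

def exZ (m nd d : ℕ) : ℕ :=
  (Nat.lor (Nat.lor m (Nat.shiftLeft nd (Nat.add d (nat_lit 34)))) (Nat.shiftLeft (Nat.lor (Nat.lor (Nat.add (Nat.mul nd (nat_lit 0x200010000000000000000000000000002000100000000000000000000000000020001)) (Nat.add (Nat.shiftLeft d (nat_lit 34)) (nat_lit 0xfc0003e0000000001000000000000000fc0003e0000000000000100000000000fc0003e0000000002000080))) (Nat.land (Nat.shiftRight m (Nat.land (Nat.shiftRight m d) (nat_lit 0x1ffff))) (nat_lit 0xfffffc00000000000000000))) (Nat.shiftLeft (Nat.land (Nat.shiftRight m d) (nat_lit 0xfffffc00000000000000000)) (nat_lit 128))) nd))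

def exA (m nd d w : ℕ) : ℕ :=
  (Nat.lor (Nat.lor m (Nat.shiftLeft nd (Nat.add d (nat_lit 34)))) (Nat.shiftLeft (Nat.lor (Nat.add (Nat.shiftLeft d (nat_lit 34)) w) (Nat.land (Nat.shiftRight m (Nat.land (Nat.shiftRight m d) (nat_lit 0x1ffff))) (nat_lit 0xfffffc00000000000000000))) nd))

def exF (m nd d : ℕ) : ℕ :=
  (Nat.lor (Nat.lor m (Nat.shiftLeft nd d)) (Nat.shiftLeft (Nat.lor (Nat.lor (Nat.add (Nat.shiftLeft d (nat_lit 17)) (nat_lit 0xfc000000000000000000000)) (Nat.land (Nat.shiftRight m d) (nat_lit 0x3f0000000000000000))) (Nat.land (Nat.shiftRight m (Nat.land (Nat.shiftRight (Nat.shiftRight m d) (nat_lit 34)) (nat_lit 0x1ffff))) (nat_lit 0xfffffc00000000000000000))) nd))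

def exB (m nd d : ℕ) : ℕ :=
  (Nat.lor (Nat.lor m (Nat.shiftLeft nd (Nat.add d (nat_lit 17)))) (Nat.shiftLeft (Nat.lor (Nat.add d (nat_lit 0xfc000000000000000000000)) (Nat.land (Nat.shiftRight m d) (nat_lit 0x3f0000000000000000))) nd))

def tA (m nd d w : ℕ) : ℕ :=
  (Nat.add nd (Nat.xor (Nat.land (Nat.shiftRight m d) (nat_lit 0x80000000007fffc00000000)) w))

def tF (m nd d : ℕ) : ℕ :=
  (Nat.add nd (Nat.xor (Nat.shiftLeft (Nat.land (Nat.shiftRight m d) (nat_lit 0x8000000000000000001ffff)) (nat_lit 16)) (nat_lit 0x800000000000000000000000080)))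

def tB (m nd d : ℕ) : ℕ :=
  (Nat.add nd (Nat.xor (Nat.land (Nat.shiftRight m d) (nat_lit 0x800000000000003fffe0000)) (nat_lit 0x80000000000000000000080)))

def one (m y : ℕ) : ℕ :=
  (Nat.land (Nat.shiftRight m (nat_lit 91)) (Nat.shiftLeft (nat_lit 1) y))

/-- `d` is a multiple of 128 and has image `x` if it is a dart -/
def Rs {D : Type} (nd : ℕ) (h : ℕ → D) (d : ℕ) (x : D) : Prop := 128 ∣ d ∧ (Val nd d → h d = x)

/-- the registers of a pattern -/
structure Rg (D : Type) : Type where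
  x : D
  s1 : D
  s2 : D
  s3 : D
  s4 : D

/-- the move of a token -/
def tokS {D : Type} (σ α : Perm D) (t : ℕ) (r : Rg D) : Rg D :=
  if t = 0 then ⟨α (σ r.x), r.s1, r.s2, r.s3, r.s4⟩
  else if t = 1 then ⟨α (σ⁻¹ r.x), r.s1, r.s2, r.s3, r.s4⟩
  else if t = 2 ∨ t = 7 ∨ t = 13 then ⟨α r.x, r.s1, r.s2, r.s3, r.s4⟩
  else if t = 3 ∨ t = 5 then ⟨σ r.x, r.s1, r.s2, r.s3, r.s4⟩
  else if t = 4 ∨ t = 6 then ⟨σ⁻¹ r.x, r.s1, r.s2, r.s3, r.s4⟩
  else if t = 8 then ⟨r.x, r.x, r.s1, r.s2, r.s3⟩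
  else if t = 9 then ⟨r.s1, r.s2, r.s3, r.s4, r.s4⟩
  else r

/-- the payload left by a token -/
def tokP (t p : ℕ) : ℕ :=
  if t = 10 then Nat.shiftRight p 6 else if t = 11 ∨ t = 16 then Nat.shiftRight p 16
  else if t = 12 then Nat.shiftRight p 28 else p

section

variable {D : Type} [Fintype D]

/-- the condition of a token -/
def tokC (R : Rule) (σ α : Perm D) (N : Set D) (t p : ℕ) (r : Rg D) : Prop :=
  if t ≤ 2 ∨ t = 14 then (tokS σ α t r).x ∉ N
  else if t ≤ 9 then True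
  else if t = 10 then Facts R σ α N (Nat.shiftLeft (Nat.land p 63) 64) r.x
  else if t = 11 ∨ t = 16 then Facts R σ α N (Nat.shiftLeft (Nat.land p 65535) 70) r.x
  else if t = 12 then Facts R σ α N (plA p) r.x
  else if t = 13 ∨ t = 15 then (tokS σ α t r).x ∈ N
  else False

/-- a list of tokens holds, then `K` -/
def HT (R : Rule) (σ α : Perm D) (N : Set D) (K : ℕ → Rg D → Prop) : List ℕ → ℕ → Rg D → Prop
  | [], p, r => K p r
  | t :: ts, p, r => tokC R σ α N t p r ∧ HT R σ α N K ts (tokP t p) (tokS σ α t r)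

/-- the bytes `q` hold with payload `p` -/
def HQ (g : G) (σ α : Perm D) (N : Set D) : ℕ → ℕ → ℕ → Rg D → Prop
  | 0, _, _, _ => False
  | n + 1, q, p, r => Nat.land q 255 = 0 ∨ ∃ b, Nat.land q 255 = b + 1 ∧
      HT g.R σ α N (HQ g σ α N n (Nat.shiftRight q 8)) (g.ent b).1 p r

/-- the auxiliary state: four fields of 26 bits that hold for the values of the programs, two
lower bounds of amounts -/
structure Aux (R : Rule) (σ α : Perm D) (N : Set D) (e nd : ℕ) (h : ℕ → D) : Prop where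
  out : ∀ d i, 128 ∣ d → ¬ Val nd d → i < 128 → e.testBit (d + i) = false
  lv : ∀ d k i, Val nd d → k < 4 → i < 26 → e.testBit (d + 26 * k + i) = true →
    (rT (run σ α N (R.s k) (h d))).testBit i = true
  sh : ∀ d k, Val nd d → k ≤ 1 → e >>> (d + 104 + 12 * k) % 64 ≤ amt R σ α N k (h d)

end

/-- the pattern does not occur -/
def PatOK2 (g : G) (P : ℕ) : Prop :=
  ∀ (D : Type) [Fintype D] (σ α : Perm D) (N : Set D), Ctx σ α N → ∀ x,
    ¬ HQ g σ α N 128 (Nat.shiftRight P (Nat.land P 4095)) (Nat.shiftRight P 12) ⟨x, x, x, x, x⟩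

def Upto2 (g : G) (i : ℕ) : Prop := ∀ j < i, PatOK2 g (getP g j)

/-- entry `f` of the table of competitors of level `a` -/
noncomputable def taE (g : G) (a f : ℕ) : ℕ := g.fd.ta.get a >>> (32 * f) % 2 ^ 32

/-- the static data are correct -/
structure GOK (g : G) : Prop where
  ok : RuleOK g.R
  ini : IniOK g.R INI
  nzn : NZN
  red : RedOK g.R g.red
  s : ∀ k, g.R.s k = (g.fd.p k).prog
  rt : g.R.rt = g.fd.rts
  fp : ∀ k, fpM (g.fd.p k) ≤ 9
  am : ∀ f < 1024, byt g.fd.am f ≤ 120 ∧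
    ∀ l < 10, f.testBit l = false → byt g.R.am0 l ≤ byt g.fd.am f
  ta : ∀ a < 10, 1 ≤ a → ∀ f < 1024,
    (taE g a f % 2048 ≤ 90 ∧ taE g a f / 2048 % 1024 ≤ 45 ∧ taE g a f / 2097152 ≤ 90) ∧
    ∀ l < 10, f.testBit l = false →
      (byt g.R.ti a ≤ byt g.R.ti l → byt g.R.am1 l ≤ taE g a f % 2048) ∧
      (byt g.R.ti l = byt g.R.ti a → byt g.R.wt l ≤ taE g a f / 2048 % 1024) ∧
      (byt g.R.ti a + 1 ≤ byt g.R.ti l → byt g.R.am1 l ≤ taE g a f / 2097152)

section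

variable (g : G) {D : Type} [Fintype D] (σ α : Perm D) (N : Set D)

/-- the state does not occur -/
def Bad (m nd e : ℕ) : Prop :=
  ∀ h, Hom g.R σ α N m nd h → Aux g.R σ α N e nd h → False

def GoodC (cl : Cl) : Prop := ∀ lim, Upto2 g lim → ∀ m nd e c, cl.1 lim m nd e c ≠ 0 →
  c ≠ 0 ∧ nd < 65536 ∧ Bad g σ α N m nd e

def GoodO (op : Op) : Prop := ∀ ih, GoodC g σ α N ih → ∀ lim, Upto2 g lim → ∀ m nd e c,
  op.1 ih lim m nd e c ≠ 0 → nd < 65536 ∧ Bad g σ α N m nd e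

end

/-- quantification over correct data and minimal counterexamples -/
def AllG (P : ∀ (_ : G) (D : Type) [Fintype D], Perm D → Perm D → Set D → Prop) : Prop :=
  ∀ g, GOK g → ∀ (D : Type) [Fintype D] (σ α : Perm D) (N : Set D), Ctx σ α N → P g D σ α N

/-- evaluation of programs -/
def St_kev : Prop := AllG fun g _ _ σ α N =>
  (∀ k x, run σ α N (g.R.s k) x < 4096 ∧ lv g.R σ α N k x ≤ 9) ∧
  ∀ m nd h, Hom g.R σ α N m nd h → ∀ k t d x, Rs nd h d x → ∀ i,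
    ((ev t (g.fd.p k)).1 m (Nat.shiftRight m d)).testBit i = true →
      (rT (run σ α N (g.R.s k) x)).testBit i = true

/-- the matcher -/
def St_kmtc : Prop := AllG fun g _ _ σ α N => ∀ m nd h, Hom g.R σ α N m nd h →
  ∀ n q p d x c, Rs nd h d x → c = Nat.shiftRight m d →
    ((((mlv0 g n).1 q p 0).1 m c c c c c ZB 0 = 0 → HQ g σ α N n q p ⟨x, x, x, x, x⟩) ∧
     (((mlv1 g n).1 q p 0).1 m c c c c c ZB 0 = 0 → HQ g σ⁻¹ α N n q p ⟨x, x, x, x, x⟩))

/-- the builder -/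
def St_kbld : Prop := AllG fun g _ _ σ α N => ∀ fin : C2,
  (∀ m nd, fin.1 m nd ≠ 0 → nd < 65536 ∧ ∀ h, Hom g.R σ α N m nd h → False) →
  ∀ n p q x, (blv g n).1 fin p q (Nat.shiftLeft INI 128) 256 128 128 128 128 128 ≠ 0 →
    ¬ HQ g σ α N n q p ⟨x, x, x, x, x⟩

/-- the bounds of the charges -/
def St_kbnd : Prop := AllG fun g _ _ σ α N => ∀ k,
  GoodO g σ α N (oBnv g k) ∧ GoodO g σ α N (oBnf g k)

/-- the shares -/
def St_kshr : Prop := AllG fun g _ _ σ α N => ∀ a k, 1 ≤ a → a ≤ 9 →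
  GoodO g σ α N (oShr g a k) ∧ GoodO g σ α N (oShv g a k)

/-- the classes of faces -/
def St_krel : Prop := AllG fun g _ _ σ α N => ∀ k, GoodO g σ α N (oRlq k) ∧
  GoodO g σ α N (oRel1 k) ∧
  GoodO g σ α N (oRel2 k) ∧
  GoodO g σ α N (oRel3 k) ∧
  GoodO g σ α N (oRel4 k) ∧
  GoodO g σ α N (oRel5 k) ∧
  GoodO g σ α N (oRel6 k) ∧
  GoodO g σ α N (oRel7 k) ∧
  GoodO g σ α N (oRel8 k) ∧
  GoodO g σ α N (oRel9 k) ∧
  GoodO g σ α N (oRel10 k) ∧
  GoodO g σ α N (oRel11 k) ∧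
  GoodO g σ α N (oRel12 k)

end Pool.Agent.Lib.G6.K
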