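import Pool.Agent.Lib.G6.Fast

set_option autoImplicit false
set_option maxRecDepth 100000
set_option linter.unusedVariables false

/-! A second checker: streams of operations, tables of closures. -/

namespace Pool.Agent.Lib.G6.K

open Pool.Agent.Lib.MP_bfaad3_co (frc sel cj dj tb sb BT)

noncomputable section

/-- checker: bound on the patterns, map, next dart, auxiliary state, stream -/
inductive Cl : Type
  | mk (f : ℕ → ℕ → ℕ → ℕ → ℕ → ℕ) : Cl
/-- operation -/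
inductive Op : Type
  | mk (f : Cl → ℕ → ℕ → ℕ → ℕ → ℕ → ℕ) : Op
/-- operation with its static argument -/
inductive OK : Type
  | mk (f : ℕ → Op) : OK
inductive C2 : Type
  | mk (f : ℕ → ℕ → ℕ) : C2
inductive C3 : Type
  | mk (f : ℕ → ℕ → ℕ → ℕ) : C3
/-- matcher: map, cell, four saved cells, two accumulators -/
inductive MC : Type
  | mk (f : ℕ → ℕ → ℕ → ℕ → ℕ → ℕ → ℕ → ℕ → ℕ) : MC
inductive ML : Type
  | mk (f : ℕ → ℕ → ℕ → MC) : ML
/-- builder: continuation, payload, bytes, map, next dart, dart, four saved darts -/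
inductive BC : Type
  | mk (f : C2 → ℕ → ℕ → ℕ → ℕ → ℕ → ℕ → ℕ → ℕ → ℕ → ℕ) : BC
inductive BO : Type
  | mk (f : BC → C2 → ℕ → ℕ → ℕ → ℕ → ℕ → ℕ → ℕ → ℕ → ℕ → ℕ) : BO
/-- entry loop: map, auxiliary state, positions, stream, least key, remainder, tests -/
inductive LC : Type
  | mk (f : ℕ → ℕ → ℕ → ℕ → ℕ → ℕ → ℕ → ℕ) : LC
inductive LO : Type
  | mk (f : LC → ℕ → ℕ → ℕ → ℕ → ℕ → ℕ → ℕ → ℕ) : LO

/-- walk from a dart -/
def wkp (m : ℕ) (w : W) : ℕ → ℕ :=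
  W.rec (fun y => y) (fun _ ih y => ih (Nat.land (Nat.shiftRight (Nat.shiftRight m (nat_lit 34)) y) (nat_lit 0x1ffff))) (fun _ ih y => ih (Nat.land (Nat.shiftRight m y) (nat_lit 0x1ffff)))
    (fun _ ih y => ih (Nat.land (Nat.shiftRight (Nat.shiftRight m (nat_lit 17)) y) (nat_lit 0x1ffff))) w

/-- walk from a cell -/
def wkc (w : W) (m x : ℕ) : ℕ :=
  W.rec (nat_lit 0) (fun w _ => wkp m w (Nat.land (Nat.shiftRight x (nat_lit 34)) (nat_lit 0x1ffff))) (fun w _ => wkp m w (Nat.land x (nat_lit 0x1ffff)))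
    (fun w _ => wkp m w (Nat.land (Nat.shiftRight x (nat_lit 17)) (nat_lit 0x1ffff))) w

/-- a word with its walk -/
inductive WW : Type
  | mk (w : W) (f : ℕ → ℕ → ℕ) (h : f = wkc w) : WW
/-- a route with its walk -/
inductive RW : Type
  | mk (w : W) (b : Bool) (f : ℕ → ℕ → ℕ) (h : f = fun m y => wkp m w y) : RW

/-- programs with both masks -/
inductive FP : Type
  | ret (v : ℕ) : FP
  | v0 (a b u : ℕ) (y n : FP) : FP
  | f0 (a b u : ℕ) (y n : FP) : FP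
  | v1 (w : WW) (a b u : ℕ) (y n : FP) : FP
  | f1 (w : WW) (a b u : ℕ) (y n : FP) : FP

def FP.prog (P : FP) : Prog :=
  FP.rec (fun v => .ret v) (fun a _ u _ _ y n => .askV .e a u y n)
    (fun a _ u _ _ y n => .askF .e a u y n) (fun w a _ u _ _ y n => .askV w.1 a u y n)
    (fun w a _ u _ _ y n => .askF w.1 a u y n) P

/-- the tests of one node -/
def fpN (M a b u y n : ℕ) : ℕ :=
  frc y fun y => frc n fun n =>
    sel (cj (Nat.beq (Nat.land a M) a) (cj (Nat.beq (Nat.xor a M) b)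
      (cj (Nat.ble y u) (cj (Nat.ble n u) (Nat.ble u 9))))) (sel (Nat.ble y n) n y) 99

/-- the largest level, or 99 -/
def fpM (P : FP) : ℕ :=
  FP.rec (fun v => sel (cj (Nat.ble v 4095) (Nat.ble (Nat.land v 15) 9)) (Nat.land v 15) 99)
    (fun a b u _ _ y n => fpN VM a b u y n) (fun a b u _ _ y n => fpN FM a b u y n)
    (fun _ a b u _ _ y n => fpN VM a b u y n) (fun _ a b u _ _ y n => fpN FM a b u y n) P

/-- the route in two rails -/
def rP (r : ℕ) : ℕ := Nat.shiftLeft (Nat.lor r (Nat.shiftLeft (Nat.xor 255 r) 8)) 10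

/-- a value as a set of bits -/
def rT (v : ℕ) : ℕ := Nat.lor (Nat.xor 1023 (Nat.shiftLeft 1 (mn (Nat.land v 15) 9)))
  (rP (Nat.land (Nat.shiftRight v 4) 255))

/-- bits that hold for the value of the program; levels up to `t` are not refined -/
def ev (t : ℕ) (P : FP) : C2 :=
  @FP.rec (fun _ => C2) (fun v => ⟨fun _ _ => rT v⟩)
    (fun a b u _ _ y n => (@Bool.rec (fun _ => C2) ⟨fun m x => (@Bool.rec (fun _ => ℕ) (@Bool.rec (fun _ => ℕ) (Nat.land (y.1 m x) (n.1 m x)) (n.1 m x) (Nat.beq (Nat.land x b) b)) (y.1 m x) (Nat.beq (Nat.land x a) a))⟩ ⟨fun _ _ => (hig (Nat.succ u))⟩ (Nat.ble u t)))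
    (fun a b u _ _ y n => (@Bool.rec (fun _ => C2) ⟨fun m x => (@Bool.rec (fun _ => ℕ) (@Bool.rec (fun _ => ℕ) (Nat.land (y.1 m x) (n.1 m x)) (n.1 m x) (Nat.beq (Nat.land x b) b)) (y.1 m x) (Nat.beq (Nat.land x a) a))⟩ ⟨fun _ _ => (hig (Nat.succ u))⟩ (Nat.ble u t)))
    (fun w a b u _ _ y n => @WW.rec (fun _ => C2) (fun _ f _ => (@Bool.rec (fun _ => C2) ⟨fun m x => (@Bool.rec (fun _ => ℕ) (@Bool.rec (fun _ => ℕ) (@Nat.rec (fun _ => ℕ) (hig (Nat.succ u)) (fun q _ => (Nat.land (y.1 m (Nat.shiftRight (Nat.shiftRight m (nat_lit 1)) q)) (n.1 m (Nat.shiftRight (Nat.shiftRight m (nat_lit 1)) q)))) (f m x)) (n.1 m (Nat.shiftRight m (f m x))) (Nat.beq (Nat.land (Nat.shiftRight m (f m x)) b) b)) (y.1 m (Nat.shiftRight m (f m x))) (Nat.beq (Nat.land (Nat.shiftRight m (f m x)) a) a))⟩ ⟨fun _ _ => (hig (Nat.succ u))⟩ (Nat.ble u t))) w)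
    (fun w a b u _ _ y n => @WW.rec (fun _ => C2) (fun _ f _ => (@Bool.rec (fun _ => C2) ⟨fun m x => (@Bool.rec (fun _ => ℕ) (@Bool.rec (fun _ => ℕ) (@Nat.rec (fun _ => ℕ) (hig (Nat.succ u)) (fun q _ => (Nat.land (y.1 m (Nat.shiftRight (Nat.shiftRight m (nat_lit 1)) q)) (n.1 m (Nat.shiftRight (Nat.shiftRight m (nat_lit 1)) q)))) (f m x)) (n.1 m (Nat.shiftRight m (f m x))) (Nat.beq (Nat.land (Nat.shiftRight m (f m x)) b) b)) (y.1 m (Nat.shiftRight m (f m x))) (Nat.beq (Nat.land (Nat.shiftRight m (f m x)) a) a))⟩ ⟨fun _ _ => (hig (Nat.succ u))⟩ (Nat.ble u t))) w) P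

/-- the facts of token 12 -/
def plA (p : ℕ) : ℕ := (Nat.land (Nat.shiftLeft (Nat.land (Nat.shiftRight p (nat_lit 6)) (nat_lit 0x3fffff)) (Nat.add (Nat.land p (nat_lit 63)) (nat_lit 64))) (nat_lit 0x7fffffffffffffff0000000000000000))

/-- one token of the matcher -/
def tokM0 (t : ℕ) (K : ℕ → ℕ → MC) (p w : ℕ) : MC :=
  (@Bool.rec (fun _ => MC) (@Bool.rec (fun _ => MC) (@Bool.rec (fun _ => MC) (@Bool.rec (fun _ => MC) (@Bool.rec (fun _ => MC) ⟨fun _ _ _ _ _ _ _ _ => nat_lit 1⟩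
    ⟨fun m x s1 s2 s3 s4 za ac => (K (Nat.shiftRight p (nat_lit 16)) (Nat.add w (Nat.shiftLeft (Nat.land p (nat_lit 65535)) (nat_lit 70)))).1 m x s1 s2 s3 s4 za (Nat.add ac (Nat.land x (Nat.shiftLeft (Nat.land p (nat_lit 65535)) (nat_lit 70))))⟩ (Nat.ble t (nat_lit 16)))
    ⟨fun m x s1 s2 s3 s4 za ac => (K p (Nat.add w (nat_lit 0x10000000000000000))).1 m x s1 s2 s3 s4 za (Nat.add ac (Nat.land x (nat_lit 0x10000000000000000)))⟩ (Nat.ble t (nat_lit 15)))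
    (@Bool.rec (fun _ => MC) ⟨fun m x s1 s2 s3 s4 za ac => (K p w).1 m x s1 s2 s3 s4 (Nat.land za x) ac⟩
    ⟨fun m x s1 s2 s3 s4 za ac => (K p (Nat.add w (nat_lit 0x10000000000000000))).1 m (Nat.shiftRight m (Nat.land (Nat.shiftRight x (nat_lit 34)) (nat_lit 0x1ffff))) s1 s2 s3 s4 za (Nat.add ac (Nat.land (Nat.shiftRight m (Nat.land (Nat.shiftRight x (nat_lit 34)) (nat_lit 0x1ffff))) (nat_lit 0x10000000000000000)))⟩ (Nat.ble t (nat_lit 13))) (Nat.ble t (nat_lit 14)))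
    (@Bool.rec (fun _ => MC) (@Bool.rec (fun _ => MC) ⟨fun m x s1 s2 s3 s4 za ac => (K (Nat.shiftRight p (nat_lit 28)) (Nat.add w (plA p))).1 m x s1 s2 s3 s4 za (Nat.add ac (Nat.land x (plA p)))⟩
    ⟨fun m x s1 s2 s3 s4 za ac => (K (Nat.shiftRight p (nat_lit 16)) (Nat.add w (Nat.shiftLeft (Nat.land p (nat_lit 65535)) (nat_lit 70)))).1 m x s1 s2 s3 s4 za (Nat.add ac (Nat.land x (Nat.shiftLeft (Nat.land p (nat_lit 65535)) (nat_lit 70))))⟩ (Nat.ble t (nat_lit 11)))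
    (@Bool.rec (fun _ => MC) ⟨fun m x s1 s2 s3 s4 za ac => (K (Nat.shiftRight p (nat_lit 6)) (Nat.add w (Nat.shiftLeft (Nat.land p (nat_lit 63)) (nat_lit 64)))).1 m x s1 s2 s3 s4 za (Nat.add ac (Nat.land x (Nat.shiftLeft (Nat.land p (nat_lit 63)) (nat_lit 64))))⟩
    ⟨fun m x s1 s2 s3 s4 za ac => (K p w).1 m s1 s2 s3 s4 s4 za ac⟩ (Nat.ble t (nat_lit 9))) (Nat.ble t (nat_lit 10))) (Nat.ble t (nat_lit 12)))
    (@Bool.rec (fun _ => MC) (@Bool.rec (fun _ => MC) (@Bool.rec (fun _ => MC) (@Bool.rec (fun _ => MC) ⟨fun m x s1 s2 s3 s4 za ac => (K p w).1 m x x s1 s2 s3 za ac⟩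
    ⟨fun m x s1 s2 s3 s4 za ac => (K p w).1 m (Nat.shiftRight m (Nat.land (Nat.shiftRight x (nat_lit 34)) (nat_lit 0x1ffff))) s1 s2 s3 s4 za ac⟩ (Nat.ble t (nat_lit 7)))
    ⟨fun m x s1 s2 s3 s4 za ac => (K p w).1 m (Nat.shiftRight m (Nat.land (Nat.shiftRight x (nat_lit 17)) (nat_lit 0x1ffff))) s1 s2 s3 s4 za ac⟩ (Nat.ble t (nat_lit 6)))
    (@Bool.rec (fun _ => MC) ⟨fun m x s1 s2 s3 s4 za ac => (K p w).1 m (Nat.shiftRight m (Nat.land x (nat_lit 0x1ffff))) s1 s2 s3 s4 za ac⟩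
    ⟨fun m x s1 s2 s3 s4 za ac => (K p w).1 m (Nat.shiftRight m (Nat.land (Nat.shiftRight x (nat_lit 17)) (nat_lit 0x1ffff))) s1 s2 s3 s4 za ac⟩ (Nat.ble t (nat_lit 4))) (Nat.ble t (nat_lit 5)))
    (@Bool.rec (fun _ => MC) (@Bool.rec (fun _ => MC) ⟨fun m x s1 s2 s3 s4 za ac => (K p w).1 m (Nat.shiftRight m (Nat.land x (nat_lit 0x1ffff))) s1 s2 s3 s4 za ac⟩
    ⟨fun m x s1 s2 s3 s4 za ac => (K p w).1 m (Nat.shiftRight m (Nat.land (Nat.shiftRight x (nat_lit 34)) (nat_lit 0x1ffff))) s1 s2 s3 s4 (Nat.land za (Nat.shiftRight m (Nat.land (Nat.shiftRight x (nat_lit 34)) (nat_lit 0x1ffff)))) ac⟩ (Nat.ble t (nat_lit 2)))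
    (@Bool.rec (fun _ => MC) ⟨fun m x s1 s2 s3 s4 za ac => (K p w).1 m (Nat.shiftRight m (Nat.land (Nat.shiftRight (Nat.shiftRight m (nat_lit 34)) (Nat.land (Nat.shiftRight x (nat_lit 17)) (nat_lit 0x1ffff))) (nat_lit 0x1ffff))) s1 s2 s3 s4 (Nat.land za (Nat.shiftRight m (Nat.land (Nat.shiftRight (Nat.shiftRight m (nat_lit 34)) (Nat.land (Nat.shiftRight x (nat_lit 17)) (nat_lit 0x1ffff))) (nat_lit 0x1ffff)))) ac⟩
    ⟨fun m x s1 s2 s3 s4 za ac => (K p w).1 m (Nat.shiftRight m (Nat.land (Nat.shiftRight (Nat.shiftRight m (nat_lit 34)) (Nat.land x (nat_lit 0x1ffff))) (nat_lit 0x1ffff))) s1 s2 s3 s4 (Nat.land za (Nat.shiftRight m (Nat.land (Nat.shiftRight (Nat.shiftRight m (nat_lit 34)) (Nat.land x (nat_lit 0x1ffff))) (nat_lit 0x1ffff)))) ac⟩ (Nat.ble t (nat_lit 0))) (Nat.ble t (nat_lit 1))) (Nat.ble t (nat_lit 3))) (Nat.ble t (nat_lit 8)))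

def toksM0 (ts : List ℕ) (K : ℕ → ℕ → MC) : ℕ → ℕ → MC :=
  @List.rec ℕ (fun _ => ℕ → ℕ → MC) K (fun t _ ih => tokM0 t ih) ts

/-- one token of the matcher -/
def tokM1 (t : ℕ) (K : ℕ → ℕ → MC) (p w : ℕ) : MC :=
  (@Bool.rec (fun _ => MC) (@Bool.rec (fun _ => MC) (@Bool.rec (fun _ => MC) (@Bool.rec (fun _ => MC) (@Bool.rec (fun _ => MC) ⟨fun _ _ _ _ _ _ _ _ => nat_lit 1⟩
    ⟨fun m x s1 s2 s3 s4 za ac => (K (Nat.shiftRight p (nat_lit 16)) (Nat.add w (Nat.shiftLeft (Nat.land p (nat_lit 65535)) (nat_lit 70)))).1 m x s1 s2 s3 s4 za (Nat.add ac (Nat.land (Nat.lor (Nat.shiftRight m (Nat.land x (nat_lit 0x1ffff))) (Nat.shiftRight m (Nat.land (Nat.shiftRight x (nat_lit 34)) (nat_lit 0x1ffff)))) (Nat.shiftLeft (Nat.land p (nat_lit 65535)) (nat_lit 70))))⟩ (Nat.ble t (nat_lit 16)))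
    ⟨fun m x s1 s2 s3 s4 za ac => (K p (Nat.add w (nat_lit 0x10000000000000000))).1 m x s1 s2 s3 s4 za (Nat.add ac (Nat.land x (nat_lit 0x10000000000000000)))⟩ (Nat.ble t (nat_lit 15)))
    (@Bool.rec (fun _ => MC) ⟨fun m x s1 s2 s3 s4 za ac => (K p w).1 m x s1 s2 s3 s4 (Nat.land za x) ac⟩
    ⟨fun m x s1 s2 s3 s4 za ac => (K p (Nat.add w (nat_lit 0x10000000000000000))).1 m (Nat.shiftRight m (Nat.land (Nat.shiftRight x (nat_lit 34)) (nat_lit 0x1ffff))) s1 s2 s3 s4 za (Nat.add ac (Nat.land (Nat.shiftRight m (Nat.land (Nat.shiftRight x (nat_lit 34)) (nat_lit 0x1ffff))) (nat_lit 0x10000000000000000)))⟩ (Nat.ble t (nat_lit 13))) (Nat.ble t (nat_lit 14)))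
    (@Bool.rec (fun _ => MC) (@Bool.rec (fun _ => MC) ⟨fun m x s1 s2 s3 s4 za ac => (K (Nat.shiftRight p (nat_lit 28)) (Nat.succ w)).1 m x s1 s2 s3 s4 za ac⟩
    ⟨fun m x s1 s2 s3 s4 za ac => (K (Nat.shiftRight p (nat_lit 16)) (Nat.add w (Nat.shiftLeft (Nat.land p (nat_lit 65535)) (nat_lit 70)))).1 m x s1 s2 s3 s4 za (Nat.add ac (Nat.land (Nat.shiftRight m (Nat.land x (nat_lit 0x1ffff))) (Nat.shiftLeft (Nat.land p (nat_lit 65535)) (nat_lit 70))))⟩ (Nat.ble t (nat_lit 11)))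
    (@Bool.rec (fun _ => MC) ⟨fun m x s1 s2 s3 s4 za ac => (K (Nat.shiftRight p (nat_lit 6)) (Nat.add w (Nat.shiftLeft (Nat.land p (nat_lit 63)) (nat_lit 64)))).1 m x s1 s2 s3 s4 za (Nat.add ac (Nat.land x (Nat.shiftLeft (Nat.land p (nat_lit 63)) (nat_lit 64))))⟩
    ⟨fun m x s1 s2 s3 s4 za ac => (K p w).1 m s1 s2 s3 s4 s4 za ac⟩ (Nat.ble t (nat_lit 9))) (Nat.ble t (nat_lit 10))) (Nat.ble t (nat_lit 12)))
    (@Bool.rec (fun _ => MC) (@Bool.rec (fun _ => MC) (@Bool.rec (fun _ => MC) (@Bool.rec (fun _ => MC) ⟨fun m x s1 s2 s3 s4 za ac => (K p w).1 m x x s1 s2 s3 za ac⟩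
    ⟨fun m x s1 s2 s3 s4 za ac => (K p w).1 m (Nat.shiftRight m (Nat.land (Nat.shiftRight x (nat_lit 34)) (nat_lit 0x1ffff))) s1 s2 s3 s4 za ac⟩ (Nat.ble t (nat_lit 7)))
    ⟨fun m x s1 s2 s3 s4 za ac => (K p w).1 m (Nat.shiftRight m (Nat.land x (nat_lit 0x1ffff))) s1 s2 s3 s4 za ac⟩ (Nat.ble t (nat_lit 6)))
    (@Bool.rec (fun _ => MC) ⟨fun m x s1 s2 s3 s4 za ac => (K p w).1 m (Nat.shiftRight m (Nat.land (Nat.shiftRight x (nat_lit 17)) (nat_lit 0x1ffff))) s1 s2 s3 s4 za ac⟩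
    ⟨fun m x s1 s2 s3 s4 za ac => (K p w).1 m (Nat.shiftRight m (Nat.land x (nat_lit 0x1ffff))) s1 s2 s3 s4 za ac⟩ (Nat.ble t (nat_lit 4))) (Nat.ble t (nat_lit 5)))
    (@Bool.rec (fun _ => MC) (@Bool.rec (fun _ => MC) ⟨fun m x s1 s2 s3 s4 za ac => (K p w).1 m (Nat.shiftRight m (Nat.land (Nat.shiftRight x (nat_lit 17)) (nat_lit 0x1ffff))) s1 s2 s3 s4 za ac⟩
    ⟨fun m x s1 s2 s3 s4 za ac => (K p w).1 m (Nat.shiftRight m (Nat.land (Nat.shiftRight x (nat_lit 34)) (nat_lit 0x1ffff))) s1 s2 s3 s4 (Nat.land za (Nat.shiftRight m (Nat.land (Nat.shiftRight x (nat_lit 34)) (nat_lit 0x1ffff)))) ac⟩ (Nat.ble t (nat_lit 2)))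
    (@Bool.rec (fun _ => MC) ⟨fun m x s1 s2 s3 s4 za ac => (K p w).1 m (Nat.shiftRight m (Nat.land (Nat.shiftRight (Nat.shiftRight m (nat_lit 34)) (Nat.land x (nat_lit 0x1ffff))) (nat_lit 0x1ffff))) s1 s2 s3 s4 (Nat.land za (Nat.shiftRight m (Nat.land (Nat.shiftRight (Nat.shiftRight m (nat_lit 34)) (Nat.land x (nat_lit 0x1ffff))) (nat_lit 0x1ffff)))) ac⟩
    ⟨fun m x s1 s2 s3 s4 za ac => (K p w).1 m (Nat.shiftRight m (Nat.land (Nat.shiftRight (Nat.shiftRight m (nat_lit 34)) (Nat.land (Nat.shiftRight x (nat_lit 17)) (nat_lit 0x1ffff))) (nat_lit 0x1ffff))) s1 s2 s3 s4 (Nat.land za (Nat.shiftRight m (Nat.land (Nat.shiftRight (Nat.shiftRight m (nat_lit 34)) (Nat.land (Nat.shiftRight x (nat_lit 17)) (nat_lit 0x1ffff))) (nat_lit 0x1ffff)))) ac⟩ (Nat.ble t (nat_lit 0))) (Nat.ble t (nat_lit 1))) (Nat.ble t (nat_lit 3))) (Nat.ble t (nat_lit 8)))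

def toksM1 (ts : List ℕ) (K : ℕ → ℕ → MC) : ℕ → ℕ → MC :=
  @List.rec ℕ (fun _ => ℕ → ℕ → MC) K (fun t _ ih => tokM1 t ih) ts

/-- an entry of the dictionary -/
inductive Ent : Type
  | mk (ts : List ℕ) (f0 f1 : (ℕ → ℕ → MC) → ℕ → ℕ → MC) (h0 : f0 = toksM0 ts) (h1 : f1 = toksM1 ts) : Ent

/-- the data of a rule -/
structure Fd : Type where
  p0 : FP
  p1 : FP
  p2 : FP
  p3 : FP
  rt : BT RW
  ta : BT ℕ
  am : ℕ

def Fd.p (f : Fd) (k : ℕ) : FP :=
  sel (Nat.ble k 1) (sel (Nat.beq k 0) f.p0 f.p1) (sel (Nat.beq k 2) f.p2 f.p3)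

def Fd.rts (f : Fd) : BT (W × Bool) :=
  BT.rec (fun r => .lf (r.1, r.2)) (fun k _ _ l r => .nd k l r) f.rt

/-- the static data of the checker -/
structure G : Type where
  R : Rule
  fd : Fd
  ent : ℕ → Ent
  pats : ℕ → ℕ
  red : ℕ → ℕ → ℕ → Bool

/-- the matcher of the bytes `q` with payload `p`; `w` is the sum of the masks met -/
def mlv0 (g : G) (n : ℕ) : ML :=
  (@Nat.rec (fun _ => ML) ⟨fun _ _ _ => ⟨fun _ _ _ _ _ _ _ _ => nat_lit 1⟩⟩ (fun _ ih => ⟨fun q p w => (@Nat.rec (fun _ => MC) ⟨fun _ _ _ _ _ _ za ac => (Nat.add (Nat.xor za (nat_lit 0x3e0000000000000000)) (Nat.sub w ac))⟩ (fun b _ => ((g.ent b).2 (ih.1 (Nat.shiftRight q (nat_lit 8))) p w)) (Nat.land q (nat_lit 255)))⟩) n)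

/-- the matcher of the bytes `q` with payload `p`; `w` is the sum of the masks met -/
def mlv1 (g : G) (n : ℕ) : ML :=
  (@Nat.rec (fun _ => ML) ⟨fun _ _ _ => ⟨fun _ _ _ _ _ _ _ _ => nat_lit 1⟩⟩ (fun _ ih => ⟨fun q p w => (@Nat.rec (fun _ => MC) ⟨fun _ _ _ _ _ _ za ac => (Nat.add (Nat.xor za (nat_lit 0x3e0000000000000000)) (Nat.sub w ac))⟩ (fun b _ => ((g.ent b).3 (ih.1 (Nat.shiftRight q (nat_lit 8))) p w)) (Nat.land q (nat_lit 255)))⟩) n)

/-- pattern number `i` -/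
def getP (g : G) (i : ℕ) : ℕ :=
  (@Nat.rec (fun _ => ℕ) (nat_lit 0) (fun b _ => (g.pats b)) (Nat.succ i))

/-- one token of the builder -/
def tokB (t : ℕ) (K : BO) : BO :=
  (@Bool.rec (fun _ => BO) (@Bool.rec (fun _ => BO) (@Bool.rec (fun _ => BO) (@Bool.rec (fun _ => BO) (@Bool.rec (fun _ => BO) ⟨fun _ _ _ _ _ _ _ _ _ _ _ => nat_lit 0⟩
    ⟨fun ih fin p q m nd x s1 s2 s3 s4 => K.1 ih fin (Nat.shiftRight p (nat_lit 16)) q (Nat.lor m (Nat.mul (Nat.land (Nat.shiftRight m (nat_lit 91)) (Nat.shiftLeft (nat_lit 1) x)) (Nat.shiftLeft (Nat.land p (nat_lit 65535)) (nat_lit 70)))) nd x s1 s2 s3 s4⟩ (Nat.ble t (nat_lit 16)))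
    ⟨fun ih fin p q m nd x s1 s2 s3 s4 => K.1 ih fin p q (Nat.lor m (Nat.mul (Nat.land (Nat.shiftRight m (nat_lit 91)) (Nat.shiftLeft (nat_lit 1) x)) (nat_lit 0x10000000000000000))) nd x s1 s2 s3 s4⟩ (Nat.ble t (nat_lit 15)))
    (@Bool.rec (fun _ => BO) ⟨fun ih fin p q m nd x s1 s2 s3 s4 => K.1 ih fin p q (cmpZ INI (put m x ZB) nd x (getF m (al m x))) (Nat.add nd (Nat.xor (Nat.shiftLeft (Nat.land (Nat.shiftRight m x) (nat_lit 0x800000000000003ffffffff)) (nat_lit 16)) (nat_lit 0x800000000000000000000000100))) x s1 s2 s3 s4⟩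
    ⟨fun ih fin p q m nd x s1 s2 s3 s4 => K.1 ih fin p q (Nat.lor (Nat.lor m (Nat.shiftLeft nd (Nat.add x (nat_lit 34)))) (Nat.shiftLeft (Nat.lor (Nat.add (Nat.shiftLeft x (nat_lit 34)) (nat_lit 0xfc000010000000000000000)) (Nat.land (Nat.shiftRight m (Nat.land (Nat.shiftRight m x) (nat_lit 0x1ffff))) (nat_lit 0xfffffc00000000000000000))) nd)) (Nat.add nd (Nat.xor (Nat.land (Nat.shiftRight m x) (nat_lit 0x80000000007fffc00000000)) (nat_lit 0x80000000000000000000080))) nd s1 s2 s3 s4⟩ (Nat.ble t (nat_lit 13))) (Nat.ble t (nat_lit 14)))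
    (@Bool.rec (fun _ => BO) (@Bool.rec (fun _ => BO) ⟨fun ih fin p q m nd x s1 s2 s3 s4 => K.1 ih fin (Nat.shiftRight p (nat_lit 28)) q (Nat.lor m (Nat.mul (Nat.land (Nat.shiftRight m (nat_lit 91)) (Nat.shiftLeft (nat_lit 1) x)) (plA p))) nd x s1 s2 s3 s4⟩
    ⟨fun ih fin p q m nd x s1 s2 s3 s4 => K.1 ih fin (Nat.shiftRight p (nat_lit 16)) q (Nat.lor m (Nat.mul (Nat.land (Nat.shiftRight m (nat_lit 91)) (Nat.shiftLeft (nat_lit 1) x)) (Nat.shiftLeft (Nat.land p (nat_lit 65535)) (nat_lit 70)))) nd x s1 s2 s3 s4⟩ (Nat.ble t (nat_lit 11)))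
    (@Bool.rec (fun _ => BO) ⟨fun ih fin p q m nd x s1 s2 s3 s4 => K.1 ih fin (Nat.shiftRight p (nat_lit 6)) q (Nat.lor m (Nat.mul (Nat.land (Nat.shiftRight m (nat_lit 91)) (Nat.shiftLeft (nat_lit 1) x)) (Nat.shiftLeft (Nat.land p (nat_lit 63)) (nat_lit 64)))) nd x s1 s2 s3 s4⟩
    ⟨fun ih fin p q m nd x s1 s2 s3 s4 => K.1 ih fin p q m nd s1 s2 s3 s4 s4⟩ (Nat.ble t (nat_lit 9))) (Nat.ble t (nat_lit 10))) (Nat.ble t (nat_lit 12)))
    (@Bool.rec (fun _ => BO) (@Bool.rec (fun _ => BO) (@Bool.rec (fun _ => BO) (@Bool.rec (fun _ => BO) ⟨fun ih fin p q m nd x s1 s2 s3 s4 => K.1 ih fin p q m nd x x s1 s2 s3⟩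
    ⟨fun ih fin p q m nd x s1 s2 s3 s4 => K.1 ih fin p q (Nat.lor (Nat.lor m (Nat.shiftLeft nd (Nat.add x (nat_lit 34)))) (Nat.shiftLeft (Nat.lor (Nat.add (Nat.shiftLeft x (nat_lit 34)) (nat_lit 0xfc000000000000000000000)) (Nat.land (Nat.shiftRight m (Nat.land (Nat.shiftRight m x) (nat_lit 0x1ffff))) (nat_lit 0xfffffc00000000000000000))) nd)) (Nat.add nd (Nat.xor (Nat.land (Nat.shiftRight m x) (nat_lit 0x80000000007fffc00000000)) (nat_lit 0x80000000000000000000080))) nd s1 s2 s3 s4⟩ (Nat.ble t (nat_lit 7)))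
    ⟨fun ih fin p q m nd x s1 s2 s3 s4 => K.1 ih fin p q (Nat.lor (Nat.lor m (Nat.shiftLeft nd (Nat.add x (nat_lit 17)))) (Nat.shiftLeft (Nat.lor (Nat.add x (nat_lit 0xfc000000000000000000000)) (Nat.land (Nat.shiftRight m x) (nat_lit 0x3f0000000000000000))) nd)) (Nat.add nd (Nat.xor (Nat.land (Nat.shiftRight m x) (nat_lit 0x800000000000003fffe0000)) (nat_lit 0x80000000000000000000080))) nd s1 s2 s3 s4⟩ (Nat.ble t (nat_lit 6)))
    (@Bool.rec (fun _ => BO) ⟨fun ih fin p q m nd x s1 s2 s3 s4 => K.1 ih fin p q (Nat.lor (Nat.lor m (Nat.shiftLeft nd x)) (Nat.shiftLeft (Nat.lor (Nat.lor (Nat.add (Nat.shiftLeft x (nat_lit 17)) (nat_lit 0xfc000000000000000000000)) (Nat.land (Nat.shiftRight m x) (nat_lit 0x3f0000000000000000))) (Nat.land (Nat.shiftRight m (Nat.land (Nat.shiftRight (Nat.shiftRight m x) (nat_lit 34)) (nat_lit 0x1ffff))) (nat_lit 0xfffffc00000000000000000))) nd)) (Nat.add nd (Nat.xor (Nat.shiftLeft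 (Nat.land (Nat.shiftRight m x) (nat_lit 0x8000000000000000001ffff)) (nat_lit 16)) (nat_lit 0x800000000000000000000000080))) nd s1 s2 s3 s4⟩
    ⟨fun ih fin p q m nd x s1 s2 s3 s4 => K.1 ih fin p q m nd (Nat.land (Nat.shiftRight (Nat.shiftRight m (nat_lit 17)) x) (nat_lit 0x1ffff)) s1 s2 s3 s4⟩ (Nat.ble t (nat_lit 4))) (Nat.ble t (nat_lit 5)))
    (@Bool.rec (fun _ => BO) (@Bool.rec (fun _ => BO) ⟨fun ih fin p q m nd x s1 s2 s3 s4 => K.1 ih fin p q m nd (Nat.land (Nat.shiftRight m x) (nat_lit 0x1ffff)) s1 s2 s3 s4⟩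
    ⟨fun ih fin p q m nd x s1 s2 s3 s4 => K.1 ih fin p q (Nat.lor (Nat.lor m (Nat.shiftLeft nd (Nat.add x (nat_lit 34)))) (Nat.shiftLeft (Nat.lor (Nat.lor (Nat.add (Nat.mul nd (nat_lit 0x200010000000000000000000000000002000100000000000000000000000000020001)) (Nat.add (Nat.shiftLeft x (nat_lit 34)) (nat_lit 0xfc0003e0000000001000000000000000fc0003e0000000000000100000000000fc0003e0000000002000080))) (Nat.land (Nat.shiftRight m (Nat.land (Nat.shiftRight m x) (nat_lit 0x1ffff))) (nat_lit 0xfffffc00000000000000000))) (Nat.shiftLeft (Nat.land (Nat.shiftRight m x) (nat_lit 0xfffffc00000000000000000)) (nat_lit 128))) nd)) (Nat.add nd (Nat.xor (Nat.land (Nat.shiftRight m x) (nat_lit 0x80000000007fffc00000000)) (nat_lit 0x80000000000000000000180))) nd s1 s2 s3 s4⟩ (Nat.ble t (nat_lit 2)))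
    (@Bool.rec (fun _ => BO) ⟨fun ih fin p q m nd x s1 s2 s3 s4 => K.1 ih fin p q (Nat.lor (Nat.lor m (Nat.shiftLeft nd (Nat.add (Nat.land (Nat.shiftRight (Nat.shiftRight m (nat_lit 17)) x) (nat_lit 0x1ffff)) (nat_lit 34)))) (Nat.shiftLeft (Nat.lor (Nat.lor (Nat.add (Nat.mul nd (nat_lit 0x200010000000000000000000000000002000100000000000000000000000000020001)) (Nat.add (Nat.shiftLeft (Nat.land (Nat.shiftRight (Nat.shiftRight m (nat_lit 17)) x) (nat_lit 0x1ffff)) (nat_lit 34)) (nat_lit 0xfc0003e0000000001000000000000000fc0003e0000000000000100000000000fc0003e0000000002000080))) (Nat.land (Nat.shiftRight m (Nat.land (Nat.shiftRight m (Nat.land (Nat.shiftRight (Nat.shiftRight m (nat_lit 17)) x) (nat_lit 0x1ffff))) (nat_lit 0x1ffff))) (nat_lit 0xfffffc00000000000000000))) (Nat.shiftLeft (Nat.land (Nat.shiftRight m (Nat.land (Nat.shiftRight (Nat.shiftRight m (nat_lit 17)) x) (nat_lit 0x1ffff))) (nat_lit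 0xfffffc00000000000000000)) (nat_lit 128))) nd)) (Nat.add nd (Nat.xor (Nat.land (Nat.shiftRight m (Nat.land (Nat.shiftRight (Nat.shiftRight m (nat_lit 17)) x) (nat_lit 0x1ffff))) (nat_lit 0x80000000007fffc00000000)) (nat_lit 0x80000000000000000000180))) nd s1 s2 s3 s4⟩
    ⟨fun ih fin p q m nd x s1 s2 s3 s4 => K.1 ih fin p q (Nat.lor (Nat.lor m (Nat.shiftLeft nd (Nat.add (Nat.land (Nat.shiftRight m x) (nat_lit 0x1ffff)) (nat_lit 34)))) (Nat.shiftLeft (Nat.lor (Nat.lor (Nat.add (Nat.mul nd (nat_lit 0x200010000000000000000000000000002000100000000000000000000000000020001)) (Nat.add (Nat.shiftLeft (Nat.land (Nat.shiftRight m x) (nat_lit 0x1ffff)) (nat_lit 34)) (nat_lit 0xfc0003e0000000001000000000000000fc0003e0000000000000100000000000fc0003e0000000002000080))) (Nat.land (Nat.shiftRight m (Nat.land (Nat.shiftRight m (Nat.land (Nat.shiftRight m x) (nat_lit 0x1ffff))) (nat_lit 0x1ffff))) (nat_lit 0xfffffc00000000000000000)))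 (Nat.shiftLeft (Nat.land (Nat.shiftRight m (Nat.land (Nat.shiftRight m x) (nat_lit 0x1ffff))) (nat_lit 0xfffffc00000000000000000)) (nat_lit 128))) nd)) (Nat.add nd (Nat.xor (Nat.land (Nat.shiftRight m (Nat.land (Nat.shiftRight m x) (nat_lit 0x1ffff))) (nat_lit 0x80000000007fffc00000000)) (nat_lit 0x80000000000000000000180))) nd s1 s2 s3 s4⟩ (Nat.ble t (nat_lit 0))) (Nat.ble t (nat_lit 1))) (Nat.ble t (nat_lit 3))) (Nat.ble t (nat_lit 8)))

def toksB (ts : List ℕ) : BO :=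
  @List.rec ℕ (fun _ => BO) ⟨fun ih fin p q m nd x s1 s2 s3 s4 => ih.1 fin p q m nd x s1 s2 s3 s4⟩
    (fun t _ K => tokB t K) ts

def entB (g : G) (b : ℕ) : BO :=
  toksB (g.ent b).1

/-- the builder -/
def blv (g : G) (n : ℕ) : BC :=
  (@Nat.rec (fun _ => BC) ⟨fun _ _ _ _ _ _ _ _ _ _ => nat_lit 0⟩ (fun _ ih => ⟨fun fin p q m nd x s1 s2 s3 s4 => (@Nat.rec (fun _ => ℕ) (fin.1 m nd) (fun b _ => ((entB g b).1 ih fin p (Nat.shiftRight q (nat_lit 8)) m nd x s1 s2 s3 s4)) (Nat.land q (nat_lit 255)))⟩) n)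

def wN (n : ℕ) : C2 :=
  (@Nat.rec (fun _ => C2) ⟨fun m y => (Nat.shiftLeft (nat_lit 1) (Nat.land (Nat.shiftRight m y) (nat_lit 0x1ffff)))⟩ (fun _ ih => ⟨fun m y => (Nat.lor (Nat.shiftLeft (nat_lit 1) (Nat.land (Nat.shiftRight m y) (nat_lit 0x1ffff))) (ih.1 m (Nat.land (Nat.shiftRight m y) (nat_lit 0x1ffff))))⟩) n)

def wP (n : ℕ) : C2 :=
  (@Nat.rec (fun _ => C2) ⟨fun m y => (Nat.shiftLeft (nat_lit 1) (Nat.land (Nat.shiftRight (Nat.shiftRight m (nat_lit 17)) y) (nat_lit 0x1ffff)))⟩ (fun _ ih => ⟨fun m y => (Nat.lor (Nat.shiftLeft (nat_lit 1) (Nat.land (Nat.shiftRight (Nat.shiftRight m (nat_lit 17)) y) (nat_lit 0x1ffff))) (ih.1 m (Nat.land (Nat.shiftRight (Nat.shiftRight m (nat_lit 17)) y) (nat_lit 0x1ffff))))⟩) n)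

def wF (n : ℕ) : C2 :=
  (@Nat.rec (fun _ => C2) ⟨fun m y => (Nat.shiftLeft (nat_lit 1) (Nat.land (Nat.shiftRight m (Nat.land (Nat.shiftRight (Nat.shiftRight m (nat_lit 34)) y) (nat_lit 0x1ffff))) (nat_lit 0x1ffff)))⟩ (fun _ ih => ⟨fun m y => (Nat.lor (Nat.shiftLeft (nat_lit 1) (Nat.land (Nat.shiftRight m (Nat.land (Nat.shiftRight (Nat.shiftRight m (nat_lit 34)) y) (nat_lit 0x1ffff))) (nat_lit 0x1ffff))) (ih.1 m (Nat.land (Nat.shiftRight m (Nat.land (Nat.shiftRight (Nat.shiftRight m (nat_lit 34)) y) (nat_lit 0x1ffff))) (nat_lit 0x1ffff))))⟩) n)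

def wB (n : ℕ) : C2 :=
  (@Nat.rec (fun _ => C2) ⟨fun m y => (Nat.shiftLeft (nat_lit 1) (Nat.land (Nat.shiftRight (Nat.shiftRight m (nat_lit 34)) (Nat.land (Nat.shiftRight (Nat.shiftRight m (nat_lit 17)) y) (nat_lit 0x1ffff))) (nat_lit 0x1ffff)))⟩ (fun _ ih => ⟨fun m y => (Nat.lor (Nat.shiftLeft (nat_lit 1) (Nat.land (Nat.shiftRight (Nat.shiftRight m (nat_lit 34)) (Nat.land (Nat.shiftRight (Nat.shiftRight m (nat_lit 17)) y) (nat_lit 0x1ffff))) (nat_lit 0x1ffff))) (ih.1 m (Nat.land (Nat.shiftRight (Nat.shiftRight m (nat_lit 34)) (Nat.land (Nat.shiftRight (Nat.shiftRight m (nat_lit 17)) y) (nat_lit 0x1ffff))) (nat_lit 0x1ffff))))⟩) n)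

/-- the darts reached from `y` -/
def mskV (k : ℕ) : C2 :=
  (@Nat.rec (fun _ => C2) (@Nat.rec (fun _ => C2) ⟨fun m y => (Nat.land (Nat.shiftRight m (nat_lit 91)) (Nat.shiftLeft (nat_lit 1) y))⟩ (fun b _ => ⟨fun m y => (Nat.land (Nat.shiftRight m (nat_lit 91)) (Nat.lor (Nat.shiftLeft (nat_lit 1) y) ((wP b).1 m y)))⟩) (Nat.land (Nat.shiftRight k (nat_lit 11)) (nat_lit 15))) (fun a _ => (@Nat.rec (fun _ => C2) ⟨fun m y => (Nat.land (Nat.shiftRight m (nat_lit 91)) (Nat.lor (Nat.shiftLeft (nat_lit 1) y) ((wN a).1 m y)))⟩ (fun b _ => ⟨fun m y => (Nat.land (Nat.shiftRight m (nat_lit 91)) (Nat.lor (Nat.lor (Nat.shiftLeft (nat_lit 1) y) ((wN a).1 m y)) ((wP b).1 m y)))⟩) (Nat.land (Nat.shiftRight k (nat_lit 11)) (nat_lit 15)))) (Nat.land (Nat.shiftRight k (nat_lit 7)) (nat_lit 15)))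

/-- the darts reached from `y` -/
def mskF (k : ℕ) : C2 :=
  (@Nat.rec (fun _ => C2) (@Nat.rec (fun _ => C2) ⟨fun m y => (Nat.land (Nat.shiftRight m (nat_lit 91)) (Nat.shiftLeft (nat_lit 1) y))⟩ (fun b _ => ⟨fun m y => (Nat.land (Nat.shiftRight m (nat_lit 91)) (Nat.lor (Nat.shiftLeft (nat_lit 1) y) ((wB b).1 m y)))⟩) (Nat.land (Nat.shiftRight k (nat_lit 11)) (nat_lit 15))) (fun a _ => (@Nat.rec (fun _ => C2) ⟨fun m y => (Nat.land (Nat.shiftRight m (nat_lit 91)) (Nat.lor (Nat.shiftLeft (nat_lit 1) y) ((wF a).1 m y)))⟩ (fun b _ => ⟨fun m y => (Nat.land (Nat.shiftRight m (nat_lit 91)) (Nat.lor (Nat.lor (Nat.shiftLeft (nat_lit 1) y) ((wF a).1 m y)) ((wB b).1 m y)))⟩) (Nat.land (Nat.shiftRight k (nat_lit 11)) (nat_lit 15)))) (Nat.land (Nat.shiftRight k (nat_lit 7)) (nat_lit 15)))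

def oExt (k : ℕ) : Op :=
  ⟨fun ih lim m nd e c => (ih.1 lim (Nat.lor (Nat.lor m (Nat.shiftLeft nd (Nat.add (Nat.land k (nat_lit 65408)) (nat_lit 34)))) (Nat.shiftLeft (Nat.lor (Nat.add (Nat.shiftLeft (Nat.land k (nat_lit 65408)) (nat_lit 34)) (nat_lit 0xfc000010000000000000000)) (Nat.land (Nat.shiftRight m (Nat.land (Nat.shiftRight m (Nat.land k (nat_lit 65408))) (nat_lit 0x1ffff))) (nat_lit 0xfffffc00000000000000000))) nd)) (Nat.add nd (Nat.xor (Nat.land (Nat.shiftRight m (Nat.land k (nat_lit 65408))) (nat_lit 0x80000000007fffc00000000)) (nat_lit 0x80000000000000000000080))) e (ih.1 lim (Nat.lor (Nat.lor m (Nat.shiftLeft nd (Nat.add (Nat.land k (nat_lit 65408)) (nat_lit 34)))) (Nat.shiftLeft (Nat.lor (Nat.lor (Nat.add (Nat.mul nd (nat_lit 0x200010000000000000000000000000002000100000000000000000000000000020001)) (Nat.add (Nat.shiftLeft (Nat.land k (nat_lit 65408)) (nat_lit 34)) (nat_lit 0xfc0003e0000000001000000000000000fc0003e0000000000000100000000000fc0003e0000000002000080)))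 (Nat.land (Nat.shiftRight m (Nat.land (Nat.shiftRight m (Nat.land k (nat_lit 65408))) (nat_lit 0x1ffff))) (nat_lit 0xfffffc00000000000000000))) (Nat.shiftLeft (Nat.land (Nat.shiftRight m (Nat.land k (nat_lit 65408))) (nat_lit 0xfffffc00000000000000000)) (nat_lit 128))) nd)) (Nat.add nd (Nat.xor (Nat.land (Nat.shiftRight m (Nat.land k (nat_lit 65408))) (nat_lit 0x80000000007fffc00000000)) (nat_lit 0x80000000000000000000180))) e (Nat.shiftRight c (nat_lit 16))))⟩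

def oExz0 (k : ℕ) : Op :=
  ⟨fun ih lim m nd e c => (ih.1 lim (Nat.lor (Nat.lor m (Nat.shiftLeft nd (Nat.add (Nat.land k (nat_lit 65408)) (nat_lit 34)))) (Nat.shiftLeft (Nat.lor (Nat.lor (Nat.add (Nat.mul nd (nat_lit 0x200010000000000000000000000000002000100000000000000000000000000020001)) (Nat.add (Nat.shiftLeft (Nat.land k (nat_lit 65408)) (nat_lit 34)) (nat_lit 0xfc0003e0000000001000000000000000fc0003e0000000000000100000000000fc0003e0000000002000080))) (Nat.land (Nat.shiftRight m (Nat.land (Nat.shiftRight m (Nat.land k (nat_lit 65408))) (nat_lit 0x1ffff))) (nat_lit 0xfffffc00000000000000000))) (Nat.shiftLeft (Nat.land (Nat.shiftRight m (Nat.land k (nat_lit 65408))) (nat_lit 0xfffffc00000000000000000)) (nat_lit 128))) nd)) (Nat.add nd (Nat.xor (Nat.land (Nat.shiftRight m (Nat.land k (nat_lit 65408))) (nat_lit 0x10007fffc00000000)) (nat_lit 0x10000000000000180))) e (Nat.shiftRight c (nat_lit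 16)))⟩

def oExz1 (k : ℕ) : Op :=
  ⟨fun ih lim m nd e c => (ih.1 lim (Nat.lor (Nat.lor m (Nat.shiftLeft nd (Nat.add (Nat.land k (nat_lit 65408)) (nat_lit 34)))) (Nat.shiftLeft (Nat.lor (Nat.lor (Nat.add (Nat.mul nd (nat_lit 0x200010000000000000000000000000002000100000000000000000000000000020001)) (Nat.add (Nat.shiftLeft (Nat.land k (nat_lit 65408)) (nat_lit 34)) (nat_lit 0xfc0003e0000000001000000000000000fc0003e0000000000000100000000000fc0003e0000000002000080))) (Nat.land (Nat.shiftRight m (Nat.land (Nat.shiftRight m (Nat.land k (nat_lit 65408))) (nat_lit 0x1ffff))) (nat_lit 0xfffffc00000000000000000))) (Nat.shiftLeft (Nat.land (Nat.shiftRight m (Nat.land k (nat_lit 65408))) (nat_lit 0xfffffc00000000000000000)) (nat_lit 128))) nd)) (Nat.add (Nat.add nd (Nat.xor (Nat.land (Nat.shiftRight m (Nat.land k (nat_lit 65408))) (nat_lit 0x80000000007fffc00000000)) (nat_lit 0x80000000000000000000180)))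 (Nat.xor (Nat.land (Nat.shiftRight m (Nat.land (Nat.shiftRight (Nat.shiftRight m (nat_lit 34)) (Nat.land (Nat.shiftRight m (Nat.land k (nat_lit 65408))) (nat_lit 0x1ffff))) (nat_lit 0x1ffff))) (nat_lit 0x10000000000000000)) (nat_lit 0x10000000000000000))) e (Nat.shiftRight c (nat_lit 16)))⟩

def oExz2 (k : ℕ) : Op :=
  ⟨fun ih lim m nd e c => (ih.1 lim (Nat.lor (Nat.lor m (Nat.shiftLeft nd (Nat.add (Nat.land k (nat_lit 65408)) (nat_lit 34)))) (Nat.shiftLeft (Nat.lor (Nat.lor (Nat.add (Nat.mul nd (nat_lit 0x200010000000000000000000000000002000100000000000000000000000000020001)) (Nat.add (Nat.shiftLeft (Nat.land k (nat_lit 65408)) (nat_lit 34)) (nat_lit 0xfc0003e0000000001000000000000000fc0003e0000000000000100000000000fc0003e0000000002000080))) (Nat.land (Nat.shiftRight m (Nat.land (Nat.shiftRight m (Nat.land k (nat_lit 65408))) (nat_lit 0x1ffff))) (nat_lit 0xfffffc00000000000000000))) (Nat.shiftLeft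 (Nat.land (Nat.shiftRight m (Nat.land k (nat_lit 65408))) (nat_lit 0xfffffc00000000000000000)) (nat_lit 128))) nd)) (Nat.add (Nat.add nd (Nat.xor (Nat.land (Nat.shiftRight m (Nat.land k (nat_lit 65408))) (nat_lit 0x80000000007fffc00000000)) (nat_lit 0x80000000000000000000180))) (Nat.xor (Nat.land (Nat.shiftRight m (Nat.land (Nat.shiftRight (Nat.shiftRight m (nat_lit 34)) (Nat.land (Nat.shiftRight (Nat.shiftRight m (Nat.land k (nat_lit 65408))) (nat_lit 17)) (nat_lit 0x1ffff))) (nat_lit 0x1ffff))) (nat_lit 0x10000000000000000)) (nat_lit 0x10000000000000000))) e (Nat.shiftRight c (nat_lit 16)))⟩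

def oExf (k : ℕ) : Op :=
  ⟨fun ih lim m nd e c => (ih.1 lim (Nat.lor (Nat.lor m (Nat.shiftLeft nd (Nat.land k (nat_lit 65408)))) (Nat.shiftLeft (Nat.lor (Nat.lor (Nat.add (Nat.shiftLeft (Nat.land k (nat_lit 65408)) (nat_lit 17)) (nat_lit 0xfc000000000000000000000)) (Nat.land (Nat.shiftRight m (Nat.land k (nat_lit 65408))) (nat_lit 0x3f0000000000000000))) (Nat.land (Nat.shiftRight m (Nat.land (Nat.shiftRight (Nat.shiftRight m (Nat.land k (nat_lit 65408))) (nat_lit 34)) (nat_lit 0x1ffff))) (nat_lit 0xfffffc00000000000000000))) nd)) (Nat.add nd (Nat.xor (Nat.shiftLeft (Nat.land (Nat.shiftRight m (Nat.land k (nat_lit 65408))) (nat_lit 0x8000000000000000001ffff)) (nat_lit 16)) (nat_lit 0x800000000000000000000000080))) e (Nat.shiftRight c (nat_lit 16)))⟩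

def oExb (k : ℕ) : Op :=
  ⟨fun ih lim m nd e c => (ih.1 lim (Nat.lor (Nat.lor m (Nat.shiftLeft nd (Nat.add (Nat.land k (nat_lit 65408)) (nat_lit 17)))) (Nat.shiftLeft (Nat.lor (Nat.add (Nat.land k (nat_lit 65408)) (nat_lit 0xfc000000000000000000000)) (Nat.land (Nat.shiftRight m (Nat.land k (nat_lit 65408))) (nat_lit 0x3f0000000000000000))) nd)) (Nat.add nd (Nat.xor (Nat.land (Nat.shiftRight m (Nat.land k (nat_lit 65408))) (nat_lit 0x800000000000003fffe0000)) (nat_lit 0x80000000000000000000080))) e (Nat.shiftRight c (nat_lit 16)))⟩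

def oClv1 (k : ℕ) : Op :=
  (@Nat.rec (fun _ => Op) ⟨fun ih lim m nd e c => (ih.1 lim (Nat.lor (Nat.lor m (Nat.lor (Nat.shiftLeft (Nat.land (Nat.shiftRight c (nat_lit 9)) (nat_lit 65408)) (Nat.land (Nat.shiftRight c (nat_lit 9)) (nat_lit 65408))) (Nat.shiftLeft (Nat.shiftLeft (Nat.land (Nat.shiftRight c (nat_lit 9)) (nat_lit 65408)) (nat_lit 17)) (Nat.land (Nat.shiftRight c (nat_lit 9)) (nat_lit 65408))))) (Nat.mul ((mskF k).1 (Nat.lor m (Nat.lor (Nat.shiftLeft (Nat.land (Nat.shiftRight c (nat_lit 9)) (nat_lit 65408)) (Nat.land (Nat.shiftRight c (nat_lit 9)) (nat_lit 65408))) (Nat.shiftLeft (Nat.shiftLeft (Nat.land (Nat.shiftRight c (nat_lit 9)) (nat_lit 65408)) (nat_lit 17)) (Nat.land (Nat.shiftRight c (nat_lit 9)) (nat_lit 65408))))) (Nat.land (Nat.shiftRight c (nat_lit 9)) (nat_lit 65408))) (Nat.land (Nat.lor (Nat.shiftRight m (Nat.land (Nat.shiftRight c (nat_lit 9)) (nat_lit 65408))) (Nat.shiftRight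 m (Nat.land (Nat.shiftRight (Nat.shiftRight m (Nat.land (Nat.shiftRight c (nat_lit 9)) (nat_lit 65408))) (nat_lit 34)) (nat_lit 0x1ffff)))) (nat_lit 0xfffffc00000000000000000)))) (Nat.add (Nat.add nd (Nat.shiftLeft (Nat.xor (Nat.land (Nat.shiftRight m (Nat.land (Nat.shiftRight c (nat_lit 9)) (nat_lit 65408))) (nat_lit 0x3f000000000001ffff)) (nat_lit 0x3f0000000000000000)) (nat_lit 16))) (Nat.xor (Nat.land (Nat.shiftRight m (Nat.land (Nat.shiftRight c (nat_lit 9)) (nat_lit 65408))) (nat_lit 0x800000000000003fffe0000)) (nat_lit 0x80000000000000000000000))) e (Nat.shiftRight c (nat_lit 25)))⟩ (fun _ _ => ⟨fun ih lim m nd e c => (ih.1 lim (Nat.lor m (Nat.lor (Nat.shiftLeft (Nat.land (Nat.shiftRight c (nat_lit 9)) (nat_lit 65408)) (Nat.land (Nat.shiftRight c (nat_lit 9)) (nat_lit 65408))) (Nat.shiftLeft (Nat.shiftLeft (Nat.land (Nat.shiftRight c (nat_lit 9)) (nat_lit 65408)) (nat_lit 17)) (Nat.land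 (Nat.shiftRight c (nat_lit 9)) (nat_lit 65408))))) (Nat.add (Nat.add nd (Nat.shiftLeft (Nat.xor (Nat.land (Nat.shiftRight m (Nat.land (Nat.shiftRight c (nat_lit 9)) (nat_lit 65408))) (nat_lit 0x3f000000000001ffff)) (nat_lit 0x3f0000000000000000)) (nat_lit 16))) (Nat.xor (Nat.land (Nat.shiftRight m (Nat.land (Nat.shiftRight c (nat_lit 9)) (nat_lit 65408))) (nat_lit 0x800000000000003fffe0000)) (nat_lit 0x80000000000000000000000))) e (Nat.shiftRight c (nat_lit 25)))⟩) (Nat.shiftRight k (nat_lit 15)))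

def oClv2 (k : ℕ) : Op :=
  (@Nat.rec (fun _ => Op) ⟨fun ih lim m nd e c => (ih.1 lim (Nat.lor (Nat.lor m (Nat.lor (Nat.shiftLeft (Nat.land (Nat.shiftRight (Nat.shiftRight m (Nat.land (Nat.shiftRight c (nat_lit 9)) (nat_lit 65408))) (nat_lit 17)) (nat_lit 0x1ffff)) (Nat.land (Nat.shiftRight c (nat_lit 9)) (nat_lit 65408))) (Nat.shiftLeft (Nat.shiftLeft (Nat.land (Nat.shiftRight c (nat_lit 9)) (nat_lit 65408)) (nat_lit 17)) (Nat.land (Nat.shiftRight (Nat.shiftRight m (Nat.land (Nat.shiftRight c (nat_lit 9)) (nat_lit 65408))) (nat_lit 17)) (nat_lit 0x1ffff))))) (Nat.mul ((mskF k).1 (Nat.lor m (Nat.lor (Nat.shiftLeft (Nat.land (Nat.shiftRight (Nat.shiftRight m (Nat.land (Nat.shiftRight c (nat_lit 9)) (nat_lit 65408))) (nat_lit 17)) (nat_lit 0x1ffff)) (Nat.land (Nat.shiftRight c (nat_lit 9)) (nat_lit 65408))) (Nat.shiftLeft (Nat.shiftLeft (Nat.land (Nat.shiftRight c (nat_lit 9)) (nat_lit 65408))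 (nat_lit 17)) (Nat.land (Nat.shiftRight (Nat.shiftRight m (Nat.land (Nat.shiftRight c (nat_lit 9)) (nat_lit 65408))) (nat_lit 17)) (nat_lit 0x1ffff))))) (Nat.land (Nat.shiftRight (Nat.shiftRight m (Nat.land (Nat.shiftRight c (nat_lit 9)) (nat_lit 65408))) (nat_lit 17)) (nat_lit 0x1ffff))) (Nat.land (Nat.lor (Nat.shiftRight m (Nat.land (Nat.shiftRight (Nat.shiftRight m (Nat.land (Nat.shiftRight c (nat_lit 9)) (nat_lit 65408))) (nat_lit 17)) (nat_lit 0x1ffff))) (Nat.shiftRight m (Nat.land (Nat.shiftRight (Nat.shiftRight m (Nat.land (Nat.shiftRight c (nat_lit 9)) (nat_lit 65408))) (nat_lit 34)) (nat_lit 0x1ffff)))) (nat_lit 0xfffffc00000000000000000)))) (Nat.add (Nat.add nd (Nat.shiftLeft (Nat.xor (Nat.land (Nat.shiftRight m (Nat.land (Nat.shiftRight c (nat_lit 9)) (nat_lit 65408))) (nat_lit 0x3d000000000001ffff)) (nat_lit 0x3d0000000000000000)) (nat_lit 16))) (Nat.xor (Nat.land (Nat.shiftRight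 m (Nat.land (Nat.shiftRight (Nat.shiftRight m (Nat.land (Nat.shiftRight c (nat_lit 9)) (nat_lit 65408))) (nat_lit 17)) (nat_lit 0x1ffff))) (nat_lit 0x800000000000003fffe0000)) (nat_lit 0x80000000000000000000000))) e (Nat.shiftRight c (nat_lit 25)))⟩ (fun _ _ => ⟨fun ih lim m nd e c => (ih.1 lim (Nat.lor m (Nat.lor (Nat.shiftLeft (Nat.land (Nat.shiftRight (Nat.shiftRight m (Nat.land (Nat.shiftRight c (nat_lit 9)) (nat_lit 65408))) (nat_lit 17)) (nat_lit 0x1ffff)) (Nat.land (Nat.shiftRight c (nat_lit 9)) (nat_lit 65408))) (Nat.shiftLeft (Nat.shiftLeft (Nat.land (Nat.shiftRight c (nat_lit 9)) (nat_lit 65408)) (nat_lit 17)) (Nat.land (Nat.shiftRight (Nat.shiftRight m (Nat.land (Nat.shiftRight c (nat_lit 9)) (nat_lit 65408))) (nat_lit 17)) (nat_lit 0x1ffff))))) (Nat.add (Nat.add nd (Nat.shiftLeft (Nat.xor (Nat.land (Nat.shiftRight m (Nat.land (Nat.shiftRight c (nat_lit 9)) (nat_lit 65408))) (nat_lit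 0x3d000000000001ffff)) (nat_lit 0x3d0000000000000000)) (nat_lit 16))) (Nat.xor (Nat.land (Nat.shiftRight m (Nat.land (Nat.shiftRight (Nat.shiftRight m (Nat.land (Nat.shiftRight c (nat_lit 9)) (nat_lit 65408))) (nat_lit 17)) (nat_lit 0x1ffff))) (nat_lit 0x800000000000003fffe0000)) (nat_lit 0x80000000000000000000000))) e (Nat.shiftRight c (nat_lit 25)))⟩) (Nat.shiftRight k (nat_lit 15)))

def oClv3 (k : ℕ) : Op :=
  (@Nat.rec (fun _ => Op) ⟨fun ih lim m nd e c => (ih.1 lim (Nat.lor (Nat.lor m (Nat.lor (Nat.shiftLeft (Nat.land (Nat.shiftRight (Nat.shiftRight m (nat_lit 17)) (Nat.land (Nat.shiftRight (Nat.shiftRight m (Nat.land (Nat.shiftRight c (nat_lit 9)) (nat_lit 65408))) (nat_lit 17)) (nat_lit 0x1ffff))) (nat_lit 0x1ffff)) (Nat.land (Nat.shiftRight c (nat_lit 9)) (nat_lit 65408))) (Nat.shiftLeft (Nat.shiftLeft (Nat.land (Nat.shiftRight c (nat_lit 9)) (nat_lit 65408)) (nat_lit 17)) (Nat.land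 (Nat.shiftRight (Nat.shiftRight m (nat_lit 17)) (Nat.land (Nat.shiftRight (Nat.shiftRight m (Nat.land (Nat.shiftRight c (nat_lit 9)) (nat_lit 65408))) (nat_lit 17)) (nat_lit 0x1ffff))) (nat_lit 0x1ffff))))) (Nat.mul ((mskF k).1 (Nat.lor m (Nat.lor (Nat.shiftLeft (Nat.land (Nat.shiftRight (Nat.shiftRight m (nat_lit 17)) (Nat.land (Nat.shiftRight (Nat.shiftRight m (Nat.land (Nat.shiftRight c (nat_lit 9)) (nat_lit 65408))) (nat_lit 17)) (nat_lit 0x1ffff))) (nat_lit 0x1ffff)) (Nat.land (Nat.shiftRight c (nat_lit 9)) (nat_lit 65408))) (Nat.shiftLeft (Nat.shiftLeft (Nat.land (Nat.shiftRight c (nat_lit 9)) (nat_lit 65408)) (nat_lit 17)) (Nat.land (Nat.shiftRight (Nat.shiftRight m (nat_lit 17)) (Nat.land (Nat.shiftRight (Nat.shiftRight m (Nat.land (Nat.shiftRight c (nat_lit 9)) (nat_lit 65408))) (nat_lit 17)) (nat_lit 0x1ffff))) (nat_lit 0x1ffff))))) (Nat.land (Nat.shiftRight (Nat.shiftRight m (nat_lit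 17)) (Nat.land (Nat.shiftRight (Nat.shiftRight m (Nat.land (Nat.shiftRight c (nat_lit 9)) (nat_lit 65408))) (nat_lit 17)) (nat_lit 0x1ffff))) (nat_lit 0x1ffff))) (Nat.land (Nat.lor (Nat.shiftRight m (Nat.land (Nat.shiftRight (Nat.shiftRight m (nat_lit 17)) (Nat.land (Nat.shiftRight (Nat.shiftRight m (Nat.land (Nat.shiftRight c (nat_lit 9)) (nat_lit 65408))) (nat_lit 17)) (nat_lit 0x1ffff))) (nat_lit 0x1ffff))) (Nat.shiftRight m (Nat.land (Nat.shiftRight (Nat.shiftRight m (Nat.land (Nat.shiftRight c (nat_lit 9)) (nat_lit 65408))) (nat_lit 34)) (nat_lit 0x1ffff)))) (nat_lit 0xfffffc00000000000000000)))) (Nat.add (Nat.add nd (Nat.shiftLeft (Nat.xor (Nat.land (Nat.shiftRight m (Nat.land (Nat.shiftRight c (nat_lit 9)) (nat_lit 65408))) (nat_lit 0x3a000000000001ffff)) (nat_lit 0x3a0000000000000000)) (nat_lit 16))) (Nat.xor (Nat.land (Nat.shiftRight m (Nat.land (Nat.shiftRight (Nat.shiftRight m (nat_lit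 17)) (Nat.land (Nat.shiftRight (Nat.shiftRight m (Nat.land (Nat.shiftRight c (nat_lit 9)) (nat_lit 65408))) (nat_lit 17)) (nat_lit 0x1ffff))) (nat_lit 0x1ffff))) (nat_lit 0x800000000000003fffe0000)) (nat_lit 0x80000000000000000000000))) e (Nat.shiftRight c (nat_lit 25)))⟩ (fun _ _ => ⟨fun ih lim m nd e c => (ih.1 lim (Nat.lor m (Nat.lor (Nat.shiftLeft (Nat.land (Nat.shiftRight (Nat.shiftRight m (nat_lit 17)) (Nat.land (Nat.shiftRight (Nat.shiftRight m (Nat.land (Nat.shiftRight c (nat_lit 9)) (nat_lit 65408))) (nat_lit 17)) (nat_lit 0x1ffff))) (nat_lit 0x1ffff)) (Nat.land (Nat.shiftRight c (nat_lit 9)) (nat_lit 65408))) (Nat.shiftLeft (Nat.shiftLeft (Nat.land (Nat.shiftRight c (nat_lit 9)) (nat_lit 65408)) (nat_lit 17)) (Nat.land (Nat.shiftRight (Nat.shiftRight m (nat_lit 17)) (Nat.land (Nat.shiftRight (Nat.shiftRight m (Nat.land (Nat.shiftRight c (nat_lit 9)) (nat_lit 65408))) (nat_lit 17)) (nat_lit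 0x1ffff))) (nat_lit 0x1ffff))))) (Nat.add (Nat.add nd (Nat.shiftLeft (Nat.xor (Nat.land (Nat.shiftRight m (Nat.land (Nat.shiftRight c (nat_lit 9)) (nat_lit 65408))) (nat_lit 0x3a000000000001ffff)) (nat_lit 0x3a0000000000000000)) (nat_lit 16))) (Nat.xor (Nat.land (Nat.shiftRight m (Nat.land (Nat.shiftRight (Nat.shiftRight m (nat_lit 17)) (Nat.land (Nat.shiftRight (Nat.shiftRight m (Nat.land (Nat.shiftRight c (nat_lit 9)) (nat_lit 65408))) (nat_lit 17)) (nat_lit 0x1ffff))) (nat_lit 0x1ffff))) (nat_lit 0x800000000000003fffe0000)) (nat_lit 0x80000000000000000000000))) e (Nat.shiftRight c (nat_lit 25)))⟩) (Nat.shiftRight k (nat_lit 15)))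

def oClv4 (k : ℕ) : Op :=
  (@Nat.rec (fun _ => Op) ⟨fun ih lim m nd e c => (ih.1 lim (Nat.lor (Nat.lor m (Nat.lor (Nat.shiftLeft (Nat.land (Nat.shiftRight (Nat.shiftRight m (nat_lit 17)) (Nat.land (Nat.shiftRight (Nat.shiftRight m (nat_lit 17)) (Nat.land (Nat.shiftRight (Nat.shiftRight m (Nat.land (Nat.shiftRight c (nat_lit 9)) (nat_lit 65408))) (nat_lit 17)) (nat_lit 0x1ffff))) (nat_lit 0x1ffff))) (nat_lit 0x1ffff)) (Nat.land (Nat.shiftRight c (nat_lit 9)) (nat_lit 65408))) (Nat.shiftLeft (Nat.shiftLeft (Nat.land (Nat.shiftRight c (nat_lit 9)) (nat_lit 65408)) (nat_lit 17)) (Nat.land (Nat.shiftRight (Nat.shiftRight m (nat_lit 17)) (Nat.land (Nat.shiftRight (Nat.shiftRight m (nat_lit 17)) (Nat.land (Nat.shiftRight (Nat.shiftRight m (Nat.land (Nat.shiftRight c (nat_lit 9)) (nat_lit 65408))) (nat_lit 17)) (nat_lit 0x1ffff))) (nat_lit 0x1ffff))) (nat_lit 0x1ffff))))) (Nat.mul ((mskF k).1 (Nat.lor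 m (Nat.lor (Nat.shiftLeft (Nat.land (Nat.shiftRight (Nat.shiftRight m (nat_lit 17)) (Nat.land (Nat.shiftRight (Nat.shiftRight m (nat_lit 17)) (Nat.land (Nat.shiftRight (Nat.shiftRight m (Nat.land (Nat.shiftRight c (nat_lit 9)) (nat_lit 65408))) (nat_lit 17)) (nat_lit 0x1ffff))) (nat_lit 0x1ffff))) (nat_lit 0x1ffff)) (Nat.land (Nat.shiftRight c (nat_lit 9)) (nat_lit 65408))) (Nat.shiftLeft (Nat.shiftLeft (Nat.land (Nat.shiftRight c (nat_lit 9)) (nat_lit 65408)) (nat_lit 17)) (Nat.land (Nat.shiftRight (Nat.shiftRight m (nat_lit 17)) (Nat.land (Nat.shiftRight (Nat.shiftRight m (nat_lit 17)) (Nat.land (Nat.shiftRight (Nat.shiftRight m (Nat.land (Nat.shiftRight c (nat_lit 9)) (nat_lit 65408))) (nat_lit 17)) (nat_lit 0x1ffff))) (nat_lit 0x1ffff))) (nat_lit 0x1ffff))))) (Nat.land (Nat.shiftRight (Nat.shiftRight m (nat_lit 17)) (Nat.land (Nat.shiftRight (Nat.shiftRight m (nat_lit 17)) (Nat.land (Nat.shiftRight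 (Nat.shiftRight m (Nat.land (Nat.shiftRight c (nat_lit 9)) (nat_lit 65408))) (nat_lit 17)) (nat_lit 0x1ffff))) (nat_lit 0x1ffff))) (nat_lit 0x1ffff))) (Nat.land (Nat.lor (Nat.shiftRight m (Nat.land (Nat.shiftRight (Nat.shiftRight m (nat_lit 17)) (Nat.land (Nat.shiftRight (Nat.shiftRight m (nat_lit 17)) (Nat.land (Nat.shiftRight (Nat.shiftRight m (Nat.land (Nat.shiftRight c (nat_lit 9)) (nat_lit 65408))) (nat_lit 17)) (nat_lit 0x1ffff))) (nat_lit 0x1ffff))) (nat_lit 0x1ffff))) (Nat.shiftRight m (Nat.land (Nat.shiftRight (Nat.shiftRight m (Nat.land (Nat.shiftRight c (nat_lit 9)) (nat_lit 65408))) (nat_lit 34)) (nat_lit 0x1ffff)))) (nat_lit 0xfffffc00000000000000000)))) (Nat.add (Nat.add nd (Nat.shiftLeft (Nat.xor (Nat.land (Nat.shiftRight m (Nat.land (Nat.shiftRight c (nat_lit 9)) (nat_lit 65408))) (nat_lit 0x37000000000001ffff)) (nat_lit 0x370000000000000000)) (nat_lit 16))) (Nat.xor (Nat.land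 (Nat.shiftRight m (Nat.land (Nat.shiftRight (Nat.shiftRight m (nat_lit 17)) (Nat.land (Nat.shiftRight (Nat.shiftRight m (nat_lit 17)) (Nat.land (Nat.shiftRight (Nat.shiftRight m (Nat.land (Nat.shiftRight c (nat_lit 9)) (nat_lit 65408))) (nat_lit 17)) (nat_lit 0x1ffff))) (nat_lit 0x1ffff))) (nat_lit 0x1ffff))) (nat_lit 0x800000000000003fffe0000)) (nat_lit 0x80000000000000000000000))) e (Nat.shiftRight c (nat_lit 25)))⟩ (fun _ _ => ⟨fun ih lim m nd e c => (ih.1 lim (Nat.lor m (Nat.lor (Nat.shiftLeft (Nat.land (Nat.shiftRight (Nat.shiftRight m (nat_lit 17)) (Nat.land (Nat.shiftRight (Nat.shiftRight m (nat_lit 17)) (Nat.land (Nat.shiftRight (Nat.shiftRight m (Nat.land (Nat.shiftRight c (nat_lit 9)) (nat_lit 65408))) (nat_lit 17)) (nat_lit 0x1ffff))) (nat_lit 0x1ffff))) (nat_lit 0x1ffff)) (Nat.land (Nat.shiftRight c (nat_lit 9)) (nat_lit 65408))) (Nat.shiftLeft (Nat.shiftLeft (Nat.land (Nat.shiftRight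 c (nat_lit 9)) (nat_lit 65408)) (nat_lit 17)) (Nat.land (Nat.shiftRight (Nat.shiftRight m (nat_lit 17)) (Nat.land (Nat.shiftRight (Nat.shiftRight m (nat_lit 17)) (Nat.land (Nat.shiftRight (Nat.shiftRight m (Nat.land (Nat.shiftRight c (nat_lit 9)) (nat_lit 65408))) (nat_lit 17)) (nat_lit 0x1ffff))) (nat_lit 0x1ffff))) (nat_lit 0x1ffff))))) (Nat.add (Nat.add nd (Nat.shiftLeft (Nat.xor (Nat.land (Nat.shiftRight m (Nat.land (Nat.shiftRight c (nat_lit 9)) (nat_lit 65408))) (nat_lit 0x37000000000001ffff)) (nat_lit 0x370000000000000000)) (nat_lit 16))) (Nat.xor (Nat.land (Nat.shiftRight m (Nat.land (Nat.shiftRight (Nat.shiftRight m (nat_lit 17)) (Nat.land (Nat.shiftRight (Nat.shiftRight m (nat_lit 17)) (Nat.land (Nat.shiftRight (Nat.shiftRight m (Nat.land (Nat.shiftRight c (nat_lit 9)) (nat_lit 65408))) (nat_lit 17)) (nat_lit 0x1ffff))) (nat_lit 0x1ffff))) (nat_lit 0x1ffff))) (nat_lit 0x800000000000003fffe0000))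 (nat_lit 0x80000000000000000000000))) e (Nat.shiftRight c (nat_lit 25)))⟩) (Nat.shiftRight k (nat_lit 15)))

def oClv5 (k : ℕ) : Op :=
  (@Nat.rec (fun _ => Op) ⟨fun ih lim m nd e c => (ih.1 lim (Nat.lor (Nat.lor m (Nat.lor (Nat.shiftLeft (Nat.land (Nat.shiftRight (Nat.shiftRight m (nat_lit 17)) (Nat.land (Nat.shiftRight (Nat.shiftRight m (nat_lit 17)) (Nat.land (Nat.shiftRight (Nat.shiftRight m (nat_lit 17)) (Nat.land (Nat.shiftRight (Nat.shiftRight m (Nat.land (Nat.shiftRight c (nat_lit 9)) (nat_lit 65408))) (nat_lit 17)) (nat_lit 0x1ffff))) (nat_lit 0x1ffff))) (nat_lit 0x1ffff))) (nat_lit 0x1ffff)) (Nat.land (Nat.shiftRight c (nat_lit 9)) (nat_lit 65408))) (Nat.shiftLeft (Nat.shiftLeft (Nat.land (Nat.shiftRight c (nat_lit 9)) (nat_lit 65408)) (nat_lit 17)) (Nat.land (Nat.shiftRight (Nat.shiftRight m (nat_lit 17)) (Nat.land (Nat.shiftRight (Nat.shiftRight m (nat_lit 17)) (Nat.land (Nat.shiftRight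 (Nat.shiftRight m (nat_lit 17)) (Nat.land (Nat.shiftRight (Nat.shiftRight m (Nat.land (Nat.shiftRight c (nat_lit 9)) (nat_lit 65408))) (nat_lit 17)) (nat_lit 0x1ffff))) (nat_lit 0x1ffff))) (nat_lit 0x1ffff))) (nat_lit 0x1ffff))))) (Nat.mul ((mskF k).1 (Nat.lor m (Nat.lor (Nat.shiftLeft (Nat.land (Nat.shiftRight (Nat.shiftRight m (nat_lit 17)) (Nat.land (Nat.shiftRight (Nat.shiftRight m (nat_lit 17)) (Nat.land (Nat.shiftRight (Nat.shiftRight m (nat_lit 17)) (Nat.land (Nat.shiftRight (Nat.shiftRight m (Nat.land (Nat.shiftRight c (nat_lit 9)) (nat_lit 65408))) (nat_lit 17)) (nat_lit 0x1ffff))) (nat_lit 0x1ffff))) (nat_lit 0x1ffff))) (nat_lit 0x1ffff)) (Nat.land (Nat.shiftRight c (nat_lit 9)) (nat_lit 65408))) (Nat.shiftLeft (Nat.shiftLeft (Nat.land (Nat.shiftRight c (nat_lit 9)) (nat_lit 65408)) (nat_lit 17)) (Nat.land (Nat.shiftRight (Nat.shiftRight m (nat_lit 17)) (Nat.land (Nat.shiftRight (Nat.shiftRight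 m (nat_lit 17)) (Nat.land (Nat.shiftRight (Nat.shiftRight m (nat_lit 17)) (Nat.land (Nat.shiftRight (Nat.shiftRight m (Nat.land (Nat.shiftRight c (nat_lit 9)) (nat_lit 65408))) (nat_lit 17)) (nat_lit 0x1ffff))) (nat_lit 0x1ffff))) (nat_lit 0x1ffff))) (nat_lit 0x1ffff))))) (Nat.land (Nat.shiftRight (Nat.shiftRight m (nat_lit 17)) (Nat.land (Nat.shiftRight (Nat.shiftRight m (nat_lit 17)) (Nat.land (Nat.shiftRight (Nat.shiftRight m (nat_lit 17)) (Nat.land (Nat.shiftRight (Nat.shiftRight m (Nat.land (Nat.shiftRight c (nat_lit 9)) (nat_lit 65408))) (nat_lit 17)) (nat_lit 0x1ffff))) (nat_lit 0x1ffff))) (nat_lit 0x1ffff))) (nat_lit 0x1ffff))) (Nat.land (Nat.lor (Nat.shiftRight m (Nat.land (Nat.shiftRight (Nat.shiftRight m (nat_lit 17)) (Nat.land (Nat.shiftRight (Nat.shiftRight m (nat_lit 17)) (Nat.land (Nat.shiftRight (Nat.shiftRight m (nat_lit 17)) (Nat.land (Nat.shiftRight (Nat.shiftRight m (Nat.land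 (Nat.shiftRight c (nat_lit 9)) (nat_lit 65408))) (nat_lit 17)) (nat_lit 0x1ffff))) (nat_lit 0x1ffff))) (nat_lit 0x1ffff))) (nat_lit 0x1ffff))) (Nat.shiftRight m (Nat.land (Nat.shiftRight (Nat.shiftRight m (Nat.land (Nat.shiftRight c (nat_lit 9)) (nat_lit 65408))) (nat_lit 34)) (nat_lit 0x1ffff)))) (nat_lit 0xfffffc00000000000000000)))) (Nat.add (Nat.add nd (Nat.shiftLeft (Nat.xor (Nat.land (Nat.shiftRight m (Nat.land (Nat.shiftRight c (nat_lit 9)) (nat_lit 65408))) (nat_lit 0x2f000000000001ffff)) (nat_lit 0x2f0000000000000000)) (nat_lit 16))) (Nat.xor (Nat.land (Nat.shiftRight m (Nat.land (Nat.shiftRight (Nat.shiftRight m (nat_lit 17)) (Nat.land (Nat.shiftRight (Nat.shiftRight m (nat_lit 17)) (Nat.land (Nat.shiftRight (Nat.shiftRight m (nat_lit 17)) (Nat.land (Nat.shiftRight (Nat.shiftRight m (Nat.land (Nat.shiftRight c (nat_lit 9)) (nat_lit 65408))) (nat_lit 17)) (nat_lit 0x1ffff))) (nat_lit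 0x1ffff))) (nat_lit 0x1ffff))) (nat_lit 0x1ffff))) (nat_lit 0x800000000000003fffe0000)) (nat_lit 0x80000000000000000000000))) e (Nat.shiftRight c (nat_lit 25)))⟩ (fun _ _ => ⟨fun ih lim m nd e c => (ih.1 lim (Nat.lor m (Nat.lor (Nat.shiftLeft (Nat.land (Nat.shiftRight (Nat.shiftRight m (nat_lit 17)) (Nat.land (Nat.shiftRight (Nat.shiftRight m (nat_lit 17)) (Nat.land (Nat.shiftRight (Nat.shiftRight m (nat_lit 17)) (Nat.land (Nat.shiftRight (Nat.shiftRight m (Nat.land (Nat.shiftRight c (nat_lit 9)) (nat_lit 65408))) (nat_lit 17)) (nat_lit 0x1ffff))) (nat_lit 0x1ffff))) (nat_lit 0x1ffff))) (nat_lit 0x1ffff)) (Nat.land (Nat.shiftRight c (nat_lit 9)) (nat_lit 65408))) (Nat.shiftLeft (Nat.shiftLeft (Nat.land (Nat.shiftRight c (nat_lit 9)) (nat_lit 65408)) (nat_lit 17)) (Nat.land (Nat.shiftRight (Nat.shiftRight m (nat_lit 17)) (Nat.land (Nat.shiftRight (Nat.shiftRight m (nat_lit 17)) (Nat.land (Nat.shiftRight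 (Nat.shiftRight m (nat_lit 17)) (Nat.land (Nat.shiftRight (Nat.shiftRight m (Nat.land (Nat.shiftRight c (nat_lit 9)) (nat_lit 65408))) (nat_lit 17)) (nat_lit 0x1ffff))) (nat_lit 0x1ffff))) (nat_lit 0x1ffff))) (nat_lit 0x1ffff))))) (Nat.add (Nat.add nd (Nat.shiftLeft (Nat.xor (Nat.land (Nat.shiftRight m (Nat.land (Nat.shiftRight c (nat_lit 9)) (nat_lit 65408))) (nat_lit 0x2f000000000001ffff)) (nat_lit 0x2f0000000000000000)) (nat_lit 16))) (Nat.xor (Nat.land (Nat.shiftRight m (Nat.land (Nat.shiftRight (Nat.shiftRight m (nat_lit 17)) (Nat.land (Nat.shiftRight (Nat.shiftRight m (nat_lit 17)) (Nat.land (Nat.shiftRight (Nat.shiftRight m (nat_lit 17)) (Nat.land (Nat.shiftRight (Nat.shiftRight m (Nat.land (Nat.shiftRight c (nat_lit 9)) (nat_lit 65408))) (nat_lit 17)) (nat_lit 0x1ffff))) (nat_lit 0x1ffff))) (nat_lit 0x1ffff))) (nat_lit 0x1ffff))) (nat_lit 0x800000000000003fffe0000)) (nat_lit 0x80000000000000000000000)))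 e (Nat.shiftRight c (nat_lit 25)))⟩) (Nat.shiftRight k (nat_lit 15)))

def oJn1 (k : ℕ) : Op :=
  (@Nat.rec (fun _ => Op) ⟨fun ih lim m nd e c => (ih.1 lim (Nat.lor (Nat.lor m (Nat.shiftLeft (Nat.lor (Nat.shiftLeft (Nat.land (Nat.shiftRight (Nat.shiftRight m (Nat.land (Nat.shiftRight c (nat_lit 9)) (nat_lit 65408))) (nat_lit 17)) (nat_lit 0x1ffff)) (Nat.land (Nat.shiftRight c (nat_lit 9)) (nat_lit 65408))) (Nat.shiftLeft (Nat.land (Nat.shiftRight c (nat_lit 9)) (nat_lit 65408)) (Nat.land (Nat.shiftRight (Nat.shiftRight m (Nat.land (Nat.shiftRight c (nat_lit 9)) (nat_lit 65408))) (nat_lit 17)) (nat_lit 0x1ffff)))) (nat_lit 34))) (Nat.mul ((mskF k).1 (Nat.lor m (Nat.shiftLeft (Nat.lor (Nat.shiftLeft (Nat.land (Nat.shiftRight (Nat.shiftRight m (Nat.land (Nat.shiftRight c (nat_lit 9)) (nat_lit 65408))) (nat_lit 17)) (nat_lit 0x1ffff)) (Nat.land (Nat.shiftRight c (nat_lit 9)) (nat_lit 65408))) (Nat.shiftLeft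 (Nat.land (Nat.shiftRight c (nat_lit 9)) (nat_lit 65408)) (Nat.land (Nat.shiftRight (Nat.shiftRight m (Nat.land (Nat.shiftRight c (nat_lit 9)) (nat_lit 65408))) (nat_lit 17)) (nat_lit 0x1ffff)))) (nat_lit 34))) (Nat.land (Nat.shiftRight (Nat.shiftRight m (Nat.land (Nat.shiftRight c (nat_lit 9)) (nat_lit 65408))) (nat_lit 17)) (nat_lit 0x1ffff))) (Nat.land (Nat.lor (Nat.shiftRight m (Nat.land (Nat.shiftRight (Nat.shiftRight m (Nat.land (Nat.shiftRight c (nat_lit 9)) (nat_lit 65408))) (nat_lit 17)) (nat_lit 0x1ffff))) (Nat.shiftRight m (Nat.land (Nat.shiftRight m (Nat.land (Nat.shiftRight c (nat_lit 9)) (nat_lit 65408))) (nat_lit 0x1ffff)))) (nat_lit 0xfffffc00000000000000000)))) (Nat.add (Nat.add nd (Nat.xor (Nat.land (Nat.shiftRight m (Nat.land (Nat.shiftRight c (nat_lit 9)) (nat_lit 65408))) (nat_lit 0xfbfffc00007fffc00000000)) (nat_lit 0xfbfffc00000000000000000))) (Nat.xor (Nat.land (Nat.shiftRight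 m (Nat.land (Nat.shiftRight (Nat.shiftRight m (Nat.land (Nat.shiftRight c (nat_lit 9)) (nat_lit 65408))) (nat_lit 17)) (nat_lit 0x1ffff))) (nat_lit 0x80000000007fffc00000000)) (nat_lit 0x80000000000000000000000))) e (Nat.shiftRight c (nat_lit 25)))⟩ (fun _ _ => ⟨fun ih lim m nd e c => (ih.1 lim (Nat.lor m (Nat.shiftLeft (Nat.lor (Nat.shiftLeft (Nat.land (Nat.shiftRight (Nat.shiftRight m (Nat.land (Nat.shiftRight c (nat_lit 9)) (nat_lit 65408))) (nat_lit 17)) (nat_lit 0x1ffff)) (Nat.land (Nat.shiftRight c (nat_lit 9)) (nat_lit 65408))) (Nat.shiftLeft (Nat.land (Nat.shiftRight c (nat_lit 9)) (nat_lit 65408)) (Nat.land (Nat.shiftRight (Nat.shiftRight m (Nat.land (Nat.shiftRight c (nat_lit 9)) (nat_lit 65408))) (nat_lit 17)) (nat_lit 0x1ffff)))) (nat_lit 34))) (Nat.add (Nat.add nd (Nat.xor (Nat.land (Nat.shiftRight m (Nat.land (Nat.shiftRight c (nat_lit 9)) (nat_lit 65408))) (nat_lit 0xfbfffc00007fffc00000000))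 (nat_lit 0xfbfffc00000000000000000))) (Nat.xor (Nat.land (Nat.shiftRight m (Nat.land (Nat.shiftRight (Nat.shiftRight m (Nat.land (Nat.shiftRight c (nat_lit 9)) (nat_lit 65408))) (nat_lit 17)) (nat_lit 0x1ffff))) (nat_lit 0x80000000007fffc00000000)) (nat_lit 0x80000000000000000000000))) e (Nat.shiftRight c (nat_lit 25)))⟩) (Nat.shiftRight k (nat_lit 15)))

def oJn2 (k : ℕ) : Op :=
  (@Nat.rec (fun _ => Op) ⟨fun ih lim m nd e c => (ih.1 lim (Nat.lor (Nat.lor m (Nat.shiftLeft (Nat.lor (Nat.shiftLeft (Nat.land (Nat.shiftRight (Nat.shiftRight m (nat_lit 17)) (Nat.land (Nat.shiftRight (Nat.shiftRight m (nat_lit 34)) (Nat.land (Nat.shiftRight (Nat.shiftRight m (Nat.land (Nat.shiftRight c (nat_lit 9)) (nat_lit 65408))) (nat_lit 17)) (nat_lit 0x1ffff))) (nat_lit 0x1ffff))) (nat_lit 0x1ffff)) (Nat.land (Nat.shiftRight c (nat_lit 9)) (nat_lit 65408))) (Nat.shiftLeft (Nat.land (Nat.shiftRight c (nat_lit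 9)) (nat_lit 65408)) (Nat.land (Nat.shiftRight (Nat.shiftRight m (nat_lit 17)) (Nat.land (Nat.shiftRight (Nat.shiftRight m (nat_lit 34)) (Nat.land (Nat.shiftRight (Nat.shiftRight m (Nat.land (Nat.shiftRight c (nat_lit 9)) (nat_lit 65408))) (nat_lit 17)) (nat_lit 0x1ffff))) (nat_lit 0x1ffff))) (nat_lit 0x1ffff)))) (nat_lit 34))) (Nat.mul ((mskF k).1 (Nat.lor m (Nat.shiftLeft (Nat.lor (Nat.shiftLeft (Nat.land (Nat.shiftRight (Nat.shiftRight m (nat_lit 17)) (Nat.land (Nat.shiftRight (Nat.shiftRight m (nat_lit 34)) (Nat.land (Nat.shiftRight (Nat.shiftRight m (Nat.land (Nat.shiftRight c (nat_lit 9)) (nat_lit 65408))) (nat_lit 17)) (nat_lit 0x1ffff))) (nat_lit 0x1ffff))) (nat_lit 0x1ffff)) (Nat.land (Nat.shiftRight c (nat_lit 9)) (nat_lit 65408))) (Nat.shiftLeft (Nat.land (Nat.shiftRight c (nat_lit 9)) (nat_lit 65408)) (Nat.land (Nat.shiftRight (Nat.shiftRight m (nat_lit 17)) (Nat.land (Nat.shiftRight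 (Nat.shiftRight m (nat_lit 34)) (Nat.land (Nat.shiftRight (Nat.shiftRight m (Nat.land (Nat.shiftRight c (nat_lit 9)) (nat_lit 65408))) (nat_lit 17)) (nat_lit 0x1ffff))) (nat_lit 0x1ffff))) (nat_lit 0x1ffff)))) (nat_lit 34))) (Nat.land (Nat.shiftRight (Nat.shiftRight m (nat_lit 17)) (Nat.land (Nat.shiftRight (Nat.shiftRight m (nat_lit 34)) (Nat.land (Nat.shiftRight (Nat.shiftRight m (Nat.land (Nat.shiftRight c (nat_lit 9)) (nat_lit 65408))) (nat_lit 17)) (nat_lit 0x1ffff))) (nat_lit 0x1ffff))) (nat_lit 0x1ffff))) (Nat.land (Nat.lor (Nat.shiftRight m (Nat.land (Nat.shiftRight (Nat.shiftRight m (nat_lit 17)) (Nat.land (Nat.shiftRight (Nat.shiftRight m (nat_lit 34)) (Nat.land (Nat.shiftRight (Nat.shiftRight m (Nat.land (Nat.shiftRight c (nat_lit 9)) (nat_lit 65408))) (nat_lit 17)) (nat_lit 0x1ffff))) (nat_lit 0x1ffff))) (nat_lit 0x1ffff))) (Nat.shiftRight m (Nat.land (Nat.shiftRight m (Nat.land (Nat.shiftRight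 c (nat_lit 9)) (nat_lit 65408))) (nat_lit 0x1ffff)))) (nat_lit 0xfffffc00000000000000000)))) (Nat.add (Nat.add nd (Nat.xor (Nat.land (Nat.shiftRight m (Nat.land (Nat.shiftRight c (nat_lit 9)) (nat_lit 65408))) (nat_lit 0xf7fffc00007fffc00000000)) (nat_lit 0xf7fffc00000000000000000))) (Nat.xor (Nat.land (Nat.shiftRight m (Nat.land (Nat.shiftRight (Nat.shiftRight m (nat_lit 17)) (Nat.land (Nat.shiftRight (Nat.shiftRight m (nat_lit 34)) (Nat.land (Nat.shiftRight (Nat.shiftRight m (Nat.land (Nat.shiftRight c (nat_lit 9)) (nat_lit 65408))) (nat_lit 17)) (nat_lit 0x1ffff))) (nat_lit 0x1ffff))) (nat_lit 0x1ffff))) (nat_lit 0x80000000007fffc00000000)) (nat_lit 0x80000000000000000000000))) e (Nat.shiftRight c (nat_lit 25)))⟩ (fun _ _ => ⟨fun ih lim m nd e c => (ih.1 lim (Nat.lor m (Nat.shiftLeft (Nat.lor (Nat.shiftLeft (Nat.land (Nat.shiftRight (Nat.shiftRight m (nat_lit 17)) (Nat.land (Nat.shiftRight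 (Nat.shiftRight m (nat_lit 34)) (Nat.land (Nat.shiftRight (Nat.shiftRight m (Nat.land (Nat.shiftRight c (nat_lit 9)) (nat_lit 65408))) (nat_lit 17)) (nat_lit 0x1ffff))) (nat_lit 0x1ffff))) (nat_lit 0x1ffff)) (Nat.land (Nat.shiftRight c (nat_lit 9)) (nat_lit 65408))) (Nat.shiftLeft (Nat.land (Nat.shiftRight c (nat_lit 9)) (nat_lit 65408)) (Nat.land (Nat.shiftRight (Nat.shiftRight m (nat_lit 17)) (Nat.land (Nat.shiftRight (Nat.shiftRight m (nat_lit 34)) (Nat.land (Nat.shiftRight (Nat.shiftRight m (Nat.land (Nat.shiftRight c (nat_lit 9)) (nat_lit 65408))) (nat_lit 17)) (nat_lit 0x1ffff))) (nat_lit 0x1ffff))) (nat_lit 0x1ffff)))) (nat_lit 34))) (Nat.add (Nat.add nd (Nat.xor (Nat.land (Nat.shiftRight m (Nat.land (Nat.shiftRight c (nat_lit 9)) (nat_lit 65408))) (nat_lit 0xf7fffc00007fffc00000000)) (nat_lit 0xf7fffc00000000000000000))) (Nat.xor (Nat.land (Nat.shiftRight m (Nat.land (Nat.shiftRight (Nat.shiftRight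 m (nat_lit 17)) (Nat.land (Nat.shiftRight (Nat.shiftRight m (nat_lit 34)) (Nat.land (Nat.shiftRight (Nat.shiftRight m (Nat.land (Nat.shiftRight c (nat_lit 9)) (nat_lit 65408))) (nat_lit 17)) (nat_lit 0x1ffff))) (nat_lit 0x1ffff))) (nat_lit 0x1ffff))) (nat_lit 0x80000000007fffc00000000)) (nat_lit 0x80000000000000000000000))) e (Nat.shiftRight c (nat_lit 25)))⟩) (Nat.shiftRight k (nat_lit 15)))

def oJn3 (k : ℕ) : Op :=
  (@Nat.rec (fun _ => Op) ⟨fun ih lim m nd e c => (ih.1 lim (Nat.lor (Nat.lor m (Nat.shiftLeft (Nat.lor (Nat.shiftLeft (Nat.land (Nat.shiftRight (Nat.shiftRight m (nat_lit 17)) (Nat.land (Nat.shiftRight (Nat.shiftRight m (nat_lit 34)) (Nat.land (Nat.shiftRight (Nat.shiftRight m (nat_lit 17)) (Nat.land (Nat.shiftRight (Nat.shiftRight m (nat_lit 34)) (Nat.land (Nat.shiftRight (Nat.shiftRight m (Nat.land (Nat.shiftRight c (nat_lit 9)) (nat_lit 65408))) (nat_lit 17)) (nat_lit 0x1ffff)))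 (nat_lit 0x1ffff))) (nat_lit 0x1ffff))) (nat_lit 0x1ffff))) (nat_lit 0x1ffff)) (Nat.land (Nat.shiftRight c (nat_lit 9)) (nat_lit 65408))) (Nat.shiftLeft (Nat.land (Nat.shiftRight c (nat_lit 9)) (nat_lit 65408)) (Nat.land (Nat.shiftRight (Nat.shiftRight m (nat_lit 17)) (Nat.land (Nat.shiftRight (Nat.shiftRight m (nat_lit 34)) (Nat.land (Nat.shiftRight (Nat.shiftRight m (nat_lit 17)) (Nat.land (Nat.shiftRight (Nat.shiftRight m (nat_lit 34)) (Nat.land (Nat.shiftRight (Nat.shiftRight m (Nat.land (Nat.shiftRight c (nat_lit 9)) (nat_lit 65408))) (nat_lit 17)) (nat_lit 0x1ffff))) (nat_lit 0x1ffff))) (nat_lit 0x1ffff))) (nat_lit 0x1ffff))) (nat_lit 0x1ffff)))) (nat_lit 34))) (Nat.mul ((mskF k).1 (Nat.lor m (Nat.shiftLeft (Nat.lor (Nat.shiftLeft (Nat.land (Nat.shiftRight (Nat.shiftRight m (nat_lit 17)) (Nat.land (Nat.shiftRight (Nat.shiftRight m (nat_lit 34)) (Nat.land (Nat.shiftRight (Nat.shiftRight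 m (nat_lit 17)) (Nat.land (Nat.shiftRight (Nat.shiftRight m (nat_lit 34)) (Nat.land (Nat.shiftRight (Nat.shiftRight m (Nat.land (Nat.shiftRight c (nat_lit 9)) (nat_lit 65408))) (nat_lit 17)) (nat_lit 0x1ffff))) (nat_lit 0x1ffff))) (nat_lit 0x1ffff))) (nat_lit 0x1ffff))) (nat_lit 0x1ffff)) (Nat.land (Nat.shiftRight c (nat_lit 9)) (nat_lit 65408))) (Nat.shiftLeft (Nat.land (Nat.shiftRight c (nat_lit 9)) (nat_lit 65408)) (Nat.land (Nat.shiftRight (Nat.shiftRight m (nat_lit 17)) (Nat.land (Nat.shiftRight (Nat.shiftRight m (nat_lit 34)) (Nat.land (Nat.shiftRight (Nat.shiftRight m (nat_lit 17)) (Nat.land (Nat.shiftRight (Nat.shiftRight m (nat_lit 34)) (Nat.land (Nat.shiftRight (Nat.shiftRight m (Nat.land (Nat.shiftRight c (nat_lit 9)) (nat_lit 65408))) (nat_lit 17)) (nat_lit 0x1ffff))) (nat_lit 0x1ffff))) (nat_lit 0x1ffff))) (nat_lit 0x1ffff))) (nat_lit 0x1ffff)))) (nat_lit 34))) (Nat.land (Nat.shiftRight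 (Nat.shiftRight m (nat_lit 17)) (Nat.land (Nat.shiftRight (Nat.shiftRight m (nat_lit 34)) (Nat.land (Nat.shiftRight (Nat.shiftRight m (nat_lit 17)) (Nat.land (Nat.shiftRight (Nat.shiftRight m (nat_lit 34)) (Nat.land (Nat.shiftRight (Nat.shiftRight m (Nat.land (Nat.shiftRight c (nat_lit 9)) (nat_lit 65408))) (nat_lit 17)) (nat_lit 0x1ffff))) (nat_lit 0x1ffff))) (nat_lit 0x1ffff))) (nat_lit 0x1ffff))) (nat_lit 0x1ffff))) (Nat.land (Nat.lor (Nat.shiftRight m (Nat.land (Nat.shiftRight (Nat.shiftRight m (nat_lit 17)) (Nat.land (Nat.shiftRight (Nat.shiftRight m (nat_lit 34)) (Nat.land (Nat.shiftRight (Nat.shiftRight m (nat_lit 17)) (Nat.land (Nat.shiftRight (Nat.shiftRight m (nat_lit 34)) (Nat.land (Nat.shiftRight (Nat.shiftRight m (Nat.land (Nat.shiftRight c (nat_lit 9)) (nat_lit 65408))) (nat_lit 17)) (nat_lit 0x1ffff))) (nat_lit 0x1ffff))) (nat_lit 0x1ffff))) (nat_lit 0x1ffff))) (nat_lit 0x1ffff)))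 (Nat.shiftRight m (Nat.land (Nat.shiftRight m (Nat.land (Nat.shiftRight c (nat_lit 9)) (nat_lit 65408))) (nat_lit 0x1ffff)))) (nat_lit 0xfffffc00000000000000000)))) (Nat.add (Nat.add nd (Nat.xor (Nat.land (Nat.shiftRight m (Nat.land (Nat.shiftRight c (nat_lit 9)) (nat_lit 65408))) (nat_lit 0xeffffc00007fffc00000000)) (nat_lit 0xeffffc00000000000000000))) (Nat.xor (Nat.land (Nat.shiftRight m (Nat.land (Nat.shiftRight (Nat.shiftRight m (nat_lit 17)) (Nat.land (Nat.shiftRight (Nat.shiftRight m (nat_lit 34)) (Nat.land (Nat.shiftRight (Nat.shiftRight m (nat_lit 17)) (Nat.land (Nat.shiftRight (Nat.shiftRight m (nat_lit 34)) (Nat.land (Nat.shiftRight (Nat.shiftRight m (Nat.land (Nat.shiftRight c (nat_lit 9)) (nat_lit 65408))) (nat_lit 17)) (nat_lit 0x1ffff))) (nat_lit 0x1ffff))) (nat_lit 0x1ffff))) (nat_lit 0x1ffff))) (nat_lit 0x1ffff))) (nat_lit 0x80000000007fffc00000000)) (nat_lit 0x80000000000000000000000)))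 e (Nat.shiftRight c (nat_lit 25)))⟩ (fun _ _ => ⟨fun ih lim m nd e c => (ih.1 lim (Nat.lor m (Nat.shiftLeft (Nat.lor (Nat.shiftLeft (Nat.land (Nat.shiftRight (Nat.shiftRight m (nat_lit 17)) (Nat.land (Nat.shiftRight (Nat.shiftRight m (nat_lit 34)) (Nat.land (Nat.shiftRight (Nat.shiftRight m (nat_lit 17)) (Nat.land (Nat.shiftRight (Nat.shiftRight m (nat_lit 34)) (Nat.land (Nat.shiftRight (Nat.shiftRight m (Nat.land (Nat.shiftRight c (nat_lit 9)) (nat_lit 65408))) (nat_lit 17)) (nat_lit 0x1ffff))) (nat_lit 0x1ffff))) (nat_lit 0x1ffff))) (nat_lit 0x1ffff))) (nat_lit 0x1ffff)) (Nat.land (Nat.shiftRight c (nat_lit 9)) (nat_lit 65408))) (Nat.shiftLeft (Nat.land (Nat.shiftRight c (nat_lit 9)) (nat_lit 65408)) (Nat.land (Nat.shiftRight (Nat.shiftRight m (nat_lit 17)) (Nat.land (Nat.shiftRight (Nat.shiftRight m (nat_lit 34)) (Nat.land (Nat.shiftRight (Nat.shiftRight m (nat_lit 17)) (Nat.land (Nat.shiftRight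 (Nat.shiftRight m (nat_lit 34)) (Nat.land (Nat.shiftRight (Nat.shiftRight m (Nat.land (Nat.shiftRight c (nat_lit 9)) (nat_lit 65408))) (nat_lit 17)) (nat_lit 0x1ffff))) (nat_lit 0x1ffff))) (nat_lit 0x1ffff))) (nat_lit 0x1ffff))) (nat_lit 0x1ffff)))) (nat_lit 34))) (Nat.add (Nat.add nd (Nat.xor (Nat.land (Nat.shiftRight m (Nat.land (Nat.shiftRight c (nat_lit 9)) (nat_lit 65408))) (nat_lit 0xeffffc00007fffc00000000)) (nat_lit 0xeffffc00000000000000000))) (Nat.xor (Nat.land (Nat.shiftRight m (Nat.land (Nat.shiftRight (Nat.shiftRight m (nat_lit 17)) (Nat.land (Nat.shiftRight (Nat.shiftRight m (nat_lit 34)) (Nat.land (Nat.shiftRight (Nat.shiftRight m (nat_lit 17)) (Nat.land (Nat.shiftRight (Nat.shiftRight m (nat_lit 34)) (Nat.land (Nat.shiftRight (Nat.shiftRight m (Nat.land (Nat.shiftRight c (nat_lit 9)) (nat_lit 65408))) (nat_lit 17)) (nat_lit 0x1ffff))) (nat_lit 0x1ffff))) (nat_lit 0x1ffff))) (nat_lit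 0x1ffff))) (nat_lit 0x1ffff))) (nat_lit 0x80000000007fffc00000000)) (nat_lit 0x80000000000000000000000))) e (Nat.shiftRight c (nat_lit 25)))⟩) (Nat.shiftRight k (nat_lit 15)))

def oJn4 (k : ℕ) : Op :=
  (@Nat.rec (fun _ => Op) ⟨fun ih lim m nd e c => (ih.1 lim (Nat.lor (Nat.lor m (Nat.shiftLeft (Nat.lor (Nat.shiftLeft (Nat.land (Nat.shiftRight (Nat.shiftRight m (nat_lit 17)) (Nat.land (Nat.shiftRight (Nat.shiftRight m (nat_lit 34)) (Nat.land (Nat.shiftRight (Nat.shiftRight m (nat_lit 17)) (Nat.land (Nat.shiftRight (Nat.shiftRight m (nat_lit 34)) (Nat.land (Nat.shiftRight (Nat.shiftRight m (nat_lit 17)) (Nat.land (Nat.shiftRight (Nat.shiftRight m (nat_lit 34)) (Nat.land (Nat.shiftRight (Nat.shiftRight m (Nat.land (Nat.shiftRight c (nat_lit 9)) (nat_lit 65408))) (nat_lit 17)) (nat_lit 0x1ffff))) (nat_lit 0x1ffff))) (nat_lit 0x1ffff))) (nat_lit 0x1ffff))) (nat_lit 0x1ffff))) (nat_lit 0x1ffff)))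 (nat_lit 0x1ffff)) (Nat.land (Nat.shiftRight c (nat_lit 9)) (nat_lit 65408))) (Nat.shiftLeft (Nat.land (Nat.shiftRight c (nat_lit 9)) (nat_lit 65408)) (Nat.land (Nat.shiftRight (Nat.shiftRight m (nat_lit 17)) (Nat.land (Nat.shiftRight (Nat.shiftRight m (nat_lit 34)) (Nat.land (Nat.shiftRight (Nat.shiftRight m (nat_lit 17)) (Nat.land (Nat.shiftRight (Nat.shiftRight m (nat_lit 34)) (Nat.land (Nat.shiftRight (Nat.shiftRight m (nat_lit 17)) (Nat.land (Nat.shiftRight (Nat.shiftRight m (nat_lit 34)) (Nat.land (Nat.shiftRight (Nat.shiftRight m (Nat.land (Nat.shiftRight c (nat_lit 9)) (nat_lit 65408))) (nat_lit 17)) (nat_lit 0x1ffff))) (nat_lit 0x1ffff))) (nat_lit 0x1ffff))) (nat_lit 0x1ffff))) (nat_lit 0x1ffff))) (nat_lit 0x1ffff))) (nat_lit 0x1ffff)))) (nat_lit 34))) (Nat.mul ((mskF k).1 (Nat.lor m (Nat.shiftLeft (Nat.lor (Nat.shiftLeft (Nat.land (Nat.shiftRight (Nat.shiftRight m (nat_lit 17)) (Nat.land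 (Nat.shiftRight (Nat.shiftRight m (nat_lit 34)) (Nat.land (Nat.shiftRight (Nat.shiftRight m (nat_lit 17)) (Nat.land (Nat.shiftRight (Nat.shiftRight m (nat_lit 34)) (Nat.land (Nat.shiftRight (Nat.shiftRight m (nat_lit 17)) (Nat.land (Nat.shiftRight (Nat.shiftRight m (nat_lit 34)) (Nat.land (Nat.shiftRight (Nat.shiftRight m (Nat.land (Nat.shiftRight c (nat_lit 9)) (nat_lit 65408))) (nat_lit 17)) (nat_lit 0x1ffff))) (nat_lit 0x1ffff))) (nat_lit 0x1ffff))) (nat_lit 0x1ffff))) (nat_lit 0x1ffff))) (nat_lit 0x1ffff))) (nat_lit 0x1ffff)) (Nat.land (Nat.shiftRight c (nat_lit 9)) (nat_lit 65408))) (Nat.shiftLeft (Nat.land (Nat.shiftRight c (nat_lit 9)) (nat_lit 65408)) (Nat.land (Nat.shiftRight (Nat.shiftRight m (nat_lit 17)) (Nat.land (Nat.shiftRight (Nat.shiftRight m (nat_lit 34)) (Nat.land (Nat.shiftRight (Nat.shiftRight m (nat_lit 17)) (Nat.land (Nat.shiftRight (Nat.shiftRight m (nat_lit 34)) (Nat.land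 (Nat.shiftRight (Nat.shiftRight m (nat_lit 17)) (Nat.land (Nat.shiftRight (Nat.shiftRight m (nat_lit 34)) (Nat.land (Nat.shiftRight (Nat.shiftRight m (Nat.land (Nat.shiftRight c (nat_lit 9)) (nat_lit 65408))) (nat_lit 17)) (nat_lit 0x1ffff))) (nat_lit 0x1ffff))) (nat_lit 0x1ffff))) (nat_lit 0x1ffff))) (nat_lit 0x1ffff))) (nat_lit 0x1ffff))) (nat_lit 0x1ffff)))) (nat_lit 34))) (Nat.land (Nat.shiftRight (Nat.shiftRight m (nat_lit 17)) (Nat.land (Nat.shiftRight (Nat.shiftRight m (nat_lit 34)) (Nat.land (Nat.shiftRight (Nat.shiftRight m (nat_lit 17)) (Nat.land (Nat.shiftRight (Nat.shiftRight m (nat_lit 34)) (Nat.land (Nat.shiftRight (Nat.shiftRight m (nat_lit 17)) (Nat.land (Nat.shiftRight (Nat.shiftRight m (nat_lit 34)) (Nat.land (Nat.shiftRight (Nat.shiftRight m (Nat.land (Nat.shiftRight c (nat_lit 9)) (nat_lit 65408))) (nat_lit 17)) (nat_lit 0x1ffff))) (nat_lit 0x1ffff))) (nat_lit 0x1ffff))) (nat_lit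 0x1ffff))) (nat_lit 0x1ffff))) (nat_lit 0x1ffff))) (nat_lit 0x1ffff))) (Nat.land (Nat.lor (Nat.shiftRight m (Nat.land (Nat.shiftRight (Nat.shiftRight m (nat_lit 17)) (Nat.land (Nat.shiftRight (Nat.shiftRight m (nat_lit 34)) (Nat.land (Nat.shiftRight (Nat.shiftRight m (nat_lit 17)) (Nat.land (Nat.shiftRight (Nat.shiftRight m (nat_lit 34)) (Nat.land (Nat.shiftRight (Nat.shiftRight m (nat_lit 17)) (Nat.land (Nat.shiftRight (Nat.shiftRight m (nat_lit 34)) (Nat.land (Nat.shiftRight (Nat.shiftRight m (Nat.land (Nat.shiftRight c (nat_lit 9)) (nat_lit 65408))) (nat_lit 17)) (nat_lit 0x1ffff))) (nat_lit 0x1ffff))) (nat_lit 0x1ffff))) (nat_lit 0x1ffff))) (nat_lit 0x1ffff))) (nat_lit 0x1ffff))) (nat_lit 0x1ffff))) (Nat.shiftRight m (Nat.land (Nat.shiftRight m (Nat.land (Nat.shiftRight c (nat_lit 9)) (nat_lit 65408))) (nat_lit 0x1ffff)))) (nat_lit 0xfffffc00000000000000000)))) (Nat.add (Nat.add nd (Nat.xor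 (Nat.land (Nat.shiftRight m (Nat.land (Nat.shiftRight c (nat_lit 9)) (nat_lit 65408))) (nat_lit 0xdffffc00007fffc00000000)) (nat_lit 0xdffffc00000000000000000))) (Nat.xor (Nat.land (Nat.shiftRight m (Nat.land (Nat.shiftRight (Nat.shiftRight m (nat_lit 17)) (Nat.land (Nat.shiftRight (Nat.shiftRight m (nat_lit 34)) (Nat.land (Nat.shiftRight (Nat.shiftRight m (nat_lit 17)) (Nat.land (Nat.shiftRight (Nat.shiftRight m (nat_lit 34)) (Nat.land (Nat.shiftRight (Nat.shiftRight m (nat_lit 17)) (Nat.land (Nat.shiftRight (Nat.shiftRight m (nat_lit 34)) (Nat.land (Nat.shiftRight (Nat.shiftRight m (Nat.land (Nat.shiftRight c (nat_lit 9)) (nat_lit 65408))) (nat_lit 17)) (nat_lit 0x1ffff))) (nat_lit 0x1ffff))) (nat_lit 0x1ffff))) (nat_lit 0x1ffff))) (nat_lit 0x1ffff))) (nat_lit 0x1ffff))) (nat_lit 0x1ffff))) (nat_lit 0x80000000007fffc00000000)) (nat_lit 0x80000000000000000000000))) e (Nat.shiftRight c (nat_lit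 25)))⟩ (fun _ _ => ⟨fun ih lim m nd e c => (ih.1 lim (Nat.lor m (Nat.shiftLeft (Nat.lor (Nat.shiftLeft (Nat.land (Nat.shiftRight (Nat.shiftRight m (nat_lit 17)) (Nat.land (Nat.shiftRight (Nat.shiftRight m (nat_lit 34)) (Nat.land (Nat.shiftRight (Nat.shiftRight m (nat_lit 17)) (Nat.land (Nat.shiftRight (Nat.shiftRight m (nat_lit 34)) (Nat.land (Nat.shiftRight (Nat.shiftRight m (nat_lit 17)) (Nat.land (Nat.shiftRight (Nat.shiftRight m (nat_lit 34)) (Nat.land (Nat.shiftRight (Nat.shiftRight m (Nat.land (Nat.shiftRight c (nat_lit 9)) (nat_lit 65408))) (nat_lit 17)) (nat_lit 0x1ffff))) (nat_lit 0x1ffff))) (nat_lit 0x1ffff))) (nat_lit 0x1ffff))) (nat_lit 0x1ffff))) (nat_lit 0x1ffff))) (nat_lit 0x1ffff)) (Nat.land (Nat.shiftRight c (nat_lit 9)) (nat_lit 65408))) (Nat.shiftLeft (Nat.land (Nat.shiftRight c (nat_lit 9)) (nat_lit 65408)) (Nat.land (Nat.shiftRight (Nat.shiftRight m (nat_lit 17)) (Nat.land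 (Nat.shiftRight (Nat.shiftRight m (nat_lit 34)) (Nat.land (Nat.shiftRight (Nat.shiftRight m (nat_lit 17)) (Nat.land (Nat.shiftRight (Nat.shiftRight m (nat_lit 34)) (Nat.land (Nat.shiftRight (Nat.shiftRight m (nat_lit 17)) (Nat.land (Nat.shiftRight (Nat.shiftRight m (nat_lit 34)) (Nat.land (Nat.shiftRight (Nat.shiftRight m (Nat.land (Nat.shiftRight c (nat_lit 9)) (nat_lit 65408))) (nat_lit 17)) (nat_lit 0x1ffff))) (nat_lit 0x1ffff))) (nat_lit 0x1ffff))) (nat_lit 0x1ffff))) (nat_lit 0x1ffff))) (nat_lit 0x1ffff))) (nat_lit 0x1ffff)))) (nat_lit 34))) (Nat.add (Nat.add nd (Nat.xor (Nat.land (Nat.shiftRight m (Nat.land (Nat.shiftRight c (nat_lit 9)) (nat_lit 65408))) (nat_lit 0xdffffc00007fffc00000000)) (nat_lit 0xdffffc00000000000000000))) (Nat.xor (Nat.land (Nat.shiftRight m (Nat.land (Nat.shiftRight (Nat.shiftRight m (nat_lit 17)) (Nat.land (Nat.shiftRight (Nat.shiftRight m (nat_lit 34)) (Nat.land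 (Nat.shiftRight (Nat.shiftRight m (nat_lit 17)) (Nat.land (Nat.shiftRight (Nat.shiftRight m (nat_lit 34)) (Nat.land (Nat.shiftRight (Nat.shiftRight m (nat_lit 17)) (Nat.land (Nat.shiftRight (Nat.shiftRight m (nat_lit 34)) (Nat.land (Nat.shiftRight (Nat.shiftRight m (Nat.land (Nat.shiftRight c (nat_lit 9)) (nat_lit 65408))) (nat_lit 17)) (nat_lit 0x1ffff))) (nat_lit 0x1ffff))) (nat_lit 0x1ffff))) (nat_lit 0x1ffff))) (nat_lit 0x1ffff))) (nat_lit 0x1ffff))) (nat_lit 0x1ffff))) (nat_lit 0x80000000007fffc00000000)) (nat_lit 0x80000000000000000000000))) e (Nat.shiftRight c (nat_lit 25)))⟩) (Nat.shiftRight k (nat_lit 15)))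

def oJn5 (k : ℕ) : Op :=
  (@Nat.rec (fun _ => Op) ⟨fun ih lim m nd e c => (ih.1 lim (Nat.lor (Nat.lor m (Nat.shiftLeft (Nat.lor (Nat.shiftLeft (Nat.land (Nat.shiftRight (Nat.shiftRight m (nat_lit 17)) (Nat.land (Nat.shiftRight (Nat.shiftRight m (nat_lit 34)) (Nat.land (Nat.shiftRight (Nat.shiftRight m (nat_lit 17)) (Nat.land (Nat.shiftRight (Nat.shiftRight m (nat_lit 34)) (Nat.land (Nat.shiftRight (Nat.shiftRight m (nat_lit 17)) (Nat.land (Nat.shiftRight (Nat.shiftRight m (nat_lit 34)) (Nat.land (Nat.shiftRight (Nat.shiftRight m (nat_lit 17)) (Nat.land (Nat.shiftRight (Nat.shiftRight m (nat_lit 34)) (Nat.land (Nat.shiftRight (Nat.shiftRight m (Nat.land (Nat.shiftRight c (nat_lit 9)) (nat_lit 65408))) (nat_lit 17)) (nat_lit 0x1ffff))) (nat_lit 0x1ffff))) (nat_lit 0x1ffff))) (nat_lit 0x1ffff))) (nat_lit 0x1ffff))) (nat_lit 0x1ffff))) (nat_lit 0x1ffff))) (nat_lit 0x1ffff))) (nat_lit 0x1ffff))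 (Nat.land (Nat.shiftRight c (nat_lit 9)) (nat_lit 65408))) (Nat.shiftLeft (Nat.land (Nat.shiftRight c (nat_lit 9)) (nat_lit 65408)) (Nat.land (Nat.shiftRight (Nat.shiftRight m (nat_lit 17)) (Nat.land (Nat.shiftRight (Nat.shiftRight m (nat_lit 34)) (Nat.land (Nat.shiftRight (Nat.shiftRight m (nat_lit 17)) (Nat.land (Nat.shiftRight (Nat.shiftRight m (nat_lit 34)) (Nat.land (Nat.shiftRight (Nat.shiftRight m (nat_lit 17)) (Nat.land (Nat.shiftRight (Nat.shiftRight m (nat_lit 34)) (Nat.land (Nat.shiftRight (Nat.shiftRight m (nat_lit 17)) (Nat.land (Nat.shiftRight (Nat.shiftRight m (nat_lit 34)) (Nat.land (Nat.shiftRight (Nat.shiftRight m (Nat.land (Nat.shiftRight c (nat_lit 9)) (nat_lit 65408))) (nat_lit 17)) (nat_lit 0x1ffff))) (nat_lit 0x1ffff))) (nat_lit 0x1ffff))) (nat_lit 0x1ffff))) (nat_lit 0x1ffff))) (nat_lit 0x1ffff))) (nat_lit 0x1ffff))) (nat_lit 0x1ffff))) (nat_lit 0x1ffff)))) (nat_lit 34)))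 (Nat.mul ((mskF k).1 (Nat.lor m (Nat.shiftLeft (Nat.lor (Nat.shiftLeft (Nat.land (Nat.shiftRight (Nat.shiftRight m (nat_lit 17)) (Nat.land (Nat.shiftRight (Nat.shiftRight m (nat_lit 34)) (Nat.land (Nat.shiftRight (Nat.shiftRight m (nat_lit 17)) (Nat.land (Nat.shiftRight (Nat.shiftRight m (nat_lit 34)) (Nat.land (Nat.shiftRight (Nat.shiftRight m (nat_lit 17)) (Nat.land (Nat.shiftRight (Nat.shiftRight m (nat_lit 34)) (Nat.land (Nat.shiftRight (Nat.shiftRight m (nat_lit 17)) (Nat.land (Nat.shiftRight (Nat.shiftRight m (nat_lit 34)) (Nat.land (Nat.shiftRight (Nat.shiftRight m (Nat.land (Nat.shiftRight c (nat_lit 9)) (nat_lit 65408))) (nat_lit 17)) (nat_lit 0x1ffff))) (nat_lit 0x1ffff))) (nat_lit 0x1ffff))) (nat_lit 0x1ffff))) (nat_lit 0x1ffff))) (nat_lit 0x1ffff))) (nat_lit 0x1ffff))) (nat_lit 0x1ffff))) (nat_lit 0x1ffff)) (Nat.land (Nat.shiftRight c (nat_lit 9)) (nat_lit 65408))) (Nat.shiftLeft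 (Nat.land (Nat.shiftRight c (nat_lit 9)) (nat_lit 65408)) (Nat.land (Nat.shiftRight (Nat.shiftRight m (nat_lit 17)) (Nat.land (Nat.shiftRight (Nat.shiftRight m (nat_lit 34)) (Nat.land (Nat.shiftRight (Nat.shiftRight m (nat_lit 17)) (Nat.land (Nat.shiftRight (Nat.shiftRight m (nat_lit 34)) (Nat.land (Nat.shiftRight (Nat.shiftRight m (nat_lit 17)) (Nat.land (Nat.shiftRight (Nat.shiftRight m (nat_lit 34)) (Nat.land (Nat.shiftRight (Nat.shiftRight m (nat_lit 17)) (Nat.land (Nat.shiftRight (Nat.shiftRight m (nat_lit 34)) (Nat.land (Nat.shiftRight (Nat.shiftRight m (Nat.land (Nat.shiftRight c (nat_lit 9)) (nat_lit 65408))) (nat_lit 17)) (nat_lit 0x1ffff))) (nat_lit 0x1ffff))) (nat_lit 0x1ffff))) (nat_lit 0x1ffff))) (nat_lit 0x1ffff))) (nat_lit 0x1ffff))) (nat_lit 0x1ffff))) (nat_lit 0x1ffff))) (nat_lit 0x1ffff)))) (nat_lit 34))) (Nat.land (Nat.shiftRight (Nat.shiftRight m (nat_lit 17)) (Nat.land (Nat.shiftRight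 (Nat.shiftRight m (nat_lit 34)) (Nat.land (Nat.shiftRight (Nat.shiftRight m (nat_lit 17)) (Nat.land (Nat.shiftRight (Nat.shiftRight m (nat_lit 34)) (Nat.land (Nat.shiftRight (Nat.shiftRight m (nat_lit 17)) (Nat.land (Nat.shiftRight (Nat.shiftRight m (nat_lit 34)) (Nat.land (Nat.shiftRight (Nat.shiftRight m (nat_lit 17)) (Nat.land (Nat.shiftRight (Nat.shiftRight m (nat_lit 34)) (Nat.land (Nat.shiftRight (Nat.shiftRight m (Nat.land (Nat.shiftRight c (nat_lit 9)) (nat_lit 65408))) (nat_lit 17)) (nat_lit 0x1ffff))) (nat_lit 0x1ffff))) (nat_lit 0x1ffff))) (nat_lit 0x1ffff))) (nat_lit 0x1ffff))) (nat_lit 0x1ffff))) (nat_lit 0x1ffff))) (nat_lit 0x1ffff))) (nat_lit 0x1ffff))) (Nat.land (Nat.lor (Nat.shiftRight m (Nat.land (Nat.shiftRight (Nat.shiftRight m (nat_lit 17)) (Nat.land (Nat.shiftRight (Nat.shiftRight m (nat_lit 34)) (Nat.land (Nat.shiftRight (Nat.shiftRight m (nat_lit 17)) (Nat.land (Nat.shiftRight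 (Nat.shiftRight m (nat_lit 34)) (Nat.land (Nat.shiftRight (Nat.shiftRight m (nat_lit 17)) (Nat.land (Nat.shiftRight (Nat.shiftRight m (nat_lit 34)) (Nat.land (Nat.shiftRight (Nat.shiftRight m (nat_lit 17)) (Nat.land (Nat.shiftRight (Nat.shiftRight m (nat_lit 34)) (Nat.land (Nat.shiftRight (Nat.shiftRight m (Nat.land (Nat.shiftRight c (nat_lit 9)) (nat_lit 65408))) (nat_lit 17)) (nat_lit 0x1ffff))) (nat_lit 0x1ffff))) (nat_lit 0x1ffff))) (nat_lit 0x1ffff))) (nat_lit 0x1ffff))) (nat_lit 0x1ffff))) (nat_lit 0x1ffff))) (nat_lit 0x1ffff))) (nat_lit 0x1ffff))) (Nat.shiftRight m (Nat.land (Nat.shiftRight m (Nat.land (Nat.shiftRight c (nat_lit 9)) (nat_lit 65408))) (nat_lit 0x1ffff)))) (nat_lit 0xfffffc00000000000000000)))) (Nat.add (Nat.add nd (Nat.xor (Nat.land (Nat.shiftRight m (Nat.land (Nat.shiftRight c (nat_lit 9)) (nat_lit 65408))) (nat_lit 0xbffff800007fffc00000000)) (nat_lit 0xbffff800000000000000000)))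 (Nat.xor (Nat.land (Nat.shiftRight m (Nat.land (Nat.shiftRight (Nat.shiftRight m (nat_lit 17)) (Nat.land (Nat.shiftRight (Nat.shiftRight m (nat_lit 34)) (Nat.land (Nat.shiftRight (Nat.shiftRight m (nat_lit 17)) (Nat.land (Nat.shiftRight (Nat.shiftRight m (nat_lit 34)) (Nat.land (Nat.shiftRight (Nat.shiftRight m (nat_lit 17)) (Nat.land (Nat.shiftRight (Nat.shiftRight m (nat_lit 34)) (Nat.land (Nat.shiftRight (Nat.shiftRight m (nat_lit 17)) (Nat.land (Nat.shiftRight (Nat.shiftRight m (nat_lit 34)) (Nat.land (Nat.shiftRight (Nat.shiftRight m (Nat.land (Nat.shiftRight c (nat_lit 9)) (nat_lit 65408))) (nat_lit 17)) (nat_lit 0x1ffff))) (nat_lit 0x1ffff))) (nat_lit 0x1ffff))) (nat_lit 0x1ffff))) (nat_lit 0x1ffff))) (nat_lit 0x1ffff))) (nat_lit 0x1ffff))) (nat_lit 0x1ffff))) (nat_lit 0x1ffff))) (nat_lit 0x80000000007fffc00000000)) (nat_lit 0x80000000000000000000000))) e (Nat.shiftRight c (nat_lit 25)))⟩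 (fun _ _ => ⟨fun ih lim m nd e c => (ih.1 lim (Nat.lor m (Nat.shiftLeft (Nat.lor (Nat.shiftLeft (Nat.land (Nat.shiftRight (Nat.shiftRight m (nat_lit 17)) (Nat.land (Nat.shiftRight (Nat.shiftRight m (nat_lit 34)) (Nat.land (Nat.shiftRight (Nat.shiftRight m (nat_lit 17)) (Nat.land (Nat.shiftRight (Nat.shiftRight m (nat_lit 34)) (Nat.land (Nat.shiftRight (Nat.shiftRight m (nat_lit 17)) (Nat.land (Nat.shiftRight (Nat.shiftRight m (nat_lit 34)) (Nat.land (Nat.shiftRight (Nat.shiftRight m (nat_lit 17)) (Nat.land (Nat.shiftRight (Nat.shiftRight m (nat_lit 34)) (Nat.land (Nat.shiftRight (Nat.shiftRight m (Nat.land (Nat.shiftRight c (nat_lit 9)) (nat_lit 65408))) (nat_lit 17)) (nat_lit 0x1ffff))) (nat_lit 0x1ffff))) (nat_lit 0x1ffff))) (nat_lit 0x1ffff))) (nat_lit 0x1ffff))) (nat_lit 0x1ffff))) (nat_lit 0x1ffff))) (nat_lit 0x1ffff))) (nat_lit 0x1ffff)) (Nat.land (Nat.shiftRight c (nat_lit 9)) (nat_lit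 65408))) (Nat.shiftLeft (Nat.land (Nat.shiftRight c (nat_lit 9)) (nat_lit 65408)) (Nat.land (Nat.shiftRight (Nat.shiftRight m (nat_lit 17)) (Nat.land (Nat.shiftRight (Nat.shiftRight m (nat_lit 34)) (Nat.land (Nat.shiftRight (Nat.shiftRight m (nat_lit 17)) (Nat.land (Nat.shiftRight (Nat.shiftRight m (nat_lit 34)) (Nat.land (Nat.shiftRight (Nat.shiftRight m (nat_lit 17)) (Nat.land (Nat.shiftRight (Nat.shiftRight m (nat_lit 34)) (Nat.land (Nat.shiftRight (Nat.shiftRight m (nat_lit 17)) (Nat.land (Nat.shiftRight (Nat.shiftRight m (nat_lit 34)) (Nat.land (Nat.shiftRight (Nat.shiftRight m (Nat.land (Nat.shiftRight c (nat_lit 9)) (nat_lit 65408))) (nat_lit 17)) (nat_lit 0x1ffff))) (nat_lit 0x1ffff))) (nat_lit 0x1ffff))) (nat_lit 0x1ffff))) (nat_lit 0x1ffff))) (nat_lit 0x1ffff))) (nat_lit 0x1ffff))) (nat_lit 0x1ffff))) (nat_lit 0x1ffff)))) (nat_lit 34))) (Nat.add (Nat.add nd (Nat.xor (Nat.land (Nat.shiftRight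 m (Nat.land (Nat.shiftRight c (nat_lit 9)) (nat_lit 65408))) (nat_lit 0xbffff800007fffc00000000)) (nat_lit 0xbffff800000000000000000))) (Nat.xor (Nat.land (Nat.shiftRight m (Nat.land (Nat.shiftRight (Nat.shiftRight m (nat_lit 17)) (Nat.land (Nat.shiftRight (Nat.shiftRight m (nat_lit 34)) (Nat.land (Nat.shiftRight (Nat.shiftRight m (nat_lit 17)) (Nat.land (Nat.shiftRight (Nat.shiftRight m (nat_lit 34)) (Nat.land (Nat.shiftRight (Nat.shiftRight m (nat_lit 17)) (Nat.land (Nat.shiftRight (Nat.shiftRight m (nat_lit 34)) (Nat.land (Nat.shiftRight (Nat.shiftRight m (nat_lit 17)) (Nat.land (Nat.shiftRight (Nat.shiftRight m (nat_lit 34)) (Nat.land (Nat.shiftRight (Nat.shiftRight m (Nat.land (Nat.shiftRight c (nat_lit 9)) (nat_lit 65408))) (nat_lit 17)) (nat_lit 0x1ffff))) (nat_lit 0x1ffff))) (nat_lit 0x1ffff))) (nat_lit 0x1ffff))) (nat_lit 0x1ffff))) (nat_lit 0x1ffff))) (nat_lit 0x1ffff))) (nat_lit 0x1ffff)))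 (nat_lit 0x1ffff))) (nat_lit 0x80000000007fffc00000000)) (nat_lit 0x80000000000000000000000))) e (Nat.shiftRight c (nat_lit 25)))⟩) (Nat.shiftRight k (nat_lit 15)))

def oJn6 (k : ℕ) : Op :=
  (@Nat.rec (fun _ => Op) ⟨fun ih lim m nd e c => (ih.1 lim (Nat.lor (Nat.lor m (Nat.shiftLeft (Nat.lor (Nat.shiftLeft (Nat.land (Nat.shiftRight (Nat.shiftRight m (nat_lit 17)) (Nat.land (Nat.shiftRight (Nat.shiftRight m (nat_lit 34)) (Nat.land (Nat.shiftRight (Nat.shiftRight m (nat_lit 17)) (Nat.land (Nat.shiftRight (Nat.shiftRight m (nat_lit 34)) (Nat.land (Nat.shiftRight (Nat.shiftRight m (nat_lit 17)) (Nat.land (Nat.shiftRight (Nat.shiftRight m (nat_lit 34)) (Nat.land (Nat.shiftRight (Nat.shiftRight m (nat_lit 17)) (Nat.land (Nat.shiftRight (Nat.shiftRight m (nat_lit 34)) (Nat.land (Nat.shiftRight (Nat.shiftRight m (nat_lit 17)) (Nat.land (Nat.shiftRight (Nat.shiftRight m (nat_lit 34)) (Nat.land (Nat.shiftRight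 (Nat.shiftRight m (Nat.land (Nat.shiftRight c (nat_lit 9)) (nat_lit 65408))) (nat_lit 17)) (nat_lit 0x1ffff))) (nat_lit 0x1ffff))) (nat_lit 0x1ffff))) (nat_lit 0x1ffff))) (nat_lit 0x1ffff))) (nat_lit 0x1ffff))) (nat_lit 0x1ffff))) (nat_lit 0x1ffff))) (nat_lit 0x1ffff))) (nat_lit 0x1ffff))) (nat_lit 0x1ffff)) (Nat.land (Nat.shiftRight c (nat_lit 9)) (nat_lit 65408))) (Nat.shiftLeft (Nat.land (Nat.shiftRight c (nat_lit 9)) (nat_lit 65408)) (Nat.land (Nat.shiftRight (Nat.shiftRight m (nat_lit 17)) (Nat.land (Nat.shiftRight (Nat.shiftRight m (nat_lit 34)) (Nat.land (Nat.shiftRight (Nat.shiftRight m (nat_lit 17)) (Nat.land (Nat.shiftRight (Nat.shiftRight m (nat_lit 34)) (Nat.land (Nat.shiftRight (Nat.shiftRight m (nat_lit 17)) (Nat.land (Nat.shiftRight (Nat.shiftRight m (nat_lit 34)) (Nat.land (Nat.shiftRight (Nat.shiftRight m (nat_lit 17)) (Nat.land (Nat.shiftRight (Nat.shiftRight m (nat_lit 34))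 (Nat.land (Nat.shiftRight (Nat.shiftRight m (nat_lit 17)) (Nat.land (Nat.shiftRight (Nat.shiftRight m (nat_lit 34)) (Nat.land (Nat.shiftRight (Nat.shiftRight m (Nat.land (Nat.shiftRight c (nat_lit 9)) (nat_lit 65408))) (nat_lit 17)) (nat_lit 0x1ffff))) (nat_lit 0x1ffff))) (nat_lit 0x1ffff))) (nat_lit 0x1ffff))) (nat_lit 0x1ffff))) (nat_lit 0x1ffff))) (nat_lit 0x1ffff))) (nat_lit 0x1ffff))) (nat_lit 0x1ffff))) (nat_lit 0x1ffff))) (nat_lit 0x1ffff)))) (nat_lit 34))) (Nat.mul ((mskF k).1 (Nat.lor m (Nat.shiftLeft (Nat.lor (Nat.shiftLeft (Nat.land (Nat.shiftRight (Nat.shiftRight m (nat_lit 17)) (Nat.land (Nat.shiftRight (Nat.shiftRight m (nat_lit 34)) (Nat.land (Nat.shiftRight (Nat.shiftRight m (nat_lit 17)) (Nat.land (Nat.shiftRight (Nat.shiftRight m (nat_lit 34)) (Nat.land (Nat.shiftRight (Nat.shiftRight m (nat_lit 17)) (Nat.land (Nat.shiftRight (Nat.shiftRight m (nat_lit 34)) (Nat.land (Nat.shiftRight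 (Nat.shiftRight m (nat_lit 17)) (Nat.land (Nat.shiftRight (Nat.shiftRight m (nat_lit 34)) (Nat.land (Nat.shiftRight (Nat.shiftRight m (nat_lit 17)) (Nat.land (Nat.shiftRight (Nat.shiftRight m (nat_lit 34)) (Nat.land (Nat.shiftRight (Nat.shiftRight m (Nat.land (Nat.shiftRight c (nat_lit 9)) (nat_lit 65408))) (nat_lit 17)) (nat_lit 0x1ffff))) (nat_lit 0x1ffff))) (nat_lit 0x1ffff))) (nat_lit 0x1ffff))) (nat_lit 0x1ffff))) (nat_lit 0x1ffff))) (nat_lit 0x1ffff))) (nat_lit 0x1ffff))) (nat_lit 0x1ffff))) (nat_lit 0x1ffff))) (nat_lit 0x1ffff)) (Nat.land (Nat.shiftRight c (nat_lit 9)) (nat_lit 65408))) (Nat.shiftLeft (Nat.land (Nat.shiftRight c (nat_lit 9)) (nat_lit 65408)) (Nat.land (Nat.shiftRight (Nat.shiftRight m (nat_lit 17)) (Nat.land (Nat.shiftRight (Nat.shiftRight m (nat_lit 34)) (Nat.land (Nat.shiftRight (Nat.shiftRight m (nat_lit 17)) (Nat.land (Nat.shiftRight (Nat.shiftRight m (nat_lit 34))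 (Nat.land (Nat.shiftRight (Nat.shiftRight m (nat_lit 17)) (Nat.land (Nat.shiftRight (Nat.shiftRight m (nat_lit 34)) (Nat.land (Nat.shiftRight (Nat.shiftRight m (nat_lit 17)) (Nat.land (Nat.shiftRight (Nat.shiftRight m (nat_lit 34)) (Nat.land (Nat.shiftRight (Nat.shiftRight m (nat_lit 17)) (Nat.land (Nat.shiftRight (Nat.shiftRight m (nat_lit 34)) (Nat.land (Nat.shiftRight (Nat.shiftRight m (Nat.land (Nat.shiftRight c (nat_lit 9)) (nat_lit 65408))) (nat_lit 17)) (nat_lit 0x1ffff))) (nat_lit 0x1ffff))) (nat_lit 0x1ffff))) (nat_lit 0x1ffff))) (nat_lit 0x1ffff))) (nat_lit 0x1ffff))) (nat_lit 0x1ffff))) (nat_lit 0x1ffff))) (nat_lit 0x1ffff))) (nat_lit 0x1ffff))) (nat_lit 0x1ffff)))) (nat_lit 34))) (Nat.land (Nat.shiftRight (Nat.shiftRight m (nat_lit 17)) (Nat.land (Nat.shiftRight (Nat.shiftRight m (nat_lit 34)) (Nat.land (Nat.shiftRight (Nat.shiftRight m (nat_lit 17)) (Nat.land (Nat.shiftRight (Nat.shiftRight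 m (nat_lit 34)) (Nat.land (Nat.shiftRight (Nat.shiftRight m (nat_lit 17)) (Nat.land (Nat.shiftRight (Nat.shiftRight m (nat_lit 34)) (Nat.land (Nat.shiftRight (Nat.shiftRight m (nat_lit 17)) (Nat.land (Nat.shiftRight (Nat.shiftRight m (nat_lit 34)) (Nat.land (Nat.shiftRight (Nat.shiftRight m (nat_lit 17)) (Nat.land (Nat.shiftRight (Nat.shiftRight m (nat_lit 34)) (Nat.land (Nat.shiftRight (Nat.shiftRight m (Nat.land (Nat.shiftRight c (nat_lit 9)) (nat_lit 65408))) (nat_lit 17)) (nat_lit 0x1ffff))) (nat_lit 0x1ffff))) (nat_lit 0x1ffff))) (nat_lit 0x1ffff))) (nat_lit 0x1ffff))) (nat_lit 0x1ffff))) (nat_lit 0x1ffff))) (nat_lit 0x1ffff))) (nat_lit 0x1ffff))) (nat_lit 0x1ffff))) (nat_lit 0x1ffff))) (Nat.land (Nat.lor (Nat.shiftRight m (Nat.land (Nat.shiftRight (Nat.shiftRight m (nat_lit 17)) (Nat.land (Nat.shiftRight (Nat.shiftRight m (nat_lit 34)) (Nat.land (Nat.shiftRight (Nat.shiftRight m (nat_lit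 17)) (Nat.land (Nat.shiftRight (Nat.shiftRight m (nat_lit 34)) (Nat.land (Nat.shiftRight (Nat.shiftRight m (nat_lit 17)) (Nat.land (Nat.shiftRight (Nat.shiftRight m (nat_lit 34)) (Nat.land (Nat.shiftRight (Nat.shiftRight m (nat_lit 17)) (Nat.land (Nat.shiftRight (Nat.shiftRight m (nat_lit 34)) (Nat.land (Nat.shiftRight (Nat.shiftRight m (nat_lit 17)) (Nat.land (Nat.shiftRight (Nat.shiftRight m (nat_lit 34)) (Nat.land (Nat.shiftRight (Nat.shiftRight m (Nat.land (Nat.shiftRight c (nat_lit 9)) (nat_lit 65408))) (nat_lit 17)) (nat_lit 0x1ffff))) (nat_lit 0x1ffff))) (nat_lit 0x1ffff))) (nat_lit 0x1ffff))) (nat_lit 0x1ffff))) (nat_lit 0x1ffff))) (nat_lit 0x1ffff))) (nat_lit 0x1ffff))) (nat_lit 0x1ffff))) (nat_lit 0x1ffff))) (nat_lit 0x1ffff))) (Nat.shiftRight m (Nat.land (Nat.shiftRight m (Nat.land (Nat.shiftRight c (nat_lit 9)) (nat_lit 65408))) (nat_lit 0x1ffff)))) (nat_lit 0xfffffc00000000000000000))))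 (Nat.add (Nat.add nd (Nat.xor (Nat.land (Nat.shiftRight m (Nat.land (Nat.shiftRight c (nat_lit 9)) (nat_lit 65408))) (nat_lit 0xfffff400007fffc00000000)) (nat_lit 0xfffff400000000000000000))) (Nat.xor (Nat.land (Nat.shiftRight m (Nat.land (Nat.shiftRight (Nat.shiftRight m (nat_lit 17)) (Nat.land (Nat.shiftRight (Nat.shiftRight m (nat_lit 34)) (Nat.land (Nat.shiftRight (Nat.shiftRight m (nat_lit 17)) (Nat.land (Nat.shiftRight (Nat.shiftRight m (nat_lit 34)) (Nat.land (Nat.shiftRight (Nat.shiftRight m (nat_lit 17)) (Nat.land (Nat.shiftRight (Nat.shiftRight m (nat_lit 34)) (Nat.land (Nat.shiftRight (Nat.shiftRight m (nat_lit 17)) (Nat.land (Nat.shiftRight (Nat.shiftRight m (nat_lit 34)) (Nat.land (Nat.shiftRight (Nat.shiftRight m (nat_lit 17)) (Nat.land (Nat.shiftRight (Nat.shiftRight m (nat_lit 34)) (Nat.land (Nat.shiftRight (Nat.shiftRight m (Nat.land (Nat.shiftRight c (nat_lit 9)) (nat_lit 65408)))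 (nat_lit 17)) (nat_lit 0x1ffff))) (nat_lit 0x1ffff))) (nat_lit 0x1ffff))) (nat_lit 0x1ffff))) (nat_lit 0x1ffff))) (nat_lit 0x1ffff))) (nat_lit 0x1ffff))) (nat_lit 0x1ffff))) (nat_lit 0x1ffff))) (nat_lit 0x1ffff))) (nat_lit 0x1ffff))) (nat_lit 0x80000000007fffc00000000)) (nat_lit 0x80000000000000000000000))) e (Nat.shiftRight c (nat_lit 25)))⟩ (fun _ _ => ⟨fun ih lim m nd e c => (ih.1 lim (Nat.lor m (Nat.shiftLeft (Nat.lor (Nat.shiftLeft (Nat.land (Nat.shiftRight (Nat.shiftRight m (nat_lit 17)) (Nat.land (Nat.shiftRight (Nat.shiftRight m (nat_lit 34)) (Nat.land (Nat.shiftRight (Nat.shiftRight m (nat_lit 17)) (Nat.land (Nat.shiftRight (Nat.shiftRight m (nat_lit 34)) (Nat.land (Nat.shiftRight (Nat.shiftRight m (nat_lit 17)) (Nat.land (Nat.shiftRight (Nat.shiftRight m (nat_lit 34)) (Nat.land (Nat.shiftRight (Nat.shiftRight m (nat_lit 17)) (Nat.land (Nat.shiftRight (Nat.shiftRight m (nat_lit 34))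 (Nat.land (Nat.shiftRight (Nat.shiftRight m (nat_lit 17)) (Nat.land (Nat.shiftRight (Nat.shiftRight m (nat_lit 34)) (Nat.land (Nat.shiftRight (Nat.shiftRight m (Nat.land (Nat.shiftRight c (nat_lit 9)) (nat_lit 65408))) (nat_lit 17)) (nat_lit 0x1ffff))) (nat_lit 0x1ffff))) (nat_lit 0x1ffff))) (nat_lit 0x1ffff))) (nat_lit 0x1ffff))) (nat_lit 0x1ffff))) (nat_lit 0x1ffff))) (nat_lit 0x1ffff))) (nat_lit 0x1ffff))) (nat_lit 0x1ffff))) (nat_lit 0x1ffff)) (Nat.land (Nat.shiftRight c (nat_lit 9)) (nat_lit 65408))) (Nat.shiftLeft (Nat.land (Nat.shiftRight c (nat_lit 9)) (nat_lit 65408)) (Nat.land (Nat.shiftRight (Nat.shiftRight m (nat_lit 17)) (Nat.land (Nat.shiftRight (Nat.shiftRight m (nat_lit 34)) (Nat.land (Nat.shiftRight (Nat.shiftRight m (nat_lit 17)) (Nat.land (Nat.shiftRight (Nat.shiftRight m (nat_lit 34)) (Nat.land (Nat.shiftRight (Nat.shiftRight m (nat_lit 17)) (Nat.land (Nat.shiftRight (Nat.shiftRight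 m (nat_lit 34)) (Nat.land (Nat.shiftRight (Nat.shiftRight m (nat_lit 17)) (Nat.land (Nat.shiftRight (Nat.shiftRight m (nat_lit 34)) (Nat.land (Nat.shiftRight (Nat.shiftRight m (nat_lit 17)) (Nat.land (Nat.shiftRight (Nat.shiftRight m (nat_lit 34)) (Nat.land (Nat.shiftRight (Nat.shiftRight m (Nat.land (Nat.shiftRight c (nat_lit 9)) (nat_lit 65408))) (nat_lit 17)) (nat_lit 0x1ffff))) (nat_lit 0x1ffff))) (nat_lit 0x1ffff))) (nat_lit 0x1ffff))) (nat_lit 0x1ffff))) (nat_lit 0x1ffff))) (nat_lit 0x1ffff))) (nat_lit 0x1ffff))) (nat_lit 0x1ffff))) (nat_lit 0x1ffff))) (nat_lit 0x1ffff)))) (nat_lit 34))) (Nat.add (Nat.add nd (Nat.xor (Nat.land (Nat.shiftRight m (Nat.land (Nat.shiftRight c (nat_lit 9)) (nat_lit 65408))) (nat_lit 0xfffff400007fffc00000000)) (nat_lit 0xfffff400000000000000000))) (Nat.xor (Nat.land (Nat.shiftRight m (Nat.land (Nat.shiftRight (Nat.shiftRight m (nat_lit 17)) (Nat.land (Nat.shiftRight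 (Nat.shiftRight m (nat_lit 34)) (Nat.land (Nat.shiftRight (Nat.shiftRight m (nat_lit 17)) (Nat.land (Nat.shiftRight (Nat.shiftRight m (nat_lit 34)) (Nat.land (Nat.shiftRight (Nat.shiftRight m (nat_lit 17)) (Nat.land (Nat.shiftRight (Nat.shiftRight m (nat_lit 34)) (Nat.land (Nat.shiftRight (Nat.shiftRight m (nat_lit 17)) (Nat.land (Nat.shiftRight (Nat.shiftRight m (nat_lit 34)) (Nat.land (Nat.shiftRight (Nat.shiftRight m (nat_lit 17)) (Nat.land (Nat.shiftRight (Nat.shiftRight m (nat_lit 34)) (Nat.land (Nat.shiftRight (Nat.shiftRight m (Nat.land (Nat.shiftRight c (nat_lit 9)) (nat_lit 65408))) (nat_lit 17)) (nat_lit 0x1ffff))) (nat_lit 0x1ffff))) (nat_lit 0x1ffff))) (nat_lit 0x1ffff))) (nat_lit 0x1ffff))) (nat_lit 0x1ffff))) (nat_lit 0x1ffff))) (nat_lit 0x1ffff))) (nat_lit 0x1ffff))) (nat_lit 0x1ffff))) (nat_lit 0x1ffff))) (nat_lit 0x80000000007fffc00000000)) (nat_lit 0x80000000000000000000000)))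 e (Nat.shiftRight c (nat_lit 25)))⟩) (Nat.shiftRight k (nat_lit 15)))

def oJn7 (k : ℕ) : Op :=
  (@Nat.rec (fun _ => Op) ⟨fun ih lim m nd e c => (ih.1 lim (Nat.lor (Nat.lor m (Nat.shiftLeft (Nat.lor (Nat.shiftLeft (Nat.land (Nat.shiftRight (Nat.shiftRight m (nat_lit 17)) (Nat.land (Nat.shiftRight (Nat.shiftRight m (nat_lit 34)) (Nat.land (Nat.shiftRight (Nat.shiftRight m (nat_lit 17)) (Nat.land (Nat.shiftRight (Nat.shiftRight m (nat_lit 34)) (Nat.land (Nat.shiftRight (Nat.shiftRight m (nat_lit 17)) (Nat.land (Nat.shiftRight (Nat.shiftRight m (nat_lit 34)) (Nat.land (Nat.shiftRight (Nat.shiftRight m (nat_lit 17)) (Nat.land (Nat.shiftRight (Nat.shiftRight m (nat_lit 34)) (Nat.land (Nat.shiftRight (Nat.shiftRight m (nat_lit 17)) (Nat.land (Nat.shiftRight (Nat.shiftRight m (nat_lit 34)) (Nat.land (Nat.shiftRight (Nat.shiftRight m (nat_lit 17)) (Nat.land (Nat.shiftRight (Nat.shiftRight m (nat_lit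 34)) (Nat.land (Nat.shiftRight (Nat.shiftRight m (Nat.land (Nat.shiftRight c (nat_lit 9)) (nat_lit 65408))) (nat_lit 17)) (nat_lit 0x1ffff))) (nat_lit 0x1ffff))) (nat_lit 0x1ffff))) (nat_lit 0x1ffff))) (nat_lit 0x1ffff))) (nat_lit 0x1ffff))) (nat_lit 0x1ffff))) (nat_lit 0x1ffff))) (nat_lit 0x1ffff))) (nat_lit 0x1ffff))) (nat_lit 0x1ffff))) (nat_lit 0x1ffff))) (nat_lit 0x1ffff)) (Nat.land (Nat.shiftRight c (nat_lit 9)) (nat_lit 65408))) (Nat.shiftLeft (Nat.land (Nat.shiftRight c (nat_lit 9)) (nat_lit 65408)) (Nat.land (Nat.shiftRight (Nat.shiftRight m (nat_lit 17)) (Nat.land (Nat.shiftRight (Nat.shiftRight m (nat_lit 34)) (Nat.land (Nat.shiftRight (Nat.shiftRight m (nat_lit 17)) (Nat.land (Nat.shiftRight (Nat.shiftRight m (nat_lit 34)) (Nat.land (Nat.shiftRight (Nat.shiftRight m (nat_lit 17)) (Nat.land (Nat.shiftRight (Nat.shiftRight m (nat_lit 34)) (Nat.land (Nat.shiftRight (Nat.shiftRight m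 (nat_lit 17)) (Nat.land (Nat.shiftRight (Nat.shiftRight m (nat_lit 34)) (Nat.land (Nat.shiftRight (Nat.shiftRight m (nat_lit 17)) (Nat.land (Nat.shiftRight (Nat.shiftRight m (nat_lit 34)) (Nat.land (Nat.shiftRight (Nat.shiftRight m (nat_lit 17)) (Nat.land (Nat.shiftRight (Nat.shiftRight m (nat_lit 34)) (Nat.land (Nat.shiftRight (Nat.shiftRight m (Nat.land (Nat.shiftRight c (nat_lit 9)) (nat_lit 65408))) (nat_lit 17)) (nat_lit 0x1ffff))) (nat_lit 0x1ffff))) (nat_lit 0x1ffff))) (nat_lit 0x1ffff))) (nat_lit 0x1ffff))) (nat_lit 0x1ffff))) (nat_lit 0x1ffff))) (nat_lit 0x1ffff))) (nat_lit 0x1ffff))) (nat_lit 0x1ffff))) (nat_lit 0x1ffff))) (nat_lit 0x1ffff))) (nat_lit 0x1ffff)))) (nat_lit 34))) (Nat.mul ((mskF k).1 (Nat.lor m (Nat.shiftLeft (Nat.lor (Nat.shiftLeft (Nat.land (Nat.shiftRight (Nat.shiftRight m (nat_lit 17)) (Nat.land (Nat.shiftRight (Nat.shiftRight m (nat_lit 34)) (Nat.land (Nat.shiftRight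 (Nat.shiftRight m (nat_lit 17)) (Nat.land (Nat.shiftRight (Nat.shiftRight m (nat_lit 34)) (Nat.land (Nat.shiftRight (Nat.shiftRight m (nat_lit 17)) (Nat.land (Nat.shiftRight (Nat.shiftRight m (nat_lit 34)) (Nat.land (Nat.shiftRight (Nat.shiftRight m (nat_lit 17)) (Nat.land (Nat.shiftRight (Nat.shiftRight m (nat_lit 34)) (Nat.land (Nat.shiftRight (Nat.shiftRight m (nat_lit 17)) (Nat.land (Nat.shiftRight (Nat.shiftRight m (nat_lit 34)) (Nat.land (Nat.shiftRight (Nat.shiftRight m (nat_lit 17)) (Nat.land (Nat.shiftRight (Nat.shiftRight m (nat_lit 34)) (Nat.land (Nat.shiftRight (Nat.shiftRight m (Nat.land (Nat.shiftRight c (nat_lit 9)) (nat_lit 65408))) (nat_lit 17)) (nat_lit 0x1ffff))) (nat_lit 0x1ffff))) (nat_lit 0x1ffff))) (nat_lit 0x1ffff))) (nat_lit 0x1ffff))) (nat_lit 0x1ffff))) (nat_lit 0x1ffff))) (nat_lit 0x1ffff))) (nat_lit 0x1ffff))) (nat_lit 0x1ffff))) (nat_lit 0x1ffff))) (nat_lit 0x1ffff)))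 (nat_lit 0x1ffff)) (Nat.land (Nat.shiftRight c (nat_lit 9)) (nat_lit 65408))) (Nat.shiftLeft (Nat.land (Nat.shiftRight c (nat_lit 9)) (nat_lit 65408)) (Nat.land (Nat.shiftRight (Nat.shiftRight m (nat_lit 17)) (Nat.land (Nat.shiftRight (Nat.shiftRight m (nat_lit 34)) (Nat.land (Nat.shiftRight (Nat.shiftRight m (nat_lit 17)) (Nat.land (Nat.shiftRight (Nat.shiftRight m (nat_lit 34)) (Nat.land (Nat.shiftRight (Nat.shiftRight m (nat_lit 17)) (Nat.land (Nat.shiftRight (Nat.shiftRight m (nat_lit 34)) (Nat.land (Nat.shiftRight (Nat.shiftRight m (nat_lit 17)) (Nat.land (Nat.shiftRight (Nat.shiftRight m (nat_lit 34)) (Nat.land (Nat.shiftRight (Nat.shiftRight m (nat_lit 17)) (Nat.land (Nat.shiftRight (Nat.shiftRight m (nat_lit 34)) (Nat.land (Nat.shiftRight (Nat.shiftRight m (nat_lit 17)) (Nat.land (Nat.shiftRight (Nat.shiftRight m (nat_lit 34)) (Nat.land (Nat.shiftRight (Nat.shiftRight m (Nat.land (Nat.shiftRight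 c (nat_lit 9)) (nat_lit 65408))) (nat_lit 17)) (nat_lit 0x1ffff))) (nat_lit 0x1ffff))) (nat_lit 0x1ffff))) (nat_lit 0x1ffff))) (nat_lit 0x1ffff))) (nat_lit 0x1ffff))) (nat_lit 0x1ffff))) (nat_lit 0x1ffff))) (nat_lit 0x1ffff))) (nat_lit 0x1ffff))) (nat_lit 0x1ffff))) (nat_lit 0x1ffff))) (nat_lit 0x1ffff)))) (nat_lit 34))) (Nat.land (Nat.shiftRight (Nat.shiftRight m (nat_lit 17)) (Nat.land (Nat.shiftRight (Nat.shiftRight m (nat_lit 34)) (Nat.land (Nat.shiftRight (Nat.shiftRight m (nat_lit 17)) (Nat.land (Nat.shiftRight (Nat.shiftRight m (nat_lit 34)) (Nat.land (Nat.shiftRight (Nat.shiftRight m (nat_lit 17)) (Nat.land (Nat.shiftRight (Nat.shiftRight m (nat_lit 34)) (Nat.land (Nat.shiftRight (Nat.shiftRight m (nat_lit 17)) (Nat.land (Nat.shiftRight (Nat.shiftRight m (nat_lit 34)) (Nat.land (Nat.shiftRight (Nat.shiftRight m (nat_lit 17)) (Nat.land (Nat.shiftRight (Nat.shiftRight m (nat_lit 34)) (Nat.land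 (Nat.shiftRight (Nat.shiftRight m (nat_lit 17)) (Nat.land (Nat.shiftRight (Nat.shiftRight m (nat_lit 34)) (Nat.land (Nat.shiftRight (Nat.shiftRight m (Nat.land (Nat.shiftRight c (nat_lit 9)) (nat_lit 65408))) (nat_lit 17)) (nat_lit 0x1ffff))) (nat_lit 0x1ffff))) (nat_lit 0x1ffff))) (nat_lit 0x1ffff))) (nat_lit 0x1ffff))) (nat_lit 0x1ffff))) (nat_lit 0x1ffff))) (nat_lit 0x1ffff))) (nat_lit 0x1ffff))) (nat_lit 0x1ffff))) (nat_lit 0x1ffff))) (nat_lit 0x1ffff))) (nat_lit 0x1ffff))) (Nat.land (Nat.lor (Nat.shiftRight m (Nat.land (Nat.shiftRight (Nat.shiftRight m (nat_lit 17)) (Nat.land (Nat.shiftRight (Nat.shiftRight m (nat_lit 34)) (Nat.land (Nat.shiftRight (Nat.shiftRight m (nat_lit 17)) (Nat.land (Nat.shiftRight (Nat.shiftRight m (nat_lit 34)) (Nat.land (Nat.shiftRight (Nat.shiftRight m (nat_lit 17)) (Nat.land (Nat.shiftRight (Nat.shiftRight m (nat_lit 34)) (Nat.land (Nat.shiftRight (Nat.shiftRight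 m (nat_lit 17)) (Nat.land (Nat.shiftRight (Nat.shiftRight m (nat_lit 34)) (Nat.land (Nat.shiftRight (Nat.shiftRight m (nat_lit 17)) (Nat.land (Nat.shiftRight (Nat.shiftRight m (nat_lit 34)) (Nat.land (Nat.shiftRight (Nat.shiftRight m (nat_lit 17)) (Nat.land (Nat.shiftRight (Nat.shiftRight m (nat_lit 34)) (Nat.land (Nat.shiftRight (Nat.shiftRight m (Nat.land (Nat.shiftRight c (nat_lit 9)) (nat_lit 65408))) (nat_lit 17)) (nat_lit 0x1ffff))) (nat_lit 0x1ffff))) (nat_lit 0x1ffff))) (nat_lit 0x1ffff))) (nat_lit 0x1ffff))) (nat_lit 0x1ffff))) (nat_lit 0x1ffff))) (nat_lit 0x1ffff))) (nat_lit 0x1ffff))) (nat_lit 0x1ffff))) (nat_lit 0x1ffff))) (nat_lit 0x1ffff))) (nat_lit 0x1ffff))) (Nat.shiftRight m (Nat.land (Nat.shiftRight m (Nat.land (Nat.shiftRight c (nat_lit 9)) (nat_lit 65408))) (nat_lit 0x1ffff)))) (nat_lit 0xfffffc00000000000000000)))) (Nat.add (Nat.add nd (Nat.xor (Nat.land (Nat.shiftRight m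 (Nat.land (Nat.shiftRight c (nat_lit 9)) (nat_lit 65408))) (nat_lit 0xffffac00007fffc00000000)) (nat_lit 0xffffac00000000000000000))) (Nat.xor (Nat.land (Nat.shiftRight m (Nat.land (Nat.shiftRight (Nat.shiftRight m (nat_lit 17)) (Nat.land (Nat.shiftRight (Nat.shiftRight m (nat_lit 34)) (Nat.land (Nat.shiftRight (Nat.shiftRight m (nat_lit 17)) (Nat.land (Nat.shiftRight (Nat.shiftRight m (nat_lit 34)) (Nat.land (Nat.shiftRight (Nat.shiftRight m (nat_lit 17)) (Nat.land (Nat.shiftRight (Nat.shiftRight m (nat_lit 34)) (Nat.land (Nat.shiftRight (Nat.shiftRight m (nat_lit 17)) (Nat.land (Nat.shiftRight (Nat.shiftRight m (nat_lit 34)) (Nat.land (Nat.shiftRight (Nat.shiftRight m (nat_lit 17)) (Nat.land (Nat.shiftRight (Nat.shiftRight m (nat_lit 34)) (Nat.land (Nat.shiftRight (Nat.shiftRight m (nat_lit 17)) (Nat.land (Nat.shiftRight (Nat.shiftRight m (nat_lit 34)) (Nat.land (Nat.shiftRight (Nat.shiftRight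 m (Nat.land (Nat.shiftRight c (nat_lit 9)) (nat_lit 65408))) (nat_lit 17)) (nat_lit 0x1ffff))) (nat_lit 0x1ffff))) (nat_lit 0x1ffff))) (nat_lit 0x1ffff))) (nat_lit 0x1ffff))) (nat_lit 0x1ffff))) (nat_lit 0x1ffff))) (nat_lit 0x1ffff))) (nat_lit 0x1ffff))) (nat_lit 0x1ffff))) (nat_lit 0x1ffff))) (nat_lit 0x1ffff))) (nat_lit 0x1ffff))) (nat_lit 0x80000000007fffc00000000)) (nat_lit 0x80000000000000000000000))) e (Nat.shiftRight c (nat_lit 25)))⟩ (fun _ _ => ⟨fun ih lim m nd e c => (ih.1 lim (Nat.lor m (Nat.shiftLeft (Nat.lor (Nat.shiftLeft (Nat.land (Nat.shiftRight (Nat.shiftRight m (nat_lit 17)) (Nat.land (Nat.shiftRight (Nat.shiftRight m (nat_lit 34)) (Nat.land (Nat.shiftRight (Nat.shiftRight m (nat_lit 17)) (Nat.land (Nat.shiftRight (Nat.shiftRight m (nat_lit 34)) (Nat.land (Nat.shiftRight (Nat.shiftRight m (nat_lit 17)) (Nat.land (Nat.shiftRight (Nat.shiftRight m (nat_lit 34)) (Nat.land (Nat.shiftRight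 (Nat.shiftRight m (nat_lit 17)) (Nat.land (Nat.shiftRight (Nat.shiftRight m (nat_lit 34)) (Nat.land (Nat.shiftRight (Nat.shiftRight m (nat_lit 17)) (Nat.land (Nat.shiftRight (Nat.shiftRight m (nat_lit 34)) (Nat.land (Nat.shiftRight (Nat.shiftRight m (nat_lit 17)) (Nat.land (Nat.shiftRight (Nat.shiftRight m (nat_lit 34)) (Nat.land (Nat.shiftRight (Nat.shiftRight m (Nat.land (Nat.shiftRight c (nat_lit 9)) (nat_lit 65408))) (nat_lit 17)) (nat_lit 0x1ffff))) (nat_lit 0x1ffff))) (nat_lit 0x1ffff))) (nat_lit 0x1ffff))) (nat_lit 0x1ffff))) (nat_lit 0x1ffff))) (nat_lit 0x1ffff))) (nat_lit 0x1ffff))) (nat_lit 0x1ffff))) (nat_lit 0x1ffff))) (nat_lit 0x1ffff))) (nat_lit 0x1ffff))) (nat_lit 0x1ffff)) (Nat.land (Nat.shiftRight c (nat_lit 9)) (nat_lit 65408))) (Nat.shiftLeft (Nat.land (Nat.shiftRight c (nat_lit 9)) (nat_lit 65408)) (Nat.land (Nat.shiftRight (Nat.shiftRight m (nat_lit 17)) (Nat.land (Nat.shiftRight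 (Nat.shiftRight m (nat_lit 34)) (Nat.land (Nat.shiftRight (Nat.shiftRight m (nat_lit 17)) (Nat.land (Nat.shiftRight (Nat.shiftRight m (nat_lit 34)) (Nat.land (Nat.shiftRight (Nat.shiftRight m (nat_lit 17)) (Nat.land (Nat.shiftRight (Nat.shiftRight m (nat_lit 34)) (Nat.land (Nat.shiftRight (Nat.shiftRight m (nat_lit 17)) (Nat.land (Nat.shiftRight (Nat.shiftRight m (nat_lit 34)) (Nat.land (Nat.shiftRight (Nat.shiftRight m (nat_lit 17)) (Nat.land (Nat.shiftRight (Nat.shiftRight m (nat_lit 34)) (Nat.land (Nat.shiftRight (Nat.shiftRight m (nat_lit 17)) (Nat.land (Nat.shiftRight (Nat.shiftRight m (nat_lit 34)) (Nat.land (Nat.shiftRight (Nat.shiftRight m (Nat.land (Nat.shiftRight c (nat_lit 9)) (nat_lit 65408))) (nat_lit 17)) (nat_lit 0x1ffff))) (nat_lit 0x1ffff))) (nat_lit 0x1ffff))) (nat_lit 0x1ffff))) (nat_lit 0x1ffff))) (nat_lit 0x1ffff))) (nat_lit 0x1ffff))) (nat_lit 0x1ffff))) (nat_lit 0x1ffff)))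 (nat_lit 0x1ffff))) (nat_lit 0x1ffff))) (nat_lit 0x1ffff))) (nat_lit 0x1ffff)))) (nat_lit 34))) (Nat.add (Nat.add nd (Nat.xor (Nat.land (Nat.shiftRight m (Nat.land (Nat.shiftRight c (nat_lit 9)) (nat_lit 65408))) (nat_lit 0xffffac00007fffc00000000)) (nat_lit 0xffffac00000000000000000))) (Nat.xor (Nat.land (Nat.shiftRight m (Nat.land (Nat.shiftRight (Nat.shiftRight m (nat_lit 17)) (Nat.land (Nat.shiftRight (Nat.shiftRight m (nat_lit 34)) (Nat.land (Nat.shiftRight (Nat.shiftRight m (nat_lit 17)) (Nat.land (Nat.shiftRight (Nat.shiftRight m (nat_lit 34)) (Nat.land (Nat.shiftRight (Nat.shiftRight m (nat_lit 17)) (Nat.land (Nat.shiftRight (Nat.shiftRight m (nat_lit 34)) (Nat.land (Nat.shiftRight (Nat.shiftRight m (nat_lit 17)) (Nat.land (Nat.shiftRight (Nat.shiftRight m (nat_lit 34)) (Nat.land (Nat.shiftRight (Nat.shiftRight m (nat_lit 17)) (Nat.land (Nat.shiftRight (Nat.shiftRight m (nat_lit 34))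 (Nat.land (Nat.shiftRight (Nat.shiftRight m (nat_lit 17)) (Nat.land (Nat.shiftRight (Nat.shiftRight m (nat_lit 34)) (Nat.land (Nat.shiftRight (Nat.shiftRight m (Nat.land (Nat.shiftRight c (nat_lit 9)) (nat_lit 65408))) (nat_lit 17)) (nat_lit 0x1ffff))) (nat_lit 0x1ffff))) (nat_lit 0x1ffff))) (nat_lit 0x1ffff))) (nat_lit 0x1ffff))) (nat_lit 0x1ffff))) (nat_lit 0x1ffff))) (nat_lit 0x1ffff))) (nat_lit 0x1ffff))) (nat_lit 0x1ffff))) (nat_lit 0x1ffff))) (nat_lit 0x1ffff))) (nat_lit 0x1ffff))) (nat_lit 0x80000000007fffc00000000)) (nat_lit 0x80000000000000000000000))) e (Nat.shiftRight c (nat_lit 25)))⟩) (Nat.shiftRight k (nat_lit 15)))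

def oJn8 (k : ℕ) : Op :=
  (@Nat.rec (fun _ => Op) ⟨fun ih lim m nd e c => (ih.1 lim (Nat.lor (Nat.lor m (Nat.shiftLeft (Nat.lor (Nat.shiftLeft (Nat.land (Nat.shiftRight (Nat.shiftRight m (nat_lit 17)) (Nat.land (Nat.shiftRight (Nat.shiftRight m (nat_lit 34)) (Nat.land (Nat.shiftRight (Nat.shiftRight m (nat_lit 17)) (Nat.land (Nat.shiftRight (Nat.shiftRight m (nat_lit 34)) (Nat.land (Nat.shiftRight (Nat.shiftRight m (nat_lit 17)) (Nat.land (Nat.shiftRight (Nat.shiftRight m (nat_lit 34)) (Nat.land (Nat.shiftRight (Nat.shiftRight m (nat_lit 17)) (Nat.land (Nat.shiftRight (Nat.shiftRight m (nat_lit 34)) (Nat.land (Nat.shiftRight (Nat.shiftRight m (nat_lit 17)) (Nat.land (Nat.shiftRight (Nat.shiftRight m (nat_lit 34)) (Nat.land (Nat.shiftRight (Nat.shiftRight m (nat_lit 17)) (Nat.land (Nat.shiftRight (Nat.shiftRight m (nat_lit 34)) (Nat.land (Nat.shiftRight (Nat.shiftRight m (nat_lit 17)) (Nat.land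 (Nat.shiftRight (Nat.shiftRight m (nat_lit 34)) (Nat.land (Nat.shiftRight (Nat.shiftRight m (Nat.land (Nat.shiftRight c (nat_lit 9)) (nat_lit 65408))) (nat_lit 17)) (nat_lit 0x1ffff))) (nat_lit 0x1ffff))) (nat_lit 0x1ffff))) (nat_lit 0x1ffff))) (nat_lit 0x1ffff))) (nat_lit 0x1ffff))) (nat_lit 0x1ffff))) (nat_lit 0x1ffff))) (nat_lit 0x1ffff))) (nat_lit 0x1ffff))) (nat_lit 0x1ffff))) (nat_lit 0x1ffff))) (nat_lit 0x1ffff))) (nat_lit 0x1ffff))) (nat_lit 0x1ffff)) (Nat.land (Nat.shiftRight c (nat_lit 9)) (nat_lit 65408))) (Nat.shiftLeft (Nat.land (Nat.shiftRight c (nat_lit 9)) (nat_lit 65408)) (Nat.land (Nat.shiftRight (Nat.shiftRight m (nat_lit 17)) (Nat.land (Nat.shiftRight (Nat.shiftRight m (nat_lit 34)) (Nat.land (Nat.shiftRight (Nat.shiftRight m (nat_lit 17)) (Nat.land (Nat.shiftRight (Nat.shiftRight m (nat_lit 34)) (Nat.land (Nat.shiftRight (Nat.shiftRight m (nat_lit 17)) (Nat.land (Nat.shiftRight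 (Nat.shiftRight m (nat_lit 34)) (Nat.land (Nat.shiftRight (Nat.shiftRight m (nat_lit 17)) (Nat.land (Nat.shiftRight (Nat.shiftRight m (nat_lit 34)) (Nat.land (Nat.shiftRight (Nat.shiftRight m (nat_lit 17)) (Nat.land (Nat.shiftRight (Nat.shiftRight m (nat_lit 34)) (Nat.land (Nat.shiftRight (Nat.shiftRight m (nat_lit 17)) (Nat.land (Nat.shiftRight (Nat.shiftRight m (nat_lit 34)) (Nat.land (Nat.shiftRight (Nat.shiftRight m (nat_lit 17)) (Nat.land (Nat.shiftRight (Nat.shiftRight m (nat_lit 34)) (Nat.land (Nat.shiftRight (Nat.shiftRight m (Nat.land (Nat.shiftRight c (nat_lit 9)) (nat_lit 65408))) (nat_lit 17)) (nat_lit 0x1ffff))) (nat_lit 0x1ffff))) (nat_lit 0x1ffff))) (nat_lit 0x1ffff))) (nat_lit 0x1ffff))) (nat_lit 0x1ffff))) (nat_lit 0x1ffff))) (nat_lit 0x1ffff))) (nat_lit 0x1ffff))) (nat_lit 0x1ffff))) (nat_lit 0x1ffff))) (nat_lit 0x1ffff))) (nat_lit 0x1ffff))) (nat_lit 0x1ffff))) (nat_lit 0x1ffff))))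 (nat_lit 34))) (Nat.mul ((mskF k).1 (Nat.lor m (Nat.shiftLeft (Nat.lor (Nat.shiftLeft (Nat.land (Nat.shiftRight (Nat.shiftRight m (nat_lit 17)) (Nat.land (Nat.shiftRight (Nat.shiftRight m (nat_lit 34)) (Nat.land (Nat.shiftRight (Nat.shiftRight m (nat_lit 17)) (Nat.land (Nat.shiftRight (Nat.shiftRight m (nat_lit 34)) (Nat.land (Nat.shiftRight (Nat.shiftRight m (nat_lit 17)) (Nat.land (Nat.shiftRight (Nat.shiftRight m (nat_lit 34)) (Nat.land (Nat.shiftRight (Nat.shiftRight m (nat_lit 17)) (Nat.land (Nat.shiftRight (Nat.shiftRight m (nat_lit 34)) (Nat.land (Nat.shiftRight (Nat.shiftRight m (nat_lit 17)) (Nat.land (Nat.shiftRight (Nat.shiftRight m (nat_lit 34)) (Nat.land (Nat.shiftRight (Nat.shiftRight m (nat_lit 17)) (Nat.land (Nat.shiftRight (Nat.shiftRight m (nat_lit 34)) (Nat.land (Nat.shiftRight (Nat.shiftRight m (nat_lit 17)) (Nat.land (Nat.shiftRight (Nat.shiftRight m (nat_lit 34)) (Nat.land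 (Nat.shiftRight (Nat.shiftRight m (Nat.land (Nat.shiftRight c (nat_lit 9)) (nat_lit 65408))) (nat_lit 17)) (nat_lit 0x1ffff))) (nat_lit 0x1ffff))) (nat_lit 0x1ffff))) (nat_lit 0x1ffff))) (nat_lit 0x1ffff))) (nat_lit 0x1ffff))) (nat_lit 0x1ffff))) (nat_lit 0x1ffff))) (nat_lit 0x1ffff))) (nat_lit 0x1ffff))) (nat_lit 0x1ffff))) (nat_lit 0x1ffff))) (nat_lit 0x1ffff))) (nat_lit 0x1ffff))) (nat_lit 0x1ffff)) (Nat.land (Nat.shiftRight c (nat_lit 9)) (nat_lit 65408))) (Nat.shiftLeft (Nat.land (Nat.shiftRight c (nat_lit 9)) (nat_lit 65408)) (Nat.land (Nat.shiftRight (Nat.shiftRight m (nat_lit 17)) (Nat.land (Nat.shiftRight (Nat.shiftRight m (nat_lit 34)) (Nat.land (Nat.shiftRight (Nat.shiftRight m (nat_lit 17)) (Nat.land (Nat.shiftRight (Nat.shiftRight m (nat_lit 34)) (Nat.land (Nat.shiftRight (Nat.shiftRight m (nat_lit 17)) (Nat.land (Nat.shiftRight (Nat.shiftRight m (nat_lit 34)) (Nat.land (Nat.shiftRight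 (Nat.shiftRight m (nat_lit 17)) (Nat.land (Nat.shiftRight (Nat.shiftRight m (nat_lit 34)) (Nat.land (Nat.shiftRight (Nat.shiftRight m (nat_lit 17)) (Nat.land (Nat.shiftRight (Nat.shiftRight m (nat_lit 34)) (Nat.land (Nat.shiftRight (Nat.shiftRight m (nat_lit 17)) (Nat.land (Nat.shiftRight (Nat.shiftRight m (nat_lit 34)) (Nat.land (Nat.shiftRight (Nat.shiftRight m (nat_lit 17)) (Nat.land (Nat.shiftRight (Nat.shiftRight m (nat_lit 34)) (Nat.land (Nat.shiftRight (Nat.shiftRight m (Nat.land (Nat.shiftRight c (nat_lit 9)) (nat_lit 65408))) (nat_lit 17)) (nat_lit 0x1ffff))) (nat_lit 0x1ffff))) (nat_lit 0x1ffff))) (nat_lit 0x1ffff))) (nat_lit 0x1ffff))) (nat_lit 0x1ffff))) (nat_lit 0x1ffff))) (nat_lit 0x1ffff))) (nat_lit 0x1ffff))) (nat_lit 0x1ffff))) (nat_lit 0x1ffff))) (nat_lit 0x1ffff))) (nat_lit 0x1ffff))) (nat_lit 0x1ffff))) (nat_lit 0x1ffff)))) (nat_lit 34))) (Nat.land (Nat.shiftRight (Nat.shiftRight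 m (nat_lit 17)) (Nat.land (Nat.shiftRight (Nat.shiftRight m (nat_lit 34)) (Nat.land (Nat.shiftRight (Nat.shiftRight m (nat_lit 17)) (Nat.land (Nat.shiftRight (Nat.shiftRight m (nat_lit 34)) (Nat.land (Nat.shiftRight (Nat.shiftRight m (nat_lit 17)) (Nat.land (Nat.shiftRight (Nat.shiftRight m (nat_lit 34)) (Nat.land (Nat.shiftRight (Nat.shiftRight m (nat_lit 17)) (Nat.land (Nat.shiftRight (Nat.shiftRight m (nat_lit 34)) (Nat.land (Nat.shiftRight (Nat.shiftRight m (nat_lit 17)) (Nat.land (Nat.shiftRight (Nat.shiftRight m (nat_lit 34)) (Nat.land (Nat.shiftRight (Nat.shiftRight m (nat_lit 17)) (Nat.land (Nat.shiftRight (Nat.shiftRight m (nat_lit 34)) (Nat.land (Nat.shiftRight (Nat.shiftRight m (nat_lit 17)) (Nat.land (Nat.shiftRight (Nat.shiftRight m (nat_lit 34)) (Nat.land (Nat.shiftRight (Nat.shiftRight m (Nat.land (Nat.shiftRight c (nat_lit 9)) (nat_lit 65408))) (nat_lit 17)) (nat_lit 0x1ffff)))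 (nat_lit 0x1ffff))) (nat_lit 0x1ffff))) (nat_lit 0x1ffff))) (nat_lit 0x1ffff))) (nat_lit 0x1ffff))) (nat_lit 0x1ffff))) (nat_lit 0x1ffff))) (nat_lit 0x1ffff))) (nat_lit 0x1ffff))) (nat_lit 0x1ffff))) (nat_lit 0x1ffff))) (nat_lit 0x1ffff))) (nat_lit 0x1ffff))) (nat_lit 0x1ffff))) (Nat.land (Nat.lor (Nat.shiftRight m (Nat.land (Nat.shiftRight (Nat.shiftRight m (nat_lit 17)) (Nat.land (Nat.shiftRight (Nat.shiftRight m (nat_lit 34)) (Nat.land (Nat.shiftRight (Nat.shiftRight m (nat_lit 17)) (Nat.land (Nat.shiftRight (Nat.shiftRight m (nat_lit 34)) (Nat.land (Nat.shiftRight (Nat.shiftRight m (nat_lit 17)) (Nat.land (Nat.shiftRight (Nat.shiftRight m (nat_lit 34)) (Nat.land (Nat.shiftRight (Nat.shiftRight m (nat_lit 17)) (Nat.land (Nat.shiftRight (Nat.shiftRight m (nat_lit 34)) (Nat.land (Nat.shiftRight (Nat.shiftRight m (nat_lit 17)) (Nat.land (Nat.shiftRight (Nat.shiftRight m (nat_lit 34)) (Nat.land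 (Nat.shiftRight (Nat.shiftRight m (nat_lit 17)) (Nat.land (Nat.shiftRight (Nat.shiftRight m (nat_lit 34)) (Nat.land (Nat.shiftRight (Nat.shiftRight m (nat_lit 17)) (Nat.land (Nat.shiftRight (Nat.shiftRight m (nat_lit 34)) (Nat.land (Nat.shiftRight (Nat.shiftRight m (Nat.land (Nat.shiftRight c (nat_lit 9)) (nat_lit 65408))) (nat_lit 17)) (nat_lit 0x1ffff))) (nat_lit 0x1ffff))) (nat_lit 0x1ffff))) (nat_lit 0x1ffff))) (nat_lit 0x1ffff))) (nat_lit 0x1ffff))) (nat_lit 0x1ffff))) (nat_lit 0x1ffff))) (nat_lit 0x1ffff))) (nat_lit 0x1ffff))) (nat_lit 0x1ffff))) (nat_lit 0x1ffff))) (nat_lit 0x1ffff))) (nat_lit 0x1ffff))) (nat_lit 0x1ffff))) (Nat.shiftRight m (Nat.land (Nat.shiftRight m (Nat.land (Nat.shiftRight c (nat_lit 9)) (nat_lit 65408))) (nat_lit 0x1ffff)))) (nat_lit 0xfffffc00000000000000000)))) (Nat.add (Nat.add nd (Nat.xor (Nat.land (Nat.shiftRight m (Nat.land (Nat.shiftRight c (nat_lit 9)) (nat_lit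 65408))) (nat_lit 0xfdfe5c00007fffc00000000)) (nat_lit 0xfdfe5c00000000000000000))) (Nat.xor (Nat.land (Nat.shiftRight m (Nat.land (Nat.shiftRight (Nat.shiftRight m (nat_lit 17)) (Nat.land (Nat.shiftRight (Nat.shiftRight m (nat_lit 34)) (Nat.land (Nat.shiftRight (Nat.shiftRight m (nat_lit 17)) (Nat.land (Nat.shiftRight (Nat.shiftRight m (nat_lit 34)) (Nat.land (Nat.shiftRight (Nat.shiftRight m (nat_lit 17)) (Nat.land (Nat.shiftRight (Nat.shiftRight m (nat_lit 34)) (Nat.land (Nat.shiftRight (Nat.shiftRight m (nat_lit 17)) (Nat.land (Nat.shiftRight (Nat.shiftRight m (nat_lit 34)) (Nat.land (Nat.shiftRight (Nat.shiftRight m (nat_lit 17)) (Nat.land (Nat.shiftRight (Nat.shiftRight m (nat_lit 34)) (Nat.land (Nat.shiftRight (Nat.shiftRight m (nat_lit 17)) (Nat.land (Nat.shiftRight (Nat.shiftRight m (nat_lit 34)) (Nat.land (Nat.shiftRight (Nat.shiftRight m (nat_lit 17)) (Nat.land (Nat.shiftRight (Nat.shiftRight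 m (nat_lit 34)) (Nat.land (Nat.shiftRight (Nat.shiftRight m (Nat.land (Nat.shiftRight c (nat_lit 9)) (nat_lit 65408))) (nat_lit 17)) (nat_lit 0x1ffff))) (nat_lit 0x1ffff))) (nat_lit 0x1ffff))) (nat_lit 0x1ffff))) (nat_lit 0x1ffff))) (nat_lit 0x1ffff))) (nat_lit 0x1ffff))) (nat_lit 0x1ffff))) (nat_lit 0x1ffff))) (nat_lit 0x1ffff))) (nat_lit 0x1ffff))) (nat_lit 0x1ffff))) (nat_lit 0x1ffff))) (nat_lit 0x1ffff))) (nat_lit 0x1ffff))) (nat_lit 0x80000000007fffc00000000)) (nat_lit 0x80000000000000000000000))) e (Nat.shiftRight c (nat_lit 25)))⟩ (fun _ _ => ⟨fun ih lim m nd e c => (ih.1 lim (Nat.lor m (Nat.shiftLeft (Nat.lor (Nat.shiftLeft (Nat.land (Nat.shiftRight (Nat.shiftRight m (nat_lit 17)) (Nat.land (Nat.shiftRight (Nat.shiftRight m (nat_lit 34)) (Nat.land (Nat.shiftRight (Nat.shiftRight m (nat_lit 17)) (Nat.land (Nat.shiftRight (Nat.shiftRight m (nat_lit 34)) (Nat.land (Nat.shiftRight (Nat.shiftRight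 m (nat_lit 17)) (Nat.land (Nat.shiftRight (Nat.shiftRight m (nat_lit 34)) (Nat.land (Nat.shiftRight (Nat.shiftRight m (nat_lit 17)) (Nat.land (Nat.shiftRight (Nat.shiftRight m (nat_lit 34)) (Nat.land (Nat.shiftRight (Nat.shiftRight m (nat_lit 17)) (Nat.land (Nat.shiftRight (Nat.shiftRight m (nat_lit 34)) (Nat.land (Nat.shiftRight (Nat.shiftRight m (nat_lit 17)) (Nat.land (Nat.shiftRight (Nat.shiftRight m (nat_lit 34)) (Nat.land (Nat.shiftRight (Nat.shiftRight m (nat_lit 17)) (Nat.land (Nat.shiftRight (Nat.shiftRight m (nat_lit 34)) (Nat.land (Nat.shiftRight (Nat.shiftRight m (Nat.land (Nat.shiftRight c (nat_lit 9)) (nat_lit 65408))) (nat_lit 17)) (nat_lit 0x1ffff))) (nat_lit 0x1ffff))) (nat_lit 0x1ffff))) (nat_lit 0x1ffff))) (nat_lit 0x1ffff))) (nat_lit 0x1ffff))) (nat_lit 0x1ffff))) (nat_lit 0x1ffff))) (nat_lit 0x1ffff))) (nat_lit 0x1ffff))) (nat_lit 0x1ffff))) (nat_lit 0x1ffff))) (nat_lit 0x1ffff)))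 (nat_lit 0x1ffff))) (nat_lit 0x1ffff)) (Nat.land (Nat.shiftRight c (nat_lit 9)) (nat_lit 65408))) (Nat.shiftLeft (Nat.land (Nat.shiftRight c (nat_lit 9)) (nat_lit 65408)) (Nat.land (Nat.shiftRight (Nat.shiftRight m (nat_lit 17)) (Nat.land (Nat.shiftRight (Nat.shiftRight m (nat_lit 34)) (Nat.land (Nat.shiftRight (Nat.shiftRight m (nat_lit 17)) (Nat.land (Nat.shiftRight (Nat.shiftRight m (nat_lit 34)) (Nat.land (Nat.shiftRight (Nat.shiftRight m (nat_lit 17)) (Nat.land (Nat.shiftRight (Nat.shiftRight m (nat_lit 34)) (Nat.land (Nat.shiftRight (Nat.shiftRight m (nat_lit 17)) (Nat.land (Nat.shiftRight (Nat.shiftRight m (nat_lit 34)) (Nat.land (Nat.shiftRight (Nat.shiftRight m (nat_lit 17)) (Nat.land (Nat.shiftRight (Nat.shiftRight m (nat_lit 34)) (Nat.land (Nat.shiftRight (Nat.shiftRight m (nat_lit 17)) (Nat.land (Nat.shiftRight (Nat.shiftRight m (nat_lit 34)) (Nat.land (Nat.shiftRight (Nat.shiftRight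 m (nat_lit 17)) (Nat.land (Nat.shiftRight (Nat.shiftRight m (nat_lit 34)) (Nat.land (Nat.shiftRight (Nat.shiftRight m (Nat.land (Nat.shiftRight c (nat_lit 9)) (nat_lit 65408))) (nat_lit 17)) (nat_lit 0x1ffff))) (nat_lit 0x1ffff))) (nat_lit 0x1ffff))) (nat_lit 0x1ffff))) (nat_lit 0x1ffff))) (nat_lit 0x1ffff))) (nat_lit 0x1ffff))) (nat_lit 0x1ffff))) (nat_lit 0x1ffff))) (nat_lit 0x1ffff))) (nat_lit 0x1ffff))) (nat_lit 0x1ffff))) (nat_lit 0x1ffff))) (nat_lit 0x1ffff))) (nat_lit 0x1ffff)))) (nat_lit 34))) (Nat.add (Nat.add nd (Nat.xor (Nat.land (Nat.shiftRight m (Nat.land (Nat.shiftRight c (nat_lit 9)) (nat_lit 65408))) (nat_lit 0xfdfe5c00007fffc00000000)) (nat_lit 0xfdfe5c00000000000000000))) (Nat.xor (Nat.land (Nat.shiftRight m (Nat.land (Nat.shiftRight (Nat.shiftRight m (nat_lit 17)) (Nat.land (Nat.shiftRight (Nat.shiftRight m (nat_lit 34)) (Nat.land (Nat.shiftRight (Nat.shiftRight m (nat_lit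 17)) (Nat.land (Nat.shiftRight (Nat.shiftRight m (nat_lit 34)) (Nat.land (Nat.shiftRight (Nat.shiftRight m (nat_lit 17)) (Nat.land (Nat.shiftRight (Nat.shiftRight m (nat_lit 34)) (Nat.land (Nat.shiftRight (Nat.shiftRight m (nat_lit 17)) (Nat.land (Nat.shiftRight (Nat.shiftRight m (nat_lit 34)) (Nat.land (Nat.shiftRight (Nat.shiftRight m (nat_lit 17)) (Nat.land (Nat.shiftRight (Nat.shiftRight m (nat_lit 34)) (Nat.land (Nat.shiftRight (Nat.shiftRight m (nat_lit 17)) (Nat.land (Nat.shiftRight (Nat.shiftRight m (nat_lit 34)) (Nat.land (Nat.shiftRight (Nat.shiftRight m (nat_lit 17)) (Nat.land (Nat.shiftRight (Nat.shiftRight m (nat_lit 34)) (Nat.land (Nat.shiftRight (Nat.shiftRight m (Nat.land (Nat.shiftRight c (nat_lit 9)) (nat_lit 65408))) (nat_lit 17)) (nat_lit 0x1ffff))) (nat_lit 0x1ffff))) (nat_lit 0x1ffff))) (nat_lit 0x1ffff))) (nat_lit 0x1ffff))) (nat_lit 0x1ffff))) (nat_lit 0x1ffff))) (nat_lit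 0x1ffff))) (nat_lit 0x1ffff))) (nat_lit 0x1ffff))) (nat_lit 0x1ffff))) (nat_lit 0x1ffff))) (nat_lit 0x1ffff))) (nat_lit 0x1ffff))) (nat_lit 0x1ffff))) (nat_lit 0x80000000007fffc00000000)) (nat_lit 0x80000000000000000000000))) e (Nat.shiftRight c (nat_lit 25)))⟩) (Nat.shiftRight k (nat_lit 15)))

def oJn9 (k : ℕ) : Op :=
  (@Nat.rec (fun _ => Op) ⟨fun ih lim m nd e c => (ih.1 lim (Nat.lor (Nat.lor m (Nat.shiftLeft (Nat.lor (Nat.shiftLeft (Nat.land (Nat.shiftRight (Nat.shiftRight m (nat_lit 17)) (Nat.land (Nat.shiftRight (Nat.shiftRight m (nat_lit 34)) (Nat.land (Nat.shiftRight (Nat.shiftRight m (nat_lit 17)) (Nat.land (Nat.shiftRight (Nat.shiftRight m (nat_lit 34)) (Nat.land (Nat.shiftRight (Nat.shiftRight m (nat_lit 17)) (Nat.land (Nat.shiftRight (Nat.shiftRight m (nat_lit 34)) (Nat.land (Nat.shiftRight (Nat.shiftRight m (nat_lit 17)) (Nat.land (Nat.shiftRight (Nat.shiftRight m (nat_lit 34))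 (Nat.land (Nat.shiftRight (Nat.shiftRight m (nat_lit 17)) (Nat.land (Nat.shiftRight (Nat.shiftRight m (nat_lit 34)) (Nat.land (Nat.shiftRight (Nat.shiftRight m (nat_lit 17)) (Nat.land (Nat.shiftRight (Nat.shiftRight m (nat_lit 34)) (Nat.land (Nat.shiftRight (Nat.shiftRight m (nat_lit 17)) (Nat.land (Nat.shiftRight (Nat.shiftRight m (nat_lit 34)) (Nat.land (Nat.shiftRight (Nat.shiftRight m (nat_lit 17)) (Nat.land (Nat.shiftRight (Nat.shiftRight m (nat_lit 34)) (Nat.land (Nat.shiftRight (Nat.shiftRight m (Nat.land (Nat.shiftRight c (nat_lit 9)) (nat_lit 65408))) (nat_lit 17)) (nat_lit 0x1ffff))) (nat_lit 0x1ffff))) (nat_lit 0x1ffff))) (nat_lit 0x1ffff))) (nat_lit 0x1ffff))) (nat_lit 0x1ffff))) (nat_lit 0x1ffff))) (nat_lit 0x1ffff))) (nat_lit 0x1ffff))) (nat_lit 0x1ffff))) (nat_lit 0x1ffff))) (nat_lit 0x1ffff))) (nat_lit 0x1ffff))) (nat_lit 0x1ffff))) (nat_lit 0x1ffff))) (nat_lit 0x1ffff))) (nat_lit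 0x1ffff)) (Nat.land (Nat.shiftRight c (nat_lit 9)) (nat_lit 65408))) (Nat.shiftLeft (Nat.land (Nat.shiftRight c (nat_lit 9)) (nat_lit 65408)) (Nat.land (Nat.shiftRight (Nat.shiftRight m (nat_lit 17)) (Nat.land (Nat.shiftRight (Nat.shiftRight m (nat_lit 34)) (Nat.land (Nat.shiftRight (Nat.shiftRight m (nat_lit 17)) (Nat.land (Nat.shiftRight (Nat.shiftRight m (nat_lit 34)) (Nat.land (Nat.shiftRight (Nat.shiftRight m (nat_lit 17)) (Nat.land (Nat.shiftRight (Nat.shiftRight m (nat_lit 34)) (Nat.land (Nat.shiftRight (Nat.shiftRight m (nat_lit 17)) (Nat.land (Nat.shiftRight (Nat.shiftRight m (nat_lit 34)) (Nat.land (Nat.shiftRight (Nat.shiftRight m (nat_lit 17)) (Nat.land (Nat.shiftRight (Nat.shiftRight m (nat_lit 34)) (Nat.land (Nat.shiftRight (Nat.shiftRight m (nat_lit 17)) (Nat.land (Nat.shiftRight (Nat.shiftRight m (nat_lit 34)) (Nat.land (Nat.shiftRight (Nat.shiftRight m (nat_lit 17)) (Nat.land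 (Nat.shiftRight (Nat.shiftRight m (nat_lit 34)) (Nat.land (Nat.shiftRight (Nat.shiftRight m (nat_lit 17)) (Nat.land (Nat.shiftRight (Nat.shiftRight m (nat_lit 34)) (Nat.land (Nat.shiftRight (Nat.shiftRight m (Nat.land (Nat.shiftRight c (nat_lit 9)) (nat_lit 65408))) (nat_lit 17)) (nat_lit 0x1ffff))) (nat_lit 0x1ffff))) (nat_lit 0x1ffff))) (nat_lit 0x1ffff))) (nat_lit 0x1ffff))) (nat_lit 0x1ffff))) (nat_lit 0x1ffff))) (nat_lit 0x1ffff))) (nat_lit 0x1ffff))) (nat_lit 0x1ffff))) (nat_lit 0x1ffff))) (nat_lit 0x1ffff))) (nat_lit 0x1ffff))) (nat_lit 0x1ffff))) (nat_lit 0x1ffff))) (nat_lit 0x1ffff))) (nat_lit 0x1ffff)))) (nat_lit 34))) (Nat.mul ((mskF k).1 (Nat.lor m (Nat.shiftLeft (Nat.lor (Nat.shiftLeft (Nat.land (Nat.shiftRight (Nat.shiftRight m (nat_lit 17)) (Nat.land (Nat.shiftRight (Nat.shiftRight m (nat_lit 34)) (Nat.land (Nat.shiftRight (Nat.shiftRight m (nat_lit 17)) (Nat.land (Nat.shiftRight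 (Nat.shiftRight m (nat_lit 34)) (Nat.land (Nat.shiftRight (Nat.shiftRight m (nat_lit 17)) (Nat.land (Nat.shiftRight (Nat.shiftRight m (nat_lit 34)) (Nat.land (Nat.shiftRight (Nat.shiftRight m (nat_lit 17)) (Nat.land (Nat.shiftRight (Nat.shiftRight m (nat_lit 34)) (Nat.land (Nat.shiftRight (Nat.shiftRight m (nat_lit 17)) (Nat.land (Nat.shiftRight (Nat.shiftRight m (nat_lit 34)) (Nat.land (Nat.shiftRight (Nat.shiftRight m (nat_lit 17)) (Nat.land (Nat.shiftRight (Nat.shiftRight m (nat_lit 34)) (Nat.land (Nat.shiftRight (Nat.shiftRight m (nat_lit 17)) (Nat.land (Nat.shiftRight (Nat.shiftRight m (nat_lit 34)) (Nat.land (Nat.shiftRight (Nat.shiftRight m (nat_lit 17)) (Nat.land (Nat.shiftRight (Nat.shiftRight m (nat_lit 34)) (Nat.land (Nat.shiftRight (Nat.shiftRight m (Nat.land (Nat.shiftRight c (nat_lit 9)) (nat_lit 65408))) (nat_lit 17)) (nat_lit 0x1ffff))) (nat_lit 0x1ffff))) (nat_lit 0x1ffff)))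 (nat_lit 0x1ffff))) (nat_lit 0x1ffff))) (nat_lit 0x1ffff))) (nat_lit 0x1ffff))) (nat_lit 0x1ffff))) (nat_lit 0x1ffff))) (nat_lit 0x1ffff))) (nat_lit 0x1ffff))) (nat_lit 0x1ffff))) (nat_lit 0x1ffff))) (nat_lit 0x1ffff))) (nat_lit 0x1ffff))) (nat_lit 0x1ffff))) (nat_lit 0x1ffff)) (Nat.land (Nat.shiftRight c (nat_lit 9)) (nat_lit 65408))) (Nat.shiftLeft (Nat.land (Nat.shiftRight c (nat_lit 9)) (nat_lit 65408)) (Nat.land (Nat.shiftRight (Nat.shiftRight m (nat_lit 17)) (Nat.land (Nat.shiftRight (Nat.shiftRight m (nat_lit 34)) (Nat.land (Nat.shiftRight (Nat.shiftRight m (nat_lit 17)) (Nat.land (Nat.shiftRight (Nat.shiftRight m (nat_lit 34)) (Nat.land (Nat.shiftRight (Nat.shiftRight m (nat_lit 17)) (Nat.land (Nat.shiftRight (Nat.shiftRight m (nat_lit 34)) (Nat.land (Nat.shiftRight (Nat.shiftRight m (nat_lit 17)) (Nat.land (Nat.shiftRight (Nat.shiftRight m (nat_lit 34)) (Nat.land (Nat.shiftRight (Nat.shiftRight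 m (nat_lit 17)) (Nat.land (Nat.shiftRight (Nat.shiftRight m (nat_lit 34)) (Nat.land (Nat.shiftRight (Nat.shiftRight m (nat_lit 17)) (Nat.land (Nat.shiftRight (Nat.shiftRight m (nat_lit 34)) (Nat.land (Nat.shiftRight (Nat.shiftRight m (nat_lit 17)) (Nat.land (Nat.shiftRight (Nat.shiftRight m (nat_lit 34)) (Nat.land (Nat.shiftRight (Nat.shiftRight m (nat_lit 17)) (Nat.land (Nat.shiftRight (Nat.shiftRight m (nat_lit 34)) (Nat.land (Nat.shiftRight (Nat.shiftRight m (Nat.land (Nat.shiftRight c (nat_lit 9)) (nat_lit 65408))) (nat_lit 17)) (nat_lit 0x1ffff))) (nat_lit 0x1ffff))) (nat_lit 0x1ffff))) (nat_lit 0x1ffff))) (nat_lit 0x1ffff))) (nat_lit 0x1ffff))) (nat_lit 0x1ffff))) (nat_lit 0x1ffff))) (nat_lit 0x1ffff))) (nat_lit 0x1ffff))) (nat_lit 0x1ffff))) (nat_lit 0x1ffff))) (nat_lit 0x1ffff))) (nat_lit 0x1ffff))) (nat_lit 0x1ffff))) (nat_lit 0x1ffff))) (nat_lit 0x1ffff)))) (nat_lit 34))) (Nat.land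 (Nat.shiftRight (Nat.shiftRight m (nat_lit 17)) (Nat.land (Nat.shiftRight (Nat.shiftRight m (nat_lit 34)) (Nat.land (Nat.shiftRight (Nat.shiftRight m (nat_lit 17)) (Nat.land (Nat.shiftRight (Nat.shiftRight m (nat_lit 34)) (Nat.land (Nat.shiftRight (Nat.shiftRight m (nat_lit 17)) (Nat.land (Nat.shiftRight (Nat.shiftRight m (nat_lit 34)) (Nat.land (Nat.shiftRight (Nat.shiftRight m (nat_lit 17)) (Nat.land (Nat.shiftRight (Nat.shiftRight m (nat_lit 34)) (Nat.land (Nat.shiftRight (Nat.shiftRight m (nat_lit 17)) (Nat.land (Nat.shiftRight (Nat.shiftRight m (nat_lit 34)) (Nat.land (Nat.shiftRight (Nat.shiftRight m (nat_lit 17)) (Nat.land (Nat.shiftRight (Nat.shiftRight m (nat_lit 34)) (Nat.land (Nat.shiftRight (Nat.shiftRight m (nat_lit 17)) (Nat.land (Nat.shiftRight (Nat.shiftRight m (nat_lit 34)) (Nat.land (Nat.shiftRight (Nat.shiftRight m (nat_lit 17)) (Nat.land (Nat.shiftRight (Nat.shiftRight m (nat_lit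 34)) (Nat.land (Nat.shiftRight (Nat.shiftRight m (Nat.land (Nat.shiftRight c (nat_lit 9)) (nat_lit 65408))) (nat_lit 17)) (nat_lit 0x1ffff))) (nat_lit 0x1ffff))) (nat_lit 0x1ffff))) (nat_lit 0x1ffff))) (nat_lit 0x1ffff))) (nat_lit 0x1ffff))) (nat_lit 0x1ffff))) (nat_lit 0x1ffff))) (nat_lit 0x1ffff))) (nat_lit 0x1ffff))) (nat_lit 0x1ffff))) (nat_lit 0x1ffff))) (nat_lit 0x1ffff))) (nat_lit 0x1ffff))) (nat_lit 0x1ffff))) (nat_lit 0x1ffff))) (nat_lit 0x1ffff))) (Nat.land (Nat.lor (Nat.shiftRight m (Nat.land (Nat.shiftRight (Nat.shiftRight m (nat_lit 17)) (Nat.land (Nat.shiftRight (Nat.shiftRight m (nat_lit 34)) (Nat.land (Nat.shiftRight (Nat.shiftRight m (nat_lit 17)) (Nat.land (Nat.shiftRight (Nat.shiftRight m (nat_lit 34)) (Nat.land (Nat.shiftRight (Nat.shiftRight m (nat_lit 17)) (Nat.land (Nat.shiftRight (Nat.shiftRight m (nat_lit 34)) (Nat.land (Nat.shiftRight (Nat.shiftRight m (nat_lit 17))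 (Nat.land (Nat.shiftRight (Nat.shiftRight m (nat_lit 34)) (Nat.land (Nat.shiftRight (Nat.shiftRight m (nat_lit 17)) (Nat.land (Nat.shiftRight (Nat.shiftRight m (nat_lit 34)) (Nat.land (Nat.shiftRight (Nat.shiftRight m (nat_lit 17)) (Nat.land (Nat.shiftRight (Nat.shiftRight m (nat_lit 34)) (Nat.land (Nat.shiftRight (Nat.shiftRight m (nat_lit 17)) (Nat.land (Nat.shiftRight (Nat.shiftRight m (nat_lit 34)) (Nat.land (Nat.shiftRight (Nat.shiftRight m (nat_lit 17)) (Nat.land (Nat.shiftRight (Nat.shiftRight m (nat_lit 34)) (Nat.land (Nat.shiftRight (Nat.shiftRight m (Nat.land (Nat.shiftRight c (nat_lit 9)) (nat_lit 65408))) (nat_lit 17)) (nat_lit 0x1ffff))) (nat_lit 0x1ffff))) (nat_lit 0x1ffff))) (nat_lit 0x1ffff))) (nat_lit 0x1ffff))) (nat_lit 0x1ffff))) (nat_lit 0x1ffff))) (nat_lit 0x1ffff))) (nat_lit 0x1ffff))) (nat_lit 0x1ffff))) (nat_lit 0x1ffff))) (nat_lit 0x1ffff))) (nat_lit 0x1ffff))) (nat_lit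 0x1ffff))) (nat_lit 0x1ffff))) (nat_lit 0x1ffff))) (nat_lit 0x1ffff))) (Nat.shiftRight m (Nat.land (Nat.shiftRight m (Nat.land (Nat.shiftRight c (nat_lit 9)) (nat_lit 65408))) (nat_lit 0x1ffff)))) (nat_lit 0xfffffc00000000000000000)))) (Nat.add (Nat.add nd (Nat.xor (Nat.land (Nat.shiftRight m (Nat.land (Nat.shiftRight c (nat_lit 9)) (nat_lit 65408))) (nat_lit 0xffe1fc00007fffc00000000)) (nat_lit 0xffe1fc00000000000000000))) (Nat.xor (Nat.land (Nat.shiftRight m (Nat.land (Nat.shiftRight (Nat.shiftRight m (nat_lit 17)) (Nat.land (Nat.shiftRight (Nat.shiftRight m (nat_lit 34)) (Nat.land (Nat.shiftRight (Nat.shiftRight m (nat_lit 17)) (Nat.land (Nat.shiftRight (Nat.shiftRight m (nat_lit 34)) (Nat.land (Nat.shiftRight (Nat.shiftRight m (nat_lit 17)) (Nat.land (Nat.shiftRight (Nat.shiftRight m (nat_lit 34)) (Nat.land (Nat.shiftRight (Nat.shiftRight m (nat_lit 17)) (Nat.land (Nat.shiftRight (Nat.shiftRight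 m (nat_lit 34)) (Nat.land (Nat.shiftRight (Nat.shiftRight m (nat_lit 17)) (Nat.land (Nat.shiftRight (Nat.shiftRight m (nat_lit 34)) (Nat.land (Nat.shiftRight (Nat.shiftRight m (nat_lit 17)) (Nat.land (Nat.shiftRight (Nat.shiftRight m (nat_lit 34)) (Nat.land (Nat.shiftRight (Nat.shiftRight m (nat_lit 17)) (Nat.land (Nat.shiftRight (Nat.shiftRight m (nat_lit 34)) (Nat.land (Nat.shiftRight (Nat.shiftRight m (nat_lit 17)) (Nat.land (Nat.shiftRight (Nat.shiftRight m (nat_lit 34)) (Nat.land (Nat.shiftRight (Nat.shiftRight m (Nat.land (Nat.shiftRight c (nat_lit 9)) (nat_lit 65408))) (nat_lit 17)) (nat_lit 0x1ffff))) (nat_lit 0x1ffff))) (nat_lit 0x1ffff))) (nat_lit 0x1ffff))) (nat_lit 0x1ffff))) (nat_lit 0x1ffff))) (nat_lit 0x1ffff))) (nat_lit 0x1ffff))) (nat_lit 0x1ffff))) (nat_lit 0x1ffff))) (nat_lit 0x1ffff))) (nat_lit 0x1ffff))) (nat_lit 0x1ffff))) (nat_lit 0x1ffff))) (nat_lit 0x1ffff))) (nat_lit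 0x1ffff))) (nat_lit 0x1ffff))) (nat_lit 0x80000000007fffc00000000)) (nat_lit 0x80000000000000000000000))) e (Nat.shiftRight c (nat_lit 25)))⟩ (fun _ _ => ⟨fun ih lim m nd e c => (ih.1 lim (Nat.lor m (Nat.shiftLeft (Nat.lor (Nat.shiftLeft (Nat.land (Nat.shiftRight (Nat.shiftRight m (nat_lit 17)) (Nat.land (Nat.shiftRight (Nat.shiftRight m (nat_lit 34)) (Nat.land (Nat.shiftRight (Nat.shiftRight m (nat_lit 17)) (Nat.land (Nat.shiftRight (Nat.shiftRight m (nat_lit 34)) (Nat.land (Nat.shiftRight (Nat.shiftRight m (nat_lit 17)) (Nat.land (Nat.shiftRight (Nat.shiftRight m (nat_lit 34)) (Nat.land (Nat.shiftRight (Nat.shiftRight m (nat_lit 17)) (Nat.land (Nat.shiftRight (Nat.shiftRight m (nat_lit 34)) (Nat.land (Nat.shiftRight (Nat.shiftRight m (nat_lit 17)) (Nat.land (Nat.shiftRight (Nat.shiftRight m (nat_lit 34)) (Nat.land (Nat.shiftRight (Nat.shiftRight m (nat_lit 17)) (Nat.land (Nat.shiftRight (Nat.shiftRight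 m (nat_lit 34)) (Nat.land (Nat.shiftRight (Nat.shiftRight m (nat_lit 17)) (Nat.land (Nat.shiftRight (Nat.shiftRight m (nat_lit 34)) (Nat.land (Nat.shiftRight (Nat.shiftRight m (nat_lit 17)) (Nat.land (Nat.shiftRight (Nat.shiftRight m (nat_lit 34)) (Nat.land (Nat.shiftRight (Nat.shiftRight m (Nat.land (Nat.shiftRight c (nat_lit 9)) (nat_lit 65408))) (nat_lit 17)) (nat_lit 0x1ffff))) (nat_lit 0x1ffff))) (nat_lit 0x1ffff))) (nat_lit 0x1ffff))) (nat_lit 0x1ffff))) (nat_lit 0x1ffff))) (nat_lit 0x1ffff))) (nat_lit 0x1ffff))) (nat_lit 0x1ffff))) (nat_lit 0x1ffff))) (nat_lit 0x1ffff))) (nat_lit 0x1ffff))) (nat_lit 0x1ffff))) (nat_lit 0x1ffff))) (nat_lit 0x1ffff))) (nat_lit 0x1ffff))) (nat_lit 0x1ffff)) (Nat.land (Nat.shiftRight c (nat_lit 9)) (nat_lit 65408))) (Nat.shiftLeft (Nat.land (Nat.shiftRight c (nat_lit 9)) (nat_lit 65408)) (Nat.land (Nat.shiftRight (Nat.shiftRight m (nat_lit 17)) (Nat.land (Nat.shiftRight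 (Nat.shiftRight m (nat_lit 34)) (Nat.land (Nat.shiftRight (Nat.shiftRight m (nat_lit 17)) (Nat.land (Nat.shiftRight (Nat.shiftRight m (nat_lit 34)) (Nat.land (Nat.shiftRight (Nat.shiftRight m (nat_lit 17)) (Nat.land (Nat.shiftRight (Nat.shiftRight m (nat_lit 34)) (Nat.land (Nat.shiftRight (Nat.shiftRight m (nat_lit 17)) (Nat.land (Nat.shiftRight (Nat.shiftRight m (nat_lit 34)) (Nat.land (Nat.shiftRight (Nat.shiftRight m (nat_lit 17)) (Nat.land (Nat.shiftRight (Nat.shiftRight m (nat_lit 34)) (Nat.land (Nat.shiftRight (Nat.shiftRight m (nat_lit 17)) (Nat.land (Nat.shiftRight (Nat.shiftRight m (nat_lit 34)) (Nat.land (Nat.shiftRight (Nat.shiftRight m (nat_lit 17)) (Nat.land (Nat.shiftRight (Nat.shiftRight m (nat_lit 34)) (Nat.land (Nat.shiftRight (Nat.shiftRight m (nat_lit 17)) (Nat.land (Nat.shiftRight (Nat.shiftRight m (nat_lit 34)) (Nat.land (Nat.shiftRight (Nat.shiftRight m (Nat.land (Nat.shiftRight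 c (nat_lit 9)) (nat_lit 65408))) (nat_lit 17)) (nat_lit 0x1ffff))) (nat_lit 0x1ffff))) (nat_lit 0x1ffff))) (nat_lit 0x1ffff))) (nat_lit 0x1ffff))) (nat_lit 0x1ffff))) (nat_lit 0x1ffff))) (nat_lit 0x1ffff))) (nat_lit 0x1ffff))) (nat_lit 0x1ffff))) (nat_lit 0x1ffff))) (nat_lit 0x1ffff))) (nat_lit 0x1ffff))) (nat_lit 0x1ffff))) (nat_lit 0x1ffff))) (nat_lit 0x1ffff))) (nat_lit 0x1ffff)))) (nat_lit 34))) (Nat.add (Nat.add nd (Nat.xor (Nat.land (Nat.shiftRight m (Nat.land (Nat.shiftRight c (nat_lit 9)) (nat_lit 65408))) (nat_lit 0xffe1fc00007fffc00000000)) (nat_lit 0xffe1fc00000000000000000))) (Nat.xor (Nat.land (Nat.shiftRight m (Nat.land (Nat.shiftRight (Nat.shiftRight m (nat_lit 17)) (Nat.land (Nat.shiftRight (Nat.shiftRight m (nat_lit 34)) (Nat.land (Nat.shiftRight (Nat.shiftRight m (nat_lit 17)) (Nat.land (Nat.shiftRight (Nat.shiftRight m (nat_lit 34)) (Nat.land (Nat.shiftRight (Nat.shiftRight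 m (nat_lit 17)) (Nat.land (Nat.shiftRight (Nat.shiftRight m (nat_lit 34)) (Nat.land (Nat.shiftRight (Nat.shiftRight m (nat_lit 17)) (Nat.land (Nat.shiftRight (Nat.shiftRight m (nat_lit 34)) (Nat.land (Nat.shiftRight (Nat.shiftRight m (nat_lit 17)) (Nat.land (Nat.shiftRight (Nat.shiftRight m (nat_lit 34)) (Nat.land (Nat.shiftRight (Nat.shiftRight m (nat_lit 17)) (Nat.land (Nat.shiftRight (Nat.shiftRight m (nat_lit 34)) (Nat.land (Nat.shiftRight (Nat.shiftRight m (nat_lit 17)) (Nat.land (Nat.shiftRight (Nat.shiftRight m (nat_lit 34)) (Nat.land (Nat.shiftRight (Nat.shiftRight m (nat_lit 17)) (Nat.land (Nat.shiftRight (Nat.shiftRight m (nat_lit 34)) (Nat.land (Nat.shiftRight (Nat.shiftRight m (Nat.land (Nat.shiftRight c (nat_lit 9)) (nat_lit 65408))) (nat_lit 17)) (nat_lit 0x1ffff))) (nat_lit 0x1ffff))) (nat_lit 0x1ffff))) (nat_lit 0x1ffff))) (nat_lit 0x1ffff))) (nat_lit 0x1ffff))) (nat_lit 0x1ffff)))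 (nat_lit 0x1ffff))) (nat_lit 0x1ffff))) (nat_lit 0x1ffff))) (nat_lit 0x1ffff))) (nat_lit 0x1ffff))) (nat_lit 0x1ffff))) (nat_lit 0x1ffff))) (nat_lit 0x1ffff))) (nat_lit 0x1ffff))) (nat_lit 0x1ffff))) (nat_lit 0x80000000007fffc00000000)) (nat_lit 0x80000000000000000000000))) e (Nat.shiftRight c (nat_lit 25)))⟩) (Nat.shiftRight k (nat_lit 15)))

def oJn10 (k : ℕ) : Op :=
  (@Nat.rec (fun _ => Op) ⟨fun ih lim m nd e c => (ih.1 lim (Nat.lor (Nat.lor m (Nat.shiftLeft (Nat.lor (Nat.shiftLeft (Nat.land (Nat.shiftRight (Nat.shiftRight m (nat_lit 17)) (Nat.land (Nat.shiftRight (Nat.shiftRight m (nat_lit 34)) (Nat.land (Nat.shiftRight (Nat.shiftRight m (nat_lit 17)) (Nat.land (Nat.shiftRight (Nat.shiftRight m (nat_lit 34)) (Nat.land (Nat.shiftRight (Nat.shiftRight m (nat_lit 17)) (Nat.land (Nat.shiftRight (Nat.shiftRight m (nat_lit 34)) (Nat.land (Nat.shiftRight (Nat.shiftRight m (nat_lit 17)) (Nat.land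 (Nat.shiftRight (Nat.shiftRight m (nat_lit 34)) (Nat.land (Nat.shiftRight (Nat.shiftRight m (nat_lit 17)) (Nat.land (Nat.shiftRight (Nat.shiftRight m (nat_lit 34)) (Nat.land (Nat.shiftRight (Nat.shiftRight m (nat_lit 17)) (Nat.land (Nat.shiftRight (Nat.shiftRight m (nat_lit 34)) (Nat.land (Nat.shiftRight (Nat.shiftRight m (nat_lit 17)) (Nat.land (Nat.shiftRight (Nat.shiftRight m (nat_lit 34)) (Nat.land (Nat.shiftRight (Nat.shiftRight m (nat_lit 17)) (Nat.land (Nat.shiftRight (Nat.shiftRight m (nat_lit 34)) (Nat.land (Nat.shiftRight (Nat.shiftRight m (nat_lit 17)) (Nat.land (Nat.shiftRight (Nat.shiftRight m (nat_lit 34)) (Nat.land (Nat.shiftRight (Nat.shiftRight m (Nat.land (Nat.shiftRight c (nat_lit 9)) (nat_lit 65408))) (nat_lit 17)) (nat_lit 0x1ffff))) (nat_lit 0x1ffff))) (nat_lit 0x1ffff))) (nat_lit 0x1ffff))) (nat_lit 0x1ffff))) (nat_lit 0x1ffff))) (nat_lit 0x1ffff))) (nat_lit 0x1ffff)))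 (nat_lit 0x1ffff))) (nat_lit 0x1ffff))) (nat_lit 0x1ffff))) (nat_lit 0x1ffff))) (nat_lit 0x1ffff))) (nat_lit 0x1ffff))) (nat_lit 0x1ffff))) (nat_lit 0x1ffff))) (nat_lit 0x1ffff))) (nat_lit 0x1ffff))) (nat_lit 0x1ffff)) (Nat.land (Nat.shiftRight c (nat_lit 9)) (nat_lit 65408))) (Nat.shiftLeft (Nat.land (Nat.shiftRight c (nat_lit 9)) (nat_lit 65408)) (Nat.land (Nat.shiftRight (Nat.shiftRight m (nat_lit 17)) (Nat.land (Nat.shiftRight (Nat.shiftRight m (nat_lit 34)) (Nat.land (Nat.shiftRight (Nat.shiftRight m (nat_lit 17)) (Nat.land (Nat.shiftRight (Nat.shiftRight m (nat_lit 34)) (Nat.land (Nat.shiftRight (Nat.shiftRight m (nat_lit 17)) (Nat.land (Nat.shiftRight (Nat.shiftRight m (nat_lit 34)) (Nat.land (Nat.shiftRight (Nat.shiftRight m (nat_lit 17)) (Nat.land (Nat.shiftRight (Nat.shiftRight m (nat_lit 34)) (Nat.land (Nat.shiftRight (Nat.shiftRight m (nat_lit 17)) (Nat.land (Nat.shiftRight (Nat.shiftRight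 m (nat_lit 34)) (Nat.land (Nat.shiftRight (Nat.shiftRight m (nat_lit 17)) (Nat.land (Nat.shiftRight (Nat.shiftRight m (nat_lit 34)) (Nat.land (Nat.shiftRight (Nat.shiftRight m (nat_lit 17)) (Nat.land (Nat.shiftRight (Nat.shiftRight m (nat_lit 34)) (Nat.land (Nat.shiftRight (Nat.shiftRight m (nat_lit 17)) (Nat.land (Nat.shiftRight (Nat.shiftRight m (nat_lit 34)) (Nat.land (Nat.shiftRight (Nat.shiftRight m (nat_lit 17)) (Nat.land (Nat.shiftRight (Nat.shiftRight m (nat_lit 34)) (Nat.land (Nat.shiftRight (Nat.shiftRight m (Nat.land (Nat.shiftRight c (nat_lit 9)) (nat_lit 65408))) (nat_lit 17)) (nat_lit 0x1ffff))) (nat_lit 0x1ffff))) (nat_lit 0x1ffff))) (nat_lit 0x1ffff))) (nat_lit 0x1ffff))) (nat_lit 0x1ffff))) (nat_lit 0x1ffff))) (nat_lit 0x1ffff))) (nat_lit 0x1ffff))) (nat_lit 0x1ffff))) (nat_lit 0x1ffff))) (nat_lit 0x1ffff))) (nat_lit 0x1ffff))) (nat_lit 0x1ffff))) (nat_lit 0x1ffff))) (nat_lit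 0x1ffff))) (nat_lit 0x1ffff))) (nat_lit 0x1ffff))) (nat_lit 0x1ffff)))) (nat_lit 34))) (Nat.mul ((mskF k).1 (Nat.lor m (Nat.shiftLeft (Nat.lor (Nat.shiftLeft (Nat.land (Nat.shiftRight (Nat.shiftRight m (nat_lit 17)) (Nat.land (Nat.shiftRight (Nat.shiftRight m (nat_lit 34)) (Nat.land (Nat.shiftRight (Nat.shiftRight m (nat_lit 17)) (Nat.land (Nat.shiftRight (Nat.shiftRight m (nat_lit 34)) (Nat.land (Nat.shiftRight (Nat.shiftRight m (nat_lit 17)) (Nat.land (Nat.shiftRight (Nat.shiftRight m (nat_lit 34)) (Nat.land (Nat.shiftRight (Nat.shiftRight m (nat_lit 17)) (Nat.land (Nat.shiftRight (Nat.shiftRight m (nat_lit 34)) (Nat.land (Nat.shiftRight (Nat.shiftRight m (nat_lit 17)) (Nat.land (Nat.shiftRight (Nat.shiftRight m (nat_lit 34)) (Nat.land (Nat.shiftRight (Nat.shiftRight m (nat_lit 17)) (Nat.land (Nat.shiftRight (Nat.shiftRight m (nat_lit 34)) (Nat.land (Nat.shiftRight (Nat.shiftRight m (nat_lit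 17)) (Nat.land (Nat.shiftRight (Nat.shiftRight m (nat_lit 34)) (Nat.land (Nat.shiftRight (Nat.shiftRight m (nat_lit 17)) (Nat.land (Nat.shiftRight (Nat.shiftRight m (nat_lit 34)) (Nat.land (Nat.shiftRight (Nat.shiftRight m (nat_lit 17)) (Nat.land (Nat.shiftRight (Nat.shiftRight m (nat_lit 34)) (Nat.land (Nat.shiftRight (Nat.shiftRight m (Nat.land (Nat.shiftRight c (nat_lit 9)) (nat_lit 65408))) (nat_lit 17)) (nat_lit 0x1ffff))) (nat_lit 0x1ffff))) (nat_lit 0x1ffff))) (nat_lit 0x1ffff))) (nat_lit 0x1ffff))) (nat_lit 0x1ffff))) (nat_lit 0x1ffff))) (nat_lit 0x1ffff))) (nat_lit 0x1ffff))) (nat_lit 0x1ffff))) (nat_lit 0x1ffff))) (nat_lit 0x1ffff))) (nat_lit 0x1ffff))) (nat_lit 0x1ffff))) (nat_lit 0x1ffff))) (nat_lit 0x1ffff))) (nat_lit 0x1ffff))) (nat_lit 0x1ffff))) (nat_lit 0x1ffff)) (Nat.land (Nat.shiftRight c (nat_lit 9)) (nat_lit 65408))) (Nat.shiftLeft (Nat.land (Nat.shiftRight c (nat_lit 9))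 (nat_lit 65408)) (Nat.land (Nat.shiftRight (Nat.shiftRight m (nat_lit 17)) (Nat.land (Nat.shiftRight (Nat.shiftRight m (nat_lit 34)) (Nat.land (Nat.shiftRight (Nat.shiftRight m (nat_lit 17)) (Nat.land (Nat.shiftRight (Nat.shiftRight m (nat_lit 34)) (Nat.land (Nat.shiftRight (Nat.shiftRight m (nat_lit 17)) (Nat.land (Nat.shiftRight (Nat.shiftRight m (nat_lit 34)) (Nat.land (Nat.shiftRight (Nat.shiftRight m (nat_lit 17)) (Nat.land (Nat.shiftRight (Nat.shiftRight m (nat_lit 34)) (Nat.land (Nat.shiftRight (Nat.shiftRight m (nat_lit 17)) (Nat.land (Nat.shiftRight (Nat.shiftRight m (nat_lit 34)) (Nat.land (Nat.shiftRight (Nat.shiftRight m (nat_lit 17)) (Nat.land (Nat.shiftRight (Nat.shiftRight m (nat_lit 34)) (Nat.land (Nat.shiftRight (Nat.shiftRight m (nat_lit 17)) (Nat.land (Nat.shiftRight (Nat.shiftRight m (nat_lit 34)) (Nat.land (Nat.shiftRight (Nat.shiftRight m (nat_lit 17)) (Nat.land (Nat.shiftRight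 (Nat.shiftRight m (nat_lit 34)) (Nat.land (Nat.shiftRight (Nat.shiftRight m (nat_lit 17)) (Nat.land (Nat.shiftRight (Nat.shiftRight m (nat_lit 34)) (Nat.land (Nat.shiftRight (Nat.shiftRight m (Nat.land (Nat.shiftRight c (nat_lit 9)) (nat_lit 65408))) (nat_lit 17)) (nat_lit 0x1ffff))) (nat_lit 0x1ffff))) (nat_lit 0x1ffff))) (nat_lit 0x1ffff))) (nat_lit 0x1ffff))) (nat_lit 0x1ffff))) (nat_lit 0x1ffff))) (nat_lit 0x1ffff))) (nat_lit 0x1ffff))) (nat_lit 0x1ffff))) (nat_lit 0x1ffff))) (nat_lit 0x1ffff))) (nat_lit 0x1ffff))) (nat_lit 0x1ffff))) (nat_lit 0x1ffff))) (nat_lit 0x1ffff))) (nat_lit 0x1ffff))) (nat_lit 0x1ffff))) (nat_lit 0x1ffff)))) (nat_lit 34))) (Nat.land (Nat.shiftRight (Nat.shiftRight m (nat_lit 17)) (Nat.land (Nat.shiftRight (Nat.shiftRight m (nat_lit 34)) (Nat.land (Nat.shiftRight (Nat.shiftRight m (nat_lit 17)) (Nat.land (Nat.shiftRight (Nat.shiftRight m (nat_lit 34)) (Nat.land (Nat.shiftRight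 (Nat.shiftRight m (nat_lit 17)) (Nat.land (Nat.shiftRight (Nat.shiftRight m (nat_lit 34)) (Nat.land (Nat.shiftRight (Nat.shiftRight m (nat_lit 17)) (Nat.land (Nat.shiftRight (Nat.shiftRight m (nat_lit 34)) (Nat.land (Nat.shiftRight (Nat.shiftRight m (nat_lit 17)) (Nat.land (Nat.shiftRight (Nat.shiftRight m (nat_lit 34)) (Nat.land (Nat.shiftRight (Nat.shiftRight m (nat_lit 17)) (Nat.land (Nat.shiftRight (Nat.shiftRight m (nat_lit 34)) (Nat.land (Nat.shiftRight (Nat.shiftRight m (nat_lit 17)) (Nat.land (Nat.shiftRight (Nat.shiftRight m (nat_lit 34)) (Nat.land (Nat.shiftRight (Nat.shiftRight m (nat_lit 17)) (Nat.land (Nat.shiftRight (Nat.shiftRight m (nat_lit 34)) (Nat.land (Nat.shiftRight (Nat.shiftRight m (nat_lit 17)) (Nat.land (Nat.shiftRight (Nat.shiftRight m (nat_lit 34)) (Nat.land (Nat.shiftRight (Nat.shiftRight m (Nat.land (Nat.shiftRight c (nat_lit 9)) (nat_lit 65408))) (nat_lit 17)) (nat_lit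 0x1ffff))) (nat_lit 0x1ffff))) (nat_lit 0x1ffff))) (nat_lit 0x1ffff))) (nat_lit 0x1ffff))) (nat_lit 0x1ffff))) (nat_lit 0x1ffff))) (nat_lit 0x1ffff))) (nat_lit 0x1ffff))) (nat_lit 0x1ffff))) (nat_lit 0x1ffff))) (nat_lit 0x1ffff))) (nat_lit 0x1ffff))) (nat_lit 0x1ffff))) (nat_lit 0x1ffff))) (nat_lit 0x1ffff))) (nat_lit 0x1ffff))) (nat_lit 0x1ffff))) (nat_lit 0x1ffff))) (Nat.land (Nat.lor (Nat.shiftRight m (Nat.land (Nat.shiftRight (Nat.shiftRight m (nat_lit 17)) (Nat.land (Nat.shiftRight (Nat.shiftRight m (nat_lit 34)) (Nat.land (Nat.shiftRight (Nat.shiftRight m (nat_lit 17)) (Nat.land (Nat.shiftRight (Nat.shiftRight m (nat_lit 34)) (Nat.land (Nat.shiftRight (Nat.shiftRight m (nat_lit 17)) (Nat.land (Nat.shiftRight (Nat.shiftRight m (nat_lit 34)) (Nat.land (Nat.shiftRight (Nat.shiftRight m (nat_lit 17)) (Nat.land (Nat.shiftRight (Nat.shiftRight m (nat_lit 34)) (Nat.land (Nat.shiftRight (Nat.shiftRight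 m (nat_lit 17)) (Nat.land (Nat.shiftRight (Nat.shiftRight m (nat_lit 34)) (Nat.land (Nat.shiftRight (Nat.shiftRight m (nat_lit 17)) (Nat.land (Nat.shiftRight (Nat.shiftRight m (nat_lit 34)) (Nat.land (Nat.shiftRight (Nat.shiftRight m (nat_lit 17)) (Nat.land (Nat.shiftRight (Nat.shiftRight m (nat_lit 34)) (Nat.land (Nat.shiftRight (Nat.shiftRight m (nat_lit 17)) (Nat.land (Nat.shiftRight (Nat.shiftRight m (nat_lit 34)) (Nat.land (Nat.shiftRight (Nat.shiftRight m (nat_lit 17)) (Nat.land (Nat.shiftRight (Nat.shiftRight m (nat_lit 34)) (Nat.land (Nat.shiftRight (Nat.shiftRight m (Nat.land (Nat.shiftRight c (nat_lit 9)) (nat_lit 65408))) (nat_lit 17)) (nat_lit 0x1ffff))) (nat_lit 0x1ffff))) (nat_lit 0x1ffff))) (nat_lit 0x1ffff))) (nat_lit 0x1ffff))) (nat_lit 0x1ffff))) (nat_lit 0x1ffff))) (nat_lit 0x1ffff))) (nat_lit 0x1ffff))) (nat_lit 0x1ffff))) (nat_lit 0x1ffff))) (nat_lit 0x1ffff))) (nat_lit 0x1ffff)))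 (nat_lit 0x1ffff))) (nat_lit 0x1ffff))) (nat_lit 0x1ffff))) (nat_lit 0x1ffff))) (nat_lit 0x1ffff))) (nat_lit 0x1ffff))) (Nat.shiftRight m (Nat.land (Nat.shiftRight m (Nat.land (Nat.shiftRight c (nat_lit 9)) (nat_lit 65408))) (nat_lit 0x1ffff)))) (nat_lit 0xfffffc00000000000000000)))) (Nat.add (Nat.add nd (Nat.xor (Nat.land (Nat.shiftRight m (Nat.land (Nat.shiftRight c (nat_lit 9)) (nat_lit 65408))) (nat_lit 0xff9ffc00007fffc00000000)) (nat_lit 0xff9ffc00000000000000000))) (Nat.xor (Nat.land (Nat.shiftRight m (Nat.land (Nat.shiftRight (Nat.shiftRight m (nat_lit 17)) (Nat.land (Nat.shiftRight (Nat.shiftRight m (nat_lit 34)) (Nat.land (Nat.shiftRight (Nat.shiftRight m (nat_lit 17)) (Nat.land (Nat.shiftRight (Nat.shiftRight m (nat_lit 34)) (Nat.land (Nat.shiftRight (Nat.shiftRight m (nat_lit 17)) (Nat.land (Nat.shiftRight (Nat.shiftRight m (nat_lit 34)) (Nat.land (Nat.shiftRight (Nat.shiftRight m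 (nat_lit 17)) (Nat.land (Nat.shiftRight (Nat.shiftRight m (nat_lit 34)) (Nat.land (Nat.shiftRight (Nat.shiftRight m (nat_lit 17)) (Nat.land (Nat.shiftRight (Nat.shiftRight m (nat_lit 34)) (Nat.land (Nat.shiftRight (Nat.shiftRight m (nat_lit 17)) (Nat.land (Nat.shiftRight (Nat.shiftRight m (nat_lit 34)) (Nat.land (Nat.shiftRight (Nat.shiftRight m (nat_lit 17)) (Nat.land (Nat.shiftRight (Nat.shiftRight m (nat_lit 34)) (Nat.land (Nat.shiftRight (Nat.shiftRight m (nat_lit 17)) (Nat.land (Nat.shiftRight (Nat.shiftRight m (nat_lit 34)) (Nat.land (Nat.shiftRight (Nat.shiftRight m (nat_lit 17)) (Nat.land (Nat.shiftRight (Nat.shiftRight m (nat_lit 34)) (Nat.land (Nat.shiftRight (Nat.shiftRight m (Nat.land (Nat.shiftRight c (nat_lit 9)) (nat_lit 65408))) (nat_lit 17)) (nat_lit 0x1ffff))) (nat_lit 0x1ffff))) (nat_lit 0x1ffff))) (nat_lit 0x1ffff))) (nat_lit 0x1ffff))) (nat_lit 0x1ffff))) (nat_lit 0x1ffff)))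 (nat_lit 0x1ffff))) (nat_lit 0x1ffff))) (nat_lit 0x1ffff))) (nat_lit 0x1ffff))) (nat_lit 0x1ffff))) (nat_lit 0x1ffff))) (nat_lit 0x1ffff))) (nat_lit 0x1ffff))) (nat_lit 0x1ffff))) (nat_lit 0x1ffff))) (nat_lit 0x1ffff))) (nat_lit 0x1ffff))) (nat_lit 0x80000000007fffc00000000)) (nat_lit 0x80000000000000000000000))) e (Nat.shiftRight c (nat_lit 25)))⟩ (fun _ _ => ⟨fun ih lim m nd e c => (ih.1 lim (Nat.lor m (Nat.shiftLeft (Nat.lor (Nat.shiftLeft (Nat.land (Nat.shiftRight (Nat.shiftRight m (nat_lit 17)) (Nat.land (Nat.shiftRight (Nat.shiftRight m (nat_lit 34)) (Nat.land (Nat.shiftRight (Nat.shiftRight m (nat_lit 17)) (Nat.land (Nat.shiftRight (Nat.shiftRight m (nat_lit 34)) (Nat.land (Nat.shiftRight (Nat.shiftRight m (nat_lit 17)) (Nat.land (Nat.shiftRight (Nat.shiftRight m (nat_lit 34)) (Nat.land (Nat.shiftRight (Nat.shiftRight m (nat_lit 17)) (Nat.land (Nat.shiftRight (Nat.shiftRight m (nat_lit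 34)) (Nat.land (Nat.shiftRight (Nat.shiftRight m (nat_lit 17)) (Nat.land (Nat.shiftRight (Nat.shiftRight m (nat_lit 34)) (Nat.land (Nat.shiftRight (Nat.shiftRight m (nat_lit 17)) (Nat.land (Nat.shiftRight (Nat.shiftRight m (nat_lit 34)) (Nat.land (Nat.shiftRight (Nat.shiftRight m (nat_lit 17)) (Nat.land (Nat.shiftRight (Nat.shiftRight m (nat_lit 34)) (Nat.land (Nat.shiftRight (Nat.shiftRight m (nat_lit 17)) (Nat.land (Nat.shiftRight (Nat.shiftRight m (nat_lit 34)) (Nat.land (Nat.shiftRight (Nat.shiftRight m (nat_lit 17)) (Nat.land (Nat.shiftRight (Nat.shiftRight m (nat_lit 34)) (Nat.land (Nat.shiftRight (Nat.shiftRight m (Nat.land (Nat.shiftRight c (nat_lit 9)) (nat_lit 65408))) (nat_lit 17)) (nat_lit 0x1ffff))) (nat_lit 0x1ffff))) (nat_lit 0x1ffff))) (nat_lit 0x1ffff))) (nat_lit 0x1ffff))) (nat_lit 0x1ffff))) (nat_lit 0x1ffff))) (nat_lit 0x1ffff))) (nat_lit 0x1ffff))) (nat_lit 0x1ffff))) (nat_lit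 0x1ffff))) (nat_lit 0x1ffff))) (nat_lit 0x1ffff))) (nat_lit 0x1ffff))) (nat_lit 0x1ffff))) (nat_lit 0x1ffff))) (nat_lit 0x1ffff))) (nat_lit 0x1ffff))) (nat_lit 0x1ffff)) (Nat.land (Nat.shiftRight c (nat_lit 9)) (nat_lit 65408))) (Nat.shiftLeft (Nat.land (Nat.shiftRight c (nat_lit 9)) (nat_lit 65408)) (Nat.land (Nat.shiftRight (Nat.shiftRight m (nat_lit 17)) (Nat.land (Nat.shiftRight (Nat.shiftRight m (nat_lit 34)) (Nat.land (Nat.shiftRight (Nat.shiftRight m (nat_lit 17)) (Nat.land (Nat.shiftRight (Nat.shiftRight m (nat_lit 34)) (Nat.land (Nat.shiftRight (Nat.shiftRight m (nat_lit 17)) (Nat.land (Nat.shiftRight (Nat.shiftRight m (nat_lit 34)) (Nat.land (Nat.shiftRight (Nat.shiftRight m (nat_lit 17)) (Nat.land (Nat.shiftRight (Nat.shiftRight m (nat_lit 34)) (Nat.land (Nat.shiftRight (Nat.shiftRight m (nat_lit 17)) (Nat.land (Nat.shiftRight (Nat.shiftRight m (nat_lit 34)) (Nat.land (Nat.shiftRight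 (Nat.shiftRight m (nat_lit 17)) (Nat.land (Nat.shiftRight (Nat.shiftRight m (nat_lit 34)) (Nat.land (Nat.shiftRight (Nat.shiftRight m (nat_lit 17)) (Nat.land (Nat.shiftRight (Nat.shiftRight m (nat_lit 34)) (Nat.land (Nat.shiftRight (Nat.shiftRight m (nat_lit 17)) (Nat.land (Nat.shiftRight (Nat.shiftRight m (nat_lit 34)) (Nat.land (Nat.shiftRight (Nat.shiftRight m (nat_lit 17)) (Nat.land (Nat.shiftRight (Nat.shiftRight m (nat_lit 34)) (Nat.land (Nat.shiftRight (Nat.shiftRight m (Nat.land (Nat.shiftRight c (nat_lit 9)) (nat_lit 65408))) (nat_lit 17)) (nat_lit 0x1ffff))) (nat_lit 0x1ffff))) (nat_lit 0x1ffff))) (nat_lit 0x1ffff))) (nat_lit 0x1ffff))) (nat_lit 0x1ffff))) (nat_lit 0x1ffff))) (nat_lit 0x1ffff))) (nat_lit 0x1ffff))) (nat_lit 0x1ffff))) (nat_lit 0x1ffff))) (nat_lit 0x1ffff))) (nat_lit 0x1ffff))) (nat_lit 0x1ffff))) (nat_lit 0x1ffff))) (nat_lit 0x1ffff))) (nat_lit 0x1ffff))) (nat_lit 0x1ffff)))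 (nat_lit 0x1ffff)))) (nat_lit 34))) (Nat.add (Nat.add nd (Nat.xor (Nat.land (Nat.shiftRight m (Nat.land (Nat.shiftRight c (nat_lit 9)) (nat_lit 65408))) (nat_lit 0xff9ffc00007fffc00000000)) (nat_lit 0xff9ffc00000000000000000))) (Nat.xor (Nat.land (Nat.shiftRight m (Nat.land (Nat.shiftRight (Nat.shiftRight m (nat_lit 17)) (Nat.land (Nat.shiftRight (Nat.shiftRight m (nat_lit 34)) (Nat.land (Nat.shiftRight (Nat.shiftRight m (nat_lit 17)) (Nat.land (Nat.shiftRight (Nat.shiftRight m (nat_lit 34)) (Nat.land (Nat.shiftRight (Nat.shiftRight m (nat_lit 17)) (Nat.land (Nat.shiftRight (Nat.shiftRight m (nat_lit 34)) (Nat.land (Nat.shiftRight (Nat.shiftRight m (nat_lit 17)) (Nat.land (Nat.shiftRight (Nat.shiftRight m (nat_lit 34)) (Nat.land (Nat.shiftRight (Nat.shiftRight m (nat_lit 17)) (Nat.land (Nat.shiftRight (Nat.shiftRight m (nat_lit 34)) (Nat.land (Nat.shiftRight (Nat.shiftRight m (nat_lit 17)) (Nat.land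 (Nat.shiftRight (Nat.shiftRight m (nat_lit 34)) (Nat.land (Nat.shiftRight (Nat.shiftRight m (nat_lit 17)) (Nat.land (Nat.shiftRight (Nat.shiftRight m (nat_lit 34)) (Nat.land (Nat.shiftRight (Nat.shiftRight m (nat_lit 17)) (Nat.land (Nat.shiftRight (Nat.shiftRight m (nat_lit 34)) (Nat.land (Nat.shiftRight (Nat.shiftRight m (nat_lit 17)) (Nat.land (Nat.shiftRight (Nat.shiftRight m (nat_lit 34)) (Nat.land (Nat.shiftRight (Nat.shiftRight m (Nat.land (Nat.shiftRight c (nat_lit 9)) (nat_lit 65408))) (nat_lit 17)) (nat_lit 0x1ffff))) (nat_lit 0x1ffff))) (nat_lit 0x1ffff))) (nat_lit 0x1ffff))) (nat_lit 0x1ffff))) (nat_lit 0x1ffff))) (nat_lit 0x1ffff))) (nat_lit 0x1ffff))) (nat_lit 0x1ffff))) (nat_lit 0x1ffff))) (nat_lit 0x1ffff))) (nat_lit 0x1ffff))) (nat_lit 0x1ffff))) (nat_lit 0x1ffff))) (nat_lit 0x1ffff))) (nat_lit 0x1ffff))) (nat_lit 0x1ffff))) (nat_lit 0x1ffff))) (nat_lit 0x1ffff))) (nat_lit 0x80000000007fffc00000000))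 (nat_lit 0x80000000000000000000000))) e (Nat.shiftRight c (nat_lit 25)))⟩) (Nat.shiftRight k (nat_lit 15)))

def oJn11 (k : ℕ) : Op :=
  (@Nat.rec (fun _ => Op) ⟨fun ih lim m nd e c => (ih.1 lim (Nat.lor (Nat.lor m (Nat.shiftLeft (Nat.lor (Nat.shiftLeft (Nat.land (Nat.shiftRight (Nat.shiftRight m (nat_lit 17)) (Nat.land (Nat.shiftRight (Nat.shiftRight m (nat_lit 34)) (Nat.land (Nat.shiftRight (Nat.shiftRight m (nat_lit 17)) (Nat.land (Nat.shiftRight (Nat.shiftRight m (nat_lit 34)) (Nat.land (Nat.shiftRight (Nat.shiftRight m (nat_lit 17)) (Nat.land (Nat.shiftRight (Nat.shiftRight m (nat_lit 34)) (Nat.land (Nat.shiftRight (Nat.shiftRight m (nat_lit 17)) (Nat.land (Nat.shiftRight (Nat.shiftRight m (nat_lit 34)) (Nat.land (Nat.shiftRight (Nat.shiftRight m (nat_lit 17)) (Nat.land (Nat.shiftRight (Nat.shiftRight m (nat_lit 34)) (Nat.land (Nat.shiftRight (Nat.shiftRight m (nat_lit 17)) (Nat.land (Nat.shiftRight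 (Nat.shiftRight m (nat_lit 34)) (Nat.land (Nat.shiftRight (Nat.shiftRight m (nat_lit 17)) (Nat.land (Nat.shiftRight (Nat.shiftRight m (nat_lit 34)) (Nat.land (Nat.shiftRight (Nat.shiftRight m (nat_lit 17)) (Nat.land (Nat.shiftRight (Nat.shiftRight m (nat_lit 34)) (Nat.land (Nat.shiftRight (Nat.shiftRight m (nat_lit 17)) (Nat.land (Nat.shiftRight (Nat.shiftRight m (nat_lit 34)) (Nat.land (Nat.shiftRight (Nat.shiftRight m (nat_lit 17)) (Nat.land (Nat.shiftRight (Nat.shiftRight m (nat_lit 34)) (Nat.land (Nat.shiftRight (Nat.shiftRight m (Nat.land (Nat.shiftRight c (nat_lit 9)) (nat_lit 65408))) (nat_lit 17)) (nat_lit 0x1ffff))) (nat_lit 0x1ffff))) (nat_lit 0x1ffff))) (nat_lit 0x1ffff))) (nat_lit 0x1ffff))) (nat_lit 0x1ffff))) (nat_lit 0x1ffff))) (nat_lit 0x1ffff))) (nat_lit 0x1ffff))) (nat_lit 0x1ffff))) (nat_lit 0x1ffff))) (nat_lit 0x1ffff))) (nat_lit 0x1ffff))) (nat_lit 0x1ffff))) (nat_lit 0x1ffff)))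 (nat_lit 0x1ffff))) (nat_lit 0x1ffff))) (nat_lit 0x1ffff))) (nat_lit 0x1ffff))) (nat_lit 0x1ffff))) (nat_lit 0x1ffff)) (Nat.land (Nat.shiftRight c (nat_lit 9)) (nat_lit 65408))) (Nat.shiftLeft (Nat.land (Nat.shiftRight c (nat_lit 9)) (nat_lit 65408)) (Nat.land (Nat.shiftRight (Nat.shiftRight m (nat_lit 17)) (Nat.land (Nat.shiftRight (Nat.shiftRight m (nat_lit 34)) (Nat.land (Nat.shiftRight (Nat.shiftRight m (nat_lit 17)) (Nat.land (Nat.shiftRight (Nat.shiftRight m (nat_lit 34)) (Nat.land (Nat.shiftRight (Nat.shiftRight m (nat_lit 17)) (Nat.land (Nat.shiftRight (Nat.shiftRight m (nat_lit 34)) (Nat.land (Nat.shiftRight (Nat.shiftRight m (nat_lit 17)) (Nat.land (Nat.shiftRight (Nat.shiftRight m (nat_lit 34)) (Nat.land (Nat.shiftRight (Nat.shiftRight m (nat_lit 17)) (Nat.land (Nat.shiftRight (Nat.shiftRight m (nat_lit 34)) (Nat.land (Nat.shiftRight (Nat.shiftRight m (nat_lit 17)) (Nat.land (Nat.shiftRight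 (Nat.shiftRight m (nat_lit 34)) (Nat.land (Nat.shiftRight (Nat.shiftRight m (nat_lit 17)) (Nat.land (Nat.shiftRight (Nat.shiftRight m (nat_lit 34)) (Nat.land (Nat.shiftRight (Nat.shiftRight m (nat_lit 17)) (Nat.land (Nat.shiftRight (Nat.shiftRight m (nat_lit 34)) (Nat.land (Nat.shiftRight (Nat.shiftRight m (nat_lit 17)) (Nat.land (Nat.shiftRight (Nat.shiftRight m (nat_lit 34)) (Nat.land (Nat.shiftRight (Nat.shiftRight m (nat_lit 17)) (Nat.land (Nat.shiftRight (Nat.shiftRight m (nat_lit 34)) (Nat.land (Nat.shiftRight (Nat.shiftRight m (Nat.land (Nat.shiftRight c (nat_lit 9)) (nat_lit 65408))) (nat_lit 17)) (nat_lit 0x1ffff))) (nat_lit 0x1ffff))) (nat_lit 0x1ffff))) (nat_lit 0x1ffff))) (nat_lit 0x1ffff))) (nat_lit 0x1ffff))) (nat_lit 0x1ffff))) (nat_lit 0x1ffff))) (nat_lit 0x1ffff))) (nat_lit 0x1ffff))) (nat_lit 0x1ffff))) (nat_lit 0x1ffff))) (nat_lit 0x1ffff))) (nat_lit 0x1ffff))) (nat_lit 0x1ffff)))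 (nat_lit 0x1ffff))) (nat_lit 0x1ffff))) (nat_lit 0x1ffff))) (nat_lit 0x1ffff))) (nat_lit 0x1ffff))) (nat_lit 0x1ffff)))) (nat_lit 34))) (Nat.mul ((mskF k).1 (Nat.lor m (Nat.shiftLeft (Nat.lor (Nat.shiftLeft (Nat.land (Nat.shiftRight (Nat.shiftRight m (nat_lit 17)) (Nat.land (Nat.shiftRight (Nat.shiftRight m (nat_lit 34)) (Nat.land (Nat.shiftRight (Nat.shiftRight m (nat_lit 17)) (Nat.land (Nat.shiftRight (Nat.shiftRight m (nat_lit 34)) (Nat.land (Nat.shiftRight (Nat.shiftRight m (nat_lit 17)) (Nat.land (Nat.shiftRight (Nat.shiftRight m (nat_lit 34)) (Nat.land (Nat.shiftRight (Nat.shiftRight m (nat_lit 17)) (Nat.land (Nat.shiftRight (Nat.shiftRight m (nat_lit 34)) (Nat.land (Nat.shiftRight (Nat.shiftRight m (nat_lit 17)) (Nat.land (Nat.shiftRight (Nat.shiftRight m (nat_lit 34)) (Nat.land (Nat.shiftRight (Nat.shiftRight m (nat_lit 17)) (Nat.land (Nat.shiftRight (Nat.shiftRight m (nat_lit 34)) (Nat.land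 (Nat.shiftRight (Nat.shiftRight m (nat_lit 17)) (Nat.land (Nat.shiftRight (Nat.shiftRight m (nat_lit 34)) (Nat.land (Nat.shiftRight (Nat.shiftRight m (nat_lit 17)) (Nat.land (Nat.shiftRight (Nat.shiftRight m (nat_lit 34)) (Nat.land (Nat.shiftRight (Nat.shiftRight m (nat_lit 17)) (Nat.land (Nat.shiftRight (Nat.shiftRight m (nat_lit 34)) (Nat.land (Nat.shiftRight (Nat.shiftRight m (nat_lit 17)) (Nat.land (Nat.shiftRight (Nat.shiftRight m (nat_lit 34)) (Nat.land (Nat.shiftRight (Nat.shiftRight m (Nat.land (Nat.shiftRight c (nat_lit 9)) (nat_lit 65408))) (nat_lit 17)) (nat_lit 0x1ffff))) (nat_lit 0x1ffff))) (nat_lit 0x1ffff))) (nat_lit 0x1ffff))) (nat_lit 0x1ffff))) (nat_lit 0x1ffff))) (nat_lit 0x1ffff))) (nat_lit 0x1ffff))) (nat_lit 0x1ffff))) (nat_lit 0x1ffff))) (nat_lit 0x1ffff))) (nat_lit 0x1ffff))) (nat_lit 0x1ffff))) (nat_lit 0x1ffff))) (nat_lit 0x1ffff))) (nat_lit 0x1ffff))) (nat_lit 0x1ffff)))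 (nat_lit 0x1ffff))) (nat_lit 0x1ffff))) (nat_lit 0x1ffff))) (nat_lit 0x1ffff)) (Nat.land (Nat.shiftRight c (nat_lit 9)) (nat_lit 65408))) (Nat.shiftLeft (Nat.land (Nat.shiftRight c (nat_lit 9)) (nat_lit 65408)) (Nat.land (Nat.shiftRight (Nat.shiftRight m (nat_lit 17)) (Nat.land (Nat.shiftRight (Nat.shiftRight m (nat_lit 34)) (Nat.land (Nat.shiftRight (Nat.shiftRight m (nat_lit 17)) (Nat.land (Nat.shiftRight (Nat.shiftRight m (nat_lit 34)) (Nat.land (Nat.shiftRight (Nat.shiftRight m (nat_lit 17)) (Nat.land (Nat.shiftRight (Nat.shiftRight m (nat_lit 34)) (Nat.land (Nat.shiftRight (Nat.shiftRight m (nat_lit 17)) (Nat.land (Nat.shiftRight (Nat.shiftRight m (nat_lit 34)) (Nat.land (Nat.shiftRight (Nat.shiftRight m (nat_lit 17)) (Nat.land (Nat.shiftRight (Nat.shiftRight m (nat_lit 34)) (Nat.land (Nat.shiftRight (Nat.shiftRight m (nat_lit 17)) (Nat.land (Nat.shiftRight (Nat.shiftRight m (nat_lit 34))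 (Nat.land (Nat.shiftRight (Nat.shiftRight m (nat_lit 17)) (Nat.land (Nat.shiftRight (Nat.shiftRight m (nat_lit 34)) (Nat.land (Nat.shiftRight (Nat.shiftRight m (nat_lit 17)) (Nat.land (Nat.shiftRight (Nat.shiftRight m (nat_lit 34)) (Nat.land (Nat.shiftRight (Nat.shiftRight m (nat_lit 17)) (Nat.land (Nat.shiftRight (Nat.shiftRight m (nat_lit 34)) (Nat.land (Nat.shiftRight (Nat.shiftRight m (nat_lit 17)) (Nat.land (Nat.shiftRight (Nat.shiftRight m (nat_lit 34)) (Nat.land (Nat.shiftRight (Nat.shiftRight m (Nat.land (Nat.shiftRight c (nat_lit 9)) (nat_lit 65408))) (nat_lit 17)) (nat_lit 0x1ffff))) (nat_lit 0x1ffff))) (nat_lit 0x1ffff))) (nat_lit 0x1ffff))) (nat_lit 0x1ffff))) (nat_lit 0x1ffff))) (nat_lit 0x1ffff))) (nat_lit 0x1ffff))) (nat_lit 0x1ffff))) (nat_lit 0x1ffff))) (nat_lit 0x1ffff))) (nat_lit 0x1ffff))) (nat_lit 0x1ffff))) (nat_lit 0x1ffff))) (nat_lit 0x1ffff))) (nat_lit 0x1ffff))) (nat_lit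 0x1ffff))) (nat_lit 0x1ffff))) (nat_lit 0x1ffff))) (nat_lit 0x1ffff))) (nat_lit 0x1ffff)))) (nat_lit 34))) (Nat.land (Nat.shiftRight (Nat.shiftRight m (nat_lit 17)) (Nat.land (Nat.shiftRight (Nat.shiftRight m (nat_lit 34)) (Nat.land (Nat.shiftRight (Nat.shiftRight m (nat_lit 17)) (Nat.land (Nat.shiftRight (Nat.shiftRight m (nat_lit 34)) (Nat.land (Nat.shiftRight (Nat.shiftRight m (nat_lit 17)) (Nat.land (Nat.shiftRight (Nat.shiftRight m (nat_lit 34)) (Nat.land (Nat.shiftRight (Nat.shiftRight m (nat_lit 17)) (Nat.land (Nat.shiftRight (Nat.shiftRight m (nat_lit 34)) (Nat.land (Nat.shiftRight (Nat.shiftRight m (nat_lit 17)) (Nat.land (Nat.shiftRight (Nat.shiftRight m (nat_lit 34)) (Nat.land (Nat.shiftRight (Nat.shiftRight m (nat_lit 17)) (Nat.land (Nat.shiftRight (Nat.shiftRight m (nat_lit 34)) (Nat.land (Nat.shiftRight (Nat.shiftRight m (nat_lit 17)) (Nat.land (Nat.shiftRight (Nat.shiftRight m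 (nat_lit 34)) (Nat.land (Nat.shiftRight (Nat.shiftRight m (nat_lit 17)) (Nat.land (Nat.shiftRight (Nat.shiftRight m (nat_lit 34)) (Nat.land (Nat.shiftRight (Nat.shiftRight m (nat_lit 17)) (Nat.land (Nat.shiftRight (Nat.shiftRight m (nat_lit 34)) (Nat.land (Nat.shiftRight (Nat.shiftRight m (nat_lit 17)) (Nat.land (Nat.shiftRight (Nat.shiftRight m (nat_lit 34)) (Nat.land (Nat.shiftRight (Nat.shiftRight m (Nat.land (Nat.shiftRight c (nat_lit 9)) (nat_lit 65408))) (nat_lit 17)) (nat_lit 0x1ffff))) (nat_lit 0x1ffff))) (nat_lit 0x1ffff))) (nat_lit 0x1ffff))) (nat_lit 0x1ffff))) (nat_lit 0x1ffff))) (nat_lit 0x1ffff))) (nat_lit 0x1ffff))) (nat_lit 0x1ffff))) (nat_lit 0x1ffff))) (nat_lit 0x1ffff))) (nat_lit 0x1ffff))) (nat_lit 0x1ffff))) (nat_lit 0x1ffff))) (nat_lit 0x1ffff))) (nat_lit 0x1ffff))) (nat_lit 0x1ffff))) (nat_lit 0x1ffff))) (nat_lit 0x1ffff))) (nat_lit 0x1ffff))) (nat_lit 0x1ffff))) (Nat.land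 (Nat.lor (Nat.shiftRight m (Nat.land (Nat.shiftRight (Nat.shiftRight m (nat_lit 17)) (Nat.land (Nat.shiftRight (Nat.shiftRight m (nat_lit 34)) (Nat.land (Nat.shiftRight (Nat.shiftRight m (nat_lit 17)) (Nat.land (Nat.shiftRight (Nat.shiftRight m (nat_lit 34)) (Nat.land (Nat.shiftRight (Nat.shiftRight m (nat_lit 17)) (Nat.land (Nat.shiftRight (Nat.shiftRight m (nat_lit 34)) (Nat.land (Nat.shiftRight (Nat.shiftRight m (nat_lit 17)) (Nat.land (Nat.shiftRight (Nat.shiftRight m (nat_lit 34)) (Nat.land (Nat.shiftRight (Nat.shiftRight m (nat_lit 17)) (Nat.land (Nat.shiftRight (Nat.shiftRight m (nat_lit 34)) (Nat.land (Nat.shiftRight (Nat.shiftRight m (nat_lit 17)) (Nat.land (Nat.shiftRight (Nat.shiftRight m (nat_lit 34)) (Nat.land (Nat.shiftRight (Nat.shiftRight m (nat_lit 17)) (Nat.land (Nat.shiftRight (Nat.shiftRight m (nat_lit 34)) (Nat.land (Nat.shiftRight (Nat.shiftRight m (nat_lit 17)) (Nat.land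 (Nat.shiftRight (Nat.shiftRight m (nat_lit 34)) (Nat.land (Nat.shiftRight (Nat.shiftRight m (nat_lit 17)) (Nat.land (Nat.shiftRight (Nat.shiftRight m (nat_lit 34)) (Nat.land (Nat.shiftRight (Nat.shiftRight m (nat_lit 17)) (Nat.land (Nat.shiftRight (Nat.shiftRight m (nat_lit 34)) (Nat.land (Nat.shiftRight (Nat.shiftRight m (Nat.land (Nat.shiftRight c (nat_lit 9)) (nat_lit 65408))) (nat_lit 17)) (nat_lit 0x1ffff))) (nat_lit 0x1ffff))) (nat_lit 0x1ffff))) (nat_lit 0x1ffff))) (nat_lit 0x1ffff))) (nat_lit 0x1ffff))) (nat_lit 0x1ffff))) (nat_lit 0x1ffff))) (nat_lit 0x1ffff))) (nat_lit 0x1ffff))) (nat_lit 0x1ffff))) (nat_lit 0x1ffff))) (nat_lit 0x1ffff))) (nat_lit 0x1ffff))) (nat_lit 0x1ffff))) (nat_lit 0x1ffff))) (nat_lit 0x1ffff))) (nat_lit 0x1ffff))) (nat_lit 0x1ffff))) (nat_lit 0x1ffff))) (nat_lit 0x1ffff))) (Nat.shiftRight m (Nat.land (Nat.shiftRight m (Nat.land (Nat.shiftRight c (nat_lit 9)) (nat_lit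 65408))) (nat_lit 0x1ffff)))) (nat_lit 0xfffffc00000000000000000)))) (Nat.add (Nat.add nd (Nat.xor (Nat.land (Nat.shiftRight m (Nat.land (Nat.shiftRight c (nat_lit 9)) (nat_lit 65408))) (nat_lit 0xff7ffc00007fffc00000000)) (nat_lit 0xff7ffc00000000000000000))) (Nat.xor (Nat.land (Nat.shiftRight m (Nat.land (Nat.shiftRight (Nat.shiftRight m (nat_lit 17)) (Nat.land (Nat.shiftRight (Nat.shiftRight m (nat_lit 34)) (Nat.land (Nat.shiftRight (Nat.shiftRight m (nat_lit 17)) (Nat.land (Nat.shiftRight (Nat.shiftRight m (nat_lit 34)) (Nat.land (Nat.shiftRight (Nat.shiftRight m (nat_lit 17)) (Nat.land (Nat.shiftRight (Nat.shiftRight m (nat_lit 34)) (Nat.land (Nat.shiftRight (Nat.shiftRight m (nat_lit 17)) (Nat.land (Nat.shiftRight (Nat.shiftRight m (nat_lit 34)) (Nat.land (Nat.shiftRight (Nat.shiftRight m (nat_lit 17)) (Nat.land (Nat.shiftRight (Nat.shiftRight m (nat_lit 34)) (Nat.land (Nat.shiftRight (Nat.shiftRight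 m (nat_lit 17)) (Nat.land (Nat.shiftRight (Nat.shiftRight m (nat_lit 34)) (Nat.land (Nat.shiftRight (Nat.shiftRight m (nat_lit 17)) (Nat.land (Nat.shiftRight (Nat.shiftRight m (nat_lit 34)) (Nat.land (Nat.shiftRight (Nat.shiftRight m (nat_lit 17)) (Nat.land (Nat.shiftRight (Nat.shiftRight m (nat_lit 34)) (Nat.land (Nat.shiftRight (Nat.shiftRight m (nat_lit 17)) (Nat.land (Nat.shiftRight (Nat.shiftRight m (nat_lit 34)) (Nat.land (Nat.shiftRight (Nat.shiftRight m (nat_lit 17)) (Nat.land (Nat.shiftRight (Nat.shiftRight m (nat_lit 34)) (Nat.land (Nat.shiftRight (Nat.shiftRight m (Nat.land (Nat.shiftRight c (nat_lit 9)) (nat_lit 65408))) (nat_lit 17)) (nat_lit 0x1ffff))) (nat_lit 0x1ffff))) (nat_lit 0x1ffff))) (nat_lit 0x1ffff))) (nat_lit 0x1ffff))) (nat_lit 0x1ffff))) (nat_lit 0x1ffff))) (nat_lit 0x1ffff))) (nat_lit 0x1ffff))) (nat_lit 0x1ffff))) (nat_lit 0x1ffff))) (nat_lit 0x1ffff))) (nat_lit 0x1ffff)))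 (nat_lit 0x1ffff))) (nat_lit 0x1ffff))) (nat_lit 0x1ffff))) (nat_lit 0x1ffff))) (nat_lit 0x1ffff))) (nat_lit 0x1ffff))) (nat_lit 0x1ffff))) (nat_lit 0x1ffff))) (nat_lit 0x80000000007fffc00000000)) (nat_lit 0x80000000000000000000000))) e (Nat.shiftRight c (nat_lit 25)))⟩ (fun _ _ => ⟨fun ih lim m nd e c => (ih.1 lim (Nat.lor m (Nat.shiftLeft (Nat.lor (Nat.shiftLeft (Nat.land (Nat.shiftRight (Nat.shiftRight m (nat_lit 17)) (Nat.land (Nat.shiftRight (Nat.shiftRight m (nat_lit 34)) (Nat.land (Nat.shiftRight (Nat.shiftRight m (nat_lit 17)) (Nat.land (Nat.shiftRight (Nat.shiftRight m (nat_lit 34)) (Nat.land (Nat.shiftRight (Nat.shiftRight m (nat_lit 17)) (Nat.land (Nat.shiftRight (Nat.shiftRight m (nat_lit 34)) (Nat.land (Nat.shiftRight (Nat.shiftRight m (nat_lit 17)) (Nat.land (Nat.shiftRight (Nat.shiftRight m (nat_lit 34)) (Nat.land (Nat.shiftRight (Nat.shiftRight m (nat_lit 17)) (Nat.land (Nat.shiftRight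 (Nat.shiftRight m (nat_lit 34)) (Nat.land (Nat.shiftRight (Nat.shiftRight m (nat_lit 17)) (Nat.land (Nat.shiftRight (Nat.shiftRight m (nat_lit 34)) (Nat.land (Nat.shiftRight (Nat.shiftRight m (nat_lit 17)) (Nat.land (Nat.shiftRight (Nat.shiftRight m (nat_lit 34)) (Nat.land (Nat.shiftRight (Nat.shiftRight m (nat_lit 17)) (Nat.land (Nat.shiftRight (Nat.shiftRight m (nat_lit 34)) (Nat.land (Nat.shiftRight (Nat.shiftRight m (nat_lit 17)) (Nat.land (Nat.shiftRight (Nat.shiftRight m (nat_lit 34)) (Nat.land (Nat.shiftRight (Nat.shiftRight m (nat_lit 17)) (Nat.land (Nat.shiftRight (Nat.shiftRight m (nat_lit 34)) (Nat.land (Nat.shiftRight (Nat.shiftRight m (Nat.land (Nat.shiftRight c (nat_lit 9)) (nat_lit 65408))) (nat_lit 17)) (nat_lit 0x1ffff))) (nat_lit 0x1ffff))) (nat_lit 0x1ffff))) (nat_lit 0x1ffff))) (nat_lit 0x1ffff))) (nat_lit 0x1ffff))) (nat_lit 0x1ffff))) (nat_lit 0x1ffff))) (nat_lit 0x1ffff)))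 (nat_lit 0x1ffff))) (nat_lit 0x1ffff))) (nat_lit 0x1ffff))) (nat_lit 0x1ffff))) (nat_lit 0x1ffff))) (nat_lit 0x1ffff))) (nat_lit 0x1ffff))) (nat_lit 0x1ffff))) (nat_lit 0x1ffff))) (nat_lit 0x1ffff))) (nat_lit 0x1ffff))) (nat_lit 0x1ffff)) (Nat.land (Nat.shiftRight c (nat_lit 9)) (nat_lit 65408))) (Nat.shiftLeft (Nat.land (Nat.shiftRight c (nat_lit 9)) (nat_lit 65408)) (Nat.land (Nat.shiftRight (Nat.shiftRight m (nat_lit 17)) (Nat.land (Nat.shiftRight (Nat.shiftRight m (nat_lit 34)) (Nat.land (Nat.shiftRight (Nat.shiftRight m (nat_lit 17)) (Nat.land (Nat.shiftRight (Nat.shiftRight m (nat_lit 34)) (Nat.land (Nat.shiftRight (Nat.shiftRight m (nat_lit 17)) (Nat.land (Nat.shiftRight (Nat.shiftRight m (nat_lit 34)) (Nat.land (Nat.shiftRight (Nat.shiftRight m (nat_lit 17)) (Nat.land (Nat.shiftRight (Nat.shiftRight m (nat_lit 34)) (Nat.land (Nat.shiftRight (Nat.shiftRight m (nat_lit 17)) (Nat.land (Nat.shiftRight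 (Nat.shiftRight m (nat_lit 34)) (Nat.land (Nat.shiftRight (Nat.shiftRight m (nat_lit 17)) (Nat.land (Nat.shiftRight (Nat.shiftRight m (nat_lit 34)) (Nat.land (Nat.shiftRight (Nat.shiftRight m (nat_lit 17)) (Nat.land (Nat.shiftRight (Nat.shiftRight m (nat_lit 34)) (Nat.land (Nat.shiftRight (Nat.shiftRight m (nat_lit 17)) (Nat.land (Nat.shiftRight (Nat.shiftRight m (nat_lit 34)) (Nat.land (Nat.shiftRight (Nat.shiftRight m (nat_lit 17)) (Nat.land (Nat.shiftRight (Nat.shiftRight m (nat_lit 34)) (Nat.land (Nat.shiftRight (Nat.shiftRight m (nat_lit 17)) (Nat.land (Nat.shiftRight (Nat.shiftRight m (nat_lit 34)) (Nat.land (Nat.shiftRight (Nat.shiftRight m (Nat.land (Nat.shiftRight c (nat_lit 9)) (nat_lit 65408))) (nat_lit 17)) (nat_lit 0x1ffff))) (nat_lit 0x1ffff))) (nat_lit 0x1ffff))) (nat_lit 0x1ffff))) (nat_lit 0x1ffff))) (nat_lit 0x1ffff))) (nat_lit 0x1ffff))) (nat_lit 0x1ffff))) (nat_lit 0x1ffff)))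 (nat_lit 0x1ffff))) (nat_lit 0x1ffff))) (nat_lit 0x1ffff))) (nat_lit 0x1ffff))) (nat_lit 0x1ffff))) (nat_lit 0x1ffff))) (nat_lit 0x1ffff))) (nat_lit 0x1ffff))) (nat_lit 0x1ffff))) (nat_lit 0x1ffff))) (nat_lit 0x1ffff))) (nat_lit 0x1ffff)))) (nat_lit 34))) (Nat.add (Nat.add nd (Nat.xor (Nat.land (Nat.shiftRight m (Nat.land (Nat.shiftRight c (nat_lit 9)) (nat_lit 65408))) (nat_lit 0xff7ffc00007fffc00000000)) (nat_lit 0xff7ffc00000000000000000))) (Nat.xor (Nat.land (Nat.shiftRight m (Nat.land (Nat.shiftRight (Nat.shiftRight m (nat_lit 17)) (Nat.land (Nat.shiftRight (Nat.shiftRight m (nat_lit 34)) (Nat.land (Nat.shiftRight (Nat.shiftRight m (nat_lit 17)) (Nat.land (Nat.shiftRight (Nat.shiftRight m (nat_lit 34)) (Nat.land (Nat.shiftRight (Nat.shiftRight m (nat_lit 17)) (Nat.land (Nat.shiftRight (Nat.shiftRight m (nat_lit 34)) (Nat.land (Nat.shiftRight (Nat.shiftRight m (nat_lit 17)) (Nat.land (Nat.shiftRight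 (Nat.shiftRight m (nat_lit 34)) (Nat.land (Nat.shiftRight (Nat.shiftRight m (nat_lit 17)) (Nat.land (Nat.shiftRight (Nat.shiftRight m (nat_lit 34)) (Nat.land (Nat.shiftRight (Nat.shiftRight m (nat_lit 17)) (Nat.land (Nat.shiftRight (Nat.shiftRight m (nat_lit 34)) (Nat.land (Nat.shiftRight (Nat.shiftRight m (nat_lit 17)) (Nat.land (Nat.shiftRight (Nat.shiftRight m (nat_lit 34)) (Nat.land (Nat.shiftRight (Nat.shiftRight m (nat_lit 17)) (Nat.land (Nat.shiftRight (Nat.shiftRight m (nat_lit 34)) (Nat.land (Nat.shiftRight (Nat.shiftRight m (nat_lit 17)) (Nat.land (Nat.shiftRight (Nat.shiftRight m (nat_lit 34)) (Nat.land (Nat.shiftRight (Nat.shiftRight m (nat_lit 17)) (Nat.land (Nat.shiftRight (Nat.shiftRight m (nat_lit 34)) (Nat.land (Nat.shiftRight (Nat.shiftRight m (Nat.land (Nat.shiftRight c (nat_lit 9)) (nat_lit 65408))) (nat_lit 17)) (nat_lit 0x1ffff))) (nat_lit 0x1ffff))) (nat_lit 0x1ffff)))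 (nat_lit 0x1ffff))) (nat_lit 0x1ffff))) (nat_lit 0x1ffff))) (nat_lit 0x1ffff))) (nat_lit 0x1ffff))) (nat_lit 0x1ffff))) (nat_lit 0x1ffff))) (nat_lit 0x1ffff))) (nat_lit 0x1ffff))) (nat_lit 0x1ffff))) (nat_lit 0x1ffff))) (nat_lit 0x1ffff))) (nat_lit 0x1ffff))) (nat_lit 0x1ffff))) (nat_lit 0x1ffff))) (nat_lit 0x1ffff))) (nat_lit 0x1ffff))) (nat_lit 0x1ffff))) (nat_lit 0x80000000007fffc00000000)) (nat_lit 0x80000000000000000000000))) e (Nat.shiftRight c (nat_lit 25)))⟩) (Nat.shiftRight k (nat_lit 15)))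

def oSpv (k : ℕ) : Op :=
  ⟨fun ih lim m nd e c => (ih.1 lim (Nat.lor m (Nat.mul ((mskV k).1 m (Nat.land (Nat.shiftRight c (nat_lit 9)) (nat_lit 65408))) (Nat.xor (Nat.land (Nat.shiftLeft c (nat_lit 39)) (nat_lit 0x3f0000000000000000)) (nat_lit 0x3f0000000000000000)))) nd e (ih.1 lim (Nat.lor m (Nat.mul ((mskV k).1 m (Nat.land (Nat.shiftRight c (nat_lit 9)) (nat_lit 65408))) (Nat.land (Nat.shiftLeft c (nat_lit 39)) (nat_lit 0x3f0000000000000000)))) nd e (Nat.shiftRight c (nat_lit 31))))⟩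

def oSpf (k : ℕ) : Op :=
  ⟨fun ih lim m nd e c => (ih.1 lim (Nat.lor m (Nat.mul ((mskF k).1 m (Nat.land (Nat.shiftRight c (nat_lit 9)) (nat_lit 65408))) (Nat.xor (Nat.land (Nat.shiftLeft c (nat_lit 45)) (nat_lit 0x3fffc00000000000000000)) (nat_lit 0xfffffc00000000000000000)))) nd e (ih.1 lim (Nat.lor m (Nat.mul ((mskF k).1 m (Nat.land (Nat.shiftRight c (nat_lit 9)) (nat_lit 65408))) (Nat.land (Nat.shiftLeft c (nat_lit 45)) (nat_lit 0x3fffc00000000000000000)))) nd e (Nat.shiftRight c (nat_lit 41))))⟩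

def oPrv (k : ℕ) : Op :=
  ⟨fun ih lim m nd e c => (ih.1 lim (Nat.lor m (Nat.mul ((mskV k).1 m (Nat.land (Nat.shiftRight c (nat_lit 9)) (nat_lit 65408))) (Nat.land (Nat.shiftRight m (Nat.land (Nat.shiftRight c (nat_lit 9)) (nat_lit 65408))) (nat_lit 0x3f0000000000000000)))) nd e (Nat.shiftRight c (nat_lit 25)))⟩

def oPrf (k : ℕ) : Op :=
  ⟨fun ih lim m nd e c => (ih.1 lim (Nat.lor m (Nat.mul ((mskF k).1 m (Nat.land (Nat.shiftRight c (nat_lit 9)) (nat_lit 65408))) (Nat.land (Nat.shiftRight m (Nat.land (Nat.shiftRight c (nat_lit 9)) (nat_lit 65408))) (nat_lit 0xfffffc00000000000000000)))) nd e (Nat.shiftRight c (nat_lit 25)))⟩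

def oCut0 (k : ℕ) : Op :=
  ⟨fun ih lim m nd e c => (ih.1 lim (Nat.lor m (Nat.mul (Nat.land m (Nat.shiftLeft (nat_lit 1) (Nat.add (Nat.land k (nat_lit 65408)) (nat_lit 91)))) (Nat.xor (Nat.land (Nat.shiftRight c (nat_lit 15)) (nat_lit 2046)) (nat_lit 2046)))) nd e (ih.1 lim (Nat.lor m (Nat.mul (Nat.land m (Nat.shiftLeft (nat_lit 1) (Nat.add (Nat.land k (nat_lit 65408)) (nat_lit 91)))) (Nat.land (Nat.shiftRight c (nat_lit 15)) (nat_lit 2046)))) nd e (Nat.shiftRight c (nat_lit 26))))⟩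

def oCut1 (k : ℕ) : Op :=
  ⟨fun ih lim m nd e c => (ih.1 lim (Nat.lor m (Nat.mul (Nat.land m (Nat.shiftLeft (nat_lit 1) (Nat.add (Nat.land k (nat_lit 65408)) (nat_lit 91)))) (Nat.xor (Nat.land (Nat.shiftRight c (nat_lit 5)) (nat_lit 0x1f800)) (nat_lit 0x1f800)))) nd e (ih.1 lim (Nat.lor m (Nat.mul (Nat.land m (Nat.shiftLeft (nat_lit 1) (Nat.add (Nat.land k (nat_lit 65408)) (nat_lit 91)))) (Nat.land (Nat.shiftRight c (nat_lit 5)) (nat_lit 0x1f800)))) nd e (Nat.shiftRight c (nat_lit 22))))⟩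

def oCut2 (k : ℕ) : Op :=
  ⟨fun ih lim m nd e c => (ih.1 lim (Nat.lor m (Nat.mul (Nat.land m (Nat.shiftLeft (nat_lit 1) (Nat.add (Nat.land k (nat_lit 65408)) (nat_lit 91)))) (Nat.xor (Nat.land (Nat.shiftLeft c (nat_lit 1)) (nat_lit 0x7fe0000)) (nat_lit 0x7fe0000)))) nd e (ih.1 lim (Nat.lor m (Nat.mul (Nat.land m (Nat.shiftLeft (nat_lit 1) (Nat.add (Nat.land k (nat_lit 65408)) (nat_lit 91)))) (Nat.land (Nat.shiftLeft c (nat_lit 1)) (nat_lit 0x7fe0000)))) nd e (Nat.shiftRight c (nat_lit 26))))⟩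

def oCut3 (k : ℕ) : Op :=
  ⟨fun ih lim m nd e c => (ih.1 lim (Nat.lor m (Nat.mul (Nat.land m (Nat.shiftLeft (nat_lit 1) (Nat.add (Nat.land k (nat_lit 65408)) (nat_lit 91)))) (Nat.xor (Nat.land (Nat.shiftLeft c (nat_lit 11)) (nat_lit 0x1f8000000)) (nat_lit 0x1f8000000)))) nd e (ih.1 lim (Nat.lor m (Nat.mul (Nat.land m (Nat.shiftLeft (nat_lit 1) (Nat.add (Nat.land k (nat_lit 65408)) (nat_lit 91)))) (Nat.land (Nat.shiftLeft c (nat_lit 11)) (nat_lit 0x1f8000000)))) nd e (Nat.shiftRight c (nat_lit 22))))⟩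

def oEmv (k : ℕ) : Op :=
  ⟨fun ih lim m nd e c => (Nat.mul (Nat.shiftRight c (nat_lit 16)) (Nat.sub (nat_lit 1) (Nat.shiftRight (Nat.add nd (Nat.xor (Nat.land (Nat.shiftRight m (Nat.land k (nat_lit 65408))) (nat_lit 0x3f0000000000000000)) (nat_lit 0x3f0000000000000000))) (nat_lit 16))))⟩

def oEmf (k : ℕ) : Op :=
  ⟨fun ih lim m nd e c => (Nat.mul (Nat.shiftRight c (nat_lit 16)) (Nat.sub (nat_lit 1) (Nat.shiftRight (Nat.add nd (Nat.xor (Nat.land (Nat.shiftRight m (Nat.land k (nat_lit 65408))) (nat_lit 0xfffffc00000000000000000)) (nat_lit 0xfffffc00000000000000000))) (nat_lit 16))))⟩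

def oLoop (k : ℕ) : Op :=
  ⟨fun ih lim m nd e c => (Nat.mul (Nat.shiftRight c (nat_lit 16)) (Nat.sub (nat_lit 1) (Nat.shiftRight (Nat.add nd (Nat.xor (Nat.land (Nat.shiftRight m (Nat.land k (nat_lit 65408))) (nat_lit 0x80000000007fffc00000000)) (Nat.add (Nat.shiftLeft (Nat.land k (nat_lit 65408)) (nat_lit 34)) (nat_lit 0x80000000000000000000000)))) (nat_lit 16))))⟩

def oEvm (g : G) (k : ℕ) : Op :=
  (@Nat.rec (fun _ => Op) ⟨fun _ _ _ _ _ _ => nat_lit 0⟩ (fun t _ => ⟨fun ih lim m nd e c => (ih.1 lim (Nat.lor m (Nat.shiftLeft (Nat.land ((ev t (g.fd.p (Nat.land (Nat.shiftRight k (nat_lit 7)) (nat_lit 1)))).1 m (Nat.shiftRight m (Nat.land (Nat.shiftRight c (nat_lit 9)) (nat_lit 65408)))) (nat_lit 1023)) (Nat.add (Nat.land (Nat.shiftRight c (nat_lit 9)) (nat_lit 65408)) (Nat.add (Nat.mul (Nat.land (Nat.shiftRight k (nat_lit 7)) (nat_lit 1)) (nat_lit 16)) (nat_lit 92))))) (Nat.add nd (Nat.xor (Nat.land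 (Nat.shiftRight m (Nat.land (Nat.shiftRight c (nat_lit 9)) (nat_lit 65408))) (nat_lit 0x80000000000000000000000)) (nat_lit 0x80000000000000000000000))) e (Nat.shiftRight c (nat_lit 25)))⟩) (Nat.succ (Nat.shiftRight k (nat_lit 9))))

def oEve (g : G) (k : ℕ) : Op :=
  (@Nat.rec (fun _ => Op) ⟨fun _ _ _ _ _ _ => nat_lit 0⟩ (fun t _ => ⟨fun ih lim m nd e c => (ih.1 lim m (Nat.add nd (Nat.xor (Nat.land (Nat.shiftRight m (Nat.land (Nat.shiftRight c (nat_lit 9)) (nat_lit 65408))) (nat_lit 0x80000000000000000000000)) (nat_lit 0x80000000000000000000000))) (Nat.lor e (Nat.shiftLeft ((ev t (g.fd.p (Nat.land (Nat.shiftRight k (nat_lit 7)) (nat_lit 3)))).1 m (Nat.shiftRight m (Nat.land (Nat.shiftRight c (nat_lit 9)) (nat_lit 65408)))) (Nat.add (Nat.land (Nat.shiftRight c (nat_lit 9)) (nat_lit 65408)) (Nat.mul (Nat.land (Nat.shiftRight k (nat_lit 7)) (nat_lit 3)) (nat_lit 26))))) (Nat.shiftRight c (nat_lit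 25)))⟩) (Nat.succ (Nat.shiftRight k (nat_lit 9))))

def oEvb (g : G) (k : ℕ) : Op :=
  (@Nat.rec (fun _ => Op) ⟨fun _ _ _ _ _ _ => nat_lit 0⟩ (fun t _ => ⟨fun ih lim m nd e c => (ih.1 lim (Nat.lor m (Nat.shiftLeft (Nat.land ((ev t (g.fd.p (Nat.land (Nat.shiftRight k (nat_lit 7)) (nat_lit 1)))).1 m (Nat.shiftRight m (Nat.land (Nat.shiftRight c (nat_lit 9)) (nat_lit 65408)))) (nat_lit 1023)) (Nat.add (Nat.land (Nat.shiftRight c (nat_lit 9)) (nat_lit 65408)) (Nat.add (Nat.mul (Nat.land (Nat.shiftRight k (nat_lit 7)) (nat_lit 1)) (nat_lit 16)) (nat_lit 92))))) (Nat.add nd (Nat.xor (Nat.land (Nat.shiftRight m (Nat.land (Nat.shiftRight c (nat_lit 9)) (nat_lit 65408))) (nat_lit 0x80000000000000000000000)) (nat_lit 0x80000000000000000000000))) (Nat.lor e (Nat.shiftLeft ((ev t (g.fd.p (Nat.land (Nat.shiftRight k (nat_lit 7)) (nat_lit 1)))).1 m (Nat.shiftRight m (Nat.land (Nat.shiftRight c (nat_lit 9))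 (nat_lit 65408)))) (Nat.add (Nat.land (Nat.shiftRight c (nat_lit 9)) (nat_lit 65408)) (Nat.mul (Nat.land (Nat.shiftRight k (nat_lit 7)) (nat_lit 1)) (nat_lit 26))))) (Nat.shiftRight c (nat_lit 25)))⟩) (Nat.succ (Nat.shiftRight k (nat_lit 9))))

def oAmt (g : G) (k : ℕ) : Op :=
  (@Nat.rec (fun _ => Op) ⟨fun _ _ _ _ _ _ => nat_lit 0⟩ (fun t _ => ⟨fun ih lim m nd e c => (Nat.mul (Nat.shiftRight c (nat_lit 25)) (Nat.sub (nat_lit 1) (Nat.add (Nat.shiftRight nd (nat_lit 16)) (Nat.xor (Nat.land (Nat.lor ((ev t (g.fd.p (Nat.land (Nat.shiftRight k (nat_lit 7)) (nat_lit 1)))).1 m (Nat.shiftRight m (Nat.land (Nat.shiftRight c (nat_lit 9)) (nat_lit 65408)))) (Nat.shiftRight (Nat.shiftRight m (Nat.land (Nat.shiftRight c (nat_lit 9)) (nat_lit 65408))) (Nat.add (Nat.mul (Nat.land (Nat.shiftRight k (nat_lit 7)) (nat_lit 1)) (nat_lit 16)) (nat_lit 92)))) (nat_lit 1023)) (nat_lit 1023)))))⟩) (Nat.succ (Nat.shiftRight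 k (nat_lit 9))))

def bwV (T n : ℕ) : C3 :=
  (@Nat.rec (fun _ => C3) ⟨fun _ _ _ => nat_lit 0⟩ (fun n ih => ⟨fun m e y => (Nat.add (Nat.add (Nat.shiftLeft y (Nat.add (Nat.mul n (nat_lit 17)) (nat_lit 16))) (Nat.land (Nat.shiftRight T (Nat.land (Nat.shiftRight e (Nat.add y (nat_lit 75))) (nat_lit 8184))) (nat_lit 255))) (ih.1 m e (Nat.land (Nat.shiftRight m y) (nat_lit 0x1ffff))))⟩) n)

def bwF (T n : ℕ) : C3 :=
  (@Nat.rec (fun _ => C3) ⟨fun _ _ _ => nat_lit 0⟩ (fun n ih => ⟨fun m e y => (Nat.add (Nat.add (Nat.shiftLeft y (Nat.add (Nat.mul n (nat_lit 17)) (nat_lit 16))) (Nat.add (Nat.land (Nat.shiftRight T (Nat.land (Nat.shiftRight e (Nat.add y (nat_lit 49))) (nat_lit 8184))) (nat_lit 255)) (Nat.add (Nat.land (Nat.shiftRight T (Nat.land (Nat.shiftRight (Nat.shiftRight m y) (nat_lit 89)) (nat_lit 8184))) (nat_lit 255)) (Nat.land (Nat.shiftRight T (Nat.land (Nat.shiftRight (Nat.shiftRight m y)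 (nat_lit 105)) (nat_lit 8184))) (nat_lit 255))))) (ih.1 m e (Nat.land (Nat.shiftRight m (Nat.land (Nat.shiftRight (Nat.shiftRight m y) (nat_lit 34)) (nat_lit 0x1ffff))) (nat_lit 0x1ffff))))⟩) n)

def bwC (T n : ℕ) : C3 :=
  (@Nat.rec (fun _ => C3) ⟨fun _ _ _ => nat_lit 0⟩ (fun n ih => ⟨fun m e y => (Nat.add (Nat.add (Nat.shiftLeft y (Nat.add (Nat.mul n (nat_lit 17)) (nat_lit 16))) (Nat.add (Nat.land (Nat.shiftRight T (Nat.land (Nat.shiftRight e (Nat.add y (nat_lit 49))) (nat_lit 8184))) (nat_lit 255)) (Nat.shiftLeft (Nat.sub (nat_lit 1) (Nat.xor (Nat.land (Nat.shiftRight m y) (nat_lit 0x3d0000000000000000)) (nat_lit 0x3d0000000000000000))) (nat_lit 12)))) (ih.1 m e (Nat.land (Nat.shiftRight m (Nat.land (Nat.shiftRight (Nat.shiftRight m y) (nat_lit 34)) (nat_lit 0x1ffff))) (nat_lit 0x1ffff))))⟩) n)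

/-! An entry: kind `q % 4`, level `q / 4 % 16`, variant `q / 64`. -/

def eK (q : ℕ) : ℕ := Nat.land q 3
def eA (q : ℕ) : ℕ := Nat.land (Nat.shiftRight q 2) 15
def eW (q : ℕ) : ℕ := Nat.shiftRight q 6
/-- the share claimed by variants from 10 on -/
def eS (q : ℕ) : ℕ := Nat.add (eA q) (Nat.mul 16 (Nat.sub (eW q) 10))

/-- facts required of the map -/
def eMX (R : Rule) (q : ℕ) : ℕ :=
  sel (Nat.ble (eW q) 1)
    (sel (Nat.beq (eW q) 0) (sel (Nat.ble (eK q) 1)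
      (Nat.lor (Nat.shiftLeft R.c1 70) (Nat.shiftLeft 1 84))
      (sel (Nat.beq (eK q) 2) (Nat.shiftLeft 1 84) 0)) 0)
    (sel (Nat.ble (eW q) 3)
      (Nat.lor (Nat.lor (Nat.shiftLeft R.c1 70) (clsX 14))
        (Nat.shiftLeft (hig (Nat.add (eA q) (Nat.sub (eW q) 2))) (kof (Nat.sub 1 (eK q)))))
      (sel (Nat.ble (eW q) 9)
        (Nat.shiftLeft (low (Nat.sub (eW q) 4)) (Nat.add (kof (eK q)) 10)) 0))

/-- bits required of the auxiliary state -/
def ePL (q : ℕ) : ℕ :=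
  sel (Nat.ble (eW q) 1) (low (eA q))
    (sel (Nat.ble (eW q) 3)
      (Nat.lor (low (eA q)) (Nat.shiftLeft (hig 1) (Nat.sub 52 (Nat.mul 26 (eK q)))))
      (sel (Nat.ble (eW q) 9) (Nat.lor (low (eA q)) (hig (Nat.succ (eA q))))
        (Nat.shiftLeft (eS q) (Nat.sub 104 (Nat.mul 14 (eK q))))))

/-- bits read in the auxiliary state -/
def eML (q : ℕ) : ℕ :=
  sel (Nat.ble (eW q) 9) (ePL q) (Nat.shiftLeft 63 (Nat.sub 104 (Nat.mul 14 (eK q))))

/-- the amount -/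
def eV (R : Rule) (q : ℕ) : ℕ :=
  sel (Nat.ble (eA q) 9)
    (sel (Nat.beq (eW q) 0) (byt R.am0 (eA q))
      (sel (Nat.ble 2 (eK q))
        (sel (cj (Nat.beq (eW q) 1) (Nat.beq (eK q) 2)) (mn 6 (byt R.am0 (eA q))) 0)
        (sel (Nat.ble (eW q) 3)
          (sel (dj (Nat.beq (eW q) 1) (Nat.beq (eA q) 0)) 0 (sel (Nat.beq (eW q) 2) 6 3))
          (sel (Nat.ble (eW q) 9)
            (Nat.div (Nat.mul (byt R.th (Nat.sub (eW q) 4)) (byt R.am1 (eA q))) 12) (eS q)))))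
    (sel (cj (Nat.ble 10 (eW q)) (Nat.ble (eK q) 1)) (eS q) 0)

/-- one entry -/
def en (g : G) (fc : Bool) (k : ℕ) : LO :=
  (@Nat.rec (fun _ => LO) ⟨fun _ _ _ _ _ _ _ _ => nat_lit 0⟩ (fun q _ => (@Nat.rec (fun _ => LO) ⟨fun _ _ _ _ _ _ _ _ => nat_lit 0⟩ (fun r _ => (@RW.rec (fun _ => LO) (fun _ b f _ => sel (sel b fc (sel fc false true))
    (@Nat.rec (fun _ => LO) ⟨fun ih m e acc c key rem z => ih.1 m e acc (Nat.shiftRight c (nat_lit 31)) (Nat.succ (Nat.land k (nat_lit 16383))) (Nat.sub rem (eV g.R q)) (Nat.add (Nat.add (Nat.add z (Nat.xor (Nat.land (Nat.shiftRight m (Nat.land (Nat.shiftRight c (nat_lit 15)) (nat_lit 65408))) (eMX g.R q)) (eMX g.R q))) (Nat.add (Nat.xor (Nat.land (Nat.lor (Nat.shiftRight e (Nat.add (Nat.land (Nat.shiftRight c (nat_lit 15)) (nat_lit 65408)) (Nat.mul (eK q) (nat_lit 26)))) (Nat.land (Nat.shiftRight (Nat.shiftRight m (Nat.land (Nat.shiftRight c (nat_lit 15))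 (nat_lit 65408))) (kof (eK q))) (nat_lit 1023))) (Nat.lor (eML q) (rP r))) (Nat.lor (ePL q) (rP r))) (Nat.xor (f m (Nat.land (Nat.shiftRight c (nat_lit 15)) (nat_lit 65408))) (Nat.land (Nat.shiftRight acc (Nat.add (Nat.mul (Nat.land k (nat_lit 15)) (nat_lit 17)) (nat_lit 16))) (nat_lit 0x1ffff))))) (Nat.add (Nat.sub (nat_lit 1) (Nat.land (Nat.shiftRight acc (Nat.add (Nat.mul (Nat.land k (nat_lit 15)) (nat_lit 17)) (nat_lit 16))) (nat_lit 0x1ffff))) (Nat.sub key (Nat.land k (nat_lit 16383)))))⟩ (fun _ _ => ⟨fun ih m e acc c key rem z => ih.1 m e acc (Nat.shiftRight c (nat_lit 31)) (Nat.succ (Nat.land k (nat_lit 16383))) (Nat.sub rem (eV g.R q)) (Nat.add (Nat.add (Nat.add z (Nat.xor (Nat.land (Nat.shiftRight m (Nat.land (Nat.shiftRight c (nat_lit 15)) (nat_lit 65408))) (eMX g.R q)) (eMX g.R q))) (Nat.add (Nat.xor (Nat.land (Nat.shiftRight e (Nat.add (Nat.land (Nat.shiftRight c (nat_lit 15)) (nat_lit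 65408)) (Nat.mul (eK q) (nat_lit 26)))) (Nat.lor (eML q) (rP r))) (Nat.lor (ePL q) (rP r))) (Nat.xor (f m (Nat.land (Nat.shiftRight c (nat_lit 15)) (nat_lit 65408))) (Nat.land (Nat.shiftRight acc (Nat.add (Nat.mul (Nat.land k (nat_lit 15)) (nat_lit 17)) (nat_lit 16))) (nat_lit 0x1ffff))))) (Nat.add (Nat.sub (nat_lit 1) (Nat.land (Nat.shiftRight acc (Nat.add (Nat.mul (Nat.land k (nat_lit 15)) (nat_lit 17)) (nat_lit 16))) (nat_lit 0x1ffff))) (Nat.sub key (Nat.land k (nat_lit 16383)))))⟩) (Nat.shiftRight (eK q) (nat_lit 1))) ⟨fun _ _ _ _ _ _ _ _ => nat_lit 0⟩) (BT.get g.fd.rt r))) (Nat.succ (Nat.land (Nat.shiftRight k (nat_lit 4)) (nat_lit 255))))) (Nat.succ (Nat.shiftRight k (nat_lit 12))))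

/-- the entries -/
def el (g : G) (fc : Bool) (n : ℕ) : LC :=
  (@Nat.rec (fun _ => LC) ⟨fun _ _ _ _ _ _ _ => nat_lit 0⟩ (fun _ ih => ⟨fun m e acc c key rem z => (@Nat.rec (fun _ => ℕ) (Nat.mul (Nat.shiftRight c (nat_lit 22)) (Nat.sub (nat_lit 1) (Nat.add z rem))) (fun k _ => ((en g fc k).1 ih m e acc c key rem z)) (Nat.land c (nat_lit 0x3fffff)))⟩) n)

def oBnv (g : G) (k : ℕ) : Op :=
  ⟨fun ih lim m nd e c => (el g false (nat_lit 40)).1 m e ((bwV g.fd.am (Nat.land (Nat.shiftRight k (nat_lit 7)) (nat_lit 15))).1 m e (Nat.land (Nat.shiftRight c (nat_lit 9)) (nat_lit 65408))) (Nat.shiftRight c (nat_lit 25)) (nat_lit 0) (Nat.sub (Nat.add (Nat.land ((bwV g.fd.am (Nat.land (Nat.shiftRight k (nat_lit 7)) (nat_lit 15))).1 m e (Nat.land (Nat.shiftRight c (nat_lit 9)) (nat_lit 65408))) (nat_lit 4095)) (nat_lit 72)) (Nat.mul (Nat.land (Nat.shiftRight k (nat_lit 7)) (nat_lit 15)) (nat_lit 24))) (Nat.shiftRight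 (Nat.add nd (Nat.xor (Nat.land (Nat.shiftRight m (Nat.land (Nat.shiftRight c (nat_lit 9)) (nat_lit 65408))) (Nat.lor (nat_lit 0x10000000000000000000000000000000) (degX (Nat.land (Nat.shiftRight k (nat_lit 7)) (nat_lit 15))))) (Nat.lor (nat_lit 0x10000000000000000000000000000000) (degX (Nat.land (Nat.shiftRight k (nat_lit 7)) (nat_lit 15)))))) (nat_lit 16))⟩

def oBnf (g : G) (k : ℕ) : Op :=
  (@Nat.rec (fun _ => Op) ⟨fun ih lim m nd e c => (el g true (nat_lit 40)).1 m e ((bwF g.fd.am (Nat.land (Nat.shiftRight k (nat_lit 7)) (nat_lit 15))).1 m e (Nat.land (Nat.shiftRight c (nat_lit 9)) (nat_lit 65408))) (Nat.shiftRight c (nat_lit 25)) (nat_lit 0) (Nat.sub (Nat.add (Nat.land ((bwF g.fd.am (Nat.land (Nat.shiftRight k (nat_lit 7)) (nat_lit 15))).1 m e (Nat.land (Nat.shiftRight c (nat_lit 9)) (nat_lit 65408))) (nat_lit 4095)) (nat_lit 72)) (Nat.mul (Nat.land (Nat.shiftRight k (nat_lit 7)) (nat_lit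 15)) (nat_lit 12))) (Nat.shiftRight (Nat.add nd (Nat.xor (Nat.land (Nat.shiftRight m (Nat.land (Nat.shiftRight c (nat_lit 9)) (nat_lit 65408))) (Nat.lor (Nat.lor (nat_lit 0x20000000000000000000000000000000) (lenX (Nat.land (Nat.shiftRight k (nat_lit 7)) (nat_lit 15)))) (Nat.shiftLeft g.R.c1 (nat_lit 70)))) (Nat.lor (Nat.lor (nat_lit 0x20000000000000000000000000000000) (lenX (Nat.land (Nat.shiftRight k (nat_lit 7)) (nat_lit 15)))) (Nat.shiftLeft g.R.c1 (nat_lit 70))))) (nat_lit 16))⟩ (fun _ _ => (sel (tb g.R.c1 (Nat.land (Nat.shiftRight k (nat_lit 11)) (nat_lit 15))) ⟨fun ih lim m nd e c => (el g true (nat_lit 40)).1 m e ((bwC g.fd.am (Nat.land (Nat.shiftRight k (nat_lit 7)) (nat_lit 15))).1 m e (Nat.land (Nat.shiftRight c (nat_lit 9)) (nat_lit 65408))) (Nat.shiftRight c (nat_lit 25)) (nat_lit 0) (Nat.sub (Nat.add (Nat.add (Nat.land ((bwC g.fd.am (Nat.land (Nat.shiftRight k (nat_lit 7)) (nat_lit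 15))).1 m e (Nat.land (Nat.shiftRight c (nat_lit 9)) (nat_lit 65408))) (nat_lit 4095)) (Nat.add (byt g.R.cap (Nat.land (Nat.shiftRight k (nat_lit 11)) (nat_lit 15))) (nat_lit 72))) (Nat.mul (Nat.sub (byt g.R.kh (Nat.land (Nat.shiftRight k (nat_lit 11)) (nat_lit 15))) (Nat.land (Nat.shiftRight ((bwC g.fd.am (Nat.land (Nat.shiftRight k (nat_lit 7)) (nat_lit 15))).1 m e (Nat.land (Nat.shiftRight c (nat_lit 9)) (nat_lit 65408))) (nat_lit 12)) (nat_lit 15))) (nat_lit 12))) (Nat.mul (Nat.land (Nat.shiftRight k (nat_lit 7)) (nat_lit 15)) (nat_lit 12))) (Nat.shiftRight (Nat.add nd (Nat.xor (Nat.land (Nat.shiftRight m (Nat.land (Nat.shiftRight c (nat_lit 9)) (nat_lit 65408))) (Nat.lor (Nat.lor (nat_lit 0x20000000000000000000000000000000) (lenX (Nat.land (Nat.shiftRight k (nat_lit 7)) (nat_lit 15)))) (clsX (Nat.land (Nat.shiftRight k (nat_lit 11)) (nat_lit 15))))) (Nat.lor (Nat.lor (nat_lit 0x20000000000000000000000000000000)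 (lenX (Nat.land (Nat.shiftRight k (nat_lit 7)) (nat_lit 15)))) (clsX (Nat.land (Nat.shiftRight k (nat_lit 11)) (nat_lit 15)))))) (nat_lit 16))⟩ ⟨fun _ _ _ _ _ _ => nat_lit 0⟩)) (Nat.shiftRight k (nat_lit 15)))

def oWin (g : G) (k : ℕ) : Op :=
  sel (Nat.ble (Nat.mul g.R.ww 6) (byt g.R.wb 14)) ⟨fun ih lim m nd e c => (Nat.mul (Nat.shiftRight c (nat_lit 16)) (Nat.sub (nat_lit 1) (Nat.shiftRight (Nat.add nd (Nat.xor (Nat.land (Nat.shiftRight m (Nat.land k (nat_lit 65408))) (Nat.lor (Nat.lor (nat_lit 0x40000000000000000000000000000000) (Nat.shiftLeft g.R.c1 (nat_lit 70))) (clsX 14))) (Nat.lor (Nat.lor (nat_lit 0x40000000000000000000000000000000) (Nat.shiftLeft g.R.c1 (nat_lit 70))) (clsX 14)))) (nat_lit 16))))⟩ ⟨fun _ _ _ _ _ _ => nat_lit 0⟩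

def oRed (g : G) : Op :=
  ⟨fun ih lim m nd e c => frc m fun m' => frc nd fun nd' => sel (g.red m' nd' (Nat.land (Nat.shiftRight c (nat_lit 36)) (Nat.sub (Nat.shiftLeft (nat_lit 1) (Nat.land (Nat.shiftRight c (nat_lit 16)) (nat_lit 0xfffff))) (nat_lit 1)))) (Nat.mul (Nat.shiftRight (Nat.shiftRight c (nat_lit 36)) (Nat.land (Nat.shiftRight c (nat_lit 16)) (nat_lit 0xfffff))) (Nat.sub (nat_lit 1) (Nat.shiftRight nd' (nat_lit 16)))) (nat_lit 0)⟩

def oFold (k : ℕ) : Op :=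
  (@Nat.rec (fun _ => Op) ⟨fun ih lim m nd e c => (ih.1 lim (setE m (itr (nx m) (Nat.land (Nat.shiftRight k (nat_lit 7)) (nat_lit 15)) (Nat.land (Nat.shiftRight c (nat_lit 9)) (nat_lit 65408))) (Nat.land (Nat.shiftRight c (nat_lit 9)) (nat_lit 65408))) (Nat.add (Nat.add nd (Nat.xor (Nat.land (Nat.shiftRight m (Nat.land (Nat.shiftRight c (nat_lit 9)) (nat_lit 65408))) (degX (Nat.land (Nat.shiftRight k (nat_lit 7)) (nat_lit 15)))) (degX (Nat.land (Nat.shiftRight k (nat_lit 7)) (nat_lit 15))))) (Nat.xor (Nat.land (Nat.shiftRight m (itr (nx m) (Nat.land (Nat.shiftRight k (nat_lit 7)) (nat_lit 15)) (Nat.land (Nat.shiftRight c (nat_lit 9)) (nat_lit 65408)))) (nat_lit 0x80000000000000000000000)) (nat_lit 0x80000000000000000000000))) e (Nat.shiftRight c (nat_lit 25)))⟩ (fun _ _ => ⟨fun ih lim m nd e c => (ih.1 lim (setE m (itr (ph m) (Nat.land (Nat.shiftRight k (nat_lit 7)) (nat_lit 15)) (Nat.land (Nat.shiftRight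 c (nat_lit 9)) (nat_lit 65408))) (Nat.land (Nat.shiftRight c (nat_lit 9)) (nat_lit 65408))) (Nat.add (Nat.add nd (Nat.xor (Nat.land (Nat.shiftRight m (Nat.land (Nat.shiftRight c (nat_lit 9)) (nat_lit 65408))) (lenX (Nat.land (Nat.shiftRight k (nat_lit 7)) (nat_lit 15)))) (lenX (Nat.land (Nat.shiftRight k (nat_lit 7)) (nat_lit 15))))) (Nat.xor (Nat.land (Nat.shiftRight m (itr (ph m) (Nat.land (Nat.shiftRight k (nat_lit 7)) (nat_lit 15)) (Nat.land (Nat.shiftRight c (nat_lit 9)) (nat_lit 65408)))) (nat_lit 0x80000000000000000000000)) (nat_lit 0x80000000000000000000000))) e (Nat.shiftRight c (nat_lit 25)))⟩) (Nat.shiftRight k (nat_lit 11)))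

def oLnk0 (k : ℕ) : Op :=
  ⟨fun ih lim m nd e c => (ih.1 lim (setE m (fld m (Nat.land (Nat.shiftRight c (nat_lit 9)) (nat_lit 65408)) (off (Nat.shiftRight k (nat_lit 10)))) (fld m (eqd m (Nat.land (Nat.shiftRight c (nat_lit 9)) (nat_lit 65408))) (off (Nat.shiftRight k (nat_lit 10))))) (Nat.add (Nat.add (Nat.add (Nat.add nd (Nat.xor (Nat.land (Nat.shiftRight m (Nat.land (Nat.shiftRight c (nat_lit 9)) (nat_lit 65408))) (nat_lit 0x80000000000000000000000)) (nat_lit 0x80000000000000000000000))) (Nat.shiftLeft (Nat.sub (nat_lit 1) (eqd m (Nat.land (Nat.shiftRight c (nat_lit 9)) (nat_lit 65408)))) (nat_lit 16))) (Nat.shiftLeft (Nat.sub (nat_lit 1) (fld m (eqd m (Nat.land (Nat.shiftRight c (nat_lit 9)) (nat_lit 65408))) (off (Nat.shiftRight k (nat_lit 10))))) (nat_lit 16))) (Nat.shiftLeft (Nat.sub (nat_lit 1) (fld m (Nat.land (Nat.shiftRight c (nat_lit 9)) (nat_lit 65408)) (off (Nat.shiftRight k (nat_lit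 10))))) (nat_lit 16))) e (Nat.shiftRight c (nat_lit 25)))⟩

def oLnk1 (k : ℕ) : Op :=
  ⟨fun ih lim m nd e c => (ih.1 lim (setE m (fld m (eqd m (Nat.land (Nat.shiftRight c (nat_lit 9)) (nat_lit 65408))) (off (Nat.shiftRight k (nat_lit 10)))) (fld m (Nat.land (Nat.shiftRight c (nat_lit 9)) (nat_lit 65408)) (off (Nat.shiftRight k (nat_lit 10))))) (Nat.add (Nat.add (Nat.add (Nat.add nd (Nat.xor (Nat.land (Nat.shiftRight m (Nat.land (Nat.shiftRight c (nat_lit 9)) (nat_lit 65408))) (nat_lit 0x80000000000000000000000)) (nat_lit 0x80000000000000000000000))) (Nat.shiftLeft (Nat.sub (nat_lit 1) (eqd m (Nat.land (Nat.shiftRight c (nat_lit 9)) (nat_lit 65408)))) (nat_lit 16))) (Nat.shiftLeft (Nat.sub (nat_lit 1) (fld m (eqd m (Nat.land (Nat.shiftRight c (nat_lit 9)) (nat_lit 65408))) (off (Nat.shiftRight k (nat_lit 10))))) (nat_lit 16))) (Nat.shiftLeft (Nat.sub (nat_lit 1) (fld m (Nat.land (Nat.shiftRight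 c (nat_lit 9)) (nat_lit 65408)) (off (Nat.shiftRight k (nat_lit 10))))) (nat_lit 16))) e (Nat.shiftRight c (nat_lit 25)))⟩

def oLnk2 (_k : ℕ) : Op :=
  ⟨fun ih lim m nd e c => (ih.1 lim (absF m (eqd m (Nat.land (Nat.shiftRight c (nat_lit 9)) (nat_lit 65408))) (Nat.land (Nat.shiftRight c (nat_lit 9)) (nat_lit 65408))) (Nat.add (Nat.add nd (Nat.xor (Nat.land (Nat.shiftRight m (Nat.land (Nat.shiftRight c (nat_lit 9)) (nat_lit 65408))) (nat_lit 0x80000000000000000000000)) (nat_lit 0x80000000000000000000000))) (Nat.shiftLeft (Nat.sub (nat_lit 1) (eqd m (Nat.land (Nat.shiftRight c (nat_lit 9)) (nat_lit 65408)))) (nat_lit 16))) e (Nat.shiftRight c (nat_lit 25)))⟩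

def oLnk3 (k : ℕ) : Op :=
  ⟨fun ih lim m nd e c => (ih.1 lim (setL m (Nat.add (Nat.land (Nat.shiftRight c (nat_lit 9)) (nat_lit 65408)) (off (Nat.shiftRight k (nat_lit 10)))) (eqd m (fld m (Nat.land (Nat.shiftRight c (nat_lit 9)) (nat_lit 65408)) (off (Nat.shiftRight k (nat_lit 10)))))) (Nat.add (Nat.add (Nat.add nd (Nat.xor (Nat.land (Nat.shiftRight m (Nat.land (Nat.shiftRight c (nat_lit 9)) (nat_lit 65408))) (nat_lit 0x80000000000000000000000)) (nat_lit 0x80000000000000000000000))) (Nat.shiftLeft (Nat.sub (nat_lit 1) (fld m (Nat.land (Nat.shiftRight c (nat_lit 9)) (nat_lit 65408)) (off (Nat.shiftRight k (nat_lit 10))))) (nat_lit 16))) (Nat.shiftLeft (Nat.sub (nat_lit 1) (eqd m (fld m (Nat.land (Nat.shiftRight c (nat_lit 9)) (nat_lit 65408)) (off (Nat.shiftRight k (nat_lit 10)))))) (nat_lit 16))) e (Nat.shiftRight c (nat_lit 25)))⟩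

def oLnk4 (_k : ℕ) : Op :=
  ⟨fun ih lim m nd e c => (ih.1 lim (setE m (eqd m (Nat.land (Nat.shiftRight c (nat_lit 9)) (nat_lit 65408))) (Nat.land (Nat.shiftRight c (nat_lit 9)) (nat_lit 65408))) (Nat.add (Nat.add nd (Nat.xor (Nat.land (Nat.shiftRight m (Nat.land (Nat.shiftRight c (nat_lit 9)) (nat_lit 65408))) (nat_lit 0x80000000000000000000000)) (nat_lit 0x80000000000000000000000))) (Nat.shiftLeft (Nat.sub (nat_lit 1) (eqd m (Nat.land (Nat.shiftRight c (nat_lit 9)) (nat_lit 65408)))) (nat_lit 16))) e (Nat.shiftRight c (nat_lit 25)))⟩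

def oLnk5 (_k : ℕ) : Op :=
  ⟨fun ih lim m nd e c => (ih.1 lim (setE m (Nat.land (Nat.shiftRight c (nat_lit 9)) (nat_lit 65408)) (eqd m (eqd m (Nat.land (Nat.shiftRight c (nat_lit 9)) (nat_lit 65408))))) (Nat.add (Nat.add (Nat.add nd (Nat.xor (Nat.land (Nat.shiftRight m (Nat.land (Nat.shiftRight c (nat_lit 9)) (nat_lit 65408))) (nat_lit 0x80000000000000000000000)) (nat_lit 0x80000000000000000000000))) (Nat.shiftLeft (Nat.sub (nat_lit 1) (eqd m (Nat.land (Nat.shiftRight c (nat_lit 9)) (nat_lit 65408)))) (nat_lit 16))) (Nat.shiftLeft (Nat.sub (nat_lit 1) (eqd m (eqd m (Nat.land (Nat.shiftRight c (nat_lit 9)) (nat_lit 65408))))) (nat_lit 16))) e (Nat.shiftRight c (nat_lit 25)))⟩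

def oLnk (k : ℕ) : Op :=
  (@Nat.rec (fun _ => Op) ⟨fun _ _ _ _ _ _ => nat_lit 0⟩ (fun s _ => (@Bool.rec (fun _ => Op) (@Bool.rec (fun _ => Op) (@Bool.rec (fun _ => Op) (oLnk5 k)
    (oLnk4 k) (Nat.ble s (nat_lit 4)))
    (oLnk3 k) (Nat.ble s (nat_lit 3)))
    (@Bool.rec (fun _ => Op) (@Bool.rec (fun _ => Op) (oLnk2 k)
    (oLnk1 k) (Nat.ble s (nat_lit 1)))
    (oLnk0 k) (Nat.ble s (nat_lit 0))) (Nat.ble s (nat_lit 2)))) (Nat.succ (Nat.land (Nat.shiftRight k (nat_lit 7)) (nat_lit 7))))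

def oMov0 (k : ℕ) : Op :=
  ⟨fun ih lim m nd e c => (ih.1 lim (Nat.lor m (Nat.shiftLeft (Nat.land (Nat.shiftRight m (nat_lit 91)) (Nat.shiftLeft (nat_lit 1) (Nat.land (Nat.shiftRight m (Nat.land k (nat_lit 65408))) (nat_lit 0x1ffff)))) (nat_lit 124))) (Nat.add nd (Nat.xor (Nat.land (Nat.shiftRight m (Nat.land k (nat_lit 65408))) (nat_lit 0x10000000000000000000000000000000)) (nat_lit 0x10000000000000000000000000000000))) e (Nat.shiftRight c (nat_lit 16)))⟩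

def oMov1 (k : ℕ) : Op :=
  ⟨fun ih lim m nd e c => (ih.1 lim (Nat.lor m (Nat.shiftLeft (Nat.land (Nat.shiftRight m (nat_lit 91)) (Nat.shiftLeft (nat_lit 1) (Nat.land (Nat.shiftRight m (Nat.land (Nat.shiftRight (Nat.shiftRight m (Nat.land k (nat_lit 65408))) (nat_lit 34)) (nat_lit 0x1ffff))) (nat_lit 0x1ffff)))) (nat_lit 125))) (Nat.add nd (Nat.xor (Nat.land (Nat.shiftRight m (Nat.land k (nat_lit 65408))) (nat_lit 0x20000000000000000000000000000000)) (nat_lit 0x20000000000000000000000000000000))) e (Nat.shiftRight c (nat_lit 16)))⟩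

def oRlq (k : ℕ) : Op :=
  ⟨fun ih lim m nd e c => (ih.1 lim (Nat.lor m (Nat.mul ((mskF k).1 m (Nat.land (Nat.shiftRight c (nat_lit 9)) (nat_lit 65408))) (Nat.shiftLeft (relQ m (Nat.land (Nat.shiftRight c (nat_lit 9)) (nat_lit 65408))) (nat_lit 70)))) nd e (Nat.shiftRight c (nat_lit 25)))⟩

/-- for each set of excluded types: surely type 1, maybe type 1, maybe in `N` -/
def VT : ℕ := nat_lit 0x10000011101100100010001100110010001000110011001000100011001100100010001100110010001000110011001000100011001100100010001100110010001000110011001000100011001100100010001100110010001000110011001000100011001100100010001100110010001000110011001000100011001100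

def oRel1 (k : ℕ) : Op :=
  (@Nat.rec (fun _ => Op) ⟨fun ih lim m nd e c => (ih.1 lim (Nat.lor m (Nat.mul ((mskF k).1 m (Nat.land (Nat.shiftRight c (nat_lit 9)) (nat_lit 65408))) (Nat.shiftLeft (Nat.land (Nat.lor (Nat.shiftRight (nat_lit 0x9771977197719771977197719771977197719771977197719771867104310000) (Nat.land (Nat.shiftRight VT (Nat.land (Nat.shiftRight (Nat.shiftRight m (Nat.land (Nat.shiftRight c (nat_lit 9)) (nat_lit 65408))) (nat_lit 60)) (nat_lit 1008))) (nat_lit 240))) (Nat.shiftRight (nat_lit 0) (Nat.land (Nat.shiftRight (Nat.shiftRight VT (Nat.land (Nat.shiftRight (Nat.shiftRight m (Nat.land (Nat.shiftRight c (nat_lit 9)) (nat_lit 65408))) (nat_lit 60)) (nat_lit 1008))) (nat_lit 4)) (nat_lit 240)))) (nat_lit 65535)) (nat_lit 70)))) nd e (Nat.shiftRight c (nat_lit 25)))⟩ (fun _ _ => ⟨fun ih lim m nd e c => (ih.1 lim (Nat.lor m (Nat.mul ((mskF k).1 m (Nat.land (Nat.shiftRight c (nat_lit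 9)) (nat_lit 65408))) (Nat.shiftLeft (Nat.lor (Nat.land (Nat.lor (Nat.shiftRight (nat_lit 0x9771977197719771977197719771977197719771977197719771867104310000) (Nat.land (Nat.shiftRight VT (Nat.land (Nat.shiftRight (Nat.shiftRight m (Nat.land (Nat.shiftRight c (nat_lit 9)) (nat_lit 65408))) (nat_lit 60)) (nat_lit 1008))) (nat_lit 240))) (Nat.shiftRight (nat_lit 0) (Nat.land (Nat.shiftRight (Nat.shiftRight VT (Nat.land (Nat.shiftRight (Nat.shiftRight m (Nat.land (Nat.shiftRight c (nat_lit 9)) (nat_lit 65408))) (nat_lit 60)) (nat_lit 1008))) (nat_lit 4)) (nat_lit 240)))) (nat_lit 65535)) (nat_lit 0x3effff)) (nat_lit 70)))) (Nat.add nd (Nat.shiftLeft (Nat.xor (Nat.land (Nat.shiftRight m (Nat.land (Nat.shiftRight (Nat.shiftRight m (Nat.land (Nat.shiftRight c (nat_lit 9)) (nat_lit 65408))) (nat_lit 34)) (nat_lit 0x1ffff))) (nat_lit 0x1ffff)) (Nat.land (Nat.shiftRight c (nat_lit 9)) (nat_lit 65408)))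 (nat_lit 16))) e (Nat.shiftRight c (nat_lit 25)))⟩) (Nat.shiftRight k (nat_lit 15)))

def oRel2 (k : ℕ) : Op :=
  (@Nat.rec (fun _ => Op) ⟨fun ih lim m nd e c => (ih.1 lim (Nat.lor m (Nat.mul ((mskF k).1 m (Nat.land (Nat.shiftRight c (nat_lit 9)) (nat_lit 65408))) (Nat.shiftLeft (Nat.land (Nat.lor (Nat.shiftRight (nat_lit 0x9771977197719771977197719771977197719771977197719771867104310000) (Nat.land (Nat.add (Nat.shiftRight VT (Nat.land (Nat.shiftRight (Nat.shiftRight m (Nat.land (Nat.shiftRight c (nat_lit 9)) (nat_lit 65408))) (nat_lit 60)) (nat_lit 1008))) (Nat.shiftRight VT (Nat.land (Nat.shiftRight (Nat.shiftRight m (Nat.land (Nat.shiftRight m (Nat.land (Nat.shiftRight (Nat.shiftRight m (Nat.land (Nat.shiftRight c (nat_lit 9)) (nat_lit 65408))) (nat_lit 34)) (nat_lit 0x1ffff))) (nat_lit 0x1ffff))) (nat_lit 60)) (nat_lit 1008)))) (nat_lit 240))) (Nat.shiftRight (nat_lit 0) (Nat.land (Nat.shiftRight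 (Nat.add (Nat.shiftRight VT (Nat.land (Nat.shiftRight (Nat.shiftRight m (Nat.land (Nat.shiftRight c (nat_lit 9)) (nat_lit 65408))) (nat_lit 60)) (nat_lit 1008))) (Nat.shiftRight VT (Nat.land (Nat.shiftRight (Nat.shiftRight m (Nat.land (Nat.shiftRight m (Nat.land (Nat.shiftRight (Nat.shiftRight m (Nat.land (Nat.shiftRight c (nat_lit 9)) (nat_lit 65408))) (nat_lit 34)) (nat_lit 0x1ffff))) (nat_lit 0x1ffff))) (nat_lit 60)) (nat_lit 1008)))) (nat_lit 4)) (nat_lit 240)))) (nat_lit 65535)) (nat_lit 70)))) nd e (Nat.shiftRight c (nat_lit 25)))⟩ (fun _ _ => ⟨fun ih lim m nd e c => (ih.1 lim (Nat.lor m (Nat.mul ((mskF k).1 m (Nat.land (Nat.shiftRight c (nat_lit 9)) (nat_lit 65408))) (Nat.shiftLeft (Nat.lor (Nat.land (Nat.lor (Nat.shiftRight (nat_lit 0x9771977197719771977197719771977197719771977197719771867104310000) (Nat.land (Nat.add (Nat.shiftRight VT (Nat.land (Nat.shiftRight (Nat.shiftRight m (Nat.land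 (Nat.shiftRight c (nat_lit 9)) (nat_lit 65408))) (nat_lit 60)) (nat_lit 1008))) (Nat.shiftRight VT (Nat.land (Nat.shiftRight (Nat.shiftRight m (Nat.land (Nat.shiftRight m (Nat.land (Nat.shiftRight (Nat.shiftRight m (Nat.land (Nat.shiftRight c (nat_lit 9)) (nat_lit 65408))) (nat_lit 34)) (nat_lit 0x1ffff))) (nat_lit 0x1ffff))) (nat_lit 60)) (nat_lit 1008)))) (nat_lit 240))) (Nat.shiftRight (nat_lit 0) (Nat.land (Nat.shiftRight (Nat.add (Nat.shiftRight VT (Nat.land (Nat.shiftRight (Nat.shiftRight m (Nat.land (Nat.shiftRight c (nat_lit 9)) (nat_lit 65408))) (nat_lit 60)) (nat_lit 1008))) (Nat.shiftRight VT (Nat.land (Nat.shiftRight (Nat.shiftRight m (Nat.land (Nat.shiftRight m (Nat.land (Nat.shiftRight (Nat.shiftRight m (Nat.land (Nat.shiftRight c (nat_lit 9)) (nat_lit 65408))) (nat_lit 34)) (nat_lit 0x1ffff))) (nat_lit 0x1ffff))) (nat_lit 60)) (nat_lit 1008)))) (nat_lit 4)) (nat_lit 240)))) (nat_lit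 65535)) (nat_lit 0x3cffff)) (nat_lit 70)))) (Nat.add nd (Nat.shiftLeft (Nat.xor (Nat.land (Nat.shiftRight m (Nat.land (Nat.shiftRight (Nat.shiftRight m (Nat.land (Nat.shiftRight m (Nat.land (Nat.shiftRight (Nat.shiftRight m (Nat.land (Nat.shiftRight c (nat_lit 9)) (nat_lit 65408))) (nat_lit 34)) (nat_lit 0x1ffff))) (nat_lit 0x1ffff))) (nat_lit 34)) (nat_lit 0x1ffff))) (nat_lit 0x1ffff)) (Nat.land (Nat.shiftRight c (nat_lit 9)) (nat_lit 65408))) (nat_lit 16))) e (Nat.shiftRight c (nat_lit 25)))⟩) (Nat.shiftRight k (nat_lit 15)))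

def oRel3 (k : ℕ) : Op :=
  (@Nat.rec (fun _ => Op) ⟨fun ih lim m nd e c => (ih.1 lim (Nat.lor m (Nat.mul ((mskF k).1 m (Nat.land (Nat.shiftRight c (nat_lit 9)) (nat_lit 65408))) (Nat.shiftLeft (Nat.land (Nat.lor (Nat.shiftRight (nat_lit 0x9771977197719771977197719771977197719771977197719771867104310000) (Nat.land (Nat.add (Nat.shiftRight VT (Nat.land (Nat.shiftRight (Nat.shiftRight m (Nat.land (Nat.shiftRight c (nat_lit 9)) (nat_lit 65408))) (nat_lit 60)) (nat_lit 1008))) (Nat.add (Nat.shiftRight VT (Nat.land (Nat.shiftRight (Nat.shiftRight m (Nat.land (Nat.shiftRight m (Nat.land (Nat.shiftRight (Nat.shiftRight m (Nat.land (Nat.shiftRight c (nat_lit 9)) (nat_lit 65408))) (nat_lit 34)) (nat_lit 0x1ffff))) (nat_lit 0x1ffff))) (nat_lit 60)) (nat_lit 1008))) (Nat.shiftRight VT (Nat.land (Nat.shiftRight (Nat.shiftRight m (Nat.land (Nat.shiftRight m (Nat.land (Nat.shiftRight (Nat.shiftRight m (Nat.land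 (Nat.shiftRight m (Nat.land (Nat.shiftRight (Nat.shiftRight m (Nat.land (Nat.shiftRight c (nat_lit 9)) (nat_lit 65408))) (nat_lit 34)) (nat_lit 0x1ffff))) (nat_lit 0x1ffff))) (nat_lit 34)) (nat_lit 0x1ffff))) (nat_lit 0x1ffff))) (nat_lit 60)) (nat_lit 1008))))) (nat_lit 240))) (Nat.shiftRight (nat_lit 0) (Nat.land (Nat.shiftRight (Nat.add (Nat.shiftRight VT (Nat.land (Nat.shiftRight (Nat.shiftRight m (Nat.land (Nat.shiftRight c (nat_lit 9)) (nat_lit 65408))) (nat_lit 60)) (nat_lit 1008))) (Nat.add (Nat.shiftRight VT (Nat.land (Nat.shiftRight (Nat.shiftRight m (Nat.land (Nat.shiftRight m (Nat.land (Nat.shiftRight (Nat.shiftRight m (Nat.land (Nat.shiftRight c (nat_lit 9)) (nat_lit 65408))) (nat_lit 34)) (nat_lit 0x1ffff))) (nat_lit 0x1ffff))) (nat_lit 60)) (nat_lit 1008))) (Nat.shiftRight VT (Nat.land (Nat.shiftRight (Nat.shiftRight m (Nat.land (Nat.shiftRight m (Nat.land (Nat.shiftRight (Nat.shiftRight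 m (Nat.land (Nat.shiftRight m (Nat.land (Nat.shiftRight (Nat.shiftRight m (Nat.land (Nat.shiftRight c (nat_lit 9)) (nat_lit 65408))) (nat_lit 34)) (nat_lit 0x1ffff))) (nat_lit 0x1ffff))) (nat_lit 34)) (nat_lit 0x1ffff))) (nat_lit 0x1ffff))) (nat_lit 60)) (nat_lit 1008))))) (nat_lit 4)) (nat_lit 240)))) (nat_lit 65535)) (nat_lit 70)))) nd e (Nat.shiftRight c (nat_lit 25)))⟩ (fun _ _ => ⟨fun ih lim m nd e c => (ih.1 lim (Nat.lor m (Nat.mul ((mskF k).1 m (Nat.land (Nat.shiftRight c (nat_lit 9)) (nat_lit 65408))) (Nat.shiftLeft (Nat.lor (Nat.land (Nat.lor (Nat.shiftRight (nat_lit 0x9771977197719771977197719771977197719771977197719771867104310000) (Nat.land (Nat.add (Nat.shiftRight VT (Nat.land (Nat.shiftRight (Nat.shiftRight m (Nat.land (Nat.shiftRight c (nat_lit 9)) (nat_lit 65408))) (nat_lit 60)) (nat_lit 1008))) (Nat.add (Nat.shiftRight VT (Nat.land (Nat.shiftRight (Nat.shiftRight m (Nat.land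 (Nat.shiftRight m (Nat.land (Nat.shiftRight (Nat.shiftRight m (Nat.land (Nat.shiftRight c (nat_lit 9)) (nat_lit 65408))) (nat_lit 34)) (nat_lit 0x1ffff))) (nat_lit 0x1ffff))) (nat_lit 60)) (nat_lit 1008))) (Nat.shiftRight VT (Nat.land (Nat.shiftRight (Nat.shiftRight m (Nat.land (Nat.shiftRight m (Nat.land (Nat.shiftRight (Nat.shiftRight m (Nat.land (Nat.shiftRight m (Nat.land (Nat.shiftRight (Nat.shiftRight m (Nat.land (Nat.shiftRight c (nat_lit 9)) (nat_lit 65408))) (nat_lit 34)) (nat_lit 0x1ffff))) (nat_lit 0x1ffff))) (nat_lit 34)) (nat_lit 0x1ffff))) (nat_lit 0x1ffff))) (nat_lit 60)) (nat_lit 1008))))) (nat_lit 240))) (Nat.shiftRight (nat_lit 0) (Nat.land (Nat.shiftRight (Nat.add (Nat.shiftRight VT (Nat.land (Nat.shiftRight (Nat.shiftRight m (Nat.land (Nat.shiftRight c (nat_lit 9)) (nat_lit 65408))) (nat_lit 60)) (nat_lit 1008))) (Nat.add (Nat.shiftRight VT (Nat.land (Nat.shiftRight (Nat.shiftRight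 m (Nat.land (Nat.shiftRight m (Nat.land (Nat.shiftRight (Nat.shiftRight m (Nat.land (Nat.shiftRight c (nat_lit 9)) (nat_lit 65408))) (nat_lit 34)) (nat_lit 0x1ffff))) (nat_lit 0x1ffff))) (nat_lit 60)) (nat_lit 1008))) (Nat.shiftRight VT (Nat.land (Nat.shiftRight (Nat.shiftRight m (Nat.land (Nat.shiftRight m (Nat.land (Nat.shiftRight (Nat.shiftRight m (Nat.land (Nat.shiftRight m (Nat.land (Nat.shiftRight (Nat.shiftRight m (Nat.land (Nat.shiftRight c (nat_lit 9)) (nat_lit 65408))) (nat_lit 34)) (nat_lit 0x1ffff))) (nat_lit 0x1ffff))) (nat_lit 34)) (nat_lit 0x1ffff))) (nat_lit 0x1ffff))) (nat_lit 60)) (nat_lit 1008))))) (nat_lit 4)) (nat_lit 240)))) (nat_lit 65535)) (nat_lit 0x3affff)) (nat_lit 70)))) (Nat.add nd (Nat.shiftLeft (Nat.xor (Nat.land (Nat.shiftRight m (Nat.land (Nat.shiftRight (Nat.shiftRight m (Nat.land (Nat.shiftRight m (Nat.land (Nat.shiftRight (Nat.shiftRight m (Nat.land (Nat.shiftRight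 m (Nat.land (Nat.shiftRight (Nat.shiftRight m (Nat.land (Nat.shiftRight c (nat_lit 9)) (nat_lit 65408))) (nat_lit 34)) (nat_lit 0x1ffff))) (nat_lit 0x1ffff))) (nat_lit 34)) (nat_lit 0x1ffff))) (nat_lit 0x1ffff))) (nat_lit 34)) (nat_lit 0x1ffff))) (nat_lit 0x1ffff)) (Nat.land (Nat.shiftRight c (nat_lit 9)) (nat_lit 65408))) (nat_lit 16))) e (Nat.shiftRight c (nat_lit 25)))⟩) (Nat.shiftRight k (nat_lit 15)))

def oRel4 (k : ℕ) : Op :=
  (@Nat.rec (fun _ => Op) ⟨fun ih lim m nd e c => (ih.1 lim (Nat.lor m (Nat.mul ((mskF k).1 m (Nat.land (Nat.shiftRight c (nat_lit 9)) (nat_lit 65408))) (Nat.shiftLeft (Nat.land (Nat.lor (Nat.shiftRight (nat_lit 0x9771977197719771977197719771977197719771977197719771867104310000) (Nat.land (Nat.add (Nat.shiftRight VT (Nat.land (Nat.shiftRight (Nat.shiftRight m (Nat.land (Nat.shiftRight c (nat_lit 9)) (nat_lit 65408))) (nat_lit 60)) (nat_lit 1008))) (Nat.add (Nat.shiftRight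 VT (Nat.land (Nat.shiftRight (Nat.shiftRight m (Nat.land (Nat.shiftRight m (Nat.land (Nat.shiftRight (Nat.shiftRight m (Nat.land (Nat.shiftRight c (nat_lit 9)) (nat_lit 65408))) (nat_lit 34)) (nat_lit 0x1ffff))) (nat_lit 0x1ffff))) (nat_lit 60)) (nat_lit 1008))) (Nat.add (Nat.shiftRight VT (Nat.land (Nat.shiftRight (Nat.shiftRight m (Nat.land (Nat.shiftRight m (Nat.land (Nat.shiftRight (Nat.shiftRight m (Nat.land (Nat.shiftRight m (Nat.land (Nat.shiftRight (Nat.shiftRight m (Nat.land (Nat.shiftRight c (nat_lit 9)) (nat_lit 65408))) (nat_lit 34)) (nat_lit 0x1ffff))) (nat_lit 0x1ffff))) (nat_lit 34)) (nat_lit 0x1ffff))) (nat_lit 0x1ffff))) (nat_lit 60)) (nat_lit 1008))) (Nat.shiftRight VT (Nat.land (Nat.shiftRight (Nat.shiftRight m (Nat.land (Nat.shiftRight m (Nat.land (Nat.shiftRight (Nat.shiftRight m (Nat.land (Nat.shiftRight m (Nat.land (Nat.shiftRight (Nat.shiftRight m (Nat.land (Nat.shiftRight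 m (Nat.land (Nat.shiftRight (Nat.shiftRight m (Nat.land (Nat.shiftRight c (nat_lit 9)) (nat_lit 65408))) (nat_lit 34)) (nat_lit 0x1ffff))) (nat_lit 0x1ffff))) (nat_lit 34)) (nat_lit 0x1ffff))) (nat_lit 0x1ffff))) (nat_lit 34)) (nat_lit 0x1ffff))) (nat_lit 0x1ffff))) (nat_lit 60)) (nat_lit 1008)))))) (nat_lit 240))) (Nat.shiftRight (nat_lit 0) (Nat.land (Nat.shiftRight (Nat.add (Nat.shiftRight VT (Nat.land (Nat.shiftRight (Nat.shiftRight m (Nat.land (Nat.shiftRight c (nat_lit 9)) (nat_lit 65408))) (nat_lit 60)) (nat_lit 1008))) (Nat.add (Nat.shiftRight VT (Nat.land (Nat.shiftRight (Nat.shiftRight m (Nat.land (Nat.shiftRight m (Nat.land (Nat.shiftRight (Nat.shiftRight m (Nat.land (Nat.shiftRight c (nat_lit 9)) (nat_lit 65408))) (nat_lit 34)) (nat_lit 0x1ffff))) (nat_lit 0x1ffff))) (nat_lit 60)) (nat_lit 1008))) (Nat.add (Nat.shiftRight VT (Nat.land (Nat.shiftRight (Nat.shiftRight m (Nat.land (Nat.shiftRight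 m (Nat.land (Nat.shiftRight (Nat.shiftRight m (Nat.land (Nat.shiftRight m (Nat.land (Nat.shiftRight (Nat.shiftRight m (Nat.land (Nat.shiftRight c (nat_lit 9)) (nat_lit 65408))) (nat_lit 34)) (nat_lit 0x1ffff))) (nat_lit 0x1ffff))) (nat_lit 34)) (nat_lit 0x1ffff))) (nat_lit 0x1ffff))) (nat_lit 60)) (nat_lit 1008))) (Nat.shiftRight VT (Nat.land (Nat.shiftRight (Nat.shiftRight m (Nat.land (Nat.shiftRight m (Nat.land (Nat.shiftRight (Nat.shiftRight m (Nat.land (Nat.shiftRight m (Nat.land (Nat.shiftRight (Nat.shiftRight m (Nat.land (Nat.shiftRight m (Nat.land (Nat.shiftRight (Nat.shiftRight m (Nat.land (Nat.shiftRight c (nat_lit 9)) (nat_lit 65408))) (nat_lit 34)) (nat_lit 0x1ffff))) (nat_lit 0x1ffff))) (nat_lit 34)) (nat_lit 0x1ffff))) (nat_lit 0x1ffff))) (nat_lit 34)) (nat_lit 0x1ffff))) (nat_lit 0x1ffff))) (nat_lit 60)) (nat_lit 1008)))))) (nat_lit 4)) (nat_lit 240)))) (nat_lit 65535)) (nat_lit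 70)))) nd e (Nat.shiftRight c (nat_lit 25)))⟩ (fun _ _ => ⟨fun ih lim m nd e c => (ih.1 lim (Nat.lor m (Nat.mul ((mskF k).1 m (Nat.land (Nat.shiftRight c (nat_lit 9)) (nat_lit 65408))) (Nat.shiftLeft (Nat.lor (Nat.land (Nat.lor (Nat.shiftRight (nat_lit 0x9771977197719771977197719771977197719771977197719771867104310000) (Nat.land (Nat.add (Nat.shiftRight VT (Nat.land (Nat.shiftRight (Nat.shiftRight m (Nat.land (Nat.shiftRight c (nat_lit 9)) (nat_lit 65408))) (nat_lit 60)) (nat_lit 1008))) (Nat.add (Nat.shiftRight VT (Nat.land (Nat.shiftRight (Nat.shiftRight m (Nat.land (Nat.shiftRight m (Nat.land (Nat.shiftRight (Nat.shiftRight m (Nat.land (Nat.shiftRight c (nat_lit 9)) (nat_lit 65408))) (nat_lit 34)) (nat_lit 0x1ffff))) (nat_lit 0x1ffff))) (nat_lit 60)) (nat_lit 1008))) (Nat.add (Nat.shiftRight VT (Nat.land (Nat.shiftRight (Nat.shiftRight m (Nat.land (Nat.shiftRight m (Nat.land (Nat.shiftRight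 (Nat.shiftRight m (Nat.land (Nat.shiftRight m (Nat.land (Nat.shiftRight (Nat.shiftRight m (Nat.land (Nat.shiftRight c (nat_lit 9)) (nat_lit 65408))) (nat_lit 34)) (nat_lit 0x1ffff))) (nat_lit 0x1ffff))) (nat_lit 34)) (nat_lit 0x1ffff))) (nat_lit 0x1ffff))) (nat_lit 60)) (nat_lit 1008))) (Nat.shiftRight VT (Nat.land (Nat.shiftRight (Nat.shiftRight m (Nat.land (Nat.shiftRight m (Nat.land (Nat.shiftRight (Nat.shiftRight m (Nat.land (Nat.shiftRight m (Nat.land (Nat.shiftRight (Nat.shiftRight m (Nat.land (Nat.shiftRight m (Nat.land (Nat.shiftRight (Nat.shiftRight m (Nat.land (Nat.shiftRight c (nat_lit 9)) (nat_lit 65408))) (nat_lit 34)) (nat_lit 0x1ffff))) (nat_lit 0x1ffff))) (nat_lit 34)) (nat_lit 0x1ffff))) (nat_lit 0x1ffff))) (nat_lit 34)) (nat_lit 0x1ffff))) (nat_lit 0x1ffff))) (nat_lit 60)) (nat_lit 1008)))))) (nat_lit 240))) (Nat.shiftRight (nat_lit 0) (Nat.land (Nat.shiftRight (Nat.add (Nat.shiftRight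 VT (Nat.land (Nat.shiftRight (Nat.shiftRight m (Nat.land (Nat.shiftRight c (nat_lit 9)) (nat_lit 65408))) (nat_lit 60)) (nat_lit 1008))) (Nat.add (Nat.shiftRight VT (Nat.land (Nat.shiftRight (Nat.shiftRight m (Nat.land (Nat.shiftRight m (Nat.land (Nat.shiftRight (Nat.shiftRight m (Nat.land (Nat.shiftRight c (nat_lit 9)) (nat_lit 65408))) (nat_lit 34)) (nat_lit 0x1ffff))) (nat_lit 0x1ffff))) (nat_lit 60)) (nat_lit 1008))) (Nat.add (Nat.shiftRight VT (Nat.land (Nat.shiftRight (Nat.shiftRight m (Nat.land (Nat.shiftRight m (Nat.land (Nat.shiftRight (Nat.shiftRight m (Nat.land (Nat.shiftRight m (Nat.land (Nat.shiftRight (Nat.shiftRight m (Nat.land (Nat.shiftRight c (nat_lit 9)) (nat_lit 65408))) (nat_lit 34)) (nat_lit 0x1ffff))) (nat_lit 0x1ffff))) (nat_lit 34)) (nat_lit 0x1ffff))) (nat_lit 0x1ffff))) (nat_lit 60)) (nat_lit 1008))) (Nat.shiftRight VT (Nat.land (Nat.shiftRight (Nat.shiftRight m (Nat.land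 (Nat.shiftRight m (Nat.land (Nat.shiftRight (Nat.shiftRight m (Nat.land (Nat.shiftRight m (Nat.land (Nat.shiftRight (Nat.shiftRight m (Nat.land (Nat.shiftRight m (Nat.land (Nat.shiftRight (Nat.shiftRight m (Nat.land (Nat.shiftRight c (nat_lit 9)) (nat_lit 65408))) (nat_lit 34)) (nat_lit 0x1ffff))) (nat_lit 0x1ffff))) (nat_lit 34)) (nat_lit 0x1ffff))) (nat_lit 0x1ffff))) (nat_lit 34)) (nat_lit 0x1ffff))) (nat_lit 0x1ffff))) (nat_lit 60)) (nat_lit 1008)))))) (nat_lit 4)) (nat_lit 240)))) (nat_lit 65535)) (nat_lit 0x34ffff)) (nat_lit 70)))) (Nat.add nd (Nat.shiftLeft (Nat.xor (Nat.land (Nat.shiftRight m (Nat.land (Nat.shiftRight (Nat.shiftRight m (Nat.land (Nat.shiftRight m (Nat.land (Nat.shiftRight (Nat.shiftRight m (Nat.land (Nat.shiftRight m (Nat.land (Nat.shiftRight (Nat.shiftRight m (Nat.land (Nat.shiftRight m (Nat.land (Nat.shiftRight (Nat.shiftRight m (Nat.land (Nat.shiftRight c (nat_lit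 9)) (nat_lit 65408))) (nat_lit 34)) (nat_lit 0x1ffff))) (nat_lit 0x1ffff))) (nat_lit 34)) (nat_lit 0x1ffff))) (nat_lit 0x1ffff))) (nat_lit 34)) (nat_lit 0x1ffff))) (nat_lit 0x1ffff))) (nat_lit 34)) (nat_lit 0x1ffff))) (nat_lit 0x1ffff)) (Nat.land (Nat.shiftRight c (nat_lit 9)) (nat_lit 65408))) (nat_lit 16))) e (Nat.shiftRight c (nat_lit 25)))⟩) (Nat.shiftRight k (nat_lit 15)))

def oRel5 (k : ℕ) : Op :=
  (@Nat.rec (fun _ => Op) ⟨fun ih lim m nd e c => (ih.1 lim (Nat.lor m (Nat.mul ((mskF k).1 m (Nat.land (Nat.shiftRight c (nat_lit 9)) (nat_lit 65408))) (Nat.shiftLeft (Nat.lor (Nat.land (Nat.lor (Nat.shiftRight (nat_lit 0x9771977197719771977197719771977197719771977197719771867104310000) (Nat.land (Nat.add (Nat.shiftRight VT (Nat.land (Nat.shiftRight (Nat.shiftRight m (Nat.land (Nat.shiftRight c (nat_lit 9)) (nat_lit 65408))) (nat_lit 60)) (nat_lit 1008))) (Nat.add (Nat.shiftRight VT (Nat.land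 (Nat.shiftRight (Nat.shiftRight m (Nat.land (Nat.shiftRight m (Nat.land (Nat.shiftRight (Nat.shiftRight m (Nat.land (Nat.shiftRight c (nat_lit 9)) (nat_lit 65408))) (nat_lit 34)) (nat_lit 0x1ffff))) (nat_lit 0x1ffff))) (nat_lit 60)) (nat_lit 1008))) (Nat.add (Nat.shiftRight VT (Nat.land (Nat.shiftRight (Nat.shiftRight m (Nat.land (Nat.shiftRight m (Nat.land (Nat.shiftRight (Nat.shiftRight m (Nat.land (Nat.shiftRight m (Nat.land (Nat.shiftRight (Nat.shiftRight m (Nat.land (Nat.shiftRight c (nat_lit 9)) (nat_lit 65408))) (nat_lit 34)) (nat_lit 0x1ffff))) (nat_lit 0x1ffff))) (nat_lit 34)) (nat_lit 0x1ffff))) (nat_lit 0x1ffff))) (nat_lit 60)) (nat_lit 1008))) (Nat.add (Nat.shiftRight VT (Nat.land (Nat.shiftRight (Nat.shiftRight m (Nat.land (Nat.shiftRight m (Nat.land (Nat.shiftRight (Nat.shiftRight m (Nat.land (Nat.shiftRight m (Nat.land (Nat.shiftRight (Nat.shiftRight m (Nat.land (Nat.shiftRight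 m (Nat.land (Nat.shiftRight (Nat.shiftRight m (Nat.land (Nat.shiftRight c (nat_lit 9)) (nat_lit 65408))) (nat_lit 34)) (nat_lit 0x1ffff))) (nat_lit 0x1ffff))) (nat_lit 34)) (nat_lit 0x1ffff))) (nat_lit 0x1ffff))) (nat_lit 34)) (nat_lit 0x1ffff))) (nat_lit 0x1ffff))) (nat_lit 60)) (nat_lit 1008))) (Nat.shiftRight VT (Nat.land (Nat.shiftRight (Nat.shiftRight m (Nat.land (Nat.shiftRight m (Nat.land (Nat.shiftRight (Nat.shiftRight m (Nat.land (Nat.shiftRight m (Nat.land (Nat.shiftRight (Nat.shiftRight m (Nat.land (Nat.shiftRight m (Nat.land (Nat.shiftRight (Nat.shiftRight m (Nat.land (Nat.shiftRight m (Nat.land (Nat.shiftRight (Nat.shiftRight m (Nat.land (Nat.shiftRight c (nat_lit 9)) (nat_lit 65408))) (nat_lit 34)) (nat_lit 0x1ffff))) (nat_lit 0x1ffff))) (nat_lit 34)) (nat_lit 0x1ffff))) (nat_lit 0x1ffff))) (nat_lit 34)) (nat_lit 0x1ffff))) (nat_lit 0x1ffff))) (nat_lit 34)) (nat_lit 0x1ffff))) (nat_lit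 0x1ffff))) (nat_lit 60)) (nat_lit 1008))))))) (nat_lit 240))) (Nat.shiftRight (nat_lit 0) (Nat.land (Nat.shiftRight (Nat.add (Nat.shiftRight VT (Nat.land (Nat.shiftRight (Nat.shiftRight m (Nat.land (Nat.shiftRight c (nat_lit 9)) (nat_lit 65408))) (nat_lit 60)) (nat_lit 1008))) (Nat.add (Nat.shiftRight VT (Nat.land (Nat.shiftRight (Nat.shiftRight m (Nat.land (Nat.shiftRight m (Nat.land (Nat.shiftRight (Nat.shiftRight m (Nat.land (Nat.shiftRight c (nat_lit 9)) (nat_lit 65408))) (nat_lit 34)) (nat_lit 0x1ffff))) (nat_lit 0x1ffff))) (nat_lit 60)) (nat_lit 1008))) (Nat.add (Nat.shiftRight VT (Nat.land (Nat.shiftRight (Nat.shiftRight m (Nat.land (Nat.shiftRight m (Nat.land (Nat.shiftRight (Nat.shiftRight m (Nat.land (Nat.shiftRight m (Nat.land (Nat.shiftRight (Nat.shiftRight m (Nat.land (Nat.shiftRight c (nat_lit 9)) (nat_lit 65408))) (nat_lit 34)) (nat_lit 0x1ffff))) (nat_lit 0x1ffff))) (nat_lit 34))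 (nat_lit 0x1ffff))) (nat_lit 0x1ffff))) (nat_lit 60)) (nat_lit 1008))) (Nat.add (Nat.shiftRight VT (Nat.land (Nat.shiftRight (Nat.shiftRight m (Nat.land (Nat.shiftRight m (Nat.land (Nat.shiftRight (Nat.shiftRight m (Nat.land (Nat.shiftRight m (Nat.land (Nat.shiftRight (Nat.shiftRight m (Nat.land (Nat.shiftRight m (Nat.land (Nat.shiftRight (Nat.shiftRight m (Nat.land (Nat.shiftRight c (nat_lit 9)) (nat_lit 65408))) (nat_lit 34)) (nat_lit 0x1ffff))) (nat_lit 0x1ffff))) (nat_lit 34)) (nat_lit 0x1ffff))) (nat_lit 0x1ffff))) (nat_lit 34)) (nat_lit 0x1ffff))) (nat_lit 0x1ffff))) (nat_lit 60)) (nat_lit 1008))) (Nat.shiftRight VT (Nat.land (Nat.shiftRight (Nat.shiftRight m (Nat.land (Nat.shiftRight m (Nat.land (Nat.shiftRight (Nat.shiftRight m (Nat.land (Nat.shiftRight m (Nat.land (Nat.shiftRight (Nat.shiftRight m (Nat.land (Nat.shiftRight m (Nat.land (Nat.shiftRight (Nat.shiftRight m (Nat.land (Nat.shiftRight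 m (Nat.land (Nat.shiftRight (Nat.shiftRight m (Nat.land (Nat.shiftRight c (nat_lit 9)) (nat_lit 65408))) (nat_lit 34)) (nat_lit 0x1ffff))) (nat_lit 0x1ffff))) (nat_lit 34)) (nat_lit 0x1ffff))) (nat_lit 0x1ffff))) (nat_lit 34)) (nat_lit 0x1ffff))) (nat_lit 0x1ffff))) (nat_lit 34)) (nat_lit 0x1ffff))) (nat_lit 0x1ffff))) (nat_lit 60)) (nat_lit 1008))))))) (nat_lit 4)) (nat_lit 240)))) (nat_lit 65535)) (Nat.sub (nat_lit 1) (Nat.land (Nat.shiftRight (Nat.add (Nat.shiftRight VT (Nat.land (Nat.shiftRight (Nat.shiftRight m (Nat.land (Nat.shiftRight c (nat_lit 9)) (nat_lit 65408))) (nat_lit 60)) (nat_lit 1008))) (Nat.add (Nat.shiftRight VT (Nat.land (Nat.shiftRight (Nat.shiftRight m (Nat.land (Nat.shiftRight m (Nat.land (Nat.shiftRight (Nat.shiftRight m (Nat.land (Nat.shiftRight c (nat_lit 9)) (nat_lit 65408))) (nat_lit 34)) (nat_lit 0x1ffff))) (nat_lit 0x1ffff))) (nat_lit 60)) (nat_lit 1008))) (Nat.add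 (Nat.shiftRight VT (Nat.land (Nat.shiftRight (Nat.shiftRight m (Nat.land (Nat.shiftRight m (Nat.land (Nat.shiftRight (Nat.shiftRight m (Nat.land (Nat.shiftRight m (Nat.land (Nat.shiftRight (Nat.shiftRight m (Nat.land (Nat.shiftRight c (nat_lit 9)) (nat_lit 65408))) (nat_lit 34)) (nat_lit 0x1ffff))) (nat_lit 0x1ffff))) (nat_lit 34)) (nat_lit 0x1ffff))) (nat_lit 0x1ffff))) (nat_lit 60)) (nat_lit 1008))) (Nat.add (Nat.shiftRight VT (Nat.land (Nat.shiftRight (Nat.shiftRight m (Nat.land (Nat.shiftRight m (Nat.land (Nat.shiftRight (Nat.shiftRight m (Nat.land (Nat.shiftRight m (Nat.land (Nat.shiftRight (Nat.shiftRight m (Nat.land (Nat.shiftRight m (Nat.land (Nat.shiftRight (Nat.shiftRight m (Nat.land (Nat.shiftRight c (nat_lit 9)) (nat_lit 65408))) (nat_lit 34)) (nat_lit 0x1ffff))) (nat_lit 0x1ffff))) (nat_lit 34)) (nat_lit 0x1ffff))) (nat_lit 0x1ffff))) (nat_lit 34)) (nat_lit 0x1ffff))) (nat_lit 0x1ffff)))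 (nat_lit 60)) (nat_lit 1008))) (Nat.shiftRight VT (Nat.land (Nat.shiftRight (Nat.shiftRight m (Nat.land (Nat.shiftRight m (Nat.land (Nat.shiftRight (Nat.shiftRight m (Nat.land (Nat.shiftRight m (Nat.land (Nat.shiftRight (Nat.shiftRight m (Nat.land (Nat.shiftRight m (Nat.land (Nat.shiftRight (Nat.shiftRight m (Nat.land (Nat.shiftRight m (Nat.land (Nat.shiftRight (Nat.shiftRight m (Nat.land (Nat.shiftRight c (nat_lit 9)) (nat_lit 65408))) (nat_lit 34)) (nat_lit 0x1ffff))) (nat_lit 0x1ffff))) (nat_lit 34)) (nat_lit 0x1ffff))) (nat_lit 0x1ffff))) (nat_lit 34)) (nat_lit 0x1ffff))) (nat_lit 0x1ffff))) (nat_lit 34)) (nat_lit 0x1ffff))) (nat_lit 0x1ffff))) (nat_lit 60)) (nat_lit 1008))))))) (nat_lit 12)) (nat_lit 15)))) (nat_lit 70)))) nd e (Nat.shiftRight c (nat_lit 25)))⟩ (fun _ _ => ⟨fun ih lim m nd e c => (ih.1 lim (Nat.lor m (Nat.mul ((mskF k).1 m (Nat.land (Nat.shiftRight c (nat_lit 9)) (nat_lit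 65408))) (Nat.shiftLeft (Nat.lor (Nat.lor (Nat.land (Nat.lor (Nat.shiftRight (nat_lit 0x9771977197719771977197719771977197719771977197719771867104310000) (Nat.land (Nat.add (Nat.shiftRight VT (Nat.land (Nat.shiftRight (Nat.shiftRight m (Nat.land (Nat.shiftRight c (nat_lit 9)) (nat_lit 65408))) (nat_lit 60)) (nat_lit 1008))) (Nat.add (Nat.shiftRight VT (Nat.land (Nat.shiftRight (Nat.shiftRight m (Nat.land (Nat.shiftRight m (Nat.land (Nat.shiftRight (Nat.shiftRight m (Nat.land (Nat.shiftRight c (nat_lit 9)) (nat_lit 65408))) (nat_lit 34)) (nat_lit 0x1ffff))) (nat_lit 0x1ffff))) (nat_lit 60)) (nat_lit 1008))) (Nat.add (Nat.shiftRight VT (Nat.land (Nat.shiftRight (Nat.shiftRight m (Nat.land (Nat.shiftRight m (Nat.land (Nat.shiftRight (Nat.shiftRight m (Nat.land (Nat.shiftRight m (Nat.land (Nat.shiftRight (Nat.shiftRight m (Nat.land (Nat.shiftRight c (nat_lit 9)) (nat_lit 65408))) (nat_lit 34)) (nat_lit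 0x1ffff))) (nat_lit 0x1ffff))) (nat_lit 34)) (nat_lit 0x1ffff))) (nat_lit 0x1ffff))) (nat_lit 60)) (nat_lit 1008))) (Nat.add (Nat.shiftRight VT (Nat.land (Nat.shiftRight (Nat.shiftRight m (Nat.land (Nat.shiftRight m (Nat.land (Nat.shiftRight (Nat.shiftRight m (Nat.land (Nat.shiftRight m (Nat.land (Nat.shiftRight (Nat.shiftRight m (Nat.land (Nat.shiftRight m (Nat.land (Nat.shiftRight (Nat.shiftRight m (Nat.land (Nat.shiftRight c (nat_lit 9)) (nat_lit 65408))) (nat_lit 34)) (nat_lit 0x1ffff))) (nat_lit 0x1ffff))) (nat_lit 34)) (nat_lit 0x1ffff))) (nat_lit 0x1ffff))) (nat_lit 34)) (nat_lit 0x1ffff))) (nat_lit 0x1ffff))) (nat_lit 60)) (nat_lit 1008))) (Nat.shiftRight VT (Nat.land (Nat.shiftRight (Nat.shiftRight m (Nat.land (Nat.shiftRight m (Nat.land (Nat.shiftRight (Nat.shiftRight m (Nat.land (Nat.shiftRight m (Nat.land (Nat.shiftRight (Nat.shiftRight m (Nat.land (Nat.shiftRight m (Nat.land (Nat.shiftRight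 (Nat.shiftRight m (Nat.land (Nat.shiftRight m (Nat.land (Nat.shiftRight (Nat.shiftRight m (Nat.land (Nat.shiftRight c (nat_lit 9)) (nat_lit 65408))) (nat_lit 34)) (nat_lit 0x1ffff))) (nat_lit 0x1ffff))) (nat_lit 34)) (nat_lit 0x1ffff))) (nat_lit 0x1ffff))) (nat_lit 34)) (nat_lit 0x1ffff))) (nat_lit 0x1ffff))) (nat_lit 34)) (nat_lit 0x1ffff))) (nat_lit 0x1ffff))) (nat_lit 60)) (nat_lit 1008))))))) (nat_lit 240))) (Nat.shiftRight (nat_lit 0) (Nat.land (Nat.shiftRight (Nat.add (Nat.shiftRight VT (Nat.land (Nat.shiftRight (Nat.shiftRight m (Nat.land (Nat.shiftRight c (nat_lit 9)) (nat_lit 65408))) (nat_lit 60)) (nat_lit 1008))) (Nat.add (Nat.shiftRight VT (Nat.land (Nat.shiftRight (Nat.shiftRight m (Nat.land (Nat.shiftRight m (Nat.land (Nat.shiftRight (Nat.shiftRight m (Nat.land (Nat.shiftRight c (nat_lit 9)) (nat_lit 65408))) (nat_lit 34)) (nat_lit 0x1ffff))) (nat_lit 0x1ffff))) (nat_lit 60)) (nat_lit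 1008))) (Nat.add (Nat.shiftRight VT (Nat.land (Nat.shiftRight (Nat.shiftRight m (Nat.land (Nat.shiftRight m (Nat.land (Nat.shiftRight (Nat.shiftRight m (Nat.land (Nat.shiftRight m (Nat.land (Nat.shiftRight (Nat.shiftRight m (Nat.land (Nat.shiftRight c (nat_lit 9)) (nat_lit 65408))) (nat_lit 34)) (nat_lit 0x1ffff))) (nat_lit 0x1ffff))) (nat_lit 34)) (nat_lit 0x1ffff))) (nat_lit 0x1ffff))) (nat_lit 60)) (nat_lit 1008))) (Nat.add (Nat.shiftRight VT (Nat.land (Nat.shiftRight (Nat.shiftRight m (Nat.land (Nat.shiftRight m (Nat.land (Nat.shiftRight (Nat.shiftRight m (Nat.land (Nat.shiftRight m (Nat.land (Nat.shiftRight (Nat.shiftRight m (Nat.land (Nat.shiftRight m (Nat.land (Nat.shiftRight (Nat.shiftRight m (Nat.land (Nat.shiftRight c (nat_lit 9)) (nat_lit 65408))) (nat_lit 34)) (nat_lit 0x1ffff))) (nat_lit 0x1ffff))) (nat_lit 34)) (nat_lit 0x1ffff))) (nat_lit 0x1ffff))) (nat_lit 34)) (nat_lit 0x1ffff)))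 (nat_lit 0x1ffff))) (nat_lit 60)) (nat_lit 1008))) (Nat.shiftRight VT (Nat.land (Nat.shiftRight (Nat.shiftRight m (Nat.land (Nat.shiftRight m (Nat.land (Nat.shiftRight (Nat.shiftRight m (Nat.land (Nat.shiftRight m (Nat.land (Nat.shiftRight (Nat.shiftRight m (Nat.land (Nat.shiftRight m (Nat.land (Nat.shiftRight (Nat.shiftRight m (Nat.land (Nat.shiftRight m (Nat.land (Nat.shiftRight (Nat.shiftRight m (Nat.land (Nat.shiftRight c (nat_lit 9)) (nat_lit 65408))) (nat_lit 34)) (nat_lit 0x1ffff))) (nat_lit 0x1ffff))) (nat_lit 34)) (nat_lit 0x1ffff))) (nat_lit 0x1ffff))) (nat_lit 34)) (nat_lit 0x1ffff))) (nat_lit 0x1ffff))) (nat_lit 34)) (nat_lit 0x1ffff))) (nat_lit 0x1ffff))) (nat_lit 60)) (nat_lit 1008))))))) (nat_lit 4)) (nat_lit 240)))) (nat_lit 65535)) (Nat.sub (nat_lit 1) (Nat.land (Nat.shiftRight (Nat.add (Nat.shiftRight VT (Nat.land (Nat.shiftRight (Nat.shiftRight m (Nat.land (Nat.shiftRight c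 (nat_lit 9)) (nat_lit 65408))) (nat_lit 60)) (nat_lit 1008))) (Nat.add (Nat.shiftRight VT (Nat.land (Nat.shiftRight (Nat.shiftRight m (Nat.land (Nat.shiftRight m (Nat.land (Nat.shiftRight (Nat.shiftRight m (Nat.land (Nat.shiftRight c (nat_lit 9)) (nat_lit 65408))) (nat_lit 34)) (nat_lit 0x1ffff))) (nat_lit 0x1ffff))) (nat_lit 60)) (nat_lit 1008))) (Nat.add (Nat.shiftRight VT (Nat.land (Nat.shiftRight (Nat.shiftRight m (Nat.land (Nat.shiftRight m (Nat.land (Nat.shiftRight (Nat.shiftRight m (Nat.land (Nat.shiftRight m (Nat.land (Nat.shiftRight (Nat.shiftRight m (Nat.land (Nat.shiftRight c (nat_lit 9)) (nat_lit 65408))) (nat_lit 34)) (nat_lit 0x1ffff))) (nat_lit 0x1ffff))) (nat_lit 34)) (nat_lit 0x1ffff))) (nat_lit 0x1ffff))) (nat_lit 60)) (nat_lit 1008))) (Nat.add (Nat.shiftRight VT (Nat.land (Nat.shiftRight (Nat.shiftRight m (Nat.land (Nat.shiftRight m (Nat.land (Nat.shiftRight (Nat.shiftRight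 m (Nat.land (Nat.shiftRight m (Nat.land (Nat.shiftRight (Nat.shiftRight m (Nat.land (Nat.shiftRight m (Nat.land (Nat.shiftRight (Nat.shiftRight m (Nat.land (Nat.shiftRight c (nat_lit 9)) (nat_lit 65408))) (nat_lit 34)) (nat_lit 0x1ffff))) (nat_lit 0x1ffff))) (nat_lit 34)) (nat_lit 0x1ffff))) (nat_lit 0x1ffff))) (nat_lit 34)) (nat_lit 0x1ffff))) (nat_lit 0x1ffff))) (nat_lit 60)) (nat_lit 1008))) (Nat.shiftRight VT (Nat.land (Nat.shiftRight (Nat.shiftRight m (Nat.land (Nat.shiftRight m (Nat.land (Nat.shiftRight (Nat.shiftRight m (Nat.land (Nat.shiftRight m (Nat.land (Nat.shiftRight (Nat.shiftRight m (Nat.land (Nat.shiftRight m (Nat.land (Nat.shiftRight (Nat.shiftRight m (Nat.land (Nat.shiftRight m (Nat.land (Nat.shiftRight (Nat.shiftRight m (Nat.land (Nat.shiftRight c (nat_lit 9)) (nat_lit 65408))) (nat_lit 34)) (nat_lit 0x1ffff))) (nat_lit 0x1ffff))) (nat_lit 34)) (nat_lit 0x1ffff))) (nat_lit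 0x1ffff))) (nat_lit 34)) (nat_lit 0x1ffff))) (nat_lit 0x1ffff))) (nat_lit 34)) (nat_lit 0x1ffff))) (nat_lit 0x1ffff))) (nat_lit 60)) (nat_lit 1008))))))) (nat_lit 12)) (nat_lit 15)))) (nat_lit 0x2efffe)) (nat_lit 70)))) (Nat.add nd (Nat.shiftLeft (Nat.xor (Nat.land (Nat.shiftRight m (Nat.land (Nat.shiftRight (Nat.shiftRight m (Nat.land (Nat.shiftRight m (Nat.land (Nat.shiftRight (Nat.shiftRight m (Nat.land (Nat.shiftRight m (Nat.land (Nat.shiftRight (Nat.shiftRight m (Nat.land (Nat.shiftRight m (Nat.land (Nat.shiftRight (Nat.shiftRight m (Nat.land (Nat.shiftRight m (Nat.land (Nat.shiftRight (Nat.shiftRight m (Nat.land (Nat.shiftRight c (nat_lit 9)) (nat_lit 65408))) (nat_lit 34)) (nat_lit 0x1ffff))) (nat_lit 0x1ffff))) (nat_lit 34)) (nat_lit 0x1ffff))) (nat_lit 0x1ffff))) (nat_lit 34)) (nat_lit 0x1ffff))) (nat_lit 0x1ffff))) (nat_lit 34)) (nat_lit 0x1ffff))) (nat_lit 0x1ffff))) (nat_lit 34))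 (nat_lit 0x1ffff))) (nat_lit 0x1ffff)) (Nat.land (Nat.shiftRight c (nat_lit 9)) (nat_lit 65408))) (nat_lit 16))) e (Nat.shiftRight c (nat_lit 25)))⟩) (Nat.shiftRight k (nat_lit 15)))

def oRel6 (k : ℕ) : Op :=
  (@Nat.rec (fun _ => Op) ⟨fun ih lim m nd e c => (ih.1 lim (Nat.lor m (Nat.mul ((mskF k).1 m (Nat.land (Nat.shiftRight c (nat_lit 9)) (nat_lit 65408))) (Nat.shiftLeft (Nat.land (Nat.lor (Nat.shiftRight (nat_lit 0x9770977097709770977097709770977097709770977097709770867004300000) (Nat.land (Nat.add (Nat.shiftRight VT (Nat.land (Nat.shiftRight (Nat.shiftRight m (Nat.land (Nat.shiftRight c (nat_lit 9)) (nat_lit 65408))) (nat_lit 60)) (nat_lit 1008))) (Nat.add (Nat.shiftRight VT (Nat.land (Nat.shiftRight (Nat.shiftRight m (Nat.land (Nat.shiftRight m (Nat.land (Nat.shiftRight (Nat.shiftRight m (Nat.land (Nat.shiftRight c (nat_lit 9)) (nat_lit 65408))) (nat_lit 34)) (nat_lit 0x1ffff))) (nat_lit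 0x1ffff))) (nat_lit 60)) (nat_lit 1008))) (Nat.add (Nat.shiftRight VT (Nat.land (Nat.shiftRight (Nat.shiftRight m (Nat.land (Nat.shiftRight m (Nat.land (Nat.shiftRight (Nat.shiftRight m (Nat.land (Nat.shiftRight m (Nat.land (Nat.shiftRight (Nat.shiftRight m (Nat.land (Nat.shiftRight c (nat_lit 9)) (nat_lit 65408))) (nat_lit 34)) (nat_lit 0x1ffff))) (nat_lit 0x1ffff))) (nat_lit 34)) (nat_lit 0x1ffff))) (nat_lit 0x1ffff))) (nat_lit 60)) (nat_lit 1008))) (Nat.add (Nat.shiftRight VT (Nat.land (Nat.shiftRight (Nat.shiftRight m (Nat.land (Nat.shiftRight m (Nat.land (Nat.shiftRight (Nat.shiftRight m (Nat.land (Nat.shiftRight m (Nat.land (Nat.shiftRight (Nat.shiftRight m (Nat.land (Nat.shiftRight m (Nat.land (Nat.shiftRight (Nat.shiftRight m (Nat.land (Nat.shiftRight c (nat_lit 9)) (nat_lit 65408))) (nat_lit 34)) (nat_lit 0x1ffff))) (nat_lit 0x1ffff))) (nat_lit 34)) (nat_lit 0x1ffff))) (nat_lit 0x1ffff)))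 (nat_lit 34)) (nat_lit 0x1ffff))) (nat_lit 0x1ffff))) (nat_lit 60)) (nat_lit 1008))) (Nat.add (Nat.shiftRight VT (Nat.land (Nat.shiftRight (Nat.shiftRight m (Nat.land (Nat.shiftRight m (Nat.land (Nat.shiftRight (Nat.shiftRight m (Nat.land (Nat.shiftRight m (Nat.land (Nat.shiftRight (Nat.shiftRight m (Nat.land (Nat.shiftRight m (Nat.land (Nat.shiftRight (Nat.shiftRight m (Nat.land (Nat.shiftRight m (Nat.land (Nat.shiftRight (Nat.shiftRight m (Nat.land (Nat.shiftRight c (nat_lit 9)) (nat_lit 65408))) (nat_lit 34)) (nat_lit 0x1ffff))) (nat_lit 0x1ffff))) (nat_lit 34)) (nat_lit 0x1ffff))) (nat_lit 0x1ffff))) (nat_lit 34)) (nat_lit 0x1ffff))) (nat_lit 0x1ffff))) (nat_lit 34)) (nat_lit 0x1ffff))) (nat_lit 0x1ffff))) (nat_lit 60)) (nat_lit 1008))) (Nat.shiftRight VT (Nat.land (Nat.shiftRight (Nat.shiftRight m (Nat.land (Nat.shiftRight m (Nat.land (Nat.shiftRight (Nat.shiftRight m (Nat.land (Nat.shiftRight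 m (Nat.land (Nat.shiftRight (Nat.shiftRight m (Nat.land (Nat.shiftRight m (Nat.land (Nat.shiftRight (Nat.shiftRight m (Nat.land (Nat.shiftRight m (Nat.land (Nat.shiftRight (Nat.shiftRight m (Nat.land (Nat.shiftRight m (Nat.land (Nat.shiftRight (Nat.shiftRight m (Nat.land (Nat.shiftRight c (nat_lit 9)) (nat_lit 65408))) (nat_lit 34)) (nat_lit 0x1ffff))) (nat_lit 0x1ffff))) (nat_lit 34)) (nat_lit 0x1ffff))) (nat_lit 0x1ffff))) (nat_lit 34)) (nat_lit 0x1ffff))) (nat_lit 0x1ffff))) (nat_lit 34)) (nat_lit 0x1ffff))) (nat_lit 0x1ffff))) (nat_lit 34)) (nat_lit 0x1ffff))) (nat_lit 0x1ffff))) (nat_lit 60)) (nat_lit 1008)))))))) (nat_lit 240))) (Nat.shiftRight (nat_lit 0) (Nat.land (Nat.shiftRight (Nat.add (Nat.shiftRight VT (Nat.land (Nat.shiftRight (Nat.shiftRight m (Nat.land (Nat.shiftRight c (nat_lit 9)) (nat_lit 65408))) (nat_lit 60)) (nat_lit 1008))) (Nat.add (Nat.shiftRight VT (Nat.land (Nat.shiftRight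 (Nat.shiftRight m (Nat.land (Nat.shiftRight m (Nat.land (Nat.shiftRight (Nat.shiftRight m (Nat.land (Nat.shiftRight c (nat_lit 9)) (nat_lit 65408))) (nat_lit 34)) (nat_lit 0x1ffff))) (nat_lit 0x1ffff))) (nat_lit 60)) (nat_lit 1008))) (Nat.add (Nat.shiftRight VT (Nat.land (Nat.shiftRight (Nat.shiftRight m (Nat.land (Nat.shiftRight m (Nat.land (Nat.shiftRight (Nat.shiftRight m (Nat.land (Nat.shiftRight m (Nat.land (Nat.shiftRight (Nat.shiftRight m (Nat.land (Nat.shiftRight c (nat_lit 9)) (nat_lit 65408))) (nat_lit 34)) (nat_lit 0x1ffff))) (nat_lit 0x1ffff))) (nat_lit 34)) (nat_lit 0x1ffff))) (nat_lit 0x1ffff))) (nat_lit 60)) (nat_lit 1008))) (Nat.add (Nat.shiftRight VT (Nat.land (Nat.shiftRight (Nat.shiftRight m (Nat.land (Nat.shiftRight m (Nat.land (Nat.shiftRight (Nat.shiftRight m (Nat.land (Nat.shiftRight m (Nat.land (Nat.shiftRight (Nat.shiftRight m (Nat.land (Nat.shiftRight m (Nat.land (Nat.shiftRight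 (Nat.shiftRight m (Nat.land (Nat.shiftRight c (nat_lit 9)) (nat_lit 65408))) (nat_lit 34)) (nat_lit 0x1ffff))) (nat_lit 0x1ffff))) (nat_lit 34)) (nat_lit 0x1ffff))) (nat_lit 0x1ffff))) (nat_lit 34)) (nat_lit 0x1ffff))) (nat_lit 0x1ffff))) (nat_lit 60)) (nat_lit 1008))) (Nat.add (Nat.shiftRight VT (Nat.land (Nat.shiftRight (Nat.shiftRight m (Nat.land (Nat.shiftRight m (Nat.land (Nat.shiftRight (Nat.shiftRight m (Nat.land (Nat.shiftRight m (Nat.land (Nat.shiftRight (Nat.shiftRight m (Nat.land (Nat.shiftRight m (Nat.land (Nat.shiftRight (Nat.shiftRight m (Nat.land (Nat.shiftRight m (Nat.land (Nat.shiftRight (Nat.shiftRight m (Nat.land (Nat.shiftRight c (nat_lit 9)) (nat_lit 65408))) (nat_lit 34)) (nat_lit 0x1ffff))) (nat_lit 0x1ffff))) (nat_lit 34)) (nat_lit 0x1ffff))) (nat_lit 0x1ffff))) (nat_lit 34)) (nat_lit 0x1ffff))) (nat_lit 0x1ffff))) (nat_lit 34)) (nat_lit 0x1ffff))) (nat_lit 0x1ffff)))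 (nat_lit 60)) (nat_lit 1008))) (Nat.shiftRight VT (Nat.land (Nat.shiftRight (Nat.shiftRight m (Nat.land (Nat.shiftRight m (Nat.land (Nat.shiftRight (Nat.shiftRight m (Nat.land (Nat.shiftRight m (Nat.land (Nat.shiftRight (Nat.shiftRight m (Nat.land (Nat.shiftRight m (Nat.land (Nat.shiftRight (Nat.shiftRight m (Nat.land (Nat.shiftRight m (Nat.land (Nat.shiftRight (Nat.shiftRight m (Nat.land (Nat.shiftRight m (Nat.land (Nat.shiftRight (Nat.shiftRight m (Nat.land (Nat.shiftRight c (nat_lit 9)) (nat_lit 65408))) (nat_lit 34)) (nat_lit 0x1ffff))) (nat_lit 0x1ffff))) (nat_lit 34)) (nat_lit 0x1ffff))) (nat_lit 0x1ffff))) (nat_lit 34)) (nat_lit 0x1ffff))) (nat_lit 0x1ffff))) (nat_lit 34)) (nat_lit 0x1ffff))) (nat_lit 0x1ffff))) (nat_lit 34)) (nat_lit 0x1ffff))) (nat_lit 0x1ffff))) (nat_lit 60)) (nat_lit 1008)))))))) (nat_lit 4)) (nat_lit 240)))) (nat_lit 65535)) (nat_lit 70)))) nd e (Nat.shiftRight c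 (nat_lit 25)))⟩ (fun _ _ => ⟨fun ih lim m nd e c => (ih.1 lim (Nat.lor m (Nat.mul ((mskF k).1 m (Nat.land (Nat.shiftRight c (nat_lit 9)) (nat_lit 65408))) (Nat.shiftLeft (Nat.lor (Nat.land (Nat.lor (Nat.shiftRight (nat_lit 0x9770977097709770977097709770977097709770977097709770867004300000) (Nat.land (Nat.add (Nat.shiftRight VT (Nat.land (Nat.shiftRight (Nat.shiftRight m (Nat.land (Nat.shiftRight c (nat_lit 9)) (nat_lit 65408))) (nat_lit 60)) (nat_lit 1008))) (Nat.add (Nat.shiftRight VT (Nat.land (Nat.shiftRight (Nat.shiftRight m (Nat.land (Nat.shiftRight m (Nat.land (Nat.shiftRight (Nat.shiftRight m (Nat.land (Nat.shiftRight c (nat_lit 9)) (nat_lit 65408))) (nat_lit 34)) (nat_lit 0x1ffff))) (nat_lit 0x1ffff))) (nat_lit 60)) (nat_lit 1008))) (Nat.add (Nat.shiftRight VT (Nat.land (Nat.shiftRight (Nat.shiftRight m (Nat.land (Nat.shiftRight m (Nat.land (Nat.shiftRight (Nat.shiftRight m (Nat.land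 (Nat.shiftRight m (Nat.land (Nat.shiftRight (Nat.shiftRight m (Nat.land (Nat.shiftRight c (nat_lit 9)) (nat_lit 65408))) (nat_lit 34)) (nat_lit 0x1ffff))) (nat_lit 0x1ffff))) (nat_lit 34)) (nat_lit 0x1ffff))) (nat_lit 0x1ffff))) (nat_lit 60)) (nat_lit 1008))) (Nat.add (Nat.shiftRight VT (Nat.land (Nat.shiftRight (Nat.shiftRight m (Nat.land (Nat.shiftRight m (Nat.land (Nat.shiftRight (Nat.shiftRight m (Nat.land (Nat.shiftRight m (Nat.land (Nat.shiftRight (Nat.shiftRight m (Nat.land (Nat.shiftRight m (Nat.land (Nat.shiftRight (Nat.shiftRight m (Nat.land (Nat.shiftRight c (nat_lit 9)) (nat_lit 65408))) (nat_lit 34)) (nat_lit 0x1ffff))) (nat_lit 0x1ffff))) (nat_lit 34)) (nat_lit 0x1ffff))) (nat_lit 0x1ffff))) (nat_lit 34)) (nat_lit 0x1ffff))) (nat_lit 0x1ffff))) (nat_lit 60)) (nat_lit 1008))) (Nat.add (Nat.shiftRight VT (Nat.land (Nat.shiftRight (Nat.shiftRight m (Nat.land (Nat.shiftRight m (Nat.land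 (Nat.shiftRight (Nat.shiftRight m (Nat.land (Nat.shiftRight m (Nat.land (Nat.shiftRight (Nat.shiftRight m (Nat.land (Nat.shiftRight m (Nat.land (Nat.shiftRight (Nat.shiftRight m (Nat.land (Nat.shiftRight m (Nat.land (Nat.shiftRight (Nat.shiftRight m (Nat.land (Nat.shiftRight c (nat_lit 9)) (nat_lit 65408))) (nat_lit 34)) (nat_lit 0x1ffff))) (nat_lit 0x1ffff))) (nat_lit 34)) (nat_lit 0x1ffff))) (nat_lit 0x1ffff))) (nat_lit 34)) (nat_lit 0x1ffff))) (nat_lit 0x1ffff))) (nat_lit 34)) (nat_lit 0x1ffff))) (nat_lit 0x1ffff))) (nat_lit 60)) (nat_lit 1008))) (Nat.shiftRight VT (Nat.land (Nat.shiftRight (Nat.shiftRight m (Nat.land (Nat.shiftRight m (Nat.land (Nat.shiftRight (Nat.shiftRight m (Nat.land (Nat.shiftRight m (Nat.land (Nat.shiftRight (Nat.shiftRight m (Nat.land (Nat.shiftRight m (Nat.land (Nat.shiftRight (Nat.shiftRight m (Nat.land (Nat.shiftRight m (Nat.land (Nat.shiftRight (Nat.shiftRight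 m (Nat.land (Nat.shiftRight m (Nat.land (Nat.shiftRight (Nat.shiftRight m (Nat.land (Nat.shiftRight c (nat_lit 9)) (nat_lit 65408))) (nat_lit 34)) (nat_lit 0x1ffff))) (nat_lit 0x1ffff))) (nat_lit 34)) (nat_lit 0x1ffff))) (nat_lit 0x1ffff))) (nat_lit 34)) (nat_lit 0x1ffff))) (nat_lit 0x1ffff))) (nat_lit 34)) (nat_lit 0x1ffff))) (nat_lit 0x1ffff))) (nat_lit 34)) (nat_lit 0x1ffff))) (nat_lit 0x1ffff))) (nat_lit 60)) (nat_lit 1008)))))))) (nat_lit 240))) (Nat.shiftRight (nat_lit 0) (Nat.land (Nat.shiftRight (Nat.add (Nat.shiftRight VT (Nat.land (Nat.shiftRight (Nat.shiftRight m (Nat.land (Nat.shiftRight c (nat_lit 9)) (nat_lit 65408))) (nat_lit 60)) (nat_lit 1008))) (Nat.add (Nat.shiftRight VT (Nat.land (Nat.shiftRight (Nat.shiftRight m (Nat.land (Nat.shiftRight m (Nat.land (Nat.shiftRight (Nat.shiftRight m (Nat.land (Nat.shiftRight c (nat_lit 9)) (nat_lit 65408))) (nat_lit 34)) (nat_lit 0x1ffff)))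 (nat_lit 0x1ffff))) (nat_lit 60)) (nat_lit 1008))) (Nat.add (Nat.shiftRight VT (Nat.land (Nat.shiftRight (Nat.shiftRight m (Nat.land (Nat.shiftRight m (Nat.land (Nat.shiftRight (Nat.shiftRight m (Nat.land (Nat.shiftRight m (Nat.land (Nat.shiftRight (Nat.shiftRight m (Nat.land (Nat.shiftRight c (nat_lit 9)) (nat_lit 65408))) (nat_lit 34)) (nat_lit 0x1ffff))) (nat_lit 0x1ffff))) (nat_lit 34)) (nat_lit 0x1ffff))) (nat_lit 0x1ffff))) (nat_lit 60)) (nat_lit 1008))) (Nat.add (Nat.shiftRight VT (Nat.land (Nat.shiftRight (Nat.shiftRight m (Nat.land (Nat.shiftRight m (Nat.land (Nat.shiftRight (Nat.shiftRight m (Nat.land (Nat.shiftRight m (Nat.land (Nat.shiftRight (Nat.shiftRight m (Nat.land (Nat.shiftRight m (Nat.land (Nat.shiftRight (Nat.shiftRight m (Nat.land (Nat.shiftRight c (nat_lit 9)) (nat_lit 65408))) (nat_lit 34)) (nat_lit 0x1ffff))) (nat_lit 0x1ffff))) (nat_lit 34)) (nat_lit 0x1ffff))) (nat_lit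 0x1ffff))) (nat_lit 34)) (nat_lit 0x1ffff))) (nat_lit 0x1ffff))) (nat_lit 60)) (nat_lit 1008))) (Nat.add (Nat.shiftRight VT (Nat.land (Nat.shiftRight (Nat.shiftRight m (Nat.land (Nat.shiftRight m (Nat.land (Nat.shiftRight (Nat.shiftRight m (Nat.land (Nat.shiftRight m (Nat.land (Nat.shiftRight (Nat.shiftRight m (Nat.land (Nat.shiftRight m (Nat.land (Nat.shiftRight (Nat.shiftRight m (Nat.land (Nat.shiftRight m (Nat.land (Nat.shiftRight (Nat.shiftRight m (Nat.land (Nat.shiftRight c (nat_lit 9)) (nat_lit 65408))) (nat_lit 34)) (nat_lit 0x1ffff))) (nat_lit 0x1ffff))) (nat_lit 34)) (nat_lit 0x1ffff))) (nat_lit 0x1ffff))) (nat_lit 34)) (nat_lit 0x1ffff))) (nat_lit 0x1ffff))) (nat_lit 34)) (nat_lit 0x1ffff))) (nat_lit 0x1ffff))) (nat_lit 60)) (nat_lit 1008))) (Nat.shiftRight VT (Nat.land (Nat.shiftRight (Nat.shiftRight m (Nat.land (Nat.shiftRight m (Nat.land (Nat.shiftRight (Nat.shiftRight m (Nat.land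 (Nat.shiftRight m (Nat.land (Nat.shiftRight (Nat.shiftRight m (Nat.land (Nat.shiftRight m (Nat.land (Nat.shiftRight (Nat.shiftRight m (Nat.land (Nat.shiftRight m (Nat.land (Nat.shiftRight (Nat.shiftRight m (Nat.land (Nat.shiftRight m (Nat.land (Nat.shiftRight (Nat.shiftRight m (Nat.land (Nat.shiftRight c (nat_lit 9)) (nat_lit 65408))) (nat_lit 34)) (nat_lit 0x1ffff))) (nat_lit 0x1ffff))) (nat_lit 34)) (nat_lit 0x1ffff))) (nat_lit 0x1ffff))) (nat_lit 34)) (nat_lit 0x1ffff))) (nat_lit 0x1ffff))) (nat_lit 34)) (nat_lit 0x1ffff))) (nat_lit 0x1ffff))) (nat_lit 34)) (nat_lit 0x1ffff))) (nat_lit 0x1ffff))) (nat_lit 60)) (nat_lit 1008)))))))) (nat_lit 4)) (nat_lit 240)))) (nat_lit 65535)) (nat_lit 0x38fffd)) (nat_lit 70)))) (Nat.add nd (Nat.shiftLeft (Nat.xor (Nat.land (Nat.shiftRight m (Nat.land (Nat.shiftRight (Nat.shiftRight m (Nat.land (Nat.shiftRight m (Nat.land (Nat.shiftRight (Nat.shiftRight m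 (Nat.land (Nat.shiftRight m (Nat.land (Nat.shiftRight (Nat.shiftRight m (Nat.land (Nat.shiftRight m (Nat.land (Nat.shiftRight (Nat.shiftRight m (Nat.land (Nat.shiftRight m (Nat.land (Nat.shiftRight (Nat.shiftRight m (Nat.land (Nat.shiftRight m (Nat.land (Nat.shiftRight (Nat.shiftRight m (Nat.land (Nat.shiftRight c (nat_lit 9)) (nat_lit 65408))) (nat_lit 34)) (nat_lit 0x1ffff))) (nat_lit 0x1ffff))) (nat_lit 34)) (nat_lit 0x1ffff))) (nat_lit 0x1ffff))) (nat_lit 34)) (nat_lit 0x1ffff))) (nat_lit 0x1ffff))) (nat_lit 34)) (nat_lit 0x1ffff))) (nat_lit 0x1ffff))) (nat_lit 34)) (nat_lit 0x1ffff))) (nat_lit 0x1ffff))) (nat_lit 34)) (nat_lit 0x1ffff))) (nat_lit 0x1ffff)) (Nat.land (Nat.shiftRight c (nat_lit 9)) (nat_lit 65408))) (nat_lit 16))) e (Nat.shiftRight c (nat_lit 25)))⟩) (Nat.shiftRight k (nat_lit 15)))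

def oRel7 (k : ℕ) : Op :=
  (@Nat.rec (fun _ => Op) ⟨fun ih lim m nd e c => (ih.1 lim (Nat.lor m (Nat.mul ((mskF k).1 m (Nat.land (Nat.shiftRight c (nat_lit 9)) (nat_lit 65408))) (Nat.shiftLeft (Nat.land (Nat.lor (Nat.shiftRight (nat_lit 0x9770977097709770977097709770977097709770977097709770867004300000) (Nat.land (Nat.add (Nat.shiftRight VT (Nat.land (Nat.shiftRight (Nat.shiftRight m (Nat.land (Nat.shiftRight c (nat_lit 9)) (nat_lit 65408))) (nat_lit 60)) (nat_lit 1008))) (Nat.add (Nat.shiftRight VT (Nat.land (Nat.shiftRight (Nat.shiftRight m (Nat.land (Nat.shiftRight m (Nat.land (Nat.shiftRight (Nat.shiftRight m (Nat.land (Nat.shiftRight c (nat_lit 9)) (nat_lit 65408))) (nat_lit 34)) (nat_lit 0x1ffff))) (nat_lit 0x1ffff))) (nat_lit 60)) (nat_lit 1008))) (Nat.add (Nat.shiftRight VT (Nat.land (Nat.shiftRight (Nat.shiftRight m (Nat.land (Nat.shiftRight m (Nat.land (Nat.shiftRight (Nat.shiftRight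 m (Nat.land (Nat.shiftRight m (Nat.land (Nat.shiftRight (Nat.shiftRight m (Nat.land (Nat.shiftRight c (nat_lit 9)) (nat_lit 65408))) (nat_lit 34)) (nat_lit 0x1ffff))) (nat_lit 0x1ffff))) (nat_lit 34)) (nat_lit 0x1ffff))) (nat_lit 0x1ffff))) (nat_lit 60)) (nat_lit 1008))) (Nat.add (Nat.shiftRight VT (Nat.land (Nat.shiftRight (Nat.shiftRight m (Nat.land (Nat.shiftRight m (Nat.land (Nat.shiftRight (Nat.shiftRight m (Nat.land (Nat.shiftRight m (Nat.land (Nat.shiftRight (Nat.shiftRight m (Nat.land (Nat.shiftRight m (Nat.land (Nat.shiftRight (Nat.shiftRight m (Nat.land (Nat.shiftRight c (nat_lit 9)) (nat_lit 65408))) (nat_lit 34)) (nat_lit 0x1ffff))) (nat_lit 0x1ffff))) (nat_lit 34)) (nat_lit 0x1ffff))) (nat_lit 0x1ffff))) (nat_lit 34)) (nat_lit 0x1ffff))) (nat_lit 0x1ffff))) (nat_lit 60)) (nat_lit 1008))) (Nat.add (Nat.shiftRight VT (Nat.land (Nat.shiftRight (Nat.shiftRight m (Nat.land (Nat.shiftRight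 m (Nat.land (Nat.shiftRight (Nat.shiftRight m (Nat.land (Nat.shiftRight m (Nat.land (Nat.shiftRight (Nat.shiftRight m (Nat.land (Nat.shiftRight m (Nat.land (Nat.shiftRight (Nat.shiftRight m (Nat.land (Nat.shiftRight m (Nat.land (Nat.shiftRight (Nat.shiftRight m (Nat.land (Nat.shiftRight c (nat_lit 9)) (nat_lit 65408))) (nat_lit 34)) (nat_lit 0x1ffff))) (nat_lit 0x1ffff))) (nat_lit 34)) (nat_lit 0x1ffff))) (nat_lit 0x1ffff))) (nat_lit 34)) (nat_lit 0x1ffff))) (nat_lit 0x1ffff))) (nat_lit 34)) (nat_lit 0x1ffff))) (nat_lit 0x1ffff))) (nat_lit 60)) (nat_lit 1008))) (Nat.add (Nat.shiftRight VT (Nat.land (Nat.shiftRight (Nat.shiftRight m (Nat.land (Nat.shiftRight m (Nat.land (Nat.shiftRight (Nat.shiftRight m (Nat.land (Nat.shiftRight m (Nat.land (Nat.shiftRight (Nat.shiftRight m (Nat.land (Nat.shiftRight m (Nat.land (Nat.shiftRight (Nat.shiftRight m (Nat.land (Nat.shiftRight m (Nat.land (Nat.shiftRight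 (Nat.shiftRight m (Nat.land (Nat.shiftRight m (Nat.land (Nat.shiftRight (Nat.shiftRight m (Nat.land (Nat.shiftRight c (nat_lit 9)) (nat_lit 65408))) (nat_lit 34)) (nat_lit 0x1ffff))) (nat_lit 0x1ffff))) (nat_lit 34)) (nat_lit 0x1ffff))) (nat_lit 0x1ffff))) (nat_lit 34)) (nat_lit 0x1ffff))) (nat_lit 0x1ffff))) (nat_lit 34)) (nat_lit 0x1ffff))) (nat_lit 0x1ffff))) (nat_lit 34)) (nat_lit 0x1ffff))) (nat_lit 0x1ffff))) (nat_lit 60)) (nat_lit 1008))) (Nat.shiftRight VT (Nat.land (Nat.shiftRight (Nat.shiftRight m (Nat.land (Nat.shiftRight m (Nat.land (Nat.shiftRight (Nat.shiftRight m (Nat.land (Nat.shiftRight m (Nat.land (Nat.shiftRight (Nat.shiftRight m (Nat.land (Nat.shiftRight m (Nat.land (Nat.shiftRight (Nat.shiftRight m (Nat.land (Nat.shiftRight m (Nat.land (Nat.shiftRight (Nat.shiftRight m (Nat.land (Nat.shiftRight m (Nat.land (Nat.shiftRight (Nat.shiftRight m (Nat.land (Nat.shiftRight m (Nat.land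 (Nat.shiftRight (Nat.shiftRight m (Nat.land (Nat.shiftRight c (nat_lit 9)) (nat_lit 65408))) (nat_lit 34)) (nat_lit 0x1ffff))) (nat_lit 0x1ffff))) (nat_lit 34)) (nat_lit 0x1ffff))) (nat_lit 0x1ffff))) (nat_lit 34)) (nat_lit 0x1ffff))) (nat_lit 0x1ffff))) (nat_lit 34)) (nat_lit 0x1ffff))) (nat_lit 0x1ffff))) (nat_lit 34)) (nat_lit 0x1ffff))) (nat_lit 0x1ffff))) (nat_lit 34)) (nat_lit 0x1ffff))) (nat_lit 0x1ffff))) (nat_lit 60)) (nat_lit 1008))))))))) (nat_lit 240))) (Nat.shiftRight (nat_lit 4) (Nat.land (Nat.shiftRight (Nat.add (Nat.shiftRight VT (Nat.land (Nat.shiftRight (Nat.shiftRight m (Nat.land (Nat.shiftRight c (nat_lit 9)) (nat_lit 65408))) (nat_lit 60)) (nat_lit 1008))) (Nat.add (Nat.shiftRight VT (Nat.land (Nat.shiftRight (Nat.shiftRight m (Nat.land (Nat.shiftRight m (Nat.land (Nat.shiftRight (Nat.shiftRight m (Nat.land (Nat.shiftRight c (nat_lit 9)) (nat_lit 65408))) (nat_lit 34)) (nat_lit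 0x1ffff))) (nat_lit 0x1ffff))) (nat_lit 60)) (nat_lit 1008))) (Nat.add (Nat.shiftRight VT (Nat.land (Nat.shiftRight (Nat.shiftRight m (Nat.land (Nat.shiftRight m (Nat.land (Nat.shiftRight (Nat.shiftRight m (Nat.land (Nat.shiftRight m (Nat.land (Nat.shiftRight (Nat.shiftRight m (Nat.land (Nat.shiftRight c (nat_lit 9)) (nat_lit 65408))) (nat_lit 34)) (nat_lit 0x1ffff))) (nat_lit 0x1ffff))) (nat_lit 34)) (nat_lit 0x1ffff))) (nat_lit 0x1ffff))) (nat_lit 60)) (nat_lit 1008))) (Nat.add (Nat.shiftRight VT (Nat.land (Nat.shiftRight (Nat.shiftRight m (Nat.land (Nat.shiftRight m (Nat.land (Nat.shiftRight (Nat.shiftRight m (Nat.land (Nat.shiftRight m (Nat.land (Nat.shiftRight (Nat.shiftRight m (Nat.land (Nat.shiftRight m (Nat.land (Nat.shiftRight (Nat.shiftRight m (Nat.land (Nat.shiftRight c (nat_lit 9)) (nat_lit 65408))) (nat_lit 34)) (nat_lit 0x1ffff))) (nat_lit 0x1ffff))) (nat_lit 34)) (nat_lit 0x1ffff)))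 (nat_lit 0x1ffff))) (nat_lit 34)) (nat_lit 0x1ffff))) (nat_lit 0x1ffff))) (nat_lit 60)) (nat_lit 1008))) (Nat.add (Nat.shiftRight VT (Nat.land (Nat.shiftRight (Nat.shiftRight m (Nat.land (Nat.shiftRight m (Nat.land (Nat.shiftRight (Nat.shiftRight m (Nat.land (Nat.shiftRight m (Nat.land (Nat.shiftRight (Nat.shiftRight m (Nat.land (Nat.shiftRight m (Nat.land (Nat.shiftRight (Nat.shiftRight m (Nat.land (Nat.shiftRight m (Nat.land (Nat.shiftRight (Nat.shiftRight m (Nat.land (Nat.shiftRight c (nat_lit 9)) (nat_lit 65408))) (nat_lit 34)) (nat_lit 0x1ffff))) (nat_lit 0x1ffff))) (nat_lit 34)) (nat_lit 0x1ffff))) (nat_lit 0x1ffff))) (nat_lit 34)) (nat_lit 0x1ffff))) (nat_lit 0x1ffff))) (nat_lit 34)) (nat_lit 0x1ffff))) (nat_lit 0x1ffff))) (nat_lit 60)) (nat_lit 1008))) (Nat.add (Nat.shiftRight VT (Nat.land (Nat.shiftRight (Nat.shiftRight m (Nat.land (Nat.shiftRight m (Nat.land (Nat.shiftRight (Nat.shiftRight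 m (Nat.land (Nat.shiftRight m (Nat.land (Nat.shiftRight (Nat.shiftRight m (Nat.land (Nat.shiftRight m (Nat.land (Nat.shiftRight (Nat.shiftRight m (Nat.land (Nat.shiftRight m (Nat.land (Nat.shiftRight (Nat.shiftRight m (Nat.land (Nat.shiftRight m (Nat.land (Nat.shiftRight (Nat.shiftRight m (Nat.land (Nat.shiftRight c (nat_lit 9)) (nat_lit 65408))) (nat_lit 34)) (nat_lit 0x1ffff))) (nat_lit 0x1ffff))) (nat_lit 34)) (nat_lit 0x1ffff))) (nat_lit 0x1ffff))) (nat_lit 34)) (nat_lit 0x1ffff))) (nat_lit 0x1ffff))) (nat_lit 34)) (nat_lit 0x1ffff))) (nat_lit 0x1ffff))) (nat_lit 34)) (nat_lit 0x1ffff))) (nat_lit 0x1ffff))) (nat_lit 60)) (nat_lit 1008))) (Nat.shiftRight VT (Nat.land (Nat.shiftRight (Nat.shiftRight m (Nat.land (Nat.shiftRight m (Nat.land (Nat.shiftRight (Nat.shiftRight m (Nat.land (Nat.shiftRight m (Nat.land (Nat.shiftRight (Nat.shiftRight m (Nat.land (Nat.shiftRight m (Nat.land (Nat.shiftRight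 (Nat.shiftRight m (Nat.land (Nat.shiftRight m (Nat.land (Nat.shiftRight (Nat.shiftRight m (Nat.land (Nat.shiftRight m (Nat.land (Nat.shiftRight (Nat.shiftRight m (Nat.land (Nat.shiftRight m (Nat.land (Nat.shiftRight (Nat.shiftRight m (Nat.land (Nat.shiftRight c (nat_lit 9)) (nat_lit 65408))) (nat_lit 34)) (nat_lit 0x1ffff))) (nat_lit 0x1ffff))) (nat_lit 34)) (nat_lit 0x1ffff))) (nat_lit 0x1ffff))) (nat_lit 34)) (nat_lit 0x1ffff))) (nat_lit 0x1ffff))) (nat_lit 34)) (nat_lit 0x1ffff))) (nat_lit 0x1ffff))) (nat_lit 34)) (nat_lit 0x1ffff))) (nat_lit 0x1ffff))) (nat_lit 34)) (nat_lit 0x1ffff))) (nat_lit 0x1ffff))) (nat_lit 60)) (nat_lit 1008))))))))) (nat_lit 4)) (nat_lit 240)))) (nat_lit 65535)) (nat_lit 70)))) nd e (Nat.shiftRight c (nat_lit 25)))⟩ (fun _ _ => ⟨fun ih lim m nd e c => (ih.1 lim (Nat.lor m (Nat.mul ((mskF k).1 m (Nat.land (Nat.shiftRight c (nat_lit 9)) (nat_lit 65408))) (Nat.shiftLeft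 (Nat.lor (Nat.land (Nat.lor (Nat.shiftRight (nat_lit 0x9770977097709770977097709770977097709770977097709770867004300000) (Nat.land (Nat.add (Nat.shiftRight VT (Nat.land (Nat.shiftRight (Nat.shiftRight m (Nat.land (Nat.shiftRight c (nat_lit 9)) (nat_lit 65408))) (nat_lit 60)) (nat_lit 1008))) (Nat.add (Nat.shiftRight VT (Nat.land (Nat.shiftRight (Nat.shiftRight m (Nat.land (Nat.shiftRight m (Nat.land (Nat.shiftRight (Nat.shiftRight m (Nat.land (Nat.shiftRight c (nat_lit 9)) (nat_lit 65408))) (nat_lit 34)) (nat_lit 0x1ffff))) (nat_lit 0x1ffff))) (nat_lit 60)) (nat_lit 1008))) (Nat.add (Nat.shiftRight VT (Nat.land (Nat.shiftRight (Nat.shiftRight m (Nat.land (Nat.shiftRight m (Nat.land (Nat.shiftRight (Nat.shiftRight m (Nat.land (Nat.shiftRight m (Nat.land (Nat.shiftRight (Nat.shiftRight m (Nat.land (Nat.shiftRight c (nat_lit 9)) (nat_lit 65408))) (nat_lit 34)) (nat_lit 0x1ffff))) (nat_lit 0x1ffff)))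 (nat_lit 34)) (nat_lit 0x1ffff))) (nat_lit 0x1ffff))) (nat_lit 60)) (nat_lit 1008))) (Nat.add (Nat.shiftRight VT (Nat.land (Nat.shiftRight (Nat.shiftRight m (Nat.land (Nat.shiftRight m (Nat.land (Nat.shiftRight (Nat.shiftRight m (Nat.land (Nat.shiftRight m (Nat.land (Nat.shiftRight (Nat.shiftRight m (Nat.land (Nat.shiftRight m (Nat.land (Nat.shiftRight (Nat.shiftRight m (Nat.land (Nat.shiftRight c (nat_lit 9)) (nat_lit 65408))) (nat_lit 34)) (nat_lit 0x1ffff))) (nat_lit 0x1ffff))) (nat_lit 34)) (nat_lit 0x1ffff))) (nat_lit 0x1ffff))) (nat_lit 34)) (nat_lit 0x1ffff))) (nat_lit 0x1ffff))) (nat_lit 60)) (nat_lit 1008))) (Nat.add (Nat.shiftRight VT (Nat.land (Nat.shiftRight (Nat.shiftRight m (Nat.land (Nat.shiftRight m (Nat.land (Nat.shiftRight (Nat.shiftRight m (Nat.land (Nat.shiftRight m (Nat.land (Nat.shiftRight (Nat.shiftRight m (Nat.land (Nat.shiftRight m (Nat.land (Nat.shiftRight (Nat.shiftRight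 m (Nat.land (Nat.shiftRight m (Nat.land (Nat.shiftRight (Nat.shiftRight m (Nat.land (Nat.shiftRight c (nat_lit 9)) (nat_lit 65408))) (nat_lit 34)) (nat_lit 0x1ffff))) (nat_lit 0x1ffff))) (nat_lit 34)) (nat_lit 0x1ffff))) (nat_lit 0x1ffff))) (nat_lit 34)) (nat_lit 0x1ffff))) (nat_lit 0x1ffff))) (nat_lit 34)) (nat_lit 0x1ffff))) (nat_lit 0x1ffff))) (nat_lit 60)) (nat_lit 1008))) (Nat.add (Nat.shiftRight VT (Nat.land (Nat.shiftRight (Nat.shiftRight m (Nat.land (Nat.shiftRight m (Nat.land (Nat.shiftRight (Nat.shiftRight m (Nat.land (Nat.shiftRight m (Nat.land (Nat.shiftRight (Nat.shiftRight m (Nat.land (Nat.shiftRight m (Nat.land (Nat.shiftRight (Nat.shiftRight m (Nat.land (Nat.shiftRight m (Nat.land (Nat.shiftRight (Nat.shiftRight m (Nat.land (Nat.shiftRight m (Nat.land (Nat.shiftRight (Nat.shiftRight m (Nat.land (Nat.shiftRight c (nat_lit 9)) (nat_lit 65408))) (nat_lit 34)) (nat_lit 0x1ffff)))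 (nat_lit 0x1ffff))) (nat_lit 34)) (nat_lit 0x1ffff))) (nat_lit 0x1ffff))) (nat_lit 34)) (nat_lit 0x1ffff))) (nat_lit 0x1ffff))) (nat_lit 34)) (nat_lit 0x1ffff))) (nat_lit 0x1ffff))) (nat_lit 34)) (nat_lit 0x1ffff))) (nat_lit 0x1ffff))) (nat_lit 60)) (nat_lit 1008))) (Nat.shiftRight VT (Nat.land (Nat.shiftRight (Nat.shiftRight m (Nat.land (Nat.shiftRight m (Nat.land (Nat.shiftRight (Nat.shiftRight m (Nat.land (Nat.shiftRight m (Nat.land (Nat.shiftRight (Nat.shiftRight m (Nat.land (Nat.shiftRight m (Nat.land (Nat.shiftRight (Nat.shiftRight m (Nat.land (Nat.shiftRight m (Nat.land (Nat.shiftRight (Nat.shiftRight m (Nat.land (Nat.shiftRight m (Nat.land (Nat.shiftRight (Nat.shiftRight m (Nat.land (Nat.shiftRight m (Nat.land (Nat.shiftRight (Nat.shiftRight m (Nat.land (Nat.shiftRight c (nat_lit 9)) (nat_lit 65408))) (nat_lit 34)) (nat_lit 0x1ffff))) (nat_lit 0x1ffff))) (nat_lit 34)) (nat_lit 0x1ffff)))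 (nat_lit 0x1ffff))) (nat_lit 34)) (nat_lit 0x1ffff))) (nat_lit 0x1ffff))) (nat_lit 34)) (nat_lit 0x1ffff))) (nat_lit 0x1ffff))) (nat_lit 34)) (nat_lit 0x1ffff))) (nat_lit 0x1ffff))) (nat_lit 34)) (nat_lit 0x1ffff))) (nat_lit 0x1ffff))) (nat_lit 60)) (nat_lit 1008))))))))) (nat_lit 240))) (Nat.shiftRight (nat_lit 4) (Nat.land (Nat.shiftRight (Nat.add (Nat.shiftRight VT (Nat.land (Nat.shiftRight (Nat.shiftRight m (Nat.land (Nat.shiftRight c (nat_lit 9)) (nat_lit 65408))) (nat_lit 60)) (nat_lit 1008))) (Nat.add (Nat.shiftRight VT (Nat.land (Nat.shiftRight (Nat.shiftRight m (Nat.land (Nat.shiftRight m (Nat.land (Nat.shiftRight (Nat.shiftRight m (Nat.land (Nat.shiftRight c (nat_lit 9)) (nat_lit 65408))) (nat_lit 34)) (nat_lit 0x1ffff))) (nat_lit 0x1ffff))) (nat_lit 60)) (nat_lit 1008))) (Nat.add (Nat.shiftRight VT (Nat.land (Nat.shiftRight (Nat.shiftRight m (Nat.land (Nat.shiftRight m (Nat.land (Nat.shiftRight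 (Nat.shiftRight m (Nat.land (Nat.shiftRight m (Nat.land (Nat.shiftRight (Nat.shiftRight m (Nat.land (Nat.shiftRight c (nat_lit 9)) (nat_lit 65408))) (nat_lit 34)) (nat_lit 0x1ffff))) (nat_lit 0x1ffff))) (nat_lit 34)) (nat_lit 0x1ffff))) (nat_lit 0x1ffff))) (nat_lit 60)) (nat_lit 1008))) (Nat.add (Nat.shiftRight VT (Nat.land (Nat.shiftRight (Nat.shiftRight m (Nat.land (Nat.shiftRight m (Nat.land (Nat.shiftRight (Nat.shiftRight m (Nat.land (Nat.shiftRight m (Nat.land (Nat.shiftRight (Nat.shiftRight m (Nat.land (Nat.shiftRight m (Nat.land (Nat.shiftRight (Nat.shiftRight m (Nat.land (Nat.shiftRight c (nat_lit 9)) (nat_lit 65408))) (nat_lit 34)) (nat_lit 0x1ffff))) (nat_lit 0x1ffff))) (nat_lit 34)) (nat_lit 0x1ffff))) (nat_lit 0x1ffff))) (nat_lit 34)) (nat_lit 0x1ffff))) (nat_lit 0x1ffff))) (nat_lit 60)) (nat_lit 1008))) (Nat.add (Nat.shiftRight VT (Nat.land (Nat.shiftRight (Nat.shiftRight m (Nat.land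 (Nat.shiftRight m (Nat.land (Nat.shiftRight (Nat.shiftRight m (Nat.land (Nat.shiftRight m (Nat.land (Nat.shiftRight (Nat.shiftRight m (Nat.land (Nat.shiftRight m (Nat.land (Nat.shiftRight (Nat.shiftRight m (Nat.land (Nat.shiftRight m (Nat.land (Nat.shiftRight (Nat.shiftRight m (Nat.land (Nat.shiftRight c (nat_lit 9)) (nat_lit 65408))) (nat_lit 34)) (nat_lit 0x1ffff))) (nat_lit 0x1ffff))) (nat_lit 34)) (nat_lit 0x1ffff))) (nat_lit 0x1ffff))) (nat_lit 34)) (nat_lit 0x1ffff))) (nat_lit 0x1ffff))) (nat_lit 34)) (nat_lit 0x1ffff))) (nat_lit 0x1ffff))) (nat_lit 60)) (nat_lit 1008))) (Nat.add (Nat.shiftRight VT (Nat.land (Nat.shiftRight (Nat.shiftRight m (Nat.land (Nat.shiftRight m (Nat.land (Nat.shiftRight (Nat.shiftRight m (Nat.land (Nat.shiftRight m (Nat.land (Nat.shiftRight (Nat.shiftRight m (Nat.land (Nat.shiftRight m (Nat.land (Nat.shiftRight (Nat.shiftRight m (Nat.land (Nat.shiftRight m (Nat.land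 (Nat.shiftRight (Nat.shiftRight m (Nat.land (Nat.shiftRight m (Nat.land (Nat.shiftRight (Nat.shiftRight m (Nat.land (Nat.shiftRight c (nat_lit 9)) (nat_lit 65408))) (nat_lit 34)) (nat_lit 0x1ffff))) (nat_lit 0x1ffff))) (nat_lit 34)) (nat_lit 0x1ffff))) (nat_lit 0x1ffff))) (nat_lit 34)) (nat_lit 0x1ffff))) (nat_lit 0x1ffff))) (nat_lit 34)) (nat_lit 0x1ffff))) (nat_lit 0x1ffff))) (nat_lit 34)) (nat_lit 0x1ffff))) (nat_lit 0x1ffff))) (nat_lit 60)) (nat_lit 1008))) (Nat.shiftRight VT (Nat.land (Nat.shiftRight (Nat.shiftRight m (Nat.land (Nat.shiftRight m (Nat.land (Nat.shiftRight (Nat.shiftRight m (Nat.land (Nat.shiftRight m (Nat.land (Nat.shiftRight (Nat.shiftRight m (Nat.land (Nat.shiftRight m (Nat.land (Nat.shiftRight (Nat.shiftRight m (Nat.land (Nat.shiftRight m (Nat.land (Nat.shiftRight (Nat.shiftRight m (Nat.land (Nat.shiftRight m (Nat.land (Nat.shiftRight (Nat.shiftRight m (Nat.land (Nat.shiftRight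 m (Nat.land (Nat.shiftRight (Nat.shiftRight m (Nat.land (Nat.shiftRight c (nat_lit 9)) (nat_lit 65408))) (nat_lit 34)) (nat_lit 0x1ffff))) (nat_lit 0x1ffff))) (nat_lit 34)) (nat_lit 0x1ffff))) (nat_lit 0x1ffff))) (nat_lit 34)) (nat_lit 0x1ffff))) (nat_lit 0x1ffff))) (nat_lit 34)) (nat_lit 0x1ffff))) (nat_lit 0x1ffff))) (nat_lit 34)) (nat_lit 0x1ffff))) (nat_lit 0x1ffff))) (nat_lit 34)) (nat_lit 0x1ffff))) (nat_lit 0x1ffff))) (nat_lit 60)) (nat_lit 1008))))))))) (nat_lit 4)) (nat_lit 240)))) (nat_lit 65535)) (nat_lit 0x3effeb)) (nat_lit 70)))) (Nat.add nd (Nat.shiftLeft (Nat.xor (Nat.land (Nat.shiftRight m (Nat.land (Nat.shiftRight (Nat.shiftRight m (Nat.land (Nat.shiftRight m (Nat.land (Nat.shiftRight (Nat.shiftRight m (Nat.land (Nat.shiftRight m (Nat.land (Nat.shiftRight (Nat.shiftRight m (Nat.land (Nat.shiftRight m (Nat.land (Nat.shiftRight (Nat.shiftRight m (Nat.land (Nat.shiftRight m (Nat.land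 (Nat.shiftRight (Nat.shiftRight m (Nat.land (Nat.shiftRight m (Nat.land (Nat.shiftRight (Nat.shiftRight m (Nat.land (Nat.shiftRight m (Nat.land (Nat.shiftRight (Nat.shiftRight m (Nat.land (Nat.shiftRight c (nat_lit 9)) (nat_lit 65408))) (nat_lit 34)) (nat_lit 0x1ffff))) (nat_lit 0x1ffff))) (nat_lit 34)) (nat_lit 0x1ffff))) (nat_lit 0x1ffff))) (nat_lit 34)) (nat_lit 0x1ffff))) (nat_lit 0x1ffff))) (nat_lit 34)) (nat_lit 0x1ffff))) (nat_lit 0x1ffff))) (nat_lit 34)) (nat_lit 0x1ffff))) (nat_lit 0x1ffff))) (nat_lit 34)) (nat_lit 0x1ffff))) (nat_lit 0x1ffff))) (nat_lit 34)) (nat_lit 0x1ffff))) (nat_lit 0x1ffff)) (Nat.land (Nat.shiftRight c (nat_lit 9)) (nat_lit 65408))) (nat_lit 16))) e (Nat.shiftRight c (nat_lit 25)))⟩) (Nat.shiftRight k (nat_lit 15)))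

def oRel8 (k : ℕ) : Op :=
  (@Nat.rec (fun _ => Op) ⟨fun ih lim m nd e c => (ih.1 lim (Nat.lor m (Nat.mul ((mskF k).1 m (Nat.land (Nat.shiftRight c (nat_lit 9)) (nat_lit 65408))) (Nat.shiftLeft (Nat.land (Nat.lor (Nat.shiftRight (nat_lit 0x9760976097609760976097609760976097609760976097609760866004200000) (Nat.land (Nat.add (Nat.shiftRight VT (Nat.land (Nat.shiftRight (Nat.shiftRight m (Nat.land (Nat.shiftRight c (nat_lit 9)) (nat_lit 65408))) (nat_lit 60)) (nat_lit 1008))) (Nat.add (Nat.shiftRight VT (Nat.land (Nat.shiftRight (Nat.shiftRight m (Nat.land (Nat.shiftRight m (Nat.land (Nat.shiftRight (Nat.shiftRight m (Nat.land (Nat.shiftRight c (nat_lit 9)) (nat_lit 65408))) (nat_lit 34)) (nat_lit 0x1ffff))) (nat_lit 0x1ffff))) (nat_lit 60)) (nat_lit 1008))) (Nat.add (Nat.shiftRight VT (Nat.land (Nat.shiftRight (Nat.shiftRight m (Nat.land (Nat.shiftRight m (Nat.land (Nat.shiftRight (Nat.shiftRight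 m (Nat.land (Nat.shiftRight m (Nat.land (Nat.shiftRight (Nat.shiftRight m (Nat.land (Nat.shiftRight c (nat_lit 9)) (nat_lit 65408))) (nat_lit 34)) (nat_lit 0x1ffff))) (nat_lit 0x1ffff))) (nat_lit 34)) (nat_lit 0x1ffff))) (nat_lit 0x1ffff))) (nat_lit 60)) (nat_lit 1008))) (Nat.add (Nat.shiftRight VT (Nat.land (Nat.shiftRight (Nat.shiftRight m (Nat.land (Nat.shiftRight m (Nat.land (Nat.shiftRight (Nat.shiftRight m (Nat.land (Nat.shiftRight m (Nat.land (Nat.shiftRight (Nat.shiftRight m (Nat.land (Nat.shiftRight m (Nat.land (Nat.shiftRight (Nat.shiftRight m (Nat.land (Nat.shiftRight c (nat_lit 9)) (nat_lit 65408))) (nat_lit 34)) (nat_lit 0x1ffff))) (nat_lit 0x1ffff))) (nat_lit 34)) (nat_lit 0x1ffff))) (nat_lit 0x1ffff))) (nat_lit 34)) (nat_lit 0x1ffff))) (nat_lit 0x1ffff))) (nat_lit 60)) (nat_lit 1008))) (Nat.add (Nat.shiftRight VT (Nat.land (Nat.shiftRight (Nat.shiftRight m (Nat.land (Nat.shiftRight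 m (Nat.land (Nat.shiftRight (Nat.shiftRight m (Nat.land (Nat.shiftRight m (Nat.land (Nat.shiftRight (Nat.shiftRight m (Nat.land (Nat.shiftRight m (Nat.land (Nat.shiftRight (Nat.shiftRight m (Nat.land (Nat.shiftRight m (Nat.land (Nat.shiftRight (Nat.shiftRight m (Nat.land (Nat.shiftRight c (nat_lit 9)) (nat_lit 65408))) (nat_lit 34)) (nat_lit 0x1ffff))) (nat_lit 0x1ffff))) (nat_lit 34)) (nat_lit 0x1ffff))) (nat_lit 0x1ffff))) (nat_lit 34)) (nat_lit 0x1ffff))) (nat_lit 0x1ffff))) (nat_lit 34)) (nat_lit 0x1ffff))) (nat_lit 0x1ffff))) (nat_lit 60)) (nat_lit 1008))) (Nat.add (Nat.shiftRight VT (Nat.land (Nat.shiftRight (Nat.shiftRight m (Nat.land (Nat.shiftRight m (Nat.land (Nat.shiftRight (Nat.shiftRight m (Nat.land (Nat.shiftRight m (Nat.land (Nat.shiftRight (Nat.shiftRight m (Nat.land (Nat.shiftRight m (Nat.land (Nat.shiftRight (Nat.shiftRight m (Nat.land (Nat.shiftRight m (Nat.land (Nat.shiftRight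 (Nat.shiftRight m (Nat.land (Nat.shiftRight m (Nat.land (Nat.shiftRight (Nat.shiftRight m (Nat.land (Nat.shiftRight c (nat_lit 9)) (nat_lit 65408))) (nat_lit 34)) (nat_lit 0x1ffff))) (nat_lit 0x1ffff))) (nat_lit 34)) (nat_lit 0x1ffff))) (nat_lit 0x1ffff))) (nat_lit 34)) (nat_lit 0x1ffff))) (nat_lit 0x1ffff))) (nat_lit 34)) (nat_lit 0x1ffff))) (nat_lit 0x1ffff))) (nat_lit 34)) (nat_lit 0x1ffff))) (nat_lit 0x1ffff))) (nat_lit 60)) (nat_lit 1008))) (Nat.add (Nat.shiftRight VT (Nat.land (Nat.shiftRight (Nat.shiftRight m (Nat.land (Nat.shiftRight m (Nat.land (Nat.shiftRight (Nat.shiftRight m (Nat.land (Nat.shiftRight m (Nat.land (Nat.shiftRight (Nat.shiftRight m (Nat.land (Nat.shiftRight m (Nat.land (Nat.shiftRight (Nat.shiftRight m (Nat.land (Nat.shiftRight m (Nat.land (Nat.shiftRight (Nat.shiftRight m (Nat.land (Nat.shiftRight m (Nat.land (Nat.shiftRight (Nat.shiftRight m (Nat.land (Nat.shiftRight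 m (Nat.land (Nat.shiftRight (Nat.shiftRight m (Nat.land (Nat.shiftRight c (nat_lit 9)) (nat_lit 65408))) (nat_lit 34)) (nat_lit 0x1ffff))) (nat_lit 0x1ffff))) (nat_lit 34)) (nat_lit 0x1ffff))) (nat_lit 0x1ffff))) (nat_lit 34)) (nat_lit 0x1ffff))) (nat_lit 0x1ffff))) (nat_lit 34)) (nat_lit 0x1ffff))) (nat_lit 0x1ffff))) (nat_lit 34)) (nat_lit 0x1ffff))) (nat_lit 0x1ffff))) (nat_lit 34)) (nat_lit 0x1ffff))) (nat_lit 0x1ffff))) (nat_lit 60)) (nat_lit 1008))) (Nat.shiftRight VT (Nat.land (Nat.shiftRight (Nat.shiftRight m (Nat.land (Nat.shiftRight m (Nat.land (Nat.shiftRight (Nat.shiftRight m (Nat.land (Nat.shiftRight m (Nat.land (Nat.shiftRight (Nat.shiftRight m (Nat.land (Nat.shiftRight m (Nat.land (Nat.shiftRight (Nat.shiftRight m (Nat.land (Nat.shiftRight m (Nat.land (Nat.shiftRight (Nat.shiftRight m (Nat.land (Nat.shiftRight m (Nat.land (Nat.shiftRight (Nat.shiftRight m (Nat.land (Nat.shiftRight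 m (Nat.land (Nat.shiftRight (Nat.shiftRight m (Nat.land (Nat.shiftRight m (Nat.land (Nat.shiftRight (Nat.shiftRight m (Nat.land (Nat.shiftRight c (nat_lit 9)) (nat_lit 65408))) (nat_lit 34)) (nat_lit 0x1ffff))) (nat_lit 0x1ffff))) (nat_lit 34)) (nat_lit 0x1ffff))) (nat_lit 0x1ffff))) (nat_lit 34)) (nat_lit 0x1ffff))) (nat_lit 0x1ffff))) (nat_lit 34)) (nat_lit 0x1ffff))) (nat_lit 0x1ffff))) (nat_lit 34)) (nat_lit 0x1ffff))) (nat_lit 0x1ffff))) (nat_lit 34)) (nat_lit 0x1ffff))) (nat_lit 0x1ffff))) (nat_lit 34)) (nat_lit 0x1ffff))) (nat_lit 0x1ffff))) (nat_lit 60)) (nat_lit 1008)))))))))) (nat_lit 240))) (Nat.shiftRight (nat_lit 0x88048) (Nat.land (Nat.shiftRight (Nat.add (Nat.shiftRight VT (Nat.land (Nat.shiftRight (Nat.shiftRight m (Nat.land (Nat.shiftRight c (nat_lit 9)) (nat_lit 65408))) (nat_lit 60)) (nat_lit 1008))) (Nat.add (Nat.shiftRight VT (Nat.land (Nat.shiftRight (Nat.shiftRight m (Nat.land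 (Nat.shiftRight m (Nat.land (Nat.shiftRight (Nat.shiftRight m (Nat.land (Nat.shiftRight c (nat_lit 9)) (nat_lit 65408))) (nat_lit 34)) (nat_lit 0x1ffff))) (nat_lit 0x1ffff))) (nat_lit 60)) (nat_lit 1008))) (Nat.add (Nat.shiftRight VT (Nat.land (Nat.shiftRight (Nat.shiftRight m (Nat.land (Nat.shiftRight m (Nat.land (Nat.shiftRight (Nat.shiftRight m (Nat.land (Nat.shiftRight m (Nat.land (Nat.shiftRight (Nat.shiftRight m (Nat.land (Nat.shiftRight c (nat_lit 9)) (nat_lit 65408))) (nat_lit 34)) (nat_lit 0x1ffff))) (nat_lit 0x1ffff))) (nat_lit 34)) (nat_lit 0x1ffff))) (nat_lit 0x1ffff))) (nat_lit 60)) (nat_lit 1008))) (Nat.add (Nat.shiftRight VT (Nat.land (Nat.shiftRight (Nat.shiftRight m (Nat.land (Nat.shiftRight m (Nat.land (Nat.shiftRight (Nat.shiftRight m (Nat.land (Nat.shiftRight m (Nat.land (Nat.shiftRight (Nat.shiftRight m (Nat.land (Nat.shiftRight m (Nat.land (Nat.shiftRight (Nat.shiftRight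 m (Nat.land (Nat.shiftRight c (nat_lit 9)) (nat_lit 65408))) (nat_lit 34)) (nat_lit 0x1ffff))) (nat_lit 0x1ffff))) (nat_lit 34)) (nat_lit 0x1ffff))) (nat_lit 0x1ffff))) (nat_lit 34)) (nat_lit 0x1ffff))) (nat_lit 0x1ffff))) (nat_lit 60)) (nat_lit 1008))) (Nat.add (Nat.shiftRight VT (Nat.land (Nat.shiftRight (Nat.shiftRight m (Nat.land (Nat.shiftRight m (Nat.land (Nat.shiftRight (Nat.shiftRight m (Nat.land (Nat.shiftRight m (Nat.land (Nat.shiftRight (Nat.shiftRight m (Nat.land (Nat.shiftRight m (Nat.land (Nat.shiftRight (Nat.shiftRight m (Nat.land (Nat.shiftRight m (Nat.land (Nat.shiftRight (Nat.shiftRight m (Nat.land (Nat.shiftRight c (nat_lit 9)) (nat_lit 65408))) (nat_lit 34)) (nat_lit 0x1ffff))) (nat_lit 0x1ffff))) (nat_lit 34)) (nat_lit 0x1ffff))) (nat_lit 0x1ffff))) (nat_lit 34)) (nat_lit 0x1ffff))) (nat_lit 0x1ffff))) (nat_lit 34)) (nat_lit 0x1ffff))) (nat_lit 0x1ffff))) (nat_lit 60)) (nat_lit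 1008))) (Nat.add (Nat.shiftRight VT (Nat.land (Nat.shiftRight (Nat.shiftRight m (Nat.land (Nat.shiftRight m (Nat.land (Nat.shiftRight (Nat.shiftRight m (Nat.land (Nat.shiftRight m (Nat.land (Nat.shiftRight (Nat.shiftRight m (Nat.land (Nat.shiftRight m (Nat.land (Nat.shiftRight (Nat.shiftRight m (Nat.land (Nat.shiftRight m (Nat.land (Nat.shiftRight (Nat.shiftRight m (Nat.land (Nat.shiftRight m (Nat.land (Nat.shiftRight (Nat.shiftRight m (Nat.land (Nat.shiftRight c (nat_lit 9)) (nat_lit 65408))) (nat_lit 34)) (nat_lit 0x1ffff))) (nat_lit 0x1ffff))) (nat_lit 34)) (nat_lit 0x1ffff))) (nat_lit 0x1ffff))) (nat_lit 34)) (nat_lit 0x1ffff))) (nat_lit 0x1ffff))) (nat_lit 34)) (nat_lit 0x1ffff))) (nat_lit 0x1ffff))) (nat_lit 34)) (nat_lit 0x1ffff))) (nat_lit 0x1ffff))) (nat_lit 60)) (nat_lit 1008))) (Nat.add (Nat.shiftRight VT (Nat.land (Nat.shiftRight (Nat.shiftRight m (Nat.land (Nat.shiftRight m (Nat.land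 (Nat.shiftRight (Nat.shiftRight m (Nat.land (Nat.shiftRight m (Nat.land (Nat.shiftRight (Nat.shiftRight m (Nat.land (Nat.shiftRight m (Nat.land (Nat.shiftRight (Nat.shiftRight m (Nat.land (Nat.shiftRight m (Nat.land (Nat.shiftRight (Nat.shiftRight m (Nat.land (Nat.shiftRight m (Nat.land (Nat.shiftRight (Nat.shiftRight m (Nat.land (Nat.shiftRight m (Nat.land (Nat.shiftRight (Nat.shiftRight m (Nat.land (Nat.shiftRight c (nat_lit 9)) (nat_lit 65408))) (nat_lit 34)) (nat_lit 0x1ffff))) (nat_lit 0x1ffff))) (nat_lit 34)) (nat_lit 0x1ffff))) (nat_lit 0x1ffff))) (nat_lit 34)) (nat_lit 0x1ffff))) (nat_lit 0x1ffff))) (nat_lit 34)) (nat_lit 0x1ffff))) (nat_lit 0x1ffff))) (nat_lit 34)) (nat_lit 0x1ffff))) (nat_lit 0x1ffff))) (nat_lit 34)) (nat_lit 0x1ffff))) (nat_lit 0x1ffff))) (nat_lit 60)) (nat_lit 1008))) (Nat.shiftRight VT (Nat.land (Nat.shiftRight (Nat.shiftRight m (Nat.land (Nat.shiftRight m (Nat.land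 (Nat.shiftRight (Nat.shiftRight m (Nat.land (Nat.shiftRight m (Nat.land (Nat.shiftRight (Nat.shiftRight m (Nat.land (Nat.shiftRight m (Nat.land (Nat.shiftRight (Nat.shiftRight m (Nat.land (Nat.shiftRight m (Nat.land (Nat.shiftRight (Nat.shiftRight m (Nat.land (Nat.shiftRight m (Nat.land (Nat.shiftRight (Nat.shiftRight m (Nat.land (Nat.shiftRight m (Nat.land (Nat.shiftRight (Nat.shiftRight m (Nat.land (Nat.shiftRight m (Nat.land (Nat.shiftRight (Nat.shiftRight m (Nat.land (Nat.shiftRight c (nat_lit 9)) (nat_lit 65408))) (nat_lit 34)) (nat_lit 0x1ffff))) (nat_lit 0x1ffff))) (nat_lit 34)) (nat_lit 0x1ffff))) (nat_lit 0x1ffff))) (nat_lit 34)) (nat_lit 0x1ffff))) (nat_lit 0x1ffff))) (nat_lit 34)) (nat_lit 0x1ffff))) (nat_lit 0x1ffff))) (nat_lit 34)) (nat_lit 0x1ffff))) (nat_lit 0x1ffff))) (nat_lit 34)) (nat_lit 0x1ffff))) (nat_lit 0x1ffff))) (nat_lit 34)) (nat_lit 0x1ffff))) (nat_lit 0x1ffff))) (nat_lit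 60)) (nat_lit 1008)))))))))) (nat_lit 4)) (nat_lit 240)))) (nat_lit 65535)) (nat_lit 70)))) nd e (Nat.shiftRight c (nat_lit 25)))⟩ (fun _ _ => ⟨fun ih lim m nd e c => (ih.1 lim (Nat.lor m (Nat.mul ((mskF k).1 m (Nat.land (Nat.shiftRight c (nat_lit 9)) (nat_lit 65408))) (Nat.shiftLeft (Nat.lor (Nat.land (Nat.lor (Nat.shiftRight (nat_lit 0x9760976097609760976097609760976097609760976097609760866004200000) (Nat.land (Nat.add (Nat.shiftRight VT (Nat.land (Nat.shiftRight (Nat.shiftRight m (Nat.land (Nat.shiftRight c (nat_lit 9)) (nat_lit 65408))) (nat_lit 60)) (nat_lit 1008))) (Nat.add (Nat.shiftRight VT (Nat.land (Nat.shiftRight (Nat.shiftRight m (Nat.land (Nat.shiftRight m (Nat.land (Nat.shiftRight (Nat.shiftRight m (Nat.land (Nat.shiftRight c (nat_lit 9)) (nat_lit 65408))) (nat_lit 34)) (nat_lit 0x1ffff))) (nat_lit 0x1ffff))) (nat_lit 60)) (nat_lit 1008))) (Nat.add (Nat.shiftRight VT (Nat.land (Nat.shiftRight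 (Nat.shiftRight m (Nat.land (Nat.shiftRight m (Nat.land (Nat.shiftRight (Nat.shiftRight m (Nat.land (Nat.shiftRight m (Nat.land (Nat.shiftRight (Nat.shiftRight m (Nat.land (Nat.shiftRight c (nat_lit 9)) (nat_lit 65408))) (nat_lit 34)) (nat_lit 0x1ffff))) (nat_lit 0x1ffff))) (nat_lit 34)) (nat_lit 0x1ffff))) (nat_lit 0x1ffff))) (nat_lit 60)) (nat_lit 1008))) (Nat.add (Nat.shiftRight VT (Nat.land (Nat.shiftRight (Nat.shiftRight m (Nat.land (Nat.shiftRight m (Nat.land (Nat.shiftRight (Nat.shiftRight m (Nat.land (Nat.shiftRight m (Nat.land (Nat.shiftRight (Nat.shiftRight m (Nat.land (Nat.shiftRight m (Nat.land (Nat.shiftRight (Nat.shiftRight m (Nat.land (Nat.shiftRight c (nat_lit 9)) (nat_lit 65408))) (nat_lit 34)) (nat_lit 0x1ffff))) (nat_lit 0x1ffff))) (nat_lit 34)) (nat_lit 0x1ffff))) (nat_lit 0x1ffff))) (nat_lit 34)) (nat_lit 0x1ffff))) (nat_lit 0x1ffff))) (nat_lit 60)) (nat_lit 1008))) (Nat.add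 (Nat.shiftRight VT (Nat.land (Nat.shiftRight (Nat.shiftRight m (Nat.land (Nat.shiftRight m (Nat.land (Nat.shiftRight (Nat.shiftRight m (Nat.land (Nat.shiftRight m (Nat.land (Nat.shiftRight (Nat.shiftRight m (Nat.land (Nat.shiftRight m (Nat.land (Nat.shiftRight (Nat.shiftRight m (Nat.land (Nat.shiftRight m (Nat.land (Nat.shiftRight (Nat.shiftRight m (Nat.land (Nat.shiftRight c (nat_lit 9)) (nat_lit 65408))) (nat_lit 34)) (nat_lit 0x1ffff))) (nat_lit 0x1ffff))) (nat_lit 34)) (nat_lit 0x1ffff))) (nat_lit 0x1ffff))) (nat_lit 34)) (nat_lit 0x1ffff))) (nat_lit 0x1ffff))) (nat_lit 34)) (nat_lit 0x1ffff))) (nat_lit 0x1ffff))) (nat_lit 60)) (nat_lit 1008))) (Nat.add (Nat.shiftRight VT (Nat.land (Nat.shiftRight (Nat.shiftRight m (Nat.land (Nat.shiftRight m (Nat.land (Nat.shiftRight (Nat.shiftRight m (Nat.land (Nat.shiftRight m (Nat.land (Nat.shiftRight (Nat.shiftRight m (Nat.land (Nat.shiftRight m (Nat.land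 (Nat.shiftRight (Nat.shiftRight m (Nat.land (Nat.shiftRight m (Nat.land (Nat.shiftRight (Nat.shiftRight m (Nat.land (Nat.shiftRight m (Nat.land (Nat.shiftRight (Nat.shiftRight m (Nat.land (Nat.shiftRight c (nat_lit 9)) (nat_lit 65408))) (nat_lit 34)) (nat_lit 0x1ffff))) (nat_lit 0x1ffff))) (nat_lit 34)) (nat_lit 0x1ffff))) (nat_lit 0x1ffff))) (nat_lit 34)) (nat_lit 0x1ffff))) (nat_lit 0x1ffff))) (nat_lit 34)) (nat_lit 0x1ffff))) (nat_lit 0x1ffff))) (nat_lit 34)) (nat_lit 0x1ffff))) (nat_lit 0x1ffff))) (nat_lit 60)) (nat_lit 1008))) (Nat.add (Nat.shiftRight VT (Nat.land (Nat.shiftRight (Nat.shiftRight m (Nat.land (Nat.shiftRight m (Nat.land (Nat.shiftRight (Nat.shiftRight m (Nat.land (Nat.shiftRight m (Nat.land (Nat.shiftRight (Nat.shiftRight m (Nat.land (Nat.shiftRight m (Nat.land (Nat.shiftRight (Nat.shiftRight m (Nat.land (Nat.shiftRight m (Nat.land (Nat.shiftRight (Nat.shiftRight m (Nat.land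 (Nat.shiftRight m (Nat.land (Nat.shiftRight (Nat.shiftRight m (Nat.land (Nat.shiftRight m (Nat.land (Nat.shiftRight (Nat.shiftRight m (Nat.land (Nat.shiftRight c (nat_lit 9)) (nat_lit 65408))) (nat_lit 34)) (nat_lit 0x1ffff))) (nat_lit 0x1ffff))) (nat_lit 34)) (nat_lit 0x1ffff))) (nat_lit 0x1ffff))) (nat_lit 34)) (nat_lit 0x1ffff))) (nat_lit 0x1ffff))) (nat_lit 34)) (nat_lit 0x1ffff))) (nat_lit 0x1ffff))) (nat_lit 34)) (nat_lit 0x1ffff))) (nat_lit 0x1ffff))) (nat_lit 34)) (nat_lit 0x1ffff))) (nat_lit 0x1ffff))) (nat_lit 60)) (nat_lit 1008))) (Nat.shiftRight VT (Nat.land (Nat.shiftRight (Nat.shiftRight m (Nat.land (Nat.shiftRight m (Nat.land (Nat.shiftRight (Nat.shiftRight m (Nat.land (Nat.shiftRight m (Nat.land (Nat.shiftRight (Nat.shiftRight m (Nat.land (Nat.shiftRight m (Nat.land (Nat.shiftRight (Nat.shiftRight m (Nat.land (Nat.shiftRight m (Nat.land (Nat.shiftRight (Nat.shiftRight m (Nat.land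 (Nat.shiftRight m (Nat.land (Nat.shiftRight (Nat.shiftRight m (Nat.land (Nat.shiftRight m (Nat.land (Nat.shiftRight (Nat.shiftRight m (Nat.land (Nat.shiftRight m (Nat.land (Nat.shiftRight (Nat.shiftRight m (Nat.land (Nat.shiftRight c (nat_lit 9)) (nat_lit 65408))) (nat_lit 34)) (nat_lit 0x1ffff))) (nat_lit 0x1ffff))) (nat_lit 34)) (nat_lit 0x1ffff))) (nat_lit 0x1ffff))) (nat_lit 34)) (nat_lit 0x1ffff))) (nat_lit 0x1ffff))) (nat_lit 34)) (nat_lit 0x1ffff))) (nat_lit 0x1ffff))) (nat_lit 34)) (nat_lit 0x1ffff))) (nat_lit 0x1ffff))) (nat_lit 34)) (nat_lit 0x1ffff))) (nat_lit 0x1ffff))) (nat_lit 34)) (nat_lit 0x1ffff))) (nat_lit 0x1ffff))) (nat_lit 60)) (nat_lit 1008)))))))))) (nat_lit 240))) (Nat.shiftRight (nat_lit 0x88048) (Nat.land (Nat.shiftRight (Nat.add (Nat.shiftRight VT (Nat.land (Nat.shiftRight (Nat.shiftRight m (Nat.land (Nat.shiftRight c (nat_lit 9)) (nat_lit 65408))) (nat_lit 60)) (nat_lit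 1008))) (Nat.add (Nat.shiftRight VT (Nat.land (Nat.shiftRight (Nat.shiftRight m (Nat.land (Nat.shiftRight m (Nat.land (Nat.shiftRight (Nat.shiftRight m (Nat.land (Nat.shiftRight c (nat_lit 9)) (nat_lit 65408))) (nat_lit 34)) (nat_lit 0x1ffff))) (nat_lit 0x1ffff))) (nat_lit 60)) (nat_lit 1008))) (Nat.add (Nat.shiftRight VT (Nat.land (Nat.shiftRight (Nat.shiftRight m (Nat.land (Nat.shiftRight m (Nat.land (Nat.shiftRight (Nat.shiftRight m (Nat.land (Nat.shiftRight m (Nat.land (Nat.shiftRight (Nat.shiftRight m (Nat.land (Nat.shiftRight c (nat_lit 9)) (nat_lit 65408))) (nat_lit 34)) (nat_lit 0x1ffff))) (nat_lit 0x1ffff))) (nat_lit 34)) (nat_lit 0x1ffff))) (nat_lit 0x1ffff))) (nat_lit 60)) (nat_lit 1008))) (Nat.add (Nat.shiftRight VT (Nat.land (Nat.shiftRight (Nat.shiftRight m (Nat.land (Nat.shiftRight m (Nat.land (Nat.shiftRight (Nat.shiftRight m (Nat.land (Nat.shiftRight m (Nat.land (Nat.shiftRight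 (Nat.shiftRight m (Nat.land (Nat.shiftRight m (Nat.land (Nat.shiftRight (Nat.shiftRight m (Nat.land (Nat.shiftRight c (nat_lit 9)) (nat_lit 65408))) (nat_lit 34)) (nat_lit 0x1ffff))) (nat_lit 0x1ffff))) (nat_lit 34)) (nat_lit 0x1ffff))) (nat_lit 0x1ffff))) (nat_lit 34)) (nat_lit 0x1ffff))) (nat_lit 0x1ffff))) (nat_lit 60)) (nat_lit 1008))) (Nat.add (Nat.shiftRight VT (Nat.land (Nat.shiftRight (Nat.shiftRight m (Nat.land (Nat.shiftRight m (Nat.land (Nat.shiftRight (Nat.shiftRight m (Nat.land (Nat.shiftRight m (Nat.land (Nat.shiftRight (Nat.shiftRight m (Nat.land (Nat.shiftRight m (Nat.land (Nat.shiftRight (Nat.shiftRight m (Nat.land (Nat.shiftRight m (Nat.land (Nat.shiftRight (Nat.shiftRight m (Nat.land (Nat.shiftRight c (nat_lit 9)) (nat_lit 65408))) (nat_lit 34)) (nat_lit 0x1ffff))) (nat_lit 0x1ffff))) (nat_lit 34)) (nat_lit 0x1ffff))) (nat_lit 0x1ffff))) (nat_lit 34)) (nat_lit 0x1ffff))) (nat_lit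 0x1ffff))) (nat_lit 34)) (nat_lit 0x1ffff))) (nat_lit 0x1ffff))) (nat_lit 60)) (nat_lit 1008))) (Nat.add (Nat.shiftRight VT (Nat.land (Nat.shiftRight (Nat.shiftRight m (Nat.land (Nat.shiftRight m (Nat.land (Nat.shiftRight (Nat.shiftRight m (Nat.land (Nat.shiftRight m (Nat.land (Nat.shiftRight (Nat.shiftRight m (Nat.land (Nat.shiftRight m (Nat.land (Nat.shiftRight (Nat.shiftRight m (Nat.land (Nat.shiftRight m (Nat.land (Nat.shiftRight (Nat.shiftRight m (Nat.land (Nat.shiftRight m (Nat.land (Nat.shiftRight (Nat.shiftRight m (Nat.land (Nat.shiftRight c (nat_lit 9)) (nat_lit 65408))) (nat_lit 34)) (nat_lit 0x1ffff))) (nat_lit 0x1ffff))) (nat_lit 34)) (nat_lit 0x1ffff))) (nat_lit 0x1ffff))) (nat_lit 34)) (nat_lit 0x1ffff))) (nat_lit 0x1ffff))) (nat_lit 34)) (nat_lit 0x1ffff))) (nat_lit 0x1ffff))) (nat_lit 34)) (nat_lit 0x1ffff))) (nat_lit 0x1ffff))) (nat_lit 60)) (nat_lit 1008))) (Nat.add (Nat.shiftRight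 VT (Nat.land (Nat.shiftRight (Nat.shiftRight m (Nat.land (Nat.shiftRight m (Nat.land (Nat.shiftRight (Nat.shiftRight m (Nat.land (Nat.shiftRight m (Nat.land (Nat.shiftRight (Nat.shiftRight m (Nat.land (Nat.shiftRight m (Nat.land (Nat.shiftRight (Nat.shiftRight m (Nat.land (Nat.shiftRight m (Nat.land (Nat.shiftRight (Nat.shiftRight m (Nat.land (Nat.shiftRight m (Nat.land (Nat.shiftRight (Nat.shiftRight m (Nat.land (Nat.shiftRight m (Nat.land (Nat.shiftRight (Nat.shiftRight m (Nat.land (Nat.shiftRight c (nat_lit 9)) (nat_lit 65408))) (nat_lit 34)) (nat_lit 0x1ffff))) (nat_lit 0x1ffff))) (nat_lit 34)) (nat_lit 0x1ffff))) (nat_lit 0x1ffff))) (nat_lit 34)) (nat_lit 0x1ffff))) (nat_lit 0x1ffff))) (nat_lit 34)) (nat_lit 0x1ffff))) (nat_lit 0x1ffff))) (nat_lit 34)) (nat_lit 0x1ffff))) (nat_lit 0x1ffff))) (nat_lit 34)) (nat_lit 0x1ffff))) (nat_lit 0x1ffff))) (nat_lit 60)) (nat_lit 1008))) (Nat.shiftRight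 VT (Nat.land (Nat.shiftRight (Nat.shiftRight m (Nat.land (Nat.shiftRight m (Nat.land (Nat.shiftRight (Nat.shiftRight m (Nat.land (Nat.shiftRight m (Nat.land (Nat.shiftRight (Nat.shiftRight m (Nat.land (Nat.shiftRight m (Nat.land (Nat.shiftRight (Nat.shiftRight m (Nat.land (Nat.shiftRight m (Nat.land (Nat.shiftRight (Nat.shiftRight m (Nat.land (Nat.shiftRight m (Nat.land (Nat.shiftRight (Nat.shiftRight m (Nat.land (Nat.shiftRight m (Nat.land (Nat.shiftRight (Nat.shiftRight m (Nat.land (Nat.shiftRight m (Nat.land (Nat.shiftRight (Nat.shiftRight m (Nat.land (Nat.shiftRight c (nat_lit 9)) (nat_lit 65408))) (nat_lit 34)) (nat_lit 0x1ffff))) (nat_lit 0x1ffff))) (nat_lit 34)) (nat_lit 0x1ffff))) (nat_lit 0x1ffff))) (nat_lit 34)) (nat_lit 0x1ffff))) (nat_lit 0x1ffff))) (nat_lit 34)) (nat_lit 0x1ffff))) (nat_lit 0x1ffff))) (nat_lit 34)) (nat_lit 0x1ffff))) (nat_lit 0x1ffff))) (nat_lit 34)) (nat_lit 0x1ffff)))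 (nat_lit 0x1ffff))) (nat_lit 34)) (nat_lit 0x1ffff))) (nat_lit 0x1ffff))) (nat_lit 60)) (nat_lit 1008)))))))))) (nat_lit 4)) (nat_lit 240)))) (nat_lit 65535)) (nat_lit 0x347f97)) (nat_lit 70)))) (Nat.add nd (Nat.shiftLeft (Nat.xor (Nat.land (Nat.shiftRight m (Nat.land (Nat.shiftRight (Nat.shiftRight m (Nat.land (Nat.shiftRight m (Nat.land (Nat.shiftRight (Nat.shiftRight m (Nat.land (Nat.shiftRight m (Nat.land (Nat.shiftRight (Nat.shiftRight m (Nat.land (Nat.shiftRight m (Nat.land (Nat.shiftRight (Nat.shiftRight m (Nat.land (Nat.shiftRight m (Nat.land (Nat.shiftRight (Nat.shiftRight m (Nat.land (Nat.shiftRight m (Nat.land (Nat.shiftRight (Nat.shiftRight m (Nat.land (Nat.shiftRight m (Nat.land (Nat.shiftRight (Nat.shiftRight m (Nat.land (Nat.shiftRight m (Nat.land (Nat.shiftRight (Nat.shiftRight m (Nat.land (Nat.shiftRight c (nat_lit 9)) (nat_lit 65408))) (nat_lit 34)) (nat_lit 0x1ffff))) (nat_lit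 0x1ffff))) (nat_lit 34)) (nat_lit 0x1ffff))) (nat_lit 0x1ffff))) (nat_lit 34)) (nat_lit 0x1ffff))) (nat_lit 0x1ffff))) (nat_lit 34)) (nat_lit 0x1ffff))) (nat_lit 0x1ffff))) (nat_lit 34)) (nat_lit 0x1ffff))) (nat_lit 0x1ffff))) (nat_lit 34)) (nat_lit 0x1ffff))) (nat_lit 0x1ffff))) (nat_lit 34)) (nat_lit 0x1ffff))) (nat_lit 0x1ffff))) (nat_lit 34)) (nat_lit 0x1ffff))) (nat_lit 0x1ffff)) (Nat.land (Nat.shiftRight c (nat_lit 9)) (nat_lit 65408))) (nat_lit 16))) e (Nat.shiftRight c (nat_lit 25)))⟩) (Nat.shiftRight k (nat_lit 15)))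

def oRel9 (k : ℕ) : Op :=
  (@Nat.rec (fun _ => Op) ⟨fun ih lim m nd e c => (ih.1 lim (Nat.lor m (Nat.mul ((mskF k).1 m (Nat.land (Nat.shiftRight c (nat_lit 9)) (nat_lit 65408))) (Nat.shiftLeft (Nat.land (Nat.lor (Nat.shiftRight (nat_lit 0x1700170017001700170017001700170017001700170017001700060004000000) (Nat.land (Nat.add (Nat.shiftRight VT (Nat.land (Nat.shiftRight (Nat.shiftRight m (Nat.land (Nat.shiftRight c (nat_lit 9)) (nat_lit 65408))) (nat_lit 60)) (nat_lit 1008))) (Nat.add (Nat.shiftRight VT (Nat.land (Nat.shiftRight (Nat.shiftRight m (Nat.land (Nat.shiftRight m (Nat.land (Nat.shiftRight (Nat.shiftRight m (Nat.land (Nat.shiftRight c (nat_lit 9)) (nat_lit 65408))) (nat_lit 34)) (nat_lit 0x1ffff))) (nat_lit 0x1ffff))) (nat_lit 60)) (nat_lit 1008))) (Nat.add (Nat.shiftRight VT (Nat.land (Nat.shiftRight (Nat.shiftRight m (Nat.land (Nat.shiftRight m (Nat.land (Nat.shiftRight (Nat.shiftRight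 m (Nat.land (Nat.shiftRight m (Nat.land (Nat.shiftRight (Nat.shiftRight m (Nat.land (Nat.shiftRight c (nat_lit 9)) (nat_lit 65408))) (nat_lit 34)) (nat_lit 0x1ffff))) (nat_lit 0x1ffff))) (nat_lit 34)) (nat_lit 0x1ffff))) (nat_lit 0x1ffff))) (nat_lit 60)) (nat_lit 1008))) (Nat.add (Nat.shiftRight VT (Nat.land (Nat.shiftRight (Nat.shiftRight m (Nat.land (Nat.shiftRight m (Nat.land (Nat.shiftRight (Nat.shiftRight m (Nat.land (Nat.shiftRight m (Nat.land (Nat.shiftRight (Nat.shiftRight m (Nat.land (Nat.shiftRight m (Nat.land (Nat.shiftRight (Nat.shiftRight m (Nat.land (Nat.shiftRight c (nat_lit 9)) (nat_lit 65408))) (nat_lit 34)) (nat_lit 0x1ffff))) (nat_lit 0x1ffff))) (nat_lit 34)) (nat_lit 0x1ffff))) (nat_lit 0x1ffff))) (nat_lit 34)) (nat_lit 0x1ffff))) (nat_lit 0x1ffff))) (nat_lit 60)) (nat_lit 1008))) (Nat.add (Nat.shiftRight VT (Nat.land (Nat.shiftRight (Nat.shiftRight m (Nat.land (Nat.shiftRight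 m (Nat.land (Nat.shiftRight (Nat.shiftRight m (Nat.land (Nat.shiftRight m (Nat.land (Nat.shiftRight (Nat.shiftRight m (Nat.land (Nat.shiftRight m (Nat.land (Nat.shiftRight (Nat.shiftRight m (Nat.land (Nat.shiftRight m (Nat.land (Nat.shiftRight (Nat.shiftRight m (Nat.land (Nat.shiftRight c (nat_lit 9)) (nat_lit 65408))) (nat_lit 34)) (nat_lit 0x1ffff))) (nat_lit 0x1ffff))) (nat_lit 34)) (nat_lit 0x1ffff))) (nat_lit 0x1ffff))) (nat_lit 34)) (nat_lit 0x1ffff))) (nat_lit 0x1ffff))) (nat_lit 34)) (nat_lit 0x1ffff))) (nat_lit 0x1ffff))) (nat_lit 60)) (nat_lit 1008))) (Nat.add (Nat.shiftRight VT (Nat.land (Nat.shiftRight (Nat.shiftRight m (Nat.land (Nat.shiftRight m (Nat.land (Nat.shiftRight (Nat.shiftRight m (Nat.land (Nat.shiftRight m (Nat.land (Nat.shiftRight (Nat.shiftRight m (Nat.land (Nat.shiftRight m (Nat.land (Nat.shiftRight (Nat.shiftRight m (Nat.land (Nat.shiftRight m (Nat.land (Nat.shiftRight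 (Nat.shiftRight m (Nat.land (Nat.shiftRight m (Nat.land (Nat.shiftRight (Nat.shiftRight m (Nat.land (Nat.shiftRight c (nat_lit 9)) (nat_lit 65408))) (nat_lit 34)) (nat_lit 0x1ffff))) (nat_lit 0x1ffff))) (nat_lit 34)) (nat_lit 0x1ffff))) (nat_lit 0x1ffff))) (nat_lit 34)) (nat_lit 0x1ffff))) (nat_lit 0x1ffff))) (nat_lit 34)) (nat_lit 0x1ffff))) (nat_lit 0x1ffff))) (nat_lit 34)) (nat_lit 0x1ffff))) (nat_lit 0x1ffff))) (nat_lit 60)) (nat_lit 1008))) (Nat.add (Nat.shiftRight VT (Nat.land (Nat.shiftRight (Nat.shiftRight m (Nat.land (Nat.shiftRight m (Nat.land (Nat.shiftRight (Nat.shiftRight m (Nat.land (Nat.shiftRight m (Nat.land (Nat.shiftRight (Nat.shiftRight m (Nat.land (Nat.shiftRight m (Nat.land (Nat.shiftRight (Nat.shiftRight m (Nat.land (Nat.shiftRight m (Nat.land (Nat.shiftRight (Nat.shiftRight m (Nat.land (Nat.shiftRight m (Nat.land (Nat.shiftRight (Nat.shiftRight m (Nat.land (Nat.shiftRight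 m (Nat.land (Nat.shiftRight (Nat.shiftRight m (Nat.land (Nat.shiftRight c (nat_lit 9)) (nat_lit 65408))) (nat_lit 34)) (nat_lit 0x1ffff))) (nat_lit 0x1ffff))) (nat_lit 34)) (nat_lit 0x1ffff))) (nat_lit 0x1ffff))) (nat_lit 34)) (nat_lit 0x1ffff))) (nat_lit 0x1ffff))) (nat_lit 34)) (nat_lit 0x1ffff))) (nat_lit 0x1ffff))) (nat_lit 34)) (nat_lit 0x1ffff))) (nat_lit 0x1ffff))) (nat_lit 34)) (nat_lit 0x1ffff))) (nat_lit 0x1ffff))) (nat_lit 60)) (nat_lit 1008))) (Nat.add (Nat.shiftRight VT (Nat.land (Nat.shiftRight (Nat.shiftRight m (Nat.land (Nat.shiftRight m (Nat.land (Nat.shiftRight (Nat.shiftRight m (Nat.land (Nat.shiftRight m (Nat.land (Nat.shiftRight (Nat.shiftRight m (Nat.land (Nat.shiftRight m (Nat.land (Nat.shiftRight (Nat.shiftRight m (Nat.land (Nat.shiftRight m (Nat.land (Nat.shiftRight (Nat.shiftRight m (Nat.land (Nat.shiftRight m (Nat.land (Nat.shiftRight (Nat.shiftRight m (Nat.land (Nat.shiftRight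 m (Nat.land (Nat.shiftRight (Nat.shiftRight m (Nat.land (Nat.shiftRight m (Nat.land (Nat.shiftRight (Nat.shiftRight m (Nat.land (Nat.shiftRight c (nat_lit 9)) (nat_lit 65408))) (nat_lit 34)) (nat_lit 0x1ffff))) (nat_lit 0x1ffff))) (nat_lit 34)) (nat_lit 0x1ffff))) (nat_lit 0x1ffff))) (nat_lit 34)) (nat_lit 0x1ffff))) (nat_lit 0x1ffff))) (nat_lit 34)) (nat_lit 0x1ffff))) (nat_lit 0x1ffff))) (nat_lit 34)) (nat_lit 0x1ffff))) (nat_lit 0x1ffff))) (nat_lit 34)) (nat_lit 0x1ffff))) (nat_lit 0x1ffff))) (nat_lit 34)) (nat_lit 0x1ffff))) (nat_lit 0x1ffff))) (nat_lit 60)) (nat_lit 1008))) (Nat.shiftRight VT (Nat.land (Nat.shiftRight (Nat.shiftRight m (Nat.land (Nat.shiftRight m (Nat.land (Nat.shiftRight (Nat.shiftRight m (Nat.land (Nat.shiftRight m (Nat.land (Nat.shiftRight (Nat.shiftRight m (Nat.land (Nat.shiftRight m (Nat.land (Nat.shiftRight (Nat.shiftRight m (Nat.land (Nat.shiftRight m (Nat.land (Nat.shiftRight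 (Nat.shiftRight m (Nat.land (Nat.shiftRight m (Nat.land (Nat.shiftRight (Nat.shiftRight m (Nat.land (Nat.shiftRight m (Nat.land (Nat.shiftRight (Nat.shiftRight m (Nat.land (Nat.shiftRight m (Nat.land (Nat.shiftRight (Nat.shiftRight m (Nat.land (Nat.shiftRight m (Nat.land (Nat.shiftRight (Nat.shiftRight m (Nat.land (Nat.shiftRight c (nat_lit 9)) (nat_lit 65408))) (nat_lit 34)) (nat_lit 0x1ffff))) (nat_lit 0x1ffff))) (nat_lit 34)) (nat_lit 0x1ffff))) (nat_lit 0x1ffff))) (nat_lit 34)) (nat_lit 0x1ffff))) (nat_lit 0x1ffff))) (nat_lit 34)) (nat_lit 0x1ffff))) (nat_lit 0x1ffff))) (nat_lit 34)) (nat_lit 0x1ffff))) (nat_lit 0x1ffff))) (nat_lit 34)) (nat_lit 0x1ffff))) (nat_lit 0x1ffff))) (nat_lit 34)) (nat_lit 0x1ffff))) (nat_lit 0x1ffff))) (nat_lit 34)) (nat_lit 0x1ffff))) (nat_lit 0x1ffff))) (nat_lit 60)) (nat_lit 1008))))))))))) (nat_lit 240))) (Nat.shiftRight (nat_lit 0x8001800380) (Nat.land (Nat.shiftRight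 (Nat.add (Nat.shiftRight VT (Nat.land (Nat.shiftRight (Nat.shiftRight m (Nat.land (Nat.shiftRight c (nat_lit 9)) (nat_lit 65408))) (nat_lit 60)) (nat_lit 1008))) (Nat.add (Nat.shiftRight VT (Nat.land (Nat.shiftRight (Nat.shiftRight m (Nat.land (Nat.shiftRight m (Nat.land (Nat.shiftRight (Nat.shiftRight m (Nat.land (Nat.shiftRight c (nat_lit 9)) (nat_lit 65408))) (nat_lit 34)) (nat_lit 0x1ffff))) (nat_lit 0x1ffff))) (nat_lit 60)) (nat_lit 1008))) (Nat.add (Nat.shiftRight VT (Nat.land (Nat.shiftRight (Nat.shiftRight m (Nat.land (Nat.shiftRight m (Nat.land (Nat.shiftRight (Nat.shiftRight m (Nat.land (Nat.shiftRight m (Nat.land (Nat.shiftRight (Nat.shiftRight m (Nat.land (Nat.shiftRight c (nat_lit 9)) (nat_lit 65408))) (nat_lit 34)) (nat_lit 0x1ffff))) (nat_lit 0x1ffff))) (nat_lit 34)) (nat_lit 0x1ffff))) (nat_lit 0x1ffff))) (nat_lit 60)) (nat_lit 1008))) (Nat.add (Nat.shiftRight VT (Nat.land (Nat.shiftRight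 (Nat.shiftRight m (Nat.land (Nat.shiftRight m (Nat.land (Nat.shiftRight (Nat.shiftRight m (Nat.land (Nat.shiftRight m (Nat.land (Nat.shiftRight (Nat.shiftRight m (Nat.land (Nat.shiftRight m (Nat.land (Nat.shiftRight (Nat.shiftRight m (Nat.land (Nat.shiftRight c (nat_lit 9)) (nat_lit 65408))) (nat_lit 34)) (nat_lit 0x1ffff))) (nat_lit 0x1ffff))) (nat_lit 34)) (nat_lit 0x1ffff))) (nat_lit 0x1ffff))) (nat_lit 34)) (nat_lit 0x1ffff))) (nat_lit 0x1ffff))) (nat_lit 60)) (nat_lit 1008))) (Nat.add (Nat.shiftRight VT (Nat.land (Nat.shiftRight (Nat.shiftRight m (Nat.land (Nat.shiftRight m (Nat.land (Nat.shiftRight (Nat.shiftRight m (Nat.land (Nat.shiftRight m (Nat.land (Nat.shiftRight (Nat.shiftRight m (Nat.land (Nat.shiftRight m (Nat.land (Nat.shiftRight (Nat.shiftRight m (Nat.land (Nat.shiftRight m (Nat.land (Nat.shiftRight (Nat.shiftRight m (Nat.land (Nat.shiftRight c (nat_lit 9)) (nat_lit 65408)))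 (nat_lit 34)) (nat_lit 0x1ffff))) (nat_lit 0x1ffff))) (nat_lit 34)) (nat_lit 0x1ffff))) (nat_lit 0x1ffff))) (nat_lit 34)) (nat_lit 0x1ffff))) (nat_lit 0x1ffff))) (nat_lit 34)) (nat_lit 0x1ffff))) (nat_lit 0x1ffff))) (nat_lit 60)) (nat_lit 1008))) (Nat.add (Nat.shiftRight VT (Nat.land (Nat.shiftRight (Nat.shiftRight m (Nat.land (Nat.shiftRight m (Nat.land (Nat.shiftRight (Nat.shiftRight m (Nat.land (Nat.shiftRight m (Nat.land (Nat.shiftRight (Nat.shiftRight m (Nat.land (Nat.shiftRight m (Nat.land (Nat.shiftRight (Nat.shiftRight m (Nat.land (Nat.shiftRight m (Nat.land (Nat.shiftRight (Nat.shiftRight m (Nat.land (Nat.shiftRight m (Nat.land (Nat.shiftRight (Nat.shiftRight m (Nat.land (Nat.shiftRight c (nat_lit 9)) (nat_lit 65408))) (nat_lit 34)) (nat_lit 0x1ffff))) (nat_lit 0x1ffff))) (nat_lit 34)) (nat_lit 0x1ffff))) (nat_lit 0x1ffff))) (nat_lit 34)) (nat_lit 0x1ffff))) (nat_lit 0x1ffff))) (nat_lit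 34)) (nat_lit 0x1ffff))) (nat_lit 0x1ffff))) (nat_lit 34)) (nat_lit 0x1ffff))) (nat_lit 0x1ffff))) (nat_lit 60)) (nat_lit 1008))) (Nat.add (Nat.shiftRight VT (Nat.land (Nat.shiftRight (Nat.shiftRight m (Nat.land (Nat.shiftRight m (Nat.land (Nat.shiftRight (Nat.shiftRight m (Nat.land (Nat.shiftRight m (Nat.land (Nat.shiftRight (Nat.shiftRight m (Nat.land (Nat.shiftRight m (Nat.land (Nat.shiftRight (Nat.shiftRight m (Nat.land (Nat.shiftRight m (Nat.land (Nat.shiftRight (Nat.shiftRight m (Nat.land (Nat.shiftRight m (Nat.land (Nat.shiftRight (Nat.shiftRight m (Nat.land (Nat.shiftRight m (Nat.land (Nat.shiftRight (Nat.shiftRight m (Nat.land (Nat.shiftRight c (nat_lit 9)) (nat_lit 65408))) (nat_lit 34)) (nat_lit 0x1ffff))) (nat_lit 0x1ffff))) (nat_lit 34)) (nat_lit 0x1ffff))) (nat_lit 0x1ffff))) (nat_lit 34)) (nat_lit 0x1ffff))) (nat_lit 0x1ffff))) (nat_lit 34)) (nat_lit 0x1ffff))) (nat_lit 0x1ffff)))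 (nat_lit 34)) (nat_lit 0x1ffff))) (nat_lit 0x1ffff))) (nat_lit 34)) (nat_lit 0x1ffff))) (nat_lit 0x1ffff))) (nat_lit 60)) (nat_lit 1008))) (Nat.add (Nat.shiftRight VT (Nat.land (Nat.shiftRight (Nat.shiftRight m (Nat.land (Nat.shiftRight m (Nat.land (Nat.shiftRight (Nat.shiftRight m (Nat.land (Nat.shiftRight m (Nat.land (Nat.shiftRight (Nat.shiftRight m (Nat.land (Nat.shiftRight m (Nat.land (Nat.shiftRight (Nat.shiftRight m (Nat.land (Nat.shiftRight m (Nat.land (Nat.shiftRight (Nat.shiftRight m (Nat.land (Nat.shiftRight m (Nat.land (Nat.shiftRight (Nat.shiftRight m (Nat.land (Nat.shiftRight m (Nat.land (Nat.shiftRight (Nat.shiftRight m (Nat.land (Nat.shiftRight m (Nat.land (Nat.shiftRight (Nat.shiftRight m (Nat.land (Nat.shiftRight c (nat_lit 9)) (nat_lit 65408))) (nat_lit 34)) (nat_lit 0x1ffff))) (nat_lit 0x1ffff))) (nat_lit 34)) (nat_lit 0x1ffff))) (nat_lit 0x1ffff))) (nat_lit 34)) (nat_lit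 0x1ffff))) (nat_lit 0x1ffff))) (nat_lit 34)) (nat_lit 0x1ffff))) (nat_lit 0x1ffff))) (nat_lit 34)) (nat_lit 0x1ffff))) (nat_lit 0x1ffff))) (nat_lit 34)) (nat_lit 0x1ffff))) (nat_lit 0x1ffff))) (nat_lit 34)) (nat_lit 0x1ffff))) (nat_lit 0x1ffff))) (nat_lit 60)) (nat_lit 1008))) (Nat.shiftRight VT (Nat.land (Nat.shiftRight (Nat.shiftRight m (Nat.land (Nat.shiftRight m (Nat.land (Nat.shiftRight (Nat.shiftRight m (Nat.land (Nat.shiftRight m (Nat.land (Nat.shiftRight (Nat.shiftRight m (Nat.land (Nat.shiftRight m (Nat.land (Nat.shiftRight (Nat.shiftRight m (Nat.land (Nat.shiftRight m (Nat.land (Nat.shiftRight (Nat.shiftRight m (Nat.land (Nat.shiftRight m (Nat.land (Nat.shiftRight (Nat.shiftRight m (Nat.land (Nat.shiftRight m (Nat.land (Nat.shiftRight (Nat.shiftRight m (Nat.land (Nat.shiftRight m (Nat.land (Nat.shiftRight (Nat.shiftRight m (Nat.land (Nat.shiftRight m (Nat.land (Nat.shiftRight (Nat.shiftRight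 m (Nat.land (Nat.shiftRight c (nat_lit 9)) (nat_lit 65408))) (nat_lit 34)) (nat_lit 0x1ffff))) (nat_lit 0x1ffff))) (nat_lit 34)) (nat_lit 0x1ffff))) (nat_lit 0x1ffff))) (nat_lit 34)) (nat_lit 0x1ffff))) (nat_lit 0x1ffff))) (nat_lit 34)) (nat_lit 0x1ffff))) (nat_lit 0x1ffff))) (nat_lit 34)) (nat_lit 0x1ffff))) (nat_lit 0x1ffff))) (nat_lit 34)) (nat_lit 0x1ffff))) (nat_lit 0x1ffff))) (nat_lit 34)) (nat_lit 0x1ffff))) (nat_lit 0x1ffff))) (nat_lit 34)) (nat_lit 0x1ffff))) (nat_lit 0x1ffff))) (nat_lit 60)) (nat_lit 1008))))))))))) (nat_lit 4)) (nat_lit 240)))) (nat_lit 65535)) (nat_lit 70)))) nd e (Nat.shiftRight c (nat_lit 25)))⟩ (fun _ _ => ⟨fun ih lim m nd e c => (ih.1 lim (Nat.lor m (Nat.mul ((mskF k).1 m (Nat.land (Nat.shiftRight c (nat_lit 9)) (nat_lit 65408))) (Nat.shiftLeft (Nat.lor (Nat.land (Nat.lor (Nat.shiftRight (nat_lit 0x1700170017001700170017001700170017001700170017001700060004000000)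 (Nat.land (Nat.add (Nat.shiftRight VT (Nat.land (Nat.shiftRight (Nat.shiftRight m (Nat.land (Nat.shiftRight c (nat_lit 9)) (nat_lit 65408))) (nat_lit 60)) (nat_lit 1008))) (Nat.add (Nat.shiftRight VT (Nat.land (Nat.shiftRight (Nat.shiftRight m (Nat.land (Nat.shiftRight m (Nat.land (Nat.shiftRight (Nat.shiftRight m (Nat.land (Nat.shiftRight c (nat_lit 9)) (nat_lit 65408))) (nat_lit 34)) (nat_lit 0x1ffff))) (nat_lit 0x1ffff))) (nat_lit 60)) (nat_lit 1008))) (Nat.add (Nat.shiftRight VT (Nat.land (Nat.shiftRight (Nat.shiftRight m (Nat.land (Nat.shiftRight m (Nat.land (Nat.shiftRight (Nat.shiftRight m (Nat.land (Nat.shiftRight m (Nat.land (Nat.shiftRight (Nat.shiftRight m (Nat.land (Nat.shiftRight c (nat_lit 9)) (nat_lit 65408))) (nat_lit 34)) (nat_lit 0x1ffff))) (nat_lit 0x1ffff))) (nat_lit 34)) (nat_lit 0x1ffff))) (nat_lit 0x1ffff))) (nat_lit 60)) (nat_lit 1008))) (Nat.add (Nat.shiftRight VT (Nat.land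 (Nat.shiftRight (Nat.shiftRight m (Nat.land (Nat.shiftRight m (Nat.land (Nat.shiftRight (Nat.shiftRight m (Nat.land (Nat.shiftRight m (Nat.land (Nat.shiftRight (Nat.shiftRight m (Nat.land (Nat.shiftRight m (Nat.land (Nat.shiftRight (Nat.shiftRight m (Nat.land (Nat.shiftRight c (nat_lit 9)) (nat_lit 65408))) (nat_lit 34)) (nat_lit 0x1ffff))) (nat_lit 0x1ffff))) (nat_lit 34)) (nat_lit 0x1ffff))) (nat_lit 0x1ffff))) (nat_lit 34)) (nat_lit 0x1ffff))) (nat_lit 0x1ffff))) (nat_lit 60)) (nat_lit 1008))) (Nat.add (Nat.shiftRight VT (Nat.land (Nat.shiftRight (Nat.shiftRight m (Nat.land (Nat.shiftRight m (Nat.land (Nat.shiftRight (Nat.shiftRight m (Nat.land (Nat.shiftRight m (Nat.land (Nat.shiftRight (Nat.shiftRight m (Nat.land (Nat.shiftRight m (Nat.land (Nat.shiftRight (Nat.shiftRight m (Nat.land (Nat.shiftRight m (Nat.land (Nat.shiftRight (Nat.shiftRight m (Nat.land (Nat.shiftRight c (nat_lit 9)) (nat_lit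 65408))) (nat_lit 34)) (nat_lit 0x1ffff))) (nat_lit 0x1ffff))) (nat_lit 34)) (nat_lit 0x1ffff))) (nat_lit 0x1ffff))) (nat_lit 34)) (nat_lit 0x1ffff))) (nat_lit 0x1ffff))) (nat_lit 34)) (nat_lit 0x1ffff))) (nat_lit 0x1ffff))) (nat_lit 60)) (nat_lit 1008))) (Nat.add (Nat.shiftRight VT (Nat.land (Nat.shiftRight (Nat.shiftRight m (Nat.land (Nat.shiftRight m (Nat.land (Nat.shiftRight (Nat.shiftRight m (Nat.land (Nat.shiftRight m (Nat.land (Nat.shiftRight (Nat.shiftRight m (Nat.land (Nat.shiftRight m (Nat.land (Nat.shiftRight (Nat.shiftRight m (Nat.land (Nat.shiftRight m (Nat.land (Nat.shiftRight (Nat.shiftRight m (Nat.land (Nat.shiftRight m (Nat.land (Nat.shiftRight (Nat.shiftRight m (Nat.land (Nat.shiftRight c (nat_lit 9)) (nat_lit 65408))) (nat_lit 34)) (nat_lit 0x1ffff))) (nat_lit 0x1ffff))) (nat_lit 34)) (nat_lit 0x1ffff))) (nat_lit 0x1ffff))) (nat_lit 34)) (nat_lit 0x1ffff))) (nat_lit 0x1ffff)))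 (nat_lit 34)) (nat_lit 0x1ffff))) (nat_lit 0x1ffff))) (nat_lit 34)) (nat_lit 0x1ffff))) (nat_lit 0x1ffff))) (nat_lit 60)) (nat_lit 1008))) (Nat.add (Nat.shiftRight VT (Nat.land (Nat.shiftRight (Nat.shiftRight m (Nat.land (Nat.shiftRight m (Nat.land (Nat.shiftRight (Nat.shiftRight m (Nat.land (Nat.shiftRight m (Nat.land (Nat.shiftRight (Nat.shiftRight m (Nat.land (Nat.shiftRight m (Nat.land (Nat.shiftRight (Nat.shiftRight m (Nat.land (Nat.shiftRight m (Nat.land (Nat.shiftRight (Nat.shiftRight m (Nat.land (Nat.shiftRight m (Nat.land (Nat.shiftRight (Nat.shiftRight m (Nat.land (Nat.shiftRight m (Nat.land (Nat.shiftRight (Nat.shiftRight m (Nat.land (Nat.shiftRight c (nat_lit 9)) (nat_lit 65408))) (nat_lit 34)) (nat_lit 0x1ffff))) (nat_lit 0x1ffff))) (nat_lit 34)) (nat_lit 0x1ffff))) (nat_lit 0x1ffff))) (nat_lit 34)) (nat_lit 0x1ffff))) (nat_lit 0x1ffff))) (nat_lit 34)) (nat_lit 0x1ffff))) (nat_lit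 0x1ffff))) (nat_lit 34)) (nat_lit 0x1ffff))) (nat_lit 0x1ffff))) (nat_lit 34)) (nat_lit 0x1ffff))) (nat_lit 0x1ffff))) (nat_lit 60)) (nat_lit 1008))) (Nat.add (Nat.shiftRight VT (Nat.land (Nat.shiftRight (Nat.shiftRight m (Nat.land (Nat.shiftRight m (Nat.land (Nat.shiftRight (Nat.shiftRight m (Nat.land (Nat.shiftRight m (Nat.land (Nat.shiftRight (Nat.shiftRight m (Nat.land (Nat.shiftRight m (Nat.land (Nat.shiftRight (Nat.shiftRight m (Nat.land (Nat.shiftRight m (Nat.land (Nat.shiftRight (Nat.shiftRight m (Nat.land (Nat.shiftRight m (Nat.land (Nat.shiftRight (Nat.shiftRight m (Nat.land (Nat.shiftRight m (Nat.land (Nat.shiftRight (Nat.shiftRight m (Nat.land (Nat.shiftRight m (Nat.land (Nat.shiftRight (Nat.shiftRight m (Nat.land (Nat.shiftRight c (nat_lit 9)) (nat_lit 65408))) (nat_lit 34)) (nat_lit 0x1ffff))) (nat_lit 0x1ffff))) (nat_lit 34)) (nat_lit 0x1ffff))) (nat_lit 0x1ffff))) (nat_lit 34))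 (nat_lit 0x1ffff))) (nat_lit 0x1ffff))) (nat_lit 34)) (nat_lit 0x1ffff))) (nat_lit 0x1ffff))) (nat_lit 34)) (nat_lit 0x1ffff))) (nat_lit 0x1ffff))) (nat_lit 34)) (nat_lit 0x1ffff))) (nat_lit 0x1ffff))) (nat_lit 34)) (nat_lit 0x1ffff))) (nat_lit 0x1ffff))) (nat_lit 60)) (nat_lit 1008))) (Nat.shiftRight VT (Nat.land (Nat.shiftRight (Nat.shiftRight m (Nat.land (Nat.shiftRight m (Nat.land (Nat.shiftRight (Nat.shiftRight m (Nat.land (Nat.shiftRight m (Nat.land (Nat.shiftRight (Nat.shiftRight m (Nat.land (Nat.shiftRight m (Nat.land (Nat.shiftRight (Nat.shiftRight m (Nat.land (Nat.shiftRight m (Nat.land (Nat.shiftRight (Nat.shiftRight m (Nat.land (Nat.shiftRight m (Nat.land (Nat.shiftRight (Nat.shiftRight m (Nat.land (Nat.shiftRight m (Nat.land (Nat.shiftRight (Nat.shiftRight m (Nat.land (Nat.shiftRight m (Nat.land (Nat.shiftRight (Nat.shiftRight m (Nat.land (Nat.shiftRight m (Nat.land (Nat.shiftRight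 (Nat.shiftRight m (Nat.land (Nat.shiftRight c (nat_lit 9)) (nat_lit 65408))) (nat_lit 34)) (nat_lit 0x1ffff))) (nat_lit 0x1ffff))) (nat_lit 34)) (nat_lit 0x1ffff))) (nat_lit 0x1ffff))) (nat_lit 34)) (nat_lit 0x1ffff))) (nat_lit 0x1ffff))) (nat_lit 34)) (nat_lit 0x1ffff))) (nat_lit 0x1ffff))) (nat_lit 34)) (nat_lit 0x1ffff))) (nat_lit 0x1ffff))) (nat_lit 34)) (nat_lit 0x1ffff))) (nat_lit 0x1ffff))) (nat_lit 34)) (nat_lit 0x1ffff))) (nat_lit 0x1ffff))) (nat_lit 34)) (nat_lit 0x1ffff))) (nat_lit 0x1ffff))) (nat_lit 60)) (nat_lit 1008))))))))))) (nat_lit 240))) (Nat.shiftRight (nat_lit 0x8001800380) (Nat.land (Nat.shiftRight (Nat.add (Nat.shiftRight VT (Nat.land (Nat.shiftRight (Nat.shiftRight m (Nat.land (Nat.shiftRight c (nat_lit 9)) (nat_lit 65408))) (nat_lit 60)) (nat_lit 1008))) (Nat.add (Nat.shiftRight VT (Nat.land (Nat.shiftRight (Nat.shiftRight m (Nat.land (Nat.shiftRight m (Nat.land (Nat.shiftRight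 (Nat.shiftRight m (Nat.land (Nat.shiftRight c (nat_lit 9)) (nat_lit 65408))) (nat_lit 34)) (nat_lit 0x1ffff))) (nat_lit 0x1ffff))) (nat_lit 60)) (nat_lit 1008))) (Nat.add (Nat.shiftRight VT (Nat.land (Nat.shiftRight (Nat.shiftRight m (Nat.land (Nat.shiftRight m (Nat.land (Nat.shiftRight (Nat.shiftRight m (Nat.land (Nat.shiftRight m (Nat.land (Nat.shiftRight (Nat.shiftRight m (Nat.land (Nat.shiftRight c (nat_lit 9)) (nat_lit 65408))) (nat_lit 34)) (nat_lit 0x1ffff))) (nat_lit 0x1ffff))) (nat_lit 34)) (nat_lit 0x1ffff))) (nat_lit 0x1ffff))) (nat_lit 60)) (nat_lit 1008))) (Nat.add (Nat.shiftRight VT (Nat.land (Nat.shiftRight (Nat.shiftRight m (Nat.land (Nat.shiftRight m (Nat.land (Nat.shiftRight (Nat.shiftRight m (Nat.land (Nat.shiftRight m (Nat.land (Nat.shiftRight (Nat.shiftRight m (Nat.land (Nat.shiftRight m (Nat.land (Nat.shiftRight (Nat.shiftRight m (Nat.land (Nat.shiftRight c (nat_lit 9))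 (nat_lit 65408))) (nat_lit 34)) (nat_lit 0x1ffff))) (nat_lit 0x1ffff))) (nat_lit 34)) (nat_lit 0x1ffff))) (nat_lit 0x1ffff))) (nat_lit 34)) (nat_lit 0x1ffff))) (nat_lit 0x1ffff))) (nat_lit 60)) (nat_lit 1008))) (Nat.add (Nat.shiftRight VT (Nat.land (Nat.shiftRight (Nat.shiftRight m (Nat.land (Nat.shiftRight m (Nat.land (Nat.shiftRight (Nat.shiftRight m (Nat.land (Nat.shiftRight m (Nat.land (Nat.shiftRight (Nat.shiftRight m (Nat.land (Nat.shiftRight m (Nat.land (Nat.shiftRight (Nat.shiftRight m (Nat.land (Nat.shiftRight m (Nat.land (Nat.shiftRight (Nat.shiftRight m (Nat.land (Nat.shiftRight c (nat_lit 9)) (nat_lit 65408))) (nat_lit 34)) (nat_lit 0x1ffff))) (nat_lit 0x1ffff))) (nat_lit 34)) (nat_lit 0x1ffff))) (nat_lit 0x1ffff))) (nat_lit 34)) (nat_lit 0x1ffff))) (nat_lit 0x1ffff))) (nat_lit 34)) (nat_lit 0x1ffff))) (nat_lit 0x1ffff))) (nat_lit 60)) (nat_lit 1008))) (Nat.add (Nat.shiftRight VT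 (Nat.land (Nat.shiftRight (Nat.shiftRight m (Nat.land (Nat.shiftRight m (Nat.land (Nat.shiftRight (Nat.shiftRight m (Nat.land (Nat.shiftRight m (Nat.land (Nat.shiftRight (Nat.shiftRight m (Nat.land (Nat.shiftRight m (Nat.land (Nat.shiftRight (Nat.shiftRight m (Nat.land (Nat.shiftRight m (Nat.land (Nat.shiftRight (Nat.shiftRight m (Nat.land (Nat.shiftRight m (Nat.land (Nat.shiftRight (Nat.shiftRight m (Nat.land (Nat.shiftRight c (nat_lit 9)) (nat_lit 65408))) (nat_lit 34)) (nat_lit 0x1ffff))) (nat_lit 0x1ffff))) (nat_lit 34)) (nat_lit 0x1ffff))) (nat_lit 0x1ffff))) (nat_lit 34)) (nat_lit 0x1ffff))) (nat_lit 0x1ffff))) (nat_lit 34)) (nat_lit 0x1ffff))) (nat_lit 0x1ffff))) (nat_lit 34)) (nat_lit 0x1ffff))) (nat_lit 0x1ffff))) (nat_lit 60)) (nat_lit 1008))) (Nat.add (Nat.shiftRight VT (Nat.land (Nat.shiftRight (Nat.shiftRight m (Nat.land (Nat.shiftRight m (Nat.land (Nat.shiftRight (Nat.shiftRight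 m (Nat.land (Nat.shiftRight m (Nat.land (Nat.shiftRight (Nat.shiftRight m (Nat.land (Nat.shiftRight m (Nat.land (Nat.shiftRight (Nat.shiftRight m (Nat.land (Nat.shiftRight m (Nat.land (Nat.shiftRight (Nat.shiftRight m (Nat.land (Nat.shiftRight m (Nat.land (Nat.shiftRight (Nat.shiftRight m (Nat.land (Nat.shiftRight m (Nat.land (Nat.shiftRight (Nat.shiftRight m (Nat.land (Nat.shiftRight c (nat_lit 9)) (nat_lit 65408))) (nat_lit 34)) (nat_lit 0x1ffff))) (nat_lit 0x1ffff))) (nat_lit 34)) (nat_lit 0x1ffff))) (nat_lit 0x1ffff))) (nat_lit 34)) (nat_lit 0x1ffff))) (nat_lit 0x1ffff))) (nat_lit 34)) (nat_lit 0x1ffff))) (nat_lit 0x1ffff))) (nat_lit 34)) (nat_lit 0x1ffff))) (nat_lit 0x1ffff))) (nat_lit 34)) (nat_lit 0x1ffff))) (nat_lit 0x1ffff))) (nat_lit 60)) (nat_lit 1008))) (Nat.add (Nat.shiftRight VT (Nat.land (Nat.shiftRight (Nat.shiftRight m (Nat.land (Nat.shiftRight m (Nat.land (Nat.shiftRight (Nat.shiftRight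 m (Nat.land (Nat.shiftRight m (Nat.land (Nat.shiftRight (Nat.shiftRight m (Nat.land (Nat.shiftRight m (Nat.land (Nat.shiftRight (Nat.shiftRight m (Nat.land (Nat.shiftRight m (Nat.land (Nat.shiftRight (Nat.shiftRight m (Nat.land (Nat.shiftRight m (Nat.land (Nat.shiftRight (Nat.shiftRight m (Nat.land (Nat.shiftRight m (Nat.land (Nat.shiftRight (Nat.shiftRight m (Nat.land (Nat.shiftRight m (Nat.land (Nat.shiftRight (Nat.shiftRight m (Nat.land (Nat.shiftRight c (nat_lit 9)) (nat_lit 65408))) (nat_lit 34)) (nat_lit 0x1ffff))) (nat_lit 0x1ffff))) (nat_lit 34)) (nat_lit 0x1ffff))) (nat_lit 0x1ffff))) (nat_lit 34)) (nat_lit 0x1ffff))) (nat_lit 0x1ffff))) (nat_lit 34)) (nat_lit 0x1ffff))) (nat_lit 0x1ffff))) (nat_lit 34)) (nat_lit 0x1ffff))) (nat_lit 0x1ffff))) (nat_lit 34)) (nat_lit 0x1ffff))) (nat_lit 0x1ffff))) (nat_lit 34)) (nat_lit 0x1ffff))) (nat_lit 0x1ffff))) (nat_lit 60)) (nat_lit 1008))) (Nat.shiftRight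 VT (Nat.land (Nat.shiftRight (Nat.shiftRight m (Nat.land (Nat.shiftRight m (Nat.land (Nat.shiftRight (Nat.shiftRight m (Nat.land (Nat.shiftRight m (Nat.land (Nat.shiftRight (Nat.shiftRight m (Nat.land (Nat.shiftRight m (Nat.land (Nat.shiftRight (Nat.shiftRight m (Nat.land (Nat.shiftRight m (Nat.land (Nat.shiftRight (Nat.shiftRight m (Nat.land (Nat.shiftRight m (Nat.land (Nat.shiftRight (Nat.shiftRight m (Nat.land (Nat.shiftRight m (Nat.land (Nat.shiftRight (Nat.shiftRight m (Nat.land (Nat.shiftRight m (Nat.land (Nat.shiftRight (Nat.shiftRight m (Nat.land (Nat.shiftRight m (Nat.land (Nat.shiftRight (Nat.shiftRight m (Nat.land (Nat.shiftRight c (nat_lit 9)) (nat_lit 65408))) (nat_lit 34)) (nat_lit 0x1ffff))) (nat_lit 0x1ffff))) (nat_lit 34)) (nat_lit 0x1ffff))) (nat_lit 0x1ffff))) (nat_lit 34)) (nat_lit 0x1ffff))) (nat_lit 0x1ffff))) (nat_lit 34)) (nat_lit 0x1ffff))) (nat_lit 0x1ffff))) (nat_lit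 34)) (nat_lit 0x1ffff))) (nat_lit 0x1ffff))) (nat_lit 34)) (nat_lit 0x1ffff))) (nat_lit 0x1ffff))) (nat_lit 34)) (nat_lit 0x1ffff))) (nat_lit 0x1ffff))) (nat_lit 34)) (nat_lit 0x1ffff))) (nat_lit 0x1ffff))) (nat_lit 60)) (nat_lit 1008))))))))))) (nat_lit 4)) (nat_lit 240)))) (nat_lit 65535)) (nat_lit 0x3af87f)) (nat_lit 70)))) (Nat.add nd (Nat.shiftLeft (Nat.xor (Nat.land (Nat.shiftRight m (Nat.land (Nat.shiftRight (Nat.shiftRight m (Nat.land (Nat.shiftRight m (Nat.land (Nat.shiftRight (Nat.shiftRight m (Nat.land (Nat.shiftRight m (Nat.land (Nat.shiftRight (Nat.shiftRight m (Nat.land (Nat.shiftRight m (Nat.land (Nat.shiftRight (Nat.shiftRight m (Nat.land (Nat.shiftRight m (Nat.land (Nat.shiftRight (Nat.shiftRight m (Nat.land (Nat.shiftRight m (Nat.land (Nat.shiftRight (Nat.shiftRight m (Nat.land (Nat.shiftRight m (Nat.land (Nat.shiftRight (Nat.shiftRight m (Nat.land (Nat.shiftRight m (Nat.land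 (Nat.shiftRight (Nat.shiftRight m (Nat.land (Nat.shiftRight m (Nat.land (Nat.shiftRight (Nat.shiftRight m (Nat.land (Nat.shiftRight c (nat_lit 9)) (nat_lit 65408))) (nat_lit 34)) (nat_lit 0x1ffff))) (nat_lit 0x1ffff))) (nat_lit 34)) (nat_lit 0x1ffff))) (nat_lit 0x1ffff))) (nat_lit 34)) (nat_lit 0x1ffff))) (nat_lit 0x1ffff))) (nat_lit 34)) (nat_lit 0x1ffff))) (nat_lit 0x1ffff))) (nat_lit 34)) (nat_lit 0x1ffff))) (nat_lit 0x1ffff))) (nat_lit 34)) (nat_lit 0x1ffff))) (nat_lit 0x1ffff))) (nat_lit 34)) (nat_lit 0x1ffff))) (nat_lit 0x1ffff))) (nat_lit 34)) (nat_lit 0x1ffff))) (nat_lit 0x1ffff))) (nat_lit 34)) (nat_lit 0x1ffff))) (nat_lit 0x1ffff)) (Nat.land (Nat.shiftRight c (nat_lit 9)) (nat_lit 65408))) (nat_lit 16))) e (Nat.shiftRight c (nat_lit 25)))⟩) (Nat.shiftRight k (nat_lit 15)))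

def oRel10 (k : ℕ) : Op :=
  (@Nat.rec (fun _ => Op) ⟨fun ih lim m nd e c => (ih.1 lim (Nat.lor m (Nat.mul ((mskF k).1 m (Nat.land (Nat.shiftRight c (nat_lit 9)) (nat_lit 65408))) (Nat.shiftLeft (Nat.land (Nat.lor (Nat.shiftRight (nat_lit 0x1000100010001000100010001000100010001000100010001000000000000000) (Nat.land (Nat.add (Nat.shiftRight VT (Nat.land (Nat.shiftRight (Nat.shiftRight m (Nat.land (Nat.shiftRight c (nat_lit 9)) (nat_lit 65408))) (nat_lit 60)) (nat_lit 1008))) (Nat.add (Nat.shiftRight VT (Nat.land (Nat.shiftRight (Nat.shiftRight m (Nat.land (Nat.shiftRight m (Nat.land (Nat.shiftRight (Nat.shiftRight m (Nat.land (Nat.shiftRight c (nat_lit 9)) (nat_lit 65408))) (nat_lit 34)) (nat_lit 0x1ffff))) (nat_lit 0x1ffff))) (nat_lit 60)) (nat_lit 1008))) (Nat.add (Nat.shiftRight VT (Nat.land (Nat.shiftRight (Nat.shiftRight m (Nat.land (Nat.shiftRight m (Nat.land (Nat.shiftRight (Nat.shiftRight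 m (Nat.land (Nat.shiftRight m (Nat.land (Nat.shiftRight (Nat.shiftRight m (Nat.land (Nat.shiftRight c (nat_lit 9)) (nat_lit 65408))) (nat_lit 34)) (nat_lit 0x1ffff))) (nat_lit 0x1ffff))) (nat_lit 34)) (nat_lit 0x1ffff))) (nat_lit 0x1ffff))) (nat_lit 60)) (nat_lit 1008))) (Nat.add (Nat.shiftRight VT (Nat.land (Nat.shiftRight (Nat.shiftRight m (Nat.land (Nat.shiftRight m (Nat.land (Nat.shiftRight (Nat.shiftRight m (Nat.land (Nat.shiftRight m (Nat.land (Nat.shiftRight (Nat.shiftRight m (Nat.land (Nat.shiftRight m (Nat.land (Nat.shiftRight (Nat.shiftRight m (Nat.land (Nat.shiftRight c (nat_lit 9)) (nat_lit 65408))) (nat_lit 34)) (nat_lit 0x1ffff))) (nat_lit 0x1ffff))) (nat_lit 34)) (nat_lit 0x1ffff))) (nat_lit 0x1ffff))) (nat_lit 34)) (nat_lit 0x1ffff))) (nat_lit 0x1ffff))) (nat_lit 60)) (nat_lit 1008))) (Nat.add (Nat.shiftRight VT (Nat.land (Nat.shiftRight (Nat.shiftRight m (Nat.land (Nat.shiftRight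 m (Nat.land (Nat.shiftRight (Nat.shiftRight m (Nat.land (Nat.shiftRight m (Nat.land (Nat.shiftRight (Nat.shiftRight m (Nat.land (Nat.shiftRight m (Nat.land (Nat.shiftRight (Nat.shiftRight m (Nat.land (Nat.shiftRight m (Nat.land (Nat.shiftRight (Nat.shiftRight m (Nat.land (Nat.shiftRight c (nat_lit 9)) (nat_lit 65408))) (nat_lit 34)) (nat_lit 0x1ffff))) (nat_lit 0x1ffff))) (nat_lit 34)) (nat_lit 0x1ffff))) (nat_lit 0x1ffff))) (nat_lit 34)) (nat_lit 0x1ffff))) (nat_lit 0x1ffff))) (nat_lit 34)) (nat_lit 0x1ffff))) (nat_lit 0x1ffff))) (nat_lit 60)) (nat_lit 1008))) (Nat.add (Nat.shiftRight VT (Nat.land (Nat.shiftRight (Nat.shiftRight m (Nat.land (Nat.shiftRight m (Nat.land (Nat.shiftRight (Nat.shiftRight m (Nat.land (Nat.shiftRight m (Nat.land (Nat.shiftRight (Nat.shiftRight m (Nat.land (Nat.shiftRight m (Nat.land (Nat.shiftRight (Nat.shiftRight m (Nat.land (Nat.shiftRight m (Nat.land (Nat.shiftRight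 (Nat.shiftRight m (Nat.land (Nat.shiftRight m (Nat.land (Nat.shiftRight (Nat.shiftRight m (Nat.land (Nat.shiftRight c (nat_lit 9)) (nat_lit 65408))) (nat_lit 34)) (nat_lit 0x1ffff))) (nat_lit 0x1ffff))) (nat_lit 34)) (nat_lit 0x1ffff))) (nat_lit 0x1ffff))) (nat_lit 34)) (nat_lit 0x1ffff))) (nat_lit 0x1ffff))) (nat_lit 34)) (nat_lit 0x1ffff))) (nat_lit 0x1ffff))) (nat_lit 34)) (nat_lit 0x1ffff))) (nat_lit 0x1ffff))) (nat_lit 60)) (nat_lit 1008))) (Nat.add (Nat.shiftRight VT (Nat.land (Nat.shiftRight (Nat.shiftRight m (Nat.land (Nat.shiftRight m (Nat.land (Nat.shiftRight (Nat.shiftRight m (Nat.land (Nat.shiftRight m (Nat.land (Nat.shiftRight (Nat.shiftRight m (Nat.land (Nat.shiftRight m (Nat.land (Nat.shiftRight (Nat.shiftRight m (Nat.land (Nat.shiftRight m (Nat.land (Nat.shiftRight (Nat.shiftRight m (Nat.land (Nat.shiftRight m (Nat.land (Nat.shiftRight (Nat.shiftRight m (Nat.land (Nat.shiftRight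 m (Nat.land (Nat.shiftRight (Nat.shiftRight m (Nat.land (Nat.shiftRight c (nat_lit 9)) (nat_lit 65408))) (nat_lit 34)) (nat_lit 0x1ffff))) (nat_lit 0x1ffff))) (nat_lit 34)) (nat_lit 0x1ffff))) (nat_lit 0x1ffff))) (nat_lit 34)) (nat_lit 0x1ffff))) (nat_lit 0x1ffff))) (nat_lit 34)) (nat_lit 0x1ffff))) (nat_lit 0x1ffff))) (nat_lit 34)) (nat_lit 0x1ffff))) (nat_lit 0x1ffff))) (nat_lit 34)) (nat_lit 0x1ffff))) (nat_lit 0x1ffff))) (nat_lit 60)) (nat_lit 1008))) (Nat.add (Nat.shiftRight VT (Nat.land (Nat.shiftRight (Nat.shiftRight m (Nat.land (Nat.shiftRight m (Nat.land (Nat.shiftRight (Nat.shiftRight m (Nat.land (Nat.shiftRight m (Nat.land (Nat.shiftRight (Nat.shiftRight m (Nat.land (Nat.shiftRight m (Nat.land (Nat.shiftRight (Nat.shiftRight m (Nat.land (Nat.shiftRight m (Nat.land (Nat.shiftRight (Nat.shiftRight m (Nat.land (Nat.shiftRight m (Nat.land (Nat.shiftRight (Nat.shiftRight m (Nat.land (Nat.shiftRight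 m (Nat.land (Nat.shiftRight (Nat.shiftRight m (Nat.land (Nat.shiftRight m (Nat.land (Nat.shiftRight (Nat.shiftRight m (Nat.land (Nat.shiftRight c (nat_lit 9)) (nat_lit 65408))) (nat_lit 34)) (nat_lit 0x1ffff))) (nat_lit 0x1ffff))) (nat_lit 34)) (nat_lit 0x1ffff))) (nat_lit 0x1ffff))) (nat_lit 34)) (nat_lit 0x1ffff))) (nat_lit 0x1ffff))) (nat_lit 34)) (nat_lit 0x1ffff))) (nat_lit 0x1ffff))) (nat_lit 34)) (nat_lit 0x1ffff))) (nat_lit 0x1ffff))) (nat_lit 34)) (nat_lit 0x1ffff))) (nat_lit 0x1ffff))) (nat_lit 34)) (nat_lit 0x1ffff))) (nat_lit 0x1ffff))) (nat_lit 60)) (nat_lit 1008))) (Nat.add (Nat.shiftRight VT (Nat.land (Nat.shiftRight (Nat.shiftRight m (Nat.land (Nat.shiftRight m (Nat.land (Nat.shiftRight (Nat.shiftRight m (Nat.land (Nat.shiftRight m (Nat.land (Nat.shiftRight (Nat.shiftRight m (Nat.land (Nat.shiftRight m (Nat.land (Nat.shiftRight (Nat.shiftRight m (Nat.land (Nat.shiftRight m (Nat.land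 (Nat.shiftRight (Nat.shiftRight m (Nat.land (Nat.shiftRight m (Nat.land (Nat.shiftRight (Nat.shiftRight m (Nat.land (Nat.shiftRight m (Nat.land (Nat.shiftRight (Nat.shiftRight m (Nat.land (Nat.shiftRight m (Nat.land (Nat.shiftRight (Nat.shiftRight m (Nat.land (Nat.shiftRight m (Nat.land (Nat.shiftRight (Nat.shiftRight m (Nat.land (Nat.shiftRight c (nat_lit 9)) (nat_lit 65408))) (nat_lit 34)) (nat_lit 0x1ffff))) (nat_lit 0x1ffff))) (nat_lit 34)) (nat_lit 0x1ffff))) (nat_lit 0x1ffff))) (nat_lit 34)) (nat_lit 0x1ffff))) (nat_lit 0x1ffff))) (nat_lit 34)) (nat_lit 0x1ffff))) (nat_lit 0x1ffff))) (nat_lit 34)) (nat_lit 0x1ffff))) (nat_lit 0x1ffff))) (nat_lit 34)) (nat_lit 0x1ffff))) (nat_lit 0x1ffff))) (nat_lit 34)) (nat_lit 0x1ffff))) (nat_lit 0x1ffff))) (nat_lit 34)) (nat_lit 0x1ffff))) (nat_lit 0x1ffff))) (nat_lit 60)) (nat_lit 1008))) (Nat.shiftRight VT (Nat.land (Nat.shiftRight (Nat.shiftRight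 m (Nat.land (Nat.shiftRight m (Nat.land (Nat.shiftRight (Nat.shiftRight m (Nat.land (Nat.shiftRight m (Nat.land (Nat.shiftRight (Nat.shiftRight m (Nat.land (Nat.shiftRight m (Nat.land (Nat.shiftRight (Nat.shiftRight m (Nat.land (Nat.shiftRight m (Nat.land (Nat.shiftRight (Nat.shiftRight m (Nat.land (Nat.shiftRight m (Nat.land (Nat.shiftRight (Nat.shiftRight m (Nat.land (Nat.shiftRight m (Nat.land (Nat.shiftRight (Nat.shiftRight m (Nat.land (Nat.shiftRight m (Nat.land (Nat.shiftRight (Nat.shiftRight m (Nat.land (Nat.shiftRight m (Nat.land (Nat.shiftRight (Nat.shiftRight m (Nat.land (Nat.shiftRight m (Nat.land (Nat.shiftRight (Nat.shiftRight m (Nat.land (Nat.shiftRight c (nat_lit 9)) (nat_lit 65408))) (nat_lit 34)) (nat_lit 0x1ffff))) (nat_lit 0x1ffff))) (nat_lit 34)) (nat_lit 0x1ffff))) (nat_lit 0x1ffff))) (nat_lit 34)) (nat_lit 0x1ffff))) (nat_lit 0x1ffff))) (nat_lit 34)) (nat_lit 0x1ffff)))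 (nat_lit 0x1ffff))) (nat_lit 34)) (nat_lit 0x1ffff))) (nat_lit 0x1ffff))) (nat_lit 34)) (nat_lit 0x1ffff))) (nat_lit 0x1ffff))) (nat_lit 34)) (nat_lit 0x1ffff))) (nat_lit 0x1ffff))) (nat_lit 34)) (nat_lit 0x1ffff))) (nat_lit 0x1ffff))) (nat_lit 34)) (nat_lit 0x1ffff))) (nat_lit 0x1ffff))) (nat_lit 60)) (nat_lit 1008)))))))))))) (nat_lit 240))) (Nat.shiftRight (nat_lit 0x80008000800) (Nat.land (Nat.shiftRight (Nat.add (Nat.shiftRight VT (Nat.land (Nat.shiftRight (Nat.shiftRight m (Nat.land (Nat.shiftRight c (nat_lit 9)) (nat_lit 65408))) (nat_lit 60)) (nat_lit 1008))) (Nat.add (Nat.shiftRight VT (Nat.land (Nat.shiftRight (Nat.shiftRight m (Nat.land (Nat.shiftRight m (Nat.land (Nat.shiftRight (Nat.shiftRight m (Nat.land (Nat.shiftRight c (nat_lit 9)) (nat_lit 65408))) (nat_lit 34)) (nat_lit 0x1ffff))) (nat_lit 0x1ffff))) (nat_lit 60)) (nat_lit 1008))) (Nat.add (Nat.shiftRight VT (Nat.land (Nat.shiftRight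 (Nat.shiftRight m (Nat.land (Nat.shiftRight m (Nat.land (Nat.shiftRight (Nat.shiftRight m (Nat.land (Nat.shiftRight m (Nat.land (Nat.shiftRight (Nat.shiftRight m (Nat.land (Nat.shiftRight c (nat_lit 9)) (nat_lit 65408))) (nat_lit 34)) (nat_lit 0x1ffff))) (nat_lit 0x1ffff))) (nat_lit 34)) (nat_lit 0x1ffff))) (nat_lit 0x1ffff))) (nat_lit 60)) (nat_lit 1008))) (Nat.add (Nat.shiftRight VT (Nat.land (Nat.shiftRight (Nat.shiftRight m (Nat.land (Nat.shiftRight m (Nat.land (Nat.shiftRight (Nat.shiftRight m (Nat.land (Nat.shiftRight m (Nat.land (Nat.shiftRight (Nat.shiftRight m (Nat.land (Nat.shiftRight m (Nat.land (Nat.shiftRight (Nat.shiftRight m (Nat.land (Nat.shiftRight c (nat_lit 9)) (nat_lit 65408))) (nat_lit 34)) (nat_lit 0x1ffff))) (nat_lit 0x1ffff))) (nat_lit 34)) (nat_lit 0x1ffff))) (nat_lit 0x1ffff))) (nat_lit 34)) (nat_lit 0x1ffff))) (nat_lit 0x1ffff))) (nat_lit 60)) (nat_lit 1008))) (Nat.add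 (Nat.shiftRight VT (Nat.land (Nat.shiftRight (Nat.shiftRight m (Nat.land (Nat.shiftRight m (Nat.land (Nat.shiftRight (Nat.shiftRight m (Nat.land (Nat.shiftRight m (Nat.land (Nat.shiftRight (Nat.shiftRight m (Nat.land (Nat.shiftRight m (Nat.land (Nat.shiftRight (Nat.shiftRight m (Nat.land (Nat.shiftRight m (Nat.land (Nat.shiftRight (Nat.shiftRight m (Nat.land (Nat.shiftRight c (nat_lit 9)) (nat_lit 65408))) (nat_lit 34)) (nat_lit 0x1ffff))) (nat_lit 0x1ffff))) (nat_lit 34)) (nat_lit 0x1ffff))) (nat_lit 0x1ffff))) (nat_lit 34)) (nat_lit 0x1ffff))) (nat_lit 0x1ffff))) (nat_lit 34)) (nat_lit 0x1ffff))) (nat_lit 0x1ffff))) (nat_lit 60)) (nat_lit 1008))) (Nat.add (Nat.shiftRight VT (Nat.land (Nat.shiftRight (Nat.shiftRight m (Nat.land (Nat.shiftRight m (Nat.land (Nat.shiftRight (Nat.shiftRight m (Nat.land (Nat.shiftRight m (Nat.land (Nat.shiftRight (Nat.shiftRight m (Nat.land (Nat.shiftRight m (Nat.land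 (Nat.shiftRight (Nat.shiftRight m (Nat.land (Nat.shiftRight m (Nat.land (Nat.shiftRight (Nat.shiftRight m (Nat.land (Nat.shiftRight m (Nat.land (Nat.shiftRight (Nat.shiftRight m (Nat.land (Nat.shiftRight c (nat_lit 9)) (nat_lit 65408))) (nat_lit 34)) (nat_lit 0x1ffff))) (nat_lit 0x1ffff))) (nat_lit 34)) (nat_lit 0x1ffff))) (nat_lit 0x1ffff))) (nat_lit 34)) (nat_lit 0x1ffff))) (nat_lit 0x1ffff))) (nat_lit 34)) (nat_lit 0x1ffff))) (nat_lit 0x1ffff))) (nat_lit 34)) (nat_lit 0x1ffff))) (nat_lit 0x1ffff))) (nat_lit 60)) (nat_lit 1008))) (Nat.add (Nat.shiftRight VT (Nat.land (Nat.shiftRight (Nat.shiftRight m (Nat.land (Nat.shiftRight m (Nat.land (Nat.shiftRight (Nat.shiftRight m (Nat.land (Nat.shiftRight m (Nat.land (Nat.shiftRight (Nat.shiftRight m (Nat.land (Nat.shiftRight m (Nat.land (Nat.shiftRight (Nat.shiftRight m (Nat.land (Nat.shiftRight m (Nat.land (Nat.shiftRight (Nat.shiftRight m (Nat.land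 (Nat.shiftRight m (Nat.land (Nat.shiftRight (Nat.shiftRight m (Nat.land (Nat.shiftRight m (Nat.land (Nat.shiftRight (Nat.shiftRight m (Nat.land (Nat.shiftRight c (nat_lit 9)) (nat_lit 65408))) (nat_lit 34)) (nat_lit 0x1ffff))) (nat_lit 0x1ffff))) (nat_lit 34)) (nat_lit 0x1ffff))) (nat_lit 0x1ffff))) (nat_lit 34)) (nat_lit 0x1ffff))) (nat_lit 0x1ffff))) (nat_lit 34)) (nat_lit 0x1ffff))) (nat_lit 0x1ffff))) (nat_lit 34)) (nat_lit 0x1ffff))) (nat_lit 0x1ffff))) (nat_lit 34)) (nat_lit 0x1ffff))) (nat_lit 0x1ffff))) (nat_lit 60)) (nat_lit 1008))) (Nat.add (Nat.shiftRight VT (Nat.land (Nat.shiftRight (Nat.shiftRight m (Nat.land (Nat.shiftRight m (Nat.land (Nat.shiftRight (Nat.shiftRight m (Nat.land (Nat.shiftRight m (Nat.land (Nat.shiftRight (Nat.shiftRight m (Nat.land (Nat.shiftRight m (Nat.land (Nat.shiftRight (Nat.shiftRight m (Nat.land (Nat.shiftRight m (Nat.land (Nat.shiftRight (Nat.shiftRight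 m (Nat.land (Nat.shiftRight m (Nat.land (Nat.shiftRight (Nat.shiftRight m (Nat.land (Nat.shiftRight m (Nat.land (Nat.shiftRight (Nat.shiftRight m (Nat.land (Nat.shiftRight m (Nat.land (Nat.shiftRight (Nat.shiftRight m (Nat.land (Nat.shiftRight c (nat_lit 9)) (nat_lit 65408))) (nat_lit 34)) (nat_lit 0x1ffff))) (nat_lit 0x1ffff))) (nat_lit 34)) (nat_lit 0x1ffff))) (nat_lit 0x1ffff))) (nat_lit 34)) (nat_lit 0x1ffff))) (nat_lit 0x1ffff))) (nat_lit 34)) (nat_lit 0x1ffff))) (nat_lit 0x1ffff))) (nat_lit 34)) (nat_lit 0x1ffff))) (nat_lit 0x1ffff))) (nat_lit 34)) (nat_lit 0x1ffff))) (nat_lit 0x1ffff))) (nat_lit 34)) (nat_lit 0x1ffff))) (nat_lit 0x1ffff))) (nat_lit 60)) (nat_lit 1008))) (Nat.add (Nat.shiftRight VT (Nat.land (Nat.shiftRight (Nat.shiftRight m (Nat.land (Nat.shiftRight m (Nat.land (Nat.shiftRight (Nat.shiftRight m (Nat.land (Nat.shiftRight m (Nat.land (Nat.shiftRight (Nat.shiftRight m (Nat.land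 (Nat.shiftRight m (Nat.land (Nat.shiftRight (Nat.shiftRight m (Nat.land (Nat.shiftRight m (Nat.land (Nat.shiftRight (Nat.shiftRight m (Nat.land (Nat.shiftRight m (Nat.land (Nat.shiftRight (Nat.shiftRight m (Nat.land (Nat.shiftRight m (Nat.land (Nat.shiftRight (Nat.shiftRight m (Nat.land (Nat.shiftRight m (Nat.land (Nat.shiftRight (Nat.shiftRight m (Nat.land (Nat.shiftRight m (Nat.land (Nat.shiftRight (Nat.shiftRight m (Nat.land (Nat.shiftRight c (nat_lit 9)) (nat_lit 65408))) (nat_lit 34)) (nat_lit 0x1ffff))) (nat_lit 0x1ffff))) (nat_lit 34)) (nat_lit 0x1ffff))) (nat_lit 0x1ffff))) (nat_lit 34)) (nat_lit 0x1ffff))) (nat_lit 0x1ffff))) (nat_lit 34)) (nat_lit 0x1ffff))) (nat_lit 0x1ffff))) (nat_lit 34)) (nat_lit 0x1ffff))) (nat_lit 0x1ffff))) (nat_lit 34)) (nat_lit 0x1ffff))) (nat_lit 0x1ffff))) (nat_lit 34)) (nat_lit 0x1ffff))) (nat_lit 0x1ffff))) (nat_lit 34)) (nat_lit 0x1ffff))) (nat_lit 0x1ffff)))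 (nat_lit 60)) (nat_lit 1008))) (Nat.shiftRight VT (Nat.land (Nat.shiftRight (Nat.shiftRight m (Nat.land (Nat.shiftRight m (Nat.land (Nat.shiftRight (Nat.shiftRight m (Nat.land (Nat.shiftRight m (Nat.land (Nat.shiftRight (Nat.shiftRight m (Nat.land (Nat.shiftRight m (Nat.land (Nat.shiftRight (Nat.shiftRight m (Nat.land (Nat.shiftRight m (Nat.land (Nat.shiftRight (Nat.shiftRight m (Nat.land (Nat.shiftRight m (Nat.land (Nat.shiftRight (Nat.shiftRight m (Nat.land (Nat.shiftRight m (Nat.land (Nat.shiftRight (Nat.shiftRight m (Nat.land (Nat.shiftRight m (Nat.land (Nat.shiftRight (Nat.shiftRight m (Nat.land (Nat.shiftRight m (Nat.land (Nat.shiftRight (Nat.shiftRight m (Nat.land (Nat.shiftRight m (Nat.land (Nat.shiftRight (Nat.shiftRight m (Nat.land (Nat.shiftRight c (nat_lit 9)) (nat_lit 65408))) (nat_lit 34)) (nat_lit 0x1ffff))) (nat_lit 0x1ffff))) (nat_lit 34)) (nat_lit 0x1ffff))) (nat_lit 0x1ffff)))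 (nat_lit 34)) (nat_lit 0x1ffff))) (nat_lit 0x1ffff))) (nat_lit 34)) (nat_lit 0x1ffff))) (nat_lit 0x1ffff))) (nat_lit 34)) (nat_lit 0x1ffff))) (nat_lit 0x1ffff))) (nat_lit 34)) (nat_lit 0x1ffff))) (nat_lit 0x1ffff))) (nat_lit 34)) (nat_lit 0x1ffff))) (nat_lit 0x1ffff))) (nat_lit 34)) (nat_lit 0x1ffff))) (nat_lit 0x1ffff))) (nat_lit 34)) (nat_lit 0x1ffff))) (nat_lit 0x1ffff))) (nat_lit 60)) (nat_lit 1008)))))))))))) (nat_lit 4)) (nat_lit 240)))) (nat_lit 65535)) (nat_lit 70)))) nd e (Nat.shiftRight c (nat_lit 25)))⟩ (fun _ _ => ⟨fun ih lim m nd e c => (ih.1 lim (Nat.lor m (Nat.mul ((mskF k).1 m (Nat.land (Nat.shiftRight c (nat_lit 9)) (nat_lit 65408))) (Nat.shiftLeft (Nat.lor (Nat.land (Nat.lor (Nat.shiftRight (nat_lit 0x1000100010001000100010001000100010001000100010001000000000000000) (Nat.land (Nat.add (Nat.shiftRight VT (Nat.land (Nat.shiftRight (Nat.shiftRight m (Nat.land (Nat.shiftRight c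 (nat_lit 9)) (nat_lit 65408))) (nat_lit 60)) (nat_lit 1008))) (Nat.add (Nat.shiftRight VT (Nat.land (Nat.shiftRight (Nat.shiftRight m (Nat.land (Nat.shiftRight m (Nat.land (Nat.shiftRight (Nat.shiftRight m (Nat.land (Nat.shiftRight c (nat_lit 9)) (nat_lit 65408))) (nat_lit 34)) (nat_lit 0x1ffff))) (nat_lit 0x1ffff))) (nat_lit 60)) (nat_lit 1008))) (Nat.add (Nat.shiftRight VT (Nat.land (Nat.shiftRight (Nat.shiftRight m (Nat.land (Nat.shiftRight m (Nat.land (Nat.shiftRight (Nat.shiftRight m (Nat.land (Nat.shiftRight m (Nat.land (Nat.shiftRight (Nat.shiftRight m (Nat.land (Nat.shiftRight c (nat_lit 9)) (nat_lit 65408))) (nat_lit 34)) (nat_lit 0x1ffff))) (nat_lit 0x1ffff))) (nat_lit 34)) (nat_lit 0x1ffff))) (nat_lit 0x1ffff))) (nat_lit 60)) (nat_lit 1008))) (Nat.add (Nat.shiftRight VT (Nat.land (Nat.shiftRight (Nat.shiftRight m (Nat.land (Nat.shiftRight m (Nat.land (Nat.shiftRight (Nat.shiftRight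 m (Nat.land (Nat.shiftRight m (Nat.land (Nat.shiftRight (Nat.shiftRight m (Nat.land (Nat.shiftRight m (Nat.land (Nat.shiftRight (Nat.shiftRight m (Nat.land (Nat.shiftRight c (nat_lit 9)) (nat_lit 65408))) (nat_lit 34)) (nat_lit 0x1ffff))) (nat_lit 0x1ffff))) (nat_lit 34)) (nat_lit 0x1ffff))) (nat_lit 0x1ffff))) (nat_lit 34)) (nat_lit 0x1ffff))) (nat_lit 0x1ffff))) (nat_lit 60)) (nat_lit 1008))) (Nat.add (Nat.shiftRight VT (Nat.land (Nat.shiftRight (Nat.shiftRight m (Nat.land (Nat.shiftRight m (Nat.land (Nat.shiftRight (Nat.shiftRight m (Nat.land (Nat.shiftRight m (Nat.land (Nat.shiftRight (Nat.shiftRight m (Nat.land (Nat.shiftRight m (Nat.land (Nat.shiftRight (Nat.shiftRight m (Nat.land (Nat.shiftRight m (Nat.land (Nat.shiftRight (Nat.shiftRight m (Nat.land (Nat.shiftRight c (nat_lit 9)) (nat_lit 65408))) (nat_lit 34)) (nat_lit 0x1ffff))) (nat_lit 0x1ffff))) (nat_lit 34)) (nat_lit 0x1ffff)))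 (nat_lit 0x1ffff))) (nat_lit 34)) (nat_lit 0x1ffff))) (nat_lit 0x1ffff))) (nat_lit 34)) (nat_lit 0x1ffff))) (nat_lit 0x1ffff))) (nat_lit 60)) (nat_lit 1008))) (Nat.add (Nat.shiftRight VT (Nat.land (Nat.shiftRight (Nat.shiftRight m (Nat.land (Nat.shiftRight m (Nat.land (Nat.shiftRight (Nat.shiftRight m (Nat.land (Nat.shiftRight m (Nat.land (Nat.shiftRight (Nat.shiftRight m (Nat.land (Nat.shiftRight m (Nat.land (Nat.shiftRight (Nat.shiftRight m (Nat.land (Nat.shiftRight m (Nat.land (Nat.shiftRight (Nat.shiftRight m (Nat.land (Nat.shiftRight m (Nat.land (Nat.shiftRight (Nat.shiftRight m (Nat.land (Nat.shiftRight c (nat_lit 9)) (nat_lit 65408))) (nat_lit 34)) (nat_lit 0x1ffff))) (nat_lit 0x1ffff))) (nat_lit 34)) (nat_lit 0x1ffff))) (nat_lit 0x1ffff))) (nat_lit 34)) (nat_lit 0x1ffff))) (nat_lit 0x1ffff))) (nat_lit 34)) (nat_lit 0x1ffff))) (nat_lit 0x1ffff))) (nat_lit 34)) (nat_lit 0x1ffff))) (nat_lit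 0x1ffff))) (nat_lit 60)) (nat_lit 1008))) (Nat.add (Nat.shiftRight VT (Nat.land (Nat.shiftRight (Nat.shiftRight m (Nat.land (Nat.shiftRight m (Nat.land (Nat.shiftRight (Nat.shiftRight m (Nat.land (Nat.shiftRight m (Nat.land (Nat.shiftRight (Nat.shiftRight m (Nat.land (Nat.shiftRight m (Nat.land (Nat.shiftRight (Nat.shiftRight m (Nat.land (Nat.shiftRight m (Nat.land (Nat.shiftRight (Nat.shiftRight m (Nat.land (Nat.shiftRight m (Nat.land (Nat.shiftRight (Nat.shiftRight m (Nat.land (Nat.shiftRight m (Nat.land (Nat.shiftRight (Nat.shiftRight m (Nat.land (Nat.shiftRight c (nat_lit 9)) (nat_lit 65408))) (nat_lit 34)) (nat_lit 0x1ffff))) (nat_lit 0x1ffff))) (nat_lit 34)) (nat_lit 0x1ffff))) (nat_lit 0x1ffff))) (nat_lit 34)) (nat_lit 0x1ffff))) (nat_lit 0x1ffff))) (nat_lit 34)) (nat_lit 0x1ffff))) (nat_lit 0x1ffff))) (nat_lit 34)) (nat_lit 0x1ffff))) (nat_lit 0x1ffff))) (nat_lit 34)) (nat_lit 0x1ffff)))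 (nat_lit 0x1ffff))) (nat_lit 60)) (nat_lit 1008))) (Nat.add (Nat.shiftRight VT (Nat.land (Nat.shiftRight (Nat.shiftRight m (Nat.land (Nat.shiftRight m (Nat.land (Nat.shiftRight (Nat.shiftRight m (Nat.land (Nat.shiftRight m (Nat.land (Nat.shiftRight (Nat.shiftRight m (Nat.land (Nat.shiftRight m (Nat.land (Nat.shiftRight (Nat.shiftRight m (Nat.land (Nat.shiftRight m (Nat.land (Nat.shiftRight (Nat.shiftRight m (Nat.land (Nat.shiftRight m (Nat.land (Nat.shiftRight (Nat.shiftRight m (Nat.land (Nat.shiftRight m (Nat.land (Nat.shiftRight (Nat.shiftRight m (Nat.land (Nat.shiftRight m (Nat.land (Nat.shiftRight (Nat.shiftRight m (Nat.land (Nat.shiftRight c (nat_lit 9)) (nat_lit 65408))) (nat_lit 34)) (nat_lit 0x1ffff))) (nat_lit 0x1ffff))) (nat_lit 34)) (nat_lit 0x1ffff))) (nat_lit 0x1ffff))) (nat_lit 34)) (nat_lit 0x1ffff))) (nat_lit 0x1ffff))) (nat_lit 34)) (nat_lit 0x1ffff))) (nat_lit 0x1ffff))) (nat_lit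 34)) (nat_lit 0x1ffff))) (nat_lit 0x1ffff))) (nat_lit 34)) (nat_lit 0x1ffff))) (nat_lit 0x1ffff))) (nat_lit 34)) (nat_lit 0x1ffff))) (nat_lit 0x1ffff))) (nat_lit 60)) (nat_lit 1008))) (Nat.add (Nat.shiftRight VT (Nat.land (Nat.shiftRight (Nat.shiftRight m (Nat.land (Nat.shiftRight m (Nat.land (Nat.shiftRight (Nat.shiftRight m (Nat.land (Nat.shiftRight m (Nat.land (Nat.shiftRight (Nat.shiftRight m (Nat.land (Nat.shiftRight m (Nat.land (Nat.shiftRight (Nat.shiftRight m (Nat.land (Nat.shiftRight m (Nat.land (Nat.shiftRight (Nat.shiftRight m (Nat.land (Nat.shiftRight m (Nat.land (Nat.shiftRight (Nat.shiftRight m (Nat.land (Nat.shiftRight m (Nat.land (Nat.shiftRight (Nat.shiftRight m (Nat.land (Nat.shiftRight m (Nat.land (Nat.shiftRight (Nat.shiftRight m (Nat.land (Nat.shiftRight m (Nat.land (Nat.shiftRight (Nat.shiftRight m (Nat.land (Nat.shiftRight c (nat_lit 9)) (nat_lit 65408))) (nat_lit 34))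 (nat_lit 0x1ffff))) (nat_lit 0x1ffff))) (nat_lit 34)) (nat_lit 0x1ffff))) (nat_lit 0x1ffff))) (nat_lit 34)) (nat_lit 0x1ffff))) (nat_lit 0x1ffff))) (nat_lit 34)) (nat_lit 0x1ffff))) (nat_lit 0x1ffff))) (nat_lit 34)) (nat_lit 0x1ffff))) (nat_lit 0x1ffff))) (nat_lit 34)) (nat_lit 0x1ffff))) (nat_lit 0x1ffff))) (nat_lit 34)) (nat_lit 0x1ffff))) (nat_lit 0x1ffff))) (nat_lit 34)) (nat_lit 0x1ffff))) (nat_lit 0x1ffff))) (nat_lit 60)) (nat_lit 1008))) (Nat.shiftRight VT (Nat.land (Nat.shiftRight (Nat.shiftRight m (Nat.land (Nat.shiftRight m (Nat.land (Nat.shiftRight (Nat.shiftRight m (Nat.land (Nat.shiftRight m (Nat.land (Nat.shiftRight (Nat.shiftRight m (Nat.land (Nat.shiftRight m (Nat.land (Nat.shiftRight (Nat.shiftRight m (Nat.land (Nat.shiftRight m (Nat.land (Nat.shiftRight (Nat.shiftRight m (Nat.land (Nat.shiftRight m (Nat.land (Nat.shiftRight (Nat.shiftRight m (Nat.land (Nat.shiftRight m (Nat.land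 (Nat.shiftRight (Nat.shiftRight m (Nat.land (Nat.shiftRight m (Nat.land (Nat.shiftRight (Nat.shiftRight m (Nat.land (Nat.shiftRight m (Nat.land (Nat.shiftRight (Nat.shiftRight m (Nat.land (Nat.shiftRight m (Nat.land (Nat.shiftRight (Nat.shiftRight m (Nat.land (Nat.shiftRight c (nat_lit 9)) (nat_lit 65408))) (nat_lit 34)) (nat_lit 0x1ffff))) (nat_lit 0x1ffff))) (nat_lit 34)) (nat_lit 0x1ffff))) (nat_lit 0x1ffff))) (nat_lit 34)) (nat_lit 0x1ffff))) (nat_lit 0x1ffff))) (nat_lit 34)) (nat_lit 0x1ffff))) (nat_lit 0x1ffff))) (nat_lit 34)) (nat_lit 0x1ffff))) (nat_lit 0x1ffff))) (nat_lit 34)) (nat_lit 0x1ffff))) (nat_lit 0x1ffff))) (nat_lit 34)) (nat_lit 0x1ffff))) (nat_lit 0x1ffff))) (nat_lit 34)) (nat_lit 0x1ffff))) (nat_lit 0x1ffff))) (nat_lit 34)) (nat_lit 0x1ffff))) (nat_lit 0x1ffff))) (nat_lit 60)) (nat_lit 1008)))))))))))) (nat_lit 240))) (Nat.shiftRight (nat_lit 0x80008000800) (Nat.land (Nat.shiftRight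 (Nat.add (Nat.shiftRight VT (Nat.land (Nat.shiftRight (Nat.shiftRight m (Nat.land (Nat.shiftRight c (nat_lit 9)) (nat_lit 65408))) (nat_lit 60)) (nat_lit 1008))) (Nat.add (Nat.shiftRight VT (Nat.land (Nat.shiftRight (Nat.shiftRight m (Nat.land (Nat.shiftRight m (Nat.land (Nat.shiftRight (Nat.shiftRight m (Nat.land (Nat.shiftRight c (nat_lit 9)) (nat_lit 65408))) (nat_lit 34)) (nat_lit 0x1ffff))) (nat_lit 0x1ffff))) (nat_lit 60)) (nat_lit 1008))) (Nat.add (Nat.shiftRight VT (Nat.land (Nat.shiftRight (Nat.shiftRight m (Nat.land (Nat.shiftRight m (Nat.land (Nat.shiftRight (Nat.shiftRight m (Nat.land (Nat.shiftRight m (Nat.land (Nat.shiftRight (Nat.shiftRight m (Nat.land (Nat.shiftRight c (nat_lit 9)) (nat_lit 65408))) (nat_lit 34)) (nat_lit 0x1ffff))) (nat_lit 0x1ffff))) (nat_lit 34)) (nat_lit 0x1ffff))) (nat_lit 0x1ffff))) (nat_lit 60)) (nat_lit 1008))) (Nat.add (Nat.shiftRight VT (Nat.land (Nat.shiftRight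 (Nat.shiftRight m (Nat.land (Nat.shiftRight m (Nat.land (Nat.shiftRight (Nat.shiftRight m (Nat.land (Nat.shiftRight m (Nat.land (Nat.shiftRight (Nat.shiftRight m (Nat.land (Nat.shiftRight m (Nat.land (Nat.shiftRight (Nat.shiftRight m (Nat.land (Nat.shiftRight c (nat_lit 9)) (nat_lit 65408))) (nat_lit 34)) (nat_lit 0x1ffff))) (nat_lit 0x1ffff))) (nat_lit 34)) (nat_lit 0x1ffff))) (nat_lit 0x1ffff))) (nat_lit 34)) (nat_lit 0x1ffff))) (nat_lit 0x1ffff))) (nat_lit 60)) (nat_lit 1008))) (Nat.add (Nat.shiftRight VT (Nat.land (Nat.shiftRight (Nat.shiftRight m (Nat.land (Nat.shiftRight m (Nat.land (Nat.shiftRight (Nat.shiftRight m (Nat.land (Nat.shiftRight m (Nat.land (Nat.shiftRight (Nat.shiftRight m (Nat.land (Nat.shiftRight m (Nat.land (Nat.shiftRight (Nat.shiftRight m (Nat.land (Nat.shiftRight m (Nat.land (Nat.shiftRight (Nat.shiftRight m (Nat.land (Nat.shiftRight c (nat_lit 9)) (nat_lit 65408)))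 (nat_lit 34)) (nat_lit 0x1ffff))) (nat_lit 0x1ffff))) (nat_lit 34)) (nat_lit 0x1ffff))) (nat_lit 0x1ffff))) (nat_lit 34)) (nat_lit 0x1ffff))) (nat_lit 0x1ffff))) (nat_lit 34)) (nat_lit 0x1ffff))) (nat_lit 0x1ffff))) (nat_lit 60)) (nat_lit 1008))) (Nat.add (Nat.shiftRight VT (Nat.land (Nat.shiftRight (Nat.shiftRight m (Nat.land (Nat.shiftRight m (Nat.land (Nat.shiftRight (Nat.shiftRight m (Nat.land (Nat.shiftRight m (Nat.land (Nat.shiftRight (Nat.shiftRight m (Nat.land (Nat.shiftRight m (Nat.land (Nat.shiftRight (Nat.shiftRight m (Nat.land (Nat.shiftRight m (Nat.land (Nat.shiftRight (Nat.shiftRight m (Nat.land (Nat.shiftRight m (Nat.land (Nat.shiftRight (Nat.shiftRight m (Nat.land (Nat.shiftRight c (nat_lit 9)) (nat_lit 65408))) (nat_lit 34)) (nat_lit 0x1ffff))) (nat_lit 0x1ffff))) (nat_lit 34)) (nat_lit 0x1ffff))) (nat_lit 0x1ffff))) (nat_lit 34)) (nat_lit 0x1ffff))) (nat_lit 0x1ffff))) (nat_lit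 34)) (nat_lit 0x1ffff))) (nat_lit 0x1ffff))) (nat_lit 34)) (nat_lit 0x1ffff))) (nat_lit 0x1ffff))) (nat_lit 60)) (nat_lit 1008))) (Nat.add (Nat.shiftRight VT (Nat.land (Nat.shiftRight (Nat.shiftRight m (Nat.land (Nat.shiftRight m (Nat.land (Nat.shiftRight (Nat.shiftRight m (Nat.land (Nat.shiftRight m (Nat.land (Nat.shiftRight (Nat.shiftRight m (Nat.land (Nat.shiftRight m (Nat.land (Nat.shiftRight (Nat.shiftRight m (Nat.land (Nat.shiftRight m (Nat.land (Nat.shiftRight (Nat.shiftRight m (Nat.land (Nat.shiftRight m (Nat.land (Nat.shiftRight (Nat.shiftRight m (Nat.land (Nat.shiftRight m (Nat.land (Nat.shiftRight (Nat.shiftRight m (Nat.land (Nat.shiftRight c (nat_lit 9)) (nat_lit 65408))) (nat_lit 34)) (nat_lit 0x1ffff))) (nat_lit 0x1ffff))) (nat_lit 34)) (nat_lit 0x1ffff))) (nat_lit 0x1ffff))) (nat_lit 34)) (nat_lit 0x1ffff))) (nat_lit 0x1ffff))) (nat_lit 34)) (nat_lit 0x1ffff))) (nat_lit 0x1ffff)))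 (nat_lit 34)) (nat_lit 0x1ffff))) (nat_lit 0x1ffff))) (nat_lit 34)) (nat_lit 0x1ffff))) (nat_lit 0x1ffff))) (nat_lit 60)) (nat_lit 1008))) (Nat.add (Nat.shiftRight VT (Nat.land (Nat.shiftRight (Nat.shiftRight m (Nat.land (Nat.shiftRight m (Nat.land (Nat.shiftRight (Nat.shiftRight m (Nat.land (Nat.shiftRight m (Nat.land (Nat.shiftRight (Nat.shiftRight m (Nat.land (Nat.shiftRight m (Nat.land (Nat.shiftRight (Nat.shiftRight m (Nat.land (Nat.shiftRight m (Nat.land (Nat.shiftRight (Nat.shiftRight m (Nat.land (Nat.shiftRight m (Nat.land (Nat.shiftRight (Nat.shiftRight m (Nat.land (Nat.shiftRight m (Nat.land (Nat.shiftRight (Nat.shiftRight m (Nat.land (Nat.shiftRight m (Nat.land (Nat.shiftRight (Nat.shiftRight m (Nat.land (Nat.shiftRight c (nat_lit 9)) (nat_lit 65408))) (nat_lit 34)) (nat_lit 0x1ffff))) (nat_lit 0x1ffff))) (nat_lit 34)) (nat_lit 0x1ffff))) (nat_lit 0x1ffff))) (nat_lit 34)) (nat_lit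 0x1ffff))) (nat_lit 0x1ffff))) (nat_lit 34)) (nat_lit 0x1ffff))) (nat_lit 0x1ffff))) (nat_lit 34)) (nat_lit 0x1ffff))) (nat_lit 0x1ffff))) (nat_lit 34)) (nat_lit 0x1ffff))) (nat_lit 0x1ffff))) (nat_lit 34)) (nat_lit 0x1ffff))) (nat_lit 0x1ffff))) (nat_lit 60)) (nat_lit 1008))) (Nat.add (Nat.shiftRight VT (Nat.land (Nat.shiftRight (Nat.shiftRight m (Nat.land (Nat.shiftRight m (Nat.land (Nat.shiftRight (Nat.shiftRight m (Nat.land (Nat.shiftRight m (Nat.land (Nat.shiftRight (Nat.shiftRight m (Nat.land (Nat.shiftRight m (Nat.land (Nat.shiftRight (Nat.shiftRight m (Nat.land (Nat.shiftRight m (Nat.land (Nat.shiftRight (Nat.shiftRight m (Nat.land (Nat.shiftRight m (Nat.land (Nat.shiftRight (Nat.shiftRight m (Nat.land (Nat.shiftRight m (Nat.land (Nat.shiftRight (Nat.shiftRight m (Nat.land (Nat.shiftRight m (Nat.land (Nat.shiftRight (Nat.shiftRight m (Nat.land (Nat.shiftRight m (Nat.land (Nat.shiftRight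 (Nat.shiftRight m (Nat.land (Nat.shiftRight c (nat_lit 9)) (nat_lit 65408))) (nat_lit 34)) (nat_lit 0x1ffff))) (nat_lit 0x1ffff))) (nat_lit 34)) (nat_lit 0x1ffff))) (nat_lit 0x1ffff))) (nat_lit 34)) (nat_lit 0x1ffff))) (nat_lit 0x1ffff))) (nat_lit 34)) (nat_lit 0x1ffff))) (nat_lit 0x1ffff))) (nat_lit 34)) (nat_lit 0x1ffff))) (nat_lit 0x1ffff))) (nat_lit 34)) (nat_lit 0x1ffff))) (nat_lit 0x1ffff))) (nat_lit 34)) (nat_lit 0x1ffff))) (nat_lit 0x1ffff))) (nat_lit 34)) (nat_lit 0x1ffff))) (nat_lit 0x1ffff))) (nat_lit 60)) (nat_lit 1008))) (Nat.shiftRight VT (Nat.land (Nat.shiftRight (Nat.shiftRight m (Nat.land (Nat.shiftRight m (Nat.land (Nat.shiftRight (Nat.shiftRight m (Nat.land (Nat.shiftRight m (Nat.land (Nat.shiftRight (Nat.shiftRight m (Nat.land (Nat.shiftRight m (Nat.land (Nat.shiftRight (Nat.shiftRight m (Nat.land (Nat.shiftRight m (Nat.land (Nat.shiftRight (Nat.shiftRight m (Nat.land (Nat.shiftRight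 m (Nat.land (Nat.shiftRight (Nat.shiftRight m (Nat.land (Nat.shiftRight m (Nat.land (Nat.shiftRight (Nat.shiftRight m (Nat.land (Nat.shiftRight m (Nat.land (Nat.shiftRight (Nat.shiftRight m (Nat.land (Nat.shiftRight m (Nat.land (Nat.shiftRight (Nat.shiftRight m (Nat.land (Nat.shiftRight m (Nat.land (Nat.shiftRight (Nat.shiftRight m (Nat.land (Nat.shiftRight c (nat_lit 9)) (nat_lit 65408))) (nat_lit 34)) (nat_lit 0x1ffff))) (nat_lit 0x1ffff))) (nat_lit 34)) (nat_lit 0x1ffff))) (nat_lit 0x1ffff))) (nat_lit 34)) (nat_lit 0x1ffff))) (nat_lit 0x1ffff))) (nat_lit 34)) (nat_lit 0x1ffff))) (nat_lit 0x1ffff))) (nat_lit 34)) (nat_lit 0x1ffff))) (nat_lit 0x1ffff))) (nat_lit 34)) (nat_lit 0x1ffff))) (nat_lit 0x1ffff))) (nat_lit 34)) (nat_lit 0x1ffff))) (nat_lit 0x1ffff))) (nat_lit 34)) (nat_lit 0x1ffff))) (nat_lit 0x1ffff))) (nat_lit 34)) (nat_lit 0x1ffff))) (nat_lit 0x1ffff))) (nat_lit 60)) (nat_lit 1008))))))))))))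 (nat_lit 4)) (nat_lit 240)))) (nat_lit 65535)) (nat_lit 0x2ce7fe)) (nat_lit 70)))) (Nat.add nd (Nat.shiftLeft (Nat.xor (Nat.land (Nat.shiftRight m (Nat.land (Nat.shiftRight (Nat.shiftRight m (Nat.land (Nat.shiftRight m (Nat.land (Nat.shiftRight (Nat.shiftRight m (Nat.land (Nat.shiftRight m (Nat.land (Nat.shiftRight (Nat.shiftRight m (Nat.land (Nat.shiftRight m (Nat.land (Nat.shiftRight (Nat.shiftRight m (Nat.land (Nat.shiftRight m (Nat.land (Nat.shiftRight (Nat.shiftRight m (Nat.land (Nat.shiftRight m (Nat.land (Nat.shiftRight (Nat.shiftRight m (Nat.land (Nat.shiftRight m (Nat.land (Nat.shiftRight (Nat.shiftRight m (Nat.land (Nat.shiftRight m (Nat.land (Nat.shiftRight (Nat.shiftRight m (Nat.land (Nat.shiftRight m (Nat.land (Nat.shiftRight (Nat.shiftRight m (Nat.land (Nat.shiftRight m (Nat.land (Nat.shiftRight (Nat.shiftRight m (Nat.land (Nat.shiftRight c (nat_lit 9)) (nat_lit 65408))) (nat_lit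 34)) (nat_lit 0x1ffff))) (nat_lit 0x1ffff))) (nat_lit 34)) (nat_lit 0x1ffff))) (nat_lit 0x1ffff))) (nat_lit 34)) (nat_lit 0x1ffff))) (nat_lit 0x1ffff))) (nat_lit 34)) (nat_lit 0x1ffff))) (nat_lit 0x1ffff))) (nat_lit 34)) (nat_lit 0x1ffff))) (nat_lit 0x1ffff))) (nat_lit 34)) (nat_lit 0x1ffff))) (nat_lit 0x1ffff))) (nat_lit 34)) (nat_lit 0x1ffff))) (nat_lit 0x1ffff))) (nat_lit 34)) (nat_lit 0x1ffff))) (nat_lit 0x1ffff))) (nat_lit 34)) (nat_lit 0x1ffff))) (nat_lit 0x1ffff))) (nat_lit 34)) (nat_lit 0x1ffff))) (nat_lit 0x1ffff)) (Nat.land (Nat.shiftRight c (nat_lit 9)) (nat_lit 65408))) (nat_lit 16))) e (Nat.shiftRight c (nat_lit 25)))⟩) (Nat.shiftRight k (nat_lit 15)))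

def oRel11 (k : ℕ) : Op :=
  (@Nat.rec (fun _ => Op) ⟨fun ih lim m nd e c => (ih.1 lim (Nat.lor m (Nat.mul ((mskF k).1 m (Nat.land (Nat.shiftRight c (nat_lit 9)) (nat_lit 65408))) (Nat.shiftLeft (Nat.land (Nat.lor (Nat.shiftRight (nat_lit 0) (Nat.land (Nat.add (Nat.shiftRight VT (Nat.land (Nat.shiftRight (Nat.shiftRight m (Nat.land (Nat.shiftRight c (nat_lit 9)) (nat_lit 65408))) (nat_lit 60)) (nat_lit 1008))) (Nat.add (Nat.shiftRight VT (Nat.land (Nat.shiftRight (Nat.shiftRight m (Nat.land (Nat.shiftRight m (Nat.land (Nat.shiftRight (Nat.shiftRight m (Nat.land (Nat.shiftRight c (nat_lit 9)) (nat_lit 65408))) (nat_lit 34)) (nat_lit 0x1ffff))) (nat_lit 0x1ffff))) (nat_lit 60)) (nat_lit 1008))) (Nat.add (Nat.shiftRight VT (Nat.land (Nat.shiftRight (Nat.shiftRight m (Nat.land (Nat.shiftRight m (Nat.land (Nat.shiftRight (Nat.shiftRight m (Nat.land (Nat.shiftRight m (Nat.land (Nat.shiftRight (Nat.shiftRight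 m (Nat.land (Nat.shiftRight c (nat_lit 9)) (nat_lit 65408))) (nat_lit 34)) (nat_lit 0x1ffff))) (nat_lit 0x1ffff))) (nat_lit 34)) (nat_lit 0x1ffff))) (nat_lit 0x1ffff))) (nat_lit 60)) (nat_lit 1008))) (Nat.add (Nat.shiftRight VT (Nat.land (Nat.shiftRight (Nat.shiftRight m (Nat.land (Nat.shiftRight m (Nat.land (Nat.shiftRight (Nat.shiftRight m (Nat.land (Nat.shiftRight m (Nat.land (Nat.shiftRight (Nat.shiftRight m (Nat.land (Nat.shiftRight m (Nat.land (Nat.shiftRight (Nat.shiftRight m (Nat.land (Nat.shiftRight c (nat_lit 9)) (nat_lit 65408))) (nat_lit 34)) (nat_lit 0x1ffff))) (nat_lit 0x1ffff))) (nat_lit 34)) (nat_lit 0x1ffff))) (nat_lit 0x1ffff))) (nat_lit 34)) (nat_lit 0x1ffff))) (nat_lit 0x1ffff))) (nat_lit 60)) (nat_lit 1008))) (Nat.add (Nat.shiftRight VT (Nat.land (Nat.shiftRight (Nat.shiftRight m (Nat.land (Nat.shiftRight m (Nat.land (Nat.shiftRight (Nat.shiftRight m (Nat.land (Nat.shiftRight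 m (Nat.land (Nat.shiftRight (Nat.shiftRight m (Nat.land (Nat.shiftRight m (Nat.land (Nat.shiftRight (Nat.shiftRight m (Nat.land (Nat.shiftRight m (Nat.land (Nat.shiftRight (Nat.shiftRight m (Nat.land (Nat.shiftRight c (nat_lit 9)) (nat_lit 65408))) (nat_lit 34)) (nat_lit 0x1ffff))) (nat_lit 0x1ffff))) (nat_lit 34)) (nat_lit 0x1ffff))) (nat_lit 0x1ffff))) (nat_lit 34)) (nat_lit 0x1ffff))) (nat_lit 0x1ffff))) (nat_lit 34)) (nat_lit 0x1ffff))) (nat_lit 0x1ffff))) (nat_lit 60)) (nat_lit 1008))) (Nat.add (Nat.shiftRight VT (Nat.land (Nat.shiftRight (Nat.shiftRight m (Nat.land (Nat.shiftRight m (Nat.land (Nat.shiftRight (Nat.shiftRight m (Nat.land (Nat.shiftRight m (Nat.land (Nat.shiftRight (Nat.shiftRight m (Nat.land (Nat.shiftRight m (Nat.land (Nat.shiftRight (Nat.shiftRight m (Nat.land (Nat.shiftRight m (Nat.land (Nat.shiftRight (Nat.shiftRight m (Nat.land (Nat.shiftRight m (Nat.land (Nat.shiftRight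 (Nat.shiftRight m (Nat.land (Nat.shiftRight c (nat_lit 9)) (nat_lit 65408))) (nat_lit 34)) (nat_lit 0x1ffff))) (nat_lit 0x1ffff))) (nat_lit 34)) (nat_lit 0x1ffff))) (nat_lit 0x1ffff))) (nat_lit 34)) (nat_lit 0x1ffff))) (nat_lit 0x1ffff))) (nat_lit 34)) (nat_lit 0x1ffff))) (nat_lit 0x1ffff))) (nat_lit 34)) (nat_lit 0x1ffff))) (nat_lit 0x1ffff))) (nat_lit 60)) (nat_lit 1008))) (Nat.add (Nat.shiftRight VT (Nat.land (Nat.shiftRight (Nat.shiftRight m (Nat.land (Nat.shiftRight m (Nat.land (Nat.shiftRight (Nat.shiftRight m (Nat.land (Nat.shiftRight m (Nat.land (Nat.shiftRight (Nat.shiftRight m (Nat.land (Nat.shiftRight m (Nat.land (Nat.shiftRight (Nat.shiftRight m (Nat.land (Nat.shiftRight m (Nat.land (Nat.shiftRight (Nat.shiftRight m (Nat.land (Nat.shiftRight m (Nat.land (Nat.shiftRight (Nat.shiftRight m (Nat.land (Nat.shiftRight m (Nat.land (Nat.shiftRight (Nat.shiftRight m (Nat.land (Nat.shiftRight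 c (nat_lit 9)) (nat_lit 65408))) (nat_lit 34)) (nat_lit 0x1ffff))) (nat_lit 0x1ffff))) (nat_lit 34)) (nat_lit 0x1ffff))) (nat_lit 0x1ffff))) (nat_lit 34)) (nat_lit 0x1ffff))) (nat_lit 0x1ffff))) (nat_lit 34)) (nat_lit 0x1ffff))) (nat_lit 0x1ffff))) (nat_lit 34)) (nat_lit 0x1ffff))) (nat_lit 0x1ffff))) (nat_lit 34)) (nat_lit 0x1ffff))) (nat_lit 0x1ffff))) (nat_lit 60)) (nat_lit 1008))) (Nat.add (Nat.shiftRight VT (Nat.land (Nat.shiftRight (Nat.shiftRight m (Nat.land (Nat.shiftRight m (Nat.land (Nat.shiftRight (Nat.shiftRight m (Nat.land (Nat.shiftRight m (Nat.land (Nat.shiftRight (Nat.shiftRight m (Nat.land (Nat.shiftRight m (Nat.land (Nat.shiftRight (Nat.shiftRight m (Nat.land (Nat.shiftRight m (Nat.land (Nat.shiftRight (Nat.shiftRight m (Nat.land (Nat.shiftRight m (Nat.land (Nat.shiftRight (Nat.shiftRight m (Nat.land (Nat.shiftRight m (Nat.land (Nat.shiftRight (Nat.shiftRight m (Nat.land (Nat.shiftRight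 m (Nat.land (Nat.shiftRight (Nat.shiftRight m (Nat.land (Nat.shiftRight c (nat_lit 9)) (nat_lit 65408))) (nat_lit 34)) (nat_lit 0x1ffff))) (nat_lit 0x1ffff))) (nat_lit 34)) (nat_lit 0x1ffff))) (nat_lit 0x1ffff))) (nat_lit 34)) (nat_lit 0x1ffff))) (nat_lit 0x1ffff))) (nat_lit 34)) (nat_lit 0x1ffff))) (nat_lit 0x1ffff))) (nat_lit 34)) (nat_lit 0x1ffff))) (nat_lit 0x1ffff))) (nat_lit 34)) (nat_lit 0x1ffff))) (nat_lit 0x1ffff))) (nat_lit 34)) (nat_lit 0x1ffff))) (nat_lit 0x1ffff))) (nat_lit 60)) (nat_lit 1008))) (Nat.add (Nat.shiftRight VT (Nat.land (Nat.shiftRight (Nat.shiftRight m (Nat.land (Nat.shiftRight m (Nat.land (Nat.shiftRight (Nat.shiftRight m (Nat.land (Nat.shiftRight m (Nat.land (Nat.shiftRight (Nat.shiftRight m (Nat.land (Nat.shiftRight m (Nat.land (Nat.shiftRight (Nat.shiftRight m (Nat.land (Nat.shiftRight m (Nat.land (Nat.shiftRight (Nat.shiftRight m (Nat.land (Nat.shiftRight m (Nat.land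 (Nat.shiftRight (Nat.shiftRight m (Nat.land (Nat.shiftRight m (Nat.land (Nat.shiftRight (Nat.shiftRight m (Nat.land (Nat.shiftRight m (Nat.land (Nat.shiftRight (Nat.shiftRight m (Nat.land (Nat.shiftRight m (Nat.land (Nat.shiftRight (Nat.shiftRight m (Nat.land (Nat.shiftRight c (nat_lit 9)) (nat_lit 65408))) (nat_lit 34)) (nat_lit 0x1ffff))) (nat_lit 0x1ffff))) (nat_lit 34)) (nat_lit 0x1ffff))) (nat_lit 0x1ffff))) (nat_lit 34)) (nat_lit 0x1ffff))) (nat_lit 0x1ffff))) (nat_lit 34)) (nat_lit 0x1ffff))) (nat_lit 0x1ffff))) (nat_lit 34)) (nat_lit 0x1ffff))) (nat_lit 0x1ffff))) (nat_lit 34)) (nat_lit 0x1ffff))) (nat_lit 0x1ffff))) (nat_lit 34)) (nat_lit 0x1ffff))) (nat_lit 0x1ffff))) (nat_lit 34)) (nat_lit 0x1ffff))) (nat_lit 0x1ffff))) (nat_lit 60)) (nat_lit 1008))) (Nat.add (Nat.shiftRight VT (Nat.land (Nat.shiftRight (Nat.shiftRight m (Nat.land (Nat.shiftRight m (Nat.land (Nat.shiftRight (Nat.shiftRight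 m (Nat.land (Nat.shiftRight m (Nat.land (Nat.shiftRight (Nat.shiftRight m (Nat.land (Nat.shiftRight m (Nat.land (Nat.shiftRight (Nat.shiftRight m (Nat.land (Nat.shiftRight m (Nat.land (Nat.shiftRight (Nat.shiftRight m (Nat.land (Nat.shiftRight m (Nat.land (Nat.shiftRight (Nat.shiftRight m (Nat.land (Nat.shiftRight m (Nat.land (Nat.shiftRight (Nat.shiftRight m (Nat.land (Nat.shiftRight m (Nat.land (Nat.shiftRight (Nat.shiftRight m (Nat.land (Nat.shiftRight m (Nat.land (Nat.shiftRight (Nat.shiftRight m (Nat.land (Nat.shiftRight m (Nat.land (Nat.shiftRight (Nat.shiftRight m (Nat.land (Nat.shiftRight c (nat_lit 9)) (nat_lit 65408))) (nat_lit 34)) (nat_lit 0x1ffff))) (nat_lit 0x1ffff))) (nat_lit 34)) (nat_lit 0x1ffff))) (nat_lit 0x1ffff))) (nat_lit 34)) (nat_lit 0x1ffff))) (nat_lit 0x1ffff))) (nat_lit 34)) (nat_lit 0x1ffff))) (nat_lit 0x1ffff))) (nat_lit 34)) (nat_lit 0x1ffff))) (nat_lit 0x1ffff)))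 (nat_lit 34)) (nat_lit 0x1ffff))) (nat_lit 0x1ffff))) (nat_lit 34)) (nat_lit 0x1ffff))) (nat_lit 0x1ffff))) (nat_lit 34)) (nat_lit 0x1ffff))) (nat_lit 0x1ffff))) (nat_lit 34)) (nat_lit 0x1ffff))) (nat_lit 0x1ffff))) (nat_lit 60)) (nat_lit 1008))) (Nat.shiftRight VT (Nat.land (Nat.shiftRight (Nat.shiftRight m (Nat.land (Nat.shiftRight m (Nat.land (Nat.shiftRight (Nat.shiftRight m (Nat.land (Nat.shiftRight m (Nat.land (Nat.shiftRight (Nat.shiftRight m (Nat.land (Nat.shiftRight m (Nat.land (Nat.shiftRight (Nat.shiftRight m (Nat.land (Nat.shiftRight m (Nat.land (Nat.shiftRight (Nat.shiftRight m (Nat.land (Nat.shiftRight m (Nat.land (Nat.shiftRight (Nat.shiftRight m (Nat.land (Nat.shiftRight m (Nat.land (Nat.shiftRight (Nat.shiftRight m (Nat.land (Nat.shiftRight m (Nat.land (Nat.shiftRight (Nat.shiftRight m (Nat.land (Nat.shiftRight m (Nat.land (Nat.shiftRight (Nat.shiftRight m (Nat.land (Nat.shiftRight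 m (Nat.land (Nat.shiftRight (Nat.shiftRight m (Nat.land (Nat.shiftRight m (Nat.land (Nat.shiftRight (Nat.shiftRight m (Nat.land (Nat.shiftRight c (nat_lit 9)) (nat_lit 65408))) (nat_lit 34)) (nat_lit 0x1ffff))) (nat_lit 0x1ffff))) (nat_lit 34)) (nat_lit 0x1ffff))) (nat_lit 0x1ffff))) (nat_lit 34)) (nat_lit 0x1ffff))) (nat_lit 0x1ffff))) (nat_lit 34)) (nat_lit 0x1ffff))) (nat_lit 0x1ffff))) (nat_lit 34)) (nat_lit 0x1ffff))) (nat_lit 0x1ffff))) (nat_lit 34)) (nat_lit 0x1ffff))) (nat_lit 0x1ffff))) (nat_lit 34)) (nat_lit 0x1ffff))) (nat_lit 0x1ffff))) (nat_lit 34)) (nat_lit 0x1ffff))) (nat_lit 0x1ffff))) (nat_lit 34)) (nat_lit 0x1ffff))) (nat_lit 0x1ffff))) (nat_lit 34)) (nat_lit 0x1ffff))) (nat_lit 0x1ffff))) (nat_lit 60)) (nat_lit 1008))))))))))))) (nat_lit 240))) (Nat.shiftRight (nat_lit 0) (Nat.land (Nat.shiftRight (Nat.add (Nat.shiftRight VT (Nat.land (Nat.shiftRight (Nat.shiftRight m (Nat.land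 (Nat.shiftRight c (nat_lit 9)) (nat_lit 65408))) (nat_lit 60)) (nat_lit 1008))) (Nat.add (Nat.shiftRight VT (Nat.land (Nat.shiftRight (Nat.shiftRight m (Nat.land (Nat.shiftRight m (Nat.land (Nat.shiftRight (Nat.shiftRight m (Nat.land (Nat.shiftRight c (nat_lit 9)) (nat_lit 65408))) (nat_lit 34)) (nat_lit 0x1ffff))) (nat_lit 0x1ffff))) (nat_lit 60)) (nat_lit 1008))) (Nat.add (Nat.shiftRight VT (Nat.land (Nat.shiftRight (Nat.shiftRight m (Nat.land (Nat.shiftRight m (Nat.land (Nat.shiftRight (Nat.shiftRight m (Nat.land (Nat.shiftRight m (Nat.land (Nat.shiftRight (Nat.shiftRight m (Nat.land (Nat.shiftRight c (nat_lit 9)) (nat_lit 65408))) (nat_lit 34)) (nat_lit 0x1ffff))) (nat_lit 0x1ffff))) (nat_lit 34)) (nat_lit 0x1ffff))) (nat_lit 0x1ffff))) (nat_lit 60)) (nat_lit 1008))) (Nat.add (Nat.shiftRight VT (Nat.land (Nat.shiftRight (Nat.shiftRight m (Nat.land (Nat.shiftRight m (Nat.land (Nat.shiftRight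 (Nat.shiftRight m (Nat.land (Nat.shiftRight m (Nat.land (Nat.shiftRight (Nat.shiftRight m (Nat.land (Nat.shiftRight m (Nat.land (Nat.shiftRight (Nat.shiftRight m (Nat.land (Nat.shiftRight c (nat_lit 9)) (nat_lit 65408))) (nat_lit 34)) (nat_lit 0x1ffff))) (nat_lit 0x1ffff))) (nat_lit 34)) (nat_lit 0x1ffff))) (nat_lit 0x1ffff))) (nat_lit 34)) (nat_lit 0x1ffff))) (nat_lit 0x1ffff))) (nat_lit 60)) (nat_lit 1008))) (Nat.add (Nat.shiftRight VT (Nat.land (Nat.shiftRight (Nat.shiftRight m (Nat.land (Nat.shiftRight m (Nat.land (Nat.shiftRight (Nat.shiftRight m (Nat.land (Nat.shiftRight m (Nat.land (Nat.shiftRight (Nat.shiftRight m (Nat.land (Nat.shiftRight m (Nat.land (Nat.shiftRight (Nat.shiftRight m (Nat.land (Nat.shiftRight m (Nat.land (Nat.shiftRight (Nat.shiftRight m (Nat.land (Nat.shiftRight c (nat_lit 9)) (nat_lit 65408))) (nat_lit 34)) (nat_lit 0x1ffff))) (nat_lit 0x1ffff))) (nat_lit 34)) (nat_lit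 0x1ffff))) (nat_lit 0x1ffff))) (nat_lit 34)) (nat_lit 0x1ffff))) (nat_lit 0x1ffff))) (nat_lit 34)) (nat_lit 0x1ffff))) (nat_lit 0x1ffff))) (nat_lit 60)) (nat_lit 1008))) (Nat.add (Nat.shiftRight VT (Nat.land (Nat.shiftRight (Nat.shiftRight m (Nat.land (Nat.shiftRight m (Nat.land (Nat.shiftRight (Nat.shiftRight m (Nat.land (Nat.shiftRight m (Nat.land (Nat.shiftRight (Nat.shiftRight m (Nat.land (Nat.shiftRight m (Nat.land (Nat.shiftRight (Nat.shiftRight m (Nat.land (Nat.shiftRight m (Nat.land (Nat.shiftRight (Nat.shiftRight m (Nat.land (Nat.shiftRight m (Nat.land (Nat.shiftRight (Nat.shiftRight m (Nat.land (Nat.shiftRight c (nat_lit 9)) (nat_lit 65408))) (nat_lit 34)) (nat_lit 0x1ffff))) (nat_lit 0x1ffff))) (nat_lit 34)) (nat_lit 0x1ffff))) (nat_lit 0x1ffff))) (nat_lit 34)) (nat_lit 0x1ffff))) (nat_lit 0x1ffff))) (nat_lit 34)) (nat_lit 0x1ffff))) (nat_lit 0x1ffff))) (nat_lit 34)) (nat_lit 0x1ffff)))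 (nat_lit 0x1ffff))) (nat_lit 60)) (nat_lit 1008))) (Nat.add (Nat.shiftRight VT (Nat.land (Nat.shiftRight (Nat.shiftRight m (Nat.land (Nat.shiftRight m (Nat.land (Nat.shiftRight (Nat.shiftRight m (Nat.land (Nat.shiftRight m (Nat.land (Nat.shiftRight (Nat.shiftRight m (Nat.land (Nat.shiftRight m (Nat.land (Nat.shiftRight (Nat.shiftRight m (Nat.land (Nat.shiftRight m (Nat.land (Nat.shiftRight (Nat.shiftRight m (Nat.land (Nat.shiftRight m (Nat.land (Nat.shiftRight (Nat.shiftRight m (Nat.land (Nat.shiftRight m (Nat.land (Nat.shiftRight (Nat.shiftRight m (Nat.land (Nat.shiftRight c (nat_lit 9)) (nat_lit 65408))) (nat_lit 34)) (nat_lit 0x1ffff))) (nat_lit 0x1ffff))) (nat_lit 34)) (nat_lit 0x1ffff))) (nat_lit 0x1ffff))) (nat_lit 34)) (nat_lit 0x1ffff))) (nat_lit 0x1ffff))) (nat_lit 34)) (nat_lit 0x1ffff))) (nat_lit 0x1ffff))) (nat_lit 34)) (nat_lit 0x1ffff))) (nat_lit 0x1ffff))) (nat_lit 34)) (nat_lit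 0x1ffff))) (nat_lit 0x1ffff))) (nat_lit 60)) (nat_lit 1008))) (Nat.add (Nat.shiftRight VT (Nat.land (Nat.shiftRight (Nat.shiftRight m (Nat.land (Nat.shiftRight m (Nat.land (Nat.shiftRight (Nat.shiftRight m (Nat.land (Nat.shiftRight m (Nat.land (Nat.shiftRight (Nat.shiftRight m (Nat.land (Nat.shiftRight m (Nat.land (Nat.shiftRight (Nat.shiftRight m (Nat.land (Nat.shiftRight m (Nat.land (Nat.shiftRight (Nat.shiftRight m (Nat.land (Nat.shiftRight m (Nat.land (Nat.shiftRight (Nat.shiftRight m (Nat.land (Nat.shiftRight m (Nat.land (Nat.shiftRight (Nat.shiftRight m (Nat.land (Nat.shiftRight m (Nat.land (Nat.shiftRight (Nat.shiftRight m (Nat.land (Nat.shiftRight c (nat_lit 9)) (nat_lit 65408))) (nat_lit 34)) (nat_lit 0x1ffff))) (nat_lit 0x1ffff))) (nat_lit 34)) (nat_lit 0x1ffff))) (nat_lit 0x1ffff))) (nat_lit 34)) (nat_lit 0x1ffff))) (nat_lit 0x1ffff))) (nat_lit 34)) (nat_lit 0x1ffff))) (nat_lit 0x1ffff)))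 (nat_lit 34)) (nat_lit 0x1ffff))) (nat_lit 0x1ffff))) (nat_lit 34)) (nat_lit 0x1ffff))) (nat_lit 0x1ffff))) (nat_lit 34)) (nat_lit 0x1ffff))) (nat_lit 0x1ffff))) (nat_lit 60)) (nat_lit 1008))) (Nat.add (Nat.shiftRight VT (Nat.land (Nat.shiftRight (Nat.shiftRight m (Nat.land (Nat.shiftRight m (Nat.land (Nat.shiftRight (Nat.shiftRight m (Nat.land (Nat.shiftRight m (Nat.land (Nat.shiftRight (Nat.shiftRight m (Nat.land (Nat.shiftRight m (Nat.land (Nat.shiftRight (Nat.shiftRight m (Nat.land (Nat.shiftRight m (Nat.land (Nat.shiftRight (Nat.shiftRight m (Nat.land (Nat.shiftRight m (Nat.land (Nat.shiftRight (Nat.shiftRight m (Nat.land (Nat.shiftRight m (Nat.land (Nat.shiftRight (Nat.shiftRight m (Nat.land (Nat.shiftRight m (Nat.land (Nat.shiftRight (Nat.shiftRight m (Nat.land (Nat.shiftRight m (Nat.land (Nat.shiftRight (Nat.shiftRight m (Nat.land (Nat.shiftRight c (nat_lit 9)) (nat_lit 65408))) (nat_lit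 34)) (nat_lit 0x1ffff))) (nat_lit 0x1ffff))) (nat_lit 34)) (nat_lit 0x1ffff))) (nat_lit 0x1ffff))) (nat_lit 34)) (nat_lit 0x1ffff))) (nat_lit 0x1ffff))) (nat_lit 34)) (nat_lit 0x1ffff))) (nat_lit 0x1ffff))) (nat_lit 34)) (nat_lit 0x1ffff))) (nat_lit 0x1ffff))) (nat_lit 34)) (nat_lit 0x1ffff))) (nat_lit 0x1ffff))) (nat_lit 34)) (nat_lit 0x1ffff))) (nat_lit 0x1ffff))) (nat_lit 34)) (nat_lit 0x1ffff))) (nat_lit 0x1ffff))) (nat_lit 60)) (nat_lit 1008))) (Nat.add (Nat.shiftRight VT (Nat.land (Nat.shiftRight (Nat.shiftRight m (Nat.land (Nat.shiftRight m (Nat.land (Nat.shiftRight (Nat.shiftRight m (Nat.land (Nat.shiftRight m (Nat.land (Nat.shiftRight (Nat.shiftRight m (Nat.land (Nat.shiftRight m (Nat.land (Nat.shiftRight (Nat.shiftRight m (Nat.land (Nat.shiftRight m (Nat.land (Nat.shiftRight (Nat.shiftRight m (Nat.land (Nat.shiftRight m (Nat.land (Nat.shiftRight (Nat.shiftRight m (Nat.land (Nat.shiftRight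 m (Nat.land (Nat.shiftRight (Nat.shiftRight m (Nat.land (Nat.shiftRight m (Nat.land (Nat.shiftRight (Nat.shiftRight m (Nat.land (Nat.shiftRight m (Nat.land (Nat.shiftRight (Nat.shiftRight m (Nat.land (Nat.shiftRight m (Nat.land (Nat.shiftRight (Nat.shiftRight m (Nat.land (Nat.shiftRight c (nat_lit 9)) (nat_lit 65408))) (nat_lit 34)) (nat_lit 0x1ffff))) (nat_lit 0x1ffff))) (nat_lit 34)) (nat_lit 0x1ffff))) (nat_lit 0x1ffff))) (nat_lit 34)) (nat_lit 0x1ffff))) (nat_lit 0x1ffff))) (nat_lit 34)) (nat_lit 0x1ffff))) (nat_lit 0x1ffff))) (nat_lit 34)) (nat_lit 0x1ffff))) (nat_lit 0x1ffff))) (nat_lit 34)) (nat_lit 0x1ffff))) (nat_lit 0x1ffff))) (nat_lit 34)) (nat_lit 0x1ffff))) (nat_lit 0x1ffff))) (nat_lit 34)) (nat_lit 0x1ffff))) (nat_lit 0x1ffff))) (nat_lit 34)) (nat_lit 0x1ffff))) (nat_lit 0x1ffff))) (nat_lit 60)) (nat_lit 1008))) (Nat.shiftRight VT (Nat.land (Nat.shiftRight (Nat.shiftRight m (Nat.land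 (Nat.shiftRight m (Nat.land (Nat.shiftRight (Nat.shiftRight m (Nat.land (Nat.shiftRight m (Nat.land (Nat.shiftRight (Nat.shiftRight m (Nat.land (Nat.shiftRight m (Nat.land (Nat.shiftRight (Nat.shiftRight m (Nat.land (Nat.shiftRight m (Nat.land (Nat.shiftRight (Nat.shiftRight m (Nat.land (Nat.shiftRight m (Nat.land (Nat.shiftRight (Nat.shiftRight m (Nat.land (Nat.shiftRight m (Nat.land (Nat.shiftRight (Nat.shiftRight m (Nat.land (Nat.shiftRight m (Nat.land (Nat.shiftRight (Nat.shiftRight m (Nat.land (Nat.shiftRight m (Nat.land (Nat.shiftRight (Nat.shiftRight m (Nat.land (Nat.shiftRight m (Nat.land (Nat.shiftRight (Nat.shiftRight m (Nat.land (Nat.shiftRight m (Nat.land (Nat.shiftRight (Nat.shiftRight m (Nat.land (Nat.shiftRight c (nat_lit 9)) (nat_lit 65408))) (nat_lit 34)) (nat_lit 0x1ffff))) (nat_lit 0x1ffff))) (nat_lit 34)) (nat_lit 0x1ffff))) (nat_lit 0x1ffff))) (nat_lit 34)) (nat_lit 0x1ffff)))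 (nat_lit 0x1ffff))) (nat_lit 34)) (nat_lit 0x1ffff))) (nat_lit 0x1ffff))) (nat_lit 34)) (nat_lit 0x1ffff))) (nat_lit 0x1ffff))) (nat_lit 34)) (nat_lit 0x1ffff))) (nat_lit 0x1ffff))) (nat_lit 34)) (nat_lit 0x1ffff))) (nat_lit 0x1ffff))) (nat_lit 34)) (nat_lit 0x1ffff))) (nat_lit 0x1ffff))) (nat_lit 34)) (nat_lit 0x1ffff))) (nat_lit 0x1ffff))) (nat_lit 34)) (nat_lit 0x1ffff))) (nat_lit 0x1ffff))) (nat_lit 60)) (nat_lit 1008))))))))))))) (nat_lit 4)) (nat_lit 240)))) (nat_lit 65535)) (nat_lit 70)))) nd e (Nat.shiftRight c (nat_lit 25)))⟩ (fun _ _ => ⟨fun ih lim m nd e c => (ih.1 lim (Nat.lor m (Nat.mul ((mskF k).1 m (Nat.land (Nat.shiftRight c (nat_lit 9)) (nat_lit 65408))) (Nat.shiftLeft (Nat.lor (Nat.land (Nat.lor (Nat.shiftRight (nat_lit 0) (Nat.land (Nat.add (Nat.shiftRight VT (Nat.land (Nat.shiftRight (Nat.shiftRight m (Nat.land (Nat.shiftRight c (nat_lit 9)) (nat_lit 65408))) (nat_lit 60))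 (nat_lit 1008))) (Nat.add (Nat.shiftRight VT (Nat.land (Nat.shiftRight (Nat.shiftRight m (Nat.land (Nat.shiftRight m (Nat.land (Nat.shiftRight (Nat.shiftRight m (Nat.land (Nat.shiftRight c (nat_lit 9)) (nat_lit 65408))) (nat_lit 34)) (nat_lit 0x1ffff))) (nat_lit 0x1ffff))) (nat_lit 60)) (nat_lit 1008))) (Nat.add (Nat.shiftRight VT (Nat.land (Nat.shiftRight (Nat.shiftRight m (Nat.land (Nat.shiftRight m (Nat.land (Nat.shiftRight (Nat.shiftRight m (Nat.land (Nat.shiftRight m (Nat.land (Nat.shiftRight (Nat.shiftRight m (Nat.land (Nat.shiftRight c (nat_lit 9)) (nat_lit 65408))) (nat_lit 34)) (nat_lit 0x1ffff))) (nat_lit 0x1ffff))) (nat_lit 34)) (nat_lit 0x1ffff))) (nat_lit 0x1ffff))) (nat_lit 60)) (nat_lit 1008))) (Nat.add (Nat.shiftRight VT (Nat.land (Nat.shiftRight (Nat.shiftRight m (Nat.land (Nat.shiftRight m (Nat.land (Nat.shiftRight (Nat.shiftRight m (Nat.land (Nat.shiftRight m (Nat.land (Nat.shiftRight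 (Nat.shiftRight m (Nat.land (Nat.shiftRight m (Nat.land (Nat.shiftRight (Nat.shiftRight m (Nat.land (Nat.shiftRight c (nat_lit 9)) (nat_lit 65408))) (nat_lit 34)) (nat_lit 0x1ffff))) (nat_lit 0x1ffff))) (nat_lit 34)) (nat_lit 0x1ffff))) (nat_lit 0x1ffff))) (nat_lit 34)) (nat_lit 0x1ffff))) (nat_lit 0x1ffff))) (nat_lit 60)) (nat_lit 1008))) (Nat.add (Nat.shiftRight VT (Nat.land (Nat.shiftRight (Nat.shiftRight m (Nat.land (Nat.shiftRight m (Nat.land (Nat.shiftRight (Nat.shiftRight m (Nat.land (Nat.shiftRight m (Nat.land (Nat.shiftRight (Nat.shiftRight m (Nat.land (Nat.shiftRight m (Nat.land (Nat.shiftRight (Nat.shiftRight m (Nat.land (Nat.shiftRight m (Nat.land (Nat.shiftRight (Nat.shiftRight m (Nat.land (Nat.shiftRight c (nat_lit 9)) (nat_lit 65408))) (nat_lit 34)) (nat_lit 0x1ffff))) (nat_lit 0x1ffff))) (nat_lit 34)) (nat_lit 0x1ffff))) (nat_lit 0x1ffff))) (nat_lit 34)) (nat_lit 0x1ffff))) (nat_lit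 0x1ffff))) (nat_lit 34)) (nat_lit 0x1ffff))) (nat_lit 0x1ffff))) (nat_lit 60)) (nat_lit 1008))) (Nat.add (Nat.shiftRight VT (Nat.land (Nat.shiftRight (Nat.shiftRight m (Nat.land (Nat.shiftRight m (Nat.land (Nat.shiftRight (Nat.shiftRight m (Nat.land (Nat.shiftRight m (Nat.land (Nat.shiftRight (Nat.shiftRight m (Nat.land (Nat.shiftRight m (Nat.land (Nat.shiftRight (Nat.shiftRight m (Nat.land (Nat.shiftRight m (Nat.land (Nat.shiftRight (Nat.shiftRight m (Nat.land (Nat.shiftRight m (Nat.land (Nat.shiftRight (Nat.shiftRight m (Nat.land (Nat.shiftRight c (nat_lit 9)) (nat_lit 65408))) (nat_lit 34)) (nat_lit 0x1ffff))) (nat_lit 0x1ffff))) (nat_lit 34)) (nat_lit 0x1ffff))) (nat_lit 0x1ffff))) (nat_lit 34)) (nat_lit 0x1ffff))) (nat_lit 0x1ffff))) (nat_lit 34)) (nat_lit 0x1ffff))) (nat_lit 0x1ffff))) (nat_lit 34)) (nat_lit 0x1ffff))) (nat_lit 0x1ffff))) (nat_lit 60)) (nat_lit 1008))) (Nat.add (Nat.shiftRight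 VT (Nat.land (Nat.shiftRight (Nat.shiftRight m (Nat.land (Nat.shiftRight m (Nat.land (Nat.shiftRight (Nat.shiftRight m (Nat.land (Nat.shiftRight m (Nat.land (Nat.shiftRight (Nat.shiftRight m (Nat.land (Nat.shiftRight m (Nat.land (Nat.shiftRight (Nat.shiftRight m (Nat.land (Nat.shiftRight m (Nat.land (Nat.shiftRight (Nat.shiftRight m (Nat.land (Nat.shiftRight m (Nat.land (Nat.shiftRight (Nat.shiftRight m (Nat.land (Nat.shiftRight m (Nat.land (Nat.shiftRight (Nat.shiftRight m (Nat.land (Nat.shiftRight c (nat_lit 9)) (nat_lit 65408))) (nat_lit 34)) (nat_lit 0x1ffff))) (nat_lit 0x1ffff))) (nat_lit 34)) (nat_lit 0x1ffff))) (nat_lit 0x1ffff))) (nat_lit 34)) (nat_lit 0x1ffff))) (nat_lit 0x1ffff))) (nat_lit 34)) (nat_lit 0x1ffff))) (nat_lit 0x1ffff))) (nat_lit 34)) (nat_lit 0x1ffff))) (nat_lit 0x1ffff))) (nat_lit 34)) (nat_lit 0x1ffff))) (nat_lit 0x1ffff))) (nat_lit 60)) (nat_lit 1008))) (Nat.add (Nat.shiftRight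 VT (Nat.land (Nat.shiftRight (Nat.shiftRight m (Nat.land (Nat.shiftRight m (Nat.land (Nat.shiftRight (Nat.shiftRight m (Nat.land (Nat.shiftRight m (Nat.land (Nat.shiftRight (Nat.shiftRight m (Nat.land (Nat.shiftRight m (Nat.land (Nat.shiftRight (Nat.shiftRight m (Nat.land (Nat.shiftRight m (Nat.land (Nat.shiftRight (Nat.shiftRight m (Nat.land (Nat.shiftRight m (Nat.land (Nat.shiftRight (Nat.shiftRight m (Nat.land (Nat.shiftRight m (Nat.land (Nat.shiftRight (Nat.shiftRight m (Nat.land (Nat.shiftRight m (Nat.land (Nat.shiftRight (Nat.shiftRight m (Nat.land (Nat.shiftRight c (nat_lit 9)) (nat_lit 65408))) (nat_lit 34)) (nat_lit 0x1ffff))) (nat_lit 0x1ffff))) (nat_lit 34)) (nat_lit 0x1ffff))) (nat_lit 0x1ffff))) (nat_lit 34)) (nat_lit 0x1ffff))) (nat_lit 0x1ffff))) (nat_lit 34)) (nat_lit 0x1ffff))) (nat_lit 0x1ffff))) (nat_lit 34)) (nat_lit 0x1ffff))) (nat_lit 0x1ffff))) (nat_lit 34)) (nat_lit 0x1ffff)))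 (nat_lit 0x1ffff))) (nat_lit 34)) (nat_lit 0x1ffff))) (nat_lit 0x1ffff))) (nat_lit 60)) (nat_lit 1008))) (Nat.add (Nat.shiftRight VT (Nat.land (Nat.shiftRight (Nat.shiftRight m (Nat.land (Nat.shiftRight m (Nat.land (Nat.shiftRight (Nat.shiftRight m (Nat.land (Nat.shiftRight m (Nat.land (Nat.shiftRight (Nat.shiftRight m (Nat.land (Nat.shiftRight m (Nat.land (Nat.shiftRight (Nat.shiftRight m (Nat.land (Nat.shiftRight m (Nat.land (Nat.shiftRight (Nat.shiftRight m (Nat.land (Nat.shiftRight m (Nat.land (Nat.shiftRight (Nat.shiftRight m (Nat.land (Nat.shiftRight m (Nat.land (Nat.shiftRight (Nat.shiftRight m (Nat.land (Nat.shiftRight m (Nat.land (Nat.shiftRight (Nat.shiftRight m (Nat.land (Nat.shiftRight m (Nat.land (Nat.shiftRight (Nat.shiftRight m (Nat.land (Nat.shiftRight c (nat_lit 9)) (nat_lit 65408))) (nat_lit 34)) (nat_lit 0x1ffff))) (nat_lit 0x1ffff))) (nat_lit 34)) (nat_lit 0x1ffff))) (nat_lit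 0x1ffff))) (nat_lit 34)) (nat_lit 0x1ffff))) (nat_lit 0x1ffff))) (nat_lit 34)) (nat_lit 0x1ffff))) (nat_lit 0x1ffff))) (nat_lit 34)) (nat_lit 0x1ffff))) (nat_lit 0x1ffff))) (nat_lit 34)) (nat_lit 0x1ffff))) (nat_lit 0x1ffff))) (nat_lit 34)) (nat_lit 0x1ffff))) (nat_lit 0x1ffff))) (nat_lit 34)) (nat_lit 0x1ffff))) (nat_lit 0x1ffff))) (nat_lit 60)) (nat_lit 1008))) (Nat.add (Nat.shiftRight VT (Nat.land (Nat.shiftRight (Nat.shiftRight m (Nat.land (Nat.shiftRight m (Nat.land (Nat.shiftRight (Nat.shiftRight m (Nat.land (Nat.shiftRight m (Nat.land (Nat.shiftRight (Nat.shiftRight m (Nat.land (Nat.shiftRight m (Nat.land (Nat.shiftRight (Nat.shiftRight m (Nat.land (Nat.shiftRight m (Nat.land (Nat.shiftRight (Nat.shiftRight m (Nat.land (Nat.shiftRight m (Nat.land (Nat.shiftRight (Nat.shiftRight m (Nat.land (Nat.shiftRight m (Nat.land (Nat.shiftRight (Nat.shiftRight m (Nat.land (Nat.shiftRight m (Nat.land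 (Nat.shiftRight (Nat.shiftRight m (Nat.land (Nat.shiftRight m (Nat.land (Nat.shiftRight (Nat.shiftRight m (Nat.land (Nat.shiftRight m (Nat.land (Nat.shiftRight (Nat.shiftRight m (Nat.land (Nat.shiftRight c (nat_lit 9)) (nat_lit 65408))) (nat_lit 34)) (nat_lit 0x1ffff))) (nat_lit 0x1ffff))) (nat_lit 34)) (nat_lit 0x1ffff))) (nat_lit 0x1ffff))) (nat_lit 34)) (nat_lit 0x1ffff))) (nat_lit 0x1ffff))) (nat_lit 34)) (nat_lit 0x1ffff))) (nat_lit 0x1ffff))) (nat_lit 34)) (nat_lit 0x1ffff))) (nat_lit 0x1ffff))) (nat_lit 34)) (nat_lit 0x1ffff))) (nat_lit 0x1ffff))) (nat_lit 34)) (nat_lit 0x1ffff))) (nat_lit 0x1ffff))) (nat_lit 34)) (nat_lit 0x1ffff))) (nat_lit 0x1ffff))) (nat_lit 34)) (nat_lit 0x1ffff))) (nat_lit 0x1ffff))) (nat_lit 60)) (nat_lit 1008))) (Nat.shiftRight VT (Nat.land (Nat.shiftRight (Nat.shiftRight m (Nat.land (Nat.shiftRight m (Nat.land (Nat.shiftRight (Nat.shiftRight m (Nat.land (Nat.shiftRight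 m (Nat.land (Nat.shiftRight (Nat.shiftRight m (Nat.land (Nat.shiftRight m (Nat.land (Nat.shiftRight (Nat.shiftRight m (Nat.land (Nat.shiftRight m (Nat.land (Nat.shiftRight (Nat.shiftRight m (Nat.land (Nat.shiftRight m (Nat.land (Nat.shiftRight (Nat.shiftRight m (Nat.land (Nat.shiftRight m (Nat.land (Nat.shiftRight (Nat.shiftRight m (Nat.land (Nat.shiftRight m (Nat.land (Nat.shiftRight (Nat.shiftRight m (Nat.land (Nat.shiftRight m (Nat.land (Nat.shiftRight (Nat.shiftRight m (Nat.land (Nat.shiftRight m (Nat.land (Nat.shiftRight (Nat.shiftRight m (Nat.land (Nat.shiftRight m (Nat.land (Nat.shiftRight (Nat.shiftRight m (Nat.land (Nat.shiftRight c (nat_lit 9)) (nat_lit 65408))) (nat_lit 34)) (nat_lit 0x1ffff))) (nat_lit 0x1ffff))) (nat_lit 34)) (nat_lit 0x1ffff))) (nat_lit 0x1ffff))) (nat_lit 34)) (nat_lit 0x1ffff))) (nat_lit 0x1ffff))) (nat_lit 34)) (nat_lit 0x1ffff))) (nat_lit 0x1ffff))) (nat_lit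 34)) (nat_lit 0x1ffff))) (nat_lit 0x1ffff))) (nat_lit 34)) (nat_lit 0x1ffff))) (nat_lit 0x1ffff))) (nat_lit 34)) (nat_lit 0x1ffff))) (nat_lit 0x1ffff))) (nat_lit 34)) (nat_lit 0x1ffff))) (nat_lit 0x1ffff))) (nat_lit 34)) (nat_lit 0x1ffff))) (nat_lit 0x1ffff))) (nat_lit 34)) (nat_lit 0x1ffff))) (nat_lit 0x1ffff))) (nat_lit 60)) (nat_lit 1008))))))))))))) (nat_lit 240))) (Nat.shiftRight (nat_lit 0) (Nat.land (Nat.shiftRight (Nat.add (Nat.shiftRight VT (Nat.land (Nat.shiftRight (Nat.shiftRight m (Nat.land (Nat.shiftRight c (nat_lit 9)) (nat_lit 65408))) (nat_lit 60)) (nat_lit 1008))) (Nat.add (Nat.shiftRight VT (Nat.land (Nat.shiftRight (Nat.shiftRight m (Nat.land (Nat.shiftRight m (Nat.land (Nat.shiftRight (Nat.shiftRight m (Nat.land (Nat.shiftRight c (nat_lit 9)) (nat_lit 65408))) (nat_lit 34)) (nat_lit 0x1ffff))) (nat_lit 0x1ffff))) (nat_lit 60)) (nat_lit 1008))) (Nat.add (Nat.shiftRight VT (Nat.land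 (Nat.shiftRight (Nat.shiftRight m (Nat.land (Nat.shiftRight m (Nat.land (Nat.shiftRight (Nat.shiftRight m (Nat.land (Nat.shiftRight m (Nat.land (Nat.shiftRight (Nat.shiftRight m (Nat.land (Nat.shiftRight c (nat_lit 9)) (nat_lit 65408))) (nat_lit 34)) (nat_lit 0x1ffff))) (nat_lit 0x1ffff))) (nat_lit 34)) (nat_lit 0x1ffff))) (nat_lit 0x1ffff))) (nat_lit 60)) (nat_lit 1008))) (Nat.add (Nat.shiftRight VT (Nat.land (Nat.shiftRight (Nat.shiftRight m (Nat.land (Nat.shiftRight m (Nat.land (Nat.shiftRight (Nat.shiftRight m (Nat.land (Nat.shiftRight m (Nat.land (Nat.shiftRight (Nat.shiftRight m (Nat.land (Nat.shiftRight m (Nat.land (Nat.shiftRight (Nat.shiftRight m (Nat.land (Nat.shiftRight c (nat_lit 9)) (nat_lit 65408))) (nat_lit 34)) (nat_lit 0x1ffff))) (nat_lit 0x1ffff))) (nat_lit 34)) (nat_lit 0x1ffff))) (nat_lit 0x1ffff))) (nat_lit 34)) (nat_lit 0x1ffff))) (nat_lit 0x1ffff))) (nat_lit 60)) (nat_lit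 1008))) (Nat.add (Nat.shiftRight VT (Nat.land (Nat.shiftRight (Nat.shiftRight m (Nat.land (Nat.shiftRight m (Nat.land (Nat.shiftRight (Nat.shiftRight m (Nat.land (Nat.shiftRight m (Nat.land (Nat.shiftRight (Nat.shiftRight m (Nat.land (Nat.shiftRight m (Nat.land (Nat.shiftRight (Nat.shiftRight m (Nat.land (Nat.shiftRight m (Nat.land (Nat.shiftRight (Nat.shiftRight m (Nat.land (Nat.shiftRight c (nat_lit 9)) (nat_lit 65408))) (nat_lit 34)) (nat_lit 0x1ffff))) (nat_lit 0x1ffff))) (nat_lit 34)) (nat_lit 0x1ffff))) (nat_lit 0x1ffff))) (nat_lit 34)) (nat_lit 0x1ffff))) (nat_lit 0x1ffff))) (nat_lit 34)) (nat_lit 0x1ffff))) (nat_lit 0x1ffff))) (nat_lit 60)) (nat_lit 1008))) (Nat.add (Nat.shiftRight VT (Nat.land (Nat.shiftRight (Nat.shiftRight m (Nat.land (Nat.shiftRight m (Nat.land (Nat.shiftRight (Nat.shiftRight m (Nat.land (Nat.shiftRight m (Nat.land (Nat.shiftRight (Nat.shiftRight m (Nat.land (Nat.shiftRight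 m (Nat.land (Nat.shiftRight (Nat.shiftRight m (Nat.land (Nat.shiftRight m (Nat.land (Nat.shiftRight (Nat.shiftRight m (Nat.land (Nat.shiftRight m (Nat.land (Nat.shiftRight (Nat.shiftRight m (Nat.land (Nat.shiftRight c (nat_lit 9)) (nat_lit 65408))) (nat_lit 34)) (nat_lit 0x1ffff))) (nat_lit 0x1ffff))) (nat_lit 34)) (nat_lit 0x1ffff))) (nat_lit 0x1ffff))) (nat_lit 34)) (nat_lit 0x1ffff))) (nat_lit 0x1ffff))) (nat_lit 34)) (nat_lit 0x1ffff))) (nat_lit 0x1ffff))) (nat_lit 34)) (nat_lit 0x1ffff))) (nat_lit 0x1ffff))) (nat_lit 60)) (nat_lit 1008))) (Nat.add (Nat.shiftRight VT (Nat.land (Nat.shiftRight (Nat.shiftRight m (Nat.land (Nat.shiftRight m (Nat.land (Nat.shiftRight (Nat.shiftRight m (Nat.land (Nat.shiftRight m (Nat.land (Nat.shiftRight (Nat.shiftRight m (Nat.land (Nat.shiftRight m (Nat.land (Nat.shiftRight (Nat.shiftRight m (Nat.land (Nat.shiftRight m (Nat.land (Nat.shiftRight (Nat.shiftRight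 m (Nat.land (Nat.shiftRight m (Nat.land (Nat.shiftRight (Nat.shiftRight m (Nat.land (Nat.shiftRight m (Nat.land (Nat.shiftRight (Nat.shiftRight m (Nat.land (Nat.shiftRight c (nat_lit 9)) (nat_lit 65408))) (nat_lit 34)) (nat_lit 0x1ffff))) (nat_lit 0x1ffff))) (nat_lit 34)) (nat_lit 0x1ffff))) (nat_lit 0x1ffff))) (nat_lit 34)) (nat_lit 0x1ffff))) (nat_lit 0x1ffff))) (nat_lit 34)) (nat_lit 0x1ffff))) (nat_lit 0x1ffff))) (nat_lit 34)) (nat_lit 0x1ffff))) (nat_lit 0x1ffff))) (nat_lit 34)) (nat_lit 0x1ffff))) (nat_lit 0x1ffff))) (nat_lit 60)) (nat_lit 1008))) (Nat.add (Nat.shiftRight VT (Nat.land (Nat.shiftRight (Nat.shiftRight m (Nat.land (Nat.shiftRight m (Nat.land (Nat.shiftRight (Nat.shiftRight m (Nat.land (Nat.shiftRight m (Nat.land (Nat.shiftRight (Nat.shiftRight m (Nat.land (Nat.shiftRight m (Nat.land (Nat.shiftRight (Nat.shiftRight m (Nat.land (Nat.shiftRight m (Nat.land (Nat.shiftRight (Nat.shiftRight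 m (Nat.land (Nat.shiftRight m (Nat.land (Nat.shiftRight (Nat.shiftRight m (Nat.land (Nat.shiftRight m (Nat.land (Nat.shiftRight (Nat.shiftRight m (Nat.land (Nat.shiftRight m (Nat.land (Nat.shiftRight (Nat.shiftRight m (Nat.land (Nat.shiftRight c (nat_lit 9)) (nat_lit 65408))) (nat_lit 34)) (nat_lit 0x1ffff))) (nat_lit 0x1ffff))) (nat_lit 34)) (nat_lit 0x1ffff))) (nat_lit 0x1ffff))) (nat_lit 34)) (nat_lit 0x1ffff))) (nat_lit 0x1ffff))) (nat_lit 34)) (nat_lit 0x1ffff))) (nat_lit 0x1ffff))) (nat_lit 34)) (nat_lit 0x1ffff))) (nat_lit 0x1ffff))) (nat_lit 34)) (nat_lit 0x1ffff))) (nat_lit 0x1ffff))) (nat_lit 34)) (nat_lit 0x1ffff))) (nat_lit 0x1ffff))) (nat_lit 60)) (nat_lit 1008))) (Nat.add (Nat.shiftRight VT (Nat.land (Nat.shiftRight (Nat.shiftRight m (Nat.land (Nat.shiftRight m (Nat.land (Nat.shiftRight (Nat.shiftRight m (Nat.land (Nat.shiftRight m (Nat.land (Nat.shiftRight (Nat.shiftRight m (Nat.land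 (Nat.shiftRight m (Nat.land (Nat.shiftRight (Nat.shiftRight m (Nat.land (Nat.shiftRight m (Nat.land (Nat.shiftRight (Nat.shiftRight m (Nat.land (Nat.shiftRight m (Nat.land (Nat.shiftRight (Nat.shiftRight m (Nat.land (Nat.shiftRight m (Nat.land (Nat.shiftRight (Nat.shiftRight m (Nat.land (Nat.shiftRight m (Nat.land (Nat.shiftRight (Nat.shiftRight m (Nat.land (Nat.shiftRight m (Nat.land (Nat.shiftRight (Nat.shiftRight m (Nat.land (Nat.shiftRight c (nat_lit 9)) (nat_lit 65408))) (nat_lit 34)) (nat_lit 0x1ffff))) (nat_lit 0x1ffff))) (nat_lit 34)) (nat_lit 0x1ffff))) (nat_lit 0x1ffff))) (nat_lit 34)) (nat_lit 0x1ffff))) (nat_lit 0x1ffff))) (nat_lit 34)) (nat_lit 0x1ffff))) (nat_lit 0x1ffff))) (nat_lit 34)) (nat_lit 0x1ffff))) (nat_lit 0x1ffff))) (nat_lit 34)) (nat_lit 0x1ffff))) (nat_lit 0x1ffff))) (nat_lit 34)) (nat_lit 0x1ffff))) (nat_lit 0x1ffff))) (nat_lit 34)) (nat_lit 0x1ffff))) (nat_lit 0x1ffff)))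 (nat_lit 60)) (nat_lit 1008))) (Nat.add (Nat.shiftRight VT (Nat.land (Nat.shiftRight (Nat.shiftRight m (Nat.land (Nat.shiftRight m (Nat.land (Nat.shiftRight (Nat.shiftRight m (Nat.land (Nat.shiftRight m (Nat.land (Nat.shiftRight (Nat.shiftRight m (Nat.land (Nat.shiftRight m (Nat.land (Nat.shiftRight (Nat.shiftRight m (Nat.land (Nat.shiftRight m (Nat.land (Nat.shiftRight (Nat.shiftRight m (Nat.land (Nat.shiftRight m (Nat.land (Nat.shiftRight (Nat.shiftRight m (Nat.land (Nat.shiftRight m (Nat.land (Nat.shiftRight (Nat.shiftRight m (Nat.land (Nat.shiftRight m (Nat.land (Nat.shiftRight (Nat.shiftRight m (Nat.land (Nat.shiftRight m (Nat.land (Nat.shiftRight (Nat.shiftRight m (Nat.land (Nat.shiftRight m (Nat.land (Nat.shiftRight (Nat.shiftRight m (Nat.land (Nat.shiftRight c (nat_lit 9)) (nat_lit 65408))) (nat_lit 34)) (nat_lit 0x1ffff))) (nat_lit 0x1ffff))) (nat_lit 34)) (nat_lit 0x1ffff))) (nat_lit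 0x1ffff))) (nat_lit 34)) (nat_lit 0x1ffff))) (nat_lit 0x1ffff))) (nat_lit 34)) (nat_lit 0x1ffff))) (nat_lit 0x1ffff))) (nat_lit 34)) (nat_lit 0x1ffff))) (nat_lit 0x1ffff))) (nat_lit 34)) (nat_lit 0x1ffff))) (nat_lit 0x1ffff))) (nat_lit 34)) (nat_lit 0x1ffff))) (nat_lit 0x1ffff))) (nat_lit 34)) (nat_lit 0x1ffff))) (nat_lit 0x1ffff))) (nat_lit 34)) (nat_lit 0x1ffff))) (nat_lit 0x1ffff))) (nat_lit 60)) (nat_lit 1008))) (Nat.shiftRight VT (Nat.land (Nat.shiftRight (Nat.shiftRight m (Nat.land (Nat.shiftRight m (Nat.land (Nat.shiftRight (Nat.shiftRight m (Nat.land (Nat.shiftRight m (Nat.land (Nat.shiftRight (Nat.shiftRight m (Nat.land (Nat.shiftRight m (Nat.land (Nat.shiftRight (Nat.shiftRight m (Nat.land (Nat.shiftRight m (Nat.land (Nat.shiftRight (Nat.shiftRight m (Nat.land (Nat.shiftRight m (Nat.land (Nat.shiftRight (Nat.shiftRight m (Nat.land (Nat.shiftRight m (Nat.land (Nat.shiftRight (Nat.shiftRight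 m (Nat.land (Nat.shiftRight m (Nat.land (Nat.shiftRight (Nat.shiftRight m (Nat.land (Nat.shiftRight m (Nat.land (Nat.shiftRight (Nat.shiftRight m (Nat.land (Nat.shiftRight m (Nat.land (Nat.shiftRight (Nat.shiftRight m (Nat.land (Nat.shiftRight m (Nat.land (Nat.shiftRight (Nat.shiftRight m (Nat.land (Nat.shiftRight c (nat_lit 9)) (nat_lit 65408))) (nat_lit 34)) (nat_lit 0x1ffff))) (nat_lit 0x1ffff))) (nat_lit 34)) (nat_lit 0x1ffff))) (nat_lit 0x1ffff))) (nat_lit 34)) (nat_lit 0x1ffff))) (nat_lit 0x1ffff))) (nat_lit 34)) (nat_lit 0x1ffff))) (nat_lit 0x1ffff))) (nat_lit 34)) (nat_lit 0x1ffff))) (nat_lit 0x1ffff))) (nat_lit 34)) (nat_lit 0x1ffff))) (nat_lit 0x1ffff))) (nat_lit 34)) (nat_lit 0x1ffff))) (nat_lit 0x1ffff))) (nat_lit 34)) (nat_lit 0x1ffff))) (nat_lit 0x1ffff))) (nat_lit 34)) (nat_lit 0x1ffff))) (nat_lit 0x1ffff))) (nat_lit 34)) (nat_lit 0x1ffff))) (nat_lit 0x1ffff))) (nat_lit 60)) (nat_lit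 1008))))))))))))) (nat_lit 4)) (nat_lit 240)))) (nat_lit 65535)) (nat_lit 0x3edfff)) (nat_lit 70)))) (Nat.add nd (Nat.shiftLeft (Nat.xor (Nat.land (Nat.shiftRight m (Nat.land (Nat.shiftRight (Nat.shiftRight m (Nat.land (Nat.shiftRight m (Nat.land (Nat.shiftRight (Nat.shiftRight m (Nat.land (Nat.shiftRight m (Nat.land (Nat.shiftRight (Nat.shiftRight m (Nat.land (Nat.shiftRight m (Nat.land (Nat.shiftRight (Nat.shiftRight m (Nat.land (Nat.shiftRight m (Nat.land (Nat.shiftRight (Nat.shiftRight m (Nat.land (Nat.shiftRight m (Nat.land (Nat.shiftRight (Nat.shiftRight m (Nat.land (Nat.shiftRight m (Nat.land (Nat.shiftRight (Nat.shiftRight m (Nat.land (Nat.shiftRight m (Nat.land (Nat.shiftRight (Nat.shiftRight m (Nat.land (Nat.shiftRight m (Nat.land (Nat.shiftRight (Nat.shiftRight m (Nat.land (Nat.shiftRight m (Nat.land (Nat.shiftRight (Nat.shiftRight m (Nat.land (Nat.shiftRight m (Nat.land (Nat.shiftRight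 (Nat.shiftRight m (Nat.land (Nat.shiftRight c (nat_lit 9)) (nat_lit 65408))) (nat_lit 34)) (nat_lit 0x1ffff))) (nat_lit 0x1ffff))) (nat_lit 34)) (nat_lit 0x1ffff))) (nat_lit 0x1ffff))) (nat_lit 34)) (nat_lit 0x1ffff))) (nat_lit 0x1ffff))) (nat_lit 34)) (nat_lit 0x1ffff))) (nat_lit 0x1ffff))) (nat_lit 34)) (nat_lit 0x1ffff))) (nat_lit 0x1ffff))) (nat_lit 34)) (nat_lit 0x1ffff))) (nat_lit 0x1ffff))) (nat_lit 34)) (nat_lit 0x1ffff))) (nat_lit 0x1ffff))) (nat_lit 34)) (nat_lit 0x1ffff))) (nat_lit 0x1ffff))) (nat_lit 34)) (nat_lit 0x1ffff))) (nat_lit 0x1ffff))) (nat_lit 34)) (nat_lit 0x1ffff))) (nat_lit 0x1ffff))) (nat_lit 34)) (nat_lit 0x1ffff))) (nat_lit 0x1ffff)) (Nat.land (Nat.shiftRight c (nat_lit 9)) (nat_lit 65408))) (nat_lit 16))) e (Nat.shiftRight c (nat_lit 25)))⟩) (Nat.shiftRight k (nat_lit 15)))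

def oRel12 (k : ℕ) : Op :=
  (@Nat.rec (fun _ => Op) ⟨fun ih lim m nd e c => (ih.1 lim (Nat.lor m (Nat.mul ((mskF k).1 m (Nat.land (Nat.shiftRight c (nat_lit 9)) (nat_lit 65408))) (Nat.shiftLeft (Nat.land (Nat.lor (Nat.shiftRight (nat_lit 0) (Nat.land (Nat.add (Nat.shiftRight VT (Nat.land (Nat.shiftRight (Nat.shiftRight m (Nat.land (Nat.shiftRight c (nat_lit 9)) (nat_lit 65408))) (nat_lit 60)) (nat_lit 1008))) (Nat.add (Nat.shiftRight VT (Nat.land (Nat.shiftRight (Nat.shiftRight m (Nat.land (Nat.shiftRight m (Nat.land (Nat.shiftRight (Nat.shiftRight m (Nat.land (Nat.shiftRight c (nat_lit 9)) (nat_lit 65408))) (nat_lit 34)) (nat_lit 0x1ffff))) (nat_lit 0x1ffff))) (nat_lit 60)) (nat_lit 1008))) (Nat.add (Nat.shiftRight VT (Nat.land (Nat.shiftRight (Nat.shiftRight m (Nat.land (Nat.shiftRight m (Nat.land (Nat.shiftRight (Nat.shiftRight m (Nat.land (Nat.shiftRight m (Nat.land (Nat.shiftRight (Nat.shiftRight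 m (Nat.land (Nat.shiftRight c (nat_lit 9)) (nat_lit 65408))) (nat_lit 34)) (nat_lit 0x1ffff))) (nat_lit 0x1ffff))) (nat_lit 34)) (nat_lit 0x1ffff))) (nat_lit 0x1ffff))) (nat_lit 60)) (nat_lit 1008))) (Nat.add (Nat.shiftRight VT (Nat.land (Nat.shiftRight (Nat.shiftRight m (Nat.land (Nat.shiftRight m (Nat.land (Nat.shiftRight (Nat.shiftRight m (Nat.land (Nat.shiftRight m (Nat.land (Nat.shiftRight (Nat.shiftRight m (Nat.land (Nat.shiftRight m (Nat.land (Nat.shiftRight (Nat.shiftRight m (Nat.land (Nat.shiftRight c (nat_lit 9)) (nat_lit 65408))) (nat_lit 34)) (nat_lit 0x1ffff))) (nat_lit 0x1ffff))) (nat_lit 34)) (nat_lit 0x1ffff))) (nat_lit 0x1ffff))) (nat_lit 34)) (nat_lit 0x1ffff))) (nat_lit 0x1ffff))) (nat_lit 60)) (nat_lit 1008))) (Nat.add (Nat.shiftRight VT (Nat.land (Nat.shiftRight (Nat.shiftRight m (Nat.land (Nat.shiftRight m (Nat.land (Nat.shiftRight (Nat.shiftRight m (Nat.land (Nat.shiftRight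 m (Nat.land (Nat.shiftRight (Nat.shiftRight m (Nat.land (Nat.shiftRight m (Nat.land (Nat.shiftRight (Nat.shiftRight m (Nat.land (Nat.shiftRight m (Nat.land (Nat.shiftRight (Nat.shiftRight m (Nat.land (Nat.shiftRight c (nat_lit 9)) (nat_lit 65408))) (nat_lit 34)) (nat_lit 0x1ffff))) (nat_lit 0x1ffff))) (nat_lit 34)) (nat_lit 0x1ffff))) (nat_lit 0x1ffff))) (nat_lit 34)) (nat_lit 0x1ffff))) (nat_lit 0x1ffff))) (nat_lit 34)) (nat_lit 0x1ffff))) (nat_lit 0x1ffff))) (nat_lit 60)) (nat_lit 1008))) (Nat.add (Nat.shiftRight VT (Nat.land (Nat.shiftRight (Nat.shiftRight m (Nat.land (Nat.shiftRight m (Nat.land (Nat.shiftRight (Nat.shiftRight m (Nat.land (Nat.shiftRight m (Nat.land (Nat.shiftRight (Nat.shiftRight m (Nat.land (Nat.shiftRight m (Nat.land (Nat.shiftRight (Nat.shiftRight m (Nat.land (Nat.shiftRight m (Nat.land (Nat.shiftRight (Nat.shiftRight m (Nat.land (Nat.shiftRight m (Nat.land (Nat.shiftRight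 (Nat.shiftRight m (Nat.land (Nat.shiftRight c (nat_lit 9)) (nat_lit 65408))) (nat_lit 34)) (nat_lit 0x1ffff))) (nat_lit 0x1ffff))) (nat_lit 34)) (nat_lit 0x1ffff))) (nat_lit 0x1ffff))) (nat_lit 34)) (nat_lit 0x1ffff))) (nat_lit 0x1ffff))) (nat_lit 34)) (nat_lit 0x1ffff))) (nat_lit 0x1ffff))) (nat_lit 34)) (nat_lit 0x1ffff))) (nat_lit 0x1ffff))) (nat_lit 60)) (nat_lit 1008))) (Nat.add (Nat.shiftRight VT (Nat.land (Nat.shiftRight (Nat.shiftRight m (Nat.land (Nat.shiftRight m (Nat.land (Nat.shiftRight (Nat.shiftRight m (Nat.land (Nat.shiftRight m (Nat.land (Nat.shiftRight (Nat.shiftRight m (Nat.land (Nat.shiftRight m (Nat.land (Nat.shiftRight (Nat.shiftRight m (Nat.land (Nat.shiftRight m (Nat.land (Nat.shiftRight (Nat.shiftRight m (Nat.land (Nat.shiftRight m (Nat.land (Nat.shiftRight (Nat.shiftRight m (Nat.land (Nat.shiftRight m (Nat.land (Nat.shiftRight (Nat.shiftRight m (Nat.land (Nat.shiftRight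 c (nat_lit 9)) (nat_lit 65408))) (nat_lit 34)) (nat_lit 0x1ffff))) (nat_lit 0x1ffff))) (nat_lit 34)) (nat_lit 0x1ffff))) (nat_lit 0x1ffff))) (nat_lit 34)) (nat_lit 0x1ffff))) (nat_lit 0x1ffff))) (nat_lit 34)) (nat_lit 0x1ffff))) (nat_lit 0x1ffff))) (nat_lit 34)) (nat_lit 0x1ffff))) (nat_lit 0x1ffff))) (nat_lit 34)) (nat_lit 0x1ffff))) (nat_lit 0x1ffff))) (nat_lit 60)) (nat_lit 1008))) (Nat.add (Nat.shiftRight VT (Nat.land (Nat.shiftRight (Nat.shiftRight m (Nat.land (Nat.shiftRight m (Nat.land (Nat.shiftRight (Nat.shiftRight m (Nat.land (Nat.shiftRight m (Nat.land (Nat.shiftRight (Nat.shiftRight m (Nat.land (Nat.shiftRight m (Nat.land (Nat.shiftRight (Nat.shiftRight m (Nat.land (Nat.shiftRight m (Nat.land (Nat.shiftRight (Nat.shiftRight m (Nat.land (Nat.shiftRight m (Nat.land (Nat.shiftRight (Nat.shiftRight m (Nat.land (Nat.shiftRight m (Nat.land (Nat.shiftRight (Nat.shiftRight m (Nat.land (Nat.shiftRight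 m (Nat.land (Nat.shiftRight (Nat.shiftRight m (Nat.land (Nat.shiftRight c (nat_lit 9)) (nat_lit 65408))) (nat_lit 34)) (nat_lit 0x1ffff))) (nat_lit 0x1ffff))) (nat_lit 34)) (nat_lit 0x1ffff))) (nat_lit 0x1ffff))) (nat_lit 34)) (nat_lit 0x1ffff))) (nat_lit 0x1ffff))) (nat_lit 34)) (nat_lit 0x1ffff))) (nat_lit 0x1ffff))) (nat_lit 34)) (nat_lit 0x1ffff))) (nat_lit 0x1ffff))) (nat_lit 34)) (nat_lit 0x1ffff))) (nat_lit 0x1ffff))) (nat_lit 34)) (nat_lit 0x1ffff))) (nat_lit 0x1ffff))) (nat_lit 60)) (nat_lit 1008))) (Nat.add (Nat.shiftRight VT (Nat.land (Nat.shiftRight (Nat.shiftRight m (Nat.land (Nat.shiftRight m (Nat.land (Nat.shiftRight (Nat.shiftRight m (Nat.land (Nat.shiftRight m (Nat.land (Nat.shiftRight (Nat.shiftRight m (Nat.land (Nat.shiftRight m (Nat.land (Nat.shiftRight (Nat.shiftRight m (Nat.land (Nat.shiftRight m (Nat.land (Nat.shiftRight (Nat.shiftRight m (Nat.land (Nat.shiftRight m (Nat.land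 (Nat.shiftRight (Nat.shiftRight m (Nat.land (Nat.shiftRight m (Nat.land (Nat.shiftRight (Nat.shiftRight m (Nat.land (Nat.shiftRight m (Nat.land (Nat.shiftRight (Nat.shiftRight m (Nat.land (Nat.shiftRight m (Nat.land (Nat.shiftRight (Nat.shiftRight m (Nat.land (Nat.shiftRight c (nat_lit 9)) (nat_lit 65408))) (nat_lit 34)) (nat_lit 0x1ffff))) (nat_lit 0x1ffff))) (nat_lit 34)) (nat_lit 0x1ffff))) (nat_lit 0x1ffff))) (nat_lit 34)) (nat_lit 0x1ffff))) (nat_lit 0x1ffff))) (nat_lit 34)) (nat_lit 0x1ffff))) (nat_lit 0x1ffff))) (nat_lit 34)) (nat_lit 0x1ffff))) (nat_lit 0x1ffff))) (nat_lit 34)) (nat_lit 0x1ffff))) (nat_lit 0x1ffff))) (nat_lit 34)) (nat_lit 0x1ffff))) (nat_lit 0x1ffff))) (nat_lit 34)) (nat_lit 0x1ffff))) (nat_lit 0x1ffff))) (nat_lit 60)) (nat_lit 1008))) (Nat.add (Nat.shiftRight VT (Nat.land (Nat.shiftRight (Nat.shiftRight m (Nat.land (Nat.shiftRight m (Nat.land (Nat.shiftRight (Nat.shiftRight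 m (Nat.land (Nat.shiftRight m (Nat.land (Nat.shiftRight (Nat.shiftRight m (Nat.land (Nat.shiftRight m (Nat.land (Nat.shiftRight (Nat.shiftRight m (Nat.land (Nat.shiftRight m (Nat.land (Nat.shiftRight (Nat.shiftRight m (Nat.land (Nat.shiftRight m (Nat.land (Nat.shiftRight (Nat.shiftRight m (Nat.land (Nat.shiftRight m (Nat.land (Nat.shiftRight (Nat.shiftRight m (Nat.land (Nat.shiftRight m (Nat.land (Nat.shiftRight (Nat.shiftRight m (Nat.land (Nat.shiftRight m (Nat.land (Nat.shiftRight (Nat.shiftRight m (Nat.land (Nat.shiftRight m (Nat.land (Nat.shiftRight (Nat.shiftRight m (Nat.land (Nat.shiftRight c (nat_lit 9)) (nat_lit 65408))) (nat_lit 34)) (nat_lit 0x1ffff))) (nat_lit 0x1ffff))) (nat_lit 34)) (nat_lit 0x1ffff))) (nat_lit 0x1ffff))) (nat_lit 34)) (nat_lit 0x1ffff))) (nat_lit 0x1ffff))) (nat_lit 34)) (nat_lit 0x1ffff))) (nat_lit 0x1ffff))) (nat_lit 34)) (nat_lit 0x1ffff))) (nat_lit 0x1ffff)))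 (nat_lit 34)) (nat_lit 0x1ffff))) (nat_lit 0x1ffff))) (nat_lit 34)) (nat_lit 0x1ffff))) (nat_lit 0x1ffff))) (nat_lit 34)) (nat_lit 0x1ffff))) (nat_lit 0x1ffff))) (nat_lit 34)) (nat_lit 0x1ffff))) (nat_lit 0x1ffff))) (nat_lit 60)) (nat_lit 1008))) (Nat.add (Nat.shiftRight VT (Nat.land (Nat.shiftRight (Nat.shiftRight m (Nat.land (Nat.shiftRight m (Nat.land (Nat.shiftRight (Nat.shiftRight m (Nat.land (Nat.shiftRight m (Nat.land (Nat.shiftRight (Nat.shiftRight m (Nat.land (Nat.shiftRight m (Nat.land (Nat.shiftRight (Nat.shiftRight m (Nat.land (Nat.shiftRight m (Nat.land (Nat.shiftRight (Nat.shiftRight m (Nat.land (Nat.shiftRight m (Nat.land (Nat.shiftRight (Nat.shiftRight m (Nat.land (Nat.shiftRight m (Nat.land (Nat.shiftRight (Nat.shiftRight m (Nat.land (Nat.shiftRight m (Nat.land (Nat.shiftRight (Nat.shiftRight m (Nat.land (Nat.shiftRight m (Nat.land (Nat.shiftRight (Nat.shiftRight m (Nat.land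 (Nat.shiftRight m (Nat.land (Nat.shiftRight (Nat.shiftRight m (Nat.land (Nat.shiftRight m (Nat.land (Nat.shiftRight (Nat.shiftRight m (Nat.land (Nat.shiftRight c (nat_lit 9)) (nat_lit 65408))) (nat_lit 34)) (nat_lit 0x1ffff))) (nat_lit 0x1ffff))) (nat_lit 34)) (nat_lit 0x1ffff))) (nat_lit 0x1ffff))) (nat_lit 34)) (nat_lit 0x1ffff))) (nat_lit 0x1ffff))) (nat_lit 34)) (nat_lit 0x1ffff))) (nat_lit 0x1ffff))) (nat_lit 34)) (nat_lit 0x1ffff))) (nat_lit 0x1ffff))) (nat_lit 34)) (nat_lit 0x1ffff))) (nat_lit 0x1ffff))) (nat_lit 34)) (nat_lit 0x1ffff))) (nat_lit 0x1ffff))) (nat_lit 34)) (nat_lit 0x1ffff))) (nat_lit 0x1ffff))) (nat_lit 34)) (nat_lit 0x1ffff))) (nat_lit 0x1ffff))) (nat_lit 34)) (nat_lit 0x1ffff))) (nat_lit 0x1ffff))) (nat_lit 60)) (nat_lit 1008))) (Nat.shiftRight VT (Nat.land (Nat.shiftRight (Nat.shiftRight m (Nat.land (Nat.shiftRight m (Nat.land (Nat.shiftRight (Nat.shiftRight m (Nat.land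 (Nat.shiftRight m (Nat.land (Nat.shiftRight (Nat.shiftRight m (Nat.land (Nat.shiftRight m (Nat.land (Nat.shiftRight (Nat.shiftRight m (Nat.land (Nat.shiftRight m (Nat.land (Nat.shiftRight (Nat.shiftRight m (Nat.land (Nat.shiftRight m (Nat.land (Nat.shiftRight (Nat.shiftRight m (Nat.land (Nat.shiftRight m (Nat.land (Nat.shiftRight (Nat.shiftRight m (Nat.land (Nat.shiftRight m (Nat.land (Nat.shiftRight (Nat.shiftRight m (Nat.land (Nat.shiftRight m (Nat.land (Nat.shiftRight (Nat.shiftRight m (Nat.land (Nat.shiftRight m (Nat.land (Nat.shiftRight (Nat.shiftRight m (Nat.land (Nat.shiftRight m (Nat.land (Nat.shiftRight (Nat.shiftRight m (Nat.land (Nat.shiftRight m (Nat.land (Nat.shiftRight (Nat.shiftRight m (Nat.land (Nat.shiftRight c (nat_lit 9)) (nat_lit 65408))) (nat_lit 34)) (nat_lit 0x1ffff))) (nat_lit 0x1ffff))) (nat_lit 34)) (nat_lit 0x1ffff))) (nat_lit 0x1ffff))) (nat_lit 34)) (nat_lit 0x1ffff)))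 (nat_lit 0x1ffff))) (nat_lit 34)) (nat_lit 0x1ffff))) (nat_lit 0x1ffff))) (nat_lit 34)) (nat_lit 0x1ffff))) (nat_lit 0x1ffff))) (nat_lit 34)) (nat_lit 0x1ffff))) (nat_lit 0x1ffff))) (nat_lit 34)) (nat_lit 0x1ffff))) (nat_lit 0x1ffff))) (nat_lit 34)) (nat_lit 0x1ffff))) (nat_lit 0x1ffff))) (nat_lit 34)) (nat_lit 0x1ffff))) (nat_lit 0x1ffff))) (nat_lit 34)) (nat_lit 0x1ffff))) (nat_lit 0x1ffff))) (nat_lit 34)) (nat_lit 0x1ffff))) (nat_lit 0x1ffff))) (nat_lit 60)) (nat_lit 1008)))))))))))))) (nat_lit 240))) (Nat.shiftRight (nat_lit 0) (Nat.land (Nat.shiftRight (Nat.add (Nat.shiftRight VT (Nat.land (Nat.shiftRight (Nat.shiftRight m (Nat.land (Nat.shiftRight c (nat_lit 9)) (nat_lit 65408))) (nat_lit 60)) (nat_lit 1008))) (Nat.add (Nat.shiftRight VT (Nat.land (Nat.shiftRight (Nat.shiftRight m (Nat.land (Nat.shiftRight m (Nat.land (Nat.shiftRight (Nat.shiftRight m (Nat.land (Nat.shiftRight c (nat_lit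 9)) (nat_lit 65408))) (nat_lit 34)) (nat_lit 0x1ffff))) (nat_lit 0x1ffff))) (nat_lit 60)) (nat_lit 1008))) (Nat.add (Nat.shiftRight VT (Nat.land (Nat.shiftRight (Nat.shiftRight m (Nat.land (Nat.shiftRight m (Nat.land (Nat.shiftRight (Nat.shiftRight m (Nat.land (Nat.shiftRight m (Nat.land (Nat.shiftRight (Nat.shiftRight m (Nat.land (Nat.shiftRight c (nat_lit 9)) (nat_lit 65408))) (nat_lit 34)) (nat_lit 0x1ffff))) (nat_lit 0x1ffff))) (nat_lit 34)) (nat_lit 0x1ffff))) (nat_lit 0x1ffff))) (nat_lit 60)) (nat_lit 1008))) (Nat.add (Nat.shiftRight VT (Nat.land (Nat.shiftRight (Nat.shiftRight m (Nat.land (Nat.shiftRight m (Nat.land (Nat.shiftRight (Nat.shiftRight m (Nat.land (Nat.shiftRight m (Nat.land (Nat.shiftRight (Nat.shiftRight m (Nat.land (Nat.shiftRight m (Nat.land (Nat.shiftRight (Nat.shiftRight m (Nat.land (Nat.shiftRight c (nat_lit 9)) (nat_lit 65408))) (nat_lit 34)) (nat_lit 0x1ffff))) (nat_lit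 0x1ffff))) (nat_lit 34)) (nat_lit 0x1ffff))) (nat_lit 0x1ffff))) (nat_lit 34)) (nat_lit 0x1ffff))) (nat_lit 0x1ffff))) (nat_lit 60)) (nat_lit 1008))) (Nat.add (Nat.shiftRight VT (Nat.land (Nat.shiftRight (Nat.shiftRight m (Nat.land (Nat.shiftRight m (Nat.land (Nat.shiftRight (Nat.shiftRight m (Nat.land (Nat.shiftRight m (Nat.land (Nat.shiftRight (Nat.shiftRight m (Nat.land (Nat.shiftRight m (Nat.land (Nat.shiftRight (Nat.shiftRight m (Nat.land (Nat.shiftRight m (Nat.land (Nat.shiftRight (Nat.shiftRight m (Nat.land (Nat.shiftRight c (nat_lit 9)) (nat_lit 65408))) (nat_lit 34)) (nat_lit 0x1ffff))) (nat_lit 0x1ffff))) (nat_lit 34)) (nat_lit 0x1ffff))) (nat_lit 0x1ffff))) (nat_lit 34)) (nat_lit 0x1ffff))) (nat_lit 0x1ffff))) (nat_lit 34)) (nat_lit 0x1ffff))) (nat_lit 0x1ffff))) (nat_lit 60)) (nat_lit 1008))) (Nat.add (Nat.shiftRight VT (Nat.land (Nat.shiftRight (Nat.shiftRight m (Nat.land (Nat.shiftRight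 m (Nat.land (Nat.shiftRight (Nat.shiftRight m (Nat.land (Nat.shiftRight m (Nat.land (Nat.shiftRight (Nat.shiftRight m (Nat.land (Nat.shiftRight m (Nat.land (Nat.shiftRight (Nat.shiftRight m (Nat.land (Nat.shiftRight m (Nat.land (Nat.shiftRight (Nat.shiftRight m (Nat.land (Nat.shiftRight m (Nat.land (Nat.shiftRight (Nat.shiftRight m (Nat.land (Nat.shiftRight c (nat_lit 9)) (nat_lit 65408))) (nat_lit 34)) (nat_lit 0x1ffff))) (nat_lit 0x1ffff))) (nat_lit 34)) (nat_lit 0x1ffff))) (nat_lit 0x1ffff))) (nat_lit 34)) (nat_lit 0x1ffff))) (nat_lit 0x1ffff))) (nat_lit 34)) (nat_lit 0x1ffff))) (nat_lit 0x1ffff))) (nat_lit 34)) (nat_lit 0x1ffff))) (nat_lit 0x1ffff))) (nat_lit 60)) (nat_lit 1008))) (Nat.add (Nat.shiftRight VT (Nat.land (Nat.shiftRight (Nat.shiftRight m (Nat.land (Nat.shiftRight m (Nat.land (Nat.shiftRight (Nat.shiftRight m (Nat.land (Nat.shiftRight m (Nat.land (Nat.shiftRight (Nat.shiftRight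 m (Nat.land (Nat.shiftRight m (Nat.land (Nat.shiftRight (Nat.shiftRight m (Nat.land (Nat.shiftRight m (Nat.land (Nat.shiftRight (Nat.shiftRight m (Nat.land (Nat.shiftRight m (Nat.land (Nat.shiftRight (Nat.shiftRight m (Nat.land (Nat.shiftRight m (Nat.land (Nat.shiftRight (Nat.shiftRight m (Nat.land (Nat.shiftRight c (nat_lit 9)) (nat_lit 65408))) (nat_lit 34)) (nat_lit 0x1ffff))) (nat_lit 0x1ffff))) (nat_lit 34)) (nat_lit 0x1ffff))) (nat_lit 0x1ffff))) (nat_lit 34)) (nat_lit 0x1ffff))) (nat_lit 0x1ffff))) (nat_lit 34)) (nat_lit 0x1ffff))) (nat_lit 0x1ffff))) (nat_lit 34)) (nat_lit 0x1ffff))) (nat_lit 0x1ffff))) (nat_lit 34)) (nat_lit 0x1ffff))) (nat_lit 0x1ffff))) (nat_lit 60)) (nat_lit 1008))) (Nat.add (Nat.shiftRight VT (Nat.land (Nat.shiftRight (Nat.shiftRight m (Nat.land (Nat.shiftRight m (Nat.land (Nat.shiftRight (Nat.shiftRight m (Nat.land (Nat.shiftRight m (Nat.land (Nat.shiftRight (Nat.shiftRight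 m (Nat.land (Nat.shiftRight m (Nat.land (Nat.shiftRight (Nat.shiftRight m (Nat.land (Nat.shiftRight m (Nat.land (Nat.shiftRight (Nat.shiftRight m (Nat.land (Nat.shiftRight m (Nat.land (Nat.shiftRight (Nat.shiftRight m (Nat.land (Nat.shiftRight m (Nat.land (Nat.shiftRight (Nat.shiftRight m (Nat.land (Nat.shiftRight m (Nat.land (Nat.shiftRight (Nat.shiftRight m (Nat.land (Nat.shiftRight c (nat_lit 9)) (nat_lit 65408))) (nat_lit 34)) (nat_lit 0x1ffff))) (nat_lit 0x1ffff))) (nat_lit 34)) (nat_lit 0x1ffff))) (nat_lit 0x1ffff))) (nat_lit 34)) (nat_lit 0x1ffff))) (nat_lit 0x1ffff))) (nat_lit 34)) (nat_lit 0x1ffff))) (nat_lit 0x1ffff))) (nat_lit 34)) (nat_lit 0x1ffff))) (nat_lit 0x1ffff))) (nat_lit 34)) (nat_lit 0x1ffff))) (nat_lit 0x1ffff))) (nat_lit 34)) (nat_lit 0x1ffff))) (nat_lit 0x1ffff))) (nat_lit 60)) (nat_lit 1008))) (Nat.add (Nat.shiftRight VT (Nat.land (Nat.shiftRight (Nat.shiftRight m (Nat.land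 (Nat.shiftRight m (Nat.land (Nat.shiftRight (Nat.shiftRight m (Nat.land (Nat.shiftRight m (Nat.land (Nat.shiftRight (Nat.shiftRight m (Nat.land (Nat.shiftRight m (Nat.land (Nat.shiftRight (Nat.shiftRight m (Nat.land (Nat.shiftRight m (Nat.land (Nat.shiftRight (Nat.shiftRight m (Nat.land (Nat.shiftRight m (Nat.land (Nat.shiftRight (Nat.shiftRight m (Nat.land (Nat.shiftRight m (Nat.land (Nat.shiftRight (Nat.shiftRight m (Nat.land (Nat.shiftRight m (Nat.land (Nat.shiftRight (Nat.shiftRight m (Nat.land (Nat.shiftRight m (Nat.land (Nat.shiftRight (Nat.shiftRight m (Nat.land (Nat.shiftRight c (nat_lit 9)) (nat_lit 65408))) (nat_lit 34)) (nat_lit 0x1ffff))) (nat_lit 0x1ffff))) (nat_lit 34)) (nat_lit 0x1ffff))) (nat_lit 0x1ffff))) (nat_lit 34)) (nat_lit 0x1ffff))) (nat_lit 0x1ffff))) (nat_lit 34)) (nat_lit 0x1ffff))) (nat_lit 0x1ffff))) (nat_lit 34)) (nat_lit 0x1ffff))) (nat_lit 0x1ffff))) (nat_lit 34))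 (nat_lit 0x1ffff))) (nat_lit 0x1ffff))) (nat_lit 34)) (nat_lit 0x1ffff))) (nat_lit 0x1ffff))) (nat_lit 34)) (nat_lit 0x1ffff))) (nat_lit 0x1ffff))) (nat_lit 60)) (nat_lit 1008))) (Nat.add (Nat.shiftRight VT (Nat.land (Nat.shiftRight (Nat.shiftRight m (Nat.land (Nat.shiftRight m (Nat.land (Nat.shiftRight (Nat.shiftRight m (Nat.land (Nat.shiftRight m (Nat.land (Nat.shiftRight (Nat.shiftRight m (Nat.land (Nat.shiftRight m (Nat.land (Nat.shiftRight (Nat.shiftRight m (Nat.land (Nat.shiftRight m (Nat.land (Nat.shiftRight (Nat.shiftRight m (Nat.land (Nat.shiftRight m (Nat.land (Nat.shiftRight (Nat.shiftRight m (Nat.land (Nat.shiftRight m (Nat.land (Nat.shiftRight (Nat.shiftRight m (Nat.land (Nat.shiftRight m (Nat.land (Nat.shiftRight (Nat.shiftRight m (Nat.land (Nat.shiftRight m (Nat.land (Nat.shiftRight (Nat.shiftRight m (Nat.land (Nat.shiftRight m (Nat.land (Nat.shiftRight (Nat.shiftRight m (Nat.land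 (Nat.shiftRight c (nat_lit 9)) (nat_lit 65408))) (nat_lit 34)) (nat_lit 0x1ffff))) (nat_lit 0x1ffff))) (nat_lit 34)) (nat_lit 0x1ffff))) (nat_lit 0x1ffff))) (nat_lit 34)) (nat_lit 0x1ffff))) (nat_lit 0x1ffff))) (nat_lit 34)) (nat_lit 0x1ffff))) (nat_lit 0x1ffff))) (nat_lit 34)) (nat_lit 0x1ffff))) (nat_lit 0x1ffff))) (nat_lit 34)) (nat_lit 0x1ffff))) (nat_lit 0x1ffff))) (nat_lit 34)) (nat_lit 0x1ffff))) (nat_lit 0x1ffff))) (nat_lit 34)) (nat_lit 0x1ffff))) (nat_lit 0x1ffff))) (nat_lit 34)) (nat_lit 0x1ffff))) (nat_lit 0x1ffff))) (nat_lit 60)) (nat_lit 1008))) (Nat.add (Nat.shiftRight VT (Nat.land (Nat.shiftRight (Nat.shiftRight m (Nat.land (Nat.shiftRight m (Nat.land (Nat.shiftRight (Nat.shiftRight m (Nat.land (Nat.shiftRight m (Nat.land (Nat.shiftRight (Nat.shiftRight m (Nat.land (Nat.shiftRight m (Nat.land (Nat.shiftRight (Nat.shiftRight m (Nat.land (Nat.shiftRight m (Nat.land (Nat.shiftRight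 (Nat.shiftRight m (Nat.land (Nat.shiftRight m (Nat.land (Nat.shiftRight (Nat.shiftRight m (Nat.land (Nat.shiftRight m (Nat.land (Nat.shiftRight (Nat.shiftRight m (Nat.land (Nat.shiftRight m (Nat.land (Nat.shiftRight (Nat.shiftRight m (Nat.land (Nat.shiftRight m (Nat.land (Nat.shiftRight (Nat.shiftRight m (Nat.land (Nat.shiftRight m (Nat.land (Nat.shiftRight (Nat.shiftRight m (Nat.land (Nat.shiftRight m (Nat.land (Nat.shiftRight (Nat.shiftRight m (Nat.land (Nat.shiftRight c (nat_lit 9)) (nat_lit 65408))) (nat_lit 34)) (nat_lit 0x1ffff))) (nat_lit 0x1ffff))) (nat_lit 34)) (nat_lit 0x1ffff))) (nat_lit 0x1ffff))) (nat_lit 34)) (nat_lit 0x1ffff))) (nat_lit 0x1ffff))) (nat_lit 34)) (nat_lit 0x1ffff))) (nat_lit 0x1ffff))) (nat_lit 34)) (nat_lit 0x1ffff))) (nat_lit 0x1ffff))) (nat_lit 34)) (nat_lit 0x1ffff))) (nat_lit 0x1ffff))) (nat_lit 34)) (nat_lit 0x1ffff))) (nat_lit 0x1ffff))) (nat_lit 34)) (nat_lit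 0x1ffff))) (nat_lit 0x1ffff))) (nat_lit 34)) (nat_lit 0x1ffff))) (nat_lit 0x1ffff))) (nat_lit 34)) (nat_lit 0x1ffff))) (nat_lit 0x1ffff))) (nat_lit 60)) (nat_lit 1008))) (Nat.shiftRight VT (Nat.land (Nat.shiftRight (Nat.shiftRight m (Nat.land (Nat.shiftRight m (Nat.land (Nat.shiftRight (Nat.shiftRight m (Nat.land (Nat.shiftRight m (Nat.land (Nat.shiftRight (Nat.shiftRight m (Nat.land (Nat.shiftRight m (Nat.land (Nat.shiftRight (Nat.shiftRight m (Nat.land (Nat.shiftRight m (Nat.land (Nat.shiftRight (Nat.shiftRight m (Nat.land (Nat.shiftRight m (Nat.land (Nat.shiftRight (Nat.shiftRight m (Nat.land (Nat.shiftRight m (Nat.land (Nat.shiftRight (Nat.shiftRight m (Nat.land (Nat.shiftRight m (Nat.land (Nat.shiftRight (Nat.shiftRight m (Nat.land (Nat.shiftRight m (Nat.land (Nat.shiftRight (Nat.shiftRight m (Nat.land (Nat.shiftRight m (Nat.land (Nat.shiftRight (Nat.shiftRight m (Nat.land (Nat.shiftRight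 m (Nat.land (Nat.shiftRight (Nat.shiftRight m (Nat.land (Nat.shiftRight m (Nat.land (Nat.shiftRight (Nat.shiftRight m (Nat.land (Nat.shiftRight c (nat_lit 9)) (nat_lit 65408))) (nat_lit 34)) (nat_lit 0x1ffff))) (nat_lit 0x1ffff))) (nat_lit 34)) (nat_lit 0x1ffff))) (nat_lit 0x1ffff))) (nat_lit 34)) (nat_lit 0x1ffff))) (nat_lit 0x1ffff))) (nat_lit 34)) (nat_lit 0x1ffff))) (nat_lit 0x1ffff))) (nat_lit 34)) (nat_lit 0x1ffff))) (nat_lit 0x1ffff))) (nat_lit 34)) (nat_lit 0x1ffff))) (nat_lit 0x1ffff))) (nat_lit 34)) (nat_lit 0x1ffff))) (nat_lit 0x1ffff))) (nat_lit 34)) (nat_lit 0x1ffff))) (nat_lit 0x1ffff))) (nat_lit 34)) (nat_lit 0x1ffff))) (nat_lit 0x1ffff))) (nat_lit 34)) (nat_lit 0x1ffff))) (nat_lit 0x1ffff))) (nat_lit 34)) (nat_lit 0x1ffff))) (nat_lit 0x1ffff))) (nat_lit 60)) (nat_lit 1008)))))))))))))) (nat_lit 4)) (nat_lit 240)))) (nat_lit 65535)) (nat_lit 70)))) nd e (Nat.shiftRight c (nat_lit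 25)))⟩ (fun _ _ => ⟨fun ih lim m nd e c => (ih.1 lim (Nat.lor m (Nat.mul ((mskF k).1 m (Nat.land (Nat.shiftRight c (nat_lit 9)) (nat_lit 65408))) (Nat.shiftLeft (Nat.lor (Nat.land (Nat.lor (Nat.shiftRight (nat_lit 0) (Nat.land (Nat.add (Nat.shiftRight VT (Nat.land (Nat.shiftRight (Nat.shiftRight m (Nat.land (Nat.shiftRight c (nat_lit 9)) (nat_lit 65408))) (nat_lit 60)) (nat_lit 1008))) (Nat.add (Nat.shiftRight VT (Nat.land (Nat.shiftRight (Nat.shiftRight m (Nat.land (Nat.shiftRight m (Nat.land (Nat.shiftRight (Nat.shiftRight m (Nat.land (Nat.shiftRight c (nat_lit 9)) (nat_lit 65408))) (nat_lit 34)) (nat_lit 0x1ffff))) (nat_lit 0x1ffff))) (nat_lit 60)) (nat_lit 1008))) (Nat.add (Nat.shiftRight VT (Nat.land (Nat.shiftRight (Nat.shiftRight m (Nat.land (Nat.shiftRight m (Nat.land (Nat.shiftRight (Nat.shiftRight m (Nat.land (Nat.shiftRight m (Nat.land (Nat.shiftRight (Nat.shiftRight m (Nat.land (Nat.shiftRight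 c (nat_lit 9)) (nat_lit 65408))) (nat_lit 34)) (nat_lit 0x1ffff))) (nat_lit 0x1ffff))) (nat_lit 34)) (nat_lit 0x1ffff))) (nat_lit 0x1ffff))) (nat_lit 60)) (nat_lit 1008))) (Nat.add (Nat.shiftRight VT (Nat.land (Nat.shiftRight (Nat.shiftRight m (Nat.land (Nat.shiftRight m (Nat.land (Nat.shiftRight (Nat.shiftRight m (Nat.land (Nat.shiftRight m (Nat.land (Nat.shiftRight (Nat.shiftRight m (Nat.land (Nat.shiftRight m (Nat.land (Nat.shiftRight (Nat.shiftRight m (Nat.land (Nat.shiftRight c (nat_lit 9)) (nat_lit 65408))) (nat_lit 34)) (nat_lit 0x1ffff))) (nat_lit 0x1ffff))) (nat_lit 34)) (nat_lit 0x1ffff))) (nat_lit 0x1ffff))) (nat_lit 34)) (nat_lit 0x1ffff))) (nat_lit 0x1ffff))) (nat_lit 60)) (nat_lit 1008))) (Nat.add (Nat.shiftRight VT (Nat.land (Nat.shiftRight (Nat.shiftRight m (Nat.land (Nat.shiftRight m (Nat.land (Nat.shiftRight (Nat.shiftRight m (Nat.land (Nat.shiftRight m (Nat.land (Nat.shiftRight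 (Nat.shiftRight m (Nat.land (Nat.shiftRight m (Nat.land (Nat.shiftRight (Nat.shiftRight m (Nat.land (Nat.shiftRight m (Nat.land (Nat.shiftRight (Nat.shiftRight m (Nat.land (Nat.shiftRight c (nat_lit 9)) (nat_lit 65408))) (nat_lit 34)) (nat_lit 0x1ffff))) (nat_lit 0x1ffff))) (nat_lit 34)) (nat_lit 0x1ffff))) (nat_lit 0x1ffff))) (nat_lit 34)) (nat_lit 0x1ffff))) (nat_lit 0x1ffff))) (nat_lit 34)) (nat_lit 0x1ffff))) (nat_lit 0x1ffff))) (nat_lit 60)) (nat_lit 1008))) (Nat.add (Nat.shiftRight VT (Nat.land (Nat.shiftRight (Nat.shiftRight m (Nat.land (Nat.shiftRight m (Nat.land (Nat.shiftRight (Nat.shiftRight m (Nat.land (Nat.shiftRight m (Nat.land (Nat.shiftRight (Nat.shiftRight m (Nat.land (Nat.shiftRight m (Nat.land (Nat.shiftRight (Nat.shiftRight m (Nat.land (Nat.shiftRight m (Nat.land (Nat.shiftRight (Nat.shiftRight m (Nat.land (Nat.shiftRight m (Nat.land (Nat.shiftRight (Nat.shiftRight m (Nat.land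 (Nat.shiftRight c (nat_lit 9)) (nat_lit 65408))) (nat_lit 34)) (nat_lit 0x1ffff))) (nat_lit 0x1ffff))) (nat_lit 34)) (nat_lit 0x1ffff))) (nat_lit 0x1ffff))) (nat_lit 34)) (nat_lit 0x1ffff))) (nat_lit 0x1ffff))) (nat_lit 34)) (nat_lit 0x1ffff))) (nat_lit 0x1ffff))) (nat_lit 34)) (nat_lit 0x1ffff))) (nat_lit 0x1ffff))) (nat_lit 60)) (nat_lit 1008))) (Nat.add (Nat.shiftRight VT (Nat.land (Nat.shiftRight (Nat.shiftRight m (Nat.land (Nat.shiftRight m (Nat.land (Nat.shiftRight (Nat.shiftRight m (Nat.land (Nat.shiftRight m (Nat.land (Nat.shiftRight (Nat.shiftRight m (Nat.land (Nat.shiftRight m (Nat.land (Nat.shiftRight (Nat.shiftRight m (Nat.land (Nat.shiftRight m (Nat.land (Nat.shiftRight (Nat.shiftRight m (Nat.land (Nat.shiftRight m (Nat.land (Nat.shiftRight (Nat.shiftRight m (Nat.land (Nat.shiftRight m (Nat.land (Nat.shiftRight (Nat.shiftRight m (Nat.land (Nat.shiftRight c (nat_lit 9)) (nat_lit 65408)))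 (nat_lit 34)) (nat_lit 0x1ffff))) (nat_lit 0x1ffff))) (nat_lit 34)) (nat_lit 0x1ffff))) (nat_lit 0x1ffff))) (nat_lit 34)) (nat_lit 0x1ffff))) (nat_lit 0x1ffff))) (nat_lit 34)) (nat_lit 0x1ffff))) (nat_lit 0x1ffff))) (nat_lit 34)) (nat_lit 0x1ffff))) (nat_lit 0x1ffff))) (nat_lit 34)) (nat_lit 0x1ffff))) (nat_lit 0x1ffff))) (nat_lit 60)) (nat_lit 1008))) (Nat.add (Nat.shiftRight VT (Nat.land (Nat.shiftRight (Nat.shiftRight m (Nat.land (Nat.shiftRight m (Nat.land (Nat.shiftRight (Nat.shiftRight m (Nat.land (Nat.shiftRight m (Nat.land (Nat.shiftRight (Nat.shiftRight m (Nat.land (Nat.shiftRight m (Nat.land (Nat.shiftRight (Nat.shiftRight m (Nat.land (Nat.shiftRight m (Nat.land (Nat.shiftRight (Nat.shiftRight m (Nat.land (Nat.shiftRight m (Nat.land (Nat.shiftRight (Nat.shiftRight m (Nat.land (Nat.shiftRight m (Nat.land (Nat.shiftRight (Nat.shiftRight m (Nat.land (Nat.shiftRight m (Nat.land (Nat.shiftRight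 (Nat.shiftRight m (Nat.land (Nat.shiftRight c (nat_lit 9)) (nat_lit 65408))) (nat_lit 34)) (nat_lit 0x1ffff))) (nat_lit 0x1ffff))) (nat_lit 34)) (nat_lit 0x1ffff))) (nat_lit 0x1ffff))) (nat_lit 34)) (nat_lit 0x1ffff))) (nat_lit 0x1ffff))) (nat_lit 34)) (nat_lit 0x1ffff))) (nat_lit 0x1ffff))) (nat_lit 34)) (nat_lit 0x1ffff))) (nat_lit 0x1ffff))) (nat_lit 34)) (nat_lit 0x1ffff))) (nat_lit 0x1ffff))) (nat_lit 34)) (nat_lit 0x1ffff))) (nat_lit 0x1ffff))) (nat_lit 60)) (nat_lit 1008))) (Nat.add (Nat.shiftRight VT (Nat.land (Nat.shiftRight (Nat.shiftRight m (Nat.land (Nat.shiftRight m (Nat.land (Nat.shiftRight (Nat.shiftRight m (Nat.land (Nat.shiftRight m (Nat.land (Nat.shiftRight (Nat.shiftRight m (Nat.land (Nat.shiftRight m (Nat.land (Nat.shiftRight (Nat.shiftRight m (Nat.land (Nat.shiftRight m (Nat.land (Nat.shiftRight (Nat.shiftRight m (Nat.land (Nat.shiftRight m (Nat.land (Nat.shiftRight (Nat.shiftRight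 m (Nat.land (Nat.shiftRight m (Nat.land (Nat.shiftRight (Nat.shiftRight m (Nat.land (Nat.shiftRight m (Nat.land (Nat.shiftRight (Nat.shiftRight m (Nat.land (Nat.shiftRight m (Nat.land (Nat.shiftRight (Nat.shiftRight m (Nat.land (Nat.shiftRight c (nat_lit 9)) (nat_lit 65408))) (nat_lit 34)) (nat_lit 0x1ffff))) (nat_lit 0x1ffff))) (nat_lit 34)) (nat_lit 0x1ffff))) (nat_lit 0x1ffff))) (nat_lit 34)) (nat_lit 0x1ffff))) (nat_lit 0x1ffff))) (nat_lit 34)) (nat_lit 0x1ffff))) (nat_lit 0x1ffff))) (nat_lit 34)) (nat_lit 0x1ffff))) (nat_lit 0x1ffff))) (nat_lit 34)) (nat_lit 0x1ffff))) (nat_lit 0x1ffff))) (nat_lit 34)) (nat_lit 0x1ffff))) (nat_lit 0x1ffff))) (nat_lit 34)) (nat_lit 0x1ffff))) (nat_lit 0x1ffff))) (nat_lit 60)) (nat_lit 1008))) (Nat.add (Nat.shiftRight VT (Nat.land (Nat.shiftRight (Nat.shiftRight m (Nat.land (Nat.shiftRight m (Nat.land (Nat.shiftRight (Nat.shiftRight m (Nat.land (Nat.shiftRight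 m (Nat.land (Nat.shiftRight (Nat.shiftRight m (Nat.land (Nat.shiftRight m (Nat.land (Nat.shiftRight (Nat.shiftRight m (Nat.land (Nat.shiftRight m (Nat.land (Nat.shiftRight (Nat.shiftRight m (Nat.land (Nat.shiftRight m (Nat.land (Nat.shiftRight (Nat.shiftRight m (Nat.land (Nat.shiftRight m (Nat.land (Nat.shiftRight (Nat.shiftRight m (Nat.land (Nat.shiftRight m (Nat.land (Nat.shiftRight (Nat.shiftRight m (Nat.land (Nat.shiftRight m (Nat.land (Nat.shiftRight (Nat.shiftRight m (Nat.land (Nat.shiftRight m (Nat.land (Nat.shiftRight (Nat.shiftRight m (Nat.land (Nat.shiftRight c (nat_lit 9)) (nat_lit 65408))) (nat_lit 34)) (nat_lit 0x1ffff))) (nat_lit 0x1ffff))) (nat_lit 34)) (nat_lit 0x1ffff))) (nat_lit 0x1ffff))) (nat_lit 34)) (nat_lit 0x1ffff))) (nat_lit 0x1ffff))) (nat_lit 34)) (nat_lit 0x1ffff))) (nat_lit 0x1ffff))) (nat_lit 34)) (nat_lit 0x1ffff))) (nat_lit 0x1ffff))) (nat_lit 34)) (nat_lit 0x1ffff)))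 (nat_lit 0x1ffff))) (nat_lit 34)) (nat_lit 0x1ffff))) (nat_lit 0x1ffff))) (nat_lit 34)) (nat_lit 0x1ffff))) (nat_lit 0x1ffff))) (nat_lit 34)) (nat_lit 0x1ffff))) (nat_lit 0x1ffff))) (nat_lit 60)) (nat_lit 1008))) (Nat.add (Nat.shiftRight VT (Nat.land (Nat.shiftRight (Nat.shiftRight m (Nat.land (Nat.shiftRight m (Nat.land (Nat.shiftRight (Nat.shiftRight m (Nat.land (Nat.shiftRight m (Nat.land (Nat.shiftRight (Nat.shiftRight m (Nat.land (Nat.shiftRight m (Nat.land (Nat.shiftRight (Nat.shiftRight m (Nat.land (Nat.shiftRight m (Nat.land (Nat.shiftRight (Nat.shiftRight m (Nat.land (Nat.shiftRight m (Nat.land (Nat.shiftRight (Nat.shiftRight m (Nat.land (Nat.shiftRight m (Nat.land (Nat.shiftRight (Nat.shiftRight m (Nat.land (Nat.shiftRight m (Nat.land (Nat.shiftRight (Nat.shiftRight m (Nat.land (Nat.shiftRight m (Nat.land (Nat.shiftRight (Nat.shiftRight m (Nat.land (Nat.shiftRight m (Nat.land (Nat.shiftRight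 (Nat.shiftRight m (Nat.land (Nat.shiftRight m (Nat.land (Nat.shiftRight (Nat.shiftRight m (Nat.land (Nat.shiftRight c (nat_lit 9)) (nat_lit 65408))) (nat_lit 34)) (nat_lit 0x1ffff))) (nat_lit 0x1ffff))) (nat_lit 34)) (nat_lit 0x1ffff))) (nat_lit 0x1ffff))) (nat_lit 34)) (nat_lit 0x1ffff))) (nat_lit 0x1ffff))) (nat_lit 34)) (nat_lit 0x1ffff))) (nat_lit 0x1ffff))) (nat_lit 34)) (nat_lit 0x1ffff))) (nat_lit 0x1ffff))) (nat_lit 34)) (nat_lit 0x1ffff))) (nat_lit 0x1ffff))) (nat_lit 34)) (nat_lit 0x1ffff))) (nat_lit 0x1ffff))) (nat_lit 34)) (nat_lit 0x1ffff))) (nat_lit 0x1ffff))) (nat_lit 34)) (nat_lit 0x1ffff))) (nat_lit 0x1ffff))) (nat_lit 34)) (nat_lit 0x1ffff))) (nat_lit 0x1ffff))) (nat_lit 60)) (nat_lit 1008))) (Nat.shiftRight VT (Nat.land (Nat.shiftRight (Nat.shiftRight m (Nat.land (Nat.shiftRight m (Nat.land (Nat.shiftRight (Nat.shiftRight m (Nat.land (Nat.shiftRight m (Nat.land (Nat.shiftRight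 (Nat.shiftRight m (Nat.land (Nat.shiftRight m (Nat.land (Nat.shiftRight (Nat.shiftRight m (Nat.land (Nat.shiftRight m (Nat.land (Nat.shiftRight (Nat.shiftRight m (Nat.land (Nat.shiftRight m (Nat.land (Nat.shiftRight (Nat.shiftRight m (Nat.land (Nat.shiftRight m (Nat.land (Nat.shiftRight (Nat.shiftRight m (Nat.land (Nat.shiftRight m (Nat.land (Nat.shiftRight (Nat.shiftRight m (Nat.land (Nat.shiftRight m (Nat.land (Nat.shiftRight (Nat.shiftRight m (Nat.land (Nat.shiftRight m (Nat.land (Nat.shiftRight (Nat.shiftRight m (Nat.land (Nat.shiftRight m (Nat.land (Nat.shiftRight (Nat.shiftRight m (Nat.land (Nat.shiftRight m (Nat.land (Nat.shiftRight (Nat.shiftRight m (Nat.land (Nat.shiftRight c (nat_lit 9)) (nat_lit 65408))) (nat_lit 34)) (nat_lit 0x1ffff))) (nat_lit 0x1ffff))) (nat_lit 34)) (nat_lit 0x1ffff))) (nat_lit 0x1ffff))) (nat_lit 34)) (nat_lit 0x1ffff))) (nat_lit 0x1ffff))) (nat_lit 34)) (nat_lit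 0x1ffff))) (nat_lit 0x1ffff))) (nat_lit 34)) (nat_lit 0x1ffff))) (nat_lit 0x1ffff))) (nat_lit 34)) (nat_lit 0x1ffff))) (nat_lit 0x1ffff))) (nat_lit 34)) (nat_lit 0x1ffff))) (nat_lit 0x1ffff))) (nat_lit 34)) (nat_lit 0x1ffff))) (nat_lit 0x1ffff))) (nat_lit 34)) (nat_lit 0x1ffff))) (nat_lit 0x1ffff))) (nat_lit 34)) (nat_lit 0x1ffff))) (nat_lit 0x1ffff))) (nat_lit 34)) (nat_lit 0x1ffff))) (nat_lit 0x1ffff))) (nat_lit 60)) (nat_lit 1008)))))))))))))) (nat_lit 240))) (Nat.shiftRight (nat_lit 0) (Nat.land (Nat.shiftRight (Nat.add (Nat.shiftRight VT (Nat.land (Nat.shiftRight (Nat.shiftRight m (Nat.land (Nat.shiftRight c (nat_lit 9)) (nat_lit 65408))) (nat_lit 60)) (nat_lit 1008))) (Nat.add (Nat.shiftRight VT (Nat.land (Nat.shiftRight (Nat.shiftRight m (Nat.land (Nat.shiftRight m (Nat.land (Nat.shiftRight (Nat.shiftRight m (Nat.land (Nat.shiftRight c (nat_lit 9)) (nat_lit 65408))) (nat_lit 34)) (nat_lit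 0x1ffff))) (nat_lit 0x1ffff))) (nat_lit 60)) (nat_lit 1008))) (Nat.add (Nat.shiftRight VT (Nat.land (Nat.shiftRight (Nat.shiftRight m (Nat.land (Nat.shiftRight m (Nat.land (Nat.shiftRight (Nat.shiftRight m (Nat.land (Nat.shiftRight m (Nat.land (Nat.shiftRight (Nat.shiftRight m (Nat.land (Nat.shiftRight c (nat_lit 9)) (nat_lit 65408))) (nat_lit 34)) (nat_lit 0x1ffff))) (nat_lit 0x1ffff))) (nat_lit 34)) (nat_lit 0x1ffff))) (nat_lit 0x1ffff))) (nat_lit 60)) (nat_lit 1008))) (Nat.add (Nat.shiftRight VT (Nat.land (Nat.shiftRight (Nat.shiftRight m (Nat.land (Nat.shiftRight m (Nat.land (Nat.shiftRight (Nat.shiftRight m (Nat.land (Nat.shiftRight m (Nat.land (Nat.shiftRight (Nat.shiftRight m (Nat.land (Nat.shiftRight m (Nat.land (Nat.shiftRight (Nat.shiftRight m (Nat.land (Nat.shiftRight c (nat_lit 9)) (nat_lit 65408))) (nat_lit 34)) (nat_lit 0x1ffff))) (nat_lit 0x1ffff))) (nat_lit 34)) (nat_lit 0x1ffff)))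 (nat_lit 0x1ffff))) (nat_lit 34)) (nat_lit 0x1ffff))) (nat_lit 0x1ffff))) (nat_lit 60)) (nat_lit 1008))) (Nat.add (Nat.shiftRight VT (Nat.land (Nat.shiftRight (Nat.shiftRight m (Nat.land (Nat.shiftRight m (Nat.land (Nat.shiftRight (Nat.shiftRight m (Nat.land (Nat.shiftRight m (Nat.land (Nat.shiftRight (Nat.shiftRight m (Nat.land (Nat.shiftRight m (Nat.land (Nat.shiftRight (Nat.shiftRight m (Nat.land (Nat.shiftRight m (Nat.land (Nat.shiftRight (Nat.shiftRight m (Nat.land (Nat.shiftRight c (nat_lit 9)) (nat_lit 65408))) (nat_lit 34)) (nat_lit 0x1ffff))) (nat_lit 0x1ffff))) (nat_lit 34)) (nat_lit 0x1ffff))) (nat_lit 0x1ffff))) (nat_lit 34)) (nat_lit 0x1ffff))) (nat_lit 0x1ffff))) (nat_lit 34)) (nat_lit 0x1ffff))) (nat_lit 0x1ffff))) (nat_lit 60)) (nat_lit 1008))) (Nat.add (Nat.shiftRight VT (Nat.land (Nat.shiftRight (Nat.shiftRight m (Nat.land (Nat.shiftRight m (Nat.land (Nat.shiftRight (Nat.shiftRight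 m (Nat.land (Nat.shiftRight m (Nat.land (Nat.shiftRight (Nat.shiftRight m (Nat.land (Nat.shiftRight m (Nat.land (Nat.shiftRight (Nat.shiftRight m (Nat.land (Nat.shiftRight m (Nat.land (Nat.shiftRight (Nat.shiftRight m (Nat.land (Nat.shiftRight m (Nat.land (Nat.shiftRight (Nat.shiftRight m (Nat.land (Nat.shiftRight c (nat_lit 9)) (nat_lit 65408))) (nat_lit 34)) (nat_lit 0x1ffff))) (nat_lit 0x1ffff))) (nat_lit 34)) (nat_lit 0x1ffff))) (nat_lit 0x1ffff))) (nat_lit 34)) (nat_lit 0x1ffff))) (nat_lit 0x1ffff))) (nat_lit 34)) (nat_lit 0x1ffff))) (nat_lit 0x1ffff))) (nat_lit 34)) (nat_lit 0x1ffff))) (nat_lit 0x1ffff))) (nat_lit 60)) (nat_lit 1008))) (Nat.add (Nat.shiftRight VT (Nat.land (Nat.shiftRight (Nat.shiftRight m (Nat.land (Nat.shiftRight m (Nat.land (Nat.shiftRight (Nat.shiftRight m (Nat.land (Nat.shiftRight m (Nat.land (Nat.shiftRight (Nat.shiftRight m (Nat.land (Nat.shiftRight m (Nat.land (Nat.shiftRight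 (Nat.shiftRight m (Nat.land (Nat.shiftRight m (Nat.land (Nat.shiftRight (Nat.shiftRight m (Nat.land (Nat.shiftRight m (Nat.land (Nat.shiftRight (Nat.shiftRight m (Nat.land (Nat.shiftRight m (Nat.land (Nat.shiftRight (Nat.shiftRight m (Nat.land (Nat.shiftRight c (nat_lit 9)) (nat_lit 65408))) (nat_lit 34)) (nat_lit 0x1ffff))) (nat_lit 0x1ffff))) (nat_lit 34)) (nat_lit 0x1ffff))) (nat_lit 0x1ffff))) (nat_lit 34)) (nat_lit 0x1ffff))) (nat_lit 0x1ffff))) (nat_lit 34)) (nat_lit 0x1ffff))) (nat_lit 0x1ffff))) (nat_lit 34)) (nat_lit 0x1ffff))) (nat_lit 0x1ffff))) (nat_lit 34)) (nat_lit 0x1ffff))) (nat_lit 0x1ffff))) (nat_lit 60)) (nat_lit 1008))) (Nat.add (Nat.shiftRight VT (Nat.land (Nat.shiftRight (Nat.shiftRight m (Nat.land (Nat.shiftRight m (Nat.land (Nat.shiftRight (Nat.shiftRight m (Nat.land (Nat.shiftRight m (Nat.land (Nat.shiftRight (Nat.shiftRight m (Nat.land (Nat.shiftRight m (Nat.land (Nat.shiftRight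 (Nat.shiftRight m (Nat.land (Nat.shiftRight m (Nat.land (Nat.shiftRight (Nat.shiftRight m (Nat.land (Nat.shiftRight m (Nat.land (Nat.shiftRight (Nat.shiftRight m (Nat.land (Nat.shiftRight m (Nat.land (Nat.shiftRight (Nat.shiftRight m (Nat.land (Nat.shiftRight m (Nat.land (Nat.shiftRight (Nat.shiftRight m (Nat.land (Nat.shiftRight c (nat_lit 9)) (nat_lit 65408))) (nat_lit 34)) (nat_lit 0x1ffff))) (nat_lit 0x1ffff))) (nat_lit 34)) (nat_lit 0x1ffff))) (nat_lit 0x1ffff))) (nat_lit 34)) (nat_lit 0x1ffff))) (nat_lit 0x1ffff))) (nat_lit 34)) (nat_lit 0x1ffff))) (nat_lit 0x1ffff))) (nat_lit 34)) (nat_lit 0x1ffff))) (nat_lit 0x1ffff))) (nat_lit 34)) (nat_lit 0x1ffff))) (nat_lit 0x1ffff))) (nat_lit 34)) (nat_lit 0x1ffff))) (nat_lit 0x1ffff))) (nat_lit 60)) (nat_lit 1008))) (Nat.add (Nat.shiftRight VT (Nat.land (Nat.shiftRight (Nat.shiftRight m (Nat.land (Nat.shiftRight m (Nat.land (Nat.shiftRight (Nat.shiftRight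 m (Nat.land (Nat.shiftRight m (Nat.land (Nat.shiftRight (Nat.shiftRight m (Nat.land (Nat.shiftRight m (Nat.land (Nat.shiftRight (Nat.shiftRight m (Nat.land (Nat.shiftRight m (Nat.land (Nat.shiftRight (Nat.shiftRight m (Nat.land (Nat.shiftRight m (Nat.land (Nat.shiftRight (Nat.shiftRight m (Nat.land (Nat.shiftRight m (Nat.land (Nat.shiftRight (Nat.shiftRight m (Nat.land (Nat.shiftRight m (Nat.land (Nat.shiftRight (Nat.shiftRight m (Nat.land (Nat.shiftRight m (Nat.land (Nat.shiftRight (Nat.shiftRight m (Nat.land (Nat.shiftRight c (nat_lit 9)) (nat_lit 65408))) (nat_lit 34)) (nat_lit 0x1ffff))) (nat_lit 0x1ffff))) (nat_lit 34)) (nat_lit 0x1ffff))) (nat_lit 0x1ffff))) (nat_lit 34)) (nat_lit 0x1ffff))) (nat_lit 0x1ffff))) (nat_lit 34)) (nat_lit 0x1ffff))) (nat_lit 0x1ffff))) (nat_lit 34)) (nat_lit 0x1ffff))) (nat_lit 0x1ffff))) (nat_lit 34)) (nat_lit 0x1ffff))) (nat_lit 0x1ffff))) (nat_lit 34)) (nat_lit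 0x1ffff))) (nat_lit 0x1ffff))) (nat_lit 34)) (nat_lit 0x1ffff))) (nat_lit 0x1ffff))) (nat_lit 60)) (nat_lit 1008))) (Nat.add (Nat.shiftRight VT (Nat.land (Nat.shiftRight (Nat.shiftRight m (Nat.land (Nat.shiftRight m (Nat.land (Nat.shiftRight (Nat.shiftRight m (Nat.land (Nat.shiftRight m (Nat.land (Nat.shiftRight (Nat.shiftRight m (Nat.land (Nat.shiftRight m (Nat.land (Nat.shiftRight (Nat.shiftRight m (Nat.land (Nat.shiftRight m (Nat.land (Nat.shiftRight (Nat.shiftRight m (Nat.land (Nat.shiftRight m (Nat.land (Nat.shiftRight (Nat.shiftRight m (Nat.land (Nat.shiftRight m (Nat.land (Nat.shiftRight (Nat.shiftRight m (Nat.land (Nat.shiftRight m (Nat.land (Nat.shiftRight (Nat.shiftRight m (Nat.land (Nat.shiftRight m (Nat.land (Nat.shiftRight (Nat.shiftRight m (Nat.land (Nat.shiftRight m (Nat.land (Nat.shiftRight (Nat.shiftRight m (Nat.land (Nat.shiftRight c (nat_lit 9)) (nat_lit 65408))) (nat_lit 34))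 (nat_lit 0x1ffff))) (nat_lit 0x1ffff))) (nat_lit 34)) (nat_lit 0x1ffff))) (nat_lit 0x1ffff))) (nat_lit 34)) (nat_lit 0x1ffff))) (nat_lit 0x1ffff))) (nat_lit 34)) (nat_lit 0x1ffff))) (nat_lit 0x1ffff))) (nat_lit 34)) (nat_lit 0x1ffff))) (nat_lit 0x1ffff))) (nat_lit 34)) (nat_lit 0x1ffff))) (nat_lit 0x1ffff))) (nat_lit 34)) (nat_lit 0x1ffff))) (nat_lit 0x1ffff))) (nat_lit 34)) (nat_lit 0x1ffff))) (nat_lit 0x1ffff))) (nat_lit 34)) (nat_lit 0x1ffff))) (nat_lit 0x1ffff))) (nat_lit 60)) (nat_lit 1008))) (Nat.add (Nat.shiftRight VT (Nat.land (Nat.shiftRight (Nat.shiftRight m (Nat.land (Nat.shiftRight m (Nat.land (Nat.shiftRight (Nat.shiftRight m (Nat.land (Nat.shiftRight m (Nat.land (Nat.shiftRight (Nat.shiftRight m (Nat.land (Nat.shiftRight m (Nat.land (Nat.shiftRight (Nat.shiftRight m (Nat.land (Nat.shiftRight m (Nat.land (Nat.shiftRight (Nat.shiftRight m (Nat.land (Nat.shiftRight m (Nat.land (Nat.shiftRight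 (Nat.shiftRight m (Nat.land (Nat.shiftRight m (Nat.land (Nat.shiftRight (Nat.shiftRight m (Nat.land (Nat.shiftRight m (Nat.land (Nat.shiftRight (Nat.shiftRight m (Nat.land (Nat.shiftRight m (Nat.land (Nat.shiftRight (Nat.shiftRight m (Nat.land (Nat.shiftRight m (Nat.land (Nat.shiftRight (Nat.shiftRight m (Nat.land (Nat.shiftRight m (Nat.land (Nat.shiftRight (Nat.shiftRight m (Nat.land (Nat.shiftRight c (nat_lit 9)) (nat_lit 65408))) (nat_lit 34)) (nat_lit 0x1ffff))) (nat_lit 0x1ffff))) (nat_lit 34)) (nat_lit 0x1ffff))) (nat_lit 0x1ffff))) (nat_lit 34)) (nat_lit 0x1ffff))) (nat_lit 0x1ffff))) (nat_lit 34)) (nat_lit 0x1ffff))) (nat_lit 0x1ffff))) (nat_lit 34)) (nat_lit 0x1ffff))) (nat_lit 0x1ffff))) (nat_lit 34)) (nat_lit 0x1ffff))) (nat_lit 0x1ffff))) (nat_lit 34)) (nat_lit 0x1ffff))) (nat_lit 0x1ffff))) (nat_lit 34)) (nat_lit 0x1ffff))) (nat_lit 0x1ffff))) (nat_lit 34)) (nat_lit 0x1ffff))) (nat_lit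 0x1ffff))) (nat_lit 34)) (nat_lit 0x1ffff))) (nat_lit 0x1ffff))) (nat_lit 60)) (nat_lit 1008))) (Nat.shiftRight VT (Nat.land (Nat.shiftRight (Nat.shiftRight m (Nat.land (Nat.shiftRight m (Nat.land (Nat.shiftRight (Nat.shiftRight m (Nat.land (Nat.shiftRight m (Nat.land (Nat.shiftRight (Nat.shiftRight m (Nat.land (Nat.shiftRight m (Nat.land (Nat.shiftRight (Nat.shiftRight m (Nat.land (Nat.shiftRight m (Nat.land (Nat.shiftRight (Nat.shiftRight m (Nat.land (Nat.shiftRight m (Nat.land (Nat.shiftRight (Nat.shiftRight m (Nat.land (Nat.shiftRight m (Nat.land (Nat.shiftRight (Nat.shiftRight m (Nat.land (Nat.shiftRight m (Nat.land (Nat.shiftRight (Nat.shiftRight m (Nat.land (Nat.shiftRight m (Nat.land (Nat.shiftRight (Nat.shiftRight m (Nat.land (Nat.shiftRight m (Nat.land (Nat.shiftRight (Nat.shiftRight m (Nat.land (Nat.shiftRight m (Nat.land (Nat.shiftRight (Nat.shiftRight m (Nat.land (Nat.shiftRight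 m (Nat.land (Nat.shiftRight (Nat.shiftRight m (Nat.land (Nat.shiftRight c (nat_lit 9)) (nat_lit 65408))) (nat_lit 34)) (nat_lit 0x1ffff))) (nat_lit 0x1ffff))) (nat_lit 34)) (nat_lit 0x1ffff))) (nat_lit 0x1ffff))) (nat_lit 34)) (nat_lit 0x1ffff))) (nat_lit 0x1ffff))) (nat_lit 34)) (nat_lit 0x1ffff))) (nat_lit 0x1ffff))) (nat_lit 34)) (nat_lit 0x1ffff))) (nat_lit 0x1ffff))) (nat_lit 34)) (nat_lit 0x1ffff))) (nat_lit 0x1ffff))) (nat_lit 34)) (nat_lit 0x1ffff))) (nat_lit 0x1ffff))) (nat_lit 34)) (nat_lit 0x1ffff))) (nat_lit 0x1ffff))) (nat_lit 34)) (nat_lit 0x1ffff))) (nat_lit 0x1ffff))) (nat_lit 34)) (nat_lit 0x1ffff))) (nat_lit 0x1ffff))) (nat_lit 34)) (nat_lit 0x1ffff))) (nat_lit 0x1ffff))) (nat_lit 60)) (nat_lit 1008)))))))))))))) (nat_lit 4)) (nat_lit 240)))) (nat_lit 65535)) (nat_lit 0x30bffd)) (nat_lit 70)))) (Nat.add nd (Nat.shiftLeft (Nat.xor (Nat.land (Nat.shiftRight m (Nat.land (Nat.shiftRight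 (Nat.shiftRight m (Nat.land (Nat.shiftRight m (Nat.land (Nat.shiftRight (Nat.shiftRight m (Nat.land (Nat.shiftRight m (Nat.land (Nat.shiftRight (Nat.shiftRight m (Nat.land (Nat.shiftRight m (Nat.land (Nat.shiftRight (Nat.shiftRight m (Nat.land (Nat.shiftRight m (Nat.land (Nat.shiftRight (Nat.shiftRight m (Nat.land (Nat.shiftRight m (Nat.land (Nat.shiftRight (Nat.shiftRight m (Nat.land (Nat.shiftRight m (Nat.land (Nat.shiftRight (Nat.shiftRight m (Nat.land (Nat.shiftRight m (Nat.land (Nat.shiftRight (Nat.shiftRight m (Nat.land (Nat.shiftRight m (Nat.land (Nat.shiftRight (Nat.shiftRight m (Nat.land (Nat.shiftRight m (Nat.land (Nat.shiftRight (Nat.shiftRight m (Nat.land (Nat.shiftRight m (Nat.land (Nat.shiftRight (Nat.shiftRight m (Nat.land (Nat.shiftRight m (Nat.land (Nat.shiftRight (Nat.shiftRight m (Nat.land (Nat.shiftRight c (nat_lit 9)) (nat_lit 65408))) (nat_lit 34)) (nat_lit 0x1ffff))) (nat_lit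 0x1ffff))) (nat_lit 34)) (nat_lit 0x1ffff))) (nat_lit 0x1ffff))) (nat_lit 34)) (nat_lit 0x1ffff))) (nat_lit 0x1ffff))) (nat_lit 34)) (nat_lit 0x1ffff))) (nat_lit 0x1ffff))) (nat_lit 34)) (nat_lit 0x1ffff))) (nat_lit 0x1ffff))) (nat_lit 34)) (nat_lit 0x1ffff))) (nat_lit 0x1ffff))) (nat_lit 34)) (nat_lit 0x1ffff))) (nat_lit 0x1ffff))) (nat_lit 34)) (nat_lit 0x1ffff))) (nat_lit 0x1ffff))) (nat_lit 34)) (nat_lit 0x1ffff))) (nat_lit 0x1ffff))) (nat_lit 34)) (nat_lit 0x1ffff))) (nat_lit 0x1ffff))) (nat_lit 34)) (nat_lit 0x1ffff))) (nat_lit 0x1ffff))) (nat_lit 34)) (nat_lit 0x1ffff))) (nat_lit 0x1ffff)) (Nat.land (Nat.shiftRight c (nat_lit 9)) (nat_lit 65408))) (nat_lit 16))) e (Nat.shiftRight c (nat_lit 25)))⟩) (Nat.shiftRight k (nat_lit 15)))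

/-- sum over the competitors -/
def sw (T n : ℕ) : C2 :=
  (@Nat.rec (fun _ => C2) ⟨fun _ _ => nat_lit 0⟩ (fun _ ih => ⟨fun m y => (Nat.add (Nat.add (Nat.add (Nat.land (Nat.shiftRight T (Nat.land (Nat.shiftRight (Nat.shiftRight m y) (nat_lit 87)) (nat_lit 32736))) (nat_lit 0xffffffff)) (Nat.land (Nat.shiftRight T (Nat.land (Nat.shiftRight (Nat.shiftRight m y) (nat_lit 103)) (nat_lit 32736))) (nat_lit 0xffffffff))) (Nat.land (Nat.shiftRight m y) (nat_lit 0x20000000000000000))) (ih.1 m (Nat.land (Nat.shiftRight m (Nat.land (Nat.shiftRight (Nat.shiftRight m y) (nat_lit 34)) (nat_lit 0x1ffff))) (nat_lit 0x1ffff))))⟩) n)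

def oShr (g : G) (a k : ℕ) : Op :=
  sel (cj (cj (tb g.R.c1 (Nat.land (Nat.shiftRight k (nat_lit 8)) (nat_lit 15))) (Nat.ble 1 (fl (Nat.land (Nat.shiftRight k (nat_lit 8)) (nat_lit 15))))) (cj (Nat.ble (Nat.land (Nat.shiftRight k (nat_lit 12)) (nat_lit 7)) 5) (Nat.ble (Nat.div (Nat.add (Nat.mul (byt g.R.th (Nat.land (Nat.shiftRight k (nat_lit 12)) (nat_lit 7))) (byt g.R.am1 a)) (nat_lit 11)) (nat_lit 12)) (byt g.R.am1 a))))
    ⟨fun ih lim m nd e c => (Nat.mul (Nat.shiftRight c (nat_lit 25)) (Nat.sub (nat_lit 1) (Nat.add (Nat.shiftRight (Nat.add nd (Nat.xor (Nat.land (Nat.shiftRight m (Nat.land (Nat.shiftRight c (nat_lit 9)) (nat_lit 65408))) (Nat.lor (Nat.lor (clsX (Nat.land (Nat.shiftRight k (nat_lit 8)) (nat_lit 15))) (Nat.shiftLeft (Nat.lor (low a) (hig (Nat.succ a))) (Nat.add (Nat.mul (Nat.land (Nat.shiftRight k (nat_lit 7)) (nat_lit 1)) (nat_lit 16)) (nat_lit 92)))) (Nat.shiftLeft (Nat.land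 (nat_lit 63) (hig (Nat.land (Nat.shiftRight k (nat_lit 12)) (nat_lit 7)))) (Nat.add (Nat.add (Nat.mul (Nat.land (Nat.shiftRight k (nat_lit 7)) (nat_lit 1)) (nat_lit 16)) (nat_lit 92)) (nat_lit 10))))) (Nat.lor (Nat.lor (clsX (Nat.land (Nat.shiftRight k (nat_lit 8)) (nat_lit 15))) (Nat.shiftLeft (Nat.lor (low a) (hig (Nat.succ a))) (Nat.add (Nat.mul (Nat.land (Nat.shiftRight k (nat_lit 7)) (nat_lit 1)) (nat_lit 16)) (nat_lit 92)))) (Nat.shiftLeft (Nat.land (nat_lit 63) (hig (Nat.land (Nat.shiftRight k (nat_lit 12)) (nat_lit 7)))) (Nat.add (Nat.add (Nat.mul (Nat.land (Nat.shiftRight k (nat_lit 7)) (nat_lit 1)) (nat_lit 16)) (nat_lit 92)) (nat_lit 10)))))) (nat_lit 16)) (Nat.mul (Nat.sub (Nat.add (Nat.land (Nat.add (Nat.add (Nat.land (Nat.shiftRight (BT.get g.fd.ta a) (Nat.land (Nat.shiftRight (Nat.shiftRight m (Nat.land (Nat.shiftRight c (nat_lit 9)) (nat_lit 65408))) (Nat.sub (nat_lit 103) (Nat.mul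 (Nat.land (Nat.shiftRight k (nat_lit 7)) (nat_lit 1)) (nat_lit 16)))) (nat_lit 32736))) (nat_lit 0xffffffff)) (Nat.land (Nat.shiftRight m (Nat.land (Nat.shiftRight c (nat_lit 9)) (nat_lit 65408))) (nat_lit 0x20000000000000000))) ((sw (BT.get g.fd.ta a) (Nat.sub (fl (Nat.land (Nat.shiftRight k (nat_lit 8)) (nat_lit 15))) (nat_lit 1))).1 m (Nat.land (Nat.shiftRight m (Nat.land (Nat.shiftRight (Nat.shiftRight m (Nat.land (Nat.shiftRight c (nat_lit 9)) (nat_lit 65408))) (nat_lit 34)) (nat_lit 0x1ffff))) (nat_lit 0x1ffff)))) (nat_lit 2047)) (byt g.R.am1 a)) (Nat.add (byt g.R.cap (Nat.land (Nat.shiftRight k (nat_lit 8)) (nat_lit 15))) (Nat.mul (Nat.sub (byt g.R.kh (Nat.land (Nat.shiftRight k (nat_lit 8)) (nat_lit 15))) (Nat.sub (fl (Nat.land (Nat.shiftRight k (nat_lit 8)) (nat_lit 15))) (Nat.shiftRight (Nat.add (Nat.add (Nat.land (Nat.shiftRight (BT.get g.fd.ta a) (Nat.land (Nat.shiftRight (Nat.shiftRight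 m (Nat.land (Nat.shiftRight c (nat_lit 9)) (nat_lit 65408))) (Nat.sub (nat_lit 103) (Nat.mul (Nat.land (Nat.shiftRight k (nat_lit 7)) (nat_lit 1)) (nat_lit 16)))) (nat_lit 32736))) (nat_lit 0xffffffff)) (Nat.land (Nat.shiftRight m (Nat.land (Nat.shiftRight c (nat_lit 9)) (nat_lit 65408))) (nat_lit 0x20000000000000000))) ((sw (BT.get g.fd.ta a) (Nat.sub (fl (Nat.land (Nat.shiftRight k (nat_lit 8)) (nat_lit 15))) (nat_lit 1))).1 m (Nat.land (Nat.shiftRight m (Nat.land (Nat.shiftRight (Nat.shiftRight m (Nat.land (Nat.shiftRight c (nat_lit 9)) (nat_lit 65408))) (nat_lit 34)) (nat_lit 0x1ffff))) (nat_lit 0x1ffff)))) (nat_lit 65)))) (nat_lit 12)))) (Nat.sub (Nat.div (Nat.add (Nat.mul (byt g.R.th (Nat.land (Nat.shiftRight k (nat_lit 12)) (nat_lit 7))) (byt g.R.am1 a)) (nat_lit 11)) (nat_lit 12)) (Nat.div (Nat.mul (Nat.sub (Nat.add (byt g.R.cap (Nat.land (Nat.shiftRight k (nat_lit 8)) (nat_lit 15)))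 (Nat.mul (Nat.sub (byt g.R.kh (Nat.land (Nat.shiftRight k (nat_lit 8)) (nat_lit 15))) (Nat.sub (fl (Nat.land (Nat.shiftRight k (nat_lit 8)) (nat_lit 15))) (Nat.shiftRight (Nat.add (Nat.add (Nat.land (Nat.shiftRight (BT.get g.fd.ta a) (Nat.land (Nat.shiftRight (Nat.shiftRight m (Nat.land (Nat.shiftRight c (nat_lit 9)) (nat_lit 65408))) (Nat.sub (nat_lit 103) (Nat.mul (Nat.land (Nat.shiftRight k (nat_lit 7)) (nat_lit 1)) (nat_lit 16)))) (nat_lit 32736))) (nat_lit 0xffffffff)) (Nat.land (Nat.shiftRight m (Nat.land (Nat.shiftRight c (nat_lit 9)) (nat_lit 65408))) (nat_lit 0x20000000000000000))) ((sw (BT.get g.fd.ta a) (Nat.sub (fl (Nat.land (Nat.shiftRight k (nat_lit 8)) (nat_lit 15))) (nat_lit 1))).1 m (Nat.land (Nat.shiftRight m (Nat.land (Nat.shiftRight (Nat.shiftRight m (Nat.land (Nat.shiftRight c (nat_lit 9)) (nat_lit 65408))) (nat_lit 34)) (nat_lit 0x1ffff))) (nat_lit 0x1ffff)))) (nat_lit 65))))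 (nat_lit 12))) (Nat.land (Nat.shiftRight (Nat.add (Nat.add (Nat.land (Nat.shiftRight (BT.get g.fd.ta a) (Nat.land (Nat.shiftRight (Nat.shiftRight m (Nat.land (Nat.shiftRight c (nat_lit 9)) (nat_lit 65408))) (Nat.sub (nat_lit 103) (Nat.mul (Nat.land (Nat.shiftRight k (nat_lit 7)) (nat_lit 1)) (nat_lit 16)))) (nat_lit 32736))) (nat_lit 0xffffffff)) (Nat.land (Nat.shiftRight m (Nat.land (Nat.shiftRight c (nat_lit 9)) (nat_lit 65408))) (nat_lit 0x20000000000000000))) ((sw (BT.get g.fd.ta a) (Nat.sub (fl (Nat.land (Nat.shiftRight k (nat_lit 8)) (nat_lit 15))) (nat_lit 1))).1 m (Nat.land (Nat.shiftRight m (Nat.land (Nat.shiftRight (Nat.shiftRight m (Nat.land (Nat.shiftRight c (nat_lit 9)) (nat_lit 65408))) (nat_lit 34)) (nat_lit 0x1ffff))) (nat_lit 0x1ffff)))) (nat_lit 21)) (nat_lit 2047))) (byt g.R.wt a)) (Nat.add (byt g.R.wt a) (Nat.land (Nat.shiftRight (Nat.add (Nat.add (Nat.land (Nat.shiftRight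 (BT.get g.fd.ta a) (Nat.land (Nat.shiftRight (Nat.shiftRight m (Nat.land (Nat.shiftRight c (nat_lit 9)) (nat_lit 65408))) (Nat.sub (nat_lit 103) (Nat.mul (Nat.land (Nat.shiftRight k (nat_lit 7)) (nat_lit 1)) (nat_lit 16)))) (nat_lit 32736))) (nat_lit 0xffffffff)) (Nat.land (Nat.shiftRight m (Nat.land (Nat.shiftRight c (nat_lit 9)) (nat_lit 65408))) (nat_lit 0x20000000000000000))) ((sw (BT.get g.fd.ta a) (Nat.sub (fl (Nat.land (Nat.shiftRight k (nat_lit 8)) (nat_lit 15))) (nat_lit 1))).1 m (Nat.land (Nat.shiftRight m (Nat.land (Nat.shiftRight (Nat.shiftRight m (Nat.land (Nat.shiftRight c (nat_lit 9)) (nat_lit 65408))) (nat_lit 34)) (nat_lit 0x1ffff))) (nat_lit 0x1ffff)))) (nat_lit 11)) (nat_lit 1023)))))))))⟩ ⟨fun _ _ _ _ _ _ => nat_lit 0⟩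

def oShv (g : G) (a k : ℕ) : Op :=
  sel (cj (tb g.R.c1 (Nat.land (Nat.shiftRight k (nat_lit 8)) (nat_lit 15))) (Nat.ble 1 (fl (Nat.land (Nat.shiftRight k (nat_lit 8)) (nat_lit 15)))))
    ⟨fun ih lim m nd e c => (ih.1 lim m (Nat.add (Nat.add nd (Nat.xor (Nat.land (Nat.shiftRight m (Nat.land (Nat.shiftRight c (nat_lit 9)) (nat_lit 65408))) (Nat.lor (clsX (Nat.land (Nat.shiftRight k (nat_lit 8)) (nat_lit 15))) (Nat.shiftLeft (Nat.lor (low a) (hig (Nat.succ a))) (Nat.add (Nat.mul (Nat.land (Nat.shiftRight k (nat_lit 7)) (nat_lit 1)) (nat_lit 16)) (nat_lit 92))))) (Nat.lor (clsX (Nat.land (Nat.shiftRight k (nat_lit 8)) (nat_lit 15))) (Nat.shiftLeft (Nat.lor (low a) (hig (Nat.succ a))) (Nat.add (Nat.mul (Nat.land (Nat.shiftRight k (nat_lit 7)) (nat_lit 1)) (nat_lit 16)) (nat_lit 92)))))) (Nat.shiftLeft (Nat.add (Nat.mul (Nat.sub (Nat.add (Nat.land (Nat.add (Nat.add (Nat.land (Nat.shiftRight (BT.get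 g.fd.ta a) (Nat.land (Nat.shiftRight (Nat.shiftRight m (Nat.land (Nat.shiftRight c (nat_lit 9)) (nat_lit 65408))) (Nat.sub (nat_lit 103) (Nat.mul (Nat.land (Nat.shiftRight k (nat_lit 7)) (nat_lit 1)) (nat_lit 16)))) (nat_lit 32736))) (nat_lit 0xffffffff)) (Nat.land (Nat.shiftRight m (Nat.land (Nat.shiftRight c (nat_lit 9)) (nat_lit 65408))) (nat_lit 0x20000000000000000))) ((sw (BT.get g.fd.ta a) (Nat.sub (fl (Nat.land (Nat.shiftRight k (nat_lit 8)) (nat_lit 15))) (nat_lit 1))).1 m (Nat.land (Nat.shiftRight m (Nat.land (Nat.shiftRight (Nat.shiftRight m (Nat.land (Nat.shiftRight c (nat_lit 9)) (nat_lit 65408))) (nat_lit 34)) (nat_lit 0x1ffff))) (nat_lit 0x1ffff)))) (nat_lit 2047)) (byt g.R.am1 a)) (Nat.add (byt g.R.cap (Nat.land (Nat.shiftRight k (nat_lit 8)) (nat_lit 15))) (Nat.mul (Nat.sub (byt g.R.kh (Nat.land (Nat.shiftRight k (nat_lit 8)) (nat_lit 15))) (Nat.sub (fl (Nat.land (Nat.shiftRight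 k (nat_lit 8)) (nat_lit 15))) (Nat.shiftRight (Nat.add (Nat.add (Nat.land (Nat.shiftRight (BT.get g.fd.ta a) (Nat.land (Nat.shiftRight (Nat.shiftRight m (Nat.land (Nat.shiftRight c (nat_lit 9)) (nat_lit 65408))) (Nat.sub (nat_lit 103) (Nat.mul (Nat.land (Nat.shiftRight k (nat_lit 7)) (nat_lit 1)) (nat_lit 16)))) (nat_lit 32736))) (nat_lit 0xffffffff)) (Nat.land (Nat.shiftRight m (Nat.land (Nat.shiftRight c (nat_lit 9)) (nat_lit 65408))) (nat_lit 0x20000000000000000))) ((sw (BT.get g.fd.ta a) (Nat.sub (fl (Nat.land (Nat.shiftRight k (nat_lit 8)) (nat_lit 15))) (nat_lit 1))).1 m (Nat.land (Nat.shiftRight m (Nat.land (Nat.shiftRight (Nat.shiftRight m (Nat.land (Nat.shiftRight c (nat_lit 9)) (nat_lit 65408))) (nat_lit 34)) (nat_lit 0x1ffff))) (nat_lit 0x1ffff)))) (nat_lit 65)))) (nat_lit 12)))) (Nat.sub (Nat.land (Nat.shiftRight c (nat_lit 25)) (nat_lit 63)) (Nat.div (Nat.mul (Nat.sub (Nat.add (byt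 g.R.cap (Nat.land (Nat.shiftRight k (nat_lit 8)) (nat_lit 15))) (Nat.mul (Nat.sub (byt g.R.kh (Nat.land (Nat.shiftRight k (nat_lit 8)) (nat_lit 15))) (Nat.sub (fl (Nat.land (Nat.shiftRight k (nat_lit 8)) (nat_lit 15))) (Nat.shiftRight (Nat.add (Nat.add (Nat.land (Nat.shiftRight (BT.get g.fd.ta a) (Nat.land (Nat.shiftRight (Nat.shiftRight m (Nat.land (Nat.shiftRight c (nat_lit 9)) (nat_lit 65408))) (Nat.sub (nat_lit 103) (Nat.mul (Nat.land (Nat.shiftRight k (nat_lit 7)) (nat_lit 1)) (nat_lit 16)))) (nat_lit 32736))) (nat_lit 0xffffffff)) (Nat.land (Nat.shiftRight m (Nat.land (Nat.shiftRight c (nat_lit 9)) (nat_lit 65408))) (nat_lit 0x20000000000000000))) ((sw (BT.get g.fd.ta a) (Nat.sub (fl (Nat.land (Nat.shiftRight k (nat_lit 8)) (nat_lit 15))) (nat_lit 1))).1 m (Nat.land (Nat.shiftRight m (Nat.land (Nat.shiftRight (Nat.shiftRight m (Nat.land (Nat.shiftRight c (nat_lit 9)) (nat_lit 65408))) (nat_lit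 34)) (nat_lit 0x1ffff))) (nat_lit 0x1ffff)))) (nat_lit 65)))) (nat_lit 12))) (Nat.land (Nat.shiftRight (Nat.add (Nat.add (Nat.land (Nat.shiftRight (BT.get g.fd.ta a) (Nat.land (Nat.shiftRight (Nat.shiftRight m (Nat.land (Nat.shiftRight c (nat_lit 9)) (nat_lit 65408))) (Nat.sub (nat_lit 103) (Nat.mul (Nat.land (Nat.shiftRight k (nat_lit 7)) (nat_lit 1)) (nat_lit 16)))) (nat_lit 32736))) (nat_lit 0xffffffff)) (Nat.land (Nat.shiftRight m (Nat.land (Nat.shiftRight c (nat_lit 9)) (nat_lit 65408))) (nat_lit 0x20000000000000000))) ((sw (BT.get g.fd.ta a) (Nat.sub (fl (Nat.land (Nat.shiftRight k (nat_lit 8)) (nat_lit 15))) (nat_lit 1))).1 m (Nat.land (Nat.shiftRight m (Nat.land (Nat.shiftRight (Nat.shiftRight m (Nat.land (Nat.shiftRight c (nat_lit 9)) (nat_lit 65408))) (nat_lit 34)) (nat_lit 0x1ffff))) (nat_lit 0x1ffff)))) (nat_lit 21)) (nat_lit 2047))) (byt g.R.wt a)) (Nat.add (byt g.R.wt a) (Nat.land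 (Nat.shiftRight (Nat.add (Nat.add (Nat.land (Nat.shiftRight (BT.get g.fd.ta a) (Nat.land (Nat.shiftRight (Nat.shiftRight m (Nat.land (Nat.shiftRight c (nat_lit 9)) (nat_lit 65408))) (Nat.sub (nat_lit 103) (Nat.mul (Nat.land (Nat.shiftRight k (nat_lit 7)) (nat_lit 1)) (nat_lit 16)))) (nat_lit 32736))) (nat_lit 0xffffffff)) (Nat.land (Nat.shiftRight m (Nat.land (Nat.shiftRight c (nat_lit 9)) (nat_lit 65408))) (nat_lit 0x20000000000000000))) ((sw (BT.get g.fd.ta a) (Nat.sub (fl (Nat.land (Nat.shiftRight k (nat_lit 8)) (nat_lit 15))) (nat_lit 1))).1 m (Nat.land (Nat.shiftRight m (Nat.land (Nat.shiftRight (Nat.shiftRight m (Nat.land (Nat.shiftRight c (nat_lit 9)) (nat_lit 65408))) (nat_lit 34)) (nat_lit 0x1ffff))) (nat_lit 0x1ffff)))) (nat_lit 11)) (nat_lit 1023)))))) (Nat.sub (Nat.land (Nat.shiftRight c (nat_lit 25)) (nat_lit 63)) (byt g.R.am1 a))) (nat_lit 16))) (Nat.xor e (Nat.shiftLeft (Nat.xor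 (Nat.land (Nat.shiftRight e (Nat.add (Nat.land (Nat.shiftRight c (nat_lit 9)) (nat_lit 65408)) (Nat.add (Nat.mul (Nat.land (Nat.shiftRight k (nat_lit 7)) (nat_lit 1)) (nat_lit 12)) (nat_lit 104)))) (nat_lit 63)) (Nat.land (Nat.shiftRight c (nat_lit 25)) (nat_lit 63))) (Nat.add (Nat.land (Nat.shiftRight c (nat_lit 9)) (nat_lit 65408)) (Nat.add (Nat.mul (Nat.land (Nat.shiftRight k (nat_lit 7)) (nat_lit 1)) (nat_lit 12)) (nat_lit 104))))) (Nat.shiftRight c (nat_lit 31)))⟩ ⟨fun _ _ _ _ _ _ => nat_lit 0⟩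

def oLng (g : G) (k : ℕ) : Op :=
  sel (cj (Nat.ble 1 (Nat.land (Nat.shiftRight k (nat_lit 8)) (nat_lit 15))) (cj (Nat.ble (Nat.land (Nat.shiftRight k (nat_lit 8)) (nat_lit 15)) 9) (cj (Nat.ble (Nat.land (Nat.shiftRight k (nat_lit 12)) (nat_lit 7)) 5) (Nat.ble (Nat.mul (byt g.R.th (Nat.land (Nat.shiftRight k (nat_lit 12)) (nat_lit 7))) (byt g.R.amx 15)) (Nat.mul (nat_lit 12) (Nat.sub (nat_lit 6) (Nat.mul (nat_lit 3) (Nat.shiftRight k (nat_lit 15)))))))))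
    ⟨fun ih lim m nd e c => (Nat.mul (Nat.shiftRight c (nat_lit 25)) (Nat.sub (nat_lit 1) (Nat.add (Nat.add (Nat.shiftRight (Nat.add nd (Nat.xor (Nat.land (Nat.shiftRight m (Nat.land (Nat.shiftRight c (nat_lit 9)) (nat_lit 65408))) (Nat.lor (Nat.lor (clsX 14) (Nat.shiftLeft g.R.c1 (nat_lit 70))) (Nat.lor (Nat.shiftLeft (hig (Nat.add (Nat.land (Nat.shiftRight k (nat_lit 8)) (nat_lit 15)) (Nat.shiftRight k (nat_lit 15)))) (Nat.sub (nat_lit 108) (Nat.mul (Nat.land (Nat.shiftRight k (nat_lit 7)) (nat_lit 1)) (nat_lit 16)))) (Nat.shiftLeft (Nat.land (nat_lit 63) (hig (Nat.land (Nat.shiftRight k (nat_lit 12)) (nat_lit 7)))) (Nat.add (Nat.add (Nat.mul (Nat.land (Nat.shiftRight k (nat_lit 7)) (nat_lit 1)) (nat_lit 16)) (nat_lit 92)) (nat_lit 10)))))) (Nat.lor (Nat.lor (clsX 14) (Nat.shiftLeft g.R.c1 (nat_lit 70))) (Nat.lor (Nat.shiftLeft (hig (Nat.add (Nat.land (Nat.shiftRight k (nat_lit 8)) (nat_lit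 15)) (Nat.shiftRight k (nat_lit 15)))) (Nat.sub (nat_lit 108) (Nat.mul (Nat.land (Nat.shiftRight k (nat_lit 7)) (nat_lit 1)) (nat_lit 16)))) (Nat.shiftLeft (Nat.land (nat_lit 63) (hig (Nat.land (Nat.shiftRight k (nat_lit 12)) (nat_lit 7)))) (Nat.add (Nat.add (Nat.mul (Nat.land (Nat.shiftRight k (nat_lit 7)) (nat_lit 1)) (nat_lit 16)) (nat_lit 92)) (nat_lit 10))))))) (nat_lit 16)) (Nat.xor (Nat.land (Nat.lor (Nat.shiftRight e (Nat.add (Nat.land (Nat.shiftRight c (nat_lit 9)) (nat_lit 65408)) (Nat.mul (Nat.land (Nat.shiftRight k (nat_lit 7)) (nat_lit 1)) (nat_lit 26)))) (Nat.land (Nat.shiftRight (Nat.shiftRight m (Nat.land (Nat.shiftRight c (nat_lit 9)) (nat_lit 65408))) (Nat.add (Nat.mul (Nat.land (Nat.shiftRight k (nat_lit 7)) (nat_lit 1)) (nat_lit 16)) (nat_lit 92))) (nat_lit 1023))) (low (Nat.land (Nat.shiftRight k (nat_lit 8)) (nat_lit 15)))) (low (Nat.land (Nat.shiftRight k (nat_lit 8)) (nat_lit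 15))))) (Nat.xor (Nat.land (Nat.shiftRight e (Nat.add (Nat.land (Nat.shiftRight c (nat_lit 9)) (nat_lit 65408)) (nat_lit 52))) (hig 1)) (hig 1)))))⟩ ⟨fun _ _ _ _ _ _ => nat_lit 0⟩

def oNog (g : G) (cs : ℕ → ℕ) (k : ℕ) : Op :=
  (@Nat.rec (fun _ => Op) ⟨fun _ _ _ _ _ _ => nat_lit 0⟩ (fun b _ => (@Nat.rec (fun _ => Op) ⟨fun _ _ _ _ _ _ => nat_lit 0⟩ (fun w _ => (@Nat.rec (fun _ => Op) ⟨fun ih lim m nd e c => (Nat.mul (Nat.shiftRight c (nat_lit 25)) (Nat.sub (nat_lit 1) (Nat.add (((mlv0 g (nat_lit 128)).1 (Nat.shiftRight (getP g (Nat.shiftRight w (nat_lit 1))) (Nat.land (getP g (Nat.shiftRight w (nat_lit 1))) (nat_lit 4095))) (Nat.shiftRight (getP g (Nat.shiftRight w (nat_lit 1))) (nat_lit 12)) (nat_lit 0)).1 m (Nat.shiftRight m (Nat.land (Nat.shiftRight c (nat_lit 9)) (nat_lit 65408))) (Nat.shiftRight m (Nat.land (Nat.shiftRight c (nat_lit 9)) (nat_lit 65408))) (Nat.shiftRight m (Nat.land (Nat.shiftRight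 c (nat_lit 9)) (nat_lit 65408))) (Nat.shiftRight m (Nat.land (Nat.shiftRight c (nat_lit 9)) (nat_lit 65408))) (Nat.shiftRight m (Nat.land (Nat.shiftRight c (nat_lit 9)) (nat_lit 65408))) (nat_lit 0x3e0000000000000000) (nat_lit 0)) (Nat.add (Nat.sub (Nat.succ (Nat.shiftRight w (nat_lit 1))) lim) (Nat.shiftRight nd (nat_lit 16))))))⟩ (fun _ _ => ⟨fun ih lim m nd e c => (Nat.mul (Nat.shiftRight c (nat_lit 25)) (Nat.sub (nat_lit 1) (Nat.add (((mlv1 g (nat_lit 128)).1 (Nat.shiftRight (getP g (Nat.shiftRight w (nat_lit 1))) (Nat.land (getP g (Nat.shiftRight w (nat_lit 1))) (nat_lit 4095))) (Nat.shiftRight (getP g (Nat.shiftRight w (nat_lit 1))) (nat_lit 12)) (nat_lit 0)).1 m (Nat.shiftRight m (Nat.land (Nat.shiftRight c (nat_lit 9)) (nat_lit 65408))) (Nat.shiftRight m (Nat.land (Nat.shiftRight c (nat_lit 9)) (nat_lit 65408))) (Nat.shiftRight m (Nat.land (Nat.shiftRight c (nat_lit 9)) (nat_lit 65408)))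 (Nat.shiftRight m (Nat.land (Nat.shiftRight c (nat_lit 9)) (nat_lit 65408))) (Nat.shiftRight m (Nat.land (Nat.shiftRight c (nat_lit 9)) (nat_lit 65408))) (nat_lit 0x3e0000000000000000) (nat_lit 0)) (Nat.add (Nat.sub (Nat.succ (Nat.shiftRight w (nat_lit 1))) lim) (Nat.shiftRight nd (nat_lit 16))))))⟩) (Nat.land w (nat_lit 1)))) (Nat.succ (Nat.land (Nat.shiftRight (cs b) (Nat.mul (Nat.land (Nat.shiftRight k (nat_lit 7)) (nat_lit 127)) (nat_lit 24))) (nat_lit 0xffffff))))) (Nat.add (Nat.shiftRight k (nat_lit 14)) (Nat.add (Nat.mul (Nat.land k (nat_lit 127)) (nat_lit 4)) (nat_lit 193))))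

def oJmp (cs : ℕ → ℕ) (k : ℕ) : Op :=
  ⟨fun ih lim m nd e c => (ih.1 lim m nd e (cs (Nat.shiftRight k (nat_lit 7))))⟩

/-- operation number `o + 1` -/
def TO (g : G) (cs : ℕ → ℕ) (o : ℕ) : OK :=
  (@Bool.rec (fun _ => OK) (@Bool.rec (fun _ => OK) (@Bool.rec (fun _ => OK) (@Bool.rec (fun _ => OK) (@Bool.rec (fun _ => OK) (@Bool.rec (fun _ => OK) (@Bool.rec (fun _ => OK) ⟨fun k => oNog g cs k⟩
    ⟨fun _ => ⟨fun _ _ _ _ _ _ => nat_lit 0⟩⟩ (Nat.ble o (nat_lit 78)))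
    ⟨fun k => oLng g k⟩ (Nat.ble o (nat_lit 77)))
    (@Bool.rec (fun _ => OK) ⟨fun k => oJmp cs k⟩
    ⟨fun k => oShv g (nat_lit 9) k⟩ (Nat.ble o (nat_lit 75))) (Nat.ble o (nat_lit 76)))
    (@Bool.rec (fun _ => OK) (@Bool.rec (fun _ => OK) (@Bool.rec (fun _ => OK) ⟨fun k => oShv g (nat_lit 8) k⟩
    ⟨fun k => oShv g (nat_lit 7) k⟩ (Nat.ble o (nat_lit 73)))
    ⟨fun k => oShv g (nat_lit 6) k⟩ (Nat.ble o (nat_lit 72)))
    (@Bool.rec (fun _ => OK) ⟨fun k => oShv g (nat_lit 5) k⟩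
    ⟨fun k => oShv g (nat_lit 4) k⟩ (Nat.ble o (nat_lit 70))) (Nat.ble o (nat_lit 71))) (Nat.ble o (nat_lit 74)))
    (@Bool.rec (fun _ => OK) (@Bool.rec (fun _ => OK) (@Bool.rec (fun _ => OK) (@Bool.rec (fun _ => OK) ⟨fun k => oShv g (nat_lit 3) k⟩
    ⟨fun k => oShv g (nat_lit 2) k⟩ (Nat.ble o (nat_lit 68)))
    ⟨fun k => oShv g (nat_lit 1) k⟩ (Nat.ble o (nat_lit 67)))
    (@Bool.rec (fun _ => OK) ⟨fun k => oShr g (nat_lit 9) k⟩
    ⟨fun k => oShr g (nat_lit 8) k⟩ (Nat.ble o (nat_lit 65))) (Nat.ble o (nat_lit 66)))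
    (@Bool.rec (fun _ => OK) (@Bool.rec (fun _ => OK) (@Bool.rec (fun _ => OK) ⟨fun k => oShr g (nat_lit 7) k⟩
    ⟨fun k => oShr g (nat_lit 6) k⟩ (Nat.ble o (nat_lit 63)))
    ⟨fun k => oShr g (nat_lit 5) k⟩ (Nat.ble o (nat_lit 62)))
    (@Bool.rec (fun _ => OK) ⟨fun k => oShr g (nat_lit 4) k⟩
    ⟨fun k => oShr g (nat_lit 3) k⟩ (Nat.ble o (nat_lit 60))) (Nat.ble o (nat_lit 61))) (Nat.ble o (nat_lit 64))) (Nat.ble o (nat_lit 69)))
    (@Bool.rec (fun _ => OK) (@Bool.rec (fun _ => OK) (@Bool.rec (fun _ => OK) (@Bool.rec (fun _ => OK) (@Bool.rec (fun _ => OK) ⟨fun k => oShr g (nat_lit 2) k⟩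
    ⟨fun k => oShr g (nat_lit 1) k⟩ (Nat.ble o (nat_lit 58)))
    ⟨fun k => oRel12 k⟩ (Nat.ble o (nat_lit 57)))
    (@Bool.rec (fun _ => OK) ⟨fun k => oRel11 k⟩
    ⟨fun k => oRel10 k⟩ (Nat.ble o (nat_lit 55))) (Nat.ble o (nat_lit 56)))
    (@Bool.rec (fun _ => OK) (@Bool.rec (fun _ => OK) (@Bool.rec (fun _ => OK) ⟨fun k => oRel9 k⟩
    ⟨fun k => oRel8 k⟩ (Nat.ble o (nat_lit 53)))
    ⟨fun k => oRel7 k⟩ (Nat.ble o (nat_lit 52)))
    (@Bool.rec (fun _ => OK) ⟨fun k => oRel6 k⟩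
    ⟨fun k => oRel5 k⟩ (Nat.ble o (nat_lit 50))) (Nat.ble o (nat_lit 51))) (Nat.ble o (nat_lit 54)))
    (@Bool.rec (fun _ => OK) (@Bool.rec (fun _ => OK) (@Bool.rec (fun _ => OK) (@Bool.rec (fun _ => OK) ⟨fun k => oRel4 k⟩
    ⟨fun k => oRel3 k⟩ (Nat.ble o (nat_lit 48)))
    ⟨fun k => oRel2 k⟩ (Nat.ble o (nat_lit 47)))
    (@Bool.rec (fun _ => OK) ⟨fun k => oRel1 k⟩
    ⟨fun k => oRlq k⟩ (Nat.ble o (nat_lit 45))) (Nat.ble o (nat_lit 46)))
    (@Bool.rec (fun _ => OK) (@Bool.rec (fun _ => OK) (@Bool.rec (fun _ => OK) ⟨fun k => oMov1 k⟩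
    ⟨fun k => oMov0 k⟩ (Nat.ble o (nat_lit 43)))
    ⟨fun k => oLnk k⟩ (Nat.ble o (nat_lit 42)))
    (@Bool.rec (fun _ => OK) ⟨fun k => oFold k⟩
    ⟨fun _ => oRed g⟩ (Nat.ble o (nat_lit 40))) (Nat.ble o (nat_lit 41))) (Nat.ble o (nat_lit 44))) (Nat.ble o (nat_lit 49))) (Nat.ble o (nat_lit 59)))
    (@Bool.rec (fun _ => OK) (@Bool.rec (fun _ => OK) (@Bool.rec (fun _ => OK) (@Bool.rec (fun _ => OK) (@Bool.rec (fun _ => OK) (@Bool.rec (fun _ => OK) ⟨fun k => oWin g k⟩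
    ⟨fun k => oBnf g k⟩ (Nat.ble o (nat_lit 38)))
    ⟨fun k => oBnv g k⟩ (Nat.ble o (nat_lit 37)))
    (@Bool.rec (fun _ => OK) ⟨fun k => oAmt g k⟩
    ⟨fun k => oEvb g k⟩ (Nat.ble o (nat_lit 35))) (Nat.ble o (nat_lit 36)))
    (@Bool.rec (fun _ => OK) (@Bool.rec (fun _ => OK) (@Bool.rec (fun _ => OK) ⟨fun k => oEve g k⟩
    ⟨fun k => oEvm g k⟩ (Nat.ble o (nat_lit 33)))
    ⟨fun k => oLoop k⟩ (Nat.ble o (nat_lit 32)))
    (@Bool.rec (fun _ => OK) ⟨fun k => oEmf k⟩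
    ⟨fun k => oEmv k⟩ (Nat.ble o (nat_lit 30))) (Nat.ble o (nat_lit 31))) (Nat.ble o (nat_lit 34)))
    (@Bool.rec (fun _ => OK) (@Bool.rec (fun _ => OK) (@Bool.rec (fun _ => OK) (@Bool.rec (fun _ => OK) ⟨fun k => oCut3 k⟩
    ⟨fun k => oCut2 k⟩ (Nat.ble o (nat_lit 28)))
    ⟨fun k => oCut1 k⟩ (Nat.ble o (nat_lit 27)))
    (@Bool.rec (fun _ => OK) ⟨fun k => oCut0 k⟩
    ⟨fun k => oPrf k⟩ (Nat.ble o (nat_lit 25))) (Nat.ble o (nat_lit 26)))
    (@Bool.rec (fun _ => OK) (@Bool.rec (fun _ => OK) (@Bool.rec (fun _ => OK) ⟨fun k => oPrv k⟩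
    ⟨fun k => oSpf k⟩ (Nat.ble o (nat_lit 23)))
    ⟨fun k => oSpv k⟩ (Nat.ble o (nat_lit 22)))
    (@Bool.rec (fun _ => OK) ⟨fun k => oJn11 k⟩
    ⟨fun k => oJn10 k⟩ (Nat.ble o (nat_lit 20))) (Nat.ble o (nat_lit 21))) (Nat.ble o (nat_lit 24))) (Nat.ble o (nat_lit 29)))
    (@Bool.rec (fun _ => OK) (@Bool.rec (fun _ => OK) (@Bool.rec (fun _ => OK) (@Bool.rec (fun _ => OK) (@Bool.rec (fun _ => OK) ⟨fun k => oJn9 k⟩
    ⟨fun k => oJn8 k⟩ (Nat.ble o (nat_lit 18)))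
    ⟨fun k => oJn7 k⟩ (Nat.ble o (nat_lit 17)))
    (@Bool.rec (fun _ => OK) ⟨fun k => oJn6 k⟩
    ⟨fun k => oJn5 k⟩ (Nat.ble o (nat_lit 15))) (Nat.ble o (nat_lit 16)))
    (@Bool.rec (fun _ => OK) (@Bool.rec (fun _ => OK) (@Bool.rec (fun _ => OK) ⟨fun k => oJn4 k⟩
    ⟨fun k => oJn3 k⟩ (Nat.ble o (nat_lit 13)))
    ⟨fun k => oJn2 k⟩ (Nat.ble o (nat_lit 12)))
    (@Bool.rec (fun _ => OK) ⟨fun k => oJn1 k⟩
    ⟨fun k => oClv5 k⟩ (Nat.ble o (nat_lit 10))) (Nat.ble o (nat_lit 11))) (Nat.ble o (nat_lit 14)))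
    (@Bool.rec (fun _ => OK) (@Bool.rec (fun _ => OK) (@Bool.rec (fun _ => OK) (@Bool.rec (fun _ => OK) ⟨fun k => oClv4 k⟩
    ⟨fun k => oClv3 k⟩ (Nat.ble o (nat_lit 8)))
    ⟨fun k => oClv2 k⟩ (Nat.ble o (nat_lit 7)))
    (@Bool.rec (fun _ => OK) ⟨fun k => oClv1 k⟩
    ⟨fun k => oExb k⟩ (Nat.ble o (nat_lit 5))) (Nat.ble o (nat_lit 6)))
    (@Bool.rec (fun _ => OK) (@Bool.rec (fun _ => OK) (@Bool.rec (fun _ => OK) ⟨fun k => oExf k⟩
    ⟨fun k => oExz2 k⟩ (Nat.ble o (nat_lit 3)))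
    ⟨fun k => oExz1 k⟩ (Nat.ble o (nat_lit 2)))
    (@Bool.rec (fun _ => OK) ⟨fun k => oExz0 k⟩
    ⟨fun k => oExt k⟩ (Nat.ble o (nat_lit 0))) (Nat.ble o (nat_lit 1))) (Nat.ble o (nat_lit 4))) (Nat.ble o (nat_lit 9))) (Nat.ble o (nat_lit 19))) (Nat.ble o (nat_lit 39)))

def T (g : G) (cs : ℕ → ℕ) (k : ℕ) : Op :=
  (@Nat.rec (fun _ => Op) ⟨fun _ _ _ _ _ _ => nat_lit 0⟩ (fun o _ => ((TO g cs o).1 k)) (Nat.land k (nat_lit 127)))

/-- the tree checker -/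
def lvl (g : G) (cs : ℕ → ℕ) (n : ℕ) : Cl :=
  (@Nat.rec (fun _ => Cl) ⟨fun _ _ _ _ _ => nat_lit 0⟩ (fun _ ih => ⟨fun lim m nd e c => (@Nat.rec (fun _ => ℕ) (nat_lit 0) (fun k _ => ((T g cs k).1 ih lim m nd e c)) (Nat.land c (nat_lit 65535)))⟩) n)

/-- pattern `i` is refuted by the stream `c` -/
def ckP (g : G) (cs : ℕ → ℕ) (i c : ℕ) : ℕ :=
  (blv g (nat_lit 128)).1 ⟨fun m nd => (lvl g cs (nat_lit 3000)).1 i m nd (nat_lit 0) c⟩ (Nat.shiftRight (getP g i) (nat_lit 12)) (Nat.shiftRight (getP g i) (Nat.land (getP g i) (nat_lit 4095))) (nat_lit 0xfc00000000000000000000000000000000000000000000000000000) (nat_lit 256) (nat_lit 128) (nat_lit 128) (nat_lit 128) (nat_lit 128) (nat_lit 128)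

def ckC (g : G) (cs : ℕ → ℕ) (n : ℕ) : ℕ → ℕ → Bool :=
  (@Nat.rec (fun _ => ℕ → ℕ → Bool) (fun _ _ => true) (fun _ ih => (fun i c => (@Nat.rec (fun _ => Bool) false (fun r _ => (ih (Nat.succ i) (Nat.succ r))) (ckP g cs i c)))) n)

/-- `n` patterns from `i` on -/
def ckB (g : G) (cs : ℕ → ℕ) (n i : ℕ) : Bool := ckC g cs n i (cs (nat_lit 0))

/-- a pattern in the first format -/
def ckR (g : G) (cs : ℕ → ℕ) (i p : ℕ) : Bool :=
  bld INI 2000 p 128 (Nat.shiftLeft INI 128) 256 fun _ m nd =>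
    Nat.ble 1 ((lvl g cs (nat_lit 3000)).1 i m nd (nat_lit 0) (cs (nat_lit 0)))

end

end Pool.Agent.Lib.G6.K
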