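import Pool.Agent.Lib.G6.KExt

set_option autoImplicit false

/-! Evaluation of programs in the second checker. -/

namespace Pool.Agent.Lib.G6.K

open Equiv
open Pool.Agent.Lib.MP_bfaad3_co (frc sel cj dj tb sb BT sel_eq frc_eq cj_iff sb_iff)

/-- every bit of `E` holds for the value `v` -/
def kevS (E v : ℕ) : Prop := ∀ i, E.testBit i = true → (rT v).testBit i = true

theorem kev_hig {u v : ℕ} (hv : v % 16 ≤ u) : kevS (hig (Nat.succ u)) v := fun i hi => by
  obtain ⟨h1, h2⟩ := (lv_hig _ _).1 hi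
  rw [k_rT_lo v h2]
  omega

theorem kev_fpN {M a b u y n : ℕ} (h : fpN M a b u y n ≤ 9) :
    Nat.xor a M = b ∧ y ≤ u ∧ n ≤ u ∧ y ≤ fpN M a b u y n ∧ n ≤ fpN M a b u y n ∧ u ≤ 9 := by
  unfold fpN at h ⊢
  rw [frc_eq, frc_eq, sel_eq, sel_eq] at h ⊢
  simp only [cj_iff, Nat.beq_eq, Nat.ble_eq] at h ⊢
  split_ifs at h ⊢ with h1 h2
  · exact ⟨h1.2.1, by omega⟩
  · exact ⟨h1.2.1, by omega⟩
  · omega

theorem kev_val {M a b u y n vy vn : ℕ} (c : Bool) (h : fpN M a b u y n ≤ 9)
    (hy : y ≤ 9 → vy < 4096 ∧ vy % 16 ≤ y) (hn : n ≤ 9 → vn < 4096 ∧ vn % 16 ≤ n) :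
    clamp u (if c then vn else vy) < 4096 ∧
      clamp u (if c then vn else vy) % 16 ≤ fpN M a b u y n := by
  obtain ⟨-, h1, h2, h3, h4, h5⟩ := kev_fpN h
  have := hy (by omega)
  have := hn (by omega)
  unfold clamp
  split_ifs <;> omega

theorem kev_run {D : Type} (σ α : Perm D) (N : Set D) (P : FP) :
    ∀ x, fpM P ≤ 9 → run σ α N P.prog x < 4096 ∧ run σ α N P.prog x % 16 ≤ fpM P := by
  induction P with
  | ret v =>
    intro x h
    have e : fpM (.ret v) = sel (cj (Nat.ble v 4095) (Nat.ble (Nat.land v 15) 9))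
      (Nat.land v 15) 99 := rfl
    have e2 : Nat.land v 15 = v % 16 := Nat.and_two_pow_sub_one_eq_mod v 4
    change v < 4096 ∧ v % 16 ≤ _
    rw [e, sel_eq, e2] at h ⊢
    simp only [cj_iff, Nat.ble_eq] at h ⊢
    split_ifs at h ⊢ <;> omega
  | v0 a b u y n ihy ihn => exact fun x h => kev_val _ h (ihy _) (ihn _)
  | f0 a b u y n ihy ihn => exact fun x h => kev_val _ h (ihy _) (ihn _)
  | v1 w a b u y n ihy ihn => exact fun x h => kev_val _ h (ihy _) (ihn _)
  | f1 w a b u y n ihy ihn => exact fun x h => kev_val _ h (ihy _) (ihn _)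

/-- one question -/
theorem kev_node {M a b u y n vy vn c j Y Z E : ℕ} (h : fpN M a b u y n ≤ 9)
    (hc : c.testBit j = false) (hM : M.testBit j = true) (hy : vy % 16 ≤ y) (hn : vn % 16 ≤ n)
    (hY : kevS Y vy) (hZ : kevS Z vn) (hE : E = hig (Nat.succ u) ∨ E = Nat.land Y Z) :
    kevS (@Bool.rec (fun _ => ℕ) (@Bool.rec (fun _ => ℕ) E Z (Nat.beq (Nat.land c b) b)) Y
      (Nat.beq (Nat.land c a) a)) (clamp u (if a.testBit j then vn else vy)) := by
  obtain ⟨hb, h1, h2, -⟩ := kev_fpN h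
  have e : clamp u (if a.testBit j then vn else vy) = if a.testBit j then vn else vy := by
    rw [clamp, if_pos]
    split_ifs <;> omega
  rw [e]
  cases ha : Nat.beq (Nat.land c a) a
  · cases hb' : Nat.beq (Nat.land c b) b
    · change kevS E _
      rcases hE with rfl | rfl
      · refine kev_hig ?_
        split_ifs <;> omega
      · intro i hi
        change (Y &&& Z).testBit i = true at hi
        rw [Nat.testBit_and, Bool.and_eq_true] at hi
        split_ifs
        exacts [hZ i hi.2, hY i hi.1]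
    · rw [ev_no hc hM (hb ▸ k_sb (Nat.eq_of_beq_eq_true hb'))]
      exact hZ
  · rw [ev_yes hc (k_sb (Nat.eq_of_beq_eq_true ha))]
    exact hY

theorem kev_top {M a b u y n vy vn t m x : ℕ} (c : Bool) {F : ℕ → ℕ → ℕ}
    (hF : kevS (F m x) (clamp u (if c then vn else vy))) :
    kevS ((@Bool.rec (fun _ => C2) ⟨F⟩ ⟨fun _ _ => hig (Nat.succ u)⟩ (Nat.ble u t)).1 m x)
      (clamp u (if c then vn else vy)) := by
  cases Nat.ble u t
  · exact hF
  · exact kev_hig (ev_cl1 _ _)

section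
variable {R : Rule} {D : Type} [Fintype D] {σ α : Perm D} {N : Set D} {m nd : ℕ} {h : ℕ → D}

theorem kev_V (hh : Hom R σ α N m nd h) {d : ℕ} {x : D} (r : Rs nd h d x) :
    (Nat.shiftRight m d).testBit (64 + vt σ N x) = false := by
  have h1 := ev_vt σ N x
  cases hb : (Nat.shiftRight m d).testBit (64 + vt σ N x)
  · rfl
  · rw [k_cell] at hb
    have h3 := rs_fact hh r _ (by omega) (by omega) hb
    rw [Fact, if_pos (by omega)] at h3
    omega

theorem kev_F (hh : Hom R σ α N m nd h) {d : ℕ} {x : D} (r : Rs nd h d x) :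
    (Nat.shiftRight m d).testBit (70 + fc σ α N x) = false := by
  have h1 := ev_fc σ α N x
  cases hb : (Nat.shiftRight m d).testBit (70 + fc σ α N x)
  · rfl
  · rw [k_cell] at hb
    have h3 := rs_fact hh r _ (by omega) (by omega) hb
    rw [Fact, if_neg (by omega), if_pos (by omega)] at h3
    omega

theorem kev_wkc (hh : Hom R σ α N m nd h) (w : W) {d : ℕ} {x : D} (r : Rs nd h d x) :
    Rs nd h (wkc w m (Nat.shiftRight m d)) (wr σ α w x) := by
  cases w with
  | e => exact rs_zero _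
  | a w =>
    have e : wkc (.a w) m (Nat.shiftRight m d) = walk m (.a w) d :=
      (k_wkp m w _).trans (congrArg (walk m w) (k_alc m d))
    rw [e]
    exact rs_walk hh _ r
  | s w =>
    have e : wkc (.s w) m (Nat.shiftRight m d) = walk m (.s w) d := k_wkp m w _
    rw [e]
    exact rs_walk hh _ r
  | i w =>
    have e : wkc (.i w) m (Nat.shiftRight m d) = walk m (.i w) d :=
      (k_wkp m w _).trans (congrArg (walk m w) (k_pvc m d))
    rw [e]
    exact rs_walk hh _ r

theorem kev_rec (u m z : ℕ) (Y Z : ℕ → ℕ) :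
    @Nat.rec (fun _ => ℕ) (hig (Nat.succ u)) (fun q _ =>
      Nat.land (Y (Nat.shiftRight (Nat.shiftRight m 1) q))
        (Z (Nat.shiftRight (Nat.shiftRight m 1) q))) z = hig (Nat.succ u) ∨
    @Nat.rec (fun _ => ℕ) (hig (Nat.succ u)) (fun q _ =>
      Nat.land (Y (Nat.shiftRight (Nat.shiftRight m 1) q))
        (Z (Nat.shiftRight (Nat.shiftRight m 1) q))) z =
      Nat.land (Y (Nat.shiftRight m z)) (Z (Nat.shiftRight m z)) := by
  cases z with
  | zero => exact Or.inl rfl
  | succ q =>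
    refine Or.inr ?_
    change Nat.land (Y (Nat.shiftRight (Nat.shiftRight m 1) q))
      (Z (Nat.shiftRight (Nat.shiftRight m 1) q)) = _
    rw [k_shr, Nat.add_comm]

theorem kev_ev (hh : Hom R σ α N m nd h) (t : ℕ) (P : FP) : fpM P ≤ 9 → ∀ d x, Rs nd h d x →
    kevS ((ev t P).1 m (Nat.shiftRight m d)) (run σ α N P.prog x) := by
  induction P with
  | ret v => exact fun _ _ _ _ _ hi => hi
  | v0 a b u y n ihy ihn =>
    intro hP d x r
    have k := kev_fpN (show fpN VM a b u (fpM y) (fpM n) ≤ 9 from hP)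
    have ky : fpM y ≤ 9 := by omega
    have kn : fpM n ≤ 9 := by omega
    exact kev_top (M := VM) (a := a) (b := b) (y := fpM y) (n := fpM n) _
      (kev_node hP (kev_V hh r) (ev_VM (ev_vt _ _ _)) (kev_run σ α N y x ky).2
        (kev_run σ α N n x kn).2 (ihy ky d x r) (ihn kn d x r) (Or.inr rfl))
  | f0 a b u y n ihy ihn =>
    intro hP d x r
    have k := kev_fpN (show fpN FM a b u (fpM y) (fpM n) ≤ 9 from hP)
    have ky : fpM y ≤ 9 := by omega
    have kn : fpM n ≤ 9 := by omega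
    exact kev_top (M := FM) (a := a) (b := b) (y := fpM y) (n := fpM n) _
      (kev_node hP (kev_F hh r) (ev_FM (ev_fc _ _ _ _)) (kev_run σ α N y x ky).2
        (kev_run σ α N n x kn).2 (ihy ky d x r) (ihn kn d x r) (Or.inr rfl))
  | v1 w a b u y n ihy ihn =>
    intro hP d x r
    obtain ⟨w, f, rfl⟩ := w
    have k := kev_fpN (show fpN VM a b u (fpM y) (fpM n) ≤ 9 from hP)
    have ky : fpM y ≤ 9 := by omega
    have kn : fpM n ≤ 9 := by omega
    have r' := kev_wkc hh w r
    exact kev_top (M := VM) (a := a) (b := b) (y := fpM y) (n := fpM n) _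
      (kev_node hP (kev_V hh r') (ev_VM (ev_vt _ _ _)) (kev_run σ α N y _ ky).2
        (kev_run σ α N n _ kn).2 (ihy ky _ _ r') (ihn kn _ _ r')
        (kev_rec u m _ ((ev t y).1 m) ((ev t n).1 m)))
  | f1 w a b u y n ihy ihn =>
    intro hP d x r
    obtain ⟨w, f, rfl⟩ := w
    have k := kev_fpN (show fpN FM a b u (fpM y) (fpM n) ≤ 9 from hP)
    have ky : fpM y ≤ 9 := by omega
    have kn : fpM n ≤ 9 := by omega
    have r' := kev_wkc hh w r
    exact kev_top (M := FM) (a := a) (b := b) (y := fpM y) (n := fpM n) _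
      (kev_node hP (kev_F hh r') (ev_FM (ev_fc _ _ _ _)) (kev_run σ α N y _ ky).2
        (kev_run σ α N n _ kn).2 (ihy ky _ _ r') (ihn kn _ _ r')
        (kev_rec u m _ ((ev t y).1 m) ((ev t n).1 m)))

end

theorem stKEV : St_kev := by
  intro g hg D _ σ α N _
  refine ⟨fun k x => ?_, fun m nd h hh k t d x r => ?_⟩
  · have h1 := kev_run σ α N (g.fd.p k) x (hg.fp k)
    have h2 := hg.fp k
    rw [lv, hg.s]
    omega
  · rw [hg.s]
    exact kev_ev hh t _ (hg.fp k) d x r

end Pool.Agent.Lib.G6.K
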