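import Pool.Agent.Lib.G6.KAll
import Pool.Agent.Lib.G6.KEv

set_option autoImplicit false

/-! The second checker, put together. -/

namespace Pool.Agent.Lib.G6.K

open Pool.Agent.Lib.MP_bfaad3_co (frc sel cj dj tb BT frc_eq cj_iff dj_iff tb_eq)

noncomputable def allLt (n : ℕ) (p : ℕ → Bool) : Bool :=
  Nat.rec true (fun i ih => cj (p i) ih) n

theorem allLt_ok {n : ℕ} {p : ℕ → Bool} (h : allLt n p = true) : ∀ i < n, p i = true := by
  induction n with
  | zero => exact fun _ hi => absurd hi (Nat.not_lt_zero _)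
  | succ n ih =>
    obtain ⟨h1, h2⟩ := (cj_iff _ _).1 h
    intro i hi
    rcases Nat.lt_succ_iff_lt_or_eq.1 hi with hi | rfl
    exacts [ih h2 i hi, h1]

/-- test of the table of amounts -/
noncomputable def amB (g : G) : Bool :=
  allLt 1024 fun f => frc (byt g.fd.am f) fun t => cj (Nat.ble t 120)
    (allLt 10 fun l => dj (tb f l) (Nat.ble (byt g.R.am0 l) t))

/-- test of the tables of competitors -/
noncomputable def taB (g : G) : Bool :=
  allLt 9 fun a => allLt 1024 fun f =>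
    frc (Nat.mod (Nat.shiftRight (g.fd.ta.get (Nat.succ a)) (Nat.mul 32 f)) 4294967296) fun t =>
    frc (Nat.mod t 2048) fun x => frc (Nat.mod (Nat.div t 2048) 1024) fun y =>
    frc (Nat.div t 2097152) fun z =>
      cj (Nat.ble x 90) (cj (Nat.ble y 45) (cj (Nat.ble z 90) (allLt 10 fun l => dj (tb f l)
        (dj (Nat.ble (Nat.succ (byt g.R.ti l)) (byt g.R.ti (Nat.succ a)))
          (cj (Nat.ble (byt g.R.am1 l) x)
            (sel (Nat.beq (byt g.R.ti l) (byt g.R.ti (Nat.succ a))) (Nat.ble (byt g.R.wt l) y)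
              (Nat.ble (byt g.R.am1 l) z)))))))

theorem gok_mk {g : G} {cfgs : BT (ℕ × ℕ)} (E : Env g.R cfgs) (hr : g.red = redF cfgs)
    (h0 : g.R.s0 = (g.fd.p 0).prog) (h1 : g.R.s1 = (g.fd.p 1).prog)
    (h2 : g.R.s2 = (g.fd.p 2).prog) (h3 : g.R.s3 = (g.fd.p 3).prog) (rt : g.R.rt = g.fd.rts)
    (f0 : fpM g.fd.p0 ≤ 9) (f1 : fpM g.fd.p1 ≤ 9) (f2 : fpM g.fd.p2 ≤ 9) (f3 : fpM g.fd.p3 ≤ 9)
    (am : amB g = true) (ta : taB g = true) : GOK g where
  ok := E.ok
  ini := (all_p1 E.c1).2 _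
  nzn := (all_p1 E.c1).1
  red := by
    rw [hr, ← redF_e]
    exact all_red _ cfgs E.cf
  s := gok_s h0 h1 h2 h3
  rt := rt
  fp := gok_fp f0 f1 f2 f3
  am := fun f hf => by
    have h := allLt_ok am f hf
    simp only [frc_eq, cj_iff, Nat.ble_eq] at h
    refine ⟨h.1, fun l hl hb => ?_⟩
    have h' := allLt_ok h.2 l hl
    simp only [dj_iff, tb_eq, Nat.ble_eq, hb] at h'
    exact h'.resolve_left Bool.false_ne_true
  ta := fun a ha h1 f hf => by
    obtain ⟨a, rfl⟩ := Nat.exists_eq_add_of_le' h1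
    have h := allLt_ok (allLt_ok ta a (by omega)) f hf
    simp only [frc_eq, cj_iff, Nat.ble_eq] at h
    refine ⟨⟨h.1, h.2.1, h.2.2.1⟩, fun l hl hb => ?_⟩
    have h' := allLt_ok h.2.2.2 l hl
    simp only [dj_iff, cj_iff, tb_eq, Nat.ble_eq, hb, MP_bfaad3_co.sel_eq, Nat.beq_eq,
      Nat.succ_eq_add_one] at h'
    rcases h'.resolve_left Bool.false_ne_true with h4 | ⟨h4, h5⟩
    · exact ⟨fun _ => by omega, fun _ => by omega, fun _ => by omega⟩
    · refine ⟨fun _ => h4, fun e => ?_, fun e => ?_⟩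
      · rw [if_pos e] at h5
        exact Nat.le_of_ble_eq_true h5
      · rw [if_neg (by omega)] at h5
        exact Nat.le_of_ble_eq_true h5

variable {g : G} {cs : ℕ → ℕ}

theorem GOK.step (hg : GOK g) {n i : ℕ} (h : Upto2 g i) (H : ckB g cs n i = true) :
    Upto2 g (i + n) := ck_C stKEV hg n i _ h H

theorem GOK.root (hg : GOK g) {i p : ℕ} (h : Upto2 g i) (H : ckR g cs i p = true) :
    PatOK g.R p := ck_R stKEV hg h H

theorem GOK.noCtx (hg : GOK g) (hV : PatOK g.R pV) (hF : PatOK g.R (pF g.R))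
    (hW : PatOK g.R (pW g.R)) : NoCtx := stDIS stINV all_tab g.R hg.ok hg.ini hV hF hW

end Pool.Agent.Lib.G6.K
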