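import Pool.Agent.Lib.G6.KBas

set_option autoImplicit false

/-! New darts in the second checker. -/

namespace Pool.Agent.Lib.G6.K

open Equiv
open Pool.Agent.Lib.MP_bfaad3_co (frc sel cj dj tb sb BT frc_eq sel_eq cj_iff dj_iff tb_eq sb_iff)

theorem k_or {x s : ℕ} (y : ℕ) (hx : x < 2 ^ s) : x ||| y <<< s = x + y * 2 ^ s := by
  rw [Nat.or_comm, ← Nat.shiftLeft_add_eq_or_of_lt hx, Nat.shiftLeft_eq, Nat.add_comm]

theorem k_cel {n p a : ℕ} (z : ℕ) (hn : n < 2 ^ 17) (hp : p < 2 ^ 17) (ha : a < 2 ^ 17) :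
    cel n p a ||| z <<< 64 = n + p * 2 ^ 17 + a * 2 ^ 34 + z * 2 ^ 64 := by
  have e : cel n p a = n + p * 2 ^ 17 + a * 2 ^ 34 := by
    change n ||| (p <<< 17 ||| a <<< (17 + 17)) = _
    rw [Nat.shiftLeft_add, ← Nat.shiftLeft_or_distrib, k_or _ hn, k_or _ hp]
    omega
  rw [k_or _ (by omega), e]

theorem k_cela (a : ℕ) : cel 0 0 a = a <<< 34 := by simp [cel]

theorem k_celp (a : ℕ) : cel 0 a 0 = a <<< 17 := by simp [cel]

theorem k_exA {d : ℕ} (m nd : ℕ) {v w : ℕ} (hd : d < 2 ^ 17) (hw : w = v ||| INI)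
    (hv : v = 0 ∨ v = NB) : exA m nd d w = extA INI m nd d v := by
  have e : d <<< 34 + w = d <<< 34 ||| w := by
    obtain ⟨z, hz⟩ : ∃ z, w = z <<< 64 := by
      rcases hv with rfl | rfl
      · exact ⟨63 * 2 ^ 22, hw.trans (by decide)⟩
      · exact ⟨63 * 2 ^ 22 + 1, hw.trans (by decide)⟩
    rw [hz, k_or z (by rw [Nat.shiftLeft_eq]; omega), Nat.shiftLeft_eq z]
  change (m ||| nd <<< (d + 34)) ||| ((d <<< 34 + w) ||| getF m (nx m d)) <<< nd =
    (m ||| cel 0 0 nd <<< d) ||| (cel 0 0 d ||| ((v ||| INI) ||| getF m (nx m d))) <<< nd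
  rw [e, k_cela, k_cela, ← Nat.shiftLeft_add, Nat.add_comm 34, ← hw, Nat.or_assoc (d <<< 34)]

theorem k_exF {d : ℕ} (m nd : ℕ) (hd : d < 2 ^ 17) : exF m nd d = extF INI m nd d := by
  have e : d <<< 17 + (63 * 2 ^ 22) <<< 64 = d <<< 17 ||| INI := by
    rw [show INI = (63 * 2 ^ 22) <<< 64 by decide, k_or _ (by rw [Nat.shiftLeft_eq]; omega),
      Nat.shiftLeft_eq (63 * 2 ^ 22)]
  change (m ||| nd <<< d) ||| (((d <<< 17 + (63 * 2 ^ 22) <<< 64) ||| getV m d) |||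
    getF m (Nat.land (Nat.shiftRight (Nat.shiftRight m d) 34) 131071)) <<< nd =
    (m ||| nd <<< d) ||| (cel 0 d 0 ||| ((getV m d ||| INI) ||| getF m (al m d))) <<< nd
  rw [e, k_alc, k_celp]
  congr 2
  ac_rfl

theorem k_exB {d : ℕ} (m nd : ℕ) (hd : d < 2 ^ 17) : exB m nd d = extB INI m nd d := by
  have e : d + (63 * 2 ^ 22) <<< 64 = d ||| INI := by
    rw [show INI = (63 * 2 ^ 22) <<< 64 by decide, k_or _ (by omega),
      Nat.shiftLeft_eq (63 * 2 ^ 22)]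
  change (m ||| nd <<< (d + 17)) ||| ((d + (63 * 2 ^ 22) <<< 64) ||| getV m d) <<< nd =
    (m ||| cel 0 nd 0 <<< d) ||| (d ||| (getV m d ||| INI)) <<< nd
  rw [e, k_celp, ← Nat.shiftLeft_add, Nat.add_comm 17]
  congr 2
  ac_rfl

theorem k_exZ {d nd : ℕ} (m : ℕ) (hd : d < 2 ^ 17) (hn : nd < 65536) :
    exZ m nd d = extZ INI m nd d := by
  have z : ZB ||| INI = (62 + 63 * 2 ^ 22) <<< 64 := by decide
  have e0 := k_cel (62 + 63 * 2 ^ 22) (n := nd + 128) (p := nd + 128 + 128) (by omega) (by omega) hd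
  have e1 := k_cel (62 + 63 * 2 ^ 22) (n := nd + 128 + 128) (p := nd) (a := 0) (by omega) (by omega)
    (by omega)
  have e2 := k_cel (62 + 63 * 2 ^ 22) (n := nd) (p := nd + 128) (a := 0) (by omega) (by omega)
    (by omega)
  rw [← z] at e0 e1 e2
  have e : nd * 0x200010000000000000000000000000002000100000000000000000000000000020001 +
      (d <<< 34 + 0xfc0003e0000000001000000000000000fc0003e0000000000000100000000000fc0003e0000000002000080)
      = (cel (nd + 128) (nd + 128 + 128) d ||| (ZB ||| INI)) |||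
        ((cel (nd + 128 + 128) nd 0 ||| (ZB ||| INI)) |||
          (cel nd (nd + 128) 0 ||| (ZB ||| INI)) <<< 128) <<< 128 := by
    rw [e0, e1, e2, k_or _ (by omega), k_or _ (by omega), Nat.shiftLeft_eq]
    omega
  have c : cel (nd + 128) (nd + 128 + 128) d = cel 0 0 d ||| cel (nd + 128) (nd + 128 + 128) 0 := by
    rw [k_cela]
    change (nd + 128) ||| ((nd + 128 + 128) <<< 17 ||| d <<< 34) =
      d <<< 34 ||| ((nd + 128) ||| ((nd + 128 + 128) <<< 17 ||| 0 <<< 34))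
    rw [Nat.zero_shiftLeft, Nat.or_zero, Nat.or_comm (d <<< 34), Nat.or_assoc]
  rw [extZ, ext_frc]
  change (m ||| nd <<< (d + 34)) ||| (((nd * _ + (d <<< 34 + _)) ||| getF m (nx m d)) |||
    getF m d <<< 128) <<< nd =
    ((((m ||| cel 0 0 nd <<< d) ||| (cel 0 0 d ||| ((ZB ||| INI) ||| getF m (nx m d))) <<< nd) |||
      cel (nd + 128) (nd + 128 + 128) 0 <<< nd) |||
      (cel (nd + 128 + 128) nd 0 ||| ((ZB ||| INI) ||| getF m d)) <<< (nd + 128)) |||
      (cel nd (nd + 128) 0 ||| (ZB ||| INI)) <<< (nd + 128 + 128)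
  rw [e, c, k_cela nd, ← Nat.shiftLeft_add nd, Nat.add_comm 34]
  generalize ZB ||| INI = Z
  generalize cel (nd + 128) (nd + 128 + 128) 0 = a0
  generalize cel (nd + 128 + 128) nd 0 = a1
  generalize cel nd (nd + 128) 0 = a2
  simp only [Nat.shiftLeft_or_distrib, ← Nat.shiftLeft_add, Nat.add_comm 128 nd,
    show 128 + 128 + nd = nd + 128 + 128 by omega]
  ac_rfl

section
variable {R : Rule} {D : Type} [Fintype D] {σ α : Perm D} {N : Set D} {m nd : ℕ} {h : ℕ → D}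

/-- the test of a null link at a dart, with the increment `i` -/
theorem k_tL (hh : Hom R σ α N m nd h) {d o i w K : ℕ} (hd : 128 ∣ d) (ho : o = 17 ∨ o = 34)
    (hK : K = 131071 * 2 ^ o + 2 ^ 91) (hw : w = 2 ^ 91 + i) (hi : i < 65536)
    (hl : Nat.xor (Nat.land (Nat.shiftRight m d) K) w < 65536) :
    Val nd d ∧ fld m d o = 0 ∧ Nat.xor (Nat.land (Nat.shiftRight m d) K) w = i := by
  subst hw
  have := k_tst (k_and16 _ (by rcases ho with rfl | rfl <;> omega)) (by norm_num) hi hl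
  refine ⟨k_vb hh hd this.1 ?_ (by decide), k_nul this.1 ?_, this.2⟩
  · rcases ho with rfl | rfl <;> subst hK <;> decide
  · rcases ho with rfl | rfl <;> subst hK <;> decide

theorem k_tA (hh : Hom R σ α N m nd h) {d i w : ℕ} (hd : 128 ∣ d) (hw : w = 2 ^ 91 + i)
    (hi : i < 65536) (hl : tA m nd d w < 65536) :
    Val nd d ∧ al m d = 0 ∧ tA m nd d w = nd + i := by
  have := k_tL hh hd (Or.inr rfl) (by norm_num) hw hi (lt_of_le_of_lt (Nat.le_add_left _ nd) hl)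
  exact ⟨this.1, this.2.1, congrArg (nd + ·) this.2.2⟩

theorem k_tB (hh : Hom R σ α N m nd h) {d : ℕ} (hd : 128 ∣ d) (hl : tB m nd d < 65536) :
    Val nd d ∧ pv m d = 0 ∧ tB m nd d = nd + 128 := by
  have := k_tL hh hd (i := 128) (Or.inl rfl) (by norm_num) (by norm_num) (by norm_num)
    (lt_of_le_of_lt (Nat.le_add_left _ nd) hl)
  exact ⟨this.1, this.2.1, congrArg (nd + ·) this.2.2⟩

/-- a test shifted by 16 bits, with the increment `i` -/
theorem k_t16 {y P i w : ℕ} (hw : w = P * 65536 + i) (hi : i < 65536)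
    (hl : Nat.xor (Nat.shiftLeft y 16) w < 65536) : y = P ∧ Nat.xor (Nat.shiftLeft y 16) w = i := by
  subst hw
  have e : Nat.shiftLeft y 16 = y * 65536 := Nat.shiftLeft_eq y 16
  have := k_tst (by omega) (by omega) hi hl
  exact ⟨by omega, this.2⟩

theorem k_tF (hh : Hom R σ α N m nd h) {d : ℕ} (hd : 128 ∣ d) (hl : tF m nd d < 65536) :
    Val nd d ∧ nx m d = 0 ∧ tF m nd d = nd + 128 := by
  have := k_t16 (P := 2 ^ 91) (i := 128) (by norm_num) (by norm_num)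
    (lt_of_le_of_lt (Nat.le_add_left _ nd) hl)
  exact ⟨k_vb hh hd this.1 (by decide) (by decide), k_nul (o := 0) this.1 (by decide),
    congrArg (nd + ·) this.2⟩

variable (hc : Ctx σ α N) (hi : IniOK R INI) (hh : Hom R σ α N m nd h) {d : ℕ}
include hc hi hh

theorem k_homZ (hd : Val nd d) (hn : nd < 65536) (z : al m d = 0) (hN : α (h d) ∉ N) :
    ∃ h', Ext nd h h' ∧ h' nd = α (h d) ∧ Hom R σ α N (exZ m nd d) (nd + 384) h' := by
  have rd := stRP R D σ α N hc m nd h hh d _ (Or.inr ⟨hd, rfl⟩)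
  obtain ⟨h1, x1, x2, H, z1, z2⟩ := ext_alp stINV stRP hc hi hh (by omega) hd z ext_bits_ZB
    ((all_tab R D σ α N hc _ 0).2.2.2.1.2 hN)
  obtain ⟨b, c⟩ := rd.2.2.2.2.2.2.2.2.2.2.2
  have v := ext_val_new hh.nd1 hh.nd2 (k := 128) (by norm_num)
  obtain ⟨h', y1, H'⟩ := ext_cmp hc all_tab hi H (by omega) v z1 z2 (x2 ▸ hN) b
    (x2 ▸ ext_factsF b (stINV D σ α N hc.cls (h d)).2.2.2.2.2.2.2.1 c)
  refine ⟨h', fun e he => (y1 e (ext_val_up he)).trans (x1 e he), (y1 _ v).trans x2, ?_⟩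
  rw [k_exZ m (by have := hd.2.1; omega) hn, extZ, ext_frc]
  exact H'

theorem k_homA (hd : Val nd d) (hn : nd < 65536) (z : al m d = 0) {w : ℕ}
    (hw : w = INI ∨ (w = NB ||| INI ∧ α (h d) ∈ N)) :
    ∃ h', Ext nd h h' ∧ h' nd = α (h d) ∧ Hom R σ α N (exA m nd d w) (nd + 128) h' := by
  have ex := (all_ext R D σ α N hc m nd h hh INI hi (by omega) d hd).1
  have hl : d < 2 ^ 17 := by have := hd.2.1; omega
  rcases hw with hw | ⟨hw, hN⟩
  · rw [k_exA m nd hl (hw.trans (Nat.zero_or _).symm) (Or.inl rfl)]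
    exact ex 0 z (fun _ hb => absurd hb (by simp)) (ext_facts_zero _)
  · rw [k_exA m nd hl hw (Or.inr rfl)]
    exact ex NB z chk_NB ((all_tab R D σ α N hc _ 0).2.2.2.2.1.2 hN)

theorem k_homF (hd : Val nd d) (hn : nd < 65536) (z : nx m d = 0) :
    ∃ h', Ext nd h h' ∧ h' nd = σ (h d) ∧ Hom R σ α N (exF m nd d) (nd + 128) h' := by
  rw [k_exF m nd (by have := hd.2.1; omega)]
  exact (all_ext R D σ α N hc m nd h hh INI hi (by omega) d hd).2.2.2.1 z

theorem k_homB (hd : Val nd d) (hn : nd < 65536) (z : pv m d = 0) :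
    ∃ h', Ext nd h h' ∧ h' nd = σ⁻¹ (h d) ∧ Hom R σ α N (exB m nd d) (nd + 128) h' := by
  rw [k_exB m nd (by have := hd.2.1; omega)]
  exact (all_ext R D σ α N hc m nd h hh INI hi (by omega) d hd).2.2.2.2 z

end

end Pool.Agent.Lib.G6.K
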