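import Pool.Agent.Lib.G6.KExt

set_option autoImplicit false

/-! Block KMTC: the matcher of the second checker. -/

namespace Pool.Agent.Lib.G6.K

open Equiv
open Pool.Agent.Lib.MP_bfaad3_co (sb sb_iff)

/-- `c` is the cell of a dart with image `x` -/
def Cs {D : Type} (m nd : ℕ) (h : ℕ → D) (c : ℕ) (x : D) : Prop :=
  ∃ d, Rs nd h d x ∧ c = Nat.shiftRight m d

/-- the five cells represent the registers -/
structure Rc {D : Type} (m nd : ℕ) (h : ℕ → D) (x s1 s2 s3 s4 : ℕ) (r : Rg D) : Prop where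
  x : Cs m nd h x r.x
  s1 : Cs m nd h s1 r.s1
  s2 : Cs m nd h s2 r.s2
  s3 : Cs m nd h s3 r.s3
  s4 : Cs m nd h s4 r.s4

/-- a null result means: no deficit, all tests of `ZB` passed, and `Q` -/
def GoodM {D : Type} (m nd : ℕ) (h : ℕ → D) (Q : ℕ → Rg D → Prop) (K : ℕ → ℕ → MC) : Prop :=
  ∀ p w x s1 s2 s3 s4 za ac r, Rc m nd h x s1 s2 s3 s4 r → ac ≤ w →
    (K p w).1 m x s1 s2 s3 s4 za ac = 0 → ac = w ∧ sb ZB za = true ∧ Q p r

theorem km_plA (p : ℕ) : Bits 64 127 (plA p) := by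
  intro i hi
  change (_ &&& ((2 ^ 63 - 1) <<< 64)).testBit i = true at hi
  rw [Nat.testBit_and, Bool.and_eq_true, Nat.testBit_shiftLeft, Nat.testBit_two_pow_sub_one] at hi
  have := hi.2
  simp only [ge_iff_le, Bool.and_eq_true, decide_eq_true_eq] at this
  omega

theorem km_and {a x y : ℕ} (h : sb a (Nat.land x y) = true) : sb a x = true ∧ sb a y = true := by
  rw [sb_iff] at h
  rw [sb_iff, sb_iff]
  refine ⟨fun i hi => ?_, fun i hi => ?_⟩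
  · have := h i hi
    change (x &&& y).testBit i = true at this
    rw [Nat.testBit_and, Bool.and_eq_true] at this
    exact this.1
  · have := h i hi
    change (x &&& y).testBit i = true at this
    rw [Nat.testBit_and, Bool.and_eq_true] at this
    exact this.2

section

variable {R : Rule} {D : Type} [Fintype D] {σ α : Perm D} {N : Set D} {m nd : ℕ} {h : ℕ → D}
  {Q : ℕ → Rg D → Prop} {K : ℕ → ℕ → MC}

omit [Fintype D] in
/-- a step that tests `ZB` in the cell `c` -/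
theorem km_z (hK : GoodM m nd h Q K) {p w x s1 s2 s3 s4 za ac : ℕ} {r : Rg D}
    (rr : Rc m nd h x s1 s2 s3 s4 r) (ha : ac ≤ w)
    (H : (K p w).1 m x s1 s2 s3 s4 (Nat.land za x) ac = 0) :
    ac = w ∧ sb ZB za = true ∧ sb ZB x = true ∧ Q p r := by
  obtain ⟨a, b, c⟩ := hK _ _ _ _ _ _ _ _ _ _ rr ha H
  exact ⟨a, (km_and b).1, (km_and b).2, c⟩

omit [Fintype D] in
/-- a step that tests the mask `a` in the cell `c` -/
theorem km_f (hK : GoodM m nd h Q K) {p w x s1 s2 s3 s4 za ac a c : ℕ} {r : Rg D}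
    (rr : Rc m nd h x s1 s2 s3 s4 r) (ha : ac ≤ w)
    (H : (K p (Nat.add w a)).1 m x s1 s2 s3 s4 za (Nat.add ac (Nat.land c a)) = 0) :
    ac = w ∧ sb ZB za = true ∧ sb a c = true ∧ Q p r := by
  have hl : Nat.land c a ≤ a := chk_land_le c a
  obtain ⟨e, b, q⟩ := hK _ _ _ _ _ _ _ _ _ _ rr (Nat.add_le_add ha hl) H
  change ac + Nat.land c a = w + a at e
  exact ⟨by omega, b, k_sb (by omega), q⟩

variable (hh : Hom R σ α N m nd h) {c : ℕ} {x : D}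
include hh

theorem cs_nx (r : Cs m nd h c x) : Cs m nd h (Nat.shiftRight m (Nat.land c 131071)) (σ x) := by
  obtain ⟨d, r, rfl⟩ := r
  exact ⟨nx m d, rs_rp (rs_nx hh r), rfl⟩

theorem cs_pv (r : Cs m nd h c x) :
    Cs m nd h (Nat.shiftRight m (Nat.land (Nat.shiftRight c 17) 131071)) (σ⁻¹ x) := by
  obtain ⟨d, r, rfl⟩ := r
  exact ⟨pv m d, rs_rp (rs_pv hh r), by rw [k_pvc]⟩

theorem cs_al (r : Cs m nd h c x) :
    Cs m nd h (Nat.shiftRight m (Nat.land (Nat.shiftRight c 34) 131071)) (α x) := by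
  obtain ⟨d, r, rfl⟩ := r
  exact ⟨al m d, rs_rp (rs_al hh r), by rw [k_alc]⟩

theorem cs_anx (r : Cs m nd h c x) :
    Cs m nd h (Nat.shiftRight m (Nat.land (Nat.shiftRight (Nat.shiftRight m 34)
      (Nat.land c 131071)) 131071)) (α (σ x)) := by
  obtain ⟨d, r, rfl⟩ := r
  exact ⟨al m (nx m d), rs_rp (rp_al hh (rs_nx hh r)), by rw [k_al2]; rfl⟩

theorem cs_apv (r : Cs m nd h c x) :
    Cs m nd h (Nat.shiftRight m (Nat.land (Nat.shiftRight (Nat.shiftRight m 34)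
      (Nat.land (Nat.shiftRight c 17) 131071)) 131071)) (α (σ⁻¹ x)) := by
  obtain ⟨d, r, rfl⟩ := r
  exact ⟨al m (pv m d), rs_rp (rp_al hh (rs_pv hh r)), by rw [k_al2, k_pvc]⟩

theorem cs_sb {a : ℕ} (r : Cs m nd h c x) (ha : Bits 64 127 a) (hs : sb a c = true) :
    Facts R σ α N a x := by
  obtain ⟨d, r, rfl⟩ := r
  exact rs_sb hh r ha hs

theorem cs_bit (r : Cs m nd h c x) {i : ℕ} (h1 : 64 ≤ i) (h2 : i < 127)
    (hb : c.testBit i = true) : Fact R σ α N i x := by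
  obtain ⟨d, r, rfl⟩ := r
  exact rs_fact hh r i h1 h2 (by rw [← k_cell]; exact hb)

theorem cs_Z (hc : Ctx σ α N) (r : Cs m nd h c x) (hs : sb ZB c = true) : x ∉ N :=
  (all_tab R D σ α N hc x 0).2.2.2.1.1 (cs_sb hh r (chk_wide ext_bits_ZB le_rfl (by norm_num)) hs)

theorem cs_N (hc : Ctx σ α N) (r : Cs m nd h c x) (hs : sb NB c = true) : x ∈ N :=
  (all_tab R D σ α N hc x 0).2.2.2.2.1.1 (cs_sb hh r (chk_wide chk_NB le_rfl (by norm_num)) hs)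

theorem km_tok0 (hc : Ctx σ α N) (t : ℕ) (hK : GoodM m nd h Q K) :
    GoodM m nd h (fun p r => tokC R σ α N t p r ∧ Q (tokP t p) (tokS σ α t r)) (tokM0 t K) := by
  intro p w x s1 s2 s3 s4 za ac r rr ha H
  by_cases ht : 17 ≤ t
  · obtain ⟨n, rfl⟩ : ∃ n, t = n + 17 := ⟨t - 17, by omega⟩
    exact absurd H Nat.one_ne_zero
  have ht' : t < 17 := by omega
  have mv : ∀ {y : ℕ} {z : D}, Cs m nd h y z → Rc m nd h y s1 s2 s3 s4 ⟨z, r.s1, r.s2, r.s3, r.s4⟩ :=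
    fun e => ⟨e, rr.s1, rr.s2, rr.s3, rr.s4⟩
  have bV : Bits 64 127 (Nat.shiftLeft (Nat.land p 63) 64) :=
    chk_wide (mtc_bits_shift p 6 64) le_rfl (by norm_num)
  have bF : Bits 64 127 (Nat.shiftLeft (Nat.land p 65535) 70) :=
    chk_wide (mtc_bits_shift p 16 70) (by norm_num) (by norm_num)
  interval_cases t
  · obtain ⟨a, b, e, q⟩ := km_z hK (mv (cs_anx hh rr.x)) ha H
    exact ⟨a, b, cs_Z hh hc (cs_anx hh rr.x) e, q⟩
  · obtain ⟨a, b, e, q⟩ := km_z hK (mv (cs_apv hh rr.x)) ha H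
    exact ⟨a, b, cs_Z hh hc (cs_apv hh rr.x) e, q⟩
  · obtain ⟨a, b, e, q⟩ := km_z hK (mv (cs_al hh rr.x)) ha H
    exact ⟨a, b, cs_Z hh hc (cs_al hh rr.x) e, q⟩
  · obtain ⟨a, b, q⟩ := hK _ _ _ _ _ _ _ _ _ _ (mv (cs_nx hh rr.x)) ha H
    exact ⟨a, b, trivial, q⟩
  · obtain ⟨a, b, q⟩ := hK _ _ _ _ _ _ _ _ _ _ (mv (cs_pv hh rr.x)) ha H
    exact ⟨a, b, trivial, q⟩
  · obtain ⟨a, b, q⟩ := hK _ _ _ _ _ _ _ _ _ _ (mv (cs_nx hh rr.x)) ha H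
    exact ⟨a, b, trivial, q⟩
  · obtain ⟨a, b, q⟩ := hK _ _ _ _ _ _ _ _ _ _ (mv (cs_pv hh rr.x)) ha H
    exact ⟨a, b, trivial, q⟩
  · obtain ⟨a, b, q⟩ := hK _ _ _ _ _ _ _ _ _ _ (mv (cs_al hh rr.x)) ha H
    exact ⟨a, b, trivial, q⟩
  · obtain ⟨a, b, q⟩ := hK _ _ _ _ _ _ _ _ _ ⟨r.x, r.x, r.s1, r.s2, r.s3⟩
      ⟨rr.x, rr.x, rr.s1, rr.s2, rr.s3⟩ ha H
    exact ⟨a, b, trivial, q⟩
  · obtain ⟨a, b, q⟩ := hK _ _ _ _ _ _ _ _ _ ⟨r.s1, r.s2, r.s3, r.s4, r.s4⟩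
      ⟨rr.s1, rr.s2, rr.s3, rr.s4, rr.s4⟩ ha H
    exact ⟨a, b, trivial, q⟩
  · obtain ⟨a, b, e, q⟩ := km_f hK rr ha H
    exact ⟨a, b, cs_sb hh rr.x bV e, q⟩
  · obtain ⟨a, b, e, q⟩ := km_f hK rr ha H
    exact ⟨a, b, cs_sb hh rr.x bF e, q⟩
  · obtain ⟨a, b, e, q⟩ := km_f hK rr ha H
    exact ⟨a, b, cs_sb hh rr.x (km_plA p) e, q⟩
  · obtain ⟨a, b, e, q⟩ := km_f hK (mv (cs_al hh rr.x)) ha H
    exact ⟨a, b, cs_N hh hc (cs_al hh rr.x) e, q⟩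
  · obtain ⟨a, b, e, q⟩ := km_z hK rr ha H
    exact ⟨a, b, cs_Z hh hc rr.x e, q⟩
  · obtain ⟨a, b, e, q⟩ := km_f hK rr ha H
    exact ⟨a, b, cs_N hh hc rr.x e, q⟩
  · obtain ⟨a, b, e, q⟩ := km_f hK rr ha H
    exact ⟨a, b, cs_sb hh rr.x bF e, q⟩

theorem km_tok1 (hc : Ctx σ α N) (t : ℕ) (hK : GoodM m nd h Q K) :
    GoodM m nd h (fun p r => tokC R σ⁻¹ α N t p r ∧ Q (tokP t p) (tokS σ⁻¹ α t r))
      (tokM1 t K) := by
  intro p w x s1 s2 s3 s4 za ac r rr ha H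
  by_cases ht : 17 ≤ t
  · obtain ⟨n, rfl⟩ : ∃ n, t = n + 17 := ⟨t - 17, by omega⟩
    exact absurd H Nat.one_ne_zero
  have ht' : t < 17 := by omega
  have mv : ∀ {y : ℕ} {z : D}, Cs m nd h y z → Rc m nd h y s1 s2 s3 s4 ⟨z, r.s1, r.s2, r.s3, r.s4⟩ :=
    fun e => ⟨e, rr.s1, rr.s2, rr.s3, rr.s4⟩
  have bV : Bits 64 70 (Nat.shiftLeft (Nat.land p 63) 64) := mtc_bits_shift p 6 64
  have bF : Bits 70 92 (Nat.shiftLeft (Nat.land p 65535) 70) :=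
    mtc_mono (mtc_bits_shift p 16 70) le_rfl (by norm_num)
  have bF' : Bits 64 127 (Nat.shiftLeft (Nat.land p 65535) 70) :=
    chk_wide bF (by norm_num) (by norm_num)
  obtain ⟨-, -, -, -, -, -, -, -, i9, -, i11, i12, -⟩ := stINV D σ α N hc.cls r.x
  have hnx : Cs m nd h _ (σ⁻¹⁻¹ r.x) := (inv_inv σ).symm ▸ cs_nx hh rr.x
  have hanx : Cs m nd h _ (α (σ⁻¹⁻¹ r.x)) := (inv_inv σ).symm ▸ cs_anx hh rr.x
  interval_cases t
  · obtain ⟨a, b, e, q⟩ := km_z hK (mv (cs_apv hh rr.x)) ha H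
    exact ⟨a, b, cs_Z hh hc (cs_apv hh rr.x) e, q⟩
  · obtain ⟨a, b, e, q⟩ := km_z hK (mv hanx) ha H
    exact ⟨a, b, cs_Z hh hc hanx e, q⟩
  · obtain ⟨a, b, e, q⟩ := km_z hK (mv (cs_al hh rr.x)) ha H
    exact ⟨a, b, cs_Z hh hc (cs_al hh rr.x) e, q⟩
  · obtain ⟨a, b, q⟩ := hK _ _ _ _ _ _ _ _ _ _ (mv (cs_pv hh rr.x)) ha H
    exact ⟨a, b, trivial, q⟩
  · obtain ⟨a, b, q⟩ := hK _ _ _ _ _ _ _ _ _ _ (mv hnx) ha H
    exact ⟨a, b, trivial, q⟩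
  · obtain ⟨a, b, q⟩ := hK _ _ _ _ _ _ _ _ _ _ (mv (cs_pv hh rr.x)) ha H
    exact ⟨a, b, trivial, q⟩
  · obtain ⟨a, b, q⟩ := hK _ _ _ _ _ _ _ _ _ _ (mv hnx) ha H
    exact ⟨a, b, trivial, q⟩
  · obtain ⟨a, b, q⟩ := hK _ _ _ _ _ _ _ _ _ _ (mv (cs_al hh rr.x)) ha H
    exact ⟨a, b, trivial, q⟩
  · obtain ⟨a, b, q⟩ := hK _ _ _ _ _ _ _ _ _ ⟨r.x, r.x, r.s1, r.s2, r.s3⟩
      ⟨rr.x, rr.x, rr.s1, rr.s2, rr.s3⟩ ha H
    exact ⟨a, b, trivial, q⟩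
  · obtain ⟨a, b, q⟩ := hK _ _ _ _ _ _ _ _ _ ⟨r.s1, r.s2, r.s3, r.s4, r.s4⟩
      ⟨rr.s1, rr.s2, rr.s3, rr.s4, rr.s4⟩ ha H
    exact ⟨a, b, trivial, q⟩
  · obtain ⟨a, b, e, q⟩ := km_f hK rr ha H
    exact ⟨a, b, mtc_factsV bV i11 (cs_sb hh rr.x (chk_wide bV le_rfl (by norm_num)) e), q⟩
  · obtain ⟨a, b, e, q⟩ := km_f hK rr ha H
    exact ⟨a, b, mtc_factsF bF (i12.trans i9.symm) (cs_sb hh (cs_nx hh rr.x) bF' e), q⟩
  · obtain ⟨a, -, -⟩ := hK _ _ _ _ _ _ _ _ _ _ rr (Nat.le_succ_of_le ha) H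
    exact absurd ha (by rw [a]; exact Nat.not_succ_le_self w)
  · obtain ⟨a, b, e, q⟩ := km_f hK (mv (cs_al hh rr.x)) ha H
    exact ⟨a, b, cs_N hh hc (cs_al hh rr.x) e, q⟩
  · obtain ⟨a, b, e, q⟩ := km_z hK rr ha H
    exact ⟨a, b, cs_Z hh hc rr.x e, q⟩
  · obtain ⟨a, b, e, q⟩ := km_f hK rr ha H
    exact ⟨a, b, cs_N hh hc rr.x e, q⟩
  · obtain ⟨a, b, e, q⟩ := km_f hK rr ha H
    refine ⟨a, b, mtc_factsF bF i12 fun i hi => ?_, q⟩
    have e1 := (sb_iff _ _).1 e i hi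
    change Nat.testBit (_ ||| _) i = true at e1
    rw [Nat.testBit_or, Bool.or_eq_true] at e1
    obtain ⟨b1, b2⟩ := bF i hi
    rcases e1 with e1 | e1
    · have f := cs_bit hh (cs_nx hh rr.x) (by omega) (by omega) e1
      unfold Fact at f ⊢
      rw [if_neg (by omega), if_pos b2] at f ⊢
      rwa [← i9]
    · exact cs_bit hh (cs_al hh rr.x) (by omega) (by omega) e1

theorem km_toks0 (hc : Ctx σ α N) (ts : List ℕ) (hK : GoodM m nd h Q K) :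
    GoodM m nd h (HT R σ α N Q ts) (toksM0 ts K) := by
  induction ts with
  | nil => exact hK
  | cons t ts ih => exact km_tok0 hh hc t ih

theorem km_toks1 (hc : Ctx σ α N) (ts : List ℕ) (hK : GoodM m nd h Q K) :
    GoodM m nd h (HT R σ⁻¹ α N Q ts) (toksM1 ts K) := by
  induction ts with
  | nil => exact hK
  | cons t ts ih => exact km_tok1 hh hc t ih

end

theorem km_end {w za ac : ℕ} (ha : ac ≤ w)
    (H : Nat.add (Nat.xor za 1143698132569992200192) (Nat.sub w ac) = 0) :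
    ac = w ∧ sb ZB za = true := by
  change Nat.xor za ZB + (w - ac) = 0 at H
  have e : za = ZB := k_xor0 (by omega)
  exact ⟨by omega, e ▸ (sb_iff _ _).2 fun _ hi => hi⟩

theorem km_e0 (e : Ent) : e.2 = toksM0 e.1 := by
  cases e with
  | mk ts f0 f1 h0 h1 => exact h0

theorem km_e1 (e : Ent) : e.3 = toksM1 e.1 := by
  cases e with
  | mk ts f0 f1 h0 h1 => exact h1

section

variable (g : G) {D : Type} [Fintype D] {σ α : Perm D} {N : Set D} {m nd : ℕ} {h : ℕ → D}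
  (hc : Ctx σ α N) (hh : Hom g.R σ α N m nd h)
include hc hh

theorem km_lv0 (n : ℕ) : ∀ q, GoodM m nd h (HQ g σ α N n q) ((mlv0 g n).1 q) := by
  induction n with
  | zero => exact fun _ _ _ _ _ _ _ _ _ _ _ _ _ H => absurd H Nat.one_ne_zero
  | succ n ih =>
    intro q p w x s1 s2 s3 s4 za ac r rr ha H
    change (@Nat.rec (fun _ => MC)
      ⟨fun _ _ _ _ _ _ za ac => Nat.add (Nat.xor za 1143698132569992200192) (Nat.sub w ac)⟩
      (fun b _ => (g.ent b).2 ((mlv0 g n).1 (Nat.shiftRight q 8)) p w)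
      (Nat.land q 255)).1 m x s1 s2 s3 s4 za ac = 0 at H
    generalize hk : Nat.land q 255 = z at H
    cases z with
    | zero => exact ⟨(km_end ha H).1, (km_end ha H).2, Or.inl hk⟩
    | succ b =>
      change ((g.ent b).2 ((mlv0 g n).1 (Nat.shiftRight q 8)) p w).1 m x s1 s2 s3 s4 za ac = 0 at H
      rw [km_e0] at H
      obtain ⟨a, e, f⟩ := km_toks0 hh hc (g.ent b).1 (ih _) _ _ _ _ _ _ _ _ _ _ rr ha H
      exact ⟨a, e, Or.inr ⟨b, hk, f⟩⟩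

theorem km_lv1 (n : ℕ) : ∀ q, GoodM m nd h (HQ g σ⁻¹ α N n q) ((mlv1 g n).1 q) := by
  induction n with
  | zero => exact fun _ _ _ _ _ _ _ _ _ _ _ _ _ H => absurd H Nat.one_ne_zero
  | succ n ih =>
    intro q p w x s1 s2 s3 s4 za ac r rr ha H
    change (@Nat.rec (fun _ => MC)
      ⟨fun _ _ _ _ _ _ za ac => Nat.add (Nat.xor za 1143698132569992200192) (Nat.sub w ac)⟩
      (fun b _ => (g.ent b).3 ((mlv1 g n).1 (Nat.shiftRight q 8)) p w)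
      (Nat.land q 255)).1 m x s1 s2 s3 s4 za ac = 0 at H
    generalize hk : Nat.land q 255 = z at H
    cases z with
    | zero => exact ⟨(km_end ha H).1, (km_end ha H).2, Or.inl hk⟩
    | succ b =>
      change ((g.ent b).3 ((mlv1 g n).1 (Nat.shiftRight q 8)) p w).1 m x s1 s2 s3 s4 za ac = 0 at H
      rw [km_e1] at H
      obtain ⟨a, e, f⟩ := km_toks1 hh hc (g.ent b).1 (ih _) _ _ _ _ _ _ _ _ _ _ rr ha H
      exact ⟨a, e, Or.inr ⟨b, hk, f⟩⟩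

end

theorem stKmtc : St_kmtc := by
  intro g _ D _ σ α N hc m nd h hh n q p d x c r e
  have cs : Cs m nd h c x := ⟨d, r, e⟩
  exact ⟨fun H => (km_lv0 g hc hh n q p 0 c c c c c ZB 0 ⟨x, x, x, x, x⟩ ⟨cs, cs, cs, cs, cs⟩
      le_rfl H).2.2,
    fun H => (km_lv1 g hc hh n q p 0 c c c c c ZB 0 ⟨x, x, x, x, x⟩ ⟨cs, cs, cs, cs, cs⟩
      le_rfl H).2.2⟩

end Pool.Agent.Lib.G6.K
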