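import Pool.Agent.Lib.G6.KExt

set_option autoImplicit false

/-! The elementary operations of the second checker. -/

namespace Pool.Agent.Lib.G6.K

open Equiv
open Pool.Agent.Lib.MP_bfaad3_co (frc sel cj dj tb sb BT frc_eq sel_eq cj_iff dj_iff tb_eq sb_iff)

theorem ko_and {lo hi M : ℕ} (x : ℕ) (hM : Bits lo hi M) : Bits lo hi (Nat.land x M) := by
  intro i h
  change (x &&& M).testBit i = true at h
  rw [Nat.testBit_and, Bool.and_eq_true] at h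
  exact hM i h.2

theorem ko_nz {a nd : ℕ} (h : Nat.add nd (Nat.shiftLeft (Nat.sub 1 a) 16) < 65536) :
    a ≠ 0 ∧ Nat.add nd (Nat.shiftLeft (Nat.sub 1 a) 16) = nd := by
  have := k_shl16 (lt_of_le_of_lt (Nat.le_add_left _ nd) h)
  refine ⟨fun e => ?_, by rw [this.2]; rfl⟩
  rw [e] at this
  exact absurd this.1 (by decide)

/-- a test of inclusion added to `nd` -/
theorem ko_sub {x K nd : ℕ} (hK : K % 65536 = 0)
    (h : Nat.add nd (Nat.xor (Nat.land x K) K) < 65536) :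
    sb K x = true ∧ Nat.add nd (Nat.xor (Nat.land x K) K) = nd := by
  have := k_sub hK (lt_of_le_of_lt (Nat.le_add_left _ nd) h)
  exact ⟨this.1, by rw [this.2]; rfl⟩

theorem ko_le {nd a : ℕ} (h : Nat.add nd a < 65536) : nd < 65536 :=
  lt_of_le_of_lt (Nat.le_add_right nd a) h

theorem ko_sbb {K x i : ℕ} (h : sb K x = true) (hi : K.testBit i = true) : x.testBit i = true :=
  (sb_iff _ _).1 h i hi

theorem ko_sbl {a b x : ℕ} (h : sb (Nat.lor a b) x = true) : sb a x = true ∧ sb b x = true := by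
  refine ⟨(sb_iff _ _).2 fun i hi => ko_sbb h ?_, (sb_iff _ _).2 fun i hi => ko_sbb h ?_⟩ <;>
  · change (a ||| b).testBit i = true
    rw [Nat.testBit_or, hi]
    simp

/-- a null link and some facts -/
theorem ko_tP {m d o K P : ℕ} (hP : Bits 64 127 P) (ho : o ≤ 34) (hK : K = 131071 <<< o ||| P)
    (h : Nat.land (Nat.shiftRight m d) K = P) :
    fld m d o = 0 ∧ sb P (Nat.shiftRight m d) = true := by
  refine ⟨k_nul h fun i hi => ⟨?_, ext_f_low hP (by omega)⟩, (sb_iff _ _).2 fun i hi => ?_⟩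
  · rw [hK, Nat.testBit_or, Nat.testBit_shiftLeft, show 131071 = 2 ^ 17 - 1 from rfl,
      Nat.testBit_two_pow_sub_one]
    simp [hi]
  · rw [k_bit h (by rw [hK, Nat.testBit_or, hi, Bool.or_true]), hi]

theorem ko_deg (n : ℕ) : (degX n).testBit 69 = true := by
  by_cases h : n ≤ 5
  · interval_cases n <;> decide
  · rw [degX, sel_eq, if_neg (fun h' => h (Nat.ble_eq.mp h'))]
    decide

theorem ko_one (m d : ℕ) : Nat.land m (Nat.shiftLeft 1 (Nat.add d 91)) = one m d <<< 91 := by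
  change m &&& 1 <<< (d + 91) = (m >>> 91 &&& 1 <<< d) <<< 91
  refine Nat.eq_of_testBit_eq fun i => ?_
  simp only [Nat.testBit_and, Nat.testBit_shiftLeft, Nat.testBit_shiftRight, Nat.one_shiftLeft,
    Nat.testBit_two_pow]
  by_cases h : d + 91 = i
  · subst h
    simp [Nat.add_comm]
  · rw [decide_eq_false h]
    by_cases h1 : i ≥ 91
    · rw [decide_eq_false (show ¬ d = i - 91 by omega)]
      simp
    · simp [h1]

section
variable {g : G} {D : Type} [Fintype D] {σ α : Perm D} {N : Set D}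

theorem good_dead : GoodO g σ α N ⟨fun _ _ _ _ _ _ => nat_lit 0⟩ :=
  fun _ _ _ _ _ _ _ _ H => absurd rfl H

theorem good_br {a b : Op} (ha : GoodO g σ α N a) (hb : GoodO g σ α N b) (t : Bool) :
    GoodO g σ α N (@Bool.rec (fun _ => Op) a b t) := by
  cases t
  exacts [ha, hb]

theorem good_nr {a : Op} {f : ℕ → Op} (ha : GoodO g σ α N a) (hf : ∀ n, GoodO g σ α N (f n))
    (t : ℕ) : GoodO g σ α N (@Nat.rec (fun _ => Op) a (fun n _ => f n) t) := by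
  cases t
  exacts [ha, hf _]

variable {m nd e : ℕ} {h : ℕ → D}

theorem ko_new {m' nd' i : ℕ} {P : (ℕ → D) → Prop} (B : Bad g σ α N m' nd' e) (hn : nd' = nd + i)
    (A : Aux g.R σ α N e nd h) (H : ∃ h', Ext nd h h' ∧ P h' ∧ Hom g.R σ α N m' (nd + i) h') :
    False := by
  obtain ⟨h', x, -, H⟩ := H
  subst hn
  exact B h' H (aux_ext A x (Nat.le_add_right _ _))

theorem ko_old {m' nd' : ℕ} (B : Bad g σ α N m' nd' e) (hn : nd' = nd)
    (A : Aux g.R σ α N e nd h) (H : Hom g.R σ α N m' nd h) : False := by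
  subst hn
  exact B h H A

/-- the validity test -/
theorem ko_vb (hh : Hom g.R σ α N m nd h) {d n : ℕ} (hd : 128 ∣ d)
    (hl : Nat.add n (Nat.xor (Nat.land (Nat.shiftRight m d) (2 ^ 91)) (2 ^ 91)) < 65536) :
    Val nd d ∧ Nat.add n (Nat.xor (Nat.land (Nat.shiftRight m d) (2 ^ 91)) (2 ^ 91)) = n := by
  obtain ⟨h1, h2⟩ := ko_sub (by norm_num) hl
  exact ⟨k_val hh hd (i := 91) (by norm_num) (by norm_num)
    (by rw [← k_cell]; exact ko_sbb h1 (by decide)), h2⟩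

theorem ko_val (hh : Hom g.R σ α N m nd h) {d K : ℕ} (hd : 128 ∣ d) (i : ℕ) (h1 : 64 ≤ i)
    (h2 : i < 128) (hs : sb K (Nat.shiftRight m d) = true) (hi : K.testBit i = true) : Val nd d :=
  k_val hh hd h1 h2 (by rw [← k_cell]; exact ko_sbb hs hi)

omit [Fintype D] in
theorem aux_put (A : Aux g.R σ α N e nd h) {d k r : ℕ} (hd : Val nd d) (hk : k < 4)
    (hr : ∀ i, r.testBit i = true → (rT (run σ α N (g.R.s k) (h d))).testBit i = true) :
    Aux g.R σ α N (Nat.lor e (Nat.shiftLeft r (Nat.add d (Nat.mul k 26)))) nd h := by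
  have key : ∀ j, (Nat.lor e (Nat.shiftLeft r (Nat.add d (Nat.mul k 26)))).testBit j =
      e.testBit j ∨ ∃ i, i < 26 ∧ j = d + 26 * k + i ∧ r.testBit i = true := by
    intro j
    change (e ||| r <<< (d + k * 26)).testBit j = _ ∨ _
    rw [Nat.testBit_or, Nat.testBit_shiftLeft]
    by_cases h1 : j ≥ d + k * 26
    · cases h2 : r.testBit (j - (d + k * 26))
      · simp
      · exact Or.inr ⟨_, k_rT_lt _ (hr _ h2), by omega, h2⟩
    · simp [h1]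
  have d3 := hd.2.2
  refine ⟨fun d' i h1 h2 h3 => ?_, fun d' k' i h1 h2 h3 h4 => ?_, fun d' k' h1 h2 => ?_⟩
  · rcases key (d' + i) with h4 | ⟨j, h4, h5, -⟩
    · rw [h4]
      exact A.out d' i h1 h2 h3
    · exact absurd (show Val nd d' by rwa [show d' = d by omega]) h2
  · rcases key (d' + 26 * k' + i) with h5 | ⟨j, h5, h6, h7⟩
    · exact A.lv d' k' i h1 h2 h3 (h5 ▸ h4)
    · have := h1.2.2
      obtain rfl : d' = d := by omega
      obtain rfl : k' = k := by omega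
      obtain rfl : i = j := by omega
      exact hr _ h7
  · refine le_trans (le_of_eq ?_) (A.sh d' k' h1 h2)
    change _ % 2 ^ 6 = _ % 2 ^ 6
    refine Nat.eq_of_testBit_eq fun i => ?_
    rw [Nat.testBit_mod_two_pow, Nat.testBit_mod_two_pow, Nat.testBit_shiftRight,
      Nat.testBit_shiftRight]
    by_cases hi : i < 6
    · rcases key (d' + 104 + 12 * k' + i) with h5 | ⟨j, h5, h6, -⟩
      · rw [h5]
      · have := h1.2.2
        obtain ⟨a, rfl⟩ := this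
        obtain ⟨b, rfl⟩ := d3
        rcases Nat.lt_trichotomy a b with h7 | h7 | h7 <;> omega
    · simp [hi]

variable (hg : GOK g) (hc : Ctx σ α N)
include hg hc

theorem op_ext (k : ℕ) : GoodO g σ α N (oExt k) := by
  intro ih IH lim hl m nd e c H
  obtain ⟨c1, n2, b2⟩ := IH _ hl _ _ _ _ H
  obtain ⟨-, n1, b1⟩ := IH _ hl _ _ _ _ c1
  refine ⟨ko_le n1, fun h hh A => ?_⟩
  obtain ⟨v, z, e1⟩ := k_tA hh (k_dart k).1 (i := 384) (by norm_num) (by norm_num) n1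
  obtain ⟨-, -, e2⟩ := k_tA hh (k_dart k).1 (i := 128) (by norm_num) (by norm_num) n2
  by_cases hN : α (h (Nat.land k 65408)) ∈ N
  · exact ko_new b2 e2 A (k_homA hc hg.ini hh v (ko_le n1) z (Or.inr ⟨by decide, hN⟩))
  · exact ko_new b1 e1 A (k_homZ hc hg.ini hh v (ko_le n1) z hN)

theorem op_exz0 (k : ℕ) : GoodO g σ α N (oExz0 k) := by
  intro ih IH lim hl m nd e c H
  obtain ⟨-, n1, b1⟩ := IH _ hl _ _ _ _ H
  refine ⟨ko_le n1, fun h hh A => ?_⟩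
  have t := k_tst (P := NB) (i := 384) (k_and16 _ (by norm_num)) (by decide) (by norm_num)
    (lt_of_le_of_lt (Nat.le_add_left _ nd) n1)
  obtain ⟨z, s⟩ := ko_tP (o := 34) (chk_wide chk_NB le_rfl (by norm_num)) le_rfl (by decide) t.1
  have v := ko_val hh (k_dart k).1 64 le_rfl (by norm_num) s (by decide)
  refine ko_new b1 (congrArg (nd + ·) t.2) A (k_homZ hc hg.ini hh v (ko_le n1) z (hc.nn _ ?_))
  exact (all_tab _ D σ α N hc _ 0).2.2.2.2.1.1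
    (rs_sb hh (rs_val v) (chk_wide chk_NB le_rfl (by norm_num)) s)

theorem ko_exz {ih : Cl} (IH : GoodC g σ α N ih) {lim : ℕ} (hl : Upto2 g lim) {d y c w : ℕ}
    (hd : 128 ∣ d) (hw : w = 2 ^ 91 + 384) (hy : y = al m (nx m d) ∨ y = al m (pv m d))
    (H : ih.1 lim (exZ m nd d) (Nat.add (tA m nd d w)
      (Nat.xor (Nat.land (Nat.shiftRight m y) NB) NB)) e c ≠ 0) :
    nd < 65536 ∧ Bad g σ α N m nd e := by
  obtain ⟨-, n1, b1⟩ := IH _ hl _ _ _ _ H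
  obtain ⟨s, e1⟩ := ko_sub (by decide) n1
  rw [e1] at n1 b1
  refine ⟨ko_le n1, fun h hh A => ?_⟩
  obtain ⟨v, z, e2⟩ := k_tA hh hd hw (by norm_num) n1
  refine ko_new b1 e2 A (k_homZ hc hg.ini hh v (ko_le n1) z
    (chk_near stRP all_tab hg.nzn hc hh v ?_))
  have t : m.testBit (y + 64) = true := by
    rw [← k_cell]
    exact ko_sbb s (by decide)
  simp only [nearN, dj_iff, tb_eq]
  rcases hy with rfl | rfl
  exacts [Or.inr (Or.inl t), Or.inr (Or.inr t)]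

theorem op_exz1 (k : ℕ) : GoodO g σ α N (oExz1 k) := fun _ IH _ hl _ _ _ _ H =>
  ko_exz hg hc IH hl (k_dart k).1 (by norm_num) (Or.inl (k_al2 _ _)) H

theorem op_exz2 (k : ℕ) : GoodO g σ α N (oExz2 k) := fun _ IH _ hl _ _ _ _ H =>
  ko_exz hg hc IH hl (k_dart k).1 (by norm_num)
    (Or.inr ((k_al2 _ _).trans (congrArg _ (k_pvc _ _)))) H

theorem op_exf (k : ℕ) : GoodO g σ α N (oExf k) := by
  intro ih IH lim hl m nd e c H
  obtain ⟨-, n1, b1⟩ := IH _ hl _ _ _ _ H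
  refine ⟨ko_le n1, fun h hh A => ?_⟩
  obtain ⟨v, z, e1⟩ := k_tF hh (k_dart k).1 n1
  exact ko_new b1 e1 A (k_homF hc hg.ini hh v (ko_le n1) z)

theorem op_exb (k : ℕ) : GoodO g σ α N (oExb k) := by
  intro ih IH lim hl m nd e c H
  obtain ⟨-, n1, b1⟩ := IH _ hl _ _ _ _ H
  refine ⟨ko_le n1, fun h hh A => ?_⟩
  obtain ⟨v, z, e1⟩ := k_tB hh (k_dart k).1 n1
  exact ko_new b1 e1 A (k_homB hc hg.ini hh v (ko_le n1) z)

/-! Closing a vertex -/

omit hg hc in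
theorem ko_pvS (hh : Hom g.R σ α N m nd h) {f n : ℕ} {t : D}
    (H : ∃ y, Rs nd h f y ∧ (σ ^ n) y = t) :
    ∃ y, Rs nd h (Nat.land (Nat.shiftRight (Nat.shiftRight m 17) f) 131071) y ∧
      (σ ^ (n + 1)) y = t := by
  obtain ⟨y, r, e⟩ := H
  exact ⟨σ⁻¹ y, k_pv2 m f ▸ rs_rp (rs_pv hh r), by rw [pow_succ, Perm.mul_apply, ext_ai, e]⟩

omit hg hc in
theorem ko_pvC (hh : Hom g.R σ α N m nd h) {d : ℕ} (hd : 128 ∣ d) :
    ∃ y, Rs nd h (Nat.land (Nat.shiftRight (Nat.shiftRight m d) 17) 131071) y ∧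
      (σ ^ 2) y = σ (h d) :=
  ⟨σ⁻¹ (h d), k_pvc m d ▸ rs_rp (rs_pv hh (rs_self hd)), by
    rw [pow_succ, Perm.mul_apply, ext_ai, pow_one]⟩

omit hg hc in
theorem ko_or2 (hh : Hom g.R σ α N m nd h) {a b : ℕ} {x y : D} (ra : Rs nd h a x)
    (rb : Rs nd h b y) (e : fc σ α N x = fc σ α N y) :
    Bits 70 92 (Nat.land (Nat.lor (Nat.shiftRight m a) (Nat.shiftRight m b)) FM) ∧
      Facts g.R σ α N (Nat.land (Nat.lor (Nat.shiftRight m a) (Nat.shiftRight m b)) FM) x := by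
  refine ⟨ko_and _ chk_FM, ?_⟩
  have g1 := rs_get hh ra chk_FM (by norm_num) (by norm_num)
  have g2 := rs_get hh rb chk_FM (by norm_num) (by norm_num)
  change Facts _ _ _ _ ((m >>> a ||| m >>> b) &&& FM) x
  rw [Nat.and_or_distrib_right]
  exact ext_facts_or g1.2 (ext_factsF g2.1 e g2.2)

omit hg in
theorem ko_clv {ih : Cl} (IH : GoodC g σ α N ih) {lim : ℕ} (hl : Upto2 g lim) {d f c K P : ℕ} (k : ℕ)
    (n : ℕ) (hd : 128 ∣ d) (hP : P = degX n) (hK : K = 131071 <<< 0 ||| P)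
    (hf : ∀ h, Hom g.R σ α N m nd h → ∃ y, Rs nd h f y ∧ (σ ^ n) y = σ (h d)) {m1 nd1 : ℕ}
    (h1 : m1 = Nat.lor m (Nat.lor (Nat.shiftLeft f d) (Nat.shiftLeft (Nat.shiftLeft d 17) f)))
    (h2 : nd1 = Nat.add (Nat.add nd
      (Nat.shiftLeft (Nat.xor (Nat.land (Nat.shiftRight m d) K) P) 16))
      (Nat.xor (Nat.land (Nat.shiftRight m f) 0x800000000000003fffe0000) (2 ^ 91)))
    (H : ih.1 lim (Nat.lor m1 (Nat.mul ((mskF k).1 m1 f) (Nat.land (Nat.lor (Nat.shiftRight m f)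
      (Nat.shiftRight m (Nat.land (Nat.shiftRight (Nat.shiftRight m d) 34) 131071))) FM)))
        nd1 e c ≠ 0 ∨ ih.1 lim m1 nd1 e c ≠ 0) :
    nd < 65536 ∧ Bad g σ α N m nd e := by
  have key : nd1 < 65536 → ∀ h, Hom g.R σ α N m nd h → nd1 = nd ∧ Hom g.R σ α N m1 nd h ∧
      Val nd f ∧ h f = σ (h d) := by
    intro n1 h hh
    obtain ⟨y, r, ey⟩ := hf h hh
    rw [h2] at n1 ⊢
    obtain ⟨vf, zf, e1⟩ := k_tL hh r.1 (i := 0) (Or.inl rfl) (by norm_num) rfl (by norm_num)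
      (lt_of_le_of_lt (Nat.le_add_left _ _) n1)
    obtain ⟨t1, e2⟩ := k_shl16 (lt_of_le_of_lt (Nat.le_add_left _ nd) (ko_le n1))
    have tab := (all_tab g.R D σ α N hc (h d) n).1
    have bP : Bits 64 127 P := hP ▸ chk_wide tab.1 le_rfl (by norm_num)
    obtain ⟨z, s⟩ := ko_tP bP (by norm_num) hK (k_xor0 t1)
    have v := ko_val hh hd 69 (by norm_num) (by norm_num) s (hP ▸ ko_deg n)
    have h6 := tab.2 (hP ▸ rs_sb hh (rs_val v) bP s)
    have h7 : h f = σ (h d) := by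
      apply (σ ^ n).injective
      rw [r.2 vf, ey, ← h6, ← (stINV D σ α N hc.cls (h d)).2.2.2.1]
      exact (chk_pow σ _).symm
    refine ⟨by rw [show Nat.xor _ (2 ^ 91) = 0 from e1, e2]; rfl, ?_, vf, h7⟩
    have h8 := (stLNK stRP _ D σ α N hc m nd h hh d v).2.2.1 f vf z zf h7
    rw [k_celp] at h8
    have e3 : m1 = put (put m d f) f (d <<< 17) := h1.trans (Nat.or_assoc m _ _).symm
    exact e3 ▸ h8
  rcases H with H | H
  · obtain ⟨-, n1, b1⟩ := IH _ hl _ _ _ _ H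
    refine ⟨ko_le (ko_le (h2 ▸ n1)), fun h hh A => ?_⟩
    obtain ⟨e1, H1, vf, h7⟩ := key n1 h hh
    obtain ⟨g1, g2⟩ := ko_or2 hh (rs_val vf) (k_alc m d ▸ rs_rp (rs_al hh (rs_self hd)))
      (h7 ▸ (stINV D σ α N hc.cls (h d)).2.2.2.2.2.2.2.2.1)
    exact ko_old b1 e1 A (k_mskF hc H1 g1 (rs_val vf) g2 k)
  · obtain ⟨-, n1, b1⟩ := IH _ hl _ _ _ _ H
    refine ⟨ko_le (ko_le (h2 ▸ n1)), fun h hh A => ?_⟩
    obtain ⟨e1, H1, -⟩ := key n1 h hh
    exact ko_old b1 e1 A H1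

omit hg in
theorem op_clv1 (k : ℕ) : GoodO g σ α N (oClv1 k) :=
  good_nr (fun _ IH _ hl _ _ _ _ H => ko_clv hc IH hl k 1 (k_dart _).1 (by decide) (by decide)
    (fun _ _ => ⟨_, rs_self (k_dart _).1, by rw [pow_one]⟩) rfl rfl (Or.inl H))
    (fun _ _ IH _ hl _ _ _ _ H => ko_clv hc IH hl k 1 (k_dart _).1 (by decide) (by decide)
    (fun _ _ => ⟨_, rs_self (k_dart _).1, by rw [pow_one]⟩) rfl rfl (Or.inr H)) _

omit hg in
theorem op_clv2 (k : ℕ) : GoodO g σ α N (oClv2 k) :=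
  good_nr (fun _ IH _ hl _ _ _ _ H => ko_clv hc IH hl k 2 (k_dart _).1 (by decide) (by decide)
    (fun _ hh => ko_pvC hh (k_dart _).1) rfl rfl (Or.inl H))
    (fun _ _ IH _ hl _ _ _ _ H => ko_clv hc IH hl k 2 (k_dart _).1 (by decide) (by decide)
    (fun _ hh => ko_pvC hh (k_dart _).1) rfl rfl (Or.inr H)) _

omit hg in
theorem op_clv3 (k : ℕ) : GoodO g σ α N (oClv3 k) :=
  good_nr (fun _ IH _ hl _ _ _ _ H => ko_clv hc IH hl k 3 (k_dart _).1 (by decide) (by decide)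
    (fun _ hh => ko_pvS hh (ko_pvC hh (k_dart _).1)) rfl rfl (Or.inl H))
    (fun _ _ IH _ hl _ _ _ _ H => ko_clv hc IH hl k 3 (k_dart _).1 (by decide) (by decide)
    (fun _ hh => ko_pvS hh (ko_pvC hh (k_dart _).1)) rfl rfl (Or.inr H)) _

omit hg in
theorem op_clv4 (k : ℕ) : GoodO g σ α N (oClv4 k) :=
  good_nr (fun _ IH _ hl _ _ _ _ H => ko_clv hc IH hl k 4 (k_dart _).1 (by decide) (by decide)
    (fun _ hh => ko_pvS hh (ko_pvS hh (ko_pvC hh (k_dart _).1))) rfl rfl (Or.inl H))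
    (fun _ _ IH _ hl _ _ _ _ H => ko_clv hc IH hl k 4 (k_dart _).1 (by decide) (by decide)
    (fun _ hh => ko_pvS hh (ko_pvS hh (ko_pvC hh (k_dart _).1))) rfl rfl (Or.inr H)) _

omit hg in
theorem op_clv5 (k : ℕ) : GoodO g σ α N (oClv5 k) :=
  good_nr (fun _ IH _ hl _ _ _ _ H => ko_clv hc IH hl k 5 (k_dart _).1 (by decide) (by decide)
    (fun _ hh => ko_pvS hh (ko_pvS hh (ko_pvS hh (ko_pvC hh (k_dart _).1)))) rfl rfl (Or.inl H))
    (fun _ _ IH _ hl _ _ _ _ H => ko_clv hc IH hl k 5 (k_dart _).1 (by decide) (by decide)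
    (fun _ hh => ko_pvS hh (ko_pvS hh (ko_pvS hh (ko_pvC hh (k_dart _).1)))) rfl rfl (Or.inr H)) _

/-! Closing a face -/

omit hg in
theorem ko_jnS (hh : Hom g.R σ α N m nd h) {a n : ℕ} {t : D}
    (H : ∃ y, Rs nd h a y ∧ ((σ * α) ^ n) (α y) = t) :
    ∃ y, Rs nd h (Nat.land (Nat.shiftRight (Nat.shiftRight m 17)
      (Nat.land (Nat.shiftRight (Nat.shiftRight m 34) a) 131071)) 131071) y ∧
      ((σ * α) ^ (n + 1)) (α y) = t := by
  obtain ⟨y, r, e⟩ := H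
  refine ⟨σ⁻¹ (α y), ?_, ?_⟩
  · rw [k_pv2, k_al2]
    exact rs_rp (rp_pv hh (rs_al hh r))
  · rw [pow_succ, Perm.mul_apply, Perm.mul_apply, hc.cls.inv, ext_ai, e]

omit hg in
theorem ko_jnC (hh : Hom g.R σ α N m nd h) {d : ℕ} (hd : 128 ∣ d) :
    ∃ y, Rs nd h (Nat.land (Nat.shiftRight (Nat.shiftRight m d) 17) 131071) y ∧
      ((σ * α) ^ 1) (α y) = h d :=
  ⟨σ⁻¹ (h d), k_pvc m d ▸ rs_rp (rs_pv hh (rs_self hd)), by
    rw [pow_one, Perm.mul_apply, hc.cls.inv, ext_ai]⟩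

omit hg in
theorem ko_jn {ih : Cl} (IH : GoodC g σ α N ih) {lim : ℕ} (hl : Upto2 g lim) {d a c K P : ℕ} (k : ℕ)
    (n : ℕ) (hd : 128 ∣ d) (hP : P = lenX n) (hK : K = 131071 <<< 34 ||| P)
    (hf : ∀ h, Hom g.R σ α N m nd h → ∃ y, Rs nd h a y ∧ ((σ * α) ^ n) (α y) = h d) {m1 nd1 : ℕ}
    (h1 : m1 = Nat.lor m (Nat.shiftLeft (Nat.lor (Nat.shiftLeft a d) (Nat.shiftLeft d a)) 34))
    (h2 : nd1 = Nat.add (Nat.add nd (Nat.xor (Nat.land (Nat.shiftRight m d) K) P))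
      (Nat.xor (Nat.land (Nat.shiftRight m a) 0x80000000007fffc00000000) (2 ^ 91)))
    (H : ih.1 lim (Nat.lor m1 (Nat.mul ((mskF k).1 m1 a) (Nat.land (Nat.lor (Nat.shiftRight m a)
      (Nat.shiftRight m (Nat.land (Nat.shiftRight m d) 131071))) FM))) nd1 e c ≠ 0 ∨
        ih.1 lim m1 nd1 e c ≠ 0) :
    nd < 65536 ∧ Bad g σ α N m nd e := by
  have key : nd1 < 65536 → ∀ h, Hom g.R σ α N m nd h → nd1 = nd ∧ Hom g.R σ α N m1 nd h ∧
      Val nd a ∧ h a = α (h d) := by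
    intro n1 h hh
    obtain ⟨y, r, ey⟩ := hf h hh
    rw [h2] at n1 ⊢
    obtain ⟨va, za, e1⟩ := k_tL hh r.1 (i := 0) (Or.inr rfl) (by norm_num) rfl (by norm_num)
      (lt_of_le_of_lt (Nat.le_add_left _ _) n1)
    have tab := (all_tab g.R D σ α N hc (h d) n).2.1
    have bP : Bits 64 127 P := hP ▸ chk_wide tab.1 (by norm_num) (by norm_num)
    have p0 := k_bits16 bP (by norm_num)
    obtain ⟨t1, e2⟩ := k_tst (P := P) (i := 0) (k_and16 _ (by
        rw [hK, show 65536 = 2 ^ 16 from rfl, Nat.or_mod_two_pow, show P % 2 ^ 16 = 0 from p0]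
        decide)) p0 (by norm_num) (lt_of_le_of_lt (Nat.le_add_left _ nd) (ko_le n1))
    obtain ⟨z, s⟩ := ko_tP bP le_rfl hK t1
    have v := ko_val hh hd 84 (by norm_num) (by norm_num) s (hP ▸ bnd_len n)
    have h6 := tab.2 (hP ▸ rs_sb hh (rs_val v) bP s)
    have h7 : h a = α (h d) := by
      have : α y = h d := by
        apply ((σ * α) ^ n).injective
        rw [ey, ← h6]
        exact (chk_pow (σ * α) _).symm
      rw [r.2 va, ← this, hc.cls.inv]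
    refine ⟨by rw [show Nat.xor _ (2 ^ 91) = 0 from e1, show Nat.xor _ P = 0 from e2]; rfl, ?_,
      va, h7⟩
    have h8 := (stLNK stRP _ D σ α N hc m nd h hh d v).2.2.2.1 a va z za h7
    rw [k_cela, k_cela] at h8
    have e3 : m1 = put (put m d (a <<< 34)) a (d <<< 34) := by
      rw [h1]
      change m ||| (a <<< d ||| d <<< a) <<< 34 = (m ||| (a <<< 34) <<< d) ||| (d <<< 34) <<< a
      simp only [Nat.shiftLeft_or_distrib, ← Nat.shiftLeft_add, Nat.add_comm 34, Nat.or_assoc]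
    exact e3 ▸ h8
  rcases H with H | H
  · obtain ⟨-, n1, b1⟩ := IH _ hl _ _ _ _ H
    refine ⟨ko_le (ko_le (h2 ▸ n1)), fun h hh A => ?_⟩
    obtain ⟨e1, H1, va, h7⟩ := key n1 h hh
    obtain ⟨g1, g2⟩ := ko_or2 hh (rs_val va) (rs_rp (rs_nx hh (rs_self hd)))
      (h7 ▸ (stINV D σ α N hc.cls (h d)).2.2.2.2.2.2.2.2.1.symm)
    exact ko_old b1 e1 A (k_mskF hc H1 g1 (rs_val va) g2 k)
  · obtain ⟨-, n1, b1⟩ := IH _ hl _ _ _ _ H
    refine ⟨ko_le (ko_le (h2 ▸ n1)), fun h hh A => ?_⟩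
    obtain ⟨e1, H1, -⟩ := key n1 h hh
    exact ko_old b1 e1 A H1

omit hg in
theorem op_jn1 (k : ℕ) : GoodO g σ α N (oJn1 k) :=
  good_nr (fun _ IH _ hl _ _ _ _ H => ko_jn hc IH hl k 1 (k_dart _).1 (by decide) (by decide)
    (fun _ hh => ko_jnC hc hh (k_dart _).1) rfl rfl (Or.inl H))
    (fun _ _ IH _ hl _ _ _ _ H => ko_jn hc IH hl k 1 (k_dart _).1 (by decide) (by decide)
    (fun _ hh => ko_jnC hc hh (k_dart _).1) rfl rfl (Or.inr H)) _

omit hg in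
theorem op_jn2 (k : ℕ) : GoodO g σ α N (oJn2 k) :=
  good_nr (fun _ IH _ hl _ _ _ _ H => ko_jn hc IH hl k 2 (k_dart _).1 (by decide) (by decide)
    (fun _ hh => ko_jnS hc hh (ko_jnC hc hh (k_dart _).1)) rfl rfl (Or.inl H))
    (fun _ _ IH _ hl _ _ _ _ H => ko_jn hc IH hl k 2 (k_dart _).1 (by decide) (by decide)
    (fun _ hh => ko_jnS hc hh (ko_jnC hc hh (k_dart _).1)) rfl rfl (Or.inr H)) _

omit hg in
theorem op_jn3 (k : ℕ) : GoodO g σ α N (oJn3 k) :=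
  good_nr (fun _ IH _ hl _ _ _ _ H => ko_jn hc IH hl k 3 (k_dart _).1 (by decide) (by decide)
    (fun _ hh => ko_jnS hc hh (ko_jnS hc hh (ko_jnC hc hh (k_dart _).1))) rfl rfl (Or.inl H))
    (fun _ _ IH _ hl _ _ _ _ H => ko_jn hc IH hl k 3 (k_dart _).1 (by decide) (by decide)
    (fun _ hh => ko_jnS hc hh (ko_jnS hc hh (ko_jnC hc hh (k_dart _).1))) rfl rfl (Or.inr H)) _

omit hg in
theorem op_jn4 (k : ℕ) : GoodO g σ α N (oJn4 k) :=
  good_nr (fun _ IH _ hl _ _ _ _ H => ko_jn hc IH hl k 4 (k_dart _).1 (by decide) (by decide)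
    (fun _ hh => ko_jnS hc hh (ko_jnS hc hh (ko_jnS hc hh (ko_jnC hc hh (k_dart _).1)))) rfl rfl (Or.inl H))
    (fun _ _ IH _ hl _ _ _ _ H => ko_jn hc IH hl k 4 (k_dart _).1 (by decide) (by decide)
    (fun _ hh => ko_jnS hc hh (ko_jnS hc hh (ko_jnS hc hh (ko_jnC hc hh (k_dart _).1)))) rfl rfl (Or.inr H)) _

omit hg in
theorem op_jn5 (k : ℕ) : GoodO g σ α N (oJn5 k) :=
  good_nr (fun _ IH _ hl _ _ _ _ H => ko_jn hc IH hl k 5 (k_dart _).1 (by decide) (by decide)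
    (fun _ hh => ko_jnS hc hh (ko_jnS hc hh (ko_jnS hc hh (ko_jnS hc hh (ko_jnC hc hh (k_dart _).1))))) rfl rfl (Or.inl H))
    (fun _ _ IH _ hl _ _ _ _ H => ko_jn hc IH hl k 5 (k_dart _).1 (by decide) (by decide)
    (fun _ hh => ko_jnS hc hh (ko_jnS hc hh (ko_jnS hc hh (ko_jnS hc hh (ko_jnC hc hh (k_dart _).1))))) rfl rfl (Or.inr H)) _

omit hg in
theorem op_jn6 (k : ℕ) : GoodO g σ α N (oJn6 k) :=
  good_nr (fun _ IH _ hl _ _ _ _ H => ko_jn hc IH hl k 6 (k_dart _).1 (by decide) (by decide)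
    (fun _ hh => ko_jnS hc hh (ko_jnS hc hh (ko_jnS hc hh (ko_jnS hc hh (ko_jnS hc hh (ko_jnC hc hh (k_dart _).1)))))) rfl rfl (Or.inl H))
    (fun _ _ IH _ hl _ _ _ _ H => ko_jn hc IH hl k 6 (k_dart _).1 (by decide) (by decide)
    (fun _ hh => ko_jnS hc hh (ko_jnS hc hh (ko_jnS hc hh (ko_jnS hc hh (ko_jnS hc hh (ko_jnC hc hh (k_dart _).1)))))) rfl rfl (Or.inr H)) _

omit hg in
theorem op_jn7 (k : ℕ) : GoodO g σ α N (oJn7 k) :=
  good_nr (fun _ IH _ hl _ _ _ _ H => ko_jn hc IH hl k 7 (k_dart _).1 (by decide) (by decide)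
    (fun _ hh => ko_jnS hc hh (ko_jnS hc hh (ko_jnS hc hh (ko_jnS hc hh (ko_jnS hc hh (ko_jnS hc hh (ko_jnC hc hh (k_dart _).1))))))) rfl rfl (Or.inl H))
    (fun _ _ IH _ hl _ _ _ _ H => ko_jn hc IH hl k 7 (k_dart _).1 (by decide) (by decide)
    (fun _ hh => ko_jnS hc hh (ko_jnS hc hh (ko_jnS hc hh (ko_jnS hc hh (ko_jnS hc hh (ko_jnS hc hh (ko_jnC hc hh (k_dart _).1))))))) rfl rfl (Or.inr H)) _

omit hg in
theorem op_jn8 (k : ℕ) : GoodO g σ α N (oJn8 k) :=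
  good_nr (fun _ IH _ hl _ _ _ _ H => ko_jn hc IH hl k 8 (k_dart _).1 (by decide) (by decide)
    (fun _ hh => ko_jnS hc hh (ko_jnS hc hh (ko_jnS hc hh (ko_jnS hc hh (ko_jnS hc hh (ko_jnS hc hh (ko_jnS hc hh (ko_jnC hc hh (k_dart _).1)))))))) rfl rfl (Or.inl H))
    (fun _ _ IH _ hl _ _ _ _ H => ko_jn hc IH hl k 8 (k_dart _).1 (by decide) (by decide)
    (fun _ hh => ko_jnS hc hh (ko_jnS hc hh (ko_jnS hc hh (ko_jnS hc hh (ko_jnS hc hh (ko_jnS hc hh (ko_jnS hc hh (ko_jnC hc hh (k_dart _).1)))))))) rfl rfl (Or.inr H)) _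

omit hg in
theorem op_jn9 (k : ℕ) : GoodO g σ α N (oJn9 k) :=
  good_nr (fun _ IH _ hl _ _ _ _ H => ko_jn hc IH hl k 9 (k_dart _).1 (by decide) (by decide)
    (fun _ hh => ko_jnS hc hh (ko_jnS hc hh (ko_jnS hc hh (ko_jnS hc hh (ko_jnS hc hh (ko_jnS hc hh (ko_jnS hc hh (ko_jnS hc hh (ko_jnC hc hh (k_dart _).1))))))))) rfl rfl (Or.inl H))
    (fun _ _ IH _ hl _ _ _ _ H => ko_jn hc IH hl k 9 (k_dart _).1 (by decide) (by decide)
    (fun _ hh => ko_jnS hc hh (ko_jnS hc hh (ko_jnS hc hh (ko_jnS hc hh (ko_jnS hc hh (ko_jnS hc hh (ko_jnS hc hh (ko_jnS hc hh (ko_jnC hc hh (k_dart _).1))))))))) rfl rfl (Or.inr H)) _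

omit hg in
theorem op_jn10 (k : ℕ) : GoodO g σ α N (oJn10 k) :=
  good_nr (fun _ IH _ hl _ _ _ _ H => ko_jn hc IH hl k 10 (k_dart _).1 (by decide) (by decide)
    (fun _ hh => ko_jnS hc hh (ko_jnS hc hh (ko_jnS hc hh (ko_jnS hc hh (ko_jnS hc hh (ko_jnS hc hh (ko_jnS hc hh (ko_jnS hc hh (ko_jnS hc hh (ko_jnC hc hh (k_dart _).1)))))))))) rfl rfl (Or.inl H))
    (fun _ _ IH _ hl _ _ _ _ H => ko_jn hc IH hl k 10 (k_dart _).1 (by decide) (by decide)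
    (fun _ hh => ko_jnS hc hh (ko_jnS hc hh (ko_jnS hc hh (ko_jnS hc hh (ko_jnS hc hh (ko_jnS hc hh (ko_jnS hc hh (ko_jnS hc hh (ko_jnS hc hh (ko_jnC hc hh (k_dart _).1)))))))))) rfl rfl (Or.inr H)) _

omit hg in
theorem op_jn11 (k : ℕ) : GoodO g σ α N (oJn11 k) :=
  good_nr (fun _ IH _ hl _ _ _ _ H => ko_jn hc IH hl k 11 (k_dart _).1 (by decide) (by decide)
    (fun _ hh => ko_jnS hc hh (ko_jnS hc hh (ko_jnS hc hh (ko_jnS hc hh (ko_jnS hc hh (ko_jnS hc hh (ko_jnS hc hh (ko_jnS hc hh (ko_jnS hc hh (ko_jnS hc hh (ko_jnC hc hh (k_dart _).1))))))))))) rfl rfl (Or.inl H))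
    (fun _ _ IH _ hl _ _ _ _ H => ko_jn hc IH hl k 11 (k_dart _).1 (by decide) (by decide)
    (fun _ hh => ko_jnS hc hh (ko_jnS hc hh (ko_jnS hc hh (ko_jnS hc hh (ko_jnS hc hh (ko_jnS hc hh (ko_jnS hc hh (ko_jnS hc hh (ko_jnS hc hh (ko_jnS hc hh (ko_jnC hc hh (k_dart _).1))))))))))) rfl rfl (Or.inr H)) _

end

end Pool.Agent.Lib.G6.K
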