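import Pool.Agent.Lib.G6.KOp1
import Pool.Agent.Lib.G6.KMtc

set_option autoImplicit false

/-! The other elementary operations of the second checker. -/

namespace Pool.Agent.Lib.G6.K

open Equiv
open Pool.Agent.Lib.MP_bfaad3_co (frc sel cj dj tb sb BT frc_eq sel_eq cj_iff dj_iff tb_eq sb_iff)

theorem ko_add0 {a b : ℕ} (h : Nat.add a b = 0) : a = 0 ∧ b = 0 := Nat.add_eq_zero_iff.1 h

theorem ko_kf {k : ℕ} (hk : k ≤ 1) : Nat.add (Nat.mul k 16) 92 = fo (2 * k) := by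
  interval_cases k <;> decide

theorem ko_lf {c a nd : ℕ} (h : Nat.mul c (Nat.sub 1 (Nat.shiftRight (Nat.add nd a) 16)) ≠ 0) :
    Nat.add nd a < 65536 := k_shr16 (k_fin h)

theorem ko_t0 {y P nd : ℕ} (hy : y % 65536 = 0) (hP : P % 65536 = 0)
    (h : Nat.add nd (Nat.xor y P) < 65536) : y = P :=
  (k_tst (i := 0) hy hP (by norm_num) (lt_of_le_of_lt (Nat.le_add_left _ nd) h)).1

section
variable {g : G} {D : Type} [Fintype D] {σ α : Perm D} {N : Set D}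

theorem good_sel {a : Op} {t : Bool} (ha : t = true → GoodO g σ α N a) :
    GoodO g σ α N (sel t a ⟨fun _ _ _ _ _ _ => nat_lit 0⟩) := by
  cases t
  exacts [good_dead, ha rfl]

variable {m nd e : ℕ} {h : ℕ → D}

theorem ko_cut1 (hh : Hom g.R σ α N m nd h) {d s a sh : ℕ} (hd : 128 ∣ d) (hs : s ≤ 3)
    (h1 : sh + 91 = fo s) (ha : Bits sh (sh + fw s) a)
    (hb : a.testBit (sh + fv g.R σ α N s (h d)) = false) :
    Hom g.R σ α N (Nat.lor m (Nat.mul (Nat.land m (Nat.shiftLeft 1 (Nat.add d 91))) a)) nd h := by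
  have e1 : Nat.mul (Nat.land m (Nat.shiftLeft 1 (Nat.add d 91))) a =
      Nat.mul (one m d) (a <<< 91) := by
    rw [ko_one]
    change one m d <<< 91 * a = one m d * a <<< 91
    rw [Nat.shiftLeft_eq, Nat.shiftLeft_eq]
    ring
  have key : ∀ i, (a <<< 91).testBit i = true →
      ∃ j, j < fw s ∧ i = fo s + j ∧ a.testBit (sh + j) = true := by
    intro i hi
    rw [Nat.testBit_shiftLeft, Bool.and_eq_true, decide_eq_true_eq] at hi
    have := ha _ hi.2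
    exact ⟨i - fo s, by omega, by omega, by rw [show sh + (i - fo s) = i - 91 by omega]; exact hi.2⟩
  have h2 := lv_fo hs
  rw [e1]
  refine k_one hh (rs_self hd) (fun i hi => ?_) fun i hi => ?_
  · obtain ⟨j, j1, j2, -⟩ := key i hi
    omega
  · obtain ⟨j, j1, rfl, j3⟩ := key i hi
    refine (lv_fact hs j1 _).2 fun e2 => ?_
    rw [e2, j3] at hb
    exact absurd hb (by simp)

theorem ko_cut {ih : Cl} (IH : GoodC g σ α N ih) {lim : ℕ} (hl : Upto2 g lim) {d y c W : ℕ}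
    (s sh : ℕ) (hd : 128 ∣ d) (hs : s ≤ 3) (h1 : sh + 91 = fo s) (hW : W = (2 ^ fw s - 1) <<< sh)
    (H : ih.1 lim (Nat.lor m (Nat.mul (Nat.land m (Nat.shiftLeft 1 (Nat.add d 91)))
      (Nat.xor (Nat.land y W) W))) nd e (ih.1 lim (Nat.lor m (Nat.mul
        (Nat.land m (Nat.shiftLeft 1 (Nat.add d 91))) (Nat.land y W))) nd e c) ≠ 0) :
    nd < 65536 ∧ Bad g σ α N m nd e := by
  obtain ⟨c1, n2, b2⟩ := IH _ hl _ _ _ _ H
  obtain ⟨-, -, b1⟩ := IH _ hl _ _ _ _ c1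
  refine ⟨n2, fun h hh A => ?_⟩
  have bW : Bits sh (sh + fw s) W := hW ▸ chk_msk sh (fw s)
  have ba := ko_and y bW
  cases e1 : (Nat.land y W).testBit (sh + fv g.R σ α N s (h d))
  · exact b1 h (ko_cut1 hh hd hs h1 ba e1) A
  · refine b2 h (ko_cut1 hh hd hs h1 (chk_xor ba bW) ?_) A
    change (Nat.land y W ^^^ W).testBit _ = false
    rw [Nat.testBit_xor, e1, hW, Nat.testBit_shiftLeft, Nat.testBit_two_pow_sub_one,
      Nat.add_sub_cancel_left, decide_eq_true (lv_fv g.R σ α N hs _),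
      decide_eq_true (Nat.le_add_right _ _)]
    rfl

theorem op_cut0 (k : ℕ) : GoodO g σ α N (oCut0 k) := fun _ IH _ hl _ _ _ _ H =>
  ko_cut IH hl 0 1 (k_dart k).1 (by norm_num) (by decide) (by decide) H

theorem op_cut1 (k : ℕ) : GoodO g σ α N (oCut1 k) := fun _ IH _ hl _ _ _ _ H =>
  ko_cut IH hl 1 11 (k_dart k).1 (by norm_num) (by decide) (by decide) H

theorem op_cut2 (k : ℕ) : GoodO g σ α N (oCut2 k) := fun _ IH _ hl _ _ _ _ H =>
  ko_cut IH hl 2 17 (k_dart k).1 (by norm_num) (by decide) (by decide) H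

theorem op_cut3 (k : ℕ) : GoodO g σ α N (oCut3 k) := fun _ IH _ hl _ _ _ _ H =>
  ko_cut IH hl 3 27 (k_dart k).1 (by norm_num) (by decide) (by decide) H

theorem op_jmp (cs : ℕ → ℕ) (k : ℕ) : GoodO g σ α N (oJmp cs k) := fun _ IH _ hl _ _ _ _ H =>
  (IH _ hl _ _ _ _ H).2

omit [Fintype D] in
theorem ko_lvl {r k : ℕ} {x : D}
    (hr : ∀ i, r.testBit i = true → (rT (run σ α N (g.R.s k) x)).testBit i = true) :
    r.testBit (fv g.R σ α N (2 * k) x) = false := by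
  rw [lv_fv0, ← Bool.not_eq_true]
  exact fun hb => (k_rT_lo _ (Nat.lt_succ_of_le (min_le_right _ 9))).1 (hr _ hb) rfl

theorem ko_eqd (hh : Hom g.R σ α N m nd h) {y : ℕ} (hy : Val nd y) (h1 : eqd m y ≠ 0) :
    Val nd (eqd m y) ∧ h (eqd m y) = h y := (hh.he y hy).resolve_left h1

variable (hc : Ctx σ α N)
include hc

theorem op_spv (k : ℕ) : GoodO g σ α N (oSpv k) := by
  intro ih IH lim hl m nd e c H
  obtain ⟨c1, n2, b2⟩ := IH _ hl _ _ _ _ H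
  obtain ⟨-, -, b1⟩ := IH _ hl _ _ _ _ c1
  refine ⟨n2, fun h hh A => ?_⟩
  have hb := ko_and (Nat.shiftLeft c 39) chk_VM
  have r := rs_self (nd := nd) (h := h) (k_dart (Nat.shiftRight c 9)).1
  rcases (all_tab g.R D σ α N hc _ 0).2.2.2.2.2.2.2.2.2.1 _ hb with h1 | h1
  · exact b1 h (k_mskV hc hh hb r h1 k) A
  · exact b2 h (k_mskV hc hh (chk_xor hb chk_VM) r h1 k) A

theorem op_spf (k : ℕ) : GoodO g σ α N (oSpf k) := by
  intro ih IH lim hl m nd e c H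
  obtain ⟨c1, n2, b2⟩ := IH _ hl _ _ _ _ H
  obtain ⟨-, -, b1⟩ := IH _ hl _ _ _ _ c1
  refine ⟨n2, fun h hh A => ?_⟩
  have hb : Bits 70 92 (Nat.land (Nat.shiftLeft c 45) ((2 ^ 16 - 1) <<< 70)) :=
    ko_and _ fun i hi => by
      have := chk_msk 70 16 i hi
      omega
  have r := rs_self (nd := nd) (h := h) (k_dart (Nat.shiftRight c 9)).1
  rcases (all_tab g.R D σ α N hc _ 0).2.2.2.2.2.2.2.2.2.2 _ hb with h1 | h1
  · exact b1 h (k_mskF hc hh hb r h1 k) A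
  · exact b2 h (k_mskF hc hh (chk_xor hb chk_FM) r h1 k) A

theorem op_prv (k : ℕ) : GoodO g σ α N (oPrv k) := by
  intro ih IH lim hl m nd e c H
  obtain ⟨-, n1, b1⟩ := IH _ hl _ _ _ _ H
  refine ⟨n1, fun h hh A => ?_⟩
  have r := rs_self (nd := nd) (h := h) (k_dart (Nat.shiftRight c 9)).1
  have t := rs_get hh r chk_VM le_rfl (by norm_num)
  exact b1 h (k_mskV hc hh t.1 r t.2 k) A

theorem op_prf (k : ℕ) : GoodO g σ α N (oPrf k) := by
  intro ih IH lim hl m nd e c H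
  obtain ⟨-, n1, b1⟩ := IH _ hl _ _ _ _ H
  refine ⟨n1, fun h hh A => ?_⟩
  have r := rs_self (nd := nd) (h := h) (k_dart (Nat.shiftRight c 9)).1
  have t := rs_get hh r chk_FM (by norm_num) (by norm_num)
  exact b1 h (k_mskF hc hh t.1 r t.2 k) A

theorem op_emv (k : ℕ) : GoodO g σ α N (oEmv k) := by
  intro ih IH lim hl m nd e c H
  have n1 := ko_lf H
  refine ⟨ko_le n1, fun h hh _ => ?_⟩
  exact (all_tab g.R D σ α N hc _ 0).2.2.2.2.2.2.1 (rs_sb hh (rs_self (k_dart k).1)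
    (chk_wide chk_VM le_rfl (by norm_num)) (ko_sub (K := VM) (by decide) n1).1)

theorem op_emf (k : ℕ) : GoodO g σ α N (oEmf k) := by
  intro ih IH lim hl m nd e c H
  have n1 := ko_lf H
  refine ⟨ko_le n1, fun h hh _ => ?_⟩
  exact (all_tab g.R D σ α N hc _ 0).2.2.2.2.2.2.2.1 (rs_sb hh (rs_self (k_dart k).1)
    (chk_wide chk_FM (by norm_num) (by norm_num)) (ko_sub (K := FM) (by decide) n1).1)

theorem op_loop (k : ℕ) : GoodO g σ α N (oLoop k) := by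
  intro ih IH lim hl m nd e c H
  have n1 := ko_lf H
  refine ⟨ko_le n1, fun h hh _ => ?_⟩
  obtain ⟨d1, d2⟩ := k_dart k
  change Nat.add nd (Nat.xor (Nat.land (Nat.shiftRight m (Nat.land k 65408))
    0x80000000007fffc00000000) (Nat.land k 65408 <<< 34 + 2 ^ 91)) < 65536 at n1
  generalize Nat.land k 65408 = d at n1 d1 d2
  rw [Nat.shiftLeft_eq] at n1
  have t := ko_t0 (k_and16 _ (by norm_num)) (by omega) n1
  have v : Val nd d := k_vb hh d1 t (by decide) (by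
    rw [Nat.add_comm, Nat.testBit_two_pow_add_eq, Nat.testBit_lt_two_pow (by omega)]
    rfl)
  have e1 : al m d = d := by
    rw [← k_alc]
    change Nat.shiftRight m d >>> 34 &&& (2 ^ 17 - 1) = d
    have t1 := congrArg (fun z => z / 2 ^ 34 % 2 ^ 17) t
    change (Nat.shiftRight m d &&& _) / 2 ^ 34 % 2 ^ 17 = _ at t1
    rw [Nat.and_div_two_pow, Nat.and_mod_two_pow,
      show 0x80000000007fffc00000000 / 2 ^ 34 % 2 ^ 17 = 2 ^ 17 - 1 by norm_num,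
      Nat.and_two_pow_sub_one_eq_mod, Nat.mod_mod] at t1
    rw [Nat.and_two_pow_sub_one_eq_mod, Nat.shiftRight_eq_div_pow, t1]
    omega
  have r := rs_al hh (rs_val v)
  rw [e1] at r
  rcases r with r | r
  · have := v.1
    omega
  · exact hc.fpf _ r.2.symm

theorem ko_evm (hh : Hom g.R σ α N m nd h) {d k r : ℕ} (hd : Val nd d) (hk : k ≤ 1)
    (hr : ∀ i, r.testBit i = true → (rT (run σ α N (g.R.s k) (h d))).testBit i = true) :
    Hom g.R σ α N (Nat.lor m (Nat.shiftLeft (Nat.land r 1023)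
      (Nat.add d (Nat.add (Nat.mul k 16) 92)))) nd h := by
  rw [ko_kf hk]
  refine chk_ptl all_put hc hh hd (by omega) ?_ ?_
  · rw [(lv_kof hk).2.1]
    exact ko_and r (chk_msk 0 10)
  · change (r &&& 1023).testBit _ = false
    rw [Nat.testBit_and, ko_lvl hr, Bool.false_and]

theorem ko_fold {ih : Cl} (IH : GoodC g σ α N ih) {lim : ℕ} (hl : Upto2 g lim) {d y c K : ℕ}
    (hd : 128 ∣ d) (hK : D → Bits 64 127 K) (i : ℕ) (hi : K.testBit i = true)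
    (hy : ∀ h, Hom g.R σ α N m nd h → Val nd d → Facts g.R σ α N K (h d) → Rp nd h y (h d))
    (H : ih.1 lim (setE m y d) (Nat.add (Nat.add nd (Nat.xor (Nat.land (Nat.shiftRight m d) K) K))
      (Nat.xor (Nat.land (Nat.shiftRight m y) (2 ^ 91)) (2 ^ 91))) e c ≠ 0) :
    nd < 65536 ∧ Bad g σ α N m nd e := by
  obtain ⟨-, n1, b1⟩ := IH _ hl _ _ _ _ H
  refine ⟨ko_le (ko_le n1), fun h hh A => ?_⟩
  replace hK := hK (h 0)
  obtain ⟨s, e1⟩ := ko_sub (k_bits16 hK (by norm_num)) (ko_le n1)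
  rw [e1] at n1 b1
  have v := ko_val hh hd i (hK i hi).1 (by have := (hK i hi).2; omega) s hi
  have r := rs_rp (hy h hh v (rs_sb hh (rs_val v) hK s))
  obtain ⟨vy, e2⟩ := ko_vb hh r.1 n1
  exact ko_old b1 e2 A ((stLNK stRP _ D σ α N hc m nd h hh d v).2.2.2.2.1 y vy (r.2 vy)).1

theorem op_fold (k : ℕ) : GoodO g σ α N (oFold k) := by
  have tab := fun x => all_tab g.R D σ α N hc x (Nat.land (Nat.shiftRight k 7) 15)
  refine good_nr (fun _ IH _ hl m nd _ _ H => ko_fold hc IH hl (k_dart _).1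
    (fun x => chk_wide (tab x).1.1 le_rfl (by norm_num)) 69 (ko_deg _) (fun h hh v f => ?_) H)
    (fun _ _ IH _ hl m nd _ _ H => ko_fold hc IH hl (k_dart _).1
    (fun x => chk_wide (tab x).2.1.1 (by norm_num) (by norm_num)) 84 (bnd_len _)
    (fun h hh v f => ?_) H) _
  · have r := (stRP _ D σ α N hc m nd h hh _ _ (Or.inr ⟨v, rfl⟩)).2.2.2.2.2.2.1
      (Nat.land (Nat.shiftRight k 7) 15)
    exact r.imp_right fun r => ⟨r.1, r.2.trans ((tab _).1.2 f ▸ chk_pow σ _)⟩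
  · have r := (stRP _ D σ α N hc m nd h hh _ _ (Or.inr ⟨v, rfl⟩)).2.2.2.2.2.2.2.1
      (Nat.land (Nat.shiftRight k 7) 15)
    exact r.imp_right fun r => ⟨r.1, r.2.trans ((tab _).2.1.2 f ▸ chk_pow (σ * α) _)⟩

theorem op_lnk0 (k : ℕ) : GoodO g σ α N (oLnk0 k) := by
  intro ih IH lim hl m nd e c H
  obtain ⟨-, n1, b1⟩ := IH _ hl _ _ _ _ H
  obtain ⟨z1, e1⟩ := ko_nz n1
  rw [e1] at n1
  obtain ⟨z2, e2⟩ := ko_nz n1
  rw [e2] at n1
  obtain ⟨z3, e3⟩ := ko_nz n1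
  rw [e3] at n1
  refine ⟨ko_le n1, fun h hh A => ?_⟩
  obtain ⟨v, e4⟩ := ko_vb hh (k_dart _).1 n1
  have lk := stLNK stRP _ D σ α N hc m nd h hh
  obtain ⟨h5, h6⟩ := ko_eqd hh v z3
  obtain ⟨h7, h8, h9⟩ := (lk _ v).2.2.2.2.2.2.1 _ _ h5 h6 z1 z2
  exact ko_old b1 (e1.trans (e2.trans (e3.trans e4))) A ((lk _ h8).2.2.2.2.1 _ h7 h9).1

theorem op_lnk1 (k : ℕ) : GoodO g σ α N (oLnk1 k) := by
  intro ih IH lim hl m nd e c H
  obtain ⟨-, n1, b1⟩ := IH _ hl _ _ _ _ H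
  obtain ⟨z1, e1⟩ := ko_nz n1
  rw [e1] at n1
  obtain ⟨z2, e2⟩ := ko_nz n1
  rw [e2] at n1
  obtain ⟨z3, e3⟩ := ko_nz n1
  rw [e3] at n1
  refine ⟨ko_le n1, fun h hh A => ?_⟩
  obtain ⟨v, e4⟩ := ko_vb hh (k_dart _).1 n1
  have lk := stLNK stRP _ D σ α N hc m nd h hh
  obtain ⟨h5, h6⟩ := ko_eqd hh v z3
  obtain ⟨h7, h8, h9⟩ := (lk _ v).2.2.2.2.2.2.1 _ _ h5 h6 z1 z2
  exact ko_old b1 (e1.trans (e2.trans (e3.trans e4))) A ((lk _ h7).2.2.2.2.1 _ h8 h9.symm).1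

theorem op_lnk2 (k : ℕ) : GoodO g σ α N (oLnk2 k) := by
  intro ih IH lim hl m nd e c H
  obtain ⟨-, n1, b1⟩ := IH _ hl _ _ _ _ H
  obtain ⟨z1, e1⟩ := ko_nz n1
  rw [e1] at n1
  refine ⟨ko_le n1, fun h hh A => ?_⟩
  obtain ⟨v, e4⟩ := ko_vb hh (k_dart _).1 n1
  obtain ⟨h5, h6⟩ := ko_eqd hh v z1
  exact ko_old b1 (e1.trans e4) A
    (absF_e ▸ ((stLNK stRP _ D σ α N hc m nd h hh _ h5).2.2.2.2.1 _ v h6.symm).2)

theorem op_lnk3 (k : ℕ) : GoodO g σ α N (oLnk3 k) := by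
  intro ih IH lim hl m nd e c H
  obtain ⟨-, n1, b1⟩ := IH _ hl _ _ _ _ H
  obtain ⟨z1, e1⟩ := ko_nz n1
  rw [e1] at n1
  obtain ⟨z2, e2⟩ := ko_nz n1
  rw [e2] at n1
  refine ⟨ko_le n1, fun h hh A => ?_⟩
  obtain ⟨v, e4⟩ := ko_vb hh (k_dart _).1 n1
  have lk := stLNK stRP _ D σ α N hc m nd h hh _ v
  have h4 := lk.2.2.2.2.2.2.2 _ z2
  obtain ⟨h5, h6⟩ := ko_eqd hh h4 z1
  exact ko_old b1 (e1.trans (e2.trans e4)) A (lk.2.2.2.2.2.1 _ _ h5 h4 h6)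

theorem op_lnk4 (k : ℕ) : GoodO g σ α N (oLnk4 k) := by
  intro ih IH lim hl m nd e c H
  obtain ⟨-, n1, b1⟩ := IH _ hl _ _ _ _ H
  obtain ⟨z1, e1⟩ := ko_nz n1
  rw [e1] at n1
  refine ⟨ko_le n1, fun h hh A => ?_⟩
  obtain ⟨v, e4⟩ := ko_vb hh (k_dart _).1 n1
  obtain ⟨h5, h6⟩ := ko_eqd hh v z1
  exact ko_old b1 (e1.trans e4) A ((stLNK stRP _ D σ α N hc m nd h hh _ v).2.2.2.2.1 _ h5 h6).1

theorem op_lnk5 (k : ℕ) : GoodO g σ α N (oLnk5 k) := by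
  intro ih IH lim hl m nd e c H
  obtain ⟨-, n1, b1⟩ := IH _ hl _ _ _ _ H
  obtain ⟨z1, e1⟩ := ko_nz n1
  rw [e1] at n1
  obtain ⟨z2, e2⟩ := ko_nz n1
  rw [e2] at n1
  refine ⟨ko_le n1, fun h hh A => ?_⟩
  obtain ⟨v, e4⟩ := ko_vb hh (k_dart _).1 n1
  obtain ⟨h5, h6⟩ := ko_eqd hh v z2
  obtain ⟨h7, h8⟩ := ko_eqd hh h5 z1
  exact ko_old b1 (e1.trans (e2.trans e4)) A
    ((stLNK stRP _ D σ α N hc m nd h hh _ h7).2.2.2.2.1 _ v (h8.trans h6).symm).1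

theorem op_lnk (k : ℕ) : GoodO g σ α N (oLnk k) :=
  good_br (good_br (good_br (op_lnk5 hc k) (op_lnk4 hc k) _) (op_lnk3 hc k) _)
    (good_br (good_br (op_lnk2 hc k) (op_lnk1 hc k) _) (op_lnk0 hc k) _) _

omit hc in
theorem ko_mov {ih : Cl} (IH : GoodC g σ α N ih) {lim : ℕ} (hl : Upto2 g lim) {d y c K : ℕ}
    (i : ℕ) (hd : 128 ∣ d) (h1 : 64 ≤ i) (h2 : i < 127) (hK : K = 2 ^ i)
    (hy : ∀ h, Hom g.R σ α N m nd h → Fact g.R σ α N i (h d) →
      ∃ x, Rs nd h y x ∧ Fact g.R σ α N i x)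
    (H : ih.1 lim (Nat.lor m (Nat.shiftLeft (one m y) i))
      (Nat.add nd (Nat.xor (Nat.land (Nat.shiftRight m d) K) K)) e c ≠ 0) :
    nd < 65536 ∧ Bad g σ α N m nd e := by
  obtain ⟨-, n1, b1⟩ := IH _ hl _ _ _ _ H
  have on : ∀ j, K.testBit j = true → j = i := fun j hj => by
    rw [hK, Nat.testBit_two_pow] at hj
    exact (of_decide_eq_true hj).symm
  have bK : Bits 64 127 K := fun j hj => by
    rw [on j hj]
    exact ⟨h1, h2⟩
  obtain ⟨s, e1⟩ := ko_sub (k_bits16 bK (by norm_num)) n1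
  refine ⟨ko_le n1, fun h hh A => ?_⟩
  obtain ⟨x, r, f⟩ := hy h hh (rs_sb hh (rs_self hd) bK s i (hK ▸ Nat.testBit_two_pow_self))
  refine ko_old b1 e1 A ?_
  have := k_one hh r bK fun j hj => on j hj ▸ f
  rwa [hK, show Nat.mul (one m y) (2 ^ i) = Nat.shiftLeft (one m y) i from
    (Nat.shiftLeft_eq _ _).symm] at this

theorem op_mov0 (k : ℕ) : GoodO g σ α N (oMov0 k) := fun _ IH _ hl _ _ _ _ H =>
  ko_mov IH hl 124 (k_dart k).1 (by norm_num) (by norm_num) (by norm_num) (fun _ hh f =>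
    ⟨_, rs_rp (rs_nx hh (rs_self (k_dart k).1)), chk_negV stINV hc f⟩) H

theorem op_mov1 (k : ℕ) : GoodO g σ α N (oMov1 k) := fun _ IH _ hl m _ _ _ H =>
  ko_mov IH hl 125 (k_dart k).1 (by norm_num) (by norm_num) (by norm_num) (fun _ hh f =>
    ⟨_, rs_rp (rp_nx hh (k_alc m _ ▸ rs_al hh (rs_self (k_dart k).1))), chk_negF stINV hc f⟩) H

variable (hg : GOK g)
include hg

theorem op_win (k : ℕ) : GoodO g σ α N (oWin g k) := by
  refine good_sel fun t ih IH lim hl m nd e c H => ?_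
  have n1 := ko_lf H
  refine ⟨ko_le n1, fun h hh _ => ?_⟩
  obtain ⟨s, -⟩ := ko_sub (by
    change ((_ ||| g.R.c1 <<< 70) ||| clsX 14) % 2 ^ 16 = 0
    rw [Nat.or_mod_two_pow, Nat.or_mod_two_pow, Nat.shiftLeft_eq,
      show g.R.c1 * 2 ^ 70 % 2 ^ 16 = 0 by omega]
    decide) n1
  obtain ⟨s1, s2⟩ := ko_sbl s
  obtain ⟨s3, s4⟩ := ko_sbl s1
  have v := ko_val hh (k_dart k).1 126 (by norm_num) (by norm_num) s3 (by decide)
  refine (all_bnd _ D σ α N hc m nd h hh hg.ok _ v).2.2 0 (by norm_num)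
    ((cj_iff _ _).2 ⟨s4, (cj_iff _ _).2 ⟨s2, t⟩⟩) ?_
  exact rs_fact hh (rs_val v) 126 (by norm_num) (by norm_num)
    (by rw [← k_cell]; exact ko_sbb s3 (by decide))

theorem op_red : GoodO g σ α N (oRed g) := by
  intro ih IH lim hl m nd e c H
  simp only [oRed, frc_eq, sel_eq] at H
  split_ifs at H with t
  · exact ⟨k_shr16 (k_fin H), fun h hh _ => hg.red D σ α N hc _ _ _ h t hh⟩
  · exact absurd rfl H

set_option maxRecDepth 100000 in
theorem op_nog (cs : ℕ → ℕ) (k : ℕ) : GoodO g σ α N (oNog g cs k) := by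
  refine good_nr ?_ (fun _ => ?_) _
  all_goals
    intro ih IH lim hl m nd e c H
    obtain ⟨z1, z2⟩ := ko_add0 (k_fin H)
    obtain ⟨z3, z4⟩ := ko_add0 z2
    refine ⟨k_shr16 z4, fun h hh _ => ?_⟩
    have mt := fun q p => stKmtc g hg D σ α N hc m nd h hh 128 q p _ _ _
      (rs_self (k_dart (Nat.shiftRight c 9)).1) rfl
    have p := hl _ (Nat.sub_eq_zero_iff_le.1 z3)
  · exact p D σ α N hc _ ((mt _ _).1 z1)
  · exact p D σ⁻¹ α N (all_mir D σ α N hc) _ ((mt _ _).2 z1)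

variable (hev : St_kev)
include hev

theorem op_evm (k : ℕ) : GoodO g σ α N (oEvm g k) := by
  intro ih IH lim hl m nd e c H
  obtain ⟨-, n1, b1⟩ := IH _ hl _ _ _ _ H
  refine ⟨ko_le n1, fun h hh A => ?_⟩
  obtain ⟨v, e1⟩ := ko_vb hh (k_dart _).1 n1
  exact ko_old b1 e1 A (ko_evm hc hh v (chk_land_le _ 1)
    ((hev g hg D σ α N hc).2 m nd h hh _ _ _ _ (rs_val v)))

theorem op_eve (k : ℕ) : GoodO g σ α N (oEve g k) := by
  intro ih IH lim hl m nd e c H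
  obtain ⟨-, n1, b1⟩ := IH _ hl _ _ _ _ H
  refine ⟨ko_le n1, fun h hh A => ?_⟩
  obtain ⟨v, e1⟩ := ko_vb hh (k_dart _).1 n1
  exact ko_old b1 e1 (aux_put A v (Nat.lt_succ_of_le (chk_land_le _ 3))
    ((hev g hg D σ α N hc).2 m nd h hh _ _ _ _ (rs_val v))) hh

theorem op_evb (k : ℕ) : GoodO g σ α N (oEvb g k) := by
  intro ih IH lim hl m nd e c H
  obtain ⟨-, n1, b1⟩ := IH _ hl _ _ _ _ H
  refine ⟨ko_le n1, fun h hh A => ?_⟩
  obtain ⟨v, e1⟩ := ko_vb hh (k_dart _).1 n1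
  have ev := (hev g hg D σ α N hc).2 m nd h hh (Nat.land (Nat.shiftRight k 7) 1)
    (Nat.shiftRight k 9) _ _ (rs_val v)
  exact ko_old b1 e1 (aux_put A v (lt_of_le_of_lt (chk_land_le _ 1) (by norm_num)) ev)
    (ko_evm hc hh v (chk_land_le _ 1) ev)

theorem op_amt (k : ℕ) : GoodO g σ α N (oAmt g k) := by
  intro ih IH lim hl m nd e c H
  obtain ⟨z1, z2⟩ := ko_add0 (k_fin H)
  refine ⟨k_shr16 z1, fun h hh _ => ?_⟩
  have r := rs_self (nd := nd) (h := h) (k_dart (Nat.shiftRight c 9)).1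
  have hk := chk_land_le (Nat.shiftRight k 7) 1
  have e1 := ko_lvl ((hev g hg D σ α N hc).2 m nd h hh (Nat.land (Nat.shiftRight k 7) 1)
    (Nat.shiftRight k 9) _ _ r)
  have e2 := lv_bit (s := 2 * Nat.land (Nat.shiftRight k 7) 1) (by omega) (rs_fact hh r)
  have e3 := lv_fv g.R σ α N (s := 2 * Nat.land (Nat.shiftRight k 7) 1) (by omega)
    (h (Nat.land (Nat.shiftRight c 9) 65408))
  rw [(lv_kof hk).2.1] at e3
  have e4 := ko_sbb (K := 2 ^ 10 - 1) (k_sb (k_xor0 z2))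
    ((Nat.testBit_two_pow_sub_one _ _).trans (decide_eq_true e3))
  rw [← ko_kf hk, ← k_shr] at e2
  exact absurd ((Nat.testBit_or _ _ _).symm.trans e4) (by
    rw [show Nat.testBit _ _ = false from e1, show Nat.testBit _ _ = false from e2]
    decide)

end

end Pool.Agent.Lib.G6.K
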