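import Pool.Agent.Lib.G6.KDef

set_option autoImplicit false

/-! Tables and numbers given by pieces. -/

namespace Pool.Agent.Lib.G6.K

noncomputable section

/-- eight pieces of 63 bits, then `r` -/
def J (a0 a1 a2 a3 a4 a5 a6 a7 r : ℕ) : ℕ :=
  (Nat.add a0 (Nat.shiftLeft (Nat.add a1 (Nat.shiftLeft (Nat.add a2 (Nat.shiftLeft (Nat.add a3 (Nat.shiftLeft (Nat.add a4 (Nat.shiftLeft (Nat.add a5 (Nat.shiftLeft (Nat.add a6 (Nat.shiftLeft (Nat.add a7 (Nat.shiftLeft r (nat_lit 63))) (nat_lit 63))) (nat_lit 63))) (nat_lit 63))) (nat_lit 63))) (nat_lit 63))) (nat_lit 63))) (nat_lit 63)))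

def J1 (a r : ℕ) : ℕ := (Nat.add a (Nat.shiftLeft r (nat_lit 63)))

/-- a table of 16 numbers -/
def t16 (a0 a1 a2 a3 a4 a5 a6 a7 a8 a9 a10 a11 a12 a13 a14 a15 j : ℕ) : ℕ :=
  (@Bool.rec (fun _ => ℕ) (@Bool.rec (fun _ => ℕ) (@Bool.rec (fun _ => ℕ) (@Bool.rec (fun _ => ℕ) a15
    a14 (Nat.ble (Nat.land j (nat_lit 15)) (nat_lit 14)))
    (@Bool.rec (fun _ => ℕ) a13
    a12 (Nat.ble (Nat.land j (nat_lit 15)) (nat_lit 12))) (Nat.ble (Nat.land j (nat_lit 15)) (nat_lit 13)))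
    (@Bool.rec (fun _ => ℕ) (@Bool.rec (fun _ => ℕ) a11
    a10 (Nat.ble (Nat.land j (nat_lit 15)) (nat_lit 10)))
    (@Bool.rec (fun _ => ℕ) a9
    a8 (Nat.ble (Nat.land j (nat_lit 15)) (nat_lit 8))) (Nat.ble (Nat.land j (nat_lit 15)) (nat_lit 9))) (Nat.ble (Nat.land j (nat_lit 15)) (nat_lit 11)))
    (@Bool.rec (fun _ => ℕ) (@Bool.rec (fun _ => ℕ) (@Bool.rec (fun _ => ℕ) a7
    a6 (Nat.ble (Nat.land j (nat_lit 15)) (nat_lit 6)))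
    (@Bool.rec (fun _ => ℕ) a5
    a4 (Nat.ble (Nat.land j (nat_lit 15)) (nat_lit 4))) (Nat.ble (Nat.land j (nat_lit 15)) (nat_lit 5)))
    (@Bool.rec (fun _ => ℕ) (@Bool.rec (fun _ => ℕ) a3
    a2 (Nat.ble (Nat.land j (nat_lit 15)) (nat_lit 2)))
    (@Bool.rec (fun _ => ℕ) a1
    a0 (Nat.ble (Nat.land j (nat_lit 15)) (nat_lit 0))) (Nat.ble (Nat.land j (nat_lit 15)) (nat_lit 1))) (Nat.ble (Nat.land j (nat_lit 15)) (nat_lit 3))) (Nat.ble (Nat.land j (nat_lit 15)) (nat_lit 7)))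

/-- a table of 16 tables -/
def T16 (s : ℕ) (a0 a1 a2 a3 a4 a5 a6 a7 a8 a9 a10 a11 a12 a13 a14 a15 : ℕ → ℕ) (j : ℕ) : ℕ :=
  (@Bool.rec (fun _ => ℕ) (@Bool.rec (fun _ => ℕ) (@Bool.rec (fun _ => ℕ) (@Bool.rec (fun _ => ℕ) (a15 j)
    (a14 j) (Nat.ble (Nat.land (Nat.shiftRight j s) (nat_lit 15)) (nat_lit 14)))
    (@Bool.rec (fun _ => ℕ) (a13 j)
    (a12 j) (Nat.ble (Nat.land (Nat.shiftRight j s) (nat_lit 15)) (nat_lit 12))) (Nat.ble (Nat.land (Nat.shiftRight j s) (nat_lit 15)) (nat_lit 13)))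
    (@Bool.rec (fun _ => ℕ) (@Bool.rec (fun _ => ℕ) (a11 j)
    (a10 j) (Nat.ble (Nat.land (Nat.shiftRight j s) (nat_lit 15)) (nat_lit 10)))
    (@Bool.rec (fun _ => ℕ) (a9 j)
    (a8 j) (Nat.ble (Nat.land (Nat.shiftRight j s) (nat_lit 15)) (nat_lit 8))) (Nat.ble (Nat.land (Nat.shiftRight j s) (nat_lit 15)) (nat_lit 9))) (Nat.ble (Nat.land (Nat.shiftRight j s) (nat_lit 15)) (nat_lit 11)))
    (@Bool.rec (fun _ => ℕ) (@Bool.rec (fun _ => ℕ) (@Bool.rec (fun _ => ℕ) (a7 j)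
    (a6 j) (Nat.ble (Nat.land (Nat.shiftRight j s) (nat_lit 15)) (nat_lit 6)))
    (@Bool.rec (fun _ => ℕ) (a5 j)
    (a4 j) (Nat.ble (Nat.land (Nat.shiftRight j s) (nat_lit 15)) (nat_lit 4))) (Nat.ble (Nat.land (Nat.shiftRight j s) (nat_lit 15)) (nat_lit 5)))
    (@Bool.rec (fun _ => ℕ) (@Bool.rec (fun _ => ℕ) (a3 j)
    (a2 j) (Nat.ble (Nat.land (Nat.shiftRight j s) (nat_lit 15)) (nat_lit 2)))
    (@Bool.rec (fun _ => ℕ) (a1 j)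
    (a0 j) (Nat.ble (Nat.land (Nat.shiftRight j s) (nat_lit 15)) (nat_lit 0))) (Nat.ble (Nat.land (Nat.shiftRight j s) (nat_lit 15)) (nat_lit 1))) (Nat.ble (Nat.land (Nat.shiftRight j s) (nat_lit 15)) (nat_lit 3))) (Nat.ble (Nat.land (Nat.shiftRight j s) (nat_lit 15)) (nat_lit 7)))

/-- a table of 4 tables -/
def T4 (s : ℕ) (a0 a1 a2 a3 : ℕ → ℕ) (j : ℕ) : ℕ :=
  (@Bool.rec (fun _ => ℕ) (@Bool.rec (fun _ => ℕ) (a3 j)
    (a2 j) (Nat.ble (Nat.shiftRight j s) (nat_lit 2)))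
    (@Bool.rec (fun _ => ℕ) (a1 j)
    (a0 j) (Nat.ble (Nat.shiftRight j s) (nat_lit 0))) (Nat.ble (Nat.shiftRight j s) (nat_lit 1)))

def z : ℕ := nat_lit 0
def Z (_ : ℕ) : ℕ := nat_lit 0

end

end Pool.Agent.Lib.G6.K
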