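import Pool.Agent.Lib.G6.Blue
import Pool.Agent.Lib.MP_bfaad3_co.PM1

set_option autoImplicit false

/-! The four fields of levels and amount classes. -/

namespace Pool.Agent.Lib.G6

open Equiv
open Pool.Agent.Lib.MP_bfaad3_co (frc sel sb sel_eq sb_iff)

theorem lv_low (a i : ℕ) : (low a).testBit i = decide (i < a) := by
  change (1 <<< a - 1).testBit i = _
  rw [Nat.one_shiftLeft, Nat.testBit_two_pow_sub_one]

theorem lv_hig (a i : ℕ) : (hig a).testBit i = true ↔ a ≤ i ∧ i < 10 := by
  change ((2 ^ 10 - 1) &&& (2 ^ 10 - 1) <<< a).testBit i = true ↔ _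
  simp only [Nat.testBit_and, Nat.testBit_shiftLeft, Nat.testBit_two_pow_sub_one, Bool.and_eq_true,
    decide_eq_true_eq]
  omega

theorem lv_mn (a b : ℕ) : mn a b = min a b := by
  rw [mn, sel_eq]
  simp only [Nat.ble_eq]
  split_ifs <;> omega

theorem lv_kof {k : ℕ} (hk : k ≤ 1) : kof k = fo (2 * k) ∧ fw (2 * k) = 10 ∧
    kof k + 10 = fo (2 * k + 1) := by
  interval_cases k <;> decide

theorem lv_fo {s : ℕ} (hs : s ≤ 3) : 92 ≤ fo s ∧ fo s + fw s ≤ 124 := by
  interval_cases s <;> decide

theorem lv_top : ∀ x < 1024, ∀ j < 10, top10 x ≤ 8 → x.testBit j = false → j ≤ top10 x := by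
  decide +kernel

variable (R : Rule) {D : Type} (σ α : Perm D) (N : Set D)

/-- the value described by field `s` -/
noncomputable def fv (s : ℕ) (x : D) : ℕ :=
  if s % 2 = 0 then min (lv R σ α N (s / 2) x) 9 else acl R σ α N (s / 2) x

theorem lv_fv {s : ℕ} (hs : s ≤ 3) (x : D) : fv R σ α N s x < fw s := by
  have h : ∀ k, acl R σ α N k x < 6 := fun k => Nat.lt_succ_of_le (Nat.findGreatest_le 5)
  unfold fv
  interval_cases s
  exacts [Nat.lt_succ_of_le (min_le_right _ 9), h _, Nat.lt_succ_of_le (min_le_right _ 9), h _]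

theorem lv_fv0 (k : ℕ) (x : D) : fv R σ α N (2 * k) x = min (lv R σ α N k x) 9 := by
  unfold fv
  rw [if_pos (by omega), show 2 * k / 2 = k by omega]

theorem lv_fv1 (k : ℕ) (x : D) : fv R σ α N (2 * k + 1) x = acl R σ α N k x := by
  unfold fv
  rw [if_neg (by omega), show (2 * k + 1) / 2 = k by omega]

variable {R σ α N} [Fintype D]

theorem lv_fact {s j : ℕ} (hs : s ≤ 3) (hj : j < fw s) (x : D) :
    Fact R σ α N (fo s + j) x ↔ fv R σ α N s x ≠ j := by
  unfold Fact fv
  interval_cases s
  · rw [show fo 0 = 92 from rfl, show fw 0 = 10 from rfl] at *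
    rw [if_neg (by omega), if_neg (by omega), if_pos (by omega), if_pos rfl]
    change _ ↔ min (lv R σ α N 0 x) 9 ≠ j
    omega
  · rw [show fo 1 = 102 from rfl, show fw 1 = 6 from rfl] at *
    rw [if_neg (by omega), if_neg (by omega), if_neg (by omega), if_pos (by omega),
      if_neg (by omega)]
    change _ ↔ acl R σ α N 0 x ≠ j
    omega
  · rw [show fo 2 = 108 from rfl, show fw 2 = 10 from rfl] at *
    rw [if_neg (by omega), if_neg (by omega), if_neg (by omega), if_neg (by omega),
      if_pos (by omega), if_pos rfl]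
    change _ ↔ min (lv R σ α N 1 x) 9 ≠ j
    omega
  · rw [show fo 3 = 118 from rfl, show fw 3 = 6 from rfl] at *
    rw [if_neg (by omega), if_neg (by omega), if_neg (by omega), if_neg (by omega),
      if_neg (by omega), if_pos (by omega), if_neg (by omega)]
    change _ ↔ acl R σ α N 1 x ≠ j
    omega

/-- the bit of the value is not set -/
theorem lv_bit {m d s : ℕ} {x : D} (hs : s ≤ 3)
    (hf : ∀ i, 64 ≤ i → i < 127 → m.testBit (d + i) = true → Fact R σ α N i x) :
    (Nat.shiftRight m (d + fo s)).testBit (fv R σ α N s x) = false := by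
  have h8 := lv_fv R σ α N hs x
  have h9 := lv_fo hs
  change (m >>> _).testBit _ = false
  rw [Nat.testBit_shiftRight, Nat.add_assoc]
  cases e : m.testBit (d + (fo s + fv R σ α N s x))
  · rfl
  · exact absurd rfl ((lv_fact hs h8 x).1 (hf _ (by omega) (by omega) e))

theorem lv_read {m d s a : ℕ} {x : D} (hs : s ≤ 3)
    (hf : ∀ i, 64 ≤ i → i < 127 → m.testBit (d + i) = true → Fact R σ α N i x)
    (h : sb a (Nat.shiftRight m (d + fo s)) = true) :
    a.testBit (fv R σ α N s x) = false := by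
  cases e : a.testBit (fv R σ α N s x)
  · rfl
  · have := (sb_iff _ _).1 h _ e
    rw [lv_bit hs hf] at this
    exact absurd this (by simp)

theorem lv_put {s a : ℕ} (hs : s ≤ 3) (ha : Bits 0 (fw s) a) {x : D}
    (h : a.testBit (fv R σ α N s x) = false) :
    Facts R σ α N (a <<< fo s) x ∧ Bits 64 127 (a <<< fo s) := by
  have key : ∀ i, (a <<< fo s).testBit i = true →
      ∃ j, j < fw s ∧ i = fo s + j ∧ a.testBit j = true := by
    intro i hi
    rw [Nat.testBit_shiftLeft, Bool.and_eq_true, decide_eq_true_eq] at hi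
    exact ⟨i - fo s, (ha _ hi.2).2, by omega, hi.2⟩
  refine ⟨fun i hi => ?_, fun i hi => ?_⟩
  · obtain ⟨j, h1, rfl, h2⟩ := key i hi
    refine (lv_fact hs h1 x).2 fun e => ?_
    rw [e, h2] at h
    exact absurd h (by simp)
  · obtain ⟨j, h1, rfl, -⟩ := key i hi
    have := lv_fo hs
    omega

end Pool.Agent.Lib.G6
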