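import Pool.Agent.Lib.G6.Blue
import Pool.Agent.Lib.MP_bfaad3_co.PM1

set_option autoImplicit false

/-! Soundness of the overlap checker. -/

namespace Pool.Agent.Lib.G6

open Equiv
open Pool.Agent.Lib.MP_bfaad3_co (frc sel cj dj tb sb BT frc_eq sel_eq cj_iff dj_iff tb_eq sb_iff)

theorem red_two {c : ℕ} {K1 K2 : ℕ → Bool} (h : two c K1 K2 = true) :
    (∃ l, K1 l = true) ∧ ∃ r, K2 r = true := by
  unfold two at h
  rw [frc_eq, frc_eq, cj_iff, frc_eq, frc_eq] at h
  exact ⟨⟨_, h.1⟩, ⟨_, h.2⟩⟩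

theorem red_sel {c t f : Bool} (h : sel c t f = true) :
    (c = true ∧ t = true) ∨ (c = false ∧ f = true) := by
  cases c
  · exact Or.inr ⟨rfl, h⟩
  · exact Or.inl ⟨rfl, h⟩

theorem red_not {c : Bool} : sel c false true = true ↔ c = false := by cases c <;> simp [sel]

theorem red_beq {a b : ℕ} : Nat.beq a b = false ↔ a ≠ b := by
  rw [← Bool.not_eq_true, Nat.beq_eq]

theorem red_ble {a b : ℕ} : Nat.ble a b = false ↔ b < a := by
  rw [← Bool.not_eq_true, Nat.ble_eq, not_le]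

theorem red_zb : Bits 64 127 ZB := by
  intro i hi
  constructor
  · by_contra h
    have k : ∀ i < 64, ZB.testBit i = false := by decide
    rw [k i (by omega)] at hi
    exact absurd hi (by simp)
  · by_contra h
    rw [Nat.testBit_lt_two_pow (lt_of_lt_of_le (by decide : ZB < 2 ^ 127)
      (Nat.pow_le_pow_right (by norm_num) (by omega)))] at hi
    exact absurd hi (by simp)

theorem red_dart {nd c : ℕ} (h : Nat.blt (dart c) nd = true) : Val nd (dart c) := by
  have e : dart c = (Nat.land c 1023 + 1) * 128 := Nat.shiftLeft_eq _ _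
  exact ⟨by omega, Nat.blt_eq.mp h, e ▸ Nat.dvd_mul_left _ _⟩

section

variable {D : Type} {σ α : Perm D} {N : Set D} {nd : ℕ} {h : ℕ → D}

/-- the continuation refutes the invariant -/
def RedG (σ α : Perm D) (N : Set D) (nd : ℕ) (h : ℕ → D) (ih : ℕ → ℕ → ℕ → ℕ → Bool) : Prop :=
  ∀ e n g c k, ih e n g c = true → CInv σ α N nd h e n g k → False

/-- `z` lies in the gap after `x` -/
def RedGap (σ : Perm D) (n : ℕ) (k : ℕ → D) (x : ℕ) (z : D) : Prop :=
  ∃ i, 0 < i ∧ z = (σ ^ i) (k x) ∧ ∀ i' d', 0 < i' → i' ≤ i → EV n d' → (σ ^ i') (k x) ≠ k d'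

variable {e n g : ℕ} {k : ℕ → D} {ih : ℕ → ℕ → ℕ → ℕ → Bool}

theorem red_next (I : CInv σ α N nd h e n g k) {u : ℕ} (hu : EV n u) (hg : egap e u = false) :
    σ (k u) = k (enx e u) := by
  obtain ⟨j, -, h1, h2, -⟩ := I.emb.ret u hu
  rw [h2 hg, pow_one] at h1
  exact h1

theorem red_pow (C : Ctx σ α N) (x : D) (i : ℕ) : (σ ^ i) x ∈ N ↔ x ∈ N := by
  induction i with
  | zero => rfl
  | succ i ih => rw [pow_succ', Perm.mul_apply, C.cls.nσ, ih]

theorem red_dang (C : Ctx σ α N) (I : CInv σ α N nd h e n g k) {w x : ℕ} (hw : EV n w)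
    (hx : EV n x) (h0 : eal e w = 0) (hz : α (k w) = k x) : eal e x = 0 ∧ x ≠ w := by
  refine ⟨?_, fun e1 => C.fpf _ (e1 ▸ hz)⟩
  rcases I.emb.al x hx with h1 | ⟨h1, h2, h3⟩
  · exact h1
  · rw [← hz, C.cls.inv] at h3
    rw [I.emb.inj _ _ h1 hw h3, h0] at h2
    exact absurd hx.1 (by omega)

variable [Finite D]

theorem red_setG (hE : St_eop) (C : Ctx σ α N) (G : RedG σ α N nd h ih)
    (I : CInv σ α N nd h e n g k) {q t c : ℕ} (hq : Val nd q) (ht : EV n t) (hk : k t = h q)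
    (H : setG g q t (fun g' => ih e n g' c) = true) : False := by
  unfold setG at H
  rw [frc_eq] at H
  rcases red_sel H with ⟨h1, H⟩ | ⟨h1, H⟩
  · rw [frc_eq] at H
    exact G _ _ _ _ _ H (((hE D σ α N C nd h).2 e n g k I).1 q t hq ht (Nat.eq_of_beq_eq_true h1) hk)
  · rcases red_sel H with ⟨-, H⟩ | ⟨h2, -⟩
    · exact G _ _ _ _ _ H I
    · rcases I.gg q hq with h3 | ⟨h3, h4⟩
      · exact red_beq.1 h1 h3
      · exact red_beq.1 h2 (I.emb.inj _ _ h3 ht (h4.trans hk.symm))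

theorem red_out {z : D} (H : ∀ x, EV n x → k x ≠ z ∧ ¬ RedGap σ n k x z) (d : ℕ) (hd : EV n d) :
    ¬ σ.SameCycle (k d) z := by
  classical
  intro hc
  have ex : ∃ i, ∃ d, EV n d ∧ (σ ^ i) (k d) = z := by
    obtain ⟨i, hi⟩ := hc.exists_nat_pow_eq
    exact ⟨i, d, hd, hi⟩
  obtain ⟨x, hx, h1⟩ := Nat.find_spec ex
  refine (H x hx).2 ⟨Nat.find ex, Nat.pos_of_ne_zero fun h0 => ?_, h1.symm,
    fun i' d' k1 k2 k3 k4 => ?_⟩
  · rw [h0] at h1
    exact (H x hx).1 h1
  · refine Nat.find_min ex (m := Nat.find ex - i') (by omega) ⟨d', k3, ?_⟩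
    rw [← k4, ← Perm.mul_apply, ← pow_add, Nat.sub_add_cancel k2, h1]

theorem red_cand (hP : St_plan) (hE : St_eop) (C : Ctx σ α N) (G : RedG σ α N nd h ih)
    (I : CInv σ α N nd h e n g k) {w q : ℕ} {t : Bool} (hn : n ≤ 32000) (hw : EV n w)
    (h0 : eal e w = 0) (hq : Val nd q) (hg : gm g q = 0) (hz : α (k w) = h q)
    (ht : t = true ↔ h q ∈ N) (j : ℕ) : 64 * j < n → ∀ c,
      cand ih e n g w q t (hol (eph e) w) j c = true →
      (∀ x, EV n x → 64 * j < x → k x ≠ h q ∧ ¬ RedGap σ n k x (h q)) → False := by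
  have E := (hE D σ α N C nd h).2
  have n1 := I.n1
  have n2 := I.n2
  have up : ∀ a d, EV n d → EV (n + a) d := fun a d hd => ⟨hd.1, by have := hd.2.1; omega, hd.2.2⟩
  have nw : ∀ a, 0 < a → EV (n + a) n := fun a ha => ⟨by omega, by omega, n1⟩
  induction j with
  | zero =>
    intro _ c H hx
    have out := red_out (σ := σ) fun x hx' => hx x hx' hx'.1
    rw [← hz] at out
    obtain ⟨k1, k2⟩ := (E e n g k I).2.2.2.2 hn w hw h0 out
    change frc (put g q n) (fun g' => sel t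
      (frc (elnk (enewN e n) w n) fun e' => frc (Nat.add n 64) fun n' => ih e' n' g' c)
      (frc (elnk (enewZ e n) w n) fun e' => frc (Nat.add n 192) fun n' => ih e' n' g' c)) = true
      at H
    rw [frc_eq] at H
    rcases red_sel H with ⟨h1, H⟩ | ⟨h1, H⟩
    · rw [frc_eq, frc_eq] at H
      obtain ⟨k', -, a2, a3⟩ := k1 (hz ▸ ht.1 h1)
      exact G _ _ _ _ _ H ((E _ _ _ _ a3).1 q n hq (nw _ (by norm_num)) hg (a2.trans hz))
    · rw [frc_eq, frc_eq] at H
      obtain ⟨k', -, a2, a3⟩ := k2 (by rw [hz, ← ht, h1]; simp)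
      exact G _ _ _ _ _ H ((E _ _ _ _ a3).1 q n hq (nw _ (by norm_num)) hg (a2.trans hz))
  | succ j ihj =>
    intro hj c H hx
    obtain ⟨x, ex⟩ : ∃ x, x = Nat.shiftLeft (Nat.succ j) 6 := ⟨_, rfl⟩
    have ex' : x = (j + 1) * 64 := ex.trans (Nat.shiftLeft_eq _ _)
    have hxv : EV n x := ⟨by omega, by omega, ex' ▸ Nat.dvd_mul_left _ _⟩
    have fin : ∀ c, cand ih e n g w q t (hol (eph e) w) j c = true → k x ≠ h q →
        ¬ RedGap σ n k x (h q) → False := by
      intro c H a1 a2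
      refine ihj (by omega) c H fun y hy hy' => ?_
      by_cases e1 : y = x
      · exact e1 ▸ ⟨a1, a2⟩
      · have := hy.2.2
        exact hx _ hy (by omega)
    change frc (Nat.shiftLeft (Nat.succ j) 6) (fun x =>
      sel (sel t (eN e x) (sel (eN e x) false true))
        ((fun (K : ℕ → Bool) =>
          sel (cj (Nat.beq (eal e x) 0) (cj (inS (hol (eph e) w) x) (sel (Nat.beq x w) false true)))
            (two c (fun l => frc (elnk e w x) fun e' => frc (put g q x) fun g' => ih e' n g' l) K)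
            (K c))
          (fun c => sel (cj (egap e x) (inS (hol (eph e) w) (enx e x)))
            (two c (fun l => frc (elnk (eins e n x 3) w n) fun e' => frc (put g q n) fun g' =>
              frc (Nat.add n 64) fun n' => ih e' n' g' l)
              (cand ih e n g w q t (hol (eph e) w) j))
            (cand ih e n g w q t (hol (eph e) w) j c)))
        (cand ih e n g w q t (hol (eph e) w) j c)) = true at H
    rw [frc_eq, ← ex] at H
    have P := hP D σ α N C nd h e n g k I w x hw hxv h0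
    rcases red_sel H with ⟨-, H⟩ | ⟨h1, H⟩
    · by_cases a1 : k x = h q
      · obtain ⟨b1, b2⟩ := red_dang C I hw hxv h0 (hz.trans a1.symm)
        rcases red_sel H with ⟨-, H⟩ | ⟨h2, -⟩
        · obtain ⟨l, H⟩ := (red_two H).1
          rw [frc_eq, frc_eq] at H
          exact G _ _ _ _ _ H ((E _ _ _ _ ((E e n g k I).2.1 w x hw hxv h0 b1
            (a1.trans hz.symm))).1 q x hq hxv hg a1)
        · rw [← Bool.not_eq_true, cj_iff, cj_iff, red_not, red_beq, Nat.beq_eq] at h2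
          exact h2 ⟨b1, P.1 (hz.trans a1.symm), b2⟩
      · obtain ⟨c, H⟩ : ∃ c, sel (cj (egap e x) (inS (hol (eph e) w) (enx e x)))
            (two c (fun l => frc (elnk (eins e n x 3) w n) fun e' => frc (put g q n) fun g' =>
              frc (Nat.add n 64) fun n' => ih e' n' g' l)
              (cand ih e n g w q t (hol (eph e) w) j))
            (cand ih e n g w q t (hol (eph e) w) j c) = true := by
          rcases red_sel H with ⟨-, H⟩ | ⟨-, H⟩
          · exact (red_two H).2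
          · exact ⟨c, H⟩
        by_cases a2 : RedGap σ n k x (h q)
        · obtain ⟨i, i1, i2, i3⟩ := a2
          have b1 : egap e x = true := by
            by_contra b
            exact i3 1 _ one_pos i1 (I.emb.nx x hxv).1
              (by rw [pow_one]; exact red_next I hxv (by simpa using b))
          rcases red_sel H with ⟨-, H⟩ | ⟨h2, -⟩
          · obtain ⟨l, H⟩ := (red_two H).1
            rw [frc_eq, frc_eq, frc_eq] at H
            obtain ⟨b2, b3, b4, -⟩ := (E e n g k I).2.2.2.1 hn x i hxv b1 i1 i3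
            have b5 : Function.update k n ((σ ^ i) (k x)) n = h q := by
              rw [Function.update_self, i2]
            exact G _ _ _ _ _ H ((E _ _ _ _ ((E _ _ _ _ b2).2.1 w n (up _ _ hw)
              (nw _ (by norm_num)) ((b4 w hw).trans h0) b3 (by
                rw [b5, Function.update_of_ne (ne_of_lt hw.2.1), hz]))).1 q n hq
              (nw _ (by norm_num)) hg b5)
          · rw [← Bool.not_eq_true, cj_iff] at h2
            exact h2 ⟨b1, P.2 i i1 (hz.trans i2) i3⟩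
        · rcases red_sel H with ⟨-, H⟩ | ⟨-, H⟩
          · obtain ⟨c, H⟩ := (red_two H).2
            exact fin c H a1 a2
          · exact fin c H a1 a2
    · have b : ¬ (k x ∈ N ↔ h q ∈ N) := by
        rw [← ht, ← I.emb.ty x hxv]
        revert h1
        cases t <;> cases eN e x <;> simp [sel]
      refine fin c H (fun a => b (by rw [a])) ?_
      rintro ⟨i, -, i2, -⟩
      exact b (by rw [i2, red_pow C])

end

section

variable {R : Rule} {D : Type} [Fintype D] {σ α : Perm D} {N : Set D} {m nd : ℕ} {h : ℕ → D}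
  {e n g : ℕ} {k : ℕ → D} {ih : ℕ → ℕ → ℕ → ℕ → Bool}

theorem red_isN (hT : St_tab) (C : Ctx σ α N) (H : Hom R σ α N m nd h) {p : ℕ} (hp : Val nd p)
    (hb : tb m (Nat.add p 64) = true) : h p ∈ N := by
  rw [tb_eq] at hb
  exact (hT R D σ α N C (h p) 0).2.2.2.2.2.1.1 (H.hf p 64 hp le_rfl (by norm_num) hb)

theorem red_isZ (hR : St_rp) (hT : St_tab) (C : Ctx σ α N) (H : Hom R σ α N m nd h) {p : ℕ}
    (hp : Val nd p) (hb : sb ZB (Nat.shiftRight m p) = true) : h p ∉ N :=
  (hT R D σ α N C (h p) 0).2.2.2.1.1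
    ((hR R D σ α N C m nd h H p (h p) (Or.inr ⟨hp, rfl⟩)).2.2.2.2.2.2.2.2.2.1 ZB red_zb hb)

theorem red_A (hR : St_rp) (hT : St_tab) (hP : St_plan) (hE : St_eop) (C : Ctx σ α N)
    (H : Hom R σ α N m nd h) (G : RedG σ α N nd h ih) (I : CInv σ α N nd h e n g k)
    {op p w c : ℕ} (hp : Val nd p) (hw : EV n w) (hk : k w = h p)
    (A : cstepA m ih e n g op p w c = true) : False := by
  have E := (hE D σ α N C nd h).2 e n g k I
  unfold cstepA at A
  rcases red_sel A with ⟨-, A⟩ | ⟨-, A⟩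
  · rw [cj_iff, frc_eq, cj_iff, cj_iff] at A
    obtain ⟨hn, ⟨hg, -⟩, A⟩ := A
    have hu : EV n (sel (Nat.beq op 0) w (epv e w)) := by
      cases Nat.beq op 0
      · exact (I.emb.pv w hw).1
      · exact hw
    generalize sel (Nat.beq op 0) w (epv e w) = u at hu hg A
    obtain ⟨⟨l, A1⟩, r, A2⟩ := red_two A
    rw [frc_eq] at A1
    rw [frc_eq, frc_eq] at A2
    obtain ⟨j, j1, j2, -, j3⟩ := I.emb.ret u hu
    by_cases e1 : j = 1
    · rw [e1, pow_one] at j2
      exact G _ _ _ _ _ A1 (E.2.2.1 u hu hg j2)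
    · revert A2
      cases Nat.beq op 0 <;> intro A2
      · exact G _ _ _ _ _ A2 ((E.2.2.2.1 (Nat.le_of_ble_eq_true hn) u (j - 1) hu hg (by omega)
          fun i' d' a b => j3 i' d' a (by omega)).2.2.2.2 (by rw [Nat.sub_add_cancel j1, j2]))
      · exact G _ _ _ _ _ A2 ((E.2.2.2.1 (Nat.le_of_ble_eq_true hn) u 1 hu hg one_pos
          fun i' d' a b => j3 i' d' a (by omega)).2.2.2.1 rfl)
  rcases red_sel A with ⟨-, A⟩ | ⟨-, A⟩
  · rcases red_sel A with ⟨-, A⟩ | ⟨-, A⟩
    · rw [frc_eq, cj_iff, cj_iff, red_not, Nat.ble_eq] at A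
      obtain ⟨a1, a2, A⟩ := A
      obtain ⟨b1, b2⟩ := (H.hn p hp).resolve_left (by omega)
      exact red_setG hE C G I b1 (I.emb.nx w hw).1 (by rw [← red_next I hw a2, hk, b2]) A
    · rw [frc_eq, cj_iff, cj_iff, red_not, Nat.ble_eq] at A
      obtain ⟨a1, a2, A⟩ := A
      obtain ⟨b1, b2⟩ := (H.hp p hp).resolve_left (by omega)
      refine red_setG hE C G I b1 (I.emb.pv w hw).1 ?_ A
      rw [b2, ← hk, Perm.eq_inv_iff_eq, red_next I (I.emb.pv w hw).1 a2, (I.emb.pv w hw).2]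
  rw [frc_eq, cj_iff, frc_eq, Nat.ble_eq] at A
  obtain ⟨a1, A⟩ := A
  obtain ⟨b1, b2⟩ := (H.ha p hp).resolve_left (by omega)
  rw [← hk] at b2
  rcases red_sel A with ⟨a2, A⟩ | ⟨a2, A⟩
  · have h0 := Nat.eq_of_beq_eq_true a2
    rw [frc_eq, frc_eq] at A
    rcases red_sel A with ⟨a3, A⟩ | ⟨a3, A⟩
    · rw [cj_iff, Nat.ble_eq] at A
      obtain ⟨hn, A⟩ := A
      have e1 : Nat.pred (Nat.shiftRight n 6) = n / 64 - 1 := by
        rw [show Nat.shiftRight n 6 = n / 2 ^ 6 from Nat.shiftRight_eq_div_pow n 6]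
        rfl
      have n1 := I.n1
      have n2 := I.n2
      have last : ∀ x, EV n x → 64 * Nat.pred (Nat.shiftRight n 6) < x →
          k x ≠ h (al m p) ∧ ¬ RedGap σ n k x (h (al m p)) := by
        rintro x ⟨-, x1, x2⟩ x3
        omega
      rcases red_sel A with ⟨a4, A⟩ | ⟨-, A⟩
      · exact red_cand hP hE C G I hn hw h0 b1 (Nat.eq_of_beq_eq_true a3) b2.symm
          (by simpa using red_isN hT C H b1 a4) _ (by omega) c A last
      · rw [cj_iff] at A
        exact red_cand hP hE C G I hn hw h0 b1 (Nat.eq_of_beq_eq_true a3) b2.symm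
          (by simpa using red_isZ hR hT C H b1 A.1) _ (by omega) c A.2 last
    · obtain ⟨t1, t2⟩ := (I.gg _ b1).resolve_left (red_beq.1 a3)
      obtain ⟨t3, t4⟩ := red_dang C I hw t1 h0 (t2.trans b2).symm
      rcases red_sel A with ⟨-, A⟩ | ⟨a4, -⟩
      · rw [frc_eq] at A
        exact G _ _ _ _ _ A (E.2.1 w _ hw t1 h0 t3 (t2.trans b2))
      · rw [← Bool.not_eq_true, cj_iff, cj_iff, red_not, red_beq, Nat.beq_eq] at a4
        exact a4 ⟨t3, (hP D σ α N C nd h e n g k I w _ hw t1 h0).1 (t2.trans b2).symm, t4⟩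
  · obtain ⟨t1, -, t2⟩ := (I.emb.al w hw).resolve_left (red_beq.1 a2)
    exact red_setG hE C G I b1 t1 (t2.trans b2.symm) A

theorem red_B (hR : St_rp) (hT : St_tab) (hC : St_clf) {cfgs : BT (ℕ × ℕ)} (hc : cfgs.All CfgW)
    (C : Ctx σ α N) (H : Hom R σ α N m nd h) (I : CInv σ α N nd h e n g k)
    {op p w c : ℕ} (hp : Val nd p) (hw : EV n w) (hk : k w = h p)
    (A : cstepB cfgs m e n op p w c = true) : False := by
  have L := hC D σ α N C nd h e n g k I
  have ty := I.emb.ty w hw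
  rw [hk] at ty
  unfold cstepB at A
  rcases red_sel A with ⟨-, A⟩ | ⟨-, A⟩
  · rcases red_sel A with ⟨-, A⟩ | ⟨-, A⟩
    · rcases red_sel A with ⟨a1, A⟩ | ⟨a1, A⟩
      · have b := L.2.2 w _ _ hw A
        have b1 := ty.1 a1
        have b2 := C.n2 _ b1
        rw [hk, dj_iff, Nat.beq_eq, tb_eq] at b
        have b3 : mn (deg σ (h p)) 6 = min (deg σ (h p)) 6 := by
          unfold mn
          simp only [sel_eq, Nat.ble_eq]
          split_ifs <;> omega
        have b4 := H.hf p (63 + min (deg σ (h p)) 6) hp (by omega) (by omega) (by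
          rw [← add_assoc, ← b3]
          exact b.resolve_left (by omega))
        unfold Fact vt at b4
        rw [if_pos (by omega), if_neg (not_not.2 b1)] at b4
        split_ifs at b4 <;> omega
      · rw [ty.2 (red_isN hT C H hp A)] at a1
        exact absurd a1 (by simp)
    · rw [cj_iff] at A
      exact red_isZ hR hT C H hp A.2 (ty.1 A.1)
  rcases red_sel A with ⟨-, A⟩ | ⟨-, A⟩
  · rw [frc_eq, cj_iff, cj_iff, cj_iff, cj_iff, Nat.blt_eq, Nat.blt_eq, Nat.blt_eq] at A
    obtain ⟨a1, a2, a3, a4, a5⟩ := A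
    have hx : EV n (Nat.shiftLeft (Nat.land c 511) 6) :=
      ⟨a1, a2, Nat.land c 511, (Nat.shiftLeft_eq _ _).trans (Nat.mul_comm _ _)⟩
    obtain ⟨b1, -, b2⟩ := (I.emb.al _ hx).resolve_left (by omega)
    exact C.nn _ ((I.emb.ty _ hx).1 a3) (b2 ▸ (I.emb.ty _ b1).1 a5)
  rcases red_sel A with ⟨-, A⟩ | ⟨-, A⟩
  · exact L.2.1 _ _ A
  · have b := Pool.Agent.Lib.MP_bfaad3_co.BT.All.get hc (Nat.land (Nat.shiftRight c 1) 65535)
    generalize cfgs.get (Nat.land (Nat.shiftRight c 1) 65535) = K at A b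
    exact L.1 K.1 K.2 _ _ b A

theorem red_chk (hR : St_rp) (hT : St_tab) (hP : St_plan) (hE : St_eop) (hC : St_clf)
    {cfgs : BT (ℕ × ℕ)} (hc : cfgs.All CfgW) (C : Ctx σ α N) (H : Hom R σ α N m nd h)
    (fuel : ℕ) : RedG σ α N nd h (cchk cfgs m nd fuel) := by
  induction fuel with
  | zero => exact fun e n g c k A _ => absurd A (by simp [cchk])
  | succ f ih =>
    intro e n g c k A I
    change frc (Nat.land c 15) (fun op =>
      frc (dart (Nat.shiftRight c 4)) fun p => frc (Nat.shiftRight c 14) fun c' =>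
        cj (Nat.blt p nd) (frc (gm g p) fun w => cj (Nat.blt 0 w)
          (sel (Nat.ble op 4) (cstepA m (cchk cfgs m nd f) e n g op p w c')
            (cstepB cfgs m e n op p w c')))) = true at A
    rw [frc_eq, frc_eq, frc_eq, cj_iff, frc_eq, cj_iff] at A
    obtain ⟨a1, a2, A⟩ := A
    have hp := red_dart a1
    obtain ⟨b1, b2⟩ := (I.gg _ hp).resolve_left (Nat.blt_eq.mp a2).ne'
    rcases red_sel A with ⟨-, A⟩ | ⟨-, A⟩
    · exact red_A hR hT hP hE C H ih I hp b1 b2 A
    · exact red_B hR hT hC hc C H I hp b1 b2 A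

end

theorem stRED (hR : St_rp) (hT : St_tab) (hP : St_plan) (hE : St_eop) (hC : St_clf) : St_red := by
  intro R cfgs hc D _ σ α N C m nd c h A H
  have G := red_chk hR hT hP hE hC hc C H 1000
  unfold red at A
  rw [frc_eq, cj_iff, frc_eq, frc_eq] at A
  obtain ⟨a1, A⟩ := A
  have hp := red_dart a1
  have E := (hE D σ α N C nd h).1 _ hp
  rcases red_sel A with ⟨a2, A⟩ | ⟨-, A⟩
  · rw [frc_eq] at A
    obtain ⟨k, I⟩ := E.1 (red_isN hT C H hp a2)
    exact G _ _ _ _ _ A I
  · rw [cj_iff, frc_eq] at A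
    obtain ⟨k, I⟩ := E.2 (red_isZ hR hT C H hp A.1)
    exact G _ _ _ _ _ A.2 I

end Pool.Agent.Lib.G6
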